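import Pool.Agent.Lib.MP_10e52e_an.Calc

/-! Translations, reflections, swap; periodicity. -/

namespace Pool.Agent.AO

open MeasureTheory Set Filter Topology
open scoped ContDiff

section Symmetries

theorem Dv_translate (f : ℝ × ℝ → ℝ) (a v x : ℝ × ℝ) :
    Dv v (fun y => f (y + a)) x = Dv v f (x + a) := by
  simp only [Dv]; rw [fderiv_comp_add_right]

theorem D1_translate (f : ℝ × ℝ → ℝ) (a x : ℝ × ℝ) :
    D1 (fun y => f (y + a)) x = D1 f (x + a) := Dv_translate f a _ x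

theorem D2_translate (f : ℝ × ℝ → ℝ) (a x : ℝ × ℝ) :
    D2 (fun y => f (y + a)) x = D2 f (x + a) := Dv_translate f a _ x

theorem Lap_translate (f : ℝ × ℝ → ℝ) (a x : ℝ × ℝ) :
    Lap (fun y => f (y + a)) x = Lap f (x + a) := by
  have h1 : D1 (fun y => f (y + a)) = fun y => D1 f (y + a) := funext fun y => D1_translate f a y
  have h2 : D2 (fun y => f (y + a)) = fun y => D2 f (y + a) := funext fun y => D2_translate f a y
  simp only [Lap, h1, h2, D1_translate, D2_translate]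

theorem D1_translate_sub (f : ℝ × ℝ → ℝ) (a x : ℝ × ℝ) :
    D1 (fun y => f (y - a)) x = D1 f (x - a) := by
  simpa [sub_eq_add_neg] using D1_translate f (-a) x

theorem D2_translate_sub (f : ℝ × ℝ → ℝ) (a x : ℝ × ℝ) :
    D2 (fun y => f (y - a)) x = D2 f (x - a) := by
  simpa [sub_eq_add_neg] using D2_translate f (-a) x

theorem Lap_translate_sub (f : ℝ × ℝ → ℝ) (a x : ℝ × ℝ) :
    Lap (fun y => f (y - a)) x = Lap f (x - a) := by
  simpa [sub_eq_add_neg] using Lap_translate f (-a) x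

/-- composition with a linear automorphism of the plane -/
theorem Dv_comp_equiv (f : ℝ × ℝ → ℝ) (e : (ℝ × ℝ) ≃L[ℝ] (ℝ × ℝ)) (v x : ℝ × ℝ) :
    Dv v (fun y => f (e y)) x = Dv (e v) f (e x) := by
  simp only [Dv]
  have h : fderiv ℝ (fun y => f (e y)) x = (fderiv ℝ f (e x)).comp (e : (ℝ × ℝ) →L[ℝ] (ℝ × ℝ)) :=
    e.comp_right_fderiv
  rw [h]; rfl

/-- the swap as a linear equivalence -/
noncomputable def swapE : (ℝ × ℝ) ≃L[ℝ] (ℝ × ℝ) := ContinuousLinearEquiv.prodComm ℝ ℝ ℝ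

theorem swapE_apply (x : ℝ × ℝ) : swapE x = (x.2, x.1) := rfl

/-- reflection `(x₁, x₂) ↦ (-x₁, x₂)` -/
noncomputable def refl1E : (ℝ × ℝ) ≃L[ℝ] (ℝ × ℝ) :=
  (ContinuousLinearEquiv.neg ℝ).prodCongr (ContinuousLinearEquiv.refl ℝ ℝ)

theorem refl1E_apply (x : ℝ × ℝ) : refl1E x = (-x.1, x.2) := rfl

/-- reflection `(x₁, x₂) ↦ (x₁, -x₂)` -/
noncomputable def refl2E : (ℝ × ℝ) ≃L[ℝ] (ℝ × ℝ) :=
  (ContinuousLinearEquiv.refl ℝ ℝ).prodCongr (ContinuousLinearEquiv.neg ℝ)

theorem refl2E_apply (x : ℝ × ℝ) : refl2E x = (x.1, -x.2) := rfl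

variable (f : ℝ × ℝ → ℝ) (x : ℝ × ℝ)

theorem D1_swap : D1 (fun y => f (y.2, y.1)) x = D2 f (x.2, x.1) := by
  have := Dv_comp_equiv f swapE (1, 0) x
  simp only [swapE_apply] at this
  exact this

theorem D2_swap : D2 (fun y => f (y.2, y.1)) x = D1 f (x.2, x.1) := by
  have := Dv_comp_equiv f swapE (0, 1) x
  simp only [swapE_apply] at this
  exact this

theorem Lap_swap : Lap (fun y => f (y.2, y.1)) x = Lap f (x.2, x.1) := by
  have h1 : D1 (fun y => f (y.2, y.1)) = fun y => D2 f (y.2, y.1) := funext fun y => D1_swap f y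
  have h2 : D2 (fun y => f (y.2, y.1)) = fun y => D1 f (y.2, y.1) := funext fun y => D2_swap f y
  simp only [Lap, h1, h2, D1_swap, D2_swap]; ring

theorem D1_refl1 : D1 (fun y => f (-y.1, y.2)) x = - D1 f (-x.1, x.2) := by
  have := Dv_comp_equiv f refl1E (1, 0) x
  simp only [refl1E_apply] at this
  rw [D1_eq_Dv, this, Dv_eq]
  simp

theorem D2_refl1 : D2 (fun y => f (-y.1, y.2)) x = D2 f (-x.1, x.2) := by
  have := Dv_comp_equiv f refl1E (0, 1) x
  simp only [refl1E_apply] at this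
  rw [D2_eq_Dv, this, Dv_eq]
  simp [D2_eq_Dv]

theorem D1_refl2 : D1 (fun y => f (y.1, -y.2)) x = D1 f (x.1, -x.2) := by
  have := Dv_comp_equiv f refl2E (1, 0) x
  simp only [refl2E_apply] at this
  rw [D1_eq_Dv, this, Dv_eq]
  simp [D1_eq_Dv]

theorem D2_refl2 : D2 (fun y => f (y.1, -y.2)) x = - D2 f (x.1, -x.2) := by
  have := Dv_comp_equiv f refl2E (0, 1) x
  simp only [refl2E_apply] at this
  rw [D2_eq_Dv, this, Dv_eq]
  simp

theorem Lap_refl1 : Lap (fun y => f (-y.1, y.2)) x = Lap f (-x.1, x.2) := by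
  have h1 : D1 (fun y => f (-y.1, y.2)) = fun y => - D1 f (-y.1, y.2) :=
    funext fun y => D1_refl1 f y
  have h2 : D2 (fun y => f (-y.1, y.2)) = fun y => D2 f (-y.1, y.2) :=
    funext fun y => D2_refl1 f y
  simp only [Lap, h1, h2, D1_neg, D1_refl1 (D1 f), D2_refl1 (D2 f)]; ring

theorem Lap_refl2 : Lap (fun y => f (y.1, -y.2)) x = Lap f (x.1, -x.2) := by
  have h1 : D1 (fun y => f (y.1, -y.2)) = fun y => D1 f (y.1, -y.2) :=
    funext fun y => D1_refl2 f y
  have h2 : D2 (fun y => f (y.1, -y.2)) = fun y => - D2 f (y.1, -y.2) :=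
    funext fun y => D2_refl2 f y
  simp only [Lap, h1, h2, D2_neg, D1_refl2 (D1 f), D2_refl2 (D2 f)]; ring

end Symmetries

section Periodic
variable {f g : ℝ × ℝ → ℝ}

theorem Per.add_one_fst (hf : Per f) (x y : ℝ) : f (x + 1, y) = f (x, y) := (hf (x, y)).1

theorem Per.add_one_snd (hf : Per f) (x y : ℝ) : f (x, y + 1) = f (x, y) := (hf (x, y)).2

theorem per_iff : Per f ↔ (∀ x, f (x + (1, 0)) = f x) ∧ (∀ x, f (x + (0, 1)) = f x) := by
  constructor
  · intro h
    exact ⟨fun x => by simpa [Prod.add_def] using (h x).1,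
      fun x => by simpa [Prod.add_def] using (h x).2⟩
  · rintro ⟨h1, h2⟩ x
    exact ⟨by simpa [Prod.add_def] using h1 x, by simpa [Prod.add_def] using h2 x⟩

theorem Per.add_int (hf : Per f) (m n : ℤ) (x : ℝ × ℝ) : f (x.1 + m, x.2 + n) = f x := by
  have h1 : ∀ y : ℝ, Function.Periodic (fun t => f (t, y)) 1 := fun y t => hf.add_one_fst t y
  have h2 : ∀ t : ℝ, Function.Periodic (fun y => f (t, y)) 1 := fun t y => hf.add_one_snd t y
  have e1 := (h1 (x.2 + n)).int_mul m x.1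
  have e2 := (h2 x.1).int_mul n x.2
  simp only [mul_one] at e1 e2
  rw [e1, e2]

theorem Per.add_int' (hf : Per f) (m n : ℤ) (x : ℝ × ℝ) : f (x + ((m:ℝ), (n:ℝ))) = f x :=
  hf.add_int m n x

theorem Per.add_lat (hf : Per f) {a : ℝ × ℝ} (ha : a ∈ Lat) (x : ℝ × ℝ) : f (x + a) = f x := by
  obtain ⟨m, n, rfl⟩ := ha
  exact hf.add_int m n x

theorem Per.sub_lat (hf : Per f) {a : ℝ × ℝ} (ha : a ∈ Lat) (x : ℝ × ℝ) : f (x - a) = f x := by
  have := hf.add_lat ha (x - a)
  rw [sub_add_cancel] at this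
  exact this.symm

theorem Per.comp (hf : Per f) (φ : ℝ → ℝ) : Per (fun x => φ (f x)) := fun x =>
  ⟨congrArg φ (hf x).1, congrArg φ (hf x).2⟩

theorem Per.comp₂ (hf : Per f) (hg : Per g) (φ : ℝ → ℝ → ℝ) : Per (fun x => φ (f x) (g x)) :=
  fun x => ⟨congrArg₂ φ (hf x).1 (hg x).1, congrArg₂ φ (hf x).2 (hg x).2⟩

theorem per_const (c : ℝ) : Per (fun _ => c) := fun _ => ⟨rfl, rfl⟩

theorem Per.mul (hf : Per f) (hg : Per g) : Per (fun x => f x * g x) := hf.comp₂ hg _

theorem Per.add (hf : Per f) (hg : Per g) : Per (fun x => f x + g x) := hf.comp₂ hg _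

theorem Per.sub (hf : Per f) (hg : Per g) : Per (fun x => f x - g x) := hf.comp₂ hg _

theorem Per.div (hf : Per f) (hg : Per g) : Per (fun x => f x / g x) := hf.comp₂ hg _

theorem Per.neg (hf : Per f) : Per (fun x => - f x) := hf.comp _

theorem Per.const_mul (hf : Per f) (c : ℝ) : Per (fun x => c * f x) := hf.comp _

theorem Per.pow (hf : Per f) (n : ℕ) : Per (fun x => f x ^ n) := hf.comp _

theorem Per.abs (hf : Per f) : Per (fun x => |f x|) := hf.comp _

theorem Per.exp (hf : Per f) : Per (fun x => Real.exp (f x)) := hf.comp _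

theorem Per.log (hf : Per f) : Per (fun x => Real.log (f x)) := hf.comp _

theorem Per.translate (hf : Per f) (a : ℝ × ℝ) : Per (fun x => f (x + a)) := by
  rw [per_iff] at *
  exact ⟨fun x => by show f (x + (1, 0) + a) = f (x + a); rw [add_right_comm, hf.1],
    fun x => by show f (x + (0, 1) + a) = f (x + a); rw [add_right_comm, hf.2]⟩

theorem Per.translate_sub (hf : Per f) (a : ℝ × ℝ) : Per (fun x => f (x - a)) := by
  simpa [sub_eq_add_neg] using hf.translate (-a)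

theorem Per.sub_one_fst (hf : Per f) (x y : ℝ) : f (x - 1, y) = f (x, y) := by
  have := hf.add_one_fst (x - 1) y; rw [sub_add_cancel] at this; exact this.symm

theorem Per.sub_one_snd (hf : Per f) (x y : ℝ) : f (x, y - 1) = f (x, y) := by
  have := hf.add_one_snd x (y - 1); rw [sub_add_cancel] at this; exact this.symm

theorem Per.refl1 (hf : Per f) : Per (fun x => f (-x.1, x.2)) := fun x =>
  ⟨by show f (-(x.1 + 1), x.2) = _; rw [neg_add, ← sub_eq_add_neg, hf.sub_one_fst],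
    hf.add_one_snd _ _⟩

theorem Per.refl2 (hf : Per f) : Per (fun x => f (x.1, -x.2)) := fun x =>
  ⟨hf.add_one_fst _ _,
    by show f (x.1, -(x.2 + 1)) = _; rw [neg_add, ← sub_eq_add_neg, hf.sub_one_snd]⟩

theorem Per.swap (hf : Per f) : Per (fun x => f (x.2, x.1)) := fun x =>
  ⟨hf.add_one_snd _ _, hf.add_one_fst _ _⟩

theorem Per.Dv (hf : Per f) (v : ℝ × ℝ) : Per (Dv v f) := by
  rw [per_iff] at *
  constructor
  · intro x
    have h := Dv_translate f (1, 0) v x
    rw [funext hf.1] at h; exact h.symm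
  · intro x
    have h := Dv_translate f (0, 1) v x
    rw [funext hf.2] at h; exact h.symm

theorem Per.D1 (hf : Per f) : Per (D1 f) := hf.Dv _

theorem Per.D2 (hf : Per f) : Per (D2 f) := hf.Dv _

theorem Per.Lap (hf : Per f) : Per (Lap f) := hf.D1.D1.add hf.D2.D2

end Periodic

end Pool.Agent.AO
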