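import Pool.Agent.Lib.MP_10e52e_an.Defs3

/-! MP_10e52e_an row Teta: T7 radial integral -/

namespace Pool.Agent.AO

open MeasureTheory Set Real
open scoped ContDiff

theorem teta_deriv_nonneg (x : ℝ) : 0 ≤ deriv Real.smoothTransition x := by
  have h : HasDerivAt Real.smoothTransition (deriv Real.smoothTransition x) x :=
    ((Real.smoothTransition.contDiff (n := 1)).differentiable (by norm_num) x).hasDerivAt
  exact Real.smoothTransition.monotone.deriv_nonneg

theorem teta_radial {e : ℝ} (he : 0 < e) :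
    ∫ r in Ioi (0 : ℝ), r * (2 / e ^ 2 * deriv Real.smoothTransition (r ^ 2 / e ^ 2 - 1)) = 1 := by
  have hderiv : ∀ r ∈ Ici (0 : ℝ), HasDerivAt
      (fun r : ℝ => Real.smoothTransition (r ^ 2 / e ^ 2 - 1))
      (r * (2 / e ^ 2 * deriv Real.smoothTransition (r ^ 2 / e ^ 2 - 1))) r := by
    intro r _
    have h1 : HasDerivAt (fun r : ℝ => r ^ 2 / e ^ 2 - 1) (2 * r / e ^ 2) r := by
      have := ((hasDerivAt_pow 2 r).div_const (e ^ 2)).sub_const 1
      simpa using this
    have h2 : HasDerivAt Real.smoothTransition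
        (deriv Real.smoothTransition (r ^ 2 / e ^ 2 - 1)) (r ^ 2 / e ^ 2 - 1) :=
      ((Real.smoothTransition.contDiff (n := 1)).differentiable (by norm_num) _).hasDerivAt
    have h3 := h2.comp r h1
    refine h3.congr_deriv ?_
    ring
  have hpos : ∀ r ∈ Ioi (0 : ℝ),
      0 ≤ r * (2 / e ^ 2 * deriv Real.smoothTransition (r ^ 2 / e ^ 2 - 1)) := by
    intro r hr
    have := teta_deriv_nonneg (r ^ 2 / e ^ 2 - 1)
    have hr' : (0 : ℝ) < r := hr
    positivity
  have hlim : Filter.Tendsto (fun r : ℝ => Real.smoothTransition (r ^ 2 / e ^ 2 - 1))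
      Filter.atTop (nhds 1) := by
    refine tendsto_const_nhds.congr' ?_
    filter_upwards [Filter.eventually_ge_atTop (2 * e)] with r hr
    symm
    apply Real.smoothTransition.one_of_one_le
    have h4 : 4 ≤ r ^ 2 / e ^ 2 := by
      rw [le_div_iff₀ (by positivity)]
      nlinarith
    linarith
  have := integral_Ioi_of_hasDerivAt_of_nonneg' hderiv hpos hlim
  rw [this]
  rw [Real.smoothTransition.zero_of_nonpos (by norm_num)]
  norm_num

theorem eta_radial {e : ℝ} (he : 0 < e) :
    ∫ x : ℝ × ℝ, 2 / e ^ 2 * deriv Real.smoothTransition (nsq x / e ^ 2 - 1) = 2 * π := by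
  rw [← integral_comp_polarCoord_symm]
  have hcongr : ∀ p ∈ polarCoord.target, p.1 • (2 / e ^ 2 * deriv Real.smoothTransition
      (nsq (polarCoord.symm p) / e ^ 2 - 1)) =
      (fun r : ℝ => r * (2 / e ^ 2 * deriv Real.smoothTransition (r ^ 2 / e ^ 2 - 1))) p.1 *
        (fun _ : ℝ => (1 : ℝ)) p.2 := by
    intro p _
    have hn : nsq (polarCoord.symm p) = p.1 ^ 2 := by
      simp only [nsq, polarCoord_symm_apply]
      have := Real.cos_sq_add_sin_sq p.2
      calc (p.1 * Real.cos p.2) ^ 2 + (p.1 * Real.sin p.2) ^ 2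
          = p.1 ^ 2 * (Real.cos p.2 ^ 2 + Real.sin p.2 ^ 2) := by ring
        _ = p.1 ^ 2 := by rw [this, mul_one]
    rw [hn]
    simp
  rw [setIntegral_congr_fun polarCoord.open_target.measurableSet hcongr]
  rw [polarCoord_target]
  rw [show (volume : Measure (ℝ × ℝ)) = (volume : Measure ℝ).prod (volume : Measure ℝ) from rfl]
  refine (setIntegral_prod_mul (L := ℝ)
    (fun r : ℝ => r * (2 / e ^ 2 * deriv Real.smoothTransition (r ^ 2 / e ^ 2 - 1)))
    (fun _ : ℝ => (1 : ℝ)) (Ioi 0) (Ioo (-π) π)).trans ?_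
  rw [teta_radial he]
  have hv : (volume : Measure ℝ).real (Ioo (-π) π) = 2 * π := by
    rw [Real.volume_real_Ioo_of_le (by linarith [Real.pi_pos])]
    ring
  simp [hv]

end Pool.Agent.AO
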