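import Pool.Agent.Lib.MP_10e52e_an.Symm

/-! Maximum principles (T1, T2, T3 of the paper). -/

namespace Pool.Agent.AO

open MeasureTheory Set Filter Topology
open scoped ContDiff

section Line
variable {f : ℝ × ℝ → ℝ} {x : ℝ × ℝ}

theorem hasDerivAt_line (v : ℝ × ℝ) {t : ℝ} (hf : DifferentiableAt ℝ f (x + t • v)) :
    HasDerivAt (fun s : ℝ => f (x + s • v)) (Dv v f (x + t • v)) t := by
  have h3 : HasDerivAt (fun s : ℝ => x + s • v) v t := by
    have h := ((hasDerivAt_id t).smul_const v).const_add x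
    simpa using h
  exact hf.hasFDerivAt.comp_hasDerivAt t h3

theorem eventually_line (hf : ContDiffAt ℝ 2 f x) (v : ℝ × ℝ) :
    ∀ᶠ t : ℝ in 𝓝 0, HasDerivAt (fun s : ℝ => f (x + s • v)) (Dv v f (x + t • v)) t := by
  have hc : ContinuousAt (fun t : ℝ => x + t • v) 0 := by fun_prop
  have h2 : ∀ᶠ t : ℝ in 𝓝 0, DifferentiableAt ℝ f (x + t • v) := by
    apply hc.eventually
    simpa using eventually_differentiableAt hf
  filter_upwards [h2] with t ht using hasDerivAt_line v ht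

theorem differentiableAt_Dv (hf : ContDiffAt ℝ 2 f x) (v : ℝ × ℝ) :
    DifferentiableAt ℝ (Dv v f) x :=
  (contDiffAt_Dv (n := 1) (by norm_num; exact hf) v).differentiableAt (by norm_num)

theorem deriv_deriv_line (hf : ContDiffAt ℝ 2 f x) (v : ℝ × ℝ) :
    deriv (deriv fun s : ℝ => f (x + s • v)) 0 = Dv v (Dv v f) x := by
  have h1 : deriv (fun s : ℝ => f (x + s • v)) =ᶠ[𝓝 0] fun t : ℝ => Dv v f (x + t • v) := by
    filter_upwards [eventually_line hf v] with t ht using ht.deriv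
  rw [h1.deriv_eq]
  have h2 : DifferentiableAt ℝ (Dv v f) (x + (0:ℝ) • v) := by
    simpa using differentiableAt_Dv hf v
  have := (hasDerivAt_line v h2).deriv
  simpa using this

theorem Dv_Dv_nonneg_of_isLocalMin (hf : ContDiffAt ℝ 2 f x) (hmin : IsLocalMin f x)
    (v : ℝ × ℝ) : 0 ≤ Dv v (Dv v f) x := by
  by_contra hcon
  push Not at hcon
  set g : ℝ → ℝ := fun s => f (x + s • v) with hg
  have hd2 : deriv (deriv g) 0 < 0 := by rw [deriv_deriv_line hf v]; exact hcon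
  have hc : ContinuousAt (fun t : ℝ => x + t • v) 0 := by fun_prop
  have hgmin : IsLocalMin g 0 := by
    have h0 : ∀ᶠ w in 𝓝 x, f x ≤ f w := hmin
    have h : ∀ᶠ w in 𝓝 (x + (0:ℝ) • v), f x ≤ f w := by simpa using h0
    filter_upwards [hc.eventually h] with t ht
    simpa [hg] using ht
  have hd1 : deriv g 0 = 0 := hgmin.deriv_eq_zero
  have hgc : ContinuousAt g 0 := (eventually_line hf v).self_of_nhds.continuousAt
  have hgmax : IsLocalMax g 0 := isLocalMax_of_deriv_deriv_neg hd2 hd1 hgc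
  have hconst : g =ᶠ[𝓝 0] fun _ => g 0 := by
    filter_upwards [hgmax, hgmin] with t h1 h2 using le_antisymm h1 h2
  have h0 : deriv (deriv g) 0 = 0 := by
    have h1 : deriv g =ᶠ[𝓝 0] deriv (fun _ => g 0) := hconst.deriv
    rw [h1.deriv_eq]
    simp
  linarith

/-- T1: at a local minimum the Laplacian is nonnegative -/
theorem Lap_nonneg_of_isLocalMin (hf : ContDiffAt ℝ 2 f x) (h : IsLocalMin f x) :
    0 ≤ Lap f x :=
  add_nonneg (Dv_Dv_nonneg_of_isLocalMin hf h _) (Dv_Dv_nonneg_of_isLocalMin hf h _)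

theorem Lap_nonpos_of_isLocalMax (hf : ContDiffAt ℝ 2 f x) (h : IsLocalMax f x) :
    Lap f x ≤ 0 := by
  have h1 := Lap_nonneg_of_isLocalMin (f := fun y => - f y) hf.neg h.neg
  rw [Lap_neg] at h1
  linarith

theorem D1_eq_zero_of_isLocalMin (h : IsLocalMin f x) : D1 f x = 0 := by
  simp [D1, h.fderiv_eq_zero]

theorem D2_eq_zero_of_isLocalMin (h : IsLocalMin f x) : D2 f x = 0 := by
  simp [D2, h.fderiv_eq_zero]

theorem D1_eq_zero_of_isLocalMax (h : IsLocalMax f x) : D1 f x = 0 := by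
  simp [D1, h.fderiv_eq_zero]

theorem D2_eq_zero_of_isLocalMax (h : IsLocalMax f x) : D2 f x = 0 := by
  simp [D2, h.fderiv_eq_zero]

end Line

section Nsq

theorem nsq_nonneg (x : ℝ × ℝ) : 0 ≤ nsq x := by unfold nsq; positivity

theorem nsq_eq_zero {x : ℝ × ℝ} : nsq x = 0 ↔ x = 0 := by
  unfold nsq
  constructor
  · intro h
    have h1 : x.1 = 0 := by nlinarith [sq_nonneg x.1, sq_nonneg x.2]
    have h2 : x.2 = 0 := by nlinarith [sq_nonneg x.1, sq_nonneg x.2]
    exact Prod.ext h1 h2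
  · rintro rfl; simp

theorem nsq_pos {x : ℝ × ℝ} (hx : x ≠ 0) : 0 < nsq x :=
  lt_of_le_of_ne (nsq_nonneg x) fun h => hx (nsq_eq_zero.1 h.symm)

theorem contDiff_nsq {n : WithTop ℕ∞} : ContDiff ℝ n nsq := by
  unfold nsq; fun_prop

theorem continuous_nsq : Continuous nsq := contDiff_nsq (n := 0) |>.continuous

theorem D1_nsq (x : ℝ × ℝ) : D1 nsq x = 2 * x.1 := by
  have h : nsq = fun y => y.1 ^ 2 + y.2 ^ 2 := rfl
  rw [h, D1_add (by fun_prop) (by fun_prop), D1_comp_fst (φ := fun t => t ^ 2) (hasDerivAt_pow 2 _),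
    D1_comp_snd (φ := fun t => t ^ 2) (hasDerivAt_pow 2 _)]
  simp

theorem D2_nsq (x : ℝ × ℝ) : D2 nsq x = 2 * x.2 := by
  have h : nsq = fun y => y.1 ^ 2 + y.2 ^ 2 := rfl
  rw [h, D2_add (by fun_prop) (by fun_prop), D2_comp_fst (φ := fun t => t ^ 2) (hasDerivAt_pow 2 _),
    D2_comp_snd (φ := fun t => t ^ 2) (hasDerivAt_pow 2 _)]
  simp

theorem Lap_nsq (x : ℝ × ℝ) : Lap nsq x = 4 := by
  have h1 : D1 nsq = fun y => 2 * y.1 := funext D1_nsq
  have h2 : D2 nsq = fun y => 2 * y.2 := funext D2_nsq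
  simp only [Lap, h1, h2]
  rw [D1_const_mul differentiableAt_fst, D2_const_mul differentiableAt_snd, D1_fst, D2_snd]
  norm_num

theorem exists_nsq_bound {U : Set (ℝ × ℝ)} (hb : Bornology.IsBounded U) :
    ∃ B, 0 < B ∧ ∀ x ∈ U, nsq x ≤ B := by
  obtain ⟨R, hR⟩ := hb.exists_norm_le
  refine ⟨2 * (|R| + 1) ^ 2, by positivity, fun x hx => ?_⟩
  have h1 := hR x hx
  rw [Prod.norm_def] at h1
  have a1 : |x.1| ≤ |R| + 1 := by
    have := (le_max_left ‖x.1‖ ‖x.2‖).trans h1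
    rw [Real.norm_eq_abs] at this
    linarith [le_abs_self R]
  have a2 : |x.2| ≤ |R| + 1 := by
    have := (le_max_right ‖x.1‖ ‖x.2‖).trans h1
    rw [Real.norm_eq_abs] at this
    linarith [le_abs_self R]
  have b1 : x.1 ^ 2 ≤ (|R| + 1) ^ 2 := by
    rw [← sq_abs x.1]; exact pow_le_pow_left₀ (abs_nonneg _) a1 2
  have b2 : x.2 ^ 2 ≤ (|R| + 1) ^ 2 := by
    rw [← sq_abs x.2]; exact pow_le_pow_left₀ (abs_nonneg _) a2 2
  unfold nsq; linarith

end Nsq

/-- T2: weak maximum principle -/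
theorem weak_max {U : Set (ℝ × ℝ)} (hU : IsOpen U) (hb : Bornology.IsBounded U)
    {w c : ℝ × ℝ → ℝ} (hw : ∀ x ∈ U, ContDiffAt ℝ 2 w x) (hc : ∀ x ∈ U, 0 ≤ c x)
    (hL : ∀ x ∈ U, 0 ≤ -Lap w x + c x * w x)
    (hcpt : ∀ e > 0, IsCompact {x ∈ U | w x ≤ -e}) : ∀ x ∈ U, 0 ≤ w x := by
  intro x0 hx0
  by_contra hcon
  push Not at hcon
  obtain ⟨B, hB0, hB⟩ := exists_nsq_bound hb
  set m := - w x0 with hm
  have hm0 : 0 < m := by linarith
  set d := m / (4 * B) with hd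
  have hd0 : 0 < d := by positivity
  have hdB : d * B = m / 4 := by rw [hd]; field_simp
  set F : ℝ × ℝ → ℝ := fun x => w x - d * nsq x with hF
  set S := {x ∈ U | w x ≤ -(m / 2)} with hS
  have hScpt : IsCompact S := hcpt (m / 2) (by linarith)
  have hx0S : x0 ∈ S := ⟨hx0, by linarith⟩
  have hwc : ContinuousOn F S := by
    intro x hx
    exact ((hw x hx.1).continuousAt.sub
      (continuous_const.mul continuous_nsq).continuousAt).continuousWithinAt
  obtain ⟨x1, hx1S, hx1⟩ := hScpt.exists_isMinOn ⟨x0, hx0S⟩ hwc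
  have hF1 : F x1 ≤ -m := by
    have h1 : F x1 ≤ F x0 := hx1 hx0S
    have h2 : F x0 ≤ -m := by
      have : 0 ≤ d * nsq x0 := mul_nonneg hd0.le (nsq_nonneg _)
      simp only [hF]; linarith
    linarith
  have hmin : ∀ x ∈ U, F x1 ≤ F x := by
    intro x hx
    by_cases hxS : x ∈ S
    · exact hx1 hxS
    · have h3 : -(m / 2) < w x := by
        by_contra h
        push Not at h
        exact hxS ⟨hx, h⟩
      have h4 : d * nsq x ≤ d * B := mul_le_mul_of_nonneg_left (hB x hx) hd0.le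
      simp only [hF] at hF1 ⊢
      linarith
  have hloc : IsLocalMin F x1 := by
    filter_upwards [hU.mem_nhds hx1S.1] with x hx using hmin x hx
  have hw1 := hw x1 hx1S.1
  have hFc : ContDiffAt ℝ 2 F x1 := hw1.sub (contDiff_const.mul contDiff_nsq).contDiffAt
  have h5 := Lap_nonneg_of_isLocalMin hFc hloc
  have h6 : Lap F x1 = Lap w x1 - d * 4 := by
    have h7 := Lap_sub hw1 (g := fun x => d * nsq x) (contDiff_const.mul contDiff_nsq).contDiffAt
    rw [Lap_const_mul contDiff_nsq.contDiffAt, Lap_nsq] at h7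
    exact h7
  have h8 := hL x1 hx1S.1
  have h9 : c x1 * w x1 ≤ 0 :=
    mul_nonpos_of_nonneg_of_nonpos (hc x1 hx1S.1) (by linarith [hx1S.2])
  linarith

/-- T2 for functions continuous up to the boundary -/
theorem weak_max_closure {U : Set (ℝ × ℝ)} (hU : IsOpen U) (hb : Bornology.IsBounded U)
    {w c : ℝ × ℝ → ℝ} (hw : ∀ x ∈ U, ContDiffAt ℝ 2 w x) (hwc : ContinuousOn w (closure U))
    (hc : ∀ x ∈ U, 0 ≤ c x) (hL : ∀ x ∈ U, 0 ≤ -Lap w x + c x * w x)
    (hbd : ∀ x ∈ frontier U, 0 ≤ w x) : ∀ x ∈ closure U, 0 ≤ w x := by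
  have hcc : IsCompact (closure U) := hb.isCompact_closure
  have h1 : ∀ x ∈ U, 0 ≤ w x := by
    refine weak_max hU hb hw hc hL fun e he => ?_
    have : {x ∈ U | w x ≤ -e} = closure U ∩ w ⁻¹' Iic (-e) := by
      ext x
      constructor
      · rintro ⟨h1, h2⟩; exact ⟨subset_closure h1, h2⟩
      · rintro ⟨h1, h2⟩
        refine ⟨?_, h2⟩
        by_contra hx
        have hx' : x ∈ frontier U := ⟨h1, by rwa [hU.interior_eq]⟩
        have := hbd x hx'
        have h3 : w x ≤ -e := h2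
        linarith
    rw [this]
    exact hcc.of_isClosed_subset
      (hwc.preimage_isClosed_of_isClosed isClosed_closure isClosed_Iic) inter_subset_left
  intro x hx
  by_cases h : x ∈ U
  · exact h1 x h
  · exact hbd x ⟨hx, by rwa [hU.interior_eq]⟩

/-- T3: a subharmonic function on a closed disc -/
theorem exists_circle_ge {F : ℝ × ℝ → ℝ} {r : ℝ} (hr : 0 < r)
    (hF : ∀ x, nsq x ≤ r ^ 2 → ContDiffAt ℝ 2 F x) (hL : ∀ x, nsq x ≤ r ^ 2 → 0 ≤ Lap F x) :
    ∃ y, nsq y = r ^ 2 ∧ F 0 ≤ F y := by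
  by_contra hcon
  push Not at hcon
  have hcl : IsClosed {x : ℝ × ℝ | nsq x ≤ r ^ 2} := isClosed_le continuous_nsq continuous_const
  have hbd : Bornology.IsBounded {x : ℝ × ℝ | nsq x ≤ r ^ 2} := by
    refine (Metric.isBounded_iff_subset_closedBall 0).2 ⟨r, fun x hx => ?_⟩
    have hx' : x.1 ^ 2 + x.2 ^ 2 ≤ r ^ 2 := hx
    rw [mem_closedBall_zero_iff, Prod.norm_def, max_le_iff, Real.norm_eq_abs, Real.norm_eq_abs]
    exact ⟨abs_le_of_sq_le_sq (by nlinarith [sq_nonneg x.2]) hr.le,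
      abs_le_of_sq_le_sq (by nlinarith [sq_nonneg x.1]) hr.le⟩
  have hcpt : IsCompact {x : ℝ × ℝ | nsq x ≤ r ^ 2} :=
    Metric.isCompact_of_isClosed_isBounded hcl hbd
  have hcirc : IsCompact {x : ℝ × ℝ | nsq x = r ^ 2} :=
    hcpt.of_isClosed_subset (isClosed_eq continuous_nsq continuous_const) fun x hx => le_of_eq hx
  have hFc : ContinuousOn F {x : ℝ × ℝ | nsq x ≤ r ^ 2} := fun x hx =>
    (hF x hx).continuousAt.continuousWithinAt
  obtain ⟨y0, hy0, hy0m⟩ := hcirc.exists_isMaxOn ⟨(r, 0), by simp [nsq]⟩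
    (hFc.mono fun x hx => le_of_eq hx)
  have hy0' : nsq y0 = r ^ 2 := hy0
  set δ := F 0 - F y0 with hδ
  have hδ0 : 0 < δ := by have := hcon y0 hy0'; linarith
  set e := δ / (2 * r ^ 2) with he
  have he0 : 0 < e := by positivity
  have her : e * r ^ 2 = δ / 2 := by rw [he]; field_simp
  set G : ℝ × ℝ → ℝ := fun x => F x + e * nsq x with hG
  have hGc : ContinuousOn G {x : ℝ × ℝ | nsq x ≤ r ^ 2} :=
    hFc.add (continuous_const.mul continuous_nsq).continuousOn
  have h0mem : (0 : ℝ × ℝ) ∈ {x : ℝ × ℝ | nsq x ≤ r ^ 2} := by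
    show nsq 0 ≤ r ^ 2
    simp [nsq]; positivity
  obtain ⟨x1, hx1, hx1m⟩ := hcpt.exists_isMaxOn ⟨0, h0mem⟩ hGc
  have hx1' : nsq x1 ≤ r ^ 2 := hx1
  have hG0 : G 0 ≤ G x1 := hx1m h0mem
  have hn0 : nsq 0 = 0 := nsq_eq_zero.2 rfl
  have hne : nsq x1 ≠ r ^ 2 := by
    intro h
    have h1 : F x1 ≤ F y0 := hy0m h
    simp only [hG, hn0, h, mul_zero, add_zero] at hG0
    linarith
  have hlt : nsq x1 < r ^ 2 := lt_of_le_of_ne hx1' hne
  have hloc : IsLocalMax G x1 := by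
    have : ∀ᶠ x in 𝓝 x1, nsq x < r ^ 2 := continuous_nsq.continuousAt.eventually (gt_mem_nhds hlt)
    filter_upwards [this] with x hx using hx1m (le_of_lt hx)
  have hGd : ContDiffAt ℝ 2 G x1 := (hF x1 hx1').add (contDiff_const.mul contDiff_nsq).contDiffAt
  have h5 := Lap_nonpos_of_isLocalMax hGd hloc
  have h6 : Lap G x1 = Lap F x1 + e * 4 := by
    have h7 := Lap_add (hF x1 hx1') (g := fun x => e * nsq x)
      (contDiff_const.mul contDiff_nsq).contDiffAt
    rw [Lap_const_mul contDiff_nsq.contDiffAt, Lap_nsq] at h7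
    exact h7
  have h8 := hL x1 hx1'
  linarith

end Pool.Agent.AO
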