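import Pool.Agent.Lib.MP_10e52e_an.Defs3
import Pool.Agent.Lib.MP_10e52e_an.MaxP

/-! MP_10e52e_an row Tmax: T1-T3 maximum principles -/

namespace Pool.Agent.AO

open MeasureTheory Set Real
open scoped ContDiff

/-- T1 -/
theorem tool_min {f : ℝ × ℝ → ℝ} {x : ℝ × ℝ} (hf : ContDiffAt ℝ 2 f x) (h : IsLocalMin f x) :
    0 ≤ Lap f x :=
  Lap_nonneg_of_isLocalMin hf h

/-- T2: weak maximum principle -/
theorem tool_mp {U : Set (ℝ × ℝ)} (hU : IsOpen U) (hb : Bornology.IsBounded U)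
    {c w : ℝ × ℝ → ℝ} (hc : ∀ x ∈ U, 0 ≤ c x) (hw : ContDiffOn ℝ 2 w U)
    (h : ∀ x ∈ U, 0 ≤ -Lap w x + c x * w x)
    (hbd : ∀ e : ℝ, 0 < e → IsCompact {x | x ∈ U ∧ w x ≤ -e}) : ∀ x ∈ U, 0 ≤ w x :=
  weak_max hU hb (fun x hx => hw.contDiffAt (hU.mem_nhds hx)) hc h hbd

theorem tmax_nrm_le {r : ℝ} (hr : 0 < r) (x : ℝ × ℝ) : nrm x ≤ r ↔ nsq x ≤ r ^ 2 := by
  unfold nrm
  rw [Real.sqrt_le_left hr.le]

theorem tmax_nrm_eq {r : ℝ} (hr : 0 < r) (x : ℝ × ℝ) : nrm x = r ↔ nsq x = r ^ 2 := by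
  unfold nrm
  rw [Real.sqrt_eq_iff_eq_sq (nsq_nonneg x) hr.le]

/-- T3: sub-mean value -/
theorem tool_sub {F : ℝ × ℝ → ℝ} {r : ℝ} (hr : 0 < r) {V : Set (ℝ × ℝ)} (hV : IsOpen V)
    (hsub : {x | nrm x ≤ r} ⊆ V) (hF : ContDiffOn ℝ 2 F V)
    (h : ∀ x, nrm x ≤ r → 0 ≤ Lap F x) : ∃ y, nrm y = r ∧ F 0 ≤ F y := by
  obtain ⟨y, hy, hy2⟩ := exists_circle_ge (F := F) hr
    (fun x hx => hF.contDiffAt (hV.mem_nhds (hsub ((tmax_nrm_le hr x).2 hx))))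
    (fun x hx => h x ((tmax_nrm_le hr x).2 hx))
  exact ⟨y, (tmax_nrm_eq hr y).2 hy, hy2⟩

end Pool.Agent.AO
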