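import Pool.Agent.Lib.MP_10e52e_an.Defs3
import Pool.Agent.Lib.MP_10e52e_an.Tmax
import Pool.Agent.Lib.MP_10e52e_an.Symm

/-! MP_10e52e_an row Tgrad: T4 interior gradient estimate (Gilbarg-Trudinger trick, paper1 T4) -/

namespace Pool.Agent.AO

open MeasureTheory Set Real
open scoped ContDiff

/-- the Laplacian of the barrier -/
private theorem tgrad_lapB (A B d : ℝ) (x : ℝ × ℝ) :
    Lap (fun y : ℝ × ℝ => A * y.1 ^ 2 + (A * (y.2 * (2 * d - y.2)) + B / 2 * (y.2 * (d - y.2)))) x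
      = -B := by
  have h1 : ∀ t : ℝ, HasDerivAt (fun t : ℝ => A * t ^ 2) (2 * A * t) t := by
    intro t
    have h := (hasDerivAt_pow 2 t).const_mul A
    refine h.congr_deriv ?_
    push_cast
    ring
  have h2 : ∀ t : ℝ, HasDerivAt (fun t : ℝ => A * (t * (2 * d - t)) + B / 2 * (t * (d - t)))
      (A * (2 * d - 2 * t) + B / 2 * (d - 2 * t)) t := by
    intro t
    have h := (((hasDerivAt_id t).mul ((hasDerivAt_const t (2 * d)).sub (hasDerivAt_id t))).const_mul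
      A).add (((hasDerivAt_id t).mul ((hasDerivAt_const t d).sub (hasDerivAt_id t))).const_mul (B / 2))
    refine h.congr_deriv ?_
    simp only [id, Pi.sub_apply]
    ring
  have d1 : D1 (fun y : ℝ × ℝ => A * y.1 ^ 2 + (A * (y.2 * (2 * d - y.2)) +
      B / 2 * (y.2 * (d - y.2)))) = fun y => 2 * A * y.1 := by
    funext y
    have e := D1_add (f := fun y : ℝ × ℝ => A * y.1 ^ 2)
      (g := fun y : ℝ × ℝ => A * (y.2 * (2 * d - y.2)) + B / 2 * (y.2 * (d - y.2))) (x := y)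
      (by fun_prop) (by fun_prop)
    rw [e, D1_comp_fst (h1 y.1), D1_comp_snd (h2 y.2), add_zero]
  have d2 : D2 (fun y : ℝ × ℝ => A * y.1 ^ 2 + (A * (y.2 * (2 * d - y.2)) +
      B / 2 * (y.2 * (d - y.2)))) = fun y => A * (2 * d - 2 * y.2) + B / 2 * (d - 2 * y.2) := by
    funext y
    have e := D2_add (f := fun y : ℝ × ℝ => A * y.1 ^ 2)
      (g := fun y : ℝ × ℝ => A * (y.2 * (2 * d - y.2)) + B / 2 * (y.2 * (d - y.2))) (x := y)
      (by fun_prop) (by fun_prop)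
    rw [e, D2_comp_fst (h1 y.1), D2_comp_snd (h2 y.2), zero_add]
  have h3 : HasDerivAt (fun t : ℝ => 2 * A * t) (2 * A) x.1 := by
    have h := (hasDerivAt_id x.1).const_mul (2 * A)
    refine h.congr_deriv ?_
    ring
  have h4 : HasDerivAt (fun t : ℝ => A * (2 * d - 2 * t) + B / 2 * (d - 2 * t)) (-2 * A - B)
      x.2 := by
    have h := (((hasDerivAt_const x.2 (2 * d)).sub ((hasDerivAt_id x.2).const_mul 2)).const_mul
      A).add (((hasDerivAt_const x.2 d).sub ((hasDerivAt_id x.2).const_mul 2)).const_mul (B / 2))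
    refine h.congr_deriv ?_
    ring
  unfold Lap
  rw [d1, d2, D1_comp_fst h3, D2_comp_snd h4]
  ring

/-- one sided form of the estimate -/
private theorem tgrad_half {f : ℝ × ℝ → ℝ} {a : ℝ × ℝ} {d M K : ℝ} (hd : 0 < d) {V : Set (ℝ × ℝ)}
    (hV : IsOpen V) (hsub : {x : ℝ × ℝ | |x.1 - a.1| ≤ d ∧ |x.2 - a.2| ≤ d} ⊆ V)
    (hf : ContDiffOn ℝ 2 f V)
    (hM : ∀ x : ℝ × ℝ, |x.1 - a.1| ≤ d → |x.2 - a.2| ≤ d → |f x| ≤ M)
    (hK : ∀ x : ℝ × ℝ, |x.1 - a.1| ≤ d → |x.2 - a.2| ≤ d → |Lap f x| ≤ K)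
    {s : ℝ} (hs : |s| ≤ 1) {t : ℝ} (h0 : 0 < t) (ht : t < d) :
    0 ≤ M / d ^ 2 * (t * (2 * d - t)) + K / 2 * (t * (d - t)) +
      s / 2 * (f ((0, t) + a) - f ((0, -t) + a)) := by
  have hM0 : 0 ≤ M := le_trans (abs_nonneg _) (hM a (by simp [hd.le]) (by simp [hd.le]))
  have hK0 : 0 ≤ K := le_trans (abs_nonneg _) (hK a (by simp [hd.le]) (by simp [hd.le]))
  have hA0 : 0 ≤ M / d ^ 2 := by positivity
  have hAd : M / d ^ 2 * d ^ 2 = M := by field_simp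
  set A := M / d ^ 2 with hA
  -- membership facts
  have hbox : ∀ y : ℝ × ℝ, |y.1| ≤ d → |y.2| ≤ d →
      |(y + a).1 - a.1| ≤ d ∧ |(y + a).2 - a.2| ≤ d := by
    intro y h1 h2
    simp only [Prod.fst_add, Prod.snd_add, add_sub_cancel_right]
    exact ⟨h1, h2⟩
  have hcd : ∀ y : ℝ × ℝ, |y.1| ≤ d → |y.2| ≤ d → ContDiffAt ℝ 2 (fun y => f (y + a)) y := by
    intro y h1 h2
    have h3 : ContDiffAt ℝ 2 f (y + a) := hf.contDiffAt (hV.mem_nhds (hsub (hbox y h1 h2)))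
    exact h3.comp y (by fun_prop)
  have hcd' : ∀ y : ℝ × ℝ, |y.1| ≤ d → |y.2| ≤ d →
      ContDiffAt ℝ 2 (fun y : ℝ × ℝ => f ((y.1, -y.2) + a)) y := by
    intro y h1 h2
    have h3 : ContDiffAt ℝ 2 (fun y => f (y + a)) (y.1, -y.2) :=
      hcd (y.1, -y.2) h1 (by simpa using h2)
    exact ContDiffAt.comp (g := fun y => f (y + a)) (f := fun y : ℝ × ℝ => (y.1, -y.2)) y h3
      (by fun_prop)
  have hlap : ∀ y : ℝ × ℝ, |y.1| ≤ d → |y.2| ≤ d → |Lap (fun y => f (y + a)) y| ≤ K := by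
    intro y h1 h2
    rw [Lap_translate]
    exact hK _ (hbox y h1 h2).1 (hbox y h1 h2).2
  have hlap' : ∀ y : ℝ × ℝ, |y.1| ≤ d → |y.2| ≤ d →
      |Lap (fun y : ℝ × ℝ => f ((y.1, -y.2) + a)) y| ≤ K := by
    intro y h1 h2
    have e := Lap_refl2 (fun y => f (y + a)) y
    rw [e]
    exact hlap (y.1, -y.2) h1 (by simpa using h2)
  have hval : ∀ y : ℝ × ℝ, |y.1| ≤ d → |y.2| ≤ d →
      |s / 2 * (f (y + a) - f ((y.1, -y.2) + a))| ≤ M := by
    intro y h1 h2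
    have h3 := hM _ (hbox y h1 h2).1 (hbox y h1 h2).2
    have h4 := hM _ (hbox (y.1, -y.2) h1 (by simpa using h2)).1
      (hbox (y.1, -y.2) h1 (by simpa using h2)).2
    have h5 : |f (y + a) - f ((y.1, -y.2) + a)| ≤ 2 * M := by
      have := abs_sub (f (y + a)) (f ((y.1, -y.2) + a))
      linarith
    rw [abs_mul, abs_div, abs_two]
    have h6 : 0 ≤ |f (y + a) - f ((y.1, -y.2) + a)| := abs_nonneg _
    nlinarith [abs_nonneg s]
  set w : ℝ × ℝ → ℝ := fun y =>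
    (A * y.1 ^ 2 + (A * (y.2 * (2 * d - y.2)) + K / 2 * (y.2 * (d - y.2)))) +
      s / 2 * (f (y + a) - f ((y.1, -y.2) + a)) with hw
  have hwc : ∀ y : ℝ × ℝ, |y.1| ≤ d → |y.2| ≤ d → ContDiffAt ℝ 2 w y := by
    intro y h1 h2
    refine ContDiffAt.add (by fun_prop) ?_
    exact contDiffAt_const.mul ((hcd y h1 h2).sub (hcd' y h1 h2))
  have hUm : ∀ y : ℝ × ℝ, y ∈ Ioo (-d) d ×ˢ Ioo 0 d → |y.1| ≤ d ∧ |y.2| ≤ d := by
    intro y hy
    have h1 := hy.1
    have h2 := hy.2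
    refine ⟨abs_le.2 ⟨h1.1.le, h1.2.le⟩, abs_le.2 ⟨by linarith [h2.1], h2.2.le⟩⟩
  have hCm : ∀ y : ℝ × ℝ, y ∈ Icc (-d) d ×ˢ Icc 0 d → |y.1| ≤ d ∧ |y.2| ≤ d := by
    intro y hy
    have h1 := hy.1
    have h2 := hy.2
    refine ⟨abs_le.2 ⟨h1.1, h1.2⟩, abs_le.2 ⟨by linarith [h2.1], h2.2⟩⟩
  have hbdry : ∀ y : ℝ × ℝ, y ∈ Icc (-d) d ×ˢ Icc 0 d → y ∉ Ioo (-d) d ×ˢ Ioo 0 d → 0 ≤ w y := by
    intro y hy hy'
    have h1 := hy.1
    have h2 := hy.2
    have h3 := abs_le.1 (hval y (hCm y hy).1 (hCm y hy).2)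
    have h4 : 0 ≤ K / 2 * (y.2 * (d - y.2)) := by
      have := mul_nonneg h2.1 (sub_nonneg.2 h2.2)
      positivity
    have h5 : 0 ≤ A * y.1 ^ 2 := by positivity
    have h6 : 0 ≤ A * (y.2 * (2 * d - y.2)) := by
      have : 0 ≤ 2 * d - y.2 := by linarith [h2.2]
      exact mul_nonneg hA0 (mul_nonneg h2.1 this)
    show 0 ≤ (A * y.1 ^ 2 + (A * (y.2 * (2 * d - y.2)) + K / 2 * (y.2 * (d - y.2)))) +
      s / 2 * (f (y + a) - f ((y.1, -y.2) + a))
    rcases eq_or_lt_of_le h1.1 with h7 | h7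
    · have h8 : A * y.1 ^ 2 = M := by rw [← h7, neg_sq]; exact hAd
      linarith [h3.1]
    rcases eq_or_lt_of_le h1.2 with h8 | h8
    · have h9 : A * y.1 ^ 2 = M := by rw [h8]; exact hAd
      linarith [h3.1]
    rcases eq_or_lt_of_le h2.1 with h9 | h9
    · have h10 : (y.1, -y.2) = y := by
        ext
        · rfl
        · show -y.2 = y.2
          rw [← h9]
          norm_num
      have h11 : s / 2 * (f (y + a) - f ((y.1, -y.2) + a)) = 0 := by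
        rw [h10]
        ring
      linarith
    rcases eq_or_lt_of_le h2.2 with h10 | h10
    · have h11 : A * (y.2 * (2 * d - y.2)) = M := by
        rw [h10]
        have : A * (d * (2 * d - d)) = A * d ^ 2 := by ring
        rw [this]
        exact hAd
      linarith [h3.1]
    · exact absurd (⟨⟨h7, h8⟩, ⟨h9, h10⟩⟩ : y ∈ Ioo (-d) d ×ˢ Ioo 0 d) hy'
  have hcont : ContinuousOn w (Icc (-d) d ×ˢ Icc 0 d) := by
    intro y hy
    exact (hwc y (hCm y hy).1 (hCm y hy).2).continuousAt.continuousWithinAt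
  have hmain := tool_mp (U := Ioo (-d) d ×ˢ Ioo 0 d) (isOpen_Ioo.prod isOpen_Ioo)
    ((Metric.isBounded_Ioo _ _).prod (Metric.isBounded_Ioo _ _)) (c := fun _ => 0) (w := w)
    (fun _ _ => le_refl 0)
    (fun y hy => (hwc y (hUm y hy).1 (hUm y hy).2).contDiffWithinAt)
    (by
      intro y hy
      have h1 := hUm y hy
      have e1 : Lap w y = Lap (fun y : ℝ × ℝ => A * y.1 ^ 2 + (A * (y.2 * (2 * d - y.2)) +
          K / 2 * (y.2 * (d - y.2)))) y +
          Lap (fun y : ℝ × ℝ => s / 2 * (f (y + a) - f ((y.1, -y.2) + a))) y := by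
        refine Lap_add (by fun_prop) ?_
        exact contDiffAt_const.mul ((hcd y h1.1 h1.2).sub (hcd' y h1.1 h1.2))
      have e2 : Lap (fun y : ℝ × ℝ => s / 2 * (f (y + a) - f ((y.1, -y.2) + a))) y =
          s / 2 * (Lap (fun y => f (y + a)) y - Lap (fun y : ℝ × ℝ => f ((y.1, -y.2) + a)) y) := by
        rw [Lap_const_mul ((hcd y h1.1 h1.2).sub (hcd' y h1.1 h1.2)) (s / 2),
          Lap_sub (hcd y h1.1 h1.2) (hcd' y h1.1 h1.2)]
      have h2 := hlap y h1.1 h1.2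
      have h3 := hlap' y h1.1 h1.2
      rw [e1, tgrad_lapB, e2]
      have h4 : |s / 2 * (Lap (fun y => f (y + a)) y -
          Lap (fun y : ℝ × ℝ => f ((y.1, -y.2) + a)) y)| ≤ K := by
        rw [abs_mul, abs_div, abs_two]
        have h5 := abs_sub (Lap (fun y => f (y + a)) y)
          (Lap (fun y : ℝ × ℝ => f ((y.1, -y.2) + a)) y)
        have h6 := abs_nonneg (Lap (fun y => f (y + a)) y -
          Lap (fun y : ℝ × ℝ => f ((y.1, -y.2) + a)) y)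
        nlinarith [abs_nonneg s]
      have h5 := (abs_le.1 h4).2
      simp only [zero_mul, add_zero]
      linarith)
    (by
      intro e he
      have hset : {x | x ∈ Ioo (-d) d ×ˢ Ioo 0 d ∧ w x ≤ -e} =
          (Icc (-d) d ×ˢ Icc 0 d) ∩ w ⁻¹' (Iic (-e)) := by
        ext y
        constructor
        · rintro ⟨h1, h2⟩
          exact ⟨⟨⟨h1.1.1.le, h1.1.2.le⟩, ⟨h1.2.1.le, h1.2.2.le⟩⟩, h2⟩
        · rintro ⟨h1, h2⟩
          refine ⟨?_, h2⟩
          by_contra h3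
          have h4 := hbdry y h1 h3
          have h5 : w y ≤ -e := h2
          linarith
      rw [hset]
      have hcomp : IsCompact (Icc (-d) d ×ˢ Icc (0 : ℝ) d) := isCompact_Icc.prod isCompact_Icc
      exact hcomp.of_isClosed_subset
        (hcont.preimage_isClosed_of_isClosed hcomp.isClosed isClosed_Iic) inter_subset_left)
    (0, t) ⟨⟨by simpa using hd, hd⟩, ⟨h0, ht⟩⟩
  have hfin : w (0, t) = A * (t * (2 * d - t)) + K / 2 * (t * (d - t)) +
      s / 2 * (f ((0, t) + a) - f ((0, -t) + a)) := by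
    show (A * (0 : ℝ) ^ 2 + (A * (t * (2 * d - t)) + K / 2 * (t * (d - t)))) +
      s / 2 * (f ((0, t) + a) - f ((0, -t) + a)) = _
    ring
  rw [← hfin]
  exact hmain

/-- the estimate for the second partial derivative -/
private theorem tgrad_D2 {f : ℝ × ℝ → ℝ} {a : ℝ × ℝ} {d M K : ℝ} (hd : 0 < d) {V : Set (ℝ × ℝ)}
    (hV : IsOpen V) (hsub : {x : ℝ × ℝ | |x.1 - a.1| ≤ d ∧ |x.2 - a.2| ≤ d} ⊆ V)
    (hf : ContDiffOn ℝ 2 f V)
    (hM : ∀ x : ℝ × ℝ, |x.1 - a.1| ≤ d → |x.2 - a.2| ≤ d → |f x| ≤ M)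
    (hK : ∀ x : ℝ × ℝ, |x.1 - a.1| ≤ d → |x.2 - a.2| ≤ d → |Lap f x| ≤ K) :
    |D2 f a| ≤ 2 * M / d + K * d / 2 := by
  have hM0 : 0 ≤ M := le_trans (abs_nonneg _) (hM a (by simp [hd.le]) (by simp [hd.le]))
  have hK0 : 0 ≤ K := le_trans (abs_nonneg _) (hK a (by simp [hd.le]) (by simp [hd.le]))
  have hC0 : 0 ≤ 2 * M / d + K * d / 2 := by positivity
  have haV : a ∈ V := hsub ⟨by simp [hd.le], by simp [hd.le]⟩
  have hfd : HasFDerivAt f (fderiv ℝ f a) a :=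
    ((hf.contDiffAt (hV.mem_nhds haV)).differentiableAt (by norm_num)).hasFDerivAt
  have hg1 : HasDerivAt (fun t : ℝ => f ((0, t) + a)) (D2 f a) 0 := by
    have h1 : HasDerivAt (fun t : ℝ => ((0, t) + a : ℝ × ℝ)) (0, 1) 0 := by
      have h2 : HasDerivAt (fun t : ℝ => ((0 : ℝ), t)) (0, 1) 0 :=
        (hasDerivAt_const (0 : ℝ) (0 : ℝ)).prodMk (hasDerivAt_id (0 : ℝ))
      exact h2.add_const a
    have h3 : HasFDerivAt f (fderiv ℝ f a) ((0, (0 : ℝ)) + a) := by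
      have : ((0, (0 : ℝ)) + a : ℝ × ℝ) = a := by
        ext <;> simp
      rw [this]
      exact hfd
    exact HasFDerivAt.comp_hasDerivAt (0 : ℝ) h3 h1
  have hg2 : HasDerivAt (fun t : ℝ => f ((0, -t) + a)) (-D2 f a) 0 := by
    have h1 : HasDerivAt (fun t : ℝ => f ((0, t) + a)) (D2 f a) (-0) := by
      rw [neg_zero]
      exact hg1
    have h2 := HasDerivAt.scomp (0 : ℝ) h1 (hasDerivAt_neg (0 : ℝ))
    refine h2.congr_deriv ?_
    simp
  have hg : HasDerivAt (fun t : ℝ => f ((0, t) + a) - f ((0, -t) + a)) (2 * D2 f a) 0 := by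
    refine (hg1.sub hg2).congr_deriv ?_
    ring
  have hest : ∀ t : ℝ, 0 < t → t < d →
      |f ((0, t) + a) - f ((0, -t) + a)| ≤ 2 * (2 * M / d + K * d / 2) * t := by
    intro t h0 ht
    have h1 := tgrad_half hd hV hsub hf hM hK (s := 1) (by simp) h0 ht
    have h2 := tgrad_half hd hV hsub hf hM hK (s := -1) (by simp) h0 ht
    have h3 : M / d ^ 2 * (t * (2 * d - t)) ≤ 2 * M / d * t := by
      have e : 2 * M / d * t - M / d ^ 2 * (t * (2 * d - t)) = M / d ^ 2 * t ^ 2 := by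
        field_simp
        ring
      have : 0 ≤ M / d ^ 2 * t ^ 2 := by positivity
      linarith
    have h4 : K / 2 * (t * (d - t)) ≤ K * d / 2 * t := by
      have e : K * d / 2 * t - K / 2 * (t * (d - t)) = K / 2 * t ^ 2 := by ring
      have : 0 ≤ K / 2 * t ^ 2 := by positivity
      linarith
    rw [abs_le]
    constructor <;> linarith
  have hlip : ∀ᶠ t in nhds (0 : ℝ), ‖(f ((0, t) + a) - f ((0, -t) + a)) -
      (f ((0, (0 : ℝ)) + a) - f ((0, -(0 : ℝ)) + a))‖ ≤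
      2 * (2 * M / d + K * d / 2) * ‖t - 0‖ := by
    have hn : Ioo (-d) d ∈ nhds (0 : ℝ) := Ioo_mem_nhds (by linarith) hd
    filter_upwards [hn] with t ht
    have e0 : f ((0, (0 : ℝ)) + a) - f ((0, -(0 : ℝ)) + a) = 0 := by
      rw [neg_zero, sub_self]
    rw [e0, sub_zero, sub_zero, Real.norm_eq_abs, Real.norm_eq_abs]
    rcases lt_trichotomy t 0 with h | h | h
    · have h1 := hest (-t) (by linarith) (by linarith [ht.1])
      rw [neg_neg] at h1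
      rw [abs_sub_comm, abs_of_neg h]
      exact h1
    · rw [h, neg_zero, sub_self, abs_zero, mul_zero]
    · have h1 := hest t h ht.2
      rw [abs_of_pos h]
      exact h1
  have hfin := hg.le_of_lip' (by positivity) hlip
  rw [Real.norm_eq_abs, abs_mul, abs_two] at hfin
  linarith

/-- T4: interior gradient estimate -/
theorem tool_grad {f : ℝ × ℝ → ℝ} {a : ℝ × ℝ} {d M K : ℝ} (hd : 0 < d) {V : Set (ℝ × ℝ)}
    (hV : IsOpen V) (hsub : {x : ℝ × ℝ | |x.1 - a.1| ≤ d ∧ |x.2 - a.2| ≤ d} ⊆ V)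
    (hf : ContDiffOn ℝ 2 f V)
    (hM : ∀ x : ℝ × ℝ, |x.1 - a.1| ≤ d → |x.2 - a.2| ≤ d → |f x| ≤ M)
    (hK : ∀ x : ℝ × ℝ, |x.1 - a.1| ≤ d → |x.2 - a.2| ≤ d → |Lap f x| ≤ K) :
    |D1 f a| ≤ 2 * M / d + K * d / 2 ∧ |D2 f a| ≤ 2 * M / d + K * d / 2 := by
  refine ⟨?_, tgrad_D2 hd hV hsub hf hM hK⟩
  have hsw : Continuous (fun y : ℝ × ℝ => ((y.2, y.1) : ℝ × ℝ)) := by fun_prop
  have h := tgrad_D2 (f := fun y : ℝ × ℝ => f (y.2, y.1)) (a := (a.2, a.1)) (d := d) (M := M)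
    (K := K) hd (V := (fun y : ℝ × ℝ => ((y.2, y.1) : ℝ × ℝ)) ⁻¹' V) (hV.preimage hsw)
    (by
      intro y hy
      exact hsub ⟨hy.2, hy.1⟩)
    (by
      refine ContDiffOn.comp (t := V) hf ?_ ?_
      · exact ContDiff.contDiffOn (by fun_prop)
      · intro y hy
        exact hy)
    (fun y h1 h2 => hM (y.2, y.1) h2 h1)
    (fun y h1 h2 => by
      rw [Lap_swap]
      exact hK (y.2, y.1) h2 h1)
  rw [D2_swap] at h
  exact h

end Pool.Agent.AO
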