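import Pool.Agent.Lib.MP_10e52e_an.Symm

/-! Integration over the torus: translation invariance, integration by parts. -/

namespace Pool.Agent.AO

open MeasureTheory Set Filter Topology
open scoped ContDiff Pointwise

theorem measurableSet_Q : MeasurableSet Q := measurableSet_Ioc.prod measurableSet_Ioc

theorem volume_Q : volume Q = 1 := by
  rw [Q, Measure.volume_eq_prod, Measure.prod_prod]
  simp only [Real.volume_Ioc]
  norm_num

/-- Lebesgue measure on the cell -/
noncomputable def tor : Measure (ℝ × ℝ) := (volume : Measure (ℝ × ℝ)).restrict Q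

instance : IsProbabilityMeasure tor := ⟨by simp [tor, volume_Q]⟩

theorem TI_eq (f : ℝ × ℝ → ℝ) : TI f = ∫ x, f x ∂tor := rfl

/-- the lattice as a subgroup -/
def latG : AddSubgroup (ℝ × ℝ) where
  carrier := Lat
  zero_mem' := ⟨0, 0, by push_cast; rfl⟩
  add_mem' := by
    rintro a b ⟨m, n, rfl⟩ ⟨m', n', rfl⟩
    exact ⟨m + m', n + n', by push_cast; rfl⟩
  neg_mem' := by
    rintro a ⟨m, n, rfl⟩
    exact ⟨-m, -n, by push_cast; rfl⟩

theorem mem_latG {x : ℝ × ℝ} : x ∈ latG ↔ x ∈ Lat := Iff.rfl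

theorem countable_Lat : Lat.Countable := by
  have : Lat = Set.range (fun p : ℤ × ℤ => (((p.1 : ℝ), (p.2 : ℝ)) : ℝ × ℝ)) := by
    ext z
    constructor
    · rintro ⟨m, n, rfl⟩; exact ⟨(m, n), rfl⟩
    · rintro ⟨⟨m, n⟩, rfl⟩; exact ⟨m, n, rfl⟩
  rw [this]
  exact Set.countable_range _

instance : Countable latG := countable_Lat.to_subtype

theorem Per.vadd {f : ℝ × ℝ → ℝ} (hf : Per f) (g : latG) (z : ℝ × ℝ) : f (g +ᵥ z) = f z := by
  have : g +ᵥ z = z + (g : ℝ × ℝ) := by
    rw [AddSubgroup.vadd_def, vadd_eq_add, add_comm]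
  rw [this, hf.add_lat g.2]

theorem isAddFundamentalDomain_Q : IsAddFundamentalDomain latG Q (volume : Measure (ℝ × ℝ)) := by
  refine IsAddFundamentalDomain.mk' measurableSet_Q.nullMeasurableSet fun z => ?_
  obtain ⟨m, hm, hm'⟩ := existsUnique_add_zsmul_mem_Ioc (zero_lt_one : (0:ℝ) < 1) z.1 (-1/2)
  obtain ⟨n, hn, hn'⟩ := existsUnique_add_zsmul_mem_Ioc (zero_lt_one : (0:ℝ) < 1) z.2 (-1/2)
  refine ⟨⟨((m:ℝ), (n:ℝ)), m, n, rfl⟩, ?_, ?_⟩
  · simp only [AddSubgroup.vadd_def, vadd_eq_add]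
    simp only [zsmul_eq_mul, mul_one, mem_Ioc] at hm hn
    simp only [Q, mem_prod, mem_Ioc, Prod.fst_add, Prod.snd_add]
    constructor <;> constructor <;> linarith [hm.1, hm.2, hn.1, hn.2]
  · rintro ⟨g, m', n', rfl⟩ hg
    simp only [AddSubgroup.vadd_def, vadd_eq_add, Q, mem_prod, mem_Ioc, Prod.fst_add,
      Prod.snd_add] at hg
    have h1 : m' = m := hm' m' (by
      simp only [zsmul_eq_mul, mul_one, mem_Ioc]
      constructor <;> linarith [hg.1.1, hg.1.2])
    have h2 : n' = n := hn' n' (by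
      simp only [zsmul_eq_mul, mul_one, mem_Ioc]
      constructor <;> linarith [hg.2.1, hg.2.2])
    subst h1; subst h2; rfl

/-- the integral of a periodic function over any translate of the cell -/
theorem setIntegral_translate_Q {f : ℝ × ℝ → ℝ} (hf : Per f) (a : ℝ × ℝ) :
    ∫ z in a +ᵥ Q, f z = TI f := by
  have h2 : IsAddFundamentalDomain latG (a +ᵥ Q) (volume : Measure (ℝ × ℝ)) :=
    isAddFundamentalDomain_Q.vadd_of_comm a
  exact h2.setIntegral_eq isAddFundamentalDomain_Q fun g z => hf.vadd g z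

/-- translation invariance of the torus integral (no integrability needed) -/
theorem TI_translate {f : ℝ × ℝ → ℝ} (hf : Per f) (a : ℝ × ℝ) :
    TI (fun z => f (z + a)) = TI f := by
  have h1 : TI (fun z => f (z + a)) = ∫ z in a +ᵥ Q, f z := by
    have hpre : Q = (fun z => z + a) ⁻¹' (a +ᵥ Q) := by
      ext z; simp only [mem_preimage, mem_vadd_set_iff_neg_vadd_mem, vadd_eq_add]
      rw [show -a + (z + a) = z by abel]
    rw [TI]
    conv_lhs => rw [hpre]
    exact (measurePreserving_add_right volume a).setIntegral_preimage_emb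
      (measurableEmbedding_addRight a) f _
  rw [h1, setIntegral_translate_Q hf]

theorem TI_translate_sub {f : ℝ × ℝ → ℝ} (hf : Per f) (a : ℝ × ℝ) :
    TI (fun z => f (z - a)) = TI f := by
  simpa [sub_eq_add_neg] using TI_translate hf (-a)

theorem integrableOn_translate {f : ℝ × ℝ → ℝ} (hf : Per f) (h : IntegrableOn f Q) (a : ℝ × ℝ) :
    IntegrableOn (fun z => f (z + a)) Q := by
  have h2 : IsAddFundamentalDomain latG (a +ᵥ Q) (volume : Measure (ℝ × ℝ)) :=
    isAddFundamentalDomain_Q.vadd_of_comm a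
  have h3 : IntegrableOn f (a +ᵥ Q) :=
    (isAddFundamentalDomain_Q.integrableOn_iff h2 fun g z => hf.vadd g z).1 h
  have hpre : Q = (fun z => z + a) ⁻¹' (a +ᵥ Q) := by
    ext z; simp only [mem_preimage, mem_vadd_set_iff_neg_vadd_mem, vadd_eq_add]
    rw [show -a + (z + a) = z by abel]
  rw [hpre]
  exact ((measurePreserving_add_right volume a).integrableOn_comp_preimage
    (measurableEmbedding_addRight a)).2 h3

/-- the closed cell -/
def QQ : Set (ℝ × ℝ) := Icc (-1/2 : ℝ) (1/2) ×ˢ Icc (-1/2 : ℝ) (1/2)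

theorem Q_subset_QQ : Q ⊆ QQ := prod_mono Ioc_subset_Icc_self Ioc_subset_Icc_self

theorem isCompact_QQ : IsCompact QQ := isCompact_Icc.prod isCompact_Icc

theorem exists_lat_mem_Q (z : ℝ × ℝ) : ∃ g ∈ Lat, z + g ∈ Q := by
  obtain ⟨m, hm, -⟩ := existsUnique_add_zsmul_mem_Ioc (zero_lt_one : (0:ℝ) < 1) z.1 (-1/2)
  obtain ⟨n, hn, -⟩ := existsUnique_add_zsmul_mem_Ioc (zero_lt_one : (0:ℝ) < 1) z.2 (-1/2)
  simp only [zsmul_eq_mul, mul_one, mem_Ioc] at hm hn
  refine ⟨((m:ℝ), (n:ℝ)), ⟨m, n, rfl⟩, ?_⟩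
  simp only [Q, mem_prod, mem_Ioc, Prod.fst_add, Prod.snd_add]
  constructor <;> constructor <;> linarith [hm.1, hm.2, hn.1, hn.2]

theorem Per.bounded {f : ℝ × ℝ → ℝ} (hf : Per f) (hc : Continuous f) : ∃ C, ∀ z, |f z| ≤ C := by
  obtain ⟨C, hC⟩ := isCompact_QQ.exists_bound_of_continuousOn hc.continuousOn
  refine ⟨C, fun z => ?_⟩
  obtain ⟨g, hg, hz⟩ := exists_lat_mem_Q z
  rw [← hf.add_lat hg z]
  exact hC _ (Q_subset_QQ hz)

theorem Per.exists_max {f : ℝ × ℝ → ℝ} (hf : Per f) (hc : Continuous f) :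
    ∃ z ∈ QQ, ∀ w, f w ≤ f z := by
  obtain ⟨z, hzQ, hz⟩ := isCompact_QQ.exists_isMaxOn ⟨0, by
    constructor <;> constructor <;> norm_num⟩ hc.continuousOn
  refine ⟨z, hzQ, fun w => ?_⟩
  obtain ⟨g, hg, hw⟩ := exists_lat_mem_Q w
  rw [← hf.add_lat hg w]
  exact hz (Q_subset_QQ hw)

theorem Per.exists_min {f : ℝ × ℝ → ℝ} (hf : Per f) (hc : Continuous f) :
    ∃ z ∈ QQ, ∀ w, f z ≤ f w := by
  obtain ⟨z, hzQ, hz⟩ := Per.exists_max hf.neg hc.neg
  exact ⟨z, hzQ, fun w => by have := hz w; simpa using this⟩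

theorem integrableOn_Q_of_continuous {f : ℝ × ℝ → ℝ} (hc : Continuous f) : IntegrableOn f Q :=
  (hc.continuousOn.integrableOn_compact isCompact_QQ).mono_set Q_subset_QQ

theorem integrableOn_Q_mul {f g : ℝ × ℝ → ℝ} (hf : Continuous f) (hg : Continuous g) :
    IntegrableOn (fun x => f x * g x) Q := integrableOn_Q_of_continuous (hf.mul hg)

theorem integrableOn_Q_add {f g : ℝ × ℝ → ℝ} (hf : Continuous f) (hg : Continuous g) :
    IntegrableOn (fun x => f x + g x) Q := integrableOn_Q_of_continuous (hf.add hg)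

section Linear
variable {f g : ℝ × ℝ → ℝ}

theorem TI_add (hf : IntegrableOn f Q) (hg : IntegrableOn g Q) :
    TI (fun x => f x + g x) = TI f + TI g := integral_add hf hg

theorem TI_sub (hf : IntegrableOn f Q) (hg : IntegrableOn g Q) :
    TI (fun x => f x - g x) = TI f - TI g := integral_sub hf hg

theorem TI_neg_fun (f : ℝ × ℝ → ℝ) : TI (fun x => - f x) = - TI f := integral_neg f

theorem TI_const_mul (c : ℝ) (f : ℝ × ℝ → ℝ) : TI (fun x => c * f x) = c * TI f :=
  integral_const_mul c f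

theorem TI_mul_const (c : ℝ) (f : ℝ × ℝ → ℝ) : TI (fun x => f x * c) = TI f * c :=
  integral_mul_const c f

theorem TI_const (c : ℝ) : TI (fun _ => c) = c := by
  rw [TI_eq]; simp

theorem TI_congr (h : ∀ x, f x = g x) : TI f = TI g := by rw [funext h]

theorem TI_congr_ae (h : f =ᵐ[volume] g) : TI f = TI g :=
  integral_congr_ae (ae_restrict_of_ae h)

theorem TI_mono (hf : IntegrableOn f Q) (hg : IntegrableOn g Q) (h : ∀ x, f x ≤ g x) :
    TI f ≤ TI g := integral_mono hf hg h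

theorem TI_nonneg (h : ∀ x, 0 ≤ f x) : 0 ≤ TI f := integral_nonneg h

end Linear

/-- iterated integral, first variable inside -/
theorem TI_eq_iterated {f : ℝ × ℝ → ℝ} (hf : IntegrableOn f Q) :
    TI f = ∫ y in (-1/2:ℝ)..(1/2), ∫ x in (-1/2:ℝ)..(1/2), f (x, y) := by
  have hle : (-1/2:ℝ) ≤ 1/2 := by norm_num
  rw [TI, Q] at *
  rw [IntegrableOn, Measure.volume_eq_prod, ← Measure.prod_restrict] at hf
  rw [Measure.volume_eq_prod, ← Measure.prod_restrict, integral_prod_symm _ hf,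
    intervalIntegral.integral_of_le hle]
  refine setIntegral_congr_fun measurableSet_Ioc fun x _ => ?_
  rw [intervalIntegral.integral_of_le hle]

/-- iterated integral, second variable inside -/
theorem TI_eq_iterated' {f : ℝ × ℝ → ℝ} (hf : IntegrableOn f Q) :
    TI f = ∫ x in (-1/2:ℝ)..(1/2), ∫ y in (-1/2:ℝ)..(1/2), f (x, y) := by
  have hle : (-1/2:ℝ) ≤ 1/2 := by norm_num
  rw [TI, Q] at *
  rw [IntegrableOn, Measure.volume_eq_prod, ← Measure.prod_restrict] at hf
  rw [Measure.volume_eq_prod, ← Measure.prod_restrict, integral_prod _ hf,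
    intervalIntegral.integral_of_le hle]
  refine setIntegral_congr_fun measurableSet_Ioc fun x _ => ?_
  rw [intervalIntegral.integral_of_le hle]

theorem hasDerivAt_fst {f : ℝ × ℝ → ℝ} {x y : ℝ} (hf : DifferentiableAt ℝ f (x, y)) :
    HasDerivAt (fun t => f (t, y)) (D1 f (x, y)) x := by
  have h : HasDerivAt (fun t : ℝ => ((t, y) : ℝ × ℝ)) ((1:ℝ), (0:ℝ)) x :=
    (hasDerivAt_id x).prodMk (hasDerivAt_const x y)
  exact hf.hasFDerivAt.comp_hasDerivAt x h

theorem hasDerivAt_snd {f : ℝ × ℝ → ℝ} {x y : ℝ} (hf : DifferentiableAt ℝ f (x, y)) :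
    HasDerivAt (fun t => f (x, t)) (D2 f (x, y)) y := by
  have h : HasDerivAt (fun t : ℝ => ((x, t) : ℝ × ℝ)) ((0:ℝ), (1:ℝ)) y :=
    (hasDerivAt_const y x).prodMk (hasDerivAt_id y)
  exact hf.hasFDerivAt.comp_hasDerivAt y h

theorem TI_D1_zero {f : ℝ × ℝ → ℝ} (hf : ContDiff ℝ 1 f) (hp : Per f) : TI (D1 f) = 0 := by
  rw [TI_eq_iterated (integrableOn_Q_of_continuous (continuous_D1 hf))]
  have h : ∀ y : ℝ, ∫ x in (-1/2:ℝ)..(1/2), D1 f (x, y) = 0 := by
    intro y
    have hcont : Continuous fun t : ℝ => D1 f (t, y) := (continuous_D1 hf).comp (by fun_prop)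
    rw [intervalIntegral.integral_eq_sub_of_hasDerivAt (f := fun t => f (t, y))
      (fun t _ => hasDerivAt_fst (hf.differentiable one_ne_zero _))
      (hcont.intervalIntegrable _ _)]
    have := hp.add_one_fst (-1/2) y
    rw [show (-1/2:ℝ) + 1 = 1/2 by norm_num] at this
    rw [this, sub_self]
  simp only [h, intervalIntegral.integral_zero]

theorem TI_D2_zero {f : ℝ × ℝ → ℝ} (hf : ContDiff ℝ 1 f) (hp : Per f) : TI (D2 f) = 0 := by
  rw [TI_eq_iterated' (integrableOn_Q_of_continuous (continuous_D2 hf))]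
  have h : ∀ x : ℝ, ∫ y in (-1/2:ℝ)..(1/2), D2 f (x, y) = 0 := by
    intro x
    have hcont : Continuous fun t : ℝ => D2 f (x, t) := (continuous_D2 hf).comp (by fun_prop)
    rw [intervalIntegral.integral_eq_sub_of_hasDerivAt (f := fun t => f (x, t))
      (fun t _ => hasDerivAt_snd (hf.differentiable one_ne_zero _))
      (hcont.intervalIntegrable _ _)]
    have := hp.add_one_snd x (-1/2)
    rw [show (-1/2:ℝ) + 1 = 1/2 by norm_num] at this
    rw [this, sub_self]
  simp only [h, intervalIntegral.integral_zero]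

section Parts
variable {f g : ℝ × ℝ → ℝ}

theorem TI_mul_D1 (hf : ContDiff ℝ 1 f) (hg : ContDiff ℝ 1 g) (hpf : Per f) (hpg : Per g) :
    TI (fun x => f x * D1 g x) = - TI (fun x => D1 f x * g x) := by
  have h := TI_D1_zero (hf.mul hg) (hpf.mul hpg)
  have h2 : D1 (fun y => f y * g y) = fun x => D1 f x * g x + f x * D1 g x := funext fun x =>
    D1_mul (hf.differentiable one_ne_zero x) (hg.differentiable one_ne_zero x)
  rw [h2, TI_add (integrableOn_Q_mul (continuous_D1 hf) hg.continuous)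
    (integrableOn_Q_mul hf.continuous (continuous_D1 hg))] at h
  linarith

theorem TI_mul_D2 (hf : ContDiff ℝ 1 f) (hg : ContDiff ℝ 1 g) (hpf : Per f) (hpg : Per g) :
    TI (fun x => f x * D2 g x) = - TI (fun x => D2 f x * g x) := by
  have h := TI_D2_zero (hf.mul hg) (hpf.mul hpg)
  have h2 : D2 (fun y => f y * g y) = fun x => D2 f x * g x + f x * D2 g x := funext fun x =>
    D2_mul (hf.differentiable one_ne_zero x) (hg.differentiable one_ne_zero x)
  rw [h2, TI_add (integrableOn_Q_mul (continuous_D2 hf) hg.continuous)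
    (integrableOn_Q_mul hf.continuous (continuous_D2 hg))] at h
  linarith

theorem TI_mul_Lap (hf : ContDiff ℝ 1 f) (hg : ContDiff ℝ 2 g) (hpf : Per f) (hpg : Per g) :
    TI (fun x => f x * Lap g x) = - TI (fun x => D1 f x * D1 g x + D2 f x * D2 g x) := by
  have h1 := TI_mul_D1 hf (contDiff_D1_one hg) hpf hpg.D1
  have h2 := TI_mul_D2 hf (contDiff_D2_one hg) hpf hpg.D2
  have e1 : TI (fun x => f x * Lap g x)
      = TI (fun x => f x * D1 (D1 g) x) + TI (fun x => f x * D2 (D2 g) x) := by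
    rw [← TI_add
      (integrableOn_Q_mul hf.continuous (continuous_D1 (contDiff_D1_one hg)))
      (integrableOn_Q_mul hf.continuous (continuous_D2 (contDiff_D2_one hg)))]
    exact TI_congr fun x => by simp only [Lap]; ring
  rw [e1, h1, h2, TI_add
    (integrableOn_Q_mul (continuous_D1 hf) (contDiff_D1_one hg).continuous)
    (integrableOn_Q_mul (continuous_D2 hf) (contDiff_D2_one hg).continuous)]
  ring

theorem TI_mul_Lap_comm (hf : ContDiff ℝ 2 f) (hg : ContDiff ℝ 2 g) (hpf : Per f) (hpg : Per g) :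
    TI (fun x => f x * Lap g x) = TI (fun x => g x * Lap f x) := by
  rw [TI_mul_Lap (hf.of_le (by norm_num)) hg hpf hpg,
    TI_mul_Lap (hg.of_le (by norm_num)) hf hpg hpf]
  congr 1
  exact TI_congr fun x => by ring

theorem TI_Lap (hf : ContDiff ℝ 2 f) (hp : Per f) : TI (Lap f) = 0 := by
  have := TI_mul_Lap (f := fun _ => 1) contDiff_const hf (per_const 1) hp
  simp only [one_mul, D1_const, D2_const, zero_mul, add_zero] at this
  rw [this]
  have h0 : TI (fun _ => 0) = 0 := TI_const 0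
  rw [h0, neg_zero]

/-- a continuous periodic nonnegative function with zero integral vanishes -/
theorem eq_zero_of_TI_eq_zero (hc : Continuous f) (hp : Per f) (h0 : ∀ x, 0 ≤ f x)
    (hint : TI f = 0) : ∀ x, f x = 0 := by
  intro z
  by_contra hz
  have hpos : 0 < f z := lt_of_le_of_ne (h0 z) (Ne.symm hz)
  have h2 : TI (fun w => f (w + z)) = 0 := by rw [TI_translate hp, hint]
  have hc2 : Continuous fun w => f (w + z) := hc.comp (by fun_prop)
  have hae : (fun w => f (w + z)) =ᵐ[tor] 0 :=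
    (integral_eq_zero_iff_of_nonneg (fun w => h0 _) (integrableOn_Q_of_continuous hc2)).1 h2
  set U : Set (ℝ × ℝ) := {w | 0 < f (w + z)} ∩ (Ioo (-1/2:ℝ) (1/2) ×ˢ Ioo (-1/2:ℝ) (1/2)) with hU
  have hUo : IsOpen U := (isOpen_lt continuous_const hc2).inter (isOpen_Ioo.prod isOpen_Ioo)
  have hcU : (0 : ℝ × ℝ) ∈ U := by
    refine ⟨?_, ?_⟩
    · simpa using hpos
    · constructor <;> constructor <;> norm_num
  have hUpos : 0 < volume U := hUo.measure_pos volume ⟨0, hcU⟩
  have hUQ : U ⊆ Q := fun w hw => ⟨⟨hw.2.1.1, hw.2.1.2.le⟩, ⟨hw.2.2.1, hw.2.2.2.le⟩⟩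
  have h3 : tor U = volume U := by
    rw [tor, Measure.restrict_apply hUo.measurableSet, inter_eq_left.2 hUQ]
  have h4 : tor {w | ¬ f (w + z) = 0} = 0 := hae
  have h5 : tor U ≤ tor {w | ¬ f (w + z) = 0} := measure_mono fun w hw => ne_of_gt hw.1
  rw [h3, h4] at h5
  exact absurd h5 (not_le.2 hUpos)

theorem is_const_of_D_eq_zero (hf : ContDiff ℝ 1 f) (h1 : ∀ x, D1 f x = 0) (h2 : ∀ x, D2 f x = 0)
    (x y : ℝ × ℝ) : f x = f y := by
  apply is_const_of_fderiv_eq_zero (𝕜 := ℝ) (hf.differentiable one_ne_zero)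
  intro z
  refine ContinuousLinearMap.ext fun v => ?_
  rw [fderiv_eq, h1, h2]
  simp

/-- Liouville on the torus -/
theorem const_of_Lap_eq_zero (hf : ContDiff ℝ 2 f) (hp : Per f) (h : ∀ x, Lap f x = 0)
    (x y : ℝ × ℝ) : f x = f y := by
  have h1 := TI_mul_Lap (hf.of_le (by norm_num)) hf hp hp
  simp only [h, mul_zero] at h1
  have h2 : TI (fun x => D1 f x * D1 f x + D2 f x * D2 f x) = 0 := by
    have h0 : TI (fun _ => 0) = 0 := TI_const 0
    linarith
  have hc1 := (contDiff_D1_one hf).continuous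
  have hc2 := (contDiff_D2_one hf).continuous
  have h3 := eq_zero_of_TI_eq_zero ((hc1.mul hc1).add (hc2.mul hc2))
    ((hp.D1.mul hp.D1).add (hp.D2.mul hp.D2))
    (fun x => add_nonneg (mul_self_nonneg _) (mul_self_nonneg _)) h2
  refine is_const_of_D_eq_zero (hf.of_le (by norm_num)) (fun z => ?_) (fun z => ?_) x y
  · have h4 : D1 f z * D1 f z + D2 f z * D2 f z = 0 := h3 z
    exact mul_self_eq_zero.1
      (le_antisymm (by linarith [mul_self_nonneg (D2 f z)]) (mul_self_nonneg _))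
  · have h4 : D1 f z * D1 f z + D2 f z * D2 f z = 0 := h3 z
    exact mul_self_eq_zero.1
      (le_antisymm (by linarith [mul_self_nonneg (D1 f z)]) (mul_self_nonneg _))

end Parts

end Pool.Agent.AO
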