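import Pool.Agent.Lib.MP_10e52e_an.Defs3
import Pool.Agent.Lib.MP_10e52e_an.Integral

/-! MP_10e52e_an row Tint: T5 integration on the torus -/

namespace Pool.Agent.AO

open MeasureTheory Set Real
open scoped ContDiff

/-- T5 -/
theorem TI_shift {f : ℝ × ℝ → ℝ} (hp : Per f) (hf : IntegrableOn f Q) (a : ℝ × ℝ) :
    TI (fun x => f (x + a)) = TI f :=
  TI_translate hp a

theorem tint_Q_ae : Q =ᵐ[(volume : Measure (ℝ × ℝ))] QQ :=
  Measure.set_prod_ae_eq Ioc_ae_eq_Icc Ioc_ae_eq_Icc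

theorem tint_neg_QQ : (Neg.neg ⁻¹' QQ : Set (ℝ × ℝ)) = QQ := by
  ext x
  simp only [QQ, mem_preimage, mem_prod, mem_Icc, Prod.fst_neg, Prod.snd_neg]
  constructor
  · rintro ⟨⟨h1, h2⟩, h3, h4⟩
    exact ⟨⟨by linarith, by linarith⟩, by linarith, by linarith⟩
  · rintro ⟨⟨h1, h2⟩, h3, h4⟩
    exact ⟨⟨by linarith, by linarith⟩, by linarith, by linarith⟩

theorem TI_neg {f : ℝ × ℝ → ℝ} : TI (fun x => f (-x)) = TI f := by
  have h0 := Measure.measurePreserving_neg (volume : Measure (ℝ × ℝ))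
  have h1 : (Neg.neg ⁻¹' Q : Set (ℝ × ℝ)) =ᵐ[volume] Q := by
    refine (h0.quasiMeasurePreserving.preimage_ae_eq tint_Q_ae).trans ?_
    rw [tint_neg_QQ]
    exact tint_Q_ae.symm
  have h2 := h0.setIntegral_preimage_emb (MeasurableEquiv.neg (ℝ × ℝ)).measurableEmbedding f Q
  unfold TI
  rw [← h2]
  exact (setIntegral_congr_set h1).symm

theorem TI_D1 {f : ℝ × ℝ → ℝ} (hf : ContDiff ℝ 1 f) (hp : Per f) : TI (D1 f) = 0 :=
  TI_D1_zero hf hp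

theorem TI_D2 {f : ℝ × ℝ → ℝ} (hf : ContDiff ℝ 1 f) (hp : Per f) : TI (D2 f) = 0 :=
  TI_D2_zero hf hp

theorem TI_green {f g : ℝ × ℝ → ℝ} (hf : ContDiff ℝ 1 f) (hpf : Per f) (hg : ContDiff ℝ 2 g)
    (hpg : Per g) :
    TI (fun x => f x * Lap g x) = -TI (fun x => D1 f x * D1 g x + D2 f x * D2 g x) :=
  TI_mul_Lap hf hg hpf hpg

theorem const_of_harmonic {f : ℝ × ℝ → ℝ} (hf : ContDiff ℝ 2 f) (hp : Per f)
    (h : ∀ x, Lap f x = 0) : ∀ x, f x = f 0 :=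
  fun x => const_of_Lap_eq_zero hf hp h x 0

end Pool.Agent.AO
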