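import Pool.Agent.Lib.MP_10e52e_an.Defs

/-! Calculus of the partial derivatives `D1`, `D2` and of `Lap` (general API). -/

namespace Pool.Agent.AO

open MeasureTheory Set Filter Topology
open scoped ContDiff

/-- derivative in the direction `v` -/
noncomputable def Dv (v : ℝ × ℝ) (f : ℝ × ℝ → ℝ) (x : ℝ × ℝ) : ℝ := fderiv ℝ f x v

theorem D1_eq_Dv (f : ℝ × ℝ → ℝ) : D1 f = Dv (1, 0) f := rfl

theorem D2_eq_Dv (f : ℝ × ℝ → ℝ) : D2 f = Dv (0, 1) f := rfl

theorem Dv_eq (f : ℝ × ℝ → ℝ) (v x : ℝ × ℝ) : Dv v f x = v.1 * D1 f x + v.2 * D2 f x := by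
  have : v = v.1 • ((1:ℝ), (0:ℝ)) + v.2 • ((0:ℝ), (1:ℝ)) := by
    ext <;> simp
  simp only [Dv, D1, D2]
  conv_lhs => rw [this]
  simp only [map_add, map_smul, smul_eq_mul]

theorem fderiv_eq (f : ℝ × ℝ → ℝ) (v x : ℝ × ℝ) :
    fderiv ℝ f x v = v.1 * D1 f x + v.2 * D2 f x := Dv_eq f v x

section Congr

theorem Dv_congr {f g : ℝ × ℝ → ℝ} {x : ℝ × ℝ} (v : ℝ × ℝ) (h : f =ᶠ[𝓝 x] g) :
    Dv v f x = Dv v g x := by
  simp only [Dv, h.fderiv_eq]

theorem Dv_congr' {f g : ℝ × ℝ → ℝ} {x : ℝ × ℝ} (v : ℝ × ℝ) (h : f =ᶠ[𝓝 x] g) :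
    Dv v f =ᶠ[𝓝 x] Dv v g := by
  filter_upwards [h.eventually_nhds] with y hy using Dv_congr v hy

theorem D1_congr {f g : ℝ × ℝ → ℝ} {x : ℝ × ℝ} (h : f =ᶠ[𝓝 x] g) : D1 f x = D1 g x :=
  Dv_congr _ h

theorem D2_congr {f g : ℝ × ℝ → ℝ} {x : ℝ × ℝ} (h : f =ᶠ[𝓝 x] g) : D2 f x = D2 g x :=
  Dv_congr _ h

theorem D1_congr' {f g : ℝ × ℝ → ℝ} {x : ℝ × ℝ} (h : f =ᶠ[𝓝 x] g) : D1 f =ᶠ[𝓝 x] D1 g :=
  Dv_congr' _ h

theorem D2_congr' {f g : ℝ × ℝ → ℝ} {x : ℝ × ℝ} (h : f =ᶠ[𝓝 x] g) : D2 f =ᶠ[𝓝 x] D2 g :=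
  Dv_congr' _ h

theorem Lap_congr {f g : ℝ × ℝ → ℝ} {x : ℝ × ℝ} (h : f =ᶠ[𝓝 x] g) : Lap f x = Lap g x := by
  simp only [Lap]
  rw [D1_congr (D1_congr' h), D2_congr (D2_congr' h)]

theorem Lap_congr' {f g : ℝ × ℝ → ℝ} {x : ℝ × ℝ} (h : f =ᶠ[𝓝 x] g) : Lap f =ᶠ[𝓝 x] Lap g := by
  filter_upwards [h.eventually_nhds] with y hy using Lap_congr hy

end Congr

section Smooth
variable {f g : ℝ × ℝ → ℝ} {x : ℝ × ℝ}

theorem contDiffAt_Dv {n : ℕ} (hf : ContDiffAt ℝ (n + 1) f x) (v : ℝ × ℝ) :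
    ContDiffAt ℝ n (Dv v f) x :=
  (hf.fderiv_right (m := n) le_rfl).clm_apply contDiffAt_const

theorem contDiff_Dv {n : ℕ} (hf : ContDiff ℝ (n + 1) f) (v : ℝ × ℝ) : ContDiff ℝ n (Dv v f) :=
  (hf.fderiv_right (m := n) le_rfl).clm_apply contDiff_const

theorem contDiff_Dv_infty (hf : ContDiff ℝ ∞ f) (v : ℝ × ℝ) : ContDiff ℝ ∞ (Dv v f) :=
  (hf.fderiv_right (m := ∞) (by simp)).clm_apply contDiff_const

theorem contDiffAt_D1 {n : ℕ} (hf : ContDiffAt ℝ (n + 1) f x) : ContDiffAt ℝ n (D1 f) x :=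
  contDiffAt_Dv hf _

theorem contDiffAt_D2 {n : ℕ} (hf : ContDiffAt ℝ (n + 1) f x) : ContDiffAt ℝ n (D2 f) x :=
  contDiffAt_Dv hf _

theorem contDiff_D1 {n : ℕ} (hf : ContDiff ℝ (n + 1) f) : ContDiff ℝ n (D1 f) := contDiff_Dv hf _

theorem contDiff_D2 {n : ℕ} (hf : ContDiff ℝ (n + 1) f) : ContDiff ℝ n (D2 f) := contDiff_Dv hf _

theorem contDiff_D1_infty (hf : ContDiff ℝ ∞ f) : ContDiff ℝ ∞ (D1 f) := contDiff_Dv_infty hf _

theorem contDiff_D2_infty (hf : ContDiff ℝ ∞ f) : ContDiff ℝ ∞ (D2 f) := contDiff_Dv_infty hf _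

theorem contDiffAt_Lap {n : ℕ} (hf : ContDiffAt ℝ (n + 2) f x) : ContDiffAt ℝ n (Lap f) x := by
  have h1 : ContDiffAt ℝ ((n + 1 : ℕ) + 1) f x := by
    have : ((n + 1 : ℕ) + 1 : WithTop ℕ∞) = n + 2 := by push_cast; rw [add_assoc]; norm_num
    rw [this]; exact hf
  exact (contDiffAt_D1 (n := n) (by exact_mod_cast contDiffAt_D1 h1)).add
    (contDiffAt_D2 (n := n) (by exact_mod_cast contDiffAt_D2 h1))

theorem contDiff_Lap {n : ℕ} (hf : ContDiff ℝ (n + 2) f) : ContDiff ℝ n (Lap f) :=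
  contDiff_iff_contDiffAt.2 fun _ => contDiffAt_Lap hf.contDiffAt

theorem contDiff_Lap_infty (hf : ContDiff ℝ ∞ f) : ContDiff ℝ ∞ (Lap f) :=
  (contDiff_D1_infty (contDiff_D1_infty hf)).add (contDiff_D2_infty (contDiff_D2_infty hf))

theorem continuous_Dv (hf : ContDiff ℝ 1 f) (v : ℝ × ℝ) : Continuous (Dv v f) :=
  (contDiff_Dv (n := 0) (by simpa using hf) v).continuous

theorem continuous_D1 (hf : ContDiff ℝ 1 f) : Continuous (D1 f) := continuous_Dv hf _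

theorem continuous_D2 (hf : ContDiff ℝ 1 f) : Continuous (D2 f) := continuous_Dv hf _

theorem continuous_Lap (hf : ContDiff ℝ 2 f) : Continuous (Lap f) :=
  (contDiff_Lap (n := 0) (by simpa using hf)).continuous

theorem contDiffAt_D1_one (hf : ContDiffAt ℝ 2 f x) : ContDiffAt ℝ 1 (D1 f) x :=
  contDiffAt_D1 (n := 1) (by norm_num; exact hf)

theorem contDiffAt_D2_one (hf : ContDiffAt ℝ 2 f x) : ContDiffAt ℝ 1 (D2 f) x :=
  contDiffAt_D2 (n := 1) (by norm_num; exact hf)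

theorem contDiff_D1_one (hf : ContDiff ℝ 2 f) : ContDiff ℝ 1 (D1 f) :=
  contDiff_D1 (n := 1) (by norm_num; exact hf)

theorem contDiff_D2_one (hf : ContDiff ℝ 2 f) : ContDiff ℝ 1 (D2 f) :=
  contDiff_D2 (n := 1) (by norm_num; exact hf)

theorem eventually_contDiffAt {n : ℕ} (hf : ContDiffAt ℝ n f x) :
    ∀ᶠ y in 𝓝 x, ContDiffAt ℝ n f y := hf.eventually (by simp)

theorem eventually_differentiableAt (hf : ContDiffAt ℝ 2 f x) :
    ∀ᶠ y in 𝓝 x, DifferentiableAt ℝ f y := by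
  filter_upwards [eventually_contDiffAt (n := 2) hf] with y hy
  exact hy.differentiableAt (by norm_num)

end Smooth

section Rules
variable {f g : ℝ × ℝ → ℝ} {x : ℝ × ℝ}

theorem Dv_add (hf : DifferentiableAt ℝ f x) (hg : DifferentiableAt ℝ g x) (v : ℝ × ℝ) :
    Dv v (fun y => f y + g y) x = Dv v f x + Dv v g x := by
  simp only [Dv]; rw [fderiv_fun_add hf hg]; simp

theorem Dv_sub (hf : DifferentiableAt ℝ f x) (hg : DifferentiableAt ℝ g x) (v : ℝ × ℝ) :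
    Dv v (fun y => f y - g y) x = Dv v f x - Dv v g x := by
  simp only [Dv]; rw [fderiv_fun_sub hf hg]; simp

theorem Dv_neg (f : ℝ × ℝ → ℝ) (v x : ℝ × ℝ) : Dv v (fun y => - f y) x = - Dv v f x := by
  simp only [Dv]; rw [fderiv_fun_neg]; simp

theorem Dv_const (c : ℝ) (v x : ℝ × ℝ) : Dv v (fun _ => c) x = 0 := by simp [Dv]

theorem Dv_const_mul (hf : DifferentiableAt ℝ f x) (c : ℝ) (v : ℝ × ℝ) :
    Dv v (fun y => c * f y) x = c * Dv v f x := by
  simp only [Dv]; rw [fderiv_const_mul hf]; simp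

theorem Dv_mul (hf : DifferentiableAt ℝ f x) (hg : DifferentiableAt ℝ g x) (v : ℝ × ℝ) :
    Dv v (fun y => f y * g y) x = Dv v f x * g x + f x * Dv v g x := by
  simp only [Dv]; rw [fderiv_fun_mul hf hg]; simp [mul_comm]; ring

theorem Dv_comp {φ : ℝ → ℝ} {φ' : ℝ} (hf : DifferentiableAt ℝ f x)
    (hφ : HasDerivAt φ φ' (f x)) (v : ℝ × ℝ) : Dv v (fun y => φ (f y)) x = φ' * Dv v f x := by
  simp only [Dv]
  have h' : fderiv ℝ (fun w => φ (f w)) x = φ' • fderiv ℝ f x :=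
    (hφ.comp_hasFDerivAt x hf.hasFDerivAt).fderiv
  rw [h']; simp

theorem D1_add (hf : DifferentiableAt ℝ f x) (hg : DifferentiableAt ℝ g x) :
    D1 (fun y => f y + g y) x = D1 f x + D1 g x := Dv_add hf hg _
theorem D2_add (hf : DifferentiableAt ℝ f x) (hg : DifferentiableAt ℝ g x) :
    D2 (fun y => f y + g y) x = D2 f x + D2 g x := Dv_add hf hg _
theorem D1_sub (hf : DifferentiableAt ℝ f x) (hg : DifferentiableAt ℝ g x) :
    D1 (fun y => f y - g y) x = D1 f x - D1 g x := Dv_sub hf hg _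
theorem D2_sub (hf : DifferentiableAt ℝ f x) (hg : DifferentiableAt ℝ g x) :
    D2 (fun y => f y - g y) x = D2 f x - D2 g x := Dv_sub hf hg _
theorem D1_neg (f : ℝ × ℝ → ℝ) (x : ℝ × ℝ) : D1 (fun y => - f y) x = - D1 f x := Dv_neg f _ x
theorem D2_neg (f : ℝ × ℝ → ℝ) (x : ℝ × ℝ) : D2 (fun y => - f y) x = - D2 f x := Dv_neg f _ x
theorem D1_const (c : ℝ) (x : ℝ × ℝ) : D1 (fun _ => c) x = 0 := Dv_const c _ x
theorem D2_const (c : ℝ) (x : ℝ × ℝ) : D2 (fun _ => c) x = 0 := Dv_const c _ x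
theorem D1_const_mul (hf : DifferentiableAt ℝ f x) (c : ℝ) :
    D1 (fun y => c * f y) x = c * D1 f x := Dv_const_mul hf c _
theorem D2_const_mul (hf : DifferentiableAt ℝ f x) (c : ℝ) :
    D2 (fun y => c * f y) x = c * D2 f x := Dv_const_mul hf c _
theorem D1_mul (hf : DifferentiableAt ℝ f x) (hg : DifferentiableAt ℝ g x) :
    D1 (fun y => f y * g y) x = D1 f x * g x + f x * D1 g x := Dv_mul hf hg _
theorem D2_mul (hf : DifferentiableAt ℝ f x) (hg : DifferentiableAt ℝ g x) :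
    D2 (fun y => f y * g y) x = D2 f x * g x + f x * D2 g x := Dv_mul hf hg _
theorem D1_comp {φ : ℝ → ℝ} {φ' : ℝ} (hf : DifferentiableAt ℝ f x)
    (hφ : HasDerivAt φ φ' (f x)) : D1 (fun y => φ (f y)) x = φ' * D1 f x := Dv_comp hf hφ _
theorem D2_comp {φ : ℝ → ℝ} {φ' : ℝ} (hf : DifferentiableAt ℝ f x)
    (hφ : HasDerivAt φ φ' (f x)) : D2 (fun y => φ (f y)) x = φ' * D2 f x := Dv_comp hf hφ _
theorem D1_exp (hf : DifferentiableAt ℝ f x) :
    D1 (fun y => Real.exp (f y)) x = Real.exp (f x) * D1 f x := D1_comp hf (Real.hasDerivAt_exp _)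
theorem D2_exp (hf : DifferentiableAt ℝ f x) :
    D2 (fun y => Real.exp (f y)) x = Real.exp (f x) * D2 f x := D2_comp hf (Real.hasDerivAt_exp _)
theorem D1_log (hf : DifferentiableAt ℝ f x) (h0 : f x ≠ 0) :
    D1 (fun y => Real.log (f y)) x = (f x)⁻¹ * D1 f x := D1_comp hf (Real.hasDerivAt_log h0)
theorem D2_log (hf : DifferentiableAt ℝ f x) (h0 : f x ≠ 0) :
    D2 (fun y => Real.log (f y)) x = (f x)⁻¹ * D2 f x := D2_comp hf (Real.hasDerivAt_log h0)

theorem D1_fst (x : ℝ × ℝ) : D1 (fun y => y.1) x = 1 := by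
  simp only [D1]; rw [fderiv_fst]; simp
theorem D2_fst (x : ℝ × ℝ) : D2 (fun y => y.1) x = 0 := by
  simp only [D2]; rw [fderiv_fst]; simp
theorem D1_snd (x : ℝ × ℝ) : D1 (fun y => y.2) x = 0 := by
  simp only [D1]; rw [fderiv_snd]; simp
theorem D2_snd (x : ℝ × ℝ) : D2 (fun y => y.2) x = 1 := by
  simp only [D2]; rw [fderiv_snd]; simp

/-- a function of the first coordinate only -/
theorem D1_comp_fst {φ : ℝ → ℝ} {φ' : ℝ} (hφ : HasDerivAt φ φ' x.1) :
    D1 (fun y => φ y.1) x = φ' := by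
  have := D1_comp (f := fun y : ℝ × ℝ => y.1) (x := x) differentiableAt_fst hφ
  rw [this, D1_fst, mul_one]
theorem D2_comp_fst {φ : ℝ → ℝ} {φ' : ℝ} (hφ : HasDerivAt φ φ' x.1) :
    D2 (fun y => φ y.1) x = 0 := by
  have := D2_comp (f := fun y : ℝ × ℝ => y.1) (x := x) differentiableAt_fst hφ
  rw [this, D2_fst, mul_zero]
theorem D1_comp_snd {φ : ℝ → ℝ} {φ' : ℝ} (hφ : HasDerivAt φ φ' x.2) :
    D1 (fun y => φ y.2) x = 0 := by
  have := D1_comp (f := fun y : ℝ × ℝ => y.2) (x := x) differentiableAt_snd hφ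
  rw [this, D1_snd, mul_zero]
theorem D2_comp_snd {φ : ℝ → ℝ} {φ' : ℝ} (hφ : HasDerivAt φ φ' x.2) :
    D2 (fun y => φ y.2) x = φ' := by
  have := D2_comp (f := fun y : ℝ × ℝ => y.2) (x := x) differentiableAt_snd hφ
  rw [this, D2_snd, mul_one]

end Rules

section LapRules
variable {f g : ℝ × ℝ → ℝ} {x : ℝ × ℝ}

theorem Lap_const (c : ℝ) (x : ℝ × ℝ) : Lap (fun _ => c) x = 0 := by
  have h1 : D1 (fun _ : ℝ × ℝ => c) = fun _ => 0 := funext fun y => D1_const c y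
  have h2 : D2 (fun _ : ℝ × ℝ => c) = fun _ => 0 := funext fun y => D2_const c y
  simp only [Lap, h1, h2, D1_const, D2_const, add_zero]

theorem Lap_neg (f : ℝ × ℝ → ℝ) (x : ℝ × ℝ) : Lap (fun y => - f y) x = - Lap f x := by
  have h1 : D1 (fun y => - f y) = fun y => - D1 f y := funext fun y => D1_neg f y
  have h2 : D2 (fun y => - f y) = fun y => - D2 f y := funext fun y => D2_neg f y
  simp only [Lap, h1, h2, D1_neg, D2_neg]; ring

theorem differentiableAt_D1 (hf : ContDiffAt ℝ 2 f x) : DifferentiableAt ℝ (D1 f) x :=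
  (contDiffAt_D1_one hf).differentiableAt one_ne_zero

theorem differentiableAt_D2 (hf : ContDiffAt ℝ 2 f x) : DifferentiableAt ℝ (D2 f) x :=
  (contDiffAt_D2_one hf).differentiableAt one_ne_zero

theorem Lap_add (hf : ContDiffAt ℝ 2 f x) (hg : ContDiffAt ℝ 2 g x) :
    Lap (fun y => f y + g y) x = Lap f x + Lap g x := by
  have h1 : D1 (fun y => f y + g y) =ᶠ[𝓝 x] fun y => D1 f y + D1 g y := by
    filter_upwards [eventually_differentiableAt hf, eventually_differentiableAt hg] with y a b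
      using D1_add a b
  have h2 : D2 (fun y => f y + g y) =ᶠ[𝓝 x] fun y => D2 f y + D2 g y := by
    filter_upwards [eventually_differentiableAt hf, eventually_differentiableAt hg] with y a b
      using D2_add a b
  simp only [Lap]
  rw [D1_congr h1, D2_congr h2, D1_add (differentiableAt_D1 hf) (differentiableAt_D1 hg),
    D2_add (differentiableAt_D2 hf) (differentiableAt_D2 hg)]
  ring

theorem Lap_sub (hf : ContDiffAt ℝ 2 f x) (hg : ContDiffAt ℝ 2 g x) :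
    Lap (fun y => f y - g y) x = Lap f x - Lap g x := by
  have h := Lap_add hf hg.neg
  simp only [← sub_eq_add_neg] at h
  rw [h, Lap_neg]; ring

theorem Lap_const_mul (hf : ContDiffAt ℝ 2 f x) (c : ℝ) :
    Lap (fun y => c * f y) x = c * Lap f x := by
  have h1 : D1 (fun y => c * f y) =ᶠ[𝓝 x] fun y => c * D1 f y := by
    filter_upwards [eventually_differentiableAt hf] with y a using D1_const_mul a c
  have h2 : D2 (fun y => c * f y) =ᶠ[𝓝 x] fun y => c * D2 f y := by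
    filter_upwards [eventually_differentiableAt hf] with y a using D2_const_mul a c
  simp only [Lap]
  rw [D1_congr h1, D2_congr h2, D1_const_mul (differentiableAt_D1 hf),
    D2_const_mul (differentiableAt_D2 hf)]
  ring

theorem Lap_mul (hf : ContDiffAt ℝ 2 f x) (hg : ContDiffAt ℝ 2 g x) :
    Lap (fun y => f y * g y) x
      = f x * Lap g x + 2 * (D1 f x * D1 g x + D2 f x * D2 g x) + g x * Lap f x := by
  have h1 : D1 (fun y => f y * g y) =ᶠ[𝓝 x] fun y => D1 f y * g y + f y * D1 g y := by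
    filter_upwards [eventually_differentiableAt hf, eventually_differentiableAt hg] with y a b
      using D1_mul a b
  have h2 : D2 (fun y => f y * g y) =ᶠ[𝓝 x] fun y => D2 f y * g y + f y * D2 g y := by
    filter_upwards [eventually_differentiableAt hf, eventually_differentiableAt hg] with y a b
      using D2_mul a b
  have df := (eventually_differentiableAt hf).self_of_nhds
  have dg := (eventually_differentiableAt hg).self_of_nhds
  have a1 := differentiableAt_D1 hf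
  have a2 := differentiableAt_D2 hf
  have b1 := differentiableAt_D1 hg
  have b2 := differentiableAt_D2 hg
  have m1 : DifferentiableAt ℝ (fun y => D1 f y * g y) x := a1.mul dg
  have m2 : DifferentiableAt ℝ (fun y => f y * D1 g y) x := df.mul b1
  have m3 : DifferentiableAt ℝ (fun y => D2 f y * g y) x := a2.mul dg
  have m4 : DifferentiableAt ℝ (fun y => f y * D2 g y) x := df.mul b2
  simp only [Lap]
  rw [D1_congr h1, D2_congr h2, D1_add m1 m2, D2_add m3 m4,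
    D1_mul a1 dg, D1_mul df b1, D2_mul a2 dg, D2_mul df b2]
  ring

/-- chain rule for the Laplacian -/
theorem Lap_comp {φ φ' : ℝ → ℝ} {φ'' : ℝ} (hf : ContDiffAt ℝ 2 f x)
    (h1 : ∀ᶠ t in 𝓝 (f x), HasDerivAt φ (φ' t) t) (h2 : HasDerivAt φ' φ'' (f x)) :
    Lap (fun y => φ (f y)) x = φ'' * (D1 f x ^ 2 + D2 f x ^ 2) + φ' (f x) * Lap f x := by
  have hev : ∀ᶠ y in 𝓝 x, HasDerivAt φ (φ' (f y)) (f y) :=
    hf.continuousAt.eventually h1
  have e1 : D1 (fun y => φ (f y)) =ᶠ[𝓝 x] fun y => φ' (f y) * D1 f y := by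
    filter_upwards [hev, eventually_differentiableAt hf] with y a b using D1_comp b a
  have e2 : D2 (fun y => φ (f y)) =ᶠ[𝓝 x] fun y => φ' (f y) * D2 f y := by
    filter_upwards [hev, eventually_differentiableAt hf] with y a b using D2_comp b a
  have df := (eventually_differentiableAt hf).self_of_nhds
  have dφ : DifferentiableAt ℝ (fun y => φ' (f y)) x := h2.differentiableAt.comp x df
  simp only [Lap]
  rw [D1_congr e1, D2_congr e2, D1_mul dφ (differentiableAt_D1 hf),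
    D2_mul dφ (differentiableAt_D2 hf), D1_comp df h2, D2_comp df h2]
  ring

theorem Lap_exp (hf : ContDiffAt ℝ 2 f x) :
    Lap (fun y => Real.exp (f y)) x
      = Real.exp (f x) * (Lap f x + (D1 f x ^ 2 + D2 f x ^ 2)) := by
  rw [Lap_comp hf (Eventually.of_forall fun t => Real.hasDerivAt_exp t) (Real.hasDerivAt_exp _)]
  ring

theorem Lap_log (hf : ContDiffAt ℝ 2 f x) (h0 : f x ≠ 0) :
    Lap (fun y => Real.log (f y)) x
      = Lap f x / f x - (D1 f x ^ 2 + D2 f x ^ 2) / f x ^ 2 := by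
  have h1 : ∀ᶠ t in 𝓝 (f x), HasDerivAt Real.log (t⁻¹) t := by
    filter_upwards [isOpen_ne.mem_nhds h0] with t ht using Real.hasDerivAt_log ht
  rw [Lap_comp hf h1 (hasDerivAt_inv h0)]
  field_simp
  ring

/-- mixed partial derivatives commute -/
theorem D1_D2_comm (hf : ContDiffAt ℝ 2 f x) : D1 (D2 f) x = D2 (D1 f) x := by
  have hs : IsSymmSndFDerivAt ℝ f x := hf.isSymmSndFDerivAt (by simp)
  have hd : DifferentiableAt ℝ (fderiv ℝ f) x :=
    (hf.fderiv_right (m := 1) (by norm_num)).differentiableAt one_ne_zero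
  have e : ∀ v w : ℝ × ℝ, fderiv ℝ (fun y => fderiv ℝ f y v) x w
      = fderiv ℝ (fderiv ℝ f) x w v := by
    intro v w
    rw [fderiv_clm_apply hd (differentiableAt_const v)]
    simp
  simp only [D1, D2]
  show fderiv ℝ (fun y => fderiv ℝ f y (0, 1)) x (1, 0)
    = fderiv ℝ (fun y => fderiv ℝ f y (1, 0)) x (0, 1)
  rw [e, e]
  exact hs (1, 0) (0, 1)

theorem D1_D2_comm' (hf : ContDiff ℝ 2 f) : D1 (D2 f) = D2 (D1 f) :=
  funext fun _ => D1_D2_comm hf.contDiffAt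

theorem Lap_D1 (hf : ContDiffAt ℝ 3 f x) : Lap (D1 f) x = D1 (Lap f) x := by
  have h3 : ContDiffAt ℝ ((2:ℕ) + 1) f x := by norm_num; exact hf
  have hev : ∀ᶠ y in 𝓝 x, ContDiffAt ℝ 2 f y := by
    filter_upwards [eventually_contDiffAt (n := 3) hf] with y hy using hy.of_le (by norm_num)
  have c1 : ContDiffAt ℝ 2 (D1 f) x := contDiffAt_D1 h3
  have c2 : ContDiffAt ℝ 2 (D2 f) x := contDiffAt_D2 h3
  have e1 : D2 (D1 f) =ᶠ[𝓝 x] D1 (D2 f) := by
    filter_upwards [hev] with y hy using (D1_D2_comm hy).symm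
  have e2 : Lap f = fun y => D1 (D1 f) y + D2 (D2 f) y := rfl
  rw [e2, D1_add (differentiableAt_D1 c1) (differentiableAt_D2 c2)]
  simp only [Lap]
  rw [D2_congr e1, D1_D2_comm c2]

theorem Lap_D2 (hf : ContDiffAt ℝ 3 f x) : Lap (D2 f) x = D2 (Lap f) x := by
  have h3 : ContDiffAt ℝ ((2:ℕ) + 1) f x := by norm_num; exact hf
  have hev : ∀ᶠ y in 𝓝 x, ContDiffAt ℝ 2 f y := by
    filter_upwards [eventually_contDiffAt (n := 3) hf] with y hy using hy.of_le (by norm_num)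
  have c1 : ContDiffAt ℝ 2 (D1 f) x := contDiffAt_D1 h3
  have c2 : ContDiffAt ℝ 2 (D2 f) x := contDiffAt_D2 h3
  have e1 : D1 (D2 f) =ᶠ[𝓝 x] D2 (D1 f) := by
    filter_upwards [hev] with y hy using D1_D2_comm hy
  have e2 : Lap f = fun y => D1 (D1 f) y + D2 (D2 f) y := rfl
  rw [e2, D2_add (differentiableAt_D1 c1) (differentiableAt_D2 c2)]
  simp only [Lap]
  rw [D1_congr e1, ← D1_D2_comm c1]

end LapRules

end Pool.Agent.AO
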