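import Pool.Agent.Lib.MP_10e52e_an.Defs3
import Pool.Agent.Lib.MP_10e52e_an.Tint

/-! MP_10e52e_an row Tlsint: log singularities: integrability and gradient bound -/

namespace Pool.Agent.AO

open MeasureTheory Set Real
open scoped ContDiff

/-! ### Elementary facts -/

private theorem Tlsint_open (a : ℝ) : IsOpen (Box a) := by
  have h : Box a = {x : ℝ × ℝ | |x.1| < a} ∩ {x : ℝ × ℝ | |x.2| < a} := rfl
  rw [h]
  exact (isOpen_lt (by fun_prop) continuous_const).inter (isOpen_lt (by fun_prop) continuous_const)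

/-- the closed cell -/
private def TlsintK : Set (ℝ × ℝ) := Icc (-1 / 2 : ℝ) (1 / 2) ×ˢ Icc (-1 / 2 : ℝ) (1 / 2)

private theorem Tlsint_compact : IsCompact TlsintK := isCompact_Icc.prod isCompact_Icc

private theorem Tlsint_sub : TlsintK ⊆ Box 1 := by
  rintro x ⟨⟨h1, h2⟩, ⟨h3, h4⟩⟩
  exact ⟨abs_lt.2 ⟨by linarith, by linarith⟩, abs_lt.2 ⟨by linarith, by linarith⟩⟩

private theorem Tlsint_Q : Q ⊆ TlsintK := by
  rintro x ⟨⟨h1, h2⟩, ⟨h3, h4⟩⟩
  exact ⟨⟨h1.le, h2⟩, ⟨h3.le, h4⟩⟩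

private theorem Tlsint_nsq_nonneg (x : ℝ × ℝ) : 0 ≤ nsq x := by
  unfold nsq; positivity

private theorem Tlsint_nsq_pos {x : ℝ × ℝ} (hx : x ≠ 0) : 0 < nsq x := by
  unfold nsq
  by_cases h1 : x.1 = 0
  · have h2 : x.2 ≠ 0 := fun h2 => hx (Prod.ext h1 h2)
    have := sq_nonneg x.1
    positivity
  · have := sq_nonneg x.2
    positivity

private theorem Tlsint_nsq_le {x : ℝ × ℝ} (hx : x ∈ TlsintK) : nsq x ≤ 1 := by
  obtain ⟨⟨h1, h2⟩, ⟨h3, h4⟩⟩ := hx
  unfold nsq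
  nlinarith

private theorem Tlsint_nrm_pos {x : ℝ × ℝ} (hx : x ≠ 0) : 0 < nrm x :=
  Real.sqrt_pos.2 (Tlsint_nsq_pos hx)

private theorem Tlsint_nrm_le {x : ℝ × ℝ} (hx : x ∈ TlsintK) : nrm x ≤ 1 := by
  unfold nrm
  exact Real.sqrt_le_one.2 (Tlsint_nsq_le hx)

private theorem Tlsint_fst_le (x : ℝ × ℝ) : |x.1| ≤ nrm x := by
  unfold nrm nsq
  exact Real.abs_le_sqrt (by nlinarith [sq_nonneg x.2])

private theorem Tlsint_snd_le (x : ℝ × ℝ) : |x.2| ≤ nrm x := by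
  unfold nrm nsq
  exact Real.abs_le_sqrt (by nlinarith [sq_nonneg x.1])

/-! ### The derivatives near `0` -/

private theorem Tlsint_deriv {F S : ℝ × ℝ → ℝ} {a : ℝ} (h : LogSing F S a) {x : ℝ × ℝ}
    (hx : x ∈ Box 1) (h0 : x ≠ 0) :
    D1 F x = a * (2 * x.1 / nsq x) + D1 S x ∧ D2 F x = a * (2 * x.2 / nsq x) + D2 S x := by
  have hn := Tlsint_nsq_pos h0
  have hSd : DifferentiableAt ℝ S x :=
    (h.sm.contDiffAt ((Tlsint_open 1).mem_nhds hx)).differentiableAt (by simp)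
  have e : F =ᶠ[nhds x] fun y => a * Real.log (nsq y) + S y := by
    have h1 : Box 1 ∩ {0}ᶜ ∈ nhds x :=
      ((Tlsint_open 1).inter isOpen_compl_singleton).mem_nhds ⟨hx, h0⟩
    filter_upwards [h1] with y hy
    exact h.eq y hy.1 hy.2
  have hd1 : HasFDerivAt (fun y : ℝ × ℝ => nsq y)
      ((2 * x.1) • ContinuousLinearMap.fst ℝ ℝ ℝ + (2 * x.2) • ContinuousLinearMap.snd ℝ ℝ ℝ) x := by
    have h1 : HasFDerivAt (fun y : ℝ × ℝ => y.1) (ContinuousLinearMap.fst ℝ ℝ ℝ) x := hasFDerivAt_fst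
    have h2 : HasFDerivAt (fun y : ℝ × ℝ => y.2) (ContinuousLinearMap.snd ℝ ℝ ℝ) x := hasFDerivAt_snd
    have h3 : HasFDerivAt (fun y : ℝ × ℝ => y.1 ^ 2 + y.2 ^ 2) _ x := (h1.pow 2).add (h2.pow 2)
    refine h3.congr_fderiv ?_
    ext <;> simp
  have hd2 := ((hd1.log hn.ne').const_mul a).add hSd.hasFDerivAt
  have hd3 := hd2.congr_of_eventuallyEq e
  constructor
  · rw [D1, hd3.fderiv]
    simp only [D1, _root_.add_apply, _root_.smul_apply,
      ContinuousLinearMap.coe_fst', ContinuousLinearMap.coe_snd', smul_eq_mul]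
    field_simp
    ring
  · rw [D2, hd3.fderiv]
    simp only [D2, _root_.add_apply, _root_.smul_apply,
      ContinuousLinearMap.coe_fst', ContinuousLinearMap.coe_snd', smul_eq_mul]
    field_simp
    ring

private theorem Tlsint_bd {S : ℝ × ℝ → ℝ} (hS : ContDiffOn ℝ ∞ S (Box 1)) :
    ∃ C : ℝ, 0 ≤ C ∧ ∀ x ∈ TlsintK, |S x| ≤ C ∧ |D1 S x| ≤ C ∧ |D2 S x| ≤ C := by
  have hf := hS.continuousOn_fderiv_of_isOpen (Tlsint_open 1) (by simp)
  have h1 : ContinuousOn (D1 S) TlsintK :=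
    (hf.clm_apply continuousOn_const).mono Tlsint_sub
  have h2 : ContinuousOn (D2 S) TlsintK :=
    (hf.clm_apply continuousOn_const).mono Tlsint_sub
  obtain ⟨c0, hc0⟩ := Tlsint_compact.exists_bound_of_continuousOn (hS.continuousOn.mono Tlsint_sub)
  obtain ⟨c1, hc1⟩ := Tlsint_compact.exists_bound_of_continuousOn h1
  obtain ⟨c2, hc2⟩ := Tlsint_compact.exists_bound_of_continuousOn h2
  have hz : (0 : ℝ × ℝ) ∈ TlsintK := by
    constructor <;> constructor <;> norm_num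
  refine ⟨max c0 (max c1 c2), (norm_nonneg _).trans ((hc0 0 hz).trans (le_max_left _ _)), ?_⟩
  intro x hx
  exact ⟨(hc0 x hx).trans (le_max_left _ _),
    (hc1 x hx).trans ((le_max_left _ _).trans (le_max_right _ _)),
    (hc2 x hx).trans ((le_max_right _ _).trans (le_max_right _ _))⟩

private theorem Tlsint_div_le {t c : ℝ} {x : ℝ × ℝ} (hx : x ≠ 0) (ht : |t| ≤ nrm x) :
    |c * (2 * t / nsq x)| ≤ 2 * |c| / nrm x := by
  have h1 := Tlsint_nrm_pos hx
  have h2 : nrm x ^ 2 = nsq x := Real.sq_sqrt (Tlsint_nsq_nonneg x)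
  rw [← h2, abs_mul, abs_div, abs_mul, abs_two, abs_of_pos (by positivity : 0 < nrm x ^ 2)]
  rw [← mul_div_assoc, div_le_div_iff₀ (by positivity) h1]
  nlinarith [abs_nonneg c, mul_le_mul_of_nonneg_left ht (mul_nonneg (abs_nonneg c) h1.le)]

/-- the gradient bound in the closed cell -/
private theorem Tlsint_grad {F S : ℝ × ℝ → ℝ} {a : ℝ} (h : LogSing F S a) :
    ∃ C : ℝ, 0 < C ∧ ∀ x ∈ TlsintK, x ≠ 0 →
      |S x| ≤ C ∧ |D1 F x| ≤ C / nrm x ∧ |D2 F x| ≤ C / nrm x := by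
  obtain ⟨c, hc, hb⟩ := Tlsint_bd h.sm
  refine ⟨2 * |a| + c + 1, by positivity, ?_⟩
  intro x hx h0
  obtain ⟨hS0, hS1, hS2⟩ := hb x hx
  obtain ⟨e1, e2⟩ := Tlsint_deriv h (Tlsint_sub hx) h0
  have hn := Tlsint_nrm_pos h0
  have hn1 := Tlsint_nrm_le hx
  have hc2 : c ≤ (c + 1) / nrm x := by
    rw [le_div_iff₀ hn]
    nlinarith
  have e : (2 * |a| + c + 1) / nrm x = 2 * |a| / nrm x + (c + 1) / nrm x := by
    rw [← add_div]
    ring
  refine ⟨hS0.trans (by linarith [abs_nonneg a]), ?_, ?_⟩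
  · rw [e1, e]
    have h1 := abs_add_le (a * (2 * x.1 / nsq x)) (D1 S x)
    have h2 := Tlsint_div_le (c := a) h0 (Tlsint_fst_le x)
    linarith
  · rw [e2, e]
    have h1 := abs_add_le (a * (2 * x.2 / nsq x)) (D2 S x)
    have h2 := Tlsint_div_le (c := a) h0 (Tlsint_snd_le x)
    linarith

/-! ### Integrability of `1 / nrm` -/

private theorem Tlsint_int1 :
    IntegrableOn (fun t : ℝ => |t| ^ (-(1 / 2) : ℝ)) (Ioc (-1 / 2 : ℝ) (1 / 2)) := by
  have h1 : IntervalIntegrable (fun t : ℝ => |t| ^ (-(1 / 2) : ℝ)) volume 0 (1 / 2) := by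
    have h2 : IntervalIntegrable (fun t : ℝ => t ^ (-(1 / 2) : ℝ)) volume 0 (1 / 2) :=
      intervalIntegral.intervalIntegrable_rpow' (by norm_num)
    refine h2.congr ?_
    intro t ht
    rw [uIoc_of_le (by norm_num)] at ht
    show t ^ (-(1 / 2) : ℝ) = |t| ^ (-(1 / 2) : ℝ)
    rw [abs_of_pos ht.1]
  have h3 : IntervalIntegrable (fun t : ℝ => |t| ^ (-(1 / 2) : ℝ)) volume (-0) (-(1 / 2)) := by
    have h4 := (IntervalIntegrable.iff_comp_neg).1 h1
    simpa only [abs_neg] using h4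
  rw [neg_zero] at h3
  have h5 := (h3.symm.trans h1)
  rw [show (-1 / 2 : ℝ) = -(1 / 2) by norm_num]
  exact (intervalIntegrable_iff_integrableOn_Ioc_of_le (by norm_num)).1 h5

private theorem Tlsint_int2 : IntegrableOn (fun x : ℝ × ℝ => 1 / nrm x) Q := by
  have h1 : Integrable (fun x : ℝ × ℝ => |x.1| ^ (-(1 / 2) : ℝ) * |x.2| ^ (-(1 / 2) : ℝ))
      ((volume.restrict (Ioc (-1 / 2 : ℝ) (1 / 2))).prod
        (volume.restrict (Ioc (-1 / 2 : ℝ) (1 / 2)))) :=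
    Integrable.mul_prod (f := fun t : ℝ => |t| ^ (-(1 / 2) : ℝ))
      (g := fun t : ℝ => |t| ^ (-(1 / 2) : ℝ)) Tlsint_int1 Tlsint_int1
  rw [Measure.prod_restrict, ← Measure.volume_eq_prod] at h1
  refine Integrable.mono' h1 ?_ ?_
  · refine Measurable.aestronglyMeasurable ?_
    unfold nrm nsq
    fun_prop
  · have hz1 : ∀ᵐ x : ℝ × ℝ ∂(volume.restrict Q), x.1 ≠ 0 := by
      refine ae_restrict_of_ae ?_
      rw [Measure.volume_eq_prod]
      exact Measure.quasiMeasurePreserving_fst.ae (Measure.ae_ne volume (0 : ℝ))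
    have hz2 : ∀ᵐ x : ℝ × ℝ ∂(volume.restrict Q), x.2 ≠ 0 := by
      refine ae_restrict_of_ae ?_
      rw [Measure.volume_eq_prod]
      exact Measure.quasiMeasurePreserving_snd.ae (Measure.ae_ne volume (0 : ℝ))
    filter_upwards [hz1, hz2] with x h1 h2
    have hx : x ≠ 0 := fun h => h1 (by rw [h]; rfl)
    have hn := Tlsint_nrm_pos hx
    have a1 := abs_pos.2 h1
    have a2 := abs_pos.2 h2
    rw [Real.norm_of_nonneg (by positivity), ← Real.mul_rpow a1.le a2.le,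
      Real.rpow_neg (by positivity), ← Real.sqrt_eq_rpow, one_div]
    refine inv_anti₀ (Real.sqrt_pos.2 (by positivity)) ?_
    unfold nrm
    refine Real.sqrt_le_sqrt ?_
    unfold nsq
    nlinarith [sq_abs x.1, sq_abs x.2, sq_nonneg (|x.1| - |x.2|), sq_nonneg x.1, sq_nonneg x.2]

private theorem Tlsint_ne : ∀ᵐ x : ℝ × ℝ ∂(volume.restrict Q), x ≠ 0 :=
  ae_restrict_of_ae (Measure.ae_ne volume (0 : ℝ × ℝ))

private theorem Tlsint_mQ : MeasurableSet Q := measurableSet_Ioc.prod measurableSet_Ioc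

/-- `log² ≤ C / nrm` -/
private theorem Tlsint_log {x : ℝ × ℝ} (hx : x ∈ TlsintK) (h0 : x ≠ 0) :
    |Real.log (nsq x)| ^ 2 ≤ 16 / nrm x := by
  have hn := Tlsint_nsq_pos h0
  have h1 := Real.abs_log_mul_self_rpow_lt (nsq x) (1 / 4) hn (Tlsint_nsq_le hx) (by norm_num)
  rw [abs_mul, abs_of_pos (Real.rpow_pos_of_pos hn _)] at h1
  have h2 : (nsq x ^ (1 / 4 : ℝ)) ^ 2 = nrm x := by
    rw [← Real.rpow_natCast, ← Real.rpow_mul hn.le, nrm, Real.sqrt_eq_rpow]
    norm_num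
  have hnr := Tlsint_nrm_pos h0
  rw [le_div_iff₀ hnr, ← h2, ← mul_pow]
  have h3 : (0 : ℝ) ≤ |Real.log (nsq x)| * nsq x ^ (1 / 4 : ℝ) :=
    mul_nonneg (abs_nonneg _) (Real.rpow_nonneg hn.le _)
  have h4 : |Real.log (nsq x)| * nsq x ^ (1 / 4 : ℝ) ≤ 4 := by
    rw [show (1 : ℝ) / (1 / 4) = 4 by norm_num] at h1
    exact h1.le
  nlinarith

theorem LogSing.integrable {F S : ℝ × ℝ → ℝ} {a : ℝ} (h : LogSing F S a) :
    IntegrableOn F Q ∧ IntegrableOn (fun x => F x ^ 2) Q ∧ IntegrableOn (D1 F) Q ∧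
      IntegrableOn (D2 F) Q := by
  obtain ⟨C, hC, hb⟩ := Tlsint_grad h
  have hmem : ∀ᵐ x : ℝ × ℝ ∂(volume.restrict Q), x ∈ Q := ae_restrict_mem Tlsint_mQ
  -- measurability of `F`
  have hm : AEStronglyMeasurable F (volume.restrict Q) := by
    have h1 : AEStronglyMeasurable (fun x : ℝ × ℝ => a * Real.log (nsq x) + S x)
        (volume.restrict Q) := by
      refine AEStronglyMeasurable.add (Measurable.aestronglyMeasurable ?_) ?_
      · unfold nsq
        fun_prop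
      · exact (h.sm.continuousOn.mono (Tlsint_Q.trans Tlsint_sub)).aestronglyMeasurable Tlsint_mQ
    refine h1.congr ?_
    filter_upwards [hmem, Tlsint_ne] with x hx h0
    exact (h.eq x (Tlsint_sub (Tlsint_Q hx)) h0).symm
  -- the bound of `F ^ 2`
  have hF2 : ∀ x ∈ Q, x ≠ 0 → F x ^ 2 ≤ (32 * a ^ 2 + 2 * C ^ 2) * (1 / nrm x) := by
    intro x hx h0
    have hxK := Tlsint_Q hx
    have hn := Tlsint_nrm_pos h0
    have hn1 := Tlsint_nrm_le hxK
    rw [h.eq x (Tlsint_sub hxK) h0]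
    have h1 := Tlsint_log hxK h0
    rw [sq_abs] at h1
    have h2 := (hb x hxK h0).1
    have h3 : S x ^ 2 ≤ C ^ 2 := by
      rw [← sq_abs (S x)]
      exact pow_le_pow_left₀ (abs_nonneg _) h2 2
    have h4 : C ^ 2 ≤ C ^ 2 * (1 / nrm x) := by
      refine le_mul_of_one_le_right (sq_nonneg C) ?_
      rw [le_div_iff₀ hn]
      linarith
    have h5 : (a * Real.log (nsq x) + S x) ^ 2 ≤ 2 * (a ^ 2 * Real.log (nsq x) ^ 2) +
        2 * S x ^ 2 := by
      nlinarith [sq_nonneg (a * Real.log (nsq x) - S x)]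
    have h6 : a ^ 2 * Real.log (nsq x) ^ 2 ≤ a ^ 2 * (16 / nrm x) :=
      mul_le_mul_of_nonneg_left h1 (sq_nonneg a)
    have h7 : (32 * a ^ 2 + 2 * C ^ 2) * (1 / nrm x) =
        2 * (a ^ 2 * (16 / nrm x)) + 2 * (C ^ 2 * (1 / nrm x)) := by
      ring
    rw [h7]
    linarith
  have hI2 : IntegrableOn (fun x => F x ^ 2) Q := by
    refine Integrable.mono' (Tlsint_int2.const_mul (32 * a ^ 2 + 2 * C ^ 2)) (hm.pow 2) ?_
    filter_upwards [hmem, Tlsint_ne] with x hx h0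
    rw [Real.norm_of_nonneg (sq_nonneg _)]
    exact hF2 x hx h0
  have hI1 : IntegrableOn F Q := by
    refine Integrable.mono' ((Tlsint_int2.const_mul (32 * a ^ 2 + 2 * C ^ 2)).add
      Tlsint_int2) hm ?_
    filter_upwards [hmem, Tlsint_ne] with x hx h0
    have h1 := hF2 x hx h0
    have hn := Tlsint_nrm_pos h0
    have h2 : 1 ≤ 1 / nrm x := by
      rw [le_div_iff₀ hn]
      linarith [Tlsint_nrm_le (Tlsint_Q hx)]
    rw [Real.norm_eq_abs]
    show |F x| ≤ (32 * a ^ 2 + 2 * C ^ 2) * (1 / nrm x) + 1 / nrm x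
    nlinarith [sq_abs (F x), sq_nonneg (|F x| - 1), abs_nonneg (F x)]
  refine ⟨hI1, hI2, ?_, ?_⟩
  · refine Integrable.mono' (Tlsint_int2.const_mul C)
      (measurable_fderiv_apply_const ℝ F _).aestronglyMeasurable ?_
    filter_upwards [hmem, Tlsint_ne] with x hx h0
    rw [Real.norm_eq_abs, mul_one_div]
    exact (hb x (Tlsint_Q hx) h0).2.1
  · refine Integrable.mono' (Tlsint_int2.const_mul C)
      (measurable_fderiv_apply_const ℝ F _).aestronglyMeasurable ?_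
    filter_upwards [hmem, Tlsint_ne] with x hx h0
    rw [Real.norm_eq_abs, mul_one_div]
    exact (hb x (Tlsint_Q hx) h0).2.2

private theorem Tlsint_per {F : ℝ × ℝ → ℝ} (h : Per F) (m n : ℤ) (x : ℝ × ℝ) :
    F (x + ((m : ℝ), (n : ℝ))) = F x := by
  have h1 : ∀ (k : ℕ) (y : ℝ × ℝ), F (y.1 + k, y.2) = F y := by
    intro k
    induction k with
    | zero => intro y; simp
    | succ k ih =>
      intro y
      have := (h (y.1 + k, y.2)).1
      simp only at this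
      push_cast
      rw [← add_assoc, this]
      exact ih y
  have h2 : ∀ (k : ℕ) (y : ℝ × ℝ), F (y.1, y.2 + k) = F y := by
    intro k
    induction k with
    | zero => intro y; simp
    | succ k ih =>
      intro y
      have := (h (y.1, y.2 + k)).2
      simp only at this
      push_cast
      rw [← add_assoc, this]
      exact ih y
  have h3 : ∀ (k : ℤ) (y : ℝ × ℝ), F (y.1 + k, y.2) = F y := by
    intro k y
    obtain ⟨l, rfl | rfl⟩ := k.eq_nat_or_neg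
    · exact_mod_cast h1 l y
    · have := h1 l (y.1 - l, y.2)
      simp only [sub_add_cancel] at this
      push_cast
      rw [← sub_eq_add_neg, ← this]
  have h4 : ∀ (k : ℤ) (y : ℝ × ℝ), F (y.1, y.2 + k) = F y := by
    intro k y
    obtain ⟨l, rfl | rfl⟩ := k.eq_nat_or_neg
    · exact_mod_cast h2 l y
    · have := h2 l (y.1, y.2 - l)
      simp only [sub_add_cancel] at this
      push_cast
      rw [← sub_eq_add_neg, ← this]
  have h5 := h4 n (x.1 + m, x.2)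
  simp only at h5
  exact h5.trans (h3 m x)

private theorem Tlsint_fderiv_per {F : ℝ × ℝ → ℝ} (h : Per F) (m n : ℤ) (x : ℝ × ℝ) :
    fderiv ℝ F (x + ((m : ℝ), (n : ℝ))) = fderiv ℝ F x := by
  have h1 : (fun y => F (y + ((m : ℝ), (n : ℝ)))) = F := funext (Tlsint_per h m n)
  rw [← fderiv_comp_add_right, h1]

theorem LogSing.grad_le {F S : ℝ × ℝ → ℝ} {a : ℝ} (h : LogSing F S a) :
    ∃ C : ℝ, 0 < C ∧ ∀ x, x ∉ Lat → |D1 F x| ≤ C / tn x ∧ |D2 F x| ≤ C / tn x := by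
  obtain ⟨C, hC, hb⟩ := Tlsint_grad h
  refine ⟨C, hC, fun x hx => ?_⟩
  have hy : (x.1 - round x.1, x.2 - round x.2) ∈ TlsintK := by
    have h1 := abs_le.1 (abs_sub_round x.1)
    have h2 := abs_le.1 (abs_sub_round x.2)
    exact ⟨⟨by linarith [h1.1], h1.2⟩, ⟨by linarith [h2.1], h2.2⟩⟩
  have h0 : (x.1 - (round x.1 : ℝ), x.2 - (round x.2 : ℝ)) ≠ (0 : ℝ × ℝ) := by
    intro h0
    rw [Prod.mk_eq_zero] at h0
    exact hx ⟨round x.1, round x.2, Prod.ext (by linarith [h0.1]) (by linarith [h0.2])⟩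
  have hf : fderiv ℝ F (x.1 - round x.1, x.2 - round x.2) = fderiv ℝ F x := by
    have := Tlsint_fderiv_per h.per (-round x.1) (-round x.2) x
    rw [← this]
    congr 1
    ext <;> simp [sub_eq_add_neg]
  have h1 := (hb _ hy h0).2
  simp only [D1, D2, hf] at h1
  exact h1

end Pool.Agent.AO
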