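import Pool.Agent.Lib.MP_10e52e_an.Defs3

/-! MP_10e52e_an row Tperz: T6 periodisation -/

namespace Pool.Agent.AO

open MeasureTheory Set Real
open scoped ContDiff

lemma Tperz_round {a s t : ℝ} (ha : a < 1 / 2) (h : |t - s| < 1 / 2 - a) (hne : round t ≠ round s) :
    a < |t - round t| ∧ a < |t - round s| := by
  have h1 : |s - round s| ≤ 1 / 2 := abs_sub_round s
  have h2 : |t - round t| ≤ 1 / 2 := abs_sub_round t
  have hk : (1 : ℝ) ≤ |((round t : ℤ) : ℝ) - ((round s : ℤ) : ℝ)| := by
    have : (1 : ℤ) ≤ |round t - round s| := Int.one_le_abs (sub_ne_zero.2 hne)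
    exact_mod_cast this
  have h3 : |((round t : ℤ) : ℝ) - ((round s : ℤ) : ℝ)| ≤ |t - round t| + |t - round s| := by
    have e : ((round t : ℤ) : ℝ) - ((round s : ℤ) : ℝ) = -(t - round t) + (t - round s) := by ring
    rw [e]
    refine (abs_add_le _ _).trans ?_
    rw [abs_neg]
  have h4 : |t - round s| ≤ |t - s| + |s - round s| := by
    have e : t - round s = (t - s) + (s - round s) := by ring
    rw [e]
    exact abs_add_le _ _
  constructor <;> linarith

lemma Tperz_key {f : ℝ × ℝ → ℝ} {a : ℝ} (ha : a < 1 / 2)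
    (hs : ∀ x : ℝ × ℝ, f x ≠ 0 → |x.1| ≤ a ∧ |x.2| ≤ a) (x y : ℝ × ℝ)
    (h1 : |y.1 - x.1| < 1 / 2 - a) (h2 : |y.2 - x.2| < 1 / 2 - a) :
    perz f y = f (y.1 - round x.1, y.2 - round x.2) := by
  have hz : ∀ z : ℝ × ℝ, a < |z.1| ∨ a < |z.2| → f z = 0 := by
    intro z hz
    by_contra hne
    have := hs z hne
    rcases hz with h | h
    · exact absurd this.1 (not_le.2 h)
    · exact absurd this.2 (not_le.2 h)
  unfold perz
  by_cases e1 : round y.1 = round x.1
  · by_cases e2 : round y.2 = round x.2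
    · rw [e1, e2]
    · have := Tperz_round ha h2 e2
      rw [hz _ (Or.inr this.1), hz _ (Or.inr this.2)]
  · have := Tperz_round ha h1 e1
    rw [hz _ (Or.inl this.1), hz _ (Or.inl this.2)]

theorem perz_smooth {f : ℝ × ℝ → ℝ} {a : ℝ} (ha : a < 1 / 2) {n : ℕ∞}
    (hf : ContDiff ℝ n f) (hs : ∀ x : ℝ × ℝ, f x ≠ 0 → |x.1| ≤ a ∧ |x.2| ≤ a) :
    ContDiff ℝ n (perz f) := by
  rw [contDiff_iff_contDiffAt]
  intro x
  have hg : ContDiff ℝ n (fun y : ℝ × ℝ => f (y.1 - (round x.1 : ℝ), y.2 - (round x.2 : ℝ))) := by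
    apply hf.comp
    exact (contDiff_fst.sub contDiff_const).prodMk (contDiff_snd.sub contDiff_const)
  refine hg.contDiffAt.congr_of_eventuallyEq ?_
  have hd : (0 : ℝ) < 1 / 2 - a := by linarith
  have hU : Metric.ball x (1 / 2 - a) ∈ nhds x := Metric.ball_mem_nhds x hd
  filter_upwards [hU] with y hy
  rw [Metric.mem_ball, Prod.dist_eq, max_lt_iff, Real.dist_eq, Real.dist_eq] at hy
  exact Tperz_key ha hs x y hy.1 hy.2

theorem perz_per (f : ℝ × ℝ → ℝ) : Per (perz f) := by
  intro x
  unfold perz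
  constructor
  · congr 2
    simp only [round_add_one]
    push_cast
    ring
  · congr 2
    simp only [round_add_one]
    push_cast
    ring

theorem perz_eq {f : ℝ × ℝ → ℝ} {a : ℝ} (ha : a < 1 / 2)
    (hs : ∀ x : ℝ × ℝ, f x ≠ 0 → |x.1| ≤ a ∧ |x.2| ≤ a) : ∀ x ∈ Q, perz f x = f x := by
  intro x hx
  have hx1 : -1 / 2 < x.1 ∧ x.1 ≤ 1 / 2 := hx.1
  have hx2 : -1 / 2 < x.2 ∧ x.2 ≤ 1 / 2 := hx.2
  by_cases h0 : 0 ≤ a
  · have hr : round (0 : ℝ) = 0 := round_zero
    by_cases h1 : |x.1| < 1 / 2 ∧ |x.2| < 1 / 2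
    · have r1 : round x.1 = 0 := by
        rw [round_eq, Int.floor_eq_iff]
        rw [abs_lt] at h1
        constructor
        · push_cast; linarith [h1.1.1]
        · push_cast; linarith [h1.1.2]
      have r2 : round x.2 = 0 := by
        rw [round_eq, Int.floor_eq_iff]
        have := abs_lt.1 h1.2
        constructor
        · push_cast; linarith [this.1]
        · push_cast; linarith [this.2]
      unfold perz
      rw [r1, r2]
      simp
    · have hz : ∀ z : ℝ × ℝ, a < |z.1| ∨ a < |z.2| → f z = 0 := by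
        intro z hz
        by_contra hne
        have := hs z hne
        rcases hz with h | h
        · exact absurd this.1 (not_le.2 h)
        · exact absurd this.2 (not_le.2 h)
      have hhalf : ∀ t : ℝ, -1 / 2 < t → t ≤ 1 / 2 → ¬ |t| < 1 / 2 → a < |t| ∧ a < |t - round t| := by
        intro t ht1 ht2 ht3
        have ht : t = 1 / 2 := by
          by_contra hne
          apply ht3
          rw [abs_lt]
          constructor
          · linarith
          · exact lt_of_le_of_ne ht2 hne
        have hrt : round t = 1 := by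
          rw [ht, round_eq, Int.floor_eq_iff]
          norm_num
        rw [hrt, ht]
        constructor
        · rw [abs_of_pos (by norm_num : (0 : ℝ) < 1 / 2)]
          exact ha
        · have : (1 / 2 : ℝ) - ((1 : ℤ) : ℝ) = -(1 / 2) := by norm_num
          rw [this, abs_neg, abs_of_pos (by norm_num : (0 : ℝ) < 1 / 2)]
          exact ha
      unfold perz
      by_cases k1 : |x.1| < 1 / 2
      · have k2 : ¬ |x.2| < 1 / 2 := fun h => h1 ⟨k1, h⟩
        have := hhalf x.2 hx2.1 hx2.2 k2
        rw [hz x (Or.inr this.1)]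
        exact hz _ (Or.inr this.2)
      · have := hhalf x.1 hx1.1 hx1.2 k1
        rw [hz x (Or.inl this.1)]
        exact hz _ (Or.inl this.2)
  · push Not at h0
    have hz : ∀ z : ℝ × ℝ, f z = 0 := by
      intro z
      by_contra hne
      have := (hs z hne).1
      linarith [abs_nonneg z.1]
    unfold perz
    rw [hz, hz]

end Pool.Agent.AO
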