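import Pool.Agent.Lib.MP_10e52e_an.Defs3
import Pool.Agent.Lib.MP_10e52e_an.Tint
import Pool.Agent.Lib.MP_10e52e_an.Tperz
import Pool.Agent.Lib.MP_10e52e_an.Teta
import Pool.Agent.Lib.MP_10e52e_an.Tlsint
import Pool.Agent.Lib.MP_10e52e_an.Calc
import Pool.Agent.Lib.MP_10e52e_an.Symm

/-! MP_10e52e_an row Tlsibp: T8 singular integration by parts -/

namespace Pool.Agent.AO

open MeasureTheory Set Real Filter Topology
open scoped ContDiff

private theorem tls_iter {f : ℝ × ℝ → ℝ} (hf : IntegrableOn f Q) :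
    TI f = ∫ y in (-1/2:ℝ)..(1/2), ∫ x in (-1/2:ℝ)..(1/2), f (x, y) := by
  have hle : (-1/2:ℝ) ≤ 1/2 := by norm_num
  rw [TI, Q] at *
  rw [IntegrableOn, Measure.volume_eq_prod, ← Measure.prod_restrict] at hf
  rw [Measure.volume_eq_prod, ← Measure.prod_restrict, integral_prod_symm _ hf,
    intervalIntegral.integral_of_le hle]
  refine setIntegral_congr_fun measurableSet_Ioc fun x _ => ?_
  rw [intervalIntegral.integral_of_le hle]

private theorem tls_iter' {f : ℝ × ℝ → ℝ} (hf : IntegrableOn f Q) :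
    TI f = ∫ x in (-1/2:ℝ)..(1/2), ∫ y in (-1/2:ℝ)..(1/2), f (x, y) := by
  have hle : (-1/2:ℝ) ≤ 1/2 := by norm_num
  rw [TI, Q] at *
  rw [IntegrableOn, Measure.volume_eq_prod, ← Measure.prod_restrict] at hf
  rw [Measure.volume_eq_prod, ← Measure.prod_restrict, integral_prod _ hf,
    intervalIntegral.integral_of_le hle]
  refine setIntegral_congr_fun measurableSet_Ioc fun x _ => ?_
  rw [intervalIntegral.integral_of_le hle]

private theorem tls_hd1 {f : ℝ × ℝ → ℝ} {x y : ℝ} (hf : DifferentiableAt ℝ f (x, y)) :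
    HasDerivAt (fun t => f (t, y)) (D1 f (x, y)) x := by
  have h : HasDerivAt (fun t : ℝ => ((t, y) : ℝ × ℝ)) ((1:ℝ), (0:ℝ)) x :=
    (hasDerivAt_id x).prodMk (hasDerivAt_const x y)
  exact hf.hasFDerivAt.comp_hasDerivAt x h

private theorem tls_hd2 {f : ℝ × ℝ → ℝ} {x y : ℝ} (hf : DifferentiableAt ℝ f (x, y)) :
    HasDerivAt (fun t => f (x, t)) (D2 f (x, y)) y := by
  have h : HasDerivAt (fun t : ℝ => ((x, t) : ℝ × ℝ)) ((0:ℝ), (1:ℝ)) y :=
    (hasDerivAt_const y x).prodMk (hasDerivAt_id y)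
  exact hf.hasFDerivAt.comp_hasDerivAt y h

/-- not an integer -/
private def Ni (y : ℝ) : Prop := ∀ n : ℤ, y ≠ n

private theorem tls_ni {y : ℝ} (h1 : -1 / 2 ≤ y) (h2 : y ≤ 1 / 2) (h0 : y ≠ 0) : Ni y := by
  intro n hn
  have h3 : (-1 : ℝ) < n := by linarith
  have h4 : (n : ℝ) < 1 := by linarith
  have h5 : n = 0 := by
    have : (-1 : ℤ) < n := by exact_mod_cast h3
    have : n < (1 : ℤ) := by exact_mod_cast h4
    omega
  exact h0 (by rw [hn, h5]; simp)

private theorem tls_nl2 {x y : ℝ} (h : Ni y) : ((x, y) : ℝ × ℝ) ∉ Lat := by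
  rintro ⟨m, n, hmn⟩
  exact h n (by simpa using congrArg Prod.snd hmn)

private theorem tls_nl1 {x y : ℝ} (h : Ni x) : ((x, y) : ℝ × ℝ) ∉ Lat := by
  rintro ⟨m, n, hmn⟩
  exact h m (by simpa using congrArg Prod.fst hmn)

/-- `C^1` off the lattice -/
private def Off (g : ℝ × ℝ → ℝ) : Prop := ∀ x, x ∉ Lat → ContDiffAt ℝ 1 g x

private theorem tls_cD1 {g : ℝ × ℝ → ℝ} (hg : Off g) {x : ℝ × ℝ} (hx : x ∉ Lat) :
    ContinuousAt (D1 g) x :=
  (contDiffAt_D1 (n := 0) (by simpa using hg x hx)).continuousAt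

private theorem tls_cD2 {g : ℝ × ℝ → ℝ} (hg : Off g) {x : ℝ × ℝ} (hx : x ∉ Lat) :
    ContinuousAt (D2 g) x :=
  (contDiffAt_D2 (n := 0) (by simpa using hg x hx)).continuousAt

private theorem tls_line1 {g : ℝ × ℝ → ℝ} (hg : Off g) (hp : Per g) {y : ℝ} (hy : Ni y) :
    ∫ x in (-1/2:ℝ)..(1/2), D1 g (x, y) = 0 := by
  have hcont : Continuous fun t : ℝ => D1 g (t, y) :=
    continuous_iff_continuousAt.2 fun t =>
      ContinuousAt.comp (f := fun t : ℝ => ((t, y) : ℝ × ℝ)) (g := D1 g)
        (tls_cD1 hg (tls_nl2 hy)) (by fun_prop)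
  rw [intervalIntegral.integral_eq_sub_of_hasDerivAt (f := fun t => g (t, y))
    (fun t _ => tls_hd1 ((hg _ (tls_nl2 hy)).differentiableAt one_ne_zero))
    (hcont.intervalIntegrable _ _)]
  have := hp.add_one_fst (-1/2) y
  rw [show (-1/2:ℝ) + 1 = 1/2 by norm_num] at this
  rw [this, sub_self]

private theorem tls_line2 {g : ℝ × ℝ → ℝ} (hg : Off g) (hp : Per g) {x : ℝ} (hx : Ni x) :
    ∫ y in (-1/2:ℝ)..(1/2), D2 g (x, y) = 0 := by
  have hcont : Continuous fun t : ℝ => D2 g (x, t) :=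
    continuous_iff_continuousAt.2 fun t =>
      ContinuousAt.comp (f := fun t : ℝ => ((x, t) : ℝ × ℝ)) (g := D2 g)
        (tls_cD2 hg (tls_nl1 hx)) (by fun_prop)
  rw [intervalIntegral.integral_eq_sub_of_hasDerivAt (f := fun t => g (x, t))
    (fun t _ => tls_hd2 ((hg _ (tls_nl1 hx)).differentiableAt one_ne_zero))
    (hcont.intervalIntegrable _ _)]
  have := hp.add_one_snd x (-1/2)
  rw [show (-1/2:ℝ) + 1 = 1/2 by norm_num] at this
  rw [this, sub_self]

private theorem tls_ae_ni : ∀ᵐ y : ℝ, y ∈ uIoc (-1/2 : ℝ) (1/2) → Ni y := by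
  have h0 : ∀ᵐ y : ℝ, y ≠ 0 := by
    rw [ae_iff]; simp
  filter_upwards [h0] with y hy hI
  rw [uIoc_of_le (by norm_num)] at hI
  exact tls_ni hI.1.le hI.2 hy

private theorem tls_TI1 {g : ℝ × ℝ → ℝ} (hg : Off g) (hp : Per g) (hi : IntegrableOn (D1 g) Q) :
    TI (D1 g) = 0 := by
  rw [tls_iter hi]
  refine intervalIntegral.integral_zero_ae ?_
  filter_upwards [tls_ae_ni] with y hy hI using tls_line1 hg hp (hy hI)

private theorem tls_TI2 {g : ℝ × ℝ → ℝ} (hg : Off g) (hp : Per g) (hi : IntegrableOn (D2 g) Q) :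
    TI (D2 g) = 0 := by
  rw [tls_iter' hi]
  refine intervalIntegral.integral_zero_ae ?_
  filter_upwards [tls_ae_ni] with y hy hI using tls_line2 hg hp (hy hI)

/-- upper and lower strip -/
private def Sd (d : ℝ) : Set ℝ := Ioc (-1/2) (-d) ∪ Ioc d (1/2)
private def Qd (d : ℝ) : Set (ℝ × ℝ) := Ioc (-1/2 : ℝ) (1/2) ×ˢ Sd d
private def Kd (d : ℝ) : Set (ℝ × ℝ) := Icc (-1/2 : ℝ) (1/2) ×ˢ (Icc (-1/2) (-d) ∪ Icc d (1/2))

private theorem tls_msd (d : ℝ) : MeasurableSet (Sd d) := measurableSet_Ioc.union measurableSet_Ioc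
private theorem tls_mqd (d : ℝ) : MeasurableSet (Qd d) := measurableSet_Ioc.prod (tls_msd d)
private theorem tls_kd (d : ℝ) : IsCompact (Kd d) :=
  isCompact_Icc.prod (isCompact_Icc.union isCompact_Icc)
private theorem tls_qk (d : ℝ) : Qd d ⊆ Kd d :=
  prod_mono Ioc_subset_Icc_self (union_subset_union Ioc_subset_Icc_self Ioc_subset_Icc_self)

private theorem tls_kl {d : ℝ} (hd : 0 < d) : ∀ z ∈ Kd d, z ∉ Lat := by
  rintro ⟨x, y⟩ ⟨-, hy⟩
  refine tls_nl2 ?_
  rcases hy with hy | hy
  · exact tls_ni hy.1 (by linarith [hy.2]) (by rintro rfl; linarith [hy.2])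
  · exact tls_ni (by linarith [hy.1]) hy.2 (by rintro rfl; linarith [hy.1])

private theorem tls_int {d : ℝ} (hd : 0 < d) {f : ℝ × ℝ → ℝ} (hf : ∀ x, x ∉ Lat → ContinuousAt f x) :
    IntegrableOn f (Qd d) := by
  refine IntegrableOn.mono_set ?_ (tls_qk d)
  exact ContinuousOn.integrableOn_compact (tls_kd d)
    (fun z hz => (hf z (tls_kl hd z hz)).continuousWithinAt)

/-- Stokes on the two strips -/
private theorem tls_stokes {g1 g2 : ℝ × ℝ → ℝ} (h1 : Off g1) (p1 : Per g1) (h2 : Off g2) (p2 : Per g2)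
    {d : ℝ} (hd : 0 < d) (hd2 : d < 1/2) :
    ∫ z in Qd d, (D1 g1 z + D2 g2 z) = ∫ x in (-1/2:ℝ)..(1/2), (g2 (x, -d) - g2 (x, d)) := by
  have i1 : IntegrableOn (D1 g1) (Qd d) := tls_int hd fun x hx => tls_cD1 h1 hx
  have i2 : IntegrableOn (D2 g2) (Qd d) := tls_int hd fun x hx => tls_cD2 h2 hx
  rw [integral_add i1 i2]
  have e1 : ∫ z in Qd d, D1 g1 z = 0 := by
    have i1' := i1
    rw [Qd, IntegrableOn, Measure.volume_eq_prod, ← Measure.prod_restrict] at i1'
    rw [Qd, Measure.volume_eq_prod, ← Measure.prod_restrict, integral_prod_symm _ i1']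
    rw [setIntegral_congr_fun (g := fun _ => (0:ℝ)) (tls_msd d), integral_zero]
    intro y hy
    have hy' : Ni y := by
      rcases hy with hy | hy
      · exact tls_ni hy.1.le (by linarith [hy.2]) (by rintro rfl; linarith [hy.2])
      · exact tls_ni (by linarith [hy.1]) hy.2 (by rintro rfl; linarith [hy.1])
    have := tls_line1 h1 p1 hy'
    rw [intervalIntegral.integral_of_le (by norm_num)] at this
    exact this
  have e2 : ∫ z in Qd d, D2 g2 z = ∫ x in (-1/2:ℝ)..(1/2), (g2 (x, -d) - g2 (x, d)) := by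
    have i2' := i2
    rw [Qd, IntegrableOn, Measure.volume_eq_prod, ← Measure.prod_restrict] at i2'
    rw [Qd, Measure.volume_eq_prod, ← Measure.prod_restrict, integral_prod _ i2',
      intervalIntegral.integral_of_le (by norm_num)]
    refine setIntegral_congr_fun measurableSet_Ioc fun x _ => ?_
    have hc : ∀ a b : ℝ, -1/2 ≤ a → a ≤ b → b ≤ 1/2 → (b < 0 ∨ 0 < a) →
        IntegrableOn (fun y => D2 g2 (x, y)) (Ioc a b) ∧
          ∫ y in Ioc a b, D2 g2 (x, y) = g2 (x, b) - g2 (x, a) := by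
      intro a b ha hab hb h0
      have hn : ∀ y ∈ uIcc a b, ((x, y) : ℝ × ℝ) ∉ Lat := by
        intro y hy
        rw [uIcc_of_le hab] at hy
        refine tls_nl2 (tls_ni (by linarith [hy.1]) (by linarith [hy.2]) ?_)
        rintro rfl
        rcases h0 with h0 | h0
        · linarith [hy.2]
        · linarith [hy.1]
      have hco : ContinuousOn (fun y => D2 g2 (x, y)) (uIcc a b) := fun y hy =>
        (ContinuousAt.comp (f := fun t : ℝ => ((x, t) : ℝ × ℝ)) (g := D2 g2)
          (tls_cD2 h2 (hn y hy)) (by fun_prop)).continuousWithinAt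
      have hii : IntervalIntegrable (fun y => D2 g2 (x, y)) volume a b := hco.intervalIntegrable
      refine ⟨(intervalIntegrable_iff_integrableOn_Ioc_of_le hab).1 hii, ?_⟩
      rw [← intervalIntegral.integral_of_le hab,
        intervalIntegral.integral_eq_sub_of_hasDerivAt (f := fun t => g2 (x, t))
          (fun t ht => tls_hd2 ((h2 _ (hn t ht)).differentiableAt one_ne_zero)) hii]
    obtain ⟨j1, k1⟩ := hc (-1/2) (-d) le_rfl (by linarith) (by linarith) (Or.inl (by linarith))
    obtain ⟨j2, k2⟩ := hc d (1/2) (by linarith) (by linarith) le_rfl (Or.inr hd)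
    have hdis : Disjoint (Ioc (-1/2:ℝ) (-d)) (Ioc d (1/2)) := by
      rw [Set.disjoint_left]
      intro y hy hy'
      linarith [hy.2, hy'.1]
    show ∫ y in Sd d, D2 g2 (x, y) = _
    rw [Sd, setIntegral_union hdis measurableSet_Ioc j1 j2, k1, k2]
    have := p2.add_one_snd x (-1/2)
    rw [show (-1/2:ℝ) + 1 = 1/2 by norm_num] at this
    rw [this]; ring
  rw [e1, e2, zero_add]

/-- the sequence -/
private noncomputable def dn (n : ℕ) : ℝ := 1 / ((n : ℝ) + 3)

private theorem dn_pos (n : ℕ) : 0 < dn n := by unfold dn; positivity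
private theorem dn_lt (n : ℕ) : dn n < 1/2 := by
  unfold dn
  rw [div_lt_div_iff₀ (by positivity) (by norm_num)]
  have : (0:ℝ) ≤ n := Nat.cast_nonneg n
  linarith
private theorem dn_anti : Antitone dn := by
  intro m n hmn
  unfold dn
  have : (m:ℝ) ≤ n := by exact_mod_cast hmn
  gcongr
private theorem dn_tendsto : Tendsto dn atTop (𝓝 0) := by
  have h1 : Tendsto (fun n : ℕ => (n:ℝ) + 3) atTop atTop :=
    tendsto_atTop_add_const_right _ _ tendsto_natCast_atTop_atTop
  have h2 := h1.inv_tendsto_atTop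
  refine h2.congr fun n => ?_
  simp [dn]

private theorem tls_lim {f : ℝ × ℝ → ℝ} (hf : IntegrableOn f Q) :
    Tendsto (fun n => ∫ z in Qd (dn n), f z) atTop (𝓝 (TI f)) := by
  have hU : (⋃ n, Qd (dn n)) = Q \ (univ ×ˢ {(0:ℝ)}) := by
    ext ⟨x, y⟩
    simp only [mem_iUnion, Qd, Sd, Q, mem_prod, mem_union, mem_Ioc, Set.mem_sdiff, mem_univ, true_and,
      mem_singleton_iff]
    constructor
    · rintro ⟨n, hx, hy⟩
      have hd := dn_pos n
      have hd2 := dn_lt n
      rcases hy with hy | hy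
      · exact ⟨⟨hx, hy.1, by linarith⟩, by rintro rfl; linarith⟩
      · exact ⟨⟨hx, by linarith, hy.2⟩, by rintro rfl; linarith⟩
    · rintro ⟨⟨hx, hy⟩, h0⟩
      have : ∃ n, dn n < |y| := by
        have := (dn_tendsto.eventually (gt_mem_nhds (abs_pos.2 h0))).exists
        exact this
      obtain ⟨n, hn⟩ := this
      refine ⟨n, hx, ?_⟩
      rcases lt_or_gt_of_ne h0 with h | h
      · left
        rw [abs_of_neg h] at hn
        exact ⟨hy.1, by linarith⟩
      · right
        rw [abs_of_pos h] at hn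
        exact ⟨hn, hy.2⟩
  have hmono : Monotone fun n => Qd (dn n) := by
    intro m n hmn
    have := dn_anti hmn
    refine prod_mono le_rfl ?_
    refine union_subset_union ?_ ?_
    · exact Ioc_subset_Ioc_right (by linarith)
    · exact Ioc_subset_Ioc_left this
  have h := tendsto_setIntegral_of_monotone (μ := volume) (f := f) (fun n => tls_mqd (dn n)) hmono
    (by rw [hU]; exact hf.mono_set sdiff_subset)
  have hnull : (volume : Measure (ℝ × ℝ)) (univ ×ˢ {(0:ℝ)}) = 0 := by
    rw [Measure.volume_eq_prod, Measure.prod_prod]; simp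
  have hE : ∫ z in ⋃ n, Qd (dn n), f z = TI f := by
    rw [hU, TI]
    exact setIntegral_congr_set (sdiff_null_ae_eq_self hnull)
  rwa [hE] at h


section Sing
variable {F S : ℝ × ℝ → ℝ} {a : ℝ} (h : LogSing F S a) {phi : ℝ × ℝ → ℝ}
  (hphi : ContDiff ℝ 1 phi) (hp : Per phi)

private theorem tls_latcl : IsClosed Lat := by
  have hZ : Lat = (range ((↑) : ℤ → ℝ)) ×ˢ (range ((↑) : ℤ → ℝ)) := by
    ext ⟨x, y⟩
    simp only [Lat, mem_ofPred_eq, mem_prod, mem_range, Prod.mk.injEq]
    constructor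
    · rintro ⟨m, n, h1, h2⟩; exact ⟨⟨m, h1.symm⟩, ⟨n, h2.symm⟩⟩
    · rintro ⟨⟨m, h1⟩, ⟨n, h2⟩⟩; exact ⟨m, n, h1.symm, h2.symm⟩
  have hc : IsClosed (range ((↑) : ℤ → ℝ)) := Int.isClosedEmbedding_coe_real.isClosed_range
  rw [hZ]
  exact hc.prod hc

private theorem tls_boxo : IsOpen (Box 1) := by
  have h1 : IsOpen {x : ℝ × ℝ | |x.1| < 1} := isOpen_lt (by fun_prop) continuous_const
  have h2 : IsOpen {x : ℝ × ℝ | |x.2| < 1} := isOpen_lt (by fun_prop) continuous_const
  exact h1.inter h2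

include h in
private theorem tls_F {x : ℝ × ℝ} (hx : x ∉ Lat) : ContDiffAt ℝ ∞ F x :=
  h.off.contDiffAt (tls_latcl.isOpen_compl.mem_nhds hx)

include h in
private theorem tls_S {x : ℝ × ℝ} (hx : x ∈ Box 1) : ContDiffAt ℝ ∞ S x :=
  h.sm.contDiffAt (tls_boxo.mem_nhds hx)

private theorem tls_nsq {x : ℝ × ℝ} (hx : x ≠ 0) : 0 < nsq x := by
  unfold nsq
  by_contra hc
  have h1 := sq_nonneg x.1
  have h2 := sq_nonneg x.2
  have e1 : x.1 ^ 2 = 0 := by linarith
  have e2 : x.2 ^ 2 = 0 := by linarith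
  exact hx (Prod.ext (by simpa using e1) (by simpa using e2))

private theorem tls_nsqc {n : WithTop ℕ∞} {x : ℝ × ℝ} : ContDiffAt ℝ n nsq x := by
  unfold nsq; fun_prop

private theorem tls_D1nsq (x : ℝ × ℝ) : D1 nsq x = 2 * x.1 := by
  have h1 : DifferentiableAt ℝ (fun y : ℝ × ℝ => y.1 ^ 2) x := by fun_prop
  have h2 : DifferentiableAt ℝ (fun y : ℝ × ℝ => y.2 ^ 2) x := by fun_prop
  have e : nsq = fun y => y.1 ^ 2 + y.2 ^ 2 := rfl
  rw [e, D1_add h1 h2, D1_comp_fst (φ := fun t => t ^ 2) (by simpa using hasDerivAt_pow 2 x.1),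
    D1_comp_snd (φ := fun t => t ^ 2) (by simpa using hasDerivAt_pow 2 x.2)]
  ring

private theorem tls_D2nsq (x : ℝ × ℝ) : D2 nsq x = 2 * x.2 := by
  have h1 : DifferentiableAt ℝ (fun y : ℝ × ℝ => y.1 ^ 2) x := by fun_prop
  have h2 : DifferentiableAt ℝ (fun y : ℝ × ℝ => y.2 ^ 2) x := by fun_prop
  have e : nsq = fun y => y.1 ^ 2 + y.2 ^ 2 := rfl
  rw [e, D2_add h1 h2, D2_comp_fst (φ := fun t => t ^ 2) (by simpa using hasDerivAt_pow 2 x.1),
    D2_comp_snd (φ := fun t => t ^ 2) (by simpa using hasDerivAt_pow 2 x.2)]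
  ring

private theorem tls_Lapnsq (x : ℝ × ℝ) : Lap nsq x = 4 := by
  have e1 : D1 nsq = fun y : ℝ × ℝ => 2 * y.1 := funext tls_D1nsq
  have e2 : D2 nsq = fun y : ℝ × ℝ => 2 * y.2 := funext tls_D2nsq
  rw [Lap, e1, e2, D1_const_mul differentiableAt_fst, D2_const_mul differentiableAt_snd, D1_fst, D2_snd]
  norm_num

include h in
private theorem tls_ev {x : ℝ × ℝ} (hx : x ∈ Box 1) (h0 : x ≠ 0) :
    F =ᶠ[𝓝 x] fun y => a * Real.log (nsq y) + S y := by
  filter_upwards [tls_boxo.mem_nhds hx, isOpen_ne.mem_nhds h0] with y hy hy0 using h.eq y hy hy0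

private theorem tls_log {x : ℝ × ℝ} (h0 : x ≠ 0) {n : WithTop ℕ∞} :
    ContDiffAt ℝ n (fun y => Real.log (nsq y)) x :=
  tls_nsqc.log (tls_nsq h0).ne'

include h in
private theorem tls_D1F {x : ℝ × ℝ} (hx : x ∈ Box 1) (h0 : x ≠ 0) :
    D1 F x = a * (2 * x.1 / nsq x) + D1 S x := by
  have hl : DifferentiableAt ℝ (fun y => Real.log (nsq y)) x :=
    (tls_log h0 (n := 1)).differentiableAt one_ne_zero
  rw [D1_congr (tls_ev h hx h0), D1_add (hl.const_mul a)
    ((tls_S h hx).differentiableAt (by simp)), D1_const_mul hl,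
    D1_log ((tls_nsqc (n := 1)).differentiableAt one_ne_zero) (tls_nsq h0).ne', tls_D1nsq]
  ring

include h in
private theorem tls_D2F {x : ℝ × ℝ} (hx : x ∈ Box 1) (h0 : x ≠ 0) :
    D2 F x = a * (2 * x.2 / nsq x) + D2 S x := by
  have hl : DifferentiableAt ℝ (fun y => Real.log (nsq y)) x :=
    (tls_log h0 (n := 1)).differentiableAt one_ne_zero
  rw [D2_congr (tls_ev h hx h0), D2_add (hl.const_mul a)
    ((tls_S h hx).differentiableAt (by simp)), D2_const_mul hl,
    D2_log ((tls_nsqc (n := 1)).differentiableAt one_ne_zero) (tls_nsq h0).ne', tls_D2nsq]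
  ring

include h in
private theorem tls_LapF {x : ℝ × ℝ} (hx : x ∈ Box 1) (h0 : x ≠ 0) : Lap F x = Lap S x := by
  have hl : ContDiffAt ℝ 2 (fun y => Real.log (nsq y)) x := tls_log h0
  rw [Lap_congr (tls_ev h hx h0), Lap_add (contDiffAt_const.mul hl)
    (by exact_mod_cast (contDiffAt_infty.1 (tls_S h hx)) 2), Lap_const_mul hl,
    Lap_log tls_nsqc (tls_nsq h0).ne', tls_Lapnsq, tls_D1nsq, tls_D2nsq]
  have h1 : nsq x ≠ 0 := (tls_nsq h0).ne'
  have h2 : (2 * x.1) ^ 2 + (2 * x.2) ^ 2 = 4 * nsq x := by unfold nsq; ring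
  rw [h2]
  field_simp
  ring


private noncomputable def kk (d x : ℝ) : ℝ := d / (x ^ 2 + d ^ 2)

private theorem kk_int {d : ℝ} (hd : 0 < d) :
    ∫ x in (-1/2:ℝ)..(1/2), kk d x = 2 * Real.arctan (1 / (2 * d)) := by
  have hder : ∀ x ∈ uIcc (-1/2:ℝ) (1/2), HasDerivAt (fun x => Real.arctan (x / d)) (kk d x) x := by
    intro x _
    have h1 : HasDerivAt (fun x : ℝ => x / d) (1 / d) x := (hasDerivAt_id x).div_const d
    have h2 := h1.arctan
    convert h2 using 1
    unfold kk
    have : x ^ 2 + d ^ 2 ≠ 0 := by positivity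
    have : 1 + (x / d) ^ 2 ≠ 0 := by positivity
    field_simp
    ring
  have hc : Continuous (kk d) := by
    unfold kk
    refine continuous_const.div (by fun_prop) fun x => ?_
    positivity
  rw [intervalIntegral.integral_eq_sub_of_hasDerivAt hder (hc.intervalIntegrable _ _)]
  have e1 : (1 / 2 : ℝ) / d = 1 / (2 * d) := by field_simp
  have e2 : (-1 / 2 : ℝ) / d = -(1 / (2 * d)) := by field_simp
  rw [e1, e2, Real.arctan_neg]; ring

private theorem kk_lim : Tendsto (fun n => ∫ x in (-1/2:ℝ)..(1/2), kk (dn n) x) atTop (𝓝 π) := by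
  have h1 : Tendsto (fun n : ℕ => (n:ℝ) + 3) atTop atTop :=
    tendsto_atTop_add_const_right _ _ tendsto_natCast_atTop_atTop
  have h2 : Tendsto (fun n : ℕ => ((n:ℝ) + 3) * (1 / 2)) atTop atTop :=
    h1.atTop_mul_const (by norm_num)
  have h3 : Tendsto (fun n : ℕ => 2 * Real.arctan (((n:ℝ) + 3) * (1 / 2))) atTop (𝓝 (2 * (π / 2))) :=
    ((Real.tendsto_arctan_atTop.mono_right nhdsWithin_le_nhds).comp h2).const_mul 2
  have e : 2 * (π / 2) = π := by ring
  rw [e] at h3
  refine h3.congr fun n => ?_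
  rw [kk_int (dn_pos n)]
  congr 2
  unfold dn
  have : (n:ℝ) + 3 ≠ 0 := by positivity
  field_simp

private theorem kk_bd {d x : ℝ} (hd : 0 < d) : kk d x * max |x| d ≤ 1 := by
  have hp : 0 < x ^ 2 + d ^ 2 := by positivity
  unfold kk
  rw [div_mul_eq_mul_div, div_le_one hp]
  rcases le_total |x| d with hx | hx
  · rw [max_eq_right hx]; nlinarith [sq_nonneg x]
  · rw [max_eq_left hx]
    have : |x| ^ 2 = x ^ 2 := sq_abs x
    nlinarith [abs_nonneg x, sq_nonneg d]

private theorem kk_nn {d : ℝ} (hd : 0 < d) (x : ℝ) : 0 ≤ kk d x := by unfold kk; positivity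

private noncomputable def EE (a : ℝ) (phi S : ℝ × ℝ → ℝ) (d x : ℝ) : ℝ :=
  -(2 * a) * (kk d x * (phi (x, -d) - phi 0) + kk d x * (phi (x, d) - phi 0)) +
    (phi (x, -d) * D2 S (x, -d) - phi (x, d) * D2 S (x, d))

private def KK : Set (ℝ × ℝ) := Icc (-1/2 : ℝ) (1/2) ×ˢ Icc (-1/2 : ℝ) (1/2)

private theorem tls_KKbox : KK ⊆ Box 1 := by
  rintro ⟨x, y⟩ ⟨hx, hy⟩
  constructor
  · exact abs_lt.2 ⟨by linarith [hx.1], by linarith [hx.2]⟩
  · exact abs_lt.2 ⟨by linarith [hy.1], by linarith [hy.2]⟩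

private theorem tls_KKc : IsCompact KK := isCompact_Icc.prod isCompact_Icc

include h in
private theorem tls_cS {x : ℝ × ℝ} (hx : x ∈ Box 1) : ContinuousAt (D2 S) x :=
  (contDiffAt_D2 (n := 0) (by simpa using (tls_S h hx).of_le (by simp))).continuousAt

include h hphi in
private theorem tls_EElim :
    Tendsto (fun n => ∫ x in (-1/2:ℝ)..(1/2), EE a phi S (dn n) x) atTop (𝓝 0) := by
  obtain ⟨M, hM⟩ : ∃ M, ∀ z ∈ KK, ‖phi z * D2 S z‖ ≤ M :=
    tls_KKc.exists_bound_of_continuousOn fun z hz =>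
      (hphi.continuous.continuousAt.mul (tls_cS h (tls_KKbox hz))).continuousWithinAt
  obtain ⟨C, hC⟩ : ∃ C, ∀ z ∈ KK, ‖fderiv ℝ phi z‖ ≤ C :=
    tls_KKc.exists_bound_of_continuousOn (hphi.continuous_fderiv one_ne_zero).continuousOn
  have h00 : (0 : ℝ × ℝ) ∈ KK := by
    constructor <;> constructor <;> norm_num
  have hC0 : 0 ≤ C := (norm_nonneg _).trans (hC 0 h00)
  have hL : ∀ z ∈ KK, |phi z - phi 0| ≤ C * ‖z‖ := by
    intro z hz
    have hcv : Convex ℝ KK := (convex_Icc _ _).prod (convex_Icc _ _)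
    have := hcv.norm_image_sub_le_of_norm_fderiv_le (𝕜 := ℝ)
      (fun w _ => hphi.differentiable one_ne_zero w) hC h00 hz
    simpa using this
  have hmem : ∀ n, ∀ x ∈ uIoc (-1/2:ℝ) (1/2), ((x, dn n) : ℝ × ℝ) ∈ KK ∧ ((x, -dn n) : ℝ × ℝ) ∈ KK := by
    intro n x hx
    rw [uIoc_of_le (by norm_num)] at hx
    have h1 := dn_pos n
    have h2 := dn_lt n
    exact ⟨⟨⟨hx.1.le, hx.2⟩, by constructor <;> simp only <;> linarith⟩,
      ⟨⟨hx.1.le, hx.2⟩, by constructor <;> simp only <;> linarith⟩⟩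
  have h0 : ∀ᵐ y : ℝ, y ≠ 0 := by
    rw [ae_iff]; simp
  have hkey := intervalIntegral.tendsto_integral_filter_of_dominated_convergence
    (μ := volume) (a := (-1/2:ℝ)) (b := 1/2) (l := atTop)
    (F := fun n x => EE a phi S (dn n) x) (f := fun _ => (0:ℝ))
    (fun _ => 2 * |a| * (C + C) + (M + M)) ?_ ?_ ?_ ?_
  · simpa using hkey
  · refine Eventually.of_forall fun n => ?_
    refine ContinuousOn.aestronglyMeasurable ?_ measurableSet_uIoc
    intro x hx
    obtain ⟨m1, m2⟩ := hmem n x hx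
    have c1 : ContinuousAt (fun x : ℝ => D2 S (x, dn n)) x :=
      ContinuousAt.comp (f := fun t : ℝ => ((t, dn n) : ℝ × ℝ)) (g := D2 S)
        (tls_cS h (tls_KKbox m1)) (by fun_prop)
    have c2 : ContinuousAt (fun x : ℝ => D2 S (x, -dn n)) x :=
      ContinuousAt.comp (f := fun t : ℝ => ((t, -dn n) : ℝ × ℝ)) (g := D2 S)
        (tls_cS h (tls_KKbox m2)) (by fun_prop)
    have c3 : Continuous (fun x : ℝ => phi (x, dn n)) := hphi.continuous.comp (by fun_prop)
    have c4 : Continuous (fun x : ℝ => phi (x, -dn n)) := hphi.continuous.comp (by fun_prop)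
    have c5 : Continuous (fun x : ℝ => kk (dn n) x) := by
      unfold kk
      refine continuous_const.div (by fun_prop) fun x => ?_
      have := dn_pos n
      positivity
    refine ContinuousAt.continuousWithinAt ?_
    unfold EE
    exact (continuousAt_const.mul ((c5.continuousAt.mul (c4.continuousAt.sub continuousAt_const)).add
      (c5.continuousAt.mul (c3.continuousAt.sub continuousAt_const)))).add
      ((c4.continuousAt.mul c2).sub (c3.continuousAt.mul c1))
  · refine Eventually.of_forall fun n => Eventually.of_forall fun x hx => ?_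
    obtain ⟨m1, m2⟩ := hmem n x hx
    have hd := dn_pos n
    have b1 : |kk (dn n) x * (phi (x, -dn n) - phi 0)| ≤ C := by
      rw [abs_mul, abs_of_nonneg (kk_nn hd x)]
      have h1 := hL _ m2
      have h2 : ‖((x, -dn n) : ℝ × ℝ)‖ = max |x| (dn n) := by
        rw [Prod.norm_def]; simp [abs_of_pos hd]
      rw [h2] at h1
      calc kk (dn n) x * |phi (x, -dn n) - phi 0| ≤ kk (dn n) x * (C * max |x| (dn n)) :=
            mul_le_mul_of_nonneg_left h1 (kk_nn hd x)
        _ = C * (kk (dn n) x * max |x| (dn n)) := by ring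
        _ ≤ C * 1 := mul_le_mul_of_nonneg_left (kk_bd hd) hC0
        _ = C := mul_one C
    have b2 : |kk (dn n) x * (phi (x, dn n) - phi 0)| ≤ C := by
      rw [abs_mul, abs_of_nonneg (kk_nn hd x)]
      have h1 := hL _ m1
      have h2 : ‖((x, dn n) : ℝ × ℝ)‖ = max |x| (dn n) := by
        rw [Prod.norm_def]; simp [abs_of_pos hd]
      rw [h2] at h1
      calc kk (dn n) x * |phi (x, dn n) - phi 0| ≤ kk (dn n) x * (C * max |x| (dn n)) :=
            mul_le_mul_of_nonneg_left h1 (kk_nn hd x)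
        _ = C * (kk (dn n) x * max |x| (dn n)) := by ring
        _ ≤ C * 1 := mul_le_mul_of_nonneg_left (kk_bd hd) hC0
        _ = C := mul_one C
    have b3 := hM _ m1
    have b4 := hM _ m2
    rw [Real.norm_eq_abs] at b3 b4 ⊢
    unfold EE
    have t1 : |-(2 * a) * (kk (dn n) x * (phi (x, -dn n) - phi 0) +
        kk (dn n) x * (phi (x, dn n) - phi 0))| ≤ 2 * |a| * (C + C) := by
      rw [abs_mul, abs_neg, abs_mul, abs_two]
      refine mul_le_mul_of_nonneg_left ((abs_add_le _ _).trans (add_le_add b1 b2)) (by positivity)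
    have t2 : |phi (x, -dn n) * D2 S (x, -dn n) - phi (x, dn n) * D2 S (x, dn n)| ≤ M + M :=
      (abs_sub _ _).trans (add_le_add b4 b3)
    exact (abs_add_le _ _).trans (add_le_add t1 t2)
  · exact intervalIntegrable_const
  · filter_upwards [h0] with x hx0 hx
    have hd0 := dn_tendsto
    have hxb : ((x, (0:ℝ)) : ℝ × ℝ) ∈ Box 1 := by
      have := (hmem 0 x hx).1
      refine tls_KKbox ⟨this.1, ?_⟩
      constructor <;> norm_num
    have k1 : Tendsto (fun n => kk (dn n) x) atTop (𝓝 0) := by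
      have : Tendsto (fun d : ℝ => kk d x) (𝓝 0) (𝓝 (kk 0 x)) := by
        have : ContinuousAt (fun d : ℝ => kk d x) 0 := by
          unfold kk
          refine ContinuousAt.div (by fun_prop) (by fun_prop) ?_
          positivity
        exact this
      have h2 : kk 0 x = 0 := by simp [kk]
      rw [h2] at this
      exact this.comp hd0
    have q1 : Tendsto (fun n => ((x, dn n) : ℝ × ℝ)) atTop (𝓝 (x, 0)) :=
      tendsto_const_nhds.prodMk_nhds hd0
    have q2 : Tendsto (fun n => ((x, -dn n) : ℝ × ℝ)) atTop (𝓝 (x, 0)) := by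
      have := hd0.neg
      rw [neg_zero] at this
      exact tendsto_const_nhds.prodMk_nhds this
    have f1 : Tendsto (fun n => phi (x, dn n)) atTop (𝓝 (phi (x, 0))) :=
      (hphi.continuous.tendsto _).comp q1
    have f2 : Tendsto (fun n => phi (x, -dn n)) atTop (𝓝 (phi (x, 0))) :=
      (hphi.continuous.tendsto _).comp q2
    have s1 : Tendsto (fun n => D2 S (x, dn n)) atTop (𝓝 (D2 S (x, 0))) :=
      (tls_cS h hxb).tendsto.comp q1
    have s2 : Tendsto (fun n => D2 S (x, -dn n)) atTop (𝓝 (D2 S (x, 0))) :=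
      (tls_cS h hxb).tendsto.comp q2
    have := (((k1.mul (f2.sub_const (phi 0))).add (k1.mul (f1.sub_const (phi 0)))).const_mul
      (-(2 * a))).add ((f2.mul s2).sub (f1.mul s1))
    simp only [zero_mul, add_zero, mul_zero, sub_self] at this
    exact this


private theorem tls_ae_nl : ∀ᵐ z : ℝ × ℝ, z ∉ Lat := by
  have hc : Lat.Countable := by
    have : Lat = Set.range (fun p : ℤ × ℤ => (((p.1 : ℝ), (p.2 : ℝ)) : ℝ × ℝ)) := by
      ext z
      constructor
      · rintro ⟨m, n, rfl⟩; exact ⟨(m, n), rfl⟩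
      · rintro ⟨⟨m, n⟩, rfl⟩; exact ⟨m, n, rfl⟩
    rw [this]
    exact Set.countable_range _
  rw [ae_iff]
  simpa using hc.measure_zero volume

private theorem tls_Qm : MeasurableSet Q := measurableSet_Ioc.prod measurableSet_Ioc

private theorem tls_QK : Q ⊆ KK := prod_mono Ioc_subset_Icc_self Ioc_subset_Icc_self

private theorem tls_mulint {f g : ℝ × ℝ → ℝ} (hf : IntegrableOn f Q) (hg : Continuous g) :
    IntegrableOn (fun z => f z * g z) Q := by
  obtain ⟨C, hC⟩ := tls_KKc.exists_bound_of_continuousOn hg.continuousOn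
  refine Integrable.mul_bdd (c := C) hf hg.aestronglyMeasurable ?_
  rw [ae_restrict_iff' tls_Qm]
  exact Eventually.of_forall fun z hz => hC z (tls_QK hz)

include h in
private theorem tls_offF : Off F := fun x hx => (tls_F h hx).of_le (by simp)

include h in
private theorem tls_offD1 : Off (D1 F) := fun x hx =>
  contDiffAt_D1_one (by exact_mod_cast (contDiffAt_infty.1 (tls_F h hx)) 2)

include h in
private theorem tls_offD2 : Off (D2 F) := fun x hx =>
  contDiffAt_D2_one (by exact_mod_cast (contDiffAt_infty.1 (tls_F h hx)) 2)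

private theorem tls_offmul {f g : ℝ × ℝ → ℝ} (hf : Off f) (hg : Off g) : Off (fun x => f x * g x) :=
  fun x hx => (hf x hx).mul (hg x hx)

private theorem tls_da {f : ℝ × ℝ → ℝ} (hf : Off f) {x : ℝ × ℝ} (hx : x ∉ Lat) :
    DifferentiableAt ℝ f x := (hf x hx).differentiableAt one_ne_zero

end Sing

/-- T8 -/
theorem LogSing.ibp {F S : ℝ × ℝ → ℝ} {a : ℝ} (h : LogSing F S a) {phi : ℝ × ℝ → ℝ}
    (hphi : ContDiff ℝ 1 phi) (hp : Per phi) :
    TI (fun x => F x * D1 phi x) = -TI (fun x => D1 F x * phi x) ∧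
    TI (fun x => F x * D2 phi x) = -TI (fun x => D2 F x * phi x) ∧
    TI (fun x => D1 F x * D1 phi x + D2 F x * D2 phi x) =
      -TI (fun x => Lap F x * phi x) - 4 * π * a * phi 0 := by
  obtain ⟨iF, -, iD1, iD2⟩ := h.integrable
  have hoff : Off phi := fun x _ => hphi.contDiffAt
  have cp := hphi.continuous
  have c1 := continuous_D1 hphi
  have c2 := continuous_D2 hphi
  have iF1 := tls_mulint iF c1
  have iF2 := tls_mulint iF c2
  have i1p := tls_mulint iD1 cp
  have i2p := tls_mulint iD2 cp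
  have i11 := tls_mulint iD1 c1
  have i22 := tls_mulint iD2 c2
  have offg := tls_offmul (tls_offF h) hoff
  have perg : Per (fun x => F x * phi x) := h.per.mul hp
  refine ⟨?_, ?_, ?_⟩
  · have e : D1 (fun x => F x * phi x) =ᵐ[volume] fun x => D1 F x * phi x + F x * D1 phi x := by
      filter_upwards [tls_ae_nl] with x hx
      exact D1_mul (tls_da (tls_offF h) hx) (tls_da hoff hx)
    have hi : IntegrableOn (D1 (fun x => F x * phi x)) Q :=
      (Integrable.add i1p iF1).congr (ae_restrict_of_ae e.symm)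
    have h0 := tls_TI1 offg perg hi
    have h1 : TI (D1 (fun x => F x * phi x)) = TI (fun x => D1 F x * phi x + F x * D1 phi x) :=
      integral_congr_ae (ae_restrict_of_ae e)
    have h2 : TI (fun x => D1 F x * phi x + F x * D1 phi x) =
        TI (fun x => D1 F x * phi x) + TI (fun x => F x * D1 phi x) := integral_add i1p iF1
    linarith
  · have e : D2 (fun x => F x * phi x) =ᵐ[volume] fun x => D2 F x * phi x + F x * D2 phi x := by
      filter_upwards [tls_ae_nl] with x hx
      exact D2_mul (tls_da (tls_offF h) hx) (tls_da hoff hx)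
    have hi : IntegrableOn (D2 (fun x => F x * phi x)) Q :=
      (Integrable.add i2p iF2).congr (ae_restrict_of_ae e.symm)
    have h0 := tls_TI2 offg perg hi
    have h1 : TI (D2 (fun x => F x * phi x)) = TI (fun x => D2 F x * phi x + F x * D2 phi x) :=
      integral_congr_ae (ae_restrict_of_ae e)
    have h2 : TI (fun x => D2 F x * phi x + F x * D2 phi x) =
        TI (fun x => D2 F x * phi x) + TI (fun x => F x * D2 phi x) := integral_add i2p iF2
    linarith
  · have off1 := tls_offmul hoff (tls_offD1 h)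
    have off2 := tls_offmul hoff (tls_offD2 h)
    have per1 : Per (fun x => phi x * D1 F x) := hp.mul h.per.D1
    have per2 : Per (fun x => phi x * D2 F x) := hp.mul h.per.D2
    have e : (fun x => D1 (fun x => phi x * D1 F x) x + D2 (fun x => phi x * D2 F x) x) =ᵐ[volume]
        fun x => (D1 F x * D1 phi x + D2 F x * D2 phi x) + Lap F x * phi x := by
      filter_upwards [tls_ae_nl] with x hx
      rw [D1_mul (tls_da hoff hx) (tls_da (tls_offD1 h) hx),
        D2_mul (tls_da hoff hx) (tls_da (tls_offD2 h) hx), Lap]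
      ring
    have iL : IntegrableOn (fun x => Lap F x * phi x) Q := by
      have hS : IntegrableOn (fun x => Lap S x * phi x) Q := by
        refine IntegrableOn.mono_set ?_ tls_QK
        refine ContinuousOn.integrableOn_compact tls_KKc fun z hz => ?_
        have hz2 : ContDiffAt ℝ 2 S z := by
          exact_mod_cast (contDiffAt_infty.1 (tls_S h (tls_KKbox hz))) 2
        exact ((contDiffAt_Lap (n := 0) (by simpa using hz2)).continuousAt.mul
          cp.continuousAt).continuousWithinAt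
      refine Integrable.congr hS ?_
      have h0 : ∀ᵐ z : ℝ × ℝ, z ≠ 0 := by
        rw [ae_iff]; simp
      rw [EventuallyEq, ae_restrict_iff' tls_Qm]
      filter_upwards [h0] with z hz0 hzQ
      rw [tls_LapF h (tls_KKbox (tls_QK hzQ)) hz0]
    have iG : IntegrableOn (fun x => D1 F x * D1 phi x + D2 F x * D2 phi x) Q := i11.add i22
    have hi : IntegrableOn (fun x => D1 (fun x => phi x * D1 F x) x + D2 (fun x => phi x * D2 F x) x) Q :=
      (Integrable.add iG iL).congr (ae_restrict_of_ae e.symm)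
    have hT : TI (fun x => D1 (fun x => phi x * D1 F x) x + D2 (fun x => phi x * D2 F x) x) =
        TI (fun x => D1 F x * D1 phi x + D2 F x * D2 phi x) + TI (fun x => Lap F x * phi x) := by
      have h2 : TI (fun x => (D1 F x * D1 phi x + D2 F x * D2 phi x) + Lap F x * phi x) =
        TI (fun x => D1 F x * D1 phi x + D2 F x * D2 phi x) + TI (fun x => Lap F x * phi x) :=
        integral_add iG iL
      exact (integral_congr_ae (ae_restrict_of_ae e)).trans h2
    have hl := tls_lim hi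
    have hr : Tendsto (fun n => ∫ z in Qd (dn n),
        (D1 (fun x => phi x * D1 F x) z + D2 (fun x => phi x * D2 F x) z)) atTop
        (𝓝 (-(4 * a * phi 0) * π + 0)) := by
      refine ((kk_lim.const_mul (-(4 * a * phi 0))).add (tls_EElim h hphi)).congr fun n => ?_
      have hd := dn_pos n
      have hd2 := dn_lt n
      rw [tls_stokes off1 per1 off2 per2 hd hd2, ← intervalIntegral.integral_const_mul]
      have ck : Continuous (kk (dn n)) := by
        unfold kk
        refine continuous_const.div (by fun_prop) fun x => ?_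
        positivity
      have hmem : ∀ x ∈ uIcc (-1/2:ℝ) (1/2), ((x, dn n) : ℝ × ℝ) ∈ KK ∧ ((x, -dn n) : ℝ × ℝ) ∈ KK := by
        intro x hx
        rw [uIcc_of_le (by norm_num)] at hx
        exact ⟨⟨⟨hx.1, hx.2⟩, by constructor <;> simp only <;> linarith⟩,
          ⟨⟨hx.1, hx.2⟩, by constructor <;> simp only <;> linarith⟩⟩
      have iE : IntervalIntegrable (EE a phi S (dn n)) volume (-1/2) (1/2) := by
        refine ContinuousOn.intervalIntegrable fun x hx => ?_
        obtain ⟨m1, m2⟩ := hmem x hx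
        have c1 : ContinuousAt (fun x : ℝ => D2 S (x, dn n)) x :=
          ContinuousAt.comp (f := fun t : ℝ => ((t, dn n) : ℝ × ℝ)) (g := D2 S)
            (tls_cS h (tls_KKbox m1)) (by fun_prop)
        have c2 : ContinuousAt (fun x : ℝ => D2 S (x, -dn n)) x :=
          ContinuousAt.comp (f := fun t : ℝ => ((t, -dn n) : ℝ × ℝ)) (g := D2 S)
            (tls_cS h (tls_KKbox m2)) (by fun_prop)
        have c3 : Continuous (fun x : ℝ => phi (x, dn n)) := hphi.continuous.comp (by fun_prop)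
        have c4 : Continuous (fun x : ℝ => phi (x, -dn n)) := hphi.continuous.comp (by fun_prop)
        refine ContinuousAt.continuousWithinAt ?_
        unfold EE
        exact (continuousAt_const.mul ((ck.continuousAt.mul (c4.continuousAt.sub continuousAt_const)).add
          (ck.continuousAt.mul (c3.continuousAt.sub continuousAt_const)))).add
          ((c4.continuousAt.mul c2).sub (c3.continuousAt.mul c1))
      rw [← intervalIntegral.integral_add ((ck.const_mul _).intervalIntegrable _ _) iE]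
      refine intervalIntegral.integral_congr fun x hx => ?_
      obtain ⟨m1, m2⟩ := hmem x hx
      have z1 : ((x, dn n) : ℝ × ℝ) ≠ 0 := fun hz => hd.ne' (congrArg Prod.snd hz)
      have z2 : ((x, -dn n) : ℝ × ℝ) ≠ 0 := fun hz => by
        have := congrArg Prod.snd hz
        simp only [Prod.snd_zero] at this
        linarith
      rw [tls_D2F h (tls_KKbox m1) z1, tls_D2F h (tls_KKbox m2) z2]
      simp only [EE, kk, nsq]
      have : x ^ 2 + dn n ^ 2 ≠ 0 := by positivity
      have e5 : x ^ 2 + (-dn n) ^ 2 = x ^ 2 + dn n ^ 2 := by ring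
      rw [e5]
      field_simp
      ring
    have huniq := tendsto_nhds_unique hl hr
    rw [hT] at huniq
    linarith

end Pool.Agent.AO
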