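import Pool.Agent.Lib.MP_10e52e_an.Defs3

/-! MP_10e52e_an row Ttaylor: T9 -/

namespace Pool.Agent.AO

open MeasureTheory Set Real
open scoped ContDiff

private theorem ttaylor_nsq_nonneg (x : ℝ × ℝ) : 0 ≤ nsq x := by unfold nsq; positivity

private theorem ttaylor_norm_sq_le (x : ℝ × ℝ) : ‖x‖ ^ 2 ≤ nsq x := by
  unfold nsq
  rw [Prod.norm_def]
  rcases le_total ‖x.1‖ ‖x.2‖ with h | h
  · rw [max_eq_right h, Real.norm_eq_abs, sq_abs]; nlinarith [sq_nonneg x.1]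
  · rw [max_eq_left h, Real.norm_eq_abs, sq_abs]; nlinarith [sq_nonneg x.2]

private theorem ttaylor_norm_le {x : ℝ × ℝ} {r : ℝ} (h : nrm x ≤ r) : ‖x‖ ≤ r := by
  refine le_trans ?_ h
  unfold nrm
  exact Real.le_sqrt_of_sq_le (ttaylor_norm_sq_le x)

private theorem ttaylor_smul {x : ℝ × ℝ} {r t : ℝ} (h : nrm x ≤ r) (h0 : 0 ≤ t) (h1 : t ≤ 1) :
    nrm (t • x) ≤ r := by
  have e : nrm (t • x) = t * nrm x := by
    unfold nrm
    have : nsq (t • x) = t ^ 2 * nsq x := by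
      unfold nsq; simp only [Prod.smul_fst, Prod.smul_snd, smul_eq_mul]; ring
    rw [this, Real.sqrt_mul (sq_nonneg t), Real.sqrt_sq h0]
  have h2 : 0 ≤ nrm x := Real.sqrt_nonneg _
  rw [e]
  nlinarith

private theorem ttaylor_cont : Continuous nrm := by
  unfold nrm nsq
  fun_prop

private theorem ttaylor_compact (r : ℝ) : IsCompact {x : ℝ × ℝ | nrm x ≤ r} := by
  refine Metric.isCompact_of_isClosed_isBounded (isClosed_le ttaylor_cont continuous_const) ?_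
  refine (Metric.isBounded_closedBall (x := (0 : ℝ × ℝ)) (r := r)).subset ?_
  intro x hx
  rw [mem_closedBall_zero_iff]
  exact ttaylor_norm_le hx

private theorem ttaylor_step {E : Type*} [NormedAddCommGroup E] [NormedSpace ℝ E]
    {f : ℝ × ℝ → E} {r M : ℝ} {n : ℕ} (hM : 0 ≤ M)
    (hd : ∀ y, nrm y ≤ r → DifferentiableAt ℝ f y)
    (hb : ∀ y, nrm y ≤ r → ‖fderiv ℝ f y‖ ≤ M * ‖y‖ ^ n) (h0 : f 0 = 0) :
    ∀ x, nrm x ≤ r → ‖f x‖ ≤ M * ‖x‖ ^ (n + 1) := by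
  intro x hx
  have hseg : ∀ y ∈ segment ℝ (0 : ℝ × ℝ) x, nrm y ≤ r ∧ ‖y‖ ≤ ‖x‖ := by
    intro y hy
    rw [segment_eq_image] at hy
    obtain ⟨t, ht, rfl⟩ := hy
    simp only [smul_zero, zero_add]
    refine ⟨ttaylor_smul hx ht.1 ht.2, ?_⟩
    rw [norm_smul, Real.norm_eq_abs, abs_of_nonneg ht.1]
    nlinarith [norm_nonneg x, ht.2]
  have h := Convex.norm_image_sub_le_of_norm_fderiv_le (𝕜 := ℝ) (f := f)
    (s := segment ℝ (0 : ℝ × ℝ) x) (C := M * ‖x‖ ^ n) (x := 0) (y := x)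
    (fun y hy => hd y (hseg y hy).1)
    (fun y hy => (hb y (hseg y hy).1).trans (by
      have := pow_le_pow_left₀ (norm_nonneg y) (hseg y hy).2 n
      exact mul_le_mul_of_nonneg_left this hM))
    (convex_segment _ _) (left_mem_segment ℝ _ _) (right_mem_segment ℝ _ _)
  rw [h0, sub_zero, sub_zero] at h
  rw [pow_succ, ← mul_assoc]
  exact h

private theorem ttaylor_neg {E : Type*} [NormedAddCommGroup E] [NormedSpace ℝ E]
    (f : ℝ × ℝ → E) (x : ℝ × ℝ) : fderiv ℝ (fun y => f (-y)) x = -fderiv ℝ f (-x) := by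
  have := fderiv_comp_smul (𝕜 := ℝ) (f := f) (x := x) (-1)
  simpa using this

private theorem ttaylor_odd {E : Type*} [NormedAddCommGroup E] [NormedSpace ℝ E]
    {f : ℝ × ℝ → E} (h : ∀ᶠ x in nhds (0 : ℝ × ℝ), f (-x) = f x) :
    ∀ᶠ x in nhds (0 : ℝ × ℝ), fderiv ℝ f (-x) = -fderiv ℝ f x := by
  filter_upwards [h.eventually_nhds] with x hx
  have h1 : fderiv ℝ (fun y => f (-y)) x = fderiv ℝ f x := Filter.EventuallyEq.fderiv_eq hx
  have h2 : fderiv ℝ (fun y => f (-y)) x = -fderiv ℝ f (-x) := ttaylor_neg f x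
  rw [← h1, h2, neg_neg]

private theorem ttaylor_even {E : Type*} [NormedAddCommGroup E] [NormedSpace ℝ E]
    {f : ℝ × ℝ → E} (h : ∀ᶠ x in nhds (0 : ℝ × ℝ), f (-x) = -f x) :
    ∀ᶠ x in nhds (0 : ℝ × ℝ), fderiv ℝ f (-x) = fderiv ℝ f x := by
  filter_upwards [h.eventually_nhds] with x hx
  have h1 : fderiv ℝ (fun y => f (-y)) x = fderiv ℝ (fun y => -f y) x :=
    Filter.EventuallyEq.fderiv_eq hx
  have h2 : fderiv ℝ (fun y => f (-y)) x = -fderiv ℝ f (-x) := ttaylor_neg f x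
  have h3 : fderiv ℝ (fun y => -f y) x = -fderiv ℝ f x := fderiv_fun_neg
  rw [h2, h3] at h1
  exact neg_injective h1

private theorem ttaylor_zero {E : Type*} [NormedAddCommGroup E] [NormedSpace ℝ E]
    {f : ℝ × ℝ → E} (h : ∀ᶠ x in nhds (0 : ℝ × ℝ), f (-x) = -f x) : f 0 = 0 := by
  have := h.self_of_nhds
  rw [neg_zero] at this
  have h2 : (2 : ℝ) • f 0 = 0 := by
    rw [two_smul]
    nth_rewrite 1 [this]
    rw [neg_add_cancel]
  exact (smul_eq_zero.1 h2).resolve_left two_ne_zero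

private theorem ttaylor_bd {F : Type*} [NormedAddCommGroup F] {g : ℝ × ℝ → F} {r : ℝ}
    (hg : ContinuousOn g {x | nrm x ≤ r}) :
    ∃ M : ℝ, 0 ≤ M ∧ ∀ x, nrm x ≤ r → ‖g x‖ ≤ M := by
  obtain ⟨M, hM⟩ := (ttaylor_compact r).exists_bound_of_continuousOn hg
  exact ⟨max M 0, le_max_right _ _, fun x hx => (hM x hx).trans (le_max_left _ _)⟩

private theorem ttaylor_two {E : Type*} [NormedAddCommGroup E] [NormedSpace ℝ E]
    {f : ℝ × ℝ → E} {r : ℝ} {V : Set (ℝ × ℝ)} (hV : IsOpen V)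
    (hsub : {x | nrm x ≤ r} ⊆ V) (hf : ContDiffOn ℝ 2 f V)
    (he : ∀ᶠ x in nhds (0 : ℝ × ℝ), f (-x) = f x) (h0 : f 0 = 0) :
    ∃ M : ℝ, 0 ≤ M ∧ ∀ x, nrm x ≤ r → ‖f x‖ ≤ M * ‖x‖ ^ 2 := by
  have c3 : ContDiffOn ℝ 1 (fderiv ℝ f) V := hf.fderiv_of_isOpen hV (by norm_num)
  have c4 : ContDiffOn ℝ 0 (fderiv ℝ (fderiv ℝ f)) V := c3.fderiv_of_isOpen hV (by norm_num)
  have hnb : ∀ y, nrm y ≤ r → V ∈ nhds y := fun y hy => hV.mem_nhds (hsub hy)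
  have d2 : ∀ y, nrm y ≤ r → DifferentiableAt ℝ f y := fun y hy =>
    (hf.contDiffAt (hnb y hy)).differentiableAt (by norm_num)
  have d3 : ∀ y, nrm y ≤ r → DifferentiableAt ℝ (fderiv ℝ f) y := fun y hy =>
    (c3.contDiffAt (hnb y hy)).differentiableAt (by norm_num)
  have hc4 : ContinuousOn (fderiv ℝ (fderiv ℝ f)) {x | nrm x ≤ r} := c4.continuousOn.mono hsub
  obtain ⟨M, hM0, hM⟩ := ttaylor_bd (F := (ℝ × ℝ) →L[ℝ] (ℝ × ℝ) →L[ℝ] E) hc4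
  have z3 := ttaylor_zero (ttaylor_odd he)
  have s3 := ttaylor_step (n := 0) hM0 d3 (fun y hy => by simpa using hM y hy) z3
  have s2 := ttaylor_step hM0 d2 s3 h0
  exact ⟨M, hM0, s2⟩

/-- T9: even Taylor estimate -/
theorem taylor4 {P : ℝ × ℝ → ℝ} {r : ℝ} {V : Set (ℝ × ℝ)} (hV : IsOpen V)
    (hsub : {x | nrm x ≤ r} ⊆ V) (hP : ContDiffOn ℝ 4 P V) (he : ∀ x, nrm x ≤ r → P (-x) = P x)
    (h0 : P 0 = 0) (h11 : D1 (D1 P) 0 = 0) (h12 : D1 (D2 P) 0 = 0) (h22 : D2 (D2 P) 0 = 0) :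
    ∃ C : ℝ, 0 < C ∧ ∀ x, nrm x ≤ r → |P x| ≤ C * nsq x ^ 2 := by
  rcases le_or_gt r 0 with hr | hr
  · refine ⟨1, one_pos, fun x hx => ?_⟩
    have h1 : ‖x‖ ≤ 0 := (ttaylor_norm_le hx).trans hr
    have h2 : x = 0 := norm_le_zero_iff.1 h1
    rw [h2, h0, abs_zero]
    positivity
  -- the derivatives
  have c1 : ContDiffOn ℝ 3 (fderiv ℝ P) V := hP.fderiv_of_isOpen hV (by norm_num)
  have c2 : ContDiffOn ℝ 2 (fderiv ℝ (fderiv ℝ P)) V := c1.fderiv_of_isOpen hV (by norm_num)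
  have hnb : ∀ y, nrm y ≤ r → V ∈ nhds y := fun y hy => hV.mem_nhds (hsub hy)
  have d0 : ∀ y, nrm y ≤ r → DifferentiableAt ℝ P y := fun y hy =>
    (hP.contDiffAt (hnb y hy)).differentiableAt (by norm_num)
  have d1 : ∀ y, nrm y ≤ r → DifferentiableAt ℝ (fderiv ℝ P) y := fun y hy =>
    (c1.contDiffAt (hnb y hy)).differentiableAt (by norm_num)
  -- evenness near zero
  have hnz : nrm (0 : ℝ × ℝ) = 0 := by simp [nrm, nsq]
  have hev : ∀ᶠ x in nhds (0 : ℝ × ℝ), nrm x ≤ r := by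
    have : ∀ᶠ x in nhds (0 : ℝ × ℝ), nrm x < r := by
      refine ttaylor_cont.continuousAt.eventually_lt continuousAt_const ?_
      rw [hnz]; exact hr
    filter_upwards [this] with x hx using hx.le
  have e0 : ∀ᶠ x in nhds (0 : ℝ × ℝ), P (-x) = P x := by
    filter_upwards [hev] with x hx using he x hx
  have e1 := ttaylor_odd e0
  have e2 := ttaylor_even e1
  have z1 := ttaylor_zero e1
  have hr0 : nrm (0 : ℝ × ℝ) ≤ r := by rw [hnz]; exact hr.le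
  -- the second derivative at zero
  have ev : ∀ v w : ℝ × ℝ, fderiv ℝ (fun x => fderiv ℝ P x w) 0 v =
      fderiv ℝ (fderiv ℝ P) 0 v w := by
    intro v w
    have h1 : HasFDerivAt (fderiv ℝ P) (fderiv ℝ (fderiv ℝ P) 0) 0 := (d1 0 hr0).hasFDerivAt
    have h2 := h1.clm_apply (hasFDerivAt_const w (0 : ℝ × ℝ))
    rw [h2.fderiv]
    simp
  have b11 : fderiv ℝ (fderiv ℝ P) 0 (1, 0) (1, 0) = 0 := by rw [← ev]; exact h11
  have b12 : fderiv ℝ (fderiv ℝ P) 0 (1, 0) (0, 1) = 0 := by rw [← ev]; exact h12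
  have b22 : fderiv ℝ (fderiv ℝ P) 0 (0, 1) (0, 1) = 0 := by rw [← ev]; exact h22
  have b21 : fderiv ℝ (fderiv ℝ P) 0 (0, 1) (1, 0) = 0 := by
    have hs : IsSymmSndFDerivAt ℝ P 0 :=
      (hP.contDiffAt (hnb 0 hr0)).isSymmSndFDerivAt (by
        rw [minSmoothness_of_isRCLikeNormedField]; norm_num)
    rw [hs (0, 1) (1, 0)]
    exact b12
  have key : ∀ a b c d : ℝ, fderiv ℝ (fderiv ℝ P) 0
      (a • ((1 : ℝ), (0 : ℝ)) + b • ((0 : ℝ), (1 : ℝ)))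
      (c • ((1 : ℝ), (0 : ℝ)) + d • ((0 : ℝ), (1 : ℝ))) = 0 := by
    intro a b c d
    have e1 : fderiv ℝ (fderiv ℝ P) 0 (a • ((1 : ℝ), (0 : ℝ)) + b • ((0 : ℝ), (1 : ℝ))) =
        a • fderiv ℝ (fderiv ℝ P) 0 (1, 0) + b • fderiv ℝ (fderiv ℝ P) 0 (0, 1) := by
      rw [map_add, map_smul, map_smul]
    have e2 : ∀ B : ℝ × ℝ →L[ℝ] ℝ, B (c • ((1 : ℝ), (0 : ℝ)) + d • ((0 : ℝ), (1 : ℝ))) =
        c • B (1, 0) + d • B (0, 1) := by
      intro B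
      rw [map_add, map_smul, map_smul]
    rw [e1, e2]
    show c • (a • fderiv ℝ (fderiv ℝ P) 0 (1, 0) (1, 0) +
      b • fderiv ℝ (fderiv ℝ P) 0 (0, 1) (1, 0)) +
      d • (a • fderiv ℝ (fderiv ℝ P) 0 (1, 0) (0, 1) +
        b • fderiv ℝ (fderiv ℝ P) 0 (0, 1) (0, 1)) = 0
    rw [b11, b12, b21, b22]
    simp
  have z2 : fderiv ℝ (fderiv ℝ P) 0 = 0 := by
    refine ContinuousLinearMap.ext fun v => ContinuousLinearMap.ext fun w => ?_
    have hd : ∀ u : ℝ × ℝ, u.1 • ((1 : ℝ), (0 : ℝ)) + u.2 • ((0 : ℝ), (1 : ℝ)) = u := by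
      intro u
      ext <;> simp
    have := key v.1 v.2 w.1 w.2
    rw [hd, hd] at this
    rw [this]
    rfl
  obtain ⟨M, hM0, s2⟩ := ttaylor_two hV hsub c2 e2 z2
  have s1 := ttaylor_step hM0 d1 s2 z1
  have s0 := ttaylor_step hM0 d0 s1 h0
  refine ⟨M + 1, by linarith, fun x hx => ?_⟩
  have k1 := s0 x hx
  rw [Real.norm_eq_abs] at k1
  refine k1.trans ?_
  have k2 : ‖x‖ ^ (2 + 1 + 1) ≤ nsq x ^ 2 := by
    have := pow_le_pow_left₀ (sq_nonneg ‖x‖) (ttaylor_norm_sq_le x) 2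
    calc ‖x‖ ^ (2 + 1 + 1) = (‖x‖ ^ 2) ^ 2 := by ring
      _ ≤ nsq x ^ 2 := this
  have k3 : 0 ≤ ‖x‖ ^ (2 + 1 + 1) := by positivity
  nlinarith

end Pool.Agent.AO
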