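import Pool.Agent.Lib.MP_10e52e_an.Defs3
import Pool.Agent.Lib.MP_10e52e_an.Tmax
import Pool.Agent.Lib.MP_10e52e_an.Tint
import Pool.Agent.Lib.MP_10e52e_an.Tgrad
import Pool.Agent.Lib.MP_10e52e_an.Tperz
import Pool.Agent.Lib.MP_10e52e_an.Teta
import Pool.Agent.Lib.MP_10e52e_an.Tlsint
import Pool.Agent.Lib.MP_10e52e_an.Tlsibp
import Pool.Agent.Lib.MP_10e52e_an.Ttaylor
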