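import Pool.Agent.Lib.MP_10e52e_an.Defs4
import Pool.Agent.Lib.MP_10e52e_an.Tools
import Pool.Agent.Lib.MP_10e52e_an.Symm

/-! MP_10e52e_an row Flip: bounds of periodic C^1 functions -/

namespace Pool.Agent.AO

open MeasureTheory Set Real
open scoped ContDiff

theorem flip_cell (z : ℝ × ℝ) : ∃ g ∈ Lat, z + g ∈ Icc (-1/2 : ℝ) (1/2) ×ˢ Icc (-1/2 : ℝ) (1/2) := by
  obtain ⟨m, hm, -⟩ := existsUnique_add_zsmul_mem_Ioc (zero_lt_one : (0:ℝ) < 1) z.1 (-1/2)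
  obtain ⟨n, hn, -⟩ := existsUnique_add_zsmul_mem_Ioc (zero_lt_one : (0:ℝ) < 1) z.2 (-1/2)
  simp only [zsmul_eq_mul, mul_one, mem_Ioc] at hm hn
  refine ⟨((m:ℝ), (n:ℝ)), ⟨m, n, rfl⟩, ?_⟩
  simp only [mem_prod, mem_Icc, Prod.fst_add, Prod.snd_add]
  constructor <;> constructor <;> linarith [hm.1, hm.2, hn.1, hn.2]

theorem flip_bounded {f : ℝ × ℝ → ℝ} (hf : Per f) (hc : Continuous f) : ∃ C, ∀ z, |f z| ≤ C := by
  have h : IsCompact (Icc (-1 / 2 : ℝ) (1 / 2) ×ˢ Icc (-1 / 2 : ℝ) (1 / 2)) := isCompact_Icc.prod isCompact_Icc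
  obtain ⟨C, hC⟩ := h.exists_bound_of_continuousOn hc.continuousOn
  refine ⟨C, fun z => ?_⟩
  obtain ⟨g, hg, hz⟩ := flip_cell z
  rw [← hf.add_lat hg z]
  exact hC _ hz

theorem flip_abs_le (a b : ℝ) : |a| ≤ nrm (a, b) ∧ |b| ≤ nrm (a, b) := by
  constructor
  · refine Real.abs_le_sqrt ?_
    simp only [nsq]
    nlinarith [sq_nonneg b]
  · refine Real.abs_le_sqrt ?_
    simp only [nsq]
    nlinarith [sq_nonneg a]

/-- smooth periodic functions are bounded and Lipschitz for the torus distance -/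
theorem per_lip {X : ℝ × ℝ → ℝ} (hX : ContDiff ℝ 1 X) (hp : Per X) : ∃ C : ℝ, 0 < C ∧
    (∀ x, |X x| ≤ C) ∧ (∀ x, |D1 X x| ≤ C ∧ |D2 X x| ≤ C) ∧
    ∀ x y, |X x - X y| ≤ C * tn (x - y) := by
  obtain ⟨M, hM⟩ := flip_bounded hp hX.continuous
  obtain ⟨M1, hM1⟩ := flip_bounded hp.D1 (continuous_D1 hX)
  obtain ⟨M2, hM2⟩ := flip_bounded hp.D2 (continuous_D2 hX)
  have p0 : 0 ≤ M := (abs_nonneg _).trans (hM 0)
  have p1 : 0 ≤ M1 := (abs_nonneg _).trans (hM1 0)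
  have p2 : 0 ≤ M2 := (abs_nonneg _).trans (hM2 0)
  refine ⟨M + M1 + M2 + 1, by linarith, fun x => (hM x).trans (by linarith),
    fun x => ⟨(hM1 x).trans (by linarith), (hM2 x).trans (by linarith)⟩, fun x y => ?_⟩
  have hfd : ∀ z, ‖fderiv ℝ X z‖ ≤ M1 + M2 := by
    intro z
    refine ContinuousLinearMap.opNorm_le_bound _ (by linarith) fun v => ?_
    rw [fderiv_eq X v z, Real.norm_eq_abs]
    have h1 : |v.1| ≤ ‖v‖ := norm_fst_le v
    have h2 : |v.2| ≤ ‖v‖ := norm_snd_le v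
    have h3 : |v.1 * D1 X z| ≤ ‖v‖ * M1 := by
      rw [abs_mul]
      exact mul_le_mul h1 (hM1 z) (abs_nonneg _) (norm_nonneg _)
    have h4 : |v.2 * D2 X z| ≤ ‖v‖ * M2 := by
      rw [abs_mul]
      exact mul_le_mul h2 (hM2 z) (abs_nonneg _) (norm_nonneg _)
    have h5 := abs_add_le (v.1 * D1 X z) (v.2 * D2 X z)
    nlinarith
  set r : ℝ × ℝ := ((round (x - y).1 : ℤ), (round (x - y).2 : ℤ)) with hr
  have hrL : r ∈ Lat := ⟨_, _, rfl⟩
  have hsub : X x = X (x - r) := (hp.sub_lat hrL x).symm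
  have hmv := Convex.norm_image_sub_le_of_norm_fderiv_le (𝕜 := ℝ) (f := X) (C := M1 + M2) (s := univ)
    (x := y) (y := x - r) (fun z _ => hX.differentiable one_ne_zero z) (fun z _ => hfd z) convex_univ
    (mem_univ _) (mem_univ _)
  rw [← hsub, Real.norm_eq_abs] at hmv
  have hn : ‖x - r - y‖ ≤ tn (x - y) := by
    have h1 := flip_abs_le ((x - y).1 - round (x - y).1) ((x - y).2 - round (x - y).2)
    rw [Prod.norm_def, tn]
    have e1 : (x - r - y).1 = (x - y).1 - round (x - y).1 := by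
      simp only [hr, Prod.fst_sub]
      ring
    have e2 : (x - r - y).2 = (x - y).2 - round (x - y).2 := by
      simp only [hr, Prod.snd_sub]
      ring
    rw [e1, e2]
    exact max_le h1.1 h1.2
  have h6 : 0 ≤ ‖x - r - y‖ := norm_nonneg _
  calc |X x - X y| ≤ (M1 + M2) * ‖x - r - y‖ := hmv
    _ ≤ (M + M1 + M2 + 1) * tn (x - y) := mul_le_mul (by linarith) hn h6 (by linarith)

end Pool.Agent.AO
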