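import Pool.Agent.Lib.MP_10e52e_an.Tools
import Pool.Agent.Lib.MP_10e52e_an.Symm

/-! MP_10e52e_an row Gls: Gf is LogSing, Lap G = 1 off Lat -/

namespace Pool.Agent.AO

open MeasureTheory Set Real Filter Topology
open scoped ContDiff

theorem gls_nsq_pos {x : ℝ × ℝ} (hx : x ≠ 0) : 0 < nsq x := by
  unfold nsq
  by_contra h
  push Not at h
  have h1 : x.1 = 0 := by nlinarith [sq_nonneg x.1, sq_nonneg x.2]
  have h2 : x.2 = 0 := by nlinarith [sq_nonneg x.1, sq_nonneg x.2]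
  exact hx (Prod.ext h1 h2)

theorem gls_two_le : (2 : WithTop ℕ∞) ≤ ∞ :=
  WithTop.coe_le_coe.2 (le_top : (2 : ℕ∞) ≤ ⊤)

theorem gls_nsq_smooth : ContDiff ℝ ∞ nsq := by
  unfold nsq
  fun_prop

theorem gls_D1_nsq (x : ℝ × ℝ) : D1 nsq x = 2 * x.1 := by
  have h1 : D1 (fun y : ℝ × ℝ => y.1 ^ 2) x = 2 * x.1 := by
    have := D1_comp_fst (x := x) (φ := fun t => t ^ 2) (φ' := 2 * x.1) (by
      simpa using hasDerivAt_pow 2 x.1)
    exact this
  have h2 : D1 (fun y : ℝ × ℝ => y.2 ^ 2) x = 0 := by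
    have := D1_comp_snd (x := x) (φ := fun t => t ^ 2) (φ' := 2 * x.2) (by
      simpa using hasDerivAt_pow 2 x.2)
    exact this
  have h3 : D1 nsq x = D1 (fun y : ℝ × ℝ => y.1 ^ 2) x + D1 (fun y : ℝ × ℝ => y.2 ^ 2) x :=
    D1_add (by fun_prop) (by fun_prop)
  rw [h3, h1, h2, add_zero]

theorem gls_D2_nsq (x : ℝ × ℝ) : D2 nsq x = 2 * x.2 := by
  have h1 : D2 (fun y : ℝ × ℝ => y.1 ^ 2) x = 0 := by
    have := D2_comp_fst (x := x) (φ := fun t => t ^ 2) (φ' := 2 * x.1) (by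
      simpa using hasDerivAt_pow 2 x.1)
    exact this
  have h2 : D2 (fun y : ℝ × ℝ => y.2 ^ 2) x = 2 * x.2 := by
    have := D2_comp_snd (x := x) (φ := fun t => t ^ 2) (φ' := 2 * x.2) (by
      simpa using hasDerivAt_pow 2 x.2)
    exact this
  have h3 : D2 nsq x = D2 (fun y : ℝ × ℝ => y.1 ^ 2) x + D2 (fun y : ℝ × ℝ => y.2 ^ 2) x :=
    D2_add (by fun_prop) (by fun_prop)
  rw [h3, h1, h2, zero_add]

theorem gls_Lap_nsq (x : ℝ × ℝ) : Lap nsq x = 4 := by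
  have h1 : D1 nsq = fun y => 2 * y.1 := funext gls_D1_nsq
  have h2 : D2 nsq = fun y => 2 * y.2 := funext gls_D2_nsq
  unfold Lap
  rw [h1, h2, D1_const_mul (by fun_prop), D2_const_mul (by fun_prop), D1_fst, D2_snd]
  norm_num

theorem gls_Lap_log_nsq {x : ℝ × ℝ} (hx : x ≠ 0) : Lap (fun y => Real.log (nsq y)) x = 0 := by
  have h0 := gls_nsq_pos hx
  rw [Lap_log (gls_nsq_smooth.contDiffAt.of_le gls_two_le) h0.ne', gls_Lap_nsq,
    gls_D1_nsq, gls_D2_nsq]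
  have h1 : nsq x = x.1 ^ 2 + x.2 ^ 2 := rfl
  field_simp
  rw [h1]
  ring

theorem gls_isOpen_Box (a : ℝ) : IsOpen (Box a) := by
  unfold Box
  exact (isOpen_lt (continuous_fst.abs) continuous_const).inter
    (isOpen_lt (continuous_snd.abs) continuous_const)

theorem gls_eq {K R : ℝ × ℝ → ℝ} (hG : IsGreen K R) {x : ℝ × ℝ} (hx : x ∈ Box 1) (h0 : x ≠ 0) :
    Gf K x = -(1 / (4 * π)) * Real.log (nsq x) + R x := by
  unfold Gf
  rw [hG.fac x hx, Real.log_mul (gls_nsq_pos h0).ne' (Real.exp_pos _).ne', Real.log_exp]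
  field_simp
  ring

theorem gls_lap_near {K R : ℝ × ℝ → ℝ} (hG : IsGreen K R) {x : ℝ × ℝ} (hx : x ∈ Box 1)
    (h0 : x ≠ 0) : Lap (Gf K) x = 1 := by
  have hev : Gf K =ᶠ[𝓝 x] fun y => -(1 / (4 * π)) * Real.log (nsq y) + R y := by
    filter_upwards [(gls_isOpen_Box 1).mem_nhds hx, isOpen_ne.mem_nhds h0] with y hy hy0
      using gls_eq hG hy hy0
  have hRs : ContDiffAt ℝ 2 R x :=
    (hG.smoothR.contDiffAt ((gls_isOpen_Box 1).mem_nhds hx)).of_le gls_two_le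
  have hls : ContDiffAt ℝ 2 (fun y => Real.log (nsq y)) x :=
    (gls_nsq_smooth.contDiffAt.of_le gls_two_le).log (gls_nsq_pos h0).ne'
  rw [Lap_congr hev, Lap_add (contDiffAt_const.mul hls) hRs, Lap_const_mul hls,
    gls_Lap_log_nsq h0, hG.lapR x hx]
  ring

/-- `G` is `LogSing` with `a = -1/(4 pi)`, `S = R`, and `Lap G = 1` off the lattice -/
theorem green_logsing {K R : ℝ × ℝ → ℝ} (hG : IsGreen K R) :
    LogSing (Gf K) R (-(1 / (4 * π))) ∧ ∀ x, x ∉ Lat → Lap (Gf K) x = 1 := by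
  have hper : Per (Gf K) := hG.per.log.const_mul _
  refine ⟨⟨hper, ?_, hG.smoothR, fun x hx h0 => gls_eq hG hx h0⟩, ?_⟩
  · refine contDiffOn_const.mul ?_
    exact hG.smoothK.contDiffOn.log fun x hx h0 => hx ((hG.zero_iff x).1 h0)
  · intro x hx
    have ha : (((round x.1 : ℤ) : ℝ), ((round x.2 : ℤ) : ℝ)) ∈ Lat := ⟨_, _, rfl⟩
    rw [← hper.Lap.sub_lat ha x]
    apply gls_lap_near hG
    · have h1 := abs_sub_round x.1
      have h2 := abs_sub_round x.2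
      exact ⟨lt_of_le_of_lt h1 (by norm_num), lt_of_le_of_lt h2 (by norm_num)⟩
    · intro h0
      exact hx ⟨_, _, sub_eq_zero.1 h0⟩

end Pool.Agent.AO
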