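import Pool.Agent.Lib.MP_10e52e_an.Tools
import Pool.Agent.Lib.MP_10e52e_an.Gls

/-! MP_10e52e_an row Gnear: (G2) near 0 and symmetries of R -/

namespace Pool.Agent.AO

open MeasureTheory Set Real
open scoped ContDiff

lemma gnear_nsq_pos {x : ℝ × ℝ} (hx : x ≠ 0) : 0 < nsq x := by
  unfold nsq
  rcases eq_or_ne x.1 0 with h1 | h1
  · have h2 : x.2 ≠ 0 := by
      intro h2
      exact hx (Prod.ext h1 h2)
    positivity
  · positivity

lemma gnear_box_open : IsOpen (Box 1) := by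
  have h1 : IsOpen {x : ℝ × ℝ | |x.1| < 1} := isOpen_lt (by fun_prop) continuous_const
  have h2 : IsOpen {x : ℝ × ℝ | |x.2| < 1} := isOpen_lt (by fun_prop) continuous_const
  exact h1.inter h2

lemma gnear_formula {K R : ℝ × ℝ → ℝ} (hG : IsGreen K R) {x : ℝ × ℝ} (hx : x ∈ Box 1)
    (h0 : x ≠ 0) : Gf K x = -(1 / (4 * π)) * Real.log (nsq x) + R x := by
  have hn := gnear_nsq_pos h0
  unfold Gf
  rw [hG.fac x hx, Real.log_mul hn.ne' (Real.exp_pos _).ne', Real.log_exp]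
  have hpi : π ≠ 0 := Real.pi_ne_zero
  field_simp
  ring

lemma gnear_hasFDerivAt_nsq (x : ℝ × ℝ) : HasFDerivAt nsq
    ((2 * x.1) • ContinuousLinearMap.fst ℝ ℝ ℝ + (2 * x.2) • ContinuousLinearMap.snd ℝ ℝ ℝ) x := by
  have h1 : HasFDerivAt (fun y : ℝ × ℝ => y.1) (ContinuousLinearMap.fst ℝ ℝ ℝ) x := hasFDerivAt_fst
  have h2 : HasFDerivAt (fun y : ℝ × ℝ => y.2) (ContinuousLinearMap.snd ℝ ℝ ℝ) x := hasFDerivAt_snd
  have h := (h1.pow 2).add (h2.pow 2)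
  refine h.congr_fderiv ?_
  ext <;> simp

/-- (G2) near 0 -/
theorem green_near {K R : ℝ × ℝ → ℝ} (hG : IsGreen K R) : ∀ x ∈ Box 1, x ≠ 0 →
    Gf K x = -(1 / (4 * π)) * Real.log (nsq x) + R x ∧
    D1 (Gf K) x = -(1 / (2 * π)) * (x.1 / nsq x) + D1 R x ∧
    D2 (Gf K) x = -(1 / (2 * π)) * (x.2 / nsq x) + D2 R x := by
  intro x hx h0
  have hn := gnear_nsq_pos h0
  have hnhds : Box 1 ∩ {0}ᶜ ∈ nhds x :=
    (gnear_box_open.inter isOpen_compl_singleton).mem_nhds ⟨hx, h0⟩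
  have hev : Gf K =ᶠ[nhds x] fun y => -(1 / (4 * π)) * Real.log (nsq y) + R y := by
    filter_upwards [hnhds] with y hy
    exact gnear_formula hG hy.1 hy.2
  have hR : DifferentiableAt ℝ R x :=
    ((hG.smoothR.contDiffAt (gnear_box_open.mem_nhds hx)).differentiableAt (by simp))
  have hlog : HasFDerivAt (fun y => Real.log (nsq y))
      ((nsq x)⁻¹ • ((2 * x.1) • ContinuousLinearMap.fst ℝ ℝ ℝ +
        (2 * x.2) • ContinuousLinearMap.snd ℝ ℝ ℝ)) x :=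
    (gnear_hasFDerivAt_nsq x).log hn.ne'
  have hd := (hlog.const_mul (-(1 / (4 * π)))).add hR.hasFDerivAt
  have hfd : fderiv ℝ (Gf K) x = (-(1 / (4 * π))) • ((nsq x)⁻¹ •
      ((2 * x.1) • ContinuousLinearMap.fst ℝ ℝ ℝ +
        (2 * x.2) • ContinuousLinearMap.snd ℝ ℝ ℝ)) + fderiv ℝ R x := by
    rw [hev.fderiv_eq]
    exact hd.fderiv
  have hpi : π ≠ 0 := Real.pi_ne_zero
  refine ⟨gnear_formula hG hx h0, ?_, ?_⟩
  · unfold D1
    rw [hfd]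
    simp
    field_simp
    ring
  · unfold D2
    rw [hfd]
    simp
    field_simp
    ring

lemma gnear_R_eq {K R : ℝ × ℝ → ℝ} (hG : IsGreen K R) {x y : ℝ × ℝ} (hx : x ∈ Box 1)
    (hy : y ∈ Box 1) (hK : K x = K y) (hn : nsq x = nsq y) (h0 : 0 < nsq y) : R x = R y := by
  rw [hG.fac x hx, hG.fac y hy, hn] at hK
  have h1 := mul_left_cancel₀ h0.ne' hK
  have h2 := Real.exp_injective h1
  have hpi : (4 * π) ≠ 0 := by positivity
  have h3 : -(4 * π) ≠ 0 := neg_ne_zero.2 hpi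
  exact mul_left_cancel₀ h3 h2

/-- symmetries of `R` -/
theorem green_Rsymm {K R : ℝ × ℝ → ℝ} (hG : IsGreen K R) : ∀ x ∈ Box 1,
    R (-x.1, x.2) = R x ∧ R (x.1, -x.2) = R x ∧ R (x.2, x.1) = R x := by
  intro x hx
  rcases eq_or_ne x 0 with rfl | h0
  · have e1 : ((-(0 : ℝ × ℝ).1, (0 : ℝ × ℝ).2) : ℝ × ℝ) = 0 := by simp
    have e2 : (((0 : ℝ × ℝ).1, -(0 : ℝ × ℝ).2) : ℝ × ℝ) = 0 := by simp
    have e3 : (((0 : ℝ × ℝ).2, (0 : ℝ × ℝ).1) : ℝ × ℝ) = 0 := by simp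
    rw [e1, e2, e3]
    exact ⟨rfl, rfl, rfl⟩
  · have hn := gnear_nsq_pos h0
    obtain ⟨hx1, hx2⟩ := hx
    refine ⟨?_, ?_, ?_⟩
    · exact gnear_R_eq hG ⟨by simpa using hx1, hx2⟩ ⟨hx1, hx2⟩ (hG.refl1 x)
        (by unfold nsq; ring) hn
    · exact gnear_R_eq hG ⟨hx1, by simpa using hx2⟩ ⟨hx1, hx2⟩ (hG.refl2 x)
        (by unfold nsq; ring) hn
    · exact gnear_R_eq hG ⟨hx2, hx1⟩ ⟨hx1, hx2⟩ (hG.swap x)
        (by unfold nsq; ring) hn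

end Pool.Agent.AO
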