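import Pool.Agent.Lib.MP_10e52e_an.Tools
import Pool.Agent.Lib.MP_10e52e_an.Gls
import Pool.Agent.Lib.MP_10e52e_an.Gnear
import Pool.Agent.Lib.MP_10e52e_an.Calc
import Pool.Agent.Lib.MP_10e52e_an.Symm

/-! MP_10e52e_an row GR: (G3) -/

namespace Pool.Agent.AO

open MeasureTheory Set Real
open scoped ContDiff

theorem gr_open : IsOpen (Box 1) := by
  have : Box 1 = {x : ℝ × ℝ | |x.1| < 1} ∩ {x : ℝ × ℝ | |x.2| < 1} := by
    ext x; simp [Box]
  rw [this]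
  exact (isOpen_lt (by fun_prop) continuous_const).inter (isOpen_lt (by fun_prop) continuous_const)

theorem gr_abs_le (x : ℝ × ℝ) : |x.1| ≤ nrm x ∧ |x.2| ≤ nrm x := by
  unfold nrm nsq
  constructor
  · exact Real.abs_le_sqrt (by nlinarith [sq_nonneg x.2])
  · exact Real.abs_le_sqrt (by nlinarith [sq_nonneg x.1])

theorem gr_norm_le (x : ℝ × ℝ) : ‖x‖ ≤ nrm x := by
  rw [Prod.norm_def]
  exact max_le (gr_abs_le x).1 (gr_abs_le x).2

theorem gr_ball_sub : Metric.closedBall (0 : ℝ × ℝ) (3 / 4) ⊆ Box 1 := by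
  intro x hx
  rw [mem_closedBall_zero_iff, Prod.norm_def] at hx
  have h1 := (le_max_left _ _).trans hx
  have h2 := (le_max_right _ _).trans hx
  rw [Real.norm_eq_abs] at h1 h2
  exact ⟨by linarith, by linarith⟩

theorem gr_lip {f : ℝ × ℝ → ℝ} (hf : ContDiffOn ℝ 1 f (Box 1)) (h0 : f 0 = 0) :
    ∃ C : ℝ, 0 < C ∧ ∀ x, nrm x ≤ 3 / 4 → |f x| ≤ C * nrm x := by
  have hc : ContinuousOn (fderiv ℝ f) (Metric.closedBall (0 : ℝ × ℝ) (3 / 4)) :=
    (hf.continuousOn_fderiv_of_isOpen gr_open le_rfl).mono gr_ball_sub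
  obtain ⟨M, hM⟩ := (isCompact_closedBall (0 : ℝ × ℝ) (3 / 4)).exists_bound_of_continuousOn hc
  refine ⟨|M| + 1, by positivity, fun x hx => ?_⟩
  have hx1 : x ∈ Metric.closedBall (0 : ℝ × ℝ) (3 / 4) := by
    rw [mem_closedBall_zero_iff]; exact (gr_norm_le x).trans hx
  have h := (convex_closedBall (0 : ℝ × ℝ) (3 / 4)).norm_image_sub_le_of_norm_fderiv_le (𝕜 := ℝ)
    (f := f) (C := |M|) (fun y hy => (hf.contDiffAt (gr_open.mem_nhds (gr_ball_sub hy))).differentiableAt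
      (by norm_num)) (fun y hy => (hM y hy).trans (le_abs_self M))
    (Metric.mem_closedBall_self (by norm_num)) hx1
  rw [h0, sub_zero, sub_zero, Real.norm_eq_abs] at h
  have h2 := gr_norm_le x
  have h3 : 0 ≤ ‖x‖ := norm_nonneg x
  calc |f x| ≤ |M| * ‖x‖ := h
    _ ≤ (|M| + 1) * ‖x‖ := by nlinarith
    _ ≤ (|M| + 1) * nrm x := by gcongr

theorem gr_p {A B : ℝ × ℝ → ℝ} {x : ℝ × ℝ} (hA : DifferentiableAt ℝ A x)
    (hB : DifferentiableAt ℝ B x) :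
    D1 (fun y => y.1 * A y + y.2 * B y - (y.1 ^ 2 + y.2 ^ 2) / 2) x =
      A x + x.1 * D1 A x + x.2 * D1 B x - x.1 ∧
    D2 (fun y => y.1 * A y + y.2 * B y - (y.1 ^ 2 + y.2 ^ 2) / 2) x =
      x.1 * D2 A x + B x + x.2 * D2 B x - x.2 := by
  have f1 : HasFDerivAt (fun y : ℝ × ℝ => y.1) (ContinuousLinearMap.fst ℝ ℝ ℝ) x := hasFDerivAt_fst
  have f2 : HasFDerivAt (fun y : ℝ × ℝ => y.2) (ContinuousLinearMap.snd ℝ ℝ ℝ) x := hasFDerivAt_snd
  have h := ((f1.fun_mul hA.hasFDerivAt).fun_add (f2.fun_mul hB.hasFDerivAt)).fun_sub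
    (((f1.fun_mul f1).fun_add (f2.fun_mul f2)).fun_const_smul (1 / 2 : ℝ))
  have e : (fun y : ℝ × ℝ => y.1 * A y + y.2 * B y - (y.1 ^ 2 + y.2 ^ 2) / 2) =
      fun y => y.1 * A y + y.2 * B y - (1 / 2 : ℝ) • (y.1 * y.1 + y.2 * y.2) := by
    funext y; simp only [smul_eq_mul]; ring
  rw [e]
  unfold D1 D2
  rw [h.fderiv]
  constructor <;> simp <;> ring

theorem gr_q {A B C : ℝ × ℝ → ℝ} {x : ℝ × ℝ} (hA : DifferentiableAt ℝ A x)
    (hB : DifferentiableAt ℝ B x) (hC : DifferentiableAt ℝ C x) :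
    D1 (fun y => A y + y.1 * B y + y.2 * C y - y.1) x =
      D1 A x + B x + x.1 * D1 B x + x.2 * D1 C x - 1 ∧
    D1 (fun y => y.1 * B y + A y + y.2 * C y - y.2) x =
      D1 A x + B x + x.1 * D1 B x + x.2 * D1 C x ∧
    D2 (fun y => y.1 * B y + A y + y.2 * C y - y.2) x =
      D2 A x + x.1 * D2 B x + C x + x.2 * D2 C x - 1 := by
  have f1 : HasFDerivAt (fun y : ℝ × ℝ => y.1) (ContinuousLinearMap.fst ℝ ℝ ℝ) x := hasFDerivAt_fst
  have f2 : HasFDerivAt (fun y : ℝ × ℝ => y.2) (ContinuousLinearMap.snd ℝ ℝ ℝ) x := hasFDerivAt_snd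
  have h := ((hA.hasFDerivAt.fun_add (f1.fun_mul hB.hasFDerivAt)).fun_add
    (f2.fun_mul hC.hasFDerivAt)).fun_sub f1
  have h' := (((f1.fun_mul hB.hasFDerivAt).fun_add hA.hasFDerivAt).fun_add
    (f2.fun_mul hC.hasFDerivAt)).fun_sub f2
  unfold D1 D2
  rw [h.fderiv, h'.fderiv]
  refine ⟨?_, ?_, ?_⟩ <;> simp <;> ring

/-- (G3) and `|grad R| <= C|x|` -/
theorem green_R {K R : ℝ × ℝ → ℝ} (hG : IsGreen K R) : ∃ C : ℝ, 0 < C ∧ ∀ x, nrm x ≤ 3 / 4 →
    |x.1 * D1 R x + x.2 * D2 R x - nsq x / 2| ≤ C * nsq x ^ 2 ∧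
    |D1 R x| ≤ C * nrm x ∧ |D2 R x| ≤ C * nrm x := by
  have hR : ∀ x ∈ Box 1, ContDiffAt ℝ ((4 : ℕ) + 1) R x := fun x hx =>
    (hG.smoothR.contDiffAt (gr_open.mem_nhds hx)).of_le (by
      have h : (((4 : ℕ) : WithTop ℕ∞) + 1) = (((5 : ℕ) : ℕ∞) : WithTop ℕ∞) := by norm_num
      rw [h]
      exact WithTop.coe_le_coe.2 le_top)
  have hs := green_Rsymm hG
  have h0 : (0 : ℝ × ℝ) ∈ Box 1 := by simp [Box]
  have hD1 : ∀ x ∈ Box 1, ContDiffAt ℝ (4 : ℕ) (D1 R) x := fun x hx => contDiffAt_D1 (hR x hx)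
  have hD2 : ∀ x ∈ Box 1, ContDiffAt ℝ (4 : ℕ) (D2 R) x := fun x hx => contDiffAt_D2 (hR x hx)
  have hD11 : ∀ x ∈ Box 1, ContDiffAt ℝ (3 : ℕ) (D1 (D1 R)) x := fun x hx =>
    contDiffAt_D1 (by exact_mod_cast hD1 x hx)
  have hD12 : ∀ x ∈ Box 1, ContDiffAt ℝ (3 : ℕ) (D1 (D2 R)) x := fun x hx =>
    contDiffAt_D1 (by exact_mod_cast hD2 x hx)
  have hD21 : ∀ x ∈ Box 1, ContDiffAt ℝ (3 : ℕ) (D2 (D1 R)) x := fun x hx =>
    contDiffAt_D2 (by exact_mod_cast hD1 x hx)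
  have hD22 : ∀ x ∈ Box 1, ContDiffAt ℝ (3 : ℕ) (D2 (D2 R)) x := fun x hx =>
    contDiffAt_D2 (by exact_mod_cast hD2 x hx)
  have hc2 : ∀ x ∈ Box 1, ContDiffAt ℝ 2 R x := fun x hx => (hR x hx).of_le (by norm_num)
  have nb : ∀ x ∈ Box 1, ∀ᶠ y in nhds x, y ∈ Box 1 := fun x hx => gr_open.mem_nhds hx
  -- symmetries of the first derivatives
  have a1 : ∀ x ∈ Box 1, D1 R (-x.1, x.2) = -D1 R x ∧ D2 R (-x.1, x.2) = D2 R x := by
    intro x hx
    have he : (fun y : ℝ × ℝ => R (-y.1, y.2)) =ᶠ[nhds x] R := by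
      filter_upwards [nb x hx] with y hy using (hs y hy).1
    have k1 := D1_congr he
    have k2 := D2_congr he
    rw [D1_refl1] at k1
    rw [D2_refl1] at k2
    exact ⟨by linarith, k2⟩
  have a2 : ∀ x ∈ Box 1, D1 R (x.1, -x.2) = D1 R x ∧ D2 R (x.1, -x.2) = -D2 R x := by
    intro x hx
    have he : (fun y : ℝ × ℝ => R (y.1, -y.2)) =ᶠ[nhds x] R := by
      filter_upwards [nb x hx] with y hy using (hs y hy).2.1
    have k1 := D1_congr he
    have k2 := D2_congr he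
    rw [D1_refl2] at k1
    rw [D2_refl2] at k2
    exact ⟨k1, by linarith⟩
  have a3 : ∀ x ∈ Box 1, D1 R (x.2, x.1) = D2 R x := by
    intro x hx
    have he : (fun y : ℝ × ℝ => R (y.2, y.1)) =ᶠ[nhds x] R := by
      filter_upwards [nb x hx] with y hy using (hs y hy).2.2
    have k2 := D2_congr he
    rw [D2_swap] at k2
    exact k2
  have z1 : D1 R 0 = 0 := by
    have := (a1 0 h0).1
    simp only [Prod.fst_zero, Prod.snd_zero, neg_zero] at this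
    rw [show ((0 : ℝ), (0 : ℝ)) = (0 : ℝ × ℝ) from rfl] at this
    linarith
  have z2 : D2 R 0 = 0 := by
    have := (a2 0 h0).2
    simp only [Prod.fst_zero, Prod.snd_zero, neg_zero] at this
    rw [show ((0 : ℝ), (0 : ℝ)) = (0 : ℝ × ℝ) from rfl] at this
    linarith
  -- second derivatives at 0
  have b1 : D2 (D2 R) 0 = D1 (D1 R) 0 := by
    have he : (fun y : ℝ × ℝ => D1 R (y.2, y.1)) =ᶠ[nhds 0] D2 R := by
      filter_upwards [nb 0 h0] with y hy using a3 y hy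
    have k := D2_congr he
    rw [D2_swap] at k
    exact k.symm
  have b2 : D1 (D1 R) 0 = 1 / 2 := by
    have := hG.lapR 0 h0
    unfold Lap at this
    linarith
  have b3 : D1 (D2 R) 0 = 0 := by
    have he : (fun y : ℝ × ℝ => D2 R (-y.1, y.2)) =ᶠ[nhds 0] D2 R := by
      filter_upwards [nb 0 h0] with y hy using (a1 y hy).2
    have k := D1_congr he
    rw [D1_refl1] at k
    simp only [Prod.fst_zero, Prod.snd_zero, neg_zero] at k
    rw [show ((0 : ℝ), (0 : ℝ)) = (0 : ℝ × ℝ) from rfl] at k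
    linarith
  have b4 : D2 (D1 R) 0 = 0 := by rw [← D1_D2_comm (hc2 0 h0), b3]
  -- the function
  have d1 : ∀ x ∈ Box 1, DifferentiableAt ℝ (D1 R) x := fun x hx =>
    (hD1 x hx).differentiableAt (by norm_num)
  have d2 : ∀ x ∈ Box 1, DifferentiableAt ℝ (D2 R) x := fun x hx =>
    (hD2 x hx).differentiableAt (by norm_num)
  have d11 : ∀ x ∈ Box 1, DifferentiableAt ℝ (D1 (D1 R)) x := fun x hx =>
    (hD11 x hx).differentiableAt (by norm_num)
  have d12 : ∀ x ∈ Box 1, DifferentiableAt ℝ (D1 (D2 R)) x := fun x hx =>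
    (hD12 x hx).differentiableAt (by norm_num)
  have d21 : ∀ x ∈ Box 1, DifferentiableAt ℝ (D2 (D1 R)) x := fun x hx =>
    (hD21 x hx).differentiableAt (by norm_num)
  have d22 : ∀ x ∈ Box 1, DifferentiableAt ℝ (D2 (D2 R)) x := fun x hx =>
    (hD22 x hx).differentiableAt (by norm_num)
  set P : ℝ × ℝ → ℝ := fun x => x.1 * D1 R x + x.2 * D2 R x - (x.1 ^ 2 + x.2 ^ 2) / 2 with hP
  have c1 : D1 P =ᶠ[nhds 0] fun y => D1 R y + y.1 * D1 (D1 R) y + y.2 * D1 (D2 R) y - y.1 := by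
    filter_upwards [nb 0 h0] with y hy using (gr_p (d1 y hy) (d2 y hy)).1
  have c2 : D2 P =ᶠ[nhds 0] fun y => y.1 * D2 (D1 R) y + D2 R y + y.2 * D2 (D2 R) y - y.2 := by
    filter_upwards [nb 0 h0] with y hy using (gr_p (d1 y hy) (d2 y hy)).2
  have P11 : D1 (D1 P) 0 = 0 := by
    rw [D1_congr c1, (gr_q (d1 0 h0) (d11 0 h0) (d12 0 h0)).1, b2]
    simp only [Prod.fst_zero, Prod.snd_zero, zero_mul]
    norm_num
  have P12 : D1 (D2 P) 0 = 0 := by
    rw [D1_congr c2, (gr_q (d2 0 h0) (d21 0 h0) (d22 0 h0)).2.1, b3, b4]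
    simp only [Prod.fst_zero, Prod.snd_zero, zero_mul]
    norm_num
  have P22 : D2 (D2 P) 0 = 0 := by
    rw [D2_congr c2, (gr_q (d2 0 h0) (d21 0 h0) (d22 0 h0)).2.2, b1, b2]
    simp only [Prod.fst_zero, Prod.snd_zero, zero_mul]
    norm_num
  have hPs : ContDiffOn ℝ 4 P (Box 1) := by
    intro x hx
    refine ContDiffAt.contDiffWithinAt ?_
    exact ((contDiffAt_fst.mul (by exact_mod_cast hD1 x hx)).add
      (contDiffAt_snd.mul (by exact_mod_cast hD2 x hx))).sub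
      (((contDiffAt_fst.pow 2).add (contDiffAt_snd.pow 2)).div_const 2)
  have hsub : {x : ℝ × ℝ | nrm x ≤ 3 / 4} ⊆ Box 1 := fun x hx =>
    gr_ball_sub (by rw [mem_closedBall_zero_iff]; exact (gr_norm_le x).trans hx)
  obtain ⟨C1, hC1, hC1'⟩ := taylor4 (r := 3 / 4) gr_open hsub hPs (fun x hx => by
      have hx1 := hsub hx
      have hx2 : (-x.1, x.2) ∈ Box 1 := by
        have := hx1
        simp only [Box, Set.mem_ofPred_eq, abs_neg] at this ⊢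
        exact this
      have k1 := (a2 _ hx2).1
      have k2 := (a2 _ hx2).2
      have k3 := (a1 x hx1).1
      have k4 := (a1 x hx1).2
      simp only at k1 k2
      show (-x).1 * D1 R (-x) + (-x).2 * D2 R (-x) - ((-x).1 ^ 2 + (-x).2 ^ 2) / 2 =
        x.1 * D1 R x + x.2 * D2 R x - (x.1 ^ 2 + x.2 ^ 2) / 2
      rw [show -x = (-x.1, -x.2) from rfl, k1, k2, k3, k4]
      ring) (by simp [hP]) P11 P12 P22
  obtain ⟨C2, hC2, hC2'⟩ := gr_lip (f := D1 R) (fun x hx =>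
    ((hD1 x hx).of_le (by norm_num)).contDiffWithinAt) z1
  obtain ⟨C3, hC3, hC3'⟩ := gr_lip (f := D2 R) (fun x hx =>
    ((hD2 x hx).of_le (by norm_num)).contDiffWithinAt) z2
  refine ⟨C1 + C2 + C3, by positivity, fun x hx => ⟨?_, ?_, ?_⟩⟩
  · have h1 := hC1' x hx
    have h2 : 0 ≤ nsq x ^ 2 := sq_nonneg _
    have e : x.1 * D1 R x + x.2 * D2 R x - nsq x / 2 = P x := by simp only [hP, nsq]
    rw [e]
    nlinarith
  · have h1 := hC2' x hx
    have h2 : 0 ≤ nrm x := Real.sqrt_nonneg _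
    nlinarith
  · have h1 := hC3' x hx
    have h2 : 0 ≤ nrm x := Real.sqrt_nonneg _
    nlinarith

end Pool.Agent.AO
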