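import Pool.Agent.Lib.MP_10e52e_an.Tools
import Pool.Agent.Lib.MP_10e52e_an.Gls

/-! MP_10e52e_an row Gbd: (G1) -/

namespace Pool.Agent.AO

open MeasureTheory Set Real
open scoped ContDiff

private theorem gbd_per_int1 {f : ℝ × ℝ → ℝ} (hf : Per f) (x y : ℝ) (n : ℤ) :
    f (x + n, y) = f (x, y) := by
  have h : Function.Periodic (fun t => f (t, y)) 1 := fun t => (hf (t, y)).1
  have := (h.int_mul n) x
  simpa using this

private theorem gbd_per_int2 {f : ℝ × ℝ → ℝ} (hf : Per f) (x y : ℝ) (n : ℤ) :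
    f (x, y + n) = f (x, y) := by
  have h : Function.Periodic (fun t => f (x, t)) 1 := fun t => (hf (x, t)).2
  have := (h.int_mul n) y
  simpa using this

private theorem gbd_red (t : ℝ) : ∃ n : ℤ, t + n ∈ Ioc (-1 / 2 : ℝ) (1 / 2) ∧
    (t + n) ^ 2 ≤ t ^ 2 := by
  refine ⟨-⌈t - 1 / 2⌉, ?_, ?_⟩
  · have h1 := Int.le_ceil (t - 1 / 2)
    have h2 := Int.ceil_lt_add_one (t - 1 / 2)
    push_cast
    constructor <;> linarith
  · have h1 := Int.le_ceil (t - 1 / 2)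
    have h2 := Int.ceil_lt_add_one (t - 1 / 2)
    push_cast
    rcases lt_trichotomy (⌈t - 1 / 2⌉) 0 with h | h | h
    · have h3 : (⌈t - 1 / 2⌉ : ℝ) ≤ -1 := by exact_mod_cast Int.le_sub_one_of_lt h
      nlinarith
    · rw [h]; simp
    · have h3 : (1 : ℝ) ≤ (⌈t - 1 / 2⌉ : ℝ) := by exact_mod_cast h
      nlinarith

private theorem gbd_reduce {K : ℝ × ℝ → ℝ} (hp : Per K) (x : ℝ × ℝ) :
    ∃ y ∈ Q, K y = K x ∧ D1 K y = D1 K x ∧ D2 K y = D2 K x ∧ nsq y ≤ nsq x := by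
  obtain ⟨n, hn, hn'⟩ := gbd_red x.1
  obtain ⟨m, hm, hm'⟩ := gbd_red x.2
  have hshift : ∀ z : ℝ × ℝ, K (z + ((n : ℝ), (m : ℝ))) = K z := by
    rintro ⟨a, b⟩
    change K (a + n, b + m) = K (a, b)
    rw [gbd_per_int1 hp, gbd_per_int2 hp]
  have hfd : fderiv ℝ K (x + ((n : ℝ), (m : ℝ))) = fderiv ℝ K x := by
    rw [← fderiv_comp_add_right]
    congr 1
    funext z
    exact hshift z
  refine ⟨x + ((n : ℝ), (m : ℝ)), ⟨hn, hm⟩, hshift x, ?_, ?_, ?_⟩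
  · rw [D1, D1, hfd]
  · rw [D2, D2, hfd]
  · change (x.1 + n) ^ 2 + (x.2 + m) ^ 2 ≤ x.1 ^ 2 + x.2 ^ 2
    linarith

private theorem gbd_box_open : IsOpen (Box 1) := by
  have h1 : IsOpen {x : ℝ × ℝ | |x.1| < 1} := isOpen_lt (by fun_prop) (by fun_prop)
  have h2 : IsOpen {x : ℝ × ℝ | |x.2| < 1} := isOpen_lt (by fun_prop) (by fun_prop)
  exact h1.inter h2

private def gbd_S : Set (ℝ × ℝ) := Icc (-1 / 2 : ℝ) (1 / 2) ×ˢ Icc (-1 / 2 : ℝ) (1 / 2)

private theorem gbd_S_box : gbd_S ⊆ Box 1 := by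
  rintro x ⟨h1, h2⟩
  refine ⟨?_, ?_⟩
  · rw [abs_lt]; constructor <;> linarith [h1.1, h1.2]
  · rw [abs_lt]; constructor <;> linarith [h2.1, h2.2]

private theorem gbd_Q_S : Q ⊆ gbd_S := fun _ hx => ⟨⟨hx.1.1.le, hx.1.2⟩, ⟨hx.2.1.le, hx.2.2⟩⟩

private theorem gbd_bound {f : ℝ × ℝ → ℝ} (hf : ContinuousOn f (Box 1)) :
    ∃ M : ℝ, 0 ≤ M ∧ ∀ x ∈ gbd_S, |f x| ≤ M := by
  have hc : IsCompact gbd_S := isCompact_Icc.prod isCompact_Icc
  obtain ⟨M, hM⟩ := hc.exists_bound_of_continuousOn (hf.mono gbd_S_box)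
  refine ⟨max M 0, le_max_right _ _, fun x hx => ?_⟩
  exact le_trans (by simpa using hM x hx) (le_max_left _ _)

private theorem gbd_nsq_fderiv (x : ℝ × ℝ) : HasFDerivAt nsq
    ((2 * x.1) • ContinuousLinearMap.fst ℝ ℝ ℝ + (2 * x.2) • ContinuousLinearMap.snd ℝ ℝ ℝ) x := by
  have h1 : HasFDerivAt (fun y : ℝ × ℝ => y.1 ^ 2) ((2 * x.1) • ContinuousLinearMap.fst ℝ ℝ ℝ) x := by
    have := (hasFDerivAt_fst (𝕜 := ℝ) (p := x)).pow 2
    simpa using this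
  have h2 : HasFDerivAt (fun y : ℝ × ℝ => y.2 ^ 2) ((2 * x.2) • ContinuousLinearMap.snd ℝ ℝ ℝ) x := by
    have := (hasFDerivAt_snd (𝕜 := ℝ) (p := x)).pow 2
    simpa using this
  exact h1.add h2

private theorem gbd_K_fderiv {K R : ℝ × ℝ → ℝ} (hG : IsGreen K R) {x : ℝ × ℝ} (hx : x ∈ Box 1) :
    D1 K x = nsq x * (Real.exp (-(4 * π) * R x) * (-(4 * π) * D1 R x)) +
        Real.exp (-(4 * π) * R x) * (2 * x.1) ∧
    D2 K x = nsq x * (Real.exp (-(4 * π) * R x) * (-(4 * π) * D2 R x)) +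
        Real.exp (-(4 * π) * R x) * (2 * x.2) := by
  have hev : K =ᶠ[nhds x] fun y => nsq y * Real.exp (-(4 * π) * R y) := by
    filter_upwards [gbd_box_open.mem_nhds hx] with y hy
    exact hG.fac y hy
  have hRd : HasFDerivAt R (fderiv ℝ R x) x := by
    have h1 : ContDiffAt ℝ ∞ R x := hG.smoothR.contDiffAt (gbd_box_open.mem_nhds hx)
    exact (h1.differentiableAt (by simp)).hasFDerivAt
  have hE : HasFDerivAt (fun y => Real.exp (-(4 * π) * R y))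
      (Real.exp (-(4 * π) * R x) • (-(4 * π)) • fderiv ℝ R x) x :=
    (hRd.const_mul (-(4 * π))).exp
  have hK := ((gbd_nsq_fderiv x).mul hE).congr_of_eventuallyEq hev
  rw [D1, D2, hK.fderiv]
  constructor
  · simp [D1]
  · simp [D2]

/-- (G1) -/
theorem green_bounds {K R : ℝ × ℝ → ℝ} (hG : IsGreen K R) : ∃ C : ℝ, 0 < C ∧
    (∀ x ∈ Q, C⁻¹ * nsq x ≤ K x) ∧ (∀ x, K x ≤ C * nsq x) ∧ (∀ x, K x ≤ C) ∧
    (∀ x, -C ≤ Gf K x) ∧
    (∀ x ∈ Q, x ≠ 0 → |Gf K x + 1 / (2 * π) * Real.log (nrm x)| ≤ C) ∧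
    (∀ x, D1 K x ^ 2 + D2 K x ^ 2 ≤ C * K x) := by
  have hRc : ContinuousOn R (Box 1) := hG.smoothR.continuousOn
  have hfd : ContinuousOn (fderiv ℝ R) (Box 1) :=
    hG.smoothR.continuousOn_fderiv_of_isOpen gbd_box_open (by simp)
  have hD1c : ContinuousOn (D1 R) (Box 1) := hfd.clm_apply continuousOn_const
  have hD2c : ContinuousOn (D2 R) (Box 1) := hfd.clm_apply continuousOn_const
  obtain ⟨M, hM0, hM⟩ := gbd_bound hRc
  obtain ⟨B1, hB10, hB1⟩ := gbd_bound hD1c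
  obtain ⟨B2, hB20, hB2⟩ := gbd_bound hD2c
  set E : ℝ := Real.exp (4 * π * M) with hE
  have hpi : 0 < π := Real.pi_pos
  have hE1 : 1 ≤ E := Real.one_le_exp (by positivity)
  have hE0 : 0 < E := by linarith
  set F : ℝ := (2 * (4 * π) ^ 2 * (B1 ^ 2 + B2 ^ 2) + 8) * E ^ 3 with hF
  have hF0 : 0 ≤ F := by positivity
  have hns0 : ∀ x, 0 ≤ nsq x := fun x => by unfold nsq; positivity
  have hexp : ∀ x ∈ gbd_S, E⁻¹ ≤ Real.exp (-(4 * π) * R x) ∧ Real.exp (-(4 * π) * R x) ≤ E := by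
    intro x hx
    have h1 := abs_le.1 (hM x hx)
    constructor
    · rw [hE, ← Real.exp_neg]
      apply Real.exp_le_exp.2
      nlinarith [h1.2, mul_pos (by norm_num : (0 : ℝ) < 4) hpi]
    · apply Real.exp_le_exp.2
      nlinarith [h1.1, mul_pos (by norm_num : (0 : ℝ) < 4) hpi]
  have hlow : ∀ x ∈ Q, nsq x ≤ E * K x := by
    intro x hx
    have h1 := (hexp x (gbd_Q_S hx)).1
    rw [hG.fac x (gbd_S_box (gbd_Q_S hx))]
    have h2 : 1 ≤ E * Real.exp (-(4 * π) * R x) := by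
      calc (1 : ℝ) = E * E⁻¹ := (mul_inv_cancel₀ hE0.ne').symm
        _ ≤ _ := mul_le_mul_of_nonneg_left h1 hE0.le
    nlinarith [hns0 x]
  have hup : ∀ x ∈ Q, K x ≤ E * nsq x := by
    intro x hx
    have h1 := (hexp x (gbd_Q_S hx)).2
    rw [hG.fac x (gbd_S_box (gbd_Q_S hx)), mul_comm]
    exact mul_le_mul_of_nonneg_right h1 (hns0 x)
  have hnsQ : ∀ x ∈ Q, nsq x ≤ 1 / 2 := by
    rintro x ⟨h1, h2⟩
    unfold nsq
    nlinarith [h1.1, h1.2, h2.1, h2.2]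
  have hKE : ∀ x, K x ≤ E := by
    intro x
    obtain ⟨y, hy, hyK, _⟩ := gbd_reduce hG.per x
    rw [← hyK]
    have := hup y hy
    have := hnsQ y hy
    nlinarith
  refine ⟨E + M + F, by positivity, ?_, ?_, ?_, ?_, ?_, ?_⟩
  · intro x hx
    have h1 := hlow x hx
    have hC : 0 < E + M + F := by positivity
    rw [inv_mul_le_iff₀ hC]
    have h2 := hG.nonneg x
    nlinarith
  · intro x
    obtain ⟨y, hy, hyK, _, _, hn⟩ := gbd_reduce hG.per x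
    rw [← hyK]
    have h1 := hup y hy
    have h2 := hns0 x
    nlinarith [mul_nonneg hM0 h2, mul_nonneg hF0 h2]
  · intro x
    have := hKE x
    linarith
  · intro x
    have h1 := hKE x
    have h2 := hG.nonneg x
    rw [Gf]
    rcases h2.eq_or_lt with h3 | h3
    · rw [← h3, Real.log_zero, mul_zero]
      linarith
    · have h4 : Real.log (K x) ≤ 4 * π * M := by
        have := Real.log_le_log h3 h1
        rwa [hE, Real.log_exp] at this
      have h5 : 1 / (4 * π) * Real.log (K x) ≤ M := by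
        rw [div_mul_eq_mul_div, one_mul, div_le_iff₀ (by positivity)]
        linarith
      linarith
  · intro x hx hx0
    have hb := gbd_S_box (gbd_Q_S hx)
    have hns : 0 < nsq x := by
      rcases (hns0 x).eq_or_lt with h | h
      · exfalso
        apply hx0
        unfold nsq at h
        have h1 : x.1 = 0 := by nlinarith [sq_nonneg x.1, sq_nonneg x.2]
        have h2 : x.2 = 0 := by nlinarith [sq_nonneg x.1, sq_nonneg x.2]
        exact Prod.ext h1 h2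
      · exact h
    have h1 : Gf K x + 1 / (2 * π) * Real.log (nrm x) = R x := by
      rw [Gf, hG.fac x hb, Real.log_mul hns.ne' (Real.exp_pos _).ne', Real.log_exp, nrm,
        Real.log_sqrt (hns0 x)]
      field_simp
      ring
    rw [h1]
    have := hM x (gbd_Q_S hx)
    linarith
  · intro x
    obtain ⟨y, hy, hyK, hy1, hy2, _⟩ := gbd_reduce hG.per x
    rw [← hyK, ← hy1, ← hy2]
    have hyS := gbd_Q_S hy
    obtain ⟨e1, e2⟩ := gbd_K_fderiv hG (gbd_S_box hyS)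
    set e : ℝ := Real.exp (-(4 * π) * R y) with he
    have he0 : 0 < e := Real.exp_pos _
    have heE : e ≤ E := (hexp y hyS).2
    have hb1 : (D1 R y) ^ 2 ≤ B1 ^ 2 := by
      rw [← sq_abs]; exact pow_le_pow_left₀ (abs_nonneg _) (hB1 y hyS) 2
    have hb2 : (D2 R y) ^ 2 ≤ B2 ^ 2 := by
      rw [← sq_abs]; exact pow_le_pow_left₀ (abs_nonneg _) (hB2 y hyS) 2
    have hn := hnsQ y hy
    have hn0 := hns0 y
    have hx12 : y.1 ^ 2 + y.2 ^ 2 = nsq y := rfl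
    have k1 : D1 K y ^ 2 ≤ 2 * (nsq y * (e * (-(4 * π) * D1 R y))) ^ 2 + 2 * (e * (2 * y.1)) ^ 2 := by
      rw [e1]
      nlinarith [sq_nonneg (nsq y * (e * (-(4 * π) * D1 R y)) - e * (2 * y.1))]
    have k2 : D2 K y ^ 2 ≤ 2 * (nsq y * (e * (-(4 * π) * D2 R y))) ^ 2 + 2 * (e * (2 * y.2)) ^ 2 := by
      rw [e2]
      nlinarith [sq_nonneg (nsq y * (e * (-(4 * π) * D2 R y)) - e * (2 * y.2))]
    have k3 : 2 * (nsq y * (e * (-(4 * π) * D1 R y))) ^ 2 + 2 * (e * (2 * y.1)) ^ 2 +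
        (2 * (nsq y * (e * (-(4 * π) * D2 R y))) ^ 2 + 2 * (e * (2 * y.2)) ^ 2) =
        e ^ 2 * nsq y * (2 * nsq y * (4 * π) ^ 2 * (D1 R y ^ 2 + D2 R y ^ 2) + 8) := by
      rw [← hx12]; ring
    have k4 : 2 * nsq y * (4 * π) ^ 2 * (D1 R y ^ 2 + D2 R y ^ 2) + 8 ≤
        2 * (4 * π) ^ 2 * (B1 ^ 2 + B2 ^ 2) + 8 := by
      have h5 : D1 R y ^ 2 + D2 R y ^ 2 ≤ B1 ^ 2 + B2 ^ 2 := by linarith
      have h6 : 0 ≤ D1 R y ^ 2 + D2 R y ^ 2 := by positivity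
      have h7 : nsq y * (D1 R y ^ 2 + D2 R y ^ 2) ≤ B1 ^ 2 + B2 ^ 2 := by nlinarith
      have h8 : 0 ≤ 2 * (4 * π) ^ 2 := by positivity
      nlinarith [mul_le_mul_of_nonneg_left h7 h8]
    have k5 : e ^ 2 * nsq y ≤ E ^ 3 * K y := by
      have h5 : e ^ 2 ≤ E ^ 2 := pow_le_pow_left₀ he0.le heE 2
      calc e ^ 2 * nsq y ≤ E ^ 2 * nsq y := mul_le_mul_of_nonneg_right h5 hn0
        _ ≤ E ^ 2 * (E * K y) := mul_le_mul_of_nonneg_left (hlow y hy) (by positivity)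
        _ = E ^ 3 * K y := by ring
    have hK0 := hG.nonneg y
    have k6 : D1 K y ^ 2 + D2 K y ^ 2 ≤ F * K y := by
      calc D1 K y ^ 2 + D2 K y ^ 2 ≤
          e ^ 2 * nsq y * (2 * nsq y * (4 * π) ^ 2 * (D1 R y ^ 2 + D2 R y ^ 2) + 8) := by
            linarith
        _ ≤ e ^ 2 * nsq y * (2 * (4 * π) ^ 2 * (B1 ^ 2 + B2 ^ 2) + 8) :=
            mul_le_mul_of_nonneg_left k4 (by positivity)
        _ ≤ E ^ 3 * K y * (2 * (4 * π) ^ 2 * (B1 ^ 2 + B2 ^ 2) + 8) :=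
            mul_le_mul_of_nonneg_right k5 (by positivity)
        _ = F * K y := by rw [hF]; ring
    nlinarith [mul_nonneg hM0 hK0, mul_nonneg hE0.le hK0]

end Pool.Agent.AO
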