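import Pool.Agent.Lib.MP_10e52e_an.Tools
import Pool.Agent.Lib.MP_10e52e_an.Gls

/-! MP_10e52e_an row Gibp: (G4) -/

namespace Pool.Agent.AO

open MeasureTheory Set Real
open scoped ContDiff

private theorem gibp_shift {f : ℝ × ℝ → ℝ} {a : ℝ × ℝ} (h : ∀ x, f (x + a) = f x) (v x : ℝ × ℝ) :
    fderiv ℝ f (x + a) v = fderiv ℝ f x v := by
  have e : (fun y => f (y + a)) = f := funext h
  have h1 := fderiv_comp_add_right (𝕜 := ℝ) (f := f) (x := x) a
  rw [e] at h1
  rw [h1]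

private theorem gibp_per {f : ℝ × ℝ → ℝ} (hp : Per f) (v : ℝ × ℝ) :
    Per (fun x => fderiv ℝ f x v) := by
  intro x
  have e1 : x + ((1 : ℝ), (0 : ℝ)) = (x.1 + 1, x.2) := by
    ext <;> simp
  have e2 : x + ((0 : ℝ), (1 : ℝ)) = (x.1, x.2 + 1) := by
    ext <;> simp
  constructor
  · have h := gibp_shift (f := f) (a := ((1 : ℝ), (0 : ℝ))) (fun y => by
      have := (hp y).1
      have e : y + ((1 : ℝ), (0 : ℝ)) = (y.1 + 1, y.2) := by ext <;> simp
      rw [e]; exact this) v x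
    rw [e1] at h
    exact h
  · have h := gibp_shift (f := f) (a := ((0 : ℝ), (1 : ℝ))) (fun y => by
      have := (hp y).2
      have e : y + ((0 : ℝ), (1 : ℝ)) = (y.1, y.2 + 1) := by ext <;> simp
      rw [e]; exact this) v x
    rw [e2] at h
    exact h

private theorem gibp_smooth {f : ℝ × ℝ → ℝ} (hf : ContDiff ℝ 2 f) (v : ℝ × ℝ) :
    ContDiff ℝ 1 (fun x => fderiv ℝ f x v) :=
  (hf.fderiv_right (m := 1) (by norm_num)).clm_apply contDiff_const

private theorem gibp_int {F g : ℝ × ℝ → ℝ} (hF : IntegrableOn F Q) (hg : Continuous g) :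
    IntegrableOn (fun x => F x * g x) Q := by
  have hc : IsCompact (Icc (-1 / 2 : ℝ) (1 / 2) ×ˢ Icc (-1 / 2 : ℝ) (1 / 2)) :=
    isCompact_Icc.prod isCompact_Icc
  obtain ⟨C, hC⟩ := hc.exists_bound_of_continuousOn hg.continuousOn
  have hQ : MeasurableSet Q := measurableSet_Ioc.prod measurableSet_Ioc
  refine Integrable.mul_bdd (c := C) hF hg.aestronglyMeasurable ?_
  refine (ae_restrict_iff' hQ).2 (Filter.Eventually.of_forall fun x hx => hC x ?_)
  exact ⟨Ioc_subset_Icc_self hx.1, Ioc_subset_Icc_self hx.2⟩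

private theorem gibp_lat : volume (Lat : Set (ℝ × ℝ)) = 0 := by
  have h : (Lat : Set (ℝ × ℝ)) = Set.range (fun p : ℤ × ℤ => ((p.1 : ℝ), (p.2 : ℝ))) := by
    ext x
    constructor
    · rintro ⟨m, n, rfl⟩
      exact ⟨(m, n), rfl⟩
    · rintro ⟨⟨m, n⟩, rfl⟩
      exact ⟨m, n, rfl⟩
  rw [h]
  exact (Set.countable_range _).measure_zero _

/-- (G4) -/
theorem green_ibp {K R : ℝ × ℝ → ℝ} (hG : IsGreen K R) {phi : ℝ × ℝ → ℝ}
    (hphi : ContDiff ℝ 2 phi) (hp : Per phi) :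
    TI (fun x => Gf K x * D1 phi x) = -TI (fun x => D1 (Gf K) x * phi x) ∧
    TI (fun x => Gf K x * D2 phi x) = -TI (fun x => D2 (Gf K) x * phi x) ∧
    TI (fun x => D1 (Gf K) x * D1 phi x + D2 (Gf K) x * D2 phi x) = phi 0 - TI phi ∧
    TI (fun x => Gf K x * Lap phi x) = TI phi - phi 0 := by
  obtain ⟨hL, hLap⟩ := green_logsing hG
  obtain ⟨hi0, _, hi1, hi2⟩ := hL.integrable
  have hphi1 : ContDiff ℝ 1 phi := hphi.of_le (by norm_num)
  obtain ⟨h1, h2, h3⟩ := hL.ibp hphi1 hp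
  have hd1 : ContDiff ℝ 1 (D1 phi) := gibp_smooth hphi _
  have hd2 : ContDiff ℝ 1 (D2 phi) := gibp_smooth hphi _
  have hp1 : Per (D1 phi) := gibp_per hp _
  have hp2 : Per (D2 phi) := gibp_per hp _
  have hlap : TI (fun x => Lap (Gf K) x * phi x) = TI phi := by
    have hae : ∀ᵐ x ∂(volume : Measure (ℝ × ℝ)), x ∉ Lat :=
      measure_eq_zero_iff_ae_notMem.1 gibp_lat
    refine integral_congr_ae ?_
    refine ae_restrict_of_ae ?_
    filter_upwards [hae] with x hx
    rw [hLap x hx, one_mul]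
  have h3' : TI (fun x => D1 (Gf K) x * D1 phi x + D2 (Gf K) x * D2 phi x) = phi 0 - TI phi := by
    rw [h3, hlap]
    have hpi : (π : ℝ) ≠ 0 := Real.pi_ne_zero
    field_simp
    ring
  refine ⟨h1, h2, h3', ?_⟩
  have k1 := (hL.ibp hd1 hp1).1
  have k2 := (hL.ibp hd2 hp2).2.1
  have hc11 : Continuous (D1 (D1 phi)) := (hd1.continuous_fderiv (by norm_num)).clm_apply
    continuous_const
  have hc22 : Continuous (D2 (D2 phi)) := (hd2.continuous_fderiv (by norm_num)).clm_apply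
    continuous_const
  have e1 : TI (fun x => Gf K x * Lap phi x) =
      TI (fun x => Gf K x * D1 (D1 phi) x) + TI (fun x => Gf K x * D2 (D2 phi) x) := by
    unfold TI
    rw [← integral_add (gibp_int hi0 hc11) (gibp_int hi0 hc22)]
    refine integral_congr_ae (Filter.Eventually.of_forall fun x => ?_)
    show Gf K x * (D1 (D1 phi) x + D2 (D2 phi) x) = _
    ring
  have e2 : TI (fun x => D1 (Gf K) x * D1 phi x + D2 (Gf K) x * D2 phi x) =
      TI (fun x => D1 (Gf K) x * D1 phi x) + TI (fun x => D2 (Gf K) x * D2 phi x) := by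
    unfold TI
    exact integral_add (gibp_int hi1 hd1.continuous) (gibp_int hi2 hd2.continuous)
  rw [e1, k1, k2]
  linarith

end Pool.Agent.AO
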