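import Pool.Agent.Lib.MP_10e52e_an.Tools
import Pool.Agent.Lib.MP_10e52e_an.Gls
import Pool.Agent.Lib.MP_10e52e_an.Gibp

/-! MP_10e52e_an row Gconv: (G5) convolution calculus, representation, bounded forces -/

namespace Pool.Agent.AO

open MeasureTheory Set Real
open scoped ContDiff

theorem gconv_per_lat {f : ℝ × ℝ → ℝ} (hp : Per f) (m n : ℤ) (x : ℝ × ℝ) :
    f (x.1 + m, x.2 + n) = f x := by
  have h1 : Function.Periodic (fun t : ℝ => f (t, x.2 + n)) 1 := fun t => (hp (t, x.2 + n)).1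
  have h2 : Function.Periodic (fun t : ℝ => f (x.1, t)) 1 := fun t => (hp (x.1, t)).2
  have h3 := (h1.int_mul m) x.1
  have h4 := (h2.int_mul n) x.2
  simp only [mul_one] at h3 h4
  exact h3.trans h4

theorem gconv_bdd {f : ℝ × ℝ → ℝ} (hp : Per f) (hc : Continuous f) : ∃ C, ∀ x, |f x| ≤ C := by
  have hK : IsCompact (Icc (0 : ℝ) 1 ×ˢ Icc (0 : ℝ) 1) := isCompact_Icc.prod isCompact_Icc
  obtain ⟨C, hC⟩ := hK.exists_bound_of_continuousOn hc.continuousOn
  refine ⟨C, fun x => ?_⟩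
  have h1 := gconv_per_lat hp (-⌊x.1⌋) (-⌊x.2⌋) x
  rw [← h1, ← Real.norm_eq_abs]
  apply hC
  simp only [mem_prod, mem_Icc]
  push_cast
  have a1 := Int.floor_le x.1
  have a2 := Int.lt_floor_add_one x.1
  have a3 := Int.floor_le x.2
  have a4 := Int.lt_floor_add_one x.2
  constructor <;> constructor <;> linarith

theorem gconv_per_D1 {f : ℝ × ℝ → ℝ} (hp : Per f) : Per (D1 f) := by
  intro x
  constructor
  · have h : f = fun y => f (y + (1, 0)) := by
      funext y
      exact ((hp y).1).symm.trans (by congr 1; ext <;> simp)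
    have h2 : D1 f x = D1 f (x + (1, 0)) := by
      simp only [D1]
      conv_lhs => rw [h]
      rw [fderiv_comp_add_right]
    rw [h2]; congr 1; ext <;> simp
  · have h : f = fun y => f (y + (0, 1)) := by
      funext y
      exact ((hp y).2).symm.trans (by congr 1; ext <;> simp)
    have h2 : D1 f x = D1 f (x + (0, 1)) := by
      simp only [D1]
      conv_lhs => rw [h]
      rw [fderiv_comp_add_right]
    rw [h2]; congr 1; ext <;> simp

theorem gconv_per_D2 {f : ℝ × ℝ → ℝ} (hp : Per f) : Per (D2 f) := by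
  intro x
  constructor
  · have h : f = fun y => f (y + (1, 0)) := by
      funext y
      exact ((hp y).1).symm.trans (by congr 1; ext <;> simp)
    have h2 : D2 f x = D2 f (x + (1, 0)) := by
      simp only [D2]
      conv_lhs => rw [h]
      rw [fderiv_comp_add_right]
    rw [h2]; congr 1; ext <;> simp
  · have h : f = fun y => f (y + (0, 1)) := by
      funext y
      exact ((hp y).2).symm.trans (by congr 1; ext <;> simp)
    have h2 : D2 f x = D2 f (x + (0, 1)) := by
      simp only [D2]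
      conv_lhs => rw [h]
      rw [fderiv_comp_add_right]
    rw [h2]; congr 1; ext <;> simp

theorem gconv_smooth_D1 {f : ℝ × ℝ → ℝ} (hf : ContDiff ℝ ∞ f) : ContDiff ℝ ∞ (D1 f) :=
  (hf.fderiv_right (m := ∞) (by simp)).clm_apply contDiff_const

theorem gconv_smooth_D2 {f : ℝ × ℝ → ℝ} (hf : ContDiff ℝ ∞ f) : ContDiff ℝ ∞ (D2 f) :=
  (hf.fderiv_right (m := ∞) (by simp)).clm_apply contDiff_const

theorem gconv_fderiv_eq (f : ℝ × ℝ → ℝ) (x : ℝ × ℝ) :
    fderiv ℝ f x = D1 f x • ContinuousLinearMap.fst ℝ ℝ ℝ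
      + D2 f x • ContinuousLinearMap.snd ℝ ℝ ℝ := by
  ext <;> simp [D1, D2]

theorem gconv_meas_sub {f : ℝ × ℝ → ℝ} (hf : Continuous f) (x : ℝ × ℝ) (μ : Measure (ℝ × ℝ)) :
    AEStronglyMeasurable (fun y => f (x - y)) μ :=
  (hf.comp (continuous_const.sub continuous_id)).aestronglyMeasurable

theorem gconv_int {g f : ℝ × ℝ → ℝ} (hg : IntegrableOn g Q) (hf : Continuous f)
    {C : ℝ} (hC : ∀ x, |f x| ≤ C) (x : ℝ × ℝ) : IntegrableOn (fun y => g y * f (x - y)) Q := by
  refine Integrable.mul_bdd (c := C) hg (gconv_meas_sub hf x _) ?_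
  exact Filter.Eventually.of_forall fun y => by rw [Real.norm_eq_abs]; exact hC _

theorem gconv_hasFDerivAt {g f : ℝ × ℝ → ℝ} (hg : IntegrableOn g Q) (hf : ContDiff ℝ ∞ f)
    (hp : Per f) (x : ℝ × ℝ) :
    HasFDerivAt (conv g f) (conv g (D1 f) x • ContinuousLinearMap.fst ℝ ℝ ℝ
      + conv g (D2 f) x • ContinuousLinearMap.snd ℝ ℝ ℝ) x := by
  have hfc := hf.continuous
  obtain ⟨C0, hC0⟩ := gconv_bdd hp hfc
  obtain ⟨C1, hC1⟩ := gconv_bdd (gconv_per_D1 hp) (gconv_smooth_D1 hf).continuous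
  obtain ⟨C2, hC2⟩ := gconv_bdd (gconv_per_D2 hp) (gconv_smooth_D2 hf).continuous
  have hb : ∀ z, ‖fderiv ℝ f z‖ ≤ C1 + C2 := by
    intro z
    rw [gconv_fderiv_eq]
    refine (norm_add_le _ _).trans (add_le_add ?_ ?_)
    · rw [norm_smul, Real.norm_eq_abs]
      calc |D1 f z| * ‖ContinuousLinearMap.fst ℝ ℝ ℝ‖ ≤ |D1 f z| * 1 :=
            mul_le_mul_of_nonneg_left (ContinuousLinearMap.norm_fst_le ℝ ℝ ℝ) (abs_nonneg _)
        _ ≤ C1 := by rw [mul_one]; exact hC1 z
    · rw [norm_smul, Real.norm_eq_abs]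
      calc |D2 f z| * ‖ContinuousLinearMap.snd ℝ ℝ ℝ‖ ≤ |D2 f z| * 1 :=
            mul_le_mul_of_nonneg_left (ContinuousLinearMap.norm_snd_le ℝ ℝ ℝ) (abs_nonneg _)
        _ ≤ C2 := by rw [mul_one]; exact hC2 z
  have hfd : Continuous (fderiv ℝ f) := hf.continuous_fderiv (by simp)
  have hmeas' : ∀ z, AEStronglyMeasurable (fun y => g y • fderiv ℝ f (z - y))
      (volume.restrict Q) := fun z =>
    hg.aestronglyMeasurable.smul
      ((hfd.comp (continuous_const.sub continuous_id)).aestronglyMeasurable)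
  have hbi : Integrable (fun y => |g y| * (C1 + C2)) (volume.restrict Q) :=
    hg.norm.mul_const _
  have hbd : ∀ᵐ y ∂(volume.restrict Q), ∀ z ∈ (univ : Set (ℝ × ℝ)),
      ‖g y • fderiv ℝ f (z - y)‖ ≤ |g y| * (C1 + C2) := by
    refine Filter.Eventually.of_forall fun y z _ => ?_
    rw [norm_smul, Real.norm_eq_abs]
    exact mul_le_mul_of_nonneg_left (hb _) (abs_nonneg _)
  have key := hasFDerivAt_integral_of_dominated_of_fderiv_le
    (F := fun z y => g y * f (z - y)) (F' := fun z y => g y • fderiv ℝ f (z - y))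
    (x₀ := x) (μ := volume.restrict Q) (s := univ) (bound := fun y => |g y| * (C1 + C2))
    Filter.univ_mem
    (Filter.Eventually.of_forall fun z => (gconv_int hg hfc hC0 z).aestronglyMeasurable)
    (gconv_int hg hfc hC0 x) (hmeas' x) hbd hbi
    (by
      refine Filter.Eventually.of_forall fun y z _ => ?_
      have h1 : HasFDerivAt f (fderiv ℝ f (z - y)) (z - y) :=
        (hf.differentiable (by simp) _).hasFDerivAt
      have h2 : HasFDerivAt (fun z => f (z - y)) (fderiv ℝ f (z - y)) z :=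
        (hasFDerivAt_comp_sub y).2 h1
      exact h2.const_mul (g y))
  have hint : Integrable (fun y => g y • fderiv ℝ f (x - y)) (volume.restrict Q) :=
    hbi.mono' (hmeas' x) (by
      filter_upwards [hbd] with y hy using hy x (mem_univ _))
  have hval : (∫ y in Q, g y • fderiv ℝ f (x - y)) =
      conv g (D1 f) x • ContinuousLinearMap.fst ℝ ℝ ℝ
      + conv g (D2 f) x • ContinuousLinearMap.snd ℝ ℝ ℝ := by
    ext
    · simp only [ContinuousLinearMap.coe_comp, Function.comp_apply,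
        ContinuousLinearMap.inl_apply, add_apply, smul_apply, ContinuousLinearMap.coe_fst',
        ContinuousLinearMap.coe_snd', smul_eq_mul, mul_one, mul_zero, add_zero]
      rw [ContinuousLinearMap.integral_apply hint]
      rfl
    · simp only [ContinuousLinearMap.coe_comp, Function.comp_apply,
        ContinuousLinearMap.inr_apply, add_apply, smul_apply, ContinuousLinearMap.coe_fst',
        ContinuousLinearMap.coe_snd', smul_eq_mul, mul_one, mul_zero, zero_add]
      rw [ContinuousLinearMap.integral_apply hint]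
      rfl
  rw [hval] at key
  exact key

theorem gconv_D1 {g f : ℝ × ℝ → ℝ} (hg : IntegrableOn g Q) (hf : ContDiff ℝ ∞ f)
    (hp : Per f) (x : ℝ × ℝ) : D1 (conv g f) x = conv g (D1 f) x := by
  rw [D1, (gconv_hasFDerivAt hg hf hp x).fderiv]
  simp

theorem gconv_D2 {g f : ℝ × ℝ → ℝ} (hg : IntegrableOn g Q) (hf : ContDiff ℝ ∞ f)
    (hp : Per f) (x : ℝ × ℝ) : D2 (conv g f) x = conv g (D2 f) x := by
  rw [D2, (gconv_hasFDerivAt hg hf hp x).fderiv]
  simp

theorem gconv_smooth_nat {g : ℝ × ℝ → ℝ} (hg : IntegrableOn g Q) (n : ℕ) :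
    ∀ f : ℝ × ℝ → ℝ, ContDiff ℝ ∞ f → Per f → ContDiff ℝ n (conv g f) := by
  induction n with
  | zero =>
    intro f hf hp
    rw [Nat.cast_zero, contDiff_zero]
    exact continuous_iff_continuousAt.2 fun x => (gconv_hasFDerivAt hg hf hp x).continuousAt
  | succ n ih =>
    intro f hf hp
    have hcast : ((n + 1 : ℕ) : WithTop ℕ∞) = (n : WithTop ℕ∞) + 1 := by push_cast; rfl
    rw [hcast, contDiff_succ_iff_fderiv]
    refine ⟨fun x => (gconv_hasFDerivAt hg hf hp x).differentiableAt, by simp, ?_⟩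
    have : fderiv ℝ (conv g f) = fun x => conv g (D1 f) x • ContinuousLinearMap.fst ℝ ℝ ℝ
      + conv g (D2 f) x • ContinuousLinearMap.snd ℝ ℝ ℝ := by
      funext x
      exact (gconv_hasFDerivAt hg hf hp x).fderiv
    rw [this]
    exact ((ih _ (gconv_smooth_D1 hf) (gconv_per_D1 hp)).smul contDiff_const).add
      ((ih _ (gconv_smooth_D2 hf) (gconv_per_D2 hp)).smul contDiff_const)

theorem gconv_smooth {g f : ℝ × ℝ → ℝ} (hg : IntegrableOn g Q) (hf : ContDiff ℝ ∞ f)
    (hp : Per f) : ContDiff ℝ ∞ (conv g f) :=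
  contDiff_infty.2 fun n => gconv_smooth_nat hg n f hf hp

theorem gconv_per {g f : ℝ × ℝ → ℝ} (hp : Per f) : Per (conv g f) := by
  intro x
  constructor
  · rw [conv, conv]
    congr 1
    funext y
    rw [← (hp (x - y)).1]
    congr 2
    ext <;> simp
    ring
  · rw [conv, conv]
    congr 1
    funext y
    rw [← (hp (x - y)).2]
    congr 2
    ext <;> simp
    ring

theorem gconv_fderiv_sub (f : ℝ × ℝ → ℝ) (x y : ℝ × ℝ) :
    fderiv ℝ (fun z => f (x - z)) y = -fderiv ℝ f (x - y) := by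
  have h : (fun z => f (x - z)) = (fun w => f (w + x)) ∘ (ContinuousLinearEquiv.neg ℝ) := by
    funext z
    simp only [Function.comp_apply, ContinuousLinearEquiv.neg_apply]
    congr 1
    abel
  rw [h, (ContinuousLinearEquiv.neg ℝ).comp_right_fderiv, fderiv_comp_add_right]
  have h2 : (ContinuousLinearEquiv.neg ℝ) y + x = x - y := by
    rw [ContinuousLinearEquiv.neg_apply]
    abel
  rw [h2]
  refine ContinuousLinearMap.ext fun v => ?_
  change fderiv ℝ f (x - y) (-v) = -(fderiv ℝ f (x - y) v)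
  rw [map_neg]

theorem gconv_D1_sub (f : ℝ × ℝ → ℝ) (x y : ℝ × ℝ) :
    D1 (fun z => f (x - z)) y = -D1 f (x - y) := by
  rw [D1, gconv_fderiv_sub]; rfl

theorem gconv_D2_sub (f : ℝ × ℝ → ℝ) (x y : ℝ × ℝ) :
    D2 (fun z => f (x - z)) y = -D2 f (x - y) := by
  rw [D2, gconv_fderiv_sub]; rfl

theorem gconv_D1_neg (f : ℝ × ℝ → ℝ) (y : ℝ × ℝ) :
    D1 (fun z => -f z) y = -D1 f y := by
  have : fderiv ℝ (fun z => -f z) y = -fderiv ℝ f y := fderiv_fun_neg
  rw [D1, this]; rfl

theorem gconv_D2_neg (f : ℝ × ℝ → ℝ) (y : ℝ × ℝ) :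
    D2 (fun z => -f z) y = -D2 f y := by
  have : fderiv ℝ (fun z => -f z) y = -fderiv ℝ f y := fderiv_fun_neg
  rw [D2, this]; rfl

theorem gconv_Lap_sub (f : ℝ × ℝ → ℝ) (x y : ℝ × ℝ) :
    Lap (fun z => f (x - z)) y = Lap f (x - y) := by
  have h1 : D1 (fun z => f (x - z)) = fun z => -(fun z => D1 f (x - z)) z :=
    funext fun z => gconv_D1_sub f x z
  have h2 : D2 (fun z => f (x - z)) = fun z => -(fun z => D2 f (x - z)) z :=
    funext fun z => gconv_D2_sub f x z
  rw [Lap, h1, h2, gconv_D1_neg, gconv_D2_neg, gconv_D1_sub, gconv_D2_sub, neg_neg, neg_neg, Lap]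

theorem gconv_per_sub {f : ℝ × ℝ → ℝ} (hp : Per f) (x : ℝ × ℝ) : Per (fun z => f (x - z)) := by
  intro z
  constructor
  · simp only
    rw [← (hp (x - (z.1 + 1, z.2))).1]
    congr 1
    ext
    · simp only [Prod.fst_sub]
      ring
    · simp
  · simp only
    rw [← (hp (x - (z.1, z.2 + 1))).2]
    congr 1
    ext
    · simp
    · simp only [Prod.snd_sub]
      ring

theorem gconv_TI_sub {f : ℝ × ℝ → ℝ} (hp : Per f) (hf : Continuous f) (x : ℝ × ℝ) :
    TI (fun y => f (x - y)) = TI f := by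
  have hint : IntegrableOn f Q := by
    have hK : IsCompact (Icc (-1 / 2 : ℝ) (1 / 2) ×ˢ Icc (-1 / 2 : ℝ) (1 / 2)) :=
      isCompact_Icc.prod isCompact_Icc
    exact (hf.continuousOn.integrableOn_compact hK).mono_set
      (prod_mono Ioc_subset_Icc_self Ioc_subset_Icc_self)
  rw [← TI_shift hp hint x, ← TI_neg (f := fun y => f (y + x))]
  congr 1
  funext y
  congr 1
  abel

theorem gconv_add {g f h : ℝ × ℝ → ℝ} (hg : IntegrableOn g Q) (hf : Continuous f) (hpf : Per f)
    (hh : Continuous h) (hph : Per h) (x : ℝ × ℝ) :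
    conv g (fun y => f y + h y) x = conv g f x + conv g h x := by
  obtain ⟨C0, hC0⟩ := gconv_bdd hpf hf
  obtain ⟨C1, hC1⟩ := gconv_bdd hph hh
  rw [conv, conv, conv, TI, TI, TI, ← integral_add (gconv_int hg hf hC0 x) (gconv_int hg hh hC1 x)]
  congr 1
  funext y
  ring

/-- (G5) -/
theorem conv_green {K R : ℝ × ℝ → ℝ} (hG : IsGreen K R) {f : ℝ × ℝ → ℝ}
    (hf : ContDiff ℝ ∞ f) (hp : Per f) :
    ContDiff ℝ ∞ (conv (Gf K) f) ∧ Per (conv (Gf K) f) ∧
    (∀ x, D1 (conv (Gf K) f) x = conv (Gf K) (D1 f) x ∧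
      D2 (conv (Gf K) f) x = conv (Gf K) (D2 f) x ∧
      D1 (conv (Gf K) f) x = conv (D1 (Gf K)) f x ∧
      D2 (conv (Gf K) f) x = conv (D2 (Gf K)) f x ∧
      Lap (conv (Gf K) f) x = TI f - f x) := by
  have hint : IntegrableOn (Gf K) Q := (green_logsing hG).1.integrable.1
  refine ⟨gconv_smooth hint hf hp, gconv_per hp, fun x => ?_⟩
  have h1 := gconv_D1 hint hf hp
  have h2 := gconv_D2 hint hf hp
  have hphi : ContDiff ℝ 2 (fun z => f (x - z)) :=
    (contDiff_infty.1 hf 2).comp (contDiff_const.sub contDiff_id)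
  obtain ⟨i1, i2, -, i4⟩ := green_ibp hG hphi (gconv_per_sub hp x)
  have h3 : conv (Gf K) (D1 f) x = conv (D1 (Gf K)) f x := by
    have e1 : TI (fun y => Gf K y * D1 (fun z => f (x - z)) y) = -conv (Gf K) (D1 f) x := by
      rw [conv, TI, TI, ← integral_neg]
      congr 1
      funext y
      rw [gconv_D1_sub]
      ring
    rw [e1] at i1
    have := neg_injective i1
    rw [this]
    rfl
  have h4 : conv (Gf K) (D2 f) x = conv (D2 (Gf K)) f x := by
    have e1 : TI (fun y => Gf K y * D2 (fun z => f (x - z)) y) = -conv (Gf K) (D2 f) x := by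
      rw [conv, TI, TI, ← integral_neg]
      congr 1
      funext y
      rw [gconv_D2_sub]
      ring
    rw [e1] at i2
    have := neg_injective i2
    rw [this]
    rfl
  refine ⟨h1 x, h2 x, (h1 x).trans h3, (h2 x).trans h4, ?_⟩
  have s1 := gconv_smooth_D1 hf
  have s2 := gconv_smooth_D2 hf
  have h5 : Lap (conv (Gf K) f) x = conv (Gf K) (Lap f) x := by
    rw [Lap, funext h1, funext h2, gconv_D1 hint s1 (gconv_per_D1 hp),
      gconv_D2 hint s2 (gconv_per_D2 hp),
      ← gconv_add hint (gconv_smooth_D1 s1).continuous (gconv_per_D1 (gconv_per_D1 hp))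
        (gconv_smooth_D2 s2).continuous (gconv_per_D2 (gconv_per_D2 hp))]
    rfl
  rw [h5]
  have e2 : TI (fun y => Gf K y * Lap (fun z => f (x - z)) y) = conv (Gf K) (Lap f) x := by
    rw [conv]
    congr 1
    funext y
    rw [gconv_Lap_sub]
  rw [← e2, i4, gconv_TI_sub hp hf.continuous, sub_zero]

theorem green_rep {K R : ℝ × ℝ → ℝ} (hG : IsGreen K R) {f : ℝ × ℝ → ℝ}
    (hf : ContDiff ℝ ∞ f) (hp : Per f) : ∀ x, f x = TI f - conv (Gf K) (Lap f) x := by
  intro x
  have hint : IntegrableOn (Gf K) Q := (green_logsing hG).1.integrable.1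
  have hphi : ContDiff ℝ 2 (fun z => f (x - z)) :=
    (contDiff_infty.1 hf 2).comp (contDiff_const.sub contDiff_id)
  obtain ⟨-, -, -, i4⟩ := green_ibp hG hphi (gconv_per_sub hp x)
  have e2 : TI (fun y => Gf K y * Lap (fun z => f (x - z)) y) = conv (Gf K) (Lap f) x := by
    rw [conv]
    congr 1
    funext y
    rw [gconv_Lap_sub]
  rw [← e2, i4, gconv_TI_sub hp hf.continuous, sub_zero]
  ring

theorem gconv_force_aux {g : ℝ × ℝ → ℝ} (hg : IntegrableOn g Q) (f : ℝ × ℝ → ℝ) (M : ℝ)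
    (hfM : ∀ x, |f x| ≤ M) (x : ℝ × ℝ) : |conv g f x| ≤ TI (fun y => |g y|) * M := by
  rw [conv, TI, TI, ← Real.norm_eq_abs]
  calc ‖∫ y in Q, g y * f (x - y)‖ ≤ ∫ y in Q, |g y| * M := by
        refine norm_integral_le_of_norm_le (hg.norm.mul_const M) ?_
        refine Filter.Eventually.of_forall fun y => ?_
        rw [norm_mul, Real.norm_eq_abs, Real.norm_eq_abs]
        exact mul_le_mul_of_nonneg_left (hfM _) (abs_nonneg _)
    _ = (∫ y in Q, |g y|) * M := integral_mul_const _ _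

/-- forces of bounded sources are bounded; the force of a constant is 0 -/
theorem conv_force {K R : ℝ × ℝ → ℝ} (hG : IsGreen K R) : ∃ C : ℝ, 0 < C ∧
    ∀ (f : ℝ × ℝ → ℝ) (M : ℝ), Continuous f → Per f → (∀ x, |f x| ≤ M) →
      ∀ x, |conv (D1 (Gf K)) f x| ≤ C * M ∧ |conv (D2 (Gf K)) f x| ≤ C * M := by
  have hint := (green_logsing hG).1.integrable
  have p1 : 0 ≤ TI (fun y => |D1 (Gf K) y|) := integral_nonneg fun y => abs_nonneg _
  have p2 : 0 ≤ TI (fun y => |D2 (Gf K) y|) := integral_nonneg fun y => abs_nonneg _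
  refine ⟨TI (fun y => |D1 (Gf K) y|) + TI (fun y => |D2 (Gf K) y|) + 1, by linarith,
    fun f M _ _ hfM x => ?_⟩
  have hM : 0 ≤ M := (abs_nonneg _).trans (hfM 0)
  constructor
  · refine (gconv_force_aux hint.2.2.1 f M hfM x).trans (mul_le_mul_of_nonneg_right ?_ hM)
    linarith
  · refine (gconv_force_aux hint.2.2.2 f M hfM x).trans (mul_le_mul_of_nonneg_right ?_ hM)
    linarith

end Pool.Agent.AO
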