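import Pool.Agent.Lib.MP_10e52e_an.Tools
import Pool.Agent.Lib.MP_10e52e_an.Gls
import Pool.Agent.Lib.MP_10e52e_an.Gbd

/-! MP_10e52e_an row Ulow: (U2) -/

namespace Pool.Agent.AO

open MeasureTheory Set Real Filter Topology
open scoped ContDiff

private theorem ulow_U0 (K : ℝ × ℝ → ℝ) :
    Uz K 0 = fun x => Real.log (K (x - pt)) := by
  funext x
  unfold Uz
  rw [add_zero]

private theorem ulow_refl1 {K R : ℝ × ℝ → ℝ} (hG : IsGreen K R) (x : ℝ × ℝ) :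
    Uz K 0 (-x.1, x.2) = Uz K 0 x := by
  rw [ulow_U0]
  show Real.log (K ((-x.1, x.2) - pt)) = Real.log (K (x - pt))
  congr 1
  have h1 : ((-x.1, x.2) - pt : ℝ × ℝ) = (-(x - pt + (1, 0)).1, (x - pt + (1, 0)).2) := by
    unfold pt
    ext
    · show -x.1 - 1 / 2 = -(x.1 - 1 / 2 + 1)
      ring
    · show x.2 - 1 / 2 = x.2 - 1 / 2 + 0
      ring
  rw [h1, hG.refl1]
  have h2 := (hG.per (x - pt)).1
  rw [← h2]
  congr 1
  ext
  · rfl
  · show (x - pt).2 + 0 = (x - pt).2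
    ring

private theorem ulow_refl2 {K R : ℝ × ℝ → ℝ} (hG : IsGreen K R) (x : ℝ × ℝ) :
    Uz K 0 (x.1, -x.2) = Uz K 0 x := by
  rw [ulow_U0]
  show Real.log (K ((x.1, -x.2) - pt)) = Real.log (K (x - pt))
  congr 1
  have h1 : ((x.1, -x.2) - pt : ℝ × ℝ) = ((x - pt + (0, 1)).1, -(x - pt + (0, 1)).2) := by
    unfold pt
    ext
    · show x.1 - 1 / 2 = x.1 - 1 / 2 + 0
      ring
    · show -x.2 - 1 / 2 = -(x.2 - 1 / 2 + 1)
      ring
  rw [h1, hG.refl2]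
  have h2 := (hG.per (x - pt)).2
  rw [← h2]
  congr 1
  ext
  · show (x - pt).1 + 0 = (x - pt).1
    ring
  · rfl

private theorem ulow_swap {K R : ℝ × ℝ → ℝ} (hG : IsGreen K R) (x : ℝ × ℝ) :
    Uz K 0 (x.2, x.1) = Uz K 0 x := by
  rw [ulow_U0]
  show Real.log (K ((x.2, x.1) - pt)) = Real.log (K (x - pt))
  congr 1
  rw [← hG.swap (x - pt)]
  rfl

private theorem ulow_notLat {x : ℝ × ℝ} (hx : nrm x ≤ 1 / 4) : x - pt ∉ Lat := by
  rintro ⟨m, n, h⟩
  have h1 : x.1 - 1 / 2 = m := congrArg Prod.fst h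
  have hn : 0 ≤ nsq x := by unfold nsq; positivity
  have h2 : nsq x ≤ (1 / 4) ^ 2 := by
    have h3 := Real.sq_sqrt hn
    have h4 : 0 ≤ nrm x := Real.sqrt_nonneg _
    have h5 : nrm x ^ 2 = nsq x := h3
    rw [← h5]
    exact pow_le_pow_left₀ h4 hx 2
  have h3 : x.1 ^ 2 ≤ (1 / 4) ^ 2 := by
    unfold nsq at h2
    nlinarith [sq_nonneg x.2]
  have h4 : |x.1| ≤ 1 / 4 := abs_le_of_sq_le_sq h3 (by norm_num)
  obtain ⟨h5, h6⟩ := abs_le.1 h4
  have h7 : (-1 : ℝ) < m := by linarith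
  have h8 : (m : ℝ) < 0 := by linarith
  have h9 : (-1 : ℤ) < m := by exact_mod_cast h7
  have h10 : m < (0 : ℤ) := by exact_mod_cast h8
  omega

private theorem ulow_le (n : ℕ) : ((n : ℕ) : WithTop ℕ∞) + 1 ≤ ∞ := by
  have h : (((n : ℕ) : WithTop ℕ∞) + 1) = (((n + 1 : ℕ) : ℕ∞) : WithTop ℕ∞) := by
    push_cast
    rfl
  rw [h]
  exact WithTop.coe_le_coe.2 le_top

private theorem ulow_second {A B : ℝ × ℝ → ℝ} (hA : ContDiffAt ℝ 2 A 0) (hB : ContDiffAt ℝ 2 B 0) :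
    D1 (D1 (fun y : ℝ × ℝ => y.1 * A y + y.2 * B y)) 0 = 2 * D1 A 0 ∧
    D1 (D2 (fun y : ℝ × ℝ => y.1 * A y + y.2 * B y)) 0 = D2 A 0 + D1 B 0 ∧
    D2 (D2 (fun y : ℝ × ℝ => y.1 * A y + y.2 * B y)) 0 = 2 * D2 B 0 := by
  have dA := eventually_differentiableAt hA
  have dB := eventually_differentiableAt hB
  have d1 : ∀ y : ℝ × ℝ, DifferentiableAt ℝ (fun y : ℝ × ℝ => y.1) y := fun y => by fun_prop
  have d2 : ∀ y : ℝ × ℝ, DifferentiableAt ℝ (fun y : ℝ × ℝ => y.2) y := fun y => by fun_prop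
  have e1 : D1 (fun y : ℝ × ℝ => y.1 * A y + y.2 * B y) =ᶠ[𝓝 0]
      fun y => A y + y.1 * D1 A y + y.2 * D1 B y := by
    filter_upwards [dA, dB] with y ha hb
    rw [D1_add ((d1 y).fun_mul ha) ((d2 y).fun_mul hb), D1_mul (d1 y) ha, D1_mul (d2 y) hb, D1_fst, D1_snd]
    ring
  have e2 : D2 (fun y : ℝ × ℝ => y.1 * A y + y.2 * B y) =ᶠ[𝓝 0]
      fun y => B y + y.1 * D2 A y + y.2 * D2 B y := by
    filter_upwards [dA, dB] with y ha hb
    rw [D2_add ((d1 y).fun_mul ha) ((d2 y).fun_mul hb), D2_mul (d1 y) ha, D2_mul (d2 y) hb, D2_fst, D2_snd]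
    ring
  have a0 : DifferentiableAt ℝ A 0 := dA.self_of_nhds
  have b0 : DifferentiableAt ℝ B 0 := dB.self_of_nhds
  have a1 := differentiableAt_D1 hA
  have a2 := differentiableAt_D2 hA
  have b1 := differentiableAt_D1 hB
  have b2 := differentiableAt_D2 hB
  have z1 : ((0 : ℝ × ℝ)).1 = 0 := rfl
  have z2 : ((0 : ℝ × ℝ)).2 = 0 := rfl
  refine ⟨?_, ?_, ?_⟩
  · rw [D1_congr e1, D1_add (a0.fun_add ((d1 0).fun_mul a1)) ((d2 0).fun_mul b1), D1_add a0 ((d1 0).fun_mul a1),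
      D1_mul (d1 0) a1, D1_mul (d2 0) b1, D1_fst, D1_snd, z1, z2]
    ring
  · rw [D1_congr e2, D1_add (b0.fun_add ((d1 0).fun_mul a2)) ((d2 0).fun_mul b2), D1_add b0 ((d1 0).fun_mul a2),
      D1_mul (d1 0) a2, D1_mul (d2 0) b2, D1_fst, D1_snd, z1, z2]
    ring
  · rw [D2_congr e2, D2_add (b0.fun_add ((d1 0).fun_mul a2)) ((d2 0).fun_mul b2), D2_add b0 ((d1 0).fun_mul a2),
      D2_mul (d1 0) a2, D2_mul (d2 0) b2, D2_fst, D2_snd, z1, z2]
    ring

/-- (U2) -/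
theorem U_lower {K R : ℝ × ℝ → ℝ} (hG : IsGreen K R) : ∃ C : ℝ, 0 < C ∧
    ∀ x, nrm x ≤ 1 / 4 → K pt * Real.exp (-(C * nsq x)) ≤ K (x - pt) ∧
      |x.1 * D1 (Uz K 0) x + x.2 * D2 (Uz K 0) x + 2 * π * nsq x| ≤ C * nsq x ^ 2 := by
  set U := Uz K 0 with hU
  set V : Set (ℝ × ℝ) := {x | x - pt ∉ Lat} with hVdef
  have hVK : V = (fun x => K (x - pt)) ⁻¹' {0}ᶜ := by
    ext x
    simp only [hVdef, mem_ofPred_eq, mem_preimage, mem_compl_iff, mem_singleton_iff, hG.zero_iff]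
  have hKs : ContDiff ℝ ∞ (fun x => K (x - pt)) := hG.smoothK.comp (by fun_prop)
  have hVo : IsOpen V := by
    rw [hVK]
    exact isOpen_compl_singleton.preimage hKs.continuous
  have hsub : {x : ℝ × ℝ | nrm x ≤ 1 / 4} ⊆ V := fun x hx => ulow_notLat hx
  have h0V : (0 : ℝ × ℝ) ∈ V := by
    apply hsub
    show nrm 0 ≤ 1 / 4
    have : nrm (0 : ℝ × ℝ) = 0 := by simp [nrm, nsq]
    rw [this]
    norm_num
  have hUs : ContDiffOn ℝ ∞ U V := by
    rw [hU, ulow_U0]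
    apply ContDiffOn.log hKs.contDiffOn
    intro x hx h
    exact hx ((hG.zero_iff _).1 h)
  have hUat : ∀ x ∈ V, ContDiffAt ℝ ∞ U x := fun x hx => hUs.contDiffAt (hVo.mem_nhds hx)
  have hle : ∀ n : ℕ, ((n : ℕ∞) : WithTop ℕ∞) ≤ ∞ := fun n => by exact_mod_cast le_top
  -- symmetries
  have f1 : (fun y : ℝ × ℝ => U (-y.1, y.2)) = U := funext fun y => ulow_refl1 hG y
  have f2 : (fun y : ℝ × ℝ => U (y.1, -y.2)) = U := funext fun y => ulow_refl2 hG y
  have f3 : (fun y : ℝ × ℝ => U (y.2, y.1)) = U := funext fun y => ulow_swap hG y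
  have hev : ∀ x : ℝ × ℝ, U (-x) = U x := by
    intro x
    have h1 := congrFun f1 x
    have h2 := congrFun f2 (-x.1, x.2)
    simp only at h1 h2
    rw [← h1, ← h2]
    rfl
  -- second derivatives of `U` at zero
  have hz12 : D1 (D2 U) 0 = 0 := by
    have g : (fun y : ℝ × ℝ => D2 U (-y.1, y.2)) = D2 U := by
      funext y
      rw [← D2_refl1 U y, f1]
    have h := D1_refl1 (D2 U) 0
    rw [g] at h
    have z : ((-((0 : ℝ × ℝ)).1, ((0 : ℝ × ℝ)).2) : ℝ × ℝ) = 0 := by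
      ext <;> simp
    rw [z] at h
    linarith
  have hz1122 : D1 (D1 U) 0 = D2 (D2 U) 0 := by
    have g : D1 U = fun y => D2 U (y.2, y.1) := by
      funext y
      rw [← D1_swap U y, f3]
    conv_lhs => rw [g]
    rw [D1_swap]
    rfl
  have hlap : D1 (D1 U) 0 + D2 (D2 U) 0 = -(4 * π) := by
    have h1 := (green_logsing hG).2 (0 - pt) h0V
    rw [← Lap_translate_sub (Gf K) pt 0] at h1
    have h2 : (fun y => Gf K (y - pt)) = fun y => -(1 / (4 * π)) * U y := by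
      funext y
      rw [hU, ulow_U0]
      rfl
    rw [h2, Lap_const_mul ((hUat 0 h0V).of_le (hle 2))] at h1
    have h3 : Lap U 0 = D1 (D1 U) 0 + D2 (D2 U) 0 := rfl
    rw [← h3]
    have hpi := Real.pi_pos
    field_simp at h1
    linarith
  have hz11 : D1 (D1 U) 0 = -(2 * π) := by linarith
  have hz22 : D2 (D2 U) 0 = -(2 * π) := by linarith
  -- the function `P = U - U 0 + pi |x|^2`
  set P : ℝ × ℝ → ℝ := fun x => U x + (π * nsq x - U 0) with hP
  have hqs : ContDiff ℝ ∞ (fun x : ℝ × ℝ => π * nsq x - U 0) := by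
    unfold nsq
    fun_prop
  have hPs : ContDiffOn ℝ ∞ P V := hUs.add hqs.contDiffOn
  have hq1 : D1 (fun x : ℝ × ℝ => π * nsq x - U 0) = fun x => 2 * π * x.1 := by
    funext x
    have d : DifferentiableAt ℝ nsq x := by unfold nsq; fun_prop
    rw [D1_sub (d.const_mul π) (by fun_prop), D1_const_mul d, D1_const, gls_D1_nsq]
    ring
  have hq2 : D2 (fun x : ℝ × ℝ => π * nsq x - U 0) = fun x => 2 * π * x.2 := by
    funext x
    have d : DifferentiableAt ℝ nsq x := by unfold nsq; fun_prop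
    rw [D2_sub (d.const_mul π) (by fun_prop), D2_const_mul d, D2_const, gls_D2_nsq]
    ring
  have hdU : ∀ x ∈ V, DifferentiableAt ℝ U x := fun x hx => (hUat x hx).differentiableAt (by simp)
  have hdq : ∀ x : ℝ × ℝ, DifferentiableAt ℝ (fun x : ℝ × ℝ => π * nsq x - U 0) x := fun x =>
    (hqs.contDiffAt).differentiableAt (by simp)
  have hP1 : ∀ x ∈ V, D1 P x = D1 U x + 2 * π * x.1 := by
    intro x hx
    rw [hP, D1_add (hdU x hx) (hdq x), hq1]
  have hP2 : ∀ x ∈ V, D2 P x = D2 U x + 2 * π * x.2 := by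
    intro x hx
    rw [hP, D2_add (hdU x hx) (hdq x), hq2]
  have hev1 : D1 P =ᶠ[𝓝 0] fun x => D1 U x + 2 * π * x.1 :=
    Filter.eventually_of_mem (hVo.mem_nhds h0V) hP1
  have hev2 : D2 P =ᶠ[𝓝 0] fun x => D2 U x + 2 * π * x.2 :=
    Filter.eventually_of_mem (hVo.mem_nhds h0V) hP2
  have hU2 : ContDiffAt ℝ 2 U 0 := (hUat 0 h0V).of_le (hle 2)
  have l1 : ∀ c : ℝ, DifferentiableAt ℝ (fun x : ℝ × ℝ => c * x.1) 0 := fun c => by fun_prop
  have l2 : ∀ c : ℝ, DifferentiableAt ℝ (fun x : ℝ × ℝ => c * x.2) 0 := fun c => by fun_prop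
  have hP11 : D1 (D1 P) 0 = 0 := by
    rw [D1_congr hev1, D1_add (differentiableAt_D1 hU2) (l1 _), D1_const_mul (by fun_prop), D1_fst,
      hz11]
    ring
  have hP12 : D1 (D2 P) 0 = 0 := by
    rw [D1_congr hev2, D1_add (differentiableAt_D2 hU2) (l2 _), D1_const_mul (by fun_prop), D1_snd,
      hz12]
    ring
  have hP22 : D2 (D2 P) 0 = 0 := by
    rw [D2_congr hev2, D2_add (differentiableAt_D2 hU2) (l2 _), D2_const_mul (by fun_prop), D2_snd,
      hz22]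
    ring
  have hnsqe : ∀ x : ℝ × ℝ, nsq (-x) = nsq x := by
    intro x
    unfold nsq
    simp
  have hPe : ∀ x : ℝ × ℝ, P (-x) = P x := by
    intro x
    show U (-x) + (π * nsq (-x) - U 0) = U x + (π * nsq x - U 0)
    rw [hev, hnsqe]
  have hP0 : P 0 = 0 := by
    show U 0 + (π * nsq 0 - U 0) = 0
    simp [nsq]
  obtain ⟨C1, hC1, hB1⟩ := taylor4 hVo hsub (hPs.of_le (hle 4)) (fun x _ => hPe x) hP0 hP11 hP12 hP22
  -- the function `x . grad P`
  have hPat : ContDiffAt ℝ ∞ P 0 := hPs.contDiffAt (hVo.mem_nhds h0V)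
  have hD1P : ContDiffOn ℝ 4 (D1 P) V := by
    intro x hx
    have h1 : ContDiffAt ℝ ((4 : ℕ) + 1) P x :=
      (hPs.contDiffAt (hVo.mem_nhds hx)).of_le (ulow_le 4)
    exact (contDiffAt_D1 h1).contDiffWithinAt
  have hD2P : ContDiffOn ℝ 4 (D2 P) V := by
    intro x hx
    have h1 : ContDiffAt ℝ ((4 : ℕ) + 1) P x :=
      (hPs.contDiffAt (hVo.mem_nhds hx)).of_le (ulow_le 4)
    exact (contDiffAt_D2 h1).contDiffWithinAt
  have hneg : ∀ x v : ℝ × ℝ, fderiv ℝ P (-x) v = -fderiv ℝ P x v := by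
    intro x v
    have h1 := fderiv_comp_smul (𝕜 := ℝ) (f := P) (x := x) (-1)
    have h2 : (fun y => P ((-1 : ℝ) • y)) = P := by
      funext y
      rw [neg_one_smul, hPe]
    rw [h2] at h1
    rw [neg_one_smul, neg_one_smul] at h1
    rw [h1]
    simp
  set S : ℝ × ℝ → ℝ := fun y => y.1 * D1 P y + y.2 * D2 P y with hS
  have hSs : ContDiffOn ℝ 4 S V := by
    have c1 : ContDiffOn ℝ 4 (fun y : ℝ × ℝ => y.1) V := (by fun_prop : ContDiff ℝ 4 _).contDiffOn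
    have c2 : ContDiffOn ℝ 4 (fun y : ℝ × ℝ => y.2) V := (by fun_prop : ContDiff ℝ 4 _).contDiffOn
    exact (c1.mul hD1P).add (c2.mul hD2P)
  have hSe : ∀ x, S (-x) = S x := by
    intro x
    show (-x).1 * D1 P (-x) + (-x).2 * D2 P (-x) = x.1 * D1 P x + x.2 * D2 P x
    unfold D1 D2
    rw [hneg, hneg]
    show -x.1 * _ + -x.2 * _ = _
    ring
  have hS0 : S 0 = 0 := by
    show (0 : ℝ) * _ + (0 : ℝ) * _ = 0
    ring
  have hA : ContDiffAt ℝ 2 (D1 P) 0 :=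
    contDiffAt_D1 (hPat.of_le (ulow_le 2))
  have hB : ContDiffAt ℝ 2 (D2 P) 0 :=
    contDiffAt_D2 (hPat.of_le (ulow_le 2))
  obtain ⟨hS11, hS12, hS22⟩ := ulow_second hA hB
  have hcomm : D2 (D1 P) 0 = 0 := by
    rw [← D1_D2_comm (hPat.of_le (hle 2)), hP12]
  rw [hP11, mul_zero] at hS11
  rw [hcomm, hP12, add_zero] at hS12
  rw [hP22, mul_zero] at hS22
  obtain ⟨C2, hC2, hB2⟩ := taylor4 hVo hsub hSs (fun x _ => hSe x) hS0 hS11 hS12 hS22
  refine ⟨π + C1 + C2, by positivity, fun x hx => ⟨?_, ?_⟩⟩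
  · have hxV := hsub hx
    have h1 := (abs_le.1 (hB1 x hx)).1
    have hn : 0 ≤ nsq x := by unfold nsq; positivity
    have hn1 : nsq x ≤ 1 := by
      have h3 := Real.sq_sqrt hn
      have h4 : 0 ≤ nrm x := Real.sqrt_nonneg _
      have h5 : nrm x ^ 2 = nsq x := h3
      rw [← h5]
      nlinarith
    have hKx : 0 < K (x - pt) :=
      lt_of_le_of_ne (hG.nonneg _) (fun h => hxV ((hG.zero_iff _).1 h.symm))
    have hK0 : 0 < K (0 - pt) :=
      lt_of_le_of_ne (hG.nonneg _) (fun h => h0V ((hG.zero_iff _).1 h.symm))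
    have hKpt : K pt = K (0 - pt) := by
      have a1 := hG.refl1 pt
      have a2 := hG.refl2 (-pt.1, pt.2)
      rw [← a1, ← a2]
      congr 1
      ext
      · show -pt.1 = 0 - pt.1
        ring
      · show -pt.2 = 0 - pt.2
        ring
    have hUx : U x = Real.log (K (x - pt)) := by rw [hU, ulow_U0]
    have hU0 : U 0 = Real.log (K (0 - pt)) := by rw [hU, ulow_U0]
    have hPx : P x = U x + (π * nsq x - U 0) := rfl
    have h2 : nsq x ^ 2 ≤ nsq x := by nlinarith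
    have h3 : U 0 - (π + C1 + C2) * nsq x ≤ U x := by
      rw [hPx] at h1
      nlinarith [mul_le_mul_of_nonneg_left h2 hC1.le, mul_nonneg hC2.le hn]
    rw [hKpt, ← Real.exp_log hK0, ← Real.exp_add, ← Real.exp_log hKx, ← hUx, ← hU0]
    apply Real.exp_le_exp.2
    linarith
  · have hxV := hsub hx
    have h1 := hB2 x hx
    have h2 : S x = x.1 * D1 U x + x.2 * D2 U x + 2 * π * nsq x := by
      show x.1 * D1 P x + x.2 * D2 P x = _
      rw [hP1 x hxV, hP2 x hxV]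
      unfold nsq
      ring
    rw [← h2]
    refine h1.trans ?_
    have hpi := Real.pi_pos
    have : 0 ≤ nsq x ^ 2 := sq_nonneg _
    nlinarith [mul_nonneg hpi.le this, mul_nonneg hC1.le this]

end Pool.Agent.AO
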