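import Pool.Agent.Lib.MP_10e52e_an.Tools
import Pool.Agent.Lib.MP_10e52e_an.Gls
import Pool.Agent.Lib.MP_10e52e_an.Gbd
import Pool.Agent.Lib.MP_10e52e_an.Gnear
import Pool.Agent.Lib.MP_10e52e_an.Symm

/-! MP_10e52e_an row Usign: (U3) -/

namespace Pool.Agent.AO

open MeasureTheory Set Real
open scoped ContDiff

theorem Usign_lat_refl {K R : ℝ × ℝ → ℝ} (hG : IsGreen K R) {y : ℝ × ℝ} (hy : y ∉ Lat) :
    ((-y.1, y.2) : ℝ × ℝ) ∉ Lat := by
  rw [← hG.zero_iff] at hy ⊢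
  rwa [hG.refl1]

theorem Usign_lat_swap {K R : ℝ × ℝ → ℝ} (hG : IsGreen K R) {y : ℝ × ℝ} (hy : y ∉ Lat) :
    ((y.2, y.1) : ℝ × ℝ) ∉ Lat := by
  rw [← hG.zero_iff] at hy ⊢
  rwa [hG.swap]

theorem Usign_lat_add {K R : ℝ × ℝ → ℝ} (hG : IsGreen K R) {y : ℝ × ℝ} (hy : y ∉ Lat)
    (m n : ℤ) : ((y.1 + m, y.2 + n) : ℝ × ℝ) ∉ Lat := by
  rw [← hG.zero_iff] at hy ⊢
  rwa [hG.per.add_int]

theorem Usign_D2 {K R : ℝ × ℝ → ℝ} (hG : IsGreen K R) (y : ℝ × ℝ) :
    D2 (fun z => Real.log (K z)) y = D1 (fun z => Real.log (K z)) (y.2, y.1) := by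
  have h := D1_swap (fun z => Real.log (K z)) (y.2, y.1)
  have e : (fun z : ℝ × ℝ => (fun w => Real.log (K w)) (z.2, z.1))
      = fun z => Real.log (K z) := by
    funext z
    show Real.log (K (z.2, z.1)) = Real.log (K z)
    rw [hG.swap]
  rw [e] at h
  exact h.symm

theorem Usign_refl {K R : ℝ × ℝ → ℝ} (hG : IsGreen K R) (y : ℝ × ℝ) :
    D1 (fun z => Real.log (K z)) y = - D1 (fun z => Real.log (K z)) (-y.1, y.2) := by
  have h := D1_refl1 (fun z => Real.log (K z)) y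
  have e : (fun z : ℝ × ℝ => (fun w => Real.log (K w)) (-z.1, z.2))
      = fun z => Real.log (K z) := by
    funext z
    show Real.log (K (-z.1, z.2)) = Real.log (K z)
    rw [hG.refl1]
  rw [e] at h
  exact h

theorem Usign_per {K R : ℝ × ℝ → ℝ} (hG : IsGreen K R) (m n : ℤ) (y : ℝ × ℝ) :
    D1 (fun z => Real.log (K z)) (y.1 + m, y.2 + n) = D1 (fun z => Real.log (K z)) y :=
  (hG.per.log.D1).add_int m n y

theorem Usign_pos {K R : ℝ × ℝ → ℝ} (hG : IsGreen K R) {y : ℝ × ℝ} (hy : y ∉ Lat)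
    (h0 : 0 ≤ y.1) (h1 : y.1 ≤ 1 / 2) : 0 ≤ D1 (fun z => Real.log (K z)) y := by
  refine le_trans ?_ (hG.mono y hy h0 h1)
  have hs : 0 ≤ Real.sin (2 * π * y.1) := by
    apply Real.sin_nonneg_of_nonneg_of_le_pi
    · have := Real.pi_pos; positivity
    · have := Real.pi_pos; nlinarith
  have := Real.pi_pos
  positivity

theorem Usign_neg {K R : ℝ × ℝ → ℝ} (hG : IsGreen K R) {y : ℝ × ℝ} (hy : y ∉ Lat)
    (h0 : -(1 / 2) ≤ y.1) (h1 : y.1 ≤ 0) : D1 (fun z => Real.log (K z)) y ≤ 0 := by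
  rw [Usign_refl hG]
  have := Usign_pos hG (Usign_lat_refl hG hy) (show (0 : ℝ) ≤ -y.1 by linarith)
    (show -y.1 ≤ 1 / 2 by linarith)
  linarith

/-- `sin (2 π y₁) D1 (log K) ≥ 0` everywhere -/
theorem Usign_sin {K R : ℝ × ℝ → ℝ} (hG : IsGreen K R) {y : ℝ × ℝ} (hy : y ∉ Lat) :
    0 ≤ Real.sin (2 * π * y.1) * D1 (fun z => Real.log (K z)) y := by
  have hy' := Usign_lat_add hG hy (-round y.1) 0
  have e1 := Usign_per hG (-round y.1) 0 y
  have e2 : Real.sin (2 * π * y.1) = Real.sin (2 * π * (y.1 + ((-round y.1 : ℤ) : ℝ))) := by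
    have := Real.sin_sub_int_mul_two_pi (2 * π * y.1) (round y.1)
    rw [← this]
    congr 1
    push_cast; ring
  rw [e2, ← e1]
  have hab : |y.1 + ((-round y.1 : ℤ) : ℝ)| ≤ 1 / 2 := by
    push_cast
    rw [← sub_eq_add_neg]
    exact abs_sub_round y.1
  obtain ⟨ha, hb⟩ := abs_le.1 hab
  set t : ℝ := y.1 + ((-round y.1 : ℤ) : ℝ) with ht
  have hpi := Real.pi_pos
  rcases le_total 0 t with h | h
  · apply mul_nonneg
    · apply Real.sin_nonneg_of_nonneg_of_le_pi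
      · positivity
      · nlinarith
    · exact Usign_pos hG hy' h hb
  · apply mul_nonneg_of_nonpos_of_nonpos
    · apply Real.sin_nonpos_of_nonpos_of_neg_pi_le
      · nlinarith
      · nlinarith
    · exact Usign_neg hG hy' ha h

theorem Usign_U1 (K : ℝ × ℝ → ℝ) (x : ℝ × ℝ) :
    D1 (Uz K 0) x = D1 (fun z => Real.log (K z)) (x - pt) := by
  have e : Uz K 0 = fun x => (fun z => Real.log (K z)) (x - pt) := by
    funext x
    simp [Uz]
  rw [e]
  exact D1_translate_sub (fun z => Real.log (K z)) pt x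

theorem Usign_U2 (K : ℝ × ℝ → ℝ) (x : ℝ × ℝ) :
    D2 (Uz K 0) x = D2 (fun z => Real.log (K z)) (x - pt) := by
  have e : Uz K 0 = fun x => (fun z => Real.log (K z)) (x - pt) := by
    funext x
    simp [Uz]
  rw [e]
  exact D2_translate_sub (fun z => Real.log (K z)) pt x

theorem Usign_shift (t : ℝ) : Real.sin (2 * π * t) = - Real.sin (2 * π * (t - 1 / 2)) := by
  have : 2 * π * t = 2 * π * (t - 1 / 2) + π := by ring
  rw [this, Real.sin_add_pi]

/-- one coordinate of the first statement -/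
theorem Usign_one {K R : ℝ × ℝ → ℝ} (hG : IsGreen K R) {y : ℝ × ℝ} (hy : y ∉ Lat) {t : ℝ}
    (ht : y.1 = t - 1 / 2) (h0 : -1 / 2 < t) (h1 : t ≤ 1 / 2) :
    t * D1 (fun z => Real.log (K z)) y ≤ 0 := by
  rcases le_total 0 t with h | h
  · have := Usign_neg hG hy (by rw [ht]; linarith) (by rw [ht]; linarith)
    exact mul_nonpos_of_nonneg_of_nonpos h this
  · have h2 := Usign_pos hG (Usign_lat_add hG hy 1 0)
      (by simp only [ht]; push_cast; linarith) (by simp only [ht]; push_cast; linarith)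
    rw [Usign_per hG 1 0 y] at h2
    exact mul_nonpos_of_nonpos_of_nonneg h h2

theorem Usign_sin_ge {t : ℝ} (ht : |t| ≤ 1 / 4) : 4 * t ^ 2 ≤ Real.sin (2 * π * t) * t := by
  have hpi := Real.pi_pos
  have key : ∀ s : ℝ, 0 ≤ s → s ≤ 1 / 4 → 4 * s ≤ Real.sin (2 * π * s) := by
    intro s h0 h1
    have := Real.mul_le_sin (x := 2 * π * s) (by positivity) (by nlinarith)
    have e : 2 / π * (2 * π * s) = 4 * s := by field_simp; ring
    rwa [e] at this
  rcases le_total 0 t with h | h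
  · have := key t h (le_trans (le_abs_self t) ht)
    nlinarith
  · have := key (-t) (by linarith) (le_trans (neg_le_abs t) ht)
    have e : Real.sin (2 * π * -t) = - Real.sin (2 * π * t) := by
      rw [← Real.sin_neg]; congr 1; ring
    rw [e] at this
    nlinarith

theorem Usign_sin_abs (t : ℝ) : |Real.sin (2 * π * t)| ≤ 2 * π * |t| := by
  have h : |Real.sin (2 * π * t)| ≤ |2 * π * t| := Real.abs_sin_le_abs
  have hpi := Real.pi_pos
  rwa [abs_mul, abs_of_pos (by positivity : (0 : ℝ) < 2 * π)] at h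

/-- `D1 (log K) = 2 x₁ / |x|² - 4 π D1 R` near 0 -/
theorem Usign_near {K R : ℝ × ℝ → ℝ} (hG : IsGreen K R) {y : ℝ × ℝ} (hy : y ∈ Box 1)
    (hl : y ∉ Lat) :
    D1 (fun z => Real.log (K z)) y = 2 * (y.1 / nsq y) - 4 * π * D1 R y ∧
    D2 (fun z => Real.log (K z)) y = 2 * (y.2 / nsq y) - 4 * π * D2 R y := by
  have hy0 : y ≠ 0 := by
    rintro rfl
    exact hl ⟨0, 0, by ext <;> simp⟩
  obtain ⟨_, h1, h2⟩ := green_near hG y hy hy0
  have hK : K y ≠ 0 := fun h => hl ((hG.zero_iff y).1 h)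
  have hd : DifferentiableAt ℝ (fun z => Real.log (K z)) y :=
    ((hG.smoothK.differentiable (by simp)).differentiableAt).log hK
  have e1 : D1 (Gf K) y = -(1 / (4 * π)) * D1 (fun z => Real.log (K z)) y := D1_const_mul hd _
  have e2 : D2 (Gf K) y = -(1 / (4 * π)) * D2 (fun z => Real.log (K z)) y := D2_const_mul hd _
  rw [e1] at h1
  rw [e2] at h2
  have hpi := Real.pi_pos.ne'
  constructor
  · have : D1 (fun z => Real.log (K z)) y =
        -(4 * π) * (-(1 / (4 * π)) * D1 (fun z => Real.log (K z)) y) := by field_simp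
    rw [this, h1]; field_simp; ring
  · have : D2 (fun z => Real.log (K z)) y =
        -(4 * π) * (-(1 / (4 * π)) * D2 (fun z => Real.log (K z)) y) := by field_simp
    rw [this, h2]; field_simp; ring

theorem Usign_R {K R : ℝ × ℝ → ℝ} (hG : IsGreen K R) : ∃ δ M : ℝ, 0 < δ ∧ 1 ≤ M ∧
    ∀ y : ℝ × ℝ, |y.1| < δ → |y.2| < δ → |D1 R y| ≤ M ∧ |D2 R y| ≤ M := by
  have hopen : IsOpen (Box 1) := by
    have : Box 1 = (fun x : ℝ × ℝ => |x.1|) ⁻¹' Iio 1 ∩ (fun x : ℝ × ℝ => |x.2|) ⁻¹' Iio 1 := rfl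
    rw [this]
    exact (isOpen_Iio.preimage (by fun_prop)).inter (isOpen_Iio.preimage (by fun_prop))
  have h0 : (0 : ℝ × ℝ) ∈ Box 1 := by simp [Box]
  have hR : ContDiffAt ℝ 1 R 0 :=
    ((hG.smoothR 0 h0).contDiffAt (hopen.mem_nhds h0)).of_le (by exact_mod_cast le_top)
  have c1 : ContinuousAt (D1 R) 0 :=
    (contDiffAt_D1 (n := 0) (by simpa using hR)).continuousAt
  have c2 : ContinuousAt (D2 R) 0 :=
    (contDiffAt_D2 (n := 0) (by simpa using hR)).continuousAt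
  obtain ⟨δ1, hδ1, k1⟩ := Metric.continuousAt_iff.1 c1 1 one_pos
  obtain ⟨δ2, hδ2, k2⟩ := Metric.continuousAt_iff.1 c2 1 one_pos
  refine ⟨min δ1 δ2, |D1 R 0| + |D2 R 0| + 1, lt_min hδ1 hδ2, ?_, ?_⟩
  · have := abs_nonneg (D1 R 0); have := abs_nonneg (D2 R 0); linarith
  · intro y hy1 hy2
    have hd : dist y 0 < min δ1 δ2 := by
      rw [Prod.dist_eq, Real.dist_eq, Real.dist_eq]
      show max |y.1 - 0| |y.2 - 0| < min δ1 δ2
      rw [sub_zero, sub_zero]
      exact max_lt hy1 hy2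
    have a1 := k1 (lt_of_lt_of_le hd (min_le_left _ _))
    have a2 := k2 (lt_of_lt_of_le hd (min_le_right _ _))
    rw [Real.dist_eq] at a1 a2
    have b1 := abs_sub_abs_le_abs_sub (D1 R y) (D1 R 0)
    have b2 := abs_sub_abs_le_abs_sub (D2 R y) (D2 R 0)
    have := abs_nonneg (D1 R 0); have := abs_nonneg (D2 R 0)
    constructor <;> linarith

/-- (U3) -/
theorem U_sign {K R : ℝ × ℝ → ℝ} (hG : IsGreen K R) :
    (∀ x ∈ Q, x - pt ∉ Lat → x.1 * D1 (Uz K 0) x ≤ 0 ∧ x.2 * D2 (Uz K 0) x ≤ 0) ∧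
    (∀ x, x - pt ∉ Lat → Real.sin (2 * π * x.1) * D1 (Uz K 0) x +
      Real.sin (2 * π * x.2) * D2 (Uz K 0) x ≤ 0) ∧
    ∃ rp : ℝ, 0 < rp ∧ rp ≤ 1 / 8 ∧ ∀ x, x - pt ∉ Lat → tn (x - pt) ≤ rp →
      Real.sin (2 * π * x.1) * D1 (Uz K 0) x + Real.sin (2 * π * x.2) * D2 (Uz K 0) x
        ≤ -(2 * π) := by
  refine ⟨?_, ?_, ?_⟩
  · intro x hx hl
    obtain ⟨⟨a1, a2⟩, ⟨b1, b2⟩⟩ := hx
    refine ⟨?_, ?_⟩
    · rw [Usign_U1]
      exact Usign_one hG hl rfl a1 a2
    · rw [Usign_U2, Usign_D2 hG]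
      exact Usign_one hG (Usign_lat_swap hG hl) rfl b1 b2
  · intro x hl
    rw [Usign_U1, Usign_U2, Usign_D2 hG, Usign_shift x.1, Usign_shift x.2]
    have h1 := Usign_sin hG hl
    have h2 := Usign_sin hG (Usign_lat_swap hG hl)
    have e1 : (x - pt).1 = x.1 - 1 / 2 := rfl
    have e2 : (x - pt).2 = x.2 - 1 / 2 := rfl
    simp only [e1, e2] at h1 h2 ⊢
    linarith
  · obtain ⟨δ, M, hδ, hM, hb⟩ := Usign_R hG
    have hM0 : 0 < M := by linarith
    refine ⟨min (1 / 8) (min (δ / 2) (1 / (100 * M))), by positivity, min_le_left _ _, ?_⟩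
    intro x hl htn
    set r : ℝ := min (1 / 8) (min (δ / 2) (1 / (100 * M))) with hr
    have hr1 : r ≤ 1 / 8 := min_le_left _ _
    have hr2 : r ≤ δ / 2 := (min_le_right _ _).trans (min_le_left _ _)
    have hr3 : r ≤ 1 / (100 * M) := (min_le_right _ _).trans (min_le_right _ _)
    rw [Usign_U1, Usign_U2, Usign_shift x.1, Usign_shift x.2]
    have e1 : (x - pt).1 = x.1 - 1 / 2 := rfl
    have e2 : (x - pt).2 = x.2 - 1 / 2 := rfl
    rw [← e1, ← e2]
    set y : ℝ × ℝ := x - pt with hy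
    -- reduction to a neighbourhood of 0
    have p1 : D1 (fun z => Real.log (K z)) (y.1 + ((-round y.1 : ℤ) : ℝ),
        y.2 + ((-round y.2 : ℤ) : ℝ)) = D1 (fun z => Real.log (K z)) y :=
      (hG.per.log.D1).add_int _ _ y
    have p2 : D2 (fun z => Real.log (K z)) (y.1 + ((-round y.1 : ℤ) : ℝ),
        y.2 + ((-round y.2 : ℤ) : ℝ)) = D2 (fun z => Real.log (K z)) y :=
      (hG.per.log.D2).add_int _ _ y
    have q1 : Real.sin (2 * π * y.1) = Real.sin (2 * π * (y.1 + ((-round y.1 : ℤ) : ℝ))) := by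
      have := Real.sin_sub_int_mul_two_pi (2 * π * y.1) (round y.1)
      rw [← this]
      congr 1
      push_cast; ring
    have q2 : Real.sin (2 * π * y.2) = Real.sin (2 * π * (y.2 + ((-round y.2 : ℤ) : ℝ))) := by
      have := Real.sin_sub_int_mul_two_pi (2 * π * y.2) (round y.2)
      rw [← this]
      congr 1
      push_cast; ring
    have hl' := Usign_lat_add hG hl (-round y.1) (-round y.2)
    rw [q1, q2, ← p1, ← p2]
    have ez : ((y.1 + ((-round y.1 : ℤ) : ℝ), y.2 + ((-round y.2 : ℤ) : ℝ)) : ℝ × ℝ) =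
        (y.1 - round y.1, y.2 - round y.2) := by
      push_cast
      rw [← sub_eq_add_neg, ← sub_eq_add_neg]
    have hn : nrm (y.1 + ((-round y.1 : ℤ) : ℝ), y.2 + ((-round y.2 : ℤ) : ℝ)) ≤ r := by
      rw [ez]; exact htn
    clear_value y
    generalize hz1 : y.1 + ((-round y.1 : ℤ) : ℝ) = s at *
    generalize hz2 : y.2 + ((-round y.2 : ℤ) : ℝ) = t at *
    have hns : nsq (s, t) = s ^ 2 + t ^ 2 := rfl
    have hs2 : |s| ≤ r := by
      refine le_trans ?_ hn
      show |s| ≤ Real.sqrt (s ^ 2 + t ^ 2)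
      apply Real.abs_le_sqrt
      nlinarith [sq_nonneg t]
    have ht2 : |t| ≤ r := by
      refine le_trans ?_ hn
      show |t| ≤ Real.sqrt (s ^ 2 + t ^ 2)
      apply Real.abs_le_sqrt
      nlinarith [sq_nonneg s]
    have hbox : ((s, t) : ℝ × ℝ) ∈ Box 1 := ⟨by show |s| < 1; linarith, by show |t| < 1; linarith⟩
    obtain ⟨f1, f2⟩ := Usign_near hG hbox hl'
    have hst : 0 < s ^ 2 + t ^ 2 := by
      by_contra hcon
      have hs0 : s = 0 := by nlinarith [sq_nonneg s, sq_nonneg t]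
      have ht0 : t = 0 := by nlinarith [sq_nonneg s, sq_nonneg t]
      exact hl' ⟨0, 0, by simp [hs0, ht0]⟩
    obtain ⟨g1, g2⟩ := hb (s, t) (by show |s| < δ; linarith) (by show |t| < δ; linarith)
    rw [f1, f2, hns]
    have k1 := Usign_sin_ge (t := s) (by linarith)
    have k2 := Usign_sin_ge (t := t) (by linarith)
    have l1 := Usign_sin_abs s
    have l2 := Usign_sin_abs t
    have hpi := Real.pi_pos
    have hpi2 : π < 3.15 := Real.pi_lt_d2
    -- main term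
    have main : 8 ≤ Real.sin (2 * π * s) * (2 * (s / (s ^ 2 + t ^ 2))) +
        Real.sin (2 * π * t) * (2 * (t / (s ^ 2 + t ^ 2))) := by
      have e : Real.sin (2 * π * s) * (2 * (s / (s ^ 2 + t ^ 2))) +
        Real.sin (2 * π * t) * (2 * (t / (s ^ 2 + t ^ 2))) =
        (2 * (Real.sin (2 * π * s) * s + Real.sin (2 * π * t) * t)) / (s ^ 2 + t ^ 2) := by
        field_simp
      rw [e, le_div_iff₀ hst]
      nlinarith
    have hrM : r * M ≤ 1 / 100 := by
      have := mul_le_mul_of_nonneg_right hr3 hM0.le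
      have e : 1 / (100 * M) * M = 1 / 100 := by field_simp
      rwa [e] at this
    have err : ∀ u d : ℝ, |u| ≤ r → |d| ≤ M → |Real.sin (2 * π * u)| ≤ 2 * π * |u| →
        |Real.sin (2 * π * u) * (4 * π * d)| ≤ 8 / 10 := by
      intro u d hu hd hsu
      rw [abs_mul, abs_mul, abs_of_pos (by positivity : (0 : ℝ) < 4 * π)]
      have h1 : |Real.sin (2 * π * u)| ≤ 2 * π * r :=
        hsu.trans (mul_le_mul_of_nonneg_left hu (by positivity))
      have hr0 : 0 ≤ r := (abs_nonneg u).trans hu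
      calc |Real.sin (2 * π * u)| * (4 * π * |d|) ≤ (2 * π * r) * (4 * π * M) := by
            apply mul_le_mul h1 _ (by positivity) (by positivity)
            exact mul_le_mul_of_nonneg_left hd (by positivity)
        _ = 8 * π ^ 2 * (r * M) := by ring
        _ ≤ 8 * 10 * (1 / 100) := by
            apply mul_le_mul _ hrM (by positivity) (by norm_num)
            nlinarith
        _ = 8 / 10 := by norm_num
    have err1 := abs_le.1 (err s _ hs2 g1 l1)
    have err2 := abs_le.1 (err t _ ht2 g2 l2)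
    have expand : -Real.sin (2 * π * s) * (2 * (s / (s ^ 2 + t ^ 2)) - 4 * π * D1 R (s, t)) +
        -Real.sin (2 * π * t) * (2 * (t / (s ^ 2 + t ^ 2)) - 4 * π * D2 R (s, t)) =
        -(Real.sin (2 * π * s) * (2 * (s / (s ^ 2 + t ^ 2))) +
        Real.sin (2 * π * t) * (2 * (t / (s ^ 2 + t ^ 2)))) +
        Real.sin (2 * π * s) * (4 * π * D1 R (s, t)) +
        Real.sin (2 * π * t) * (4 * π * D2 R (s, t)) := by ring
    simp only at *
    rw [expand]
    linarith [err1.2, err2.2]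

end Pool.Agent.AO
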