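import Pool.Agent.Lib.MP_10e52e_an.Tools
import Pool.Agent.Lib.MP_10e52e_an.Gls
import Pool.Agent.Lib.MP_10e52e_an.Gbd

/-! MP_10e52e_an row Utay: (U4) -/

namespace Pool.Agent.AO

open MeasureTheory Set Real
open scoped ContDiff

theorem utay_nrm_eq (x : ℝ × ℝ) : nrm x = ‖(⟨x.1, x.2⟩ : ℂ)‖ := by
  rw [Complex.norm_def, Complex.normSq_apply]
  unfold nrm nsq
  congr 1
  ring

theorem utay_nrm_add (x y : ℝ × ℝ) : nrm (x + y) ≤ nrm x + nrm y := by
  rw [utay_nrm_eq, utay_nrm_eq, utay_nrm_eq]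
  have h : (⟨(x + y).1, (x + y).2⟩ : ℂ) = ⟨x.1, x.2⟩ + ⟨y.1, y.2⟩ := by
    apply Complex.ext <;> simp
  rw [h]
  exact norm_add_le _ _

theorem utay_nrm_neg (x : ℝ × ℝ) : nrm (-x) = nrm x := by
  unfold nrm nsq
  simp

theorem utay_nrm_smul {t : ℝ} (h0 : 0 ≤ t) (x : ℝ × ℝ) : nrm (t • x) = t * nrm x := by
  have h : nsq (t • x) = t ^ 2 * nsq x := by
    unfold nsq
    simp only [Prod.smul_fst, Prod.smul_snd, smul_eq_mul]
    ring
  unfold nrm
  rw [h, Real.sqrt_mul (sq_nonneg t), Real.sqrt_sq h0]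

theorem utay_norm_le (x : ℝ × ℝ) : ‖x‖ ≤ nrm x := by
  rw [Prod.norm_def]
  apply max_le
  · rw [Real.norm_eq_abs]
    apply Real.abs_le_sqrt
    unfold nsq
    nlinarith [sq_nonneg x.2]
  · rw [Real.norm_eq_abs]
    apply Real.abs_le_sqrt
    unfold nsq
    nlinarith [sq_nonneg x.1]

theorem utay_tn_le (w : ℝ × ℝ) (m n : ℤ) : tn w ≤ nrm (w.1 - m, w.2 - n) := by
  unfold tn nrm
  apply Real.sqrt_le_sqrt
  unfold nsq
  have h1 := round_le w.1 m
  have h2 := round_le w.2 n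
  have h3 := sq_le_sq' (by linarith [abs_nonneg (w.1 - round w.1), abs_nonneg (w.1 - (m : ℝ))]) h1
  have h4 := sq_le_sq' (by linarith [abs_nonneg (w.2 - round w.2), abs_nonneg (w.2 - (n : ℝ))]) h2
  rw [sq_abs, sq_abs] at h3 h4
  simp only
  linarith

theorem utay_tn_add (w x : ℝ × ℝ) : tn w ≤ tn (w + x) + nrm x := by
  refine (utay_tn_le w (round (w + x).1) (round (w + x).2)).trans ?_
  have h := utay_nrm_add ((w + x).1 - round (w + x).1, (w + x).2 - round (w + x).2) (-x)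
  rw [utay_nrm_neg] at h
  refine le_trans (le_of_eq ?_) h
  congr 1
  ext
  · simp only [Prod.fst_add, Prod.fst_neg]; ring
  · simp only [Prod.snd_add, Prod.snd_neg]; ring

/-- periodic functions with values in a normed space -/
def UtayPer {E : Type*} (g : ℝ × ℝ → E) : Prop :=
  ∀ x : ℝ × ℝ, g (x + (1, 0)) = g x ∧ g (x + (0, 1)) = g x

theorem utay_per_fderiv {E : Type*} [NormedAddCommGroup E] [NormedSpace ℝ E] {g : ℝ × ℝ → E}
    (h : UtayPer g) : UtayPer (fderiv ℝ g) := by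
  intro x
  constructor
  · rw [← fderiv_comp_add_right]
    congr 1
    funext y
    exact (h y).1
  · rw [← fderiv_comp_add_right]
    congr 1
    funext y
    exact (h y).2

theorem utay_per_int1 {E : Type*} {g : ℝ × ℝ → E} (h : UtayPer g) (x : ℝ × ℝ) (m : ℤ) :
    g (x.1 + m, x.2) = g x := by
  induction m using Int.induction_on generalizing x with
  | zero => simp
  | succ i ih =>
    have h1 := (h (x.1 + i, x.2)).1
    have e : ((x.1 + (i : ℝ), x.2) : ℝ × ℝ) + (1, 0) = (x.1 + ((i : ℤ) + 1 : ℤ), x.2) := by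
      ext
      · push_cast; simp; ring
      · simp
    rw [e] at h1
    rw [h1]
    exact_mod_cast ih x
  | pred i ih =>
    have h1 := (h (x.1 + ((-(i : ℤ) - 1 : ℤ) : ℝ), x.2)).1
    have e : ((x.1 + ((-(i : ℤ) - 1 : ℤ) : ℝ), x.2) : ℝ × ℝ) + (1, 0) = (x.1 + ((-(i : ℤ) : ℤ) : ℝ), x.2) := by
      ext
      · push_cast; simp; ring
      · simp
    rw [e] at h1
    rw [← h1]
    exact ih x

theorem utay_per_int2 {E : Type*} {g : ℝ × ℝ → E} (h : UtayPer g) (x : ℝ × ℝ) (m : ℤ) :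
    g (x.1, x.2 + m) = g x := by
  induction m using Int.induction_on generalizing x with
  | zero => simp
  | succ i ih =>
    have h1 := (h (x.1, x.2 + i)).2
    have e : ((x.1, x.2 + (i : ℝ)) : ℝ × ℝ) + (0, 1) = (x.1, x.2 + ((i : ℤ) + 1 : ℤ)) := by
      ext
      · simp
      · push_cast; simp; ring
    rw [e] at h1
    rw [h1]
    exact_mod_cast ih x
  | pred i ih =>
    have h1 := (h (x.1, x.2 + ((-(i : ℤ) - 1 : ℤ) : ℝ))).2
    have e : ((x.1, x.2 + ((-(i : ℤ) - 1 : ℤ) : ℝ)) : ℝ × ℝ) + (0, 1) = (x.1, x.2 + ((-(i : ℤ) : ℤ) : ℝ)) := by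
      ext
      · simp
      · push_cast; simp; ring
    rw [e] at h1
    rw [← h1]
    exact ih x

theorem utay_notMem {r : ℝ} (hr : 0 < r) {y : ℝ × ℝ} (hy : r ≤ tn y) : y ∉ Lat := by
  rintro ⟨m, n, rfl⟩
  have : tn ((m : ℝ), (n : ℝ)) = 0 := by
    unfold tn nrm nsq
    simp
  rw [this] at hy
  linarith

/-- bounds for periodic functions away from the lattice -/
theorem utay_bound {E : Type*} [NormedAddCommGroup E] {g : ℝ × ℝ → E} (hp : UtayPer g)
    (hc : ContinuousOn g Latᶜ) {r : ℝ} (hr : 0 < r) : ∃ C : ℝ, 0 < C ∧ ∀ y, r ≤ tn y → ‖g y‖ ≤ C := by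
  have hcont : Continuous nrm := by
    unfold nrm nsq
    fun_prop
  have hcomp : IsCompact {y : ℝ × ℝ | (y ∈ Icc (-1 / 2 : ℝ) (1 / 2) ×ˢ Icc (-1 / 2 : ℝ) (1 / 2)) ∧ r ≤ nrm y} := by
    apply IsCompact.inter_right (isCompact_Icc.prod isCompact_Icc)
    exact isClosed_le continuous_const hcont
  have hsub : {y : ℝ × ℝ | (y ∈ Icc (-1 / 2 : ℝ) (1 / 2) ×ˢ Icc (-1 / 2 : ℝ) (1 / 2)) ∧ r ≤ nrm y} ⊆ Latᶜ := by
    rintro y ⟨hy, hry⟩ ⟨m, n, rfl⟩
    obtain ⟨⟨h1, h2⟩, ⟨h3, h4⟩⟩ := hy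
    simp only at h1 h2 h3 h4
    have hm : m = 0 := by
      have a1 : (-1 : ℝ) < m := by linarith
      have a2 : (m : ℝ) < 1 := by linarith
      have a3 : (-1 : ℤ) < m := by exact_mod_cast a1
      have a4 : m < (1 : ℤ) := by exact_mod_cast a2
      omega
    have hn : n = 0 := by
      have a1 : (-1 : ℝ) < n := by linarith
      have a2 : (n : ℝ) < 1 := by linarith
      have a3 : (-1 : ℤ) < n := by exact_mod_cast a1
      have a4 : n < (1 : ℤ) := by exact_mod_cast a2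
      omega
    subst hm hn
    unfold nrm nsq at hry
    simp at hry
    linarith
  obtain ⟨C, hC⟩ := hcomp.exists_bound_of_continuousOn (hc.mono hsub)
  refine ⟨max C 1, lt_max_of_lt_right one_pos, fun y hy => ?_⟩
  have h1 : g (y.1 - round y.1, y.2 - round y.2) = g y := by
    have a1 := utay_per_int1 hp (y.1, y.2 - round y.2) (-round y.1)
    have a2 := utay_per_int2 hp y (-round y.2)
    push_cast at a1 a2
    rw [← sub_eq_add_neg] at a1 a2
    rw [a1, a2]
  rw [← h1]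
  refine (hC _ ⟨⟨⟨?_, ?_⟩, ⟨?_, ?_⟩⟩, hy⟩).trans (le_max_left _ _)
  · have := (abs_le.1 (abs_sub_round y.1)).1
    simp only
    linarith
  · have := (abs_le.1 (abs_sub_round y.1)).2
    simp only
    linarith
  · have := (abs_le.1 (abs_sub_round y.2)).1
    simp only
    linarith
  · have := (abs_le.1 (abs_sub_round y.2)).2
    simp only
    linarith

theorem utay_isOpen {K R : ℝ × ℝ → ℝ} (hG : IsGreen K R) : IsOpen (Latᶜ : Set (ℝ × ℝ)) := by
  have : (Latᶜ : Set (ℝ × ℝ)) = K ⁻¹' {0}ᶜ := by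
    ext x
    simp only [mem_compl_iff, mem_preimage, mem_singleton_iff, hG.zero_iff]
  rw [this]
  exact isOpen_compl_singleton.preimage hG.smoothK.continuous

theorem utay_bound_fderiv {E : Type*} [NormedAddCommGroup E] [NormedSpace ℝ E] {g : ℝ × ℝ → E}
    (ho : IsOpen (Latᶜ : Set (ℝ × ℝ))) (hp : UtayPer g) (hg : ContDiffOn ℝ ∞ g Latᶜ) {r : ℝ}
    (hr : 0 < r) : ∃ C : ℝ, 0 < C ∧ ∀ y, r ≤ tn y → ‖fderiv ℝ g y‖ ≤ C := by
  have h1 : ContDiffOn ℝ ∞ (fderiv ℝ g) Latᶜ := hg.fderiv_of_isOpen ho (by norm_cast)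
  exact utay_bound (utay_per_fderiv hp) h1.continuousOn hr

/-- (U4): second order Taylor expansion of `x . grad U` away from `p` -/
theorem U_taylor {K R : ℝ × ℝ → ℝ} (hG : IsGreen K R) {r : ℝ} (hr : 0 < r) : ∃ C : ℝ, 0 < C ∧
    ∀ z : ℝ × ℝ, r ≤ tn (z - pt) →
      (∀ x, nrm x ≤ r / 2 → |D1 (Uz K z) x| ≤ C ∧ |D2 (Uz K z) x| ≤ C) ∧
      ∃ a b : ℝ, |a| ≤ C ∧ |b| ≤ C ∧ ∀ x, nrm x ≤ r / 2 →
        |x.1 * D1 (Uz K z) x + x.2 * D2 (Uz K z) x
          - (x.1 * D1 (Uz K z) 0 + x.2 * D2 (Uz K z) 0)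
          - (-(2 * π) * nsq x + a * (x.1 ^ 2 - x.2 ^ 2) + b * (2 * x.1 * x.2))|
          ≤ C * nrm x ^ 3 := by
  set L : ℝ × ℝ → ℝ := fun y => Real.log (K y) with hL
  have hopen : IsOpen (Latᶜ : Set (ℝ × ℝ)) := utay_isOpen hG
  have hLs : ContDiffOn ℝ ∞ L Latᶜ := by
    apply ContDiffOn.log hG.smoothK.contDiffOn
    intro x hx h
    exact hx ((hG.zero_iff x).1 h)
  have hDs : ContDiffOn ℝ ∞ (fderiv ℝ L) Latᶜ := hLs.fderiv_of_isOpen hopen (by norm_cast)
  have hD2s : ContDiffOn ℝ ∞ (fderiv ℝ (fderiv ℝ L)) Latᶜ := hDs.fderiv_of_isOpen hopen (by norm_cast)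
  have hLp : UtayPer L := by
    intro x
    have h1 := hG.per x
    constructor
    · show Real.log (K (x + (1, 0))) = Real.log (K x)
      rw [← h1.1]
      congr 2
      ext <;> simp
    · show Real.log (K (x + (0, 1))) = Real.log (K x)
      rw [← h1.2]
      congr 2
      ext <;> simp
  have hDp := utay_per_fderiv hLp
  have hD2p := utay_per_fderiv hDp
  have hr2 : 0 < r / 2 := by linarith
  obtain ⟨C1, hC1, hB1⟩ := utay_bound hDp hDs.continuousOn hr2
  obtain ⟨C2, hC2, hB2⟩ := utay_bound hD2p hD2s.continuousOn hr2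
  obtain ⟨C3, hC3, hB3⟩ := utay_bound_fderiv hopen hD2p hD2s hr2
  refine ⟨C1 + C2 + C3, by positivity, fun z hz => ?_⟩
  set w : ℝ × ℝ := z - pt with hw
  have hU : Uz K z = fun x => L (x + w) := by
    funext x
    show Real.log (K (x + z - pt)) = Real.log (K (x + (z - pt)))
    rw [add_sub_assoc]
  have hfd : ∀ x, fderiv ℝ (Uz K z) x = fderiv ℝ L (x + w) := by
    intro x
    rw [hU, fderiv_comp_add_right]
  have hfar : ∀ x, nrm x ≤ r / 2 → r / 2 ≤ tn (x + w) := by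
    intro x hx
    have := utay_tn_add w x
    rw [add_comm w x] at this
    linarith
  have h10 : ‖((1, 0) : ℝ × ℝ)‖ ≤ 1 := by rw [Prod.norm_def]; simp
  have h01 : ‖((0, 1) : ℝ × ℝ)‖ ≤ 1 := by rw [Prod.norm_def]; simp
  refine ⟨fun x hx => ?_, ?_⟩
  · have h1 := hB1 _ (hfar x hx)
    unfold D1 D2
    rw [hfd]
    constructor
    · calc |fderiv ℝ L (x + w) (1, 0)| ≤ ‖fderiv ℝ L (x + w)‖ * ‖((1, 0) : ℝ × ℝ)‖ :=
            (fderiv ℝ L (x + w)).le_opNorm _
        _ ≤ C1 * 1 := by gcongr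
        _ ≤ C1 + C2 + C3 := by linarith
    · calc |fderiv ℝ L (x + w) (0, 1)| ≤ ‖fderiv ℝ L (x + w)‖ * ‖((0, 1) : ℝ × ℝ)‖ :=
            (fderiv ℝ L (x + w)).le_opNorm _
        _ ≤ C1 * 1 := by gcongr
        _ ≤ C1 + C2 + C3 := by linarith
  · set H := fderiv ℝ (fderiv ℝ L) w with hH
    have hw2 : r / 2 ≤ tn w := by linarith
    have hHn : ‖H‖ ≤ C2 := hB2 w hw2
    have hent : ∀ u v : ℝ × ℝ, ‖u‖ ≤ 1 → ‖v‖ ≤ 1 → |H u v| ≤ C2 := by
      intro u v hu hv
      calc |H u v| ≤ ‖H u‖ * ‖v‖ := (H u).le_opNorm v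
        _ ≤ (‖H‖ * ‖u‖) * ‖v‖ := by gcongr; exact H.le_opNorm u
        _ ≤ (C2 * 1) * 1 := by gcongr
        _ = C2 := by ring
    have hwV : w ∈ (Latᶜ : Set (ℝ × ℝ)) := utay_notMem hr hz
    -- the Laplacian
    have hdd : ∀ e : ℝ × ℝ, ∀ y ∈ (Latᶜ : Set (ℝ × ℝ)),
        fderiv ℝ (fun y => fderiv ℝ L y e) y e = fderiv ℝ (fderiv ℝ L) y e e := by
      intro e y hy
      have hd : DifferentiableAt ℝ (fderiv ℝ L) y :=
        (hDs.contDiffAt (hopen.mem_nhds hy)).differentiableAt (by norm_num)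
      have h1 : HasFDerivAt (fun y => fderiv ℝ L y e)
          ((ContinuousLinearMap.apply ℝ ℝ e).comp (fderiv ℝ (fderiv ℝ L) y)) y :=
        (ContinuousLinearMap.apply ℝ ℝ e).hasFDerivAt.comp y hd.hasFDerivAt
      rw [h1.fderiv]
      rfl
    have hlap : H (1, 0) (1, 0) + H (0, 1) (0, 1) = -(4 * π) := by
      have h1 := (green_logsing hG).2 w hwV
      have h2 : Gf K = (-(1 / (4 * π))) • L := rfl
      have h3 : D1 (Gf K) = (-(1 / (4 * π))) • D1 L := by
        funext y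
        unfold D1
        rw [h2, fderiv_const_smul_field]
        rfl
      have h4 : D2 (Gf K) = (-(1 / (4 * π))) • D2 L := by
        funext y
        unfold D2
        rw [h2, fderiv_const_smul_field]
        rfl
      unfold Lap at h1
      rw [h3, h4] at h1
      have h5 : D1 ((-(1 / (4 * π))) • D1 L) w = -(1 / (4 * π)) * H (1, 0) (1, 0) := by
        conv_lhs => unfold D1
        rw [fderiv_const_smul_field]
        show -(1 / (4 * π)) * fderiv ℝ (fun y => fderiv ℝ L y (1, 0)) w (1, 0) = _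
        rw [hdd _ w hwV]
      have h6 : D2 ((-(1 / (4 * π))) • D2 L) w = -(1 / (4 * π)) * H (0, 1) (0, 1) := by
        conv_lhs => unfold D2
        rw [fderiv_const_smul_field]
        show -(1 / (4 * π)) * fderiv ℝ (fun y => fderiv ℝ L y (0, 1)) w (0, 1) = _
        rw [hdd _ w hwV]
      rw [h5, h6] at h1
      have hpi := Real.pi_pos
      field_simp at h1
      linarith
    have hA := hent (1, 0) (1, 0) h10 h10
    have hD := hent (0, 1) (0, 1) h01 h01
    have hBB := hent (1, 0) (0, 1) h10 h01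
    have hBB' := hent (0, 1) (1, 0) h01 h10
    refine ⟨(H (1, 0) (1, 0) - H (0, 1) (0, 1)) / 2, (H (1, 0) (0, 1) + H (0, 1) (1, 0)) / 2,
      ?_, ?_, ?_⟩
    · rw [abs_le] at hA hD ⊢
      constructor <;> linarith [hA.1, hA.2, hD.1, hD.2]
    · rw [abs_le] at hBB hBB' ⊢
      constructor <;> linarith [hBB.1, hBB.2, hBB'.1, hBB'.2]
    · intro x hx
      have hseg : ∀ y ∈ segment ℝ w (x + w), r / 2 ≤ tn y ∧ ‖y - w‖ ≤ ‖x‖ := by
        intro y hy
        rw [segment_eq_image'] at hy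
        obtain ⟨t, ⟨ht0, ht1⟩, rfl⟩ := hy
        have e1 : w + t • (x + w - w) = t • x + w := by rw [add_sub_cancel_right, add_comm]
        simp only [e1]
        constructor
        · apply hfar
          rw [utay_nrm_smul ht0]
          have : 0 ≤ nrm x := Real.sqrt_nonneg _
          nlinarith
        · rw [add_sub_cancel_right, norm_smul, Real.norm_eq_abs, abs_of_nonneg ht0]
          have := norm_nonneg x
          nlinarith
      have hconv : Convex ℝ (segment ℝ w (x + w)) := convex_segment _ _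
      have hlip : ∀ y ∈ segment ℝ w (x + w), ‖fderiv ℝ (fderiv ℝ L) y - H‖ ≤ C3 * ‖x‖ := by
        intro y hy
        have h1 := hconv.norm_image_sub_le_of_norm_fderiv_le (f := fderiv ℝ (fderiv ℝ L)) (C := C3)
          (fun v hv => (hD2s.contDiffAt (hopen.mem_nhds (utay_notMem hr2 (hseg v hv).1))).differentiableAt
            (by norm_num)) (fun v hv => hB3 v (hseg v hv).1) (left_mem_segment ℝ _ _) hy
        exact h1.trans (by gcongr; exact (hseg y hy).2)
      have h1 := hconv.norm_image_sub_le_of_norm_fderiv_le' (f := fderiv ℝ L) (φ := H)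
        (C := C3 * ‖x‖)
        (fun v hv => (hDs.contDiffAt (hopen.mem_nhds (utay_notMem hr2 (hseg v hv).1))).differentiableAt
          (by norm_num)) hlip (left_mem_segment ℝ _ _) (right_mem_segment ℝ _ _)
      rw [add_sub_cancel_right] at h1
      have hx12 : x = x.1 • (1, 0) + x.2 • ((0, 1) : ℝ × ℝ) := by
        ext <;> simp
      have hlin : ∀ A : ℝ × ℝ →L[ℝ] ℝ, A x = x.1 * A (1, 0) + x.2 * A (0, 1) := by
        intro A
        conv_lhs => rw [hx12]
        rw [map_add, map_smul, map_smul, smul_eq_mul, smul_eq_mul]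
      have hquad : H x x = -(2 * π) * nsq x + (H (1, 0) (1, 0) - H (0, 1) (0, 1)) / 2 *
          (x.1 ^ 2 - x.2 ^ 2) + (H (1, 0) (0, 1) + H (0, 1) (1, 0)) / 2 * (2 * x.1 * x.2) := by
        have e1 : H x = x.1 • H (1, 0) + x.2 • H (0, 1) := by
          conv_lhs => rw [hx12]
          rw [map_add, map_smul, map_smul]
        rw [e1]
        simp only [ContinuousLinearMap.add_apply, ContinuousLinearMap.smul_apply, smul_eq_mul]
        rw [hlin (H (1, 0)), hlin (H (0, 1))]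
        unfold nsq
        have e2 : H (0, 1) (0, 1) = -(4 * π) - H (1, 0) (1, 0) := by linarith
        rw [e2]
        ring
      have hmain : x.1 * D1 (Uz K z) x + x.2 * D2 (Uz K z) x
          - (x.1 * D1 (Uz K z) 0 + x.2 * D2 (Uz K z) 0)
          - (-(2 * π) * nsq x + (H (1, 0) (1, 0) - H (0, 1) (0, 1)) / 2 * (x.1 ^ 2 - x.2 ^ 2)
            + (H (1, 0) (0, 1) + H (0, 1) (1, 0)) / 2 * (2 * x.1 * x.2)) =
          (fderiv ℝ L (x + w) - fderiv ℝ L w - H x) x := by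
        rw [← hquad]
        unfold D1 D2
        rw [hfd, hfd, zero_add, ← hlin, ← hlin]
        simp only [ContinuousLinearMap.sub_apply]
      rw [hmain]
      have hxn := utay_norm_le x
      have hx0 := norm_nonneg x
      calc |(fderiv ℝ L (x + w) - fderiv ℝ L w - H x) x|
          ≤ ‖fderiv ℝ L (x + w) - fderiv ℝ L w - H x‖ * ‖x‖ :=
            (fderiv ℝ L (x + w) - fderiv ℝ L w - H x).le_opNorm x
        _ ≤ (C3 * ‖x‖ * ‖x‖) * ‖x‖ := by gcongr
        _ = C3 * ‖x‖ ^ 3 := by ring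
        _ ≤ (C1 + C2 + C3) * nrm x ^ 3 := by
          gcongr
          linarith

end Pool.Agent.AO
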