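import Pool.Agent.Lib.MP_10e52e_an.Tools
import Pool.Agent.Lib.MP_10e52e_an.Gls
import Pool.Agent.Lib.MP_10e52e_an.Gbd

/-! MP_10e52e_an row Uup: (U1) -/

namespace Pool.Agent.AO

open MeasureTheory Set Real
open scoped ContDiff

/-- growth of `K` in the first variable on `[a, 1/2]` -/
theorem uup_step {K R : ℝ × ℝ → ℝ} (hG : IsGreen K R) {a b : ℝ} (h0 : 0 ≤ a) (h1 : a ≤ 1 / 2) :
    K (a, b) ≤ K (1 / 2, b) *
      Real.exp (-(4 / Real.cosh (π / 2) ^ 2 * (1 / 2 - a) ^ 2)) := by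
  by_cases hL : (a, b) ∈ Lat
  · rw [(hG.zero_iff _).2 hL]
    exact mul_nonneg (hG.nonneg _) (Real.exp_pos _).le
  have hcosh : 0 < Real.cosh (π / 2) ^ 2 := by positivity
  -- the segment avoids the lattice
  have hseg : ∀ t ∈ Icc a (1 / 2), (t, b) ∉ Lat := by
    rintro t ⟨ht1, ht2⟩ ⟨m, n, hmn⟩
    have hm : t = (m : ℝ) := congrArg Prod.fst hmn
    have hm0 : m = 0 := by
      have h2 : (m : ℝ) < 1 := by rw [← hm]; linarith
      have h3 : (-1 : ℝ) < m := by rw [← hm]; linarith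
      have h4 : m < 1 := by exact_mod_cast h2
      have h5 : -1 < m := by exact_mod_cast h3
      omega
    have ht : t = 0 := by rw [hm, hm0]; simp
    have hta : a = t := le_antisymm ht1 (by rw [ht]; exact h0)
    exact hL (hta ▸ ⟨m, n, hmn⟩)
  have hpos : ∀ t ∈ Icc a (1 / 2), 0 < K (t, b) := by
    intro t ht
    exact lt_of_le_of_ne (hG.nonneg _) (fun e => hseg t ht ((hG.zero_iff _).1 e.symm))
  have hder : ∀ t ∈ Icc a (1 / 2), HasDerivAt (fun s => Real.log (K (s, b)))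
      (D1 (fun y => Real.log (K y)) (t, b)) t := by
    intro t ht
    have hK : DifferentiableAt ℝ K (t, b) :=
      (hG.smoothK.differentiable (by simp)) (t, b)
    have hlog : DifferentiableAt ℝ (fun y => Real.log (K y)) (t, b) :=
      hK.log (hpos t ht).ne'
    have h2 : HasDerivAt (fun s : ℝ => (s, b)) ((1 : ℝ), (0 : ℝ)) t :=
      (hasDerivAt_id t).prodMk (hasDerivAt_const t b)
    exact hlog.hasFDerivAt.comp_hasDerivAt t h2
  set c0 : ℝ := π / Real.cosh (π / 2) ^ 2 with hc0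
  have hmono : MonotoneOn (fun t => Real.log (K (t, b)) + c0 / (2 * π) * Real.cos (2 * π * t))
      (Icc a (1 / 2)) := by
    have hd : ∀ t ∈ Icc a (1 / 2), HasDerivAt
        (fun t => Real.log (K (t, b)) + c0 / (2 * π) * Real.cos (2 * π * t))
        (D1 (fun y => Real.log (K y)) (t, b) + c0 / (2 * π) * (-Real.sin (2 * π * t) * (2 * π))) t := by
      intro t ht
      have h3 : HasDerivAt (fun t : ℝ => 2 * π * t) (2 * π) t := by
        simpa using (hasDerivAt_id t).const_mul (2 * π)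
      exact (hder t ht).add ((h3.cos).const_mul _)
    apply monotoneOn_of_deriv_nonneg (convex_Icc _ _)
    · intro t ht
      exact (hd t ht).continuousAt.continuousWithinAt
    · intro t ht
      rw [interior_Icc] at ht
      exact (hd t ⟨ht.1.le, ht.2.le⟩).differentiableAt.differentiableWithinAt
    · intro t ht
      rw [interior_Icc] at ht
      have ht' : t ∈ Icc a (1 / 2) := ⟨ht.1.le, ht.2.le⟩
      rw [(hd t ht').deriv]
      have h4 := hG.mono (t, b) (hseg t ht') (h0.trans ht.1.le) ht.2.le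
      have h5 : c0 / (2 * π) * (-Real.sin (2 * π * t) * (2 * π)) =
          -(π * Real.sin (2 * π * t) / Real.cosh (π / 2) ^ 2) := by
        rw [hc0]
        field_simp
      rw [h5]
      simp only at h4
      linarith
  have hfin := hmono (left_mem_Icc.2 h1) (right_mem_Icc.2 h1) h1
  simp only at hfin
  have hcos : Real.cos (2 * π * (1 / 2)) = -1 := by
    rw [show 2 * π * (1 / 2) = π by ring]; exact Real.cos_pi
  rw [hcos] at hfin
  -- lower bound of `1 + cos (2 pi a)`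
  have hsin : 4 * (1 / 2 - a) ^ 2 ≤ (1 + Real.cos (2 * π * a)) / 2 := by
    have h6 : 1 + Real.cos (2 * π * a) = 2 * Real.cos (π * a) ^ 2 := by
      rw [show 2 * π * a = 2 * (π * a) by ring, Real.cos_two_mul]; ring
    have h7 : 2 * (1 / 2 - a) ≤ Real.cos (π * a) := by
      have h8 : Real.cos (π * a) = Real.sin (π * (1 / 2 - a)) := by
        rw [show π * (1 / 2 - a) = π / 2 - π * a by ring, Real.sin_pi_div_two_sub]
      rw [h8]
      have h9 := Real.mul_le_sin (x := π * (1 / 2 - a)) (by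
        have := Real.pi_pos
        have : 0 ≤ 1 / 2 - a := by linarith
        positivity) (by
        have := Real.pi_pos
        nlinarith)
      have h10 : 2 / π * (π * (1 / 2 - a)) = 2 * (1 / 2 - a) := by
        field_simp
      linarith
    have h11 : 0 ≤ 2 * (1 / 2 - a) := by linarith
    rw [h6]
    nlinarith [mul_self_le_mul_self h11 h7]
  have hcc : c0 / (2 * π) = 1 / (2 * Real.cosh (π / 2) ^ 2) := by
    rw [hc0]
    field_simp
  rw [hcc] at hfin
  have hA : Real.log (K (a, b)) ≤ Real.log (K (1 / 2, b)) +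
      -(4 / Real.cosh (π / 2) ^ 2 * (1 / 2 - a) ^ 2) := by
    have h12 : 1 / (2 * Real.cosh (π / 2) ^ 2) * Real.cos (2 * π * a) -
        1 / (2 * Real.cosh (π / 2) ^ 2) * -1 =
        1 / Real.cosh (π / 2) ^ 2 * ((1 + Real.cos (2 * π * a)) / 2) := by
      field_simp
      ring
    have h13 : 1 / Real.cosh (π / 2) ^ 2 * (4 * (1 / 2 - a) ^ 2) ≤
        1 / Real.cosh (π / 2) ^ 2 * ((1 + Real.cos (2 * π * a)) / 2) :=
      mul_le_mul_of_nonneg_left hsin (by positivity)
    have h14 : 4 / Real.cosh (π / 2) ^ 2 * (1 / 2 - a) ^ 2 =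
        1 / Real.cosh (π / 2) ^ 2 * (4 * (1 / 2 - a) ^ 2) := by ring
    linarith
  have hKa := hpos a (left_mem_Icc.2 h1)
  have hKh := hpos (1 / 2) (right_mem_Icc.2 h1)
  calc K (a, b) = Real.exp (Real.log (K (a, b))) := (Real.exp_log hKa).symm
    _ ≤ Real.exp (Real.log (K (1 / 2, b)) +
      -(4 / Real.cosh (π / 2) ^ 2 * (1 / 2 - a) ^ 2)) := Real.exp_le_exp.2 hA
    _ = _ := by rw [Real.exp_add, Real.exp_log hKh]

/-- folding the first variable -/
theorem uup_fold1 {K R : ℝ × ℝ → ℝ} (hG : IsGreen K R) (s b : ℝ) :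
    K (s - 1 / 2, b) = K (1 / 2 - |s|, b) := by
  rcases le_total 0 s with h | h
  · rw [abs_of_nonneg h]
    have := hG.refl1 (1 / 2 - s, b)
    simp only at this
    rw [← this]
    congr 2
    ring
  · rw [abs_of_nonpos h]
    have := (hG.per (s - 1 / 2, b)).1
    simp only at this
    rw [← this]
    congr 2
    ring

theorem uup_fold2 {K R : ℝ × ℝ → ℝ} (hG : IsGreen K R) (s b : ℝ) :
    K (b, s - 1 / 2) = K (b, 1 / 2 - |s|) := by
  have h1 := hG.swap (b, s - 1 / 2)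
  have h2 := hG.swap (b, 1 / 2 - |s|)
  simp only at h1 h2
  rw [← h1, ← h2]
  exact uup_fold1 hG s b

/-- (U1), at all points of Q -/
theorem U_upper {K R : ℝ × ℝ → ℝ} (hG : IsGreen K R) : ∃ c : ℝ, 0 < c ∧
    ∀ x ∈ Q, K (x - pt) ≤ K pt * Real.exp (-(c * nsq x)) := by
  refine ⟨4 / Real.cosh (π / 2) ^ 2, by positivity, ?_⟩
  rintro ⟨x1, x2⟩ hx
  obtain ⟨⟨hx1, hx1'⟩, hx2, hx2'⟩ := hx
  simp only at hx1 hx1' hx2 hx2'
  have ha1 : |x1| ≤ 1 / 2 := abs_le.2 ⟨by linarith, hx1'⟩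
  have ha2 : |x2| ≤ 1 / 2 := abs_le.2 ⟨by linarith, hx2'⟩
  have e0 : (x1, x2) - pt = (x1 - 1 / 2, x2 - 1 / 2) := rfl
  rw [e0, uup_fold1 hG, uup_fold2 hG]
  have s1 := uup_step hG (a := 1 / 2 - |x1|) (b := 1 / 2 - |x2|) (by linarith)
    (by linarith [abs_nonneg x1])
  have s2 := uup_step hG (a := 1 / 2 - |x2|) (b := 1 / 2) (by linarith)
    (by linarith [abs_nonneg x2])
  have sw : K (1 / 2, 1 / 2 - |x2|) = K (1 / 2 - |x2|, 1 / 2) := by
    have := hG.swap (1 / 2 - |x2|, 1 / 2)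
    simpa using this
  rw [sw] at s1
  have q1 : (1 / 2 - (1 / 2 - |x1|)) ^ 2 = x1 ^ 2 := by
    rw [show 1 / 2 - (1 / 2 - |x1|) = |x1| by ring, sq_abs]
  have q2 : (1 / 2 - (1 / 2 - |x2|)) ^ 2 = x2 ^ 2 := by
    rw [show 1 / 2 - (1 / 2 - |x2|) = |x2| by ring, sq_abs]
  rw [q1] at s1
  rw [q2] at s2
  refine s1.trans ((mul_le_mul_of_nonneg_right s2 (Real.exp_pos _).le).trans (le_of_eq ?_))
  rw [mul_assoc, ← Real.exp_add]
  have : pt = (1 / 2, 1 / 2) := rfl
  rw [this]
  congr 2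
  simp only [nsq]
  ring

end Pool.Agent.AO
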