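import Pool.Agent.Lib.MP_10e52e_an.Tools
import Pool.Agent.Lib.MP_10e52e_an.Gls
import Pool.Agent.Lib.MP_10e52e_an.Gbd
import Pool.Agent.Lib.MP_10e52e_an.Gnear
import Pool.Agent.Lib.MP_10e52e_an.GR
import Pool.Agent.Lib.MP_10e52e_an.Gibp
import Pool.Agent.Lib.MP_10e52e_an.Gconv
import Pool.Agent.Lib.MP_10e52e_an.Uup
import Pool.Agent.Lib.MP_10e52e_an.Ulow
import Pool.Agent.Lib.MP_10e52e_an.Usign
import Pool.Agent.Lib.MP_10e52e_an.Utay
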