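import Pool.Agent.Lib.MP_10e52e_an.Defs4
import Pool.Agent.Lib.MP_10e52e_an.Green
import Pool.Agent.Lib.MP_10e52e_an.Flip

/-! MP_10e52e_an row Fpb: pair functions bounded; expansion near the diagonal -/

namespace Pool.Agent.AO

open MeasureTheory Set Real
open scoped ContDiff

private theorem Fpb_tn_lat {x : ℝ × ℝ} (hx : x ∈ Lat) : tn x = 0 := by
  obtain ⟨m, n, rfl⟩ := hx
  simp [tn, nrm, nsq]

private theorem Fpb_tn_nonneg (x : ℝ × ℝ) : 0 ≤ tn x := Real.sqrt_nonneg _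

private theorem Fpb_term {X G : ℝ × ℝ → ℝ} {C C' : ℝ} (hC : 0 < C) (hC' : 0 < C')
    (hX : ∀ x y, |X x - X y| ≤ C' * tn (x - y)) (hG : ∀ x, x ∉ Lat → |G x| ≤ C / tn x)
    (x y : ℝ × ℝ) : |(X x - X y) * G (x - y)| ≤ C' * C := by
  by_cases h : x - y ∈ Lat
  · have h1 := hX x y
    rw [Fpb_tn_lat h, mul_zero] at h1
    have h2 : X x - X y = 0 := abs_nonpos_iff.1 h1
    rw [h2, zero_mul, abs_zero]
    positivity
  · rw [abs_mul]
    have h0 := Fpb_tn_nonneg (x - y)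
    calc |X x - X y| * |G (x - y)| ≤ (C' * tn (x - y)) * (C / tn (x - y)) :=
          mul_le_mul (hX x y) (hG _ h) (abs_nonneg _) (mul_nonneg hC'.le h0)
      _ = C' * C * (tn (x - y) / tn (x - y)) := by ring
      _ ≤ C' * C * 1 := mul_le_mul_of_nonneg_left (div_self_le_one _) (by positivity)
      _ = C' * C := mul_one _

/-- pair functions of smooth fields are bounded -/
theorem pair_bdd {K R : ℝ × ℝ → ℝ} (hG : IsGreen K R) {X1 X2 : ℝ × ℝ → ℝ}
    (h1 : ContDiff ℝ 1 X1) (p1 : Per X1) (h2 : ContDiff ℝ 1 X2) (p2 : Per X2) :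
    ∃ C : ℝ, 0 < C ∧ ∀ x y, |PX K X1 X2 x y| ≤ C := by
  obtain ⟨C, hC, hgr⟩ := (green_logsing hG).1.grad_le
  obtain ⟨C1, hC1, -, -, hL1⟩ := per_lip h1 p1
  obtain ⟨C2, hC2, -, -, hL2⟩ := per_lip h2 p2
  refine ⟨C1 * C + C2 * C, by positivity, fun x y => ?_⟩
  unfold PX
  refine (abs_add_le _ _).trans (add_le_add ?_ ?_)
  · exact Fpb_term hC hC1 hL1 (fun z hz => (hgr z hz).1) x y
  · exact Fpb_term hC hC2 hL2 (fun z hz => (hgr z hz).2) x y

/-- near the diagonal: `w.grad G(w) = -1/(2 pi) + |w|^2/2 + O(|w|^4)` -/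
theorem pair_near {K R : ℝ × ℝ → ℝ} (hG : IsGreen K R) : ∃ C : ℝ, 0 < C ∧
    ∀ w, w ≠ 0 → nrm w ≤ 3 / 4 →
      |w.1 * D1 (Gf K) w + w.2 * D2 (Gf K) w + 1 / (2 * π) - nsq w / 2| ≤ C * nsq w ^ 2 := by
  obtain ⟨C, hC, hR⟩ := green_R hG
  refine ⟨C, hC, fun w hw hn => ?_⟩
  have hns : nsq w ≠ 0 := by
    intro h0
    apply hw
    unfold nsq at h0
    have a : w.1 = 0 := by nlinarith [sq_nonneg w.1, sq_nonneg w.2]
    have b : w.2 = 0 := by nlinarith [sq_nonneg w.1, sq_nonneg w.2]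
    exact Prod.ext a b
  have hle : nsq w ≤ (3 / 4) ^ 2 := by
    have h0 : 0 ≤ nsq w := by unfold nsq; positivity
    have := Real.sq_sqrt h0
    rw [← this]
    exact pow_le_pow_left₀ (Real.sqrt_nonneg _) hn 2
  have hbox : w ∈ Box 1 := by
    unfold nsq at hle
    constructor
    · rw [abs_lt]
      constructor <;> nlinarith [sq_nonneg w.1, sq_nonneg w.2]
    · rw [abs_lt]
      constructor <;> nlinarith [sq_nonneg w.1, sq_nonneg w.2]
  obtain ⟨-, e1, e2⟩ := green_near hG w hbox hw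
  have key : w.1 * D1 (Gf K) w + w.2 * D2 (Gf K) w + 1 / (2 * π) - nsq w / 2 =
      w.1 * D1 R w + w.2 * D2 R w - nsq w / 2 := by
    have h1 : w.1 * (w.1 / nsq w) + w.2 * (w.2 / nsq w) = 1 := by
      have : w.1 * (w.1 / nsq w) + w.2 * (w.2 / nsq w) = nsq w / nsq w := by
        unfold nsq; ring
      rw [this, div_self hns]
    rw [e1, e2]
    linear_combination (-(1 / (2 * π))) * h1
  rw [key]
  exact (hR w hn).1

end Pool.Agent.AO
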