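import Pool.Agent.Lib.MP_10e52e_an.Defs4
import Pool.Agent.Lib.MP_10e52e_an.Tools

/-! MP_10e52e_an row Fsplit: splitting of double integrals, second moments -/

namespace Pool.Agent.AO

open MeasureTheory Set Real
open scoped ContDiff

theorem fsplit_Q_sub : Q ⊆ Icc (-1 / 2 : ℝ) (1 / 2) ×ˢ Icc (-1 / 2 : ℝ) (1 / 2) :=
  Set.prod_mono Ioc_subset_Icc_self Ioc_subset_Icc_self

theorem fsplit_Q_meas : MeasurableSet Q := measurableSet_Ioc.prod measurableSet_Ioc

theorem fsplit_Q_fin : volume Q < ⊤ :=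
  lt_of_le_of_lt (measure_mono fsplit_Q_sub)
    (isCompact_Icc.prod isCompact_Icc).measure_lt_top

theorem fsplit_bdd {mu : ℝ × ℝ → ℝ} (hmu : Continuous mu) : ∃ B : ℝ, 0 ≤ B ∧
    ∀ x ∈ Q, |mu x| ≤ B := by
  obtain ⟨B, hB⟩ := (isCompact_Icc.prod isCompact_Icc :
    IsCompact (Icc (-1 / 2 : ℝ) (1 / 2) ×ˢ Icc (-1 / 2 : ℝ) (1 / 2))).exists_bound_of_continuousOn
      hmu.continuousOn
  exact ⟨|B|, abs_nonneg B, fun x hx => (hB x (fsplit_Q_sub hx)).trans (le_abs_self B)⟩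

theorem fsplit_int {mu : ℝ × ℝ → ℝ} (hmu : Continuous mu)
    {P : ℝ × ℝ → ℝ × ℝ → ℝ} (hP : Measurable (Function.uncurry P))
    {M : ℝ} (hM : ∀ x y, |P x y| ≤ M) {S T : Set (ℝ × ℝ)} (hS : MeasurableSet S)
    (hT : MeasurableSet T) (hSQ : S ⊆ Q) (hTQ : T ⊆ Q) :
    Integrable (Function.uncurry fun x y => mu x * mu y * P x y)
      ((volume.restrict S).prod (volume.restrict T)) := by
  obtain ⟨B, hB0, hB⟩ := fsplit_bdd hmu
  have : IsFiniteMeasure (volume.restrict S) :=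
    ⟨by rw [Measure.restrict_apply_univ]; exact (measure_mono hSQ).trans_lt fsplit_Q_fin⟩
  have : IsFiniteMeasure (volume.restrict T) :=
    ⟨by rw [Measure.restrict_apply_univ]; exact (measure_mono hTQ).trans_lt fsplit_Q_fin⟩
  have hmeas : Measurable (Function.uncurry fun x y => mu x * mu y * P x y) :=
    ((hmu.measurable.comp measurable_fst).mul (hmu.measurable.comp measurable_snd)).mul hP
  refine Integrable.of_bound hmeas.aestronglyMeasurable (B * B * M) ?_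
  rw [Measure.prod_restrict]
  filter_upwards [ae_restrict_mem (hS.prod hT)] with p hp
  have h1 := hB p.1 (hSQ hp.1)
  have h2 := hB p.2 (hTQ hp.2)
  have h3 := hM p.1 p.2
  show ‖mu p.1 * mu p.2 * P p.1 p.2‖ ≤ B * B * M
  rw [Real.norm_eq_abs, abs_mul, abs_mul]
  exact mul_le_mul (mul_le_mul h1 h2 (abs_nonneg _) hB0) h3 (abs_nonneg _) (by positivity)

theorem fsplit_int1 {mu : ℝ × ℝ → ℝ} (hmu : Continuous mu)
    {P : ℝ × ℝ → ℝ × ℝ → ℝ} (hP : Measurable (Function.uncurry P))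
    {M : ℝ} (hM : ∀ x y, |P x y| ≤ M) {T : Set (ℝ × ℝ)}
    (hT : MeasurableSet T) (hTQ : T ⊆ Q) (x : ℝ × ℝ) :
    IntegrableOn (fun y => mu x * mu y * P x y) T := by
  obtain ⟨B, hB0, hB⟩ := fsplit_bdd hmu
  have hfin : volume T < ⊤ := (measure_mono hTQ).trans_lt fsplit_Q_fin
  have hmeas : Measurable (fun y => mu x * mu y * P x y) :=
    (measurable_const.mul hmu.measurable).mul (hP.comp measurable_prodMk_left)
  refine Measure.integrableOn_of_bounded (M := |mu x| * B * M) hfin.ne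
    hmeas.aestronglyMeasurable ?_
  filter_upwards [ae_restrict_mem hT] with y hy
  have h2 := hB y (hTQ hy)
  have h3 := hM x y
  rw [Real.norm_eq_abs, abs_mul, abs_mul]
  exact mul_le_mul (mul_le_mul le_rfl h2 (abs_nonneg _) (abs_nonneg _)) h3 (abs_nonneg _)
    (by positivity)

theorem fsplit_addR {mu : ℝ × ℝ → ℝ} (hmu : Continuous mu)
    {P : ℝ × ℝ → ℝ × ℝ → ℝ} (hP : Measurable (Function.uncurry P))
    {M : ℝ} (hM : ∀ x y, |P x y| ≤ M) {S T T' : Set (ℝ × ℝ)} (hS : MeasurableSet S)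
    (hT : MeasurableSet T) (hT' : MeasurableSet T') (hSQ : S ⊆ Q) (hTQ : T ⊆ Q) (hTQ' : T' ⊆ Q)
    (hd : Disjoint T T') :
    (∫ x in S, ∫ y in T ∪ T', mu x * mu y * P x y) =
      (∫ x in S, ∫ y in T, mu x * mu y * P x y) + ∫ x in S, ∫ y in T', mu x * mu y * P x y := by
  rw [← integral_add]
  · refine integral_congr_ae (Filter.Eventually.of_forall fun x => ?_)
    exact setIntegral_union hd hT' (fsplit_int1 hmu hP hM hT hTQ x)
      (fsplit_int1 hmu hP hM hT' hTQ' x)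
  · exact (fsplit_int hmu hP hM hS hT hSQ hTQ).integral_prod_left
  · exact (fsplit_int hmu hP hM hS hT' hSQ hTQ').integral_prod_left

theorem fsplit_symm {mu : ℝ × ℝ → ℝ} (hmu : Continuous mu)
    {P : ℝ × ℝ → ℝ × ℝ → ℝ} (hP : Measurable (Function.uncurry P))
    {M : ℝ} (hM : ∀ x y, |P x y| ≤ M) (hs : ∀ x y, P x y = P y x)
    {S T : Set (ℝ × ℝ)} (hS : MeasurableSet S)
    (hT : MeasurableSet T) (hSQ : S ⊆ Q) (hTQ : T ⊆ Q) :
    (∫ x in S, ∫ y in T, mu x * mu y * P x y) = ∫ x in T, ∫ y in S, mu x * mu y * P x y := by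
  rw [integral_integral_swap (fsplit_int hmu hP hM hS hT hSQ hTQ)]
  refine integral_congr_ae (Filter.Eventually.of_forall fun y => ?_)
  refine integral_congr_ae (Filter.Eventually.of_forall fun x => ?_)
  show mu x * mu y * P x y = mu y * mu x * P y x
  rw [hs x y]
  ring

theorem fsplit_bound {mu : ℝ × ℝ → ℝ} (hmu : Continuous mu) (nn : ∀ x, 0 ≤ mu x)
    {P : ℝ × ℝ → ℝ × ℝ → ℝ}
    {M : ℝ} (hM : ∀ x y, |P x y| ≤ M) {S T : Set (ℝ × ℝ)} (hSQ : S ⊆ Q) (hTQ : T ⊆ Q) :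
    |∫ x in S, ∫ y in T, mu x * mu y * P x y| ≤ M * (∫ x in S, mu x) * ∫ x in T, mu x := by
  have hi : ∀ U : Set (ℝ × ℝ), U ⊆ Q → IntegrableOn mu U := fun U hU =>
    (hmu.continuousOn.integrableOn_compact (isCompact_Icc.prod isCompact_Icc)).mono_set
      (hU.trans fsplit_Q_sub)
  have h1 : ∀ x, ‖∫ y in T, mu x * mu y * P x y‖ ≤ mu x * (M * ∫ y in T, mu y) := by
    intro x
    have h2 : ‖∫ y in T, mu x * mu y * P x y‖ ≤ ∫ y in T, mu x * M * mu y := by
      refine norm_integral_le_of_norm_le ((hi T hTQ).const_mul _) ?_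
      refine Filter.Eventually.of_forall fun y => ?_
      rw [Real.norm_eq_abs, abs_mul, abs_mul, abs_of_nonneg (nn x), abs_of_nonneg (nn y)]
      calc mu x * mu y * |P x y| ≤ mu x * mu y * M :=
            mul_le_mul_of_nonneg_left (hM x y) (mul_nonneg (nn x) (nn y))
        _ = mu x * M * mu y := by ring
    rw [integral_const_mul] at h2
    linarith
  have h3 : ‖∫ x in S, ∫ y in T, mu x * mu y * P x y‖ ≤
      ∫ x in S, mu x * (M * ∫ y in T, mu y) :=
    norm_integral_le_of_norm_le ((hi S hSQ).mul_const _) (Filter.Eventually.of_forall h1)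
  rw [integral_mul_const, Real.norm_eq_abs] at h3
  linarith

/-- splitting of a double integral: I, ring, F = the rest; P = 0 on F x F -/
theorem pair_split {mu : ℝ × ℝ → ℝ} (hmu : Continuous mu) (nn : ∀ x, 0 ≤ mu x)
    (one : TI mu = 1) {P : ℝ × ℝ → ℝ × ℝ → ℝ} (hP : Measurable (Function.uncurry P))
    {M : ℝ} (hM : ∀ x y, |P x y| ≤ M) (hs : ∀ x y, P x y = P y x)
    {I J : Set (ℝ × ℝ)} (hI : MeasurableSet I) (hJ : MeasurableSet J) (hIJ : I ⊆ J) (hJQ : J ⊆ Q)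
    (hF : ∀ x ∈ Q \ J, ∀ y ∈ Q \ J, P x y = 0) :
    |TI (fun x => TI (fun y => mu x * mu y * P x y)) -
      (∫ x in I, ∫ y in I, mu x * mu y * P x y) -
      2 * (∫ x in I, ∫ y in Q \ J, mu x * mu y * P x y)| ≤ 4 * M * ∫ x in J \ I, mu x := by
  have hM0 : 0 ≤ M := (abs_nonneg _).trans (hM 0 0)
  have hIQ : I ⊆ Q := hIJ.trans hJQ
  have hR : MeasurableSet (J \ I) := hJ.diff hI
  have hRQ : J \ I ⊆ Q := sdiff_subset.trans hJQ
  have hFm : MeasurableSet (Q \ J) := fsplit_Q_meas.diff hJ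
  have hFQ : Q \ J ⊆ Q := sdiff_subset
  set A : Set (ℝ × ℝ) → Set (ℝ × ℝ) → ℝ :=
    fun S T => ∫ x in S, ∫ y in T, mu x * mu y * P x y with hA
  have hQ1 : Q = (I ∪ Q \ J) ∪ (J \ I) := by
    ext x
    constructor
    · intro hx
      by_cases h1 : x ∈ J
      · by_cases h2 : x ∈ I
        · exact Or.inl (Or.inl h2)
        · exact Or.inr ⟨h1, h2⟩
      · exact Or.inl (Or.inr ⟨hx, h1⟩)
    · rintro ((h | h) | h)
      · exact hIQ h
      · exact h.1
      · exact hJQ h.1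
  have hd1 : Disjoint I (Q \ J) := by
    rw [Set.disjoint_left]
    exact fun x h1 h2 => h2.2 (hIJ h1)
  have hd2 : Disjoint (I ∪ Q \ J) (J \ I) := by
    rw [Set.disjoint_left]
    rintro x (h1 | h1) h2
    · exact h2.2 h1
    · exact h1.2 h2.1
  have hIFm : MeasurableSet (I ∪ Q \ J) := hI.union hFm
  have hIFQ : I ∪ Q \ J ⊆ Q := union_subset hIQ hFQ
  -- A Q Q = A (I u F) (I u F) + A (I u F) R + A Q R, by symmetry
  have e1 : ∀ S : Set (ℝ × ℝ), MeasurableSet S → S ⊆ Q → A S Q = A S (I ∪ Q \ J) + A S (J \ I) := by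
    intro S hS hSQ
    have h := fsplit_addR hmu hP hM hS hIFm hR hSQ hIFQ hRQ hd2
    rw [← hQ1] at h
    exact h
  have e2 : ∀ S : Set (ℝ × ℝ), MeasurableSet S → S ⊆ Q → A S (I ∪ Q \ J) = A S I + A S (Q \ J) :=
    fun S hS hSQ => fsplit_addR hmu hP hM hS hI hFm hSQ hIQ hFQ hd1
  have es : ∀ S T : Set (ℝ × ℝ), MeasurableSet S → MeasurableSet T → S ⊆ Q → T ⊆ Q →
      A S T = A T S := fun S T hS hT hSQ hTQ => fsplit_symm hmu hP hM hs hS hT hSQ hTQ
  have hFF : A (Q \ J) (Q \ J) = 0 := by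
    show (∫ x in Q \ J, ∫ y in Q \ J, mu x * mu y * P x y) = 0
    rw [setIntegral_congr_fun (g := fun _ => (0 : ℝ)) hFm, integral_zero]
    intro x hx
    show (∫ y in Q \ J, mu x * mu y * P x y) = 0
    rw [setIntegral_congr_fun (g := fun _ => (0 : ℝ)) hFm, integral_zero]
    intro y hy
    show mu x * mu y * P x y = 0
    rw [hF x hx y hy, mul_zero]
  have f1 : A Q Q = A Q (I ∪ Q \ J) + A Q (J \ I) := e1 Q fsplit_Q_meas subset_rfl
  have f2 : A Q (I ∪ Q \ J) = A (I ∪ Q \ J) Q := es _ _ fsplit_Q_meas hIFm subset_rfl hIFQ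
  have f3 : A (I ∪ Q \ J) Q = A (I ∪ Q \ J) (I ∪ Q \ J) + A (I ∪ Q \ J) (J \ I) :=
    e1 _ hIFm hIFQ
  have f4 : A (I ∪ Q \ J) (I ∪ Q \ J) = A (I ∪ Q \ J) I + A (I ∪ Q \ J) (Q \ J) := e2 _ hIFm hIFQ
  have f5 : A (I ∪ Q \ J) I = A I (I ∪ Q \ J) := es _ _ hIFm hI hIFQ hIQ
  have f6 : A (I ∪ Q \ J) (Q \ J) = A (Q \ J) (I ∪ Q \ J) := es _ _ hIFm hFm hIFQ hFQ
  have f7 : A I (I ∪ Q \ J) = A I I + A I (Q \ J) := e2 _ hI hIQ
  have f8 : A (Q \ J) (I ∪ Q \ J) = A (Q \ J) I + A (Q \ J) (Q \ J) := e2 _ hFm hFQ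
  have f9 : A (Q \ J) I = A I (Q \ J) := es _ _ hFm hI hFQ hIQ
  have hsum : A Q Q - A I I - 2 * A I (Q \ J) = A (I ∪ Q \ J) (J \ I) + A Q (J \ I) := by
    rw [f1, f2, f3, f4, f5, f6, f7, f8, f9, hFF]
    ring
  have hi : ∀ U : Set (ℝ × ℝ), U ⊆ Q → IntegrableOn mu U := fun U hU =>
    (hmu.continuousOn.integrableOn_compact (isCompact_Icc.prod isCompact_Icc)).mono_set
      (hU.trans fsplit_Q_sub)
  have hle : ∀ U : Set (ℝ × ℝ), U ⊆ Q → 0 ≤ (∫ x in U, mu x) ∧ (∫ x in U, mu x) ≤ 1 := by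
    intro U hU
    refine ⟨integral_nonneg nn, ?_⟩
    have h := setIntegral_mono_set (μ := volume) (hi Q subset_rfl)
      (Filter.Eventually.of_forall fun x => nn x)
      (Filter.Eventually.of_forall hU)
    exact h.trans_eq one
  have hm := (hle (J \ I) hRQ).1
  have b1 : |A (I ∪ Q \ J) (J \ I)| ≤ M * ∫ x in J \ I, mu x := by
    refine (fsplit_bound hmu nn hM hIFQ hRQ).trans ?_
    have h2 := (hle (I ∪ Q \ J) hIFQ).2
    calc M * (∫ x in I ∪ Q \ J, mu x) * (∫ x in J \ I, mu x)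
        ≤ M * 1 * (∫ x in J \ I, mu x) :=
          mul_le_mul_of_nonneg_right (mul_le_mul_of_nonneg_left h2 hM0) hm
      _ = M * ∫ x in J \ I, mu x := by ring
  have b2 : |A Q (J \ I)| ≤ M * ∫ x in J \ I, mu x := by
    refine (fsplit_bound hmu nn hM subset_rfl hRQ).trans ?_
    have h2 := (hle Q subset_rfl).2
    calc M * (∫ x in Q, mu x) * (∫ x in J \ I, mu x)
        ≤ M * 1 * (∫ x in J \ I, mu x) :=
          mul_le_mul_of_nonneg_right (mul_le_mul_of_nonneg_left h2 hM0) hm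
      _ = M * ∫ x in J \ I, mu x := by ring
  show |A Q Q - A I I - 2 * A I (Q \ J)| ≤ 4 * M * ∫ x in J \ I, mu x
  rw [hsum]
  have h5 := abs_add_le (A (I ∪ Q \ J) (J \ I)) (A Q (J \ I))
  have h6 : 0 ≤ M * ∫ x in J \ I, mu x := mul_nonneg hM0 hm
  linarith

theorem fsplit_disc_sub (r : ℝ) : Disc r ⊆ Icc (-r) r ×ˢ Icc (-r) r := by
  intro x hx
  have hx' : Real.sqrt (nsq x) < r := hx
  have hr : 0 < r := lt_of_le_of_lt (Real.sqrt_nonneg _) hx'
  have h1 : nsq x < r ^ 2 := (Real.sqrt_lt' hr).1 hx'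
  unfold nsq at h1
  have h2 : |x.1| ≤ r := abs_le_of_sq_le_sq (by nlinarith [sq_nonneg x.2]) hr.le
  have h3 : |x.2| ≤ r := abs_le_of_sq_le_sq (by nlinarith [sq_nonneg x.1]) hr.le
  exact ⟨abs_le.1 h2, abs_le.1 h3⟩

theorem fsplit_disc_int {r : ℝ} {f : ℝ × ℝ → ℝ} (hf : Continuous f) : IntegrableOn f (Disc r) :=
  (hf.continuousOn.integrableOn_compact (isCompact_Icc.prod isCompact_Icc)).mono_set
    (fsplit_disc_sub r)

/-- second moments of differences -/
theorem pair_quad {mu : ℝ × ℝ → ℝ} (hmu : Continuous mu) {r : ℝ} (hr : 0 < r) :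
    (∫ x in Disc r, ∫ y in Disc r, mu x * mu y * nsq (x - y)) =
      2 * (∫ x in Disc r, mu x) * (∫ x in Disc r, nsq x * mu x)
        - 2 * (∫ x in Disc r, x.1 * mu x) ^ 2 - 2 * (∫ x in Disc r, x.2 * mu x) ^ 2 := by
  have c0 : Continuous (fun x : ℝ × ℝ => nsq x * mu x) := by
    unfold nsq
    fun_prop
  have c1 : Continuous (fun x : ℝ × ℝ => x.1 * mu x) := by fun_prop
  have c2 : Continuous (fun x : ℝ × ℝ => x.2 * mu x) := by fun_prop
  have hinner : ∀ x : ℝ × ℝ, (∫ y in Disc r, mu x * mu y * nsq (x - y)) =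
      (nsq x * mu x) * (∫ y in Disc r, mu y) + mu x * (∫ y in Disc r, nsq y * mu y) -
        (x.1 * mu x) * (2 * ∫ y in Disc r, y.1 * mu y) -
        (x.2 * mu x) * (2 * ∫ y in Disc r, y.2 * mu y) := by
    intro x
    have h1 : (fun y : ℝ × ℝ => mu x * mu y * nsq (x - y)) = fun y =>
        (nsq x * mu x) * mu y + mu x * (nsq y * mu y) - (2 * (x.1 * mu x)) * (y.1 * mu y) -
          (2 * (x.2 * mu x)) * (y.2 * mu y) := by
      funext y
      unfold nsq
      rw [Prod.fst_sub, Prod.snd_sub]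
      ring
    rw [h1, integral_sub, integral_sub, integral_add, integral_const_mul, integral_const_mul,
      integral_const_mul, integral_const_mul]
    · ring
    · exact (fsplit_disc_int hmu).const_mul _
    · exact (fsplit_disc_int c0).const_mul _
    · exact ((fsplit_disc_int hmu).const_mul _).add ((fsplit_disc_int c0).const_mul _)
    · exact (fsplit_disc_int c1).const_mul _
    · exact (((fsplit_disc_int hmu).const_mul _).add ((fsplit_disc_int c0).const_mul _)).sub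
        ((fsplit_disc_int c1).const_mul _)
    · exact (fsplit_disc_int c2).const_mul _
  rw [integral_congr_ae (Filter.Eventually.of_forall hinner)]
  rw [integral_sub, integral_sub, integral_add, integral_mul_const, integral_mul_const,
    integral_mul_const, integral_mul_const]
  · ring
  · exact (fsplit_disc_int c0).mul_const _
  · exact (fsplit_disc_int hmu).mul_const _
  · exact ((fsplit_disc_int c0).mul_const _).add ((fsplit_disc_int hmu).mul_const _)
  · exact (fsplit_disc_int c1).mul_const _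
  · exact (((fsplit_disc_int c0).mul_const _).add ((fsplit_disc_int hmu).mul_const _)).sub
      ((fsplit_disc_int c1).mul_const _)
  · exact (fsplit_disc_int c2).mul_const _

end Pool.Agent.AO
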