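import Pool.Agent.Lib.MP_10e52e_an.Defs4
import Pool.Agent.Lib.MP_10e52e_an.Tools

/-! MP_10e52e_an row Fxr: cut-off fields -/

namespace Pool.Agent.AO

open MeasureTheory Set Real
open scoped ContDiff

theorem fxr_nsq_cd : ContDiff ℝ ∞ nsq := by
  unfold nsq
  exact (contDiff_fst.pow 2).add (contDiff_snd.pow 2)

theorem fxr_chi_cd (r : ℝ) : ContDiff ℝ ∞ (chi r) := by
  unfold chi
  exact contDiff_const.sub
    (Real.smoothTransition.contDiff.comp ((fxr_nsq_cd.sub contDiff_const).div_const _))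

theorem fxr_chi_bd (r : ℝ) (x : ℝ × ℝ) : 0 ≤ chi r x ∧ chi r x ≤ 1 := by
  unfold chi
  have h1 := Real.smoothTransition.nonneg ((nsq x - r ^ 2) / (3 * r ^ 2))
  have h2 := Real.smoothTransition.le_one ((nsq x - r ^ 2) / (3 * r ^ 2))
  constructor <;> linarith

theorem fxr_nsq_nonneg (x : ℝ × ℝ) : 0 ≤ nsq x := by unfold nsq; positivity

theorem fxr_nsq_le {x : ℝ × ℝ} {r : ℝ} (hr : 0 ≤ r) (h : nrm x ≤ r) : nsq x ≤ r ^ 2 := by
  unfold nrm at h
  exact (Real.sqrt_le_left hr).mp h

theorem fxr_nsq_ge {x : ℝ × ℝ} {r : ℝ} (hr : 0 ≤ r) (h : r ≤ nrm x) : r ^ 2 ≤ nsq x := by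
  unfold nrm at h
  exact (Real.le_sqrt hr (fxr_nsq_nonneg x)).mp h

theorem fxr_chi_one {r : ℝ} {x : ℝ × ℝ} (h : nsq x ≤ r ^ 2) : chi r x = 1 := by
  unfold chi
  rw [Real.smoothTransition.zero_of_nonpos, sub_zero]
  exact div_nonpos_of_nonpos_of_nonneg (by linarith) (by positivity)

theorem fxr_chi_zero {r : ℝ} (hr : 0 < r) {x : ℝ × ℝ} (h : (2 * r) ^ 2 ≤ nsq x) : chi r x = 0 := by
  unfold chi
  rw [Real.smoothTransition.one_of_one_le, sub_self]
  rw [le_div_iff₀ (by positivity)]
  nlinarith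

theorem fxr_supp {r : ℝ} (hr : 0 < r) (hr' : r ≤ 1 / 8) {f : ℝ × ℝ → ℝ} (x : ℝ × ℝ)
    (h : chi r x * f x ≠ 0) : |x.1| ≤ 1 / 4 ∧ |x.2| ≤ 1 / 4 := by
  have h1 : nsq x < (2 * r) ^ 2 := by
    by_contra h2
    rw [not_lt] at h2
    exact h (by rw [fxr_chi_zero hr h2, zero_mul])
  have h2 : (2 * r) ^ 2 ≤ (1 / 4) ^ 2 := by
    apply pow_le_pow_left₀ <;> linarith
  unfold nsq at h1
  constructor
  · apply abs_le_of_sq_le_sq _ (by norm_num)
    nlinarith [sq_nonneg x.2]
  · apply abs_le_of_sq_le_sq _ (by norm_num)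
    nlinarith [sq_nonneg x.1]

/-- cut-off fields -/
theorem Xr_basic {r : ℝ} (hr : 0 < r) (hr' : r ≤ 1 / 8) {f : ℝ × ℝ → ℝ} (hf : ContDiff ℝ ∞ f) :
    ContDiff ℝ ∞ (Xr r f) ∧ Per (Xr r f) ∧ (∀ x ∈ Q, Xr r f x = chi r x * f x) ∧
    (∀ x, nrm x ≤ r → chi r x = 1 ∧ Xr r f x = f x) ∧
    (∀ x, nrm x < r → D1 (Xr r f) x = D1 f x ∧ D2 (Xr r f) x = D2 f x) ∧
    (∀ x, 2 * r ≤ nrm x → chi r x = 0) ∧
    (∀ x ∈ Q, 2 * r ≤ nrm x → Xr r f x = 0 ∧ D1 (Xr r f) x = 0 ∧ D2 (Xr r f) x = 0) ∧
    (∀ x, 0 ≤ chi r x ∧ chi r x ≤ 1) := by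
  have hcd : ContDiff ℝ ∞ fun x => chi r x * f x := (fxr_chi_cd r).mul hf
  have hQ : ∀ x ∈ Q, Xr r f x = chi r x * f x :=
    perz_eq (a := 1 / 4) (by norm_num) (fxr_supp hr hr')
  have hinQ : ∀ x, nrm x ≤ r → x ∈ Q := by
    intro x hx
    have h1 := fxr_nsq_le hr.le hx
    unfold nsq at h1
    have e1 : |x.1| ≤ 1 / 8 := abs_le_of_sq_le_sq (by nlinarith [sq_nonneg x.2]) (by norm_num)
    have e2 : |x.2| ≤ 1 / 8 := abs_le_of_sq_le_sq (by nlinarith [sq_nonneg x.1]) (by norm_num)
    rw [abs_le] at e1 e2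
    exact ⟨⟨by linarith [e1.1], by linarith [e1.2]⟩, ⟨by linarith [e2.1], by linarith [e2.2]⟩⟩
  have h4 : ∀ x, nrm x ≤ r → chi r x = 1 ∧ Xr r f x = f x := by
    intro x hx
    have h1 := fxr_chi_one (fxr_nsq_le hr.le hx)
    exact ⟨h1, by rw [hQ x (hinQ x hx), h1, one_mul]⟩
  have hnc : Continuous nrm := by
    unfold nrm
    exact fxr_nsq_cd.continuous.sqrt
  refine ⟨perz_smooth (a := 1 / 4) (by norm_num) hcd (fxr_supp hr hr'), perz_per _, hQ, h4, ?_,
    fun x hx => fxr_chi_zero hr (fxr_nsq_ge (by positivity) hx), ?_, fxr_chi_bd r⟩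
  · intro x hx
    have e : Xr r f =ᶠ[nhds x] f := by
      filter_upwards [hnc.continuousAt.eventually_lt_const hx] with y hy
      exact (h4 y hy.le).2
    unfold D1 D2
    rw [e.fderiv_eq]
    exact ⟨rfl, rfl⟩
  · intro x hxQ hx
    have hc0 : chi r x = 0 := fxr_chi_zero hr (fxr_nsq_ge (by positivity) hx)
    have h0 : Xr r f x = 0 := by rw [hQ x hxQ, hc0, zero_mul]
    refine ⟨h0, ?_⟩
    have hfd : fderiv ℝ (Xr r f) x = 0 := by
      by_cases hint : x.1 < 1 / 2 ∧ x.2 < 1 / 2
      · have e : Xr r f =ᶠ[nhds x] fun y => chi r y * f y := by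
          have o1 : ∀ᶠ y : ℝ × ℝ in nhds x, y.1 < 1 / 2 :=
            continuous_fst.continuousAt.eventually_lt_const hint.1
          have o2 : ∀ᶠ y : ℝ × ℝ in nhds x, y.2 < 1 / 2 :=
            continuous_snd.continuousAt.eventually_lt_const hint.2
          have o3 : ∀ᶠ y : ℝ × ℝ in nhds x, -1 / 2 < y.1 :=
            continuous_fst.continuousAt.eventually_const_lt hxQ.1.1
          have o4 : ∀ᶠ y : ℝ × ℝ in nhds x, -1 / 2 < y.2 :=
            continuous_snd.continuousAt.eventually_const_lt hxQ.2.1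
          filter_upwards [o1, o2, o3, o4] with y y1 y2 y3 y4
          exact hQ y ⟨⟨y3, y1.le⟩, ⟨y4, y2.le⟩⟩
        rw [e.fderiv_eq]
        have hmin : IsLocalMin (chi r) x :=
          Filter.Eventually.of_forall fun y => by rw [hc0]; exact (fxr_chi_bd r y).1
        have d1 : HasFDerivAt (𝕜 := ℝ) (chi r) 0 x := by
          have := ((fxr_chi_cd r).differentiable (by simp) x).hasFDerivAt
          rwa [hmin.fderiv_eq_zero] at this
        have d2 := (hf.differentiable (by simp) x).hasFDerivAt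
        have d3 : HasFDerivAt (fun y => chi r y * f y) (chi r x • fderiv ℝ f x + f x • (0 : ℝ × ℝ →L[ℝ] ℝ)) x :=
          d1.mul d2
        rw [d3.fderiv, hc0]
        simp
      · have hcase : x.1 = 1 / 2 ∨ x.2 = 1 / 2 := by
          by_contra hne
          rw [not_or] at hne
          exact hint ⟨lt_of_le_of_ne hxQ.1.2 hne.1, lt_of_le_of_ne hxQ.2.2 hne.2⟩
        have hround : ∀ t : ℝ, 1 / 4 < t → t < 3 / 4 → 1 / 4 ≤ |t - round t| := by
          intro t h1 h2
          rcases le_or_gt t (1 / 2) with h3 | h3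
          · rcases eq_or_lt_of_le h3 with h4 | h4
            · have h5 : round t = 1 := by
                rw [h4, round_eq]
                norm_num
              rw [h5, h4]
              norm_num
            · have h5 : round t = 0 := by
                rw [round_eq_zero_iff]
                exact ⟨by linarith, h4⟩
              rw [h5, abs_of_nonneg (by simpa using by linarith)]
              simpa using by linarith
          · have h5 : round t = 1 := by
              rw [round_eq, Int.floor_eq_iff]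
              push_cast
              constructor <;> linarith
            rw [h5, abs_of_nonpos (by push_cast; linarith)]
            push_cast
            linarith
        have hz : ∀ y : ℝ × ℝ, (1 / 4 < y.1 ∧ y.1 < 3 / 4) ∨ (1 / 4 < y.2 ∧ y.2 < 3 / 4) →
            Xr r f y = 0 := by
          intro y hy
          unfold Xr perz
          have hn : (2 * r) ^ 2 ≤ nsq (y.1 - round y.1, y.2 - round y.2) := by
            have h2 : (2 * r) ^ 2 ≤ (1 / 4) ^ 2 := by
              apply pow_le_pow_left₀ <;> linarith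
            unfold nsq
            rcases hy with hy | hy
            · have := hround y.1 hy.1 hy.2
              have h3 := pow_le_pow_left₀ (by norm_num) this 2
              rw [sq_abs] at h3
              nlinarith [sq_nonneg (y.2 - round y.2)]
            · have := hround y.2 hy.1 hy.2
              have h3 := pow_le_pow_left₀ (by norm_num) this 2
              rw [sq_abs] at h3
              nlinarith [sq_nonneg (y.1 - round y.1)]
          beta_reduce
          rw [fxr_chi_zero hr hn, zero_mul]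
        have e : Xr r f =ᶠ[nhds x] fun _ => 0 := by
          rcases hcase with h | h
          · have o1 : ∀ᶠ y : ℝ × ℝ in nhds x, y.1 < 3 / 4 :=
              continuous_fst.continuousAt.eventually_lt_const (by rw [h]; norm_num)
            have o2 : ∀ᶠ y : ℝ × ℝ in nhds x, 1 / 4 < y.1 :=
              continuous_fst.continuousAt.eventually_const_lt (by rw [h]; norm_num)
            filter_upwards [o1, o2] with y y1 y2
            exact hz y (Or.inl ⟨y2, y1⟩)
          · have o1 : ∀ᶠ y : ℝ × ℝ in nhds x, y.2 < 3 / 4 :=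
              continuous_snd.continuousAt.eventually_lt_const (by rw [h]; norm_num)
            have o2 : ∀ᶠ y : ℝ × ℝ in nhds x, 1 / 4 < y.2 :=
              continuous_snd.continuousAt.eventually_const_lt (by rw [h]; norm_num)
            filter_upwards [o1, o2] with y y1 y2
            exact hz y (Or.inr ⟨y2, y1⟩)
        rw [e.fderiv_eq]
        simp
    unfold D1 D2
    rw [hfd]
    exact ⟨rfl, rfl⟩

end Pool.Agent.AO
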