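import Pool.Agent.Lib.MP_10e52e_an.Defs4
import Pool.Agent.Lib.MP_10e52e_an.Green
import Pool.Agent.Lib.MP_10e52e_an.Fxr
import Pool.Agent.Lib.MP_10e52e_an.Flip
import Pool.Agent.Lib.MP_10e52e_an.Fpb
import Pool.Agent.Lib.MP_10e52e_an.Fsplit

/-! MP_10e52e_an row Fpm: pair term of L7.4 -/

namespace Pool.Agent.AO

open MeasureTheory Set Real
open scoped ContDiff

private lemma fpm_nsq_nonneg (x : ℝ × ℝ) : 0 ≤ nsq x := by
  unfold nsq; positivity

private lemma fpm_nsq_cont : Continuous nsq := by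
  unfold nsq; fun_prop

private lemma fpm_nrm_cont : Continuous nrm := by
  unfold nrm; exact fpm_nsq_cont.sqrt

private lemma fpm_abs_le (x : ℝ × ℝ) : |x.1| ≤ nrm x ∧ |x.2| ≤ nrm x := by
  constructor
  · rw [← Real.sqrt_sq_eq_abs]
    exact Real.sqrt_le_sqrt (by unfold nsq; nlinarith [sq_nonneg x.2])
  · rw [← Real.sqrt_sq_eq_abs]
    exact Real.sqrt_le_sqrt (by unfold nsq; nlinarith [sq_nonneg x.1])

private lemma fpm_disc_sub (r : ℝ) : Disc r ⊆ Icc ((-r, -r) : ℝ × ℝ) (r, r) := by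
  intro x hx
  have h1 := fpm_abs_le x
  have h2 : nrm x < r := hx
  have h3 := abs_le.mp (h1.1.trans h2.le)
  have h4 := abs_le.mp (h1.2.trans h2.le)
  exact ⟨⟨h3.1, h4.1⟩, ⟨h3.2, h4.2⟩⟩

private lemma fpm_disc_meas (r : ℝ) : MeasurableSet (Disc r) :=
  (isOpen_lt fpm_nrm_cont continuous_const).measurableSet

private lemma fpm_int_disc {f : ℝ × ℝ → ℝ} (hf : Continuous f) (r : ℝ) :
    IntegrableOn f (Disc r) :=
  (hf.continuousOn.integrableOn_compact isCompact_Icc).mono_set (fpm_disc_sub r)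

private lemma fpm_Q_sub : Q ⊆ Icc ((-1, -1) : ℝ × ℝ) (1, 1) := by
  intro x hx
  obtain ⟨h1, h2⟩ := hx
  exact ⟨⟨by linarith [h1.1], by linarith [h2.1]⟩, ⟨by linarith [h1.2], by linarith [h2.2]⟩⟩

private lemma fpm_Q_meas : MeasurableSet Q := measurableSet_Ioc.prod measurableSet_Ioc

private lemma fpm_int_Q {f : ℝ × ℝ → ℝ} (hf : Continuous f) : IntegrableOn f Q :=
  (hf.continuousOn.integrableOn_compact isCompact_Icc).mono_set fpm_Q_sub

private lemma fpm_disc_Q {r : ℝ} (hr : r ≤ 1 / 4) : Disc r ⊆ Q := by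
  intro x hx
  have h1 := fpm_disc_sub r hx
  obtain ⟨⟨h2, h3⟩, ⟨h4, h5⟩⟩ := h1
  simp only at h2 h3 h4 h5
  exact ⟨⟨by linarith, by linarith⟩, ⟨by linarith, by linarith⟩⟩

private lemma fpm_even {f : ℝ × ℝ → ℝ} (hf : ∀ x, f (-x) = f x) (x : ℝ × ℝ) :
    D1 f (-x) = -D1 f x ∧ D2 f (-x) = -D2 f x := by
  have h : f ∘ (ContinuousLinearEquiv.neg ℝ : (ℝ × ℝ) ≃L[ℝ] (ℝ × ℝ)) = f := by
    funext y
    simp [hf]
  have h2 := (ContinuousLinearEquiv.neg ℝ : (ℝ × ℝ) ≃L[ℝ] (ℝ × ℝ)).comp_right_fderiv (f := f)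
    (x := x)
  rw [h] at h2
  constructor
  · unfold D1
    rw [h2]
    show fderiv ℝ f (-x) (1, 0) = -(fderiv ℝ f (-x) (-((1, 0) : ℝ × ℝ)))
    rw [map_neg, neg_neg]
  · unfold D2
    rw [h2]
    show fderiv ℝ f (-x) (0, 1) = -(fderiv ℝ f (-x) (-((0, 1) : ℝ × ℝ)))
    rw [map_neg, neg_neg]

private lemma fpm_meas_D (f : ℝ × ℝ → ℝ) : Measurable (D1 f) ∧ Measurable (D2 f) :=
  ⟨measurable_fderiv_apply_const ℝ f (1, 0), measurable_fderiv_apply_const ℝ f (0, 1)⟩

private lemma fpm_PX_meas (K : ℝ × ℝ → ℝ) {X1 X2 : ℝ × ℝ → ℝ} (h1 : Continuous X1)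
    (h2 : Continuous X2) : Measurable (Function.uncurry (PX K X1 X2)) := by
  have e : Function.uncurry (PX K X1 X2) = fun p : (ℝ × ℝ) × (ℝ × ℝ) =>
      (X1 p.1 - X1 p.2) * D1 (Gf K) (p.1 - p.2) + (X2 p.1 - X2 p.2) * D2 (Gf K) (p.1 - p.2) := by
    funext p
    rfl
  rw [e]
  have m1 := (fpm_meas_D (Gf K)).1
  have m2 := (fpm_meas_D (Gf K)).2
  have hs : Measurable fun p : (ℝ × ℝ) × (ℝ × ℝ) => p.1 - p.2 := measurable_fst.sub measurable_snd
  exact (((h1.measurable.comp measurable_fst).sub (h1.measurable.comp measurable_snd)).mul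
    (m1.comp hs)).add
    (((h2.measurable.comp measurable_fst).sub (h2.measurable.comp measurable_snd)).mul
    (m2.comp hs))

/-- the integral over `I x I` -/
private lemma fpm_core {mu : ℝ × ℝ → ℝ} (hmu : Continuous mu) (nn : ∀ x, 0 ≤ mu x) {r : ℝ}
    {P : ℝ × ℝ → ℝ × ℝ → ℝ} (hP : Measurable (Function.uncurry P)) {M C1 : ℝ} (hC1 : 0 ≤ C1)
    (hM : ∀ x y, |P x y| ≤ M) (hm1 : ∫ x in Disc r, mu x ≤ 1)
    (hb : ∀ x ∈ Disc r, ∀ y ∈ Disc r, x ≠ y →
      P x y ≤ -(1 / (2 * π)) + nsq (x - y) / 2 + C1 * nsq (x - y) ^ 2) :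
    (∫ x in Disc r, ∫ y in Disc r, mu x * mu y * P x y) ≤
      -(1 / (2 * π)) * (∫ x in Disc r, mu x) ^ 2 +
        (∫ x in Disc r, mu x) * (∫ x in Disc r, nsq x * mu x) +
        16 * C1 * ∫ x in Disc r, nsq x ^ 2 * mu x := by
  have hns := fpm_nsq_cont
  set m := ∫ x in Disc r, mu x with hm
  set S := ∫ x in Disc r, nsq x * mu x with hS
  set T := ∫ x in Disc r, nsq x ^ 2 * mu x with hT
  set b1 := ∫ x in Disc r, x.1 * mu x with hb1
  set b2 := ∫ x in Disc r, x.2 * mu x with hb2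
  have im : IntegrableOn mu (Disc r) := fpm_int_disc hmu r
  have iS : IntegrableOn (fun x => nsq x * mu x) (Disc r) := fpm_int_disc (hns.mul hmu) r
  have iT : IntegrableOn (fun x => nsq x ^ 2 * mu x) (Disc r) :=
    fpm_int_disc ((hns.pow 2).mul hmu) r
  have i1 : IntegrableOn (fun x => x.1 * mu x) (Disc r) :=
    fpm_int_disc (continuous_fst.mul hmu) r
  have i2 : IntegrableOn (fun x => x.2 * mu x) (Disc r) :=
    fpm_int_disc (continuous_snd.mul hmu) r
  have hT0 : 0 ≤ T := integral_nonneg fun x => by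
    have := nn x
    positivity
  -- inner integrals
  have hPx : ∀ x, Measurable (P x) := fun x => hP.comp measurable_prodMk_left
  have hin : ∀ x, IntegrableOn (fun y => mu x * mu y * P x y) (Disc r) := fun x => by
    refine Integrable.mono' (im.const_mul (mu x * M)) ?_ ?_
    · exact ((measurable_const.mul hmu.measurable).mul (hPx x)).aestronglyMeasurable
    · refine Filter.Eventually.of_forall fun y => ?_
      rw [Real.norm_eq_abs, abs_mul, abs_mul, abs_of_nonneg (nn x), abs_of_nonneg (nn y)]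
      have := hM x y
      have h0 := mul_nonneg (nn x) (nn y)
      nlinarith
  have hle : ∀ x ∈ Disc r, ∫ y in Disc r, mu x * mu y * P x y ≤
      mu x * (-(1 / (2 * π)) * m + (nsq x * m - 2 * x.1 * b1 - 2 * x.2 * b2 + S) / 2 +
        8 * C1 * (nsq x ^ 2 * m + T)) := by
    intro x hx
    have e : mu x * (-(1 / (2 * π)) * m + (nsq x * m - 2 * x.1 * b1 - 2 * x.2 * b2 + S) / 2 +
        8 * C1 * (nsq x ^ 2 * m + T)) =
        ∫ y in Disc r, (mu x * (-(1 / (2 * π)) + nsq x / 2 + 8 * C1 * nsq x ^ 2)) * mu y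
          + (-(mu x * x.1)) * (y.1 * mu y) + (-(mu x * x.2)) * (y.2 * mu y)
          + (mu x / 2) * (nsq y * mu y) + (mu x * (8 * C1)) * (nsq y ^ 2 * mu y) := by
      rw [integral_add, integral_add, integral_add, integral_add, integral_const_mul,
        integral_const_mul, integral_const_mul, integral_const_mul, integral_const_mul]
      · ring
      · exact im.const_mul _
      · exact i1.const_mul _
      · exact (im.const_mul _).add (i1.const_mul _)
      · exact i2.const_mul _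
      · exact ((im.const_mul _).add (i1.const_mul _)).add (i2.const_mul _)
      · exact iS.const_mul _
      · exact (((im.const_mul _).add (i1.const_mul _)).add (i2.const_mul _)).add (iS.const_mul _)
      · exact iT.const_mul _
    rw [e]
    refine integral_mono_ae (hin x) ?_ ?_
    · exact ((((im.const_mul _).add (i1.const_mul _)).add (i2.const_mul _)).add
        (iS.const_mul _)).add (iT.const_mul _)
    · have hne : ∀ᵐ y ∂(volume.restrict (Disc r)), y ≠ x := by
        refine ae_restrict_of_ae ?_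
        exact (measure_eq_zero_iff_ae_notMem.mp (measure_singleton x)).mono fun y hy hxy => hy hxy
      filter_upwards [ae_restrict_mem (fpm_disc_meas r), hne] with y hy hyx
      have h1 := hb x hx y hy (Ne.symm hyx)
      have h0 := mul_nonneg (nn x) (nn y)
      have e1 : nsq (x - y) = nsq x - 2 * x.1 * y.1 - 2 * x.2 * y.2 + nsq y := by
        simp only [nsq, Prod.fst_sub, Prod.snd_sub]
        ring
      have e2 : nsq (x - y) ^ 2 ≤ 8 * (nsq x ^ 2 + nsq y ^ 2) := by
        have h3 : nsq (x - y) ≤ 2 * (nsq x + nsq y) := by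
          simp only [nsq, Prod.fst_sub, Prod.snd_sub]
          nlinarith [sq_nonneg (x.1 + y.1), sq_nonneg (x.2 + y.2)]
        have h4 := fpm_nsq_nonneg (x - y)
        have h5 := fpm_nsq_nonneg x
        have h6 := fpm_nsq_nonneg y
        calc nsq (x - y) ^ 2 ≤ (2 * (nsq x + nsq y)) ^ 2 := by gcongr
          _ ≤ 8 * (nsq x ^ 2 + nsq y ^ 2) := by nlinarith [sq_nonneg (nsq x - nsq y)]
      have h2 : P x y ≤ -(1 / (2 * π)) + (nsq x - 2 * x.1 * y.1 - 2 * x.2 * y.2 + nsq y) / 2 +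
          8 * C1 * (nsq x ^ 2 + nsq y ^ 2) := by
        rw [← e1]
        have := mul_le_mul_of_nonneg_left e2 hC1
        linarith
      calc mu x * mu y * P x y ≤ mu x * mu y * (-(1 / (2 * π)) +
            (nsq x - 2 * x.1 * y.1 - 2 * x.2 * y.2 + nsq y) / 2 +
            8 * C1 * (nsq x ^ 2 + nsq y ^ 2)) := mul_le_mul_of_nonneg_left h2 h0
        _ = _ := by ring
  -- outer integral
  have hout : IntegrableOn (fun x => ∫ y in Disc r, mu x * mu y * P x y) (Disc r) := by
    have hsm : StronglyMeasurable fun x => ∫ y in Disc r, mu x * mu y * P x y := by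
      refine StronglyMeasurable.integral_prod_right' (f := fun p : (ℝ × ℝ) × (ℝ × ℝ) =>
        mu p.1 * mu p.2 * P p.1 p.2) ?_
      exact (((hmu.measurable.comp measurable_fst).mul (hmu.measurable.comp measurable_snd)).mul
        hP).stronglyMeasurable
    refine Integrable.mono' (im.const_mul (M * m)) hsm.aestronglyMeasurable ?_
    refine Filter.Eventually.of_forall fun x => ?_
    have : ‖∫ y in Disc r, mu x * mu y * P x y‖ ≤ ∫ y in Disc r, (mu x * M) * mu y := by
      refine norm_integral_le_of_norm_le (im.const_mul _) (Filter.Eventually.of_forall fun y => ?_)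
      rw [Real.norm_eq_abs, abs_mul, abs_mul, abs_of_nonneg (nn x), abs_of_nonneg (nn y)]
      have := hM x y
      have h0 := mul_nonneg (nn x) (nn y)
      nlinarith
    rw [integral_const_mul] at this
    calc _ ≤ mu x * M * m := this
      _ = M * m * mu x := by ring
  have hfin : ∫ x in Disc r, (mu x * (-(1 / (2 * π)) * m +
      (nsq x * m - 2 * x.1 * b1 - 2 * x.2 * b2 + S) / 2 + 8 * C1 * (nsq x ^ 2 * m + T))) =
      -(1 / (2 * π)) * m ^ 2 + (m * S - b1 ^ 2 - b2 ^ 2) + 16 * C1 * (m * T) := by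
    have e : (fun x : ℝ × ℝ => (mu x * (-(1 / (2 * π)) * m +
      (nsq x * m - 2 * x.1 * b1 - 2 * x.2 * b2 + S) / 2 + 8 * C1 * (nsq x ^ 2 * m + T)))) =
      fun x => (-(1 / (2 * π)) * m + S / 2 + 8 * C1 * T) * mu x + (-b1) * (x.1 * mu x)
        + (-b2) * (x.2 * mu x) + (m / 2) * (nsq x * mu x) + (8 * C1 * m) * (nsq x ^ 2 * mu x) := by
      funext x
      ring
    rw [e]
    rw [integral_add, integral_add, integral_add, integral_add, integral_const_mul,
        integral_const_mul, integral_const_mul, integral_const_mul, integral_const_mul]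
    · rw [← hm, ← hS, ← hT, ← hb1, ← hb2]
      ring
    · exact im.const_mul _
    · exact i1.const_mul _
    · exact (im.const_mul _).add (i1.const_mul _)
    · exact i2.const_mul _
    · exact ((im.const_mul _).add (i1.const_mul _)).add (i2.const_mul _)
    · exact iS.const_mul _
    · exact (((im.const_mul _).add (i1.const_mul _)).add (i2.const_mul _)).add (iS.const_mul _)
    · exact iT.const_mul _
  have hcont : Continuous fun x : ℝ × ℝ => (mu x * (-(1 / (2 * π)) * m +
      (nsq x * m - 2 * x.1 * b1 - 2 * x.2 * b2 + S) / 2 + 8 * C1 * (nsq x ^ 2 * m + T))) := by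
    fun_prop
  calc (∫ x in Disc r, ∫ y in Disc r, mu x * mu y * P x y) ≤
      ∫ x in Disc r, (mu x * (-(1 / (2 * π)) * m +
        (nsq x * m - 2 * x.1 * b1 - 2 * x.2 * b2 + S) / 2 + 8 * C1 * (nsq x ^ 2 * m + T))) :=
        setIntegral_mono_on hout (fpm_int_disc hcont r) (fpm_disc_meas r) hle
    _ = -(1 / (2 * π)) * m ^ 2 + (m * S - b1 ^ 2 - b2 ^ 2) + 16 * C1 * (m * T) := hfin
    _ ≤ _ := by
      have h1 : 16 * C1 * (m * T) ≤ 16 * C1 * T := by
        have : m * T ≤ T := by nlinarith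
        have h0 : 0 ≤ 16 * C1 := by linarith
        exact mul_le_mul_of_nonneg_left this h0
      nlinarith [sq_nonneg b1, sq_nonneg b2]

/-- for Case 1 and L7.4: the pair term of `X = chi x`; the constant of the quartic term does not
depend on `r` -/
theorem pair_master {K R : ℝ × ℝ → ℝ} (hG : IsGreen K R) : ∃ C0 : ℝ, 0 < C0 ∧
    ∀ r : ℝ, 0 < r → r ≤ 1 / 16 → ∃ C : ℝ, 0 < C ∧ ∀ mu : ℝ × ℝ → ℝ, Continuous mu →
      (∀ x, 0 ≤ mu x) → TI mu = 1 →
      2 * π * TI (fun x => TI (fun y => mu x * mu y *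
        PX K (Xr r (fun x => x.1)) (Xr r (fun x => x.2)) x y)) ≤
      -(∫ x in Disc r, mu x) ^ 2 + 2 * π * (∫ x in Disc r, mu x) * (∫ x in Disc r, nsq x * mu x)
        + C0 * (∫ x in Disc r, nsq x ^ 2 * mu x) + C * ∫ x in Q \ Disc r, mu x := by
  obtain ⟨C1, hC1, hnear⟩ := pair_near hG
  refine ⟨2 * π * (16 * C1), by positivity, ?_⟩
  intro r hr hr16
  have hb1 := Xr_basic hr (hr16.trans (by norm_num)) (f := fun x : ℝ × ℝ => x.1) contDiff_fst
  have hb2 := Xr_basic hr (hr16.trans (by norm_num)) (f := fun x : ℝ × ℝ => x.2) contDiff_snd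
  obtain ⟨s1, p1, -, q1, -, -, z1, -⟩ := hb1
  obtain ⟨s2, p2, -, q2, -, -, z2, -⟩ := hb2
  obtain ⟨M, hM0, hM⟩ := pair_bdd hG (s1.of_le (by exact_mod_cast le_top)) p1
    (s2.of_le (by exact_mod_cast le_top)) p2
  refine ⟨2 * π * (6 * M), by positivity, ?_⟩
  intro mu hmu nn one
  set P := PX K (Xr r (fun x : ℝ × ℝ => x.1)) (Xr r (fun x : ℝ × ℝ => x.2)) with hPdef
  have hPm : Measurable (Function.uncurry P) := fpm_PX_meas K s1.continuous s2.continuous
  have hKe : ∀ x, Gf K (-x) = Gf K x := fun x => by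
    have h1 := hG.refl1 (-(-x.1), -x.2)
    have h2 := hG.refl2 x
    have h3 : K (-x) = K x := by
      have h1' := hG.refl1 (x.1, -x.2)
      calc K (-x) = K (-x.1, -x.2) := rfl
        _ = K (x.1, -x.2) := h1'
        _ = K x := h2
    simp only [Gf, h3]
  have hPs : ∀ x y, P x y = P y x := fun x y => by
    have h := fpm_even hKe (x - y)
    rw [neg_sub] at h
    simp only [hPdef, PX, h.1, h.2]
    ring
  have hI : MeasurableSet (Disc r) := fpm_disc_meas r
  have hJ : MeasurableSet (Disc (2 * r)) := fpm_disc_meas _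
  have hIJ : Disc r ⊆ Disc (2 * r) := fun x (hx : nrm x < r) => by
    show nrm x < 2 * r
    linarith
  have hJQ : Disc (2 * r) ⊆ Q := fpm_disc_Q (by linarith)
  have hF : ∀ x ∈ Q \ Disc (2 * r), ∀ y ∈ Q \ Disc (2 * r), P x y = 0 := by
    intro x hx y hy
    have hx2 : 2 * r ≤ nrm x := not_lt.mp hx.2
    have hy2 : 2 * r ≤ nrm y := not_lt.mp hy.2
    simp only [hPdef, PX, (z1 x hx.1 hx2).1, (z1 y hy.1 hy2).1, (z2 x hx.1 hx2).1,
      (z2 y hy.1 hy2).1]
    ring
  have hsplit := pair_split hmu nn one hPm hM hPs hI hJ hIJ hJQ hF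
  set m := ∫ x in Disc r, mu x with hm
  set S := ∫ x in Disc r, nsq x * mu x with hS
  set T := ∫ x in Disc r, nsq x ^ 2 * mu x with hT
  set E := ∫ x in Q \ Disc r, mu x with hE
  have iQ : IntegrableOn mu Q := fpm_int_Q hmu
  have hmE : m + E = 1 := by
    rw [← one, TI, hm, hE, ← setIntegral_union disjoint_sdiff_right (fpm_Q_meas.diff hI)
      (iQ.mono_set (hIJ.trans hJQ)) (iQ.mono_set sdiff_subset)]
    rw [union_sdiff_cancel (hIJ.trans hJQ)]
  have hE0 : 0 ≤ E := integral_nonneg nn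
  have hm0 : 0 ≤ m := integral_nonneg nn
  have hm1 : m ≤ 1 := by linarith
  have hJI : ∫ x in Disc (2 * r) \ Disc r, mu x ≤ E := by
    refine setIntegral_mono_set (iQ.mono_set sdiff_subset) (Filter.Eventually.of_forall nn) ?_
    exact LE.le.eventuallyLE (fun x hx => ⟨hJQ hx.1, hx.2⟩)
  have hQJ : ∫ x in Q \ Disc (2 * r), mu x ≤ E := by
    refine setIntegral_mono_set (iQ.mono_set sdiff_subset) (Filter.Eventually.of_forall nn) ?_
    exact LE.le.eventuallyLE (fun x hx => ⟨hx.1, fun h => hx.2 (hIJ h)⟩)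
  have hQJ0 : 0 ≤ ∫ x in Q \ Disc (2 * r), mu x := integral_nonneg nn
  have hB : |∫ x in Disc r, ∫ y in Q \ Disc (2 * r), mu x * mu y * P x y| ≤ M * E := by
    have h1 : ∀ x, ‖∫ y in Q \ Disc (2 * r), mu x * mu y * P x y‖ ≤
        mu x * M * ∫ y in Q \ Disc (2 * r), mu y := fun x => by
      rw [← integral_const_mul]
      refine norm_integral_le_of_norm_le ((iQ.mono_set sdiff_subset).const_mul _)
        (Filter.Eventually.of_forall fun y => ?_)
      rw [Real.norm_eq_abs, abs_mul, abs_mul, abs_of_nonneg (nn x), abs_of_nonneg (nn y)]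
      have := hM x y
      have h0 := mul_nonneg (nn x) (nn y)
      nlinarith
    have h2 : ‖∫ x in Disc r, ∫ y in Q \ Disc (2 * r), mu x * mu y * P x y‖ ≤
        ∫ x in Disc r, (M * ∫ y in Q \ Disc (2 * r), mu y) * mu x := by
      refine norm_integral_le_of_norm_le ((fpm_int_disc hmu r).const_mul _)
        (Filter.Eventually.of_forall fun x => ?_)
      calc _ ≤ _ := h1 x
        _ = _ := by ring
    rw [integral_const_mul, ← hm] at h2
    rw [← Real.norm_eq_abs]
    calc _ ≤ _ := h2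
      _ ≤ (M * E) * 1 := by gcongr
      _ = M * E := mul_one _
  have hA := fpm_core hmu nn (r := r) hPm hC1.le hM (by rw [← hm]; exact hm1) (by
    intro x hx y hy hxy
    have hx' : nrm x < r := hx
    have hy' : nrm y < r := hy
    have ex1 := (q1 x hx'.le).2
    have ex2 := (q2 x hx'.le).2
    have ey1 := (q1 y hy'.le).2
    have ey2 := (q2 y hy'.le).2
    have hw : x - y ≠ 0 := sub_ne_zero.mpr hxy
    have hwn : nrm (x - y) ≤ 3 / 4 := by
      have h3 : nsq (x - y) ≤ 2 * (nsq x + nsq y) := by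
        simp only [nsq, Prod.fst_sub, Prod.snd_sub]
        nlinarith [sq_nonneg (x.1 + y.1), sq_nonneg (x.2 + y.2)]
      have hx2 : nsq x ≤ r ^ 2 := by
        have := Real.sq_sqrt (fpm_nsq_nonneg x)
        rw [← this]
        exact pow_le_pow_left₀ (Real.sqrt_nonneg _) hx'.le 2
      have hy2 : nsq y ≤ r ^ 2 := by
        have := Real.sq_sqrt (fpm_nsq_nonneg y)
        rw [← this]
        exact pow_le_pow_left₀ (Real.sqrt_nonneg _) hy'.le 2
      unfold nrm
      rw [Real.sqrt_le_left (by norm_num)]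
      nlinarith
    have h := hnear (x - y) hw hwn
    have h' := (abs_le.mp h).2
    have eP : P x y = (x - y).1 * D1 (Gf K) (x - y) + (x - y).2 * D2 (Gf K) (x - y) := by
      simp only [hPdef, PX, ex1, ex2, ey1, ey2, Prod.fst_sub, Prod.snd_sub]
    rw [eP]
    linarith)
  rw [← hm, ← hS, ← hT] at hA
  have h3 := (abs_le.mp hsplit).2
  have h4 := (abs_le.mp hB).2
  have h5 : TI (fun x => TI (fun y => mu x * mu y * P x y)) ≤
      (-(1 / (2 * π)) * m ^ 2 + m * S + 16 * C1 * T) + 6 * M * E := by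
    have : 4 * M * ∫ x in Disc (2 * r) \ Disc r, mu x ≤ 4 * M * E := by gcongr
    linarith
  have hpi : (0 : ℝ) < 2 * π := by positivity
  calc 2 * π * TI (fun x => TI (fun y => mu x * mu y * P x y)) ≤
      2 * π * ((-(1 / (2 * π)) * m ^ 2 + m * S + 16 * C1 * T) + 6 * M * E) :=
        mul_le_mul_of_nonneg_left h5 hpi.le
    _ = _ := by
      field_simp
      try ring

end Pool.Agent.AO
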