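import Pool.Agent.Lib.MP_10e52e_an.Defs4
import Pool.Agent.Lib.MP_10e52e_an.Green
import Pool.Agent.Lib.MP_10e52e_an.Fxr
import Pool.Agent.Lib.MP_10e52e_an.Flip
import Pool.Agent.Lib.MP_10e52e_an.Fpb
import Pool.Agent.Lib.MP_10e52e_an.Fsplit
import Pool.Agent.Lib.MP_10e52e_an.Fpm
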