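import Pool.Agent.Lib.MP_10e52e_an.Dens
import Pool.Agent.Lib.MP_10e52e_an.Field

/-! MP_10e52e_an row AL2: L8.1 -/

namespace Pool.Agent.AO

open MeasureTheory Set Real
open scoped ContDiff

theorem AL2_meas_nrm : Measurable nrm := by
  unfold nrm nsq
  fun_prop

theorem AL2_meas_set (r : ℝ) : MeasurableSet (Q \ Disc r) := by
  refine MeasurableSet.diff (measurableSet_Ioc.prod measurableSet_Ioc) ?_
  exact measurableSet_lt AL2_meas_nrm measurable_const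

theorem AL2_vol (r : ℝ) : (volume (Q \ Disc r)).toReal ≤ 1 := by
  have h1 : volume (Q \ Disc r) ≤ volume Q := measure_mono sdiff_subset
  have h2 : volume Q = 1 := by
    unfold Q
    rw [Measure.volume_eq_prod, Measure.prod_prod, Real.volume_Ioc]
    norm_num
  rw [h2] at h1
  have := ENNReal.toReal_mono ENNReal.one_ne_top h1
  simpa using this

/-- L8.1 -/
theorem c1_L2 {K R : ℝ × ℝ → ℝ} (hG : IsGreen K R) {r1 : ℝ} (hr : 0 < r1) (hr' : r1 ≤ 1 / 32) :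
    ∃ C : ℝ, 0 < C ∧ ∃ c : ℝ, 0 < c ∧ ∀ (N : ℕ) (k : ℝ) (mu s : ℝ × ℝ → ℝ), 3 ≤ N →
      IsMF K N 0 k mu s → NoFar mu r1 →
      ∫ x in Q \ Disc r1, mu x ^ 2 ≤ C * (k * K pt ^ N) ^ 2 * Real.exp (-(c * N)) ∧
      ∫ x in Q \ Disc r1, mu x ≤ C * (k * K pt ^ N) * Real.exp (-(c * N)) := by
  obtain ⟨C1, hC1, h1⟩ := dens_L2 hG
  obtain ⟨C2, hC2, h2⟩ := dens_mass hG
  obtain ⟨c, hc, hU⟩ := U_upper hG
  have hi : 0 < (r1 / 8)⁻¹ := by positivity
  refine ⟨C1 * (r1 / 8)⁻¹ ^ 8 + C2 * (r1 / 8)⁻¹ ^ 4 * 2, by positivity, c * r1 ^ 2, by positivity,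
    ?_⟩
  intro N k mu s hN hM hF
  set E : ℝ := Real.exp (-(c * r1 ^ 2 * N)) with hE
  have hE0 : 0 < E := Real.exp_pos _
  have hE1 : E ≤ 1 := by
    rw [hE]
    apply Real.exp_le_one_iff.mpr
    have : 0 ≤ c * r1 ^ 2 * N := by positivity
    linarith
  have hk : 0 ≤ k * K pt ^ N := mul_nonneg hM.kpos.le (pow_nonneg (hG.nonneg _) _)
  have hout : ∀ x ∈ Q \ Disc r1, r1 ≤ nrm x := by
    intro x hx
    have := hx.2
    simp only [Disc, mem_ofPred_eq, not_lt] at this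
    exact this
  have hball : ∀ x ∈ Q \ Disc r1, bm mu x (r1 / 8) ≤ 1 / 5 :=
    fun x hx => hF x hx.1 (hout x hx)
  have hMb : ∀ x ∈ Q \ Disc r1, k * K (x + 0 - pt) ^ N ≤ k * K pt ^ N * E := by
    intro x hx
    rw [add_zero]
    have e1 : r1 ^ 2 ≤ nsq x := by
      have e2 : nsq x = nrm x ^ 2 := by
        unfold nrm
        rw [Real.sq_sqrt]
        unfold nsq
        positivity
      rw [e2]
      exact pow_le_pow_left₀ hr.le (hout x hx) 2
    have e3 : K (x - pt) ≤ K pt * Real.exp (-(c * r1 ^ 2)) := by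
      refine (hU x hx.1).trans ?_
      apply mul_le_mul_of_nonneg_left _ (hG.nonneg _)
      apply Real.exp_le_exp.mpr
      have : c * r1 ^ 2 ≤ c * nsq x := mul_le_mul_of_nonneg_left e1 hc.le
      linarith
    have e4 : K (x - pt) ^ N ≤ K pt ^ N * E := by
      calc K (x - pt) ^ N ≤ (K pt * Real.exp (-(c * r1 ^ 2))) ^ N :=
            pow_le_pow_left₀ (hG.nonneg _) e3 N
        _ = K pt ^ N * E := by
          rw [mul_pow, ← Real.exp_nat_mul, hE]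
          congr 2
          ring
    calc k * K (x - pt) ^ N ≤ k * (K pt ^ N * E) := mul_le_mul_of_nonneg_left e4 hM.kpos.le
      _ = _ := by ring
  have hr8 : 0 < r1 / 8 := by positivity
  have hr8' : r1 / 8 ≤ 1 / 2 := by linarith
  constructor
  · have a := h1 N 0 k mu s hN hM (Q \ Disc r1) (r1 / 8) (k * K pt ^ N * E) (AL2_meas_set r1)
      sdiff_subset hr8 hr8' hball hMb
    refine a.trans ?_
    have b : C1 * (k * K pt ^ N * E) ^ 2 * (r1 / 8)⁻¹ ^ 8 =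
        C1 * (r1 / 8)⁻¹ ^ 8 * (k * K pt ^ N) ^ 2 * (E * E) := by ring
    rw [b]
    have c1 : E * E ≤ E := by nlinarith
    have c2 : C1 * (r1 / 8)⁻¹ ^ 8 ≤ C1 * (r1 / 8)⁻¹ ^ 8 + C2 * (r1 / 8)⁻¹ ^ 4 * 2 := by
      have : 0 ≤ C2 * (r1 / 8)⁻¹ ^ 4 * 2 := by positivity
      linarith
    gcongr
  · have a := h2 N 0 k mu s hN hM (Q \ Disc r1) 0 (r1 / 8) (k * K pt ^ N * E) (AL2_meas_set r1)
      (fun x hx => by rw [sub_zero]; exact hx.1) hr8 hr8'
      (mul_nonneg (mul_nonneg hM.kpos.le (pow_nonneg (hG.nonneg _) _))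
        (by rw [hE]; positivity)) hball hMb
    refine a.trans ?_
    have d1 : (volume (Q \ Disc r1)).toReal + (r1 / 8) ^ 2 ≤ 2 := by
      have := AL2_vol r1
      have d2 : (r1 / 8) ^ 2 ≤ 1 := by
        have : r1 / 8 ≤ 1 := by linarith
        nlinarith
      linarith
    have c2 : C2 * (r1 / 8)⁻¹ ^ 4 * 2 ≤ C1 * (r1 / 8)⁻¹ ^ 8 + C2 * (r1 / 8)⁻¹ ^ 4 * 2 := by
      have : 0 ≤ C1 * (r1 / 8)⁻¹ ^ 8 := by positivity
      linarith
    calc C2 * (k * K pt ^ N * E) * (r1 / 8)⁻¹ ^ 4 *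
          ((volume (Q \ Disc r1)).toReal + (r1 / 8) ^ 2)
        ≤ C2 * (k * K pt ^ N * E) * (r1 / 8)⁻¹ ^ 4 * 2 := by
          apply mul_le_mul_of_nonneg_left d1
          have : 0 ≤ k * K pt ^ N * E := mul_nonneg hk hE0.le
          positivity
      _ = (C2 * (r1 / 8)⁻¹ ^ 4 * 2) * (k * K pt ^ N * E) := by ring
      _ ≤ (C1 * (r1 / 8)⁻¹ ^ 8 + C2 * (r1 / 8)⁻¹ ^ 4 * 2) * (k * K pt ^ N * E) :=
          mul_le_mul_of_nonneg_right c2 (mul_nonneg hk hE0.le)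
      _ = _ := by ring

end Pool.Agent.AO
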