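import Pool.Agent.Lib.MP_10e52e_an.Green
import Pool.Agent.Lib.MP_10e52e_an.Calc

/-! MP_10e52e_an row Cbd: L5.3 -/

namespace Pool.Agent.AO

open MeasureTheory Set Real
open scoped ContDiff

theorem Cbd_add_int {f : ℝ × ℝ → ℝ} (hf : Per f) (m n : ℤ) (x : ℝ × ℝ) :
    f (x.1 + m, x.2 + n) = f x := by
  have h1 : ∀ y : ℝ, Function.Periodic (fun t => f (t, y)) 1 := fun y t => (hf (t, y)).1
  have h2 : ∀ t : ℝ, Function.Periodic (fun y => f (t, y)) 1 := fun t y => (hf (t, y)).2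
  have e1 := (h1 (x.2 + n)).int_mul m x.1
  have e2 := (h2 x.1).int_mul n x.2
  simp only [mul_one] at e1 e2
  rw [e1, e2]

theorem Cbd_exists_max {f : ℝ × ℝ → ℝ} (hf : Per f) (hc : Continuous f) :
    ∃ z, ∀ w, f w ≤ f z := by
  have hcomp : IsCompact (Icc (-1/2 : ℝ) (1/2) ×ˢ Icc (-1/2 : ℝ) (1/2)) :=
    isCompact_Icc.prod isCompact_Icc
  obtain ⟨z, -, hz⟩ := hcomp.exists_isMaxOn ⟨0, by
    constructor <;> constructor <;> norm_num⟩ hc.continuousOn
  refine ⟨z, fun w => ?_⟩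
  obtain ⟨m, hm, -⟩ := existsUnique_add_zsmul_mem_Ioc (zero_lt_one : (0:ℝ) < 1) w.1 (-1/2)
  obtain ⟨n, hn, -⟩ := existsUnique_add_zsmul_mem_Ioc (zero_lt_one : (0:ℝ) < 1) w.2 (-1/2)
  simp only [zsmul_eq_mul, mul_one, mem_Ioc] at hm hn
  rw [← Cbd_add_int hf m n w]
  refine hz (mem_prod.2 ⟨?_, ?_⟩)
  · exact ⟨hm.1.le, by linarith [hm.2]⟩
  · exact ⟨hn.1.le, by linarith [hn.2]⟩

theorem Cbd_lam_pos {N : ℕ} (hN : 3 ≤ N) : 0 < lam N := by
  unfold lam
  have : (3 : ℝ) ≤ N := by exact_mod_cast hN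
  have := Real.pi_pos
  nlinarith

theorem Cbd_Kpos {K R : ℝ × ℝ → ℝ} (hG : IsGreen K R) {x : ℝ × ℝ} (hx : x ∉ Lat) : 0 < K x :=
  lt_of_le_of_ne (hG.nonneg x) fun h => hx ((hG.zero_iff x).1 h.symm)

/-- the maximum principle for the comparator -/
theorem Cbd_le_one {K R : ℝ × ℝ → ℝ} (hG : IsGreen K R) {Cb : ℝ} {N : ℕ} (hN : 3 ≤ N)
    {v : ℝ × ℝ → ℝ} (hv : IsComp K Cb N v) : ∀ x, K x * Real.exp (v x) ≤ 1 := by
  have hlam := Cbd_lam_pos hN
  have hpi := Real.pi_pos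
  have hper : Per (fun x => K x * Real.exp (v x)) := fun x =>
    ⟨by simp only [(hG.per x).1, (hv.per x).1], by simp only [(hG.per x).2, (hv.per x).2]⟩
  have hcont : Continuous (fun x => K x * Real.exp (v x)) :=
    hG.smoothK.continuous.mul (Real.continuous_exp.comp hv.smooth.continuous)
  obtain ⟨x0, hx0⟩ := Cbd_exists_max hper hcont
  have hhalf : ((1 / 2, 1 / 2) : ℝ × ℝ) ∉ Lat := by
    rintro ⟨m, n, h⟩
    have h1 : (1 / 2 : ℝ) = m := congrArg Prod.fst h
    have h2 : (1 : ℝ) = 2 * m := by linarith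
    have h3 : (1 : ℤ) = 2 * m := by exact_mod_cast h2
    omega
  have hpos : 0 < K x0 * Real.exp (v x0) :=
    lt_of_lt_of_le (mul_pos (Cbd_Kpos hG hhalf) (Real.exp_pos _)) (hx0 _)
  have hK0 : 0 < K x0 := by
    by_contra hneg
    have h1 : K x0 = 0 := le_antisymm (not_lt.1 hneg) (hG.nonneg x0)
    rw [h1, zero_mul] at hpos
    exact lt_irrefl _ hpos
  have hx0L : x0 ∉ Lat := fun h => hK0.ne' ((hG.zero_iff x0).2 h)
  obtain ⟨hLS, hLap⟩ := green_logsing hG
  have hnear : ∀ᶠ y in nhds x0, 0 < K y :=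
    (hG.smoothK.continuous.tendsto x0).eventually (lt_mem_nhds hK0)
  have hGat : ContDiffAt ℝ 2 (Gf K) x0 := by
    have h1 : ContDiffAt ℝ 2 (fun x => -(1 / (4 * π)) * Real.log (K x)) x0 := by
      refine contDiffAt_const.mul ?_
      exact (contDiff_infty.1 hG.smoothK 2).contDiffAt.log hK0.ne'
    exact h1
  have hvat : ContDiffAt ℝ 2 v x0 := (contDiff_infty.1 hv.smooth 2).contDiffAt
  have hmin : IsLocalMin (fun y => 4 * π * Gf K y - v y) x0 := by
    filter_upwards [hnear] with y hy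
    have h1 : ∀ z, 0 < K z → 4 * π * Gf K z - v z = -Real.log (K z * Real.exp (v z)) := by
      intro z hz
      rw [Real.log_mul hz.ne' (Real.exp_pos _).ne', Real.log_exp]
      unfold Gf
      field_simp
      ring
    rw [h1 y hy, h1 x0 hK0]
    have h2 := Real.log_le_log (mul_pos hy (Real.exp_pos (v y))) (hx0 y)
    linarith
  have hsm : ContDiffAt ℝ 2 (fun y => 4 * π * Gf K y) x0 := contDiffAt_const.mul hGat
  have h3 := tool_min (hsm.sub hvat) hmin
  have h4 : Lap (fun y => 4 * π * Gf K y - v y) x0 = 4 * π * 1 - Lap v x0 := by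
    rw [Lap_sub hsm hvat, Lap_const_mul hGat, hLap x0 hx0L]
  have h5 : 0 ≤ Lap (fun y => 4 * π * Gf K y - v y) x0 := h3
  rw [h4, hv.eq x0] at h5
  have h6 : lam N * (K x0 * Real.exp (v x0) - 1) ≤ 0 := by linarith
  have h7 : K x0 * Real.exp (v x0) - 1 ≤ 0 := by
    by_contra hcon
    push Not at hcon
    have := mul_pos hlam hcon
    linarith
  intro x
  have := hx0 x
  linarith

/-- L5.3 -/
theorem comp_bounds {K R : ℝ × ℝ → ℝ} (hG : IsGreen K R) {Cb : ℝ} (hCb : 0 < Cb) :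
    ∃ C : ℝ, 0 < C ∧ ∀ (N : ℕ) (v : ℝ × ℝ → ℝ), 3 ≤ N → IsComp K Cb N v →
      (∀ x, x ∉ Lat → om0 K v x ≤ 0) ∧
      (∀ x ∈ Q, x ≠ 0 → -(C / (lam N * nsq x)) ≤ om0 K v x) ∧
      (∀ x ∈ Q, nsq x / (nsq x + C / lam N) ≤ K x * Real.exp (v x)) := by
  obtain ⟨C1, hC1, hlow, -⟩ := green_bounds hG
  refine ⟨C1 * Cb, mul_pos hC1 hCb, fun N v hN hv => ?_⟩
  have hlam := Cbd_lam_pos hN
  have hβ : 0 < Cb / lam N := div_pos hCb hlam
  have hnsq : ∀ x : ℝ × ℝ, 0 ≤ nsq x := fun x => by unfold nsq; positivity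
  have hnsq0 : ∀ x : ℝ × ℝ, x ≠ 0 → 0 < nsq x := by
    intro x hx
    refine lt_of_le_of_ne (hnsq x) fun h => hx ?_
    unfold nsq at h
    have h1 : x.1 = 0 := by nlinarith [sq_nonneg x.1, sq_nonneg x.2]
    have h2 : x.2 = 0 := by nlinarith [sq_nonneg x.1, sq_nonneg x.2]
    exact Prod.ext h1 h2
  have hKc : ∀ x ∈ Q, nsq x ≤ C1 * K x := by
    intro x hx
    have h1 := hlow x hx
    have h2 := mul_le_mul_of_nonneg_left h1 hC1.le
    rwa [← mul_assoc, mul_inv_cancel₀ hC1.ne', one_mul] at h2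
  refine ⟨fun x hx => ?_, fun x hx hx0 => ?_, fun x hx => ?_⟩
  · have hK := Cbd_Kpos hG hx
    have h1 := Cbd_le_one hG hN hv x
    have h2 := Real.log_le_log (mul_pos hK (Real.exp_pos (v x))) h1
    rw [Real.log_mul hK.ne' (Real.exp_pos _).ne', Real.log_exp, Real.log_one] at h2
    exact h2
  · have hn := hnsq0 x hx0
    have hK : 0 < K x := by
      have := hKc x hx
      by_contra hneg
      have h1 : K x = 0 := le_antisymm (not_lt.1 hneg) (hG.nonneg x)
      rw [h1, mul_zero] at this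
      linarith
    have h1 := hv.lower x
    have h2 : Real.log (K x + Cb / lam N) = Real.log (K x) + Real.log (1 + Cb / lam N / K x) := by
      rw [← Real.log_mul hK.ne' (by positivity)]
      congr 1
      field_simp
    have h3 : Real.log (1 + Cb / lam N / K x) ≤ Cb / lam N / K x := by
      have := Real.log_le_sub_one_of_pos (show 0 < 1 + Cb / lam N / K x by positivity)
      linarith
    have h4 : Cb / lam N / K x ≤ C1 * Cb / (lam N * nsq x) := by
      rw [div_div, div_le_div_iff₀ (mul_pos hlam hK) (mul_pos hlam hn)]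
      have h5 := hKc x hx
      have h6 : Cb * lam N * nsq x ≤ Cb * lam N * (C1 * K x) :=
        mul_le_mul_of_nonneg_left h5 (mul_pos hCb hlam).le
      linarith
    unfold om0
    linarith
  · have hK := hG.nonneg x
    have hsum : 0 < K x + Cb / lam N := by linarith
    have h1 : (K x + Cb / lam N)⁻¹ ≤ Real.exp (v x) := by
      have h2 := Real.exp_le_exp.2 (hv.lower x)
      rwa [Real.exp_neg, Real.exp_log hsum] at h2
    have h3 : K x * (K x + Cb / lam N)⁻¹ ≤ K x * Real.exp (v x) :=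
      mul_le_mul_of_nonneg_left h1 hK
    refine le_trans ?_ h3
    rw [← div_eq_mul_inv]
    have hd : 0 < nsq x + C1 * Cb / lam N := by
      have := hnsq x
      have : 0 < C1 * Cb / lam N := div_pos (mul_pos hC1 hCb) hlam
      linarith
    rw [div_le_div_iff₀ hd hsum]
    have h4 := mul_le_mul_of_nonneg_right (hKc x hx) hβ.le
    have h5 : C1 * Cb / lam N = C1 * (Cb / lam N) := by ring
    rw [h5]
    nlinarith [h4]

end Pool.Agent.AO
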