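import Pool.Agent.Lib.MP_10e52e_an.Tools

/-! MP_10e52e_an row Rbas: (R1) -/

namespace Pool.Agent.AO

open MeasureTheory Set Real
open scoped ContDiff

open ProbabilityTheory

theorem Rbas_prob : IsProbabilityMeasure gs := by
  unfold gs
  infer_instance

theorem Rbas_bdd {f : ℝ × ℝ → ℝ} (hf : Continuous f) (hp : Per f) :
    ∃ C : ℝ, ∀ x, ‖f x‖ ≤ C := by
  have hK : IsCompact (Icc (0 : ℝ) 1 ×ˢ Icc (0 : ℝ) 1) := isCompact_Icc.prod isCompact_Icc
  obtain ⟨C, hC⟩ := hK.exists_bound_of_continuousOn hf.continuousOn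
  refine ⟨C, ?_⟩
  rintro ⟨x1, x2⟩
  have p1 : Function.Periodic (fun t => f (t, x2)) 1 := fun t => (hp (t, x2)).1
  obtain ⟨y1, hy1, e1⟩ := p1.exists_mem_Ico₀ one_pos x1
  have p2 : Function.Periodic (fun t => f (y1, t)) 1 := fun t => (hp (y1, t)).2
  obtain ⟨y2, hy2, e2⟩ := p2.exists_mem_Ico₀ one_pos x2
  have e3 : f (x1, x2) = f (y1, y2) := e1.trans e2
  rw [e3]
  exact hC (y1, y2) ⟨Ico_subset_Icc_self hy1, Ico_subset_Icc_self hy2⟩

/-- the inner integral is jointly continuous -/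
theorem Rbas_inner_cont {f : ℝ × ℝ → ℝ} (hf : Continuous f) {C : ℝ} (hC : ∀ x, ‖f x‖ ≤ C) :
    Continuous (fun p : (ℝ × ℝ) × ℝ => ∫ y, f (p.1 + p.2 • y) ∂gs) := by
  have := Rbas_prob
  refine continuous_of_dominated (bound := fun _ => C) ?_ ?_ (integrable_const C) ?_
  · intro p
    have h : Continuous (fun y : ℝ × ℝ => f (p.1 + p.2 • y)) := hf.comp (by fun_prop)
    exact h.aestronglyMeasurable
  · intro p
    exact Filter.Eventually.of_forall fun y => hC _
  · refine Filter.Eventually.of_forall fun y => ?_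
    exact hf.comp (by fun_prop)

theorem Rbas_inner_int {f : ℝ × ℝ → ℝ} (hf : Continuous f) {C : ℝ} (hC : ∀ x, ‖f x‖ ≤ C)
    (x : ℝ × ℝ) (s : ℝ) : Integrable (fun y : ℝ × ℝ => f (x + s • y)) gs := by
  have := Rbas_prob
  refine Integrable.mono' (integrable_const C) ?_ (Filter.Eventually.of_forall fun y => hC _)
  have h : Continuous (fun y : ℝ × ℝ => f (x + s • y)) := hf.comp (by fun_prop)
  exact h.aestronglyMeasurable

theorem Rbas_inner_le {f : ℝ × ℝ → ℝ} {C : ℝ} (hC : ∀ x, ‖f x‖ ≤ C)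
    (x : ℝ × ℝ) (s : ℝ) : ‖∫ y, f (x + s • y) ∂gs‖ ≤ C := by
  have := Rbas_prob
  refine (norm_integral_le_of_norm_le_const (C := C)
    (Filter.Eventually.of_forall fun y => hC _)).trans ?_
  simp

/-- the weight is integrable -/
theorem Rbas_w_int {L : ℝ} (hL : 0 < L) :
    IntegrableOn (fun s : ℝ => s * Real.exp (-(L * s ^ 2 / 2))) (Ioi 0) := by
  have h := (integrable_mul_exp_neg_mul_sq (b := L / 2) (by positivity)).integrableOn (s := Ioi 0)
  refine h.congr_fun ?_ measurableSet_Ioi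
  intro s _
  show s * Real.exp (-(L / 2) * s ^ 2) = s * Real.exp (-(L * s ^ 2 / 2))
  congr 2
  ring

theorem Rbas_w_eq {L : ℝ} (hL : 0 < L) :
    ∫ s in Ioi (0 : ℝ), s * Real.exp (-(L * s ^ 2 / 2)) = 1 / L := by
  have hd : ∀ s ∈ Ioi (0 : ℝ), HasDerivAt (fun s : ℝ => -(1 / L) * Real.exp (-(L * s ^ 2 / 2)))
      (s * Real.exp (-(L * s ^ 2 / 2))) s := by
    intro s _
    have h1 : HasDerivAt (fun s : ℝ => -(L * s ^ 2 / 2)) (-(L * s)) s := by
      have := (((hasDerivAt_pow 2 s).const_mul L).div_const 2).neg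
      refine this.congr_deriv ?_
      push_cast
      ring
    have h2 := (h1.exp).const_mul (-(1 / L))
    refine h2.congr_deriv ?_
    field_simp
  have hlim : Filter.Tendsto (fun s : ℝ => -(1 / L) * Real.exp (-(L * s ^ 2 / 2))) Filter.atTop
      (nhds (-(1 / L) * 0)) := by
    refine Filter.Tendsto.const_mul _ ?_
    refine Real.tendsto_exp_neg_atTop_nhds_zero.comp ?_
    refine Filter.Tendsto.atTop_div_const two_pos ?_
    exact Filter.Tendsto.const_mul_atTop hL (Filter.tendsto_pow_atTop two_ne_zero)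
  have h := integral_Ioi_of_hasDerivAt_of_tendsto (a := (0 : ℝ))
    (f := fun s : ℝ => -(1 / L) * Real.exp (-(L * s ^ 2 / 2)))
    (f' := fun s : ℝ => s * Real.exp (-(L * s ^ 2 / 2)))
    (by
      apply Continuous.continuousWithinAt
      fun_prop) hd (Rbas_w_int hL) hlim
  rw [h]
  norm_num

theorem Rbas_outer_int {L : ℝ} (hL : 0 < L) {f : ℝ × ℝ → ℝ} (hf : Continuous f) {C : ℝ}
    (hC : ∀ x, ‖f x‖ ≤ C) (x : ℝ × ℝ) :
    IntegrableOn (fun s : ℝ => s * Real.exp (-(L * s ^ 2 / 2)) * ∫ y, f (x + s • y) ∂gs)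
      (Ioi 0) := by
  have hc : Continuous (fun s : ℝ => ∫ y, f (x + s • y) ∂gs) :=
    (Rbas_inner_cont hf hC).comp (continuous_const.prodMk continuous_id)
  refine Integrable.mono' ((Rbas_w_int hL).norm.mul_const C) ?_ ?_
  · have : Continuous (fun s : ℝ => s * Real.exp (-(L * s ^ 2 / 2)) *
        ∫ y, f (x + s • y) ∂gs) := by
      refine Continuous.mul ?_ hc
      fun_prop
    exact this.aestronglyMeasurable
  · refine Filter.Eventually.of_forall fun s => ?_
    rw [norm_mul]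
    exact mul_le_mul_of_nonneg_left (Rbas_inner_le hC x s) (norm_nonneg _)

theorem Rbas_const {L : ℝ} (hL : 0 < L) (m : ℝ) :
    ∫ s in Ioi (0 : ℝ), s * Real.exp (-(L * s ^ 2 / 2)) * m = m / L := by
  rw [integral_mul_const, Rbas_w_eq hL]
  ring

theorem Rbas_lower {L : ℝ} (hL : 0 < L) {f : ℝ × ℝ → ℝ} (hf : Continuous f) {C : ℝ}
    (hC : ∀ x, ‖f x‖ ≤ C) {m : ℝ} (hm : ∀ x, m ≤ f x) (x : ℝ × ℝ) : m / L ≤ Rs L f x := by
  have := Rbas_prob
  unfold Rs
  rw [← Rbas_const hL m]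
  refine setIntegral_mono_on ((Rbas_w_int hL).mul_const m) (Rbas_outer_int hL hf hC x)
    measurableSet_Ioi ?_
  intro s hs
  have hs' : (0 : ℝ) < s := hs
  refine mul_le_mul_of_nonneg_left ?_ (by positivity)
  have h1 : ∫ _y : ℝ × ℝ, m ∂gs ≤ ∫ y, f (x + s • y) ∂gs :=
    integral_mono (integrable_const m) (Rbas_inner_int hf hC x s) (fun y => hm _)
  simpa using h1

/-- (R1) -/
theorem Rs_basic {L : ℝ} (hL : 0 < L) {f : ℝ × ℝ → ℝ} (hf : Continuous f) (hp : Per f) :
    Continuous (Rs L f) ∧ Per (Rs L f) ∧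
    (∀ m : ℝ, (∀ x, m ≤ f x) → ∀ x, m / L ≤ Rs L f x) ∧
    (∀ M : ℝ, (∀ x, f x ≤ M) → ∀ x, Rs L f x ≤ M / L) := by
  obtain ⟨C, hC⟩ := Rbas_bdd hf hp
  have := Rbas_prob
  refine ⟨?_, ?_, ?_, ?_⟩
  · unfold Rs
    refine continuous_of_dominated (bound := fun s => ‖s * Real.exp (-(L * s ^ 2 / 2))‖ * C)
      ?_ ?_ ((Rbas_w_int hL).norm.mul_const C) ?_
    · intro x
      exact (Rbas_outer_int hL hf hC x).aestronglyMeasurable
    · intro x
      refine Filter.Eventually.of_forall fun s => ?_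
      rw [norm_mul]
      exact mul_le_mul_of_nonneg_left (Rbas_inner_le hC x s) (norm_nonneg _)
    · refine Filter.Eventually.of_forall fun s => ?_
      refine Continuous.mul continuous_const ?_
      exact (Rbas_inner_cont hf hC).comp (continuous_id.prodMk continuous_const)
  · intro x
    have h1 : ∀ z : ℝ × ℝ, f ((x.1 + 1, x.2) + z) = f (x + z) := by
      intro z
      have e := (hp (x + z)).1
      rw [← e]
      congr 1
      ext
      · simp only [Prod.fst_add]
        ring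
      · simp
    have h2 : ∀ z : ℝ × ℝ, f ((x.1, x.2 + 1) + z) = f (x + z) := by
      intro z
      have e := (hp (x + z)).2
      rw [← e]
      congr 1
      ext
      · simp
      · simp only [Prod.snd_add]
        ring
    unfold Rs
    constructor
    · simp only [h1]
    · simp only [h2]
  · intro m hm x
    exact Rbas_lower hL hf hC hm x
  · intro M hM x
    have h := Rbas_lower hL (f := fun y => -f y) (hf.neg) (C := C)
      (fun x => by simpa using hC x) (m := -M) (fun x => neg_le_neg (hM x)) x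
    have e : Rs L (fun y => -f y) x = -Rs L f x := by
      unfold Rs
      rw [← integral_neg]
      congr 1
      ext s
      rw [integral_neg]
      ring
    rw [e, neg_div] at h
    linarith

theorem Rs_add {L : ℝ} (hL : 0 < L) {f g : ℝ × ℝ → ℝ} (hf : Continuous f) (hp : Per f)
    (hg : Continuous g) (hpg : Per g) (a b : ℝ) (x : ℝ × ℝ) :
    Rs L (fun y => a * f y + b * g y) x = a * Rs L f x + b * Rs L g x := by
  obtain ⟨C, hC⟩ := Rbas_bdd hf hp
  obtain ⟨C', hC'⟩ := Rbas_bdd hg hpg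
  unfold Rs
  rw [← integral_const_mul, ← integral_const_mul, ← integral_add
    ((Rbas_outer_int hL hf hC x).const_mul a) ((Rbas_outer_int hL hg hC' x).const_mul b)]
  congr 1
  ext s
  rw [integral_add ((Rbas_inner_int hf hC x s).const_mul a)
    ((Rbas_inner_int hg hC' x s).const_mul b), integral_const_mul, integral_const_mul]
  ring

theorem Rs_mono {L : ℝ} (hL : 0 < L) {f g : ℝ × ℝ → ℝ} (hf : Continuous f) (hp : Per f)
    (hg : Continuous g) (hpg : Per g) (h : ∀ x, f x ≤ g x) (x : ℝ × ℝ) :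
    Rs L f x ≤ Rs L g x := by
  obtain ⟨C, hC⟩ := Rbas_bdd hf hp
  obtain ⟨C', hC'⟩ := Rbas_bdd hg hpg
  unfold Rs
  refine setIntegral_mono_on (Rbas_outer_int hL hf hC x) (Rbas_outer_int hL hg hC' x)
    measurableSet_Ioi ?_
  intro s hs
  have hs' : (0 : ℝ) < s := hs
  refine mul_le_mul_of_nonneg_left ?_ (by positivity)
  exact integral_mono (Rbas_inner_int hf hC x s) (Rbas_inner_int hg hC' x s) (fun y => h _)

end Pool.Agent.AO
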