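import Pool.Agent.Lib.MP_10e52e_an.Tools
import Pool.Agent.Lib.MP_10e52e_an.Rbas

/-! MP_10e52e_an row Rdif: (R2) -/

namespace Pool.Agent.AO

open MeasureTheory Set Real
open scoped ContDiff

open ProbabilityTheory

/-- periodic continuous functions are bounded -/
lemma rdif_bdd {E : Type*} [NormedAddCommGroup E] {g : ℝ × ℝ → E} (hg : Continuous g)
    (hp : ∀ x : ℝ × ℝ, g (x.1 + 1, x.2) = g x ∧ g (x.1, x.2 + 1) = g x) :
    ∃ C : ℝ, ∀ x, ‖g x‖ ≤ C := by
  have h1 : ∀ (m : ℤ) (x : ℝ × ℝ), g (x.1 + m, x.2) = g x := by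
    intro m
    induction m using Int.induction_on with
    | zero => intro x; simp
    | succ i ih =>
      intro x
      have := (hp (x.1 + (i : ℤ), x.2)).1
      simp only at this
      rw [ih x] at this
      rw [← this]
      congr 2
      push_cast
      ring
    | pred i ih =>
      intro x
      have := (hp (x.1 + ((-(i : ℤ) - 1 : ℤ) : ℝ), x.2)).1
      simp only at this
      rw [← this, ← ih x]
      congr 2
      push_cast
      ring
  have h2 : ∀ (m : ℤ) (x : ℝ × ℝ), g (x.1, x.2 + m) = g x := by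
    intro m
    induction m using Int.induction_on with
    | zero => intro x; simp
    | succ i ih =>
      intro x
      have := (hp (x.1, x.2 + (i : ℤ))).2
      simp only at this
      rw [ih x] at this
      rw [← this]
      congr 2
      push_cast
      ring
    | pred i ih =>
      intro x
      have := (hp (x.1, x.2 + ((-(i : ℤ) - 1 : ℤ) : ℝ))).2
      simp only at this
      rw [← this, ← ih x]
      congr 2
      push_cast
      ring
  obtain ⟨C, hC⟩ := (isCompact_Icc.prod isCompact_Icc :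
    IsCompact (Icc (0 : ℝ) 1 ×ˢ Icc (0 : ℝ) 1)).exists_bound_of_continuousOn hg.continuousOn
  refine ⟨C, fun x => ?_⟩
  have h3 : g x = g (Int.fract x.1, Int.fract x.2) := by
    have ha := h1 ⌊x.1⌋ (Int.fract x.1, x.2)
    have hb := h2 ⌊x.2⌋ (Int.fract x.1, Int.fract x.2)
    simp only [Int.fract_add_floor] at ha hb
    rw [ha, hb]
  rw [h3]
  exact hC _ ⟨⟨Int.fract_nonneg _, (Int.fract_lt_one _).le⟩,
    ⟨Int.fract_nonneg _, (Int.fract_lt_one _).le⟩⟩

lemma rdif_fderiv_per {f : ℝ × ℝ → ℝ} (hp : Per f) (x : ℝ × ℝ) :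
    fderiv ℝ f (x.1 + 1, x.2) = fderiv ℝ f x ∧ fderiv ℝ f (x.1, x.2 + 1) = fderiv ℝ f x := by
  constructor
  · have h : (fun y : ℝ × ℝ => f (y + (1, 0))) = f := by
      ext y
      have := (hp y).1
      rwa [show ((y.1 + 1, y.2) : ℝ × ℝ) = y + (1, 0) by ext <;> simp] at this
    have h2 := fderiv_comp_add_right (𝕜 := ℝ) (f := f) (x := x) ((1, 0) : ℝ × ℝ)
    rw [h] at h2
    rw [show ((x.1 + 1, x.2) : ℝ × ℝ) = x + (1, 0) by ext <;> simp, ← h2]
  · have h : (fun y : ℝ × ℝ => f (y + (0, 1))) = f := by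
      ext y
      have := (hp y).2
      rwa [show ((y.1, y.2 + 1) : ℝ × ℝ) = y + (0, 1) by ext <;> simp] at this
    have h2 := fderiv_comp_add_right (𝕜 := ℝ) (f := f) (x := x) ((0, 1) : ℝ × ℝ)
    rw [h] at h2
    rw [show ((x.1, x.2 + 1) : ℝ × ℝ) = x + (0, 1) by ext <;> simp, ← h2]

lemma rdif_D1_per {f : ℝ × ℝ → ℝ} (hp : Per f) : Per (D1 f) := fun x => by
  constructor
  · rw [D1, (rdif_fderiv_per hp x).1]; rfl
  · rw [D1, (rdif_fderiv_per hp x).2]; rfl

lemma rdif_D2_per {f : ℝ × ℝ → ℝ} (hp : Per f) : Per (D2 f) := fun x => by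
  constructor
  · rw [D2, (rdif_fderiv_per hp x).1]; rfl
  · rw [D2, (rdif_fderiv_per hp x).2]; rfl

/-- the weight -/
noncomputable def rdif_w (L s : ℝ) : ℝ := s * Real.exp (-(L * s ^ 2 / 2))

lemma rdif_w_cont (L : ℝ) : Continuous (rdif_w L) := by
  unfold rdif_w; fun_prop

lemma rdif_w_int {L : ℝ} (hL : 0 < L) : Integrable (rdif_w L) := by
  have h := integrable_mul_exp_neg_mul_sq (b := L / 2) (by positivity)
  refine h.congr (Filter.Eventually.of_forall fun s => ?_)
  simp only [rdif_w]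
  congr 2
  ring

instance rdif_prob : IsProbabilityMeasure gs := by
  unfold gs; infer_instance

/-- the product measure -/
noncomputable def rdif_m : Measure (ℝ × (ℝ × ℝ)) := (volume.restrict (Ioi (0 : ℝ))).prod gs

lemma rdif_int_bound {L : ℝ} (hL : 0 < L) (C : ℝ) :
    Integrable (fun p : ℝ × (ℝ × ℝ) => |rdif_w L p.1| * C) rdif_m := by
  have h1 : Integrable (fun s => |rdif_w L s|) (volume.restrict (Ioi (0 : ℝ))) :=
    (rdif_w_int hL).abs.restrict
  have h2 : Integrable (fun _ : ℝ × ℝ => C) gs := integrable_const C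
  exact h1.mul_prod h2

lemma rdif_integrable {L : ℝ} (hL : 0 < L) {E : Type*} [NormedAddCommGroup E] [NormedSpace ℝ E]
    [SecondCountableTopology E] {g : ℝ × ℝ → E} (hg : Continuous g)
    (hb : ∃ C : ℝ, ∀ x, ‖g x‖ ≤ C) (x : ℝ × ℝ) :
    Integrable (fun p : ℝ × (ℝ × ℝ) => rdif_w L p.1 • g (x + p.1 • p.2)) rdif_m := by
  obtain ⟨C, hC⟩ := hb
  refine (rdif_int_bound hL C).mono' ?_ (Filter.Eventually.of_forall fun p => ?_)
  · apply Continuous.aestronglyMeasurable
    have := rdif_w_cont L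
    fun_prop
  · rw [norm_smul, Real.norm_eq_abs]
    exact mul_le_mul_of_nonneg_left (hC _) (abs_nonneg _)

lemma rdif_eq {L : ℝ} (hL : 0 < L) {g : ℝ × ℝ → ℝ} (hg : Continuous g)
    (hb : ∃ C : ℝ, ∀ x, ‖g x‖ ≤ C) (x : ℝ × ℝ) :
    Rs L g x = ∫ p, rdif_w L p.1 • g (x + p.1 • p.2) ∂rdif_m := by
  rw [rdif_m, integral_prod _ (rdif_integrable hL hg hb x), Rs]
  refine integral_congr_ae (Filter.Eventually.of_forall fun s => ?_)
  simp only [smul_eq_mul, rdif_w]
  rw [integral_const_mul]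

lemma rdif_has {L : ℝ} (hL : 0 < L) {f : ℝ × ℝ → ℝ} (hf : ContDiff ℝ 1 f) (hp : Per f)
    (x : ℝ × ℝ) :
    HasFDerivAt (Rs L f) (∫ p, rdif_w L p.1 • fderiv ℝ f (x + p.1 • p.2) ∂rdif_m) x := by
  have hb := rdif_bdd hf.continuous hp
  have hc : Continuous (fderiv ℝ f) := hf.continuous_fderiv (by norm_num)
  have hb' := rdif_bdd hc (rdif_fderiv_per hp)
  obtain ⟨C, hC⟩ := hb'
  have h1 : (fun z => Rs L f z) = fun z => ∫ p, rdif_w L p.1 • f (z + p.1 • p.2) ∂rdif_m := by
    ext z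
    exact rdif_eq hL hf.continuous hb z
  have h0 : Rs L f = fun z => ∫ p, rdif_w L p.1 • f (z + p.1 • p.2) ∂rdif_m := h1
  rw [h0]
  refine hasFDerivAt_integral_of_dominated_of_fderiv_le (μ := rdif_m)
    (F := fun (z : ℝ × ℝ) (p : ℝ × (ℝ × ℝ)) => rdif_w L p.1 • f (z + p.1 • p.2))
    (F' := fun (z : ℝ × ℝ) (p : ℝ × (ℝ × ℝ)) => rdif_w L p.1 • fderiv ℝ f (z + p.1 • p.2))
    (s := Set.univ) (bound := fun p : ℝ × (ℝ × ℝ) => |rdif_w L p.1| * C) Filter.univ_mem ?_ ?_ ?_ ?_ ?_ ?_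
  · refine Filter.Eventually.of_forall fun z => ?_
    exact (rdif_integrable hL hf.continuous hb z).aestronglyMeasurable
  · exact rdif_integrable hL hf.continuous hb x
  · exact (rdif_integrable hL hc ⟨C, hC⟩ x).aestronglyMeasurable
  · refine Filter.Eventually.of_forall fun p z _ => ?_
    rw [norm_smul, Real.norm_eq_abs]
    exact mul_le_mul_of_nonneg_left (hC _) (abs_nonneg _)
  · exact rdif_int_bound hL C
  · refine Filter.Eventually.of_forall fun p z _ => ?_
    have h2 : HasFDerivAt f (fderiv ℝ f (z + p.1 • p.2)) (z + p.1 • p.2) :=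
      ((hf.differentiable (by norm_num)) _).hasFDerivAt
    have h3 : HasFDerivAt (fun z : ℝ × ℝ => f (z + p.1 • p.2)) (fderiv ℝ f (z + p.1 • p.2)) z := by
      have h4 : HasFDerivAt (fun z : ℝ × ℝ => z + p.1 • p.2)
          (ContinuousLinearMap.id ℝ (ℝ × ℝ)) z := (hasFDerivAt_id z).add_const _
      exact h2.comp z h4
    exact h3.const_smul (rdif_w L p.1)

lemma rdif_D {L : ℝ} (hL : 0 < L) {f : ℝ × ℝ → ℝ} (hf : ContDiff ℝ 1 f) (hp : Per f)
    (x : ℝ × ℝ) : D1 (Rs L f) x = Rs L (D1 f) x ∧ D2 (Rs L f) x = Rs L (D2 f) x := by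
  have hc : Continuous (fderiv ℝ f) := hf.continuous_fderiv (by norm_num)
  have hb' := rdif_bdd hc (rdif_fderiv_per hp)
  have hi := rdif_integrable hL hc hb' x
  have hD1 : Continuous (D1 f) := hc.clm_apply continuous_const
  have hD2 : Continuous (D2 f) := hc.clm_apply continuous_const
  constructor
  · rw [D1, (rdif_has hL hf hp x).fderiv, rdif_eq hL hD1 (rdif_bdd hD1 (rdif_D1_per hp)),
      ContinuousLinearMap.integral_apply hi]
    rfl
  · rw [D2, (rdif_has hL hf hp x).fderiv, rdif_eq hL hD2 (rdif_bdd hD2 (rdif_D2_per hp)),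
      ContinuousLinearMap.integral_apply hi]
    rfl

lemma rdif_contDiff {L : ℝ} (hL : 0 < L) (n : ℕ) : ∀ {f : ℝ × ℝ → ℝ}, ContDiff ℝ n f → Per f →
    ContDiff ℝ n (Rs L f) := by
  induction n with
  | zero =>
    intro f hf hp
    have : Continuous f := hf.continuous
    exact contDiff_zero.2 (Rs_basic hL this hp).1
  | succ n ih =>
    intro f hf hp
    have hf1 : ContDiff ℝ 1 f := hf.of_le (by exact_mod_cast Nat.le_add_left 1 n)
    have hd : ContDiff ℝ n (fderiv ℝ f) := hf.fderiv_right (by norm_cast)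
    have hD1 : ContDiff ℝ n (D1 f) := hd.clm_apply contDiff_const
    have hD2 : ContDiff ℝ n (D2 f) := hd.clm_apply contDiff_const
    have e1 := ih hD1 (rdif_D1_per hp)
    have e2 := ih hD2 (rdif_D2_per hp)
    have hform : fderiv ℝ (Rs L f) = fun x =>
        Rs L (D1 f) x • ContinuousLinearMap.fst ℝ ℝ ℝ + Rs L (D2 f) x • ContinuousLinearMap.snd ℝ ℝ ℝ := by
      ext x
      · have := (rdif_D hL hf1 hp x).1
        rw [D1] at this
        simp [this]
      · have := (rdif_D hL hf1 hp x).2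
        rw [D2] at this
        simp [this]
    have : ContDiff ℝ ((n : ℕ) + 1 : WithTop ℕ∞) (Rs L f) := by
      rw [contDiff_succ_iff_fderiv]
      refine ⟨fun x => (rdif_has hL hf1 hp x).differentiableAt, by simp, ?_⟩
      rw [hform]
      exact (e1.smul contDiff_const).add (e2.smul contDiff_const)
    exact_mod_cast this

/-- (R2) -/
theorem Rs_diff {L : ℝ} (hL : 0 < L) {f : ℝ × ℝ → ℝ} {n : ℕ} (hf : ContDiff ℝ n f)
    (hp : Per f) : ContDiff ℝ n (Rs L f) ∧
    (1 ≤ n → ∀ x, D1 (Rs L f) x = Rs L (D1 f) x ∧ D2 (Rs L f) x = Rs L (D2 f) x) := by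
  refine ⟨rdif_contDiff hL n hf hp, fun hn x => ?_⟩
  exact rdif_D hL (hf.of_le (by exact_mod_cast hn)) hp x

end Pool.Agent.AO
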