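import Pool.Agent.Lib.MP_10e52e_an.Tools
import Pool.Agent.Lib.MP_10e52e_an.Rbas
import Pool.Agent.Lib.MP_10e52e_an.Rdif

/-! MP_10e52e_an row Req: (R3): Stein lemma + d/ds -/

namespace Pool.Agent.AO

open MeasureTheory Set Real
open scoped ContDiff

open ProbabilityTheory

/-- periodic continuous functions are bounded -/
lemma req_bdd {f : ℝ × ℝ → ℝ} (hf : Continuous f) (hp : Per f) : ∃ C, 0 ≤ C ∧ ∀ x, |f x| ≤ C := by
  have hK : IsCompact (Icc (0 : ℝ) 1 ×ˢ Icc (0 : ℝ) 1) := isCompact_Icc.prod isCompact_Icc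
  obtain ⟨C, hC⟩ := hK.exists_bound_of_continuousOn hf.continuousOn
  refine ⟨max C 0, le_max_right _ _, fun x => ?_⟩
  have p1 : ∀ b : ℝ, Function.Periodic (fun a => f (a, b)) 1 := fun b a => (hp (a, b)).1
  have p2 : ∀ a : ℝ, Function.Periodic (fun b => f (a, b)) 1 := fun a b => (hp (a, b)).2
  have e1 := (p1 x.2).sub_int_mul_eq (x := x.1) ⌊x.1⌋
  have e2 := (p2 (x.1 - ⌊x.1⌋ * 1)).sub_int_mul_eq (x := x.2) ⌊x.2⌋
  have e3 : f x = f (Int.fract x.1, Int.fract x.2) := by
    have h1 : f (x.1 - ⌊x.1⌋ * 1, x.2) = f x := e1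
    have h2 : f (x.1 - ⌊x.1⌋ * 1, x.2 - ⌊x.2⌋ * 1) = f (x.1 - ⌊x.1⌋ * 1, x.2) := e2
    rw [← h1, ← h2, mul_one, mul_one]
    rfl
  rw [e3]
  refine le_trans ?_ (le_max_left _ _)
  rw [← Real.norm_eq_abs]
  exact hC _ ⟨⟨Int.fract_nonneg _, (Int.fract_lt_one _).le⟩, ⟨Int.fract_nonneg _, (Int.fract_lt_one _).le⟩⟩

lemma req_fderiv_per {f : ℝ × ℝ → ℝ} (hp : Per f) (v : ℝ × ℝ) : Per (fun x => fderiv ℝ f x v) := by
  intro x
  constructor
  · have h1 : (fun u : ℝ × ℝ => f (u + (1, 0))) = f := by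
      funext u
      have : u + (1, 0) = (u.1 + 1, u.2) := by ext <;> simp
      rw [this]
      exact (hp u).1
    have h2 := fderiv_comp_add_right (𝕜 := ℝ) (f := f) (x := x) ((1 : ℝ), (0 : ℝ))
    rw [h1] at h2
    have h3 : x + (1, 0) = (x.1 + 1, x.2) := by ext <;> simp
    rw [h3] at h2
    simp only [h2]
  · have h1 : (fun u : ℝ × ℝ => f (u + (0, 1))) = f := by
      funext u
      have : u + (0, 1) = (u.1, u.2 + 1) := by ext <;> simp
      rw [this]
      exact (hp u).2
    have h2 := fderiv_comp_add_right (𝕜 := ℝ) (f := f) (x := x) ((0 : ℝ), (1 : ℝ))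
    rw [h1] at h2
    have h3 : x + (0, 1) = (x.1, x.2 + 1) := by ext <;> simp
    rw [h3] at h2
    simp only [h2]

lemma req_D1_per {f : ℝ × ℝ → ℝ} (hp : Per f) : Per (D1 f) := req_fderiv_per hp (1, 0)

lemma req_D2_per {f : ℝ × ℝ → ℝ} (hp : Per f) : Per (D2 f) := req_fderiv_per hp (0, 1)

lemma req_D1_contDiff {f : ℝ × ℝ → ℝ} {n : ℕ} (hf : ContDiff ℝ (n + 1 : ℕ) f) : ContDiff ℝ n (D1 f) := by
  have h := hf.fderiv_right (m := (n : WithTop ℕ∞)) (by push_cast; exact le_rfl)
  exact h.clm_apply contDiff_const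

lemma req_D2_contDiff {f : ℝ × ℝ → ℝ} {n : ℕ} (hf : ContDiff ℝ (n + 1 : ℕ) f) : ContDiff ℝ n (D2 f) := by
  have h := hf.fderiv_right (m := (n : WithTop ℕ∞)) (by push_cast; exact le_rfl)
  exact h.clm_apply contDiff_const

/-! Stein's lemma -/

lemma req_pdf_hasDerivAt (t : ℝ) : HasDerivAt (gaussianPDFReal 0 1) (-(t * gaussianPDFReal 0 1 t)) t := by
  have h1 : HasDerivAt (fun x : ℝ => -(x - 0) ^ 2 / (2 * ((1 : NNReal) : ℝ))) (-t) t := by
    have := (((hasDerivAt_id t).sub_const (0 : ℝ)).pow 2).neg.div_const (2 * ((1 : NNReal) : ℝ))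
    refine this.congr_deriv ?_
    simp
    ring
  have h2 := (h1.exp).const_mul (√(2 * π * ((1 : NNReal) : ℝ)))⁻¹
  have h3 : gaussianPDFReal 0 1 = fun x : ℝ => (√(2 * π * ((1 : NNReal) : ℝ)))⁻¹
      * rexp (-(x - 0) ^ 2 / (2 * ((1 : NNReal) : ℝ))) := rfl
  rw [h3]
  refine h2.congr_deriv ?_
  ring

lemma req_mul_pdf_integrable : Integrable (fun t : ℝ => t * gaussianPDFReal 0 1 t) := by
  have h := (integrable_mul_exp_neg_mul_sq (b := 1 / 2) (by norm_num)).const_mul (√(2 * π * ((1 : NNReal) : ℝ)))⁻¹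
  refine h.congr (Filter.Eventually.of_forall fun t => ?_)
  simp only [gaussianPDFReal_def]
  have : -(t - 0) ^ 2 / (2 * ((1 : NNReal) : ℝ)) = -(1 / 2) * t ^ 2 := by
    simp
    ring
  rw [this]
  ring

lemma req_stein {g g' : ℝ → ℝ} (hg : ∀ t, HasDerivAt g (g' t) t) (hc : Continuous g') {C C' : ℝ}
    (hb : ∀ t, |g t| ≤ C) (hb' : ∀ t, |g' t| ≤ C') :
    ∫ t, g t * t ∂(gaussianReal 0 1) = ∫ t, g' t ∂(gaussianReal 0 1) := by
  have hgc : Continuous g := continuous_iff_continuousAt.mpr fun t => (hg t).continuousAt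
  have i1 : Integrable (fun t => g t * (-(t * gaussianPDFReal 0 1 t))) :=
    (req_mul_pdf_integrable.neg).bdd_mul hgc.aestronglyMeasurable (c := C)
      (Filter.Eventually.of_forall fun t => by rw [Real.norm_eq_abs]; exact hb t)
  have i2 : Integrable (fun t => g' t * gaussianPDFReal 0 1 t) :=
    (integrable_gaussianPDFReal 0 1).bdd_mul hc.aestronglyMeasurable (c := C')
      (Filter.Eventually.of_forall fun t => by rw [Real.norm_eq_abs]; exact hb' t)
  have i3 : Integrable (fun t => g t * gaussianPDFReal 0 1 t) :=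
    (integrable_gaussianPDFReal 0 1).bdd_mul hgc.aestronglyMeasurable (c := C)
      (Filter.Eventually.of_forall fun t => by rw [Real.norm_eq_abs]; exact hb t)
  have h := integral_mul_deriv_eq_deriv_mul_of_integrable (u := g) (v := gaussianPDFReal 0 1) (u' := g')
    (v' := fun t => -(t * gaussianPDFReal 0 1 t)) (fun t _ => hg t) (fun t _ => req_pdf_hasDerivAt t) i1 i2 i3
  rw [integral_gaussianReal_eq_integral_smul one_ne_zero, integral_gaussianReal_eq_integral_smul one_ne_zero]
  have e1 : (fun x => gaussianPDFReal 0 1 x • (g x * x)) = fun x => -(g x * -(x * gaussianPDFReal 0 1 x)) := by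
    funext x
    rw [smul_eq_mul]
    ring
  have e2 : (fun x => gaussianPDFReal 0 1 x • g' x) = fun x => g' x * gaussianPDFReal 0 1 x := by
    funext x
    rw [smul_eq_mul, mul_comm]
  rw [e1, e2, integral_neg, h, neg_neg]

/-! two variables -/

lemma req_prob : IsProbabilityMeasure gs := by
  unfold gs
  infer_instance

lemma req_fst_integrable : Integrable (fun y : ℝ × ℝ => y.1) gs := by
  have h : Integrable (fun t : ℝ => t) (gaussianReal 0 1) :=
    (memLp_id_gaussianReal (μ := 0) (v := 1) 1).integrable (by norm_num)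
  unfold gs
  exact h.comp_fst _

lemma req_snd_integrable : Integrable (fun y : ℝ × ℝ => y.2) gs := by
  have h : Integrable (fun t : ℝ => t) (gaussianReal 0 1) :=
    (memLp_id_gaussianReal (μ := 0) (v := 1) 1).integrable (by norm_num)
  unfold gs
  exact h.comp_snd _

lemma req_bounded_integrable {h : ℝ × ℝ → ℝ} (hc : Continuous h) {C : ℝ} (hC : ∀ y, |h y| ≤ C)
    {F : ℝ × ℝ → ℝ × ℝ} (hF : Continuous F) : Integrable (fun y => h (F y)) gs := by
  have := req_prob
  exact Integrable.of_bound (hc.comp hF).aestronglyMeasurable C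
    (Filter.Eventually.of_forall fun y => by rw [Real.norm_eq_abs]; exact hC _)

lemma req_stein1 {h : ℝ × ℝ → ℝ} (hh : ContDiff ℝ 1 h) (hp : Per h) (x : ℝ × ℝ) (s : ℝ) :
    ∫ y, h (x + s • y) * y.1 ∂gs = s * ∫ y, D1 h (x + s • y) ∂gs := by
  have := req_prob
  obtain ⟨C, hC0, hC⟩ := req_bdd hh.continuous hp
  have hc1 : Continuous (D1 h) := (hh.continuous_fderiv (by norm_num)).clm_apply continuous_const
  obtain ⟨C', hC0', hC'⟩ := req_bdd hc1 (req_D1_per hp)
  have hF : Continuous fun y : ℝ × ℝ => x + s • y := by fun_prop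
  have i1 : Integrable (fun y : ℝ × ℝ => h (x + s • y) * y.1) gs :=
    req_fst_integrable.bdd_mul (hh.continuous.comp hF).aestronglyMeasurable (c := C)
      (Filter.Eventually.of_forall fun y => by rw [Real.norm_eq_abs]; exact hC _)
  have i2 : Integrable (fun y : ℝ × ℝ => s * D1 h (x + s • y)) gs :=
    (req_bounded_integrable hc1 hC' hF).const_mul s
  rw [← integral_const_mul]
  unfold gs at i1 i2 ⊢
  rw [integral_prod_symm _ i1, integral_prod_symm _ i2]
  congr 1
  funext b
  refine req_stein (g := fun t => h (x + s • (t, b))) (g' := fun t => s * D1 h (x + s • (t, b)))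
    (fun t => ?_) ?_ (C := C) (C' := |s| * C') (fun t => hC _) (fun t => ?_)
  · have e1 : HasDerivAt (fun t : ℝ => x + s • ((t, b) : ℝ × ℝ)) (s • ((1 : ℝ), (0 : ℝ))) t :=
      (((hasDerivAt_id t).prodMk (hasDerivAt_const t b)).const_smul s).const_add x
    have e2 : HasFDerivAt h (fderiv ℝ h (x + s • (t, b))) (x + s • (t, b)) :=
      (hh.differentiable (by norm_num)).differentiableAt.hasFDerivAt
    have e3 := e2.comp_hasDerivAt t e1
    refine e3.congr_deriv ?_
    rw [map_smul, smul_eq_mul]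
    rfl
  · exact continuous_const.mul (hc1.comp (by fun_prop))
  · rw [abs_mul]
    exact mul_le_mul_of_nonneg_left (hC' _) (abs_nonneg s)

lemma req_stein2 {h : ℝ × ℝ → ℝ} (hh : ContDiff ℝ 1 h) (hp : Per h) (x : ℝ × ℝ) (s : ℝ) :
    ∫ y, h (x + s • y) * y.2 ∂gs = s * ∫ y, D2 h (x + s • y) ∂gs := by
  have := req_prob
  obtain ⟨C, hC0, hC⟩ := req_bdd hh.continuous hp
  have hc1 : Continuous (D2 h) := (hh.continuous_fderiv (by norm_num)).clm_apply continuous_const
  obtain ⟨C', hC0', hC'⟩ := req_bdd hc1 (req_D2_per hp)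
  have hF : Continuous fun y : ℝ × ℝ => x + s • y := by fun_prop
  have i1 : Integrable (fun y : ℝ × ℝ => h (x + s • y) * y.2) gs :=
    req_snd_integrable.bdd_mul (hh.continuous.comp hF).aestronglyMeasurable (c := C)
      (Filter.Eventually.of_forall fun y => by rw [Real.norm_eq_abs]; exact hC _)
  have i2 : Integrable (fun y : ℝ × ℝ => s * D2 h (x + s • y)) gs :=
    (req_bounded_integrable hc1 hC' hF).const_mul s
  rw [← integral_const_mul]
  unfold gs at i1 i2 ⊢
  rw [integral_prod _ i1, integral_prod _ i2]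
  congr 1
  funext a
  refine req_stein (g := fun t => h (x + s • (a, t))) (g' := fun t => s * D2 h (x + s • (a, t)))
    (fun t => ?_) ?_ (C := C) (C' := |s| * C') (fun t => hC _) (fun t => ?_)
  · have e1 : HasDerivAt (fun t : ℝ => x + s • ((a, t) : ℝ × ℝ)) (s • ((0 : ℝ), (1 : ℝ))) t :=
      (((hasDerivAt_const t a).prodMk (hasDerivAt_id t)).const_smul s).const_add x
    have e2 : HasFDerivAt h (fderiv ℝ h (x + s • (a, t))) (x + s • (a, t)) :=
      (hh.differentiable (by norm_num)).differentiableAt.hasFDerivAt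
    have e3 := e2.comp_hasDerivAt t e1
    refine e3.congr_deriv ?_
    rw [map_smul, smul_eq_mul]
    rfl
  · exact continuous_const.mul (hc1.comp (by fun_prop))
  · rw [abs_mul]
    exact mul_le_mul_of_nonneg_left (hC' _) (abs_nonneg s)

lemma req_fderiv_apply (f : ℝ × ℝ → ℝ) (z y : ℝ × ℝ) :
    fderiv ℝ f z y = D1 f z * y.1 + D2 f z * y.2 := by
  have h : y = y.1 • ((1 : ℝ), (0 : ℝ)) + y.2 • ((0 : ℝ), (1 : ℝ)) := by
    ext <;> simp
  conv_lhs => rw [h]
  rw [map_add, map_smul, map_smul, smul_eq_mul, smul_eq_mul, D1, D2]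
  ring

/-- derivative of the spherical-type mean -/
lemma req_M_hasDerivAt {f : ℝ × ℝ → ℝ} (hf : ContDiff ℝ 2 f) (hp : Per f) (x : ℝ × ℝ) (s : ℝ) :
    HasDerivAt (fun s : ℝ => ∫ y, f (x + s • y) ∂gs) (s * ∫ y, Lap f (x + s • y) ∂gs) s := by
  have := req_prob
  have hf1 : ContDiff ℝ 1 f := hf.of_le (by norm_num)
  have hD1 : ContDiff ℝ 1 (D1 f) := req_D1_contDiff (n := 1) (by exact_mod_cast hf)
  have hD2 : ContDiff ℝ 1 (D2 f) := req_D2_contDiff (n := 1) (by exact_mod_cast hf)
  obtain ⟨C, hC0, hC⟩ := req_bdd hf.continuous hp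
  obtain ⟨C1, hC10, hC1⟩ := req_bdd hD1.continuous (req_D1_per hp)
  obtain ⟨C2, hC20, hC2⟩ := req_bdd hD2.continuous (req_D2_per hp)
  have hF : ∀ r : ℝ, Continuous fun y : ℝ × ℝ => x + r • y := fun r => by fun_prop
  have key := hasDerivAt_integral_of_dominated_loc_of_deriv_le (μ := gs) (x₀ := s) (s := univ)
    (F := fun (r : ℝ) (y : ℝ × ℝ) => f (x + r • y))
    (F' := fun (r : ℝ) (y : ℝ × ℝ) => D1 f (x + r • y) * y.1 + D2 f (x + r • y) * y.2)
    (bound := fun y => C1 * |y.1| + C2 * |y.2|)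
    Filter.univ_mem
    (Filter.Eventually.of_forall fun r => (hf.continuous.comp (hF r)).aestronglyMeasurable)
    (req_bounded_integrable hf.continuous hC (hF s))
    (((hD1.continuous.comp (hF s)).mul continuous_fst).add
      ((hD2.continuous.comp (hF s)).mul continuous_snd)).aestronglyMeasurable
    (Filter.Eventually.of_forall fun y r _ => by
      rw [Real.norm_eq_abs]
      refine (abs_add_le _ _).trans (add_le_add ?_ ?_)
      · rw [abs_mul]
        exact mul_le_mul_of_nonneg_right (hC1 _) (abs_nonneg _)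
      · rw [abs_mul]
        exact mul_le_mul_of_nonneg_right (hC2 _) (abs_nonneg _))
    ((req_fst_integrable.abs.const_mul C1).add (req_snd_integrable.abs.const_mul C2))
    (Filter.Eventually.of_forall fun y r _ => by
      have e1 : HasDerivAt (fun r : ℝ => x + r • y) ((1 : ℝ) • y) r :=
        ((hasDerivAt_id r).smul_const y).const_add x
      have e2 : HasFDerivAt f (fderiv ℝ f (x + r • y)) (x + r • y) :=
        (hf.differentiable (by norm_num)).differentiableAt.hasFDerivAt
      refine (e2.comp_hasDerivAt r e1).congr_deriv ?_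
      rw [one_smul, req_fderiv_apply])
  refine key.2.congr_deriv ?_
  have i1 : Integrable (fun y : ℝ × ℝ => D1 f (x + s • y) * y.1) gs :=
    req_fst_integrable.bdd_mul (hD1.continuous.comp (hF s)).aestronglyMeasurable (c := C1)
      (Filter.Eventually.of_forall fun y => by rw [Real.norm_eq_abs]; exact hC1 _)
  have i2 : Integrable (fun y : ℝ × ℝ => D2 f (x + s • y) * y.2) gs :=
    req_snd_integrable.bdd_mul (hD2.continuous.comp (hF s)).aestronglyMeasurable (c := C2)
      (Filter.Eventually.of_forall fun y => by rw [Real.norm_eq_abs]; exact hC2 _)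
  rw [integral_add i1 i2, req_stein1 hD1 (req_D1_per hp), req_stein2 hD2 (req_D2_per hp)]
  have c11 : Continuous (D1 (D1 f)) := (hD1.continuous_fderiv (by norm_num)).clm_apply continuous_const
  have c22 : Continuous (D2 (D2 f)) := (hD2.continuous_fderiv (by norm_num)).clm_apply continuous_const
  obtain ⟨C3, _, hC3⟩ := req_bdd c11 (req_D1_per (req_D1_per hp))
  obtain ⟨C4, _, hC4⟩ := req_bdd c22 (req_D2_per (req_D2_per hp))
  have i3 := req_bounded_integrable c11 hC3 (hF s)
  have i4 := req_bounded_integrable c22 hC4 (hF s)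
  have e : (∫ y, Lap f (x + s • y) ∂gs)
      = (∫ y, D1 (D1 f) (x + s • y) ∂gs) + ∫ y, D2 (D2 f) (x + s • y) ∂gs := by
    rw [← integral_add i3 i4]
    rfl
  rw [e]
  ring

/-- (R3) -/
theorem Rs_eq {L : ℝ} (hL : 0 < L) {f : ℝ × ℝ → ℝ} (hf : ContDiff ℝ 2 f) (hp : Per f)
    (x : ℝ × ℝ) : -Lap (Rs L f) x + L * Rs L f x = f x := by
  have := req_prob
  have hD1 : ContDiff ℝ 1 (D1 f) := req_D1_contDiff (n := 1) (by exact_mod_cast hf)
  have hD2 : ContDiff ℝ 1 (D2 f) := req_D2_contDiff (n := 1) (by exact_mod_cast hf)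
  have c11 : Continuous (D1 (D1 f)) := (hD1.continuous_fderiv (by norm_num)).clm_apply continuous_const
  have c22 : Continuous (D2 (D2 f)) := (hD2.continuous_fderiv (by norm_num)).clm_apply continuous_const
  have hLc : Continuous (Lap f) := c11.add c22
  have hLp : Per (Lap f) := fun u =>
    ⟨by rw [Lap, Lap, (req_D1_per (req_D1_per hp) u).1, (req_D2_per (req_D2_per hp) u).1],
      by rw [Lap, Lap, (req_D1_per (req_D1_per hp) u).2, (req_D2_per (req_D2_per hp) u).2]⟩
  -- the Laplacian of the resolvent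
  have hR0 := Rs_diff hL (n := 2) (f := f) (by exact_mod_cast hf) hp
  have hR1 := Rs_diff hL (n := 1) (f := D1 f) (by exact_mod_cast hD1) (req_D1_per hp)
  have hR2 := Rs_diff hL (n := 1) (f := D2 f) (by exact_mod_cast hD2) (req_D2_per hp)
  have e1 : D1 (Rs L f) = Rs L (D1 f) := funext fun u => (hR0.2 (by norm_num) u).1
  have e2 : D2 (Rs L f) = Rs L (D2 f) := funext fun u => (hR0.2 (by norm_num) u).2
  have e3 : Lap (Rs L f) x = Rs L (Lap f) x := by
    rw [Lap, e1, e2, (hR1.2 le_rfl x).1, (hR2.2 le_rfl x).2]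
    have := Rs_add hL c11 (req_D1_per (req_D1_per hp)) c22 (req_D2_per (req_D2_per hp)) 1 1 x
    simp only [one_mul] at this
    exact this.symm
  rw [e3]
  obtain ⟨C, hC0, hC⟩ := req_bdd hf.continuous hp
  obtain ⟨C', hC0', hC'⟩ := req_bdd hLc hLp
  set M : ℝ → ℝ := fun s => ∫ y, f (x + s • y) ∂gs with hM
  set A : ℝ → ℝ := fun s => ∫ y, Lap f (x + s • y) ∂gs with hA
  have hMd : ∀ s, HasDerivAt M (s * A s) s := fun s => req_M_hasDerivAt hf hp x s
  have hMc : Continuous M := continuous_iff_continuousAt.mpr fun s => (hMd s).continuousAt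
  have hAc : Continuous A := by
    refine continuous_of_dominated (F := fun (s : ℝ) (y : ℝ × ℝ) => Lap f (x + s • y)) (bound := fun _ => C')
      (fun s => (hLc.comp (by fun_prop)).aestronglyMeasurable)
      (fun s => Filter.Eventually.of_forall fun y => by rw [Real.norm_eq_abs]; exact hC' _)
      (integrable_const _) (Filter.Eventually.of_forall fun y => hLc.comp (by fun_prop))
  have hMb : ∀ s, |M s| ≤ C := by
    intro s
    have := norm_integral_le_of_norm_le_const (μ := gs) (f := fun y => f (x + s • y)) (C := C)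
      (Filter.Eventually.of_forall fun y => by rw [Real.norm_eq_abs]; exact hC _)
    simpa using this
  have hAb : ∀ s, |A s| ≤ C' := by
    intro s
    have := norm_integral_le_of_norm_le_const (μ := gs) (f := fun y => Lap f (x + s • y)) (C := C')
      (Filter.Eventually.of_forall fun y => by rw [Real.norm_eq_abs]; exact hC' _)
    simpa using this
  have hw : Integrable (fun s : ℝ => s * Real.exp (-(L * s ^ 2 / 2))) := by
    refine (integrable_mul_exp_neg_mul_sq (b := L / 2) (by positivity)).congr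
      (Filter.Eventually.of_forall fun s => ?_)
    simp only
    congr 2
    ring
  have iM : Integrable (fun s : ℝ => s * Real.exp (-(L * s ^ 2 / 2)) * M s) := by
    have := hw.bdd_mul hMc.aestronglyMeasurable (c := C)
      (Filter.Eventually.of_forall fun s => by rw [Real.norm_eq_abs]; exact hMb s)
    exact this.congr (Filter.Eventually.of_forall fun s => by simp only; ring)
  have iA : Integrable (fun s : ℝ => s * Real.exp (-(L * s ^ 2 / 2)) * A s) := by
    have := hw.bdd_mul hAc.aestronglyMeasurable (c := C')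
      (Filter.Eventually.of_forall fun s => by rw [Real.norm_eq_abs]; exact hAb s)
    exact this.congr (Filter.Eventually.of_forall fun s => by simp only; ring)
  have hG : ∀ s ∈ Ici (0 : ℝ), HasDerivAt (fun s => Real.exp (-(L * s ^ 2 / 2)) * M s)
      (s * Real.exp (-(L * s ^ 2 / 2)) * A s - L * (s * Real.exp (-(L * s ^ 2 / 2)) * M s)) s := by
    intro s _
    have h1 : HasDerivAt (fun s : ℝ => -(L * s ^ 2 / 2)) (-(L * s)) s := by
      have := ((((hasDerivAt_id s).pow 2).const_mul L).div_const 2).neg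
      refine this.congr_deriv ?_
      simp
      ring
    refine (h1.exp.mul (hMd s)).congr_deriv ?_
    ring
  have hlim : Filter.Tendsto (fun s : ℝ => Real.exp (-(L * s ^ 2 / 2)) * M s) Filter.atTop (nhds 0) := by
    have h1 : Filter.Tendsto (fun s : ℝ => L * s ^ 2 / 2) Filter.atTop Filter.atTop :=
      (((Filter.tendsto_pow_atTop two_ne_zero).const_mul_atTop hL).atTop_div_const (by norm_num))
    have h2 : Filter.Tendsto (fun s : ℝ => Real.exp (-(L * s ^ 2 / 2))) Filter.atTop (nhds 0) :=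
      Real.tendsto_exp_atBot.comp (Filter.tendsto_neg_atTop_atBot.comp h1)
    have h3 := h2.mul_const C
    rw [zero_mul] at h3
    refine squeeze_zero_norm (fun s => ?_) h3
    rw [norm_mul, Real.norm_eq_abs, Real.norm_eq_abs, abs_of_pos (Real.exp_pos _)]
    exact mul_le_mul_of_nonneg_left (hMb s) (Real.exp_pos _).le
  have hfin := integral_Ioi_of_hasDerivAt_of_tendsto' hG (iA.sub (iM.const_mul L)).integrableOn hlim
  rw [integral_sub iA.integrableOn (iM.const_mul L).integrableOn, integral_const_mul] at hfin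
  have hM0 : M 0 = f x := by simp [hM]
  have hRf : Rs L f x = ∫ s in Ioi (0 : ℝ), s * Real.exp (-(L * s ^ 2 / 2)) * M s := rfl
  have hRL : Rs L (Lap f) x = ∫ s in Ioi (0 : ℝ), s * Real.exp (-(L * s ^ 2 / 2)) * A s := rfl
  rw [hRf, hRL]
  simp only [hM0] at hfin
  have h0 : Real.exp (-(L * 0 ^ 2 / 2)) = 1 := by simp
  rw [h0, one_mul] at hfin
  linarith

end Pool.Agent.AO
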