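import Pool.Agent.Lib.MP_10e52e_an.Tools
import Pool.Agent.Lib.MP_10e52e_an.Rbas
import Pool.Agent.Lib.MP_10e52e_an.Rdif
import Pool.Agent.Lib.MP_10e52e_an.Req

/-! MP_10e52e_an row RC1: (R4),(R5) -/

namespace Pool.Agent.AO

open MeasureTheory Set Real
open scoped ContDiff

open ProbabilityTheory

open Filter Topology
open scoped Convolution

theorem rc1_per_int {f : ℝ × ℝ → ℝ} (hp : Per f) (m n : ℤ) (x : ℝ × ℝ) :
    f (x.1 + m, x.2 + n) = f x := by
  have h1 : ∀ (m : ℤ) (x : ℝ × ℝ), f (x.1 + m, x.2) = f x := by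
    intro m
    induction m using Int.induction_on with
    | zero => intro x; simp
    | succ i ih =>
      intro x
      have h2 := (hp (x.1 + (i : ℤ), x.2)).1
      rw [← ih x, ← h2]
      push_cast
      ring_nf
    | pred i ih =>
      intro x
      have h2 := (hp (x.1 + ((-(i : ℤ) - 1 : ℤ) : ℝ), x.2)).1
      rw [← h2, ← ih x]
      push_cast
      ring_nf
  have h2 : ∀ (n : ℤ) (x : ℝ × ℝ), f (x.1, x.2 + n) = f x := by
    intro m
    induction m using Int.induction_on with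
    | zero => intro x; simp
    | succ i ih =>
      intro x
      have h2 := (hp (x.1, x.2 + (i : ℤ))).2
      rw [← ih x, ← h2]
      push_cast
      ring_nf
    | pred i ih =>
      intro x
      have h2 := (hp (x.1, x.2 + ((-(i : ℤ) - 1 : ℤ) : ℝ))).2
      rw [← h2, ← ih x]
      push_cast
      ring_nf
  have h3 := h1 m (x.1, x.2 + n)
  rw [h3]
  exact h2 n x

/-- a continuous periodic function is uniformly continuous -/
theorem rc1_unif {f : ℝ × ℝ → ℝ} (hf : Continuous f) (hp : Per f) : UniformContinuous f := by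
  have hK : IsCompact (Icc (-1 : ℝ) 2 ×ˢ Icc (-1 : ℝ) 2) := isCompact_Icc.prod isCompact_Icc
  have huc := hK.uniformContinuousOn_of_continuous hf.continuousOn
  rw [Metric.uniformContinuousOn_iff] at huc
  rw [Metric.uniformContinuous_iff]
  intro e he
  obtain ⟨d, hd, h⟩ := huc e he
  refine ⟨min d 1, lt_min hd one_pos, ?_⟩
  intro x y hxy
  have h1 := rc1_per_int hp (-⌊x.1⌋) (-⌊x.2⌋) x
  have h2 := rc1_per_int hp (-⌊x.1⌋) (-⌊x.2⌋) y
  rw [← h1, ← h2]
  have hd1 : dist x y < d := lt_of_lt_of_le hxy (min_le_left _ _)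
  have hd2 : dist x y < 1 := lt_of_lt_of_le hxy (min_le_right _ _)
  rw [Prod.dist_eq, max_lt_iff, Real.dist_eq, Real.dist_eq, abs_lt, abs_lt] at hd1 hd2
  have f1 := Int.floor_le x.1
  have f2 := Int.lt_floor_add_one x.1
  have g1 := Int.floor_le x.2
  have g2 := Int.lt_floor_add_one x.2
  apply h
  · simp only [mem_prod, mem_Icc]
    push_cast
    refine ⟨⟨?_, ?_⟩, ⟨?_, ?_⟩⟩ <;> linarith
  · simp only [mem_prod, mem_Icc]
    push_cast
    refine ⟨⟨?_, ?_⟩, ⟨?_, ?_⟩⟩ <;> linarith [hd2.1.1, hd2.1.2, hd2.2.1, hd2.2.2]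
  · rw [Prod.dist_eq, max_lt_iff, Real.dist_eq, Real.dist_eq, abs_lt, abs_lt]
    simp only
    refine ⟨⟨?_, ?_⟩, ⟨?_, ?_⟩⟩ <;> linarith [hd1.1.1, hd1.1.2, hd1.2.1, hd1.2.2]

/-- smooth periodic approximation -/
theorem rc1_approx {f : ℝ × ℝ → ℝ} (hf : Continuous f) (hp : Per f) {e : ℝ} (he : 0 < e) :
    ∃ g : ℝ × ℝ → ℝ, ContDiff ℝ 2 g ∧ Per g ∧ ∀ x, |g x - f x| ≤ e := by
  have huc := rc1_unif hf hp
  rw [Metric.uniformContinuous_iff] at huc
  obtain ⟨d, hd, h⟩ := huc e he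
  let phi : ContDiffBump (0 : ℝ × ℝ) := ⟨d / 2, d, by linarith, by linarith⟩
  refine ⟨(phi.normed volume) ⋆[ContinuousLinearMap.lsmul ℝ ℝ, volume] f, ?_, ?_, ?_⟩
  · exact phi.hasCompactSupport_normed.contDiff_convolution_left _ phi.contDiff_normed
      hf.locallyIntegrable
  · intro x
    constructor
    · rw [MeasureTheory.convolution_def, MeasureTheory.convolution_def]
      congr 1
      funext t
      have h1 := (hp (x - t)).1
      have h2 : ((x.1 + 1, x.2) : ℝ × ℝ) - t = ((x - t).1 + 1, (x - t).2) := by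
        apply Prod.ext
        · simp only [Prod.fst_sub]; ring
        · simp
      rw [h2, h1]
    · rw [MeasureTheory.convolution_def, MeasureTheory.convolution_def]
      congr 1
      funext t
      have h1 := (hp (x - t)).2
      have h2 : ((x.1, x.2 + 1) : ℝ × ℝ) - t = ((x - t).1, (x - t).2 + 1) := by
        apply Prod.ext
        · simp
        · simp only [Prod.snd_sub]; ring
      rw [h2, h1]
  · intro x
    have h1 := phi.dist_normed_convolution_le (μ := volume) (g := f) (x₀ := x) (ε := e)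
      hf.aestronglyMeasurable (fun y hy => (h (Metric.mem_ball.1 hy)).le)
    rwa [Real.dist_eq] at h1

theorem rc1_norm_le (A : ℝ × ℝ →L[ℝ] ℝ) : ‖A‖ ≤ |A (1, 0)| + |A (0, 1)| := by
  refine A.opNorm_le_bound (by positivity) ?_
  intro x
  have h1 : A x = x.1 * A (1, 0) + x.2 * A (0, 1) := by
    have h2 : x = x.1 • ((1 : ℝ), (0 : ℝ)) + x.2 • ((0 : ℝ), (1 : ℝ)) := by
      apply Prod.ext <;> simp
    conv_lhs => rw [h2]
    rw [map_add, map_smul, map_smul, smul_eq_mul, smul_eq_mul]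
  rw [h1, Real.norm_eq_abs]
  have h3 : |x.1| ≤ ‖x‖ := by
    have := norm_fst_le x
    rwa [Real.norm_eq_abs] at this
  have h4 : |x.2| ≤ ‖x‖ := by
    have := norm_snd_le x
    rwa [Real.norm_eq_abs] at this
  calc |x.1 * A (1, 0) + x.2 * A (0, 1)| ≤ |x.1 * A (1, 0)| + |x.2 * A (0, 1)| := abs_add_le _ _
    _ = |x.1| * |A (1, 0)| + |x.2| * |A (0, 1)| := by rw [abs_mul, abs_mul]
    _ ≤ ‖x‖ * |A (1, 0)| + ‖x‖ * |A (0, 1)| := by gcongr
    _ = (|A (1, 0)| + |A (0, 1)|) * ‖x‖ := by ring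

/-- gradient bound for `Rs L g` by the sup norm of `g` -/
theorem rc1_grad {L : ℝ} (hL : 0 < L) {g : ℝ × ℝ → ℝ} (hg : ContDiff ℝ 2 g) (hp : Per g)
    {δ : ℝ} (hδ : ∀ x, |g x| ≤ δ) (a : ℝ × ℝ) :
    ‖fderiv ℝ (Rs L g) a‖ ≤ 2 * (2 * (δ / L) + δ) := by
  obtain ⟨h1, -, h2, h3⟩ := Rs_basic hL hg.continuous hp
  have hb : ∀ x, |Rs L g x| ≤ δ / L := by
    intro x
    rw [abs_le]
    constructor
    · have := h2 (-δ) (fun x => (abs_le.1 (hδ x)).1) x
      rw [neg_div] at this
      exact this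
    · exact h3 δ (fun x => (abs_le.1 (hδ x)).2) x
  have hlap : ∀ x, |Lap (Rs L g) x| ≤ 2 * δ := by
    intro x
    have h4 := Rs_eq hL hg hp x
    have h5 : Lap (Rs L g) x = L * Rs L g x - g x := by linarith
    rw [h5]
    have h6 := hb x
    have h7 : |L * Rs L g x| ≤ δ := by
      rw [abs_mul, abs_of_pos hL]
      calc L * |Rs L g x| ≤ L * (δ / L) := by gcongr
        _ = δ := by field_simp
    calc |L * Rs L g x - g x| ≤ |L * Rs L g x| + |g x| := abs_sub _ _
      _ ≤ 2 * δ := by linarith [hδ x]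
  have h8 := tool_grad (f := Rs L g) (a := a) (d := 1) (M := δ / L) (K := 2 * δ) one_pos
    isOpen_univ (subset_univ _) (Rs_diff (n := 2) hL hg hp).1.contDiffOn
    (fun x _ _ => hb x) (fun x _ _ => hlap x)
  refine le_trans (rc1_norm_le _) ?_
  have h9 := h8.1
  have h10 := h8.2
  unfold D1 at h9
  unfold D2 at h10
  linarith

/-- (R4) -/
theorem Rs_C1 {L : ℝ} (hL : 0 < L) {f : ℝ × ℝ → ℝ} (hf : Continuous f) (hp : Per f) :
    ContDiff ℝ 1 (Rs L f) := by
  have hex : ∀ n : ℕ, ∃ g : ℝ × ℝ → ℝ, ContDiff ℝ 2 g ∧ Per g ∧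
      ∀ x, |g x - f x| ≤ 1 / ((n : ℝ) + 1) := fun n => rc1_approx hf hp (by positivity)
  choose g hg hgp hgf using hex
  have hone : Tendsto (fun n : ℕ => 1 / ((n : ℝ) + 1)) atTop (𝓝 0) :=
    tendsto_one_div_add_atTop_nhds_zero_nat
  -- uniform closeness of the resolvents
  have hdiff : ∀ n x, |Rs L (g n) x - Rs L f x| ≤ 1 / ((n : ℝ) + 1) / L := by
    intro n x
    have h1 := Rs_add hL (hg n).continuous (hgp n) hf hp 1 (-1) x
    have h2 : Rs L (g n) x - Rs L f x = Rs L (fun y => 1 * g n y + -1 * f y) x := by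
      rw [h1]; ring
    have hc : Continuous (fun y => 1 * g n y + -1 * f y) :=
      (continuous_const.mul (hg n).continuous).add (continuous_const.mul hf)
    have hpp : Per (fun y => 1 * g n y + -1 * f y) := by
      intro y
      simp only [(hgp n y).1, (hgp n y).2, (hp y).1, (hp y).2, and_self]
    obtain ⟨-, -, h3, h4⟩ := Rs_basic hL hc hpp
    rw [h2, abs_le]
    constructor
    · have := h3 (-(1 / ((n : ℝ) + 1))) (fun y => by
        have := (abs_le.1 (hgf n y)).1; linarith) x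
      rwa [neg_div] at this
    · exact h4 _ (fun y => by have := (abs_le.1 (hgf n y)).2; linarith) x
  -- gradients are uniformly Cauchy
  have hcau : ∀ m n x, ‖fderiv ℝ (Rs L (g m)) x - fderiv ℝ (Rs L (g n)) x‖ ≤
      2 * (2 * ((1 / ((m : ℝ) + 1) + 1 / ((n : ℝ) + 1)) / L) +
        (1 / ((m : ℝ) + 1) + 1 / ((n : ℝ) + 1))) := by
    intro m n x
    have hfun : Rs L (fun y => 1 * g m y + -1 * g n y) = fun y => Rs L (g m) y - Rs L (g n) y := by
      funext y
      rw [Rs_add hL (hg m).continuous (hgp m) (hg n).continuous (hgp n) 1 (-1) y]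
      ring
    have hc : ContDiff ℝ 2 (fun y => 1 * g m y + -1 * g n y) :=
      (contDiff_const.mul (hg m)).add (contDiff_const.mul (hg n))
    have hpp : Per (fun y => 1 * g m y + -1 * g n y) := by
      intro y
      simp only [(hgp m y).1, (hgp m y).2, (hgp n y).1, (hgp n y).2, and_self]
    have h1 := rc1_grad hL hc hpp (δ := 1 / ((m : ℝ) + 1) + 1 / ((n : ℝ) + 1)) (fun y => by
      have h2 := abs_le.1 (hgf m y)
      have h3 := abs_le.1 (hgf n y)
      rw [abs_le]
      constructor <;> linarith [h2.1, h2.2, h3.1, h3.2]) x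
    rw [hfun] at h1
    have hdm : DifferentiableAt ℝ (Rs L (g m)) x :=
      ((Rs_diff (n := 2) hL (hg m) (hgp m)).1.differentiable (by norm_num)) x
    have hdn : DifferentiableAt ℝ (Rs L (g n)) x :=
      ((Rs_diff (n := 2) hL (hg n) (hgp n)).1.differentiable (by norm_num)) x
    have h2 : fderiv ℝ (fun y => Rs L (g m) y - Rs L (g n) y) x =
        fderiv ℝ (Rs L (g m)) x - fderiv ℝ (Rs L (g n)) x := fderiv_sub hdm hdn
    rw [h2] at h1
    exact h1
  have hucs : UniformCauchySeqOn (fun n x => fderiv ℝ (Rs L (g n)) x) atTop univ := by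
    rw [Metric.uniformCauchySeqOn_iff]
    intro e he
    have ht : Tendsto (fun n : ℕ => 2 * (2 * ((1 / ((n : ℝ) + 1) + 1 / ((n : ℝ) + 1)) / L) +
        (1 / ((n : ℝ) + 1) + 1 / ((n : ℝ) + 1)))) atTop (𝓝 0) := by
      have := (((hone.add hone).div_const L).const_mul 2).add (hone.add hone) |>.const_mul 2
      simpa using this
    obtain ⟨N, hN⟩ := (ht.eventually_lt_const he).exists_forall_of_atTop
    refine ⟨N, fun m hm n hn x _ => ?_⟩
    rw [dist_eq_norm]
    refine lt_of_le_of_lt (hcau m n x) (lt_of_le_of_lt ?_ (hN N le_rfl))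
    have hm' : 1 / ((m : ℝ) + 1) ≤ 1 / ((N : ℝ) + 1) := by
      apply one_div_le_one_div_of_le (by positivity)
      have : (N : ℝ) ≤ m := by exact_mod_cast hm
      linarith
    have hn' : 1 / ((n : ℝ) + 1) ≤ 1 / ((N : ℝ) + 1) := by
      apply one_div_le_one_div_of_le (by positivity)
      have : (N : ℝ) ≤ n := by exact_mod_cast hn
      linarith
    gcongr
  have hlim : ∀ x, ∃ A : ℝ × ℝ →L[ℝ] ℝ, Tendsto (fun n => fderiv ℝ (Rs L (g n)) x) atTop (𝓝 A) :=
    fun x => cauchySeq_tendsto_of_complete (hucs.cauchySeq (mem_univ x))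
  choose A hA using hlim
  have hunif : TendstoUniformlyOn (fun n x => fderiv ℝ (Rs L (g n)) x) A atTop univ :=
    hucs.tendstoUniformlyOn_of_tendsto (fun x _ => hA x)
  rw [tendstoUniformlyOn_univ] at hunif
  have hder : ∀ x, HasFDerivAt (Rs L f) (A x) x := by
    refine hasFDerivAt_of_tendstoUniformly hunif (f := fun n => Rs L (g n)) ?_ ?_
    · intro n x
      exact (((Rs_diff (n := 2) hL (hg n) (hgp n)).1.differentiable (by norm_num)) x).hasFDerivAt
    · intro x
      rw [tendsto_iff_dist_tendsto_zero]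
      have h0 : Tendsto (fun n : ℕ => 1 / ((n : ℝ) + 1) / L) atTop (𝓝 0) := by
        have := hone.div_const L
        rwa [zero_div] at this
      refine squeeze_zero (fun n => dist_nonneg) (fun n => ?_) h0
      rw [Real.dist_eq]
      exact hdiff n x
  have hAc : Continuous A := by
    refine hunif.continuous (Frequently.of_forall fun n => ?_)
    exact ((Rs_diff (n := 2) hL (hg n) (hgp n)).1.continuous_fderiv (by norm_num))
  rw [contDiff_one_iff_fderiv]
  refine ⟨fun x => (hder x).differentiableAt, ?_⟩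
  have : fderiv ℝ (Rs L f) = A := funext fun x => (hder x).fderiv
  rw [this]
  exact hAc

theorem rc1_per_D1 {f : ℝ × ℝ → ℝ} (hp : Per f) : Per (D1 f) := by
  intro x
  have h1 : (fun y : ℝ × ℝ => f (y + ((1 : ℝ), (0 : ℝ)))) = f := by
    funext y
    have := (hp y).1
    rw [← this]
    congr 1
    apply Prod.ext <;> simp
  have h2 : (fun y : ℝ × ℝ => f (y + ((0 : ℝ), (1 : ℝ)))) = f := by
    funext y
    have := (hp y).2
    rw [← this]
    congr 1
    apply Prod.ext <;> simp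
  unfold D1
  constructor
  · have h3 := fderiv_comp_add_right (𝕜 := ℝ) (f := f) (x := x) ((1 : ℝ), (0 : ℝ))
    rw [h1] at h3
    have h4 : x + ((1 : ℝ), (0 : ℝ)) = (x.1 + 1, x.2) := by apply Prod.ext <;> simp
    rw [h4] at h3
    rw [h3]
  · have h3 := fderiv_comp_add_right (𝕜 := ℝ) (f := f) (x := x) ((0 : ℝ), (1 : ℝ))
    rw [h2] at h3
    have h4 : x + ((0 : ℝ), (1 : ℝ)) = (x.1, x.2 + 1) := by apply Prod.ext <;> simp
    rw [h4] at h3
    rw [h3]

theorem rc1_per_D2 {f : ℝ × ℝ → ℝ} (hp : Per f) : Per (D2 f) := by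
  intro x
  have h1 : (fun y : ℝ × ℝ => f (y + ((1 : ℝ), (0 : ℝ)))) = f := by
    funext y
    have := (hp y).1
    rw [← this]
    congr 1
    apply Prod.ext <;> simp
  have h2 : (fun y : ℝ × ℝ => f (y + ((0 : ℝ), (1 : ℝ)))) = f := by
    funext y
    have := (hp y).2
    rw [← this]
    congr 1
    apply Prod.ext <;> simp
  unfold D2
  constructor
  · have h3 := fderiv_comp_add_right (𝕜 := ℝ) (f := f) (x := x) ((1 : ℝ), (0 : ℝ))
    rw [h1] at h3
    have h4 : x + ((1 : ℝ), (0 : ℝ)) = (x.1 + 1, x.2) := by apply Prod.ext <;> simp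
    rw [h4] at h3
    rw [h3]
  · have h3 := fderiv_comp_add_right (𝕜 := ℝ) (f := f) (x := x) ((0 : ℝ), (1 : ℝ))
    rw [h2] at h3
    have h4 : x + ((0 : ℝ), (1 : ℝ)) = (x.1, x.2 + 1) := by apply Prod.ext <;> simp
    rw [h4] at h3
    rw [h3]

theorem rc1_D1_contDiff {f : ℝ × ℝ → ℝ} {n : ℕ} (hf : ContDiff ℝ ((n + 1 : ℕ) : WithTop ℕ∞) f) :
    ContDiff ℝ n (D1 f) := by
  unfold D1
  exact (hf.fderiv_right (m := (n : WithTop ℕ∞)) (by push_cast; exact le_rfl)).clm_apply
    contDiff_const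

theorem rc1_D2_contDiff {f : ℝ × ℝ → ℝ} {n : ℕ} (hf : ContDiff ℝ ((n + 1 : ℕ) : WithTop ℕ∞) f) :
    ContDiff ℝ n (D2 f) := by
  unfold D2
  exact (hf.fderiv_right (m := (n : WithTop ℕ∞)) (by push_cast; exact le_rfl)).clm_apply
    contDiff_const

/-- (R5) -/
theorem Rs_Csucc {L : ℝ} (hL : 0 < L) {f : ℝ × ℝ → ℝ} {n : ℕ} (hf : ContDiff ℝ n f)
    (hp : Per f) : ContDiff ℝ ((n + 1 : ℕ) : WithTop ℕ∞) (Rs L f) := by
  induction n generalizing f with
  | zero =>
    have h1 := Rs_C1 hL hf.continuous hp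
    simpa using h1
  | succ n ih =>
    obtain ⟨h1, h2⟩ := Rs_diff hL hf hp
    have h3 := h2 (by omega)
    have hD1 : ContDiff ℝ ((n + 1 : ℕ) : WithTop ℕ∞) (D1 (Rs L f)) := by
      have h4 : D1 (Rs L f) = Rs L (D1 f) := funext fun x => (h3 x).1
      rw [h4]
      exact ih (rc1_D1_contDiff hf) (rc1_per_D1 hp)
    have hD2 : ContDiff ℝ ((n + 1 : ℕ) : WithTop ℕ∞) (D2 (Rs L f)) := by
      have h4 : D2 (Rs L f) = Rs L (D2 f) := funext fun x => (h3 x).2
      rw [h4]
      exact ih (rc1_D2_contDiff hf) (rc1_per_D2 hp)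
    have hdiff : Differentiable ℝ (Rs L f) := h1.differentiable (by
      have : ((n + 1 : ℕ) : WithTop ℕ∞) ≠ 0 := by exact_mod_cast Nat.succ_ne_zero n
      exact this)
    have hfd : fderiv ℝ (Rs L f) = fun x =>
        D1 (Rs L f) x • ContinuousLinearMap.fst ℝ ℝ ℝ +
          D2 (Rs L f) x • ContinuousLinearMap.snd ℝ ℝ ℝ := by
      funext x
      ext
      · simp [D1]
      · simp [D2]
    have key : ContDiff ℝ (((n + 1 : ℕ) : WithTop ℕ∞) + 1) (Rs L f) := by
      rw [contDiff_succ_iff_fderiv]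
      refine ⟨hdiff, fun h => ?_, ?_⟩
      · exact absurd h (by
          intro h
          exact absurd h (WithTop.coe_ne_top))
      · rw [hfd]
        exact (hD1.smul contDiff_const).add (hD2.smul contDiff_const)
    have : ((n + 1 + 1 : ℕ) : WithTop ℕ∞) = ((n + 1 : ℕ) : WithTop ℕ∞) + 1 := by push_cast; rfl
    rw [this]
    exact key

end Pool.Agent.AO
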