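import Pool.Agent.Lib.MP_10e52e_an.Tools
import Pool.Agent.Lib.MP_10e52e_an.Rbas
import Pool.Agent.Lib.MP_10e52e_an.Rdif
import Pool.Agent.Lib.MP_10e52e_an.Req

/-! MP_10e52e_an row Rinv: (R7) -/

namespace Pool.Agent.AO

open MeasureTheory Set Real
open scoped ContDiff

open ProbabilityTheory

private theorem rinv_sm {w : ℝ × ℝ → ℝ} (hw : ContDiff ℝ ∞ w) (v : ℝ × ℝ) :
    ContDiff ℝ ∞ (fun x => fderiv ℝ w x v) :=
  (hw.fderiv_right (m := ∞) (by simp)).clm_apply contDiff_const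

private theorem rinv_per {w : ℝ × ℝ → ℝ} (hp : Per w) (v : ℝ × ℝ) :
    Per (fun x => fderiv ℝ w x v) := by
  have key : ∀ a : ℝ × ℝ, (∀ x, w (x + a) = w x) → ∀ x, fderiv ℝ w (x + a) = fderiv ℝ w x := by
    intro a ha x
    have h1 : (fun y => w (y + a)) = w := funext ha
    have h2 := fderiv_comp_add_right (𝕜 := ℝ) (f := w) (x := x) a
    rw [← h2, h1]
  have k1 : ∀ x : ℝ × ℝ, w (x + (1, 0)) = w x := by
    intro x
    have := (hp x).1
    rw [← this]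
    congr 1
    ext <;> simp
  have k2 : ∀ x : ℝ × ℝ, w (x + (0, 1)) = w x := by
    intro x
    have := (hp x).2
    rw [← this]
    congr 1
    ext <;> simp
  intro x
  constructor
  · have h : ((x.1 + 1, x.2) : ℝ × ℝ) = x + (1, 0) := by ext <;> simp
    show fderiv ℝ w (x.1 + 1, x.2) v = fderiv ℝ w x v
    rw [h, key _ k1 x]
  · have h : ((x.1, x.2 + 1) : ℝ × ℝ) = x + (0, 1) := by ext <;> simp
    show fderiv ℝ w (x.1, x.2 + 1) v = fderiv ℝ w x v
    rw [h, key _ k2 x]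

/-- (R7) -/
theorem Rs_inv {L : ℝ} (hL : 0 < L) {w : ℝ × ℝ → ℝ} (hw : ContDiff ℝ ∞ w) (hp : Per w)
    (x : ℝ × ℝ) : Rs L (fun y => -Lap w y + L * w y) x = w x := by
  have s1 : ContDiff ℝ ∞ (D1 w) := rinv_sm hw (1, 0)
  have s2 : ContDiff ℝ ∞ (D2 w) := rinv_sm hw (0, 1)
  have s11 : ContDiff ℝ ∞ (D1 (D1 w)) := rinv_sm s1 (1, 0)
  have s22 : ContDiff ℝ ∞ (D2 (D2 w)) := rinv_sm s2 (0, 1)
  have p1 : Per (D1 w) := rinv_per hp (1, 0)
  have p2 : Per (D2 w) := rinv_per hp (0, 1)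
  have p11 : Per (D1 (D1 w)) := rinv_per p1 (1, 0)
  have p22 : Per (D2 (D2 w)) := rinv_per p2 (0, 1)
  have sL : ContDiff ℝ ∞ (Lap w) := s11.add s22
  have pL : Per (Lap w) := by
    intro y
    constructor
    · show D1 (D1 w) _ + D2 (D2 w) _ = D1 (D1 w) _ + D2 (D2 w) _
      rw [(p11 y).1, (p22 y).1]
    · show D1 (D1 w) _ + D2 (D2 w) _ = D1 (D1 w) _ + D2 (D2 w) _
      rw [(p11 y).2, (p22 y).2]
  have hn : ∀ {g : ℝ × ℝ → ℝ}, ContDiff ℝ ∞ g → ContDiff ℝ (1 : ℕ) g := fun h =>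
    h.of_le (by exact_mod_cast le_top)
  have d1 : D1 (Rs L w) = Rs L (D1 w) :=
    funext fun y => (((Rs_diff hL (hn hw) hp).2 le_rfl) y).1
  have d2 : D2 (Rs L w) = Rs L (D2 w) :=
    funext fun y => (((Rs_diff hL (hn hw) hp).2 le_rfl) y).2
  have d11 : D1 (Rs L (D1 w)) = Rs L (D1 (D1 w)) :=
    funext fun y => (((Rs_diff hL (hn s1) p1).2 le_rfl) y).1
  have d22 : D2 (Rs L (D2 w)) = Rs L (D2 (D2 w)) :=
    funext fun y => (((Rs_diff hL (hn s2) p2).2 le_rfl) y).2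
  have e1 : Lap (Rs L w) x = Rs L (D1 (D1 w)) x + Rs L (D2 (D2 w)) x := by
    show D1 (D1 (Rs L w)) x + D2 (D2 (Rs L w)) x = _
    rw [d1, d2, d11, d22]
  have e2 : Rs L (Lap w) x = Rs L (D1 (D1 w)) x + Rs L (D2 (D2 w)) x := by
    have h := Rs_add hL s11.continuous p11 s22.continuous p22 1 1 x
    have h3 : (fun y => 1 * D1 (D1 w) y + 1 * D2 (D2 w) y) = Lap w := by
      funext y
      simp only [one_mul, Lap]
    rw [h3] at h
    rw [h]; ring
  have e3 : Rs L (fun y => -Lap w y + L * w y) x = -Rs L (Lap w) x + L * Rs L w x := by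
    have h := Rs_add hL sL.continuous pL hw.continuous hp (-1) L x
    have h3 : (fun y => -1 * Lap w y + L * w y) = fun y => -Lap w y + L * w y := by
      funext y
      ring
    rw [h3] at h
    rw [h]; ring
  rw [e3, e2, ← e1]
  exact Rs_eq hL (contDiff_infty.1 hw 2) hp x

end Pool.Agent.AO
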