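import Pool.Agent.Lib.MP_10e52e_an.Tools
import Pool.Agent.Lib.MP_10e52e_an.Rbas

/-! MP_10e52e_an row Rpos: (R6) -/

namespace Pool.Agent.AO

open MeasureTheory Set Real
open scoped ContDiff

open ProbabilityTheory

theorem rpos_fract {f : ℝ × ℝ → ℝ} (hp : Per f) (x : ℝ × ℝ) :
    f (Int.fract x.1, Int.fract x.2) = f x := by
  have h1 : ∀ b : ℝ, Function.Periodic (fun t : ℝ => f (t, b)) 1 := by
    intro b t
    exact (hp (t, b)).1
  have h2 : ∀ a : ℝ, Function.Periodic (fun t : ℝ => f (a, t)) 1 := by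
    intro a t
    exact (hp (a, t)).2
  have e1 : f (Int.fract x.1, Int.fract x.2) = f (x.1, Int.fract x.2) := by
    have := (h1 (Int.fract x.2)).sub_int_mul_eq (x := x.1) ⌊x.1⌋
    simp only [mul_one] at this
    exact this
  have e2 : f (x.1, Int.fract x.2) = f (x.1, x.2) := by
    have := (h2 x.1).sub_int_mul_eq (x := x.2) ⌊x.2⌋
    simp only [mul_one] at this
    exact this
  rw [e1, e2]

theorem rpos_cpt : IsCompact (Icc (0 : ℝ) 1 ×ˢ Icc (0 : ℝ) 1) :=
  isCompact_Icc.prod isCompact_Icc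

theorem rpos_mem (x : ℝ × ℝ) :
    (Int.fract x.1, Int.fract x.2) ∈ Icc (0 : ℝ) 1 ×ˢ Icc (0 : ℝ) 1 :=
  ⟨⟨Int.fract_nonneg _, (Int.fract_lt_one _).le⟩, ⟨Int.fract_nonneg _, (Int.fract_lt_one _).le⟩⟩

theorem rpos_bdd {f : ℝ × ℝ → ℝ} (hf : Continuous f) (hp : Per f) :
    ∃ M : ℝ, ∀ x, |f x| ≤ M := by
  obtain ⟨M, hM⟩ := rpos_cpt.exists_bound_of_continuousOn hf.continuousOn
  refine ⟨M, fun x => ?_⟩
  have := hM _ (rpos_mem x)
  rw [rpos_fract hp, Real.norm_eq_abs] at this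
  exact this

theorem rpos_lat_countable : Lat.Countable := by
  have : Lat = Set.range (fun p : ℤ × ℤ => ((p.1 : ℝ), (p.2 : ℝ))) := by
    ext x
    constructor
    · rintro ⟨m, n, rfl⟩
      exact ⟨(m, n), rfl⟩
    · rintro ⟨⟨m, n⟩, rfl⟩
      exact ⟨m, n, rfl⟩
  rw [this]
  exact Set.countable_range _

instance rpos_prob : IsProbabilityMeasure gs := by
  unfold gs
  infer_instance

instance rpos_noAtoms : NullSingletonClass gs := by
  have h : NullSingletonClass (gaussianReal 0 1) := nullSingletonClass_gaussianReal one_ne_zero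
  unfold gs
  infer_instance

theorem rpos_inner {f : ℝ × ℝ → ℝ} (hf : Continuous f) (hp : Per f)
    (h0 : ∀ x, 0 ≤ f x) (h1 : ∀ x, x ∉ Lat → 0 < f x) (x : ℝ × ℝ) {s : ℝ} (hs : 0 < s) :
    0 < ∫ y, f (x + s • y) ∂gs := by
  obtain ⟨M, hM⟩ := rpos_bdd hf hp
  have hcont : Continuous (fun y : ℝ × ℝ => f (x + s • y)) := by fun_prop
  have hint : Integrable (fun y : ℝ × ℝ => f (x + s • y)) gs := by
    refine Integrable.mono' (integrable_const M) hcont.aestronglyMeasurable ?_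
    exact Filter.Eventually.of_forall fun y => by
      rw [Real.norm_eq_abs]; exact hM _
  have hinj : Function.Injective (fun y : ℝ × ℝ => x + s • y) := by
    intro a b hab
    have h2 : s • a = s • b := add_left_cancel hab
    exact smul_right_injective _ hs.ne' h2
  have hnull : gs ((fun y : ℝ × ℝ => x + s • y) ⁻¹' Lat) = 0 :=
    (rpos_lat_countable.preimage hinj).measure_zero gs
  rw [integral_pos_iff_support_of_nonneg (fun y => h0 _) hint]
  have hsub : ((fun y : ℝ × ℝ => x + s • y) ⁻¹' Lat)ᶜ ⊆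
      Function.support (fun y : ℝ × ℝ => f (x + s • y)) := by
    intro y hy
    exact (h1 _ hy).ne'
  have hfull : gs ((fun y : ℝ × ℝ => x + s • y) ⁻¹' Lat)ᶜ = 1 := by
    have := prob_compl_eq_one_iff₀ (μ := gs)
      (s := (fun y : ℝ × ℝ => x + s • y) ⁻¹' Lat)
      (NullMeasurableSet.of_null hnull)
    exact this.2 hnull
  calc (0 : ENNReal) < 1 := one_pos
    _ = gs ((fun y : ℝ × ℝ => x + s • y) ⁻¹' Lat)ᶜ := hfull.symm
    _ ≤ _ := measure_mono hsub

theorem rpos_pt {L : ℝ} (hL : 0 < L) {f : ℝ × ℝ → ℝ} (hf : Continuous f) (hp : Per f)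
    (h0 : ∀ x, 0 ≤ f x) (h1 : ∀ x, x ∉ Lat → 0 < f x) (x : ℝ × ℝ) : 0 < Rs L f x := by
  obtain ⟨M, hM⟩ := rpos_bdd hf hp
  have hin : ∀ s : ℝ, |∫ y, f (x + s • y) ∂gs| ≤ M := by
    intro s
    have := norm_integral_le_of_norm_le_const (μ := gs) (f := fun y => f (x + s • y)) (C := M)
      (Filter.Eventually.of_forall fun y => by rw [Real.norm_eq_abs]; exact hM _)
    simpa using this
  have hsm : StronglyMeasurable (fun s : ℝ => ∫ y, f (x + s • y) ∂gs) := by
    have hc : Continuous (fun p : ℝ × (ℝ × ℝ) => f (x + p.1 • p.2)) := by fun_prop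
    exact hc.stronglyMeasurable.integral_prod_right
  have hg : Integrable (fun s : ℝ => s * Real.exp (-(L * s ^ 2 / 2))) := by
    have := integrable_mul_exp_neg_mul_sq (b := L / 2) (by positivity)
    refine this.congr (Filter.Eventually.of_forall fun s => ?_)
    show s * Real.exp (-(L / 2) * s ^ 2) = s * Real.exp (-(L * s ^ 2 / 2))
    congr 2
    ring
  have hint : Integrable (fun s : ℝ => s * Real.exp (-(L * s ^ 2 / 2)) *
      ∫ y, f (x + s • y) ∂gs) := by
    refine Integrable.mul_bdd (c := M) hg hsm.aestronglyMeasurable ?_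
    exact Filter.Eventually.of_forall fun s => by
      rw [Real.norm_eq_abs]; exact hin s
  unfold Rs
  rw [setIntegral_pos_iff_support_of_nonneg_ae _ hint.integrableOn]
  · have hsub : Ioi (0 : ℝ) ⊆ Function.support (fun s : ℝ => s * Real.exp (-(L * s ^ 2 / 2)) *
      ∫ y, f (x + s • y) ∂gs) ∩ Ioi 0 := by
      intro s hs
      have hs' : (0 : ℝ) < s := hs
      refine ⟨?_, hs⟩
      have := rpos_inner hf hp h0 h1 x hs'
      have h3 : 0 < s * Real.exp (-(L * s ^ 2 / 2)) := by positivity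
      exact (mul_pos h3 this).ne'
    refine lt_of_lt_of_le ?_ (measure_mono hsub)
    simp
  · refine (ae_restrict_iff' measurableSet_Ioi).2 (Filter.Eventually.of_forall fun s hs => ?_)
    have hs' : (0 : ℝ) < s := hs
    have h3 : 0 < s * Real.exp (-(L * s ^ 2 / 2)) := by positivity
    exact mul_nonneg h3.le (rpos_inner hf hp h0 h1 x hs').le

/-- (R6) -/
theorem Rs_pos {L : ℝ} (hL : 0 < L) {f : ℝ × ℝ → ℝ} (hf : Continuous f) (hp : Per f)
    (h0 : ∀ x, 0 ≤ f x) (h1 : ∀ x, x ∉ Lat → 0 < f x) : ∃ c : ℝ, 0 < c ∧ ∀ x, c ≤ Rs L f x := by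
  obtain ⟨hc, hper, -, -⟩ := Rs_basic hL hf hp
  obtain ⟨z, -, hz⟩ := rpos_cpt.exists_isMinOn
    ⟨_, rpos_mem (0 : ℝ × ℝ)⟩ hc.continuousOn
  refine ⟨Rs L f z, rpos_pt hL hf hp h0 h1 z, fun x => ?_⟩
  rw [← rpos_fract hper x]
  exact hz (rpos_mem x)

end Pool.Agent.AO
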