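import Pool.Agent.Lib.MP_10e52e_an.Tools
import Pool.Agent.Lib.MP_10e52e_an.Rbas
import Pool.Agent.Lib.MP_10e52e_an.Rdif
import Pool.Agent.Lib.MP_10e52e_an.Req
import Pool.Agent.Lib.MP_10e52e_an.RC1
import Pool.Agent.Lib.MP_10e52e_an.Rpos
import Pool.Agent.Lib.MP_10e52e_an.Rinv
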