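import Pool.Agent.Lib.MP_10e52e_an.Green
import Pool.Agent.Lib.MP_10e52e_an.Res

/-! MP_10e52e_an row Cbet: existence between ordered barriers (contraction with Rs, bootstrapping) -/

namespace Pool.Agent.AO

open MeasureTheory Set Real
open scoped ContDiff BoundedContinuousFunction NNReal

theorem cbet_fract {f : ℝ × ℝ → ℝ} (hp : Per f) (x : ℝ × ℝ) :
    f (Int.fract x.1, Int.fract x.2) = f x := by
  have h1 : ∀ y, Function.Periodic (fun t => f (t, y)) 1 := fun y t => (hp (t, y)).1
  have h2 : ∀ t, Function.Periodic (fun y => f (t, y)) 1 := fun t y => (hp (t, y)).2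
  have e1 := (h1 (Int.fract x.2)).sub_zsmul_eq (x := x.1) ⌊x.1⌋
  have e2 := (h2 x.1).sub_zsmul_eq (x := x.2) ⌊x.2⌋
  simp only [zsmul_eq_mul, mul_one] at e1 e2
  have e3 : x.1 - (⌊x.1⌋ : ℝ) = Int.fract x.1 := rfl
  have e4 : x.2 - (⌊x.2⌋ : ℝ) = Int.fract x.2 := rfl
  rw [e3] at e1
  rw [e4] at e2
  rw [e1, e2]

theorem cbet_bdd {f : ℝ × ℝ → ℝ} (hf : Continuous f) (hp : Per f) : ∃ M, ∀ x, ‖f x‖ ≤ M := by
  have hc : IsCompact (Icc (0 : ℝ) 1 ×ˢ Icc (0 : ℝ) 1) := isCompact_Icc.prod isCompact_Icc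
  obtain ⟨M, hM⟩ := hc.exists_bound_of_continuousOn hf.continuousOn
  refine ⟨M, fun x => ?_⟩
  rw [← cbet_fract hp x]
  exact hM _ ⟨⟨Int.fract_nonneg _, (Int.fract_lt_one _).le⟩,
    ⟨Int.fract_nonneg _, (Int.fract_lt_one _).le⟩⟩

theorem cbet_per_fderiv {f : ℝ × ℝ → ℝ} (hp : Per f) (v : ℝ × ℝ) :
    Per (fun x => fderiv ℝ f x v) := by
  have h1 : (fun x : ℝ × ℝ => f (x + ((1 : ℝ), (0 : ℝ)))) = f := by
    funext x
    have := (hp x).1
    rw [← this]
    congr 1
    ext <;> simp
  have h2 : (fun x : ℝ × ℝ => f (x + ((0 : ℝ), (1 : ℝ)))) = f := by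
    funext x
    have := (hp x).2
    rw [← this]
    congr 1
    ext <;> simp
  intro x
  constructor
  · have e := fderiv_comp_add_right (𝕜 := ℝ) (f := f) (x := x) ((1 : ℝ), (0 : ℝ))
    rw [h1] at e
    have e' : x + ((1 : ℝ), (0 : ℝ)) = (x.1 + 1, x.2) := by ext <;> simp
    rw [e'] at e
    show fderiv ℝ f (x.1 + 1, x.2) v = fderiv ℝ f x v
    rw [← e]
  · have e := fderiv_comp_add_right (𝕜 := ℝ) (f := f) (x := x) ((0 : ℝ), (1 : ℝ))
    rw [h2] at e
    have e' : x + ((0 : ℝ), (1 : ℝ)) = (x.1, x.2 + 1) := by ext <;> simp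
    rw [e'] at e
    show fderiv ℝ f (x.1, x.2 + 1) v = fderiv ℝ f x v
    rw [← e]

theorem cbet_cont_fderiv {f : ℝ × ℝ → ℝ} (hf : ContDiff ℝ ∞ f) (v : ℝ × ℝ) :
    ContDiff ℝ ∞ (fun x => fderiv ℝ f x v) :=
  (hf.fderiv_right (m := ∞) (by simp)).clm_apply contDiff_const

theorem cbet_Lap {f : ℝ × ℝ → ℝ} (hf : ContDiff ℝ ∞ f) (hp : Per f) :
    Continuous (Lap f) ∧ Per (Lap f) := by
  have c1 : ContDiff ℝ ∞ (D1 f) := cbet_cont_fderiv hf _
  have c2 : ContDiff ℝ ∞ (D2 f) := cbet_cont_fderiv hf _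
  have c11 : ContDiff ℝ ∞ (D1 (D1 f)) := cbet_cont_fderiv c1 _
  have c22 : ContDiff ℝ ∞ (D2 (D2 f)) := cbet_cont_fderiv c2 _
  have p1 : Per (D1 (D1 f)) := cbet_per_fderiv (cbet_per_fderiv hp _) _
  have p2 : Per (D2 (D2 f)) := cbet_per_fderiv (cbet_per_fderiv hp _) _
  refine ⟨c11.continuous.add c22.continuous, fun x => ⟨?_, ?_⟩⟩
  · show D1 (D1 f) _ + D2 (D2 f) _ = _
    rw [(p1 x).1, (p2 x).1]
    rfl
  · show D1 (D1 f) _ + D2 (D2 f) _ = _
    rw [(p1 x).2, (p2 x).2]
    rfl

/-- the right-hand side of the fixed point equation -/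
noncomputable def cbetF (K : ℝ × ℝ → ℝ) (L Lam : ℝ) (v : ℝ × ℝ → ℝ) (x : ℝ × ℝ) : ℝ :=
  Lam * v x - L * (K x * Real.exp (v x)) + L - 4 * π

theorem cbetF_cont {K : ℝ × ℝ → ℝ} {n : WithTop ℕ∞} (hK : ContDiff ℝ n K) (L Lam : ℝ)
    {v : ℝ × ℝ → ℝ} (hv : ContDiff ℝ n v) : ContDiff ℝ n (cbetF K L Lam v) := by
  unfold cbetF
  exact (((contDiff_const.mul hv).sub (contDiff_const.mul (hK.mul hv.exp))).add
    contDiff_const).sub contDiff_const

theorem cbetF_continuous {K : ℝ × ℝ → ℝ} (hK : Continuous K) (L Lam : ℝ)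
    {v : ℝ × ℝ → ℝ} (hv : Continuous v) : Continuous (cbetF K L Lam v) := by
  unfold cbetF
  fun_prop

theorem cbetF_per {K : ℝ × ℝ → ℝ} (hK : Per K) (L Lam : ℝ)
    {v : ℝ × ℝ → ℝ} (hv : Per v) : Per (cbetF K L Lam v) := by
  intro x
  constructor
  · simp only [cbetF]
    rw [(hK x).1, (hv x).1]
  · simp only [cbetF]
    rw [(hK x).2, (hv x).2]

/-- monotonicity and Lipschitz bound of `t ↦ Lam t - L k e^t` below `b` -/
theorem cbet_lip {k L Lam t t' a b : ℝ} (hk : 0 ≤ k) (hL : 0 < L) (hLam : L * (k * Real.exp b) ≤ Lam)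
    (h1 : a ≤ t') (h2 : t' ≤ t) (h3 : t ≤ b) :
    0 ≤ (Lam * t - L * (k * Real.exp t)) - (Lam * t' - L * (k * Real.exp t')) ∧
    (Lam * t - L * (k * Real.exp t)) - (Lam * t' - L * (k * Real.exp t')) ≤
      (Lam - L * (k * Real.exp a)) * (t - t') := by
  have e1 : Real.exp t - Real.exp t' ≤ Real.exp t * (t - t') := by
    have h := Real.add_one_le_exp (t' - t)
    have h' : Real.exp t' = Real.exp t * Real.exp (t' - t) := by
      rw [← Real.exp_add]; congr 1; ring
    rw [h']
    nlinarith [Real.exp_pos t]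
  have e2 : Real.exp t' * (t - t') ≤ Real.exp t - Real.exp t' := by
    have h := Real.add_one_le_exp (t - t')
    have h' : Real.exp t = Real.exp t' * Real.exp (t - t') := by
      rw [← Real.exp_add]; congr 1; ring
    rw [h']
    nlinarith [Real.exp_pos t']
  have e3 : Real.exp t ≤ Real.exp b := Real.exp_le_exp.2 h3
  have e4 : Real.exp a ≤ Real.exp t' := Real.exp_le_exp.2 h1
  have hd : 0 ≤ t - t' := by linarith
  have hLk : 0 ≤ L * k := mul_nonneg hL.le hk
  constructor
  · have s1 : L * k * (Real.exp t - Real.exp t') ≤ L * k * (Real.exp b * (t - t')) := by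
      apply mul_le_mul_of_nonneg_left _ hLk
      exact le_trans e1 (mul_le_mul_of_nonneg_right e3 hd)
    have s2 : L * k * (Real.exp b * (t - t')) ≤ Lam * (t - t') := by
      have := mul_le_mul_of_nonneg_right hLam hd
      nlinarith
    nlinarith
  · have s1 : L * k * (Real.exp a * (t - t')) ≤ L * k * (Real.exp t - Real.exp t') := by
      apply mul_le_mul_of_nonneg_left _ hLk
      exact le_trans (mul_le_mul_of_nonneg_right e4 hd) e2
    nlinarith

/-- existence between ordered smooth sub- and supersolutions -/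
theorem comp_between {K R : ℝ × ℝ → ℝ} (hG : IsGreen K R) {L : ℝ} (hL : 0 < L)
    {a b : ℝ × ℝ → ℝ} (ha : ContDiff ℝ ∞ a) (hpa : Per a) (hb : ContDiff ℝ ∞ b) (hpb : Per b)
    (hab : ∀ x, a x ≤ b x)
    (hsub : ∀ x, L * (K x * Real.exp (a x) - 1) + 4 * π ≤ Lap a x)
    (hsup : ∀ x, Lap b x ≤ L * (K x * Real.exp (b x) - 1) + 4 * π) :
    ∃ v : ℝ × ℝ → ℝ, ContDiff ℝ ∞ v ∧ Per v ∧ (∀ x, a x ≤ v x) ∧ (∀ x, v x ≤ b x) ∧
      ∀ x, Lap v x = L * (K x * Real.exp (v x) - 1) + 4 * π := by
  have hKc : Continuous K := hG.smoothK.continuous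
  -- choice of `Lam`
  have hKb : Continuous (fun x => K x * Real.exp (b x)) := hKc.mul hb.continuous.rexp
  have hKbp : Per (fun x => K x * Real.exp (b x)) := by
    intro x
    exact ⟨by simp only [(hG.per x).1, (hpb x).1], by simp only [(hG.per x).2, (hpb x).2]⟩
  obtain ⟨M, hM⟩ := cbet_bdd hKb hKbp
  have hM0 : 0 ≤ M := le_trans (norm_nonneg _) (hM 0)
  obtain ⟨Lam, hLamdef⟩ : ∃ Lam, Lam = L * M + L := ⟨_, rfl⟩
  have hLam : 0 < Lam := by rw [hLamdef]; positivity
  have hbd : ∀ x, L * (K x * Real.exp (b x)) ≤ Lam := by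
    intro x
    have h1 : K x * Real.exp (b x) ≤ M := le_trans (le_abs_self _) (hM x)
    have h2 := mul_le_mul_of_nonneg_left h1 hL.le
    rw [hLamdef]; linarith
  -- monotonicity of `F`
  have hFmono : ∀ u w : ℝ × ℝ → ℝ, (∀ x, u x ≤ w x) → (∀ x, w x ≤ b x) →
      ∀ x, cbetF K L Lam u x ≤ cbetF K L Lam w x := by
    intro u w h1 h2 x
    have := (cbet_lip (hG.nonneg x) hL (hbd x) (le_refl (u x)) (h1 x) (h2 x)).1
    simp only [cbetF]
    linarith
  -- the barriers
  have hTa : ∀ x, a x ≤ Rs Lam (cbetF K L Lam a) x := by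
    intro x
    obtain ⟨c1, p1⟩ := cbet_Lap ha hpa
    have hc : Continuous (fun y => -Lap a y + Lam * a y) := by
      have := ha.continuous
      fun_prop
    have hp : Per (fun y => -Lap a y + Lam * a y) := by
      intro y
      exact ⟨by simp only [(p1 y).1, (hpa y).1], by simp only [(p1 y).2, (hpa y).2]⟩
    have h := Rs_mono hLam hc hp (cbetF_continuous hKc L Lam ha.continuous)
      (cbetF_per hG.per L Lam hpa) (fun y => by
        have := hsub y
        simp only [cbetF]
        linarith) x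
    rwa [Rs_inv hLam ha hpa x] at h
  have hTb : ∀ x, Rs Lam (cbetF K L Lam b) x ≤ b x := by
    intro x
    obtain ⟨c1, p1⟩ := cbet_Lap hb hpb
    have hc : Continuous (fun y => -Lap b y + Lam * b y) := by
      have := hb.continuous
      fun_prop
    have hp : Per (fun y => -Lap b y + Lam * b y) := by
      intro y
      exact ⟨by simp only [(p1 y).1, (hpb y).1], by simp only [(p1 y).2, (hpb y).2]⟩
    have h := Rs_mono hLam (cbetF_continuous hKc L Lam hb.continuous)
      (cbetF_per hG.per L Lam hpb) hc hp (fun y => by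
        have := hsup y
        simp only [cbetF]
        linarith) x
    rwa [Rs_inv hLam hb hpb x] at h
  -- the complete metric space
  let S : Set ((ℝ × ℝ) →ᵇ ℝ) := {v | ∀ x : ℝ × ℝ, (v (x.1 + 1, x.2) = v x ∧
    v (x.1, x.2 + 1) = v x) ∧ a x ≤ v x ∧ v x ≤ b x}
  have hSc : IsClosed S := by
    have hev : ∀ x : ℝ × ℝ, Continuous (fun v : (ℝ × ℝ) →ᵇ ℝ => v x) := fun x =>
      (BoundedContinuousFunction.lipschitz_eval_const x).continuous
    have : S = ⋂ x : ℝ × ℝ, {v : (ℝ × ℝ) →ᵇ ℝ | (v (x.1 + 1, x.2) = v x ∧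
        v (x.1, x.2 + 1) = v x) ∧ a x ≤ v x ∧ v x ≤ b x} := by
      ext v
      simp only [S, Set.mem_iInter]
      rfl
    rw [this]
    refine isClosed_iInter fun x => ?_
    refine ((isClosed_eq (hev _) (hev _)).inter (isClosed_eq (hev _) (hev _))).inter
      ((isClosed_le continuous_const (hev _)).inter (isClosed_le (hev _) continuous_const))
  have hSper : ∀ v ∈ S, Per (v : ℝ × ℝ → ℝ) := fun v hv x => (hv x).1
  have hcompl : CompleteSpace S := hSc.completeSpace_coe
  have hRcont : ∀ v : S, Continuous (Rs Lam (cbetF K L Lam v.1)) ∧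
      Per (Rs Lam (cbetF K L Lam v.1)) := by
    intro v
    have := Rs_basic hLam (cbetF_continuous hKc L Lam v.1.continuous)
      (cbetF_per hG.per L Lam (hSper v.1 v.2))
    exact ⟨this.1, this.2.1⟩
  let T : S → S := fun v => ⟨BoundedContinuousFunction.ofNormedAddCommGroup
    (Rs Lam (cbetF K L Lam v.1)) (hRcont v).1
    (Classical.choose (cbet_bdd (hRcont v).1 (hRcont v).2))
    (Classical.choose_spec (cbet_bdd (hRcont v).1 (hRcont v).2)), by
      intro x
      refine ⟨(hRcont v).2 x, ?_, ?_⟩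
      · refine le_trans (hTa x) (Rs_mono hLam (cbetF_continuous hKc L Lam ha.continuous)
          (cbetF_per hG.per L Lam hpa) (cbetF_continuous hKc L Lam v.1.continuous)
          (cbetF_per hG.per L Lam (hSper v.1 v.2)) ?_ x)
        exact hFmono _ _ (fun y => (v.2 y).2.1) (fun y => (v.2 y).2.2)
      · refine le_trans (Rs_mono hLam (cbetF_continuous hKc L Lam v.1.continuous)
          (cbetF_per hG.per L Lam (hSper v.1 v.2)) (cbetF_continuous hKc L Lam hb.continuous)
          (cbetF_per hG.per L Lam hpb) ?_ x) (hTb x)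
        exact hFmono _ _ (fun y => (v.2 y).2.2) (fun y => le_rfl)⟩
  -- the contraction constant
  have hKa : Continuous (fun x => K x * Real.exp (a x)) := hKc.mul ha.continuous.rexp
  have hKap : Per (fun x => K x * Real.exp (a x)) := by
    intro x
    exact ⟨by simp only [(hG.per x).1, (hpa x).1], by simp only [(hG.per x).2, (hpa x).2]⟩
  obtain ⟨c, hc0, hc⟩ := Rs_pos hLam hKa hKap
    (fun x => mul_nonneg (hG.nonneg x) (Real.exp_pos _).le)
    (fun x hx => mul_pos (lt_of_le_of_ne (hG.nonneg x)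
      (fun h => hx ((hG.zero_iff x).1 h.symm))) (Real.exp_pos _))
  have hone : ∀ x, Rs Lam (fun _ => (1 : ℝ)) x = 1 / Lam := by
    intro x
    have h := Rs_basic hLam (f := fun _ : ℝ × ℝ => (1 : ℝ)) continuous_const
      (fun _ => ⟨rfl, rfl⟩)
    exact le_antisymm (h.2.2.2 1 (fun _ => le_rfl) x) (h.2.2.1 1 (fun _ => le_rfl) x)
  have hq : ∀ D : ℝ, 0 ≤ D → ∀ x, Rs Lam (fun y => (Lam * D) * (1 : ℝ) +
      (-(L * D)) * (K y * Real.exp (a y))) x ≤ (1 - L * c) * D := by
    intro D hD x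
    rw [Rs_add hLam continuous_const (fun _ => ⟨rfl, rfl⟩) hKa hKap, hone]
    have h1 := hc x
    have h2 : Lam * D * (1 / Lam) = D := by field_simp
    have h3 : L * D * c ≤ L * D * Rs Lam (fun x => K x * Real.exp (a x)) x :=
      mul_le_mul_of_nonneg_left h1 (by positivity)
    nlinarith
  have hcontr : ContractingWith (Real.toNNReal (1 - L * c)) T := by
    constructor
    · rw [← NNReal.coe_lt_coe, Real.coe_toNNReal', NNReal.coe_one]
      have : 0 < L * c := mul_pos hL hc0
      exact max_lt (by linarith) one_pos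
    · refine LipschitzWith.of_dist_le_mul fun u w => ?_
      have hD : 0 ≤ dist u w := dist_nonneg
      show dist (T u).1 (T w).1 ≤ _
      rw [BoundedContinuousFunction.dist_le (by positivity)]
      intro x
      have key : ∀ u w : S, Rs Lam (cbetF K L Lam u.1) x - Rs Lam (cbetF K L Lam w.1) x ≤
          (Real.toNNReal (1 - L * c) : ℝ) * dist u w := by
        intro u w
        have hcu := cbetF_continuous hKc L Lam u.1.continuous
        have hpu := cbetF_per hG.per L Lam (hSper u.1 u.2)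
        have hcw := cbetF_continuous hKc L Lam w.1.continuous
        have hpw := cbetF_per hG.per L Lam (hSper w.1 w.2)
        have e1 := Rs_add hLam hcu hpu hcw hpw 1 (-1) x
        have e2 : Rs Lam (cbetF K L Lam u.1) x - Rs Lam (cbetF K L Lam w.1) x =
            Rs Lam (fun y => 1 * cbetF K L Lam u.1 y + (-1) * cbetF K L Lam w.1 y) x := by
          rw [e1]; ring
        rw [e2]
        have hc1 : Continuous (fun y => 1 * cbetF K L Lam u.1 y + (-1) * cbetF K L Lam w.1 y) := by
          fun_prop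
        have hp1 : Per (fun y => 1 * cbetF K L Lam u.1 y + (-1) * cbetF K L Lam w.1 y) := by
          intro y
          exact ⟨by simp only [(hpu y).1, (hpw y).1], by simp only [(hpu y).2, (hpw y).2]⟩
        have hc2 : Continuous (fun y => (Lam * dist u w) * (1 : ℝ) +
            (-(L * dist u w)) * (K y * Real.exp (a y))) := by
          fun_prop
        have hp2 : Per (fun y => (Lam * dist u w) * (1 : ℝ) +
            (-(L * dist u w)) * (K y * Real.exp (a y))) := by
          intro y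
          exact ⟨by simp only [(hKap y).1], by simp only [(hKap y).2]⟩
        refine le_trans (Rs_mono hLam hc1 hp1 hc2 hp2 ?_ x) ?_
        · intro y
          have hdist : |u.1 y - w.1 y| ≤ dist u w := by
            have := BoundedContinuousFunction.dist_coe_le_dist (f := u.1) (g := w.1) y
            rwa [Real.dist_eq] at this
          have hy := hbd y
          have hkn := hG.nonneg y
          have hab' : Real.exp (a y) ≤ Real.exp (b y) := Real.exp_le_exp.2 (hab y)
          have hcoef : 0 ≤ Lam - L * (K y * Real.exp (a y)) := by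
            have : L * (K y * Real.exp (a y)) ≤ L * (K y * Real.exp (b y)) := by gcongr
            linarith
          simp only [cbetF]
          rcases le_total (w.1 y) (u.1 y) with h | h
          · have h2 := (cbet_lip hkn hL hy (w.2 y).2.1 h (u.2 y).2.2).2
            have h3 : u.1 y - w.1 y ≤ dist u w := le_trans (le_abs_self _) hdist
            have h4 := mul_le_mul_of_nonneg_left h3 hcoef
            nlinarith
          · have h2 := (cbet_lip hkn hL hy (u.2 y).2.1 h (w.2 y).2.2).1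
            have h4 := mul_nonneg hcoef (dist_nonneg (x := u) (y := w))
            nlinarith
        · refine le_trans (hq _ dist_nonneg x) ?_
          refine mul_le_mul_of_nonneg_right ?_ dist_nonneg
          rw [Real.coe_toNNReal']
          exact le_max_left _ _
      rw [Real.dist_eq, abs_le]
      constructor
      · have := key w u
        rw [dist_comm w u] at this
        show _ ≤ Rs Lam (cbetF K L Lam u.1) x - Rs Lam (cbetF K L Lam w.1) x
        linarith
      · exact key u w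
  -- the fixed point
  obtain ⟨Ma, hMa⟩ := cbet_bdd ha.continuous hpa
  have hne : Nonempty S := ⟨⟨BoundedContinuousFunction.ofNormedAddCommGroup a ha.continuous Ma hMa,
    fun x => ⟨hpa x, le_rfl, hab x⟩⟩⟩
  obtain ⟨v, hv⟩ : ∃ v : S, T v = v := ⟨_, hcontr.fixedPoint_isFixedPt⟩
  have hfix : ∀ x, Rs Lam (cbetF K L Lam v.1) x = v.1 x := by
    intro x
    have := congrArg (fun u : S => u.1 x) hv
    exact this
  have hfix' : Rs Lam (cbetF K L Lam v.1) = (v.1 : ℝ × ℝ → ℝ) := funext hfix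
  have hvper : Per (v.1 : ℝ × ℝ → ℝ) := hSper v.1 v.2
  -- bootstrapping
  have hsm : ∀ n : ℕ, ContDiff ℝ n (v.1 : ℝ × ℝ → ℝ) := by
    intro n
    induction n with
    | zero =>
      have : ContDiff ℝ 0 (v.1 : ℝ × ℝ → ℝ) := contDiff_zero.2 v.1.continuous
      exact_mod_cast this
    | succ n ih =>
      have hK' : ContDiff ℝ n K := hG.smoothK.of_le (by exact_mod_cast le_top)
      have h := Rs_Csucc hLam (cbetF_cont hK' L Lam ih) (cbetF_per hG.per L Lam hvper)
      rwa [hfix'] at h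
  have hsmooth : ContDiff ℝ ∞ (v.1 : ℝ × ℝ → ℝ) := contDiff_infty.2 hsm
  refine ⟨v.1, hsmooth, hvper, fun x => (v.2 x).2.1, fun x => (v.2 x).2.2, fun x => ?_⟩
  have hK2 : ContDiff ℝ 2 K := by exact_mod_cast contDiff_infty.1 hG.smoothK 2
  have hv2 : ContDiff ℝ 2 (v.1 : ℝ × ℝ → ℝ) := by exact_mod_cast hsm 2
  have h := Rs_eq hLam (cbetF_cont hK2 L Lam hv2) (cbetF_per hG.per L Lam hvper) x
  rw [hfix'] at h
  simp only [cbetF] at h
  linarith

end Pool.Agent.AO
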