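import Pool.Agent.Lib.MP_10e52e_an.Green
import Pool.Agent.Lib.MP_10e52e_an.Cbd
import Pool.Agent.Lib.MP_10e52e_an.Calc

/-! MP_10e52e_an row Cgrad: L5.5 -/

namespace Pool.Agent.AO

open MeasureTheory Set Real
open scoped ContDiff

theorem cgrad_lap {K R : ℝ × ℝ → ℝ} (hG : IsGreen K R) {Cb : ℝ} {N : ℕ} {v : ℝ × ℝ → ℝ}
    (hv : IsComp K Cb N v) {x : ℝ × ℝ} (hx : x ∉ Lat) :
    Lap (om0 K v) x = lam N * (Real.exp (om0 K v x) - 1) := by
  have hK : K x ≠ 0 := fun h => hx ((hG.zero_iff x).1 h)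
  have hKp : 0 < K x := lt_of_le_of_ne (hG.nonneg x) (Ne.symm hK)
  have hlog : ContDiffAt ℝ 2 (fun y => Real.log (K y)) x :=
    ((hG.smoothK.of_le (by norm_cast)).contDiffAt).log hK
  have hv2 : ContDiffAt ℝ 2 v x := (hv.smooth.of_le (by norm_cast)).contDiffAt
  have h1 : Lap (om0 K v) x = Lap (fun y => Real.log (K y)) x + Lap v x := Lap_add hlog hv2
  have h2 : Lap (fun y => -(1 / (4 * π)) * Real.log (K y)) x =
      -(1 / (4 * π)) * Lap (fun y => Real.log (K y)) x := Lap_const_mul hlog _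
  have h3 : Lap (fun y => -(1 / (4 * π)) * Real.log (K y)) x = 1 := (green_logsing hG).2 x hx
  have hπ : (0 : ℝ) < 4 * π := by positivity
  have h4 : Lap (fun y => Real.log (K y)) x = -(4 * π) := by
    rw [h3] at h2
    have h5 : (4 * π) * (1 / (4 * π)) = 1 := by field_simp
    have h6 : (4 * π) * (-(1 / (4 * π)) * Lap (fun y => Real.log (K y)) x) =
      -(Lap (fun y => Real.log (K y)) x) := by
      linear_combination (-(Lap (fun y => Real.log (K y)) x)) * h5
    rw [← h2] at h6
    linarith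
  rw [h1, h4, hv.eq x]
  have h7 : Real.exp (om0 K v x) = K x * Real.exp (v x) := by
    unfold om0
    rw [Real.exp_add, Real.exp_log hKp]
  rw [h7]
  ring

/-- L5.5 -/
theorem comp_grad {K R : ℝ × ℝ → ℝ} (hG : IsGreen K R) {Cb : ℝ} (hCb : 0 < Cb) :
    ∃ C : ℝ, 0 < C ∧ ∃ N0 : ℕ, ∀ (N : ℕ) (v : ℝ × ℝ → ℝ), N0 ≤ N → IsComp K Cb N v →
      ∀ x : ℝ × ℝ, (1 / 16 ≤ |x.1| ∨ 1 / 16 ≤ |x.2|) → |x.1| ≤ 1 / 4 → |x.2| ≤ 1 / 4 →
        |D1 (om0 K v) x| ≤ C / Real.sqrt (lam N) ∧ |D2 (om0 K v) x| ≤ C / Real.sqrt (lam N) := by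
  obtain ⟨C, hC, hb⟩ := comp_bounds hG hCb
  refine ⟨2560 * C, by positivity, 100, ?_⟩
  intro N v hN hv x hx hx1 hx2
  obtain ⟨ha, hb', -⟩ := hb N v (by omega) hv
  have hL : (1024 : ℝ) ≤ lam N := by
    have h1 : (100 : ℝ) ≤ N := by exact_mod_cast hN
    have h2 := Real.pi_gt_three
    unfold lam
    nlinarith
  have hL0 : (0 : ℝ) < lam N := by linarith
  set L := lam N with hLdef
  have hs0 : 0 < Real.sqrt L := Real.sqrt_pos.2 hL0
  have hs : (32 : ℝ) ≤ Real.sqrt L := by
    rw [show (32 : ℝ) = Real.sqrt 1024 by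
      rw [show (1024 : ℝ) = 32 ^ 2 by norm_num, Real.sqrt_sq (by norm_num)]]
    exact Real.sqrt_le_sqrt hL
  have hss : Real.sqrt L * Real.sqrt L = L := Real.mul_self_sqrt hL0.le
  have hd0 : 0 < 1 / Real.sqrt L := by positivity
  have hd : 1 / Real.sqrt L ≤ 1 / 32 := one_div_le_one_div_of_le (by norm_num) hs
  -- facts at the points of the box
  have key : ∀ y : ℝ × ℝ, |y.1 - x.1| ≤ 1 / Real.sqrt L → |y.2 - x.2| ≤ 1 / Real.sqrt L →
      y ∉ Lat ∧ |om0 K v y| ≤ 1024 * C / L := by
    intro y h1 h2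
    have h1' := abs_le.1 (h1.trans hd)
    have h2' := abs_le.1 (h2.trans hd)
    have hx1' := abs_le.1 hx1
    have hx2' := abs_le.1 hx2
    have hn : (1 : ℝ) / 1024 ≤ nsq y := by
      unfold nsq
      rcases hx with hx | hx
      · rcases le_abs.1 hx with hx | hx
        · nlinarith [sq_nonneg y.2]
        · nlinarith [sq_nonneg y.2]
      · rcases le_abs.1 hx with hx | hx
        · nlinarith [sq_nonneg y.1]
        · nlinarith [sq_nonneg y.1]
    have hy0 : y ≠ 0 := by
      rintro rfl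
      unfold nsq at hn
      norm_num at hn
    have hyQ : y ∈ Q := by
      unfold Q
      exact ⟨⟨by linarith, by linarith⟩, ⟨by linarith, by linarith⟩⟩
    have hyL : y ∉ Lat := by
      rintro ⟨m, n, rfl⟩
      have m1 : (m : ℝ) < 1 := by
        have := h1'.2
        simp only at this
        linarith
      have m2 : (-1 : ℝ) < m := by
        have := h1'.1
        simp only at this
        linarith
      have n1 : (n : ℝ) < 1 := by
        have := h2'.2
        simp only at this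
        linarith
      have n2 : (-1 : ℝ) < n := by
        have := h2'.1
        simp only at this
        linarith
      have m1' : m < 1 := by exact_mod_cast m1
      have m2' : -1 < m := by exact_mod_cast m2
      have n1' : n < 1 := by exact_mod_cast n1
      have n2' : -1 < n := by exact_mod_cast n2
      have hm : m = 0 := by omega
      have hn' : n = 0 := by omega
      apply hy0
      rw [hm, hn']
      ext <;> simp
    refine ⟨hyL, ?_⟩
    have g1 := ha y hyL
    have g2 := hb' y hyQ hy0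
    have g3 : C / (L * nsq y) ≤ 1024 * C / L := by
      have g4 : 0 < nsq y := by linarith
      rw [div_le_div_iff₀ (by positivity) hL0]
      have g5 : 1 ≤ 1024 * nsq y := by linarith
      have g6 : 0 < C * L := by positivity
      nlinarith
    rw [abs_of_nonpos g1]
    linarith
  have hpos : ∀ y : ℝ × ℝ, y ∉ Lat → K y ≠ 0 := fun y hy h => hy ((hG.zero_iff y).1 h)
  have hV : IsOpen {y : ℝ × ℝ | K y ≠ 0} := isOpen_ne_fun hG.smoothK.continuous continuous_const
  have hsm : ContDiffOn ℝ 2 (om0 K v) {y : ℝ × ℝ | K y ≠ 0} := by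
    have e1 : ContDiffOn ℝ 2 (fun y => Real.log (K y)) {y : ℝ × ℝ | K y ≠ 0} :=
      ((hG.smoothK.of_le (by norm_cast)).contDiffOn).log (fun y hy => hy)
    exact e1.add (hv.smooth.of_le (by norm_cast)).contDiffOn
  have main := tool_grad (f := om0 K v) (a := x) (d := 1 / Real.sqrt L) (M := 1024 * C / L)
    (K := 1024 * C) hd0 hV (fun y hy => hpos y (key y hy.1 hy.2).1) hsm
    (fun y h1 h2 => (key y h1 h2).2)
    (fun y h1 h2 => by
      obtain ⟨k1, k2⟩ := key y h1 h2
      rw [cgrad_lap hG hv k1, ← hLdef]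
      have k3 := ha y k1
      have k4 := Real.add_one_le_exp (om0 K v y)
      have k5 : Real.exp (om0 K v y) ≤ 1 := Real.exp_le_one_iff.2 k3
      rw [abs_of_nonpos k3] at k2
      rw [abs_mul, abs_of_pos hL0, abs_of_nonpos (by linarith)]
      have k6 : -(Real.exp (om0 K v y) - 1) ≤ 1024 * C / L := by linarith
      calc L * -(Real.exp (om0 K v y) - 1) ≤ L * (1024 * C / L) :=
            mul_le_mul_of_nonneg_left k6 hL0.le
        _ = 1024 * C := by field_simp)
  have hfin : 2 * (1024 * C / L) / (1 / Real.sqrt L) + 1024 * C * (1 / Real.sqrt L) / 2 =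
      2560 * C / Real.sqrt L := by
    have q1 : 1024 * C / L = 1024 * C / (Real.sqrt L * Real.sqrt L) := by rw [hss]
    rw [q1]
    field_simp
    ring
  rw [hfin] at main
  exact main

end Pool.Agent.AO
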