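import Pool.Agent.Lib.MP_10e52e_an.Green
import Pool.Agent.Lib.MP_10e52e_an.Cbd
import Pool.Agent.Lib.MP_10e52e_an.Cgrad
import Pool.Agent.Lib.MP_10e52e_an.Calc
import Pool.Agent.Lib.MP_10e52e_an.Symm

/-! MP_10e52e_an row Cmono: L5.4 unimodality -/

namespace Pool.Agent.AO

open MeasureTheory Set Real Filter Topology
open scoped ContDiff

theorem cmono_int {x : ℝ × ℝ} (h1 : |x.1| < 1) (h2 : |x.2| < 1) (h0 : x ≠ 0) : x ∉ Lat := by
  rintro ⟨m, n, rfl⟩
  simp only at h1 h2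
  have a1 : |m| < 1 := by exact_mod_cast h1
  have a2 : |n| < 1 := by exact_mod_cast h2
  have hm : m = 0 := Int.abs_lt_one_iff.1 a1
  have hn : n = 0 := Int.abs_lt_one_iff.1 a2
  apply h0
  rw [hm, hn]
  ext <;> simp

theorem cmono_open {K R : ℝ × ℝ → ℝ} (hG : IsGreen K R) : IsOpen {y : ℝ × ℝ | y ∉ Lat} := by
  have e : {y : ℝ × ℝ | y ∉ Lat} = {y : ℝ × ℝ | K y ≠ 0} := by
    ext y
    exact not_congr (hG.zero_iff y).symm
  rw [e]
  exact isOpen_ne_fun hG.smoothK.continuous continuous_const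

theorem cmono_smooth {K R : ℝ × ℝ → ℝ} (hG : IsGreen K R) {Cb : ℝ} {N : ℕ}
    {v : ℝ × ℝ → ℝ} (hv : IsComp K Cb N v) {x : ℝ × ℝ} (hx : x ∉ Lat) :
    ContDiffAt ℝ ∞ (om0 K v) x := by
  have hK : K x ≠ 0 := fun h => hx ((hG.zero_iff x).1 h)
  exact (hG.smoothK.contDiffAt.log hK).add hv.smooth.contDiffAt

theorem cmono_per {K R : ℝ × ℝ → ℝ} (hG : IsGreen K R) {Cb : ℝ} {N : ℕ}
    {v : ℝ × ℝ → ℝ} (hv : IsComp K Cb N v) : Per (om0 K v) :=
  hG.per.log.add hv.per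

theorem cmono_r1 {K R : ℝ × ℝ → ℝ} (hG : IsGreen K R) {Cb : ℝ} {N : ℕ}
    {v : ℝ × ℝ → ℝ} (hv : IsComp K Cb N v) (x : ℝ × ℝ) :
    D1 (om0 K v) x = - D1 (om0 K v) (-x.1, x.2) := by
  have e : (fun y : ℝ × ℝ => om0 K v (-y.1, y.2)) = om0 K v := by
    funext y
    unfold om0
    rw [hG.refl1, hv.refl1]
  have h := D1_refl1 (f := om0 K v) (x := x)
  rw [e] at h
  exact h

theorem cmono_sw {K R : ℝ × ℝ → ℝ} (hG : IsGreen K R) {Cb : ℝ} {N : ℕ}
    {v : ℝ × ℝ → ℝ} (hv : IsComp K Cb N v) (x : ℝ × ℝ) :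
    D2 (om0 K v) x = D1 (om0 K v) (x.2, x.1) := by
  have e : (fun y : ℝ × ℝ => om0 K v (y.2, y.1)) = om0 K v := by
    funext y
    unfold om0
    rw [hG.swap, hv.swap]
  have h := D2_swap (f := om0 K v) (x := x)
  rw [e] at h
  exact h

/-- `D1 om0 = 2 x1/|x|^2 + D1 v - 4 pi D1 R` near 0 -/
theorem cmono_near {K R : ℝ × ℝ → ℝ} (hG : IsGreen K R) {Cb : ℝ} {N : ℕ}
    {v : ℝ × ℝ → ℝ} (hv : IsComp K Cb N v) {x : ℝ × ℝ} (hx : x ∈ Box 1) (h0 : x ≠ 0) :
    D1 (om0 K v) x = 2 * (x.1 / nsq x) + (D1 v x - 4 * π * D1 R x) := by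
  have hxL : x ∉ Lat := cmono_int hx.1 hx.2 h0
  have hK : K x ≠ 0 := fun h => hxL ((hG.zero_iff x).1 h)
  obtain ⟨-, h1, -⟩ := green_near hG x hx h0
  have hlog : DifferentiableAt ℝ (fun y => Real.log (K y)) x :=
    ((hG.smoothK.contDiffAt).log hK).differentiableAt (by simp)
  have hvd : DifferentiableAt ℝ v x := (hv.smooth.contDiffAt).differentiableAt (by simp)
  have h2 : D1 (om0 K v) x = D1 (fun y => Real.log (K y)) x + D1 v x := D1_add hlog hvd
  have h3 : D1 (Gf K) x = -(1 / (4 * π)) * D1 (fun y => Real.log (K y)) x :=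
    D1_const_mul hlog _
  rw [h1] at h3
  have hpi : π ≠ 0 := Real.pi_ne_zero
  have h4 : D1 (fun y => Real.log (K y)) x = 2 * (x.1 / nsq x) - 4 * π * D1 R x := by
    have h5 : (4 * π) * (1 / (4 * π)) = 1 := by field_simp
    have h6 : (4 * π) * (1 / (2 * π)) = 2 := by field_simp; norm_num
    linear_combination (-(D1 (fun y => Real.log (K y)) x)) * h5 + (x.1 / nsq x) * h6 +
      (4 * π) * h3
  rw [h2, h4]
  ring

/-- the regular part is odd and `C^1`, so at least `-C x1` -/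
theorem cmono_reg {K R : ℝ × ℝ → ℝ} (hG : IsGreen K R) {Cb : ℝ} {N : ℕ}
    {v : ℝ × ℝ → ℝ} (hv : IsComp K Cb N v) :
    ∃ C : ℝ, 0 < C ∧ ∀ x : ℝ × ℝ, |x.1| ≤ 1 / 2 → |x.2| ≤ 1 / 2 → 0 ≤ x.1 →
      -(C * x.1) ≤ D1 v x - 4 * π * D1 R x := by
  have hBo : IsOpen (Box 1) := gls_isOpen_Box 1
  set q : ℝ × ℝ → ℝ := fun y => v y - 4 * π * R y with hq
  have hqs : ContDiffOn ℝ ∞ q (Box 1) := hv.smooth.contDiffOn.sub (contDiffOn_const.mul hG.smoothR)
  have hRd : ∀ y ∈ Box 1, DifferentiableAt ℝ R y := fun y hy =>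
    (hG.smoothR.contDiffAt (hBo.mem_nhds hy)).differentiableAt (by simp)
  have hD : ∀ y ∈ Box 1, D1 q y = D1 v y - 4 * π * D1 R y := by
    intro y hy
    have hvd : DifferentiableAt ℝ v y := (hv.smooth.contDiffAt).differentiableAt (by simp)
    have h1 : D1 q y = D1 v y - D1 (fun z => 4 * π * R z) y :=
      D1_sub hvd ((hRd y hy).const_mul _)
    rw [h1, D1_const_mul (hRd y hy)]
  -- q is even in the first variable
  have hqe : ∀ y ∈ Box 1, q (-y.1, y.2) = q y := by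
    intro y hy
    have h1 := (green_Rsymm hG y hy).1
    simp only [hq]
    rw [hv.refl1, h1]
  have hodd : ∀ t : ℝ, |t| < 1 → D1 q (0, t) = 0 := by
    intro t ht
    have hm : ((0 : ℝ), t) ∈ Box 1 := ⟨by simp, ht⟩
    have hev : (fun y : ℝ × ℝ => q (-y.1, y.2)) =ᶠ[𝓝 ((0 : ℝ), t)] q := by
      filter_upwards [hBo.mem_nhds hm] with y hy using hqe y hy
    have h1 := D1_congr hev
    rw [D1_refl1] at h1
    simp only [neg_zero] at h1
    linarith
  -- the Lipschitz constant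
  have hd1 : ContDiffOn ℝ 1 (D1 q) (Box 1) := by
    intro y hy
    have h2 : ContDiffAt ℝ 2 q y := (hqs.contDiffAt (hBo.mem_nhds hy)).of_le (by norm_cast)
    exact (contDiffAt_D1_one h2).contDiffWithinAt
  have hsub : Metric.closedBall (0 : ℝ × ℝ) (1 / 2) ⊆ Box 1 := by
    intro x hx
    rw [mem_closedBall_zero_iff, Prod.norm_def] at hx
    have h1 := (le_max_left _ _).trans hx
    have h2 := (le_max_right _ _).trans hx
    rw [Real.norm_eq_abs] at h1 h2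
    exact ⟨by linarith, by linarith⟩
  have hc : ContinuousOn (fderiv ℝ (D1 q)) (Metric.closedBall (0 : ℝ × ℝ) (1 / 2)) :=
    (hd1.continuousOn_fderiv_of_isOpen hBo le_rfl).mono hsub
  obtain ⟨M, hM⟩ := (isCompact_closedBall (0 : ℝ × ℝ) (1 / 2)).exists_bound_of_continuousOn hc
  refine ⟨|M| + 1, by positivity, fun x h1 h2 h3 => ?_⟩
  have hx1 : x ∈ Metric.closedBall (0 : ℝ × ℝ) (1 / 2) := by
    rw [mem_closedBall_zero_iff, Prod.norm_def, Real.norm_eq_abs, Real.norm_eq_abs]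
    exact max_le h1 h2
  have hx2 : ((0 : ℝ), x.2) ∈ Metric.closedBall (0 : ℝ × ℝ) (1 / 2) := by
    rw [mem_closedBall_zero_iff, Prod.norm_def, Real.norm_eq_abs, Real.norm_eq_abs]
    exact max_le (by norm_num) h2
  have h := (convex_closedBall (0 : ℝ × ℝ) (1 / 2)).norm_image_sub_le_of_norm_fderiv_le (𝕜 := ℝ)
    (f := D1 q) (C := |M|) (fun y hy => (hd1.contDiffAt (hBo.mem_nhds (hsub hy))).differentiableAt
      (by norm_num)) (fun y hy => (hM y hy).trans (le_abs_self M)) hx2 hx1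
  rw [hodd x.2 (by linarith), sub_zero, Real.norm_eq_abs] at h
  have h4 : ‖x - ((0 : ℝ), x.2)‖ = x.1 := by
    rw [Prod.norm_def]
    simpa using h3
  rw [h4, hD x (hsub hx1)] at h
  have h5 := (abs_le.1 h).1
  nlinarith

theorem cmono_lap {K R : ℝ × ℝ → ℝ} (hG : IsGreen K R) {Cb : ℝ} {N : ℕ}
    {v : ℝ × ℝ → ℝ} (hv : IsComp K Cb N v) {x : ℝ × ℝ} (hx : x ∉ Lat) :
    Lap (D1 (om0 K v)) x = lam N * Real.exp (om0 K v x) * D1 (om0 K v) x := by
  have hs := cmono_smooth hG hv hx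
  have h3 : ContDiffAt ℝ 3 (om0 K v) x := hs.of_le (by norm_cast)
  have hev : Lap (om0 K v) =ᶠ[𝓝 x] fun y => lam N * (Real.exp (om0 K v y) - 1) := by
    filter_upwards [(cmono_open hG).mem_nhds hx] with y hy using cgrad_lap hG hv hy
  have hd : DifferentiableAt ℝ (om0 K v) x := hs.differentiableAt (by simp)
  have he : DifferentiableAt ℝ (fun y => Real.exp (om0 K v y)) x := hd.exp
  have h1 : DifferentiableAt ℝ (fun y => Real.exp (om0 K v y) - 1) x := he.sub_const 1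
  rw [Lap_D1 h3, D1_congr hev, D1_const_mul h1]
  have h2 : D1 (fun y => Real.exp (om0 K v y) - 1) x
      = D1 (fun y => Real.exp (om0 K v y)) x - D1 (fun _ => (1 : ℝ)) x :=
    D1_sub he (differentiableAt_const _)
  rw [h2, D1_const, D1_exp hd]
  ring

/-- the main step -/
theorem cmono_strip {K R : ℝ × ℝ → ℝ} (hG : IsGreen K R) {Cb : ℝ} {N : ℕ}
    (hN : 3 ≤ N) {v : ℝ × ℝ → ℝ} (hv : IsComp K Cb N v) :
    ∀ x : ℝ × ℝ, x ∉ Lat → 0 ≤ x.1 → x.1 ≤ 1 / 2 → 0 ≤ D1 (om0 K v) x := by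
  set f := D1 (om0 K v) with hf
  have hper : Per f := (cmono_per hG hv).D1
  have hlam : 0 < lam N := Cbd_lam_pos hN
  obtain ⟨C, hC, hreg⟩ := cmono_reg hG hv
  -- near 0
  have hn : ∀ x : ℝ × ℝ, |x.1| ≤ 1 / 2 → |x.2| ≤ 1 / 2 → 0 ≤ x.1 → x ≠ 0 → nsq x < 1 / C →
      0 ≤ f x := by
    intro x h1 h2 h3 h4 h5
    have hq := hreg x h1 h2 h3
    have hx : x ∈ Box 1 := ⟨by linarith, by linarith⟩
    have hp : 0 < nsq x := gls_nsq_pos h4
    rw [hf, cmono_near hG hv hx h4]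
    have h6 : C ≤ 1 / nsq x := by
      rw [le_div_iff₀ hp]
      rw [lt_div_iff₀ hC] at h5
      linarith
    have h7 : C * x.1 ≤ x.1 / nsq x := by
      calc C * x.1 ≤ 1 / nsq x * x.1 := mul_le_mul_of_nonneg_right h6 h3
        _ = x.1 / nsq x := by ring
    have h8 : 0 ≤ x.1 / nsq x := div_nonneg h3 hp.le
    linarith
  -- the boundary values
  have hb0 : ∀ t : ℝ, f (0, t) = 0 := by
    intro t
    have h := cmono_r1 hG hv ((0 : ℝ), t)
    simp only [neg_zero] at h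
    rw [hf]
    linarith
  have hb1 : ∀ t : ℝ, f (1 / 2, t) = 0 := by
    intro t
    have h := cmono_r1 hG hv ((1 / 2 : ℝ), t)
    simp only at h
    have h2 := (hper (-(1 / 2 : ℝ), t)).1
    simp only at h2
    have h3 : (-(1 / 2 : ℝ) + 1) = 1 / 2 := by norm_num
    rw [h3] at h2
    rw [← hf] at h
    linarith
  -- the compact set
  set S : Set (ℝ × ℝ) := (Icc (0 : ℝ) (1 / 2) ×ˢ Icc (-1 / 2 : ℝ) (1 / 2)) ∩
    {x | 1 / C ≤ nsq x} with hS
  have hScpt : IsCompact S := by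
    have h1 : IsCompact (Icc (0 : ℝ) (1 / 2) ×ˢ Icc (-1 / 2 : ℝ) (1 / 2)) :=
      isCompact_Icc.prod isCompact_Icc
    exact h1.inter_right (isClosed_le continuous_const gls_nsq_smooth.continuous)
  have hSL : ∀ x ∈ S, x ∉ Lat := by
    intro x hx
    obtain ⟨⟨h1, h2⟩, h3⟩ := hx
    refine cmono_int ?_ ?_ ?_
    · rw [abs_lt]; exact ⟨by linarith [h1.1], by linarith [h1.2]⟩
    · rw [abs_lt]; exact ⟨by linarith [h2.1], by linarith [h2.2]⟩
    · rintro rfl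
      have h4 : (0 : ℝ) < 1 / C := by positivity
      have h5 : nsq (0 : ℝ × ℝ) = 0 := by simp [nsq]
      have h6 : 1 / C ≤ nsq (0 : ℝ × ℝ) := h3
      linarith
  have hcont : ContinuousOn f S := by
    intro x hx
    have h1 : ContDiffAt ℝ 2 (om0 K v) x := (cmono_smooth hG hv (hSL x hx)).of_le (by norm_cast)
    exact (contDiffAt_D1_one h1).continuousAt.continuousWithinAt
  -- all values on the strip reduce to the cell
  have hred : ∀ x : ℝ × ℝ, x ∉ Lat → 0 ≤ x.1 → x.1 ≤ 1 / 2 →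
      0 ≤ f x ∨ ∃ y ∈ S, f y = f x := by
    intro x hx h1 h2
    obtain ⟨n, hn', -⟩ := existsUnique_add_zsmul_mem_Ioc (zero_lt_one : (0:ℝ) < 1) x.2 (-1/2)
    simp only [zsmul_eq_mul, mul_one, mem_Ioc] at hn'
    have e1 : f (x.1, x.2 + n) = f x := by
      have := Cbd_add_int hper 0 n x
      simpa using this
    have hy0 : ((x.1, x.2 + n) : ℝ × ℝ) ≠ 0 := by
      intro h
      apply hx
      have a1 : x.1 = 0 := congrArg Prod.fst h
      have a2 : x.2 + n = 0 := congrArg Prod.snd h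
      refine ⟨0, -n, ?_⟩
      ext
      · simp [a1]
      · push_cast
        linarith
    have k1 : |x.1| ≤ 1 / 2 := by rw [abs_le]; exact ⟨by linarith, h2⟩
    have k2 : |x.2 + n| ≤ 1 / 2 := by rw [abs_le]; exact ⟨by linarith [hn'.1], by linarith [hn'.2]⟩
    by_cases hc : nsq (x.1, x.2 + n) < 1 / C
    · left
      rw [← e1]
      exact hn _ k1 k2 h1 hy0 hc
    · right
      refine ⟨(x.1, x.2 + n), ⟨⟨⟨h1, h2⟩, ⟨hn'.1.le, by linarith [hn'.2]⟩⟩, not_lt.1 hc⟩, e1⟩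
  by_contra hcon
  push Not at hcon
  obtain ⟨x0, hx0L, h1, h2, hneg⟩ := hcon
  rcases hred x0 hx0L h1 h2 with h3 | ⟨y0, hy0, hy0e⟩
  · linarith
  obtain ⟨z, hz, hzm⟩ := hScpt.exists_isMinOn ⟨y0, hy0⟩ hcont
  have hz0 : f z ≤ f y0 := hzm hy0
  have hzneg : f z < 0 := by rw [hy0e] at hz0; linarith
  have hzL := hSL z hz
  have hz1 : 0 < z.1 := by
    rcases lt_or_eq_of_le hz.1.1.1 with h | h
    · exact h
    · exfalso
      have := hb0 z.2
      have e : ((0 : ℝ), z.2) = z := Prod.ext h rfl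
      rw [e] at this
      linarith
  have hz2 : z.1 < 1 / 2 := by
    rcases lt_or_eq_of_le hz.1.1.2 with h | h
    · exact h
    · exfalso
      have := hb1 z.2
      have e : ((1 / 2 : ℝ), z.2) = z := Prod.ext h.symm rfl
      rw [e] at this
      linarith
  have hloc : IsLocalMin f z := by
    have o1 : IsOpen {y : ℝ × ℝ | 0 < y.1 ∧ y.1 < 1 / 2} :=
      (isOpen_lt continuous_const continuous_fst).inter (isOpen_lt continuous_fst continuous_const)
    filter_upwards [o1.mem_nhds ⟨hz1, hz2⟩, (cmono_open hG).mem_nhds hzL] with y hy hyL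
    rcases hred y hyL hy.1.le hy.2.le with h3 | ⟨y1, hy1, hy1e⟩
    · linarith
    · rw [← hy1e]
      exact hzm hy1
  have hs := cmono_smooth hG hv hzL
  have hs2 : ContDiffAt ℝ 2 f z := by
    have h3 : ContDiffAt ℝ ((2:ℕ) + 1) (om0 K v) z := by
      refine hs.of_le ?_
      norm_cast
    exact contDiffAt_D1 h3
  have hL := tool_min hs2 hloc
  rw [hf, cmono_lap hG hv hzL, ← hf] at hL
  have hpos : 0 < lam N * Real.exp (om0 K v z) := mul_pos hlam (Real.exp_pos _)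
  nlinarith

/-- L5.4 -/
theorem comp_mono {K R : ℝ × ℝ → ℝ} (hG : IsGreen K R) {Cb : ℝ} (hCb : 0 < Cb) {N : ℕ}
    (hN : 3 ≤ N) {v : ℝ × ℝ → ℝ} (hv : IsComp K Cb N v) :
    ∀ x ∈ Q, x ≠ 0 → 0 ≤ x.1 * D1 (om0 K v) x ∧ 0 ≤ x.2 * D2 (om0 K v) x := by
  have key : ∀ x : ℝ × ℝ, |x.1| ≤ 1 / 2 → |x.2| ≤ 1 / 2 → x ≠ 0 → 0 ≤ x.1 * D1 (om0 K v) x := by
    intro x h1 h2 h0
    have h1' := abs_le.1 h1
    rcases le_total 0 x.1 with h | h
    · exact mul_nonneg h (cmono_strip hG hN hv x (cmono_int (by linarith) (by linarith) h0) h h1'.2)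
    · have h3 : ((-x.1, x.2) : ℝ × ℝ) ≠ 0 := by
        intro h4
        apply h0
        have a1 : -x.1 = 0 := congrArg Prod.fst h4
        have a2 : x.2 = 0 := congrArg Prod.snd h4
        exact Prod.ext (by simpa using a1) a2
      have h5 := cmono_strip hG hN hv (-x.1, x.2)
        (cmono_int (by simpa using lt_of_le_of_lt h1 (by norm_num))
          (lt_of_le_of_lt h2 (by norm_num)) h3)
        (by simpa using h) (by simpa using by linarith [h1'.1])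
      rw [cmono_r1 hG hv x]
      nlinarith
  intro x hx h0
  have q1 : |x.1| ≤ 1 / 2 := by
    rw [abs_le]; exact ⟨by linarith [hx.1.1], hx.1.2⟩
  have q2 : |x.2| ≤ 1 / 2 := by
    rw [abs_le]; exact ⟨by linarith [hx.2.1], hx.2.2⟩
  refine ⟨key x q1 q2 h0, ?_⟩
  rw [cmono_sw hG hv x]
  have h3 : ((x.2, x.1) : ℝ × ℝ) ≠ 0 := by
    intro h4
    apply h0
    have a1 : x.2 = 0 := congrArg Prod.fst h4
    have a2 : x.1 = 0 := congrArg Prod.snd h4
    exact Prod.ext a2 a1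
  exact key (x.2, x.1) q2 q1 h3

end Pool.Agent.AO
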