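import Pool.Agent.Lib.MP_10e52e_an.Green
import Pool.Agent.Lib.MP_10e52e_an.Symm

/-! MP_10e52e_an row Csub: subsolution of L5.1 -/

namespace Pool.Agent.AO

open MeasureTheory Set Real
open scoped ContDiff

theorem comp_sub_nsq_D1 (x : ℝ × ℝ) : D1 nsq x = 2 * x.1 := by
  have h1 : DifferentiableAt ℝ (fun y : ℝ × ℝ => y.1 ^ 2) x := by fun_prop
  have h2 : DifferentiableAt ℝ (fun y : ℝ × ℝ => y.2 ^ 2) x := by fun_prop
  show D1 (fun y : ℝ × ℝ => y.1 ^ 2 + y.2 ^ 2) x = _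
  rw [D1_add h1 h2, D1_comp_fst (φ := fun t => t ^ 2) (hasDerivAt_pow 2 x.1),
    D1_comp_snd (φ := fun t => t ^ 2) (hasDerivAt_pow 2 x.2)]
  norm_num

theorem comp_sub_nsq_D2 (x : ℝ × ℝ) : D2 nsq x = 2 * x.2 := by
  have h1 : DifferentiableAt ℝ (fun y : ℝ × ℝ => y.1 ^ 2) x := by fun_prop
  have h2 : DifferentiableAt ℝ (fun y : ℝ × ℝ => y.2 ^ 2) x := by fun_prop
  show D2 (fun y : ℝ × ℝ => y.1 ^ 2 + y.2 ^ 2) x = _
  rw [D2_add h1 h2, D2_comp_fst (φ := fun t => t ^ 2) (hasDerivAt_pow 2 x.1),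
    D2_comp_snd (φ := fun t => t ^ 2) (hasDerivAt_pow 2 x.2)]
  norm_num

theorem comp_sub_nsq_Lap (x : ℝ × ℝ) : Lap nsq x = 4 := by
  have h1 : D1 nsq = fun y => 2 * y.1 := funext comp_sub_nsq_D1
  have h2 : D2 nsq = fun y => 2 * y.2 := funext comp_sub_nsq_D2
  unfold Lap
  rw [h1, h2, D1_const_mul (by fun_prop) 2, D2_const_mul (by fun_prop) 2, D1_fst, D2_snd]
  norm_num

theorem comp_sub_isOpen_Box : IsOpen (Box 1) := by
  have h1 : IsOpen {x : ℝ × ℝ | |x.1| < 1} := isOpen_lt (by fun_prop) continuous_const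
  have h2 : IsOpen {x : ℝ × ℝ | |x.2| < 1} := isOpen_lt (by fun_prop) continuous_const
  exact h1.inter h2

theorem comp_sub_smooth_nsq : ContDiff ℝ ∞ nsq := by
  unfold nsq
  fun_prop

/-- the identity on the box -/
theorem comp_sub_key_box {K R : ℝ × ℝ → ℝ} (hG : IsGreen K R) (x : ℝ × ℝ) (hx : x ∈ Box 1) :
    K x * Lap K x - (D1 K x ^ 2 + D2 K x ^ 2) = -(4 * π) * K x ^ 2 := by
  have hnh : Box 1 ∈ nhds x := comp_sub_isOpen_Box.mem_nhds hx
  have hR : ContDiffAt ℝ ∞ R x := hG.smoothR.contDiffAt hnh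
  have hR2 : ContDiffAt ℝ 2 R x := hR.of_le ENat.LEInfty.out
  have hRd : DifferentiableAt ℝ R x := hR2.differentiableAt (by norm_num)
  have hcR : ContDiffAt ℝ 2 (fun y => -(4 * π) * R y) x := contDiffAt_const.mul hR2
  have hcRd : DifferentiableAt ℝ (fun y => -(4 * π) * R y) x := hcR.differentiableAt (by norm_num)
  have hE2 : ContDiffAt ℝ 2 (fun y => Real.exp (-(4 * π) * R y)) x := hcR.exp
  have hEd : DifferentiableAt ℝ (fun y => Real.exp (-(4 * π) * R y)) x :=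
    hE2.differentiableAt (by norm_num)
  have hn2 : ContDiffAt ℝ 2 nsq x :=
    (comp_sub_smooth_nsq.of_le ENat.LEInfty.out).contDiffAt
  have hnd : DifferentiableAt ℝ nsq x := hn2.differentiableAt (by norm_num)
  have hK : K =ᶠ[nhds x] fun y => nsq y * Real.exp (-(4 * π) * R y) := by
    filter_upwards [hnh] with y hy using hG.fac y hy
  have hL : Lap K x = nsq x * Lap (fun y => Real.exp (-(4 * π) * R y)) x +
      2 * (D1 nsq x * D1 (fun y => Real.exp (-(4 * π) * R y)) x +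
        D2 nsq x * D2 (fun y => Real.exp (-(4 * π) * R y)) x) +
      Real.exp (-(4 * π) * R x) * Lap nsq x := by
    rw [Lap_congr hK, Lap_mul hn2 hE2]
  have hD1 : D1 K x = D1 nsq x * Real.exp (-(4 * π) * R x) +
      nsq x * D1 (fun y => Real.exp (-(4 * π) * R y)) x := by
    rw [D1_congr hK, D1_mul hnd hEd]
  have hD2 : D2 K x = D2 nsq x * Real.exp (-(4 * π) * R x) +
      nsq x * D2 (fun y => Real.exp (-(4 * π) * R y)) x := by
    rw [D2_congr hK, D2_mul hnd hEd]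
  rw [hL, hD1, hD2, hG.fac x hx, Lap_exp hcR, D1_exp hcRd, D2_exp hcRd, Lap_const_mul hR2,
    D1_const_mul hRd, D2_const_mul hRd, comp_sub_nsq_D1, comp_sub_nsq_D2, comp_sub_nsq_Lap,
    hG.lapR x hx]
  unfold nsq
  ring

theorem comp_sub_box (x : ℝ × ℝ) : (x.1 - round x.1, x.2 - round x.2) ∈ Box 1 := by
  constructor
  · exact lt_of_le_of_lt (abs_sub_round x.1) (by norm_num)
  · exact lt_of_le_of_lt (abs_sub_round x.2) (by norm_num)

theorem comp_sub_round {f : ℝ × ℝ → ℝ} (hf : Per f) (x : ℝ × ℝ) :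
    f (x.1 - round x.1, x.2 - round x.2) = f x := by
  have h := hf.add_int (-round x.1) (-round x.2) x
  push_cast at h
  rwa [← sub_eq_add_neg, ← sub_eq_add_neg] at h

/-- the identity `K Lap K - |grad K|^2 = -4 pi K^2` -/
theorem comp_sub_key {K R : ℝ × ℝ → ℝ} (hG : IsGreen K R) (x : ℝ × ℝ) :
    K x * Lap K x - (D1 K x ^ 2 + D2 K x ^ 2) = -(4 * π) * K x ^ 2 := by
  have h := comp_sub_key_box hG _ (comp_sub_box x)
  rwa [comp_sub_round hG.per, comp_sub_round hG.per.D1, comp_sub_round hG.per.D2,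
    comp_sub_round hG.per.Lap] at h

theorem comp_sub_bound {f : ℝ × ℝ → ℝ} (hf : Per f) (hc : Continuous f) :
    ∃ M : ℝ, 0 < M ∧ ∀ x, |f x| ≤ M := by
  have hcomp : IsCompact (Icc (-1 : ℝ) 1 ×ˢ Icc (-1 : ℝ) 1) := isCompact_Icc.prod isCompact_Icc
  obtain ⟨C, hC⟩ := hcomp.exists_bound_of_continuousOn hc.continuousOn
  refine ⟨|C| + 1, by positivity, fun x => ?_⟩
  have hm : (x.1 - round x.1, x.2 - round x.2) ∈ Icc (-1 : ℝ) 1 ×ˢ Icc (-1 : ℝ) 1 := by
    have h1 := comp_sub_box x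
    have h2 := abs_lt.1 h1.1
    have h3 := abs_lt.1 h1.2
    exact ⟨⟨h2.1.le, h2.2.le⟩, ⟨h3.1.le, h3.2.le⟩⟩
  have h := hC _ hm
  rw [comp_sub_round hf, Real.norm_eq_abs] at h
  have := le_abs_self C
  linarith

/-- subsolution `-log (K + Cb/L)` -/
theorem comp_sub {K R : ℝ × ℝ → ℝ} (hG : IsGreen K R) : ∃ Cb : ℝ, 0 < Cb ∧ ∃ L0 : ℝ, 0 < L0 ∧
    ∀ L, L0 ≤ L → ContDiff ℝ ∞ (fun x => -Real.log (K x + Cb / L)) ∧
      Per (fun x => -Real.log (K x + Cb / L)) ∧
      ∀ x, L * (K x * Real.exp (-Real.log (K x + Cb / L)) - 1) + 4 * π ≤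
        Lap (fun x => -Real.log (K x + Cb / L)) x := by
  obtain ⟨M, hM, hMb⟩ := comp_sub_bound hG.per.Lap (contDiff_Lap_infty hG.smoothK).continuous
  refine ⟨2 * M, by positivity, 8 * π, by positivity, fun L hL => ?_⟩
  have hpi := Real.pi_pos
  have hL0 : 0 < L := lt_of_lt_of_le (by positivity) hL
  have hb : 0 < 2 * M / L := by positivity
  have hpos : ∀ x, 0 < K x + 2 * M / L := fun x => add_pos_of_nonneg_of_pos (hG.nonneg x) hb
  have hsm : ContDiff ℝ ∞ (fun x => K x + 2 * M / L) := hG.smoothK.add contDiff_const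
  refine ⟨(hsm.log fun x => (hpos x).ne').neg, ?_, fun x => ?_⟩
  · exact hG.per.comp (fun t => -Real.log (t + 2 * M / L))
  · have hK2 : ContDiffAt ℝ 2 K x :=
      (hG.smoothK.of_le ENat.LEInfty.out).contDiffAt
    have hKd : DifferentiableAt ℝ K x := hK2.differentiableAt (by norm_num)
    have hs2 : ContDiffAt ℝ 2 (fun x => K x + 2 * M / L) x := hK2.add contDiffAt_const
    have e1 : D1 (fun x => K x + 2 * M / L) x = D1 K x := by
      rw [D1_add hKd (differentiableAt_const _), D1_const, add_zero]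
    have e2 : D2 (fun x => K x + 2 * M / L) x = D2 K x := by
      rw [D2_add hKd (differentiableAt_const _), D2_const, add_zero]
    have e3 : Lap (fun x => K x + 2 * M / L) x = Lap K x := by
      rw [Lap_add hK2 contDiffAt_const, Lap_const, add_zero]
    rw [Lap_neg, Lap_log hs2 (hpos x).ne', e1, e2, e3, Real.exp_neg, Real.exp_log (hpos x)]
    have hkey := comp_sub_key hG x
    have hb2 : L * (2 * M / L) = 2 * M := by field_simp
    have hp := hpos x
    have hk := hG.nonneg x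
    have hMx := (abs_le.1 (hMb x)).2
    set b : ℝ := 2 * M / L with hbdef
    set k : ℝ := K x with hkdef
    set l : ℝ := Lap K x with hldef
    set g : ℝ := D1 K x ^ 2 + D2 K x ^ 2 with hgdef
    have hg : g = k * l + 4 * π * k ^ 2 := by linarith
    have h1 : L * (k * (k + b)⁻¹ - 1) + 4 * π =
        (-(2 * M) * (k + b) + 4 * π * (k + b) ^ 2) / (k + b) ^ 2 := by
      rw [← hb2]
      field_simp
      ring
    have h2 : -(l / (k + b) - g / (k + b) ^ 2) = (4 * π * k ^ 2 - b * l) / (k + b) ^ 2 := by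
      rw [hg]
      field_simp
      ring
    rw [h1, h2]
    apply div_le_div_of_nonneg_right _ (by positivity)
    have hbl : 8 * π * b ≤ 2 * M := by
      calc 8 * π * b ≤ L * b := mul_le_mul_of_nonneg_right hL hb.le
        _ = 2 * M := hb2
    have h4 : 8 * π * k * b ≤ 2 * M * k := by nlinarith
    have h5 : b * l ≤ b * M := mul_le_mul_of_nonneg_left hMx hb.le
    have h6 : 4 * π * b * b ≤ M * b := by nlinarith
    nlinarith

end Pool.Agent.AO
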