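import Pool.Agent.Lib.MP_10e52e_an.Green
import Pool.Agent.Lib.MP_10e52e_an.Symm

/-! MP_10e52e_an row Csup: supersolution of L5.1 -/

namespace Pool.Agent.AO

open MeasureTheory Set Real
open scoped ContDiff

theorem comp_sup_cos_hasDeriv (t : ℝ) :
    HasDerivAt (fun s => Real.cos (2 * π * s)) (-(2 * π) * Real.sin (2 * π * t)) t := by
  have h : HasDerivAt (fun s => 2 * π * s) (2 * π) t := by
    simpa using (hasDerivAt_id t).const_mul (2 * π)
  have h2 := h.cos
  convert h2 using 1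
  ring

theorem comp_sup_sin_hasDeriv (t : ℝ) :
    HasDerivAt (fun s => -(2 * π) * Real.sin (2 * π * s))
      (-(4 * π ^ 2) * Real.cos (2 * π * t)) t := by
  have h : HasDerivAt (fun s => 2 * π * s) (2 * π) t := by
    simpa using (hasDerivAt_id t).const_mul (2 * π)
  have h2 := h.sin.const_mul (-(2 * π))
  have h3 : -(4 * π ^ 2) * Real.cos (2 * π * t) =
      -(2 * π) * (Real.cos (2 * π * t) * (2 * π)) := by ring
  rw [h3]
  exact h2

theorem comp_sup_D1D1 (x : ℝ × ℝ) : D1 (D1 (fun y : ℝ × ℝ => Real.cos (2 * π * y.1))) x =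
    -(4 * π ^ 2) * Real.cos (2 * π * x.1) := by
  have h1 : D1 (fun y : ℝ × ℝ => Real.cos (2 * π * y.1)) =
      fun y => -(2 * π) * Real.sin (2 * π * y.1) := by
    funext y
    exact D1_comp_fst (φ := fun s => Real.cos (2 * π * s)) (comp_sup_cos_hasDeriv y.1)
  rw [h1]
  exact D1_comp_fst (φ := fun s => -(2 * π) * Real.sin (2 * π * s)) (comp_sup_sin_hasDeriv x.1)

theorem comp_sup_D2D2 (x : ℝ × ℝ) : D2 (D2 (fun y : ℝ × ℝ => Real.cos (2 * π * y.1))) x = 0 := by
  have h1 : D2 (fun y : ℝ × ℝ => Real.cos (2 * π * y.1)) = fun _ => 0 := by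
    funext y
    exact D2_comp_fst (φ := fun s => Real.cos (2 * π * s)) (comp_sup_cos_hasDeriv y.1)
  rw [h1, D2_const]

theorem comp_sup_E2D2 (x : ℝ × ℝ) : D2 (D2 (fun y : ℝ × ℝ => Real.cos (2 * π * y.2))) x =
    -(4 * π ^ 2) * Real.cos (2 * π * x.2) := by
  have h1 : D2 (fun y : ℝ × ℝ => Real.cos (2 * π * y.2)) =
      fun y => -(2 * π) * Real.sin (2 * π * y.2) := by
    funext y
    exact D2_comp_snd (φ := fun s => Real.cos (2 * π * s)) (comp_sup_cos_hasDeriv y.2)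
  rw [h1]
  exact D2_comp_snd (φ := fun s => -(2 * π) * Real.sin (2 * π * s)) (comp_sup_sin_hasDeriv x.2)

theorem comp_sup_E1D1 (x : ℝ × ℝ) : D1 (D1 (fun y : ℝ × ℝ => Real.cos (2 * π * y.2))) x = 0 := by
  have h1 : D1 (fun y : ℝ × ℝ => Real.cos (2 * π * y.2)) = fun _ => 0 := by
    funext y
    exact D1_comp_snd (φ := fun s => Real.cos (2 * π * s)) (comp_sup_cos_hasDeriv y.2)
  rw [h1, D1_const]

theorem comp_sup_smooth1 : ContDiff ℝ ∞ (fun y : ℝ × ℝ => Real.cos (2 * π * y.1)) :=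
  Real.contDiff_cos.comp (contDiff_const.mul contDiff_fst)

theorem comp_sup_smooth2 : ContDiff ℝ ∞ (fun y : ℝ × ℝ => Real.cos (2 * π * y.2)) :=
  Real.contDiff_cos.comp (contDiff_const.mul contDiff_snd)

/-- the trigonometric sum -/
noncomputable def comp_sup_s (x : ℝ × ℝ) : ℝ := Real.cos (2 * π * x.1) + Real.cos (2 * π * x.2)

theorem comp_sup_s_smooth : ContDiff ℝ ∞ comp_sup_s := comp_sup_smooth1.add comp_sup_smooth2

theorem comp_sup_s_Lap (x : ℝ × ℝ) : Lap comp_sup_s x = -(4 * π ^ 2) * comp_sup_s x := by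
  have h1 : ContDiffAt ℝ 2 (fun y : ℝ × ℝ => Real.cos (2 * π * y.1)) x :=
    (comp_sup_smooth1.of_le ENat.LEInfty.out).contDiffAt
  have h2 : ContDiffAt ℝ 2 (fun y : ℝ × ℝ => Real.cos (2 * π * y.2)) x :=
    (comp_sup_smooth2.of_le ENat.LEInfty.out).contDiffAt
  show Lap (fun y : ℝ × ℝ => Real.cos (2 * π * y.1) + Real.cos (2 * π * y.2)) x = _
  rw [Lap_add h1 h2]
  unfold Lap comp_sup_s
  rw [comp_sup_D1D1, comp_sup_D2D2, comp_sup_E1D1, comp_sup_E2D2]
  ring

theorem comp_sup_s_per : Per comp_sup_s := by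
  intro x
  unfold comp_sup_s
  constructor
  · show Real.cos (2 * π * (x.1 + 1)) + _ = _
    rw [show 2 * π * (x.1 + 1) = 2 * π * x.1 + 2 * π by ring, Real.cos_add_two_pi]
  · show _ + Real.cos (2 * π * (x.2 + 1)) = _
    rw [show 2 * π * (x.2 + 1) = 2 * π * x.2 + 2 * π by ring, Real.cos_add_two_pi]

theorem comp_sup_s_bd (x : ℝ × ℝ) : -2 ≤ comp_sup_s x ∧ comp_sup_s x ≤ 2 := by
  unfold comp_sup_s
  have h1 := Real.neg_one_le_cos (2 * π * x.1)
  have h2 := Real.neg_one_le_cos (2 * π * x.2)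
  have h3 := Real.cos_le_one (2 * π * x.1)
  have h4 := Real.cos_le_one (2 * π * x.2)
  constructor <;> linarith

theorem comp_sup_s_lat {x : ℝ × ℝ} (hx : x ∈ Lat) : comp_sup_s x = 2 := by
  obtain ⟨m, n, rfl⟩ := hx
  unfold comp_sup_s
  have h1 : Real.cos (2 * π * (m : ℝ)) = 1 := by
    rw [show 2 * π * (m : ℝ) = (m : ℝ) * (2 * π) by ring, Real.cos_int_mul_two_pi]
  have h2 : Real.cos (2 * π * (n : ℝ)) = 1 := by
    rw [show 2 * π * (n : ℝ) = (n : ℝ) * (2 * π) by ring, Real.cos_int_mul_two_pi]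
  show Real.cos (2 * π * (m : ℝ)) + Real.cos (2 * π * (n : ℝ)) = 2
  rw [h1, h2]
  norm_num

theorem comp_sup_round {f : ℝ × ℝ → ℝ} (hf : Per f) (x : ℝ × ℝ) :
    f (x.1 - round x.1, x.2 - round x.2) = f x := by
  have h := hf.add_int (-round x.1) (-round x.2) x
  push_cast at h
  rwa [← sub_eq_add_neg, ← sub_eq_add_neg] at h

theorem comp_sup_low {K R : ℝ × ℝ → ℝ} (hG : IsGreen K R) :
    ∃ c : ℝ, 0 < c ∧ ∀ x, comp_sup_s x ≤ 1 / 2 → c ≤ K x := by
  have hcomp : IsCompact ((Icc (-1 : ℝ) 1 ×ˢ Icc (-1 : ℝ) 1) ∩ {x | comp_sup_s x ≤ 1 / 2}) := by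
    apply (isCompact_Icc.prod isCompact_Icc).inter_right
    exact isClosed_le comp_sup_s_smooth.continuous continuous_const
  have hne : ((Icc (-1 : ℝ) 1 ×ˢ Icc (-1 : ℝ) 1) ∩ {x | comp_sup_s x ≤ 1 / 2}).Nonempty := by
    refine ⟨(1 / 2, 1 / 2), ⟨⟨by norm_num, by norm_num⟩, ⟨by norm_num, by norm_num⟩⟩, ?_⟩
    show Real.cos (2 * π * (1 / 2)) + Real.cos (2 * π * (1 / 2)) ≤ 1 / 2
    rw [show 2 * π * (1 / 2 : ℝ) = π by ring, Real.cos_pi]
    norm_num
  obtain ⟨x0, hx0, hmin⟩ := hcomp.exists_isMinOn hne hG.smoothK.continuous.continuousOn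
  have hpos : 0 < K x0 := by
    rcases lt_or_eq_of_le (hG.nonneg x0) with h | h
    · exact h
    · exfalso
      have hl := (hG.zero_iff x0).1 h.symm
      have h2 := comp_sup_s_lat hl
      have h3 : comp_sup_s x0 ≤ 1 / 2 := hx0.2
      linarith
  refine ⟨K x0, hpos, fun x hx => ?_⟩
  have h1 : (x.1 - round x.1, x.2 - round x.2) ∈
      (Icc (-1 : ℝ) 1 ×ˢ Icc (-1 : ℝ) 1) ∩ {x | comp_sup_s x ≤ 1 / 2} := by
    have a1 := abs_le.1 (abs_sub_round x.1)
    have a2 := abs_le.1 (abs_sub_round x.2)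
    refine ⟨⟨⟨?_, ?_⟩, ⟨?_, ?_⟩⟩, ?_⟩
    · show -1 ≤ x.1 - round x.1
      linarith [a1.1]
    · show x.1 - round x.1 ≤ 1
      linarith [a1.2]
    · show -1 ≤ x.2 - round x.2
      linarith [a2.1]
    · show x.2 - round x.2 ≤ 1
      linarith [a2.2]
    · show comp_sup_s (x.1 - round x.1, x.2 - round x.2) ≤ 1 / 2
      rw [comp_sup_round comp_sup_s_per]
      exact hx
  have h2 : K x0 ≤ K (x.1 - round x.1, x.2 - round x.2) := hmin h1
  rwa [comp_sup_round hG.per] at h2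

/-- supersolution above any bound -/
theorem comp_super {K R : ℝ × ℝ → ℝ} (hG : IsGreen K R) {L : ℝ} (hL : 0 < L) (B : ℝ) :
    ∃ w : ℝ × ℝ → ℝ, ContDiff ℝ ∞ w ∧ Per w ∧ (∀ x, B ≤ w x) ∧
      ∀ x, Lap w x ≤ L * (K x * Real.exp (w x) - 1) + 4 * π := by
  obtain ⟨c, hc, hcK⟩ := comp_sup_low hG
  have hpi := Real.pi_pos
  have hpi3 := Real.pi_gt_three
  set A : ℝ := |B| + |Real.log (5 / c)| + L with hA
  set κ : ℝ := L / (2 * π ^ 2) with hκ
  have hκ0 : 0 < κ := by positivity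
  have hκ1 : 2 * κ ≤ L := by
    rw [hκ, ← mul_div_assoc, div_le_iff₀ (by positivity)]
    have hp2 : 1 ≤ π ^ 2 := by nlinarith
    have hp3 := mul_le_mul_of_nonneg_left hp2 hL.le
    linarith
  have hlow : ∀ x, |B| + |Real.log (5 / c)| ≤ A + κ * comp_sup_s x := by
    intro x
    have h1 := (comp_sup_s_bd x).1
    nlinarith
  refine ⟨fun x => A + κ * comp_sup_s x, contDiff_const.add (contDiff_const.mul comp_sup_s_smooth),
    comp_sup_s_per.comp (fun t => A + κ * t), fun x => ?_, fun x => ?_⟩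
  · have h1 := hlow x
    have h2 := le_abs_self B
    have h3 := abs_nonneg (Real.log (5 / c))
    show B ≤ A + κ * comp_sup_s x
    linarith
  · have hs2 : ContDiffAt ℝ 2 comp_sup_s x :=
      (comp_sup_s_smooth.of_le ENat.LEInfty.out).contDiffAt
    have hLap : Lap (fun x => A + κ * comp_sup_s x) x = -(2 * L) * comp_sup_s x := by
      rw [Lap_add contDiffAt_const (contDiffAt_const.mul hs2), Lap_const, Lap_const_mul hs2,
        comp_sup_s_Lap, hκ]
      field_simp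
      ring
    rw [hLap]
    have hexp := Real.exp_pos (A + κ * comp_sup_s x)
    have hK := hG.nonneg x
    rcases le_or_gt (comp_sup_s x) (1 / 2) with hs | hs
    · have h1 := hcK x hs
      have h2 : Real.log (5 / c) ≤ A + κ * comp_sup_s x := by
        have h3 := hlow x
        have h4 := le_abs_self (Real.log (5 / c))
        have h5 := abs_nonneg B
        linarith
      have h3 : 5 / c ≤ Real.exp (A + κ * comp_sup_s x) := by
        rw [← Real.exp_log (show (0 : ℝ) < 5 / c by positivity)]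
        exact Real.exp_le_exp.2 h2
      have h4 : 5 ≤ K x * Real.exp (A + κ * comp_sup_s x) := by
        calc (5 : ℝ) = c * (5 / c) := by field_simp
          _ ≤ K x * Real.exp (A + κ * comp_sup_s x) := by
            apply mul_le_mul h1 h3 (by positivity) hK
      have h5 := (comp_sup_s_bd x).1
      have h6 : -(2 * L) * comp_sup_s x ≤ 4 * L := by nlinarith
      have h7 : L * 4 ≤ L * (K x * Real.exp (A + κ * comp_sup_s x) - 1) := by
        apply mul_le_mul_of_nonneg_left _ hL.le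
        linarith
      show -(2 * L) * comp_sup_s x ≤ L * (K x * Real.exp (A + κ * comp_sup_s x) - 1) + 4 * π
      linarith
    · have h1 : -(2 * L) * comp_sup_s x ≤ -L := by nlinarith
      have h2 : 0 ≤ L * (K x * Real.exp (A + κ * comp_sup_s x)) := by positivity
      show -(2 * L) * comp_sup_s x ≤ L * (K x * Real.exp (A + κ * comp_sup_s x) - 1) + 4 * π
      nlinarith

end Pool.Agent.AO
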