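import Pool.Agent.Lib.MP_10e52e_an.Green
import Pool.Agent.Lib.MP_10e52e_an.Csub
import Pool.Agent.Lib.MP_10e52e_an.Csup
import Pool.Agent.Lib.MP_10e52e_an.Cbet
import Pool.Agent.Lib.MP_10e52e_an.Symm

/-! MP_10e52e_an row Cuni: L5.2 + assembly of L5.1 -/

namespace Pool.Agent.AO

open MeasureTheory Set Real
open scoped ContDiff

theorem Cuni_int {f : ℝ × ℝ → ℝ} (hc : Continuous f) : IntegrableOn f Q := by
  have h : IsCompact (Icc (-1 / 2 : ℝ) (1 / 2) ×ˢ Icc (-1 / 2 : ℝ) (1 / 2)) := isCompact_Icc.prod isCompact_Icc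
  exact (hc.continuousOn.integrableOn_compact h).mono_set (prod_mono Ioc_subset_Icc_self Ioc_subset_Icc_self)

/-- a continuous periodic nonnegative function with zero integral vanishes -/
theorem Cuni_zero {f : ℝ × ℝ → ℝ} (hc : Continuous f) (hp : Per f) (h0 : ∀ x, 0 ≤ f x)
    (hint : TI f = 0) : ∀ x, f x = 0 := by
  intro z
  by_contra hz
  have hpos : 0 < f z := lt_of_le_of_ne (h0 z) (Ne.symm hz)
  have h2 : TI (fun w => f (w + z)) = 0 := by rw [TI_shift hp (Cuni_int hc), hint]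
  have hc2 : Continuous fun w => f (w + z) := hc.comp (by fun_prop)
  have hae : (fun w => f (w + z)) =ᵐ[volume.restrict Q] 0 :=
    (integral_eq_zero_iff_of_nonneg (fun w => h0 _) (Cuni_int hc2)).1 h2
  set U : Set (ℝ × ℝ) := {w | 0 < f (w + z)} ∩ (Ioo (-1/2:ℝ) (1/2) ×ˢ Ioo (-1/2:ℝ) (1/2)) with hU
  have hUo : IsOpen U := (isOpen_lt continuous_const hc2).inter (isOpen_Ioo.prod isOpen_Ioo)
  have hcU : (0 : ℝ × ℝ) ∈ U := by
    refine ⟨?_, ?_⟩
    · simpa using hpos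
    · constructor <;> constructor <;> norm_num
  have hUpos : 0 < volume U := hUo.measure_pos volume ⟨0, hcU⟩
  have hUQ : U ⊆ Q := fun w hw => ⟨⟨hw.2.1.1, hw.2.1.2.le⟩, ⟨hw.2.2.1, hw.2.2.2.le⟩⟩
  have h3 : (volume.restrict Q) U = volume U := by
    rw [Measure.restrict_apply hUo.measurableSet, inter_eq_left.2 hUQ]
  have h4 : (volume.restrict Q) {w | ¬ f (w + z) = 0} = 0 := hae
  have h5 : (volume.restrict Q) U ≤ (volume.restrict Q) {w | ¬ f (w + z) = 0} :=
    measure_mono fun w hw => ne_of_gt hw.1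
  rw [h3, h4] at h5
  exact absurd h5 (not_le.2 hUpos)

theorem Cuni_countable : Lat.Countable := by
  have : Lat = Set.range (fun p : ℤ × ℤ => (((p.1 : ℝ), (p.2 : ℝ)) : ℝ × ℝ)) := by
    ext z
    constructor
    · rintro ⟨m, n, rfl⟩; exact ⟨(m, n), rfl⟩
    · rintro ⟨⟨m, n⟩, rfl⟩; exact ⟨m, n, rfl⟩
  rw [this]
  exact Set.countable_range _

theorem Cuni_exp (a b : ℝ) : 0 ≤ (a - b) * (Real.exp a - Real.exp b) := by
  rcases le_total a b with h | h
  · exact mul_nonneg_of_nonpos_of_nonpos (by linarith) (by linarith [Real.exp_le_exp.2 h])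
  · exact mul_nonneg (by linarith) (by linarith [Real.exp_le_exp.2 h])

/-- uniqueness (L5.2) -/
theorem comp_unique {K R : ℝ × ℝ → ℝ} (hG : IsGreen K R) {L : ℝ} (hL : 0 < L)
    {v w : ℝ × ℝ → ℝ} (hv : ContDiff ℝ 2 v) (hpv : Per v) (hw : ContDiff ℝ 2 w) (hpw : Per w)
    (ev : ∀ x, Lap v x = L * (K x * Real.exp (v x) - 1) + 4 * π)
    (ew : ∀ x, Lap w x = L * (K x * Real.exp (w x) - 1) + 4 * π) : v = w := by
  have hf : ContDiff ℝ 2 (fun x => v x - w x) := hv.sub hw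
  have hpf : Per (fun x => v x - w x) := hpv.sub hpw
  have hLap : ∀ x, Lap (fun x => v x - w x) x = L * (K x * (Real.exp (v x) - Real.exp (w x))) := by
    intro x
    rw [Lap_sub hv.contDiffAt hw.contDiffAt, ev, ew]
    ring
  have hg : ∀ x, 0 ≤ (v x - w x) * Lap (fun x => v x - w x) x := by
    intro x
    rw [hLap]
    have h1 := Cuni_exp (v x) (w x)
    have h2 := mul_nonneg (mul_nonneg hL.le (hG.nonneg x)) h1
    calc (0 : ℝ) ≤ L * K x * ((v x - w x) * (Real.exp (v x) - Real.exp (w x))) := h2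
      _ = (v x - w x) * (L * (K x * (Real.exp (v x) - Real.exp (w x)))) := by ring
  have hgreen := TI_green (f := fun x => v x - w x) (g := fun x => v x - w x) (hf.of_le (by norm_num)) hpf hf hpf
  have h1 : 0 ≤ TI (fun x => (v x - w x) * Lap (fun x => v x - w x) x) := integral_nonneg hg
  have h2 : 0 ≤ TI (fun x => D1 (fun x => v x - w x) x * D1 (fun x => v x - w x) x +
      D2 (fun x => v x - w x) x * D2 (fun x => v x - w x) x) :=
    integral_nonneg (fun x => add_nonneg (mul_self_nonneg _) (mul_self_nonneg _))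
  have h3 : TI (fun x => (v x - w x) * Lap (fun x => v x - w x) x) = 0 := by linarith
  have h4 := Cuni_zero (hf.continuous.mul (continuous_Lap hf)) (hpf.mul hpf.Lap) hg h3
  refine Continuous.ext_on (Cuni_countable.dense_compl ℝ) hv.continuous hw.continuous ?_
  intro x hx
  have h5 : (v x - w x) * Lap (fun x => v x - w x) x = 0 := h4 x
  rw [hLap] at h5
  have hK : 0 < K x := lt_of_le_of_ne (hG.nonneg x) (fun h => hx ((hG.zero_iff x).1 h.symm))
  rcases mul_eq_zero.1 h5 with h | h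
  · linarith
  · rcases mul_eq_zero.1 h with h | h
    · exact absurd h hL.ne'
    · rcases mul_eq_zero.1 h with h | h
      · exact absurd h hK.ne'
      · exact Real.exp_injective (sub_eq_zero.1 h)

/-- L5.1 -/
theorem exists_comp {K R : ℝ × ℝ → ℝ} (hG : IsGreen K R) : ∃ Cb : ℝ, 0 < Cb ∧ ∃ N0 : ℕ,
    ∀ N : ℕ, N0 ≤ N → ∃ v, IsComp K Cb N v := by
  obtain ⟨Cb, hCb, L0, hL0, hsub⟩ := comp_sub hG
  refine ⟨Cb, hCb, ⌈L0⌉₊ + 2, fun N hN => ?_⟩
  have hlam : L0 ≤ lam N := by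
    have h1 : L0 ≤ ⌈L0⌉₊ := Nat.le_ceil L0
    have h2 : ((⌈L0⌉₊ + 2 : ℕ) : ℝ) ≤ N := Nat.cast_le.2 hN
    push_cast at h2
    have h3 : (3 : ℝ) < π := Real.pi_gt_three
    rw [lam]
    nlinarith
  have hL : 0 < lam N := lt_of_lt_of_le hL0 hlam
  obtain ⟨s1, s2, s3⟩ := hsub (lam N) hlam
  obtain ⟨b, hb, hpb, hB, hsup⟩ := comp_super hG hL (-Real.log (Cb / lam N))
  have hq : 0 < Cb / lam N := div_pos hCb hL
  have hab : ∀ x, -Real.log (K x + Cb / lam N) ≤ b x := by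
    intro x
    refine le_trans ?_ (hB x)
    have := Real.log_le_log hq (by linarith [hG.nonneg x] : Cb / lam N ≤ K x + Cb / lam N)
    linarith
  obtain ⟨v, v1, v2, v3, -, v5⟩ := comp_between hG hL s1 s2 hb hpb hab s3 hsup
  have hv2 : ContDiff ℝ 2 v := contDiff_infty.1 v1 2
  have e1 : (fun x : ℝ × ℝ => v (-x.1, x.2)) = v := by
    refine comp_unique hG hL (hv2.comp (by fun_prop)) v2.refl1 hv2 v2 (fun x => ?_) v5
    rw [Lap_refl1, v5, hG.refl1]
  have e2 : (fun x : ℝ × ℝ => v (x.1, -x.2)) = v := by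
    refine comp_unique hG hL (hv2.comp (by fun_prop)) v2.refl2 hv2 v2 (fun x => ?_) v5
    rw [Lap_refl2, v5, hG.refl2]
  have e3 : (fun x : ℝ × ℝ => v (x.2, x.1)) = v := by
    refine comp_unique hG hL (hv2.comp (by fun_prop)) v2.swap hv2 v2 (fun x => ?_) v5
    rw [Lap_swap, v5, hG.swap]
  exact ⟨v, ⟨v1, v2, v5, v3, fun x => congrFun e1 x, fun x => congrFun e2 x, fun x => congrFun e3 x⟩⟩

end Pool.Agent.AO
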