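import Pool.Agent.Lib.MP_10e52e_an.Green
import Pool.Agent.Lib.MP_10e52e_an.Res
import Pool.Agent.Lib.MP_10e52e_an.Csub
import Pool.Agent.Lib.MP_10e52e_an.Csup
import Pool.Agent.Lib.MP_10e52e_an.Cbet
import Pool.Agent.Lib.MP_10e52e_an.Cuni
import Pool.Agent.Lib.MP_10e52e_an.Cbd
import Pool.Agent.Lib.MP_10e52e_an.Cmono
import Pool.Agent.Lib.MP_10e52e_an.Cgrad
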