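import Pool.Agent.Lib.MP_10e52e_an.Green
import Pool.Agent.Lib.MP_10e52e_an.Comp
import Pool.Agent.Lib.MP_10e52e_an.Calc
import Pool.Agent.Lib.MP_10e52e_an.Symm

/-! MP_10e52e_an row Peq: L6.1 -/

namespace Pool.Agent.AO

open MeasureTheory Set Real Filter Topology
open scoped ContDiff

theorem peq_isOpen_Box (a : ℝ) : IsOpen (Box a) := by
  have h1 : IsOpen {x : ℝ × ℝ | |x.1| < a} :=
    isOpen_lt (continuous_abs.comp continuous_fst) continuous_const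
  have h2 : IsOpen {x : ℝ × ℝ | |x.2| < a} :=
    isOpen_lt (continuous_abs.comp continuous_snd) continuous_const
  exact h1.inter h2

theorem peq_nhds {x : ℝ × ℝ} (hx : x ∈ Box 1) : Box 1 ∈ 𝓝 x := (peq_isOpen_Box 1).mem_nhds hx

theorem peq_nsq_smooth : ContDiff ℝ ∞ nsq := by
  unfold nsq
  exact (contDiff_fst.pow 2).add (contDiff_snd.pow 2)

theorem peq_nsq_pos {x : ℝ × ℝ} (hx : x ≠ 0) : 0 < nsq x := by
  unfold nsq
  rcases eq_or_ne x.1 0 with h | h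
  · have : x.2 ≠ 0 := fun h' => hx (Prod.ext h h')
    positivity
  · positivity

theorem peq_D1_nsq (x : ℝ × ℝ) : D1 nsq x = 2 * x.1 := by
  have e : nsq = fun y : ℝ × ℝ => (fun t : ℝ => t ^ 2) y.1 + (fun t : ℝ => t ^ 2) y.2 := rfl
  rw [e, D1_add (f := fun y : ℝ × ℝ => (fun t : ℝ => t ^ 2) y.1)
    (g := fun y : ℝ × ℝ => (fun t : ℝ => t ^ 2) y.2) (by fun_prop) (by fun_prop)]
  rw [D1_comp_fst (φ := fun t : ℝ => t ^ 2) (φ' := 2 * x.1) (by simpa using hasDerivAt_pow 2 x.1),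
    D1_comp_snd (φ := fun t : ℝ => t ^ 2) (φ' := 2 * x.2) (by simpa using hasDerivAt_pow 2 x.2)]
  ring

theorem peq_D2_nsq (x : ℝ × ℝ) : D2 nsq x = 2 * x.2 := by
  have e : nsq = fun y : ℝ × ℝ => (fun t : ℝ => t ^ 2) y.1 + (fun t : ℝ => t ^ 2) y.2 := rfl
  rw [e, D2_add (f := fun y : ℝ × ℝ => (fun t : ℝ => t ^ 2) y.1)
    (g := fun y : ℝ × ℝ => (fun t : ℝ => t ^ 2) y.2) (by fun_prop) (by fun_prop)]
  rw [D2_comp_fst (φ := fun t : ℝ => t ^ 2) (φ' := 2 * x.1) (by simpa using hasDerivAt_pow 2 x.1),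
    D2_comp_snd (φ := fun t : ℝ => t ^ 2) (φ' := 2 * x.2) (by simpa using hasDerivAt_pow 2 x.2)]
  ring

theorem peq_Lap_nsq (x : ℝ × ℝ) : Lap nsq x = 4 := by
  have h1 : D1 nsq = fun y => 2 * y.1 := funext peq_D1_nsq
  have h2 : D2 nsq = fun y => 2 * y.2 := funext peq_D2_nsq
  simp only [Lap, h1, h2]
  rw [D1_const_mul (f := fun y : ℝ × ℝ => y.1) differentiableAt_fst,
    D2_const_mul (f := fun y : ℝ × ℝ => y.2) differentiableAt_snd, D1_fst, D2_snd]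
  norm_num

theorem peq_D1_infty {f : ℝ × ℝ → ℝ} {x : ℝ × ℝ} (hf : ContDiffAt ℝ ∞ f x) :
    ContDiffAt ℝ ∞ (D1 f) x :=
  (hf.fderiv_right (m := ∞) (by simp)).clm_apply contDiffAt_const

theorem peq_D2_infty {f : ℝ × ℝ → ℝ} {x : ℝ × ℝ} (hf : ContDiffAt ℝ ∞ f x) :
    ContDiffAt ℝ ∞ (D2 f) x :=
  (hf.fderiv_right (m := ∞) (by simp)).clm_apply contDiffAt_const

theorem peq_le {f : ℝ × ℝ → ℝ} {x : ℝ × ℝ} (hf : ContDiffAt ℝ ∞ f x) (n : ℕ) :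
    ContDiffAt ℝ n f x := hf.of_le (by exact_mod_cast le_top)

theorem peq_diff {f : ℝ × ℝ → ℝ} {x : ℝ × ℝ} (hf : ContDiffAt ℝ ∞ f x) :
    DifferentiableAt ℝ f x := (peq_le hf 1).differentiableAt (by norm_num)

theorem peq_Rat {K R : ℝ × ℝ → ℝ} (hG : IsGreen K R) {x : ℝ × ℝ} (hx : x ∈ Box 1) :
    ContDiffAt ℝ ∞ R x := hG.smoothR.contDiffAt (peq_nhds hx)

theorem peq_Hat {K R : ℝ × ℝ → ℝ} (hG : IsGreen K R) {Cb : ℝ} {N : ℕ} {v : ℝ × ℝ → ℝ}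
    (hv : IsComp K Cb N v) {x : ℝ × ℝ} (hx : x ∈ Box 1) : ContDiffAt ℝ ∞ (Hf R N v) x := by
  unfold Hf
  exact (hv.smooth.contDiffAt.sub (contDiffAt_const.mul (peq_Rat hG hx))).add
    (contDiffAt_const.mul peq_nsq_smooth.contDiffAt)

theorem peq_gat {K R : ℝ × ℝ → ℝ} (hG : IsGreen K R) {Cb : ℝ} {N : ℕ} {v : ℝ × ℝ → ℝ}
    (hv : IsComp K Cb N v) {x : ℝ × ℝ} (hx : x ∈ Box 1) : ContDiffAt ℝ ∞ (gf R N v) x := by
  unfold gf
  exact (contDiffAt_fst.mul (peq_D2_infty (peq_Hat hG hv hx))).sub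
    (contDiffAt_snd.mul (peq_D1_infty (peq_Hat hG hv hx)))

theorem peq_psiat {K R : ℝ × ℝ → ℝ} (hG : IsGreen K R) {Cb : ℝ} {N : ℕ} {v : ℝ × ℝ → ℝ}
    (hv : IsComp K Cb N v) {x : ℝ × ℝ} (hx : x ∈ Box 1) : ContDiffAt ℝ ∞ (psif R N v) x := by
  unfold psif
  exact (contDiffAt_fst.mul (peq_D1_infty (peq_Hat hG hv hx))).add
    (contDiffAt_snd.mul (peq_D2_infty (peq_Hat hG hv hx)))

theorem peq_LapH {K R : ℝ × ℝ → ℝ} (hG : IsGreen K R) {Cb : ℝ} {N : ℕ} {v : ℝ × ℝ → ℝ}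
    (hv : IsComp K Cb N v) {x : ℝ × ℝ} (hx : x ∈ Box 1) :
    Lap (Hf R N v) x = lam N * (K x * Real.exp (v x)) := by
  have hv2 : ContDiffAt ℝ 2 v x := peq_le hv.smooth.contDiffAt 2
  have hR2 : ContDiffAt ℝ 2 R x := peq_le (peq_Rat hG hx) 2
  have hn2 : ContDiffAt ℝ 2 nsq x := peq_le peq_nsq_smooth.contDiffAt 2
  have e : Hf R N v = fun y => (v y - 4 * π * R y) + lam N / 4 * nsq y := rfl
  rw [e, Lap_add (hv2.sub (contDiffAt_const.mul hR2)) (contDiffAt_const.mul hn2),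
    Lap_sub hv2 (contDiffAt_const.mul hR2), Lap_const_mul hR2, Lap_const_mul hn2,
    hv.eq, hG.lapR x hx, peq_Lap_nsq]
  ring

/-- the exponent -/
noncomputable def peqE (R : ℝ × ℝ → ℝ) (N : ℕ) (v : ℝ × ℝ → ℝ) (x : ℝ × ℝ) : ℝ :=
  Hf R N v x - lam N / 4 * nsq x

theorem peqE_eq (R : ℝ × ℝ → ℝ) (N : ℕ) (v : ℝ × ℝ → ℝ) (x : ℝ × ℝ) :
    peqE R N v x = v x - 4 * π * R x := by
  unfold peqE Hf; ring

theorem peq_rho {K R : ℝ × ℝ → ℝ} (hG : IsGreen K R) {N : ℕ} {v : ℝ × ℝ → ℝ}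
    {x : ℝ × ℝ} (hx : x ∈ Box 1) :
    K x * Real.exp (v x) = nsq x * Real.exp (peqE R N v x) := by
  rw [hG.fac x hx, peqE_eq, mul_assoc, ← Real.exp_add]
  congr 2
  ring

theorem peqE_at {K R : ℝ × ℝ → ℝ} (hG : IsGreen K R) {Cb : ℝ} {N : ℕ} {v : ℝ × ℝ → ℝ}
    (hv : IsComp K Cb N v) {x : ℝ × ℝ} (hx : x ∈ Box 1) : ContDiffAt ℝ ∞ (peqE R N v) x := by
  unfold peqE
  exact (peq_Hat hG hv hx).sub (contDiffAt_const.mul peq_nsq_smooth.contDiffAt)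

theorem peq_D1E {K R : ℝ × ℝ → ℝ} (hG : IsGreen K R) {Cb : ℝ} {N : ℕ} {v : ℝ × ℝ → ℝ}
    (hv : IsComp K Cb N v) {x : ℝ × ℝ} (hx : x ∈ Box 1) :
    D1 (peqE R N v) x = D1 (Hf R N v) x - lam N / 2 * x.1 := by
  have e : peqE R N v = fun y => Hf R N v y - lam N / 4 * nsq y := rfl
  have hn : DifferentiableAt ℝ nsq x := peq_diff peq_nsq_smooth.contDiffAt
  rw [e, D1_sub (peq_diff (peq_Hat hG hv hx)) (hn.const_mul _), D1_const_mul hn, peq_D1_nsq]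
  ring

theorem peq_D2E {K R : ℝ × ℝ → ℝ} (hG : IsGreen K R) {Cb : ℝ} {N : ℕ} {v : ℝ × ℝ → ℝ}
    (hv : IsComp K Cb N v) {x : ℝ × ℝ} (hx : x ∈ Box 1) :
    D2 (peqE R N v) x = D2 (Hf R N v) x - lam N / 2 * x.2 := by
  have e : peqE R N v = fun y => Hf R N v y - lam N / 4 * nsq y := rfl
  have hn : DifferentiableAt ℝ nsq x := peq_diff peq_nsq_smooth.contDiffAt
  rw [e, D2_sub (peq_diff (peq_Hat hG hv hx)) (hn.const_mul _), D2_const_mul hn, peq_D2_nsq]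
  ring

theorem peq_LapH_ev {K R : ℝ × ℝ → ℝ} (hG : IsGreen K R) {Cb : ℝ} {N : ℕ} {v : ℝ × ℝ → ℝ}
    (hv : IsComp K Cb N v) {x : ℝ × ℝ} (hx : x ∈ Box 1) :
    Lap (Hf R N v) =ᶠ[𝓝 x] fun y => lam N * (nsq y * Real.exp (peqE R N v y)) := by
  filter_upwards [peq_nhds hx] with y hy
  rw [peq_LapH hG hv hy, peq_rho (N := N) hG hy]

theorem peq_D1LapH {K R : ℝ × ℝ → ℝ} (hG : IsGreen K R) {Cb : ℝ} {N : ℕ} {v : ℝ × ℝ → ℝ}
    (hv : IsComp K Cb N v) {x : ℝ × ℝ} (hx : x ∈ Box 1) :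
    D1 (Lap (Hf R N v)) x = lam N * Real.exp (peqE R N v x) *
      (2 * x.1 + nsq x * (D1 (Hf R N v) x - lam N / 2 * x.1)) := by
  have hn : DifferentiableAt ℝ nsq x := peq_diff peq_nsq_smooth.contDiffAt
  have hE : DifferentiableAt ℝ (peqE R N v) x := peq_diff (peqE_at hG hv hx)
  have hX : DifferentiableAt ℝ (fun y => Real.exp (peqE R N v y)) x := hE.exp
  have hm : DifferentiableAt ℝ (fun y => nsq y * Real.exp (peqE R N v y)) x := hn.mul hX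
  rw [D1_congr (peq_LapH_ev hG hv hx), D1_const_mul hm, D1_mul hn hX, D1_exp hE,
    peq_D1E hG hv hx, peq_D1_nsq]
  ring

theorem peq_D2LapH {K R : ℝ × ℝ → ℝ} (hG : IsGreen K R) {Cb : ℝ} {N : ℕ} {v : ℝ × ℝ → ℝ}
    (hv : IsComp K Cb N v) {x : ℝ × ℝ} (hx : x ∈ Box 1) :
    D2 (Lap (Hf R N v)) x = lam N * Real.exp (peqE R N v x) *
      (2 * x.2 + nsq x * (D2 (Hf R N v) x - lam N / 2 * x.2)) := by
  have hn : DifferentiableAt ℝ nsq x := peq_diff peq_nsq_smooth.contDiffAt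
  have hE : DifferentiableAt ℝ (peqE R N v) x := peq_diff (peqE_at hG hv hx)
  have hX : DifferentiableAt ℝ (fun y => Real.exp (peqE R N v y)) x := hE.exp
  have hm : DifferentiableAt ℝ (fun y => nsq y * Real.exp (peqE R N v y)) x := hn.mul hX
  rw [D2_congr (peq_LapH_ev hG hv hx), D2_const_mul hm, D2_mul hn hX, D2_exp hE,
    peq_D2E hG hv hx, peq_D2_nsq]
  ring

theorem peq_Lapfst (x : ℝ × ℝ) : Lap (fun y : ℝ × ℝ => y.1) x = 0 := by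
  have h1 : D1 (fun y : ℝ × ℝ => y.1) = fun _ => 1 := funext D1_fst
  have h2 : D2 (fun y : ℝ × ℝ => y.1) = fun _ => 0 := funext D2_fst
  simp only [Lap, h1, h2, D1_const, D2_const, add_zero]

theorem peq_Lapsnd (x : ℝ × ℝ) : Lap (fun y : ℝ × ℝ => y.2) x = 0 := by
  have h1 : D1 (fun y : ℝ × ℝ => y.2) = fun _ => 0 := funext D1_snd
  have h2 : D2 (fun y : ℝ × ℝ => y.2) = fun _ => 1 := funext D2_snd
  simp only [Lap, h1, h2, D1_const, D2_const, add_zero]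

theorem peq_Lapg {K R : ℝ × ℝ → ℝ} (hG : IsGreen K R) {Cb : ℝ} {N : ℕ} {v : ℝ × ℝ → ℝ}
    (hv : IsComp K Cb N v) {x : ℝ × ℝ} (hx : x ∈ Box 1) :
    Lap (gf R N v) x = lam N * (K x * Real.exp (v x)) * gf R N v x := by
  have hH := peq_Hat hG hv hx
  have h3 : ContDiffAt ℝ 3 (Hf R N v) x := peq_le hH 3
  have h1 : ContDiffAt ℝ 2 (D1 (Hf R N v)) x := peq_le (peq_D1_infty hH) 2
  have h2 : ContDiffAt ℝ 2 (D2 (Hf R N v)) x := peq_le (peq_D2_infty hH) 2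
  have hf : ContDiffAt ℝ 2 (fun y : ℝ × ℝ => y.1) x := contDiffAt_fst
  have hs : ContDiffAt ℝ 2 (fun y : ℝ × ℝ => y.2) x := contDiffAt_snd
  have e : gf R N v = fun y => y.1 * D2 (Hf R N v) y - y.2 * D1 (Hf R N v) y := rfl
  have hcomm : D1 (D2 (Hf R N v)) x = D2 (D1 (Hf R N v)) x := D1_D2_comm (peq_le hH 2)
  rw [e, Lap_sub (hf.mul h2) (hs.mul h1), Lap_mul hf h2, Lap_mul hs h1, D1_fst, D2_fst, D1_snd,
    D2_snd, peq_Lapfst, peq_Lapsnd, Lap_D1 h3, Lap_D2 h3, peq_D1LapH hG hv hx,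
    peq_D2LapH hG hv hx, peq_rho (N := N) hG hx]
  linear_combination (2 : ℝ) * hcomm

theorem peq_Lappsi {K R : ℝ × ℝ → ℝ} (hG : IsGreen K R) {Cb : ℝ} {N : ℕ} {v : ℝ × ℝ → ℝ}
    (hv : IsComp K Cb N v) {x : ℝ × ℝ} (hx : x ∈ Box 1) :
    Lap (psif R N v) x =
      (4 + psif R N v x - lam N / 2 * nsq x) * (lam N * (K x * Real.exp (v x))) := by
  have hH := peq_Hat hG hv hx
  have h3 : ContDiffAt ℝ 3 (Hf R N v) x := peq_le hH 3
  have h1 : ContDiffAt ℝ 2 (D1 (Hf R N v)) x := peq_le (peq_D1_infty hH) 2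
  have h2 : ContDiffAt ℝ 2 (D2 (Hf R N v)) x := peq_le (peq_D2_infty hH) 2
  have hf : ContDiffAt ℝ 2 (fun y : ℝ × ℝ => y.1) x := contDiffAt_fst
  have hs : ContDiffAt ℝ 2 (fun y : ℝ × ℝ => y.2) x := contDiffAt_snd
  have e : psif R N v = fun y => y.1 * D1 (Hf R N v) y + y.2 * D2 (Hf R N v) y := rfl
  have hL : D1 (D1 (Hf R N v)) x + D2 (D2 (Hf R N v)) x =
      lam N * (nsq x * Real.exp (peqE R N v x)) := by
    have := peq_LapH hG hv hx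
    rw [peq_rho (N := N) hG hx] at this
    exact this
  rw [e, Lap_add (hf.mul h1) (hs.mul h2), Lap_mul hf h1, Lap_mul hs h2, D1_fst, D2_fst, D1_snd,
    D2_snd, peq_Lapfst, peq_Lapsnd, Lap_D1 h3, Lap_D2 h3, peq_D1LapH hG hv hx,
    peq_D2LapH hG hv hx, peq_rho (N := N) hG hx]
  have hn : nsq x = x.1 ^ 2 + x.2 ^ 2 := rfl
  simp only
  linear_combination (2 : ℝ) * hL - 2 * lam N * Real.exp (peqE R N v x) * hn +
    lam N ^ 2 * Real.exp (peqE R N v x) * nsq x / 2 * hn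

theorem peq_om_ev {K R : ℝ × ℝ → ℝ} (hG : IsGreen K R) {N : ℕ} {v : ℝ × ℝ → ℝ}
    {x : ℝ × ℝ} (hx : x ∈ Box 1) (h0 : x ≠ 0) :
    om0 K v =ᶠ[𝓝 x] fun y => Real.log (nsq y) + peqE R N v y := by
  filter_upwards [peq_nhds hx, isOpen_ne.mem_nhds h0] with y hy hy0
  have hp := peq_nsq_pos hy0
  unfold om0
  rw [hG.fac y hy, Real.log_mul hp.ne' (Real.exp_ne_zero _), Real.log_exp, peqE_eq]
  ring

theorem peq_D1om {K R : ℝ × ℝ → ℝ} (hG : IsGreen K R) {Cb : ℝ} {N : ℕ} {v : ℝ × ℝ → ℝ}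
    (hv : IsComp K Cb N v) {x : ℝ × ℝ} (hx : x ∈ Box 1) (h0 : x ≠ 0) :
    D1 (om0 K v) x = (nsq x)⁻¹ * (2 * x.1) + (D1 (Hf R N v) x - lam N / 2 * x.1) := by
  have hn : DifferentiableAt ℝ nsq x := peq_diff peq_nsq_smooth.contDiffAt
  have hE : DifferentiableAt ℝ (peqE R N v) x := peq_diff (peqE_at hG hv hx)
  have hp := (peq_nsq_pos h0).ne'
  rw [D1_congr (peq_om_ev (N := N) hG hx h0), D1_add (hn.log hp) hE, D1_log hn hp,
    peq_D1E hG hv hx, peq_D1_nsq]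

theorem peq_D2om {K R : ℝ × ℝ → ℝ} (hG : IsGreen K R) {Cb : ℝ} {N : ℕ} {v : ℝ × ℝ → ℝ}
    (hv : IsComp K Cb N v) {x : ℝ × ℝ} (hx : x ∈ Box 1) (h0 : x ≠ 0) :
    D2 (om0 K v) x = (nsq x)⁻¹ * (2 * x.2) + (D2 (Hf R N v) x - lam N / 2 * x.2) := by
  have hn : DifferentiableAt ℝ nsq x := peq_diff peq_nsq_smooth.contDiffAt
  have hE : DifferentiableAt ℝ (peqE R N v) x := peq_diff (peqE_at hG hv hx)
  have hp := (peq_nsq_pos h0).ne'
  rw [D2_congr (peq_om_ev (N := N) hG hx h0), D2_add (hn.log hp) hE, D2_log hn hp,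
    peq_D2E hG hv hx, peq_D2_nsq]

theorem peq_Rsym {K R : ℝ × ℝ → ℝ} (hG : IsGreen K R) {x y : ℝ × ℝ} (hx : x ∈ Box 1)
    (hy : y ∈ Box 1) (hn : nsq y = nsq x) (hK : K y = K x) (h00 : x = 0 → y = 0) : R y = R x := by
  rcases eq_or_ne x 0 with h | h
  · rw [h00 h, h]
  · have hp := peq_nsq_pos h
    have e1 := hG.fac x hx
    have e2 := hG.fac y hy
    rw [hn, hK, e1] at e2
    have e3 := mul_left_cancel₀ hp.ne' e2
    have e4 := Real.exp_injective e3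
    have hpi : (0:ℝ) < 4 * π := by positivity
    have e5 : 4 * π * (R y - R x) = 0 := by linear_combination e4
    rcases mul_eq_zero.1 e5 with h5 | h5
    · exact absurd h5 hpi.ne'
    · linarith

theorem peq_Hr1 {K R : ℝ × ℝ → ℝ} (hG : IsGreen K R) {Cb : ℝ} {N : ℕ} {v : ℝ × ℝ → ℝ}
    (hv : IsComp K Cb N v) {x : ℝ × ℝ} (hx : x ∈ Box 1) :
    Hf R N v (-x.1, x.2) = Hf R N v x := by
  have hy : ((-x.1, x.2) : ℝ × ℝ) ∈ Box 1 := ⟨by simpa using hx.1, hx.2⟩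
  have hn : nsq (-x.1, x.2) = nsq x := by simp [nsq]
  have hR := peq_Rsym hG hx hy hn (hG.refl1 x) (fun h => by simp [h])
  unfold Hf
  rw [hR, hn, hv.refl1]

theorem peq_Hr2 {K R : ℝ × ℝ → ℝ} (hG : IsGreen K R) {Cb : ℝ} {N : ℕ} {v : ℝ × ℝ → ℝ}
    (hv : IsComp K Cb N v) {x : ℝ × ℝ} (hx : x ∈ Box 1) :
    Hf R N v (x.1, -x.2) = Hf R N v x := by
  have hy : ((x.1, -x.2) : ℝ × ℝ) ∈ Box 1 := ⟨hx.1, by simpa using hx.2⟩
  have hn : nsq (x.1, -x.2) = nsq x := by simp [nsq]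
  have hR := peq_Rsym hG hx hy hn (hG.refl2 x) (fun h => by simp [h])
  unfold Hf
  rw [hR, hn, hv.refl2]

theorem peq_Hsw {K R : ℝ × ℝ → ℝ} (hG : IsGreen K R) {Cb : ℝ} {N : ℕ} {v : ℝ × ℝ → ℝ}
    (hv : IsComp K Cb N v) {x : ℝ × ℝ} (hx : x ∈ Box 1) :
    Hf R N v (x.2, x.1) = Hf R N v x := by
  have hy : ((x.2, x.1) : ℝ × ℝ) ∈ Box 1 := ⟨hx.2, hx.1⟩
  have hn : nsq (x.2, x.1) = nsq x := by simp [nsq, add_comm]
  have hR := peq_Rsym hG hx hy hn (hG.swap x) (fun h => by simp [h])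
  unfold Hf
  rw [hR, hn, hv.swap]

/-- L6.1 -/
theorem psi_eqs {K R : ℝ × ℝ → ℝ} (hG : IsGreen K R) {Cb : ℝ} {N : ℕ} {v : ℝ × ℝ → ℝ}
    (hv : IsComp K Cb N v) :
    ContDiffOn ℝ ∞ (Hf R N v) (Box 1) ∧ ContDiffOn ℝ ∞ (gf R N v) (Box 1) ∧
    ContDiffOn ℝ ∞ (psif R N v) (Box 1) ∧
    (∀ x ∈ Box 1, Lap (Hf R N v) x = lam N * (K x * Real.exp (v x))) ∧
    (∀ x ∈ Box 1, Lap (gf R N v) x = lam N * (K x * Real.exp (v x)) * gf R N v x) ∧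
    (∀ x ∈ Box 1, Lap (psif R N v) x =
      (4 + psif R N v x - lam N / 2 * nsq x) * (lam N * (K x * Real.exp (v x)))) ∧
    (∀ x ∈ Box 1, x ≠ 0 → x.1 * D1 (om0 K v) x + x.2 * D2 (om0 K v) x =
      2 - lam N / 2 * nsq x + psif R N v x) ∧
    (∀ x ∈ Box 1, x ≠ 0 → x.1 * D2 (om0 K v) x - x.2 * D1 (om0 K v) x = gf R N v x) ∧
    (∀ x ∈ Box 1, gf R N v (-x.1, x.2) = -gf R N v x ∧ gf R N v (x.1, -x.2) = -gf R N v x ∧
      gf R N v (x.2, x.1) = -gf R N v x) ∧ psif R N v 0 = 0 := by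
  refine ⟨fun x hx => (peq_Hat hG hv hx).contDiffWithinAt,
    fun x hx => (peq_gat hG hv hx).contDiffWithinAt,
    fun x hx => (peq_psiat hG hv hx).contDiffWithinAt,
    fun x hx => peq_LapH hG hv hx, fun x hx => peq_Lapg hG hv hx,
    fun x hx => peq_Lappsi hG hv hx, ?_, ?_, ?_, ?_⟩
  · intro x hx h0
    have hp := (peq_nsq_pos h0).ne'
    have hn : nsq x = x.1 ^ 2 + x.2 ^ 2 := rfl
    rw [peq_D1om hG hv hx h0, peq_D2om hG hv hx h0]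
    have hinv : (nsq x)⁻¹ * nsq x = 1 := inv_mul_cancel₀ hp
    unfold psif
    linear_combination (2 : ℝ) * hinv - 2 * (nsq x)⁻¹ * hn + lam N / 2 * hn
  · intro x hx h0
    rw [peq_D1om hG hv hx h0, peq_D2om hG hv hx h0]
    unfold gf
    ring
  · intro x hx
    refine ⟨?_, ?_, ?_⟩
    · have ev : (fun y : ℝ × ℝ => Hf R N v (-y.1, y.2)) =ᶠ[𝓝 x] Hf R N v := by
        filter_upwards [peq_nhds hx] with y hy using peq_Hr1 hG hv hy
      have e1 := D1_congr ev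
      have e2 := D2_congr ev
      rw [D1_refl1] at e1
      rw [D2_refl1] at e2
      unfold gf
      simp only
      rw [e2]
      linear_combination (-x.2 : ℝ) * (-e1)
    · have ev : (fun y : ℝ × ℝ => Hf R N v (y.1, -y.2)) =ᶠ[𝓝 x] Hf R N v := by
        filter_upwards [peq_nhds hx] with y hy using peq_Hr2 hG hv hy
      have e1 := D1_congr ev
      have e2 := D2_congr ev
      rw [D1_refl2] at e1
      rw [D2_refl2] at e2
      unfold gf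
      simp only
      rw [e1]
      linear_combination (-x.1 : ℝ) * e2
    · have ev : (fun y : ℝ × ℝ => Hf R N v (y.2, y.1)) =ᶠ[𝓝 x] Hf R N v := by
        filter_upwards [peq_nhds hx] with y hy using peq_Hsw hG hv hy
      have e1 := D1_congr ev
      have e2 := D2_congr ev
      rw [D1_swap] at e1
      rw [D2_swap] at e2
      unfold gf
      simp only
      rw [e1, e2]
      ring
  · simp [psif]

end Pool.Agent.AO
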