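import Pool.Agent.Lib.MP_10e52e_an.Green
import Pool.Agent.Lib.MP_10e52e_an.Comp
import Pool.Agent.Lib.MP_10e52e_an.Peq

/-! MP_10e52e_an row Pg: L6.2 -/

namespace Pool.Agent.AO

open MeasureTheory Set Real
open scoped ContDiff

/-- Im z^4 -/
def pgB (x : ℝ × ℝ) : ℝ := x.1 ^ 3 * (4 * x.2) + x.1 * (-(4 * x.2 ^ 3))

theorem pg_D1_prod {a b : ℝ → ℝ} {a' : ℝ} {x : ℝ × ℝ} (ha : HasDerivAt a a' x.1)
    (hb : DifferentiableAt ℝ b x.2) : D1 (fun y => a y.1 * b y.2) x = a' * b x.2 := by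
  have h1 : DifferentiableAt ℝ (fun y : ℝ × ℝ => a y.1) x :=
    ha.differentiableAt.comp x differentiableAt_fst
  have h2 : DifferentiableAt ℝ (fun y : ℝ × ℝ => b y.2) x := hb.comp x differentiableAt_snd
  rw [D1_mul h1 h2, D1_comp_fst ha, D1_comp_snd hb.hasDerivAt]
  ring

theorem pg_D2_prod {a b : ℝ → ℝ} {b' : ℝ} {x : ℝ × ℝ} (ha : DifferentiableAt ℝ a x.1)
    (hb : HasDerivAt b b' x.2) : D2 (fun y => a y.1 * b y.2) x = a x.1 * b' := by
  have h1 : DifferentiableAt ℝ (fun y : ℝ × ℝ => a y.1) x := ha.comp x differentiableAt_fst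
  have h2 : DifferentiableAt ℝ (fun y : ℝ × ℝ => b y.2) x :=
    hb.differentiableAt.comp x differentiableAt_snd
  rw [D2_mul h1 h2, D2_comp_fst ha.hasDerivAt, D2_comp_snd hb]
  ring

theorem pg_smoothB : ContDiff ℝ 2 pgB := by
  unfold pgB
  fun_prop

theorem pg_LapB (x : ℝ × ℝ) : Lap pgB x = 0 := by
  have e : pgB = fun y : ℝ × ℝ => (fun t : ℝ => t ^ 3) y.1 * (fun t : ℝ => 4 * t) y.2 +
    (fun t : ℝ => t) y.1 * (fun t : ℝ => -(4 * t ^ 3)) y.2 := rfl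
  have d3 : ∀ t : ℝ, HasDerivAt (fun t : ℝ => t ^ 3) (3 * t ^ 2) t := fun t => by
    simpa using hasDerivAt_pow 3 t
  have d1 : ∀ t : ℝ, HasDerivAt (fun t : ℝ => t) 1 t := fun t => hasDerivAt_id' t
  have e3 : ∀ t : ℝ, HasDerivAt (fun t : ℝ => -(4 * t ^ 3)) (-(4 * (3 * t ^ 2))) t :=
    fun t => ((d3 t).const_mul 4).neg
  have e1 : ∀ t : ℝ, HasDerivAt (fun t : ℝ => 4 * t) (4 * 1) t := fun t => (d1 t).const_mul 4
  have d2 : ∀ t : ℝ, HasDerivAt (fun t : ℝ => 3 * t ^ 2) (3 * (2 * t)) t := fun t => by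
    simpa using (hasDerivAt_pow 2 t).const_mul 3
  have e2 : ∀ t : ℝ, HasDerivAt (fun t : ℝ => -(4 * (3 * t ^ 2))) (-(4 * (3 * (2 * t)))) t :=
    fun t => ((d2 t).const_mul 4).neg
  have f1 : D1 pgB = fun y : ℝ × ℝ => (fun t : ℝ => 3 * t ^ 2) y.1 * (fun t : ℝ => 4 * t) y.2 +
    (fun _ : ℝ => (1:ℝ)) y.1 * (fun t : ℝ => -(4 * t ^ 3)) y.2 := by
    funext y
    rw [e, D1_add (f := fun y : ℝ × ℝ => (fun t : ℝ => t ^ 3) y.1 * (fun t : ℝ => 4 * t) y.2)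
      (g := fun y : ℝ × ℝ => (fun t : ℝ => t) y.1 * (fun t : ℝ => -(4 * t ^ 3)) y.2)
      (by fun_prop) (by fun_prop),
      pg_D1_prod (d3 y.1) (e1 y.2).differentiableAt, pg_D1_prod (d1 y.1) (e3 y.2).differentiableAt]
  have f2 : D2 pgB = fun y : ℝ × ℝ => (fun t : ℝ => t ^ 3) y.1 * (fun _ : ℝ => 4 * (1:ℝ)) y.2 +
    (fun t : ℝ => t) y.1 * (fun t : ℝ => -(4 * (3 * t ^ 2))) y.2 := by
    funext y
    rw [e, D2_add (f := fun y : ℝ × ℝ => (fun t : ℝ => t ^ 3) y.1 * (fun t : ℝ => 4 * t) y.2)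
      (g := fun y : ℝ × ℝ => (fun t : ℝ => t) y.1 * (fun t : ℝ => -(4 * t ^ 3)) y.2)
      (by fun_prop) (by fun_prop),
      pg_D2_prod (d3 y.1).differentiableAt (e1 y.2), pg_D2_prod (d1 y.1).differentiableAt (e3 y.2)]
  simp only [Lap]
  rw [f1, f2,
    D1_add (f := fun y : ℝ × ℝ => (fun t : ℝ => 3 * t ^ 2) y.1 * (fun t : ℝ => 4 * t) y.2)
      (g := fun y : ℝ × ℝ => (fun _ : ℝ => (1:ℝ)) y.1 * (fun t : ℝ => -(4 * t ^ 3)) y.2)
      (by fun_prop) (by fun_prop),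
    D2_add (f := fun y : ℝ × ℝ => (fun t : ℝ => t ^ 3) y.1 * (fun _ : ℝ => 4 * (1:ℝ)) y.2)
      (g := fun y : ℝ × ℝ => (fun t : ℝ => t) y.1 * (fun t : ℝ => -(4 * (3 * t ^ 2))) y.2)
      (by fun_prop) (by fun_prop),
    pg_D1_prod (d2 x.1) (e1 x.2).differentiableAt,
    pg_D1_prod (hasDerivAt_const x.1 (1:ℝ)) (e3 x.2).differentiableAt,
    pg_D2_prod (d3 x.1).differentiableAt (hasDerivAt_const x.2 (4 * (1:ℝ))),
    pg_D2_prod (d1 x.1).differentiableAt (e2 x.2)]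
  ring

theorem pgB_nonneg {x : ℝ × ℝ} (h0 : 0 ≤ x.2) (h1 : x.2 ≤ x.1) : 0 ≤ pgB x := by
  have e : pgB x = 4 * x.1 * x.2 * ((x.1 - x.2) * (x.1 + x.2)) := by unfold pgB; ring
  rw [e]
  have : 0 ≤ x.1 := h0.trans h1
  have h2 : 0 ≤ x.1 - x.2 := by linarith
  positivity

theorem pgB_le (x : ℝ × ℝ) : pgB x ≤ nsq x ^ 2 := by
  unfold pgB nsq
  nlinarith [sq_nonneg (x.1 ^ 2 - x.2 ^ 2 - 2 * x.1 * x.2)]

theorem pg_compact : IsCompact {x : ℝ × ℝ | 0 ≤ x.2 ∧ x.2 ≤ x.1 ∧ x.1 ≤ 1 / 8} := by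
  have hc : IsClosed {x : ℝ × ℝ | 0 ≤ x.2 ∧ x.2 ≤ x.1 ∧ x.1 ≤ 1 / 8} :=
    (isClosed_le continuous_const continuous_snd).inter
      ((isClosed_le continuous_snd continuous_fst).inter
        (isClosed_le continuous_fst continuous_const))
  refine IsCompact.of_isClosed_subset
    ((isCompact_Icc (a := (0:ℝ)) (b := 1 / 8)).prod (isCompact_Icc (a := (0:ℝ)) (b := 1 / 8)))
    hc ?_
  rintro x ⟨h1, h2, h3⟩
  exact ⟨⟨h1.trans h2, h3⟩, ⟨h1, h2.trans h3⟩⟩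

/-- comparison on the triangle -/
theorem pg_tri {f c : ℝ × ℝ → ℝ} {A : ℝ} (hf : ContDiffOn ℝ 2 f (Box 1)) (hc : ∀ x, 0 ≤ c x)
    (hL : ∀ x ∈ Box 1, Lap f x = c x * f x) (h0 : ∀ t : ℝ, 0 ≤ t → t ≤ 1 / 8 → f (t, 0) = 0)
    (hd : ∀ t : ℝ, 0 ≤ t → t ≤ 1 / 8 → f (t, t) = 0)
    (hs : ∀ t : ℝ, 0 ≤ t → t ≤ 1 / 8 → f (1 / 8, t) ≤ A * pgB (1 / 8, t)) (hA : 0 ≤ A) :
    ∀ x : ℝ × ℝ, 0 ≤ x.2 → x.2 ≤ x.1 → x.1 ≤ 1 / 8 → f x ≤ A * pgB x := by
  have hTB : {x : ℝ × ℝ | 0 ≤ x.2 ∧ x.2 ≤ x.1 ∧ x.1 ≤ 1 / 8} ⊆ Box 1 := by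
    rintro x ⟨h1, h2, h3⟩
    have h4 : 0 ≤ x.1 := h1.trans h2
    refine ⟨?_, ?_⟩
    · rw [abs_of_nonneg h4]; linarith
    · rw [abs_of_nonneg h1]; linarith
  -- boundary values
  have hbd : ∀ x : ℝ × ℝ, 0 ≤ x.2 → x.2 ≤ x.1 → x.1 ≤ 1 / 8 →
      (x.2 = 0 ∨ x.2 = x.1 ∨ x.1 = 1 / 8) → f x ≤ A * pgB x := by
    rintro ⟨a, b⟩ h1 h2 h3 h4
    simp only at h1 h2 h3 h4
    rcases h4 with h4 | h4 | h4
    · subst h4
      rw [h0 a (h1.trans h2) h3]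
      exact mul_nonneg hA (pgB_nonneg (x := (a, 0)) h1 h2)
    · subst h4
      rw [hd b h1 h3]
      exact mul_nonneg hA (pgB_nonneg (x := (b, b)) h1 h2)
    · subst h4
      exact hs b h1 h2
  have hw2 : ContDiffOn ℝ 2 (fun x => A * pgB x - f x) (Box 1) :=
    (contDiffOn_const.mul pg_smoothB.contDiffOn).sub hf
  set T : Set (ℝ × ℝ) := {x : ℝ × ℝ | 0 < x.2 ∧ x.2 < x.1 ∧ x.1 < 1 / 8} with hT
  have hTo : IsOpen T := (isOpen_lt continuous_const continuous_snd).inter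
      ((isOpen_lt continuous_snd continuous_fst).inter
        (isOpen_lt continuous_fst continuous_const))
  have hTs : T ⊆ {x : ℝ × ℝ | 0 ≤ x.2 ∧ x.2 ≤ x.1 ∧ x.1 ≤ 1 / 8} := by
    rintro x ⟨h1, h2, h3⟩
    exact ⟨h1.le, h2.le, h3.le⟩
  have key : ∀ x ∈ T, 0 ≤ A * pgB x - f x := by
    refine tool_mp (w := fun x => A * pgB x - f x) (c := c) hTo (pg_compact.isBounded.subset hTs)
      (fun x _ => hc x) (hw2.mono (hTs.trans hTB)) ?_ ?_
    · intro x hx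
      have hxB := hTB (hTs hx)
      have hfx : ContDiffAt ℝ 2 f x := hf.contDiffAt (peq_nhds hxB)
      have hB : ContDiffAt ℝ 2 pgB x := pg_smoothB.contDiffAt
      rw [Lap_sub (contDiffAt_const.mul hB) hfx, Lap_const_mul hB, pg_LapB, hL x hxB]
      have h1 := mul_nonneg (hc x) (mul_nonneg hA (pgB_nonneg (x := x) hx.1.le hx.2.1.le))
      have h2 : -(A * 0 - c x * f x) + c x * (A * pgB x - f x) = c x * (A * pgB x) := by ring
      rw [h2]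
      exact h1
    · intro e he
      have hcont : ContinuousOn (fun x => A * pgB x - f x)
          {x : ℝ × ℝ | 0 ≤ x.2 ∧ x.2 ≤ x.1 ∧ x.1 ≤ 1 / 8} := hw2.continuousOn.mono hTB
      have hcl := hcont.preimage_isClosed_of_isClosed pg_compact.isClosed
        (isClosed_Iic (a := -e))
      have hcp := IsCompact.of_isClosed_subset pg_compact hcl inter_subset_left
      convert hcp using 1
      ext x
      simp only [mem_inter_iff, mem_preimage, mem_Iic, Set.mem_ofPred_eq]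
      constructor
      · rintro ⟨h1, h2⟩
        exact ⟨hTs h1, h2⟩
      · rintro ⟨⟨h1, h2, h3⟩, h4⟩
        refine ⟨?_, h4⟩
        by_contra hne
        have hor : x.2 = 0 ∨ x.2 = x.1 ∨ x.1 = 1 / 8 := by
          by_contra hno
          push Not at hno
          exact hne ⟨lt_of_le_of_ne h1 (Ne.symm hno.1), lt_of_le_of_ne h2 hno.2.1,
            lt_of_le_of_ne h3 hno.2.2⟩
        have := hbd x h1 h2 h3 hor
        linarith
  intro x h1 h2 h3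
  by_cases hx : x ∈ T
  · linarith [key x hx]
  · refine hbd x h1 h2 h3 ?_
    by_contra hno
    push Not at hno
    exact hx ⟨lt_of_le_of_ne h1 (Ne.symm hno.1), lt_of_le_of_ne h2 hno.2.1,
      lt_of_le_of_ne h3 hno.2.2⟩

/-- from the gradient on the side to the linear bound -/
theorem pg_side {g : ℝ × ℝ → ℝ} {C : ℝ} (hg : ContDiffOn ℝ 2 g (Box 1))
    (hD : ∀ t : ℝ, 0 ≤ t → t ≤ 1 / 8 → |D2 g (1 / 8, t)| ≤ C) (h0 : g (1 / 8, 0) = 0)
    (h1 : g (1 / 8, 1 / 8) = 0) (t : ℝ) (ht0 : 0 ≤ t) (ht1 : t ≤ 1 / 8) :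
    |g (1 / 8, t)| ≤ C * t ∧ |g (1 / 8, t)| ≤ C * (1 / 8 - t) := by
  have hder : ∀ s ∈ Icc (0:ℝ) (1 / 8),
      HasDerivWithinAt (fun s => g (1 / 8, s)) (D2 g (1 / 8, s)) (Icc (0:ℝ) (1 / 8)) s := by
    intro s hs
    have hB : ((1 / 8, s) : ℝ × ℝ) ∈ Box 1 := by
      refine ⟨?_, ?_⟩
      · simp only; rw [abs_of_nonneg (by norm_num)]; norm_num
      · simp only; rw [abs_of_nonneg hs.1]; linarith [hs.2]
    have hdg : HasFDerivAt g (fderiv ℝ g (1 / 8, s)) (1 / 8, s) :=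
      ((hg.contDiffAt (peq_nhds hB)).differentiableAt (by norm_num)).hasFDerivAt
    have hl : HasDerivAt (fun s : ℝ => ((1 / 8, s) : ℝ × ℝ)) (0, 1) s :=
      (hasDerivAt_const s (1 / 8 : ℝ)).prodMk (hasDerivAt_id' s)
    exact (hdg.comp_hasDerivAt s hl).hasDerivWithinAt
  have hb : ∀ s ∈ Icc (0:ℝ) (1 / 8), ‖D2 g (1 / 8, s)‖ ≤ C := fun s hs => hD s hs.1 hs.2
  have hconv : Convex ℝ (Icc (0:ℝ) (1 / 8)) := convex_Icc _ _
  have m0 : (0:ℝ) ∈ Icc (0:ℝ) (1 / 8) := ⟨le_rfl, by norm_num⟩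
  have m1 : (1 / 8 : ℝ) ∈ Icc (0:ℝ) (1 / 8) := ⟨by norm_num, le_rfl⟩
  have mt : t ∈ Icc (0:ℝ) (1 / 8) := ⟨ht0, ht1⟩
  have k0 := hconv.norm_image_sub_le_of_norm_hasDerivWithin_le hder hb m0 mt
  have k1 := hconv.norm_image_sub_le_of_norm_hasDerivWithin_le hder hb mt m1
  simp only [Real.norm_eq_abs, h0, h1, sub_zero, zero_sub, abs_neg] at k0 k1
  rw [abs_of_nonneg ht0] at k0
  rw [abs_of_nonneg (by linarith : (0:ℝ) ≤ 1 / 8 - t)] at k1
  exact ⟨k0, k1⟩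

/-- L6.2 -/
theorem g_bound {K R : ℝ × ℝ → ℝ} (hG : IsGreen K R) {Cb : ℝ} (hCb : 0 < Cb) :
    ∃ C : ℝ, 0 < C ∧ ∃ N0 : ℕ, ∀ (N : ℕ) (v : ℝ × ℝ → ℝ), N0 ≤ N → IsComp K Cb N v →
      ∀ x : ℝ × ℝ, |x.1| ≤ 1 / 8 → |x.2| ≤ 1 / 8 → |gf R N v x| ≤ C * nsq x ^ 2 := by
  obtain ⟨C1, hC1, N1, hgrad⟩ := comp_grad hG hCb
  obtain ⟨C2, hC2, hbds⟩ := comp_bounds hG hCb
  refine ⟨256 * (5 / 4 * C1), by positivity, max N1 23, ?_⟩
  intro N v hN hv
  have hN1 : N1 ≤ N := (le_max_left _ _).trans hN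
  have hN23 : 23 ≤ N := (le_max_right _ _).trans hN
  have hN23' : (23:ℝ) ≤ N := by exact_mod_cast hN23
  obtain ⟨-, hgs, -, -, hgL, -, -, hgid, hsym, -⟩ := psi_eqs hG hv
  have hbd1 := (hbds N v (by omega) hv).1
  have hL256 : 256 ≤ lam N := by
    unfold lam
    have hpi := Real.pi_gt_three
    nlinarith
  have hL0 : 0 < lam N := by linarith
  set s := Real.sqrt (lam N) with hs
  have hs0 : 0 < s := Real.sqrt_pos.2 hL0
  have hss : s * s = lam N := Real.mul_self_sqrt hL0.le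
  have hs16 : 16 ≤ s := by
    rw [hs]
    exact Real.le_sqrt_of_sq_le (by norm_num; linarith)
  have hrho1 : ∀ x, K x * Real.exp (v x) ≤ 1 := by
    intro x
    by_cases hx : x ∈ Lat
    · rw [(hG.zero_iff x).2 hx]; norm_num
    · have hK : 0 < K x := lt_of_le_of_ne (hG.nonneg x)
        (fun h => hx ((hG.zero_iff x).1 h.symm))
      have h1 := hbd1 x hx
      unfold om0 at h1
      rw [← Real.exp_log hK, ← Real.exp_add]
      exact Real.exp_le_one_iff.2 h1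
  have hrho0 : ∀ x, 0 ≤ K x * Real.exp (v x) := fun x =>
    mul_nonneg (hG.nonneg x) (Real.exp_pos _).le
  -- bound of g on the ring
  have hgM : ∀ x : ℝ × ℝ, 1 / 16 ≤ |x.1| → |x.1| ≤ 1 / 4 → |x.2| ≤ 1 / 4 →
      |gf R N v x| ≤ C1 / (2 * s) := by
    intro x h1 h2 h3
    have hxB : x ∈ Box 1 := ⟨by linarith, by linarith⟩
    have hx0 : x ≠ 0 := by
      rintro rfl
      simp at h1
      linarith
    obtain ⟨a1, a2⟩ := hgrad N v hN1 hv x (Or.inl h1) h2 h3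
    rw [← hgid x hxB hx0]
    have b1 : |x.1 * D2 (om0 K v) x| ≤ 1 / 4 * (C1 / s) := by
      rw [abs_mul]
      exact mul_le_mul h2 a2 (abs_nonneg _) (by norm_num)
    have b2 : |x.2 * D1 (om0 K v) x| ≤ 1 / 4 * (C1 / s) := by
      rw [abs_mul]
      exact mul_le_mul h3 a1 (abs_nonneg _) (by norm_num)
    calc |x.1 * D2 (om0 K v) x - x.2 * D1 (om0 K v) x|
        ≤ |x.1 * D2 (om0 K v) x| + |x.2 * D1 (om0 K v) x| := abs_sub _ _
      _ ≤ 1 / 4 * (C1 / s) + 1 / 4 * (C1 / s) := add_le_add b1 b2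
      _ = C1 / (2 * s) := by field_simp; ring
  have hgs2 : ContDiffOn ℝ 2 (gf R N v) (Box 1) := fun x hx => by
    have := (peq_le (hgs.contDiffAt (peq_nhds hx)) 2).contDiffWithinAt (s := Box 1)
    exact_mod_cast this
  have hd16 : 1 / s ≤ 1 / 16 := by
    apply one_div_le_one_div_of_le <;> linarith
  -- gradient on the side
  have hD : ∀ t : ℝ, 0 ≤ t → t ≤ 1 / 8 → |D2 (gf R N v) (1 / 8, t)| ≤ 5 / 4 * C1 := by
    intro t ht0 ht1
    have hbox : ∀ x : ℝ × ℝ, |x.1 - 1 / 8| ≤ 1 / s → |x.2 - t| ≤ 1 / s →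
        1 / 16 ≤ |x.1| ∧ |x.1| ≤ 1 / 4 ∧ |x.2| ≤ 1 / 4 := by
      intro x h1 h2
      have h1' := abs_le.1 (h1.trans hd16)
      have h2' := abs_le.1 (h2.trans hd16)
      have h3 : 1 / 16 ≤ x.1 := by linarith [h1'.1]
      rw [abs_of_nonneg (by linarith : (0:ℝ) ≤ x.1)]
      exact ⟨h3, by linarith [h1'.2], abs_le.2 ⟨by linarith [h2'.1], by linarith [h2'.2]⟩⟩
    have h := (tool_grad (f := gf R N v) (a := (1 / 8, t)) (d := 1 / s) (M := C1 / (2 * s))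
      (K := lam N * (C1 / (2 * s))) (by positivity) (peq_isOpen_Box 1) ?_ hgs2 ?_ ?_).2
    · refine h.trans (le_of_eq ?_)
      rw [← hss]
      field_simp
      ring
    · intro x hx
      obtain ⟨a, b, c⟩ := hbox x hx.1 hx.2
      exact ⟨by linarith, by linarith⟩
    · intro x h1 h2
      obtain ⟨a, b, c⟩ := hbox x h1 h2
      exact hgM x a b c
    · intro x h1 h2
      obtain ⟨a, b, c⟩ := hbox x h1 h2
      rw [hgL x ⟨by linarith, by linarith⟩, abs_mul, abs_of_nonneg (mul_nonneg hL0.le (hrho0 x))]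
      have q1 : lam N * (K x * Real.exp (v x)) ≤ lam N * 1 :=
        mul_le_mul_of_nonneg_left (hrho1 x) hL0.le
      calc lam N * (K x * Real.exp (v x)) * |gf R N v x|
          ≤ lam N * 1 * (C1 / (2 * s)) :=
            mul_le_mul q1 (hgM x a b c) (abs_nonneg _) (by positivity)
        _ = lam N * (C1 / (2 * s)) := by ring
  -- zeros of g
  have hz0 : ∀ t : ℝ, 0 ≤ t → t ≤ 1 / 8 → gf R N v (t, 0) = 0 := by
    intro t h0 h1
    have hB : ((t, 0) : ℝ × ℝ) ∈ Box 1 := by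
      refine ⟨?_, by simp⟩
      simp only; rw [abs_of_nonneg h0]; linarith
    have := (hsym _ hB).2.1
    simp only [neg_zero] at this
    linarith
  have hzd : ∀ t : ℝ, 0 ≤ t → t ≤ 1 / 8 → gf R N v (t, t) = 0 := by
    intro t h0 h1
    have hB : ((t, t) : ℝ × ℝ) ∈ Box 1 := by
      refine ⟨?_, ?_⟩ <;> (simp only; rw [abs_of_nonneg h0]; linarith)
    have := (hsym _ hB).2.2
    simp only at this
    linarith
  have hsd := pg_side hgs2 hD (hz0 (1 / 8) (by norm_num) le_rfl)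
    (hzd (1 / 8) (by norm_num) le_rfl)
  have hside : ∀ t : ℝ, 0 ≤ t → t ≤ 1 / 8 →
      |gf R N v (1 / 8, t)| ≤ 256 * (5 / 4 * C1) * pgB (1 / 8, t) := by
    intro t h0 h1
    obtain ⟨k0, k1⟩ := hsd t h0 h1
    have e : 256 * (5 / 4 * C1) * pgB (1 / 8, t) =
        (5 / 4 * C1) * (128 * t * (1 / 8 - t) * (1 / 8 + t)) := by unfold pgB; ring
    rw [e]
    have hc : 0 ≤ 5 / 4 * C1 := by positivity
    have h1t : 0 ≤ 1 / 8 - t := by linarith
    rcases le_total t (1 / 16) with h | h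
    · refine k0.trans (mul_le_mul_of_nonneg_left ?_ hc)
      have q : 1 / 128 ≤ (1 / 8 - t) * (1 / 8 + t) := by nlinarith
      nlinarith
    · refine k1.trans (mul_le_mul_of_nonneg_left ?_ hc)
      have q : 1 / 128 ≤ t * (1 / 8 + t) := by nlinarith
      nlinarith
  have hA : (0:ℝ) ≤ 256 * (5 / 4 * C1) := by positivity
  have hc0 : ∀ x, 0 ≤ lam N * (K x * Real.exp (v x)) := fun x => mul_nonneg hL0.le (hrho0 x)
  have up : ∀ x : ℝ × ℝ, 0 ≤ x.2 → x.2 ≤ x.1 → x.1 ≤ 1 / 8 →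
      gf R N v x ≤ 256 * (5 / 4 * C1) * pgB x :=
    pg_tri (c := fun x => lam N * (K x * Real.exp (v x))) hgs2 hc0 hgL hz0 hzd
      (fun t h0 h1 => (le_abs_self _).trans (hside t h0 h1)) hA
  have dn : ∀ x : ℝ × ℝ, 0 ≤ x.2 → x.2 ≤ x.1 → x.1 ≤ 1 / 8 →
      -gf R N v x ≤ 256 * (5 / 4 * C1) * pgB x :=
    pg_tri (f := fun x => -gf R N v x) (c := fun x => lam N * (K x * Real.exp (v x)))
      hgs2.neg hc0
      (fun x hx => by rw [Lap_neg, hgL x hx]; ring)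
      (fun t h0 h1 => by rw [hz0 t h0 h1]; ring)
      (fun t h0 h1 => by rw [hzd t h0 h1]; ring)
      (fun t h0 h1 => (neg_le_abs _).trans (hside t h0 h1)) hA
  have key : ∀ a b : ℝ, 0 ≤ b → b ≤ a → a ≤ 1 / 8 →
      |gf R N v (a, b)| ≤ 256 * (5 / 4 * C1) * nsq (a, b) ^ 2 := by
    intro a b h0 h1 h2
    refine (abs_le'.2 ⟨up (a, b) h0 h1 h2, dn (a, b) h0 h1 h2⟩).trans ?_
    exact mul_le_mul_of_nonneg_left (pgB_le _) hA
  have key2 : ∀ a b : ℝ, 0 ≤ a → 0 ≤ b → a ≤ 1 / 8 → b ≤ 1 / 8 →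
      |gf R N v (a, b)| ≤ 256 * (5 / 4 * C1) * nsq (a, b) ^ 2 := by
    intro a b h0 h1 h2 h3
    rcases le_total b a with h | h
    · exact key a b h1 h h2
    · have hB : ((b, a) : ℝ × ℝ) ∈ Box 1 := by
        refine ⟨?_, ?_⟩
        · simp only; rw [abs_of_nonneg h1]; linarith
        · simp only; rw [abs_of_nonneg h0]; linarith
      have e := (hsym _ hB).2.2
      simp only at e
      rw [e, abs_neg]
      have e2 : nsq (a, b) = nsq (b, a) := by unfold nsq; ring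
      rw [e2]
      exact key b a h0 h h3
  have key3 : ∀ a b : ℝ, 0 ≤ a → a ≤ 1 / 8 → |b| ≤ 1 / 8 →
      |gf R N v (a, b)| ≤ 256 * (5 / 4 * C1) * nsq (a, b) ^ 2 := by
    intro a b h0 h1 h2
    rcases le_total 0 b with h | h
    · exact key2 a b h0 h h1 (by rwa [abs_of_nonneg h] at h2)
    · rw [abs_of_nonpos h] at h2
      have hB : ((a, -b) : ℝ × ℝ) ∈ Box 1 := by
        refine ⟨?_, ?_⟩
        · simp only; rw [abs_of_nonneg h0]; linarith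
        · simp only; rw [abs_of_nonneg (by linarith)]; linarith
      have e := (hsym _ hB).2.1
      simp only [neg_neg] at e
      rw [e, abs_neg]
      have e2 : nsq (a, b) = nsq (a, -b) := by unfold nsq; ring
      rw [e2]
      exact key2 a (-b) h0 (by linarith) h1 h2
  rintro ⟨a, b⟩ ha hb
  simp only at ha hb
  rcases le_total 0 a with h | h
  · exact key3 a b h (by rwa [abs_of_nonneg h] at ha) hb
  · rw [abs_of_nonpos h] at ha
    have hB : ((-a, b) : ℝ × ℝ) ∈ Box 1 := by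
      refine ⟨?_, ?_⟩
      · simp only; rw [abs_of_nonneg (by linarith)]; linarith
      · simp only; linarith
    have e := (hsym _ hB).1
    simp only [neg_neg] at e
    rw [e, abs_neg]
    have e2 : nsq (a, b) = nsq (-a, b) := by unfold nsq; ring
    rw [e2]
    exact key3 (-a) b (by linarith) ha hb

end Pool.Agent.AO
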