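import Pool.Agent.Lib.MP_10e52e_an.Green
import Pool.Agent.Lib.MP_10e52e_an.Comp
import Pool.Agent.Lib.MP_10e52e_an.Cbd
import Pool.Agent.Lib.MP_10e52e_an.Tgrad
import Pool.Agent.Lib.MP_10e52e_an.Calc
import Pool.Agent.Lib.MP_10e52e_an.Peq
import Pool.Agent.Lib.MP_10e52e_an.Pg

/-! MP_10e52e_an row Posc: L6.3 -/

namespace Pool.Agent.AO

open MeasureTheory Set Real
open scoped ContDiff

/-- `d_theta (x . grad H) = x . grad (d_theta H)` -/
theorem posc_key {H : ℝ × ℝ → ℝ} {x : ℝ × ℝ} (hH : ContDiffAt ℝ 2 H x) :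
    x.1 * D2 (fun y => y.1 * D1 H y + y.2 * D2 H y) x
      - x.2 * D1 (fun y => y.1 * D1 H y + y.2 * D2 H y) x =
    x.1 * D1 (fun y => y.1 * D2 H y - y.2 * D1 H y) x
      + x.2 * D2 (fun y => y.1 * D2 H y - y.2 * D1 H y) x := by
  have h1 : DifferentiableAt ℝ (D1 H) x := differentiableAt_D1 hH
  have h2 : DifferentiableAt ℝ (D2 H) x := differentiableAt_D2 hH
  have f1 : DifferentiableAt ℝ (fun y : ℝ × ℝ => y.1) x := differentiableAt_fst
  have f2 : DifferentiableAt ℝ (fun y : ℝ × ℝ => y.2) x := differentiableAt_snd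
  have hc := D1_D2_comm hH
  have a1 : D2 (fun y => y.1 * D1 H y + y.2 * D2 H y) x =
      (D2 (fun y : ℝ × ℝ => y.1) x * D1 H x + x.1 * D2 (D1 H) x) +
      (D2 (fun y : ℝ × ℝ => y.2) x * D2 H x + x.2 * D2 (D2 H) x) := by
    rw [← D2_mul f1 h1, ← D2_mul f2 h2]; exact D2_add (f1.mul h1) (f2.mul h2)
  have a2 : D1 (fun y => y.1 * D1 H y + y.2 * D2 H y) x =
      (D1 (fun y : ℝ × ℝ => y.1) x * D1 H x + x.1 * D1 (D1 H) x) +
      (D1 (fun y : ℝ × ℝ => y.2) x * D2 H x + x.2 * D1 (D2 H) x) := by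
    rw [← D1_mul f1 h1, ← D1_mul f2 h2]; exact D1_add (f1.mul h1) (f2.mul h2)
  have a3 : D1 (fun y => y.1 * D2 H y - y.2 * D1 H y) x =
      (D1 (fun y : ℝ × ℝ => y.1) x * D2 H x + x.1 * D1 (D2 H) x) -
      (D1 (fun y : ℝ × ℝ => y.2) x * D1 H x + x.2 * D1 (D1 H) x) := by
    rw [← D1_mul f1 h2, ← D1_mul f2 h1]; exact D1_sub (f1.mul h2) (f2.mul h1)
  have a4 : D2 (fun y => y.1 * D2 H y - y.2 * D1 H y) x =
      (D2 (fun y : ℝ × ℝ => y.1) x * D2 H x + x.1 * D2 (D2 H) x) -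
      (D2 (fun y : ℝ × ℝ => y.2) x * D1 H x + x.2 * D2 (D1 H) x) := by
    rw [← D2_mul f1 h2, ← D2_mul f2 h1]; exact D2_sub (f1.mul h2) (f2.mul h1)
  rw [a1, a2, a3, a4, D1_fst, D2_fst, D1_snd, D2_snd, hc]
  ring

theorem posc_isOpen_Box : IsOpen (Box 1) := by
  unfold Box
  exact (isOpen_lt (continuous_abs.comp continuous_fst) continuous_const).inter
    (isOpen_lt (continuous_abs.comp continuous_snd) continuous_const)

theorem posc_abs_le {x : ℝ × ℝ} {r : ℝ} (hr : 0 ≤ r) (h : nsq x = r ^ 2) :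
    |x.1| ≤ r ∧ |x.2| ≤ r := by
  unfold nsq at h
  constructor
  · exact abs_le_of_sq_le_sq (by nlinarith [sq_nonneg x.2]) hr
  · exact abs_le_of_sq_le_sq (by nlinarith [sq_nonneg x.1]) hr

/-- polar coordinates -/
theorem posc_polar {x : ℝ × ℝ} {r : ℝ} (hr : 0 ≤ r) (h : nsq x = r ^ 2) :
    ∃ a : ℝ, |a| ≤ π ∧ x = (r * Real.cos a, r * Real.sin a) := by
  have hn : ‖(⟨x.1, x.2⟩ : ℂ)‖ = r := by
    rw [Complex.norm_def, Complex.normSq_mk]
    have : x.1 * x.1 + x.2 * x.2 = r ^ 2 := by rw [← h]; unfold nsq; ring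
    rw [this, Real.sqrt_sq hr]
  refine ⟨Complex.arg ⟨x.1, x.2⟩, Complex.abs_arg_le_pi _, ?_⟩
  have h1 := Complex.norm_mul_cos_arg (⟨x.1, x.2⟩ : ℂ)
  have h2 := Complex.norm_mul_sin_arg (⟨x.1, x.2⟩ : ℂ)
  rw [hn] at h1 h2
  exact Prod.ext h1.symm h2.symm

/-- L6.3 -/
theorem psi_osc {K R : ℝ × ℝ → ℝ} (hG : IsGreen K R) {Cb : ℝ} (hCb : 0 < Cb) :
    ∃ C : ℝ, 0 < C ∧ ∃ N0 : ℕ, ∀ (N : ℕ) (v : ℝ × ℝ → ℝ), N0 ≤ N → IsComp K Cb N v →
      ∀ x y : ℝ × ℝ, nsq x = nsq y → nrm x ≤ 1 / 16 →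
        |psif R N v x - psif R N v y| ≤ C * (1 + lam N * nsq x) * nsq x ^ 2 := by
  obtain ⟨C1, hC1, N1, h1⟩ := g_bound hG hCb
  obtain ⟨C2, hC2, h2⟩ := comp_bounds hG hCb
  refine ⟨168 * C1 * (2 * π), by positivity, max 3 N1, ?_⟩
  intro N v hN hv x y hxy hx
  have hN3 : 3 ≤ N := le_trans (le_max_left _ _) hN
  have hN1 : N1 ≤ N := le_trans (le_max_right _ _) hN
  have hlam : 0 < lam N := by
    unfold lam
    have h3 : (3 : ℝ) ≤ N := by exact_mod_cast hN3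
    have h4 : 0 < (N : ℝ) - 1 := by linarith
    positivity
  obtain ⟨hneg, -, -⟩ := h2 N v hN3 hv
  have hgb := h1 N v hN1 hv
  obtain ⟨hcH, hcg, hcpsi, -, hLg, -, -, -, -, -⟩ := psi_eqs hG hv
  set r : ℝ := nrm x with hr
  have hr0 : 0 ≤ r := Real.sqrt_nonneg _
  have hnx : nsq x = r ^ 2 := by
    rw [hr]; unfold nrm; rw [Real.sq_sqrt]; unfold nsq; positivity
  have hny : nsq y = r ^ 2 := by rw [← hxy, hnx]
  -- the degenerate case
  rcases hr0.eq_or_lt with h0 | hrpos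
  · have ex : x = 0 := by
      obtain ⟨a1, a2⟩ := posc_abs_le hr0 hnx
      rw [← h0] at a1 a2
      exact Prod.ext (abs_nonpos_iff.1 a1) (abs_nonpos_iff.1 a2)
    have ey : y = 0 := by
      obtain ⟨a1, a2⟩ := posc_abs_le hr0 hny
      rw [← h0] at a1 a2
      exact Prod.ext (abs_nonpos_iff.1 a1) (abs_nonpos_iff.1 a2)
    rw [ex, ey, sub_self, abs_zero]
    have : (0 : ℝ) ≤ nsq 0 := by unfold nsq; positivity
    positivity
  -- `0 <= K e^v <= 1`
  have hKe : ∀ z, 0 ≤ K z * Real.exp (v z) ∧ K z * Real.exp (v z) ≤ 1 := by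
    intro z
    have hK0 := hG.nonneg z
    refine ⟨mul_nonneg hK0 (Real.exp_pos _).le, ?_⟩
    by_cases hz : z ∈ Lat
    · rw [(hG.zero_iff z).2 hz]; simp
    · have hKp : 0 < K z := lt_of_le_of_ne hK0 fun h => hz ((hG.zero_iff z).1 h.symm)
      have h5 := hneg z hz
      unfold om0 at h5
      calc K z * Real.exp (v z) = Real.exp (Real.log (K z) + v z) := by
            rw [Real.exp_add, Real.exp_log hKp]
        _ ≤ 1 := by rw [Real.exp_le_one_iff]; exact h5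
  -- bound of `k`
  have hk : ∀ z : ℝ × ℝ, nsq z = r ^ 2 →
      |z.1 * D1 (gf R N v) z + z.2 * D2 (gf R N v) z| ≤
        168 * C1 * (1 + lam N * r ^ 2) * (r ^ 2) ^ 2 := by
    intro z hz
    obtain ⟨z1, z2⟩ := posc_abs_le hr0 hz
    have hd : 0 < r / 2 := by positivity
    have hnear : ∀ w : ℝ × ℝ, |w.1 - z.1| ≤ r / 2 → |w.2 - z.2| ≤ r / 2 →
        |w.1| ≤ 3 * r / 2 ∧ |w.2| ≤ 3 * r / 2 := by
      intro w hw1 hw2
      constructor
      · calc |w.1| = |(w.1 - z.1) + z.1| := by ring_nf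
          _ ≤ |w.1 - z.1| + |z.1| := abs_add_le _ _
          _ ≤ _ := by linarith
      · calc |w.2| = |(w.2 - z.2) + z.2| := by ring_nf
          _ ≤ |w.2 - z.2| + |z.2| := abs_add_le _ _
          _ ≤ _ := by linarith
    have hbox : ∀ w : ℝ × ℝ, |w.1 - z.1| ≤ r / 2 → |w.2 - z.2| ≤ r / 2 → w ∈ Box 1 := by
      intro w hw1 hw2
      obtain ⟨b1, b2⟩ := hnear w hw1 hw2
      constructor <;> linarith
    have hM : ∀ w : ℝ × ℝ, |w.1 - z.1| ≤ r / 2 → |w.2 - z.2| ≤ r / 2 →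
        |gf R N v w| ≤ 21 * C1 * r ^ 4 := by
      intro w hw1 hw2
      obtain ⟨b1, b2⟩ := hnear w hw1 hw2
      have hb := hgb w (by linarith) (by linarith)
      have hn : nsq w ≤ 9 / 2 * r ^ 2 := by
        unfold nsq
        have c1 : w.1 ^ 2 ≤ (3 * r / 2) ^ 2 := sq_le_sq' (by linarith [(abs_le.1 b1).1])
          (abs_le.1 b1).2
        have c2 : w.2 ^ 2 ≤ (3 * r / 2) ^ 2 := sq_le_sq' (by linarith [(abs_le.1 b2).1])
          (abs_le.1 b2).2
        nlinarith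
      have hn0 : 0 ≤ nsq w := by unfold nsq; positivity
      have hn2 : nsq w ^ 2 ≤ (9 / 2 * r ^ 2) ^ 2 := pow_le_pow_left₀ hn0 hn 2
      have hn3 : nsq w ^ 2 ≤ 21 * r ^ 4 := by nlinarith [pow_nonneg hr0 4]
      calc |gf R N v w| ≤ C1 * nsq w ^ 2 := hb
        _ ≤ C1 * (21 * r ^ 4) := mul_le_mul_of_nonneg_left hn3 hC1.le
        _ = _ := by ring
    have hL : ∀ w : ℝ × ℝ, |w.1 - z.1| ≤ r / 2 → |w.2 - z.2| ≤ r / 2 →
        |Lap (gf R N v) w| ≤ lam N * (21 * C1 * r ^ 4) := by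
      intro w hw1 hw2
      rw [hLg w (hbox w hw1 hw2), abs_mul]
      obtain ⟨k0, k1⟩ := hKe w
      rw [abs_of_nonneg (mul_nonneg hlam.le k0)]
      have : lam N * (K w * Real.exp (v w)) ≤ lam N := by nlinarith
      exact mul_le_mul this (hM w hw1 hw2) (abs_nonneg _) hlam.le
    have hsub : {w : ℝ × ℝ | |w.1 - z.1| ≤ r / 2 ∧ |w.2 - z.2| ≤ r / 2} ⊆ Box 1 :=
      fun w hw => hbox w hw.1 hw.2
    obtain ⟨g1, g2⟩ := tool_grad hd posc_isOpen_Box hsub (hcg.of_le (by norm_cast)) hM hL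
    set B : ℝ := 2 * (21 * C1 * r ^ 4) / (r / 2) + lam N * (21 * C1 * r ^ 4) * (r / 2) / 2 with hB
    have hB0 : 0 ≤ B := le_trans (abs_nonneg _) g1
    have hBr : r * B = 84 * C1 * r ^ 4 + 21 / 4 * lam N * C1 * r ^ 6 := by
      rw [hB]; field_simp; ring
    calc |z.1 * D1 (gf R N v) z + z.2 * D2 (gf R N v) z|
        ≤ |z.1 * D1 (gf R N v) z| + |z.2 * D2 (gf R N v) z| := abs_add_le _ _
      _ = |z.1| * |D1 (gf R N v) z| + |z.2| * |D2 (gf R N v) z| := by rw [abs_mul, abs_mul]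
      _ ≤ r * B + r * B := add_le_add (mul_le_mul z1 g1 (abs_nonneg _) hr0)
          (mul_le_mul z2 g2 (abs_nonneg _) hr0)
      _ = 168 * C1 * r ^ 4 + 21 / 2 * lam N * C1 * r ^ 6 := by rw [hBr]; ring
      _ ≤ 168 * C1 * (1 + lam N * r ^ 2) * (r ^ 2) ^ 2 := by
          have : 0 ≤ lam N * C1 * r ^ 6 := by positivity
          nlinarith
  -- integrate along the circle
  obtain ⟨a, ha, hxa⟩ := posc_polar hr0 hnx
  obtain ⟨b, hb, hyb⟩ := posc_polar hr0 hny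
  have hcirc : ∀ t : ℝ, nsq (r * Real.cos t, r * Real.sin t) = r ^ 2 := by
    intro t
    unfold nsq
    have := Real.sin_sq_add_cos_sq t
    simp only
    nlinarith
  have hder : ∀ t ∈ (univ : Set ℝ), HasDerivWithinAt
      (fun t : ℝ => psif R N v (r * Real.cos t, r * Real.sin t))
      ((r * Real.cos t) * D1 (gf R N v) (r * Real.cos t, r * Real.sin t) +
        (r * Real.sin t) * D2 (gf R N v) (r * Real.cos t, r * Real.sin t)) univ t := by
    intro t _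
    set p : ℝ × ℝ := (r * Real.cos t, r * Real.sin t) with hp
    obtain ⟨p1, p2⟩ := posc_abs_le hr0 (hcirc t)
    have hpB : p ∈ Box 1 := by
      constructor
      · exact lt_of_le_of_lt p1 (by linarith)
      · exact lt_of_le_of_lt p2 (by linarith)
    have hnh : Box 1 ∈ nhds p := posc_isOpen_Box.mem_nhds hpB
    have hdpsi : DifferentiableAt ℝ (psif R N v) p :=
      ((hcpsi.of_le (by norm_cast) : ContDiffOn ℝ 1 (psif R N v) (Box 1)).contDiffAt
        hnh).differentiableAt (by norm_num)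
    have hH2 : ContDiffAt ℝ 2 (Hf R N v) p :=
      (hcH.of_le (by norm_cast) : ContDiffOn ℝ 2 (Hf R N v) (Box 1)).contDiffAt hnh
    have hc1 : HasDerivAt (fun t : ℝ => r * Real.cos t) (r * -Real.sin t) t :=
      (Real.hasDerivAt_cos t).const_mul r
    have hc2 : HasDerivAt (fun t : ℝ => r * Real.sin t) (r * Real.cos t) t :=
      (Real.hasDerivAt_sin t).const_mul r
    have hcc : HasDerivAt (fun t : ℝ => ((r * Real.cos t, r * Real.sin t) : ℝ × ℝ))
        (r * -Real.sin t, r * Real.cos t) t := hc1.prodMk hc2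
    have hd := hdpsi.hasFDerivAt.comp_hasDerivAt t hcc
    have hkey := posc_key hH2
    have e1 : fderiv ℝ (psif R N v) p (r * -Real.sin t, r * Real.cos t) =
        (r * Real.cos t) * D1 (gf R N v) p + (r * Real.sin t) * D2 (gf R N v) p := by
      have e2 := Dv_eq (psif R N v) (r * -Real.sin t, r * Real.cos t) p
      have e3 : Dv (r * -Real.sin t, r * Real.cos t) (psif R N v) p =
        fderiv ℝ (psif R N v) p (r * -Real.sin t, r * Real.cos t) := rfl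
      rw [← e3, e2]
      have e4 : p.1 * D2 (psif R N v) p - p.2 * D1 (psif R N v) p =
        p.1 * D1 (gf R N v) p + p.2 * D2 (gf R N v) p := hkey
      have e5 : p.1 = r * Real.cos t := rfl
      have e6 : p.2 = r * Real.sin t := rfl
      rw [e5, e6] at e4
      linarith
    rw [← e1]
    exact hd.hasDerivWithinAt
  have hbd : ∀ t ∈ (univ : Set ℝ),
      ‖(r * Real.cos t) * D1 (gf R N v) (r * Real.cos t, r * Real.sin t) +
        (r * Real.sin t) * D2 (gf R N v) (r * Real.cos t, r * Real.sin t)‖ ≤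
        168 * C1 * (1 + lam N * r ^ 2) * (r ^ 2) ^ 2 := by
    intro t _
    rw [Real.norm_eq_abs]
    exact hk _ (hcirc t)
  have hmv := Convex.norm_image_sub_le_of_norm_hasDerivWithin_le hder hbd convex_univ
    (mem_univ b) (mem_univ a)
  rw [Real.norm_eq_abs, Real.norm_eq_abs] at hmv
  rw [← hxa, ← hyb] at hmv
  have hab : |a - b| ≤ 2 * π := by
    calc |a - b| ≤ |a| + |b| := abs_sub _ _
      _ ≤ _ := by linarith
  rw [hnx]
  calc |psif R N v x - psif R N v y| ≤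
        168 * C1 * (1 + lam N * r ^ 2) * (r ^ 2) ^ 2 * |a - b| := hmv
    _ ≤ 168 * C1 * (1 + lam N * r ^ 2) * (r ^ 2) ^ 2 * (2 * π) :=
        mul_le_mul_of_nonneg_left hab (by positivity)
    _ = _ := by ring

end Pool.Agent.AO
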