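import Pool.Agent.Lib.MP_10e52e_an.Green
import Pool.Agent.Lib.MP_10e52e_an.Comp
import Pool.Agent.Lib.MP_10e52e_an.Peq
import Pool.Agent.Lib.MP_10e52e_an.Posc
import Pool.Agent.Lib.MP_10e52e_an.Calc

/-! MP_10e52e_an row Plow: L6.4 -/

namespace Pool.Agent.AO

open MeasureTheory Set Real
open scoped ContDiff

theorem plow_contDiff_nsq : ContDiff ℝ ∞ nsq := by
  unfold nsq
  fun_prop

theorem plow_D1_nsq : D1 nsq = fun x => 2 * x.1 := by
  funext x
  have h1 : HasDerivAt (fun t : ℝ => t ^ 2) (2 * x.1) x.1 := by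
    simpa using hasDerivAt_pow 2 x.1
  have h2 : HasDerivAt (fun t : ℝ => t ^ 2) (2 * x.2) x.2 := by
    simpa using hasDerivAt_pow 2 x.2
  have e : nsq = fun y : ℝ × ℝ => y.1 ^ 2 + y.2 ^ 2 := rfl
  rw [e, D1_add (f := fun y : ℝ × ℝ => y.1 ^ 2) (g := fun y : ℝ × ℝ => y.2 ^ 2)
    (by fun_prop) (by fun_prop)]
  have a := D1_comp_fst h1
  have b := D1_comp_snd h2
  rw [a, b]
  ring

theorem plow_D2_nsq : D2 nsq = fun x => 2 * x.2 := by
  funext x
  have h1 : HasDerivAt (fun t : ℝ => t ^ 2) (2 * x.1) x.1 := by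
    simpa using hasDerivAt_pow 2 x.1
  have h2 : HasDerivAt (fun t : ℝ => t ^ 2) (2 * x.2) x.2 := by
    simpa using hasDerivAt_pow 2 x.2
  have e : nsq = fun y : ℝ × ℝ => y.1 ^ 2 + y.2 ^ 2 := rfl
  rw [e, D2_add (f := fun y : ℝ × ℝ => y.1 ^ 2) (g := fun y : ℝ × ℝ => y.2 ^ 2)
    (by fun_prop) (by fun_prop)]
  have a := D2_comp_fst h1
  have b := D2_comp_snd h2
  rw [a, b]
  ring

theorem plow_Lap_nsq (x : ℝ × ℝ) : Lap nsq x = 4 := by
  unfold Lap
  rw [plow_D1_nsq, plow_D2_nsq]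
  have h1 : HasDerivAt (fun t : ℝ => 2 * t) 2 x.1 := by
    simpa using (hasDerivAt_id x.1).const_mul 2
  have h2 : HasDerivAt (fun t : ℝ => 2 * t) 2 x.2 := by
    simpa using (hasDerivAt_id x.2).const_mul 2
  have a := D1_comp_fst h1
  have b := D2_comp_snd h2
  rw [a, b]
  norm_num

theorem plow_nsq_nonneg (x : ℝ × ℝ) : 0 ≤ nsq x := by
  unfold nsq; positivity

theorem plow_contDiff_q {b : ℝ} (hb : 0 < b) :
    ContDiff ℝ ∞ (fun x : ℝ × ℝ => nsq x ^ 2 / (nsq x + b)) := by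
  apply ContDiff.div
  · exact plow_contDiff_nsq.pow 2
  · exact plow_contDiff_nsq.add contDiff_const
  · intro x
    have := plow_nsq_nonneg x
    positivity

theorem plow_Lap_q {b : ℝ} (hb : 0 < b) (x : ℝ × ℝ) :
    Lap (fun x : ℝ × ℝ => nsq x ^ 2 / (nsq x + b)) x ≤ 16 * (nsq x / (nsq x + b)) := by
  have ht := plow_nsq_nonneg x
  have hx : 0 < nsq x + b := by positivity
  have hnsq : ContDiffAt ℝ 2 nsq x := (plow_contDiff_nsq.of_le (by norm_cast)).contDiffAt
  have h1 : ∀ᶠ t in nhds (nsq x), HasDerivAt (fun t : ℝ => t ^ 2 / (t + b))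
      ((fun t : ℝ => 1 - b ^ 2 / (t + b) ^ 2) t) t := by
    have hopen : IsOpen {t : ℝ | 0 < t + b} := isOpen_lt continuous_const (by fun_prop)
    filter_upwards [hopen.mem_nhds hx] with t htb
    have htb' : t + b ≠ 0 := ne_of_gt htb
    have h := ((hasDerivAt_pow 2 t).div ((hasDerivAt_id t).add_const b) htb')
    refine h.congr_deriv ?_
    simp
    field_simp
    ring
  have h2 : HasDerivAt (fun t : ℝ => 1 - b ^ 2 / (t + b) ^ 2)
      (2 * b ^ 2 / (nsq x + b) ^ 3) (nsq x) := by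
    have hne : (nsq x + b) ^ 2 ≠ 0 := by positivity
    have hne' : nsq x + b ≠ 0 := ne_of_gt hx
    have h := ((hasDerivAt_const (nsq x) (b ^ 2)).div
      (((hasDerivAt_id (nsq x)).add_const b).pow 2) hne).const_sub 1
    refine h.congr_deriv ?_
    simp
    field_simp
  have h := Lap_comp hnsq h1 h2
  rw [h, plow_D1_nsq, plow_D2_nsq, plow_Lap_nsq]
  simp only
  have e : (2 * x.1) ^ 2 + (2 * x.2) ^ 2 = 4 * nsq x := by unfold nsq; ring
  rw [e]
  have hne' : nsq x + b ≠ 0 := ne_of_gt hx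
  have key : 16 * (nsq x / (nsq x + b)) -
      (2 * b ^ 2 / (nsq x + b) ^ 3 * (4 * nsq x) + (1 - b ^ 2 / (nsq x + b) ^ 2) * 4) =
      4 * nsq x ^ 2 * (3 * nsq x + 5 * b) / (nsq x + b) ^ 3 := by
    field_simp
    ring
  have : 0 ≤ 4 * nsq x ^ 2 * (3 * nsq x + 5 * b) / (nsq x + b) ^ 3 := by positivity
  linarith

/-- L6.4 -/
theorem psi_lower {K R : ℝ × ℝ → ℝ} (hG : IsGreen K R) {Cb : ℝ} (hCb : 0 < Cb) :
    ∃ C : ℝ, 0 < C ∧ ∃ N0 : ℕ, ∀ (N : ℕ) (v : ℝ × ℝ → ℝ), N0 ≤ N → IsComp K Cb N v →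
      ∀ x : ℝ × ℝ, nrm x ≤ 1 / 16 →
        lam N / 8 * nsq x ^ 2 / (nsq x + C / lam N) - C * (1 + lam N * nsq x) * nsq x ^ 2 ≤
          psif R N v x := by
  obtain ⟨C1, hC1, h1⟩ := comp_bounds hG hCb
  obtain ⟨C2, hC2, N2, h2⟩ := psi_osc hG hCb
  refine ⟨C1 + C2, by positivity, max 3 N2, ?_⟩
  intro N v hN hv x hx
  have hN3 : 3 ≤ N := le_trans (le_max_left _ _) hN
  have hN2 : N2 ≤ N := le_trans (le_max_right _ _) hN
  obtain ⟨_, _, hK⟩ := h1 N v hN3 hv
  have hmono := comp_mono hG hCb hN3 hv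
  obtain ⟨_, _, hcd, _, _, hLap, hphi, _, _, hpsi0⟩ := psi_eqs hG hv
  have hlam : 0 < lam N := by
    unfold lam
    have : (3 : ℝ) ≤ N := by exact_mod_cast hN3
    have hpi := Real.pi_pos
    have : 0 < (N : ℝ) - 1 := by linarith
    positivity
  set b : ℝ := (C1 + C2) / lam N with hb
  have hbpos : 0 < b := by positivity
  set t := nsq x with ht
  have ht0 : 0 ≤ t := plow_nsq_nonneg x
  -- the case x = 0
  by_cases hx0 : x = 0
  · have : t = 0 := by rw [ht, hx0]; simp [nsq]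
    rw [this]
    have h0 : psif R N v x = 0 := by rw [hx0]; exact hpsi0
    rw [h0]
    simp
  have hnpos : 0 < t := by
    rw [ht]
    unfold nsq
    have : x.1 ≠ 0 ∨ x.2 ≠ 0 := by
      by_contra hcon
      push Not at hcon
      exact hx0 (Prod.ext hcon.1 hcon.2)
    rcases this with h | h
    · have := sq_pos_of_ne_zero h
      positivity
    · have := sq_pos_of_ne_zero h
      positivity
  have hr : 0 < nrm x := by
    unfold nrm
    exact Real.sqrt_pos.2 hnpos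
  have habs : ∀ y : ℝ × ℝ, |y.1| ≤ nrm y ∧ |y.2| ≤ nrm y := by
    intro y
    unfold nrm nsq
    constructor
    · rw [← Real.sqrt_sq_eq_abs]
      exact Real.sqrt_le_sqrt (by nlinarith [sq_nonneg y.2])
    · rw [← Real.sqrt_sq_eq_abs]
      exact Real.sqrt_le_sqrt (by nlinarith [sq_nonneg y.1])
  have hbox : ∀ y : ℝ × ℝ, nrm y ≤ nrm x → y ∈ Box 1 := by
    intro y hy
    obtain ⟨a1, a2⟩ := habs y
    constructor <;> linarith
  have hQ : ∀ y : ℝ × ℝ, nrm y ≤ nrm x → y ∈ Q := by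
    intro y hy
    obtain ⟨a1, a2⟩ := habs y
    have b1 := abs_le.1 (show |y.1| ≤ 1 / 16 by linarith)
    have b2 := abs_le.1 (show |y.2| ≤ 1 / 16 by linarith)
    unfold Q
    refine Set.mem_prod.2 ⟨⟨?_, ?_⟩, ⟨?_, ?_⟩⟩ <;> linarith [b1.1, b1.2, b2.1, b2.2]
  have hopenBox : IsOpen (Box 1) := by
    unfold Box
    exact (isOpen_lt (continuous_abs.comp continuous_fst) continuous_const).inter
      (isOpen_lt (continuous_abs.comp continuous_snd) continuous_const)
  have hcdF : ContDiffOn ℝ 2 (fun y => psif R N v y -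
      lam N / 8 * (nsq y ^ 2 / (nsq y + b))) (Box 1) := by
    apply ContDiffOn.sub
    · exact hcd.of_le (by norm_cast)
    · apply ContDiffOn.mul contDiffOn_const
      exact ((plow_contDiff_q hbpos).of_le (by norm_cast)).contDiffOn
  have hlapF : ∀ y, nrm y ≤ nrm x → 0 ≤ Lap (fun y => psif R N v y -
      lam N / 8 * (nsq y ^ 2 / (nsq y + b))) y := by
    intro y hy
    have hyB := hbox y hy
    have hc1 : ContDiffAt ℝ 2 (psif R N v) y :=
      ((hcd.of_le (by norm_cast) : ContDiffOn ℝ 2 (psif R N v) (Box 1))).contDiffAt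
        (hopenBox.mem_nhds hyB)
    have hq : ContDiffAt ℝ 2 (fun x : ℝ × ℝ => nsq x ^ 2 / (nsq x + b)) y :=
      ((plow_contDiff_q hbpos).of_le (by norm_cast)).contDiffAt
    have hc2 : ContDiffAt ℝ 2 (fun y => lam N / 8 * (nsq y ^ 2 / (nsq y + b))) y :=
      contDiffAt_const.mul hq
    rw [Lap_sub hc1 hc2, Lap_const_mul hq, hLap y hyB]
    have hlq := plow_Lap_q hbpos y
    have hty : 0 ≤ nsq y := plow_nsq_nonneg y
    have hKy := hK y (hQ y hy)
    have hb1 : nsq y / (nsq y + b) ≤ nsq y / (nsq y + C1 / lam N) := by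
      apply div_le_div_of_nonneg_left hty (by positivity)
      have : C1 / lam N ≤ b := by
        rw [hb]
        apply div_le_div_of_nonneg_right _ hlam.le
        linarith
      linarith
    have hrho : nsq y / (nsq y + b) ≤ K y * Real.exp (v y) := le_trans hb1 hKy
    have hphi2 : 2 ≤ 4 + psif R N v y - lam N / 2 * nsq y := by
      by_cases hy0 : y = 0
      · rw [hy0, hpsi0]
        have : nsq 0 = 0 := by simp [nsq]
        rw [this]
        norm_num
      · have e1 := hphi y hyB hy0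
        obtain ⟨m1, m2⟩ := hmono y (hQ y hy) hy0
        linarith
    have hq0 : 0 ≤ nsq y / (nsq y + b) := by positivity
    have hs : 2 * (lam N * (nsq y / (nsq y + b))) ≤
        (4 + psif R N v y - lam N / 2 * nsq y) * (lam N * (K y * Real.exp (v y))) := by
      have hmul : lam N * (nsq y / (nsq y + b)) ≤ lam N * (K y * Real.exp (v y)) :=
        mul_le_mul_of_nonneg_left hrho hlam.le
      have h0 : 0 ≤ lam N * (nsq y / (nsq y + b)) := by positivity
      calc 2 * (lam N * (nsq y / (nsq y + b)))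
          ≤ 2 * (lam N * (K y * Real.exp (v y))) := by linarith
        _ ≤ _ := mul_le_mul_of_nonneg_right hphi2 (by linarith)
    have : lam N / 8 * Lap (fun x : ℝ × ℝ => nsq x ^ 2 / (nsq x + b)) y ≤
        lam N / 8 * (16 * (nsq y / (nsq y + b))) :=
      mul_le_mul_of_nonneg_left hlq (by positivity)
    linarith
  obtain ⟨y, hy, hF⟩ := tool_sub hr hopenBox (fun y hy => hbox y hy) hcdF hlapF
  have hF0 : psif R N v 0 - lam N / 8 * (nsq 0 ^ 2 / (nsq 0 + b)) = 0 := by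
    rw [hpsi0]
    simp [nsq]
  rw [hF0] at hF
  have hny : nsq y = t := by
    have h3 : Real.sqrt (nsq y) = Real.sqrt (nsq x) := hy
    have h4 : Real.sqrt (nsq y) ^ 2 = Real.sqrt (nsq x) ^ 2 := by rw [h3]
    rwa [Real.sq_sqrt (plow_nsq_nonneg y), Real.sq_sqrt (plow_nsq_nonneg x)] at h4
  have hosc := h2 N v hN2 hv x y hny.symm hx
  have hosc' := (abs_le.1 hosc).1
  rw [hny] at hF
  have hfin : C2 * (1 + lam N * t) * t ^ 2 ≤ (C1 + C2) * (1 + lam N * t) * t ^ 2 := by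
    have h5 : 0 ≤ (1 + lam N * t) * t ^ 2 := by positivity
    nlinarith
  have he : lam N / 8 * t ^ 2 / (t + b) = lam N / 8 * (t ^ 2 / (t + b)) := by ring
  rw [he]
  have hosc'' : -(C2 * (1 + lam N * t) * t ^ 2) ≤ psif R N v x - psif R N v y := hosc'
  linarith

end Pool.Agent.AO
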