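import Pool.Agent.Lib.MP_10e52e_an.Plow

/-! MP_10e52e_an row Pmain: L6.5 -/

namespace Pool.Agent.AO

open MeasureTheory Set Real
open scoped ContDiff

private lemma Pmain_aux {C CE l t n A D δ p : ℝ} (hC : 0 < C) (hCE : 0 < CE) (hl : 0 < l) (ht : 0 ≤ t)
    (hn : n ≤ l) (hA : A = 4 * π * C + CE) (hD : D = 1 + C) (hδ0 : 0 < δ) (hδ1 : δ ≤ 1)
    (hδA : δ * A ≤ π / (4 * D)) (hs : 1 + l * t ≤ δ * l)
    (hp : l / 8 * t ^ 2 / (t + C / l) - C * (1 + l * t) * t ^ 2 ≤ p) :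
    π / (4 * D) * ((l * t) ^ 2 / (1 + l * t)) ≤ 4 * π * p - CE * n * t ^ 2 := by
  have hπ := Real.pi_pos
  have hs0 : 0 ≤ l * t := mul_nonneg hl.le ht
  have hs1 : 0 < 1 + l * t := by linarith
  have hD0 : 0 < D := by rw [hD]; linarith
  have h1 : π / 2 * ((l * t) ^ 2 / (D * (1 + l * t))) ≤ 4 * π * (l / 8 * t ^ 2 / (t + C / l)) := by
    have hsC : 0 < l * t + C := by linarith
    have e1 : l / 8 * t ^ 2 / (t + C / l) = (l * t) ^ 2 / (l * t + C) / 8 := by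
      have h2 : t + C / l = (l * t + C) / l := by field_simp
      rw [h2]
      field_simp
    have h3 : l * t + C ≤ D * (1 + l * t) := by
      rw [hD]
      nlinarith [mul_nonneg hC.le hs0]
    have h4 : (l * t) ^ 2 / (D * (1 + l * t)) ≤ (l * t) ^ 2 / (l * t + C) :=
      div_le_div_of_nonneg_left (sq_nonneg _) hsC h3
    rw [e1]
    nlinarith
  have h2 : 4 * π * (C * (1 + l * t) * t ^ 2) + CE * l * t ^ 2 ≤
      π / (4 * D) * ((l * t) ^ 2 / (1 + l * t)) := by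
    have h3 : (4 * π * (C * (1 + l * t) * t ^ 2) + CE * l * t ^ 2) * (1 + l * t) ≤
        π / (4 * D) * (l * t) ^ 2 := by
      have h4 : (1 + l * t) ^ 2 ≤ δ * l ^ 2 := by
        have h5 : (1 + l * t) ^ 2 ≤ (δ * l) ^ 2 := pow_le_pow_left₀ hs1.le hs 2
        have h6 : (δ * l) ^ 2 ≤ δ * l ^ 2 := by
          nlinarith [mul_nonneg (mul_nonneg hδ0.le (sub_nonneg.2 hδ1)) (sq_nonneg l)]
        linarith
      have h7 : l * (1 + l * t) ≤ δ * l ^ 2 := by nlinarith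
      have h8 : 4 * π * C * (1 + l * t) ^ 2 + CE * (l * (1 + l * t)) ≤ π / (4 * D) * l ^ 2 := by
        have h9 : 4 * π * C * (1 + l * t) ^ 2 ≤ 4 * π * C * (δ * l ^ 2) :=
          mul_le_mul_of_nonneg_left h4 (by positivity)
        have h10 : CE * (l * (1 + l * t)) ≤ CE * (δ * l ^ 2) := mul_le_mul_of_nonneg_left h7 hCE.le
        have h11 : 4 * π * C * (δ * l ^ 2) + CE * (δ * l ^ 2) = δ * A * l ^ 2 := by rw [hA]; ring
        have h12 : δ * A * l ^ 2 ≤ π / (4 * D) * l ^ 2 := mul_le_mul_of_nonneg_right hδA (sq_nonneg l)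
        linarith
      have h13 := mul_le_mul_of_nonneg_right h8 (sq_nonneg t)
      calc (4 * π * (C * (1 + l * t) * t ^ 2) + CE * l * t ^ 2) * (1 + l * t)
          = (4 * π * C * (1 + l * t) ^ 2 + CE * (l * (1 + l * t))) * t ^ 2 := by ring
        _ ≤ π / (4 * D) * l ^ 2 * t ^ 2 := h13
        _ = π / (4 * D) * (l * t) ^ 2 := by ring
    rw [← mul_div_assoc, le_div_iff₀ hs1]
    exact h3
  have h3 : π / 2 * ((l * t) ^ 2 / (D * (1 + l * t))) = 2 * (π / (4 * D) * ((l * t) ^ 2 / (1 + l * t))) := by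
    field_simp
    ring
  have h4 : CE * n * t ^ 2 ≤ CE * l * t ^ 2 :=
    mul_le_mul_of_nonneg_right (mul_le_mul_of_nonneg_left hn hCE.le) (sq_nonneg t)
  have h5 : 4 * π * (l / 8 * t ^ 2 / (t + C / l) - C * (1 + l * t) * t ^ 2) ≤ 4 * π * p :=
    mul_le_mul_of_nonneg_left hp (by positivity)
  have h6 : 4 * π * (l / 8 * t ^ 2 / (t + C / l) - C * (1 + l * t) * t ^ 2) =
      4 * π * (l / 8 * t ^ 2 / (t + C / l)) - 4 * π * (C * (1 + l * t) * t ^ 2) := by ring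
  linarith

/-- L6.5 -/
theorem psi_main {K R : ℝ × ℝ → ℝ} (hG : IsGreen K R) {Cb : ℝ} (hCb : 0 < Cb) {CE : ℝ}
    (hCE : 0 < CE) : ∃ r2 : ℝ, 0 < r2 ∧ r2 ≤ 1 / 16 ∧ ∃ c : ℝ, 0 < c ∧ ∃ N0 : ℕ,
      ∀ (N : ℕ) (v : ℝ × ℝ → ℝ), N0 ≤ N → IsComp K Cb N v →
      ∀ x : ℝ × ℝ, nrm x ≤ r2 →
        c * ((lam N * nsq x) ^ 2 / (1 + lam N * nsq x)) ≤
          4 * π * psif R N v x - CE * N * nsq x ^ 2 := by
  obtain ⟨C, hC, N1, h⟩ := psi_lower hG hCb
  have hπ := Real.pi_pos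
  have hπ3 := Real.pi_gt_three
  set A : ℝ := 4 * π * C + CE with hA
  set D : ℝ := 1 + C with hD
  have hA0 : 0 < A := by positivity
  have hD0 : 0 < D := by positivity
  set δ : ℝ := min 1 (π / (4 * D) / A) with hδ
  have hδ0 : 0 < δ := lt_min one_pos (by positivity)
  have hδ1 : δ ≤ 1 := min_le_left _ _
  have hδA : δ * A ≤ π / (4 * D) := by
    have h1 : δ ≤ π / (4 * D) / A := min_le_right _ _
    exact (le_div_iff₀ hA0).1 h1
  set r2 : ℝ := min (1 / 16) (δ / 2) with hr2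
  have hr0 : 0 < r2 := lt_min (by norm_num) (by linarith)
  have hr16 : r2 ≤ 1 / 16 := min_le_left _ _
  have hrδ : r2 ≤ δ / 2 := min_le_right _ _
  refine ⟨r2, hr0, hr16, π / (4 * D), by positivity, max (max N1 2) (⌈2 / δ⌉₊ + 1), ?_⟩
  intro N v hN hv x hx
  have hN1 : N1 ≤ N := (le_max_left _ _).trans ((le_max_left _ _).trans hN)
  have hN2 : 2 ≤ N := (le_max_right _ _).trans ((le_max_left _ _).trans hN)
  have hN3 : ⌈2 / δ⌉₊ + 1 ≤ N := (le_max_right _ _).trans hN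
  have hN2' : (2 : ℝ) ≤ N := by exact_mod_cast hN2
  have hN3' : 2 / δ + 1 ≤ (N : ℝ) := by
    have h1 : 2 / δ ≤ (⌈2 / δ⌉₊ : ℝ) := Nat.le_ceil _
    have h2 : ((⌈2 / δ⌉₊ + 1 : ℕ) : ℝ) ≤ N := by exact_mod_cast hN3
    push_cast at h2
    linarith
  have hlam : lam N = 4 * π * ((N : ℝ) - 1) := rfl
  have hl1 : 12 * ((N : ℝ) - 1) ≤ lam N := by
    rw [hlam]
    nlinarith
  have hl0 : 0 < lam N := by linarith
  have hNl : (N : ℝ) ≤ lam N := by linarith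
  have hlδ : 2 / δ ≤ lam N := by linarith
  have hlδ' : 1 ≤ δ / 2 * lam N := by
    rw [div_le_iff₀ hδ0] at hlδ
    linarith
  have ht0 : 0 ≤ nsq x := add_nonneg (sq_nonneg _) (sq_nonneg _)
  have ht1 : nsq x ≤ δ / 2 := by
    have h1 : nrm x ^ 2 = nsq x := Real.sq_sqrt ht0
    have h2 : 0 ≤ nrm x := Real.sqrt_nonneg _
    have h3 : nrm x ^ 2 ≤ r2 ^ 2 := pow_le_pow_left₀ h2 hx 2
    have h4 : r2 ^ 2 ≤ r2 := by nlinarith
    linarith
  have hs : 1 + lam N * nsq x ≤ δ * lam N := by nlinarith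
  have hx16 : nrm x ≤ 1 / 16 := hx.trans hr16
  exact Pmain_aux hC hCE hl0 ht0 hNl hA hD hδ0 hδ1 hδA hs (h N v hN1 hv x hx16)

end Pool.Agent.AO
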