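import Pool.Agent.Lib.MP_10e52e_an.Comp
import Pool.Agent.Lib.MP_10e52e_an.Peq
import Pool.Agent.Lib.MP_10e52e_an.Pg
import Pool.Agent.Lib.MP_10e52e_an.Posc
import Pool.Agent.Lib.MP_10e52e_an.Plow
import Pool.Agent.Lib.MP_10e52e_an.Pmain
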