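import Pool.Agent.Lib.MP_10e52e_an.Dens
import Pool.Agent.Lib.MP_10e52e_an.Field
import Pool.Agent.Lib.MP_10e52e_an.Psi
import Pool.Agent.Lib.MP_10e52e_an.AL2

/-! MP_10e52e_an row Aom: L8.2 -/

namespace Pool.Agent.AO

open MeasureTheory Set Real
open scoped ContDiff

private theorem aom_nrm (x : ℝ × ℝ) : nrm x = ‖(⟨x.1, x.2⟩ : ℂ)‖ := by
  rw [Complex.norm_def, Complex.normSq_mk]
  unfold nrm nsq
  congr 1
  ring

private theorem aom_tri (x y : ℝ × ℝ) : nrm x ≤ nrm (x.1 - y.1, x.2 - y.2) + nrm y := by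
  rw [aom_nrm, aom_nrm, aom_nrm]
  have h : (⟨x.1, x.2⟩ : ℂ) = ⟨x.1 - y.1, x.2 - y.2⟩ + ⟨y.1, y.2⟩ := by
    apply Complex.ext <;> simp
  rw [h]
  exact norm_add_le _ _

private theorem aom_nrm_cont : Continuous nrm := by
  unfold nrm nsq
  fun_prop

private theorem aom_nrm_nonneg (x : ℝ × ℝ) : 0 ≤ nrm x := Real.sqrt_nonneg _

private theorem aom_Q_meas : MeasurableSet Q := measurableSet_Ioc.prod measurableSet_Ioc

private theorem aom_int {f : ℝ × ℝ → ℝ} (hf : Continuous f) : IntegrableOn f Q := by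
  have h1 : IsCompact (Icc (-1 / 2 : ℝ) (1 / 2) ×ˢ Icc (-1 / 2 : ℝ) (1 / 2)) :=
    isCompact_Icc.prod isCompact_Icc
  exact (hf.continuousOn.integrableOn_compact h1).mono_set
    (prod_mono Ioc_subset_Icc_self Ioc_subset_Icc_self)

/-- the set of points at distance at least `r` from the lattice -/
private def aomS (r : ℝ) : Set (ℝ × ℝ) := {x | ∀ m n : ℤ, r ≤ nrm (x.1 - m, x.2 - n)}

private theorem aom_S_meas (r : ℝ) : MeasurableSet (aomS r) := by
  have h : aomS r = ⋂ (m : ℤ) (n : ℤ), {x : ℝ × ℝ | r ≤ nrm (x.1 - m, x.2 - n)} := by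
    ext x
    simp [aomS]
  rw [h]
  refine MeasurableSet.iInter fun m => MeasurableSet.iInter fun n => ?_
  have hc : Continuous fun x : ℝ × ℝ => nrm (x.1 - m, x.2 - n) :=
    aom_nrm_cont.comp (by fun_prop)
  exact (isClosed_le continuous_const hc).measurableSet

private theorem aom_S_per1 (r : ℝ) (x : ℝ × ℝ) : (x.1 + 1, x.2) ∈ aomS r ↔ x ∈ aomS r := by
  constructor
  · intro h m n
    have := h (m + 1) n
    simpa using this
  · intro h m n
    have h1 := h (m - 1) n
    have e : ((x.1 + 1 - m, x.2 - n) : ℝ × ℝ) = (x.1 - ((m - 1 : ℤ) : ℝ), x.2 - n) := by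
      ext
      · push_cast
        ring
      · rfl
    change r ≤ nrm (x.1 + 1 - m, x.2 - n)
    rw [e]
    exact h1

private theorem aom_S_per2 (r : ℝ) (x : ℝ × ℝ) : (x.1, x.2 + 1) ∈ aomS r ↔ x ∈ aomS r := by
  constructor
  · intro h m n
    have := h m (n + 1)
    simpa using this
  · intro h m n
    have h1 := h m (n - 1)
    have e : ((x.1 - m, x.2 + 1 - n) : ℝ × ℝ) = (x.1 - m, x.2 - ((n - 1 : ℤ) : ℝ)) := by
      ext
      · rfl
      · push_cast
        ring
    change r ≤ nrm (x.1 - m, x.2 + 1 - n)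
    rw [e]
    exact h1

/-- a number in `[-1/2, 1/2]` is not nearer to another integer than to 0 -/
private theorem aom_sq_le {t : ℝ} (h1 : -1 / 2 ≤ t) (h2 : t ≤ 1 / 2) (m : ℤ) :
    t ^ 2 ≤ (t - m) ^ 2 := by
  have h3 : 0 ≤ (m : ℝ) * (m - 2 * t) := by
    rcases lt_trichotomy m 0 with h | h | h
    · have : (m : ℝ) ≤ -1 := by exact_mod_cast (Int.le_sub_one_of_lt h)
      nlinarith
    · simp [h]
    · have : (1 : ℝ) ≤ m := by exact_mod_cast h
      nlinarith
  nlinarith

private theorem aom_nrm_le {x : ℝ × ℝ} (hx : x ∈ Q) (m n : ℤ) :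
    nrm x ≤ nrm (x.1 - m, x.2 - n) := by
  unfold nrm nsq
  apply Real.sqrt_le_sqrt
  have h1 := aom_sq_le hx.1.1.le hx.1.2 m
  have h2 := aom_sq_le hx.2.1.le hx.2.2 n
  simp only
  linarith

private theorem aom_S_Q {r : ℝ} {x : ℝ × ℝ} (hx : x ∈ Q) : x ∈ aomS r ↔ r ≤ nrm x := by
  constructor
  · intro h
    have := h 0 0
    simpa using this
  · intro h m n
    exact h.trans (aom_nrm_le hx m n)

private theorem aom_S_shift {r : ℝ} {x y : ℝ × ℝ} (hx : x ∈ Q) (h : 5 / 4 * r ≤ nrm x)
    (hy : nrm y ≤ r / 4) : x - y ∈ aomS r := by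
  intro m n
  have h1 := aom_nrm_le hx m n
  have h2 := aom_tri (x.1 - m, x.2 - n) y
  have e : ((x - y).1 - (m : ℝ), (x - y).2 - (n : ℝ)) =
      ((x.1 - m, x.2 - n) : ℝ × ℝ) - y := by
    ext
    · simp only [Prod.fst_sub]
      ring
    · simp only [Prod.snd_sub]
      ring
  have e' : (((x.1 - m, x.2 - n) : ℝ × ℝ).1 - y.1, ((x.1 - m, x.2 - n) : ℝ × ℝ).2 - y.2) =
      ((x.1 - m, x.2 - n) : ℝ × ℝ) - y := rfl
  rw [e'] at h2
  rw [e]
  linarith

private theorem aom_ell_nonneg (y : ℝ × ℝ) : 0 ≤ ell y := le_max_left _ _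

private theorem aom_ell_meas : Measurable ell := by
  unfold ell
  exact measurable_const.max (Real.measurable_log.comp aom_nrm_cont.measurable).neg

private theorem aom_ell_sq {y : ℝ × ℝ} (hy : nrm y < 1) :
    ell y ^ 2 ≤ 25 / 16 * (1 / nrm y) ^ (8 / 5 : ℝ) := by
  rcases (aom_nrm_nonneg y).eq_or_lt with h | h
  · have : ell y = 0 := by
      unfold ell
      rw [← h, Real.log_zero, neg_zero, max_self]
    rw [this]
    have h5 : 0 ≤ (1 / nrm y) ^ (8 / 5 : ℝ) :=
      Real.rpow_nonneg (one_div_nonneg.mpr (aom_nrm_nonneg y)) _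
    rw [zero_pow two_ne_zero]
    exact mul_nonneg (by norm_num) h5
  · have hinv : 0 < 1 / nrm y := by positivity
    have h1 : ell y ≤ 5 / 4 * (1 / nrm y) ^ (4 / 5 : ℝ) := by
      unfold ell
      refine max_le (by positivity) ?_
      have h2 := Real.log_le_rpow_div (x := 1 / nrm y) (ε := 4 / 5) hinv.le (by norm_num)
      rw [one_div, Real.log_inv] at h2
      rw [one_div]
      linarith
    have h3 : (1 / nrm y) ^ (8 / 5 : ℝ) = ((1 / nrm y) ^ (4 / 5 : ℝ)) ^ 2 := by
      rw [← Real.rpow_natCast, ← Real.rpow_mul hinv.le]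
      norm_num
    rw [h3]
    have h4 := aom_ell_nonneg y
    have h5 : 0 ≤ (1 / nrm y) ^ (4 / 5 : ℝ) := Real.rpow_nonneg hinv.le _
    nlinarith

private theorem aom_Q_disc : Q ⊆ Disc 1 := by
  intro x hx
  change nrm x < 1
  unfold nrm nsq
  rw [Real.sqrt_lt' one_pos]
  have h1 := aom_sq_le hx.1.1.le hx.1.2 0
  have a1 : x.1 ^ 2 ≤ 1 / 4 := by nlinarith [hx.1.1, hx.1.2]
  have a2 : x.2 ^ 2 ≤ 1 / 4 := by nlinarith [hx.2.1, hx.2.2]
  linarith

private theorem aom_ell_int : IntegrableOn (fun y => ell y ^ 2) Q := by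
  have h1 := (disc_power one_pos).2.2.2
  have h2 : IntegrableOn (fun y => 25 / 16 * (1 / nrm y) ^ (8 / 5 : ℝ)) (Disc 1) :=
    h1.const_mul _
  have h3 := h2.mono_set aom_Q_disc
  refine Integrable.mono' h3 (aom_ell_meas.pow_const 2).aestronglyMeasurable ?_
  refine (ae_restrict_iff' aom_Q_meas).mpr (Filter.Eventually.of_forall fun y hy => ?_)
  rw [Real.norm_eq_abs, abs_of_nonneg (sq_nonneg _)]
  exact aom_ell_sq (aom_Q_disc hy)

private theorem aom_refl {f : ℝ × ℝ → ℝ} (hp : Per f) (hf : IntegrableOn f Q) (x : ℝ × ℝ) :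
    TI (fun y => f (x - y)) = TI f := by
  have h1 : (fun y : ℝ × ℝ => f (x - y)) = fun y => (fun z => f (z + x)) (-y) := by
    funext y
    congr 1
    abel
  rw [h1, TI_neg (f := fun z => f (z + x)), TI_shift hp hf x]

/-- `l * mu` for a density without clusters away from 0 -/
private theorem aom_ell_mu {mu : ℝ × ℝ → ℝ} (hc : Continuous mu) (hp : Per mu)
    (h0 : ∀ x, 0 ≤ mu x) (h1 : TI mu = 1) {r1 : ℝ} (hr : 0 < r1) (hr' : r1 ≤ 1 / 32)
    (h2 : ∫ x in Q \ Disc r1, mu x ^ 2 ≤ 1) {x : ℝ × ℝ} (hx : x ∈ Q)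
    (hxr : 5 / 4 * r1 ≤ nrm x) :
    ∃ g : ℝ × ℝ → ℝ, IntegrableOn g Q ∧ (∀ y, ell y * mu (x - y) ≤ g y) ∧
      ∫ y in Q, g y ≤ Real.log (4 / r1) + (∫ y in Q, ell y ^ 2) / 2 + 1 / 2 := by
  set f : ℝ × ℝ → ℝ := (aomS r1).indicator (fun z => mu z ^ 2) with hf
  have hfp : Per f := by
    intro z
    constructor
    · by_cases h : z ∈ aomS r1
      · rw [hf, indicator_of_mem h, indicator_of_mem ((aom_S_per1 r1 z).mpr h), (hp z).1]
      · rw [hf, indicator_of_notMem h,
          indicator_of_notMem (fun h' => h ((aom_S_per1 r1 z).mp h'))]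
    · by_cases h : z ∈ aomS r1
      · rw [hf, indicator_of_mem h, indicator_of_mem ((aom_S_per2 r1 z).mpr h), (hp z).2]
      · rw [hf, indicator_of_notMem h,
          indicator_of_notMem (fun h' => h ((aom_S_per2 r1 z).mp h'))]
  have hfi : IntegrableOn f Q := (aom_int (hc.pow 2)).indicator (aom_S_meas r1)
  have hf0 : ∀ z, 0 ≤ f z := fun z => indicator_nonneg (fun _ _ => sq_nonneg _) z
  have hfT : TI f ≤ 1 := by
    have e1 : TI f = ∫ z in Q ∩ aomS r1, mu z ^ 2 := by
      unfold TI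
      rw [hf, setIntegral_indicator (aom_S_meas r1)]
    have e2 : Q ∩ aomS r1 = Q \ Disc r1 := by
      ext z
      constructor
      · rintro ⟨a, b⟩
        exact ⟨a, fun c => not_lt.mpr ((aom_S_Q a).mp b) c⟩
      · rintro ⟨a, b⟩
        exact ⟨a, (aom_S_Q a).mpr (not_lt.mp b)⟩
    rw [e1, e2]
    exact h2
  have hL : 0 ≤ Real.log (4 / r1) := Real.log_nonneg (by
    rw [le_div_iff₀ hr]
    linarith)
  have cxy : Continuous fun y : ℝ × ℝ => x - y := continuous_const.sub continuous_id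
  have i1 : IntegrableOn (fun y => Real.log (4 / r1) * mu (x - y)) Q :=
    aom_int (continuous_const.mul (hc.comp cxy))
  have i2 : IntegrableOn (fun y => ell y ^ 2 / 2) Q := aom_ell_int.div_const 2
  have i3 : IntegrableOn (fun y => f (x - y) / 2) Q := by
    have hm : Measurable fun y : ℝ × ℝ => f (x - y) :=
      ((hc.pow 2).measurable.indicator (aom_S_meas r1)).comp cxy.measurable
    have hb : IntegrableOn (fun y => mu (x - y) ^ 2) Q := aom_int ((hc.comp cxy).pow 2)
    have : IntegrableOn (fun y => f (x - y)) Q := by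
      refine Integrable.mono' hb hm.aestronglyMeasurable (Filter.Eventually.of_forall fun y => ?_)
      rw [Real.norm_eq_abs, abs_of_nonneg (hf0 _)]
      exact indicator_le_self' (fun _ _ => sq_nonneg _) _
    exact this.div_const 2
  refine ⟨fun y => Real.log (4 / r1) * mu (x - y) + ell y ^ 2 / 2 + f (x - y) / 2,
    (i1.add i2).add i3, ?_, ?_⟩
  · intro y
    change ell y * mu (x - y) ≤ Real.log (4 / r1) * mu (x - y) + ell y ^ 2 / 2 + f (x - y) / 2
    have m0 := h0 (x - y)
    have l0 := aom_ell_nonneg y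
    by_cases hy : nrm y ≤ r1 / 4
    · have hS := aom_S_shift hx hxr hy
      have hfe : f (x - y) = mu (x - y) ^ 2 := by rw [hf, indicator_of_mem hS]
      rw [hfe]
      have := mul_nonneg hL m0
      nlinarith [sq_nonneg (ell y - mu (x - y))]
    · have hy' : r1 / 4 < nrm y := not_le.mp hy
      have hle : ell y ≤ Real.log (4 / r1) := by
        unfold ell
        refine max_le hL ?_
        have h3 : Real.log (r1 / 4) ≤ Real.log (nrm y) :=
          Real.log_le_log (by positivity) hy'.le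
        have h4 : Real.log (4 / r1) = -Real.log (r1 / 4) := by
          rw [← Real.log_inv, inv_div]
        linarith
      have a1 : ell y * mu (x - y) ≤ Real.log (4 / r1) * mu (x - y) :=
        mul_le_mul_of_nonneg_right hle m0
      have a2 := hf0 (x - y)
      have a3 := sq_nonneg (ell y)
      linarith
  · have e0 : ∫ y in Q, (Real.log (4 / r1) * mu (x - y) + ell y ^ 2 / 2 + f (x - y) / 2) =
        (∫ y in Q, Real.log (4 / r1) * mu (x - y)) + (∫ y in Q, ell y ^ 2 / 2) +
          ∫ y in Q, f (x - y) / 2 := by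
      have a1 := integral_add (i1.add i2) i3
      have a2 := integral_add i1 i2
      simp only [Pi.add_apply] at a1
      rw [a1, a2]
    change ∫ y in Q, (Real.log (4 / r1) * mu (x - y) + ell y ^ 2 / 2 + f (x - y) / 2) ≤ _
    rw [e0]
    have e1 : ∫ y in Q, Real.log (4 / r1) * mu (x - y) = Real.log (4 / r1) := by
      rw [integral_const_mul]
      have := aom_refl hp (aom_int hc) x
      unfold TI at this h1
      rw [this, h1, mul_one]
    have e2 : ∫ y in Q, f (x - y) / 2 ≤ 1 / 2 := by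
      rw [integral_div]
      have := aom_refl hfp hfi x
      unfold TI at this hfT
      rw [this]
      linarith
    rw [e1, integral_div]
    linarith

/-- L8.2 -/
theorem c1_om {K R : ℝ × ℝ → ℝ} (hG : IsGreen K R) {Cb : ℝ} (hCb : 0 < Cb) {r1 : ℝ}
    (hr : 0 < r1) (hr' : r1 ≤ 1 / 32) :
    ∃ C : ℝ, 0 < C ∧ ∃ N0 : ℕ, ∀ (N : ℕ) (v mu om : ℝ × ℝ → ℝ), N0 ≤ N →
      IsComp K Cb N v → IsSol K N mu om → NoFar mu r1 →
      ∀ x ∈ Q, 5 / 4 * r1 ≤ nrm x → -C ≤ om x ∧ -C ≤ om0 K v x := by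
  obtain ⟨CL, hCL, cL, hcL, hL2⟩ := c1_L2 hG hr hr'
  obtain ⟨Cm, hCm, Nm, hmass⟩ := mass_center hG
  obtain ⟨Ce, hCe, Ne, heta⟩ := eta_bound hG
  obtain ⟨Cs, hCs, hsig⟩ := sigma_bounds hG
  obtain ⟨Cg, hCg, -, -, -, -, hGf, -⟩ := green_bounds hG
  obtain ⟨Cc, hCc, hcomp⟩ := comp_bounds hG hCb
  -- the largeness condition
  have hlim : Filter.Tendsto (fun N : ℕ => CL * (Cm * (N : ℝ) ^ 3) ^ 2 *
      Real.exp (-(cL * N))) Filter.atTop (nhds 0) := by
    have h1 := Real.tendsto_pow_mul_exp_neg_atTop_nhds_zero 6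
    have h2 : Filter.Tendsto (fun N : ℕ => cL * (N : ℝ)) Filter.atTop Filter.atTop :=
      Filter.Tendsto.const_mul_atTop hcL tendsto_natCast_atTop_atTop
    have h3 := ((h1.comp h2).const_mul (CL * Cm ^ 2 / cL ^ 6))
    rw [mul_zero] at h3
    refine h3.congr fun N => ?_
    simp only [Function.comp]
    field_simp
  obtain ⟨Nl, hNl⟩ := Filter.eventually_atTop.mp (hlim.eventually_le_const one_pos)
  set L := Real.log (4 / r1) with hLdef
  have hL0 : 0 ≤ L := Real.log_nonneg (by
    rw [le_div_iff₀ hr]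
    linarith)
  set E := ∫ y in Q, ell y ^ 2 with hE
  have hE0 : 0 ≤ E := integral_nonneg fun y => sq_nonneg _
  set B := L + E / 2 + 1 / 2 with hB
  have hB0 : 0 ≤ B := by positivity
  set C1 := Ce + 4 * π * (Cg + 1 / (2 * π) * B) + Cs with hC1
  set C2 := Cc / (5 / 4 * r1) ^ 2 with hC2
  have hC1p : 0 < C1 := by positivity
  have hC2p : 0 < C2 := by positivity
  refine ⟨C1 + C2, by positivity, max 3 (max Nm (max Ne Nl)), ?_⟩
  intro N v mu om hN hv hsol hfar x hx hxr
  have hN3 : 3 ≤ N := (le_max_left _ _).trans hN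
  have hN' := (le_max_right _ _).trans hN
  have hNm : Nm ≤ N := (le_max_left _ _).trans hN'
  have hN'' := (le_max_right _ _).trans hN'
  have hNe : Ne ≤ N := (le_max_left _ _).trans hN''
  have hNl' : Nl ≤ N := (le_max_right _ _).trans hN''
  have hN2 : 2 ≤ N := by omega
  constructor
  · -- om
    obtain ⟨k, hMF⟩ := sol_MF hG hN2 hsol
    have hk : k * K pt ^ N ≤ Cm * (N : ℝ) ^ 3 := (hmass N k mu _ hNm hMF).2.1
    have hk0 : 0 ≤ k * K pt ^ N := mul_nonneg hMF.kpos.le (pow_nonneg (hG.nonneg _) _)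
    have hmu2 : ∫ x in Q \ Disc r1, mu x ^ 2 ≤ 1 := by
      refine ((hL2 N k mu _ hN3 hMF hfar).1).trans ?_
      refine le_trans ?_ (hNl N hNl')
      refine mul_le_mul_of_nonneg_right ?_ (Real.exp_pos _).le
      refine mul_le_mul_of_nonneg_left ?_ hCL.le
      exact pow_le_pow_left₀ hk0 hk 2
    obtain ⟨g, hgi, hgle, hgint⟩ := aom_ell_mu hsol.smu.continuous hsol.pmu hsol.nn hsol.one
      hr hr' hmu2 hx hxr
    have hcont : Continuous fun y : ℝ × ℝ => mu (x - y) :=
      hsol.smu.continuous.comp (continuous_const.sub continuous_id)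
    have hT1 : ∫ y in Q, mu (x - y) = 1 := by
      have h3 := aom_refl hsol.pmu (aom_int hsol.smu.continuous) x
      have h4 := hsol.one
      unfold TI at h3 h4
      rw [h3, h4]
    have hconv : conv (Gf K) mu x ≤ Cg + 1 / (2 * π) * B := by
      unfold conv TI
      by_cases hint : IntegrableOn (fun y => Gf K y * mu (x - y)) Q
      · have hi2 : IntegrableOn (fun y => Cg * mu (x - y) + 1 / (2 * π) * g y) Q :=
          ((aom_int hcont).const_mul Cg).add (hgi.const_mul _)
        have hmono : ∫ y in Q, Gf K y * mu (x - y) ≤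
            ∫ y in Q, (Cg * mu (x - y) + 1 / (2 * π) * g y) := by
          refine integral_mono_ae hint hi2 ?_
          have hne : ∀ᵐ y : ℝ × ℝ ∂(volume.restrict Q), y ≠ 0 :=
            ae_restrict_of_ae (Measure.ae_ne volume 0)
          filter_upwards [hne, ae_restrict_mem aom_Q_meas] with y hy0 hyQ
          have h5 := (abs_le.mp (hGf y hyQ hy0)).2
          have h6 : -Real.log (nrm y) ≤ ell y := le_max_right _ _
          have h7 : Gf K y ≤ Cg + 1 / (2 * π) * ell y := by
            have : 1 / (2 * π) * (-Real.log (nrm y)) ≤ 1 / (2 * π) * ell y :=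
              mul_le_mul_of_nonneg_left h6 (by positivity)
            linarith
          have h8 : Gf K y * mu (x - y) ≤ (Cg + 1 / (2 * π) * ell y) * mu (x - y) :=
            mul_le_mul_of_nonneg_right h7 (hsol.nn _)
          have h9 : 1 / (2 * π) * (ell y * mu (x - y)) ≤ 1 / (2 * π) * g y :=
            mul_le_mul_of_nonneg_left (hgle y) (by positivity)
          calc Gf K y * mu (x - y) ≤ (Cg + 1 / (2 * π) * ell y) * mu (x - y) := h8
            _ = Cg * mu (x - y) + 1 / (2 * π) * (ell y * mu (x - y)) := by ring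
            _ ≤ Cg * mu (x - y) + 1 / (2 * π) * g y := by linarith
        refine hmono.trans ?_
        rw [integral_add ((aom_int hcont).const_mul Cg) (hgi.const_mul _), integral_const_mul,
          integral_const_mul, hT1, mul_one]
        have : 1 / (2 * π) * ∫ y in Q, g y ≤ 1 / (2 * π) * B :=
          mul_le_mul_of_nonneg_left hgint (by positivity)
        linarith
      · rw [integral_undef hint]
        positivity
    obtain ⟨hs1, hs2, hs3, hs4, hs5⟩ := sol_sigma hN2 hsol
    have hsg := (hsig N _ hN3 hs1.continuous hs2 hs3 hs4 hs5 x).1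
    have hrep := (sol_rep hG hN2 hsol x).1
    have het := heta N mu om hNe hsol
    have h10 : 4 * π * conv (Gf K) mu x ≤ 4 * π * (Cg + 1 / (2 * π) * B) :=
      mul_le_mul_of_nonneg_left hconv (by positivity)
    linarith
  · -- om0
    have hx0 : x ≠ 0 := by
      rintro rfl
      have : nrm 0 = 0 := by simp [nrm, nsq]
      rw [this] at hxr
      linarith
    have h1 := (hcomp N v hN3 hv).2.1 x hx hx0
    have hlam : 1 ≤ lam N := by
      unfold lam
      have h3 : (3 : ℝ) ≤ N := by exact_mod_cast hN3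
      have := Real.pi_gt_three
      nlinarith
    have hns : (5 / 4 * r1) ^ 2 ≤ nsq x := by
      have h3 : nsq x = nrm x ^ 2 := by
        unfold nrm
        rw [Real.sq_sqrt]
        unfold nsq
        positivity
      rw [h3]
      exact pow_le_pow_left₀ (by positivity) hxr 2
    have h4 : Cc / (lam N * nsq x) ≤ C2 := by
      rw [hC2]
      refine div_le_div_of_nonneg_left hCc.le (by positivity) ?_
      have : 0 ≤ nsq x := le_trans (by positivity) hns
      nlinarith
    linarith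

end Pool.Agent.AO
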