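import Pool.Agent.Lib.MP_10e52e_an.Ident
import Pool.Agent.Lib.MP_10e52e_an.Aom
import Pool.Agent.Lib.MP_10e52e_an.Calc
import Pool.Agent.Lib.MP_10e52e_an.Symm

/-! MP_10e52e_an row Acac: L8.3 Caccioppoli -/

namespace Pool.Agent.AO

open MeasureTheory Set Real Filter Topology
open scoped ContDiff

private theorem acac_latcl : IsClosed Lat := by
  have hZ : Lat = (range ((↑) : ℤ → ℝ)) ×ˢ (range ((↑) : ℤ → ℝ)) := by
    ext ⟨x, y⟩
    simp only [Lat, mem_ofPred_eq, mem_prod, mem_range, Prod.mk.injEq]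
    constructor
    · rintro ⟨m, n, h1, h2⟩; exact ⟨⟨m, h1.symm⟩, ⟨n, h2.symm⟩⟩
    · rintro ⟨⟨m, h1⟩, ⟨n, h2⟩⟩; exact ⟨m, n, h1.symm, h2.symm⟩
  have hc : IsClosed (range ((↑) : ℤ → ℝ)) := Int.isClosedEmbedding_coe_real.isClosed_range
  rw [hZ]
  exact hc.prod hc

private theorem acac_ae_nl : ∀ᵐ z : ℝ × ℝ, z ∉ Lat := by
  have hc : Lat.Countable := by
    have : Lat = Set.range (fun p : ℤ × ℤ => (((p.1 : ℝ), (p.2 : ℝ)) : ℝ × ℝ)) := by
      ext z
      constructor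
      · rintro ⟨m, n, rfl⟩; exact ⟨(m, n), rfl⟩
      · rintro ⟨⟨m, n⟩, rfl⟩; exact ⟨m, n, rfl⟩
    rw [this]
    exact Set.countable_range _
  rw [ae_iff]
  simpa using hc.measure_zero volume

private theorem acac_int {f : ℝ × ℝ → ℝ} (hf : Continuous f) : IntegrableOn f Q :=
  (hf.continuousOn.integrableOn_compact (isCompact_Icc.prod isCompact_Icc)).mono_set
    (prod_mono Ioc_subset_Icc_self Ioc_subset_Icc_self)

private theorem acac_Qm : MeasurableSet Q := measurableSet_Ioc.prod measurableSet_Ioc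

private theorem acac_nsqc : Continuous nsq := by unfold nsq; fun_prop

private theorem acac_nrmc : Continuous nrm := by
  unfold nrm
  exact acac_nsqc.sqrt

private theorem acac_discm (r : ℝ) : MeasurableSet (Disc r) :=
  (isOpen_lt acac_nrmc continuous_const).measurableSet

private theorem acac_disc {r : ℝ} (hr : 0 < r) {x : ℝ × ℝ} : x ∈ Disc r ↔ nsq x < r ^ 2 :=
  Real.sqrt_lt' hr

private theorem acac_ndisc {r : ℝ} (hr : 0 < r) {x : ℝ × ℝ} : x ∉ Disc r ↔ r ^ 2 ≤ nsq x := by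
  rw [acac_disc hr, not_lt]

private theorem acac_small {x : ℝ × ℝ} {b : ℝ} (hb : 0 < b) (h : nsq x < b ^ 2) :
    |x.1| < b ∧ |x.2| < b := by
  unfold nsq at h
  constructor
  · exact abs_lt_of_sq_lt_sq (by nlinarith [sq_nonneg x.2]) hb.le
  · exact abs_lt_of_sq_lt_sq (by nlinarith [sq_nonneg x.1]) hb.le

/-- the cut-off before periodisation -/
private noncomputable def cf (r : ℝ) (x : ℝ × ℝ) : ℝ :=
  1 - Real.smoothTransition ((nsq x - (5 / 4 * r) ^ 2) / ((2 * r) ^ 2 - (5 / 4 * r) ^ 2))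

private noncomputable def cc (r : ℝ) (x : ℝ × ℝ) : ℝ := 1 - perz (cf r) x

private theorem cf_smooth (r : ℝ) : ContDiff ℝ ∞ (cf r) := by
  unfold cf
  refine contDiff_const.sub (Real.smoothTransition.contDiff.comp ?_)
  unfold nsq
  fun_prop

private theorem cf_one {r : ℝ} (_hr : 0 < r) {x : ℝ × ℝ} (hx : nsq x ≤ (5 / 4 * r) ^ 2) : cf r x = 1 := by
  unfold cf
  rw [Real.smoothTransition.zero_of_nonpos, sub_zero]
  exact div_nonpos_of_nonpos_of_nonneg (by linarith) (by nlinarith)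

private theorem cf_zero {r : ℝ} (hr : 0 < r) {x : ℝ × ℝ} (hx : (2 * r) ^ 2 ≤ nsq x) : cf r x = 0 := by
  unfold cf
  rw [Real.smoothTransition.one_of_one_le, sub_self]
  rw [one_le_div (by nlinarith)]
  linarith

private theorem cf_nn (r : ℝ) (x : ℝ × ℝ) : 0 ≤ cf r x ∧ cf r x ≤ 1 := by
  unfold cf
  constructor
  · have := Real.smoothTransition.le_one ((nsq x - (5 / 4 * r) ^ 2) / ((2 * r) ^ 2 - (5 / 4 * r) ^ 2))
    linarith
  · have := Real.smoothTransition.nonneg ((nsq x - (5 / 4 * r) ^ 2) / ((2 * r) ^ 2 - (5 / 4 * r) ^ 2))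
    linarith

private theorem cf_supp {r : ℝ} (hr : 0 < r) (x : ℝ × ℝ) (hx : cf r x ≠ 0) :
    |x.1| ≤ 2 * r ∧ |x.2| ≤ 2 * r := by
  have h : nsq x < (2 * r) ^ 2 := by
    by_contra hc
    exact hx (cf_zero hr (not_lt.1 hc))
  have := acac_small (by linarith : 0 < 2 * r) h
  exact ⟨this.1.le, this.2.le⟩

private theorem cc_smooth {r : ℝ} (hr : 0 < r) (hr' : r ≤ 1 / 32) : ContDiff ℝ ∞ (cc r) := by
  unfold cc
  exact contDiff_const.sub
    (perz_smooth (a := 2 * r) (by linarith) (n := ⊤) (cf_smooth r) (cf_supp hr))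

private theorem cc_per (r : ℝ) : Per (cc r) := (per_const 1).sub (perz_per (cf r))

private theorem cc_eq {r : ℝ} (hr : 0 < r) (hr' : r ≤ 1 / 32) {x : ℝ × ℝ} (hx : x ∈ Q) :
    cc r x = 1 - cf r x := by
  unfold cc
  rw [perz_eq (a := 2 * r) (by linarith) (cf_supp hr) x hx]

private theorem cc_nn (r : ℝ) (x : ℝ × ℝ) : 0 ≤ cc r x ∧ cc r x ≤ 1 := by
  unfold cc perz
  have := cf_nn r (x.1 - round x.1, x.2 - round x.2)
  constructor <;> linarith [this.1, this.2]

private theorem cc_lat {r : ℝ} (hr : 0 < r) (hr' : r ≤ 1 / 32) {x : ℝ × ℝ} (hx : x ∈ Lat) :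
    ∀ᶠ y in 𝓝 x, cc r y = 0 := by
  have hc : Continuous fun y : ℝ × ℝ => nsq (y - x) := acac_nsqc.comp (by fun_prop)
  have h0 : nsq (x - x) < r ^ 2 := by
    rw [sub_self]; unfold nsq; simp; positivity
  have := hc.continuousAt.eventually (gt_mem_nhds h0)
  filter_upwards [this] with y hy
  have hs := acac_small hr hy
  have hQ : y - x ∈ Q := by
    have h1 := abs_lt.1 hs.1
    have h2 := abs_lt.1 hs.2
    exact ⟨⟨by linarith [h1.1], by linarith [h1.2]⟩, ⟨by linarith [h2.1], by linarith [h2.2]⟩⟩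
  rw [← (cc_per r).sub_lat hx y, cc_eq hr hr' hQ, cf_one hr (by nlinarith)]
  ring

private theorem acac_Dv_zero {f : ℝ × ℝ → ℝ} {x : ℝ × ℝ} (v : ℝ × ℝ)
    (h : IsLocalMin f x ∨ IsLocalMax f x) : Dv v f x = 0 := by
  rcases h with h | h
  · simp only [Dv, h.fderiv_eq_zero]; rfl
  · simp only [Dv, h.fderiv_eq_zero]; rfl

private theorem cc_grad {r : ℝ} (hr : 0 < r) (hr' : r ≤ 1 / 32) {x : ℝ × ℝ} (hx : x ∈ Q)
    (hn : x ∉ Disc (2 * r) \ Disc (5 / 4 * r)) (v : ℝ × ℝ) : Dv v (cc r) x = 0 := by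
  by_cases h : x ∈ Disc (2 * r)
  · have h2 : x ∈ Disc (5 / 4 * r) := by
      by_contra hc
      exact hn ⟨h, hc⟩
    rw [acac_disc (by linarith)] at h2
    refine acac_Dv_zero v (Or.inl (Eventually.of_forall fun y => ?_))
    rw [cc_eq hr hr' hx, cf_one hr h2.le, sub_self]
    exact (cc_nn r y).1
  · rw [acac_ndisc (by linarith)] at h
    refine acac_Dv_zero v (Or.inr (Eventually.of_forall fun y => ?_))
    rw [cc_eq hr hr' hx, cf_zero hr h, sub_zero]
    exact (cc_nn r y).2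

private theorem cont_of {q : ℝ × ℝ → ℝ} (h1 : ∀ x, x ∉ Lat → ContinuousAt q x)
    (h2 : ∀ x ∈ Lat, ∀ᶠ y in 𝓝 x, q y = 0) : Continuous q := by
  refine continuous_iff_continuousAt.2 fun x => ?_
  by_cases hx : x ∈ Lat
  · have : q =ᶠ[𝓝 x] fun _ => 0 := h2 x hx
    exact continuousAt_const.congr this.symm
  · exact h1 x hx

private theorem cd_of {q : ℝ × ℝ → ℝ} (h1 : ∀ x, x ∉ Lat → ContDiffAt ℝ 1 q x)
    (h2 : ∀ x ∈ Lat, ∀ᶠ y in 𝓝 x, q y = 0) : ContDiff ℝ 1 q := by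
  refine contDiff_iff_contDiffAt.2 fun x => ?_
  by_cases hx : x ∈ Lat
  · have : q =ᶠ[𝓝 x] fun _ => 0 := h2 x hx
    exact contDiffAt_const.congr_of_eventuallyEq this
  · exact h1 x hx

private theorem exp_mono_bd {a b C : ℝ} (ha : -C ≤ a) (hb : -C ≤ b) :
    Real.exp (-C) * (a - b) ^ 2 ≤ (Real.exp a - Real.exp b) * (a - b) := by
  have key : ∀ a b : ℝ, -C ≤ b → b ≤ a → Real.exp (-C) * (a - b) ^ 2 ≤
      (Real.exp a - Real.exp b) * (a - b) := by
    intro a b hb hab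
    have h1 : Real.exp a = Real.exp b * Real.exp (a - b) := by
      rw [← Real.exp_add]; congr 1; ring
    have h2 : (a - b) + 1 ≤ Real.exp (a - b) := Real.add_one_le_exp _
    have h3 : Real.exp (-C) ≤ Real.exp b := Real.exp_le_exp.2 hb
    have h4 : 0 < Real.exp (-C) := Real.exp_pos _
    have h5 : Real.exp b * (a - b) ≤ Real.exp a - Real.exp b := by
      rw [h1]; nlinarith [Real.exp_pos b]
    have h6 : Real.exp (-C) * (a - b) ≤ Real.exp a - Real.exp b := by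
      have : Real.exp (-C) * (a - b) ≤ Real.exp b * (a - b) :=
        mul_le_mul_of_nonneg_right h3 (by linarith)
      linarith
    have := mul_le_mul_of_nonneg_right h6 (by linarith : 0 ≤ a - b)
    calc Real.exp (-C) * (a - b) ^ 2 = Real.exp (-C) * (a - b) * (a - b) := by ring
      _ ≤ _ := this
  rcases le_total b a with h | h
  · exact key a b hb h
  · have := key b a ha h
    calc Real.exp (-C) * (a - b) ^ 2 = Real.exp (-C) * (b - a) ^ 2 := by ring
      _ ≤ (Real.exp b - Real.exp a) * (b - a) := this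
      _ = _ := by ring

/-- pointwise inequality; `p = D1 h, q = D2 h, u = D1 chi, w = D2 chi` -/
private theorem acac_pt {x h p q u w lam c E mu : ℝ} (hl : 1 ≤ lam) (hc : 0 < c) (hc1 : c ≤ 1)
    (hE : x ≠ 0 → c * h ^ 2 ≤ E * h) :
    c / 2 * (x ^ 2 * (p ^ 2 + q ^ 2 + lam * h ^ 2)) - 2 * (h ^ 2 * (u ^ 2 + w ^ 2)) -
      8 * π ^ 2 / c * (x ^ 2 * mu ^ 2) ≤
    (2 * x * u * h + x ^ 2 * p) * p + (2 * x * w * h + x ^ 2 * q) * q +
      x ^ 2 * h * (lam * E + 4 * π * mu) := by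
  by_cases hx : x = 0
  · subst hx
    have : 0 ≤ h ^ 2 * (u ^ 2 + w ^ 2) := by positivity
    nlinarith
  · have hE' := hE hx
    have h1 : -(1 / 2 * (x * p) ^ 2 + 2 * (h * u) ^ 2) ≤ 2 * (x * p) * (h * u) := by
      nlinarith [sq_nonneg (x * p + 2 * (h * u))]
    have h2 : -(1 / 2 * (x * q) ^ 2 + 2 * (h * w) ^ 2) ≤ 2 * (x * q) * (h * w) := by
      nlinarith [sq_nonneg (x * q + 2 * (h * w))]
    have h3 : lam * (c * h ^ 2) ≤ lam * (E * h) := mul_le_mul_of_nonneg_left hE' (by linarith)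
    have h4 : -(lam * c / 2 * h ^ 2 + 8 * π ^ 2 / c * mu ^ 2) ≤ 4 * π * mu * h := by
      have hlc : 0 < lam * c := by positivity
      have e1 : 0 ≤ lam * c / 2 * (h + 4 * π * mu / (lam * c)) ^ 2 := by positivity
      have e2 : lam * c / 2 * (h + 4 * π * mu / (lam * c)) ^ 2 =
          lam * c / 2 * h ^ 2 + 4 * π * mu * h + 8 * π ^ 2 / (lam * c) * mu ^ 2 := by
        field_simp
        ring
      have e3 : 8 * π ^ 2 / (lam * c) * mu ^ 2 ≤ 8 * π ^ 2 / c * mu ^ 2 := by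
        refine mul_le_mul_of_nonneg_right ?_ (sq_nonneg _)
        refine div_le_div_of_nonneg_left (by positivity) hc ?_
        nlinarith
      linarith
    have h5 : x ^ 2 * (lam * (c * h ^ 2)) ≤ x ^ 2 * (lam * (E * h)) :=
      mul_le_mul_of_nonneg_left h3 (sq_nonneg x)
    have h6 := mul_le_mul_of_nonneg_left h4 (sq_nonneg x)
    have h7 : 0 ≤ (1 - c) * (x ^ 2 * (p ^ 2 + q ^ 2)) :=
      mul_nonneg (by linarith) (by positivity)
    nlinarith [h1, h2, h5, h6, h7]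

/-- L8.3 -/
theorem c1_cacc {K R : ℝ × ℝ → ℝ} (hG : IsGreen K R) {Cb : ℝ} (hCb : 0 < Cb) {r1 : ℝ}
    (hr : 0 < r1) (hr' : r1 ≤ 1 / 32) :
    ∃ C : ℝ, 0 < C ∧ ∃ N0 : ℕ, ∀ (N : ℕ) (v mu om : ℝ × ℝ → ℝ), N0 ≤ N →
      IsComp K Cb N v → IsSol K N mu om → NoFar mu r1 →
      ∫ x in Q \ Disc (2 * r1), (D1 (hf K v om) x ^ 2 + D2 (hf K v om) x ^ 2 +
        lam N * hf K v om x ^ 2) ≤
      C * (∫ x in Disc (2 * r1) \ Disc (5 / 4 * r1), hf K v om x ^ 2) +
        C * ∫ x in Q \ Disc r1, mu x ^ 2 := by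
  obtain ⟨C1, hC1, N1, hom⟩ := c1_om hG hCb hr hr'
  have hcs := cc_smooth hr hr'
  have hcs1 : ContDiff ℝ 1 (cc r1) := hcs.of_le (by exact_mod_cast le_top)
  obtain ⟨M, hM⟩ : ∃ M, ∀ z ∈ Icc (-1 / 2 : ℝ) (1 / 2) ×ˢ Icc (-1 / 2 : ℝ) (1 / 2),
      ‖D1 (cc r1) z ^ 2 + D2 (cc r1) z ^ 2‖ ≤ M :=
    (isCompact_Icc.prod isCompact_Icc).exists_bound_of_continuousOn
      (((continuous_D1 hcs1).pow 2).add ((continuous_D2 hcs1).pow 2)).continuousOn
  have hM' : ∀ z ∈ Q, D1 (cc r1) z ^ 2 + D2 (cc r1) z ^ 2 ≤ M := fun z hz =>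
    (le_abs_self _).trans (hM z (prod_mono Ioc_subset_Icc_self Ioc_subset_Icc_self hz))
  have hM0 : 0 ≤ M := by
    have h0 : (0 : ℝ × ℝ) ∈ Q := by constructor <;> constructor <;> norm_num
    have := hM' 0 h0
    nlinarith [sq_nonneg (D1 (cc r1) 0), sq_nonneg (D2 (cc r1) 0)]
  set c := Real.exp (-C1) with hc
  have hc0 : 0 < c := Real.exp_pos _
  have hc1 : c ≤ 1 := Real.exp_le_one_iff.2 (by linarith)
  refine ⟨4 * M / c + 16 * π ^ 2 / c ^ 2 + 1, by positivity, max N1 2, ?_⟩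
  intro N v mu om hN hv hs hnf
  have hN1 : N1 ≤ N := (le_max_left _ _).trans hN
  have hN2 : 2 ≤ N := (le_max_right _ _).trans hN
  have hlam : 1 ≤ lam N := by
    unfold lam
    have h2 : (2 : ℝ) ≤ N := by exact_mod_cast hN2
    nlinarith [Real.pi_gt_three]
  obtain ⟨hls, hlap⟩ := h_logsing hG hv hs
  set h := hf K v om with hh
  have hoff : ∀ x, x ∉ Lat → ContDiffAt ℝ ∞ h x := fun x hx =>
    hls.off.contDiffAt (acac_latcl.isOpen_compl.mem_nhds hx)
  have hoff2 : ∀ x, x ∉ Lat → ContDiffAt ℝ 2 h x := fun x hx => by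
    exact_mod_cast (contDiffAt_infty.1 (hoff x hx)) 2
  have hoff1 : ∀ x, x ∉ Lat → ContDiffAt ℝ 1 h x := fun x hx => (hoff2 x hx).of_le (by norm_num)
  have hD1 : ∀ x, x ∉ Lat → ContDiffAt ℝ 1 (D1 h) x := fun x hx => contDiffAt_D1_one (hoff2 x hx)
  have hD2 : ∀ x, x ∉ Lat → ContDiffAt ℝ 1 (D2 h) x := fun x hx => contDiffAt_D2_one (hoff2 x hx)
  have k1 : ∀ x, ContDiffAt ℝ 1 (cc r1) x := fun x => hcs1.contDiffAt
  have hmu1 : ContDiff ℝ 1 mu := hs.smu.of_le (by exact_mod_cast le_top)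
  -- the fields
  have g1 : ContDiff ℝ 1 (fun x => (cc r1 x ^ 2 * h x) * D1 h x) := by
    refine cd_of (fun x hx => (((k1 x).pow 2).mul (hoff1 x hx)).mul (hD1 x hx)) fun x hx => ?_
    filter_upwards [cc_lat hr hr' hx] with y hy
    rw [hy]; ring
  have g2 : ContDiff ℝ 1 (fun x => (cc r1 x ^ 2 * h x) * D2 h x) := by
    refine cd_of (fun x hx => (((k1 x).pow 2).mul (hoff1 x hx)).mul (hD2 x hx)) fun x hx => ?_
    filter_upwards [cc_lat hr hr' hx] with y hy
    rw [hy]; ring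
  have p1 : Per (fun x => (cc r1 x ^ 2 * h x) * D1 h x) :=
    (((cc_per r1).pow 2).mul hls.per).mul hls.per.D1
  have p2 : Per (fun x => (cc r1 x ^ 2 * h x) * D2 h x) :=
    (((cc_per r1).pow 2).mul hls.per).mul hls.per.D2
  have z1 := TI_D1 g1 p1
  have z2 := TI_D2 g2 p2
  have s0 : TI (fun x => D1 (fun x => (cc r1 x ^ 2 * h x) * D1 h x) x +
      D2 (fun x => (cc r1 x ^ 2 * h x) * D2 h x) x) = 0 := by
    have := integral_add (μ := volume.restrict Q) (acac_int (continuous_D1 g1))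
      (acac_int (continuous_D2 g2))
    unfold TI at z1 z2 ⊢
    rw [this, z1, z2, add_zero]
  -- continuity of the pieces
  have cA : Continuous fun x => cc r1 x ^ 2 * (D1 h x ^ 2 + D2 h x ^ 2 + lam N * h x ^ 2) := by
    refine cont_of (fun x hx => ?_) fun x hx => ?_
    · exact ((k1 x).continuousAt.pow 2).mul ((((hD1 x hx).continuousAt.pow 2).add
        ((hD2 x hx).continuousAt.pow 2)).add (continuousAt_const.mul ((hoff1 x hx).continuousAt.pow 2)))
    · filter_upwards [cc_lat hr hr' hx] with y hy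
      rw [hy]; ring
  have cB : Continuous fun x => h x ^ 2 * (D1 (cc r1) x ^ 2 + D2 (cc r1) x ^ 2) := by
    refine cont_of (fun x hx => ?_) fun x hx => ?_
    · exact ((hoff1 x hx).continuousAt.pow 2).mul (((continuous_D1 hcs1).continuousAt.pow 2).add
        ((continuous_D2 hcs1).continuousAt.pow 2))
    · have h0 := (cc_lat hr hr' hx).eventually_nhds
      filter_upwards [h0] with y hy
      have e : cc r1 =ᶠ[𝓝 y] fun _ => 0 := hy
      rw [D1_congr e, D2_congr e, D1_const, D2_const]; ring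
  have cD : Continuous fun x => cc r1 x ^ 2 * mu x ^ 2 :=
    (hcs1.continuous.pow 2).mul (hmu1.continuous.pow 2)
  have main : c / 2 * TI (fun x => cc r1 x ^ 2 * (D1 h x ^ 2 + D2 h x ^ 2 + lam N * h x ^ 2)) -
      2 * TI (fun x => h x ^ 2 * (D1 (cc r1) x ^ 2 + D2 (cc r1) x ^ 2)) -
      8 * π ^ 2 / c * TI (fun x => cc r1 x ^ 2 * mu x ^ 2) ≤ 0 := by
    have iA := (acac_int cA).const_mul (c / 2)
    have iB := (acac_int cB).const_mul 2
    have iD := (acac_int cD).const_mul (8 * π ^ 2 / c)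
    have iAB : Integrable (fun x => c / 2 * (cc r1 x ^ 2 * (D1 h x ^ 2 + D2 h x ^ 2 +
        lam N * h x ^ 2)) - 2 * (h x ^ 2 * (D1 (cc r1) x ^ 2 + D2 (cc r1) x ^ 2)))
        (volume.restrict Q) := iA.sub iB
    have iABD : Integrable (fun x => c / 2 * (cc r1 x ^ 2 * (D1 h x ^ 2 + D2 h x ^ 2 +
        lam N * h x ^ 2)) - 2 * (h x ^ 2 * (D1 (cc r1) x ^ 2 + D2 (cc r1) x ^ 2)) -
        8 * π ^ 2 / c * (cc r1 x ^ 2 * mu x ^ 2)) (volume.restrict Q) := iAB.sub iD
    have iS : Integrable (fun x => D1 (fun x => (cc r1 x ^ 2 * h x) * D1 h x) x +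
      D2 (fun x => (cc r1 x ^ 2 * h x) * D2 h x) x) (volume.restrict Q) :=
      (acac_int (continuous_D1 g1)).add (acac_int (continuous_D2 g2))
    rw [← s0]
    unfold TI
    rw [← integral_const_mul, ← integral_const_mul, ← integral_const_mul, ← integral_sub iA iB,
      ← integral_sub iAB iD]
    refine integral_mono_ae iABD iS ?_
    rw [EventuallyLE, ae_restrict_iff' acac_Qm]
    filter_upwards [acac_ae_nl] with x hx hxQ
    have dk : DifferentiableAt ℝ (cc r1) x := (k1 x).differentiableAt one_ne_zero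
    have dh : DifferentiableAt ℝ h x := (hoff1 x hx).differentiableAt one_ne_zero
    have d1 : DifferentiableAt ℝ (D1 h) x := (hD1 x hx).differentiableAt one_ne_zero
    have d2 : DifferentiableAt ℝ (D2 h) x := (hD2 x hx).differentiableAt one_ne_zero
    have dk2 : DifferentiableAt ℝ (fun y => cc r1 y ^ 2) x := dk.pow 2
    have dkh : DifferentiableAt ℝ (fun y => cc r1 y ^ 2 * h y) x := dk2.mul dh
    have e1 : D1 (fun x => (cc r1 x ^ 2 * h x) * D1 h x) x =
        (2 * cc r1 x * D1 (cc r1) x * h x + cc r1 x ^ 2 * D1 h x) * D1 h x +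
          cc r1 x ^ 2 * h x * D1 (D1 h) x := by
      rw [D1_mul dkh d1, D1_mul dk2 dh,
        D1_comp (φ := fun t => t ^ 2) dk (by simpa using hasDerivAt_pow 2 (cc r1 x))]
    have e2 : D2 (fun x => (cc r1 x ^ 2 * h x) * D2 h x) x =
        (2 * cc r1 x * D2 (cc r1) x * h x + cc r1 x ^ 2 * D2 h x) * D2 h x +
          cc r1 x ^ 2 * h x * D2 (D2 h) x := by
      rw [D2_mul dkh d2, D2_mul dk2 dh,
        D2_comp (φ := fun t => t ^ 2) dk (by simpa using hasDerivAt_pow 2 (cc r1 x))]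
    have e3 : D1 (D1 h) x + D2 (D2 h) x =
        lam N * (Real.exp (om x) - Real.exp (om0 K v x)) + 4 * π * mu x := hlap x hx
    have hpt := acac_pt (x := cc r1 x) (h := h x) (p := D1 h x) (q := D2 h x) (u := D1 (cc r1) x)
      (w := D2 (cc r1) x) (mu := mu x) (E := Real.exp (om x) - Real.exp (om0 K v x)) hlam hc0 hc1 ?_
    · rw [e1, e2]
      have : cc r1 x ^ 2 * h x * D1 (D1 h) x + cc r1 x ^ 2 * h x * D2 (D2 h) x =
          cc r1 x ^ 2 * h x * (lam N * (Real.exp (om x) - Real.exp (om0 K v x)) + 4 * π * mu x) := by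
        rw [← e3]; ring
      linarith
    · intro hne
      have hge : 5 / 4 * r1 ≤ nrm x := by
        by_contra hlt
        push Not at hlt
        have h2 : x ∈ Disc (5 / 4 * r1) := hlt
        rw [acac_disc (by linarith)] at h2
        exact hne (by rw [cc_eq hr hr' hxQ, cf_one hr h2.le, sub_self])
      obtain ⟨o1, o2⟩ := hom N v mu om hN1 hv hs hnf x hxQ hge
      exact exp_mono_bd o1 o2
  -- the three comparisons
  have b1 : ∫ x in Q \ Disc (2 * r1), (D1 h x ^ 2 + D2 h x ^ 2 + lam N * h x ^ 2) ≤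
      TI (fun x => cc r1 x ^ 2 * (D1 h x ^ 2 + D2 h x ^ 2 + lam N * h x ^ 2)) := by
    have e : ∫ x in Q \ Disc (2 * r1), (D1 h x ^ 2 + D2 h x ^ 2 + lam N * h x ^ 2) =
        ∫ x in Q \ Disc (2 * r1), cc r1 x ^ 2 * (D1 h x ^ 2 + D2 h x ^ 2 + lam N * h x ^ 2) := by
      refine setIntegral_congr_fun (acac_Qm.diff (acac_discm _)) fun x hx => ?_
      have h2 := hx.2
      rw [acac_ndisc (by linarith)] at h2
      rw [cc_eq hr hr' hx.1, cf_zero hr h2]
      ring
    rw [e]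
    unfold TI
    refine setIntegral_mono_set (acac_int cA) (Eventually.of_forall fun x => ?_)
      (LE.le.eventuallyLE sdiff_subset)
    have : 0 ≤ lam N := by linarith
    positivity
  have b2 : TI (fun x => h x ^ 2 * (D1 (cc r1) x ^ 2 + D2 (cc r1) x ^ 2)) ≤
      M * ∫ x in Disc (2 * r1) \ Disc (5 / 4 * r1), h x ^ 2 := by
    have hsub : Disc (2 * r1) \ Disc (5 / 4 * r1) ⊆ Q := by
      rintro x ⟨hx, -⟩
      rw [acac_disc (by linarith)] at hx
      have := acac_small (by linarith) hx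
      have h1 := abs_lt.1 this.1
      have h2 := abs_lt.1 this.2
      exact ⟨⟨by linarith [h1.1], by linarith [h1.2]⟩, ⟨by linarith [h2.1], by linarith [h2.2]⟩⟩
    unfold TI
    rw [setIntegral_eq_of_subset_of_forall_sdiff_eq_zero acac_Qm hsub, ← integral_const_mul]
    · refine setIntegral_mono_on ((acac_int cB).mono_set hsub)
        ((hls.integrable.2.1.mono_set hsub).const_mul M)
        ((acac_discm _).diff (acac_discm _)) fun x hx => ?_
      have := hM' x (hsub hx)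
      have h2 : 0 ≤ h x ^ 2 := sq_nonneg _
      nlinarith
    · intro x hx
      have e1 : D1 (cc r1) x = 0 := cc_grad hr hr' hx.1 hx.2 (1, 0)
      have e2 : D2 (cc r1) x = 0 := cc_grad hr hr' hx.1 hx.2 (0, 1)
      rw [e1, e2]; ring
  have b3 : TI (fun x => cc r1 x ^ 2 * mu x ^ 2) ≤ ∫ x in Q \ Disc r1, mu x ^ 2 := by
    unfold TI
    rw [setIntegral_eq_of_subset_of_forall_sdiff_eq_zero acac_Qm
      (sdiff_subset : Q \ Disc r1 ⊆ Q)]
    · refine setIntegral_mono_on ((acac_int cD).mono_set sdiff_subset)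
        ((acac_int (hmu1.continuous.pow 2)).mono_set sdiff_subset)
        (acac_Qm.diff (acac_discm _)) fun x hx => ?_
      have h1 := cc_nn r1 x
      have h2 : cc r1 x ^ 2 ≤ 1 := by nlinarith
      nlinarith [sq_nonneg (mu x)]
    · intro x hx
      have h2 : x ∈ Disc r1 := by
        by_contra hc
        exact hx.2 ⟨hx.1, hc⟩
      rw [acac_disc hr] at h2
      rw [cc_eq hr hr' hx.1, cf_one hr (by nlinarith)]
      ring
  set I1 := ∫ x in Disc (2 * r1) \ Disc (5 / 4 * r1), h x ^ 2 with hI1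
  set I2 := ∫ x in Q \ Disc r1, mu x ^ 2 with hI2
  have hI1n : 0 ≤ I1 := integral_nonneg fun x => sq_nonneg _
  have hI2n : 0 ≤ I2 := integral_nonneg fun x => sq_nonneg _
  set J := ∫ x in Q \ Disc (2 * r1), (D1 h x ^ 2 + D2 h x ^ 2 + lam N * h x ^ 2) with hJ
  have f1 : c / 2 * J ≤ 2 * (M * I1) + 8 * π ^ 2 / c * I2 := by
    have t1 : c / 2 * J ≤ c / 2 * TI (fun x => cc r1 x ^ 2 * (D1 h x ^ 2 + D2 h x ^ 2 +
        lam N * h x ^ 2)) := mul_le_mul_of_nonneg_left b1 (by positivity)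
    have t3 : 8 * π ^ 2 / c * TI (fun x => cc r1 x ^ 2 * mu x ^ 2) ≤ 8 * π ^ 2 / c * I2 :=
      mul_le_mul_of_nonneg_left b3 (by positivity)
    linarith
  have f2 : J ≤ 4 * M / c * I1 + 16 * π ^ 2 / c ^ 2 * I2 := by
    have e : 4 * M / c * I1 + 16 * π ^ 2 / c ^ 2 * I2 =
        2 / c * (2 * (M * I1) + 8 * π ^ 2 / c * I2) := by
      field_simp
      ring
    rw [e]
    calc J = 2 / c * (c / 2 * J) := by field_simp
      _ ≤ _ := mul_le_mul_of_nonneg_left f1 (by positivity)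
  have g3 : 0 ≤ 16 * π ^ 2 / c ^ 2 * I1 := by positivity
  have g4 : 0 ≤ 4 * M / c * I2 := by positivity
  nlinarith

end Pool.Agent.AO
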