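import Pool.Agent.Lib.MP_10e52e_an.Ident
import Pool.Agent.Lib.MP_10e52e_an.Aom

/-! MP_10e52e_an row Agood: good term on the middle annulus -/

namespace Pool.Agent.AO

open MeasureTheory Set Real
open scoped ContDiff

theorem agood_lat_countable : Lat.Countable := by
  have : Lat = Set.range (fun p : ℤ × ℤ => ((p.1 : ℝ), (p.2 : ℝ))) := by
    ext x
    constructor
    · rintro ⟨m, n, rfl⟩
      exact ⟨(m, n), rfl⟩
    · rintro ⟨⟨m, n⟩, rfl⟩
      exact ⟨m, n, rfl⟩
  rw [this]
  exact Set.countable_range _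

theorem agood_ae (S : Set (ℝ × ℝ)) : ∀ᵐ x ∂(volume.restrict S), x ∉ Lat := by
  have h : (volume.restrict S) Lat = 0 := agood_lat_countable.measure_zero _
  exact measure_eq_zero_iff_ae_notMem.1 h

theorem agood_nrm_cont : Continuous nrm := by
  unfold nrm nsq
  fun_prop

theorem agood_disc_meas (r : ℝ) : MeasurableSet (Disc r) := by
  have : IsOpen (Disc r) := isOpen_lt agood_nrm_cont continuous_const
  exact this.measurableSet

theorem agood_disc_sub {r : ℝ} (hr : r ≤ 1 / 2) : Disc r ⊆ Q := by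
  intro x hx
  have hx' : nrm x < r := hx
  have h1 : |x.1| ≤ nrm x := by
    unfold nrm nsq
    exact Real.abs_le_sqrt (by nlinarith [sq_nonneg x.2])
  have h2 : |x.2| ≤ nrm x := by
    unfold nrm nsq
    exact Real.abs_le_sqrt (by nlinarith [sq_nonneg x.1])
  have h3 := abs_lt.1 (lt_of_le_of_lt h1 (lt_of_lt_of_le hx' hr))
  have h4 := abs_lt.1 (lt_of_le_of_lt h2 (lt_of_lt_of_le hx' hr))
  exact ⟨⟨by linarith [h3.1], h3.2.le⟩, ⟨by linarith [h4.1], h4.2.le⟩⟩

theorem agood_rem_meas {K R : ℝ × ℝ → ℝ} (hG : IsGreen K R) {Cb : ℝ} {N : ℕ}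
    {v mu om : ℝ × ℝ → ℝ} (hv : IsComp K Cb N v) (h : IsSol K N mu om) :
    Measurable (rem K v om) := by
  have hK : Measurable K := hG.smoothK.continuous.measurable
  have hvm : Measurable v := hv.smooth.continuous.measurable
  have hom : Measurable om := h.som.continuous.measurable
  have h0 : Measurable (om0 K v) := by
    unfold om0
    exact (Real.measurable_log.comp hK).add hvm
  unfold rem
  exact ((Real.measurable_exp.comp hom).sub (Real.measurable_exp.comp h0)).sub
    ((Real.measurable_exp.comp h0).mul (hom.sub h0))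

/-- the good term controls the middle annulus -/
theorem c1_good {K R : ℝ × ℝ → ℝ} (hG : IsGreen K R) {Cb : ℝ} (hCb : 0 < Cb) {r1 : ℝ}
    (hr : 0 < r1) (hr' : r1 ≤ 1 / 32) :
    ∃ c : ℝ, 0 < c ∧ ∃ N0 : ℕ, ∀ (N : ℕ) (v mu om : ℝ × ℝ → ℝ), N0 ≤ N →
      IsComp K Cb N v → IsSol K N mu om → NoFar mu r1 →
      c * (∫ x in Disc (2 * r1) \ Disc (5 / 4 * r1), hf K v om x ^ 2) ≤
        ∫ x in Disc (2 * r1), rem K v om x := by
  obtain ⟨C, hC, N0, hN0⟩ := c1_om hG hCb hr hr'
  obtain ⟨C2, hC2, hcb⟩ := comp_bounds hG hCb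
  refine ⟨Real.exp (-C) / 2, by positivity, max N0 3, ?_⟩
  intro N v mu om hN hv hsol hnf
  have hN1 : N0 ≤ N := le_trans (le_max_left _ _) hN
  have hN3 : 3 ≤ N := le_trans (le_max_right _ _) hN
  have hom : ∀ x, om x ≤ 0 := sol_nonpos (le_trans (by norm_num) hN3) hsol
  have hom0 : ∀ x, x ∉ Lat → om0 K v x ≤ 0 := (hcb N v hN3 hv).1
  have hsub : Disc (2 * r1) ⊆ Q := agood_disc_sub (by linarith)
  have hmid : Disc (2 * r1) \ Disc (5 / 4 * r1) ⊆ Disc (2 * r1) := sdiff_subset
  have hmm : MeasurableSet (Disc (2 * r1) \ Disc (5 / 4 * r1)) :=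
    (agood_disc_meas _).diff (agood_disc_meas _)
  have hh2 : IntegrableOn (fun x => hf K v om x ^ 2) Q :=
    (h_logsing hG hv hsol).1.integrable.2.1
  have hrem : IntegrableOn (rem K v om) Q := by
    refine Integrable.mono' (hh2.div_const 2)
      (agood_rem_meas hG hv hsol).aestronglyMeasurable ?_
    filter_upwards [agood_ae Q] with x hx
    have hb := rem_bounds (hom x) (hom0 x hx)
    have hb1 : 0 ≤ rem K v om x := hb.1
    rw [Real.norm_eq_abs, abs_of_nonneg hb1]
    exact hb.2.1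
  have h1 : ∫ x in Disc (2 * r1) \ Disc (5 / 4 * r1), Real.exp (-C) / 2 * hf K v om x ^ 2 ≤
      ∫ x in Disc (2 * r1) \ Disc (5 / 4 * r1), rem K v om x := by
    refine setIntegral_mono_ae_restrict
      (((hh2.mono_set (hmid.trans hsub)).const_mul _)) (hrem.mono_set (hmid.trans hsub)) ?_
    filter_upwards [agood_ae (Disc (2 * r1) \ Disc (5 / 4 * r1)),
      self_mem_ae_restrict hmm] with x hx hxm
    have hb := rem_bounds (hom x) (hom0 x hx)
    have hge : 5 / 4 * r1 ≤ nrm x := not_lt.1 hxm.2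
    obtain ⟨h3, h4⟩ := hN0 N v mu om hN1 hv hsol hnf x (hsub (hmid hxm)) hge
    have hmin : Real.exp (-C) ≤ min (Real.exp (om x)) (Real.exp (om0 K v x)) :=
      le_min (Real.exp_le_exp.2 h3) (Real.exp_le_exp.2 h4)
    have h5 : Real.exp (-C) / 2 * hf K v om x ^ 2 ≤
        min (Real.exp (om x)) (Real.exp (om0 K v x)) / 2 * hf K v om x ^ 2 := by
      have := sq_nonneg (hf K v om x)
      nlinarith
    exact le_trans h5 hb.2.2.1
  have h2 : ∫ x in Disc (2 * r1) \ Disc (5 / 4 * r1), rem K v om x ≤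
      ∫ x in Disc (2 * r1), rem K v om x := by
    refine setIntegral_mono_set (hrem.mono_set hsub) ?_ hmid.eventuallyLE
    filter_upwards [agood_ae (Disc (2 * r1))] with x hx
    exact (rem_bounds (hom x) (hom0 x hx)).1
  rw [← integral_const_mul]
  exact le_trans h1 h2

end Pool.Agent.AO
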