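import Pool.Agent.Lib.MP_10e52e_an.Tools

/-! MP_10e52e_an row Dpow: power integrals (polar coordinates) -/

namespace Pool.Agent.AO

open MeasureTheory Set Real
open scoped ContDiff

theorem Dpow_polar (a b : ℝ) (ha : 0 < a) :
    nrm (polarCoord.symm (a, b)) = a := by
  have : nrm (polarCoord.symm (a, b)) = Real.sqrt ((a * Real.cos b) ^ 2 + (a * Real.sin b) ^ 2) := by
    simp [nrm, nsq, polarCoord_symm_apply]
  rw [this, show (a * Real.cos b) ^ 2 + (a * Real.sin b) ^ 2 = a ^ 2 by
    have := Real.sin_sq_add_cos_sq b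
    nlinarith [this], Real.sqrt_sq ha.le]

theorem Dpow_meas (r : ℝ) : MeasurableSet (Disc r) := by
  have : Continuous nrm := by
    unfold nrm nsq
    fun_prop
  exact (isOpen_lt this continuous_const).measurableSet

/-- the integral of `(r/|y|)^p`, `p < 2` -/
theorem Dpow_int {r : ℝ} (hr : 0 < r) {p : ℝ} (hp : p < 2) :
    (∫ y in Disc r, (r / nrm y) ^ p) = 2 / (2 - p) * π * r ^ 2 := by
  rw [← integral_indicator (Dpow_meas r), ← integral_comp_polarCoord_symm]
  have e : ∀ q ∈ polarCoord.target,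
      q.1 • (Disc r).indicator (fun y => (r / nrm y) ^ p) (polarCoord.symm q) =
      (Iio r).indicator (fun x => x * (r / x) ^ p) q.1 * 1 := by
    rintro ⟨a, b⟩ hq
    rw [polarCoord_target] at hq
    have ha : 0 < a := hq.1
    by_cases h : a < r
    · rw [indicator_of_mem (by show nrm _ < r; rw [Dpow_polar a b ha]; exact h),
        indicator_of_mem (by exact h), Dpow_polar a b ha, mul_one, smul_eq_mul]
    · rw [indicator_of_notMem (by show ¬ nrm _ < r; rw [Dpow_polar a b ha]; exact h),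
        indicator_of_notMem (by exact h), smul_zero, zero_mul]
  rw [setIntegral_congr_fun polarCoord.open_target.measurableSet e, polarCoord_target,
    Measure.volume_eq_prod]
  rw [setIntegral_prod_mul (fun x => (Iio r).indicator (fun x => x * (r / x) ^ p) x)
    (fun _ => (1 : ℝ)) (Ioi 0) (Ioo (-π) π)]
  have e1 : ∫ _y in Ioo (-π) π, (1 : ℝ) = 2 * π := by
    rw [setIntegral_const, smul_eq_mul, mul_one, Measure.real, Real.volume_Ioo,
      ENNReal.toReal_ofReal (by linarith [Real.pi_pos])]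
    ring
  have e2 : ∫ x in Ioi (0 : ℝ), (Iio r).indicator (fun x => x * (r / x) ^ p) x =
      r ^ 2 / (2 - p) := by
    rw [setIntegral_indicator measurableSet_Iio, Ioi_inter_Iio, ← integral_Ioc_eq_integral_Ioo,
      ← intervalIntegral.integral_of_le hr.le]
    have e3 : ∫ x in (0 : ℝ)..r, x * (r / x) ^ p = ∫ x in (0 : ℝ)..r, r ^ p * x ^ (1 - p) := by
      refine intervalIntegral.integral_congr_ae (ae_of_all _ fun x hx => ?_)
      rw [uIoc_of_le hr.le] at hx
      have hx0 : 0 < x := hx.1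
      rw [Real.div_rpow hr.le hx0.le, Real.rpow_sub hx0, Real.rpow_one]
      ring
    rw [e3, intervalIntegral.integral_const_mul, integral_rpow (Or.inl (by linarith)),
      Real.zero_rpow (by linarith), sub_zero, show 1 - p + 1 = 2 - p by ring]
    rw [show r ^ p * (r ^ (2 - p) / (2 - p)) = r ^ p * r ^ (2 - p) / (2 - p) by ring,
      ← Real.rpow_add hr, show p + (2 - p) = (2 : ℝ) by ring, Real.rpow_two]
  rw [e1, e2]
  ring

/-- integrals of powers over discs -/
theorem disc_power {r : ℝ} (hr : 0 < r) :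
    (∫ y in Disc r, (r / nrm y) ^ (4 / 5 : ℝ)) = 5 / 3 * π * r ^ 2 ∧
    (∫ y in Disc r, (r / nrm y) ^ (8 / 5 : ℝ)) = 5 * π * r ^ 2 ∧
    IntegrableOn (fun y => (r / nrm y) ^ (4 / 5 : ℝ)) (Disc r) ∧
    IntegrableOn (fun y => (r / nrm y) ^ (8 / 5 : ℝ)) (Disc r) := by
  have h1 := Dpow_int hr (p := 4 / 5) (by norm_num)
  have h2 := Dpow_int hr (p := 8 / 5) (by norm_num)
  rw [show (2 : ℝ) / (2 - 4 / 5) = 5 / 3 by norm_num] at h1
  rw [show (2 : ℝ) / (2 - 8 / 5) = 5 by norm_num] at h2
  have hpi := Real.pi_pos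
  refine ⟨h1, h2, ?_, ?_⟩
  · by_contra h
    rw [integral_undef h] at h1
    have : 0 < 5 / 3 * π * r ^ 2 := by positivity
    linarith
  · by_contra h
    rw [integral_undef h] at h2
    have : 0 < 5 * π * r ^ 2 := by positivity
    linarith

end Pool.Agent.AO
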