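import Pool.Agent.Lib.MP_10e52e_an.Green
import Pool.Agent.Lib.MP_10e52e_an.Dpow

/-! MP_10e52e_an row Dsig: L4.1 -/

namespace Pool.Agent.AO

open MeasureTheory Set Real
open scoped ContDiff

theorem Dsig_measQ : MeasurableSet Q := measurableSet_Ioc.prod measurableSet_Ioc

theorem Dsig_intQ {f : ℝ × ℝ → ℝ} (hf : Continuous f) : IntegrableOn f Q := by
  have hK : IsCompact (Icc (-1 / 2 : ℝ) (1 / 2) ×ˢ Icc (-1 / 2 : ℝ) (1 / 2)) :=
    isCompact_Icc.prod isCompact_Icc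
  exact (hf.continuousOn.integrableOn_compact hK).mono_set
    (prod_mono Ioc_subset_Icc_self Ioc_subset_Icc_self)

theorem Dsig_TI_sub {f : ℝ × ℝ → ℝ} (hp : Per f) (hf : Continuous f) (x : ℝ × ℝ) :
    TI (fun y => f (x - y)) = TI f := by
  rw [← TI_shift hp (Dsig_intQ hf) x, ← TI_neg (f := fun y => f (y + x))]
  congr 1
  funext y
  congr 1
  abel

theorem Dsig_round {t : ℝ} (h1 : -1 / 2 < t) (h2 : t ≤ 1 / 2) :
    (t - round t) ^ 2 = t ^ 2 := by
  rcases h2.eq_or_lt with rfl | h3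
  · have : round (1 / 2 : ℝ) = 1 := by
      rw [round_eq, Int.floor_eq_iff]
      norm_num
    rw [this]
    norm_num
  · have : round t = 0 := by
      rw [round_eq, Int.floor_eq_iff]
      constructor
      · push_cast
        linarith
      · push_cast
        linarith
    rw [this]
    simp

theorem Dsig_tn {y : ℝ × ℝ} (hy : y ∈ Q) : tn y = nrm y := by
  obtain ⟨h1, h2⟩ := hy
  rw [tn, nrm, nrm, nsq, nsq]
  simp only
  rw [Dsig_round h1.1 h1.2, Dsig_round h2.1 h2.2]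

theorem Dsig_lat {y : ℝ × ℝ} (hy : y ∈ Q) (h0 : y ≠ 0) : y ∉ Lat := by
  rintro ⟨m, n, rfl⟩
  obtain ⟨h1, h2⟩ := hy
  simp only [mem_Ioc] at h1 h2
  apply h0
  have hm : m = 0 := by
    have a1 : (-1 : ℝ) < m := by linarith [h1.1]
    have a2 : (m : ℝ) < 1 := by linarith [h1.2]
    have a3 : (-1 : ℤ) < m := by exact_mod_cast a1
    have a4 : m < 1 := by exact_mod_cast a2
    omega
  have hn : n = 0 := by
    have a1 : (-1 : ℝ) < n := by linarith [h2.1]
    have a2 : (n : ℝ) < 1 := by linarith [h2.2]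
    have a3 : (-1 : ℤ) < n := by exact_mod_cast a1
    have a4 : n < 1 := by exact_mod_cast a2
    omega
  rw [hm, hn]
  simp

theorem Dsig_nrm_pos {y : ℝ × ℝ} (h0 : y ≠ 0) : 0 < nrm y := by
  rw [nrm, Real.sqrt_pos, nsq]
  by_contra h
  push Not at h
  apply h0
  have h1 : y.1 = 0 := by nlinarith [sq_nonneg y.1, sq_nonneg y.2]
  have h2 : y.2 = 0 := by nlinarith [sq_nonneg y.1, sq_nonneg y.2]
  exact Prod.ext h1 h2

theorem Dsig_nrm_cont : Continuous nrm := by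
  unfold nrm nsq
  fun_prop

theorem Dsig_measDisc (r : ℝ) : MeasurableSet (Disc r) :=
  (isOpen_lt Dsig_nrm_cont continuous_const).measurableSet

/-- the singular part -/
noncomputable def Dsig_h (d : ℝ) : ℝ × ℝ → ℝ :=
  (Disc d).indicator fun y => (d / nrm y) ^ (8 / 5 : ℝ)

theorem Dsig_h_nonneg {d : ℝ} (hd : 0 < d) (y : ℝ × ℝ) : 0 ≤ Dsig_h d y := by
  unfold Dsig_h
  refine indicator_nonneg (fun y _ => ?_) y
  have : 0 ≤ nrm y := Real.sqrt_nonneg _
  positivity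

theorem Dsig_h_int {d : ℝ} (hd : 0 < d) : IntegrableOn (Dsig_h d) Q ∧
    ∫ y in Q, Dsig_h d y ≤ 5 * π * d ^ 2 := by
  obtain ⟨-, h2, -, h4⟩ := disc_power hd
  have hi : Integrable (Dsig_h d) := (integrable_indicator_iff (Dsig_measDisc d)).mpr h4
  refine ⟨hi.integrableOn, ?_⟩
  rw [← h2, Dsig_h, setIntegral_indicator (Dsig_measDisc d)]
  refine setIntegral_mono_set h4 ?_ (Filter.Eventually.of_forall inter_subset_right)
  refine Filter.Eventually.of_forall fun y => ?_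
  have : 0 ≤ nrm y := Real.sqrt_nonneg _
  show 0 ≤ (d / nrm y) ^ (8 / 5 : ℝ)
  positivity

theorem Dsig_pow {t : ℝ} (ht : 1 ≤ t) : t ≤ t ^ (8 / 5 : ℝ) := by
  have := Real.rpow_le_rpow_of_exponent_le ht (show (1 : ℝ) ≤ 8 / 5 by norm_num)
  rwa [Real.rpow_one] at this

/-- `1/|y| s <= sqrt L s + L sqrt L h` -/
theorem Dsig_inv {L s : ℝ} (hL : 1 ≤ L) (hs : 0 ≤ s) (hsL : s ≤ L) {y : ℝ × ℝ} (hy : y ≠ 0) :
    (nrm y)⁻¹ * s ≤ √L * s + L * √L * Dsig_h (√L)⁻¹ y := by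
  have hn := Dsig_nrm_pos hy
  have hL0 : 0 < L := by linarith
  have hsq : 0 < √L := Real.sqrt_pos.mpr hL0
  have hh := Dsig_h_nonneg (d := (√L)⁻¹) (by positivity) y
  rcases lt_or_ge (nrm y) (√L)⁻¹ with h | h
  · have h1 : Dsig_h (√L)⁻¹ y = ((√L)⁻¹ / nrm y) ^ (8 / 5 : ℝ) := by
      rw [Dsig_h, indicator_of_mem (show y ∈ Disc (√L)⁻¹ from h)]
    have h2 : 1 ≤ (√L)⁻¹ / nrm y := by rw [le_div_iff₀ hn]; linarith
    have h3 := Dsig_pow h2
    have h4 : √L * ((√L)⁻¹ / nrm y) = (nrm y)⁻¹ := by field_simp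
    have h5 : (nrm y)⁻¹ ≤ √L * Dsig_h (√L)⁻¹ y := by
      rw [h1, ← h4]
      exact mul_le_mul_of_nonneg_left h3 hsq.le
    calc (nrm y)⁻¹ * s ≤ (√L * Dsig_h (√L)⁻¹ y) * L := by
          apply mul_le_mul h5 hsL hs
          positivity
      _ ≤ √L * s + L * √L * Dsig_h (√L)⁻¹ y := by
          have : 0 ≤ √L * s := by positivity
          linarith
  · have h1 : (nrm y)⁻¹ ≤ √L := by
      rw [inv_le_comm₀ hn hsq]
      exact h
    have h2 : (nrm y)⁻¹ * s ≤ √L * s := mul_le_mul_of_nonneg_right h1 hs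
    have h3 : 0 ≤ L * √L * Dsig_h (√L)⁻¹ y := by positivity
    linarith

/-- `log (1/|y|) s <= (1/2) log L s + L h` -/
theorem Dsig_log {L s : ℝ} (hL : 1 ≤ L) (hs : 0 ≤ s) (hsL : s ≤ L) {y : ℝ × ℝ} (hy : y ≠ 0) :
    -Real.log (nrm y) * s ≤ 1 / 2 * Real.log L * s + L * Dsig_h (√L)⁻¹ y := by
  have hn := Dsig_nrm_pos hy
  have hL0 : 0 < L := by linarith
  have hsq : 0 < √L := Real.sqrt_pos.mpr hL0
  have hh := Dsig_h_nonneg (d := (√L)⁻¹) (by positivity) y
  have hl : Real.log (√L)⁻¹ = -(1 / 2 * Real.log L) := by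
    rw [Real.log_inv, Real.log_sqrt hL0.le]
    ring
  rcases lt_or_ge (nrm y) (√L)⁻¹ with h | h
  · have h1 : Dsig_h (√L)⁻¹ y = ((√L)⁻¹ / nrm y) ^ (8 / 5 : ℝ) := by
      rw [Dsig_h, indicator_of_mem (show y ∈ Disc (√L)⁻¹ from h)]
    have h2 : 1 ≤ (√L)⁻¹ / nrm y := by rw [le_div_iff₀ hn]; linarith
    have h3 := Dsig_pow h2
    have h4 : Real.log ((√L)⁻¹ / nrm y) ≤ (√L)⁻¹ / nrm y := by
      have := Real.log_le_sub_one_of_pos (show 0 < (√L)⁻¹ / nrm y by positivity)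
      linarith
    rw [Real.log_div (by positivity) hn.ne', hl] at h4
    have h5 : -Real.log (nrm y) ≤ 1 / 2 * Real.log L + Dsig_h (√L)⁻¹ y := by
      rw [h1]
      linarith
    calc -Real.log (nrm y) * s ≤ (1 / 2 * Real.log L + Dsig_h (√L)⁻¹ y) * s :=
          mul_le_mul_of_nonneg_right h5 hs
      _ = 1 / 2 * Real.log L * s + s * Dsig_h (√L)⁻¹ y := by ring
      _ ≤ 1 / 2 * Real.log L * s + L * Dsig_h (√L)⁻¹ y := by
          have := mul_le_mul_of_nonneg_right hsL hh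
          linarith
  · have h1 : -Real.log (nrm y) ≤ 1 / 2 * Real.log L := by
      have := Real.log_le_log (by positivity) h
      rw [hl] at this
      linarith
    have h2 := mul_le_mul_of_nonneg_right h1 hs
    have h3 : 0 ≤ L * Dsig_h (√L)⁻¹ y := by positivity
    linarith

theorem Dsig_ae : ∀ᵐ y ∂(volume.restrict Q), y ∈ Q ∧ y ≠ (0 : ℝ × ℝ) := by
  have h1 : ∀ᵐ y ∂(volume.restrict Q), y ∈ Q := ae_restrict_mem Dsig_measQ
  have h2 : ∀ᵐ y ∂(volume.restrict Q), y ≠ (0 : ℝ × ℝ) :=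
    ae_restrict_of_ae (compl_mem_ae_iff.mpr (measure_singleton 0))
  filter_upwards [h1, h2] with y a b
  exact ⟨a, b⟩

theorem Dsig_force {g : ℝ × ℝ → ℝ} {C L : ℝ} (hC : 0 ≤ C) (hL : 1 ≤ L)
    (hgC : ∀ y ∈ Q, y ≠ 0 → |g y| ≤ C * (nrm y)⁻¹) {s : ℝ × ℝ → ℝ} (hs : Continuous s)
    (hp : Per s) (h0 : ∀ x, 0 ≤ s x) (h1 : ∀ x, s x ≤ L) (hT : TI s = 4 * π) (x : ℝ × ℝ) :
    |conv g s x| ≤ C * (9 * π) * √L := by
  have hL0 : 0 < L := by linarith
  have hsq : 0 < √L := Real.sqrt_pos.mpr hL0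
  obtain ⟨i1, i2⟩ := Dsig_h_int (d := (√L)⁻¹) (by positivity)
  have hsx : Continuous fun y => s (x - y) := hs.comp (continuous_const.sub continuous_id)
  have i3 : IntegrableOn (fun y => C * (√L * s (x - y) + L * √L * Dsig_h (√L)⁻¹ y)) Q :=
    (((Dsig_intQ hsx).const_mul _).add (i1.const_mul _)).const_mul _
  rw [conv, TI, ← Real.norm_eq_abs]
  refine (norm_integral_le_of_norm_le i3 ?_).trans ?_
  · filter_upwards [Dsig_ae] with y hy
    rw [norm_mul, Real.norm_eq_abs, Real.norm_eq_abs, abs_of_nonneg (h0 _)]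
    calc |g y| * s (x - y) ≤ C * (nrm y)⁻¹ * s (x - y) :=
          mul_le_mul_of_nonneg_right (hgC y hy.1 hy.2) (h0 _)
      _ = C * ((nrm y)⁻¹ * s (x - y)) := by ring
      _ ≤ _ := mul_le_mul_of_nonneg_left (Dsig_inv hL (h0 _) (h1 _) hy.2) hC
  · have e0 : ∫ y in Q, s (x - y) = 4 * π := by
      have := Dsig_TI_sub hp hs x
      rw [TI, hT] at this
      exact this
    rw [integral_const_mul, integral_add ((Dsig_intQ hsx).const_mul _) (i1.const_mul _),
      integral_const_mul, integral_const_mul, e0]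
    have e1 : L * √L * ∫ y in Q, Dsig_h (√L)⁻¹ y ≤ 5 * π * √L := by
      calc L * √L * ∫ y in Q, Dsig_h (√L)⁻¹ y ≤ L * √L * (5 * π * (√L)⁻¹ ^ 2) := by gcongr
        _ = 5 * π * √L := by
          have : (√L)⁻¹ ^ 2 = L⁻¹ := by rw [inv_pow, Real.sq_sqrt hL0.le]
          rw [this]
          field_simp
    calc C * (√L * (4 * π) + L * √L * ∫ y in Q, Dsig_h (√L)⁻¹ y)
        ≤ C * (√L * (4 * π) + 5 * π * √L) := by gcongr
      _ = C * (9 * π) * √L := by ring

/-- L4.1 -/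
theorem sigma_bounds {K R : ℝ × ℝ → ℝ} (hG : IsGreen K R) : ∃ C : ℝ, 0 < C ∧
    ∀ (N : ℕ) (s : ℝ × ℝ → ℝ), 3 ≤ N → Continuous s → Per s → (∀ x, 0 ≤ s x) →
      (∀ x, s x ≤ lam N) → TI s = 4 * π → ∀ x, -C ≤ conv (Gf K) s x ∧
        conv (Gf K) s x ≤ 2 * Real.log (lam N) + C ∧
        |conv (D1 (Gf K)) s x| ≤ C * Real.sqrt (lam N) ∧
        |conv (D2 (Gf K)) s x| ≤ C * Real.sqrt (lam N) := by
  obtain ⟨C0, hC0, -, -, -, hlow, hup, -⟩ := green_bounds hG
  obtain ⟨hls, -⟩ := green_logsing hG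
  obtain ⟨C1, hC1, hgrad⟩ := hls.grad_le
  obtain ⟨iG, -, -, -⟩ := hls.integrable
  have hpi := Real.pi_pos
  refine ⟨4 * π * C0 + 5 / 2 + C1 * (9 * π), by positivity, ?_⟩
  intro N s hN hs hp h0 h1 hT x
  set L := lam N with hLdef
  have hL : 1 ≤ L := by
    have h3 : (3 : ℝ) ≤ N := by exact_mod_cast hN
    have := Real.pi_gt_three
    rw [hLdef, lam]
    nlinarith
  have hL0 : 0 < L := by linarith
  have hlogL : 0 ≤ Real.log L := Real.log_nonneg hL
  have hsq : 0 < √L := Real.sqrt_pos.mpr hL0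
  have hsx : Continuous fun y => s (x - y) := hs.comp (continuous_const.sub continuous_id)
  have e0 : ∫ y in Q, s (x - y) = 4 * π := by
    have := Dsig_TI_sub hp hs x
    rw [TI, hT] at this
    exact this
  have iGs : IntegrableOn (fun y => Gf K y * s (x - y)) Q := by
    refine Integrable.mul_bdd (c := L) iG hsx.aestronglyMeasurable ?_
    exact Filter.Eventually.of_forall fun y => by
      rw [Real.norm_eq_abs, abs_of_nonneg (h0 _)]
      exact h1 _
  have hforce : ∀ (g : ℝ × ℝ → ℝ), (∀ y, y ∉ Lat → |g y| ≤ C1 / tn y) →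
      |conv g s x| ≤ (4 * π * C0 + 5 / 2 + C1 * (9 * π)) * √L := by
    intro g hg
    refine (Dsig_force hC1.le hL (fun y hy hy0 => ?_) hs hp h0 h1 hT x).trans ?_
    · have := hg y (Dsig_lat hy hy0)
      rwa [Dsig_tn hy, div_eq_mul_inv] at this
    · refine mul_le_mul_of_nonneg_right ?_ hsq.le
      have : 0 ≤ 4 * π * C0 + 5 / 2 := by positivity
      linarith
  refine ⟨?_, ?_, hforce _ fun y hy => (hgrad y hy).1, hforce _ fun y hy => (hgrad y hy).2⟩
  · -- lower bound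
    have : ∫ y in Q, -C0 * s (x - y) ≤ conv (Gf K) s x := by
      rw [conv, TI]
      refine integral_mono ((Dsig_intQ hsx).const_mul _) iGs fun y => ?_
      exact mul_le_mul_of_nonneg_right (hlow y) (h0 _)
    rw [integral_const_mul, e0] at this
    have h5 : 0 ≤ C1 * (9 * π) := by positivity
    linarith
  · -- upper bound
    obtain ⟨i1, i2⟩ := Dsig_h_int (d := (√L)⁻¹) (by positivity)
    have : conv (Gf K) s x ≤ ∫ y in Q, ((C0 + 1 / (2 * π) * (1 / 2 * Real.log L)) * s (x - y) +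
        1 / (2 * π) * L * Dsig_h (√L)⁻¹ y) := by
      rw [conv, TI]
      refine integral_mono_ae iGs (((Dsig_intQ hsx).const_mul _).add (i1.const_mul _)) ?_
      filter_upwards [Dsig_ae] with y hy
      have a1 := (abs_le.mp (hup y hy.1 hy.2)).2
      have a2 := Dsig_log hL (h0 (x - y)) (h1 (x - y)) hy.2
      have a3 : Gf K y ≤ C0 + 1 / (2 * π) * (-Real.log (nrm y)) := by linarith
      have a4 : 0 ≤ 1 / (2 * π) := by positivity
      calc Gf K y * s (x - y) ≤ (C0 + 1 / (2 * π) * (-Real.log (nrm y))) * s (x - y) :=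
            mul_le_mul_of_nonneg_right a3 (h0 _)
        _ = C0 * s (x - y) + 1 / (2 * π) * (-Real.log (nrm y) * s (x - y)) := by ring
        _ ≤ C0 * s (x - y) + 1 / (2 * π) * (1 / 2 * Real.log L * s (x - y) +
            L * Dsig_h (√L)⁻¹ y) := by gcongr
        _ = _ := by ring
    refine this.trans ?_
    rw [integral_add ((Dsig_intQ hsx).const_mul _) (i1.const_mul _), integral_const_mul,
      integral_const_mul, e0]
    have e1 : 1 / (2 * π) * L * ∫ y in Q, Dsig_h (√L)⁻¹ y ≤ 5 / 2 := by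
      calc 1 / (2 * π) * L * ∫ y in Q, Dsig_h (√L)⁻¹ y
          ≤ 1 / (2 * π) * L * (5 * π * (√L)⁻¹ ^ 2) := by gcongr
        _ = 5 / 2 := by
          have : (√L)⁻¹ ^ 2 = L⁻¹ := by rw [inv_pow, Real.sq_sqrt hL0.le]
          rw [this]
          field_simp
    have e2 : (C0 + 1 / (2 * π) * (1 / 2 * Real.log L)) * (4 * π) = 4 * π * C0 + Real.log L := by
      field_simp
      ring
    rw [e2]
    have h5 : 0 ≤ C1 * (9 * π) := by positivity
    linarith

end Pool.Agent.AO
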