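import Pool.Agent.Lib.MP_10e52e_an.Green
import Pool.Agent.Lib.MP_10e52e_an.Dsig

/-! MP_10e52e_an row Dbd: L4.2 -/

namespace Pool.Agent.AO

open MeasureTheory Set Real
open scoped ContDiff

theorem Dbd_measQ : MeasurableSet Q := measurableSet_Ioc.prod measurableSet_Ioc

theorem Dbd_subQ : Q ⊆ Icc (-1 / 2 : ℝ) (1 / 2) ×ˢ Icc (-1 / 2 : ℝ) (1 / 2) :=
  prod_mono Ioc_subset_Icc_self Ioc_subset_Icc_self

theorem Dbd_int {f g : ℝ × ℝ → ℝ} (hf : IntegrableOn f Q) (hg : Continuous g) :
    IntegrableOn (fun y => f y * g y) Q :=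
  hf.mul_continuousOn_of_subset hg.continuousOn Dbd_measQ (isCompact_Icc.prod isCompact_Icc) Dbd_subQ

theorem Dbd_cont {g : ℝ × ℝ → ℝ} (hg : Continuous g) : IntegrableOn g Q :=
  (hg.continuousOn.integrableOn_compact (isCompact_Icc.prod isCompact_Icc)).mono_set Dbd_subQ

theorem Dbd_flip {mu : ℝ × ℝ → ℝ} (hp : Per mu) (hc : Continuous mu) (x : ℝ × ℝ) :
    TI (fun y => mu (x - y)) = TI mu := by
  rw [← TI_shift hp (Dbd_cont hc) x, ← TI_neg (f := fun u => mu (u + x))]
  congr 1
  funext y
  congr 1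
  abel

theorem Dbd_ell_nonneg (y : ℝ × ℝ) : 0 ≤ ell y := le_max_left _ _

theorem Dbd_ell_meas : Measurable ell := by
  have h1 : Continuous nsq := by
    unfold nsq
    fun_prop
  have h2 : Measurable nrm := (Real.continuous_sqrt.comp h1).measurable
  have h3 : Measurable fun y => -Real.log (nrm y) := (Real.measurable_log.comp h2).neg
  exact measurable_const.max h3

/-- the function `l` is integrable on the unit cell -/
theorem Dbd_ell_int {K R : ℝ × ℝ → ℝ} (hG : IsGreen K R) : IntegrableOn ell Q := by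
  obtain ⟨C, hC, -, -, -, -, h5, -⟩ := green_bounds hG
  have hGi : IntegrableOn (Gf K) Q := (green_logsing hG).1.integrable.1
  have hfin : volume Q ≠ ⊤ := by
    have h1 : volume Q ≤ volume (Icc (-1 / 2 : ℝ) (1 / 2) ×ˢ Icc (-1 / 2 : ℝ) (1 / 2)) :=
      measure_mono Dbd_subQ
    exact (h1.trans_lt (isCompact_Icc.prod isCompact_Icc).measure_lt_top).ne
  have hb : IntegrableOn (fun y => 2 * π * (|Gf K y| + C)) Q := by
    refine Integrable.const_mul ?_ _
    exact hGi.abs.add (integrableOn_const hfin)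
  refine Integrable.mono' hb Dbd_ell_meas.aestronglyMeasurable ?_
  refine (ae_restrict_iff' Dbd_measQ).2 (Filter.Eventually.of_forall fun y hy => ?_)
  rw [Real.norm_eq_abs, abs_of_nonneg (Dbd_ell_nonneg y)]
  have hπ := Real.pi_pos
  have hpos : 0 ≤ 2 * π * (|Gf K y| + C) := by positivity
  refine max_le hpos ?_
  by_cases h0 : y = 0
  · have h1 : nrm y = 0 := by
      rw [h0]
      unfold nrm nsq
      simp
    rw [h1, Real.log_zero, neg_zero]
    exact hpos
  · have h1 := (abs_le.1 (h5 y hy h0)).1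
    have h2 : Gf K y ≤ |Gf K y| := le_abs_self _
    have h3 : -(1 / (2 * π) * Real.log (nrm y)) ≤ |Gf K y| + C := by linarith
    have h4 : -Real.log (nrm y) = 2 * π * (-(1 / (2 * π) * Real.log (nrm y))) := by
      field_simp
    rw [h4]
    exact mul_le_mul_of_nonneg_left h3 (by positivity)

/-- L4.2 -/
theorem dens_bounds {K R : ℝ × ℝ → ℝ} (hG : IsGreen K R) : ∃ C : ℝ, 0 < C ∧
    ∀ (N : ℕ) (z : ℝ × ℝ) (k : ℝ) (mu s : ℝ × ℝ → ℝ), 3 ≤ N → IsMF K N z k mu s → ∀ x,
      mu x ≤ C * (k * K (x + z - pt) ^ N) * Real.exp (4 * TI (fun y => ell y * mu (x - y))) ∧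
      k * K (x + z - pt) ^ N ≤ C * lam N ^ 2 * mu x := by
  obtain ⟨C1, hC1, hsig⟩ := sigma_bounds hG
  obtain ⟨C2, hC2, -, -, -, h4, h5, -⟩ := green_bounds hG
  have hπ := Real.pi_pos
  have hπ3 := Real.pi_gt_three
  have hGi : IntegrableOn (Gf K) Q := (green_logsing hG).1.integrable.1
  refine ⟨Real.exp (8 * π * C2 + C1), Real.exp_pos _, ?_⟩
  intro N z k mu s hN hmf x
  have hcm : Continuous mu := hmf.smu.continuous
  have hcs : Continuous s := hmf.ss.continuous
  have hcx : Continuous fun y => mu (x - y) := hcm.comp (continuous_const.sub continuous_id)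
  obtain ⟨hs1, hs2, -, -⟩ := hsig N s hN hcs hmf.ps hmf.s0 hmf.s1 hmf.Ts x
  have hflip : TI (fun y => mu (x - y)) = 1 := by rw [Dbd_flip hmf.pmu hcm x, hmf.one]
  have hA : 0 ≤ k * K (x + z - pt) ^ N := mul_nonneg hmf.kpos.le (pow_nonneg (hG.nonneg _) N)
  have hdens := hmf.dens x
  have hi1 : IntegrableOn (fun y => Gf K y * mu (x - y)) Q := Dbd_int hGi hcx
  have hi2 : IntegrableOn (fun y => mu (x - y)) Q := Dbd_cont hcx
  have hi3 : IntegrableOn (fun y => ell y * mu (x - y)) Q := Dbd_int (Dbd_ell_int hG) hcx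
  -- the upper bound of `G * mu`
  have hup : conv (Gf K) mu x ≤ 1 / (2 * π) * TI (fun y => ell y * mu (x - y)) + C2 := by
    have h6 : TI (fun y => 1 / (2 * π) * (ell y * mu (x - y)) + C2 * mu (x - y)) =
        1 / (2 * π) * TI (fun y => ell y * mu (x - y)) + C2 := by
      unfold TI at hflip ⊢
      rw [integral_add (hi3.const_mul _) (hi2.const_mul _), integral_const_mul, integral_const_mul,
        hflip, mul_one]
    rw [← h6]
    refine setIntegral_mono_on hi1 ((hi3.const_mul _).add (hi2.const_mul _)) Dbd_measQ fun y hy => ?_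
    have h7 : Gf K y ≤ 1 / (2 * π) * ell y + C2 := by
      by_cases h0 : y = 0
      · have h8 : Gf K y = 0 := by
          have h9 : K y = 0 := (hG.zero_iff y).2 ⟨0, 0, by rw [h0]; ext <;> simp⟩
          unfold Gf
          rw [h9, Real.log_zero, mul_zero]
        rw [h8]
        have := Dbd_ell_nonneg y
        positivity
      · have h8 := (abs_le.1 (h5 y hy h0)).2
        have h9 : -Real.log (nrm y) ≤ ell y := le_max_right _ _
        have h10 : 1 / (2 * π) * -Real.log (nrm y) ≤ 1 / (2 * π) * ell y :=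
          mul_le_mul_of_nonneg_left h9 (by positivity)
        linarith
    have h8 := mul_le_mul_of_nonneg_right h7 (hmf.nn (x - y))
    linarith
  -- the lower bound of `G * mu`
  have hlow : -C2 ≤ conv (Gf K) mu x := by
    have h6 : TI (fun y => -C2 * mu (x - y)) = -C2 := by
      unfold TI at hflip ⊢
      rw [integral_const_mul, hflip, mul_one]
    rw [← h6]
    refine setIntegral_mono_on (hi2.const_mul _) hi1 Dbd_measQ fun y _ => ?_
    exact mul_le_mul_of_nonneg_right (h4 y) (hmf.nn (x - y))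
  constructor
  · rw [hdens]
    have h6 : 8 * π * conv (Gf K) mu x - conv (Gf K) s x ≤
        (8 * π * C2 + C1) + 4 * TI (fun y => ell y * mu (x - y)) := by
      have h7 : 8 * π * conv (Gf K) mu x ≤
          8 * π * (1 / (2 * π) * TI (fun y => ell y * mu (x - y)) + C2) :=
        mul_le_mul_of_nonneg_left hup (by positivity)
      have h8 : 8 * π * (1 / (2 * π) * TI (fun y => ell y * mu (x - y)) + C2) =
          4 * TI (fun y => ell y * mu (x - y)) + 8 * π * C2 := by
        field_simp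
        ring
      linarith
    have h9 := mul_le_mul_of_nonneg_left (Real.exp_le_exp.2 h6) hA
    rw [Real.exp_add] at h9
    linarith
  · have hN1 : (3 : ℝ) ≤ N := by exact_mod_cast hN
    have hlam : 0 < lam N := by
      unfold lam
      have : 0 < (N : ℝ) - 1 := by linarith
      positivity
    rw [hdens]
    have h6 : -(8 * π * C2 + C1) - 2 * Real.log (lam N) ≤
        8 * π * conv (Gf K) mu x - conv (Gf K) s x := by
      have h7 : 8 * π * -C2 ≤ 8 * π * conv (Gf K) mu x :=
        mul_le_mul_of_nonneg_left hlow (by positivity)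
      linarith
    have h7 : Real.exp (-(8 * π * C2 + C1) - 2 * Real.log (lam N)) =
        (Real.exp (8 * π * C2 + C1))⁻¹ * (lam N ^ 2)⁻¹ := by
      rw [sub_eq_add_neg, Real.exp_add, Real.exp_neg, Real.exp_neg]
      congr 2
      rw [two_mul, Real.exp_add, Real.exp_log hlam, sq]
    have h8 : 1 ≤ Real.exp (8 * π * C2 + C1) * lam N ^ 2 *
        Real.exp (8 * π * conv (Gf K) mu x - conv (Gf K) s x) := by
      have h9 := Real.exp_le_exp.2 h6
      rw [h7] at h9
      have hE : 0 < Real.exp (8 * π * C2 + C1) := Real.exp_pos _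
      have hl2 : 0 < lam N ^ 2 := by positivity
      calc (1 : ℝ) = Real.exp (8 * π * C2 + C1) * lam N ^ 2 *
            ((Real.exp (8 * π * C2 + C1))⁻¹ * (lam N ^ 2)⁻¹) := by
            field_simp
        _ ≤ _ := mul_le_mul_of_nonneg_left h9 (by positivity)
    calc k * K (x + z - pt) ^ N = k * K (x + z - pt) ^ N * 1 := (mul_one _).symm
      _ ≤ k * K (x + z - pt) ^ N * (Real.exp (8 * π * C2 + C1) * lam N ^ 2 *
          Real.exp (8 * π * conv (Gf K) mu x - conv (Gf K) s x)) := mul_le_mul_of_nonneg_left h8 hA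
      _ = _ := by ring

end Pool.Agent.AO
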