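import Pool.Agent.Lib.MP_10e52e_an.Green
import Pool.Agent.Lib.MP_10e52e_an.Dpow

/-! MP_10e52e_an row Djen: L4.6 -/

namespace Pool.Agent.AO

open MeasureTheory Set Real
open scoped ContDiff

theorem djen_nrm_cont : Continuous nrm := by
  unfold nrm nsq
  fun_prop

theorem djen_disc_meas (r : ℝ) : MeasurableSet (Disc r) :=
  (isOpen_lt djen_nrm_cont continuous_const).measurableSet

theorem djen_bdd {f : ℝ × ℝ → ℝ} (hf : Continuous f) (r : ℝ) :
    ∃ M : ℝ, 0 ≤ M ∧ ∀ x ∈ Disc r, |f x| ≤ M := by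
  obtain ⟨M, hM⟩ := (isCompact_closedBall (0 : ℝ × ℝ) r).exists_bound_of_continuousOn hf.continuousOn
  refine ⟨max M 0, le_max_right _ _, fun x hx => ?_⟩
  have h1 : nrm x < r := hx
  have h2 : x ∈ Metric.closedBall (0 : ℝ × ℝ) r := by
    rw [mem_closedBall_zero_iff, Prod.norm_def]
    refine max_le ?_ ?_
    · refine le_trans ?_ h1.le
      rw [Real.norm_eq_abs]
      refine Real.abs_le_sqrt ?_
      unfold nsq
      nlinarith [sq_nonneg x.2]
    · refine le_trans ?_ h1.le
      rw [Real.norm_eq_abs]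
      refine Real.abs_le_sqrt ?_
      unfold nsq
      nlinarith [sq_nonneg x.1]
  exact (hM x h2).trans (le_max_left _ _)

theorem djen_disc_fin (r : ℝ) : volume (Disc r) < ⊤ := by
  refine lt_of_le_of_lt (measure_mono (fun x hx => ?_)) (isCompact_closedBall (0 : ℝ × ℝ) r).measure_lt_top
  have h1 : nrm x < r := hx
  rw [mem_closedBall_zero_iff, Prod.norm_def]
  refine max_le ?_ ?_
  · refine le_trans ?_ h1.le
    rw [Real.norm_eq_abs]
    refine Real.abs_le_sqrt ?_
    unfold nsq
    nlinarith [sq_nonneg x.2]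
  · refine le_trans ?_ h1.le
    rw [Real.norm_eq_abs]
    refine Real.abs_le_sqrt ?_
    unfold nsq
    nlinarith [sq_nonneg x.1]

/-- L4.6 -/
theorem jensen_log {f : ℝ × ℝ → ℝ} (hf : Continuous f) (h0 : ∀ x, 0 ≤ f x) {r : ℝ}
    (hr : 0 < r) (hm : ∫ y in Disc r, f y ≤ 1 / 5) :
    Real.exp (4 * ∫ y in Disc r, Real.log (r / nrm y) * f y) ≤
      1 + 5 * ∫ y in Disc r, (r / nrm y) ^ (4 / 5 : ℝ) * f y := by
  obtain ⟨-, -, hi, -⟩ := disc_power hr
  obtain ⟨M, hM0, hM⟩ := djen_bdd hf r
  have hmeas : Measurable fun y : ℝ × ℝ => r / nrm y := measurable_const.div djen_nrm_cont.measurable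
  have hi1 : IntegrableOn (fun y => (r / nrm y) ^ (4 / 5 : ℝ) * f y) (Disc r) := by
    refine Integrable.mul_bdd (c := M) hi hf.aestronglyMeasurable ?_
    refine (ae_restrict_iff' (djen_disc_meas r)).2 (Filter.Eventually.of_forall fun x hx => ?_)
    rw [Real.norm_eq_abs]
    exact hM x hx
  have hi2 : IntegrableOn f (Disc r) := by
    refine Measure.integrableOn_of_bounded (M := M) (djen_disc_fin r).ne hf.aestronglyMeasurable ?_
    refine (ae_restrict_iff' (djen_disc_meas r)).2 (Filter.Eventually.of_forall fun x hx => ?_)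
    rw [Real.norm_eq_abs]
    exact hM x hx
  have hlog0 : ∀ x ∈ Disc r, 0 ≤ Real.log (r / nrm x) := by
    intro x hx
    have h1 : nrm x < r := hx
    have h2 : 0 ≤ nrm x := Real.sqrt_nonneg _
    rcases h2.eq_or_lt with h3 | h3
    · rw [← h3]
      simp
    · refine Real.log_nonneg ?_
      rw [le_div_iff₀ h3]
      linarith
  have hlogle : ∀ x ∈ Disc r, Real.log (r / nrm x) ≤ (r / nrm x) ^ (4 / 5 : ℝ) / (4 / 5) := by
    intro x hx
    exact Real.log_le_rpow_div (div_nonneg hr.le (Real.sqrt_nonneg _)) (by norm_num)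
  have hi3 : IntegrableOn (fun y => Real.log (r / nrm y) * f y) (Disc r) := by
    refine Integrable.mono' (hi1.const_mul (5 / 4))
      ((hmeas.log.mul hf.measurable).aestronglyMeasurable) ?_
    refine (ae_restrict_iff' (djen_disc_meas r)).2 (Filter.Eventually.of_forall fun x hx => ?_)
    rw [Real.norm_eq_abs, abs_of_nonneg (mul_nonneg (hlog0 x hx) (h0 x))]
    have := mul_le_mul_of_nonneg_right (hlogle x hx) (h0 x)
    refine this.trans (le_of_eq ?_)
    ring
  set A : ℝ := 4 * ∫ y in Disc r, Real.log (r / nrm y) * f y with hA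
  set m : ℝ := ∫ y in Disc r, f y with hmdef
  have hm0 : 0 ≤ m := integral_nonneg fun x => h0 x
  have key : ∫ y in Disc r, (Real.exp A * (1 - A) * f y
      + 4 / 5 * Real.exp A * (Real.log (r / nrm y) * f y)) ≤
      ∫ y in Disc r, (r / nrm y) ^ (4 / 5 : ℝ) * f y := by
    refine integral_mono_ae ((hi2.const_mul _).add (hi3.const_mul _)) hi1 ?_
    have hne : ∀ᵐ y ∂(volume.restrict (Disc r)), y ≠ (0 : ℝ × ℝ) := by
      refine ae_restrict_of_ae ?_
      rw [ae_iff]
      simp
    filter_upwards [hne, (ae_restrict_iff' (djen_disc_meas r)).2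
      (Filter.Eventually.of_forall fun x hx => hx)] with y hy hyd
    have hn : 0 < nrm y := by
      refine Real.sqrt_pos.2 ?_
      unfold nsq
      rcases eq_or_ne y.1 0 with h1 | h1
      · have h2 : y.2 ≠ 0 := fun h2 => hy (Prod.ext h1 h2)
        positivity
      · positivity
    have hq : 0 < r / nrm y := div_pos hr hn
    have h1 : (r / nrm y) ^ (4 / 5 : ℝ) = Real.exp (4 / 5 * Real.log (r / nrm y)) := by
      rw [Real.rpow_def_of_pos hq, mul_comm]
    have h2 : Real.exp A * (1 + (4 / 5 * Real.log (r / nrm y) - A)) ≤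
        Real.exp (4 / 5 * Real.log (r / nrm y)) := by
      have h3 : Real.exp (4 / 5 * Real.log (r / nrm y)) =
          Real.exp A * Real.exp (4 / 5 * Real.log (r / nrm y) - A) := by
        rw [← Real.exp_add]
        congr 1
        ring
      rw [h3]
      refine mul_le_mul_of_nonneg_left ?_ (Real.exp_pos A).le
      linarith [Real.add_one_le_exp (4 / 5 * Real.log (r / nrm y) - A)]
    show Real.exp A * (1 - A) * f y + 4 / 5 * Real.exp A * (Real.log (r / nrm y) * f y) ≤
      (r / nrm y) ^ (4 / 5 : ℝ) * f y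
    rw [h1]
    refine le_trans (le_of_eq ?_) (mul_le_mul_of_nonneg_right h2 (h0 y))
    ring
  rw [integral_add (hi2.const_mul _) (hi3.const_mul _), integral_const_mul, integral_const_mul,
    ← hmdef] at key
  have hA2 : ∫ y in Disc r, Real.log (r / nrm y) * f y = A / 4 := by
    rw [hA]
    ring
  rw [hA2] at key
  have h5 : Real.exp A * (1 - A) ≤ 1 := by
    have h6 := Real.add_one_le_exp (-A)
    have h7 : Real.exp A * (1 - A) ≤ Real.exp A * Real.exp (-A) :=
      mul_le_mul_of_nonneg_left (by linarith) (Real.exp_pos A).le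
    rwa [← Real.exp_add, add_neg_cancel, Real.exp_zero] at h7
  have h8 : (1 - 5 * m) * (Real.exp A * (1 - A)) ≤ 1 - 5 * m := by
    have := mul_le_mul_of_nonneg_left h5 (show 0 ≤ 1 - 5 * m by linarith)
    linarith
  nlinarith

end Pool.Agent.AO
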