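import Pool.Agent.Lib.MP_10e52e_an.Green
import Pool.Agent.Lib.MP_10e52e_an.Dbd
import Pool.Agent.Lib.MP_10e52e_an.Djen
import Pool.Agent.Lib.MP_10e52e_an.Dpow

/-! MP_10e52e_an row Dball: L4.7 -/

namespace Pool.Agent.AO

open MeasureTheory Set Real
open scoped ContDiff

theorem dball_disc_sub {r : ℝ} (hr1 : r ≤ 1 / 2) : Disc r ⊆ Q := by
  intro y hy
  have h1 : |y.1| ≤ nrm y := by
    unfold nrm
    rw [← Real.sqrt_sq_eq_abs]
    exact Real.sqrt_le_sqrt (by unfold nsq; nlinarith [sq_nonneg y.2])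
  have h2 : |y.2| ≤ nrm y := by
    unfold nrm
    rw [← Real.sqrt_sq_eq_abs]
    exact Real.sqrt_le_sqrt (by unfold nsq; nlinarith [sq_nonneg y.1])
  have hy' : nrm y < r := hy
  have a1 := abs_lt.1 (lt_of_le_of_lt h1 hy')
  have a2 := abs_lt.1 (lt_of_le_of_lt h2 hy')
  exact ⟨⟨by linarith [a1.1], by linarith [a1.2]⟩, ⟨by linarith [a2.1], by linarith [a2.2]⟩⟩

theorem dball_nrm_cont : Continuous nrm := by
  unfold nrm nsq
  exact Real.continuous_sqrt.comp (by fun_prop)

theorem dball_disc_meas (r : ℝ) : MeasurableSet (Disc r) :=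
  (isOpen_lt dball_nrm_cont continuous_const).measurableSet

theorem dball_Q_meas : MeasurableSet Q := measurableSet_Ioc.prod measurableSet_Ioc

/-- continuous functions are integrable on `Q` -/
theorem dball_int_Q {f : ℝ × ℝ → ℝ} (hf : Continuous f) : IntegrableOn f Q := by
  have hQ : Q ⊆ Icc (-1 / 2 : ℝ) (1 / 2) ×ˢ Icc (-1 / 2 : ℝ) (1 / 2) :=
    prod_mono Ioc_subset_Icc_self Ioc_subset_Icc_self
  exact (hf.continuousOn.integrableOn_compact (isCompact_Icc.prod isCompact_Icc)).mono_set hQ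

theorem dball_ell {r : ℝ} (hr : 0 < r) (hr1 : r ≤ 1 / 2) (y : ℝ × ℝ) :
    ell y ≤ Real.log (1 / r) + (Disc r).indicator (fun y => Real.log (r / nrm y)) y := by
  have hn : 0 ≤ nrm y := Real.sqrt_nonneg _
  have hL : 0 ≤ Real.log (1 / r) := Real.log_nonneg (by rw [le_div_iff₀ hr]; linarith)
  unfold ell
  by_cases hy : y ∈ Disc r
  · rw [indicator_of_mem hy]
    have hy' : nrm y < r := hy
    rcases hn.eq_or_lt with h0 | hpos
    · rw [← h0]; simp; simpa using hL
    · have e1 : Real.log (1 / r) + Real.log (r / nrm y) = -Real.log (nrm y) := by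
        rw [Real.log_div one_ne_zero hr.ne', Real.log_div hr.ne' hpos.ne', Real.log_one]; ring
      have h3 : 0 ≤ Real.log (r / nrm y) := Real.log_nonneg (by rw [le_div_iff₀ hpos]; linarith)
      rw [e1]
      refine max_le ?_ le_rfl
      rw [← e1]; positivity
  · rw [indicator_of_notMem hy, add_zero]
    have hy' : r ≤ nrm y := by
      by_contra hcon
      exact hy (not_le.1 hcon)
    refine max_le hL ?_
    rw [one_div, Real.log_inv]
    exact neg_le_neg (Real.log_le_log hr hy')

/-- L4.7 -/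
theorem dens_ball {K R : ℝ × ℝ → ℝ} (hG : IsGreen K R) : ∃ C : ℝ, 0 < C ∧
    ∀ (N : ℕ) (z : ℝ × ℝ) (k : ℝ) (mu s : ℝ × ℝ → ℝ), 3 ≤ N → IsMF K N z k mu s →
      ∀ (x : ℝ × ℝ) (r : ℝ), 0 < r → r ≤ 1 / 2 → bm mu x r ≤ 1 / 5 →
        mu x ≤ C * (k * K (x + z - pt) ^ N) * r⁻¹ ^ 4 *
          (1 + 5 * ∫ y in Disc r, (r / nrm y) ^ (4 / 5 : ℝ) * mu (x - y)) := by
  obtain ⟨C, hC, hb⟩ := dens_bounds hG
  refine ⟨C, hC, ?_⟩
  intro N z k mu s hN hmf x r hr hr1 hm
  have h1 := (hb N z k mu s hN hmf x).1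
  set f : ℝ × ℝ → ℝ := fun y => mu (x - y) with hf
  have hfc : Continuous f := hmf.smu.continuous.comp (continuous_const.sub continuous_id)
  have hf0 : ∀ y, 0 ≤ f y := fun y => hmf.nn _
  -- the mass
  have hmass : TI f = 1 := by
    have e1 : TI (fun y => mu (-y + x)) = TI (fun y => mu (y + x)) :=
      TI_neg (f := fun y => mu (y + x))
    have e2 : TI (fun y => mu (y + x)) = TI mu := TI_shift hmf.pmu (dball_int_Q hmf.smu.continuous) x
    rw [← hmf.one, ← e2, ← e1]
    congr 1
    funext y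
    rw [hf]; simp only; congr 1; abel
  -- integrability of the logarithm
  obtain ⟨-, -, hI, -⟩ := disc_power hr
  have hfQ : IntegrableOn f Q := dball_int_Q hfc
  obtain ⟨M, hM⟩ : ∃ M : ℝ, ∀ y ∈ Q, ‖f y‖ ≤ M := by
    obtain ⟨M, hM⟩ := ((isCompact_Icc (a := (-1 / 2 : ℝ)) (b := 1 / 2)).prod
      (isCompact_Icc (a := (-1 / 2 : ℝ)) (b := 1 / 2))).exists_bound_of_continuousOn
      hfc.continuousOn
    exact ⟨M, fun y hy => hM y (prod_mono Ioc_subset_Icc_self Ioc_subset_Icc_self hy)⟩
  have hsub := dball_disc_sub hr1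
  have hlogm : Measurable fun y : ℝ × ℝ => Real.log (r / nrm y) :=
    Real.measurable_log.comp (measurable_const.div dball_nrm_cont.measurable)
  have hlog : IntegrableOn (fun y => Real.log (r / nrm y)) (Disc r) := by
    refine Integrable.mono' (hI.const_mul (5 / 4)) hlogm.aestronglyMeasurable ?_
    filter_upwards [ae_restrict_mem (dball_disc_meas r)] with y hy
    have hy' : nrm y < r := hy
    have hn : 0 ≤ nrm y := Real.sqrt_nonneg _
    rcases hn.eq_or_lt with h0 | hpos
    · rw [← h0]; simp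
    · have h3 : 0 ≤ Real.log (r / nrm y) := Real.log_nonneg (by rw [le_div_iff₀ hpos]; linarith)
      rw [Real.norm_eq_abs, abs_of_nonneg h3]
      have := Real.log_le_rpow_div (x := r / nrm y) (ε := 4 / 5) (by positivity) (by norm_num)
      calc _ ≤ (r / nrm y) ^ (4 / 5 : ℝ) / (4 / 5) := this
        _ = _ := by ring
  have hlogf : IntegrableOn (fun y => Real.log (r / nrm y) * f y) (Disc r) := by
    refine Integrable.mono' (hlog.norm.mul_const M) (hlogm.mul hfc.measurable).aestronglyMeasurable ?_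
    filter_upwards [ae_restrict_mem (dball_disc_meas r)] with y hy
    rw [norm_mul]
    exact mul_le_mul_of_nonneg_left (hM y (hsub hy)) (norm_nonneg _)
  have hlogQ : IntegrableOn ((Disc r).indicator fun y => Real.log (r / nrm y) * f y) Q :=
    ((integrable_indicator_iff (dball_disc_meas r)).2 hlogf).integrableOn
  have hTI : TI (fun y => ell y * mu (x - y)) ≤
      Real.log (1 / r) + ∫ y in Disc r, Real.log (r / nrm y) * f y := by
    have hg : IntegrableOn (fun y => Real.log (1 / r) * f y +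
        (Disc r).indicator (fun y => Real.log (r / nrm y) * f y) y) Q :=
      (hfQ.const_mul _).add hlogQ
    have hle : TI (fun y => ell y * mu (x - y)) ≤ TI (fun y => Real.log (1 / r) * f y +
        (Disc r).indicator (fun y => Real.log (r / nrm y) * f y) y) := by
      refine integral_mono_of_nonneg ?_ hg ?_
      · exact Filter.Eventually.of_forall fun y =>
          mul_nonneg (le_max_left _ _) (hf0 y)
      · refine Filter.Eventually.of_forall fun y => ?_
        have := mul_le_mul_of_nonneg_right (dball_ell hr hr1 y) (hf0 y)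
        refine this.trans (le_of_eq ?_)
        rw [add_mul]
        congr 1
        by_cases hy : y ∈ Disc r
        · rw [indicator_of_mem hy, indicator_of_mem hy]
        · rw [indicator_of_notMem hy, indicator_of_notMem hy, zero_mul]
    refine hle.trans (le_of_eq ?_)
    unfold TI
    rw [integral_add (hfQ.const_mul _) hlogQ, integral_const_mul]
    have e3 : ∫ y in Q, f y = 1 := hmass
    rw [e3, mul_one, integral_indicator (dball_disc_meas r),
      Measure.restrict_restrict (dball_disc_meas r), inter_eq_self_of_subset_left hsub]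
  have hJ := jensen_log hfc hf0 hr (by exact hm)
  have hexp : Real.exp (4 * TI (fun y => ell y * mu (x - y))) ≤
      r⁻¹ ^ 4 * (1 + 5 * ∫ y in Disc r, (r / nrm y) ^ (4 / 5 : ℝ) * mu (x - y)) := by
    calc Real.exp (4 * TI (fun y => ell y * mu (x - y)))
        ≤ Real.exp (4 * (Real.log (1 / r) + ∫ y in Disc r, Real.log (r / nrm y) * f y)) :=
          Real.exp_le_exp.2 (by linarith)
      _ = r⁻¹ ^ 4 * Real.exp (4 * ∫ y in Disc r, Real.log (r / nrm y) * f y) := by
          rw [mul_add, Real.exp_add]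
          congr 1
          rw [one_div, show (4 : ℝ) * Real.log r⁻¹ = ((4 : ℕ) : ℝ) * Real.log r⁻¹ by norm_num,
            Real.exp_nat_mul, Real.exp_log (inv_pos.2 hr)]
      _ ≤ _ := mul_le_mul_of_nonneg_left hJ (by positivity)
  have hk : 0 ≤ C * (k * K (x + z - pt) ^ N) :=
    mul_nonneg hC.le (mul_nonneg hmf.kpos.le (pow_nonneg (hG.nonneg _) _))
  calc mu x ≤ C * (k * K (x + z - pt) ^ N) * Real.exp (4 * TI (fun y => ell y * mu (x - y))) := h1
    _ ≤ C * (k * K (x + z - pt) ^ N) * (r⁻¹ ^ 4 *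
        (1 + 5 * ∫ y in Disc r, (r / nrm y) ^ (4 / 5 : ℝ) * mu (x - y))) :=
        mul_le_mul_of_nonneg_left hexp hk
    _ = _ := by ring

end Pool.Agent.AO
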