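import Pool.Agent.Lib.MP_10e52e_an.Green
import Pool.Agent.Lib.MP_10e52e_an.Dball
import Pool.Agent.Lib.MP_10e52e_an.Dpow

/-! MP_10e52e_an row DL2: L4.8(a) -/

namespace Pool.Agent.AO

open MeasureTheory Set Real
open scoped ContDiff

/-- a continuous periodic function is bounded -/
private theorem DL2_bdd {f : ℝ × ℝ → ℝ} (hf : Continuous f) (hp : Per f) :
    ∃ B : ℝ, 0 ≤ B ∧ ∀ x, |f x| ≤ B := by
  have hcpt : IsCompact (Icc (-1 / 2 : ℝ) (1 / 2) ×ˢ Icc (-1 / 2 : ℝ) (1 / 2)) :=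
    isCompact_Icc.prod isCompact_Icc
  obtain ⟨B, hB⟩ := hcpt.exists_bound_of_continuousOn hf.continuousOn
  have hred : ∀ x : ℝ × ℝ, f (x.1 - round x.1, x.2 - round x.2) = f x := by
    intro x
    have h1 : Function.Periodic (fun t : ℝ => f (t, x.2 - round x.2)) 1 :=
      fun t => (hp (t, x.2 - round x.2)).1
    have h2 : Function.Periodic (fun t : ℝ => f (x.1, t)) 1 :=
      fun t => (hp (x.1, t)).2
    have e1 := h1.sub_zsmul_eq (x := x.1) (round x.1)
    have e2 := h2.sub_zsmul_eq (x := x.2) (round x.2)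
    simp only [zsmul_eq_mul, mul_one] at e1 e2
    rw [e1, e2]
  have hmem : ∀ t : ℝ, t - round t ∈ Icc (-1 / 2 : ℝ) (1 / 2) := by
    intro t
    have := abs_le.1 (abs_sub_round t)
    constructor <;> linarith [this.1, this.2]
  refine ⟨|B|, abs_nonneg _, fun x => ?_⟩
  rw [← hred x]
  exact (hB _ ⟨hmem x.1, hmem x.2⟩).trans (le_abs_self B)

private theorem DL2_cnrm : Continuous nrm := by
  unfold nrm nsq
  fun_prop

private theorem DL2_disc (r : ℝ) : MeasurableSet (Disc r) :=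
  measurableSet_lt DL2_cnrm.measurable measurable_const

private theorem DL2_volQ : volume Q = 1 := by
  rw [Q, Measure.volume_eq_prod, Measure.prod_prod, Real.volume_Ioc]
  norm_num

private theorem DL2_wmeas (r p : ℝ) : Measurable fun y : ℝ × ℝ => (r / nrm y) ^ p :=
  (measurable_const.div DL2_cnrm.measurable).pow_const p

/-- integrability against a bounded function -/
private theorem DL2_int {w : ℝ × ℝ → ℝ} {D : Set (ℝ × ℝ)} (hw : IntegrableOn w D)
    {f : ℝ × ℝ → ℝ} (hf : Continuous f) {B : ℝ} (hB : ∀ x, |f x| ≤ B) :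
    IntegrableOn (fun y => w y * f y) D := by
  have h := hw.bdd_mul (c := B) hf.aestronglyMeasurable (Filter.Eventually.of_forall fun y => by
    rw [Real.norm_eq_abs]; exact hB y)
  refine h.congr (Filter.Eventually.of_forall fun y => ?_)
  show f y * w y = w y * f y
  ring

/-- L4.8 (a) -/
theorem dens_L2 {K R : ℝ × ℝ → ℝ} (hG : IsGreen K R) : ∃ C : ℝ, 0 < C ∧
    ∀ (N : ℕ) (z : ℝ × ℝ) (k : ℝ) (mu s : ℝ × ℝ → ℝ), 3 ≤ N → IsMF K N z k mu s →
      ∀ (S : Set (ℝ × ℝ)) (r M : ℝ), MeasurableSet S → S ⊆ Q → 0 < r → r ≤ 1 / 2 →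
        (∀ x ∈ S, bm mu x r ≤ 1 / 5) → (∀ x ∈ S, k * K (x + z - pt) ^ N ≤ M) →
        ∫ x in S, mu x ^ 2 ≤ C * M ^ 2 * r⁻¹ ^ 8 := by
  obtain ⟨C0, hC0, h0⟩ := dens_ball hG
  refine ⟨C0 ^ 2 * (2 + 50 * π), by positivity, ?_⟩
  intro N z k mu s hN hmf S r M hS hSQ hr hr2 hbm hM
  have hcont : Continuous mu := hmf.smu.continuous
  obtain ⟨B, hB0, hB⟩ := DL2_bdd hcont hmf.pmu
  obtain ⟨hp1, hp2, hi1, hi2⟩ := disc_power hr
  have hwpos : ∀ (p : ℝ) (y : ℝ × ℝ), 0 ≤ (r / nrm y) ^ p := fun p y =>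
    Real.rpow_nonneg (div_nonneg hr.le (Real.sqrt_nonneg _)) p
  have hwsq : ∀ y : ℝ × ℝ, ((r / nrm y) ^ (4 / 5 : ℝ)) ^ 2 = (r / nrm y) ^ (8 / 5 : ℝ) := by
    intro y
    have hb : 0 ≤ r / nrm y := div_nonneg hr.le (Real.sqrt_nonneg _)
    rw [← Real.rpow_natCast, ← Real.rpow_mul hb]
    norm_num
  have hcx : ∀ x : ℝ × ℝ, Continuous fun y => mu (x - y) := fun x =>
    hcont.comp (continuous_const.sub continuous_id)
  have hBx : ∀ x y : ℝ × ℝ, |mu (x - y)| ≤ B := fun x y => hB _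
  set J : ℝ × ℝ → ℝ := fun x => ∫ y in Disc r, (r / nrm y) ^ (4 / 5 : ℝ) * mu (x - y) with hJ
  set A : ℝ × ℝ → ℝ := fun x => ∫ y in Disc r, (r / nrm y) ^ (8 / 5 : ℝ) * mu (x - y) with hA
  -- Cauchy-Schwarz
  have hone : IntegrableOn (fun _ : ℝ × ℝ => (1 : ℝ)) (Disc r) := by
    have hsub : Disc r ⊆ Icc (-r) r ×ˢ Icc (-r) r := by
      intro y hy
      have hy' : nrm y < r := hy
      have h1 : nsq y < r ^ 2 := by
        have := Real.sqrt_lt' hr |>.1 hy'
        exact this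
      unfold nsq at h1
      have a1 : |y.1| ≤ r := abs_le_of_sq_le_sq (by nlinarith [sq_nonneg y.2]) hr.le
      have a2 : |y.2| ≤ r := abs_le_of_sq_le_sq (by nlinarith [sq_nonneg y.1]) hr.le
      exact ⟨⟨(abs_le.1 a1).1, (abs_le.1 a1).2⟩, ⟨(abs_le.1 a2).1, (abs_le.1 a2).2⟩⟩
    have hc : IsCompact (Icc (-r) r ×ˢ Icc (-r) r : Set (ℝ × ℝ)) :=
      isCompact_Icc.prod isCompact_Icc
    have : IntegrableOn (fun _ : ℝ × ℝ => (1 : ℝ)) (Icc (-r) r ×ˢ Icc (-r) r) :=
      continuous_const.continuousOn.integrableOn_compact hc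
    exact this.mono_set hsub
  have hCS : ∀ x ∈ S, J x ^ 2 ≤ A x / 5 := by
    intro x hx
    have i1 : IntegrableOn (fun y => (r / nrm y) ^ (4 / 5 : ℝ) * mu (x - y)) (Disc r) :=
      DL2_int hi1 (hcx x) (hBx x)
    have i2 : IntegrableOn (fun y => (r / nrm y) ^ (8 / 5 : ℝ) * mu (x - y)) (Disc r) :=
      DL2_int hi2 (hcx x) (hBx x)
    have i3 : IntegrableOn (fun y => mu (x - y)) (Disc r) := by
      have := DL2_int hone (hcx x) (hBx x)
      simpa using this
    have hm : ∀ t : ℝ, 2 * t * J x ≤ A x + t ^ 2 * bm mu x r := by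
      intro t
      have e1 : 2 * t * J x = ∫ y in Disc r, 2 * t * ((r / nrm y) ^ (4 / 5 : ℝ) * mu (x - y)) := by
        rw [hJ, integral_const_mul]
      have e2 : A x + t ^ 2 * bm mu x r =
          ∫ y in Disc r, ((r / nrm y) ^ (8 / 5 : ℝ) * mu (x - y) + t ^ 2 * mu (x - y)) := by
        rw [integral_add i2 (i3.const_mul _), integral_const_mul]
        rfl
      rw [e1, e2]
      apply integral_mono (i1.const_mul _) (i2.add (i3.const_mul _))
      intro y
      show 2 * t * ((r / nrm y) ^ (4 / 5 : ℝ) * mu (x - y)) ≤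
        (r / nrm y) ^ (8 / 5 : ℝ) * mu (x - y) + t ^ 2 * mu (x - y)
      rw [← hwsq y]
      nlinarith [mul_nonneg (sq_nonneg ((r / nrm y) ^ (4 / 5 : ℝ) - t)) (hmf.nn (x - y))]
    have h5 := hm (5 * J x)
    have h6 : (5 * J x) ^ 2 * bm mu x r ≤ (5 * J x) ^ 2 * (1 / 5) :=
      mul_le_mul_of_nonneg_left (hbm x hx) (sq_nonneg _)
    nlinarith
  have hJ0 : ∀ x, 0 ≤ J x := fun x =>
    integral_nonneg fun y => mul_nonneg (hwpos _ y) (hmf.nn _)
  have hA0 : ∀ x, 0 ≤ A x := fun x =>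
    integral_nonneg fun y => mul_nonneg (hwpos _ y) (hmf.nn _)
  have hK0 : ∀ x, 0 ≤ k * K (x + z - pt) ^ N := fun x =>
    mul_nonneg hmf.kpos.le (pow_nonneg (hG.nonneg _) N)
  have hkey : ∀ x ∈ S, mu x ^ 2 ≤ C0 ^ 2 * M ^ 2 * r⁻¹ ^ 8 * (2 + 10 * A x) := by
    intro x hx
    have h1 := h0 N z k mu s hN hmf x r hr hr2 (hbm x hx)
    have hM0 : 0 ≤ M := (hK0 x).trans (hM x hx)
    have h2 : mu x ≤ C0 * M * r⁻¹ ^ 4 * (1 + 5 * J x) := by
      refine h1.trans ?_
      apply mul_le_mul_of_nonneg_right _ (by have := hJ0 x; positivity)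
      apply mul_le_mul_of_nonneg_right _ (by positivity)
      exact mul_le_mul_of_nonneg_left (hM x hx) hC0.le
    have h3 : mu x ^ 2 ≤ (C0 * M * r⁻¹ ^ 4 * (1 + 5 * J x)) ^ 2 :=
      pow_le_pow_left₀ (hmf.nn x) h2 2
    have h4 : (1 + 5 * J x) ^ 2 ≤ 2 + 10 * A x := by
      have := hCS x hx
      nlinarith [sq_nonneg (1 - 5 * J x)]
    have h5 : (C0 * M * r⁻¹ ^ 4 * (1 + 5 * J x)) ^ 2 =
        C0 ^ 2 * M ^ 2 * r⁻¹ ^ 8 * (1 + 5 * J x) ^ 2 := by ring
    rw [h5] at h3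
    exact h3.trans (mul_le_mul_of_nonneg_left h4 (by positivity))
  -- Fubini
  have hSfin : volume S ≤ 1 := DL2_volQ ▸ measure_mono hSQ
  have hSlt : volume S < ⊤ := hSfin.trans_lt ENNReal.one_lt_top
  have : IsFiniteMeasure (volume.restrict S) := ⟨by rw [Measure.restrict_apply_univ]; exact hSlt⟩
  have hF : Integrable (fun q : (ℝ × ℝ) × (ℝ × ℝ) => (r / nrm q.2) ^ (8 / 5 : ℝ) * mu (q.1 - q.2))
      ((volume.restrict S).prod (volume.restrict (Disc r))) := by
    have hb : Integrable (fun q : (ℝ × ℝ) × (ℝ × ℝ) => B * (r / nrm q.2) ^ (8 / 5 : ℝ))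
        ((volume.restrict S).prod (volume.restrict (Disc r))) :=
      (integrable_const B).mul_prod hi2
    refine hb.mono' ?_ (Filter.Eventually.of_forall fun q => ?_)
    · apply Measurable.aestronglyMeasurable
      exact ((DL2_wmeas r (8 / 5)).comp measurable_snd).mul
        (hcont.measurable.comp (measurable_fst.sub measurable_snd))
    · rw [Real.norm_eq_abs, abs_mul, abs_of_nonneg (hwpos _ _), mul_comm B]
      exact mul_le_mul_of_nonneg_left (hB _) (hwpos _ _)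
  have hAint : IntegrableOn A S := hF.integral_prod_left
  have hAle : ∫ x in S, A x ≤ 5 * π * r ^ 2 := by
    have hsw : ∫ x in S, A x =
        ∫ y in Disc r, ∫ x in S, (r / nrm y) ^ (8 / 5 : ℝ) * mu (x - y) :=
      integral_integral_swap hF
    rw [hsw, ← hp2]
    have hint2 : IntegrableOn (fun y => ∫ x in S, (r / nrm y) ^ (8 / 5 : ℝ) * mu (x - y)) (Disc r) :=
      hF.integral_prod_right
    apply integral_mono hint2 hi2
    intro y
    show ∫ x in S, (r / nrm y) ^ (8 / 5 : ℝ) * mu (x - y) ≤ (r / nrm y) ^ (8 / 5 : ℝ)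
    rw [integral_const_mul]
    have hcy : Continuous fun x => mu (x - y) := hcont.comp (continuous_id.sub continuous_const)
    have hQc : IntegrableOn (fun x => mu (x - y)) Q := by
      have hc : IsCompact (Icc (-1 / 2 : ℝ) (1 / 2) ×ˢ Icc (-1 / 2 : ℝ) (1 / 2)) :=
        isCompact_Icc.prod isCompact_Icc
      refine (hcy.continuousOn.integrableOn_compact hc).mono_set ?_
      exact prod_mono Ioc_subset_Icc_self Ioc_subset_Icc_self
    have hmQ : IntegrableOn mu Q := by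
      have hc : IsCompact (Icc (-1 / 2 : ℝ) (1 / 2) ×ˢ Icc (-1 / 2 : ℝ) (1 / 2)) :=
        isCompact_Icc.prod isCompact_Icc
      refine (hcont.continuousOn.integrableOn_compact hc).mono_set ?_
      exact prod_mono Ioc_subset_Icc_self Ioc_subset_Icc_self
    have h1 : ∫ x in S, mu (x - y) ≤ ∫ x in Q, mu (x - y) :=
      setIntegral_mono_set hQc (Filter.Eventually.of_forall fun x => hmf.nn _)
        (Filter.Eventually.of_forall hSQ)
    have h2 : ∫ x in Q, mu (x - y) = 1 := by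
      have := TI_shift hmf.pmu hmQ (-y)
      rw [hmf.one] at this
      simpa [TI, sub_eq_add_neg] using this
    rw [h2] at h1
    calc (r / nrm y) ^ (8 / 5 : ℝ) * ∫ x in S, mu (x - y)
        ≤ (r / nrm y) ^ (8 / 5 : ℝ) * 1 := mul_le_mul_of_nonneg_left h1 (hwpos _ y)
      _ = _ := mul_one _
  -- integrate
  have hL : ∫ x in S, mu x ^ 2 ≤ ∫ x in S, C0 ^ 2 * M ^ 2 * r⁻¹ ^ 8 * (2 + 10 * A x) := by
    apply setIntegral_mono_on _ _ hS hkey
    · have hc : IsCompact (Icc (-1 / 2 : ℝ) (1 / 2) ×ˢ Icc (-1 / 2 : ℝ) (1 / 2)) :=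
        isCompact_Icc.prod isCompact_Icc
      refine ((hcont.pow 2).continuousOn.integrableOn_compact hc).mono_set ?_
      exact hSQ.trans (prod_mono Ioc_subset_Icc_self Ioc_subset_Icc_self)
    · apply Integrable.const_mul
      exact (integrable_const (2 : ℝ)).add (hAint.const_mul 10)
  refine hL.trans ?_
  rw [integral_const_mul, integral_add (integrable_const _) (hAint.const_mul 10),
    integral_const_mul, setIntegral_const, smul_eq_mul]
  have hvol : volume.real S ≤ 1 := by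
    rw [Measure.real]
    exact ENNReal.toReal_mono ENNReal.one_ne_top hSfin
  have hr4 : r ^ 2 ≤ 1 / 4 := by nlinarith
  have hpi := Real.pi_pos
  have hfin : volume.real S * 2 + 10 * ∫ x in S, A x ≤ 2 + 50 * π := by
    have : 5 * π * r ^ 2 ≤ 5 * π * (1 / 4) := mul_le_mul_of_nonneg_left hr4 (by positivity)
    linarith
  calc C0 ^ 2 * M ^ 2 * r⁻¹ ^ 8 * (volume.real S * 2 + 10 * ∫ x in S, A x)
      ≤ C0 ^ 2 * M ^ 2 * r⁻¹ ^ 8 * (2 + 50 * π) :=
        mul_le_mul_of_nonneg_left hfin (by positivity)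
    _ = C0 ^ 2 * (2 + 50 * π) * M ^ 2 * r⁻¹ ^ 8 := by ring

end Pool.Agent.AO
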