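import Pool.Agent.Lib.MP_10e52e_an.Sol
import Pool.Agent.Lib.MP_10e52e_an.Dsig

/-! MP_10e52e_an row DW: L4.5 -/

namespace Pool.Agent.AO

open MeasureTheory Set Real
open scoped ContDiff

private theorem DW_meas : MeasurableSet Q := measurableSet_Ioc.prod measurableSet_Ioc

private theorem DW_int {f : ℝ × ℝ → ℝ} (hf : Continuous f) : IntegrableOn f Q := by
  have hc : IsCompact (Icc (-1 / 2 : ℝ) (1 / 2) ×ˢ Icc (-1 / 2 : ℝ) (1 / 2)) :=
    isCompact_Icc.prod isCompact_Icc
  refine (hf.continuousOn.integrableOn_compact hc).mono_set ?_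
  exact prod_mono Ioc_subset_Icc_self Ioc_subset_Icc_self

private theorem DW_nsq_nonneg (x : ℝ × ℝ) : 0 ≤ nsq x := by unfold nsq; positivity

private theorem DW_nrm_nonneg (x : ℝ × ℝ) : 0 ≤ nrm x := Real.sqrt_nonneg _

private theorem DW_nrm_cont : Continuous nrm := by
  unfold nrm nsq
  fun_prop

private theorem DW_triangle (x y : ℝ × ℝ) : nrm (x - y) ≤ nrm x + nrm y := by
  unfold nrm
  rw [Real.sqrt_le_left (by positivity)]
  have h1 : √(nsq x) ^ 2 = nsq x := Real.sq_sqrt (DW_nsq_nonneg x)
  have h2 : √(nsq y) ^ 2 = nsq y := Real.sq_sqrt (DW_nsq_nonneg y)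
  have h3 : -(x.1 * y.1 + x.2 * y.2) ≤ √(nsq x) * √(nsq y) := by
    rw [← Real.sqrt_mul (DW_nsq_nonneg x)]
    refine Real.le_sqrt_of_sq_le ?_
    unfold nsq
    nlinarith [sq_nonneg (x.1 * y.2 - x.2 * y.1)]
  have h4 : nsq (x - y) = nsq x + nsq y - 2 * (x.1 * y.1 + x.2 * y.2) := by
    unfold nsq
    simp only [Prod.fst_sub, Prod.snd_sub]
    ring
  nlinarith

private theorem DW_neg_per {f : ℝ × ℝ → ℝ} (hf : Per f) : Per (fun y => f (-y)) := by
  intro y
  constructor
  · have := (hf (-(y.1 + 1), -y.2)).1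
    simp only at this
    show f (-(y.1 + 1), -y.2) = f (-y)
    rw [← this]
    congr 1
    ext <;> simp
  · have := (hf (-y.1, -(y.2 + 1))).2
    simp only at this
    show f (-y.1, -(y.2 + 1)) = f (-y)
    rw [← this]
    congr 1
    ext <;> simp

private theorem DW_shift_per {f : ℝ × ℝ → ℝ} (hf : Per f) (X : ℝ × ℝ) :
    Per (fun y => f (X + y)) := by
  intro y
  constructor
  · have := (hf (X + y)).1
    show f (X + (y.1 + 1, y.2)) = f (X + y)
    rw [← this]
    congr 1
    ext
    · simp [add_assoc]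
    · simp
  · have := (hf (X + y)).2
    show f (X + (y.1, y.2 + 1)) = f (X + y)
    rw [← this]
    congr 1
    ext
    · simp
    · simp [add_assoc]

/-- L4.5, in coordinates relative to `z` -/
theorem W_bound {K R : ℝ × ℝ → ℝ} (hG : IsGreen K R) : ∃ C : ℝ, 0 < C ∧
    ∀ (N : ℕ) (mu om : ℝ × ℝ → ℝ), 3 ≤ N → IsSol K N mu om → ∀ z x : ℝ × ℝ,
      lam N - sg N om (x + z) ≤
        C * lam N ^ 3 * (nrm x + TI (fun y => nrm y * mu (y + z))) ^ 2 := by
  obtain ⟨C1, hC1, hs⟩ := sigma_bounds hG
  obtain ⟨C2, hC2, _, hK2, _, _, _, _⟩ := green_bounds hG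
  have hGint : IntegrableOn (Gf K) Q := (green_logsing hG).1.integrable.1
  refine ⟨Real.exp C1 * C2, by positivity, ?_⟩
  intro N mu om hN hsol z x
  have hN2 : 2 ≤ N := by omega
  have hlam : 0 < lam N := by
    unfold lam
    have : (3 : ℝ) ≤ N := by exact_mod_cast hN
    have := Real.pi_pos
    nlinarith
  have hmuc : Continuous mu := hsol.smu.continuous
  have homc : Continuous om := hsol.som.continuous
  have hKc : Continuous K := hG.smoothK.continuous
  set X := x + z with hX
  obtain ⟨s1, s2, s3, s4, s5⟩ := sol_sigma hN2 hsol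
  have hrep := (sol_rep hG hN2 hsol X).1
  have hsb := (hs N (sg N om) hN s1.continuous s2 s3 s4 s5 X).2.1
  have hW : lam N - sg N om X = lam N * Real.exp (om X) := by unfold sg; ring
  have hTI : TI om ≤ 0 := integral_nonpos fun y => sol_nonpos hN2 hsol y
  set P := -(4 * π) * conv (Gf K) mu X with hP
  have homX : om X ≤ P + 2 * Real.log (lam N) + C1 := by
    rw [hP]; linarith
  -- the shifted density
  have hmX : Continuous (fun y => mu (X - y)) := by fun_prop
  have hTmX : TI (fun y => mu (X - y)) = 1 := by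
    have h1 : TI (fun y => mu (X - y)) = TI (fun y => mu (X + y)) := by
      rw [← TI_neg (f := fun y => mu (X + y))]
      simp only [sub_eq_add_neg]
    have h2 := TI_shift hsol.pmu (DW_int hmuc) X
    rw [h1, ← hsol.one, ← h2]
    simp only [add_comm]
  have hTmz : TI (fun y => mu (y + z)) = 1 := by
    rw [TI_shift hsol.pmu (DW_int hmuc) z, hsol.one]
  set T := √C2 * (nrm x + TI (fun y => nrm y * mu (y + z))) with hT
  have hTint : 0 ≤ TI (fun y => nrm y * mu (y + z)) :=
    integral_nonneg fun y => mul_nonneg (DW_nrm_nonneg y) (hsol.nn _)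
  have hT0 : 0 ≤ T := by
    have := DW_nrm_nonneg x
    positivity
  -- the first moment
  set E := TI (fun y => √(K y) * mu (X - y)) with hE
  have hET : E ≤ T := by
    have h1 : E = TI (fun y => √(K (-y)) * mu (X + y)) := by
      rw [hE, ← TI_neg (f := fun y => √(K y) * mu (X - y))]
      simp only [sub_neg_eq_add]
    have hgc : Continuous (fun y => √(K (-y)) * mu (X + y)) := by fun_prop
    have hgp : Per (fun y => √(K (-y)) * mu (X + y)) := by
      intro y
      have k1 := DW_neg_per hG.per y
      have k2 := DW_shift_per hsol.pmu X y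
      simp only at k1 k2 ⊢
      rw [k1.1, k1.2, k2.1, k2.2]
      exact ⟨rfl, rfl⟩
    have h2 := TI_shift hgp (DW_int hgc) (-x)
    have h3 : (fun y => √(K (-(y + -x))) * mu (X + (y + -x))) =
        fun y => √(K (x - y)) * mu (y + z) := by
      funext y
      have e1 : -(y + -x) = x - y := by abel
      have e2 : X + (y + -x) = y + z := by rw [hX]; abel
      rw [e1, e2]
    rw [h3] at h2
    rw [h1, ← h2]
    have hc1 : Continuous (fun y => √(K (x - y)) * mu (y + z)) := by fun_prop
    have hc2 : Continuous (fun y => nrm y * mu (y + z)) := by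
      have := DW_nrm_cont
      fun_prop
    have hc3 : Continuous (fun y => mu (y + z)) := by fun_prop
    have hpt : ∀ y, √(K (x - y)) * mu (y + z) ≤
        √C2 * nrm x * mu (y + z) + √C2 * (nrm y * mu (y + z)) := by
      intro y
      have e1 : √(K (x - y)) ≤ √C2 * (nrm x + nrm y) := by
        calc √(K (x - y)) ≤ √(C2 * nsq (x - y)) := Real.sqrt_le_sqrt (hK2 _)
          _ = √C2 * nrm (x - y) := by rw [Real.sqrt_mul hC2.le]; rfl
          _ ≤ √C2 * (nrm x + nrm y) :=
              mul_le_mul_of_nonneg_left (DW_triangle x y) (Real.sqrt_nonneg _)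
      have e2 := mul_le_mul_of_nonneg_right e1 (hsol.nn (y + z))
      nlinarith
    have h4 : TI (fun y => √(K (x - y)) * mu (y + z)) ≤
        TI (fun y => √C2 * nrm x * mu (y + z) + √C2 * (nrm y * mu (y + z))) :=
      integral_mono (DW_int hc1) (((DW_int hc3).const_mul _).add ((DW_int hc2).const_mul _)) hpt
    have h5 : TI (fun y => √C2 * nrm x * mu (y + z) + √C2 * (nrm y * mu (y + z))) =
        √C2 * nrm x * TI (fun y => mu (y + z)) + √C2 * TI (fun y => nrm y * mu (y + z)) := by
      unfold TI
      rw [integral_add ((DW_int hc3).const_mul _) ((DW_int hc2).const_mul _),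
        integral_const_mul, integral_const_mul]
    rw [h5, hTmz] at h4
    rw [hT]
    linarith
  -- Jensen
  have hGm : IntegrableOn (fun y => -(4 * π) * (Gf K y * mu (X - y))) Q := by
    refine Integrable.const_mul ?_ _
    obtain ⟨B, hB⟩ : ∃ B, ∀ y ∈ Q, ‖mu (X - y)‖ ≤ B := by
      have hc : IsCompact (Icc (-1 / 2 : ℝ) (1 / 2) ×ˢ Icc (-1 / 2 : ℝ) (1 / 2)) :=
        isCompact_Icc.prod isCompact_Icc
      obtain ⟨B, hB⟩ := hc.exists_bound_of_continuousOn hmX.continuousOn
      exact ⟨B, fun y hy => hB y (prod_mono Ioc_subset_Icc_self Ioc_subset_Icc_self hy)⟩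
    refine Integrable.mul_bdd (c := B) hGint hmX.aestronglyMeasurable ?_
    rw [ae_restrict_iff' DW_meas]
    exact Filter.Eventually.of_forall hB
  have hJ : ∀ b : ℝ, 0 < b → E ≤ b → Real.exp P ≤ b ^ 2 := by
    intro b hb hEb
    have hPe : P = TI (fun y => -(4 * π) * (Gf K y * mu (X - y))) := by
      rw [hP]; unfold conv TI
      rw [integral_const_mul]
    have hc1 : Continuous (fun y => √(K y) * mu (X - y)) := by fun_prop
    have hmono : TI (fun y => -(4 * π) * (Gf K y * mu (X - y))) ≤
        TI (fun y => 2 / b * (√(K y) * mu (X - y)) + 2 * (Real.log b - 1) * mu (X - y)) := by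
      refine integral_mono_ae hGm
        (((DW_int hc1).const_mul _).add ((DW_int hmX).const_mul _)) ?_
      have hne : ∀ᵐ y ∂(volume.restrict Q : Measure (ℝ × ℝ)), y ≠ 0 ∧ y ∈ Q := by
        have h1 : ∀ᵐ y ∂(volume : Measure (ℝ × ℝ)), y ≠ 0 := by
          rw [ae_iff]
          simp
        filter_upwards [ae_restrict_of_ae h1, ae_restrict_mem DW_meas] with y hy hy'
          using ⟨hy, hy'⟩
      filter_upwards [hne] with y hy
      have hKy : 0 < K y := by
        refine lt_of_le_of_ne (hG.nonneg y) fun h0 => hy.1 ?_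
        obtain ⟨m, n, hmn⟩ := (hG.zero_iff y).1 h0.symm
        have hyQ := hy.2
        rw [hmn] at hyQ
        obtain ⟨⟨q1, q2⟩, q3, q4⟩ := hyQ
        simp only at q1 q2 q3 q4
        have m0 : m = 0 := by
          have a1 : (-1 : ℝ) < m := by linarith
          have a2 : (m : ℝ) < 1 := by linarith
          have a3 : (-1 : ℤ) < m := by exact_mod_cast a1
          have a4 : m < (1 : ℤ) := by exact_mod_cast a2
          omega
        have n0 : n = 0 := by
          have a1 : (-1 : ℝ) < n := by linarith
          have a2 : (n : ℝ) < 1 := by linarith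
          have a3 : (-1 : ℤ) < n := by exact_mod_cast a1
          have a4 : n < (1 : ℤ) := by exact_mod_cast a2
          omega
        rw [hmn, m0, n0]
        simp
      have e1 : -(4 * π) * Gf K y = Real.log (K y) := by
        unfold Gf
        have := Real.pi_pos
        field_simp
      have e2 : Real.log (K y) = 2 * Real.log (√(K y)) := by
        rw [Real.log_sqrt hKy.le]; ring
      have hsq : 0 < √(K y) := Real.sqrt_pos.2 hKy
      have e3 : Real.log (√(K y)) ≤ √(K y) / b - 1 + Real.log b := by
        have := Real.log_le_sub_one_of_pos (div_pos hsq hb)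
        rw [Real.log_div hsq.ne' hb.ne'] at this
        linarith
      have e4 : -(4 * π) * Gf K y ≤ 2 / b * √(K y) + 2 * (Real.log b - 1) := by
        rw [e1, e2]
        have : 2 / b * √(K y) = 2 * (√(K y) / b) := by ring
        rw [this]
        linarith
      have e5 := mul_le_mul_of_nonneg_right e4 (hsol.nn (X - y))
      show -(4 * π) * (Gf K y * mu (X - y)) ≤
        2 / b * (√(K y) * mu (X - y)) + 2 * (Real.log b - 1) * mu (X - y)
      nlinarith
    have hsplit : TI (fun y => 2 / b * (√(K y) * mu (X - y)) +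
        2 * (Real.log b - 1) * mu (X - y)) = 2 / b * E + 2 * (Real.log b - 1) := by
      have : TI (fun y => 2 / b * (√(K y) * mu (X - y)) +
          2 * (Real.log b - 1) * mu (X - y)) =
          2 / b * E + 2 * (Real.log b - 1) * TI (fun y => mu (X - y)) := by
        rw [hE]
        unfold TI
        rw [integral_add ((DW_int hc1).const_mul _) ((DW_int hmX).const_mul _),
          integral_const_mul, integral_const_mul]
      rw [this, hTmX, mul_one]
    have hfin : P ≤ 2 * Real.log b := by
      rw [hPe]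
      refine hmono.trans ?_
      rw [hsplit]
      have : 2 / b * E ≤ 2 := by
        rw [div_mul_eq_mul_div, div_le_iff₀ hb]
        linarith
      linarith
    calc Real.exp P ≤ Real.exp (2 * Real.log b) := Real.exp_le_exp.2 hfin
      _ = b ^ 2 := by
        rw [mul_comm, Real.exp_mul, Real.exp_log hb]
        norm_num
  have hPT : Real.exp P ≤ T ^ 2 := by
    by_contra hcon
    push Not at hcon
    set b0 := Real.exp (P / 2) with hb0
    have hb0p : 0 < b0 := Real.exp_pos _
    have hb0sq : b0 ^ 2 = Real.exp P := by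
      rw [hb0, sq, ← Real.exp_add]; congr 1; ring
    have hlt : T < b0 := by
      by_contra hge
      push Not at hge
      nlinarith
    have := hJ ((T + b0) / 2) (by linarith) (by linarith)
    rw [← hb0sq] at this
    nlinarith
  -- conclusion
  rw [hW]
  have hl2 : Real.exp (2 * Real.log (lam N)) = lam N ^ 2 := by
    rw [mul_comm, Real.exp_mul, Real.exp_log hlam]
    norm_num
  have hexp : Real.exp (om X) ≤ Real.exp P * lam N ^ 2 * Real.exp C1 := by
    calc Real.exp (om X) ≤ Real.exp (P + 2 * Real.log (lam N) + C1) := Real.exp_le_exp.2 homX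
      _ = Real.exp P * lam N ^ 2 * Real.exp C1 := by
        rw [Real.exp_add, Real.exp_add, hl2]
  have hT2 : T ^ 2 = C2 * (nrm x + TI (fun y => nrm y * mu (y + z))) ^ 2 := by
    rw [hT, mul_pow, Real.sq_sqrt hC2.le]
  calc lam N * Real.exp (om X) ≤ lam N * (Real.exp P * lam N ^ 2 * Real.exp C1) :=
        mul_le_mul_of_nonneg_left hexp hlam.le
    _ = Real.exp C1 * lam N ^ 3 * Real.exp P := by ring
    _ ≤ Real.exp C1 * lam N ^ 3 * T ^ 2 := by
        refine mul_le_mul_of_nonneg_left hPT ?_
        positivity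
    _ = Real.exp C1 * C2 * lam N ^ 3 * (nrm x + TI (fun y => nrm y * mu (y + z))) ^ 2 := by
        rw [hT2]; ring

end Pool.Agent.AO
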