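import Pool.Agent.Lib.MP_10e52e_an.Green
import Pool.Agent.Lib.MP_10e52e_an.Dbd

/-! MP_10e52e_an row Dcen: L4.3 -/

namespace Pool.Agent.AO

open MeasureTheory Set Real
open scoped ContDiff

theorem dcen_lam {N : ℕ} (hN : 2 ≤ N) : 0 < lam N ∧ lam N ^ 2 ≤ 16 * π ^ 2 * N ^ 2 ∧
    3 / 4 ≤ lam N * (1 / (8 * (N : ℝ))) := by
  have h2 : (2 : ℝ) ≤ N := by exact_mod_cast hN
  have hpi := Real.pi_gt_three
  refine ⟨?_, ?_, ?_⟩
  · unfold lam
    have : (0 : ℝ) < (N : ℝ) - 1 := by linarith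
    positivity
  · unfold lam
    have h3 : ((N : ℝ) - 1) ^ 2 ≤ (N : ℝ) ^ 2 := by
      apply pow_le_pow_left₀ <;> linarith
    nlinarith [sq_nonneg π]
  · unfold lam
    have h4 : 4 * π * ((N : ℝ) - 1) * (1 / (8 * (N : ℝ))) = π / 2 * (((N : ℝ) - 1) / N) := by
      field_simp
      ring
    rw [h4]
    have h5 : (1 : ℝ) / 2 ≤ ((N : ℝ) - 1) / N := by
      rw [div_le_div_iff₀ (by norm_num) (by linarith)]
      linarith
    nlinarith

theorem dcen_disc_sub {N : ℕ} (hN : 16 ≤ N) : Disc (1 / Real.sqrt N) ⊆ Q := by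
  intro x hx
  have h16 : (16 : ℝ) ≤ N := by exact_mod_cast hN
  have hs : (4 : ℝ) ≤ Real.sqrt N := Real.le_sqrt_of_sq_le (by linarith)
  have h1 : 1 / Real.sqrt N ≤ 1 / 4 := one_div_le_one_div_of_le (by norm_num) hs
  have hx' : nrm x < 1 / Real.sqrt N := hx
  have h2 : nrm x < 1 / 4 := lt_of_lt_of_le hx' h1
  have h3 : nsq x < (1 / 4) ^ 2 := by
    unfold nrm at h2
    rwa [Real.sqrt_lt' (by norm_num)] at h2
  unfold nsq at h3
  have h4 : |x.1| < 1 / 4 := abs_lt_of_sq_lt_sq (by nlinarith [sq_nonneg x.2]) (by norm_num)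
  have h5 : |x.2| < 1 / 4 := abs_lt_of_sq_lt_sq (by nlinarith [sq_nonneg x.1]) (by norm_num)
  rw [abs_lt] at h4 h5
  constructor
  · constructor <;> linarith [h4.1, h4.2]
  · constructor <;> linarith [h5.1, h5.2]

theorem dcen_nsq_cont : Continuous nsq := by
  unfold nsq
  fun_prop

theorem dcen_disc_meas (r : ℝ) : MeasurableSet (Disc r) := by
  have h : Continuous nrm := by
    unfold nrm
    exact dcen_nsq_cont.sqrt
  exact (isOpen_lt h continuous_const).measurableSet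

theorem dcen_intQ {f : ℝ × ℝ → ℝ} (hf : Continuous f) : IntegrableOn f Q := by
  have h : IntegrableOn f (Icc (-1 / 2 : ℝ) (1 / 2) ×ˢ Icc (-1 / 2 : ℝ) (1 / 2)) :=
    hf.continuousOn.integrableOn_compact (isCompact_Icc.prod isCompact_Icc)
  exact h.mono_set (prod_mono Ioc_subset_Icc_self Ioc_subset_Icc_self)

theorem dcen_box {N : ℕ} (hN : 16 ≤ N) {x : ℝ × ℝ}
    (hx : x ∈ Icc (1 / (4 * Real.sqrt N)) (1 / (2 * Real.sqrt N)) ×ˢ
      Icc (1 / (4 * Real.sqrt N)) (1 / (2 * Real.sqrt N))) :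
    x ∈ Disc (1 / Real.sqrt N) ∧ nrm x ≤ 1 / 4 ∧ (N : ℝ) * nsq x ≤ 1 ∧ 1 / (8 * (N : ℝ)) ≤ nsq x := by
  have h16 : (16 : ℝ) ≤ N := by exact_mod_cast hN
  have hs : (4 : ℝ) ≤ Real.sqrt N := Real.le_sqrt_of_sq_le (by linarith)
  have hsq : Real.sqrt N ^ 2 = N := Real.sq_sqrt (by linarith)
  set q := Real.sqrt N with hq
  have hq0 : (0 : ℝ) < q := by linarith
  obtain ⟨⟨h1, h2⟩, ⟨h3, h4⟩⟩ := hx
  have e1 : (1 / (4 * q)) ^ 2 = 1 / (16 * (N : ℝ)) := by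
    rw [← hsq]; field_simp; norm_num
  have e2 : (1 / (2 * q)) ^ 2 = 1 / (4 * (N : ℝ)) := by
    rw [← hsq]; field_simp; norm_num
  have p1 : (0 : ℝ) ≤ 1 / (4 * q) := by positivity
  have a1 : x.1 ^ 2 ≤ 1 / (4 * (N : ℝ)) := by
    rw [← e2]; exact pow_le_pow_left₀ (p1.trans h1) h2 2
  have a2 : x.2 ^ 2 ≤ 1 / (4 * (N : ℝ)) := by
    rw [← e2]; exact pow_le_pow_left₀ (p1.trans h3) h4 2
  have b1 : 1 / (16 * (N : ℝ)) ≤ x.1 ^ 2 := by
    rw [← e1]; exact pow_le_pow_left₀ p1 h1 2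
  have b2 : 1 / (16 * (N : ℝ)) ≤ x.2 ^ 2 := by
    rw [← e1]; exact pow_le_pow_left₀ p1 h3 2
  have hN0 : (0 : ℝ) < N := by linarith
  have u1 : nsq x ≤ 1 / (2 * (N : ℝ)) := by
    unfold nsq
    have : (1 : ℝ) / (2 * N) = 1 / (4 * N) + 1 / (4 * N) := by field_simp; norm_num
    linarith
  have l1 : 1 / (8 * (N : ℝ)) ≤ nsq x := by
    unfold nsq
    have : (1 : ℝ) / (8 * N) = 1 / (16 * N) + 1 / (16 * N) := by field_simp; norm_num
    linarith
  have u2 : nsq x < (1 / q) ^ 2 := by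
    have : (1 / q) ^ 2 = 1 / (N : ℝ) := by rw [← hsq]; field_simp
    rw [this]
    refine lt_of_le_of_lt u1 ?_
    apply one_div_lt_one_div_of_lt hN0
    linarith
  have u3 : nrm x < 1 / q := by
    unfold nrm
    rw [Real.sqrt_lt' (by positivity)]
    exact u2
  refine ⟨u3, ?_, ?_, l1⟩
  · exact u3.le.trans (one_div_le_one_div_of_le (by norm_num) hs)
  · have := mul_le_mul_of_nonneg_left u1 hN0.le
    have e3 : (N : ℝ) * (1 / (2 * N)) = 1 / 2 := by field_simp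
    linarith

theorem dcen_vol {N : ℕ} (hN : 16 ≤ N) :
    (volume : Measure (ℝ × ℝ)).real (Icc (1 / (4 * Real.sqrt N)) (1 / (2 * Real.sqrt N)) ×ˢ
      Icc (1 / (4 * Real.sqrt N)) (1 / (2 * Real.sqrt N))) = 1 / (16 * (N : ℝ)) := by
  have h16 : (16 : ℝ) ≤ N := by exact_mod_cast hN
  have hs : (4 : ℝ) ≤ Real.sqrt N := Real.le_sqrt_of_sq_le (by linarith)
  have hsq : Real.sqrt N ^ 2 = N := Real.sq_sqrt (by linarith)
  rw [Measure.volume_eq_prod, measureReal_prod_prod, Real.volume_real_Icc]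
  set q := Real.sqrt N with hq
  have hq0 : (0 : ℝ) < q := by linarith
  have e0 : 1 / (2 * q) - 1 / (4 * q) = 1 / (4 * q) := by field_simp; norm_num
  rw [e0, max_eq_left (by positivity), ← hsq]
  field_simp
  norm_num

theorem dcen_lower {N : ℕ} (hN : 16 ≤ N) {f : ℝ × ℝ → ℝ} (hf : Continuous f) (h0 : ∀ x, 0 ≤ f x)
    {m : ℝ} (h : ∀ x ∈ Icc (1 / (4 * Real.sqrt N)) (1 / (2 * Real.sqrt N)) ×ˢ
      Icc (1 / (4 * Real.sqrt N)) (1 / (2 * Real.sqrt N)), m ≤ f x) :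
    m ≤ 16 * N * ∫ x in Disc (1 / Real.sqrt N), f x := by
  have h16 : (16 : ℝ) ≤ N := by exact_mod_cast hN
  have hi : IntegrableOn f (Disc (1 / Real.sqrt N)) := (dcen_intQ hf).mono_set (dcen_disc_sub hN)
  have hsub : Icc (1 / (4 * Real.sqrt N)) (1 / (2 * Real.sqrt N)) ×ˢ
      Icc (1 / (4 * Real.sqrt N)) (1 / (2 * Real.sqrt N)) ⊆ Disc (1 / Real.sqrt N) :=
    fun x hx => (dcen_box hN hx).1
  have h1 := setIntegral_ge_of_const_le (μ := (volume : Measure (ℝ × ℝ)))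
    (measurableSet_Icc.prod measurableSet_Icc) (by
      exact (isCompact_Icc.prod isCompact_Icc).measure_lt_top.ne) h (hi.mono_set hsub)
  rw [dcen_vol hN] at h1
  have h2 := setIntegral_mono_set hi (ae_of_all _ h0) (ae_of_all _ hsub)
  have h3 : m * (1 / (16 * (N : ℝ))) ≤ ∫ x in Disc (1 / Real.sqrt N), f x := by
    rw [mul_comm]; exact h1.trans h2
  have h4 := mul_le_mul_of_nonneg_left h3 (show (0 : ℝ) ≤ 16 * N by linarith)
  have e : 16 * (N : ℝ) * (m * (1 / (16 * (N : ℝ)))) = m := by field_simp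
  rwa [e] at h4

/-- L4.3 -/
theorem mass_center {K R : ℝ × ℝ → ℝ} (hG : IsGreen K R) : ∃ C : ℝ, 0 < C ∧ ∃ N0 : ℕ,
    ∀ (N : ℕ) (k : ℝ) (mu s : ℝ × ℝ → ℝ), N0 ≤ N → IsMF K N 0 k mu s →
      k * K pt ^ N ≤ C * N ^ 3 * ∫ x in Disc (1 / Real.sqrt N), mu x ∧
      k * K pt ^ N ≤ C * N ^ 3 ∧
      k * K pt ^ N ≤ C * N ^ 3 * ∫ x in Disc (1 / Real.sqrt N), (lam N * nsq x) ^ 2 * mu x := by
  obtain ⟨C1, hC1, h1⟩ := dens_bounds hG
  obtain ⟨C2, hC2, h2⟩ := U_lower hG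
  have hC : 0 < 512 * π ^ 2 * (C1 * Real.exp C2) := by positivity
  refine ⟨512 * π ^ 2 * (C1 * Real.exp C2), hC, 16, ?_⟩
  intro N k mu s hN hM
  have h16 : (16 : ℝ) ≤ N := by exact_mod_cast hN
  obtain ⟨l0, l1, l2⟩ := dcen_lam (show 2 ≤ N by omega)
  have hmu : Continuous mu := hM.smu.continuous
  have hKp : 0 ≤ K pt := hG.nonneg pt
  have key : ∀ x ∈ Icc (1 / (4 * Real.sqrt N)) (1 / (2 * Real.sqrt N)) ×ˢ
      Icc (1 / (4 * Real.sqrt N)) (1 / (2 * Real.sqrt N)),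
      k * K pt ^ N ≤ C1 * Real.exp C2 * lam N ^ 2 * mu x := by
    intro x hx
    obtain ⟨_, b2, b3, _⟩ := dcen_box hN hx
    have hd := (h1 N 0 k mu s (by omega) hM x).2
    have hU := (h2 x b2).1
    rw [add_zero] at hd
    have hpow : (K pt * Real.exp (-(C2 * nsq x))) ^ N ≤ K (x - pt) ^ N :=
      pow_le_pow_left₀ (by positivity) hU N
    rw [mul_pow, ← Real.exp_nat_mul] at hpow
    have hexp : Real.exp (-C2) ≤ Real.exp ((N : ℝ) * -(C2 * nsq x)) := by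
      apply Real.exp_le_exp.2
      nlinarith
    have h3 : K pt ^ N * Real.exp (-C2) ≤ K (x - pt) ^ N :=
      (mul_le_mul_of_nonneg_left hexp (by positivity)).trans hpow
    have h4 : k * (K pt ^ N * Real.exp (-C2)) ≤ C1 * lam N ^ 2 * mu x :=
      (mul_le_mul_of_nonneg_left h3 hM.kpos.le).trans hd
    have h5 := mul_le_mul_of_nonneg_right h4 (Real.exp_pos C2).le
    have e : k * (K pt ^ N * Real.exp (-C2)) * Real.exp C2 = k * K pt ^ N := by
      rw [mul_assoc, mul_assoc, ← Real.exp_add]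
      simp
    rw [e] at h5
    nlinarith
  have hk0 : 0 ≤ k * K pt ^ N := mul_nonneg hM.kpos.le (by positivity)
  have hpos : 0 < C1 * Real.exp C2 * lam N ^ 2 := by positivity
  have hN3 : 16 * (N : ℝ) * (2 * (C1 * Real.exp C2 * lam N ^ 2)) ≤
      512 * π ^ 2 * (C1 * Real.exp C2) * N ^ 3 := by
    have h6 := mul_le_mul_of_nonneg_left l1 (show 0 ≤ 32 * (N : ℝ) * (C1 * Real.exp C2) by positivity)
    nlinarith
  have A : ∀ f : ℝ × ℝ → ℝ, Continuous f → (∀ x, 0 ≤ f x) →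
      (∀ x ∈ Icc (1 / (4 * Real.sqrt N)) (1 / (2 * Real.sqrt N)) ×ˢ
      Icc (1 / (4 * Real.sqrt N)) (1 / (2 * Real.sqrt N)), 1 / 2 * mu x ≤ f x) →
      k * K pt ^ N ≤ 512 * π ^ 2 * (C1 * Real.exp C2) * N ^ 3 *
        ∫ x in Disc (1 / Real.sqrt N), f x := by
    intro f hf hf0 hfm
    have h7 : k * K pt ^ N / (2 * (C1 * Real.exp C2 * lam N ^ 2)) ≤
        16 * N * ∫ x in Disc (1 / Real.sqrt N), f x := by
      apply dcen_lower hN hf hf0
      intro x hx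
      refine le_trans ?_ (hfm x hx)
      rw [div_le_iff₀ (by positivity)]
      have := key x hx
      nlinarith
    rw [div_le_iff₀ (by positivity)] at h7
    have h8 : 0 ≤ ∫ x in Disc (1 / Real.sqrt N), f x := integral_nonneg hf0
    have h9 := mul_le_mul_of_nonneg_right hN3 h8
    calc k * K pt ^ N ≤ 16 * N * (∫ x in Disc (1 / Real.sqrt N), f x) *
          (2 * (C1 * Real.exp C2 * lam N ^ 2)) := h7
      _ = 16 * (N : ℝ) * (2 * (C1 * Real.exp C2 * lam N ^ 2)) *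
          ∫ x in Disc (1 / Real.sqrt N), f x := by ring
      _ ≤ _ := h9
  have B1 := A mu hmu hM.nn (fun x _ => by have := hM.nn x; linarith)
  refine ⟨B1, ?_, ?_⟩
  · have h10 : ∫ x in Disc (1 / Real.sqrt N), mu x ≤ 1 := by
      have h11 : ∫ x in Disc (1 / Real.sqrt N), mu x ≤ ∫ x in Q, mu x :=
        setIntegral_mono_set (dcen_intQ hmu) (ae_of_all _ hM.nn) (ae_of_all _ (dcen_disc_sub hN))
      have h12 : ∫ x in Q, mu x = 1 := hM.one
      linarith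
    have h13 : (0 : ℝ) ≤ 512 * π ^ 2 * (C1 * Real.exp C2) * N ^ 3 := by positivity
    nlinarith [mul_le_mul_of_nonneg_left h10 h13]
  · apply A
    · have := dcen_nsq_cont
      fun_prop
    · intro x
      have := hM.nn x
      positivity
    · intro x hx
      obtain ⟨_, _, _, b4⟩ := dcen_box hN hx
      have h14 : 3 / 4 ≤ lam N * nsq x := l2.trans (mul_le_mul_of_nonneg_left b4 l0.le)
      have h15 : 1 / 2 ≤ (lam N * nsq x) ^ 2 := by nlinarith
      exact mul_le_mul_of_nonneg_right h15 (hM.nn x)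

end Pool.Agent.AO
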