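import Pool.Agent.Lib.MP_10e52e_an.Sol
import Pool.Agent.Lib.MP_10e52e_an.Dsig

/-! MP_10e52e_an row Deta: L4.4 -/

namespace Pool.Agent.AO

open MeasureTheory Set Real
open scoped ContDiff

theorem deta_vol : (volume : Measure (ℝ × ℝ)) Q = 1 := by
  rw [Q, Measure.volume_eq_prod, Measure.prod_prod, Real.volume_Ioc]
  norm_num

theorem deta_const (c : ℝ) : TI (fun _ => c) = c := by
  rw [TI, setIntegral_const, Measure.real, deta_vol]
  simp

theorem deta_meas : MeasurableSet Q := measurableSet_Ioc.prod measurableSet_Ioc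

theorem deta_sub : Q ⊆ Icc ((-1 / 2 : ℝ), (-1 / 2 : ℝ)) ((1 / 2 : ℝ), (1 / 2 : ℝ)) := by
  rintro x ⟨h1, h2⟩
  exact ⟨⟨h1.1.le, h2.1.le⟩, ⟨h1.2, h2.2⟩⟩

theorem deta_int {f : ℝ × ℝ → ℝ} (hf : Continuous f) : IntegrableOn f Q :=
  (hf.continuousOn.integrableOn_compact isCompact_Icc).mono_set deta_sub

theorem deta_int_mul {G f : ℝ × ℝ → ℝ} (hG : IntegrableOn G Q) (hf : Continuous f) :
    IntegrableOn (fun y => G y * f y) Q := by
  obtain ⟨C, hC⟩ := (isCompact_Icc (a := ((-1 / 2 : ℝ), (-1 / 2 : ℝ)))
    (b := ((1 / 2 : ℝ), (1 / 2 : ℝ)))).exists_bound_of_continuousOn hf.continuousOn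
  refine Integrable.mul_bdd (c := C) hG hf.aestronglyMeasurable ?_
  filter_upwards [ae_restrict_mem deta_meas] with y hy
  exact hC y (deta_sub hy)

theorem deta_reflect {f : ℝ × ℝ → ℝ} (hf : Continuous f) (hp : Per f) (x : ℝ × ℝ) :
    TI (fun y => f (x - y)) = TI f := by
  have h1 := TI_neg (f := fun y => f (y + x))
  have h2 := TI_shift hp (deta_int hf) x
  rw [h2] at h1
  rw [← h1]
  congr 1
  funext y
  congr 1
  ring

/-- the convolution of `G` with a density: its integral and a lower bound -/
theorem deta_conv {K R : ℝ × ℝ → ℝ} (hG : IsGreen K R) {C0 : ℝ} (hC0 : ∀ x, -C0 ≤ Gf K x)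
    {mu : ℝ × ℝ → ℝ} (hmu : ContDiff ℝ ∞ mu) (hp : Per mu) (hn : ∀ x, 0 ≤ mu x)
    (h1 : TI mu = 1) : TI (conv (Gf K) mu) = TI (Gf K) ∧ ∀ x, -C0 ≤ conv (Gf K) mu x := by
  have hGi : IntegrableOn (Gf K) Q := (green_logsing hG).1.integrable.1
  obtain ⟨hs, hper, hD⟩ := conv_green hG hmu hp
  constructor
  · have h2 := green_rep hG hs hper 0
    have h3 : conv (Gf K) (Lap (conv (Gf K) mu)) 0 = TI (Gf K) - conv (Gf K) mu 0 := by
      have h4 : conv (Gf K) (Lap (conv (Gf K) mu)) 0 =
          TI (fun y => Gf K y - Gf K y * mu (0 - y)) := by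
        unfold conv
        congr 1
        funext y
        have h5 := (hD (0 - y)).2.2.2.2
        rw [h1] at h5
        unfold conv at h5
        rw [h5]
        ring
      rw [h4]
      unfold conv TI
      exact integral_sub hGi (deta_int_mul hGi (hmu.continuous.comp (by fun_prop)))
    rw [h3] at h2
    linarith
  · intro x
    have h2 : TI (fun y => -C0 * mu (x - y)) ≤ conv (Gf K) mu x := by
      unfold conv TI
      refine setIntegral_mono ?_ ?_ ?_
      · exact deta_int (continuous_const.mul (hmu.continuous.comp (by fun_prop)))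
      · exact deta_int_mul hGi (hmu.continuous.comp (by fun_prop))
      · intro y
        exact mul_le_mul_of_nonneg_right (hC0 y) (hn _)
    have h3 : TI (fun y => -C0 * mu (x - y)) = -C0 := by
      have h4 : TI (fun y => -C0 * mu (x - y)) = -C0 * TI (fun y => mu (x - y)) := by
        unfold TI
        exact integral_const_mul _ _
      rw [h4, deta_reflect hmu.continuous hp, h1, mul_one]
    rwa [h3] at h2

/-- L4.4 -/
theorem eta_bound {K R : ℝ × ℝ → ℝ} (hG : IsGreen K R) : ∃ C : ℝ, 0 < C ∧ ∃ N0 : ℕ,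
    ∀ (N : ℕ) (mu om : ℝ × ℝ → ℝ), N0 ≤ N → IsSol K N mu om → -TI om ≤ C := by
  obtain ⟨C0, hC0, -, -, -, hlow, -⟩ := green_bounds hG
  obtain ⟨C1, hC1, hsig⟩ := sigma_bounds hG
  set g0 := TI (Gf K) with hg0
  refine ⟨2 * (1 + 4 * π * (|g0| + C0)) + C1, by positivity, 5, ?_⟩
  intro N mu om hN hS
  have hN2 : 2 ≤ N := by omega
  obtain ⟨hF1, hF2⟩ := deta_conv hG hlow hS.smu hS.pmu hS.nn hS.one
  obtain ⟨hFs, -, -⟩ := conv_green hG hS.smu hS.pmu
  obtain ⟨s1, s2, s3, s4, s5⟩ := sol_sigma hN2 hS
  have hnp := sol_nonpos hN2 hS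
  set η := -TI om with hη
  have hη0 : 0 ≤ η := by
    have : TI om ≤ TI (fun _ => (0 : ℝ)) := by
      unfold TI
      exact setIntegral_mono (deta_int hS.som.continuous) (deta_int continuous_const) hnp
    rw [deta_const] at this
    linarith
  have hNr : (5 : ℝ) ≤ N := by exact_mod_cast hN
  have hlam : 16 * π ≤ lam N := by
    unfold lam
    nlinarith [Real.pi_pos]
  have hlam0 : 0 < lam N := lt_of_lt_of_le (by positivity) hlam
  -- the total of `1 - e^om`
  have hone : TI (fun x => 1 - Real.exp (om x)) = 4 * π / lam N := by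
    rw [eq_div_iff hlam0.ne', ← s5]
    unfold TI sg
    rw [integral_const_mul, mul_comm]
  have hexpc : Continuous fun x => Real.exp (om x) := Real.continuous_exp.comp hS.som.continuous
  -- the pointwise inequality
  have hpt : ∀ x, -om x ≤ 1 + 4 * π * (conv (Gf K) mu x + C0) +
      2 * (η + C1) * (1 - Real.exp (om x)) := by
    intro x
    have h1 : 0 ≤ conv (Gf K) mu x + C0 := by linarith [hF2 x]
    have h2 : 0 ≤ 1 - Real.exp (om x) := by
      have := Real.exp_le_one_iff.mpr (hnp x)
      linarith
    have h3 : 0 ≤ 4 * π * (conv (Gf K) mu x + C0) := by positivity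
    rcases le_or_gt (-om x) 1 with h4 | h4
    · have h5 : 0 ≤ 2 * (η + C1) * (1 - Real.exp (om x)) := by positivity
      linarith
    · have h5 := (sol_rep hG hN2 hS x).1
      have h6 := (hsig N (sg N om) (by omega) s1.continuous s2 s3 s4 s5 x).1
      have h7 : 1 / 2 ≤ 1 - Real.exp (om x) := by
        have h8 : Real.exp (om x) ≤ Real.exp (-1) := Real.exp_le_exp.mpr (by linarith)
        have h9 : Real.exp (-1) ≤ 1 / 2 := by
          rw [Real.exp_neg, inv_eq_one_div]
          apply one_div_le_one_div_of_le (by norm_num)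
          have := Real.add_one_le_exp (1 : ℝ)
          linarith
        linarith
      have h8 : (η + C1) * 1 ≤ (η + C1) * (2 * (1 - Real.exp (om x))) :=
        mul_le_mul_of_nonneg_left (by linarith) (by positivity)
      have h9 : 0 ≤ 4 * π * C0 := by positivity
      rw [← hη] at h5
      linarith
  -- integrate
  have hint : η ≤ 1 + 4 * π * (g0 + C0) + 2 * (η + C1) * (4 * π / lam N) := by
    have h1 : TI (fun x => -om x) ≤ TI (fun x => 1 + 4 * π * (conv (Gf K) mu x + C0) +
        2 * (η + C1) * (1 - Real.exp (om x))) := by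
      unfold TI
      refine setIntegral_mono (deta_int hS.som.continuous.neg) (deta_int ?_) hpt
      have := hFs.continuous
      fun_prop
    have h2 : TI (fun x => -om x) = η := by
      rw [hη]
      unfold TI
      exact integral_neg _
    have h3 : TI (fun x => 1 + 4 * π * (conv (Gf K) mu x + C0) +
        2 * (η + C1) * (1 - Real.exp (om x))) =
        1 + 4 * π * (g0 + C0) + 2 * (η + C1) * (4 * π / lam N) := by
      rw [← hone, hg0, ← hF1]
      have e1 : TI (fun x => 1 + 4 * π * (conv (Gf K) mu x + C0) +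
          2 * (η + C1) * (1 - Real.exp (om x))) =
          TI (fun x => 1 + 4 * π * (conv (Gf K) mu x + C0)) +
            TI (fun x => 2 * (η + C1) * (1 - Real.exp (om x))) := by
        unfold TI
        refine integral_add (deta_int ?_) (deta_int ?_)
        · have := hFs.continuous
          fun_prop
        · fun_prop
      have e2 : TI (fun x => 1 + 4 * π * (conv (Gf K) mu x + C0)) =
          1 + 4 * π * (TI (conv (Gf K) mu) + C0) := by
        have e3 : TI (fun x => 1 + 4 * π * (conv (Gf K) mu x + C0)) =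
            TI (fun x => (1 + 4 * π * C0) + 4 * π * conv (Gf K) mu x) := by
          congr 1
          funext x
          ring
        rw [e3]
        have e4 : TI (fun x => (1 + 4 * π * C0) + 4 * π * conv (Gf K) mu x) =
            TI (fun _ => 1 + 4 * π * C0) + TI (fun x => 4 * π * conv (Gf K) mu x) := by
          unfold TI
          refine integral_add (deta_int continuous_const) (deta_int ?_)
          have := hFs.continuous
          fun_prop
        have e5 : TI (fun x => 4 * π * conv (Gf K) mu x) = 4 * π * TI (conv (Gf K) mu) := by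
          unfold TI
          exact integral_const_mul _ _
        rw [e4, e5, deta_const]
        ring
      have e6 : TI (fun x => 2 * (η + C1) * (1 - Real.exp (om x))) =
          2 * (η + C1) * TI (fun x => 1 - Real.exp (om x)) := by
        unfold TI
        exact integral_const_mul _ _
      rw [e1, e2, e6]
    rw [h2, h3] at h1
    exact h1
  have h4 : 4 * π / lam N ≤ 1 / 4 := by
    rw [div_le_iff₀ hlam0]
    linarith
  have h5 : 2 * (η + C1) * (4 * π / lam N) ≤ 2 * (η + C1) * (1 / 4) :=
    mul_le_mul_of_nonneg_left h4 (by positivity)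
  have h6 : 4 * π * (g0 + C0) ≤ 4 * π * (|g0| + C0) :=
    mul_le_mul_of_nonneg_left (by linarith [le_abs_self g0]) (by positivity)
  linarith

end Pool.Agent.AO
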