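import Pool.Agent.Lib.MP_10e52e_an.Green
import Pool.Agent.Lib.MP_10e52e_an.Dball
import Pool.Agent.Lib.MP_10e52e_an.Dpow
import Pool.Agent.Lib.MP_10e52e_an.Integral

/-! MP_10e52e_an row Dmass: L4.8(b) -/

namespace Pool.Agent.AO

open MeasureTheory Set Real
open scoped ContDiff

theorem dmass_pre (a : ℝ × ℝ) : MeasurePreserving (fun x : ℝ × ℝ => x - a) volume volume :=
  measurePreserving_sub_right volume a

theorem dmass_vol {S : Set (ℝ × ℝ)} {a : ℝ × ℝ} (hS : ∀ x ∈ S, x - a ∈ Q) : volume S ≤ 1 := by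
  have h1 : S ⊆ (fun x : ℝ × ℝ => x - a) ⁻¹' Q := hS
  refine (measure_mono h1).trans ?_
  rw [(dmass_pre a).measure_preimage measurableSet_Q.nullMeasurableSet, volume_Q]

theorem dmass_le_one {mu : ℝ × ℝ → ℝ} (hc : Continuous mu) (hp : Per mu) (h0 : ∀ x, 0 ≤ mu x)
    (h1 : TI mu = 1) {S : Set (ℝ × ℝ)} {a : ℝ × ℝ} (hS : ∀ x ∈ S, x - a ∈ Q) (y : ℝ × ℝ) :
    ∫ x in S, mu (x - y) ≤ 1 := by
  have hcy : Continuous fun u : ℝ × ℝ => mu (u + (a - y)) := by fun_prop
  have h2 : ∫ x in (fun x : ℝ × ℝ => x - a) ⁻¹' Q, mu (x - y) = 1 := by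
    have h3 := (dmass_pre a).setIntegral_preimage_emb
      ((MeasurableEquiv.subRight a).measurableEmbedding) (fun u => mu (u + (a - y))) Q
    have h4 : ∀ x : ℝ × ℝ, x - a + (a - y) = x - y := fun x => by abel
    simp only [h4] at h3
    rw [h3]
    have h5 := TI_shift hp (integrableOn_Q_of_continuous hc) (a - y)
    rw [h1] at h5
    exact h5
  rw [← h2]
  refine setIntegral_mono_set ?_ (Filter.Eventually.of_forall fun x => h0 _)
    (LE.le.eventuallyLE hS)
  have h6 : IntegrableOn (fun u : ℝ × ℝ => mu (u + (a - y))) Q := integrableOn_Q_of_continuous hcy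
  have h7 := ((dmass_pre a).integrableOn_comp_preimage
    ((MeasurableEquiv.subRight a).measurableEmbedding)).2 h6
  have h4 : ∀ x : ℝ × ℝ, x - a + (a - y) = x - y := fun x => by abel
  have h8 : ((fun u : ℝ × ℝ => mu (u + (a - y))) ∘ fun x : ℝ × ℝ => x - a) =
      fun x => mu (x - y) := by
    funext x
    simp only [Function.comp, h4]
  rwa [h8] at h7

/-- L4.8 (b) for a ball or a ring contained in a translate of `Q` -/
theorem dens_mass {K R : ℝ × ℝ → ℝ} (hG : IsGreen K R) : ∃ C : ℝ, 0 < C ∧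
    ∀ (N : ℕ) (z : ℝ × ℝ) (k : ℝ) (mu s : ℝ × ℝ → ℝ), 3 ≤ N → IsMF K N z k mu s →
      ∀ (S : Set (ℝ × ℝ)) (a : ℝ × ℝ) (r M : ℝ), MeasurableSet S → (∀ x ∈ S, x - a ∈ Q) →
        0 < r → r ≤ 1 / 2 → 0 ≤ M →
        (∀ x ∈ S, bm mu x r ≤ 1 / 5) → (∀ x ∈ S, k * K (x + z - pt) ^ N ≤ M) →
        ∫ x in S, mu x ≤ C * M * r⁻¹ ^ 4 * ((volume S).toReal + r ^ 2) := by
  obtain ⟨C₀, hC₀, hball⟩ := dens_ball hG
  refine ⟨C₀ * (25 / 3 * π + 1), by positivity, ?_⟩
  intro N z k mu s hN hmf S a r M hSm hSa hr hr2 hM hbm hkM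
  have hc : Continuous mu := hmf.smu.continuous
  obtain ⟨B, hB⟩ := hmf.pmu.bounded hc
  obtain ⟨w, hw⟩ : ∃ w : ℝ × ℝ → ℝ, w = fun y => (r / nrm y) ^ (4 / 5 : ℝ) := ⟨_, rfl⟩
  have hw0 : ∀ y, 0 ≤ w y := by
    intro y
    rw [hw]
    exact Real.rpow_nonneg (div_nonneg hr.le (Real.sqrt_nonneg _)) _
  have hwint : IntegrableOn w (Disc r) := by
    rw [hw]
    exact (disc_power hr).2.2.1
  have hwval : ∫ y in Disc r, w y = 5 / 3 * π * r ^ 2 := by
    rw [hw]
    exact (disc_power hr).1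
  have hvol : volume S ≤ 1 := dmass_vol hSa
  have hfin : IsFiniteMeasure (volume.restrict S) :=
    ⟨by rw [Measure.restrict_apply_univ]; exact lt_of_le_of_lt hvol ENNReal.one_lt_top⟩
  have hF : Integrable (Function.uncurry fun (x y : ℝ × ℝ) => w y * mu (x - y))
      ((volume.restrict S).prod (volume.restrict (Disc r))) := by
    have h1 : Integrable (fun p : (ℝ × ℝ) × (ℝ × ℝ) => w p.2)
        ((volume.restrict S).prod (volume.restrict (Disc r))) :=
      Integrable.comp_snd hwint _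
    refine (h1.mul_const B).mono' ?_ ?_
    · exact h1.aestronglyMeasurable.mul
        (hc.comp (continuous_fst.sub continuous_snd)).aestronglyMeasurable
    · refine Filter.Eventually.of_forall fun p => ?_
      show ‖w p.2 * mu (p.1 - p.2)‖ ≤ w p.2 * B
      rw [norm_mul, Real.norm_eq_abs, Real.norm_eq_abs, abs_of_nonneg (hw0 _)]
      exact mul_le_mul_of_nonneg_left (hB _) (hw0 _)
  obtain ⟨G, hGdef⟩ : ∃ G : ℝ × ℝ → ℝ, G = fun x => ∫ y in Disc r, w y * mu (x - y) := ⟨_, rfl⟩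
  have hGint : Integrable G (volume.restrict S) := by
    rw [hGdef]
    exact hF.integral_prod_left
  have hGle : ∫ x in S, G x ≤ 5 / 3 * π * r ^ 2 := by
    have h1 : ∫ x in S, G x = ∫ y in Disc r, ∫ x in S, w y * mu (x - y) := by
      rw [hGdef]
      exact integral_integral_swap hF
    rw [h1, ← hwval]
    refine integral_mono hF.integral_prod_right hwint fun y => ?_
    show ∫ x in S, w y * mu (x - y) ≤ w y
    rw [integral_const_mul]
    have h2 := dmass_le_one hc hmf.pmu hmf.nn hmf.one hSa y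
    nlinarith [hw0 y]
  have hpt : ∀ x ∈ S, mu x ≤ C₀ * M * r⁻¹ ^ 4 * (1 + 5 * G x) := by
    intro x hx
    have h1 := hball N z k mu s hN hmf x r hr hr2 (hbm x hx)
    have h2 : (∫ y in Disc r, (r / nrm y) ^ (4 / 5 : ℝ) * mu (x - y)) = G x := by
      rw [hGdef, hw]
    rw [h2] at h1
    have h3 : 0 ≤ G x := by
      rw [hGdef]
      exact integral_nonneg fun y => mul_nonneg (hw0 y) (hmf.nn _)
    refine h1.trans ?_
    have h4 : C₀ * (k * K (x + z - pt) ^ N) ≤ C₀ * M :=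
      mul_le_mul_of_nonneg_left (hkM x hx) hC₀.le
    have h5 : C₀ * (k * K (x + z - pt) ^ N) * r⁻¹ ^ 4 ≤ C₀ * M * r⁻¹ ^ 4 :=
      mul_le_mul_of_nonneg_right h4 (by positivity)
    exact mul_le_mul_of_nonneg_right h5 (by positivity)
  have hmuint : IntegrableOn mu S := by
    refine (integrable_const B).mono' hc.aestronglyMeasurable ?_
    exact Filter.Eventually.of_forall fun x => by
      rw [Real.norm_eq_abs]
      exact hB x
  have hRint : IntegrableOn (fun x => C₀ * M * r⁻¹ ^ 4 * (1 + 5 * G x)) S :=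
    ((integrable_const 1).add (hGint.const_mul 5)).const_mul _
  have hle : ∫ x in S, mu x ≤ ∫ x in S, C₀ * M * r⁻¹ ^ 4 * (1 + 5 * G x) :=
    setIntegral_mono_on hmuint hRint hSm hpt
  refine hle.trans ?_
  rw [integral_const_mul, integral_add (integrable_const 1) (hGint.const_mul 5),
    integral_const_mul]
  have h1 : ∫ _ in S, (1 : ℝ) = (volume S).toReal := by
    rw [integral_const, smul_eq_mul, mul_one]
    simp [Measure.real]
  rw [h1]
  have h2 : 0 ≤ (volume S).toReal := ENNReal.toReal_nonneg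
  have h3 : (volume S).toReal + 5 * ∫ x in S, G x ≤
      (25 / 3 * π + 1) * ((volume S).toReal + r ^ 2) := by
    have h4 : 0 ≤ r ^ 2 := by positivity
    have h5 : 0 ≤ π * (volume S).toReal := mul_nonneg Real.pi_pos.le h2
    nlinarith
  calc C₀ * M * r⁻¹ ^ 4 * ((volume S).toReal + 5 * ∫ x in S, G x)
      ≤ C₀ * M * r⁻¹ ^ 4 * ((25 / 3 * π + 1) * ((volume S).toReal + r ^ 2)) :=
        mul_le_mul_of_nonneg_left h3 (by positivity)
    _ = C₀ * (25 / 3 * π + 1) * M * r⁻¹ ^ 4 * ((volume S).toReal + r ^ 2) := by ring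

end Pool.Agent.AO
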