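import Pool.Agent.Lib.MP_10e52e_an.Sol
import Pool.Agent.Lib.MP_10e52e_an.Dsig
import Pool.Agent.Lib.MP_10e52e_an.Dbd
import Pool.Agent.Lib.MP_10e52e_an.Dcen
import Pool.Agent.Lib.MP_10e52e_an.Deta
import Pool.Agent.Lib.MP_10e52e_an.DW
import Pool.Agent.Lib.MP_10e52e_an.Djen
import Pool.Agent.Lib.MP_10e52e_an.Dpow
import Pool.Agent.Lib.MP_10e52e_an.Dball
import Pool.Agent.Lib.MP_10e52e_an.DL2
import Pool.Agent.Lib.MP_10e52e_an.Dmass
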