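import Pool.Agent.Lib.MP_10e52e_an.Ident
import Pool.Agent.Lib.MP_10e52e_an.Dens
import Pool.Agent.Lib.MP_10e52e_an.Psi
import Pool.Agent.Lib.MP_10e52e_an.AL2
import Pool.Agent.Lib.MP_10e52e_an.Acac
import Pool.Agent.Lib.MP_10e52e_an.Agood

/-! MP_10e52e_an row Amain: L8.4 -/

namespace Pool.Agent.AO

open MeasureTheory Set Real
open scoped ContDiff

theorem amain_nsq_nonneg (x : ℝ × ℝ) : 0 ≤ nsq x := by
  unfold nsq
  positivity

theorem amain_nrm_sq (x : ℝ × ℝ) : nrm x ^ 2 = nsq x :=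
  Real.sq_sqrt (amain_nsq_nonneg x)

theorem amain_nsq_cont : Continuous nsq := by
  unfold nsq
  fun_prop

theorem amain_nrm_cont : Continuous nrm := by
  unfold nrm
  exact amain_nsq_cont.sqrt

theorem amain_disc_meas (r : ℝ) : MeasurableSet (Disc r) :=
  (isOpen_lt amain_nrm_cont continuous_const).measurableSet

theorem amain_abs1 (x : ℝ × ℝ) : |x.1| ≤ nrm x := by
  unfold nrm
  rw [← Real.sqrt_sq_eq_abs]
  apply Real.sqrt_le_sqrt
  unfold nsq
  nlinarith [sq_nonneg x.2]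

theorem amain_abs2 (x : ℝ × ℝ) : |x.2| ≤ nrm x := by
  unfold nrm
  rw [← Real.sqrt_sq_eq_abs]
  apply Real.sqrt_le_sqrt
  unfold nsq
  nlinarith [sq_nonneg x.1]

theorem amain_disc_sub {r : ℝ} : Disc r ⊆ Icc ((-r, -r) : ℝ × ℝ) (r, r) := by
  intro x hx
  have hx' : nrm x < r := hx
  have h1 := abs_le.mp ((amain_abs1 x).trans hx'.le)
  have h2 := abs_le.mp ((amain_abs2 x).trans hx'.le)
  exact ⟨⟨h1.1, h2.1⟩, ⟨h1.2, h2.2⟩⟩

theorem amain_int_disc {f : ℝ × ℝ → ℝ} (hf : Continuous f) (r : ℝ) : IntegrableOn f (Disc r) :=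
  (hf.continuousOn.integrableOn_compact isCompact_Icc).mono_set amain_disc_sub

theorem amain_int_Q {f : ℝ × ℝ → ℝ} (hf : Continuous f) : IntegrableOn f Q := by
  refine (hf.continuousOn.integrableOn_compact
    (isCompact_Icc (a := ((-1 / 2, -1 / 2) : ℝ × ℝ)) (b := ((1 / 2, 1 / 2) : ℝ × ℝ)))).mono_set ?_
  intro x hx
  obtain ⟨h1, h2⟩ := hx
  exact ⟨⟨h1.1.le, h2.1.le⟩, ⟨h1.2, h2.2⟩⟩

theorem amain_int_discOn {f : ℝ × ℝ → ℝ} (hf : ContinuousOn f (Box 1)) {r : ℝ} (hr : r < 1) :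
    IntegrableOn f (Disc r) := by
  refine ((hf.mono ?_).integrableOn_compact
    (isCompact_Icc (a := ((-r, -r) : ℝ × ℝ)) (b := ((r, r) : ℝ × ℝ)))).mono_set amain_disc_sub
  intro x hx
  obtain ⟨h1, h2⟩ := hx
  have a1 : -r ≤ x.1 := h1.1
  have a2 : -r ≤ x.2 := h1.2
  have b1 : x.1 ≤ r := h2.1
  have b2 : x.2 ≤ r := h2.2
  exact ⟨abs_lt.mpr ⟨by linarith, by linarith⟩, abs_lt.mpr ⟨by linarith, by linarith⟩⟩

theorem amain_tendsto {c : ℝ} (hc : 0 < c) (m : ℕ) :
    Filter.Tendsto (fun N : ℕ => (N : ℝ) ^ m * Real.exp (-(c * N))) Filter.atTop (nhds 0) := by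
  have h1 : Filter.Tendsto (fun N : ℕ => c * (N : ℝ)) Filter.atTop Filter.atTop :=
    Filter.Tendsto.const_mul_atTop hc tendsto_natCast_atTop_atTop
  have h2 := (Real.tendsto_pow_mul_exp_neg_atTop_nhds_zero m).comp h1
  have h3 := h2.const_mul (1 / c ^ m)
  rw [mul_zero] at h3
  refine h3.congr ?_
  intro N
  simp only [Function.comp]
  rw [mul_pow]
  field_simp

theorem amain_eventually {a b d c : ℝ} (ha : 0 < a) (hc : 0 < c) :
    ∃ N1 : ℕ, ∀ N : ℕ, N1 ≤ N →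
      (b * (N : ℝ) ^ 3 + d * (N : ℝ) ^ 6) * Real.exp (-(c * N)) < a := by
  have h1 := (amain_tendsto hc 3).const_mul b
  have h2 := (amain_tendsto hc 6).const_mul d
  have h3 := h1.add h2
  simp only [mul_zero, add_zero] at h3
  have h4 := (tendsto_order.mp h3).2 a ha
  obtain ⟨N1, h5⟩ := Filter.eventually_atTop.mp h4
  refine ⟨N1, fun N hN => ?_⟩
  have h6 := h5 N hN
  calc (b * (N : ℝ) ^ 3 + d * (N : ℝ) ^ 6) * Real.exp (-(c * N))
      = b * ((N : ℝ) ^ 3 * Real.exp (-(c * N))) + d * ((N : ℝ) ^ 6 * Real.exp (-(c * N))) := by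
        ring
    _ < a := h6

theorem amain_pt_pos {K R : ℝ × ℝ → ℝ} (hG : IsGreen K R) : 0 < K pt := by
  rcases lt_or_eq_of_le (hG.nonneg pt) with h | h
  · exact h
  · exfalso
    have h1 := (hG.zero_iff pt).mp h.symm
    obtain ⟨m, n, h2⟩ := h1
    have h3 : (1 / 2 : ℝ) = m := congrArg Prod.fst h2
    have h4 : (1 : ℝ) = 2 * (m : ℝ) := by linarith
    have h5 : (1 : ℤ) = 2 * m := by exact_mod_cast h4
    omega

/-- L8.4: Case 1 is impossible -/
theorem case1 {K R : ℝ × ℝ → ℝ} (hG : IsGreen K R) : ∃ r1 : ℝ, 0 < r1 ∧ r1 ≤ 1 / 32 ∧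
    ∃ N0 : ℕ, ∀ (N : ℕ) (mu om : ℝ × ℝ → ℝ), N0 ≤ N → IsSol K N mu om → ¬ NoFar mu r1 := by
  obtain ⟨Cb, hCb, Nc, hcomp⟩ := exists_comp hG
  obtain ⟨CE, hCE, hmas⟩ := master hG hCb
  obtain ⟨r2, hr2, hr2', c0, hc0, N1, hpsi⟩ := psi_main hG hCb hCE
  obtain ⟨CM, hCM, hmas⟩ := hmas r2 hr2 hr2'
  have hr1 : 0 < r2 / 2 := by linarith
  have hr1' : r2 / 2 ≤ 1 / 32 := by linarith
  obtain ⟨C2, hC2, c2, hc2, hL2⟩ := c1_L2 hG hr1 hr1'
  obtain ⟨C3, hC3, N3, hcacc⟩ := c1_cacc hG hCb hr1 hr1'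
  obtain ⟨c4, hc4, N4, hgood⟩ := c1_good hG hCb hr1 hr1'
  obtain ⟨C5, hC5, N5, hcen⟩ := mass_center hG
  have h2r : 2 * (r2 / 2) = r2 := by ring
  rw [h2r] at hcacc hgood
  have ha : 0 < c0 / (1 + 4 * π) := by positivity
  obtain ⟨N6, hN6⟩ := amain_eventually (b := C5 * (CM * C2)) (d := C5 * (CM * C2) * (C3 * C5))
    ha hc2
  obtain ⟨N7, hN7⟩ := exists_nat_ge (CM * C3 / (8 * π * c4) + 1)
  obtain ⟨N8, hN8⟩ := exists_nat_ge (1 / r2 ^ 2)
  refine ⟨r2 / 2, hr1, hr1', Nc + N1 + N3 + N4 + N5 + N6 + N7 + N8 + 3, ?_⟩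
  intro N mu om hN hs hfar
  obtain ⟨v, hv⟩ := hcomp N (by omega)
  obtain ⟨k, hmf⟩ := sol_MF hG (by omega) hs
  obtain ⟨hM2, hM1⟩ := hL2 N k mu _ (by omega) hmf hfar
  have hcacc := hcacc N v mu om (by omega) hv hs hfar
  have hgood := hgood N v mu om (by omega) hv hs hfar
  have hmas := hmas N v mu om (by omega) hv hs
  obtain ⟨_, hk2, hk3⟩ := hcen N k mu _ (by omega) hmf
  have hpsi := hpsi N v (by omega) hv
  have hev := hN6 N (by omega)
  -- numbers
  have hNr : (1 : ℝ) ≤ N := by exact_mod_cast (by omega : 1 ≤ N)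
  have hNp : (0 : ℝ) < N := by linarith
  have hN7' : CM * C3 / (8 * π * c4) + 1 ≤ N :=
    hN7.trans (by exact_mod_cast (by omega : N7 ≤ N))
  have hN8' : 1 / r2 ^ 2 ≤ N := hN8.trans (by exact_mod_cast (by omega : N8 ≤ N))
  have hlam0 : 0 ≤ lam N := by
    unfold lam
    have : (0 : ℝ) ≤ (N : ℝ) - 1 := by linarith
    positivity
  have hlamN : lam N ≤ 4 * π * N := by
    unfold lam
    have := Real.pi_pos
    nlinarith
  have hlamc : CM * C3 ≤ 2 * lam N * c4 := by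
    have h1 : CM * C3 / (8 * π * c4) ≤ (N : ℝ) - 1 := by linarith
    have h2 : 0 < 8 * π * c4 := by positivity
    rw [div_le_iff₀ h2] at h1
    unfold lam
    nlinarith
  have hK0 : 0 < k * K pt ^ N := mul_pos hmf.kpos (pow_pos (amain_pt_pos hG) N)
  set kap := k * K pt ^ N with hkap
  have hmuc : Continuous mu := hs.smu.continuous
  -- names of the integrals
  set A := ∫ x in Disc r2 \ Disc (5 / 4 * (r2 / 2)), hf K v om x ^ 2 with hA
  have hA0 : 0 ≤ A := integral_nonneg (fun x => sq_nonneg _)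
  set M2 := ∫ x in Q \ Disc (r2 / 2), mu x ^ 2 with hM2d
  set M1 := ∫ x in Q \ Disc (r2 / 2), mu x with hM1d
  set P := ∫ x in Q \ Disc r2, (D1 (hf K v om) x ^ 2 + D2 (hf K v om) x ^ 2 +
            lam N * hf K v om x ^ 2) with hP
  set Rm := ∫ x in Disc r2, rem K v om x with hRm
  -- mass outside
  have hM1' : (∫ x in Q \ Disc r2, mu x) ≤ M1 := by
    refine setIntegral_mono_set ?_ ?_ ?_
    · exact (amain_int_Q hmuc).mono_set sdiff_subset
    · exact Filter.Eventually.of_forall (fun x => hs.nn x)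
    · refine Filter.Eventually.of_forall ?_
      intro x hx
      refine ⟨hx.1, fun h => hx.2 ?_⟩
      have h' : nrm x < r2 / 2 := h
      show nrm x < r2
      linarith
  -- psi side
  have hpc : ContinuousOn (psif R N v) (Box 1) := (psi_eqs hG hv).2.2.1.continuousOn
  have hi1 : IntegrableOn (fun x => psif R N v x * mu x) (Disc r2) :=
    amain_int_discOn (hpc.mul hmuc.continuousOn) (by linarith)
  have hi2 : IntegrableOn (fun x => nsq x ^ 2 * mu x) (Disc r2) :=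
    amain_int_disc ((amain_nsq_cont.pow 2).mul hmuc) r2
  have hi3 : IntegrableOn (fun x => c0 * ((lam N * nsq x) ^ 2 / (1 + lam N * nsq x)) * mu x)
      (Disc r2) := by
    refine amain_int_disc ?_ r2
    refine Continuous.mul ?_ hmuc
    refine continuous_const.mul ?_
    refine Continuous.div ?_ ?_ ?_
    · exact (continuous_const.mul amain_nsq_cont).pow 2
    · exact continuous_const.add (continuous_const.mul amain_nsq_cont)
    · intro x
      have := mul_nonneg hlam0 (amain_nsq_nonneg x)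
      linarith
  have hL1 : (∫ x in Disc r2, c0 * ((lam N * nsq x) ^ 2 / (1 + lam N * nsq x)) * mu x) ≤
      4 * π * (∫ x in Disc r2, psif R N v x * mu x) -
        CE * N * (∫ x in Disc r2, nsq x ^ 2 * mu x) := by
    rw [← integral_const_mul, ← integral_const_mul, ← integral_sub (hi1.const_mul _)
      (hi2.const_mul _)]
    refine setIntegral_mono_on hi3 ((hi1.const_mul _).sub (hi2.const_mul _))
      (amain_disc_meas r2) ?_
    intro x hx
    have h1 := hpsi x (le_of_lt hx)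
    have h2 := mul_le_mul_of_nonneg_right h1 (hs.nn x)
    calc _ ≤ _ := h2
      _ = _ := by ring
  have hsub : Disc (1 / Real.sqrt N) ⊆ Disc r2 := by
    intro x hx
    have hx' : nrm x < 1 / Real.sqrt N := hx
    have h1 : 1 / Real.sqrt N ≤ r2 := by
      rw [div_le_iff₀ (Real.sqrt_pos.mpr hNp)]
      have h2 : 1 / r2 ≤ Real.sqrt N := by
        rw [show 1 / r2 = Real.sqrt (1 / r2 ^ 2) by
          rw [show 1 / r2 ^ 2 = (1 / r2) ^ 2 by ring, Real.sqrt_sq (by positivity)]]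
        exact Real.sqrt_le_sqrt hN8'
      rw [div_le_iff₀ hr2] at h2
      linarith [mul_comm r2 (Real.sqrt N)]
    exact lt_of_lt_of_le hx' h1
  have hL2 : (∫ x in Disc (1 / Real.sqrt N),
      c0 * ((lam N * nsq x) ^ 2 / (1 + lam N * nsq x)) * mu x) ≤
      ∫ x in Disc r2, c0 * ((lam N * nsq x) ^ 2 / (1 + lam N * nsq x)) * mu x := by
    refine setIntegral_mono_set hi3 ?_ (Filter.Eventually.of_forall hsub)
    refine Filter.Eventually.of_forall ?_
    intro x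
    have h1 : 0 ≤ lam N * nsq x := mul_nonneg hlam0 (amain_nsq_nonneg x)
    have h2 := hs.nn x
    show 0 ≤ c0 * ((lam N * nsq x) ^ 2 / (1 + lam N * nsq x)) * mu x
    positivity
  have hi4 : IntegrableOn (fun x => (lam N * nsq x) ^ 2 * mu x) (Disc (1 / Real.sqrt N)) :=
    amain_int_disc (((continuous_const.mul amain_nsq_cont).pow 2).mul hmuc) _
  have hL3 : c0 / (1 + 4 * π) * (∫ x in Disc (1 / Real.sqrt N), (lam N * nsq x) ^ 2 * mu x) ≤
      ∫ x in Disc (1 / Real.sqrt N),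
        c0 * ((lam N * nsq x) ^ 2 / (1 + lam N * nsq x)) * mu x := by
    rw [← integral_const_mul]
    refine setIntegral_mono_on (hi4.const_mul _) (hi3.mono_set hsub) (amain_disc_meas _) ?_
    intro x hx
    have hx' : nrm x < 1 / Real.sqrt N := hx
    have h1 : nsq x ≤ 1 / N := by
      rw [← amain_nrm_sq]
      have h2 : nrm x ^ 2 ≤ (1 / Real.sqrt N) ^ 2 :=
        pow_le_pow_left₀ (Real.sqrt_nonneg _) hx'.le 2
      rwa [div_pow, one_pow, Real.sq_sqrt hNp.le] at h2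
    have h3 : lam N * nsq x ≤ 4 * π := by
      calc lam N * nsq x ≤ (4 * π * N) * (1 / N) :=
            mul_le_mul hlamN h1 (amain_nsq_nonneg x) (by positivity)
        _ = 4 * π := by field_simp
    have h4 : 0 ≤ lam N * nsq x := mul_nonneg hlam0 (amain_nsq_nonneg x)
    have h5 := hs.nn x
    have h6 : c0 / (1 + 4 * π) * (lam N * nsq x) ^ 2 ≤
        c0 * ((lam N * nsq x) ^ 2 / (1 + lam N * nsq x)) := by
      rw [div_mul_eq_mul_div, ← mul_div_assoc]
      exact div_le_div_of_nonneg_left (by positivity) (by positivity) (by linarith)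
    calc c0 / (1 + 4 * π) * ((lam N * nsq x) ^ 2 * mu x)
        = c0 / (1 + 4 * π) * (lam N * nsq x) ^ 2 * mu x := by ring
      _ ≤ _ := mul_le_mul_of_nonneg_right h6 h5
  -- assembling
  set S := ∫ x in Disc (1 / Real.sqrt N), (lam N * nsq x) ^ 2 * mu x with hS
  have hkey : c0 / (1 + 4 * π) * S ≤ CM * M1 + CM * (C3 * M2) := by
    have e1 : CM * (∫ x in Q \ Disc r2, mu x) ≤ CM * M1 :=
      mul_le_mul_of_nonneg_left hM1' hCM.le
    have e2 : CM * P ≤ CM * (C3 * A + C3 * M2) := mul_le_mul_of_nonneg_left hcacc hCM.le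
    have e3 : 2 * lam N * (c4 * A) ≤ 2 * lam N * Rm :=
      mul_le_mul_of_nonneg_left hgood (by positivity)
    have e4 : CM * C3 * A ≤ 2 * lam N * c4 * A := mul_le_mul_of_nonneg_right hlamc hA0
    have e5 := hL3.trans (hL2.trans hL1)
    linarith
  have hfin : c0 / (1 + 4 * π) * kap ≤
      ((C5 * (CM * C2)) * (N : ℝ) ^ 3 + (C5 * (CM * C2) * (C3 * C5)) * (N : ℝ) ^ 6) *
        Real.exp (-(c2 * N)) * kap := by
    have hE := Real.exp_pos (-(c2 * N))
    set E := Real.exp (-(c2 * N)) with hEd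
    have f1 : c0 / (1 + 4 * π) * kap ≤ C5 * (N : ℝ) ^ 3 * (c0 / (1 + 4 * π) * S) := by
      calc c0 / (1 + 4 * π) * kap ≤ c0 / (1 + 4 * π) * (C5 * (N : ℝ) ^ 3 * S) :=
            mul_le_mul_of_nonneg_left hk3 ha.le
        _ = _ := by ring
    have f2 : M1 ≤ C2 * kap * E := hM1
    have f3 : M2 ≤ C2 * kap * (C5 * (N : ℝ) ^ 3) * E := by
      calc M2 ≤ C2 * kap ^ 2 * E := hM2
        _ = C2 * kap * E * kap := by ring
        _ ≤ C2 * kap * E * (C5 * (N : ℝ) ^ 3) :=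
            mul_le_mul_of_nonneg_left hk2 (by positivity)
        _ = _ := by ring
    have f4 : CM * M1 + CM * (C3 * M2) ≤
        CM * (C2 * kap * E) + CM * (C3 * (C2 * kap * (C5 * (N : ℝ) ^ 3) * E)) := by
      gcongr
    calc c0 / (1 + 4 * π) * kap ≤ C5 * (N : ℝ) ^ 3 * (c0 / (1 + 4 * π) * S) := f1
      _ ≤ C5 * (N : ℝ) ^ 3 *
        (CM * (C2 * kap * E) + CM * (C3 * (C2 * kap * (C5 * (N : ℝ) ^ 3) * E))) :=
          mul_le_mul_of_nonneg_left (hkey.trans f4) (by positivity)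
      _ = _ := by ring
  have := le_of_mul_le_mul_right hfin hK0
  linarith

end Pool.Agent.AO
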