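import Pool.Agent.Lib.MP_10e52e_an.Sol
import Pool.Agent.Lib.MP_10e52e_an.Comp
import Pool.Agent.Lib.MP_10e52e_an.Calc

/-! MP_10e52e_an row Ih: h is LogSing -/

namespace Pool.Agent.AO

open MeasureTheory Set Real
open scoped ContDiff

theorem ih_isOpen : IsOpen (Latᶜ : Set (ℝ × ℝ)) := by
  have h1 : (Lat : Set (ℝ × ℝ)) = (range fun m : ℤ => (m : ℝ)) ×ˢ (range fun n : ℤ => (n : ℝ)) := by
    ext x
    constructor
    · rintro ⟨m, n, rfl⟩
      exact ⟨⟨m, rfl⟩, ⟨n, rfl⟩⟩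
    · rintro ⟨⟨m, hm⟩, ⟨n, hn⟩⟩
      exact ⟨m, n, Prod.ext hm.symm hn.symm⟩
  rw [h1]
  exact (Int.isClosedEmbedding_coe_real.isClosed_range.prod
    Int.isClosedEmbedding_coe_real.isClosed_range).isOpen_compl

theorem ih_eq (K v om : ℝ × ℝ → ℝ) :
    hf K v om = fun x => (om x - v x) + 4 * π * Gf K x := by
  funext x
  have hpi : (4 * π : ℝ) ≠ 0 := by positivity
  rw [hf, om0, Gf]
  field_simp
  ring

/-- `h = om - om0` is LogSing with coefficient -1 -/
theorem h_logsing {K R : ℝ × ℝ → ℝ} (hG : IsGreen K R) {Cb : ℝ} {N : ℕ} {v mu om : ℝ × ℝ → ℝ}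
    (hv : IsComp K Cb N v) (h : IsSol K N mu om) :
    LogSing (hf K v om) (fun x => om x - v x + 4 * π * R x) (-1) ∧
    ∀ x, x ∉ Lat → Lap (hf K v om) x =
      lam N * (Real.exp (om x) - Real.exp (om0 K v x)) + 4 * π * mu x := by
  obtain ⟨hL, hLap⟩ := green_logsing hG
  have hpi : (4 * π : ℝ) ≠ 0 := by positivity
  constructor
  · refine ⟨?_, ?_, ?_, ?_⟩
    · intro x
      rw [ih_eq]
      simp only [(h.pom x).1, (h.pom x).2, (hv.per x).1, (hv.per x).2, (hL.per x).1, (hL.per x).2,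
        and_self]
    · rw [ih_eq]
      exact (h.som.contDiffOn.sub hv.smooth.contDiffOn).add (contDiffOn_const.mul hL.off)
    · exact (h.som.contDiffOn.sub hv.smooth.contDiffOn).add (contDiffOn_const.mul hL.sm)
    · intro x hx hx0
      rw [ih_eq]
      simp only
      rw [hL.eq x hx hx0]
      field_simp
      ring
  · intro x hx
    have hKx : 0 < K x := lt_of_le_of_ne (hG.nonneg x) fun h0 => hx ((hG.zero_iff x).mp h0.symm)
    have c1 : ContDiffAt ℝ 2 om x := (h.som.of_le (by norm_cast)).contDiffAt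
    have c2 : ContDiffAt ℝ 2 v x := (hv.smooth.of_le (by norm_cast)).contDiffAt
    have c3 : ContDiffAt ℝ 2 (Gf K) x :=
      (hL.off.contDiffAt (ih_isOpen.mem_nhds hx)).of_le (by norm_cast)
    rw [ih_eq, Lap_add (c1.sub c2) (contDiffAt_const.mul c3), Lap_sub c1 c2, Lap_const_mul c3,
      h.eq x, hv.eq x, hLap x hx, om0, Real.exp_add, Real.exp_log hKx]
    ring

end Pool.Agent.AO
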