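import Pool.Agent.Lib.MP_10e52e_an.Tools
import Pool.Agent.Lib.MP_10e52e_an.Calc
import Pool.Agent.Lib.MP_10e52e_an.Integral
import Pool.Agent.Lib.MP_10e52e_an.Symm

/-! MP_10e52e_an row Istress: smooth stress identity (L7.2) -/

namespace Pool.Agent.AO

open MeasureTheory Set Real
open scoped ContDiff

private theorem istress_alg (a11 a12 a22 a1 a2 x1 x2 x11 x12 x21 x22 : ℝ) :
    (a11 + a22) * (x1 * a1 + x2 * a2) + (x11 * a1 ^ 2 + (x12 + x21) * (a1 * a2) + x22 * a2 ^ 2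
      - (x11 + x22) / 2 * (a1 ^ 2 + a2 ^ 2))
    = (a11 * (x1 * a1 + x2 * a2) + a1 * ((x11 * a1 + x1 * a11) + (x21 * a2 + x2 * a12))
        - (x11 * (a1 * a1 + a2 * a2) + x1 * ((a11 * a1 + a1 * a11) + (a12 * a2 + a2 * a12))) * (1 / 2))
      + (a22 * (x1 * a1 + x2 * a2) + a2 * ((x12 * a1 + x1 * a12) + (x22 * a2 + x2 * a22))
        - (x22 * (a1 * a1 + a2 * a2) + x2 * ((a12 * a1 + a1 * a12) + (a22 * a2 + a2 * a22)))
          * (1 / 2)) := by
  ring

/-- smooth stress identity -/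
theorem stress {a X1 X2 : ℝ × ℝ → ℝ} (ha : ContDiff ℝ 2 a) (pa : Per a)
    (h1 : ContDiff ℝ 1 X1) (p1 : Per X1) (h2 : ContDiff ℝ 1 X2) (p2 : Per X2) :
    TI (fun x => Lap a x * (X1 x * D1 a x + X2 x * D2 a x)) =
      -TI (fun x => SX X1 X2 (D1 a x) (D2 a x) x) := by
  have ca1 : ContDiff ℝ 1 (D1 a) := contDiff_D1_one ha
  have ca2 : ContDiff ℝ 1 (D2 a) := contDiff_D2_one ha
  -- the scalar product and the energy
  set E : ℝ × ℝ → ℝ := fun x => X1 x * D1 a x + X2 x * D2 a x with hE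
  set W : ℝ × ℝ → ℝ := fun x => D1 a x * D1 a x + D2 a x * D2 a x with hW
  have cE : ContDiff ℝ 1 E := (h1.mul ca1).add (h2.mul ca2)
  have cW : ContDiff ℝ 1 W := (ca1.mul ca1).add (ca2.mul ca2)
  have pE : Per E := (p1.mul pa.D1).add (p2.mul pa.D2)
  have pW : Per W := (pa.D1.mul pa.D1).add (pa.D2.mul pa.D2)
  set F1 : ℝ × ℝ → ℝ := fun x => D1 a x * E x - X1 x * W x * (1 / 2) with hF1
  set F2 : ℝ × ℝ → ℝ := fun x => D2 a x * E x - X2 x * W x * (1 / 2) with hF2
  have cF1 : ContDiff ℝ 1 F1 := (ca1.mul cE).sub ((h1.mul cW).mul contDiff_const)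
  have cF2 : ContDiff ℝ 1 F2 := (ca2.mul cE).sub ((h2.mul cW).mul contDiff_const)
  have pF1 : Per F1 := (pa.D1.mul pE).sub ((p1.mul pW).mul (per_const _))
  have pF2 : Per F2 := (pa.D2.mul pE).sub ((p2.mul pW).mul (per_const _))
  have z1 := TI_D1_zero cF1 pF1
  have z2 := TI_D2_zero cF2 pF2
  have dif : ∀ {f : ℝ × ℝ → ℝ}, ContDiff ℝ 1 f → ∀ x, DifferentiableAt ℝ f x :=
    fun hf x => hf.differentiable (by norm_num) x
  have comm : ∀ x, D1 (D2 a) x = D2 (D1 a) x := fun x => D1_D2_comm ha.contDiffAt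
  -- pointwise identity
  have key : ∀ x, Lap a x * E x + SX X1 X2 (D1 a x) (D2 a x) x = D1 F1 x + D2 F2 x := by
    intro x
    have e1 : D1 E x = (D1 X1 x * D1 a x + X1 x * D1 (D1 a) x)
        + (D1 X2 x * D2 a x + X2 x * D1 (D2 a) x) := by
      rw [hE, D1_add (f := fun x => X1 x * D1 a x) (g := fun x => X2 x * D2 a x) ((dif h1 x).mul (dif ca1 x)) ((dif h2 x).mul (dif ca2 x)),
        D1_mul (dif h1 x) (dif ca1 x), D1_mul (dif h2 x) (dif ca2 x)]
    have e2 : D2 E x = (D2 X1 x * D1 a x + X1 x * D2 (D1 a) x)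
        + (D2 X2 x * D2 a x + X2 x * D2 (D2 a) x) := by
      rw [hE, D2_add (f := fun x => X1 x * D1 a x) (g := fun x => X2 x * D2 a x) ((dif h1 x).mul (dif ca1 x)) ((dif h2 x).mul (dif ca2 x)),
        D2_mul (dif h1 x) (dif ca1 x), D2_mul (dif h2 x) (dif ca2 x)]
    have e3 : D1 W x = (D1 (D1 a) x * D1 a x + D1 a x * D1 (D1 a) x)
        + (D1 (D2 a) x * D2 a x + D2 a x * D1 (D2 a) x) := by
      rw [hW, D1_add (f := fun x => D1 a x * D1 a x) (g := fun x => D2 a x * D2 a x) ((dif ca1 x).mul (dif ca1 x)) ((dif ca2 x).mul (dif ca2 x)),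
        D1_mul (dif ca1 x) (dif ca1 x), D1_mul (dif ca2 x) (dif ca2 x)]
    have e4 : D2 W x = (D2 (D1 a) x * D1 a x + D1 a x * D2 (D1 a) x)
        + (D2 (D2 a) x * D2 a x + D2 a x * D2 (D2 a) x) := by
      rw [hW, D2_add (f := fun x => D1 a x * D1 a x) (g := fun x => D2 a x * D2 a x) ((dif ca1 x).mul (dif ca1 x)) ((dif ca2 x).mul (dif ca2 x)),
        D2_mul (dif ca1 x) (dif ca1 x), D2_mul (dif ca2 x) (dif ca2 x)]
    have f1 : D1 F1 x = D1 (D1 a) x * E x + D1 a x * D1 E x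
        - (D1 X1 x * W x + X1 x * D1 W x) * (1 / 2) := by
      rw [hF1, D1_sub (f := fun x => D1 a x * E x) (g := fun x => X1 x * W x * (1 / 2)) ((dif ca1 x).mul (dif cE x))
          (((dif h1 x).mul (dif cW x)).mul (differentiableAt_const _)),
        D1_mul (dif ca1 x) (dif cE x),
        D1_mul (f := fun x => X1 x * W x) (g := fun _ => (1 / 2 : ℝ)) ((dif h1 x).mul (dif cW x)) (differentiableAt_const _),
        D1_mul (dif h1 x) (dif cW x), D1_const]
      ring
    have f2 : D2 F2 x = D2 (D2 a) x * E x + D2 a x * D2 E x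
        - (D2 X2 x * W x + X2 x * D2 W x) * (1 / 2) := by
      rw [hF2, D2_sub (f := fun x => D2 a x * E x) (g := fun x => X2 x * W x * (1 / 2)) ((dif ca2 x).mul (dif cE x))
          (((dif h2 x).mul (dif cW x)).mul (differentiableAt_const _)),
        D2_mul (dif ca2 x) (dif cE x),
        D2_mul (f := fun x => X2 x * W x) (g := fun _ => (1 / 2 : ℝ)) ((dif h2 x).mul (dif cW x)) (differentiableAt_const _),
        D2_mul (dif h2 x) (dif cW x), D2_const]
      ring
    rw [f1, f2, e1, e2, e3, e4, comm x]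
    unfold SX Lap
    rw [hE, hW]
    exact istress_alg _ _ _ _ _ _ _ _ _ _ _
  have iF1 : IntegrableOn (D1 F1) Q := integrableOn_Q_of_continuous (continuous_D1 cF1)
  have iF2 : IntegrableOn (D2 F2) Q := integrableOn_Q_of_continuous (continuous_D2 cF2)
  have cont : ∀ {f : ℝ × ℝ → ℝ}, ContDiff ℝ 1 f → Continuous f := fun hf => hf.continuous
  have cL : Continuous (fun x => Lap a x * E x) := (continuous_Lap ha).mul cE.continuous
  have cS : Continuous (fun x => SX X1 X2 (D1 a x) (D2 a x) x) := by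
    unfold SX
    have c1 := continuous_D1 h1
    have c2 := continuous_D2 h1
    have c3 := continuous_D1 h2
    have c4 := continuous_D2 h2
    have c5 := ca1.continuous
    have c6 := ca2.continuous
    fun_prop
  have hsum : TI (fun x => Lap a x * E x + SX X1 X2 (D1 a x) (D2 a x) x) = 0 := by
    rw [TI_congr key, TI_add iF1 iF2, z1, z2, add_zero]
  rw [TI_add (integrableOn_Q_of_continuous cL) (integrableOn_Q_of_continuous cS)] at hsum
  linarith

end Pool.Agent.AO
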