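import Pool.Agent.Lib.MP_10e52e_an.Sol
import Pool.Agent.Lib.MP_10e52e_an.Comp
import Pool.Agent.Lib.MP_10e52e_an.Field
import Pool.Agent.Lib.MP_10e52e_an.Istress
import Pool.Agent.Lib.MP_10e52e_an.Ih
import Pool.Agent.Lib.MP_10e52e_an.Calc
import Pool.Agent.Lib.MP_10e52e_an.Symm
import Pool.Agent.Lib.MP_10e52e_an.Integral

/-! MP_10e52e_an row IN: L7.2 (N).

The proof: with `h = om - om0` (LogSing, coefficient -1) the field
`W_i = D_i h (X . grad h) - X_i |grad h|^2 / 2 + D_i h - lam rem X_i`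
extends continuously over the lattice (near 0, `X = x`), is smooth off the lattice, and
`div W = Lap h (1 + X . grad h) + S_X - lam div (rem X)` there; its torus integral is 0, and
`TI (Lap h) = 4 pi` by `LogSing.ibp` with test function 1. -/

namespace Pool.Agent.AO

open MeasureTheory Set Real Filter Topology
open scoped ContDiff

theorem IN_latcl : IsClosed Lat := by
  have hZ : Lat = (range ((↑) : ℤ → ℝ)) ×ˢ (range ((↑) : ℤ → ℝ)) := by
    ext ⟨x, y⟩
    simp only [Lat, mem_ofPred_eq, mem_prod, mem_range, Prod.mk.injEq]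
    constructor
    · rintro ⟨m, n, h1, h2⟩; exact ⟨⟨m, h1.symm⟩, ⟨n, h2.symm⟩⟩
    · rintro ⟨⟨m, h1⟩, ⟨n, h2⟩⟩; exact ⟨m, n, h1.symm, h2.symm⟩
  have hc : IsClosed (range ((↑) : ℤ → ℝ)) := Int.isClosedEmbedding_coe_real.isClosed_range
  rw [hZ]
  exact hc.prod hc

theorem IN_boxo : IsOpen (Box 1) := by
  have h1 : IsOpen {x : ℝ × ℝ | |x.1| < 1} := isOpen_lt (by fun_prop) continuous_const
  have h2 : IsOpen {x : ℝ × ℝ | |x.2| < 1} := isOpen_lt (by fun_prop) continuous_const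
  exact h1.inter h2

theorem IN_box0 : (0 : ℝ × ℝ) ∈ Box 1 := by
  simp [Box]

theorem IN_int0 {n : ℤ} (h1 : (-1 : ℝ) < n) (h2 : (n : ℝ) < 1) : n = 0 := by
  have h3 : (-1 : ℤ) < n := by exact_mod_cast h1
  have h4 : n < (1 : ℤ) := by exact_mod_cast h2
  omega

theorem IN_box_lat {x : ℝ × ℝ} (hx : x ∈ Box 1) (h0 : x ≠ 0) : x ∉ Lat := by
  rintro ⟨m, n, rfl⟩
  have h1 := abs_lt.1 hx.1
  have h2 := abs_lt.1 hx.2
  have e1 := IN_int0 h1.1 h1.2
  have e2 := IN_int0 h2.1 h2.2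
  subst e1; subst e2
  exact h0 (by ext <;> simp)

theorem IN_QQ_box : QQ ⊆ Box 1 := by
  rintro x ⟨⟨h1, h2⟩, ⟨h3, h4⟩⟩
  exact ⟨abs_lt.2 ⟨by linarith, by linarith⟩, abs_lt.2 ⟨by linarith, by linarith⟩⟩

theorem IN_ev_lat : ∀ᶠ x in 𝓝[≠] (0 : ℝ × ℝ), x ∉ Lat := by
  have h1 : ∀ᶠ x in 𝓝[≠] (0 : ℝ × ℝ), x ∈ Box 1 :=
    Filter.Eventually.filter_mono nhdsWithin_le_nhds (IN_boxo.mem_nhds IN_box0)
  filter_upwards [h1, self_mem_nhdsWithin] with x hx h0 using IN_box_lat hx h0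

/-- Stokes for a field with removable singularities -/
theorem IN_stokes {W1 W2 : ℝ × ℝ → ℝ} (p1 : Per W1) (p2 : Per W2)
    (d1 : ∀ x, x ∉ Lat → DifferentiableAt ℝ W1 x) (d2 : ∀ x, x ∉ Lat → DifferentiableAt ℝ W2 x)
    {c1 c2 : ℝ} (t1 : Tendsto W1 (𝓝[≠] 0) (𝓝 c1)) (t2 : Tendsto W2 (𝓝[≠] 0) (𝓝 c2))
    (hi : IntegrableOn (fun x => D1 W1 x + D2 W2 x) Q) :
    TI (fun x => D1 W1 x + D2 W2 x) = 0 := by
  classical
  have hIcc : Icc ((-1/2 : ℝ), (-1/2 : ℝ)) ((1/2 : ℝ), (1/2 : ℝ)) = QQ := by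
    rw [QQ, Icc_prod_Icc]
  have hae : Q =ᵐ[(volume : Measure (ℝ × ℝ))] QQ :=
    Measure.set_prod_ae_eq Ioc_ae_eq_Icc Ioc_ae_eq_Icc
  have hd : ∀ {W : ℝ × ℝ → ℝ} {c : ℝ} {x : ℝ × ℝ}, (∀ x, x ∉ Lat → DifferentiableAt ℝ W x) →
      x ∈ QQ → x ≠ 0 → HasFDerivAt (Function.update W 0 c) (fderiv ℝ W x) x := by
    intro W c x hW hx h0
    refine (hW x (IN_box_lat (IN_QQ_box hx) h0)).hasFDerivAt.congr_of_eventuallyEq ?_
    filter_upwards [isOpen_ne.mem_nhds h0] with y hy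
    exact Function.update_of_ne hy _ _
  have hc : ∀ {W : ℝ × ℝ → ℝ} {c : ℝ}, (∀ x, x ∉ Lat → DifferentiableAt ℝ W x) →
      Tendsto W (𝓝[≠] 0) (𝓝 c) → ContinuousOn (Function.update W 0 c) QQ := by
    intro W c hW ht x hx
    by_cases h0 : x = 0
    · subst h0
      exact (continuousAt_update_same.2 ht).continuousWithinAt
    · exact (hd hW hx h0).continuousAt.continuousWithinAt
  have key := integral_divergence_prod_Icc_of_hasFDerivAt_off_countable_of_le
    (Function.update W1 0 c1) (Function.update W2 0 c2) (fderiv ℝ W1) (fderiv ℝ W2)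
    ((-1/2 : ℝ), (-1/2 : ℝ)) ((1/2 : ℝ), (1/2 : ℝ))
    (Prod.mk_le_mk.2 ⟨by norm_num, by norm_num⟩) {0} (countable_singleton 0)
    (by rw [hIcc]; exact hc d1 t1) (by rw [hIcc]; exact hc d2 t2)
    (fun x hx => hd d1 ⟨Ioo_subset_Icc_self hx.1.1, Ioo_subset_Icc_self hx.1.2⟩ hx.2)
    (fun x hx => hd d2 ⟨Ioo_subset_Icc_self hx.1.1, Ioo_subset_Icc_self hx.1.2⟩ hx.2)
    (by
      rw [hIcc]
      exact (integrableOn_congr_set_ae hae).1 hi)
  rw [hIcc] at key
  have h1 : TI (fun x => D1 W1 x + D2 W2 x) = ∫ x in QQ, fderiv ℝ W1 x (1, 0) + fderiv ℝ W2 x (0, 1) :=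
    setIntegral_congr_set hae
  rw [h1, key]
  have e1 : ∀ x : ℝ, Function.update W2 0 c2 (x, (1/2 : ℝ)) = Function.update W2 0 c2 (x, (-1/2 : ℝ)) := by
    intro x
    rw [Function.update_of_ne, Function.update_of_ne]
    · have := p2.add_one_snd x (-1/2)
      rw [show (-1/2 : ℝ) + 1 = 1/2 by norm_num] at this
      exact this
    · intro h
      have := congrArg Prod.snd h
      norm_num at this
    · intro h
      have := congrArg Prod.snd h
      norm_num at this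
  have e2 : ∀ y : ℝ, Function.update W1 0 c1 ((1/2 : ℝ), y) = Function.update W1 0 c1 ((-1/2 : ℝ), y) := by
    intro y
    rw [Function.update_of_ne, Function.update_of_ne]
    · have := p1.add_one_fst (-1/2) y
      rw [show (-1/2 : ℝ) + 1 = 1/2 by norm_num] at this
      exact this
    · intro h
      have := congrArg Prod.fst h
      norm_num at this
    · intro h
      have := congrArg Prod.fst h
      norm_num at this
  simp only [e1, e2]
  ring

/-- continuous off the lattice, bounded near 0 -/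
def IN_B (g : ℝ × ℝ → ℝ) : Prop :=
  (∀ x, x ∉ Lat → ContinuousAt g x) ∧ ∃ C : ℝ, ∀ᶠ x in 𝓝[≠] (0 : ℝ × ℝ), |g x| ≤ C

theorem IN_B.integrable {g : ℝ × ℝ → ℝ} (h : IN_B g) : IntegrableOn g Q := by
  obtain ⟨hc, C, hC⟩ := h
  rw [eventually_nhdsWithin_iff] at hC
  obtain ⟨U, hU, hUo, h0U⟩ := mem_nhds_iff.1 hC
  have hK : IsCompact (QQ \ U) := isCompact_QQ.diff hUo
  have hne : ∀ x ∈ QQ \ U, x ∉ Lat := by
    intro x hx
    refine IN_box_lat (IN_QQ_box hx.1) ?_
    rintro rfl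
    exact hx.2 h0U
  obtain ⟨C2, hC2⟩ := hK.exists_bound_of_continuousOn (f := g)
    (fun x hx => (hc x (hne x hx)).continuousWithinAt)
  have hs : (Q \ {0} : Set (ℝ × ℝ)) =ᵐ[volume] Q := by
    have h00 : (volume : Measure (ℝ × ℝ)) {0} = 0 := by simp
    exact sdiff_null_ae_eq_self h00
  have hm : AEStronglyMeasurable g (volume.restrict Q) := by
    rw [← Measure.restrict_congr_set hs]
    refine ContinuousOn.aestronglyMeasurable ?_ (measurableSet_Q.diff (measurableSet_singleton _))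
    intro x hx
    exact (hc x (IN_box_lat (IN_QQ_box (Q_subset_QQ hx.1)) hx.2)).continuousWithinAt
  show Integrable g tor
  refine Integrable.of_bound (μ := tor) hm (max C C2) ?_
  rw [tor, ← Measure.restrict_congr_set hs]
  refine (ae_restrict_iff' (measurableSet_Q.diff (measurableSet_singleton _))).2 ?_
  refine Eventually.of_forall fun x hx => ?_
  by_cases hxU : x ∈ U
  · exact (hU hxU hx.2).trans (le_max_left _ _)
  · exact (hC2 x ⟨Q_subset_QQ hx.1, hxU⟩).trans (le_max_right _ _)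

theorem IN_B.of_ev {g G : ℝ × ℝ → ℝ} (h : ∀ x, x ∉ Lat → ContinuousAt g x)
    (hG : ContinuousAt G 0) (he : ∀ᶠ x in 𝓝[≠] (0 : ℝ × ℝ), g x = G x) : IN_B g := by
  refine ⟨h, |G 0| + 1, ?_⟩
  have h1 : ∀ᶠ x in 𝓝 (0 : ℝ × ℝ), |G x| < |G 0| + 1 :=
    hG.abs.eventually (gt_mem_nhds (by linarith))
  filter_upwards [h1.filter_mono nhdsWithin_le_nhds, he] with x hx h2
  rw [h2]; exact hx.le

theorem IN_B.of_cont {g : ℝ × ℝ → ℝ} (h : Continuous g) : IN_B g :=
  IN_B.of_ev (fun _ _ => h.continuousAt) h.continuousAt (Eventually.of_forall fun _ => rfl)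

theorem IN_B.congr {f g : ℝ × ℝ → ℝ} (h : IN_B g) (he : ∀ x, x ∉ Lat → f x = g x) : IN_B f := by
  obtain ⟨hc, C, hC⟩ := h
  refine ⟨fun x hx => ?_, C, ?_⟩
  · refine (hc x hx).congr ?_
    filter_upwards [IN_latcl.isOpen_compl.mem_nhds hx] with y hy using (he y hy).symm
  · filter_upwards [hC, IN_ev_lat] with x hx hl
    rw [he x hl]; exact hx

theorem IN_B.add {f g : ℝ × ℝ → ℝ} (hf : IN_B f) (hg : IN_B g) : IN_B (fun x => f x + g x) := by
  obtain ⟨hc, C, hC⟩ := hf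
  obtain ⟨hd, D, hD⟩ := hg
  refine ⟨fun x hx => (hc x hx).add (hd x hx), C + D, ?_⟩
  filter_upwards [hC, hD] with x h1 h2
  exact (abs_add_le _ _).trans (add_le_add h1 h2)

theorem IN_B.mul {f g : ℝ × ℝ → ℝ} (hf : IN_B f) (hg : IN_B g) : IN_B (fun x => f x * g x) := by
  obtain ⟨hc, C, hC⟩ := hf
  obtain ⟨hd, D, hD⟩ := hg
  refine ⟨fun x hx => (hc x hx).mul (hd x hx), C * D, ?_⟩
  filter_upwards [hC, hD] with x h1 h2
  rw [abs_mul]
  exact mul_le_mul h1 h2 (abs_nonneg _) ((abs_nonneg _).trans h1)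

theorem IN_B.const_mul {f : ℝ × ℝ → ℝ} (hf : IN_B f) (c : ℝ) : IN_B (fun x => c * f x) :=
  (IN_B.of_cont continuous_const).mul hf

theorem IN_B.sub {f g : ℝ × ℝ → ℝ} (hf : IN_B f) (hg : IN_B g) : IN_B (fun x => f x - g x) := by
  refine (hf.add (hg.const_mul (-1))).congr fun x _ => ?_
  ring

/-- the components of the field -/
noncomputable def IN_F (a b X Y q : ℝ × ℝ → ℝ) (c : ℝ) (y : ℝ × ℝ) : ℝ :=
  a y * (X y * a y + Y y * b y) - X y * (a y * a y + b y * b y) * (1 / 2) + a y - c * (q y * X y)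

theorem IN_F_deriv {a b X Y q : ℝ × ℝ → ℝ} (c : ℝ) {x : ℝ × ℝ} (ha : DifferentiableAt ℝ a x)
    (hb : DifferentiableAt ℝ b x) (hX : DifferentiableAt ℝ X x) (hY : DifferentiableAt ℝ Y x)
    (hq : DifferentiableAt ℝ q x) :
    DifferentiableAt ℝ (IN_F a b X Y q c) x ∧ ∀ v, Dv v (IN_F a b X Y q c) x =
      Dv v a x * (X x * a x + Y x * b x) +
      a x * (Dv v X x * a x + X x * Dv v a x + Dv v Y x * b x + Y x * Dv v b x) -
      (Dv v X x * (a x ^ 2 + b x ^ 2) / 2 + X x * (a x * Dv v a x + b x * Dv v b x)) +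
      Dv v a x - c * (Dv v q x * X x + q x * Dv v X x) := by
  have h1 : DifferentiableAt ℝ (fun y => X y * a y) x := hX.mul ha
  have h2 : DifferentiableAt ℝ (fun y => Y y * b y) x := hY.mul hb
  have h3 : DifferentiableAt ℝ (fun y => X y * a y + Y y * b y) x := h1.add h2
  have h4 : DifferentiableAt ℝ (fun y => a y * (X y * a y + Y y * b y)) x := ha.mul h3
  have h5 : DifferentiableAt ℝ (fun y => a y * a y) x := ha.mul ha
  have h6 : DifferentiableAt ℝ (fun y => b y * b y) x := hb.mul hb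
  have h7 : DifferentiableAt ℝ (fun y => a y * a y + b y * b y) x := h5.add h6
  have h8 : DifferentiableAt ℝ (fun y => X y * (a y * a y + b y * b y)) x := hX.mul h7
  have h9 : DifferentiableAt ℝ (fun y => X y * (a y * a y + b y * b y) * (1 / 2)) x :=
    h8.mul (differentiableAt_const _)
  have h10 : DifferentiableAt ℝ (fun y => a y * (X y * a y + Y y * b y) -
    X y * (a y * a y + b y * b y) * (1 / 2)) x := h4.sub h9
  have h11 : DifferentiableAt ℝ (fun y => a y * (X y * a y + Y y * b y) -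
    X y * (a y * a y + b y * b y) * (1 / 2) + a y) x := h10.add ha
  have h12 : DifferentiableAt ℝ (fun y => q y * X y) x := hq.mul hX
  have h13 : DifferentiableAt ℝ (fun y => c * (q y * X y)) x := h12.const_mul c
  refine ⟨h11.sub h13, fun v => ?_⟩
  have e : IN_F a b X Y q c = fun y => (a y * (X y * a y + Y y * b y) -
    X y * (a y * a y + b y * b y) * (1 / 2) + a y) - c * (q y * X y) := rfl
  rw [e, Dv_sub h11 h13, Dv_add h10 ha, Dv_sub h4 h9, Dv_mul ha h3, Dv_add h1 h2, Dv_mul hX ha,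
    Dv_mul hY hb, Dv_mul h8 (differentiableAt_const _), Dv_const, Dv_mul hX h7, Dv_add h5 h6,
    Dv_mul ha ha, Dv_mul hb hb, Dv_const_mul h12, Dv_mul hq hX]
  ring

theorem IN_rem_deriv {f g : ℝ × ℝ → ℝ} {x : ℝ × ℝ} (hf : DifferentiableAt ℝ f x)
    (hg : DifferentiableAt ℝ g x) :
    DifferentiableAt ℝ (fun y => Real.exp (f y) - Real.exp (g y) - Real.exp (g y) * (f y - g y)) x ∧
    ∀ v, Dv v (fun y => Real.exp (f y) - Real.exp (g y) - Real.exp (g y) * (f y - g y)) x =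
      (Real.exp (f x) - Real.exp (g x)) * Dv v f x - Real.exp (g x) * (f x - g x) * Dv v g x := by
  have h1 : DifferentiableAt ℝ (fun y => Real.exp (f y)) x := hf.exp
  have h2 : DifferentiableAt ℝ (fun y => Real.exp (g y)) x := hg.exp
  have h3 : DifferentiableAt ℝ (fun y => f y - g y) x := hf.sub hg
  have h4 : DifferentiableAt ℝ (fun y => Real.exp (g y) * (f y - g y)) x := h2.mul h3
  have h5 : DifferentiableAt ℝ (fun y => Real.exp (f y) - Real.exp (g y)) x := h1.sub h2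
  refine ⟨h5.sub h4, fun v => ?_⟩
  rw [Dv_sub h5 h4, Dv_sub h1 h2, Dv_mul h2 h3, Dv_sub hf hg, Dv_comp hf (Real.hasDerivAt_exp _),
    Dv_comp hg (Real.hasDerivAt_exp _)]
  ring

theorem IN_nsq_pos {x : ℝ × ℝ} (hx : x ≠ 0) : 0 < nsq x := by
  unfold nsq
  by_contra hc
  have h1 := sq_nonneg x.1
  have h2 := sq_nonneg x.2
  have e1 : x.1 ^ 2 = 0 := by linarith
  have e2 : x.2 ^ 2 = 0 := by linarith
  exact hx (Prod.ext (by simpa using e1) (by simpa using e2))

theorem IN_nsqc {n : WithTop ℕ∞} {x : ℝ × ℝ} : ContDiffAt ℝ n nsq x := by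
  unfold nsq; fun_prop

theorem IN_D1nsq (x : ℝ × ℝ) : D1 nsq x = 2 * x.1 := by
  have h1 : DifferentiableAt ℝ (fun y : ℝ × ℝ => y.1 ^ 2) x := by fun_prop
  have h2 : DifferentiableAt ℝ (fun y : ℝ × ℝ => y.2 ^ 2) x := by fun_prop
  have e : nsq = fun y => y.1 ^ 2 + y.2 ^ 2 := rfl
  rw [e, D1_add h1 h2, D1_comp_fst (φ := fun t => t ^ 2) (by simpa using hasDerivAt_pow 2 x.1),
    D1_comp_snd (φ := fun t => t ^ 2) (by simpa using hasDerivAt_pow 2 x.2)]
  ring

theorem IN_D2nsq (x : ℝ × ℝ) : D2 nsq x = 2 * x.2 := by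
  have h1 : DifferentiableAt ℝ (fun y : ℝ × ℝ => y.1 ^ 2) x := by fun_prop
  have h2 : DifferentiableAt ℝ (fun y : ℝ × ℝ => y.2 ^ 2) x := by fun_prop
  have e : nsq = fun y => y.1 ^ 2 + y.2 ^ 2 := rfl
  rw [e, D2_add h1 h2, D2_comp_fst (φ := fun t => t ^ 2) (by simpa using hasDerivAt_pow 2 x.1),
    D2_comp_snd (φ := fun t => t ^ 2) (by simpa using hasDerivAt_pow 2 x.2)]
  ring

/-- the gradient of a LogSing function near 0 -/
theorem IN_grad {F S : ℝ × ℝ → ℝ} {a : ℝ} (h : LogSing F S a) {x : ℝ × ℝ} (hx : x ∈ Box 1)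
    (h0 : x ≠ 0) : D1 F x = a * (2 * x.1 / nsq x) + D1 S x ∧
      D2 F x = a * (2 * x.2 / nsq x) + D2 S x := by
  have ev : F =ᶠ[𝓝 x] fun y => a * Real.log (nsq y) + S y := by
    filter_upwards [IN_boxo.mem_nhds hx, isOpen_ne.mem_nhds h0] with y hy hy0 using h.eq y hy hy0
  have hp := IN_nsq_pos h0
  have hl : DifferentiableAt ℝ (fun y => Real.log (nsq y)) x :=
    ((IN_nsqc (n := 1)).log hp.ne').differentiableAt one_ne_zero
  have hS : DifferentiableAt ℝ S x :=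
    (h.sm.contDiffAt (IN_boxo.mem_nhds hx)).differentiableAt (by simp)
  have hn : DifferentiableAt ℝ nsq x := (IN_nsqc (n := 1)).differentiableAt one_ne_zero
  constructor
  · rw [D1_congr ev, D1_add (hl.const_mul a) hS, D1_const_mul hl, D1_log hn hp.ne', IN_D1nsq]
    ring
  · rw [D2_congr ev, D2_add (hl.const_mul a) hS, D2_const_mul hl, D2_log hn hp.ne', IN_D2nsq]
    ring

/-- `TI (Lap F) = -4 pi a` -/
theorem IN_TI_Lap {F S : ℝ × ℝ → ℝ} {a : ℝ} (h : LogSing F S a) : TI (Lap F) = -(4 * π * a) := by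
  have h1 := (h.ibp (phi := fun _ => 1) contDiff_const (per_const 1)).2.2
  simp only [D1_const, D2_const, mul_zero, add_zero, mul_one] at h1
  have h0 : TI (fun _ => (0 : ℝ)) = 0 := TI_const 0
  rw [h0] at h1
  linarith

theorem IN_F_per {a b X Y q : ℝ × ℝ → ℝ} (c : ℝ) (ha : Per a) (hb : Per b) (hX : Per X)
    (hY : Per Y) (hq : Per q) : Per (IN_F a b X Y q c) := by
  intro x
  simp only [IN_F, (ha x).1, (ha x).2, (hb x).1, (hb x).2, (hX x).1, (hX x).2, (hY x).1, (hY x).2,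
    (hq x).1, (hq x).2, and_self]

/-- value of the field near 0 -/
theorem IN_F_near (a b X Y q : ℝ × ℝ → ℝ) (c : ℝ) {x : ℝ × ℝ} {s t u w n : ℝ} (hn : n ≠ 0)
    (hn2 : n = s ^ 2 + t ^ 2) (ha : a x = -1 * (2 * s / n) + u) (hb : b x = -1 * (2 * t / n) + w)
    (hX : X x = s) (hY : Y x = t) :
    IN_F a b X Y q c x = -u + u * (s * u + t * w) - s * (u ^ 2 + w ^ 2) / 2 - c * (q x * s) := by
  simp only [IN_F, ha, hb, hX, hY]
  field_simp
  rw [hn2]
  ring

theorem IN_X_near (a b X Y : ℝ × ℝ → ℝ) {x : ℝ × ℝ} {s t u w n : ℝ} (hn : n ≠ 0)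
    (hn2 : n = s ^ 2 + t ^ 2) (ha : a x = -1 * (2 * s / n) + u) (hb : b x = -1 * (2 * t / n) + w)
    (hX : X x = s) (hY : Y x = t) :
    X x * a x + Y x * b x = -2 + (s * u + t * w) := by
  simp only [ha, hb, hX, hY]
  field_simp
  rw [hn2]
  ring

/-- L7.2 (N) -/
theorem ident_N {K R : ℝ × ℝ → ℝ} (hG : IsGreen K R) {Cb : ℝ} (hCb : 0 < Cb) {N : ℕ}
    (hN : 3 ≤ N) {v mu om : ℝ × ℝ → ℝ} (hv : IsComp K Cb N v) (h : IsSol K N mu om)
    {X1 X2 : ℝ × ℝ → ℝ} (h1 : ContDiff ℝ 1 X1) (p1 : Per X1) (h2 : ContDiff ℝ 1 X2)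
    (p2 : Per X2) {r : ℝ} (hr : 0 < r) (hX : ∀ x, nrm x < r → X1 x = x.1 ∧ X2 x = x.2) :
    -TI (fun x => SX X1 X2 (D1 (hf K v om) x) (D2 (hf K v om) x) x) +
      lam N * TI (fun x => (D1 X1 x + D2 X2 x + (X1 x * D1 (om0 K v) x + X2 x * D2 (om0 K v) x))
        * rem K v om x) =
      4 * π + 4 * π * TI (fun x => mu x * (X1 x * D1 (hf K v om) x + X2 x * D2 (hf K v om) x)) := by
  obtain ⟨hL, hLap⟩ := h_logsing hG hv h
  have hTL : TI (Lap (hf K v om)) = 4 * π := by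
    rw [IN_TI_Lap hL]; ring
  set H : ℝ × ℝ → ℝ := hf K v om with hH
  set S : ℝ × ℝ → ℝ := fun x => om x - v x + 4 * π * R x with hS
  set q : ℝ × ℝ → ℝ := rem K v om with hq
  set c : ℝ := lam N with hc
  -- smoothness off the lattice
  have hHs : ∀ x, x ∉ Lat → ContDiffAt ℝ 2 H x := fun x hx =>
    (hL.off.contDiffAt (IN_latcl.isOpen_compl.mem_nhds hx)).of_le (by norm_cast)
  have dH : ∀ x, x ∉ Lat → DifferentiableAt ℝ H x := fun x hx =>
    (hHs x hx).differentiableAt (by norm_num)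
  have d1H : ∀ x, x ∉ Lat → DifferentiableAt ℝ (D1 H) x := fun x hx => differentiableAt_D1 (hHs x hx)
  have d2H : ∀ x, x ∉ Lat → DifferentiableAt ℝ (D2 H) x := fun x hx => differentiableAt_D2 (hHs x hx)
  have dom : ∀ x, DifferentiableAt ℝ om x := fun x => h.som.differentiable (by simp) x
  have eom0 : om0 K v = fun y => om y - H y := by
    funext y
    simp only [hH, hf]
    ring
  have dom0 : ∀ x, x ∉ Lat → DifferentiableAt ℝ (om0 K v) x := fun x hx => by
    rw [eom0]; exact (dom x).sub (dH x hx)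
  have e1om0 : ∀ x, x ∉ Lat → D1 (om0 K v) x = D1 om x - D1 H x := fun x hx => by
    rw [eom0]; exact D1_sub (dom x) (dH x hx)
  have e2om0 : ∀ x, x ∉ Lat → D2 (om0 K v) x = D2 om x - D2 H x := fun x hx => by
    rw [eom0]; exact D2_sub (dom x) (dH x hx)
  -- the remainder
  have hqd : ∀ x, x ∉ Lat → DifferentiableAt ℝ q x ∧ ∀ w, Dv w q x =
      (Real.exp (om x) - Real.exp (om0 K v x)) * Dv w om x -
        Real.exp (om0 K v x) * (om x - om0 K v x) * Dv w (om0 K v) x := fun x hx =>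
    IN_rem_deriv (dom x) (dom0 x hx)
  have pom0 : Per (om0 K v) := hG.per.log.add hv.per
  have pq : Per q := (h.pom.exp.sub pom0.exp).sub (pom0.exp.mul (h.pom.sub pom0))
  have eexp : ∀ x, x ∉ Lat → Real.exp (om0 K v x) = K x * Real.exp (v x) := fun x hx => by
    have hK : 0 < K x := lt_of_le_of_ne (hG.nonneg x) fun h0 => hx ((hG.zero_iff x).1 h0.symm)
    rw [om0, Real.exp_add, Real.exp_log hK]
  have hKc : Continuous K := hG.smoothK.continuous
  have hvc : Continuous v := hv.smooth.continuous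
  have homc : Continuous om := h.som.continuous
  have hmuc : Continuous mu := h.smu.continuous
  obtain ⟨ρ, hρ, hqρ⟩ : ∃ ρ : ℝ × ℝ → ℝ, Continuous ρ ∧ ∀ x, x ∉ Lat → q x = ρ x := by
    refine ⟨fun x => Real.exp (om x) - K x * Real.exp (v x) - K x * Real.exp (v x) * (om x - v x) +
      Real.exp (v x) * (K x * Real.log (K x)), ?_, ?_⟩
    · have hkl : Continuous fun x => K x * Real.log (K x) := Real.continuous_mul_log.comp hKc
      fun_prop
    · intro x hx
      simp only [hq, rem, eexp x hx]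
      simp only [om0]
      ring
  have bq : IN_B q := (IN_B.of_cont hρ).congr hqρ
  have bL : IN_B (Lap H) := by
    have hcont : Continuous fun x => c * (Real.exp (om x) - K x * Real.exp (v x)) + 4 * π * mu x := by
      fun_prop
    refine (IN_B.of_cont hcont).congr fun x hx => ?_
    rw [hLap x hx, eexp x hx]
  -- near the origin
  have hSs : ContDiffAt ℝ ∞ S 0 := hL.sm.contDiffAt (IN_boxo.mem_nhds IN_box0)
  have c1S : ContinuousAt (D1 S) 0 :=
    (contDiffAt_D1 (n := 0) (hSs.of_le (by simp))).continuousAt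
  have c2S : ContinuousAt (D2 S) 0 :=
    (contDiffAt_D2 (n := 0) (hSs.of_le (by simp))).continuousAt
  have hnrm : Continuous nrm := by
    unfold nrm nsq
    fun_prop
  have hopen : IsOpen {x : ℝ × ℝ | nrm x < r} := isOpen_lt hnrm continuous_const
  have hnr : ∀ᶠ x in 𝓝 (0 : ℝ × ℝ), nrm x < r := by
    refine hopen.mem_nhds ?_
    show nrm 0 < r
    simpa [nrm, nsq] using hr
  have ev0 : ∀ᶠ x in 𝓝[≠] (0 : ℝ × ℝ), x ∈ Box 1 ∧ x ≠ 0 ∧ nrm x < r := by
    filter_upwards [hnr.filter_mono nhdsWithin_le_nhds,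
      Filter.Eventually.filter_mono nhdsWithin_le_nhds (IN_boxo.mem_nhds IN_box0),
      self_mem_nhdsWithin] with x a b d using ⟨b, d, a⟩
  have hXc1 : Continuous X1 := h1.continuous
  have hXc2 : Continuous X2 := h2.continuous
  have k11 : Continuous (D1 X1) := continuous_D1 h1
  have k12 : Continuous (D2 X1) := continuous_D2 h1
  have k21 : Continuous (D1 X2) := continuous_D1 h2
  have k22 : Continuous (D2 X2) := continuous_D2 h2
  have bX : IN_B (fun x => X1 x * D1 H x + X2 x * D2 H x) := by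
    refine IN_B.of_ev (G := fun x => -2 + (x.1 * D1 S x + x.2 * D2 S x)) ?_ ?_ ?_
    · intro x hx
      exact (hXc1.continuousAt.mul (d1H x hx).continuousAt).add
        (hXc2.continuousAt.mul (d2H x hx).continuousAt)
    · fun_prop
    · filter_upwards [ev0] with x hx
      obtain ⟨hb, h0, hn⟩ := hx
      exact IN_X_near (D1 H) (D2 H) X1 X2 (IN_nsq_pos h0).ne' rfl (IN_grad hL hb h0).1
        (IN_grad hL hb h0).2 (hX x hn).1 (hX x hn).2
  have bS : IN_B (fun x => SX X1 X2 (D1 H x) (D2 H x) x) := by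
    refine IN_B.of_ev (G := fun _ => 0) ?_ continuousAt_const ?_
    · intro x hx
      have j1 := (d1H x hx).continuousAt
      have j2 := (d2H x hx).continuousAt
      have l1 := k11.continuousAt (x := x)
      have l2 := k12.continuousAt (x := x)
      have l3 := k21.continuousAt (x := x)
      have l4 := k22.continuousAt (x := x)
      unfold SX
      fun_prop
    · filter_upwards [ev0] with x hx
      obtain ⟨hb, h0, hn⟩ := hx
      have f1 : X1 =ᶠ[𝓝 x] fun y => y.1 := by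
        filter_upwards [hopen.mem_nhds hn] with y hy using (hX y hy).1
      have f2 : X2 =ᶠ[𝓝 x] fun y => y.2 := by
        filter_upwards [hopen.mem_nhds hn] with y hy using (hX y hy).2
      rw [SX, D1_congr f1, D2_congr f1, D1_congr f2, D2_congr f2, D1_fst, D2_fst, D1_snd, D2_snd]
      ring
  -- the field
  have t1 : Tendsto (IN_F (D1 H) (D2 H) X1 X2 q c) (𝓝[≠] 0)
      (𝓝 ((fun x : ℝ × ℝ => -(D1 S x) + D1 S x * (x.1 * D1 S x + x.2 * D2 S x) -
        x.1 * (D1 S x ^ 2 + D2 S x ^ 2) / 2 - c * (ρ x * x.1)) 0)) := by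
    have hco : ContinuousAt (fun x : ℝ × ℝ => -(D1 S x) + D1 S x * (x.1 * D1 S x + x.2 * D2 S x) -
        x.1 * (D1 S x ^ 2 + D2 S x ^ 2) / 2 - c * (ρ x * x.1)) 0 := by
      have := hρ.continuousAt (x := (0 : ℝ × ℝ))
      fun_prop
    refine (hco.tendsto.mono_left nhdsWithin_le_nhds).congr' ?_
    filter_upwards [ev0] with x hx
    obtain ⟨hb, h0, hn⟩ := hx
    rw [← hqρ x (IN_box_lat hb h0)]
    exact (IN_F_near (D1 H) (D2 H) X1 X2 q c (IN_nsq_pos h0).ne' rfl (IN_grad hL hb h0).1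
        (IN_grad hL hb h0).2 (hX x hn).1 (hX x hn).2).symm
  have t2 : Tendsto (IN_F (D2 H) (D1 H) X2 X1 q c) (𝓝[≠] 0)
      (𝓝 ((fun x : ℝ × ℝ => -(D2 S x) + D2 S x * (x.2 * D2 S x + x.1 * D1 S x) -
        x.2 * (D2 S x ^ 2 + D1 S x ^ 2) / 2 - c * (ρ x * x.2)) 0)) := by
    have hco : ContinuousAt (fun x : ℝ × ℝ => -(D2 S x) + D2 S x * (x.2 * D2 S x + x.1 * D1 S x) -
        x.2 * (D2 S x ^ 2 + D1 S x ^ 2) / 2 - c * (ρ x * x.2)) 0 := by
      have := hρ.continuousAt (x := (0 : ℝ × ℝ))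
      fun_prop
    refine (hco.tendsto.mono_left nhdsWithin_le_nhds).congr' ?_
    filter_upwards [ev0] with x hx
    obtain ⟨hb, h0, hn⟩ := hx
    rw [← hqρ x (IN_box_lat hb h0)]
    exact (IN_F_near (D2 H) (D1 H) X2 X1 q c (IN_nsq_pos h0).ne' (by rw [nsq]; ring)
      (IN_grad hL hb h0).2 (IN_grad hL hb h0).1 (hX x hn).2 (hX x hn).1).symm
  have dX1 : ∀ x, DifferentiableAt ℝ X1 x := fun x => h1.differentiable (by norm_num) x
  have dX2 : ∀ x, DifferentiableAt ℝ X2 x := fun x => h2.differentiable (by norm_num) x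
  have F1 := fun x (hx : x ∉ Lat) =>
    IN_F_deriv c (d1H x hx) (d2H x hx) (dX1 x) (dX2 x) (hqd x hx).1
  have F2 := fun x (hx : x ∉ Lat) =>
    IN_F_deriv c (d2H x hx) (d1H x hx) (dX2 x) (dX1 x) (hqd x hx).1
  have hdiv : ∀ x, x ∉ Lat →
      D1 (IN_F (D1 H) (D2 H) X1 X2 q c) x + D2 (IN_F (D2 H) (D1 H) X2 X1 q c) x =
      SX X1 X2 (D1 H x) (D2 H x) x + 4 * π * (mu x * (X1 x * D1 H x + X2 x * D2 H x)) + Lap H x -
        c * ((D1 X1 x + D2 X2 x + (X1 x * D1 (om0 K v) x + X2 x * D2 (om0 K v) x)) * q x) := by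
    intro x hx
    have g1 := (F1 x hx).2 (1, 0)
    have g2 := (F2 x hx).2 (0, 1)
    have q1 := (hqd x hx).2 (1, 0)
    have q2 := (hqd x hx).2 (0, 1)
    have hm := D1_D2_comm (hHs x hx)
    have hl := hLap x hx
    simp only [← D1_eq_Dv, ← D2_eq_Dv] at g1 g2 q1 q2
    rw [g1, g2, q1, q2, e1om0 x hx, e2om0 x hx]
    have hqx : q x = Real.exp (om x) - Real.exp (om0 K v x) -
      Real.exp (om0 K v x) * (om x - om0 K v x) := rfl
    have hlx : D1 (D1 H) x + D2 (D2 H) x =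
      c * (Real.exp (om x) - Real.exp (om0 K v x)) + 4 * π * mu x := hl
    rw [hqx, hm, Lap, SX]
    linear_combination (X1 x * D1 H x + X2 x * D2 H x) * hlx
  have bM : IN_B (fun x => mu x * (X1 x * D1 H x + X2 x * D2 H x)) :=
    (IN_B.of_cont hmuc).mul bX
  have bR : IN_B (fun x => (D1 X1 x + D2 X2 x +
      (X1 x * D1 (om0 K v) x + X2 x * D2 (om0 K v) x)) * q x) := by
    have hb1 : IN_B (fun x => D1 X1 x + D2 X2 x + (X1 x * D1 om x + X2 x * D2 om x)) := by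
      have m1 : Continuous (D1 om) := continuous_D1 (h.som.of_le (by simp))
      have m2 : Continuous (D2 om) := continuous_D2 (h.som.of_le (by simp))
      exact IN_B.of_cont (by fun_prop)
    refine ((hb1.sub bX).mul bq).congr fun x hx => ?_
    rw [e1om0 x hx, e2om0 x hx]
    ring
  have bdiv : IN_B (fun x => D1 (IN_F (D1 H) (D2 H) X1 X2 q c) x +
      D2 (IN_F (D2 H) (D1 H) X2 X1 q c) x) :=
    (((bS.add (bM.const_mul (4 * π))).add bL).sub (bR.const_mul c)).congr hdiv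
  have hst := IN_stokes (IN_F_per c hL.per.D1 hL.per.D2 p1 p2 pq)
    (IN_F_per c hL.per.D2 hL.per.D1 p2 p1 pq) (fun x hx => (F1 x hx).1) (fun x hx => (F2 x hx).1)
    t1 t2 bdiv.integrable
  have hae : (fun x => D1 (IN_F (D1 H) (D2 H) X1 X2 q c) x +
      D2 (IN_F (D2 H) (D1 H) X2 X1 q c) x) =ᵐ[volume] fun x =>
      (SX X1 X2 (D1 H x) (D2 H x) x + 4 * π * (mu x * (X1 x * D1 H x + X2 x * D2 H x)) + Lap H x) -
        c * ((D1 X1 x + D2 X2 x + (X1 x * D1 (om0 K v) x + X2 x * D2 (om0 K v) x)) * q x) := by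
    filter_upwards [countable_Lat.ae_notMem volume] with x hx using hdiv x hx
  rw [TI_congr_ae hae, TI_sub ((bS.add (bM.const_mul (4 * π))).add bL).integrable
    (bR.const_mul c).integrable, TI_add (bS.add (bM.const_mul (4 * π))).integrable bL.integrable,
    TI_add bS.integrable (bM.const_mul (4 * π)).integrable, TI_const_mul, TI_const_mul, hTL] at hst
  linarith

end Pool.Agent.AO
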