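import Pool.Agent.Lib.MP_10e52e_an.Tools

/-! MP_10e52e_an row Irem: L7.3 -/

namespace Pool.Agent.AO

open MeasureTheory Set Real
open scoped ContDiff

private theorem irem_int (a b : ℝ) : ∫ t in b..a, (a - t) * Real.exp t =
    Real.exp a - Real.exp b - Real.exp b * (a - b) := by
  have h : ∀ t ∈ uIcc b a, HasDerivAt (fun t => (a - t) * Real.exp t + Real.exp t)
      ((a - t) * Real.exp t) t := by
    intro t _
    have e1 : HasDerivAt (fun t : ℝ => a - t) (-1) t := by
      simpa using (hasDerivAt_id t).const_sub a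
    have e2 := (e1.mul (Real.hasDerivAt_exp t)).add (Real.hasDerivAt_exp t)
    refine e2.congr_deriv ?_
    ring
  rw [intervalIntegral.integral_eq_sub_of_hasDerivAt h
    (Continuous.intervalIntegrable (by fun_prop) _ _)]
  ring

private theorem irem_int2 (a b m : ℝ) : ∫ t in b..a, (a - t) * m = m / 2 * (a - b) ^ 2 := by
  have h : ∀ t ∈ uIcc b a, HasDerivAt (fun t => -(m / 2 * (a - t) ^ 2)) ((a - t) * m) t := by
    intro t _
    have e1 : HasDerivAt (fun t : ℝ => a - t) (-1) t := by
      simpa using (hasDerivAt_id t).const_sub a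
    have e2 := ((e1.pow 2).const_mul (m / 2)).neg
    refine e2.congr_deriv ?_
    push_cast
    ring
  rw [intervalIntegral.integral_eq_sub_of_hasDerivAt h
    (Continuous.intervalIntegrable (by fun_prop) _ _)]
  ring

private theorem irem_bd {a b m M : ℝ} (h : ∀ t ∈ uIcc b a, m ≤ Real.exp t ∧ Real.exp t ≤ M) :
    m / 2 * (a - b) ^ 2 ≤ Real.exp a - Real.exp b - Real.exp b * (a - b) ∧
    Real.exp a - Real.exp b - Real.exp b * (a - b) ≤ M / 2 * (a - b) ^ 2 := by
  have hi : ∀ c d : ℝ, IntervalIntegrable (fun t => (a - t) * Real.exp t) volume c d :=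
    fun c d => Continuous.intervalIntegrable (by fun_prop) _ _
  have hj : ∀ k c d : ℝ, IntervalIntegrable (fun t => (a - t) * k) volume c d :=
    fun k c d => Continuous.intervalIntegrable (by fun_prop) _ _
  rw [← irem_int, ← irem_int2, ← irem_int2]
  rcases le_total b a with hab | hab
  · rw [uIcc_of_le hab] at h
    constructor
    · refine intervalIntegral.integral_mono_on hab (hj _ _ _) (hi _ _) fun t ht => ?_
      exact mul_le_mul_of_nonneg_left (h t ht).1 (sub_nonneg.2 ht.2)
    · refine intervalIntegral.integral_mono_on hab (hi _ _) (hj _ _ _) fun t ht => ?_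
      exact mul_le_mul_of_nonneg_left (h t ht).2 (sub_nonneg.2 ht.2)
  · rw [uIcc_of_ge hab] at h
    rw [intervalIntegral.integral_symm a b, intervalIntegral.integral_symm a b,
      intervalIntegral.integral_symm a b]
    constructor
    · refine neg_le_neg (intervalIntegral.integral_mono_on hab (hi _ _) (hj _ _ _) fun t ht => ?_)
      exact mul_le_mul_of_nonpos_left (h t ht).1 (sub_nonpos.2 ht.1)
    · refine neg_le_neg (intervalIntegral.integral_mono_on hab (hj _ _ _) (hi _ _) fun t ht => ?_)
      exact mul_le_mul_of_nonpos_left (h t ht).2 (sub_nonpos.2 ht.1)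

private theorem irem_mono (a b : ℝ) : min (Real.exp a) (Real.exp b) * (a - b) ^ 2 ≤
    (Real.exp a - Real.exp b) * (a - b) := by
  rcases le_total b a with hab | hab
  · rw [min_eq_right (Real.exp_le_exp.2 hab)]
    have h := Real.add_one_le_exp (a - b)
    have e : Real.exp a = Real.exp b * Real.exp (a - b) := by
      rw [← Real.exp_add]
      congr 1
      ring
    have h2 : Real.exp b * (a - b) ≤ Real.exp a - Real.exp b := by
      rw [e]
      nlinarith [mul_le_mul_of_nonneg_left h (Real.exp_pos b).le]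
    have h3 : 0 ≤ a - b := sub_nonneg.2 hab
    nlinarith [mul_le_mul_of_nonneg_right h2 h3]
  · rw [min_eq_left (Real.exp_le_exp.2 hab)]
    have h := Real.add_one_le_exp (b - a)
    have e : Real.exp b = Real.exp a * Real.exp (b - a) := by
      rw [← Real.exp_add]
      congr 1
      ring
    have h2 : Real.exp a * (b - a) ≤ Real.exp b - Real.exp a := by
      rw [e]
      nlinarith [mul_le_mul_of_nonneg_left h (Real.exp_pos a).le]
    have h3 : 0 ≤ b - a := sub_nonneg.2 hab
    nlinarith [mul_le_mul_of_nonneg_right h2 h3]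

/-- L7.3 -/
theorem rem_bounds {a b : ℝ} (ha : a ≤ 0) (hb : b ≤ 0) :
    0 ≤ Real.exp a - Real.exp b - Real.exp b * (a - b) ∧
    Real.exp a - Real.exp b - Real.exp b * (a - b) ≤ (a - b) ^ 2 / 2 ∧
    min (Real.exp a) (Real.exp b) / 2 * (a - b) ^ 2 ≤
      Real.exp a - Real.exp b - Real.exp b * (a - b) ∧
    min (Real.exp a) (Real.exp b) * (a - b) ^ 2 ≤ (Real.exp a - Real.exp b) * (a - b) := by
  have h : ∀ t ∈ uIcc b a, min (Real.exp a) (Real.exp b) ≤ Real.exp t ∧ Real.exp t ≤ 1 := by
    intro t ht
    constructor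
    · rcases le_total b a with hab | hab
      · rw [uIcc_of_le hab] at ht
        exact (min_le_right _ _).trans (Real.exp_le_exp.2 ht.1)
      · rw [uIcc_of_ge hab] at ht
        exact (min_le_left _ _).trans (Real.exp_le_exp.2 ht.1)
    · rw [Real.exp_le_one_iff]
      have h1 : t ≤ max b a := ht.2
      exact h1.trans (max_le hb ha)
  obtain ⟨h1, h2⟩ := irem_bd h
  have h0 : 0 ≤ min (Real.exp a) (Real.exp b) / 2 * (a - b) ^ 2 := by
    have := lt_min (Real.exp_pos a) (Real.exp_pos b)
    positivity
  exact ⟨h0.trans h1, h2.trans (by linarith), h1, irem_mono a b⟩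

end Pool.Agent.AO
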