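import Pool.Agent.Lib.MP_10e52e_an.Green
import Pool.Agent.Lib.MP_10e52e_an.Field

/-! MP_10e52e_an row Isym: symmetrisation -/

namespace Pool.Agent.AO

open MeasureTheory Set Real
open scoped ContDiff

theorem Isym_reflect {F : ℝ × ℝ → ℝ} (hF : Per F) (x : ℝ × ℝ) :
    TI (fun y => F (x - y)) = TI F := by
  rw [← TI_translate hF x, ← TI_neg (f := fun y => F (y + x))]
  congr 1
  funext y
  congr 1
  abel

theorem Isym_reflect_int {F : ℝ × ℝ → ℝ} (hF : Per F) (hi : IntegrableOn F Q) (x : ℝ × ℝ) :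
    IntegrableOn (fun y => F (x - y)) Q := by
  have h1 := integrableOn_translate hF hi x
  have h0 := Measure.measurePreserving_neg (volume : Measure (ℝ × ℝ))
  have h2 : IntegrableOn (fun z => F (z + x)) QQ := h1.congr_set_ae tint_Q_ae.symm
  have h3 := (h0.integrableOn_comp_preimage
    (MeasurableEquiv.neg (ℝ × ℝ)).measurableEmbedding (f := fun z => F (z + x)) (s := QQ)).2 h2
  rw [tint_neg_QQ] at h3
  have h4 : ((fun z => F (z + x)) ∘ Neg.neg) = fun y => F (x - y) := by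
    funext y
    simp only [Function.comp]
    congr 1
    abel
  rw [h4] at h3
  exact h3.mono_set Q_subset_QQ

theorem Isym_per_mul_sub {g mu : ℝ × ℝ → ℝ} (hg : Per g) (hmu : Per mu) (x : ℝ × ℝ) :
    Per (fun y => g y * mu (x - y)) :=
  hg.mul (gconv_per_sub hmu x)

theorem Isym_conv {g mu : ℝ × ℝ → ℝ} (hg : Per g) (hmu : Per mu) (x : ℝ × ℝ) :
    conv g mu x = TI (fun y => g (x - y) * mu y) := by
  rw [conv, ← Isym_reflect (Isym_per_mul_sub hg hmu x) x]
  congr 1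
  funext y
  rw [sub_sub_cancel]

theorem Isym_int {g : ℝ × ℝ → ℝ} (hm : Measurable g) (hp : Per g) (hg : IntegrableOn g Q) :
    Integrable (fun p : (ℝ × ℝ) × (ℝ × ℝ) => g (p.1 - p.2)) (tor.prod tor) := by
  have hmeas : AEStronglyMeasurable (fun p : (ℝ × ℝ) × (ℝ × ℝ) => g (p.1 - p.2))
      (tor.prod tor) := (hm.comp (measurable_fst.sub measurable_snd)).aestronglyMeasurable
  rw [integrable_prod_iff hmeas]
  have hpn : Per (fun y => ‖g y‖) := by
    intro y
    simp only [(hp y).1, (hp y).2, and_self]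
  refine ⟨Filter.Eventually.of_forall fun x => Isym_reflect_int hp hg x, ?_⟩
  have : (fun x : ℝ × ℝ => ∫ y, ‖g ((x, y).1 - (x, y).2)‖ ∂tor) = fun _ => TI (fun y => ‖g y‖) := by
    funext x
    exact Isym_reflect hpn x
  rw [this]
  exact integrable_const _

theorem Isym_mul {g : ℝ × ℝ → ℝ} (hm : Measurable g) (hp : Per g) (hg : IntegrableOn g Q)
    {b : (ℝ × ℝ) × (ℝ × ℝ) → ℝ} (hb : Continuous b) {C : ℝ} (hC : ∀ p, |b p| ≤ C) :
    Integrable (fun p : (ℝ × ℝ) × (ℝ × ℝ) => b p * g (p.1 - p.2)) (tor.prod tor) :=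
  (Isym_int hm hp hg).bdd_mul (c := C) hb.aestronglyMeasurable
    (Filter.Eventually.of_forall fun p => by rw [Real.norm_eq_abs]; exact hC p)

/-- one component -/
theorem Isym_one {g a mu : ℝ × ℝ → ℝ} (hm : Measurable g) (hp : Per g) (hg : IntegrableOn g Q)
    (hodd : ∀ x, g (-x) = -g x) (hmu : Continuous mu) (pmu : Per mu)
    (ha : Continuous a) (pa : Per a) :
    Integrable (fun p : (ℝ × ℝ) × (ℝ × ℝ) => (mu p.1 * mu p.2 * (a p.1 - a p.2)) * g (p.1 - p.2))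
      (tor.prod tor) ∧
    Integrable (fun x => mu x * (a x * conv g mu x)) tor ∧
    TI (fun x => mu x * (a x * conv g mu x)) =
      1 / 2 * ∫ p, (mu p.1 * mu p.2 * (a p.1 - a p.2)) * g (p.1 - p.2) ∂(tor.prod tor) := by
  obtain ⟨M, hM⟩ := pmu.bounded hmu
  obtain ⟨A, hA⟩ := pa.bounded ha
  have hM0 : 0 ≤ M := (abs_nonneg _).trans (hM 0)
  have hA0 : 0 ≤ A := (abs_nonneg _).trans (hA 0)
  have i1 : Integrable (fun p : (ℝ × ℝ) × (ℝ × ℝ) => (mu p.1 * mu p.2 * a p.1) * g (p.1 - p.2))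
      (tor.prod tor) := by
    refine Isym_mul hm hp hg (C := M * M * A) (by fun_prop) fun p => ?_
    rw [abs_mul, abs_mul]
    exact mul_le_mul (mul_le_mul (hM _) (hM _) (abs_nonneg _) hM0) (hA _) (abs_nonneg _)
      (mul_nonneg hM0 hM0)
  have i2 : Integrable (fun p : (ℝ × ℝ) × (ℝ × ℝ) => (mu p.1 * mu p.2 * a p.2) * g (p.1 - p.2))
      (tor.prod tor) := by
    refine Isym_mul hm hp hg (C := M * M * A) (by fun_prop) fun p => ?_
    rw [abs_mul, abs_mul]
    exact mul_le_mul (mul_le_mul (hM _) (hM _) (abs_nonneg _) hM0) (hA _) (abs_nonneg _)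
      (mul_nonneg hM0 hM0)
  have e1 : (fun p : (ℝ × ℝ) × (ℝ × ℝ) => (mu p.1 * mu p.2 * (a p.1 - a p.2)) * g (p.1 - p.2)) =
      fun p => (mu p.1 * mu p.2 * a p.1) * g (p.1 - p.2) -
        (mu p.1 * mu p.2 * a p.2) * g (p.1 - p.2) := by
    funext p
    ring
  have e2 : (fun x => mu x * (a x * conv g mu x)) =
      fun x => ∫ y, (mu (x, y).1 * mu (x, y).2 * a (x, y).1) * g ((x, y).1 - (x, y).2) ∂tor := by
    funext x
    rw [Isym_conv hp pmu, TI_eq, ← integral_const_mul, ← integral_const_mul]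
    congr 1
    funext y
    ring
  have hswap : ∫ p, (mu p.1 * mu p.2 * a p.2) * g (p.1 - p.2) ∂(tor.prod tor) =
      -∫ p, (mu p.1 * mu p.2 * a p.1) * g (p.1 - p.2) ∂(tor.prod tor) := by
    rw [← integral_prod_swap, ← integral_neg]
    congr 1
    funext p
    simp only [Prod.fst_swap, Prod.snd_swap]
    rw [← neg_sub p.1 p.2, hodd]
    ring
  refine ⟨?_, ?_, ?_⟩
  · rw [e1]
    exact i1.sub i2
  · rw [e2]
    exact i1.integral_prod_left
  · rw [e1, integral_sub i1 i2, hswap, e2, TI_eq, ← integral_prod _ i1]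
    ring

theorem Isym_even {K R : ℝ × ℝ → ℝ} (hG : IsGreen K R) (x : ℝ × ℝ) : K (-x) = K x := by
  have h1 := hG.refl1 x
  have h2 := hG.refl2 (-x.1, x.2)
  rw [h1] at h2
  exact h2

theorem Isym_fderiv {K R : ℝ × ℝ → ℝ} (hG : IsGreen K R) (x : ℝ × ℝ) :
    fderiv ℝ (Gf K) (-x) = -fderiv ℝ (Gf K) x := by
  have h0 : (fun z => Gf K (0 - z)) = Gf K := by
    funext z
    rw [zero_sub, Gf, Gf, Isym_even hG]
  have h := gconv_fderiv_sub (Gf K) 0 x
  rw [h0, zero_sub] at h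
  rw [h, neg_neg]

/-- symmetrisation: `int mu X.grad(G*mu) = (1/2) int int mu mu P_X` -/
theorem pair_symm {K R : ℝ × ℝ → ℝ} (hG : IsGreen K R) {mu X1 X2 : ℝ × ℝ → ℝ}
    (hmu : Continuous mu) (hp : Per mu) (h1 : Continuous X1) (p1 : Per X1)
    (h2 : Continuous X2) (p2 : Per X2) :
    TI (fun x => mu x * (X1 x * conv (D1 (Gf K)) mu x + X2 x * conv (D2 (Gf K)) mu x)) =
      1 / 2 * TI (fun x => TI (fun y => mu x * mu y * PX K X1 X2 x y)) := by
  have hL := (green_logsing hG).1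
  obtain ⟨-, -, hi1, hi2⟩ := hL.integrable
  have hm1 : Measurable (D1 (Gf K)) := measurable_fderiv_apply_const ℝ (Gf K) _
  have hm2 : Measurable (D2 (Gf K)) := measurable_fderiv_apply_const ℝ (Gf K) _
  have o1 : ∀ x, D1 (Gf K) (-x) = -D1 (Gf K) x := by
    intro x
    rw [D1, Isym_fderiv hG]
    rfl
  have o2 : ∀ x, D2 (Gf K) (-x) = -D2 (Gf K) x := by
    intro x
    rw [D2, Isym_fderiv hG]
    rfl
  obtain ⟨j1, k1, e1⟩ := Isym_one hm1 (gconv_per_D1 hL.per) hi1 o1 hmu hp h1 p1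
  obtain ⟨j2, k2, e2⟩ := Isym_one hm2 (gconv_per_D2 hL.per) hi2 o2 hmu hp h2 p2
  have l1 : (fun x => mu x * (X1 x * conv (D1 (Gf K)) mu x + X2 x * conv (D2 (Gf K)) mu x)) =
      fun x => mu x * (X1 x * conv (D1 (Gf K)) mu x) + mu x * (X2 x * conv (D2 (Gf K)) mu x) := by
    funext x
    ring
  have l2 : TI (fun x => TI (fun y => mu x * mu y * PX K X1 X2 x y)) =
      ∫ p, ((mu p.1 * mu p.2 * (X1 p.1 - X1 p.2)) * D1 (Gf K) (p.1 - p.2) +
      (mu p.1 * mu p.2 * (X2 p.1 - X2 p.2)) * D2 (Gf K) (p.1 - p.2)) ∂(tor.prod tor) := by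
    refine Eq.trans ?_ (integral_prod _ (j1.add j2)).symm
    rw [TI_eq]
    congr 1
    funext x
    rw [TI_eq]
    congr 1
    funext y
    simp only [PX, Pi.add_apply]
    ring
  rw [l1, TI_add k1 k2, e1, e2, l2, integral_add j1 j2]
  ring

end Pool.Agent.AO
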