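import Pool.Agent.Lib.MP_10e52e_an.Sol
import Pool.Agent.Lib.MP_10e52e_an.Isym
import Pool.Agent.Lib.MP_10e52e_an.Calc
import Pool.Agent.Lib.MP_10e52e_an.Symm

/-! MP_10e52e_an row Ivv: L7.1 (VV),(V) -/

namespace Pool.Agent.AO

open MeasureTheory Set Real Filter Topology
open scoped ContDiff

private theorem ivv_int {f : ℝ × ℝ → ℝ} (hf : Continuous f) : IntegrableOn f Q :=
  (hf.continuousOn.integrableOn_compact (isCompact_Icc.prod isCompact_Icc)).mono_set
    (prod_mono Ioc_subset_Icc_self Ioc_subset_Icc_self)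

/-- logarithmic derivative of the density -/
private theorem ivv_dv {mu K' E : ℝ × ℝ → ℝ} {k : ℝ} {N : ℕ} (hN : 1 ≤ N) (hnn : ∀ x, 0 ≤ mu x)
    (hK : ContDiff ℝ ∞ K') (hE : ContDiff ℝ ∞ E)
    (hd : ∀ x, mu x = k * K' x ^ N * Real.exp (E x)) (v x : ℝ × ℝ) :
    Dv v mu x = mu x * (N * Dv v (fun y => Real.log (K' y)) x + Dv v E x) := by
  have dK : DifferentiableAt ℝ K' x := hK.differentiable (by simp) x
  have dE : DifferentiableAt ℝ E x := hE.differentiable (by simp) x
  by_cases h0 : K' x = 0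
  · have hmu0 : mu x = 0 := by
      rw [hd x, h0, zero_pow (by omega)]; ring
    have hmin : IsLocalMin mu x := Eventually.of_forall fun y => by rw [hmu0]; exact hnn y
    rw [hmu0, zero_mul]
    simp only [Dv, hmin.fderiv_eq_zero]
    rfl
  · have e : mu = fun y => (k * K' y ^ N) * Real.exp (E y) := funext hd
    have e1 : Dv v (fun y => K' y ^ N) x = (N * K' x ^ (N - 1)) * Dv v K' x :=
      Dv_comp dK (hasDerivAt_pow N _) v
    have e2 : Dv v (fun y => Real.exp (E y)) x = Real.exp (E x) * Dv v E x :=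
      Dv_comp dE (Real.hasDerivAt_exp _) v
    have e3 : Dv v (fun y => Real.log (K' y)) x = (K' x)⁻¹ * Dv v K' x :=
      Dv_comp dK (Real.hasDerivAt_log h0) v
    have d1 : DifferentiableAt ℝ (fun y => K' y ^ N) x := dK.pow N
    have d2 : DifferentiableAt ℝ (fun y => Real.exp (E y)) x := dE.exp
    have e4 : Dv v mu x = Dv v (fun y => (k * K' y ^ N) * Real.exp (E y)) x := by rw [← e]
    rw [e4, Dv_mul (d1.const_mul k) d2, Dv_const_mul d1, e1, e2, e3, hd x]
    obtain ⟨M, rfl⟩ : ∃ M, N = M + 1 := ⟨N - 1, by omega⟩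
    rw [Nat.add_sub_cancel]
    field_simp
    ring

/-- the common computation -/
private theorem ivv_main {mu K' E X1 X2 : ℝ × ℝ → ℝ} {k : ℝ} {N : ℕ} (hN : 1 ≤ N)
    (hmu : ContDiff ℝ ∞ mu) (pmu : Per mu) (hnn : ∀ x, 0 ≤ mu x)
    (hK : ContDiff ℝ ∞ K') (hE : ContDiff ℝ ∞ E)
    (hd : ∀ x, mu x = k * K' x ^ N * Real.exp (E x))
    (h1 : ContDiff ℝ 1 X1) (p1 : Per X1) (h2 : ContDiff ℝ 1 X2) (p2 : Per X2) :
    TI (fun x => mu x * (D1 X1 x + D2 X2 x)) +
      TI (fun x => mu x * (X1 x * D1 E x + X2 x * D2 E x)) +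
      N * TI (fun x => mu x * (X1 x * D1 (fun y => Real.log (K' y)) x +
        X2 x * D2 (fun y => Real.log (K' y)) x)) = 0 := by
  have cm : Continuous mu := hmu.continuous
  have hmu1 : ContDiff ℝ 1 mu := hmu.of_le (by exact_mod_cast le_top)
  have hE1 : ContDiff ℝ 1 E := hE.of_le (by exact_mod_cast le_top)
  have z1 : TI (D1 (fun x => mu x * X1 x)) = 0 := TI_D1 (hmu1.mul h1) (pmu.mul p1)
  have z2 : TI (D2 (fun x => mu x * X2 x)) = 0 := TI_D2 (hmu1.mul h2) (pmu.mul p2)
  have f1 : D1 (fun x => mu x * X1 x) = fun x => D1 mu x * X1 x + mu x * D1 X1 x := by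
    funext x
    exact D1_mul (hmu1.differentiable one_ne_zero x) (h1.differentiable one_ne_zero x)
  have f2 : D2 (fun x => mu x * X2 x) = fun x => D2 mu x * X2 x + mu x * D2 X2 x := by
    funext x
    exact D2_mul (hmu1.differentiable one_ne_zero x) (h2.differentiable one_ne_zero x)
  have c1 := continuous_D1 h1
  have c2 := continuous_D2 h2
  have m1 := continuous_D1 hmu1
  have m2 := continuous_D2 hmu1
  have q1 := continuous_D1 hE1
  have q2 := continuous_D2 hE1
  have s : TI (fun x => (D1 mu x * X1 x + mu x * D1 X1 x) + (D2 mu x * X2 x + mu x * D2 X2 x)) = 0 := by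
    have i1 : IntegrableOn (fun x => D1 mu x * X1 x + mu x * D1 X1 x) Q :=
      ivv_int ((m1.mul h1.continuous).add (cm.mul c1))
    have i2 : IntegrableOn (fun x => D2 mu x * X2 x + mu x * D2 X2 x) Q :=
      ivv_int ((m2.mul h2.continuous).add (cm.mul c2))
    have := integral_add i1 i2
    have t1 : TI (fun x => D1 mu x * X1 x + mu x * D1 X1 x) = 0 := by rw [← f1]; exact z1
    have t2 : TI (fun x => D2 mu x * X2 x + mu x * D2 X2 x) = 0 := by rw [← f2]; exact z2
    unfold TI at t1 t2 ⊢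
    rw [this, t1, t2, add_zero]
  set A : ℝ × ℝ → ℝ := fun x => mu x * (D1 X1 x + D2 X2 x) with hA
  set B : ℝ × ℝ → ℝ := fun x => mu x * (X1 x * D1 E x + X2 x * D2 E x) with hB
  set Cc : ℝ × ℝ → ℝ := fun x => mu x * (X1 x * D1 (fun y => Real.log (K' y)) x +
        X2 x * D2 (fun y => Real.log (K' y)) x) with hC
  have hpt : ∀ x, (D1 mu x * X1 x + mu x * D1 X1 x) + (D2 mu x * X2 x + mu x * D2 X2 x) =
      A x + B x + N * Cc x := by
    intro x
    have g1 : D1 mu x = mu x * (N * D1 (fun y => Real.log (K' y)) x + D1 E x) :=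
      ivv_dv hN hnn hK hE hd (1, 0) x
    have g2 : D2 mu x = mu x * (N * D2 (fun y => Real.log (K' y)) x + D2 E x) :=
      ivv_dv hN hnn hK hE hd (0, 1) x
    rw [g1, g2, hA, hB, hC]
    ring
  have cA : Continuous A := cm.mul (c1.add c2)
  have cB : Continuous B := cm.mul ((h1.continuous.mul q1).add (h2.continuous.mul q2))
  have cC : Continuous fun x => (N : ℝ) * Cc x := by
    have : (fun x => (N : ℝ) * Cc x) = fun x => ((D1 mu x * X1 x + mu x * D1 X1 x) +
        (D2 mu x * X2 x + mu x * D2 X2 x)) - A x - B x := by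
      funext x
      rw [hpt x]; ring
    rw [this]
    exact ((((m1.mul h1.continuous).add (cm.mul c1)).add ((m2.mul h2.continuous).add
      (cm.mul c2))).sub cA).sub cB
  have s2 : TI (fun x => A x + B x + N * Cc x) = 0 := by
    rw [← s]
    congr 1
    funext x
    exact (hpt x).symm
  have s3 : TI (fun x => A x + B x + N * Cc x) = TI A + TI B + N * TI Cc := by
    unfold TI
    have j1 : ∫ x in Q, (A x + B x + N * Cc x) = (∫ x in Q, (A x + B x)) + ∫ x in Q, N * Cc x :=
      integral_add (ivv_int (cA.add cB)) (ivv_int cC)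
    have j2 : ∫ x in Q, (A x + B x) = (∫ x in Q, A x) + ∫ x in Q, B x :=
      integral_add (ivv_int cA) (ivv_int cB)
    rw [j1, j2, integral_const_mul]
  rw [← s3, s2]

/-- L7.1 (VV), in coordinates relative to `z` -/
theorem vv {K R : ℝ × ℝ → ℝ} (hG : IsGreen K R) {N : ℕ} (hN : 1 ≤ N) {z : ℝ × ℝ} {k : ℝ}
    {mu s : ℝ × ℝ → ℝ} (h : IsMF K N z k mu s) {X1 X2 : ℝ × ℝ → ℝ}
    (h1 : ContDiff ℝ 1 X1) (p1 : Per X1) (h2 : ContDiff ℝ 1 X2) (p2 : Per X2) :
    TI (fun x => mu x * (D1 X1 x + D2 X2 x)) +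
      4 * π * TI (fun x => TI (fun y => mu x * mu y * PX K X1 X2 x y)) -
      TI (fun x => mu x * (X1 x * conv (D1 (Gf K)) s x + X2 x * conv (D2 (Gf K)) s x)) +
      N * TI (fun x => mu x * (X1 x * D1 (Uz K z) x + X2 x * D2 (Uz K z) x)) = 0 := by
  obtain ⟨a1, -, a3⟩ := conv_green hG h.smu h.pmu
  obtain ⟨b1, -, b3⟩ := conv_green hG h.ss h.ps
  have hK : ContDiff ℝ ∞ fun x => K (x + z - pt) := hG.smoothK.comp (by fun_prop)
  have hE : ContDiff ℝ ∞ fun x => 8 * π * conv (Gf K) mu x - conv (Gf K) s x :=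
    (contDiff_const.mul a1).sub b1
  have key := ivv_main hN h.smu h.pmu h.nn hK hE h.dens h1 p1 h2 p2
  have da : Differentiable ℝ (conv (Gf K) mu) := a1.differentiable (by simp)
  have db : Differentiable ℝ (conv (Gf K) s) := b1.differentiable (by simp)
  have e1 : ∀ x, D1 (fun x => 8 * π * conv (Gf K) mu x - conv (Gf K) s x) x =
      8 * π * conv (D1 (Gf K)) mu x - conv (D1 (Gf K)) s x := by
    intro x
    rw [D1_sub ((da x).const_mul _) (db x), D1_const_mul (da x), (a3 x).2.2.1, (b3 x).2.2.1]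
  have e2 : ∀ x, D2 (fun x => 8 * π * conv (Gf K) mu x - conv (Gf K) s x) x =
      8 * π * conv (D2 (Gf K)) mu x - conv (D2 (Gf K)) s x := by
    intro x
    rw [D2_sub ((da x).const_mul _) (db x), D2_const_mul (da x), (a3 x).2.2.2.1, (b3 x).2.2.2.1]
  have cm : Continuous mu := h.smu.continuous
  have ca1 : Continuous (conv (D1 (Gf K)) mu) := by
    have : conv (D1 (Gf K)) mu = D1 (conv (Gf K) mu) := funext fun x => ((a3 x).2.2.1).symm
    rw [this]; exact continuous_D1 (a1.of_le (by exact_mod_cast le_top))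
  have ca2 : Continuous (conv (D2 (Gf K)) mu) := by
    have : conv (D2 (Gf K)) mu = D2 (conv (Gf K) mu) := funext fun x => ((a3 x).2.2.2.1).symm
    rw [this]; exact continuous_D2 (a1.of_le (by exact_mod_cast le_top))
  have cb1 : Continuous (conv (D1 (Gf K)) s) := by
    have : conv (D1 (Gf K)) s = D1 (conv (Gf K) s) := funext fun x => ((b3 x).2.2.1).symm
    rw [this]; exact continuous_D1 (b1.of_le (by exact_mod_cast le_top))
  have cb2 : Continuous (conv (D2 (Gf K)) s) := by
    have : conv (D2 (Gf K)) s = D2 (conv (Gf K) s) := funext fun x => ((b3 x).2.2.2.1).symm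
    rw [this]; exact continuous_D2 (b1.of_le (by exact_mod_cast le_top))
  have e3 : TI (fun x => mu x * (X1 x * D1 (fun x => 8 * π * conv (Gf K) mu x - conv (Gf K) s x) x +
      X2 x * D2 (fun x => 8 * π * conv (Gf K) mu x - conv (Gf K) s x) x)) =
      8 * π * TI (fun x => mu x * (X1 x * conv (D1 (Gf K)) mu x + X2 x * conv (D2 (Gf K)) mu x)) -
      TI (fun x => mu x * (X1 x * conv (D1 (Gf K)) s x + X2 x * conv (D2 (Gf K)) s x)) := by
    unfold TI
    have j1 : IntegrableOn (fun x => mu x * (X1 x * conv (D1 (Gf K)) mu x +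
        X2 x * conv (D2 (Gf K)) mu x)) Q :=
      ivv_int (cm.mul ((h1.continuous.mul ca1).add (h2.continuous.mul ca2)))
    have j2 : IntegrableOn (fun x => mu x * (X1 x * conv (D1 (Gf K)) s x +
        X2 x * conv (D2 (Gf K)) s x)) Q :=
      ivv_int (cm.mul ((h1.continuous.mul cb1).add (h2.continuous.mul cb2)))
    rw [← integral_const_mul, ← integral_sub (j1.const_mul _) j2]
    refine integral_congr_ae (Eventually.of_forall fun x => ?_)
    simp only [e1, e2]
    ring
  rw [e3, pair_symm hG cm h.pmu h1.continuous p1 h2.continuous p2] at key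
  have e4 : (fun x => Real.log (K (x + z - pt))) = Uz K z := rfl
  rw [e4] at key
  linarith

/-- L7.1 (V) -/
theorem v_id {K R : ℝ × ℝ → ℝ} (hG : IsGreen K R) {N : ℕ} (hN : 2 ≤ N)
    {mu om : ℝ × ℝ → ℝ} (h : IsSol K N mu om) {X1 X2 : ℝ × ℝ → ℝ}
    (h1 : ContDiff ℝ 1 X1) (p1 : Per X1) (h2 : ContDiff ℝ 1 X2) (p2 : Per X2) :
    TI (fun x => mu x * (D1 X1 x + D2 X2 x)) +
      2 * π * TI (fun x => TI (fun y => mu x * mu y * PX K X1 X2 x y)) -
      TI (fun x => mu x * (X1 x * D1 om x + X2 x * D2 om x)) +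
      N * TI (fun x => mu x * (X1 x * D1 (Uz K 0) x + X2 x * D2 (Uz K 0) x)) = 0 := by
  obtain ⟨a1, -, a3⟩ := conv_green hG h.smu h.pmu
  obtain ⟨k, hk, hd⟩ := h.dens
  have hK : ContDiff ℝ ∞ fun x => K (x + 0 - pt) := hG.smoothK.comp (by fun_prop)
  have hE : ContDiff ℝ ∞ fun x => 4 * π * conv (Gf K) mu x - om x :=
    (contDiff_const.mul a1).sub h.som
  have key := ivv_main (by omega : 1 ≤ N) h.smu h.pmu h.nn hK hE (by simpa only [add_zero] using hd)
    h1 p1 h2 p2
  have da : Differentiable ℝ (conv (Gf K) mu) := a1.differentiable (by simp)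
  have db : Differentiable ℝ om := h.som.differentiable (by simp)
  have e1 : ∀ x, D1 (fun x => 4 * π * conv (Gf K) mu x - om x) x =
      4 * π * conv (D1 (Gf K)) mu x - D1 om x := by
    intro x
    rw [D1_sub ((da x).const_mul _) (db x), D1_const_mul (da x), (a3 x).2.2.1]
  have e2 : ∀ x, D2 (fun x => 4 * π * conv (Gf K) mu x - om x) x =
      4 * π * conv (D2 (Gf K)) mu x - D2 om x := by
    intro x
    rw [D2_sub ((da x).const_mul _) (db x), D2_const_mul (da x), (a3 x).2.2.2.1]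
  have cm : Continuous mu := h.smu.continuous
  have ca1 : Continuous (conv (D1 (Gf K)) mu) := by
    have : conv (D1 (Gf K)) mu = D1 (conv (Gf K) mu) := funext fun x => ((a3 x).2.2.1).symm
    rw [this]; exact continuous_D1 (a1.of_le (by exact_mod_cast le_top))
  have ca2 : Continuous (conv (D2 (Gf K)) mu) := by
    have : conv (D2 (Gf K)) mu = D2 (conv (Gf K) mu) := funext fun x => ((a3 x).2.2.2.1).symm
    rw [this]; exact continuous_D2 (a1.of_le (by exact_mod_cast le_top))
  have cb1 : Continuous (D1 om) := continuous_D1 (h.som.of_le (by exact_mod_cast le_top))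
  have cb2 : Continuous (D2 om) := continuous_D2 (h.som.of_le (by exact_mod_cast le_top))
  have e3 : TI (fun x => mu x * (X1 x * D1 (fun x => 4 * π * conv (Gf K) mu x - om x) x +
      X2 x * D2 (fun x => 4 * π * conv (Gf K) mu x - om x) x)) =
      4 * π * TI (fun x => mu x * (X1 x * conv (D1 (Gf K)) mu x + X2 x * conv (D2 (Gf K)) mu x)) -
      TI (fun x => mu x * (X1 x * D1 om x + X2 x * D2 om x)) := by
    unfold TI
    have j1 : IntegrableOn (fun x => mu x * (X1 x * conv (D1 (Gf K)) mu x +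
        X2 x * conv (D2 (Gf K)) mu x)) Q :=
      ivv_int (cm.mul ((h1.continuous.mul ca1).add (h2.continuous.mul ca2)))
    have j2 : IntegrableOn (fun x => mu x * (X1 x * D1 om x + X2 x * D2 om x)) Q :=
      ivv_int (cm.mul ((h1.continuous.mul cb1).add (h2.continuous.mul cb2)))
    rw [← integral_const_mul, ← integral_sub (j1.const_mul _) j2]
    refine integral_congr_ae (Eventually.of_forall fun x => ?_)
    simp only [e1, e2]
    ring
  rw [e3, pair_symm hG cm h.pmu h1.continuous p1 h2.continuous p2] at key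
  have e4 : (fun x => Real.log (K (x + 0 - pt))) = Uz K 0 := rfl
  rw [e4] at key
  linarith

end Pool.Agent.AO
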