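import Pool.Agent.Lib.MP_10e52e_an.Sol
import Pool.Agent.Lib.MP_10e52e_an.Psi
import Pool.Agent.Lib.MP_10e52e_an.Field
import Pool.Agent.Lib.MP_10e52e_an.Ivv
import Pool.Agent.Lib.MP_10e52e_an.IN
import Pool.Agent.Lib.MP_10e52e_an.Irem
import Pool.Agent.Lib.MP_10e52e_an.Calc

/-! MP_10e52e_an row Imas: L7.4 -/

namespace Pool.Agent.AO

open MeasureTheory Set Real
open scoped ContDiff

private lemma imas_nsq_nonneg (x : ℝ × ℝ) : 0 ≤ nsq x := by
  unfold nsq; positivity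

private lemma imas_nsq_cont : Continuous nsq := by
  unfold nsq; fun_prop

private lemma imas_nrm_cont : Continuous nrm := by
  unfold nrm; exact imas_nsq_cont.sqrt

private lemma imas_abs_le (x : ℝ × ℝ) : |x.1| ≤ nrm x ∧ |x.2| ≤ nrm x := by
  constructor
  · rw [← Real.sqrt_sq_eq_abs]
    exact Real.sqrt_le_sqrt (by unfold nsq; nlinarith [sq_nonneg x.2])
  · rw [← Real.sqrt_sq_eq_abs]
    exact Real.sqrt_le_sqrt (by unfold nsq; nlinarith [sq_nonneg x.1])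

private lemma imas_disc_sub (r : ℝ) : Disc r ⊆ Icc ((-r, -r) : ℝ × ℝ) (r, r) := by
  intro x hx
  have h1 := imas_abs_le x
  have h2 : nrm x < r := hx
  have h3 := abs_le.mp (h1.1.trans h2.le)
  have h4 := abs_le.mp (h1.2.trans h2.le)
  exact ⟨⟨h3.1, h4.1⟩, ⟨h3.2, h4.2⟩⟩

private lemma imas_disc_meas (r : ℝ) : MeasurableSet (Disc r) :=
  (isOpen_lt imas_nrm_cont continuous_const).measurableSet

private lemma imas_Q_meas : MeasurableSet Q := measurableSet_Ioc.prod measurableSet_Ioc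

private lemma imas_int_disc {f : ℝ × ℝ → ℝ} (hf : Continuous f) (r : ℝ) :
    IntegrableOn f (Disc r) :=
  (hf.continuousOn.integrableOn_compact isCompact_Icc).mono_set (imas_disc_sub r)

private lemma imas_Q_sub : Q ⊆ Icc ((-1 / 2, -1 / 2) : ℝ × ℝ) (1 / 2, 1 / 2) := by
  intro x hx
  obtain ⟨h1, h2⟩ := hx
  exact ⟨⟨h1.1.le, h2.1.le⟩, ⟨h1.2, h2.2⟩⟩

private lemma imas_int_Q {f : ℝ × ℝ → ℝ} (hf : Continuous f) : IntegrableOn f Q :=
  (hf.continuousOn.integrableOn_compact isCompact_Icc).mono_set imas_Q_sub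

private lemma imas_disc_Q {r : ℝ} (hr : r ≤ 1 / 4) : Disc r ⊆ Q := by
  intro x hx
  have h1 := imas_disc_sub r hx
  obtain ⟨⟨h2, h3⟩, ⟨h4, h5⟩⟩ := h1
  simp only at h2 h3 h4 h5
  exact ⟨⟨by linarith, by linarith⟩, ⟨by linarith, by linarith⟩⟩

private lemma imas_volQ : volume Q ≠ ⊤ := by
  have : volume Q ≤ volume (Icc ((-1 / 2, -1 / 2) : ℝ × ℝ) (1 / 2, 1 / 2)) :=
    measure_mono imas_Q_sub
  exact (this.trans_lt isCompact_Icc.measure_lt_top).ne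

private lemma imas_lat {x : ℝ × ℝ} (hx : x ∈ Icc ((-1 / 2, -1 / 2) : ℝ × ℝ) (1 / 2, 1 / 2))
    (h0 : x ≠ 0) : x ∉ Lat := by
  rintro ⟨m, n, rfl⟩
  obtain ⟨⟨h1, h2⟩, ⟨h3, h4⟩⟩ := hx
  simp only at h1 h2 h3 h4
  have a1 : (-1 : ℤ) < m := by
    have : (-1 : ℝ) < m := by linarith
    exact_mod_cast this
  have a2 : m < (1 : ℤ) := by
    have : (m : ℝ) < 1 := by linarith
    exact_mod_cast this
  have a3 : (-1 : ℤ) < n := by
    have : (-1 : ℝ) < n := by linarith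
    exact_mod_cast this
  have a4 : n < (1 : ℤ) := by
    have : (n : ℝ) < 1 := by linarith
    exact_mod_cast this
  have b1 : m = 0 := by omega
  have b2 : n = 0 := by omega
  apply h0
  rw [b1, b2]
  simp

private lemma imas_meas_D (f : ℝ × ℝ → ℝ) : Measurable (D1 f) ∧ Measurable (D2 f) :=
  ⟨measurable_fderiv_apply_const ℝ f (1, 0), measurable_fderiv_apply_const ℝ f (0, 1)⟩

private lemma imas_ae0 {P : ℝ × ℝ → Prop} {S : Set (ℝ × ℝ)} (hS : MeasurableSet S)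
    (h : ∀ x ∈ S, x ≠ 0 → P x) : ∀ᵐ x ∂(volume.restrict S), P x := by
  rw [ae_restrict_iff' hS]
  have h0 : ∀ᵐ x : ℝ × ℝ ∂volume, x ≠ 0 := by
    have : volume ({(0 : ℝ × ℝ)} : Set (ℝ × ℝ)) = 0 := measure_singleton _
    exact measure_eq_zero_iff_ae_notMem.1 this
  filter_upwards [h0] with x hx hxS using h x hxS hx

private lemma imas_intb {f : ℝ × ℝ → ℝ} {S : Set (ℝ × ℝ)} (hS : MeasurableSet S) (hSQ : S ⊆ Q)
    (hf : Measurable f) {M : ℝ} (h : ∀ x ∈ S, x ≠ 0 → |f x| ≤ M) : IntegrableOn f S := by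
  refine Measure.integrableOn_of_bounded (M := M)
    ((measure_mono hSQ).trans_lt imas_volQ.lt_top).ne hf.aestronglyMeasurable ?_
  exact imas_ae0 hS h

private lemma imas_le {f g : ℝ × ℝ → ℝ} {S : Set (ℝ × ℝ)} (hS : MeasurableSet S)
    (hf : IntegrableOn f S) (hg : IntegrableOn g S) (h : ∀ x ∈ S, x ≠ 0 → f x ≤ g x) :
    ∫ x in S, f x ≤ ∫ x in S, g x :=
  integral_mono_ae hf hg (imas_ae0 hS h)

private lemma imas_split {f : ℝ × ℝ → ℝ} {r : ℝ} (hr : r ≤ 1 / 4) (hf : IntegrableOn f Q) :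
    TI f = (∫ x in Disc r, f x) + ∫ x in Q \ Disc r, f x := by
  have := setIntegral_sdiff (imas_disc_meas r) hf (imas_disc_Q hr)
  unfold TI
  linarith

private lemma imas_om0_cd {K R : ℝ × ℝ → ℝ} (hG : IsGreen K R) {Cb : ℝ} {N : ℕ}
    {v : ℝ × ℝ → ℝ} (hv : IsComp K Cb N v) {x : ℝ × ℝ} (hx : x ∉ Lat) :
    ContDiffAt ℝ ∞ (om0 K v) x := by
  have hK : K x ≠ 0 := fun h => hx ((hG.zero_iff x).1 h)
  exact (hG.smoothK.contDiffAt.log hK).add hv.smooth.contDiffAt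

private lemma imas_h_cd {K R : ℝ × ℝ → ℝ} (hG : IsGreen K R) {Cb : ℝ} {N : ℕ}
    {v mu om : ℝ × ℝ → ℝ} (hv : IsComp K Cb N v) (h : IsSol K N mu om) {x : ℝ × ℝ}
    (hx : x ∉ Lat) : ContDiffAt ℝ ∞ (hf K v om) x :=
  h.som.contDiffAt.sub (imas_om0_cd hG hv hx)

private lemma imas_dh {K R : ℝ × ℝ → ℝ} (hG : IsGreen K R) {Cb : ℝ} {N : ℕ}
    {v mu om : ℝ × ℝ → ℝ} (hv : IsComp K Cb N v) (h : IsSol K N mu om) {x : ℝ × ℝ}
    (hx : x ∉ Lat) : D1 (hf K v om) x = D1 om x - D1 (om0 K v) x ∧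
      D2 (hf K v om) x = D2 om x - D2 (om0 K v) x := by
  have h1 : DifferentiableAt ℝ om x := h.som.contDiffAt.differentiableAt (by simp)
  have h2 : DifferentiableAt ℝ (om0 K v) x :=
    (imas_om0_cd hG hv hx).differentiableAt (by simp)
  exact ⟨D1_sub h1 h2, D2_sub h1 h2⟩

private lemma imas_bd_off {f : ℝ × ℝ → ℝ} {r : ℝ}
    (hf : ∀ x ∈ Icc ((-1 / 2, -1 / 2) : ℝ × ℝ) (1 / 2, 1 / 2), x ∉ Disc r → ContinuousAt f x) :
    ∃ M : ℝ, 0 ≤ M ∧ ∀ x ∈ Q \ Disc r, |f x| ≤ M := by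
  have hc : IsCompact (Icc ((-1 / 2, -1 / 2) : ℝ × ℝ) (1 / 2, 1 / 2) \ Disc r) :=
    isCompact_Icc.diff (isOpen_lt imas_nrm_cont continuous_const)
  obtain ⟨M, hM⟩ := hc.exists_bound_of_continuousOn (f := f)
    (fun x hx => (hf x hx.1 hx.2).continuousWithinAt)
  refine ⟨max M 0, le_max_right _ _, fun x hx => ?_⟩
  exact (hM x ⟨imas_Q_sub hx.1, hx.2⟩).trans (le_max_left _ _)

private lemma imas_zero_disc {r : ℝ} (hr : 0 < r) : (0 : ℝ × ℝ) ∈ Disc r := by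
  show nrm 0 < r
  have : nrm 0 = 0 := by simp [nrm, nsq]
  rw [this]
  exact hr

/-- bounds for `h` and its derivatives off the disc -/
private lemma imas_h_off {K R : ℝ × ℝ → ℝ} (hG : IsGreen K R) {Cb : ℝ} {N : ℕ}
    {v mu om : ℝ × ℝ → ℝ} (hv : IsComp K Cb N v) (h : IsSol K N mu om) {r : ℝ} (hr : 0 < r) :
    ∃ M : ℝ, 0 ≤ M ∧ ∀ x ∈ Q \ Disc r, |D1 (hf K v om) x| ≤ M ∧ |D2 (hf K v om) x| ≤ M ∧
      |hf K v om x| ≤ M := by
  have hn : ∀ x ∈ Icc ((-1 / 2, -1 / 2) : ℝ × ℝ) (1 / 2, 1 / 2), x ∉ Disc r → x ∉ Lat := by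
    intro x hx hxd
    refine imas_lat hx ?_
    rintro rfl
    exact hxd (imas_zero_disc hr)
  have hc1 : ∀ x, x ∉ Lat → ContDiffAt ℝ ((1 : ℕ) + 1) (hf K v om) x := fun x hx =>
    (imas_h_cd hG hv h hx).of_le (by decide)
  obtain ⟨M1, h1, h1'⟩ := imas_bd_off (f := D1 (hf K v om)) (r := r)
    (fun x hx hxd => (contDiffAt_D1 (hc1 x (hn x hx hxd))).continuousAt)
  obtain ⟨M2, h2, h2'⟩ := imas_bd_off (f := D2 (hf K v om)) (r := r)
    (fun x hx hxd => (contDiffAt_D2 (hc1 x (hn x hx hxd))).continuousAt)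
  obtain ⟨M3, h3, h3'⟩ := imas_bd_off (f := hf K v om) (r := r)
    (fun x hx hxd => (hc1 x (hn x hx hxd)).continuousAt)
  refine ⟨M1 + M2 + M3, by positivity, fun x hx => ⟨?_, ?_, ?_⟩⟩
  · linarith [h1' x hx]
  · linarith [h2' x hx]
  · linarith [h3' x hx]

private lemma imas_SX {X1 X2 : ℝ × ℝ → ℝ} {C : ℝ} {x : ℝ × ℝ} (a b : ℝ) (h1 : |D1 X1 x| ≤ C)
    (h2 : |D2 X1 x| ≤ C) (h3 : |D1 X2 x| ≤ C) (h4 : |D2 X2 x| ≤ C) :
    |SX X1 X2 a b x| ≤ 3 * C * (a ^ 2 + b ^ 2) := by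
  have hC : 0 ≤ C := (abs_nonneg _).trans h1
  have e1 : |D1 X1 x * a ^ 2| ≤ C * a ^ 2 := by
    rw [abs_mul, abs_of_nonneg (sq_nonneg a)]
    exact mul_le_mul_of_nonneg_right h1 (sq_nonneg a)
  have e2 : |D2 X2 x * b ^ 2| ≤ C * b ^ 2 := by
    rw [abs_mul, abs_of_nonneg (sq_nonneg b)]
    exact mul_le_mul_of_nonneg_right h4 (sq_nonneg b)
  have hab : |a * b| ≤ (a ^ 2 + b ^ 2) / 2 := by
    rw [abs_le]
    constructor <;> nlinarith [sq_nonneg (a + b), sq_nonneg (a - b)]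
  have e3 : |(D2 X1 x + D1 X2 x) * (a * b)| ≤ 2 * C * ((a ^ 2 + b ^ 2) / 2) := by
    rw [abs_mul]
    refine mul_le_mul ?_ hab (abs_nonneg _) (by positivity)
    have := abs_add_le (D2 X1 x) (D1 X2 x)
    linarith
  have e4 : |(D1 X1 x + D2 X2 x) / 2 * (a ^ 2 + b ^ 2)| ≤ C * (a ^ 2 + b ^ 2) := by
    rw [abs_mul, abs_of_nonneg (show 0 ≤ a ^ 2 + b ^ 2 by positivity)]
    refine mul_le_mul_of_nonneg_right ?_ (by positivity)
    rw [abs_div, abs_of_pos (show (0 : ℝ) < 2 by norm_num)]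
    have := abs_add_le (D1 X1 x) (D2 X2 x)
    linarith
  unfold SX
  rw [abs_le] at e1 e2 e3 e4 ⊢
  constructor <;> nlinarith [e1.1, e1.2, e2.1, e2.2, e3.1, e3.2, e4.1, e4.2]

/-- the stress term -/
private lemma imas_I1 {K R : ℝ × ℝ → ℝ} (hG : IsGreen K R) {Cb : ℝ} {N : ℕ}
    {v mu om : ℝ × ℝ → ℝ} (hv : IsComp K Cb N v) (h : IsSol K N mu om) {r : ℝ} (hr : 0 < r)
    (hr4 : r ≤ 1 / 4) {X1 X2 : ℝ × ℝ → ℝ} {C : ℝ} (hC : ∀ x, |D1 X1 x| ≤ C ∧ |D2 X1 x| ≤ C ∧ |D1 X2 x| ≤ C ∧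
      |D2 X2 x| ≤ C)
    (hD : ∀ x, nrm x < r → D1 X1 x = 1 ∧ D2 X1 x = 0 ∧ D1 X2 x = 0 ∧ D2 X2 x = 1) :
    TI (fun x => SX X1 X2 (D1 (hf K v om) x) (D2 (hf K v om) x) x) ≤
      3 * C * ∫ x in Q \ Disc r, (D1 (hf K v om) x ^ 2 + D2 (hf K v om) x ^ 2) := by
  obtain ⟨M, hM0, hM⟩ := imas_h_off hG hv h hr
  have hC0 : 0 ≤ C := (abs_nonneg _).trans (hC 0).1
  have hms : MeasurableSet (Q \ Disc r) := imas_Q_meas.diff (imas_disc_meas r)
  have m1 := (imas_meas_D (hf K v om)).1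
  have m2 := (imas_meas_D (hf K v om)).2
  have mS : Measurable (fun x => SX X1 X2 (D1 (hf K v om) x) (D2 (hf K v om) x) x) := by
    unfold SX
    have a1 := (imas_meas_D X1).1
    have a2 := (imas_meas_D X1).2
    have a3 := (imas_meas_D X2).1
    have a4 := (imas_meas_D X2).2
    exact (((a1.mul (m1.pow_const 2)).add ((a2.add a3).mul (m1.mul m2))).add
      (a4.mul (m2.pow_const 2))).sub (((a1.add a4).div_const 2).mul
        ((m1.pow_const 2).add (m2.pow_const 2)))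
  have hz : ∀ x ∈ Disc r, SX X1 X2 (D1 (hf K v om) x) (D2 (hf K v om) x) x = 0 := by
    intro x hx
    obtain ⟨d1, d2, d3, d4⟩ := hD x hx
    unfold SX
    rw [d1, d2, d3, d4]
    ring
  have hb : ∀ x ∈ Q \ Disc r, |SX X1 X2 (D1 (hf K v om) x) (D2 (hf K v om) x) x| ≤
      3 * C * (D1 (hf K v om) x ^ 2 + D2 (hf K v om) x ^ 2) := fun x _ =>
    imas_SX _ _ (hC x).1 (hC x).2.1 (hC x).2.2.1 (hC x).2.2.2
  have hsq : ∀ x ∈ Q \ Disc r, D1 (hf K v om) x ^ 2 + D2 (hf K v om) x ^ 2 ≤ 2 * M ^ 2 := by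
    intro x hx
    obtain ⟨b1, b2, _⟩ := hM x hx
    have c1 := sq_le_sq' (abs_le.1 b1).1 (abs_le.1 b1).2
    have c2 := sq_le_sq' (abs_le.1 b2).1 (abs_le.1 b2).2
    linarith
  have iS : IntegrableOn (fun x => SX X1 X2 (D1 (hf K v om) x) (D2 (hf K v om) x) x) Q := by
    refine imas_intb imas_Q_meas subset_rfl mS (M := 3 * C * (2 * M ^ 2)) (fun x hx _ => ?_)
    by_cases hxd : x ∈ Disc r
    · rw [hz x hxd, abs_zero]
      positivity
    · exact (hb x ⟨hx, hxd⟩).trans (mul_le_mul_of_nonneg_left (hsq x ⟨hx, hxd⟩) (by positivity))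
  have iD : IntegrableOn (fun x => D1 (hf K v om) x ^ 2 + D2 (hf K v om) x ^ 2) (Q \ Disc r) := by
    refine imas_intb hms sdiff_subset ((m1.pow_const 2).add (m2.pow_const 2))
      (M := 2 * M ^ 2) (fun x hx _ => ?_)
    rw [abs_of_nonneg (by positivity)]
    exact hsq x hx
  rw [imas_split hr4 iS, setIntegral_congr_fun (imas_disc_meas r) hz, ← integral_const_mul]
  simp only [integral_zero, zero_add]
  exact imas_le hms (iS.mono_set sdiff_subset) (iD.const_mul _)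
    (fun x hx _ => (le_abs_self _).trans (hb x hx))

/-- the field of the comparator -/
private lemma imas_field {K R : ℝ × ℝ → ℝ} (hG : IsGreen K R) {Cb : ℝ} (hCb : 0 < Cb) {N : ℕ}
    (hN : 3 ≤ N) {v : ℝ × ℝ → ℝ} (hv : IsComp K Cb N v) {X1 X2 c : ℝ × ℝ → ℝ}
    (hX : ∀ x ∈ Q, X1 x = c x * x.1 ∧ X2 x = c x * x.2) (hc : ∀ x, 0 ≤ c x ∧ c x ≤ 1) :
    ∃ M : ℝ, 0 ≤ M ∧ (∀ x ∈ Q, |psif R N v x| ≤ M) ∧ ∀ x ∈ Q, x ≠ 0 →
      X1 x * D1 (om0 K v) x + X2 x * D2 (om0 K v) x =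
        c x * (2 - lam N / 2 * nsq x + psif R N v x) ∧
      0 ≤ X1 x * D1 (om0 K v) x + X2 x * D2 (om0 K v) x ∧
      |X1 x * D1 (om0 K v) x + X2 x * D2 (om0 K v) x| ≤ M := by
  obtain ⟨_, _, hpsi, _, _, _, hgr, _⟩ := psi_eqs hG hv
  have hbox : Icc ((-1 / 2, -1 / 2) : ℝ × ℝ) (1 / 2, 1 / 2) ⊆ Box 1 := by
    intro x hx
    obtain ⟨⟨h1, h2⟩, ⟨h3, h4⟩⟩ := hx
    simp only at h1 h2 h3 h4
    constructor
    · rw [abs_lt]; constructor <;> linarith
    · rw [abs_lt]; constructor <;> linarith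
  have hcont : ContinuousOn (psif R N v) (Icc ((-1 / 2, -1 / 2) : ℝ × ℝ) (1 / 2, 1 / 2)) :=
    hpsi.continuousOn.mono hbox
  obtain ⟨M1, hM1⟩ := isCompact_Icc.exists_bound_of_continuousOn hcont
  have hcont2 : ContinuousOn (fun x => 2 - lam N / 2 * nsq x + psif R N v x)
      (Icc ((-1 / 2, -1 / 2) : ℝ × ℝ) (1 / 2, 1 / 2)) :=
    ((continuous_const.sub (continuous_const.mul imas_nsq_cont)).continuousOn).add hcont
  obtain ⟨M2, hM2⟩ := isCompact_Icc.exists_bound_of_continuousOn hcont2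
  refine ⟨max (max M1 M2) 0, le_max_right _ _, fun x hx => ?_, fun x hx h0 => ?_⟩
  · exact (hM1 x (imas_Q_sub hx)).trans ((le_max_left _ _).trans (le_max_left _ _))
  · obtain ⟨e1, e2⟩ := hX x hx
    have e3 := hgr x (hbox (imas_Q_sub hx)) h0
    obtain ⟨p1, p2⟩ := comp_mono hG hCb hN hv x hx h0
    have e4 : X1 x * D1 (om0 K v) x + X2 x * D2 (om0 K v) x =
        c x * (x.1 * D1 (om0 K v) x + x.2 * D2 (om0 K v) x) := by
      rw [e1, e2]; ring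
    refine ⟨by rw [e4, e3], ?_, ?_⟩
    · rw [e4]
      exact mul_nonneg (hc x).1 (by linarith)
    · rw [e4, e3, abs_mul, abs_of_nonneg (hc x).1]
      have h5 := (hM2 x (imas_Q_sub hx)).trans
        ((le_max_right M1 M2).trans (le_max_left (max M1 M2) 0))
      rw [Real.norm_eq_abs] at h5
      calc c x * |2 - lam N / 2 * nsq x + psif R N v x| ≤
          1 * |2 - lam N / 2 * nsq x + psif R N v x| :=
            mul_le_mul_of_nonneg_right (hc x).2 (abs_nonneg _)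
        _ ≤ _ := by rw [one_mul]; exact h5

private lemma imas_psif_meas (R : ℝ × ℝ → ℝ) (N : ℕ) (v : ℝ × ℝ → ℝ) :
    Measurable (psif R N v) := by
  unfold psif
  exact (measurable_fst.mul (imas_meas_D _).1).add (measurable_snd.mul (imas_meas_D _).2)

private lemma imas_om0_meas {K R : ℝ × ℝ → ℝ} (hG : IsGreen K R) {Cb : ℝ} {N : ℕ}
    {v : ℝ × ℝ → ℝ} (hv : IsComp K Cb N v) : Measurable (om0 K v) := by
  unfold om0
  exact (Real.measurable_log.comp hG.smoothK.continuous.measurable).add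
    hv.smooth.continuous.measurable

private lemma imas_rem_meas {K R : ℝ × ℝ → ℝ} (hG : IsGreen K R) {Cb : ℝ} {N : ℕ}
    {v mu om : ℝ × ℝ → ℝ} (hv : IsComp K Cb N v) (h : IsSol K N mu om) :
    Measurable (rem K v om) := by
  have m0 := imas_om0_meas hG hv
  have m1 := h.som.continuous.measurable
  unfold rem
  exact ((Real.measurable_exp.comp m1).sub (Real.measurable_exp.comp m0)).sub
    ((Real.measurable_exp.comp m0).mul (m1.sub m0))

/-- bounds for the remainder -/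
private lemma imas_rem {K R : ℝ × ℝ → ℝ} (hG : IsGreen K R) {Cb : ℝ} (hCb : 0 < Cb) {N : ℕ}
    (hN : 3 ≤ N) {v mu om : ℝ × ℝ → ℝ} (hv : IsComp K Cb N v) (h : IsSol K N mu om) :
    ∃ M : ℝ, 0 ≤ M ∧ ∀ x ∈ Q, x ≠ 0 → 0 ≤ rem K v om x ∧ rem K v om x ≤ M ∧
      rem K v om x ≤ hf K v om x ^ 2 / 2 := by
  have hom := sol_nonpos (by omega) h
  obtain ⟨C, _, hC⟩ := comp_bounds hG hCb
  obtain ⟨h0, _, _⟩ := hC N v hN hv
  obtain ⟨Mo, hMo⟩ := isCompact_Icc.exists_bound_of_continuousOn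
    (s := Icc ((-1 / 2, -1 / 2) : ℝ × ℝ) (1 / 2, 1 / 2)) h.som.continuous.continuousOn
  refine ⟨1 + max Mo 0, by positivity, fun x hx hx0 => ?_⟩
  have hlat := imas_lat (imas_Q_sub hx) hx0
  have a1 := hom x
  have a2 := h0 x hlat
  obtain ⟨b1, b2, _, _⟩ := rem_bounds a1 a2
  refine ⟨b1, ?_, b2⟩
  unfold rem
  have c1 : Real.exp (om x) ≤ 1 := Real.exp_le_one_iff.2 a1
  have c2 : Real.exp (om0 K v x) ≤ 1 := Real.exp_le_one_iff.2 a2
  have c3 := Real.exp_pos (om0 K v x)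
  have c4 : |om x| ≤ Mo := hMo x (imas_Q_sub hx)
  have c5 : -om x ≤ max Mo 0 := (neg_le_abs _).trans (c4.trans (le_max_left _ _))
  have c6 : Real.exp (om0 K v x) * om0 K v x ≤ 0 :=
    mul_nonpos_of_nonneg_of_nonpos c3.le a2
  have c7 : Real.exp (om0 K v x) * (-om x) ≤ max Mo 0 := by
    calc Real.exp (om0 K v x) * (-om x) ≤ 1 * (-om x) :=
          mul_le_mul_of_nonneg_right c2 (by linarith)
      _ ≤ _ := by rw [one_mul]; exact c5
  nlinarith [c1, c3, c6, c7]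

/-- the remainder term -/
private lemma imas_I2 {K R : ℝ × ℝ → ℝ} (hG : IsGreen K R) {Cb : ℝ} (hCb : 0 < Cb) {N : ℕ}
    (hN : 3 ≤ N) {v mu om : ℝ × ℝ → ℝ} (hv : IsComp K Cb N v) (h : IsSol K N mu om)
    {r : ℝ} (hr : 0 < r)
    (hr4 : r ≤ 1 / 4) {X1 X2 c : ℝ × ℝ → ℝ} {C : ℝ} (hX1 : Continuous X1)
    (hX2 : Continuous X2) (hC : ∀ x, |D1 X1 x| ≤ C ∧ |D2 X1 x| ≤ C ∧ |D1 X2 x| ≤ C ∧
      |D2 X2 x| ≤ C)
    (hX : ∀ x ∈ Q, X1 x = c x * x.1 ∧ X2 x = c x * x.2) (hc : ∀ x, 0 ≤ c x ∧ c x ≤ 1)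
    (hD : ∀ x, nrm x < r → D1 X1 x = 1 ∧ D2 X1 x = 0 ∧ D1 X2 x = 0 ∧ D2 X2 x = 1) :
    2 * (∫ x in Disc r, rem K v om x) - C * (∫ x in Q \ Disc r, hf K v om x ^ 2) ≤
      TI (fun x => (D1 X1 x + D2 X2 x + (X1 x * D1 (om0 K v) x + X2 x * D2 (om0 K v) x))
        * rem K v om x) := by
  obtain ⟨Mf, hMf0, _, hMf⟩ := imas_field hG hCb hN hv hX hc
  obtain ⟨Mr, hMr0, hMr⟩ := imas_rem hG hCb hN hv h
  obtain ⟨M, hM0, hM⟩ := imas_h_off hG hv h hr
  have hC0 : 0 ≤ C := (abs_nonneg _).trans (hC 0).1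
  have hms : MeasurableSet (Q \ Disc r) := imas_Q_meas.diff (imas_disc_meas r)
  have mr := imas_rem_meas hG hv h
  have mF : Measurable (fun x => (D1 X1 x + D2 X2 x +
      (X1 x * D1 (om0 K v) x + X2 x * D2 (om0 K v) x)) * rem K v om x) := by
    have a1 := (imas_meas_D X1).1
    have a4 := (imas_meas_D X2).2
    have b1 := (imas_meas_D (om0 K v)).1
    have b2 := (imas_meas_D (om0 K v)).2
    exact ((a1.add a4).add ((hX1.measurable.mul b1).add (hX2.measurable.mul b2))).mul mr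
  have hdiv : ∀ x, |D1 X1 x + D2 X2 x| ≤ 2 * C := by
    intro x
    have := abs_add_le (D1 X1 x) (D2 X2 x)
    linarith [(hC x).1, (hC x).2.2.2]
  have iF : IntegrableOn (fun x => (D1 X1 x + D2 X2 x +
      (X1 x * D1 (om0 K v) x + X2 x * D2 (om0 K v) x)) * rem K v om x) Q := by
    refine imas_intb imas_Q_meas subset_rfl mF (M := (2 * C + Mf) * Mr) (fun x hx h0 => ?_)
    obtain ⟨_, _, f3⟩ := hMf x hx h0
    obtain ⟨r1, r2, _⟩ := hMr x hx h0
    rw [abs_mul, abs_of_nonneg r1]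
    refine mul_le_mul ?_ r2 r1 (by positivity)
    exact (abs_add_le _ _).trans (add_le_add (hdiv x) f3)
  have ir : IntegrableOn (rem K v om) (Disc r) := by
    refine imas_intb (imas_disc_meas r) (imas_disc_Q hr4) mr (M := Mr) (fun x hx h0 => ?_)
    obtain ⟨r1, r2, _⟩ := hMr x (imas_disc_Q hr4 hx) h0
    rw [abs_of_nonneg r1]
    exact r2
  have ih : IntegrableOn (fun x => hf K v om x ^ 2) (Q \ Disc r) := by
    have mh : Measurable (hf K v om) := h.som.continuous.measurable.sub (imas_om0_meas hG hv)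
    refine imas_intb hms sdiff_subset (mh.pow_const 2) (M := M ^ 2) (fun x hx _ => ?_)
    rw [abs_of_nonneg (sq_nonneg _)]
    exact sq_le_sq' (abs_le.1 (hM x hx).2.2).1 (abs_le.1 (hM x hx).2.2).2
  rw [imas_split hr4 iF]
  have j1 : 2 * (∫ x in Disc r, rem K v om x) ≤ ∫ x in Disc r, (D1 X1 x + D2 X2 x +
      (X1 x * D1 (om0 K v) x + X2 x * D2 (om0 K v) x)) * rem K v om x := by
    rw [← integral_const_mul]
    refine imas_le (imas_disc_meas r) (ir.const_mul 2) (iF.mono_set (imas_disc_Q hr4))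
      (fun x hx h0 => ?_)
    obtain ⟨d1, _, _, d4⟩ := hD x hx
    obtain ⟨_, f2, _⟩ := hMf x (imas_disc_Q hr4 hx) h0
    obtain ⟨r1, _, _⟩ := hMr x (imas_disc_Q hr4 hx) h0
    rw [d1, d4]
    nlinarith [mul_nonneg f2 r1]
  have j2 : -(C * (∫ x in Q \ Disc r, hf K v om x ^ 2)) ≤ ∫ x in Q \ Disc r,
      (D1 X1 x + D2 X2 x + (X1 x * D1 (om0 K v) x + X2 x * D2 (om0 K v) x)) *
        rem K v om x := by
    rw [← integral_const_mul, ← integral_neg]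
    refine imas_le hms (ih.const_mul C).neg (iF.mono_set sdiff_subset) (fun x hx h0 => ?_)
    obtain ⟨_, f2, _⟩ := hMf x hx.1 h0
    obtain ⟨r1, _, r3⟩ := hMr x hx.1 h0
    have d1 := (abs_le.1 (hdiv x)).1
    have e1 := mul_nonneg f2 r1
    have e2 := mul_nonneg (show 0 ≤ D1 X1 x + D2 X2 x + 2 * C by linarith) r1
    have e3 := mul_le_mul_of_nonneg_left r3 hC0
    nlinarith [e1, e2, e3]
  linarith

private lemma imas_I3 {K R : ℝ × ℝ → ℝ} (hG : IsGreen K R) {Cb : ℝ} (hCb : 0 < Cb) {N : ℕ}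
    (hN : 3 ≤ N) {v mu om : ℝ × ℝ → ℝ} (hv : IsComp K Cb N v) (h : IsSol K N mu om)
    {X1 X2 c : ℝ × ℝ → ℝ} (hX1 : Continuous X1) (hX2 : Continuous X2)
    (hX : ∀ x ∈ Q, X1 x = c x * x.1 ∧ X2 x = c x * x.2) (hc : ∀ x, 0 ≤ c x ∧ c x ≤ 1) :
    IntegrableOn (fun x => mu x * (X1 x * D1 (om0 K v) x + X2 x * D2 (om0 K v) x)) Q ∧
    TI (fun x => mu x * (X1 x * D1 (hf K v om) x + X2 x * D2 (hf K v om) x)) =
      TI (fun x => mu x * (X1 x * D1 om x + X2 x * D2 om x)) -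
        TI (fun x => mu x * (X1 x * D1 (om0 K v) x + X2 x * D2 (om0 K v) x)) := by
  obtain ⟨Mf, hMf0, _, hMf⟩ := imas_field hG hCb hN hv hX hc
  obtain ⟨Mm, hMm⟩ := isCompact_Icc.exists_bound_of_continuousOn
    (s := Icc ((-1 / 2, -1 / 2) : ℝ × ℝ) (1 / 2, 1 / 2)) h.smu.continuous.continuousOn
  have mF : Measurable (fun x => mu x * (X1 x * D1 (om0 K v) x + X2 x * D2 (om0 K v) x)) := by
    have b1 := (imas_meas_D (om0 K v)).1
    have b2 := (imas_meas_D (om0 K v)).2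
    exact h.smu.continuous.measurable.mul ((hX1.measurable.mul b1).add (hX2.measurable.mul b2))
  have i0 : IntegrableOn (fun x => mu x * (X1 x * D1 (om0 K v) x + X2 x * D2 (om0 K v) x)) Q := by
    refine imas_intb imas_Q_meas subset_rfl mF (M := max Mm 0 * Mf) (fun x hx h0 => ?_)
    obtain ⟨_, _, f3⟩ := hMf x hx h0
    rw [abs_mul]
    exact mul_le_mul ((hMm x (imas_Q_sub hx)).trans (le_max_left _ _)) f3 (abs_nonneg _)
      (le_max_right _ _)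
  have som1 : ContDiff ℝ 1 om := h.som.of_le (by simp)
  have i1 : IntegrableOn (fun x => mu x * (X1 x * D1 om x + X2 x * D2 om x)) Q :=
    imas_int_Q (h.smu.continuous.mul ((hX1.mul (continuous_D1 som1)).add
      (hX2.mul (continuous_D2 som1))))
  refine ⟨i0, ?_⟩
  unfold TI
  rw [← integral_sub i1 i0]
  refine integral_congr_ae (imas_ae0 imas_Q_meas (fun x hx h0 => ?_))
  obtain ⟨d1, d2⟩ := imas_dh hG hv h (imas_lat (imas_Q_sub hx) h0)
  simp only [d1, d2]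
  ring

private lemma imas_I4 {K R : ℝ × ℝ → ℝ} (hG : IsGreen K R) {Cb : ℝ} (hCb : 0 < Cb) {N : ℕ}
    (hN : 3 ≤ N) {v mu om : ℝ × ℝ → ℝ} (hv : IsComp K Cb N v) (h : IsSol K N mu om)
    {r : ℝ} (hr : 0 < r) (hr4 : r ≤ 1 / 4)
    {X1 X2 c : ℝ × ℝ → ℝ} (hX1 : Continuous X1) (hX2 : Continuous X2)
    (hX : ∀ x ∈ Q, X1 x = c x * x.1 ∧ X2 x = c x * x.2) (hc : ∀ x, 0 ≤ c x ∧ c x ≤ 1)
    (hc1 : ∀ x, nrm x < r → c x = 1) :
    2 * (∫ x in Disc r, mu x) - lam N / 2 * (∫ x in Disc r, nsq x * mu x) +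
      (∫ x in Disc r, psif R N v x * mu x) ≤
      TI (fun x => mu x * (X1 x * D1 (om0 K v) x + X2 x * D2 (om0 K v) x)) := by
  obtain ⟨Mf, hMf0, hMp, hMf⟩ := imas_field hG hCb hN hv hX hc
  obtain ⟨Mm, hMm⟩ := isCompact_Icc.exists_bound_of_continuousOn
    (s := Icc ((-1 / 2, -1 / 2) : ℝ × ℝ) (1 / 2, 1 / 2)) h.smu.continuous.continuousOn
  obtain ⟨i0, _⟩ := imas_I3 hG hCb hN hv h hX1 hX2 hX hc
  have hms : MeasurableSet (Q \ Disc r) := imas_Q_meas.diff (imas_disc_meas r)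
  have im : IntegrableOn mu (Disc r) := imas_int_disc h.smu.continuous r
  have is2 : IntegrableOn (fun x => nsq x * mu x) (Disc r) :=
    imas_int_disc (imas_nsq_cont.mul h.smu.continuous) r
  have ip : IntegrableOn (fun x => psif R N v x * mu x) (Disc r) := by
    refine imas_intb (imas_disc_meas r) (imas_disc_Q hr4)
      ((imas_psif_meas R N v).mul h.smu.continuous.measurable) (M := Mf * max Mm 0)
      (fun x hx _ => ?_)
    rw [abs_mul]
    exact mul_le_mul (hMp x (imas_disc_Q hr4 hx))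
      ((hMm x (imas_Q_sub (imas_disc_Q hr4 hx))).trans (le_max_left _ _)) (abs_nonneg _) hMf0
  rw [imas_split hr4 i0]
  have j1 : 2 * (∫ x in Disc r, mu x) - lam N / 2 * (∫ x in Disc r, nsq x * mu x) +
      (∫ x in Disc r, psif R N v x * mu x) ≤
      ∫ x in Disc r, mu x * (X1 x * D1 (om0 K v) x + X2 x * D2 (om0 K v) x) := by
    have ia : IntegrableOn (fun x => 2 * mu x - lam N / 2 * (nsq x * mu x)) (Disc r) :=
      (im.const_mul 2).sub (is2.const_mul (lam N / 2))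
    rw [← integral_const_mul, ← integral_const_mul,
      ← integral_sub (im.const_mul 2) (is2.const_mul (lam N / 2)), ← integral_add ia ip]
    refine imas_le (imas_disc_meas r) (ia.add ip)
      (i0.mono_set (imas_disc_Q hr4)) (fun x hx h0 => ?_)
    obtain ⟨f1, _, _⟩ := hMf x (imas_disc_Q hr4 hx) h0
    rw [f1, hc1 x hx]
    nlinarith
  have j2 : 0 ≤ ∫ x in Q \ Disc r, mu x * (X1 x * D1 (om0 K v) x + X2 x * D2 (om0 K v) x) := by
    refine integral_nonneg_of_ae (imas_ae0 hms (fun x hx h0 => ?_))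
    exact mul_nonneg (h.nn x) (hMf x hx.1 h0).2.1
  linarith

private lemma imas_I5 {mu : ℝ × ℝ → ℝ} (hmu : Continuous mu) (nn : ∀ x, 0 ≤ mu x)
    {r : ℝ} (hr4 : r ≤ 1 / 4) {X1 X2 : ℝ × ℝ → ℝ} {C : ℝ} (hX1 : ContDiff ℝ 1 X1)
    (hX2 : ContDiff ℝ 1 X2) (hC : ∀ x, |D1 X1 x| ≤ C ∧ |D2 X1 x| ≤ C ∧ |D1 X2 x| ≤ C ∧
      |D2 X2 x| ≤ C)
    (hD : ∀ x, nrm x < r → D1 X1 x = 1 ∧ D2 X1 x = 0 ∧ D1 X2 x = 0 ∧ D2 X2 x = 1) :
    TI (fun x => mu x * (D1 X1 x + D2 X2 x)) ≤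
      2 * (∫ x in Disc r, mu x) + 2 * C * ∫ x in Q \ Disc r, mu x := by
  have hms : MeasurableSet (Q \ Disc r) := imas_Q_meas.diff (imas_disc_meas r)
  have i0 : IntegrableOn (fun x => mu x * (D1 X1 x + D2 X2 x)) Q :=
    imas_int_Q (hmu.mul ((continuous_D1 hX1).add (continuous_D2 hX2)))
  rw [imas_split hr4 i0, ← integral_const_mul, ← integral_const_mul]
  refine add_le_add ?_ ?_
  · refine imas_le (imas_disc_meas r) (i0.mono_set (imas_disc_Q hr4))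
      ((imas_int_disc hmu r).const_mul 2) (fun x hx _ => ?_)
    obtain ⟨d1, _, _, d4⟩ := hD x hx
    rw [d1, d4]
    linarith
  · refine imas_le hms (i0.mono_set sdiff_subset)
      (((imas_int_Q hmu).mono_set sdiff_subset).const_mul _) (fun x _ _ => ?_)
    have h1 := (le_abs_self _).trans (hC x).1
    have h2 := (le_abs_self _).trans (hC x).2.2.2
    have h3 := mul_le_mul_of_nonneg_left (show D1 X1 x + D2 X2 x ≤ 2 * C by linarith) (nn x)
    linarith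

private lemma imas_pt {x : ℝ × ℝ} (hx : x ∈ Q) (h : x - pt ∈ Lat) : 1 / 2 ≤ nrm x := by
  obtain ⟨m, n, hmn⟩ := h
  obtain ⟨h1, _⟩ := hx
  have h3 : x.1 - 1 / 2 = m := by
    have := congrArg Prod.fst hmn
    simpa [pt] using this
  have h4 : x.1 = 1 / 2 := by
    have a1 : (-1 : ℝ) < m := by rw [← h3]; linarith [h1.1]
    have a2 : (m : ℝ) < 1 := by rw [← h3]; linarith [h1.2]
    have b1 : (-1 : ℤ) < m := by exact_mod_cast a1
    have b2 : m < (1 : ℤ) := by exact_mod_cast a2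
    have b3 : m = 0 := by omega
    rw [b3] at h3
    push_cast at h3
    linarith
  have h5 := (imas_abs_le x).1
  rw [h4] at h5
  have h6 : |(1 / 2 : ℝ)| = 1 / 2 := abs_of_pos (by norm_num)
  linarith

private lemma imas_tn : (1 : ℝ) / 4 ≤ tn (0 - pt) := by
  have hr : round (-(1 / 2) : ℝ) = 0 := by
    rw [round_eq]
    norm_num
  unfold tn
  have e1 : ((0 : ℝ × ℝ) - pt).1 = -(1 / 2) := by simp [pt]
  have e2 : ((0 : ℝ × ℝ) - pt).2 = -(1 / 2) := by simp [pt]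
  rw [e1, e2, hr]
  have h := (imas_abs_le ((-(1 / 2) : ℝ) - ((0 : ℤ) : ℝ), (-(1 / 2) : ℝ) - ((0 : ℤ) : ℝ))).1
  simp only [Int.cast_zero, sub_zero] at h ⊢
  have h6 : |(-(1 / 2) : ℝ)| = 1 / 2 := by rw [abs_neg]; exact abs_of_pos (by norm_num)
  rw [h6] at h
  linarith

private lemma imas_I6 {K R : ℝ × ℝ → ℝ} (hG : IsGreen K R) {CU : ℝ}
    (hU : ∀ x, nrm x ≤ 1 / 4 →
      |x.1 * D1 (Uz K 0) x + x.2 * D2 (Uz K 0) x + 2 * π * nsq x| ≤ CU * nsq x ^ 2)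
    {mu : ℝ × ℝ → ℝ} (hmu : Continuous mu) (nn : ∀ x, 0 ≤ mu x)
    {r : ℝ} (hr : 0 < r) (hr16 : r ≤ 1 / 16)
    {X1 X2 c : ℝ × ℝ → ℝ} (hX1 : Continuous X1) (hX2 : Continuous X2)
    (hX : ∀ x ∈ Q, X1 x = c x * x.1 ∧ X2 x = c x * x.2) (hc : ∀ x, 0 ≤ c x ∧ c x ≤ 1)
    (hc1 : ∀ x, nrm x < r → c x = 1) (hc0 : ∀ x, 2 * r ≤ nrm x → c x = 0) :
    TI (fun x => mu x * (X1 x * D1 (Uz K 0) x + X2 x * D2 (Uz K 0) x)) ≤
      -(2 * π) * (∫ x in Disc r, nsq x * mu x) + CU * ∫ x in Disc r, nsq x ^ 2 * mu x := by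
  have hms : MeasurableSet (Q \ Disc r) := imas_Q_meas.diff (imas_disc_meas r)
  have hr4 : r ≤ 1 / 4 := by linarith
  obtain ⟨CT, hCT0, hCT⟩ := U_taylor hG (r := 1 / 4) (by norm_num)
  obtain ⟨hCT1, _⟩ := hCT 0 imas_tn
  obtain ⟨Mm, hMm⟩ := isCompact_Icc.exists_bound_of_continuousOn
    (s := Icc ((-1 / 2, -1 / 2) : ℝ × ℝ) (1 / 2, 1 / 2)) hmu.continuousOn
  obtain ⟨hUs, _⟩ := U_sign hG
  have mU : Measurable (fun x => mu x * (X1 x * D1 (Uz K 0) x + X2 x * D2 (Uz K 0) x)) := by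
    have b1 := (imas_meas_D (Uz K 0)).1
    have b2 := (imas_meas_D (Uz K 0)).2
    exact hmu.measurable.mul ((hX1.measurable.mul b1).add (hX2.measurable.mul b2))
  have eX : ∀ x ∈ Q, X1 x * D1 (Uz K 0) x + X2 x * D2 (Uz K 0) x =
      c x * (x.1 * D1 (Uz K 0) x + x.2 * D2 (Uz K 0) x) := by
    intro x hx
    obtain ⟨e1, e2⟩ := hX x hx
    rw [e1, e2]
    ring
  have iU : IntegrableOn (fun x => mu x * (X1 x * D1 (Uz K 0) x + X2 x * D2 (Uz K 0) x)) Q := by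
    refine imas_intb imas_Q_meas subset_rfl mU (M := max Mm 0 * (2 * CT)) (fun x hx _ => ?_)
    rw [abs_mul]
    refine mul_le_mul ((hMm x (imas_Q_sub hx)).trans (le_max_left _ _)) ?_ (abs_nonneg _)
      (le_max_right _ _)
    rw [eX x hx]
    by_cases h2 : 2 * r ≤ nrm x
    · rw [hc0 x h2, zero_mul, abs_zero]
      positivity
    · push Not at h2
      obtain ⟨t1, t2⟩ := hCT1 x (by linarith)
      obtain ⟨a1, a2⟩ := imas_abs_le x
      rw [abs_mul, abs_of_nonneg (hc x).1]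
      have k1 : |x.1 * D1 (Uz K 0) x| ≤ 1 * CT := by
        rw [abs_mul]
        exact mul_le_mul (by linarith) t1 (abs_nonneg _) (by norm_num)
      have k2 : |x.2 * D2 (Uz K 0) x| ≤ 1 * CT := by
        rw [abs_mul]
        exact mul_le_mul (by linarith) t2 (abs_nonneg _) (by norm_num)
      calc c x * |x.1 * D1 (Uz K 0) x + x.2 * D2 (Uz K 0) x| ≤
          1 * |x.1 * D1 (Uz K 0) x + x.2 * D2 (Uz K 0) x| :=
            mul_le_mul_of_nonneg_right (hc x).2 (abs_nonneg _)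
        _ ≤ 2 * CT := by
            have := abs_add_le (x.1 * D1 (Uz K 0) x) (x.2 * D2 (Uz K 0) x)
            linarith
  have is2 : IntegrableOn (fun x => nsq x * mu x) (Disc r) :=
    imas_int_disc (imas_nsq_cont.mul hmu) r
  have is4 : IntegrableOn (fun x => nsq x ^ 2 * mu x) (Disc r) :=
    imas_int_disc ((imas_nsq_cont.pow 2).mul hmu) r
  rw [imas_split hr4 iU]
  have j1 : ∫ x in Disc r, mu x * (X1 x * D1 (Uz K 0) x + X2 x * D2 (Uz K 0) x) ≤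
      -(2 * π) * (∫ x in Disc r, nsq x * mu x) + CU * ∫ x in Disc r, nsq x ^ 2 * mu x := by
    rw [← integral_const_mul, ← integral_const_mul,
      ← integral_add (is2.const_mul _) (is4.const_mul _)]
    refine imas_le (imas_disc_meas r) (iU.mono_set (imas_disc_Q hr4))
      ((is2.const_mul _).add (is4.const_mul _)) (fun x hx _ => ?_)
    have hx' : nrm x < r := hx
    rw [eX x (imas_disc_Q hr4 hx), hc1 x hx]
    have k := (abs_le.1 (hU x (by linarith))).2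
    have := mul_le_mul_of_nonneg_left (show x.1 * D1 (Uz K 0) x + x.2 * D2 (Uz K 0) x ≤
      CU * nsq x ^ 2 - 2 * π * nsq x by linarith) (nn x)
    nlinarith [this]
  have j2 : ∫ x in Q \ Disc r, mu x * (X1 x * D1 (Uz K 0) x + X2 x * D2 (Uz K 0) x) ≤ 0 := by
    refine integral_nonpos_of_ae (imas_ae0 hms (fun x hx _ => ?_))
    show mu x * (X1 x * D1 (Uz K 0) x + X2 x * D2 (Uz K 0) x) ≤ 0
    rw [eX x hx.1]
    by_cases hl : x - pt ∈ Lat
    · have := imas_pt hx.1 hl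
      rw [hc0 x (by linarith), zero_mul, mul_zero]
    · obtain ⟨u1, u2⟩ := hUs x hx.1 hl
      exact mul_nonpos_of_nonneg_of_nonpos (nn x)
        (mul_nonpos_of_nonneg_of_nonpos (hc x).1 (by linarith))
  linarith

/-- L7.4: the master inequality -/
theorem master {K R : ℝ × ℝ → ℝ} (hG : IsGreen K R) {Cb : ℝ} (hCb : 0 < Cb) :
    ∃ CE : ℝ, 0 < CE ∧ ∀ r2 : ℝ, 0 < r2 → r2 ≤ 1 / 16 → ∃ C : ℝ, 0 < C ∧
      ∀ (N : ℕ) (v mu om : ℝ × ℝ → ℝ), 3 ≤ N → IsComp K Cb N v → IsSol K N mu om →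
        2 * lam N * (∫ x in Disc r2, rem K v om x) +
          4 * π * (∫ x in Disc r2, psif R N v x * mu x) ≤
        CE * N * (∫ x in Disc r2, nsq x ^ 2 * mu x) + C * (∫ x in Q \ Disc r2, mu x) +
          C * ∫ x in Q \ Disc r2, (D1 (hf K v om) x ^ 2 + D2 (hf K v om) x ^ 2 +
            lam N * hf K v om x ^ 2) := by
  obtain ⟨C0, hC0, hpm⟩ := pair_master hG
  obtain ⟨CU, hCU, hUl⟩ := U_lower hG
  refine ⟨4 * π * (C0 + CU), by positivity, fun r hr hr16 => ?_⟩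
  obtain ⟨Cp, hCp, hpm⟩ := hpm r hr hr16
  have hr4 : r ≤ 1 / 4 := by linarith
  set X1 : ℝ × ℝ → ℝ := Xr r (fun x => x.1) with hX1d
  set X2 : ℝ × ℝ → ℝ := Xr r (fun x => x.2) with hX2d
  obtain ⟨s1, p1, q1, n1, d1, c1, _, cc⟩ :=
    Xr_basic hr (by linarith) (f := fun x : ℝ × ℝ => x.1) contDiff_fst
  obtain ⟨s2, p2, q2, n2, d2, _, _, _⟩ :=
    Xr_basic hr (by linarith) (f := fun x : ℝ × ℝ => x.2) contDiff_snd
  rw [← hX1d] at s1 p1 q1 n1 d1
  rw [← hX2d] at s2 p2 q2 n2 d2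
  have t1 : ContDiff ℝ 1 X1 := s1.of_le (by simp)
  have t2 : ContDiff ℝ 1 X2 := s2.of_le (by simp)
  obtain ⟨Ca, hCa, _, ha, _⟩ := per_lip t1 p1
  obtain ⟨Cc, hCc, _, hb, _⟩ := per_lip t2 p2
  have hC : ∀ x, |D1 X1 x| ≤ Ca + Cc ∧ |D2 X1 x| ≤ Ca + Cc ∧ |D1 X2 x| ≤ Ca + Cc ∧
      |D2 X2 x| ≤ Ca + Cc := fun x => ⟨by linarith [(ha x).1], by linarith [(ha x).2],
        by linarith [(hb x).1], by linarith [(hb x).2]⟩
  have hX : ∀ x ∈ Q, X1 x = chi r x * x.1 ∧ X2 x = chi r x * x.2 :=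
    fun x hx => ⟨q1 x hx, q2 x hx⟩
  have hD : ∀ x, nrm x < r → D1 X1 x = 1 ∧ D2 X1 x = 0 ∧ D1 X2 x = 0 ∧ D2 X2 x = 1 := by
    intro x hx
    obtain ⟨e1, e2⟩ := d1 x hx
    obtain ⟨e3, e4⟩ := d2 x hx
    exact ⟨e1.trans (D1_fst x), e2.trans (D2_fst x), e3.trans (D1_snd x), e4.trans (D2_snd x)⟩
  have hc1 : ∀ x, nrm x < r → chi r x = 1 := fun x hx => (n1 x hx.le).1
  refine ⟨3 * (Ca + Cc) + 4 * π * (2 * (Ca + Cc) + Cp + 2), by positivity,
    fun N v mu om hN hv h => ?_⟩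
  have hmu := h.smu.continuous
  have hN1 : (1 : ℝ) ≤ N := by exact_mod_cast (by omega : 1 ≤ N)
  have hN3 : (3 : ℝ) ≤ N := by exact_mod_cast hN
  have A := ident_N hG hCb hN hv h t1 p1 t2 p2 hr
    (fun x hx => ⟨(n1 x hx.le).2, (n2 x hx.le).2⟩)
  have B := v_id hG (by omega) h t1 p1 t2 p2
  have I1 := imas_I1 hG hv h hr hr4 (X1 := X1) (X2 := X2) hC hD
  have I2 := imas_I2 hG hCb hN hv h hr hr4 t1.continuous t2.continuous hC hX cc hD
  obtain ⟨_, I3⟩ := imas_I3 hG hCb hN hv h t1.continuous t2.continuous hX cc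
  have I4 := imas_I4 hG hCb hN hv h hr hr4 t1.continuous t2.continuous hX cc hc1
  have I5 := imas_I5 hmu h.nn hr4 t1 t2 hC hD
  have I6 := imas_I6 hG (fun x hx => (hUl x hx).2) hmu h.nn hr hr16 t1.continuous
    t2.continuous hX cc hc1 c1
  have I7 := hpm mu hmu h.nn h.one
  -- the masses
  have hms : MeasurableSet (Q \ Disc r) := imas_Q_meas.diff (imas_disc_meas r)
  have hmass : (∫ x in Disc r, mu x) + ∫ x in Q \ Disc r, mu x = 1 := by
    rw [← imas_split hr4 (imas_int_Q hmu), h.one]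
  have hm0 : 0 ≤ ∫ x in Disc r, mu x := integral_nonneg h.nn
  have hmc0 : 0 ≤ ∫ x in Q \ Disc r, mu x := integral_nonneg h.nn
  have hs2 : 0 ≤ ∫ x in Disc r, nsq x * mu x :=
    integral_nonneg (fun x => mul_nonneg (imas_nsq_nonneg x) (h.nn x))
  have hs4 : 0 ≤ ∫ x in Disc r, nsq x ^ 2 * mu x :=
    integral_nonneg (fun x => mul_nonneg (sq_nonneg _) (h.nn x))
  -- the last integral
  obtain ⟨M, hM0, hM⟩ := imas_h_off hG hv h hr
  have mh : Measurable (hf K v om) := h.som.continuous.measurable.sub (imas_om0_meas hG hv)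
  have m1 := (imas_meas_D (hf K v om)).1
  have m2 := (imas_meas_D (hf K v om)).2
  have iD : IntegrableOn (fun x => D1 (hf K v om) x ^ 2 + D2 (hf K v om) x ^ 2)
      (Q \ Disc r) := by
    refine imas_intb hms sdiff_subset ((m1.pow_const 2).add (m2.pow_const 2))
      (M := 2 * M ^ 2) (fun x hx _ => ?_)
    rw [abs_of_nonneg (by positivity)]
    obtain ⟨b1, b2, _⟩ := hM x hx
    have c1 := sq_le_sq' (abs_le.1 b1).1 (abs_le.1 b1).2
    have c2 := sq_le_sq' (abs_le.1 b2).1 (abs_le.1 b2).2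
    linarith
  have ih : IntegrableOn (fun x => hf K v om x ^ 2) (Q \ Disc r) := by
    refine imas_intb hms sdiff_subset (mh.pow_const 2) (M := M ^ 2) (fun x hx _ => ?_)
    rw [abs_of_nonneg (sq_nonneg _)]
    exact sq_le_sq' (abs_le.1 (hM x hx).2.2).1 (abs_le.1 (hM x hx).2.2).2
  have hJ : ∫ x in Q \ Disc r, (D1 (hf K v om) x ^ 2 + D2 (hf K v om) x ^ 2 +
      lam N * hf K v om x ^ 2) =
      (∫ x in Q \ Disc r, (D1 (hf K v om) x ^ 2 + D2 (hf K v om) x ^ 2)) +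
        lam N * ∫ x in Q \ Disc r, hf K v om x ^ 2 := by
    rw [integral_add iD (ih.const_mul _), integral_const_mul]
  have hG2 : 0 ≤ ∫ x in Q \ Disc r, (D1 (hf K v om) x ^ 2 + D2 (hf K v om) x ^ 2) :=
    integral_nonneg (fun x => by positivity)
  have hH2 : 0 ≤ ∫ x in Q \ Disc r, hf K v om x ^ 2 :=
    integral_nonneg (fun x => sq_nonneg _)
  rw [hJ]
  have hlam : lam N = 4 * π * ((N : ℝ) - 1) := rfl
  have hlam0 : 0 < lam N := by
    rw [hlam]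
    have := Real.pi_pos
    have : (0 : ℝ) < N - 1 := by linarith
    positivity
  rw [I3] at A
  generalize TI (fun x => SX X1 X2 (D1 (hf K v om) x) (D2 (hf K v om) x) x) = a1 at *
  generalize TI (fun x => (D1 X1 x + D2 X2 x + (X1 x * D1 (om0 K v) x + X2 x * D2 (om0 K v) x))
    * rem K v om x) = a2 at *
  generalize TI (fun x => mu x * (X1 x * D1 om x + X2 x * D2 om x)) = v3 at *
  generalize TI (fun x => mu x * (X1 x * D1 (om0 K v) x + X2 x * D2 (om0 K v) x)) = w0 at *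
  generalize TI (fun x => mu x * (D1 X1 x + D2 X2 x)) = v1 at *
  generalize TI (fun x => TI (fun y => mu x * mu y * PX K X1 X2 x y)) = v2 at *
  generalize TI (fun x => mu x * (X1 x * D1 (Uz K 0) x + X2 x * D2 (Uz K 0) x)) = v4 at *
  generalize (∫ x in Disc r, mu x) = m at *
  generalize (∫ x in Q \ Disc r, mu x) = mc at *
  generalize (∫ x in Disc r, nsq x * mu x) = S2 at *
  generalize (∫ x in Disc r, nsq x ^ 2 * mu x) = S4 at *
  generalize (∫ x in Disc r, psif R N v x * mu x) = Ps at *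
  generalize (∫ x in Disc r, rem K v om x) = Rm at *
  generalize (∫ x in Q \ Disc r, (D1 (hf K v om) x ^ 2 + D2 (hf K v om) x ^ 2)) = G2 at *
  generalize (∫ x in Q \ Disc r, hf K v om x ^ 2) = H2 at *
  have hpi := Real.pi_pos
  set C := Ca + Cc with hCd
  have hCpos : 0 < C := by positivity
  have e1 : (N : ℝ) * v4 ≤ N * (-(2 * π) * S2 + CU * S4) :=
    mul_le_mul_of_nonneg_left I6 (by linarith)
  have e2 : lam N * (2 * Rm - C * H2) ≤ lam N * a2 := mul_le_mul_of_nonneg_left I2 hlam0.le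
  have e3 : v3 - w0 ≤ (2 * C + Cp) * mc - m ^ 2 + (C0 + N * CU) * S4 - Ps +
      2 * π * ((m - 1) * S2) := by
    have k1 : v3 = v1 + 2 * π * v2 + N * v4 := by linarith
    have k2 : lam N / 2 * S2 = 2 * π * N * S2 - 2 * π * S2 := by rw [hlam]; ring
    rw [k2] at I4
    rw [k1]
    nlinarith [I4, I5, I7, e1]
  have e4 : 1 - m ^ 2 ≤ 2 * mc := by nlinarith [hm0, hmc0, hmass]
  have e5 : 2 * π * ((m - 1) * S2) ≤ 0 := by
    have : (m - 1) * S2 ≤ 0 := mul_nonpos_of_nonpos_of_nonneg (by linarith) hs2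
    have h2 : 0 ≤ 2 * π := by positivity
    exact mul_nonpos_of_nonneg_of_nonpos h2 this
  have e6 : (C0 + N * CU) * S4 ≤ (C0 + CU) * N * S4 := by
    refine mul_le_mul_of_nonneg_right ?_ hs4
    nlinarith [mul_nonneg hC0.le (show (0 : ℝ) ≤ N - 1 by linarith)]
  have e7 : 1 + (v3 - w0) ≤ (2 * C + Cp + 2) * mc + (C0 + CU) * N * S4 - Ps := by linarith
  have e8 : 4 * π * (1 + (v3 - w0)) ≤
      4 * π * ((2 * C + Cp + 2) * mc + (C0 + CU) * N * S4 - Ps) :=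
    mul_le_mul_of_nonneg_left e7 (by positivity)
  have e9 : 2 * lam N * Rm ≤ lam N * a2 + C * (lam N * H2) := by linarith [e2]
  have e10 : lam N * a2 = a1 + 4 * π * (1 + (v3 - w0)) := by linarith [A]
  have e11 : 0 ≤ lam N * H2 := mul_nonneg hlam0.le hH2
  have e12 : 0 ≤ 4 * π * (2 * C + Cp + 2) := by positivity
  have e13 : 3 * C * G2 + C * (lam N * H2) ≤
      (3 * C + 4 * π * (2 * C + Cp + 2)) * (G2 + lam N * H2) := by
    have f1 := mul_nonneg e12 (add_nonneg hG2 e11)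
    have f2 := mul_nonneg hCpos.le e11
    nlinarith [f1, f2]
  have e14 : 4 * π * (2 * C + Cp + 2) * mc ≤ (3 * C + 4 * π * (2 * C + Cp + 2)) * mc := by
    have := mul_nonneg hCpos.le hmc0
    nlinarith [this]
  nlinarith [e8, e9, e10, e13, e14, I1]

end Pool.Agent.AO
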