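import Pool.Agent.Lib.MP_10e52e_an.Sol
import Pool.Agent.Lib.MP_10e52e_an.Psi
import Pool.Agent.Lib.MP_10e52e_an.Field
import Pool.Agent.Lib.MP_10e52e_an.Isym
import Pool.Agent.Lib.MP_10e52e_an.Ivv
import Pool.Agent.Lib.MP_10e52e_an.Istress
import Pool.Agent.Lib.MP_10e52e_an.Ih
import Pool.Agent.Lib.MP_10e52e_an.IN
import Pool.Agent.Lib.MP_10e52e_an.Irem
import Pool.Agent.Lib.MP_10e52e_an.Imas
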