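import Pool.Agent.Lib.MP_10e52e_an.Dens
import Pool.Agent.Lib.MP_10e52e_an.Ident

/-! MP_10e52e_an row Bz3: L9.7 -/

namespace Pool.Agent.AO

open MeasureTheory Set Real
open scoped ContDiff

theorem bz_nsq_nonneg (x : ℝ × ℝ) : 0 ≤ nsq x := by unfold nsq; positivity

theorem bz_nrm_nonneg (x : ℝ × ℝ) : 0 ≤ nrm x := Real.sqrt_nonneg _

theorem bz_nrm_sq (x : ℝ × ℝ) : nrm x ^ 2 = nsq x := Real.sq_sqrt (bz_nsq_nonneg x)

theorem bz_nrm_cont : Continuous nrm := by unfold nrm nsq; fun_prop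

theorem bz_nsq_cont : Continuous nsq := by unfold nsq; fun_prop

theorem bz_abs1 (x : ℝ × ℝ) : |x.1| ≤ nrm x :=
  Real.abs_le_sqrt (by unfold nsq; nlinarith [sq_nonneg x.2])

theorem bz_abs2 (x : ℝ × ℝ) : |x.2| ≤ nrm x :=
  Real.abs_le_sqrt (by unfold nsq; nlinarith [sq_nonneg x.1])

theorem bz_nrm_cplx (x : ℝ × ℝ) : nrm x = ‖(⟨x.1, x.2⟩ : ℂ)‖ := by
  rw [Complex.norm_def, Complex.normSq_mk]
  unfold nrm nsq
  congr 1
  ring

theorem bz_nrm_add (x y : ℝ × ℝ) : nrm (x + y) ≤ nrm x + nrm y := by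
  rw [bz_nrm_cplx, bz_nrm_cplx, bz_nrm_cplx]
  exact norm_add_le (⟨x.1, x.2⟩ : ℂ) ⟨y.1, y.2⟩

theorem bz_nrm_sub (x y : ℝ × ℝ) : nrm (x - y) ≤ nrm x + nrm y := by
  rw [bz_nrm_cplx, bz_nrm_cplx, bz_nrm_cplx]
  exact norm_sub_le (⟨x.1, x.2⟩ : ℂ) ⟨y.1, y.2⟩

theorem bz_disc_meas (r : ℝ) : MeasurableSet (Disc r) :=
  (isOpen_lt bz_nrm_cont continuous_const).measurableSet

theorem bz_disc_Q {r : ℝ} (hr : r ≤ 1 / 2) : Disc r ⊆ Q := by
  intro x hx
  have h1 : nrm x < r := hx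
  have h2 := abs_lt.1 (lt_of_le_of_lt (bz_abs1 x) (lt_of_lt_of_le h1 hr))
  have h3 := abs_lt.1 (lt_of_le_of_lt (bz_abs2 x) (lt_of_lt_of_le h1 hr))
  refine ⟨⟨?_, ?_⟩, ⟨?_, ?_⟩⟩ <;> linarith [h2.1, h2.2, h3.1, h3.2]

theorem bz_Q_meas : MeasurableSet Q := measurableSet_Ioc.prod measurableSet_Ioc

theorem bz_int {f : ℝ × ℝ → ℝ} (hf : Continuous f) : IntegrableOn f Q := by
  refine (hf.continuousOn.integrableOn_compact
    ((isCompact_Icc (a := (-1 / 2 : ℝ)) (b := 1 / 2)).prod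
      (isCompact_Icc (a := (-1 / 2 : ℝ)) (b := 1 / 2)))).mono_set ?_
  exact Set.prod_mono Ioc_subset_Icc_self Ioc_subset_Icc_self

theorem bz_intM {f g : ℝ × ℝ → ℝ} (hf : Continuous f) (nn : ∀ x, 0 ≤ f x) (hg : Measurable g)
    {M : ℝ} (hM : ∀ x ∈ Q, |g x| ≤ M) : IntegrableOn (fun x => f x * g x) Q := by
  refine Integrable.mono' ((bz_int hf).mul_const M)
    ((hf.measurable.mul hg).aestronglyMeasurable) ?_
  refine (ae_restrict_mem bz_Q_meas).mono fun x hx => ?_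
  rw [Real.norm_eq_abs, abs_mul, abs_of_nonneg (nn x)]
  exact mul_le_mul_of_nonneg_left (hM x hx) (nn x)

/-- splitting off the disc -/
theorem bz_split {mu g : ℝ × ℝ → ℝ} (hmu : Continuous mu) (nn : ∀ x, 0 ≤ mu x)
    (hg : Measurable g) {r M : ℝ} (hr : 0 < r) (hr' : 2 * r ≤ 1 / 2)
    (hM : ∀ x ∈ Q, |g x| ≤ M) (h0 : ∀ x ∈ Q, 2 * r ≤ nrm x → g x = 0) :
    |TI (fun x => mu x * g x) - ∫ x in Disc r, mu x * g x| ≤
      M * ∫ x in Disc (2 * r) \ Disc r, mu x := by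
  have hQ : Disc r ⊆ Q := bz_disc_Q (by linarith)
  have hQ2 : Disc (2 * r) ⊆ Q := bz_disc_Q hr'
  have hint := bz_intM hmu nn hg hM
  have h1 : TI (fun x => mu x * g x) - ∫ x in Disc r, mu x * g x =
      ∫ x in Q \ Disc r, mu x * g x := by
    rw [setIntegral_sdiff (bz_disc_meas r) hint hQ]
    rfl
  rw [h1, ← Real.norm_eq_abs]
  have h2 : (Q \ Disc r) ∩ Disc (2 * r) = Disc (2 * r) \ Disc r := by
    ext x
    constructor
    · rintro ⟨⟨_, h⟩, h'⟩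
      exact ⟨h', h⟩
    · rintro ⟨h', h⟩
      exact ⟨⟨hQ2 h', h⟩, h'⟩
  have hi : Integrable (fun x => M * mu x) (volume.restrict (Q \ Disc r)) :=
    ((bz_int hmu).mono_set sdiff_subset).const_mul M
  have h3 := norm_integral_le_of_norm_le (f := fun x => mu x * g x)
    (hi.indicator (bz_disc_meas (2 * r))) (by
      refine (ae_restrict_mem (bz_Q_meas.diff (bz_disc_meas r))).mono fun x hx => ?_
      by_cases hx2 : x ∈ Disc (2 * r)
      · rw [indicator_of_mem hx2, Real.norm_eq_abs, abs_mul, abs_of_nonneg (nn x), mul_comm]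
        exact mul_le_mul_of_nonneg_right (hM x hx.1) (nn x)
      · rw [indicator_of_notMem hx2, h0 x hx.1 (not_lt.1 hx2)]
        simp)
  rw [setIntegral_indicator (bz_disc_meas (2 * r)), h2, integral_const_mul] at h3
  exact h3

/-- cubic bound -/
theorem bz_cub {mu G : ℝ × ℝ → ℝ} (hmu : Continuous mu) (nn : ∀ x, 0 ≤ mu x)
    {r B : ℝ} (hr : 0 < r) (hr' : 2 * r ≤ 1 / 2) (hB : 0 ≤ B)
    (h1 : ∀ x ∈ Q, nrm x < 2 * r → |G x| ≤ B * (nrm x ^ 3 * mu x))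
    (h0 : ∀ x ∈ Q, 2 * r ≤ nrm x → G x = 0) :
    |TI G| ≤ B * ((∫ x in Disc r, nrm x ^ 3 * mu x) + ∫ x in Disc (2 * r) \ Disc r, mu x) := by
  have hQ : Disc r ⊆ Q := bz_disc_Q (by linarith)
  have hQ2 : Disc (2 * r) ⊆ Q := bz_disc_Q hr'
  have hmr := bz_disc_meas r
  have hmr2 : MeasurableSet (Disc (2 * r) \ Disc r) := (bz_disc_meas (2 * r)).diff hmr
  have i1 : IntegrableOn (fun x => B * (nrm x ^ 3 * mu x)) Q :=
    (bz_int ((bz_nrm_cont.pow 3).mul hmu)).const_mul B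
  have i2 : IntegrableOn (fun x => B * mu x) Q := (bz_int hmu).const_mul B
  have h3 := norm_integral_le_of_norm_le (f := G) (μ := volume.restrict Q)
    ((i1.indicator hmr).add (i2.indicator hmr2)) (by
      refine (ae_restrict_mem bz_Q_meas).mono fun x hx => ?_
      simp only [Pi.add_apply]
      by_cases hx1 : x ∈ Disc r
      · have hx1' : nrm x < r := hx1
        rw [indicator_of_mem hx1, indicator_of_notMem (fun h => h.2 hx1), add_zero]
        exact h1 x hx (by linarith)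
      · by_cases hx2 : x ∈ Disc (2 * r)
        · have hx2' : nrm x < 2 * r := hx2
          have h5 : nrm x ^ 3 ≤ 1 := pow_le_one₀ (bz_nrm_nonneg x) (by linarith)
          rw [indicator_of_notMem hx1,
            indicator_of_mem (show x ∈ Disc (2 * r) \ Disc r from ⟨hx2, hx1⟩), zero_add]
          refine (h1 x hx hx2).trans ?_
          have := mul_le_mul_of_nonneg_right h5 (nn x)
          rw [one_mul] at this
          exact mul_le_mul_of_nonneg_left this hB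
        · rw [indicator_of_notMem hx1, indicator_of_notMem (fun h => hx2 h.1),
            h0 x hx (not_lt.1 hx2)]
          simp)
  have h4 : ∫ x in Q, ((Disc r).indicator (fun x => B * (nrm x ^ 3 * mu x)) +
      (Disc (2 * r) \ Disc r).indicator (fun x => B * mu x)) x =
      B * ((∫ x in Disc r, nrm x ^ 3 * mu x) + ∫ x in Disc (2 * r) \ Disc r, mu x) := by
    simp only [Pi.add_apply]
    rw [integral_add (i1.indicator hmr) (i2.indicator hmr2), setIntegral_indicator hmr,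
      setIntegral_indicator hmr2, inter_eq_self_of_subset_right hQ,
      inter_eq_self_of_subset_right (sdiff_subset.trans hQ2), integral_const_mul,
      integral_const_mul]
    ring
  rw [h4] at h3
  exact h3


theorem bz_K_neg {K R : ℝ × ℝ → ℝ} (hG : IsGreen K R) (x : ℝ × ℝ) : K (-x) = K x := by
  have h1 := hG.refl1 (x.1, -x.2)
  have h2 := hG.refl2 x
  have h3 : -x = (-x.1, -x.2) := rfl
  rw [h3]
  simp only at h1
  rw [h1, h2]

theorem bz_G_neg {K R : ℝ × ℝ → ℝ} (hG : IsGreen K R) (v x : ℝ × ℝ) :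
    fderiv ℝ (Gf K) (-x) v = -fderiv ℝ (Gf K) x v := by
  have h1 : (Gf K ∘ (ContinuousLinearEquiv.neg ℝ : (ℝ × ℝ) ≃L[ℝ] (ℝ × ℝ))) = Gf K := by
    funext y
    show -(1 / (4 * π)) * Real.log (K (-y)) = -(1 / (4 * π)) * Real.log (K y)
    rw [bz_K_neg hG]
  have h2 := (ContinuousLinearEquiv.neg ℝ : (ℝ × ℝ) ≃L[ℝ] (ℝ × ℝ)).comp_right_fderiv
    (f := Gf K) (x := x)
  rw [h1] at h2
  rw [h2]
  simp

theorem bz_PX_symm {K R : ℝ × ℝ → ℝ} (hG : IsGreen K R) (X1 X2 : ℝ × ℝ → ℝ) (x y : ℝ × ℝ) :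
    PX K X1 X2 x y = PX K X1 X2 y x := by
  unfold PX D1 D2
  have h : x - y = -(y - x) := by abel
  rw [h, bz_G_neg hG, bz_G_neg hG]
  ring

theorem bz_PX_meas {K X1 X2 : ℝ × ℝ → ℝ} (h1 : Continuous X1) (h2 : Continuous X2) :
    Measurable (Function.uncurry (PX K X1 X2)) := by
  have m1 : Measurable (D1 (Gf K)) := measurable_fderiv_apply_const ℝ (Gf K) (1, 0)
  have m2 : Measurable (D2 (Gf K)) := measurable_fderiv_apply_const ℝ (Gf K) (0, 1)
  have h3 : Measurable fun p : (ℝ × ℝ) × (ℝ × ℝ) => p.1 - p.2 :=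
    (continuous_fst.sub continuous_snd).measurable
  exact ((((h1.comp continuous_fst).sub (h1.comp continuous_snd)).measurable).mul
    (m1.comp h3)).add ((((h2.comp continuous_fst).sub (h2.comp continuous_snd)).measurable).mul
    (m2.comp h3))

/-- first component of `e z^3` -/
noncomputable def bzF1 (α β : ℝ) (x : ℝ × ℝ) : ℝ :=
  α * (x.1 ^ 3 - 3 * x.1 * x.2 ^ 2) - β * (3 * x.1 ^ 2 * x.2 - x.2 ^ 3)

/-- second component of `e z^3` -/
noncomputable def bzF2 (α β : ℝ) (x : ℝ × ℝ) : ℝ :=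
  α * (3 * x.1 ^ 2 * x.2 - x.2 ^ 3) + β * (x.1 ^ 3 - 3 * x.1 * x.2 ^ 2)

/-- `Re (e z^2)` -/
noncomputable def bzA (α β : ℝ) (x : ℝ × ℝ) : ℝ :=
  α * (x.1 ^ 2 - x.2 ^ 2) - β * (2 * x.1 * x.2)

/-- `Re (e (x^2 + x y + y^2))` -/
noncomputable def bzQ (α β : ℝ) (x y : ℝ × ℝ) : ℝ :=
  bzA α β x + bzA α β y + (α * x.1 - β * x.2) * y.1 + (-(α * x.2) - β * x.1) * y.2

theorem bz_F1_smooth (α β : ℝ) : ContDiff ℝ ∞ (bzF1 α β) := by unfold bzF1; fun_prop

theorem bz_F2_smooth (α β : ℝ) : ContDiff ℝ ∞ (bzF2 α β) := by unfold bzF2; fun_prop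

theorem bz_A_cont (α β : ℝ) : Continuous (bzA α β) := by unfold bzA; fun_prop

theorem bz_cube1 (x : ℝ × ℝ) : |x.1 ^ 3 - 3 * x.1 * x.2 ^ 2| ≤ nrm x ^ 3 := by
  apply abs_le_of_sq_le_sq _ (pow_nonneg (bz_nrm_nonneg x) 3)
  have : (nrm x ^ 3) ^ 2 = nsq x ^ 3 := by rw [← bz_nrm_sq]; ring
  rw [this]
  unfold nsq
  nlinarith [sq_nonneg (3 * x.1 ^ 2 * x.2 - x.2 ^ 3)]

theorem bz_cube2 (x : ℝ × ℝ) : |3 * x.1 ^ 2 * x.2 - x.2 ^ 3| ≤ nrm x ^ 3 := by
  apply abs_le_of_sq_le_sq _ (pow_nonneg (bz_nrm_nonneg x) 3)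
  have : (nrm x ^ 3) ^ 2 = nsq x ^ 3 := by rw [← bz_nrm_sq]; ring
  rw [this]
  unfold nsq
  nlinarith [sq_nonneg (x.1 ^ 3 - 3 * x.1 * x.2 ^ 2)]

theorem bz_F1_le {α β : ℝ} (hα : |α| ≤ 1) (hβ : |β| ≤ 1) (x : ℝ × ℝ) :
    |bzF1 α β x| ≤ 2 * nrm x ^ 3 := by
  unfold bzF1
  refine (abs_sub _ _).trans ?_
  rw [abs_mul, abs_mul]
  have h1 := mul_le_mul hα (bz_cube1 x) (abs_nonneg _) zero_le_one
  have h2 := mul_le_mul hβ (bz_cube2 x) (abs_nonneg _) zero_le_one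
  linarith

theorem bz_F2_le {α β : ℝ} (hα : |α| ≤ 1) (hβ : |β| ≤ 1) (x : ℝ × ℝ) :
    |bzF2 α β x| ≤ 2 * nrm x ^ 3 := by
  unfold bzF2
  refine (abs_add_le _ _).trans ?_
  rw [abs_mul, abs_mul]
  have h1 := mul_le_mul hα (bz_cube2 x) (abs_nonneg _) zero_le_one
  have h2 := mul_le_mul hβ (bz_cube1 x) (abs_nonneg _) zero_le_one
  linarith

theorem bz_D1_line {f : ℝ × ℝ → ℝ} {x : ℝ × ℝ} (hf : DifferentiableAt ℝ f x) {c : ℝ}
    (h : HasDerivAt (fun t : ℝ => f (x.1 + t, x.2)) c 0) : D1 f x = c := by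
  have h1 : HasDerivAt (fun t : ℝ => ((x.1 + t, x.2) : ℝ × ℝ)) ((1 : ℝ), (0 : ℝ)) 0 :=
    ((hasDerivAt_id (0 : ℝ)).const_add x.1).prodMk (hasDerivAt_const _ _)
  have h3 : HasFDerivAt f (fderiv ℝ f x) (x.1 + (0 : ℝ), x.2) := by
    rw [add_zero]
    exact hf.hasFDerivAt
  exact (h3.comp_hasDerivAt (0 : ℝ) h1).unique h

theorem bz_D2_line {f : ℝ × ℝ → ℝ} {x : ℝ × ℝ} (hf : DifferentiableAt ℝ f x) {c : ℝ}
    (h : HasDerivAt (fun t : ℝ => f (x.1, x.2 + t)) c 0) : D2 f x = c := by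
  have h1 : HasDerivAt (fun t : ℝ => ((x.1, x.2 + t) : ℝ × ℝ)) ((0 : ℝ), (1 : ℝ)) 0 :=
    (hasDerivAt_const _ _).prodMk ((hasDerivAt_id (0 : ℝ)).const_add x.2)
  have h3 : HasFDerivAt f (fderiv ℝ f x) (x.1, x.2 + (0 : ℝ)) := by
    rw [add_zero]
    exact hf.hasFDerivAt
  exact (h3.comp_hasDerivAt (0 : ℝ) h1).unique h

theorem bz_div (α β : ℝ) (x : ℝ × ℝ) :
    D1 (bzF1 α β) x + D2 (bzF2 α β) x = 6 * bzA α β x := by
  have d1 : HasDerivAt (fun t : ℝ => x.1 + t) 1 0 := (hasDerivAt_id (0 : ℝ)).const_add x.1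
  have d2 : HasDerivAt (fun t : ℝ => x.2 + t) 1 0 := (hasDerivAt_id (0 : ℝ)).const_add x.2
  have e1 : D1 (bzF1 α β) x = α * (3 * x.1 ^ 2 - 3 * x.2 ^ 2) - β * (6 * x.1 * x.2) := by
    apply bz_D1_line (((bz_F1_smooth α β).differentiable (by simp)) x)
    unfold bzF1
    have h := ((((d1.pow 3).sub ((d1.const_mul 3).mul_const (x.2 ^ 2))).const_mul α)).sub
      (((((d1.pow 2).const_mul 3).mul_const x.2).sub_const (x.2 ^ 3)).const_mul β)
    refine h.congr_deriv ?_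
    simp only [add_zero, Nat.cast_ofNat]
    ring
  have e2 : D2 (bzF2 α β) x = α * (3 * x.1 ^ 2 - 3 * x.2 ^ 2) - β * (6 * x.1 * x.2) := by
    apply bz_D2_line (((bz_F2_smooth α β).differentiable (by simp)) x)
    unfold bzF2
    have h := ((((d2.const_mul (3 * x.1 ^ 2))).sub (d2.pow 3)).const_mul α).add
      ((((((d2.pow 2)).const_mul (3 * x.1)).const_sub (x.1 ^ 3))).const_mul β)
    refine h.congr_deriv ?_
    simp only [add_zero, Nat.cast_ofNat]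
    ring
  rw [e1, e2]
  unfold bzA
  ring

theorem bz_alg (α β : ℝ) (x y : ℝ × ℝ) :
    (bzF1 α β x - bzF1 α β y) * (x - y).1 + (bzF2 α β x - bzF2 α β y) * (x - y).2 =
      nsq (x - y) * bzQ α β x y := by
  unfold bzF1 bzF2 bzQ bzA nsq
  simp only [Prod.fst_sub, Prod.snd_sub]
  ring


theorem bz_int_shift {t : ℝ} (h1 : -1 / 2 < t) (h2 : t ≤ 1 / 2) {n : ℤ} (hn : n ≠ 0) :
    1 / 2 ≤ |t + n| := by
  rcases lt_or_gt_of_ne hn with h | h
  · have h3 : (n : ℝ) ≤ -1 := by exact_mod_cast (by omega : n ≤ -1)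
    rw [abs_of_nonpos (by linarith)]
    linarith
  · have h3 : (1 : ℝ) ≤ n := by exact_mod_cast (by omega : 1 ≤ n)
    rw [abs_of_nonneg (by linarith)]
    linarith

theorem bz_far {x y : ℝ × ℝ} {r : ℝ} (hr : 2 * r ≤ 1 / 2) (hx : nrm x < r) (hy : y ∈ Q)
    (hy2 : 2 * r ≤ nrm y) (m n : ℤ) : r ≤ nrm (x - y - ((m : ℝ), (n : ℝ))) := by
  have h1 : 2 * r ≤ nrm (y + ((m : ℝ), (n : ℝ))) := by
    by_cases hm : m = 0
    · by_cases hn : n = 0
      · have : y + ((m : ℝ), (n : ℝ)) = y := by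
          ext <;> simp [hm, hn]
        rw [this]
        exact hy2
      · have h3 := bz_abs2 (y + ((m : ℝ), (n : ℝ)))
        have h4 := bz_int_shift hy.2.1 hy.2.2 hn
        simp only [Prod.snd_add] at h3
        linarith
    · have h3 := bz_abs1 (y + ((m : ℝ), (n : ℝ)))
      have h4 := bz_int_shift hy.1.1 hy.1.2 hm
      simp only [Prod.fst_add] at h3
      linarith
  have h3 : nrm (y + ((m : ℝ), (n : ℝ))) ≤ nrm x + nrm (x - y - ((m : ℝ), (n : ℝ))) := by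
    have h4 := bz_nrm_sub x (x - y - ((m : ℝ), (n : ℝ)))
    have e : x - (x - y - ((m : ℝ), (n : ℝ))) = y + ((m : ℝ), (n : ℝ)) := by abel
    rwa [e] at h4
  linarith

theorem bz_tn_far {x y : ℝ × ℝ} {r : ℝ} (hr0 : 0 < r) (hr : 2 * r ≤ 1 / 2) (hx : nrm x < r)
    (hy : y ∈ Q) (hy2 : 2 * r ≤ nrm y) : x - y ∉ Lat ∧ r ≤ tn (x - y) := by
  constructor
  · rintro ⟨m, n, h⟩
    have h1 := bz_far hr hx hy hy2 m n
    rw [h, sub_self] at h1
    have : nrm 0 = 0 := by simp [nrm, nsq]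
    linarith
  · exact bz_far hr hx hy hy2 (round (x - y).1) (round (x - y).2)

theorem bz_lin4 {ν : Measure (ℝ × ℝ)} {f1 f2 f3 f4 : ℝ × ℝ → ℝ} (i1 : Integrable f1 ν)
    (i2 : Integrable f2 ν) (i3 : Integrable f3 ν) (i4 : Integrable f4 ν) (a b c d : ℝ) :
    ∫ x, (a * f1 x + b * f2 x + c * f3 x + d * f4 x) ∂ν =
      a * (∫ x, f1 x ∂ν) + b * (∫ x, f2 x ∂ν) + c * (∫ x, f3 x ∂ν) + d * ∫ x, f4 x ∂ν := by
  have j1 : Integrable (fun x => a * f1 x) ν := i1.const_mul a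
  have j2 : Integrable (fun x => b * f2 x) ν := i2.const_mul b
  have j3 : Integrable (fun x => c * f3 x) ν := i3.const_mul c
  have j4 : Integrable (fun x => d * f4 x) ν := i4.const_mul d
  have j12 : Integrable (fun x => a * f1 x + b * f2 x) ν := j1.add j2
  have j123 : Integrable (fun x => a * f1 x + b * f2 x + c * f3 x) ν := j12.add j3
  rw [integral_add j123 j4, integral_add j12 j3, integral_add j1 j2, integral_const_mul,
    integral_const_mul, integral_const_mul, integral_const_mul]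

theorem bz_inner {mu : ℝ × ℝ → ℝ} (hmu : Continuous mu) {r : ℝ} (hr : r ≤ 1 / 2) (α β : ℝ)
    (x : ℝ × ℝ) :
    ∫ y in Disc r, mu x * mu y * bzQ α β x y = mu x * (bzA α β x * (∫ y in Disc r, mu y) +
      (∫ y in Disc r, bzA α β y * mu y) + (α * x.1 - β * x.2) * (∫ y in Disc r, y.1 * mu y) +
      (-(α * x.2) - β * x.1) * ∫ y in Disc r, y.2 * mu y) := by
  have hQ := bz_disc_Q hr
  have i0 : IntegrableOn mu (Disc r) := (bz_int hmu).mono_set hQ
  have i1 : IntegrableOn (fun y => bzA α β y * mu y) (Disc r) :=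
    (bz_int ((bz_A_cont α β).mul hmu)).mono_set hQ
  have i2 : IntegrableOn (fun y : ℝ × ℝ => y.1 * mu y) (Disc r) :=
    (bz_int (continuous_fst.mul hmu)).mono_set hQ
  have i3 : IntegrableOn (fun y : ℝ × ℝ => y.2 * mu y) (Disc r) :=
    (bz_int (continuous_snd.mul hmu)).mono_set hQ
  have h1 : ∀ y, mu x * mu y * bzQ α β x y = mu x * bzA α β x * mu y +
      mu x * (bzA α β y * mu y) + mu x * (α * x.1 - β * x.2) * (y.1 * mu y) +
      mu x * (-(α * x.2) - β * x.1) * (y.2 * mu y) := by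
    intro y
    unfold bzQ
    ring
  simp_rw [h1]
  rw [bz_lin4 i0 i1 i2 i3]
  ring

theorem bz_outer {mu : ℝ × ℝ → ℝ} (hmu : Continuous mu) {r : ℝ} (hr : r ≤ 1 / 2) (α β : ℝ)
    (t a c1 c2 : ℝ) :
    ∫ x in Disc r, mu x * (bzA α β x * t + a + (α * x.1 - β * x.2) * c1 +
      (-(α * x.2) - β * x.1) * c2) =
      (∫ x in Disc r, bzA α β x * mu x) * t + a * (∫ x in Disc r, mu x) +
      (α * (∫ x in Disc r, x.1 * mu x) - β * (∫ x in Disc r, x.2 * mu x)) * c1 +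
      (-(α * (∫ x in Disc r, x.2 * mu x)) - β * (∫ x in Disc r, x.1 * mu x)) * c2 := by
  have hQ := bz_disc_Q hr
  have i0 : IntegrableOn mu (Disc r) := (bz_int hmu).mono_set hQ
  have i1 : IntegrableOn (fun y => bzA α β y * mu y) (Disc r) :=
    (bz_int ((bz_A_cont α β).mul hmu)).mono_set hQ
  have i2 : IntegrableOn (fun y : ℝ × ℝ => y.1 * mu y) (Disc r) :=
    (bz_int (continuous_fst.mul hmu)).mono_set hQ
  have i3 : IntegrableOn (fun y : ℝ × ℝ => y.2 * mu y) (Disc r) :=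
    (bz_int (continuous_snd.mul hmu)).mono_set hQ
  have h1 : ∀ x : ℝ × ℝ, mu x * (bzA α β x * t + a + (α * x.1 - β * x.2) * c1 +
      (-(α * x.2) - β * x.1) * c2) = t * (bzA α β x * mu x) + a * mu x +
      (α * c1 - β * c2) * (x.1 * mu x) + (-(β * c1) - α * c2) * (x.2 * mu x) := by
    intro x
    ring
  simp_rw [h1]
  rw [bz_lin4 i1 i0 i2 i3]
  ring

/-- the pair term on the disc -/
theorem bz_dbl {mu : ℝ × ℝ → ℝ} (hmu : Continuous mu) (nn : ∀ x, 0 ≤ mu x)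
    {P : ℝ × ℝ → ℝ × ℝ → ℝ} (hP : Measurable (Function.uncurry P))
    {M : ℝ} (hM : ∀ x y, |P x y| ≤ M) {r : ℝ} (hr : r ≤ 1 / 2) {α β E : ℝ}
    (hE : ∀ x ∈ Disc r, ∀ y ∈ Disc r, x ≠ y →
      |P x y + 1 / (2 * π) * bzQ α β x y| ≤ E * (nrm x ^ 3 + nrm y ^ 3)) :
    |(∫ x in Disc r, ∫ y in Disc r, mu x * mu y * P x y) + 1 / (2 * π) *
      (2 * (∫ x in Disc r, bzA α β x * mu x) * (∫ x in Disc r, mu x) +
        α * ((∫ x in Disc r, x.1 * mu x) ^ 2 - (∫ x in Disc r, x.2 * mu x) ^ 2) -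
        2 * β * (∫ x in Disc r, x.1 * mu x) * (∫ x in Disc r, x.2 * mu x))| ≤
      2 * E * (∫ x in Disc r, mu x) * ∫ x in Disc r, nrm x ^ 3 * mu x := by
  have hQ := bz_disc_Q hr
  have i0 : IntegrableOn mu (Disc r) := (bz_int hmu).mono_set hQ
  have i3 : IntegrableOn (fun x => nrm x ^ 3 * mu x) (Disc r) :=
    (bz_int ((bz_nrm_cont.pow 3).mul hmu)).mono_set hQ
  set t := ∫ x in Disc r, mu x with ht
  set a := ∫ x in Disc r, bzA α β x * mu x with ha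
  set c1 := ∫ x in Disc r, x.1 * mu x with hc1
  set c2 := ∫ x in Disc r, x.2 * mu x with hc2
  set m3 := ∫ x in Disc r, nrm x ^ 3 * mu x with hm3
  have hin : ∀ x, IntegrableOn (fun y => mu x * mu y * P x y) (Disc r) := by
    intro x
    have hPx : Measurable fun y => mu x * P x y :=
      (hP.comp measurable_prodMk_left).const_mul (mu x)
    have h1 := bz_intM hmu nn hPx (M := mu x * M) (fun y _ => by
      rw [abs_mul, abs_of_nonneg (nn x)]
      exact mul_le_mul_of_nonneg_left (hM x y) (nn x))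
    refine (h1.mono_set hQ).congr_fun (fun y _ => ?_) (bz_disc_meas r)
    simp only []
    ring
  have hinQ : ∀ x, IntegrableOn (fun y => mu x * mu y * bzQ α β x y) (Disc r) := by
    intro x
    refine (bz_int ?_).mono_set hQ
    unfold bzQ bzA
    fun_prop
  have hpt : ∀ x ∈ Disc r, |(∫ y in Disc r, mu x * mu y * P x y) + 1 / (2 * π) *
      ∫ y in Disc r, mu x * mu y * bzQ α β x y| ≤ E * (t * (nrm x ^ 3 * mu x) + m3 * mu x) := by
    intro x hx
    have h1 : (∫ y in Disc r, mu x * mu y * P x y) + 1 / (2 * π) *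
        ∫ y in Disc r, mu x * mu y * bzQ α β x y =
        ∫ y in Disc r, mu x * mu y * (P x y + 1 / (2 * π) * bzQ α β x y) := by
      rw [← integral_const_mul, ← integral_add (hin x) ((hinQ x).const_mul _)]
      congr 1
      funext y
      ring
    rw [h1, ← Real.norm_eq_abs]
    have i4 : Integrable (fun y => E * mu x * (nrm x ^ 3 * mu y + nrm y ^ 3 * mu y))
        (volume.restrict (Disc r)) := ((i0.const_mul _).add i3).const_mul _
    refine (norm_integral_le_of_norm_le i4 ?_).trans (le_of_eq ?_)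
    · have hne : ∀ᵐ y ∂(volume.restrict (Disc r)), y ≠ x := by
        refine ae_restrict_of_ae ?_
        exact compl_mem_ae_iff.2 (measure_singleton x)
      filter_upwards [hne, ae_restrict_mem (bz_disc_meas r)] with y hy hyD
      rw [Real.norm_eq_abs, abs_mul, abs_of_nonneg (mul_nonneg (nn x) (nn y))]
      have h5 := mul_le_mul_of_nonneg_left (hE x hx y hyD (Ne.symm hy))
        (mul_nonneg (nn x) (nn y))
      refine h5.trans (le_of_eq ?_)
      ring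
    · rw [integral_const_mul, integral_add (i0.const_mul _) i3, integral_const_mul]
      ring
  have hsm : StronglyMeasurable fun x => ∫ y in Disc r, mu x * mu y * P x y := by
    refine StronglyMeasurable.integral_prod_right (f := fun x y => mu x * mu y * P x y) ?_
    refine Measurable.stronglyMeasurable ?_
    exact ((hmu.measurable.comp measurable_fst).mul (hmu.measurable.comp measurable_snd)).mul hP
  have hI : IntegrableOn (fun x => ∫ y in Disc r, mu x * mu y * P x y) (Disc r) := by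
    refine Integrable.mono' (i0.const_mul (M * t)) hsm.aestronglyMeasurable ?_
    refine Filter.Eventually.of_forall fun x => ?_
    refine (norm_integral_le_of_norm_le ((i0.const_mul (mu x * M))) ?_).trans (le_of_eq ?_)
    · refine Filter.Eventually.of_forall fun y => ?_
      rw [Real.norm_eq_abs, abs_mul, abs_of_nonneg (mul_nonneg (nn x) (nn y))]
      have := mul_le_mul_of_nonneg_left (hM x y) (mul_nonneg (nn x) (nn y))
      refine this.trans (le_of_eq ?_)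
      ring
    · rw [integral_const_mul]
      ring
  have hIQ : IntegrableOn (fun x => ∫ y in Disc r, mu x * mu y * bzQ α β x y) (Disc r) := by
    simp_rw [bz_inner hmu hr α β]
    refine (bz_int ?_).mono_set hQ
    have := bz_A_cont α β
    fun_prop
  have hval : ∫ x in Disc r, ∫ y in Disc r, mu x * mu y * bzQ α β x y =
      2 * a * t + α * (c1 ^ 2 - c2 ^ 2) - 2 * β * c1 * c2 := by
    simp_rw [bz_inner hmu hr α β]
    rw [← ht, ← ha, ← hc1, ← hc2, bz_outer hmu hr α β, ← ht, ← ha, ← hc1, ← hc2]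
    ring
  rw [← hval, ← integral_const_mul, ← integral_add hI (hIQ.const_mul _), ← Real.norm_eq_abs]
  have i5 : Integrable (fun x => E * (t * (nrm x ^ 3 * mu x) + m3 * mu x))
      (volume.restrict (Disc r)) := ((i3.const_mul _).add (i0.const_mul _)).const_mul _
  refine (norm_integral_le_of_norm_le i5 ?_).trans (le_of_eq ?_)
  · filter_upwards [ae_restrict_mem (bz_disc_meas r)] with x hx
    exact hpt x hx
  · rw [integral_const_mul, integral_add (i3.const_mul _) (i0.const_mul _), integral_const_mul,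
      integral_const_mul, ← hm3, ← ht]
    ring

/-- near against far -/
theorem bz_if {mu : ℝ × ℝ → ℝ} (hmu : Continuous mu) (nn : ∀ x, 0 ≤ mu x) (one : TI mu = 1)
    {P : ℝ × ℝ → ℝ × ℝ → ℝ} {r B : ℝ} (hr : r ≤ 1 / 2) (hB : 0 ≤ B) {J : Set (ℝ × ℝ)}
    (hJ : MeasurableSet J)
    (hE : ∀ x ∈ Disc r, ∀ y ∈ Q \ J, |P x y| ≤ B * nrm x ^ 3) :
    |∫ x in Disc r, ∫ y in Q \ J, mu x * mu y * P x y| ≤
      B * ∫ x in Disc r, nrm x ^ 3 * mu x := by
  have hQ := bz_disc_Q hr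
  have i3 : IntegrableOn (fun x => nrm x ^ 3 * mu x) (Disc r) :=
    (bz_int ((bz_nrm_cont.pow 3).mul hmu)).mono_set hQ
  have i0 : IntegrableOn mu (Q \ J) := (bz_int hmu).mono_set sdiff_subset
  have h1 : ∫ y in Q \ J, mu y ≤ 1 := by
    rw [← one]
    exact setIntegral_mono_set (bz_int hmu) (Filter.Eventually.of_forall nn)
      (LE.le.eventuallyLE sdiff_subset)
  rw [← Real.norm_eq_abs, ← integral_const_mul]
  refine norm_integral_le_of_norm_le (i3.const_mul _) ?_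
  filter_upwards [ae_restrict_mem (bz_disc_meas r)] with x hx
  have h2 : 0 ≤ mu x * (B * nrm x ^ 3) :=
    mul_nonneg (nn x) (mul_nonneg hB (pow_nonneg (bz_nrm_nonneg x) 3))
  refine (norm_integral_le_of_norm_le (i0.const_mul (mu x * (B * nrm x ^ 3))) ?_).trans ?_
  · filter_upwards [ae_restrict_mem (bz_Q_meas.diff hJ)] with y hy
    rw [Real.norm_eq_abs, abs_mul, abs_of_nonneg (mul_nonneg (nn x) (nn y))]
    have := mul_le_mul_of_nonneg_left (hE x hx y hy) (mul_nonneg (nn x) (nn y))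
    refine this.trans (le_of_eq ?_)
    ring
  · rw [integral_const_mul]
    have := mul_le_mul_of_nonneg_left h1 h2
    refine this.trans (le_of_eq ?_)
    ring


theorem bz_pi (S x : ℝ) : 4 * π * (S + 1 / (2 * π) * x) = 4 * π * S + 2 * x := by
  have := Real.pi_pos
  field_simp
  ring

theorem bz_key (A B w1 w2 n d1 d2 c : ℝ) :
    A * (-c * (w1 / n) + d1) + B * (-c * (w2 / n) + d2) + c * ((A * w1 + B * w2) / n) =
      A * d1 + B * d2 := by ring

theorem bz_near {K R : ℝ × ℝ → ℝ} (hG : IsGreen K R) {CR : ℝ} (hCR : 0 < CR)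
    (hR : ∀ x, nrm x ≤ 3 / 4 → |x.1 * D1 R x + x.2 * D2 R x - nsq x / 2| ≤ CR * nsq x ^ 2 ∧
      |D1 R x| ≤ CR * nrm x ∧ |D2 R x| ≤ CR * nrm x) {r3 : ℝ} (hr8 : r3 ≤ 1 / 8) {α β : ℝ}
    (hα : |α| ≤ 1) (hβ : |β| ≤ 1) {X1 X2 : ℝ × ℝ → ℝ} {x y : ℝ × ℝ} (hx' : nrm x < r3)
    (hy' : nrm y < r3) (hxy : x ≠ y) (ex1 : X1 x = bzF1 α β x) (ey1 : X1 y = bzF1 α β y)
    (ex2 : X2 x = bzF2 α β x) (ey2 : X2 y = bzF2 α β y) :
    |PX K X1 X2 x y + 1 / (2 * π) * bzQ α β x y| ≤ 4 * CR * (nrm x ^ 3 + nrm y ^ 3) := by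
  have hw : x - y ≠ 0 := sub_ne_zero.2 hxy
  have hwn : nrm (x - y) ≤ 3 / 4 := by
    have := bz_nrm_sub x y
    linarith
  have hwB : x - y ∈ Box 1 := by
    constructor
    · exact lt_of_le_of_lt (bz_abs1 _) (by linarith)
    · exact lt_of_le_of_lt (bz_abs2 _) (by linarith)
  obtain ⟨-, f1, f2⟩ := green_near hG (x - y) hwB hw
  obtain ⟨-, r1b, r2b⟩ := hR (x - y) hwn
  have hns : nsq (x - y) ≠ 0 := by
    intro h0
    apply hw
    unfold nsq at h0
    have h1 : (x - y).1 = 0 := by nlinarith [sq_nonneg (x - y).1, sq_nonneg (x - y).2]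
    have h2 : (x - y).2 = 0 := by nlinarith [sq_nonneg (x - y).1, sq_nonneg (x - y).2]
    exact Prod.ext h1 h2
  have hkey : PX K X1 X2 x y + 1 / (2 * π) * bzQ α β x y =
      (bzF1 α β x - bzF1 α β y) * D1 R (x - y) + (bzF2 α β x - bzF2 α β y) * D2 R (x - y) := by
    unfold PX
    rw [ex1, ey1, ex2, ey2, f1, f2]
    have h3 := bz_alg α β x y
    have h4 : bzQ α β x y = ((bzF1 α β x - bzF1 α β y) * (x - y).1 +
        (bzF2 α β x - bzF2 α β y) * (x - y).2) / nsq (x - y) := by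
      rw [h3, mul_div_cancel_left₀ _ hns]
    rw [h4]
    exact bz_key _ _ _ _ _ _ _ _
  rw [hkey]
  have n1 := bz_nrm_nonneg x
  have n2 := bz_nrm_nonneg y
  have hsum : 0 ≤ 2 * (nrm x ^ 3 + nrm y ^ 3) := by positivity
  have hle : CR * nrm (x - y) ≤ CR := by
    have := mul_le_mul_of_nonneg_left (hwn.trans (by norm_num : (3 : ℝ) / 4 ≤ 1)) hCR.le
    rwa [mul_one] at this
  have hr1 : |D1 R (x - y)| ≤ CR := r1b.trans hle
  have hr2b : |D2 R (x - y)| ≤ CR := r2b.trans hle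
  have k1 : |bzF1 α β x - bzF1 α β y| ≤ 2 * (nrm x ^ 3 + nrm y ^ 3) :=
    (abs_sub _ _).trans (by linarith [bz_F1_le hα hβ x, bz_F1_le hα hβ y])
  have k2 : |bzF2 α β x - bzF2 α β y| ≤ 2 * (nrm x ^ 3 + nrm y ^ 3) :=
    (abs_sub _ _).trans (by linarith [bz_F2_le hα hβ x, bz_F2_le hα hβ y])
  refine (abs_add_le _ _).trans ?_
  rw [abs_mul, abs_mul]
  have j1 := mul_le_mul k1 hr1 (abs_nonneg _) hsum
  have j2 := mul_le_mul k2 hr2b (abs_nonneg _) hsum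
  calc _ ≤ 2 * (nrm x ^ 3 + nrm y ^ 3) * CR + 2 * (nrm x ^ 3 + nrm y ^ 3) * CR :=
        add_le_add j1 j2
    _ = _ := by ring

theorem bz_q {α β g1 g2 C1 kap : ℝ} (hα : |α| ≤ 1) (hβ : |β| ≤ 1) (hk : 0 < kap)
    (hk1 : kap ≤ 1) (hg1le : |g1| ≤ C1 * kap) (hg2le : |g2| ≤ C1 * kap) :
    |α * (g1 ^ 2 - g2 ^ 2) - 2 * β * g1 * g2| ≤ 4 * C1 ^ 2 * kap := by
  have hkk : kap ^ 2 ≤ kap := by nlinarith
  have h1 : g1 ^ 2 ≤ C1 ^ 2 * kap := by
    have := pow_le_pow_left₀ (abs_nonneg g1) hg1le 2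
    rw [sq_abs] at this
    nlinarith [sq_nonneg C1]
  have h2 : g2 ^ 2 ≤ C1 ^ 2 * kap := by
    have := pow_le_pow_left₀ (abs_nonneg g2) hg2le 2
    rw [sq_abs] at this
    nlinarith [sq_nonneg C1]
  have h3 : |g1 ^ 2 - g2 ^ 2| ≤ 2 * (C1 ^ 2 * kap) := by
    rw [abs_le]
    constructor <;> nlinarith [sq_nonneg g1, sq_nonneg g2]
  have h4 : |2 * g1 * g2| ≤ 2 * (C1 ^ 2 * kap) := by
    rw [abs_le]
    constructor <;> nlinarith [sq_nonneg (g1 + g2), sq_nonneg (g1 - g2)]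
  have h5 : |α * (g1 ^ 2 - g2 ^ 2)| ≤ 1 * (2 * (C1 ^ 2 * kap)) := by
    rw [abs_mul]
    exact mul_le_mul hα h3 (abs_nonneg _) zero_le_one
  have h6 : |2 * β * g1 * g2| ≤ 1 * (2 * (C1 ^ 2 * kap)) := by
    have : 2 * β * g1 * g2 = β * (2 * g1 * g2) := by ring
    rw [this, abs_mul]
    exact mul_le_mul hβ h4 (abs_nonneg _) zero_le_one
  refine (abs_sub _ _).trans ?_
  linarith

theorem bz_bd {t a q W E1 TT S S' E3 E4 N B1 B2 B3 B4 B5 B6 B7 : ℝ} (hN0 : 0 ≤ N)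
    (hid : (6 - 4 * t) * a = 2 * q - 4 * π * W - (E1 - 6 * a) - 4 * π * (TT - S - 2 * S') -
      8 * π * S' + E3 - N * E4)
    (hq : |q| ≤ B1) (hb6 : |W| ≤ B2) (b1 : |E1 - 6 * a| ≤ B3) (b2 : |TT - S - 2 * S'| ≤ B4)
    (b5 : |S'| ≤ B5) (b3 : |E3| ≤ B6) (b4 : |E4| ≤ B7) :
    |(6 - 4 * t) * a| ≤ 2 * B1 + 4 * π * B2 + B3 + 4 * π * B4 + 8 * π * B5 + B6 + N * B7 := by
  have hπ := Real.pi_pos
  rw [hid]
  have x1 := abs_le.1 hq
  have x2 := abs_le.1 hb6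
  have x3 := abs_le.1 b1
  have x4 := abs_le.1 b2
  have x5 := abs_le.1 b5
  have x6 := abs_le.1 b3
  have x7 := abs_le.1 b4
  have p4 : 0 ≤ 4 * π := by positivity
  have p8 : 0 ≤ 8 * π := by positivity
  have y2 := mul_le_mul_of_nonneg_left x2.1 p4
  have y2' := mul_le_mul_of_nonneg_left x2.2 p4
  have y4 := mul_le_mul_of_nonneg_left x4.1 p4
  have y4' := mul_le_mul_of_nonneg_left x4.2 p4
  have y5 := mul_le_mul_of_nonneg_left x5.1 p8
  have y5' := mul_le_mul_of_nonneg_left x5.2 p8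
  have y7 := mul_le_mul_of_nonneg_left x7.1 hN0
  have y7' := mul_le_mul_of_nonneg_left x7.2 hN0
  rw [mul_neg] at y2 y4 y5 y7
  clear hid hq hb6 b1 b2 b5 b3 b4
  obtain ⟨x1a, x1b⟩ := x1
  obtain ⟨x3a, x3b⟩ := x3
  obtain ⟨x6a, x6b⟩ := x6
  clear x2 x4 x5 x7 p4 p8 hπ hN0
  generalize 4 * π * W = w1 at *
  generalize 4 * π * B2 = w2 at *
  generalize 4 * π * (TT - S - 2 * S') = w3 at *
  generalize 4 * π * B4 = w4 at *
  generalize 8 * π * S' = w5 at *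
  generalize 8 * π * B5 = w6 at *
  generalize N * E4 = w7 at *
  generalize N * B7 = w8 at *
  generalize E1 - 6 * a = w9 at *
  rw [abs_le]
  constructor
  · linarith
  · linarith

theorem bz_end {N kap C1 CR L1 L2 M CG CF CU r3 t m3 ρ lamN a : ℝ} (hN' : 3 ≤ N)
    (hk : 0 < kap) (hC1 : 0 < C1) (hCR : 0 < CR) (hL1 : 0 ≤ L1) (hL2 : 0 ≤ L2) (hM : 0 ≤ M)
    (hCG : 0 < CG) (hCF : 0 < CF) (hCU : 0 < CU) (hr3 : 0 < r3) (ht0 : 0 ≤ t) (ht1 : t ≤ 1)
    (hm30 : 0 ≤ m3) (hρ0 : 0 ≤ ρ) (hm3le : m3 ≤ C1 * kap) (hρle : ρ ≤ C1 * kap)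
    (hlam : lamN ≤ 4 * π * N)
    (hbound : |(6 - 4 * t) * a| ≤ 2 * (4 * C1 ^ 2 * kap) + 4 * π * (2 * (4 * CR) * t * m3) +
      (L1 + L2) * ρ + 4 * π * (4 * M * ρ) + 8 * π * (4 * (CG / r3) * m3) +
      4 * (CF * lamN) * (m3 + ρ) + N * (4 * CU * (m3 + ρ))) :
    |a| ≤ (8 * C1 ^ 2 + 32 * π * CR * C1 + (L1 + L2) * C1 + 16 * π * M * C1 +
      32 * π * (CG / r3) * C1 + 32 * π * CF * C1 + 8 * CU * C1) * N * kap := by
  have hπ := Real.pi_pos
  have hfin : 2 * |a| ≤ |(6 - 4 * t) * a| := by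
    rw [abs_mul, abs_of_nonneg (by linarith : 0 ≤ 6 - 4 * t)]
    exact mul_le_mul_of_nonneg_right (by linarith) (abs_nonneg a)
  have hkC : 0 ≤ C1 * kap := by positivity
  have hNk : C1 * kap ≤ C1 * kap * N := by
    have := mul_le_mul_of_nonneg_left (by linarith : (1 : ℝ) ≤ N) hkC
    rwa [mul_one] at this
  have u1 : t * m3 ≤ C1 * kap := by
    have := mul_le_mul_of_nonneg_right ht1 hm30
    rw [one_mul] at this
    exact this.trans hm3le
  have v1 : 4 * π * (2 * (4 * CR) * t * m3) ≤ 32 * π * CR * C1 * N * kap := by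
    have h1 : 4 * π * (2 * (4 * CR) * t * m3) = 32 * π * CR * (t * m3) := by ring
    have h2 : 32 * π * CR * C1 * N * kap = 32 * π * CR * (C1 * kap * N) := by ring
    rw [h1, h2]
    exact mul_le_mul_of_nonneg_left (u1.trans hNk) (by positivity)
  have v2 : (L1 + L2) * ρ ≤ (L1 + L2) * C1 * N * kap := by
    have h2 : (L1 + L2) * C1 * N * kap = (L1 + L2) * (C1 * kap * N) := by ring
    rw [h2]
    exact mul_le_mul_of_nonneg_left (hρle.trans hNk) (by positivity)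
  have v3 : 4 * π * (4 * M * ρ) ≤ 16 * π * M * C1 * N * kap := by
    have h1 : 4 * π * (4 * M * ρ) = 16 * π * M * ρ := by ring
    have h2 : 16 * π * M * C1 * N * kap = 16 * π * M * (C1 * kap * N) := by ring
    rw [h1, h2]
    exact mul_le_mul_of_nonneg_left (hρle.trans hNk) (by positivity)
  have v4 : 8 * π * (4 * (CG / r3) * m3) ≤ 32 * π * (CG / r3) * C1 * N * kap := by
    have h1 : 8 * π * (4 * (CG / r3) * m3) = 32 * π * (CG / r3) * m3 := by ring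
    have h2 : 32 * π * (CG / r3) * C1 * N * kap = 32 * π * (CG / r3) * (C1 * kap * N) := by ring
    rw [h1, h2]
    exact mul_le_mul_of_nonneg_left (hm3le.trans hNk) (by positivity)
  have hms : m3 + ρ ≤ 2 * (C1 * kap) := by linarith
  have hms0 : 0 ≤ m3 + ρ := by linarith
  have hN0 : 0 ≤ N := by linarith
  have v5 : 4 * (CF * lamN) * (m3 + ρ) ≤ 32 * π * CF * C1 * N * kap := by
    have h1 : 4 * (CF * lamN) * (m3 + ρ) ≤ 4 * (CF * (4 * π * N)) * (2 * (C1 * kap)) := by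
      have e1 : 4 * (CF * lamN) ≤ 4 * (CF * (4 * π * N)) :=
        mul_le_mul_of_nonneg_left (mul_le_mul_of_nonneg_left hlam hCF.le) (by norm_num)
      exact mul_le_mul e1 hms hms0 (by positivity)
    refine h1.trans (le_of_eq ?_)
    ring
  have v6 : N * (4 * CU * (m3 + ρ)) ≤ 8 * CU * C1 * N * kap := by
    have h1 : N * (4 * CU * (m3 + ρ)) ≤ N * (4 * CU * (2 * (C1 * kap))) := by
      refine mul_le_mul_of_nonneg_left ?_ hN0
      exact mul_le_mul_of_nonneg_left hms (by positivity)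
    refine h1.trans (le_of_eq ?_)
    ring
  have v7 : 2 * (4 * C1 ^ 2 * kap) ≤ 8 * C1 ^ 2 * N * kap := by
    have h1 : 2 * (4 * C1 ^ 2 * kap) = 8 * C1 ^ 2 * kap * 1 := by ring
    have h2 : 8 * C1 ^ 2 * N * kap = 8 * C1 ^ 2 * kap * N := by ring
    rw [h1, h2]
    exact mul_le_mul_of_nonneg_left (by linarith) (by positivity)
  have hsplit : (8 * C1 ^ 2 + 32 * π * CR * C1 + (L1 + L2) * C1 + 16 * π * M * C1 +
    32 * π * (CG / r3) * C1 + 32 * π * CF * C1 + 8 * CU * C1) * N * kap =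
    8 * C1 ^ 2 * N * kap + 32 * π * CR * C1 * N * kap + (L1 + L2) * C1 * N * kap +
    16 * π * M * C1 * N * kap + 32 * π * (CG / r3) * C1 * N * kap + 32 * π * CF * C1 * N * kap +
    8 * CU * C1 * N * kap := by ring
  have ha0 := abs_nonneg a
  rw [hsplit]
  have hall := add_le_add (add_le_add (add_le_add (add_le_add (add_le_add (add_le_add v7 v1) v2)
    v3) v4) v5) v6
  have hX := hbound.trans hall
  have : |a| ≤ 2 * |a| := by linarith
  exact this.trans (hfin.trans hX)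

theorem bz_comb {K R : ℝ × ℝ → ℝ} (hG : IsGreen K R) {rp : ℝ} (hrp : GoodRp K rp) {r1 : ℝ}
    (hr' : r1 ≤ 1 / 32) {r3 : ℝ} (hr3 : 0 < r3) (hr31 : 64 * r3 ≤ r1)
    (hr3p : 64 * r3 ≤ rp) {C1 : ℝ} (hC1 : 0 < C1) {α β : ℝ} (hα : |α| ≤ 1) (hβ : |β| ≤ 1) :
    ∃ C : ℝ, 0 < C ∧ ∀ (N : ℕ) (z : ℝ × ℝ) (k kap : ℝ) (mu s : ℝ × ℝ → ℝ), 3 ≤ N →
      Conc K N z k mu s rp r1 r3 kap C1 → 0 < kap → kap ≤ 1 →
      |∫ x in Disc r3, bzA α β x * mu x| ≤ C * N * kap := by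
  obtain ⟨CR, hCR, hR⟩ := green_R hG
  obtain ⟨CG, hCG, hGr⟩ := (green_logsing hG).1.grad_le
  obtain ⟨CF, hCF, hF⟩ := conv_force hG
  obtain ⟨CU, hCU, hU⟩ := U_taylor hG (r := rp / 2) (by linarith [hrp.1])
  have hr8 : r3 ≤ 1 / 8 := by linarith
  have hr2 : 2 * r3 ≤ 1 / 2 := by linarith
  have hr2' : r3 ≤ 1 / 2 := by linarith
  obtain ⟨s1, p1, q1, e1, d1, z1, w1, c1⟩ := Xr_basic hr3 hr8 (bz_F1_smooth α β)
  obtain ⟨s2, p2, q2, e2, d2, z2, w2, c2⟩ := Xr_basic hr3 hr8 (bz_F2_smooth α β)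
  set X1 := Xr r3 (bzF1 α β) with hX1
  set X2 := Xr r3 (bzF2 α β) with hX2
  have t1 : ContDiff ℝ 1 X1 := s1.of_le (by simp)
  have t2 : ContDiff ℝ 1 X2 := s2.of_le (by simp)
  obtain ⟨L1, hL1, -, l1, -⟩ := per_lip t1 p1
  obtain ⟨L2, hL2, -, l2, -⟩ := per_lip t2 p2
  obtain ⟨M, hM, hPM⟩ := pair_bdd hG t1 p1 t2 p2
  have hπ := Real.pi_pos
  have hX1b : ∀ x ∈ Q, |X1 x| ≤ 2 * nrm x ^ 3 := by
    intro x hx
    rw [q1 x hx, abs_mul, abs_of_nonneg (c1 x).1]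
    calc chi r3 x * |bzF1 α β x| ≤ 1 * |bzF1 α β x| :=
          mul_le_mul_of_nonneg_right (c1 x).2 (abs_nonneg _)
      _ ≤ 2 * nrm x ^ 3 := by rw [one_mul]; exact bz_F1_le hα hβ x
  have hX2b : ∀ x ∈ Q, |X2 x| ≤ 2 * nrm x ^ 3 := by
    intro x hx
    rw [q2 x hx, abs_mul, abs_of_nonneg (c2 x).1]
    calc chi r3 x * |bzF2 α β x| ≤ 1 * |bzF2 α β x| :=
          mul_le_mul_of_nonneg_right (c2 x).2 (abs_nonneg _)
      _ ≤ 2 * nrm x ^ 3 := by rw [one_mul]; exact bz_F2_le hα hβ x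
  have hforce : ∀ {A1 A2 B : ℝ} {x : ℝ × ℝ}, x ∈ Q → |A1| ≤ B → |A2| ≤ B →
      |X1 x * A1 + X2 x * A2| ≤ 4 * B * nrm x ^ 3 := by
    intro A1 A2 B x hx h1 h2
    refine (abs_add_le _ _).trans ?_
    rw [abs_mul, abs_mul]
    have h3 := mul_le_mul (hX1b x hx) h1 (abs_nonneg _)
      (mul_nonneg zero_le_two (pow_nonneg (bz_nrm_nonneg x) 3))
    have h4 := mul_le_mul (hX2b x hx) h2 (abs_nonneg _)
      (mul_nonneg zero_le_two (pow_nonneg (bz_nrm_nonneg x) 3))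
    linarith
  refine ⟨8 * C1 ^ 2 + 32 * π * CR * C1 + (L1 + L2) * C1 + 16 * π * M * C1 +
    32 * π * (CG / r3) * C1 + 32 * π * CF * C1 + 8 * CU * C1, by positivity, ?_⟩
  intro N z k kap mu s hN hc hk hk1
  have hmu : Continuous mu := hc.mf.smu.continuous
  have nn := hc.mf.nn
  have one := hc.mf.one
  have hN' : (3 : ℝ) ≤ N := by exact_mod_cast hN
  have hlam0 : 0 ≤ lam N := by
    unfold lam
    have : 0 ≤ (N : ℝ) - 1 := by linarith
    positivity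
  have hlam : lam N ≤ 4 * π * N := by
    unfold lam
    have : 4 * π * ((N : ℝ) - 1) = 4 * π * N - 4 * π := by ring
    rw [this]
    linarith
  -- abbreviations
  set t := ∫ x in Disc r3, mu x with ht
  set a := ∫ x in Disc r3, bzA α β x * mu x with ha
  set g1 := ∫ x in Disc r3, x.1 * mu x with hg1
  set g2 := ∫ x in Disc r3, x.2 * mu x with hg2
  set m3 := ∫ x in Disc r3, nrm x ^ 3 * mu x with hm3
  set ρ := ∫ x in Disc (2 * r3) \ Disc r3, mu x with hρ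
  have hm3le : m3 ≤ C1 * kap := hc.m3
  have hρle : ρ ≤ C1 * kap := hc.ring
  have ht0 : 0 ≤ t := integral_nonneg nn
  have hm30 : 0 ≤ m3 := integral_nonneg fun x =>
    mul_nonneg (pow_nonneg (bz_nrm_nonneg x) 3) (nn x)
  have hρ0 : 0 ≤ ρ := integral_nonneg nn
  have ht1 : t ≤ 1 := by
    rw [← one]
    exact setIntegral_mono_set (bz_int hmu) (Filter.Eventually.of_forall nn)
      (LE.le.eventuallyLE (bz_disc_Q hr2'))
  -- the identity
  have hvv := vv hG (by omega : 1 ≤ N) hc.mf t1 p1 t2 p2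
  set E1 := TI (fun x => mu x * (D1 X1 x + D2 X2 x)) with hE1
  set TT := TI (fun x => TI (fun y => mu x * mu y * PX K X1 X2 x y)) with hTT
  set E3 := TI (fun x => mu x * (X1 x * conv (D1 (Gf K)) s x + X2 x * conv (D2 (Gf K)) s x))
    with hE3
  set E4 := TI (fun x => mu x * (X1 x * D1 (Uz K z) x + X2 x * D2 (Uz K z) x)) with hE4
  -- divergence
  have b1 : |E1 - 6 * a| ≤ (L1 + L2) * ρ := by
    have h1 := bz_split (g := fun x => D1 X1 x + D2 X2 x) hmu nn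
      ((measurable_fderiv_apply_const ℝ X1 (1, 0)).add
        (measurable_fderiv_apply_const ℝ X2 (0, 1))) hr3 hr2 (M := L1 + L2)
      (fun x _ => (abs_add_le _ _).trans (add_le_add (l1 x).1 (l2 x).2))
      (fun x hx hx2 => by rw [(w1 x hx hx2).2.1, (w2 x hx hx2).2.2, add_zero])
    have h2 : ∫ x in Disc r3, mu x * (D1 X1 x + D2 X2 x) = 6 * a := by
      rw [ha, ← integral_const_mul]
      refine setIntegral_congr_fun (bz_disc_meas r3) fun x hx => ?_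
      have hx' : nrm x < r3 := hx
      show mu x * (D1 X1 x + D2 X2 x) = 6 * (bzA α β x * mu x)
      rw [(d1 x hx').1, (d2 x hx').2, bz_div]
      ring
    rw [h2] at h1
    exact h1
  -- force of s
  have b3 : |E3| ≤ 4 * (CF * lam N) * (m3 + ρ) := by
    have hsb := hF s (lam N) hc.mf.ss.continuous hc.mf.ps (fun x => by
      rw [abs_of_nonneg (hc.mf.s0 x)]
      exact hc.mf.s1 x)
    refine bz_cub hmu nn hr3 hr2 (by positivity) (fun x hx _ => ?_) (fun x hx hx2 => ?_)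
    · rw [abs_mul, abs_of_nonneg (nn x)]
      have := mul_le_mul_of_nonneg_left (hforce hx (hsb x).1 (hsb x).2) (nn x)
      refine this.trans (le_of_eq ?_)
      ring
    · rw [(w1 x hx hx2).1, (w2 x hx hx2).1]
      ring
  have b4 : |E4| ≤ 4 * CU * (m3 + ρ) := by
    have hub := (hU z hc.far).1
    refine bz_cub hmu nn hr3 hr2 (by positivity) (fun x hx hx1 => ?_) (fun x hx hx2 => ?_)
    · rw [abs_mul, abs_of_nonneg (nn x)]
      have hx3 : nrm x ≤ rp / 2 / 2 := by linarith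
      have := mul_le_mul_of_nonneg_left (hforce hx (hub x hx3).1 (hub x hx3).2) (nn x)
      refine this.trans (le_of_eq ?_)
      ring
    · rw [(w1 x hx hx2).1, (w2 x hx hx2).1]
      ring
  -- pairs
  have hPm := bz_PX_meas (K := K) s1.continuous s2.continuous
  set S := ∫ x in Disc r3, ∫ y in Disc r3, mu x * mu y * PX K X1 X2 x y with hS
  set S' := ∫ x in Disc r3, ∫ y in Q \ Disc (2 * r3), mu x * mu y * PX K X1 X2 x y with hS'
  have b2 : |TT - S - 2 * S'| ≤ 4 * M * ρ := by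
    refine pair_split hmu nn one hPm hPM (bz_PX_symm hG X1 X2) (bz_disc_meas r3)
      (bz_disc_meas (2 * r3)) ?_ (bz_disc_Q hr2) ?_
    · intro x hx
      have : nrm x < r3 := hx
      exact (show nrm x < 2 * r3 by linarith)
    · intro x hx y hy
      unfold PX
      rw [(w1 x hx.1 (not_lt.1 hx.2)).1, (w2 x hx.1 (not_lt.1 hx.2)).1,
        (w1 y hy.1 (not_lt.1 hy.2)).1, (w2 y hy.1 (not_lt.1 hy.2)).1]
      ring
  have b5 : |S'| ≤ 4 * (CG / r3) * m3 := by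
    refine bz_if hmu nn one hr2' (by positivity) (bz_disc_meas (2 * r3)) ?_
    intro x hx y hy
    have hx' : nrm x < r3 := hx
    have hy2 : 2 * r3 ≤ nrm y := not_lt.1 hy.2
    obtain ⟨hl, htn⟩ := bz_tn_far hr3 hr2 hx' hy.1 hy2
    obtain ⟨g1, g2⟩ := hGr (x - y) hl
    have hdiv : CG / tn (x - y) ≤ CG / r3 := div_le_div_of_nonneg_left hCG.le hr3 htn
    unfold PX
    rw [(w1 y hy.1 hy2).1, (w2 y hy.1 hy2).1, sub_zero, sub_zero]
    exact hforce (bz_disc_Q hr2' hx) (g1.trans hdiv) (g2.trans hdiv)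
  have b6 : |S + 1 / (2 * π) * (2 * a * t + α * (g1 ^ 2 - g2 ^ 2) - 2 * β * g1 * g2)| ≤
      2 * (4 * CR) * t * m3 := by
    refine bz_dbl hmu nn hPm hPM hr2' ?_
    intro x hx y hy hxy
    have hx' : nrm x < r3 := hx
    have hy' : nrm y < r3 := hy
    exact bz_near hG hCR hR hr8 hα hβ hx' hy' hxy (e1 x hx'.le).2 (e1 y hy'.le).2 (e2 x hx'.le).2
      (e2 y hy'.le).2
  -- the quadratic term
  have hg1le : |g1| ≤ C1 * kap := hc.c1
  have hg2le : |g2| ≤ C1 * kap := hc.c2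
  clear hS hS' hTT hE1 hE3 hE4 ht ha hg1 hg2 hm3 hρ
  clear_value t a g1 g2 m3 ρ E1 TT E3 E4 S S'
  have hq := bz_q hα hβ hk hk1 hg1le hg2le
  -- conclusion
  obtain ⟨q, hqdef⟩ : ∃ q, q = α * (g1 ^ 2 - g2 ^ 2) - 2 * β * g1 * g2 := ⟨_, rfl⟩
  rw [← hqdef] at hq
  have hb6 : |S + 1 / (2 * π) * (2 * a * t + q)| ≤ 2 * (4 * CR) * t * m3 := by
    have : 2 * a * t + q = 2 * a * t + α * (g1 ^ 2 - g2 ^ 2) - 2 * β * g1 * g2 := by
      rw [hqdef]; ring
    rw [this]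
    exact b6
  have hid : (6 - 4 * t) * a = 2 * q - 4 * π * (S + 1 / (2 * π) * (2 * a * t + q)) -
      (E1 - 6 * a) - 4 * π * (TT - S - 2 * S') - 8 * π * S' + E3 - N * E4 := by
    have h1 : 4 * π * (S + 1 / (2 * π) * (2 * a * t + q)) =
        4 * π * S + 2 * (2 * a * t + q) := bz_pi _ _
    rw [h1]
    clear * - hvv
    linear_combination hvv
  have hbound := bz_bd (by linarith : (0 : ℝ) ≤ N) hid hq hb6 b1 b2 b5 b3 b4
  exact bz_end hN' hk hC1 hCR hL1.le hL2.le hM.le hCG hCF hCU hr3 ht0 ht1 hm30 hρ0 hm3le hρle hlam hbound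

/-- L9.7: the `z^3` virial -/
theorem c2_z3 {K R : ℝ × ℝ → ℝ} (hG : IsGreen K R) {rp : ℝ} (hrp : GoodRp K rp) {r1 : ℝ}
    (hr : 0 < r1) (hr' : r1 ≤ 1 / 32) {r3 : ℝ} (hr3 : 0 < r3) (hr31 : 64 * r3 ≤ r1)
    (hr3p : 64 * r3 ≤ rp) {C1 : ℝ} (hC1 : 0 < C1) :
    ∃ C : ℝ, 0 < C ∧ ∀ (N : ℕ) (z : ℝ × ℝ) (k kap : ℝ) (mu s : ℝ × ℝ → ℝ), 3 ≤ N →
      Conc K N z k mu s rp r1 r3 kap C1 → 0 < kap → kap ≤ 1 →
      |∫ x in Disc r3, (x.1 ^ 2 - x.2 ^ 2) * mu x| ≤ C * N * kap ∧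
      |∫ x in Disc r3, 2 * x.1 * x.2 * mu x| ≤ C * N * kap := by
  obtain ⟨Ca, hCa, ha⟩ := bz_comb hG hrp hr' hr3 hr31 hr3p hC1 (α := 1) (β := 0)
    (by simp) (by simp)
  obtain ⟨Cb, hCb, hb⟩ := bz_comb hG hrp hr' hr3 hr31 hr3p hC1 (α := 0) (β := -1)
    (by simp) (by simp)
  refine ⟨Ca + Cb, by positivity, ?_⟩
  intro N z k kap mu s hN hc hk hk1
  have h1 := ha N z k kap mu s hN hc hk hk1
  have h2 := hb N z k kap mu s hN hc hk hk1
  have e1 : ∀ x : ℝ × ℝ, bzA 1 0 x * mu x = (x.1 ^ 2 - x.2 ^ 2) * mu x := by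
    intro x; unfold bzA; ring
  have e2 : ∀ x : ℝ × ℝ, bzA 0 (-1) x * mu x = 2 * x.1 * x.2 * mu x := by
    intro x; unfold bzA; ring
  simp_rw [e1] at h1
  simp_rw [e2] at h2
  have hNk : (0 : ℝ) ≤ N * kap := by positivity
  constructor
  · refine h1.trans ?_
    nlinarith
  · refine h2.trans ?_
    nlinarith

end Pool.Agent.AO
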