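import Pool.Agent.Lib.MP_10e52e_an.Dens
import Pool.Agent.Lib.MP_10e52e_an.Ident
import Pool.Agent.Lib.MP_10e52e_an.Bz3

/-! MP_10e52e_an row BU: U part of L9.10 -/

namespace Pool.Agent.AO

open MeasureTheory Set Real
open scoped ContDiff

theorem bu_continuous_nsq : Continuous nsq := by unfold nsq; fun_prop

theorem bu_continuous_nrm : Continuous nrm := Real.continuous_sqrt.comp bu_continuous_nsq

theorem bu_Disc_open (r : ℝ) : IsOpen (Disc r) := isOpen_lt bu_continuous_nrm continuous_const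

theorem bu_Disc_meas (r : ℝ) : MeasurableSet (Disc r) := (bu_Disc_open r).measurableSet

theorem bu_abs1 (x : ℝ × ℝ) : |x.1| ≤ nrm x :=
  Real.abs_le_sqrt (by unfold nsq; nlinarith [sq_nonneg x.2])

theorem bu_abs2 (x : ℝ × ℝ) : |x.2| ≤ nrm x :=
  Real.abs_le_sqrt (by unfold nsq; nlinarith [sq_nonneg x.1])

theorem bu_nrm_nonneg (x : ℝ × ℝ) : 0 ≤ nrm x := Real.sqrt_nonneg _

theorem bu_nsq_eq (x : ℝ × ℝ) : nsq x = nrm x ^ 2 := by
  unfold nrm; rw [Real.sq_sqrt]; unfold nsq; positivity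

theorem bu_Disc_Q {r : ℝ} (hr : r ≤ 1 / 2) : Disc r ⊆ Q := by
  intro x hx
  have hx' : nrm x < r := hx
  have h1 := abs_lt.1 ((bu_abs1 x).trans_lt (hx'.trans_le hr))
  have h2 := abs_lt.1 ((bu_abs2 x).trans_lt (hx'.trans_le hr))
  exact ⟨⟨by linarith [h1.1], h1.2.le⟩, ⟨by linarith [h2.1], h2.2.le⟩⟩

theorem bu_Disc_lt_top {r : ℝ} (hr : r ≤ 1 / 2) : (volume : Measure (ℝ × ℝ)) (Disc r) < ⊤ := by
  refine (measure_mono (bu_Disc_Q hr)).trans_lt ?_
  rw [Q, Measure.volume_eq_prod, Measure.prod_prod, Real.volume_Ioc]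
  exact ENNReal.mul_lt_top ENNReal.ofReal_lt_top ENNReal.ofReal_lt_top

/-- bounded measurable functions are integrable on discs -/
theorem bu_integrable {r : ℝ} (hr : r ≤ 1 / 2) {F : ℝ × ℝ → ℝ} (hF : Measurable F) {M : ℝ}
    (hM : ∀ x ∈ Disc r, |F x| ≤ M) : IntegrableOn F (Disc r) := by
  refine Measure.integrableOn_of_bounded (M := M) (bu_Disc_lt_top hr).ne
    hF.aestronglyMeasurable ?_
  exact (ae_restrict_iff' (bu_Disc_meas r)).2 (Filter.Eventually.of_forall fun x hx => hM x hx)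

/-- the integral of a function vanishing off `Disc (2r)` -/
theorem bu_split {r : ℝ} (hr0 : 0 < r) (hr : 2 * r ≤ 1 / 2) {F : ℝ × ℝ → ℝ}
    (hF : IntegrableOn F (Disc (2 * r))) (h0 : ∀ x ∈ Q, 2 * r ≤ nrm x → F x = 0) :
    TI F = (∫ x in Disc r, F x) + ∫ x in Disc (2 * r) \ Disc r, F x := by
  have h1 : TI F = ∫ x in Disc (2 * r), F x := by
    have hQ : MeasurableSet Q := measurableSet_Ioc.prod measurableSet_Ioc
    have h3 : ∀ x ∈ Q \ Disc (2 * r), F x = 0 := by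
      rintro x ⟨hx, hx'⟩
      exact h0 x hx (not_lt.1 hx')
    exact setIntegral_eq_of_subset_of_forall_sdiff_eq_zero hQ (bu_Disc_Q hr) h3
  have h2 : Disc (2 * r) ∩ Disc r = Disc r :=
    inter_eq_right.2 fun x (hx : nrm x < r) => show nrm x < 2 * r by linarith
  rw [h1, ← integral_inter_add_sdiff (bu_Disc_meas r) hF, h2]

theorem bu_meas_D1 (f : ℝ × ℝ → ℝ) : Measurable (D1 f) := measurable_fderiv_apply_const ℝ f _

theorem bu_meas_D2 (f : ℝ × ℝ → ℝ) : Measurable (D2 f) := measurable_fderiv_apply_const ℝ f _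

/-- bound on the ring -/
theorem bu_ring {r : ℝ} (hr : 2 * r ≤ 1 / 2) {mu F : ℝ × ℝ → ℝ} (hmu : Continuous mu)
    (nn : ∀ x, 0 ≤ mu x) {M : ℝ} (hF : ∀ x ∈ Disc (2 * r), |F x| ≤ M) :
    |∫ x in Disc (2 * r) \ Disc r, mu x * F x| ≤ M * ∫ x in Disc (2 * r) \ Disc r, mu x := by
  have hms : MeasurableSet (Disc (2 * r) \ Disc r) := (bu_Disc_meas _).diff (bu_Disc_meas _)
  have hi : IntegrableOn mu (Disc (2 * r) \ Disc r) := by
    have h1 : IntegrableOn mu (Icc (-1 / 2 : ℝ) (1 / 2) ×ˢ Icc (-1 / 2 : ℝ) (1 / 2)) :=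
      hmu.continuousOn.integrableOn_compact (isCompact_Icc.prod isCompact_Icc)
    exact h1.mono_set ((sdiff_subset.trans (bu_Disc_Q hr)).trans
      (prod_mono Ioc_subset_Icc_self Ioc_subset_Icc_self))
  have h1 : ‖∫ x in Disc (2 * r) \ Disc r, mu x * F x‖ ≤
      ∫ x in Disc (2 * r) \ Disc r, M * mu x := by
    refine norm_integral_le_of_norm_le (hi.const_mul M) ?_
    refine (ae_restrict_iff' hms).2 (Filter.Eventually.of_forall fun x hx => ?_)
    rw [Real.norm_eq_abs, abs_mul, abs_of_nonneg (nn x), mul_comm]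
    exact mul_le_mul_of_nonneg_right (hF x hx.1) (nn x)
  rw [integral_const_mul] at h1
  exact h1

theorem bu_int5 {S : Set (ℝ × ℝ)} {g f1 f2 f3 f4 f5 : ℝ × ℝ → ℝ} (h : IntegrableOn g S)
    (h1 : IntegrableOn f1 S) (h2 : IntegrableOn f2 S) (h3 : IntegrableOn f3 S)
    (h4 : IntegrableOn f4 S) (h5 : IntegrableOn f5 S) (c1 c2 c3 c4 c5 : ℝ) :
    ∫ x in S, (g x - (c1 * f1 x + c2 * f2 x + c3 * f3 x + c4 * f4 x + c5 * f5 x)) =
      (∫ x in S, g x) - (c1 * (∫ x in S, f1 x) + c2 * (∫ x in S, f2 x) + c3 * (∫ x in S, f3 x) +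
        c4 * (∫ x in S, f4 x) + c5 * (∫ x in S, f5 x)) := by
  have j1 : IntegrableOn (fun x => c1 * f1 x) S := h1.const_mul c1
  have j2 : IntegrableOn (fun x => c2 * f2 x) S := h2.const_mul c2
  have j3 : IntegrableOn (fun x => c3 * f3 x) S := h3.const_mul c3
  have j4 : IntegrableOn (fun x => c4 * f4 x) S := h4.const_mul c4
  have j5 : IntegrableOn (fun x => c5 * f5 x) S := h5.const_mul c5
  have k2 : IntegrableOn (fun x => c1 * f1 x + c2 * f2 x) S := j1.add j2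
  have k3 : IntegrableOn (fun x => c1 * f1 x + c2 * f2 x + c3 * f3 x) S := k2.add j3
  have k4 : IntegrableOn (fun x => c1 * f1 x + c2 * f2 x + c3 * f3 x + c4 * f4 x) S := k3.add j4
  have k5 : IntegrableOn (fun x => c1 * f1 x + c2 * f2 x + c3 * f3 x + c4 * f4 x + c5 * f5 x) S :=
    k4.add j5
  rw [integral_sub h k5, integral_add k4 j5, integral_add k3 j4, integral_add k2 j3,
    integral_add j1 j2, integral_const_mul, integral_const_mul, integral_const_mul,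
    integral_const_mul, integral_const_mul]

/-- L9.10, the `U` part and the divergence -/
theorem c2_Upart {K R : ℝ × ℝ → ℝ} (hG : IsGreen K R) {rp : ℝ} (hrp : GoodRp K rp) {r1 : ℝ}
    (hr : 0 < r1) (hr' : r1 ≤ 1 / 32) {r3 : ℝ} (hr3 : 0 < r3) (hr31 : 64 * r3 ≤ r1)
    (hr3p : 64 * r3 ≤ rp) {C1 : ℝ} (hC1 : 0 < C1) :
    ∃ C : ℝ, 0 < C ∧ ∀ (N : ℕ) (z : ℝ × ℝ) (k kap : ℝ) (mu s : ℝ × ℝ → ℝ), 3 ≤ N →
      Conc K N z k mu s rp r1 r3 kap C1 → 0 < kap → kap ≤ 1 →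
      |TI (fun x => mu x * (Xr r3 (fun x => x.1) x * D1 (Uz K z) x +
          Xr r3 (fun x => x.2) x * D2 (Uz K z) x))
        + 2 * π * ∫ x in Disc r3, nsq x * mu x| ≤ C * N * kap ∧
      |TI (fun x => mu x * (D1 (Xr r3 (fun x => x.1)) x + D2 (Xr r3 (fun x => x.2)) x))
        - 2 * ∫ x in Disc r3, mu x| ≤ C * kap := by
  have hrp0 : 0 < rp := hrp.1
  obtain ⟨C0, hC0, hU⟩ := U_taylor hG (r := rp / 2) (by positivity)
  obtain ⟨C3, hC3, hz3⟩ := c2_z3 hG hrp hr hr' hr3 hr31 hr3p hC1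
  have f1 : ContDiff ℝ ∞ (fun x : ℝ × ℝ => x.1) := contDiff_fst
  have f2 : ContDiff ℝ ∞ (fun x : ℝ × ℝ => x.2) := contDiff_snd
  have X1 := Xr_basic hr3 (by linarith) f1
  have X2 := Xr_basic hr3 (by linarith) f2
  have le1 : (1 : WithTop ℕ∞) ≤ ∞ := by exact_mod_cast le_top
  obtain ⟨L1, hL1, b1, d1, -⟩ := per_lip (X1.1.of_le le1) X1.2.1
  obtain ⟨L2, hL2, b2, d2, -⟩ := per_lip (X2.1.of_le le1) X2.2.1
  refine ⟨(L1 * C0 + L2 * C0) * C1 + 2 * (C0 * C1) + 2 * (C0 * C3) + C0 * C1 + (L1 + L2 + 2) * C1,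
    by positivity, fun N z k kap mu s hN hc hk hk1 => ?_⟩
  obtain ⟨hU1, a, b, ha, hb, hU2⟩ := hU z hc.far
  obtain ⟨z1, z2⟩ := hz3 N z k kap mu s hN hc hk hk1
  have hmu := hc.mf.smu.continuous
  have nn := hc.mf.nn
  have hN1 : (1 : ℝ) ≤ N := by exact_mod_cast (by omega : 1 ≤ N)
  have h2r : 2 * r3 ≤ 1 / 2 := by linarith
  have hr2 : r3 ≤ 1 / 2 := by linarith
  obtain ⟨Mm, hMm⟩ : ∃ Mm, ∀ x ∈ Disc (2 * r3), |mu x| ≤ Mm := by
    obtain ⟨M, hM⟩ := (isCompact_Icc.prod isCompact_Icc :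
      IsCompact (Icc (-1 / 2 : ℝ) (1 / 2) ×ˢ Icc (-1 / 2 : ℝ) (1 / 2))).exists_bound_of_continuousOn
      hmu.continuousOn
    exact ⟨M, fun x hx => hM x (prod_mono Ioc_subset_Icc_self Ioc_subset_Icc_self
      (bu_Disc_Q h2r hx))⟩
  have hMm0 : 0 ≤ Mm := (abs_nonneg _).trans (hMm 0 (by
    show nrm 0 < 2 * r3
    have : nrm 0 = 0 := by simp [nrm, nsq]
    rw [this]; positivity))
  have hD : ∀ x ∈ Disc (2 * r3), |D1 (Uz K z) x| ≤ C0 ∧ |D2 (Uz K z) x| ≤ C0 := by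
    intro x hx
    have hx' : nrm x < 2 * r3 := hx
    exact hU1 x (by linarith)
  have hsub : Disc r3 ⊆ Disc (2 * r3) := fun x (hx : nrm x < r3) => show nrm x < 2 * r3 by linarith
  have hmeas := hmu.measurable
  -- continuous functions are integrable on the disc
  have hci : ∀ F : ℝ × ℝ → ℝ, Continuous F → IntegrableOn F (Disc r3) := by
    intro F hF
    have h1 : IntegrableOn F (Icc (-1 / 2 : ℝ) (1 / 2) ×ˢ Icc (-1 / 2 : ℝ) (1 / 2)) :=
      hF.continuousOn.integrableOn_compact (isCompact_Icc.prod isCompact_Icc)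
    exact h1.mono_set ((bu_Disc_Q hr2).trans (prod_mono Ioc_subset_Icc_self Ioc_subset_Icc_self))
  constructor
  · set F : ℝ × ℝ → ℝ := fun x => Xr r3 (fun x => x.1) x * D1 (Uz K z) x +
      Xr r3 (fun x => x.2) x * D2 (Uz K z) x with hF
    have hFm : Measurable F :=
      (X1.1.continuous.measurable.mul (bu_meas_D1 _)).add
        (X2.1.continuous.measurable.mul (bu_meas_D2 _))
    have hFb : ∀ x ∈ Disc (2 * r3), |F x| ≤ L1 * C0 + L2 * C0 := by
      intro x hx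
      obtain ⟨u1, u2⟩ := hD x hx
      refine (abs_add_le _ _).trans ?_
      rw [abs_mul, abs_mul]
      gcongr
      · exact b1 x
      · exact b2 x
    have hint : IntegrableOn (fun x => mu x * F x) (Disc (2 * r3)) := by
      refine bu_integrable h2r (hmeas.mul hFm) (M := Mm * (L1 * C0 + L2 * C0)) fun x hx => ?_
      rw [abs_mul]
      exact mul_le_mul (hMm x hx) (hFb x hx) (abs_nonneg _) hMm0
    have hsplit := bu_split hr3 h2r hint (fun x hx hx' => by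
      rw [hF]
      simp only [(X1.2.2.2.2.2.2.1 x hx hx').1, (X2.2.2.2.2.2.2.1 x hx hx').1]
      ring)
    have hring := bu_ring h2r hmu nn hFb
    have hring' : |∫ x in Disc (2 * r3) \ Disc r3, mu x * F x| ≤ (L1 * C0 + L2 * C0) * (C1 * kap) :=
      hring.trans (mul_le_mul_of_nonneg_left hc.ring (by positivity))
    -- the main part
    set A1 := D1 (Uz K z) 0 with hA1
    set A2 := D2 (Uz K z) 0 with hA2
    have hz0 : nrm (0 : ℝ × ℝ) ≤ rp / 2 / 2 := by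
      have : nrm (0 : ℝ × ℝ) = 0 := by simp [nrm, nsq]
      rw [this]; positivity
    obtain ⟨hA1', hA2'⟩ := hU1 0 hz0
    have i0 : IntegrableOn (fun x => mu x * F x) (Disc r3) := hint.mono_set hsub
    have i1 := hci (fun x => x.1 * mu x) (by fun_prop)
    have i2 := hci (fun x => x.2 * mu x) (by fun_prop)
    have i3 := hci (fun x => nsq x * mu x) (bu_continuous_nsq.mul hmu)
    have i4 := hci (fun x => (x.1 ^ 2 - x.2 ^ 2) * mu x) (by fun_prop)
    have i5 := hci (fun x => 2 * x.1 * x.2 * mu x) (by fun_prop)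
    have i6 := hci (fun x => nrm x ^ 3 * mu x) ((bu_continuous_nrm.pow 3).mul hmu)
    have herr : |∫ x in Disc r3, (mu x * F x - (A1 * (x.1 * mu x) + A2 * (x.2 * mu x) +
        (-(2 * π)) * (nsq x * mu x) + a * ((x.1 ^ 2 - x.2 ^ 2) * mu x) +
        b * (2 * x.1 * x.2 * mu x)))| ≤ ∫ x in Disc r3, C0 * (nrm x ^ 3 * mu x) := by
      rw [← Real.norm_eq_abs]
      refine norm_integral_le_of_norm_le (i6.const_mul C0) ?_
      refine (ae_restrict_iff' (bu_Disc_meas r3)).2 (Filter.Eventually.of_forall fun x hx => ?_)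
      have hx' : nrm x < r3 := hx
      have h1 := hU2 x (by linarith)
      have h2 : F x = x.1 * D1 (Uz K z) x + x.2 * D2 (Uz K z) x := by
        rw [hF]
        simp only [(X1.2.2.2.1 x hx'.le).2, (X2.2.2.2.1 x hx'.le).2]
      have h3 : mu x * F x - (A1 * (x.1 * mu x) + A2 * (x.2 * mu x) +
        (-(2 * π)) * (nsq x * mu x) + a * ((x.1 ^ 2 - x.2 ^ 2) * mu x) +
        b * (2 * x.1 * x.2 * mu x)) = mu x * (x.1 * D1 (Uz K z) x + x.2 * D2 (Uz K z) x
          - (x.1 * A1 + x.2 * A2)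
          - (-(2 * π) * nsq x + a * (x.1 ^ 2 - x.2 ^ 2) + b * (2 * x.1 * x.2))) := by
        rw [h2]; ring
      rw [h3, Real.norm_eq_abs, abs_mul, abs_of_nonneg (nn x)]
      calc mu x * _ ≤ mu x * (C0 * nrm x ^ 3) := mul_le_mul_of_nonneg_left h1 (nn x)
        _ = C0 * (nrm x ^ 3 * mu x) := by ring
    have e1 : ∫ x in Disc r3, (mu x * F x - (A1 * (x.1 * mu x) + A2 * (x.2 * mu x) +
        (-(2 * π)) * (nsq x * mu x) + a * ((x.1 ^ 2 - x.2 ^ 2) * mu x) +
        b * (2 * x.1 * x.2 * mu x))) = (∫ x in Disc r3, mu x * F x) -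
        (A1 * (∫ x in Disc r3, x.1 * mu x) + A2 * (∫ x in Disc r3, x.2 * mu x) +
        (-(2 * π)) * (∫ x in Disc r3, nsq x * mu x) +
        a * (∫ x in Disc r3, (x.1 ^ 2 - x.2 ^ 2) * mu x) +
        b * (∫ x in Disc r3, 2 * x.1 * x.2 * mu x)) :=
      bu_int5 i0 i1 i2 i3 i4 i5 A1 A2 (-(2 * π)) a b
    rw [e1, integral_const_mul] at herr
    set J0 := ∫ x in Disc r3, mu x * F x
    set J1 := ∫ x in Disc r3, x.1 * mu x
    set J2 := ∫ x in Disc r3, x.2 * mu x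
    set J3 := ∫ x in Disc r3, nsq x * mu x
    set J4 := ∫ x in Disc r3, (x.1 ^ 2 - x.2 ^ 2) * mu x
    set J5 := ∫ x in Disc r3, 2 * x.1 * x.2 * mu x
    set J6 := ∫ x in Disc r3, nrm x ^ 3 * mu x
    set J7 := ∫ x in Disc (2 * r3) \ Disc r3, mu x * F x
    have t1 : |A1 * J1| ≤ C0 * (C1 * kap) := by
      rw [abs_mul]; exact mul_le_mul hA1' hc.c1 (abs_nonneg _) hC0.le
    have t2 : |A2 * J2| ≤ C0 * (C1 * kap) := by
      rw [abs_mul]; exact mul_le_mul hA2' hc.c2 (abs_nonneg _) hC0.le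
    have t4 : |a * J4| ≤ C0 * (C3 * N * kap) := by
      rw [abs_mul]; exact mul_le_mul ha z1 (abs_nonneg _) hC0.le
    have t5 : |b * J5| ≤ C0 * (C3 * N * kap) := by
      rw [abs_mul]; exact mul_le_mul hb z2 (abs_nonneg _) hC0.le
    have t6 : C0 * J6 ≤ C0 * (C1 * kap) := mul_le_mul_of_nonneg_left hc.m3 hC0.le
    have e2 : TI (fun x => mu x * F x) + 2 * π * J3 =
        (J0 - (A1 * J1 + A2 * J2 + -(2 * π) * J3 + a * J4 + b * J5)) + A1 * J1 + A2 * J2 +
          a * J4 + b * J5 + J7 := by rw [hsplit]; ring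
    rw [e2]
    have q1 := abs_add_le ((J0 - (A1 * J1 + A2 * J2 + -(2 * π) * J3 + a * J4 + b * J5)) +
      A1 * J1 + A2 * J2 + a * J4 + b * J5) J7
    have q2 := abs_add_le ((J0 - (A1 * J1 + A2 * J2 + -(2 * π) * J3 + a * J4 + b * J5)) +
      A1 * J1 + A2 * J2 + a * J4) (b * J5)
    have q3 := abs_add_le ((J0 - (A1 * J1 + A2 * J2 + -(2 * π) * J3 + a * J4 + b * J5)) +
      A1 * J1 + A2 * J2) (a * J4)
    have q4 := abs_add_le ((J0 - (A1 * J1 + A2 * J2 + -(2 * π) * J3 + a * J4 + b * J5)) +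
      A1 * J1) (A2 * J2)
    have q5 := abs_add_le (J0 - (A1 * J1 + A2 * J2 + -(2 * π) * J3 + a * J4 + b * J5)) (A1 * J1)
    have hkN : kap ≤ N * kap := by nlinarith
    have n1 : (L1 * C0 + L2 * C0) * (C1 * kap) ≤ (L1 * C0 + L2 * C0) * C1 * (N * kap) := by
      rw [← mul_assoc]; gcongr
    have n2 : C0 * (C1 * kap) ≤ C0 * C1 * (N * kap) := by
      rw [← mul_assoc]; gcongr
    have n3 : 0 ≤ (L1 + L2 + 2) * C1 * (N * kap) := by positivity
    calc _ ≤ C0 * (C1 * kap) + C0 * (C1 * kap) + C0 * (C1 * kap) + C0 * (C3 * N * kap) +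
          C0 * (C3 * N * kap) + (L1 * C0 + L2 * C0) * (C1 * kap) := by linarith
      _ ≤ _ := by linarith
  · set F : ℝ × ℝ → ℝ := fun x => D1 (Xr r3 (fun x => x.1)) x + D2 (Xr r3 (fun x => x.2)) x with hF
    have hFm : Measurable F := (bu_meas_D1 _).add (bu_meas_D2 _)
    have hFb : ∀ x, |F x| ≤ L1 + L2 := fun x =>
      (abs_add_le _ _).trans (add_le_add (d1 x).1 (d2 x).2)
    have hint : IntegrableOn (fun x => mu x * F x) (Disc (2 * r3)) := by
      refine bu_integrable h2r (hmeas.mul hFm) (M := Mm * (L1 + L2)) fun x hx => ?_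
      rw [abs_mul]
      exact mul_le_mul (hMm x hx) (hFb x) (abs_nonneg _) hMm0
    have hsplit := bu_split hr3 h2r hint (fun x hx hx' => by
      rw [hF]
      simp only [(X1.2.2.2.2.2.2.1 x hx hx').2.1, (X2.2.2.2.2.2.2.1 x hx hx').2.2]
      ring)
    have hring := bu_ring h2r hmu nn (fun x _ => hFb x)
    have hring' : |∫ x in Disc (2 * r3) \ Disc r3, mu x * F x| ≤ (L1 + L2) * (C1 * kap) :=
      hring.trans (mul_le_mul_of_nonneg_left hc.ring (by positivity))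
    have hmain : ∫ x in Disc r3, mu x * F x = 2 * ∫ x in Disc r3, mu x := by
      rw [← integral_const_mul]
      refine setIntegral_congr_fun (bu_Disc_meas r3) fun x hx => ?_
      have hx' : nrm x < r3 := hx
      have g1 : D1 (fun x : ℝ × ℝ => x.1) x = 1 := by
        have : HasFDerivAt (fun x : ℝ × ℝ => x.1) (ContinuousLinearMap.fst ℝ ℝ ℝ) x :=
          hasFDerivAt_fst
        rw [D1, this.fderiv]; rfl
      have g2 : D2 (fun x : ℝ × ℝ => x.2) x = 1 := by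
        have : HasFDerivAt (fun x : ℝ × ℝ => x.2) (ContinuousLinearMap.snd ℝ ℝ ℝ) x :=
          hasFDerivAt_snd
        rw [D2, this.fderiv]; rfl
      have g3 : F x = 2 := by
        rw [hF]
        simp only [(X1.2.2.2.2.1 x hx').1, (X2.2.2.2.2.1 x hx').2, g1, g2]
        norm_num
      show mu x * F x = 2 * mu x
      rw [g3, mul_comm]
    rw [hsplit, hmain]
    have e3 : (2 * ∫ x in Disc r3, mu x) + (∫ x in Disc (2 * r3) \ Disc r3, mu x * F x) -
        2 * ∫ x in Disc r3, mu x = ∫ x in Disc (2 * r3) \ Disc r3, mu x * F x := by ring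
    rw [e3]
    refine hring'.trans ?_
    have p1 : 0 ≤ ((L1 * C0 + L2 * C0) * C1 + 2 * (C0 * C1) + 2 * (C0 * C3) + C0 * C1 + 2 * C1) * kap := by
      positivity
    nlinarith [p1]

end Pool.Agent.AO
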