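import Pool.Agent.Lib.MP_10e52e_an.Defs3

/-! MP_10e52e_an: cut-off fields and the data of Case 2. -/

namespace Pool.Agent.AO

open MeasureTheory Set Real
open scoped ContDiff

/-- radial cut-off: 1 for `|x| <= r`, 0 for `|x| >= 2r` -/
noncomputable def chi (r : ℝ) (x : ℝ × ℝ) : ℝ :=
  1 - Real.smoothTransition ((nsq x - r ^ 2) / (3 * r ^ 2))

/-- periodised cut-off function `chi_r f` -/
noncomputable def Xr (r : ℝ) (f : ℝ × ℝ → ℝ) : ℝ × ℝ → ℝ := perz (fun x => chi r x * f x)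

/-- logarithmic cut-off: 1 for `|x| <= q`, 0 for `|x| >= e^L q` -/
noncomputable def chl (L q : ℝ) (x : ℝ × ℝ) : ℝ :=
  Real.smoothTransition (1 - Real.log (nrm x / q) / L)

/-- Case 1: no ball of radius `r1/8` centred outside `Disc r1` has mass above 1/5 -/
def NoFar (mu : ℝ × ℝ → ℝ) (r1 : ℝ) : Prop :=
  ∀ x ∈ Q, r1 ≤ nrm x → bm mu x (r1 / 8) ≤ 1 / 5

/-- `Y . grad U <= -1` near `p` -/
def GoodRp (K : ℝ × ℝ → ℝ) (rp : ℝ) : Prop := 0 < rp ∧ rp ≤ 1 / 8 ∧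
  ∀ x, x - pt ∉ Lat → tn (x - pt) ≤ rp →
    Real.sin (2 * π * x.1) * D1 (Uz K 0) x + Real.sin (2 * π * x.2) * D2 (Uz K 0) x ≤ -(2 * π)

/-- Concentrated data in coordinates relative to the mean `z` (L9.6) -/
structure Conc (K : ℝ × ℝ → ℝ) (N : ℕ) (z : ℝ × ℝ) (k : ℝ) (mu s : ℝ × ℝ → ℝ)
    (rp r1 r3 kap C : ℝ) : Prop where
  mf : IsMF K N z k mu s
  t9 : 9 / 10 ≤ ∫ x in Disc r3, mu x
  m1 : ∫ x in Disc r3, nrm x * mu x ≤ C * Real.sqrt kap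
  m3 : ∫ x in Disc r3, nrm x ^ 3 * mu x ≤ C * kap
  c1 : |∫ x in Disc r3, x.1 * mu x| ≤ C * kap
  c2 : |∫ x in Disc r3, x.2 * mu x| ≤ C * kap
  ring : ∫ x in Disc (2 * r3) \ Disc r3, mu x ≤ C * kap
  far : rp / 2 ≤ tn (z - pt)
  zfar : r1 / 2 ≤ tn z

end Pool.Agent.AO
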