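import Pool.Agent.Lib.MP_10e52e_an.Green
import Pool.Agent.Lib.MP_10e52e_an.Defs4

/-! MP_10e52e_an row Bker: L9.9 -/

namespace Pool.Agent.AO

open MeasureTheory Set Real
open scoped ContDiff

theorem bker_int0 : IntegrableOn (fun w : ℝ × ℝ => ‖w‖⁻¹) (Metric.ball 0 1) := by
  have h := (integrableOn_fun_norm_addHaar (E := ℝ × ℝ) (volume : Measure (ℝ × ℝ))
    (f := fun r : ℝ => r⁻¹) (r := 1)).2 (by
      have h1 : IntegrableOn (fun _ : ℝ => (1 : ℝ)) (Ioo 0 1) := by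
        simp
      refine h1.congr_fun ?_ measurableSet_Ioo
      intro y hy
      have hy0 : y ≠ 0 := ne_of_gt hy.1
      simp [hy0])
  exact h

theorem bker_taylor {f : ℝ × ℝ → ℝ} {V : Set (ℝ × ℝ)} (hV : IsOpen V)
    (hf : ContDiffOn ℝ 2 f V) {K : Set (ℝ × ℝ)} (hK : IsCompact K) (hc : Convex ℝ K)
    (hKV : K ⊆ V) : ∃ C : ℝ, 0 < C ∧ ∀ z ∈ K, ∀ w ∈ K,
      |f w - f z - ((w.1 - z.1) * D1 f z + (w.2 - z.2) * D2 f z)| ≤ C * ‖w - z‖ ^ 2 := by
  have hf1 : ContDiffOn ℝ 1 (fderiv ℝ f) V := hf.fderiv_of_isOpen hV (by norm_num)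
  have hf2 : ContinuousOn (fderiv ℝ (fderiv ℝ f)) V :=
    hf1.continuousOn_fderiv_of_isOpen hV (by norm_num)
  obtain ⟨C0, hC0⟩ := hK.exists_bound_of_continuousOn (f := fderiv ℝ (fderiv ℝ f))
    (hf2.mono hKV)
  refine ⟨|C0| + 1, by positivity, ?_⟩
  intro z hz w hw
  have hd : ∀ u ∈ K, DifferentiableAt ℝ f u := fun u hu =>
    (hf.differentiableOn (by norm_num)).differentiableAt (hV.mem_nhds (hKV hu))
  have hd1 : ∀ u ∈ K, DifferentiableAt ℝ (fderiv ℝ f) u := fun u hu =>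
    (hf1.differentiableOn (by norm_num)).differentiableAt (hV.mem_nhds (hKV hu))
  have hlip : ∀ u ∈ K, ‖fderiv ℝ f u - fderiv ℝ f z‖ ≤ (|C0| + 1) * ‖u - z‖ := by
    intro u hu
    refine hc.norm_image_sub_le_of_norm_fderiv_le hd1 (fun v hv => ?_) hz hu
    have := hC0 v hv
    have := le_abs_self C0
    linarith
  have hseg : segment ℝ z w ⊆ K := hc.segment_subset hz hw
  have hsegn : ∀ u ∈ segment ℝ z w, ‖u - z‖ ≤ ‖w - z‖ := by
    intro u hu
    rw [segment_eq_image'] at hu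
    obtain ⟨t, ht, rfl⟩ := hu
    simp only [add_sub_cancel_left, norm_smul, Real.norm_eq_abs, abs_of_nonneg ht.1]
    have := norm_nonneg (w - z)
    nlinarith [ht.2]
  have hmain := (convex_segment z w).norm_image_sub_le_of_norm_fderiv_le' (𝕜 := ℝ) (f := f)
    (φ := fderiv ℝ f z) (C := (|C0| + 1) * ‖w - z‖) (fun u hu => hd u (hseg hu))
    (fun u hu => (hlip u (hseg hu)).trans (by
      have := hsegn u hu
      have h0 : 0 ≤ |C0| + 1 := by positivity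
      exact mul_le_mul_of_nonneg_left this h0)) (left_mem_segment ℝ z w)
    (right_mem_segment ℝ z w)
  have hlin : fderiv ℝ f z (w - z) = (w.1 - z.1) * D1 f z + (w.2 - z.2) * D2 f z := by
    have : w - z = (w.1 - z.1) • ((1:ℝ), (0:ℝ)) + (w.2 - z.2) • ((0:ℝ), (1:ℝ)) := by
      ext <;> simp
    conv_lhs => rw [this]
    simp only [map_add, map_smul, smul_eq_mul, D1, D2]
  rw [hlin, Real.norm_eq_abs] at hmain
  calc _ ≤ _ := hmain
    _ = _ := by ring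

theorem bker_real (a b d s : ℝ) (ha : 0 ≤ a) (hb : 0 < b) (hd : 0 < d) (hs : |s| ≤ a * b)
    (hd2 : d ^ 2 = b ^ 2 - 2 * s + a ^ 2) (hxd : |a ^ 2 - s| ≤ a * d) :
    b ^ 2 * |(a ^ 2 - s) / d ^ 2 + s / b ^ 2 + (2 * s ^ 2 - a ^ 2 * b ^ 2) / b ^ 4| ≤
      34 * a ^ 3 * (1 / b + 1 / d) := by
  have hs1 := (abs_le.1 hs).1
  have hs2 := (abs_le.1 hs).2
  have hss : s ^ 2 ≤ a ^ 2 * b ^ 2 := by
    have : |s| ^ 2 ≤ (a * b) ^ 2 := pow_le_pow_left₀ (abs_nonneg _) hs 2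
    rw [sq_abs] at this
    nlinarith
  rcases le_or_gt (2 * a) b with hc | hc
  · have hdb : b / 2 ≤ d := by
      have h1 : (b / 2) ^ 2 ≤ d ^ 2 := by
        rw [hd2]; nlinarith
      by_contra h
      push Not at h
      nlinarith
    have key : b ^ 2 * ((a ^ 2 - s) / d ^ 2 + s / b ^ 2 + (2 * s ^ 2 - a ^ 2 * b ^ 2) / b ^ 4)
        = (3 * s * a ^ 2 - a ^ 4 + 2 * s ^ 2 * a ^ 2 / b ^ 2 - 4 * s ^ 3 / b ^ 2) / d ^ 2 := by
      field_simp
      rw [hd2]; ring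
    have hn : |3 * s * a ^ 2 - a ^ 4 + 2 * s ^ 2 * a ^ 2 / b ^ 2 - 4 * s ^ 3 / b ^ 2| ≤
        17 / 2 * a ^ 3 * b := by
      have e1 : |3 * s * a ^ 2| ≤ 3 * a ^ 3 * b := by
        rw [abs_mul, abs_mul, abs_of_nonneg (by positivity : (0:ℝ) ≤ 3),
          abs_of_nonneg (by positivity : (0:ℝ) ≤ a ^ 2)]
        nlinarith [sq_nonneg a]
      have e2 : |a ^ 4| ≤ a ^ 3 * b / 2 := by
        rw [abs_of_nonneg (by positivity)]
        have : 0 ≤ a ^ 3 := by positivity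
        nlinarith
      have e3 : |2 * s ^ 2 * a ^ 2 / b ^ 2| ≤ a ^ 3 * b := by
        rw [abs_of_nonneg (by positivity), div_le_iff₀ (by positivity)]
        have : 0 ≤ a ^ 2 := by positivity
        have h1 : 2 * s ^ 2 * a ^ 2 ≤ 2 * (a ^ 2 * b ^ 2) * a ^ 2 := by nlinarith
        have h2 : 0 ≤ a ^ 3 * b ^ 2 := by positivity
        nlinarith
      have e4 : |4 * s ^ 3 / b ^ 2| ≤ 4 * a ^ 3 * b := by
        rw [abs_div, abs_of_nonneg (by positivity : (0:ℝ) ≤ b ^ 2), div_le_iff₀ (by positivity),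
          abs_mul, abs_of_nonneg (by positivity : (0:ℝ) ≤ 4), abs_pow]
        have : |s| ^ 3 ≤ (a * b) ^ 3 := pow_le_pow_left₀ (abs_nonneg _) hs 3
        nlinarith
      have f1 := abs_le.1 e1
      have f2 := abs_le.1 e2
      have f3 := abs_le.1 e3
      have f4 := abs_le.1 e4
      rw [abs_le]
      constructor
      · nlinarith [f1.1, f2.2, f3.1, f4.2]
      · nlinarith [f1.2, f2.1, f3.2, f4.1]
    have hb2 : ∀ t : ℝ, b ^ 2 * |t| = |b ^ 2 * t| := fun t => by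
      rw [abs_mul, abs_of_nonneg (by positivity : (0:ℝ) ≤ b ^ 2)]
    rw [hb2, key, abs_div, abs_of_nonneg (by positivity : (0:ℝ) ≤ d ^ 2),
      div_le_iff₀ (by positivity)]
    have h1 : 34 * a ^ 3 * (1 / b + 1 / d) * d ^ 2 ≥ 34 * a ^ 3 * (1 / b) * (b / 2) ^ 2 := by
      have i1 : (b / 2) ^ 2 ≤ d ^ 2 := pow_le_pow_left₀ (by positivity) hdb 2
      have i2 : 0 ≤ 34 * a ^ 3 * (1 / d) * d ^ 2 := by positivity
      have i3 : 34 * a ^ 3 * (1 / b) * (b / 2) ^ 2 ≤ 34 * a ^ 3 * (1 / b) * d ^ 2 :=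
        mul_le_mul_of_nonneg_left i1 (by positivity)
      nlinarith
    have h2 : 34 * a ^ 3 * (1 / b) * (b / 2) ^ 2 = 17 / 2 * a ^ 3 * b := by
      field_simp; ring
    linarith
  · have g1 : b ^ 2 * |(a ^ 2 - s) / d ^ 2| ≤ 4 * a ^ 3 * (1 / d) := by
      rw [abs_div, abs_of_nonneg (by positivity : (0:ℝ) ≤ d ^ 2)]
      have i1 : |a ^ 2 - s| / d ^ 2 ≤ a * (1 / d) := by
        rw [div_le_iff₀ (by positivity)]
        calc _ ≤ _ := hxd
          _ = _ := by field_simp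
      have i2 : b ^ 2 ≤ 4 * a ^ 2 := by nlinarith
      have i3 : 0 ≤ a * (1 / d) := by positivity
      calc b ^ 2 * (|a ^ 2 - s| / d ^ 2) ≤ b ^ 2 * (a * (1 / d)) :=
            mul_le_mul_of_nonneg_left i1 (by positivity)
        _ ≤ 4 * a ^ 2 * (a * (1 / d)) := mul_le_mul_of_nonneg_right i2 i3
        _ = _ := by ring
    have hab : a ^ 2 ≤ 2 * a ^ 3 * (1 / b) := by
      rw [mul_one_div, le_div_iff₀ hb]
      nlinarith [sq_nonneg a]
    have g2 : b ^ 2 * |s / b ^ 2| ≤ 2 * a ^ 2 := by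
      rw [abs_div, abs_of_nonneg (by positivity : (0:ℝ) ≤ b ^ 2), mul_div_cancel₀ _ (by positivity)]
      nlinarith
    have g3 : b ^ 2 * |(2 * s ^ 2 - a ^ 2 * b ^ 2) / b ^ 4| ≤ a ^ 2 := by
      have i1 : |2 * s ^ 2 - a ^ 2 * b ^ 2| ≤ a ^ 2 * b ^ 2 := by
        rw [abs_le]; constructor <;> nlinarith [sq_nonneg s]
      rw [abs_div, abs_of_nonneg (by positivity : (0:ℝ) ≤ b ^ 4)]
      have i2 : b ^ 2 * (|2 * s ^ 2 - a ^ 2 * b ^ 2| / b ^ 4) =
          |2 * s ^ 2 - a ^ 2 * b ^ 2| / b ^ 2 := by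
        field_simp
      rw [i2, div_le_iff₀ (by positivity)]
      exact i1
    have tri : |(a ^ 2 - s) / d ^ 2 + s / b ^ 2 + (2 * s ^ 2 - a ^ 2 * b ^ 2) / b ^ 4| ≤
        |(a ^ 2 - s) / d ^ 2| + |s / b ^ 2| + |(2 * s ^ 2 - a ^ 2 * b ^ 2) / b ^ 4| :=
      abs_add_three _ _ _
    have hb2 : 0 ≤ b ^ 2 := by positivity
    have h1 := mul_le_mul_of_nonneg_left tri hb2
    have h3 : 0 ≤ a ^ 3 * (1 / d) := by positivity
    have h4 : 0 ≤ a ^ 3 * (1 / b) := by positivity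
    nlinarith


theorem bker_norm_le (x : ℝ × ℝ) : ‖x‖ ≤ nrm x := by
  rw [Prod.norm_def, nrm, nsq]
  refine max_le ?_ ?_
  · rw [Real.norm_eq_abs]
    exact Real.abs_le_sqrt (by nlinarith [sq_nonneg x.2])
  · rw [Real.norm_eq_abs]
    exact Real.abs_le_sqrt (by nlinarith [sq_nonneg x.1])

theorem bker_nrm_sq (x : ℝ × ℝ) : nrm x ^ 2 = nsq x := by
  rw [nrm, Real.sq_sqrt]
  unfold nsq; positivity

theorem bker_nrm_nonneg (x : ℝ × ℝ) : 0 ≤ nrm x := Real.sqrt_nonneg _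

theorem bker_nrm_pos {x : ℝ × ℝ} (hx : x ≠ 0) : 0 < nrm x :=
  lt_of_lt_of_le (norm_pos_iff.2 hx) (bker_norm_le x)

/-- pointwise estimate of the logarithmic part -/
theorem bker_log (x y : ℝ × ℝ) (hy : y ≠ 0) (hxy : x - y ≠ 0) :
    nsq y * |(x.1 * (x.1 - y.1) + x.2 * (x.2 - y.2)) / nsq (x - y)
      + (x.1 * y.1 + x.2 * y.2) / nsq y
      + ((y.1 ^ 2 - y.2 ^ 2) * (x.1 ^ 2 - x.2 ^ 2) + 2 * y.1 * y.2 * (2 * x.1 * x.2)) / nsq y ^ 2|
      ≤ 34 * nrm x ^ 3 * (‖y‖⁻¹ + ‖x - y‖⁻¹) := by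
  have hb := bker_nrm_pos hy
  have hd := bker_nrm_pos hxy
  have ha := bker_nrm_nonneg x
  have hs : |x.1 * y.1 + x.2 * y.2| ≤ nrm x * nrm y := by
    refine abs_le_of_sq_le_sq ?_ (by positivity)
    rw [mul_pow, bker_nrm_sq, bker_nrm_sq, nsq, nsq]
    nlinarith [sq_nonneg (x.1 * y.2 - x.2 * y.1)]
  have hd2 : nrm (x - y) ^ 2 = nrm y ^ 2 - 2 * (x.1 * y.1 + x.2 * y.2) + nrm x ^ 2 := by
    rw [bker_nrm_sq, bker_nrm_sq, bker_nrm_sq, nsq, nsq, nsq, Prod.fst_sub, Prod.snd_sub]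
    ring
  have hxd : |nrm x ^ 2 - (x.1 * y.1 + x.2 * y.2)| ≤ nrm x * nrm (x - y) := by
    refine abs_le_of_sq_le_sq ?_ (by positivity)
    rw [mul_pow, bker_nrm_sq, bker_nrm_sq, nsq, nsq, Prod.fst_sub, Prod.snd_sub]
    nlinarith [sq_nonneg (x.1 * y.2 - x.2 * y.1)]
  have h := bker_real (nrm x) (nrm y) (nrm (x - y)) (x.1 * y.1 + x.2 * y.2) ha hb hd hs hd2 hxd
  have e1 : (x.1 * (x.1 - y.1) + x.2 * (x.2 - y.2)) =
      nrm x ^ 2 - (x.1 * y.1 + x.2 * y.2) := by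
    rw [bker_nrm_sq, nsq]; ring
  have e2 : ((y.1 ^ 2 - y.2 ^ 2) * (x.1 ^ 2 - x.2 ^ 2) + 2 * y.1 * y.2 * (2 * x.1 * x.2)) =
      2 * (x.1 * y.1 + x.2 * y.2) ^ 2 - nrm x ^ 2 * nrm y ^ 2 := by
    rw [bker_nrm_sq, bker_nrm_sq, nsq, nsq]; ring
  have e3 : nsq y ^ 2 = nrm y ^ 4 := by
    rw [← bker_nrm_sq]; ring
  rw [e1, e2, e3, ← bker_nrm_sq (x - y), ← bker_nrm_sq y]
  refine h.trans ?_
  have i1 : 1 / nrm y ≤ ‖y‖⁻¹ := by
    rw [one_div]
    exact inv_anti₀ (norm_pos_iff.2 hy) (bker_norm_le y)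
  have i2 : 1 / nrm (x - y) ≤ ‖x - y‖⁻¹ := by
    rw [one_div]
    exact inv_anti₀ (norm_pos_iff.2 hxy) (bker_norm_le _)
  have i3 : 0 ≤ 34 * nrm x ^ 3 := by positivity
  exact mul_le_mul_of_nonneg_left (add_le_add i1 i2) i3

theorem bker_Q_ball {x y : ℝ × ℝ} (hx : nrm x ≤ 1 / 32) (hy : y ∈ Q) : ‖x - y‖ ≤ 17 / 32 := by
  have h1 := (bker_norm_le x).trans hx
  have h2 : ‖y‖ ≤ 1 / 2 := by
    rw [Prod.norm_def]
    obtain ⟨⟨a, b⟩, ⟨c, d⟩⟩ := hy
    refine max_le ?_ ?_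
    · rw [Real.norm_eq_abs, abs_le]; constructor <;> linarith
    · rw [Real.norm_eq_abs, abs_le]; constructor <;> linarith
  have := norm_sub_le x y
  linarith

theorem bker_measQ : MeasurableSet Q := measurableSet_Ioc.prod measurableSet_Ioc

theorem bker_volQ : volume Q = 1 := by
  rw [Q, Measure.volume_eq_prod, Measure.prod_prod, Real.volume_Ioc]
  norm_num

/-- the uniform bound for the shifted singular kernel -/
theorem bker_int1 {x : ℝ × ℝ} (hx : nrm x ≤ 1 / 32) :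
    IntegrableOn (fun y : ℝ × ℝ => ‖x - y‖⁻¹) Q ∧
    (∫ y in Q, ‖x - y‖⁻¹) ≤ ∫ w in Metric.ball (0 : ℝ × ℝ) 1, ‖w‖⁻¹ := by
  have h0 := bker_int0
  have h1 : Integrable ((Metric.ball (0 : ℝ × ℝ) 1).indicator fun w : ℝ × ℝ => ‖w‖⁻¹) :=
    (integrable_indicator_iff Metric.isOpen_ball.measurableSet).2 h0
  have h2 := h1.comp_sub_left x
  have heq : ∀ y ∈ Q, (Metric.ball (0 : ℝ × ℝ) 1).indicator (fun w : ℝ × ℝ => ‖w‖⁻¹) (x - y) =
      ‖x - y‖⁻¹ := by
    intro y hy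
    rw [indicator_of_mem]
    rw [Metric.mem_ball, dist_zero_right]
    have := bker_Q_ball hx hy
    linarith
  constructor
  · exact (h2.integrableOn (s := Q)).congr_fun heq bker_measQ
  · calc (∫ y in Q, ‖x - y‖⁻¹) = ∫ y in Q,
        (Metric.ball (0 : ℝ × ℝ) 1).indicator (fun w : ℝ × ℝ => ‖w‖⁻¹) (x - y) :=
          (setIntegral_congr_fun bker_measQ (fun y hy => (heq y hy).symm))
      _ ≤ ∫ y, (Metric.ball (0 : ℝ × ℝ) 1).indicator (fun w : ℝ × ℝ => ‖w‖⁻¹) (x - y) := by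
          refine setIntegral_le_integral h2 (Filter.Eventually.of_forall fun y => ?_)
          exact indicator_nonneg (fun w _ => inv_nonneg.2 (norm_nonneg w)) _
      _ = ∫ y, (Metric.ball (0 : ℝ × ℝ) 1).indicator (fun w : ℝ × ℝ => ‖w‖⁻¹) y :=
          integral_sub_left_eq_self _ _ x
      _ = _ := integral_indicator Metric.isOpen_ball.measurableSet

theorem bker_perD {f : ℝ × ℝ → ℝ} (hf : Per f) : Per (D1 f) ∧ Per (D2 f) := by
  have e1 : (fun x : ℝ × ℝ => f (x + (1, 0))) = f := by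
    funext x
    have := (hf x).1
    rw [← this]
    congr 1
    ext <;> simp
  have e2 : (fun x : ℝ × ℝ => f (x + (0, 1))) = f := by
    funext x
    have := (hf x).2
    rw [← this]
    congr 1
    ext <;> simp
  have k1 : ∀ x : ℝ × ℝ, fderiv ℝ f (x.1 + 1, x.2) = fderiv ℝ f x := by
    intro x
    have := fderiv_comp_add_right (𝕜 := ℝ) (f := f) (x := x) ((1:ℝ), (0:ℝ))
    rw [e1] at this
    rw [this]
    congr 1
    ext <;> simp
  have k2 : ∀ x : ℝ × ℝ, fderiv ℝ f (x.1, x.2 + 1) = fderiv ℝ f x := by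
    intro x
    have := fderiv_comp_add_right (𝕜 := ℝ) (f := f) (x := x) ((0:ℝ), (1:ℝ))
    rw [e2] at this
    rw [this]
    congr 1
    ext <;> simp
  constructor
  · intro x
    simp only [D1, k1, k2, and_self]
  · intro x
    simp only [D2, k1, k2, and_self]

/-- convolution as an integral against the translated kernel -/
theorem bker_conv {g W : ℝ × ℝ → ℝ} (hg : Per g) (hi : IntegrableOn g Q) (hW : Continuous W)
    (hWp : Per W) {M : ℝ} (hM : ∀ y, |W y| ≤ M) (x : ℝ × ℝ) :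
    conv g W x = ∫ y in Q, W y * g (x - y) := by
  have hper : Per (fun y => g y * W (x - y)) := by
    intro y
    have a1 := (hg y).1
    have a2 := (hg y).2
    have b1 : W (x - (y.1 + 1, y.2)) = W (x - y) := by
      have := (hWp (x - (y.1 + 1, y.2))).1
      rw [← this]
      congr 1
      ext
      · simp only [Prod.fst_sub]; ring
      · simp only [Prod.snd_sub]
    have b2 : W (x - (y.1, y.2 + 1)) = W (x - y) := by
      have := (hWp (x - (y.1, y.2 + 1))).2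
      rw [← this]
      congr 1
      ext
      · simp only [Prod.fst_sub]
      · simp only [Prod.snd_sub]; ring
    simp only [a1, a2, b1, b2, and_self]
  have hint : IntegrableOn (fun y => g y * W (x - y)) Q := by
    refine Integrable.mul_bdd (c := M) hi ?_ ?_
    · exact (hW.comp (continuous_const.sub continuous_id)).aestronglyMeasurable
    · exact Filter.Eventually.of_forall fun y => by
        rw [Real.norm_eq_abs]; exact hM _
  have s1 := TI_shift hper hint x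
  have s2 := TI_neg (f := fun y => g (y + x) * W (x - (y + x)))
  have : conv g W x = TI (fun y => g y * W (x - y)) := rfl
  rw [this, ← s1, ← s2]
  unfold TI
  refine setIntegral_congr_fun bker_measQ (fun y _ => ?_)
  have e1 : -y + x = x - y := by abel
  have e2 : x - (x - y) = y := by abel
  change g (-y + x) * W (x - (-y + x)) = W y * g (x - y)
  rw [e1, e2, mul_comm]


theorem bker_boxOpen : IsOpen (Box 1) := by
  have h1 : IsOpen {x : ℝ × ℝ | |x.1| < 1} := isOpen_lt (by fun_prop) continuous_const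
  have h2 : IsOpen {x : ℝ × ℝ | |x.2| < 1} := isOpen_lt (by fun_prop) continuous_const
  exact h1.inter h2

theorem bker_ballBox : Metric.closedBall (0 : ℝ × ℝ) (17 / 32) ⊆ Box 1 := by
  intro w hw
  rw [Metric.mem_closedBall, dist_zero_right, Prod.norm_def] at hw
  have h1 := (le_max_left _ _).trans hw
  have h2 := (le_max_right _ _).trans hw
  rw [Real.norm_eq_abs] at h1 h2
  exact ⟨by linarith, by linarith⟩

theorem bker_nsqQ {y : ℝ × ℝ} (hy : y ∈ Q) : nsq y ≤ 1 / 2 := by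
  obtain ⟨⟨a, b⟩, ⟨c, d⟩⟩ := hy
  unfold nsq
  nlinarith

theorem bker_smoothD {R : ℝ × ℝ → ℝ} (hR : ContDiffOn ℝ ∞ R (Box 1)) :
    ContDiffOn ℝ ∞ (D1 R) (Box 1) ∧ ContDiffOn ℝ ∞ (D2 R) (Box 1) := by
  have h := hR.fderiv_of_isOpen (m := ∞) bker_boxOpen (by simp)
  exact ⟨h.clm_apply contDiffOn_const, h.clm_apply contDiffOn_const⟩

theorem bker_bound {f : ℝ × ℝ → ℝ} (hf : ContDiffOn ℝ ∞ f (Box 1)) : ∃ C : ℝ, 0 ≤ C ∧
    ∀ w : ℝ × ℝ, ‖w‖ ≤ 17 / 32 → |f w| ≤ C := by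
  obtain ⟨C, hC⟩ := (isCompact_closedBall (0 : ℝ × ℝ) (17 / 32)).exists_bound_of_continuousOn
    (f := f) (hf.continuousOn.mono bker_ballBox)
  refine ⟨|C|, abs_nonneg _, fun w hw => ?_⟩
  have := hC w (by rw [Metric.mem_closedBall, dist_zero_right]; exact hw)
  rw [Real.norm_eq_abs] at this
  exact this.trans (le_abs_self C)

theorem bker_gradG {K R : ℝ × ℝ → ℝ} (hG : IsGreen K R) : ∃ C : ℝ, 0 ≤ C ∧
    ∀ w : ℝ × ℝ, ‖w‖ ≤ 17 / 32 → |D1 (Gf K) w| ≤ ‖w‖⁻¹ + C ∧ |D2 (Gf K) w| ≤ ‖w‖⁻¹ + C := by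
  obtain ⟨h1, h2⟩ := bker_smoothD hG.smoothR
  obtain ⟨C1, hC1, hC1'⟩ := bker_bound h1
  obtain ⟨C2, hC2, hC2'⟩ := bker_bound h2
  refine ⟨C1 + C2 + |D1 (Gf K) 0| + |D2 (Gf K) 0|, by positivity, fun w hw => ?_⟩
  by_cases h0 : w = 0
  · subst h0
    have a1 := abs_nonneg (D1 (Gf K) 0)
    have a2 := abs_nonneg (D2 (Gf K) 0)
    simp only [norm_zero, inv_zero]
    constructor <;> linarith
  have hwB : w ∈ Box 1 := bker_ballBox (by rw [Metric.mem_closedBall, dist_zero_right]; exact hw)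
  obtain ⟨-, e1, e2⟩ := green_near hG w hwB h0
  have hn : 0 < ‖w‖ := norm_pos_iff.2 h0
  have hq : ‖w‖ ^ 2 ≤ nsq w := by
    rw [← bker_nrm_sq]
    exact pow_le_pow_left₀ hn.le (bker_norm_le w) 2
  have hq0 : 0 < nsq w := lt_of_lt_of_le (by positivity) hq
  have hpi : |-(1 / (2 * π))| ≤ 1 := by
    rw [abs_neg, abs_of_nonneg (by positivity), div_le_one (by positivity)]
    linarith [Real.pi_gt_three]
  have key : ∀ t : ℝ, |t| ≤ ‖w‖ → |(-(1 / (2 * π))) * (t / nsq w)| ≤ ‖w‖⁻¹ := by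
    intro t ht
    rw [abs_mul, abs_div, abs_of_pos hq0]
    have i1 : |t| / nsq w ≤ ‖w‖⁻¹ := by
      rw [div_le_iff₀ hq0]
      calc |t| ≤ ‖w‖ := ht
        _ = ‖w‖⁻¹ * ‖w‖ ^ 2 := by field_simp
        _ ≤ ‖w‖⁻¹ * nsq w := mul_le_mul_of_nonneg_left hq (by positivity)
    have i2 : 0 ≤ |t| / nsq w := by positivity
    nlinarith [abs_nonneg (-(1 / (2 * π)))]
  have a1 := abs_nonneg (D1 (Gf K) 0)
  have a2 := abs_nonneg (D2 (Gf K) 0)
  have n1 : |w.1| ≤ ‖w‖ := by rw [Prod.norm_def]; exact le_max_left _ _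
  have n2 : |w.2| ≤ ‖w‖ := by rw [Prod.norm_def]; exact le_max_right _ _
  constructor
  · rw [e1]
    have := abs_add_le (-(1 / (2 * π)) * (w.1 / nsq w)) (D1 R w)
    have := key _ n1
    have := hC1' w hw
    linarith
  · rw [e2]
    have := abs_add_le (-(1 / (2 * π)) * (w.2 / nsq w)) (D2 R w)
    have := key _ n2
    have := hC2' w hw
    linarith

theorem bker_measD1 (f : ℝ × ℝ → ℝ) : Measurable (D1 f) := measurable_fderiv_apply_const ℝ f _

theorem bker_measD2 (f : ℝ × ℝ → ℝ) : Measurable (D2 f) := measurable_fderiv_apply_const ℝ f _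

theorem bker_intG {K R : ℝ × ℝ → ℝ} (hG : IsGreen K R) {x : ℝ × ℝ} (hx : nrm x ≤ 1 / 32) :
    IntegrableOn (fun y => D1 (Gf K) (x - y)) Q ∧ IntegrableOn (fun y => D2 (Gf K) (x - y)) Q := by
  obtain ⟨C, hC, hC'⟩ := bker_gradG hG
  obtain ⟨h1, -⟩ := bker_int1 hx
  have h2 : IntegrableOn (fun y : ℝ × ℝ => ‖x - y‖⁻¹ + C) Q := by
    refine h1.add ?_
    refine integrableOn_const ?_
    rw [bker_volQ]; simp
  constructor
  · refine Integrable.mono' h2 ?_ ?_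
    · exact ((bker_measD1 (Gf K)).comp (measurable_const.sub measurable_id)).aestronglyMeasurable
    · refine (ae_restrict_iff' bker_measQ).2 (Filter.Eventually.of_forall fun y hy => ?_)
      rw [Real.norm_eq_abs]
      exact (hC' _ (bker_Q_ball hx hy)).1
  · refine Integrable.mono' h2 ?_ ?_
    · exact ((bker_measD2 (Gf K)).comp (measurable_const.sub measurable_id)).aestronglyMeasurable
    · refine (ae_restrict_iff' bker_measQ).2 (Filter.Eventually.of_forall fun y hy => ?_)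
      rw [Real.norm_eq_abs]
      exact (hC' _ (bker_Q_ball hx hy)).2


/-- coefficient functions of the quadratic part -/
noncomputable def bker_h1 (R : ℝ × ℝ → ℝ) (y : ℝ × ℝ) : ℝ :=
  1 / (2 * π) * ((y.1 ^ 2 - y.2 ^ 2) / nsq y ^ 2) + (D1 (D1 R) (-y) - D2 (D2 R) (-y)) / 2

noncomputable def bker_h2 (R : ℝ × ℝ → ℝ) (y : ℝ × ℝ) : ℝ :=
  1 / (2 * π) * (2 * y.1 * y.2 / nsq y ^ 2) + (D1 (D2 R) (-y) + D2 (D1 R) (-y)) / 2

theorem bker_measnsq : Measurable nsq := by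
  unfold nsq
  fun_prop

theorem bker_h1_meas (R : ℝ × ℝ → ℝ) : Measurable (bker_h1 R) := by
  have m1 := (bker_measD1 (D1 R)).comp (measurable_neg (G := ℝ × ℝ))
  have m2 := (bker_measD2 (D2 R)).comp (measurable_neg (G := ℝ × ℝ))
  have m3 : Measurable fun y : ℝ × ℝ => (y.1 ^ 2 - y.2 ^ 2) / nsq y ^ 2 :=
    ((measurable_fst.pow_const 2).sub (measurable_snd.pow_const 2)).div
      (bker_measnsq.pow_const 2)
  exact (m3.const_mul _).add ((m1.sub m2).div_const 2)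

theorem bker_h2_meas (R : ℝ × ℝ → ℝ) : Measurable (bker_h2 R) := by
  have m1 := (bker_measD1 (D2 R)).comp (measurable_neg (G := ℝ × ℝ))
  have m2 := (bker_measD2 (D1 R)).comp (measurable_neg (G := ℝ × ℝ))
  have m3 : Measurable fun y : ℝ × ℝ => 2 * y.1 * y.2 / nsq y ^ 2 :=
    ((measurable_fst.const_mul 2).mul measurable_snd).div (bker_measnsq.pow_const 2)
  exact (m3.const_mul _).add ((m1.add m2).div_const 2)

theorem bker_h_bound {R : ℝ × ℝ → ℝ} (hR : ContDiffOn ℝ ∞ R (Box 1)) : ∃ C : ℝ, 0 ≤ C ∧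
    ∀ y ∈ Q, ∀ w A : ℝ, 0 ≤ w → 1 ≤ A → w ≤ A * nsq y →
      |w * bker_h1 R y| ≤ C * A ∧ |w * bker_h2 R y| ≤ C * A := by
  obtain ⟨hD1, hD2⟩ := bker_smoothD hR
  obtain ⟨h11, h21⟩ := bker_smoothD hD1
  obtain ⟨h12, h22⟩ := bker_smoothD hD2
  obtain ⟨C11, p11, b11⟩ := bker_bound h11
  obtain ⟨C12, p12, b12⟩ := bker_bound h12
  obtain ⟨C21, p21, b21⟩ := bker_bound h21
  obtain ⟨C22, p22, b22⟩ := bker_bound h22
  refine ⟨1 + C11 + C12 + C21 + C22, by positivity, ?_⟩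
  intro y hy w A hw hA hwA
  by_cases h0 : y = 0
  · subst h0
    have : w = 0 := by
      have e : nsq (0 : ℝ × ℝ) = 0 := by simp [nsq]
      rw [e, mul_zero] at hwA
      exact le_antisymm hwA hw
    rw [this]
    simp only [zero_mul, abs_zero]
    constructor <;> positivity
  have hy' : ‖-y‖ ≤ 17 / 32 := by
    have := bker_Q_ball (x := 0) (y := y) (by simp [nrm, nsq]) hy
    rwa [zero_sub] at this
  have hq0 : 0 < nsq y := by
    rw [← bker_nrm_sq]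
    exact pow_pos (bker_nrm_pos h0) 2
  have hq1 := bker_nsqQ hy
  have hpi0 : (0:ℝ) ≤ 1 / (2 * π) := by positivity
  have hpi : 1 / (2 * π) ≤ 1 := by
    rw [div_le_one (by positivity)]
    linarith [Real.pi_gt_three]
  have key : ∀ t : ℝ, |t| ≤ nsq y → |w * (1 / (2 * π) * (t / nsq y ^ 2))| ≤ A := by
    intro t ht
    rw [abs_mul w, abs_mul (1 / (2 * π)), abs_div t, abs_of_nonneg hw, abs_of_nonneg hpi0,
      abs_of_nonneg (by positivity : (0:ℝ) ≤ nsq y ^ 2)]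
    have i1 : |t| / nsq y ^ 2 ≤ 1 / nsq y := by
      rw [div_le_div_iff₀ (by positivity) hq0]
      nlinarith
    have i2 : 1 / (2 * π) * (|t| / nsq y ^ 2) ≤ 1 / nsq y := by
      have : 0 ≤ |t| / nsq y ^ 2 := by positivity
      nlinarith
    calc w * (1 / (2 * π) * (|t| / nsq y ^ 2)) ≤ w * (1 / nsq y) :=
          mul_le_mul_of_nonneg_left i2 hw
      _ ≤ A * nsq y * (1 / nsq y) := mul_le_mul_of_nonneg_right hwA (by positivity)
      _ = A := by field_simp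
  have hwA' : w ≤ A := hwA.trans (by nlinarith)
  have a11 := b11 _ hy'
  have a12 := b12 _ hy'
  have a21 := b21 _ hy'
  have a22 := b22 _ hy'
  have hsq1 : |y.1 ^ 2 - y.2 ^ 2| ≤ nsq y := by
    rw [abs_le, nsq]; constructor <;> nlinarith [sq_nonneg y.1, sq_nonneg y.2]
  have hsq2 : |2 * y.1 * y.2| ≤ nsq y := by
    rw [abs_le, nsq]
    constructor <;> nlinarith [sq_nonneg (y.1 + y.2), sq_nonneg (y.1 - y.2)]
  constructor
  · have k := key _ hsq1
    have i1 : |(D1 (D1 R) (-y) - D2 (D2 R) (-y)) / 2| ≤ C11 + C12 + C21 + C22 := by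
      rw [abs_div, abs_two]
      have := abs_sub (D1 (D1 R) (-y)) (D2 (D2 R) (-y))
      rw [div_le_iff₀ two_pos]
      linarith
    have i2 : |w * ((D1 (D1 R) (-y) - D2 (D2 R) (-y)) / 2)| ≤ A * (C11 + C12 + C21 + C22) := by
      rw [abs_mul, abs_of_nonneg hw]
      exact mul_le_mul hwA' i1 (abs_nonneg _) (by linarith)
    rw [bker_h1, mul_add]
    refine (abs_add_le _ _).trans ?_
    linarith
  · have k := key _ hsq2
    have i1 : |(D1 (D2 R) (-y) + D2 (D1 R) (-y)) / 2| ≤ C11 + C12 + C21 + C22 := by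
      rw [abs_div, abs_two]
      have := abs_add_le (D1 (D2 R) (-y)) (D2 (D1 R) (-y))
      rw [div_le_iff₀ two_pos]
      linarith
    have i2 : |w * ((D1 (D2 R) (-y) + D2 (D1 R) (-y)) / 2)| ≤ A * (C11 + C12 + C21 + C22) := by
      rw [abs_mul, abs_of_nonneg hw]
      exact mul_le_mul hwA' i1 (abs_nonneg _) (by linarith)
    rw [bker_h2, mul_add]
    refine (abs_add_le _ _).trans ?_
    linarith

/-- the pointwise estimate -/
theorem bker_point {K R : ℝ × ℝ → ℝ} (hG : IsGreen K R) : ∃ C : ℝ, 0 < C ∧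
    ∀ x y : ℝ × ℝ, nrm x ≤ 1 / 32 → y ∈ Q → y ≠ 0 → x - y ≠ 0 → ∀ w A : ℝ, 0 ≤ w → 1 ≤ A →
      w ≤ A * nsq y →
      |w * ((x.1 * D1 (Gf K) (x - y) + x.2 * D2 (Gf K) (x - y))
        - (x.1 * D1 (Gf K) (0 - y) + x.2 * D2 (Gf K) (0 - y))
        - (nsq x / 2 + (x.1 ^ 2 - x.2 ^ 2) * bker_h1 R y + 2 * x.1 * x.2 * bker_h2 R y))| ≤
        C * A * nrm x ^ 3 * (‖y‖⁻¹ + ‖x - y‖⁻¹ + 1) := by
  obtain ⟨hD1, hD2⟩ := bker_smoothD hG.smoothR
  obtain ⟨T1, hT1, hT1'⟩ := bker_taylor bker_boxOpen (hD1.of_le (by norm_cast))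
    (isCompact_closedBall (0 : ℝ × ℝ) (17 / 32)) (convex_closedBall _ _) bker_ballBox
  obtain ⟨T2, hT2, hT2'⟩ := bker_taylor bker_boxOpen (hD2.of_le (by norm_cast))
    (isCompact_closedBall (0 : ℝ × ℝ) (17 / 32)) (convex_closedBall _ _) bker_ballBox
  refine ⟨34 + T1 + T2, by positivity, ?_⟩
  intro x y hx hy hy0 hxy w A hw hA hwA
  have hmem1 : x - y ∈ Metric.closedBall (0 : ℝ × ℝ) (17 / 32) := by
    rw [Metric.mem_closedBall, dist_zero_right]; exact bker_Q_ball hx hy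
  have hmem2 : (0:ℝ × ℝ) - y ∈ Metric.closedBall (0 : ℝ × ℝ) (17 / 32) := by
    rw [Metric.mem_closedBall, dist_zero_right]
    exact bker_Q_ball (x := 0) (by simp [nrm, nsq]) hy
  obtain ⟨-, e1, e2⟩ := green_near hG _ (bker_ballBox hmem1) hxy
  obtain ⟨-, e3, e4⟩ := green_near hG ((0:ℝ × ℝ) - y) (bker_ballBox hmem2) (by simpa using hy0)
  have hlap := hG.lapR _ (bker_ballBox hmem2)
  have t1 := hT1' _ hmem2 _ hmem1
  have t2 := hT2' _ hmem2 _ hmem1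
  have hsub : x - y - (0 - y) = x := by abel
  rw [hsub] at t1 t2
  have hc1 : (x - y).1 - ((0:ℝ × ℝ) - y).1 = x.1 := by simp
  have hc2 : (x - y).2 - ((0:ℝ × ℝ) - y).2 = x.2 := by simp
  rw [hc1, hc2] at t1 t2
  have hlog := bker_log x y hy0 hxy
  have hq0 : 0 < nsq y := by
    rw [← bker_nrm_sq]
    exact pow_pos (bker_nrm_pos hy0) 2
  have ha := bker_nrm_nonneg x
  have hnx := bker_norm_le x
  have hxn : ‖x‖ ^ 2 ≤ nrm x ^ 2 := pow_le_pow_left₀ (norm_nonneg _) hnx 2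
  have hx1 : |x.1| ≤ nrm x := le_trans (by rw [Prod.norm_def]; exact le_max_left _ _) hnx
  have hx2 : |x.2| ≤ nrm x := le_trans (by rw [Prod.norm_def]; exact le_max_right _ _) hnx
  have hw1 : w ≤ A := by
    have := bker_nsqQ hy
    nlinarith
  set L : ℝ := (x.1 * (x.1 - y.1) + x.2 * (x.2 - y.2)) / nsq (x - y)
      + (x.1 * y.1 + x.2 * y.2) / nsq y
      + ((y.1 ^ 2 - y.2 ^ 2) * (x.1 ^ 2 - x.2 ^ 2) + 2 * y.1 * y.2 * (2 * x.1 * x.2)) / nsq y ^ 2
    with hL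
  set P1 : ℝ := D1 R (x - y) - D1 R (0 - y)
      - (x.1 * D1 (D1 R) (0 - y) + x.2 * D2 (D1 R) (0 - y)) with hP1
  set P2 : ℝ := D2 R (x - y) - D2 R (0 - y)
      - (x.1 * D1 (D2 R) (0 - y) + x.2 * D2 (D2 R) (0 - y)) with hP2
  have hid : (x.1 * D1 (Gf K) (x - y) + x.2 * D2 (Gf K) (x - y))
        - (x.1 * D1 (Gf K) (0 - y) + x.2 * D2 (Gf K) (0 - y))
        - (nsq x / 2 + (x.1 ^ 2 - x.2 ^ 2) * bker_h1 R y + 2 * x.1 * x.2 * bker_h2 R y) =
      -(1 / (2 * π)) * L + (x.1 * P1 + x.2 * P2) := by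
    rw [e1, e2, e3, e4, bker_h1, bker_h2, hL, hP1, hP2]
    have hn : nsq ((0:ℝ × ℝ) - y) = nsq y := by
      rw [nsq, nsq]; simp
    rw [hn]
    have z1 : ((0:ℝ × ℝ) - y).1 = -y.1 := by simp
    have z2 : ((0:ℝ × ℝ) - y).2 = -y.2 := by simp
    have z3 : (x - y).1 = x.1 - y.1 := rfl
    have z4 : (x - y).2 = x.2 - y.2 := rfl
    have z5 : (0:ℝ × ℝ) - y = -y := zero_sub y
    rw [z1, z2, z3, z4, z5]
    rw [z5, Lap] at hlap
    have hx2' : nsq x = x.1 ^ 2 + x.2 ^ 2 := rfl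
    rw [hx2']
    have hl : nsq x / 2 = (D1 (D1 R) (-y) + D2 (D2 R) (-y)) * (x.1 ^ 2 + x.2 ^ 2) / 2 := by
      rw [hlap, hx2']; ring
    rw [hx2'] at hl
    rw [hl]
    ring
  rw [hid, mul_add]
  have hA0 : 0 ≤ A := by linarith
  have hy1 : 0 ≤ ‖y‖⁻¹ := by positivity
  have hy2 : 0 ≤ ‖x - y‖⁻¹ := by positivity
  have f1 : |w * (-(1 / (2 * π)) * L)| ≤ 34 * A * nrm x ^ 3 * (‖y‖⁻¹ + ‖x - y‖⁻¹) := by
    have hpi : |-(1 / (2 * π))| ≤ 1 := by
      rw [abs_neg, abs_of_nonneg (by positivity), div_le_one (by positivity)]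
      linarith [Real.pi_gt_three]
    rw [abs_mul, abs_mul, abs_of_nonneg hw]
    calc w * (|-(1 / (2 * π))| * |L|) ≤ w * (1 * |L|) :=
          mul_le_mul_of_nonneg_left (mul_le_mul_of_nonneg_right hpi (abs_nonneg _)) hw
      _ = w * |L| := by ring
      _ ≤ A * nsq y * |L| := mul_le_mul_of_nonneg_right hwA (abs_nonneg _)
      _ = A * (nsq y * |L|) := by ring
      _ ≤ A * (34 * nrm x ^ 3 * (‖y‖⁻¹ + ‖x - y‖⁻¹)) := mul_le_mul_of_nonneg_left hlog hA0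
      _ = _ := by ring
  have f2 : |w * (x.1 * P1 + x.2 * P2)| ≤ (T1 + T2) * A * nrm x ^ 3 := by
    rw [abs_mul, abs_of_nonneg hw]
    have g1 : |x.1 * P1| ≤ nrm x * (T1 * nrm x ^ 2) := by
      rw [abs_mul]
      exact mul_le_mul hx1 (t1.trans (mul_le_mul_of_nonneg_left hxn hT1.le)) (abs_nonneg _) ha
    have g2 : |x.2 * P2| ≤ nrm x * (T2 * nrm x ^ 2) := by
      rw [abs_mul]
      exact mul_le_mul hx2 (t2.trans (mul_le_mul_of_nonneg_left hxn hT2.le)) (abs_nonneg _) ha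
    have g3 : |x.1 * P1 + x.2 * P2| ≤ (T1 + T2) * nrm x ^ 3 := by
      refine (abs_add_le _ _).trans ?_
      calc _ ≤ nrm x * (T1 * nrm x ^ 2) + nrm x * (T2 * nrm x ^ 2) := add_le_add g1 g2
        _ = _ := by ring
    calc w * |x.1 * P1 + x.2 * P2| ≤ A * ((T1 + T2) * nrm x ^ 3) :=
          mul_le_mul hw1 g3 (abs_nonneg _) hA0
      _ = _ := by ring
  refine (abs_add_le _ _).trans ?_
  have hx3 : 0 ≤ A * nrm x ^ 3 := by positivity
  have f3 : 0 ≤ (T1 + T2) * (A * nrm x ^ 3) * (‖y‖⁻¹ + ‖x - y‖⁻¹) := by positivity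
  have f4 : 0 ≤ 34 * (A * nrm x ^ 3) := by positivity
  calc _ ≤ 34 * A * nrm x ^ 3 * (‖y‖⁻¹ + ‖x - y‖⁻¹) + (T1 + T2) * A * nrm x ^ 3 :=
        add_le_add f1 f2
    _ ≤ 34 * A * nrm x ^ 3 * (‖y‖⁻¹ + ‖x - y‖⁻¹) + (T1 + T2) * A * nrm x ^ 3
        + ((T1 + T2) * (A * nrm x ^ 3) * (‖y‖⁻¹ + ‖x - y‖⁻¹) + 34 * (A * nrm x ^ 3)) := by
      linarith
    _ = _ := by ring

/-- L9.9: kernel expansion. `A` bounds `W1` quadratically. -/
theorem c2_ker {K R : ℝ × ℝ → ℝ} (hG : IsGreen K R) : ∃ C : ℝ, 0 < C ∧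
    ∀ (W1 : ℝ × ℝ → ℝ) (A M : ℝ), Continuous W1 → Per W1 → (∀ y, 0 ≤ W1 y) → 1 ≤ A →
      (∀ y, W1 y ≤ M) → (∀ y ∈ Q, W1 y ≤ A * nsq y) →
      ∃ a1 a2 b1 b2 : ℝ, |a1| ≤ C * M ∧ |a2| ≤ C * M ∧ |b1| ≤ C * A ∧ |b2| ≤ C * A ∧
        ∀ x, nrm x ≤ 1 / 32 →
          |x.1 * conv (D1 (Gf K)) W1 x + x.2 * conv (D2 (Gf K)) W1 x
            - (a1 * x.1 + a2 * x.2)
            - (TI W1 / 2 * nsq x + b1 * (x.1 ^ 2 - x.2 ^ 2) + b2 * (2 * x.1 * x.2))|
            ≤ C * A * nrm x ^ 3 := by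
  obtain ⟨C1, hC1, hpt⟩ := bker_point hG
  obtain ⟨C2, hC2, hhb⟩ := bker_h_bound hG.smoothR
  obtain ⟨hls, -⟩ := green_logsing hG
  have hi1 : IntegrableOn (D1 (Gf K)) Q := hls.integrable.2.2.1
  have hi2 : IntegrableOn (D2 (Gf K)) Q := hls.integrable.2.2.2
  have hp1 := (bker_perD hls.per).1
  have hp2 := (bker_perD hls.per).2
  have hz0 : nrm (0 : ℝ × ℝ) ≤ 1 / 32 := by simp [nrm, nsq]
  set I0 : ℝ := ∫ w in Metric.ball (0 : ℝ × ℝ) 1, ‖w‖⁻¹ with hI0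
  have hI0p : 0 ≤ I0 := integral_nonneg fun w => inv_nonneg.2 (norm_nonneg w)
  obtain ⟨hg01, hg02⟩ := bker_intG hG hz0
  set J1 : ℝ := ∫ y in Q, |D1 (Gf K) (0 - y)| with hJ1
  set J2 : ℝ := ∫ y in Q, |D2 (Gf K) (0 - y)| with hJ2
  have hJ1p : 0 ≤ J1 := integral_nonneg fun w => abs_nonneg _
  have hJ2p : 0 ≤ J2 := integral_nonneg fun w => abs_nonneg _
  refine ⟨C1 * (2 * I0 + 1) + C2 + J1 + J2, by positivity, ?_⟩
  intro W1 A M hWc hWp hW0 hA hWM hWA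
  have hM0 : 0 ≤ M := (hW0 0).trans (hWM 0)
  have hA0 : 0 ≤ A := by linarith
  have hWabs : ∀ y, |W1 y| ≤ M := fun y => by rw [abs_of_nonneg (hW0 y)]; exact hWM y
  have hWnorm : ∀ᵐ y ∂(volume.restrict Q), ‖W1 y‖ ≤ M :=
    Filter.Eventually.of_forall fun y => by rw [Real.norm_eq_abs]; exact hWabs y
  have hvolfin : volume Q ≠ ⊤ := by rw [bker_volQ]; simp
  have hvolreal : volume.real Q = 1 := by rw [Measure.real, bker_volQ]; simp
  have hmulW : ∀ g : ℝ × ℝ → ℝ, IntegrableOn g Q → IntegrableOn (fun y => W1 y * g y) Q :=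
    fun g hg => Integrable.bdd_mul (c := M) hg hWc.aestronglyMeasurable hWnorm
  have hWi : IntegrableOn W1 Q :=
    Measure.integrableOn_of_bounded hvolfin hWc.aestronglyMeasurable hWnorm
  have hH1 : IntegrableOn (fun y => W1 y * bker_h1 R y) Q := by
    refine Measure.integrableOn_of_bounded (M := C2 * A) hvolfin ?_ ?_
    · exact (hWc.measurable.mul (bker_h1_meas R)).aestronglyMeasurable
    · refine (ae_restrict_iff' bker_measQ).2 (Filter.Eventually.of_forall fun y hy => ?_)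
      rw [Real.norm_eq_abs]
      exact (hhb y hy _ A (hW0 y) hA (hWA y hy)).1
  have hH2 : IntegrableOn (fun y => W1 y * bker_h2 R y) Q := by
    refine Measure.integrableOn_of_bounded (M := C2 * A) hvolfin ?_ ?_
    · exact (hWc.measurable.mul (bker_h2_meas R)).aestronglyMeasurable
    · refine (ae_restrict_iff' bker_measQ).2 (Filter.Eventually.of_forall fun y hy => ?_)
      rw [Real.norm_eq_abs]
      exact (hhb y hy _ A (hW0 y) hA (hWA y hy)).2
  refine ⟨∫ y in Q, W1 y * D1 (Gf K) (0 - y), ∫ y in Q, W1 y * D2 (Gf K) (0 - y),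
    ∫ y in Q, W1 y * bker_h1 R y, ∫ y in Q, W1 y * bker_h2 R y, ?_, ?_, ?_, ?_, ?_⟩
  · have h1 : |∫ y in Q, W1 y * D1 (Gf K) (0 - y)| ≤ ∫ y in Q, M * |D1 (Gf K) (0 - y)| := by
      rw [← Real.norm_eq_abs]
      refine (norm_integral_le_integral_norm _).trans ?_
      refine integral_mono (hmulW _ hg01).norm (hg01.abs.const_mul M) fun y => ?_
      simp only [norm_mul, Real.norm_eq_abs]
      exact mul_le_mul_of_nonneg_right (hWabs y) (abs_nonneg _)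
    rw [integral_const_mul] at h1
    refine h1.trans ?_
    rw [← hJ1]
    have : 0 ≤ (C1 * (2 * I0 + 1) + C2 + J2) * M := by positivity
    linarith
  · have h1 : |∫ y in Q, W1 y * D2 (Gf K) (0 - y)| ≤ ∫ y in Q, M * |D2 (Gf K) (0 - y)| := by
      rw [← Real.norm_eq_abs]
      refine (norm_integral_le_integral_norm _).trans ?_
      refine integral_mono (hmulW _ hg02).norm (hg02.abs.const_mul M) fun y => ?_
      simp only [norm_mul, Real.norm_eq_abs]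
      exact mul_le_mul_of_nonneg_right (hWabs y) (abs_nonneg _)
    rw [integral_const_mul] at h1
    refine h1.trans ?_
    rw [← hJ2]
    have : 0 ≤ (C1 * (2 * I0 + 1) + C2 + J1) * M := by positivity
    linarith
  · have h1 := norm_setIntegral_le_of_norm_le_const (μ := volume) (s := Q)
      (f := fun y => W1 y * bker_h1 R y) (C := C2 * A) (lt_top_iff_ne_top.2 hvolfin)
      (fun y hy => by
        rw [Real.norm_eq_abs]
        exact (hhb y hy _ A (hW0 y) hA (hWA y hy)).1)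
    rw [hvolreal, mul_one, Real.norm_eq_abs] at h1
    refine h1.trans ?_
    have : 0 ≤ (C1 * (2 * I0 + 1) + J1 + J2) * A := by positivity
    linarith
  · have h1 := norm_setIntegral_le_of_norm_le_const (μ := volume) (s := Q)
      (f := fun y => W1 y * bker_h2 R y) (C := C2 * A) (lt_top_iff_ne_top.2 hvolfin)
      (fun y hy => by
        rw [Real.norm_eq_abs]
        exact (hhb y hy _ A (hW0 y) hA (hWA y hy)).2)
    rw [hvolreal, mul_one, Real.norm_eq_abs] at h1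
    refine h1.trans ?_
    have : 0 ≤ (C1 * (2 * I0 + 1) + J1 + J2) * A := by positivity
    linarith
  · intro x hx
    obtain ⟨hgx1, hgx2⟩ := bker_intG hG hx
    rw [bker_conv hp1 hi1 hWc hWp hWabs x, bker_conv hp2 hi2 hWc hWp hWabs x]
    have k1 := hmulW _ hgx1
    have k2 := hmulW _ hgx2
    have k3 := hmulW _ hg01
    have k4 := hmulW _ hg02
    have hTI : TI W1 = ∫ y in Q, W1 y := rfl
    rw [hTI]
    have hint : (∫ y in Q, W1 y * ((x.1 * D1 (Gf K) (x - y) + x.2 * D2 (Gf K) (x - y))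
        - (x.1 * D1 (Gf K) (0 - y) + x.2 * D2 (Gf K) (0 - y))
        - (nsq x / 2 + (x.1 ^ 2 - x.2 ^ 2) * bker_h1 R y + 2 * x.1 * x.2 * bker_h2 R y))) =
        x.1 * (∫ y in Q, W1 y * D1 (Gf K) (x - y)) + x.2 * (∫ y in Q, W1 y * D2 (Gf K) (x - y))
          - ((∫ y in Q, W1 y * D1 (Gf K) (0 - y)) * x.1 +
            (∫ y in Q, W1 y * D2 (Gf K) (0 - y)) * x.2)
          - ((∫ y in Q, W1 y) / 2 * nsq x + (∫ y in Q, W1 y * bker_h1 R y) * (x.1 ^ 2 - x.2 ^ 2)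
            + (∫ y in Q, W1 y * bker_h2 R y) * (2 * x.1 * x.2)) := by
      have e : ∀ y, W1 y * ((x.1 * D1 (Gf K) (x - y) + x.2 * D2 (Gf K) (x - y))
        - (x.1 * D1 (Gf K) (0 - y) + x.2 * D2 (Gf K) (0 - y))
        - (nsq x / 2 + (x.1 ^ 2 - x.2 ^ 2) * bker_h1 R y + 2 * x.1 * x.2 * bker_h2 R y)) =
        (x.1 * (W1 y * D1 (Gf K) (x - y)) + x.2 * (W1 y * D2 (Gf K) (x - y)))
          - (x.1 * (W1 y * D1 (Gf K) (0 - y)) + x.2 * (W1 y * D2 (Gf K) (0 - y)))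
          - (nsq x / 2 * W1 y + (x.1 ^ 2 - x.2 ^ 2) * (W1 y * bker_h1 R y)
            + 2 * x.1 * x.2 * (W1 y * bker_h2 R y)) := by
        intro y; ring
      simp only [e]
      have q1 := k1.const_mul x.1
      have q2 := k2.const_mul x.2
      have q3 := k3.const_mul x.1
      have q4 := k4.const_mul x.2
      have q5 := hWi.const_mul (nsq x / 2)
      have q6 := hH1.const_mul (x.1 ^ 2 - x.2 ^ 2)
      have q7 := hH2.const_mul (2 * x.1 * x.2)
      have q12 : Integrable (fun y => x.1 * (W1 y * D1 (Gf K) (x - y))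
          + x.2 * (W1 y * D2 (Gf K) (x - y))) (volume.restrict Q) := q1.add q2
      have q34 : Integrable (fun y => x.1 * (W1 y * D1 (Gf K) (0 - y))
          + x.2 * (W1 y * D2 (Gf K) (0 - y))) (volume.restrict Q) := q3.add q4
      have q56 : Integrable (fun y => nsq x / 2 * W1 y
          + (x.1 ^ 2 - x.2 ^ 2) * (W1 y * bker_h1 R y)) (volume.restrict Q) := q5.add q6
      have q1234 : Integrable (fun y => (x.1 * (W1 y * D1 (Gf K) (x - y))
          + x.2 * (W1 y * D2 (Gf K) (x - y))) - (x.1 * (W1 y * D1 (Gf K) (0 - y))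
          + x.2 * (W1 y * D2 (Gf K) (0 - y)))) (volume.restrict Q) := q12.sub q34
      have q567 : Integrable (fun y => nsq x / 2 * W1 y
          + (x.1 ^ 2 - x.2 ^ 2) * (W1 y * bker_h1 R y) + 2 * x.1 * x.2 * (W1 y * bker_h2 R y))
          (volume.restrict Q) := q56.add q7
      rw [integral_sub q1234 q567, integral_sub q12 q34, integral_add q1 q2,
        integral_add q3 q4, integral_add q56 q7, integral_add q5 q6]
      simp only [integral_const_mul]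
      ring
    rw [← hint]
    obtain ⟨y1, y2⟩ := bker_int1 hz0
    obtain ⟨y3, y4⟩ := bker_int1 hx
    have y1' : IntegrableOn (fun y : ℝ × ℝ => ‖y‖⁻¹) Q := by
      refine y1.congr_fun (fun y _ => ?_) bker_measQ
      simp only [zero_sub, norm_neg]
    have y2' : (∫ y in Q, ‖y‖⁻¹) ≤ I0 := by
      simpa only [zero_sub, norm_neg] using y2
    have hone : IntegrableOn (fun _ : ℝ × ℝ => (1 : ℝ)) Q := integrableOn_const hvolfin
    have hdom : IntegrableOn (fun y : ℝ × ℝ => C1 * A * nrm x ^ 3 * (‖y‖⁻¹ + ‖x - y‖⁻¹ + 1)) Q :=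
      ((y1'.add y3).add hone).const_mul _
    have y13 : Integrable (fun y : ℝ × ℝ => ‖y‖⁻¹ + ‖x - y‖⁻¹) (volume.restrict Q) := y1'.add y3
    have hfin : (∫ y in Q, C1 * A * nrm x ^ 3 * (‖y‖⁻¹ + ‖x - y‖⁻¹ + 1)) ≤
        C1 * A * nrm x ^ 3 * (2 * I0 + 1) := by
      rw [integral_const_mul, integral_add y13 hone, integral_add y1' y3]
      have : (∫ y in Q, (1:ℝ)) = 1 := by
        rw [setIntegral_const, hvolreal]; simp
      rw [this]
      have h0 : 0 ≤ C1 * A * nrm x ^ 3 := by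
        have := bker_nrm_nonneg x
        positivity
      refine mul_le_mul_of_nonneg_left ?_ h0
      linarith
    have hae : ∀ᵐ y ∂(volume.restrict Q), ‖W1 y * ((x.1 * D1 (Gf K) (x - y)
        + x.2 * D2 (Gf K) (x - y))
        - (x.1 * D1 (Gf K) (0 - y) + x.2 * D2 (Gf K) (0 - y))
        - (nsq x / 2 + (x.1 ^ 2 - x.2 ^ 2) * bker_h1 R y + 2 * x.1 * x.2 * bker_h2 R y))‖ ≤
        C1 * A * nrm x ^ 3 * (‖y‖⁻¹ + ‖x - y‖⁻¹ + 1) := by
      have hc : ∀ᵐ y : ℝ × ℝ, y ∉ ({0, x} : Set (ℝ × ℝ)) :=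
        (Set.toFinite ({0, x} : Set (ℝ × ℝ))).countable.ae_notMem volume
      have hc' := ae_restrict_of_ae (s := Q) hc
      have hmemQ := ae_restrict_mem (μ := volume) bker_measQ
      filter_upwards [hc', hmemQ] with y hy hyQ
      rw [Real.norm_eq_abs]
      have n0 : y ≠ 0 := fun h => hy (by simp [h])
      have n1 : x - y ≠ 0 := fun h => hy (by
        have : y = x := (sub_eq_zero.1 h).symm
        simp [this])
      exact hpt x y hx hyQ n0 n1 _ A (hW0 y) hA (hWA y hyQ)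
    refine (norm_integral_le_of_norm_le hdom hae).trans (hfin.trans ?_)
    have hx3 : 0 ≤ A * nrm x ^ 3 := by
      have := bker_nrm_nonneg x
      positivity
    have : 0 ≤ (C2 + J1 + J2) * (A * nrm x ^ 3) := by positivity
    nlinarith

end Pool.Agent.AO
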