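import Pool.Agent.Lib.MP_10e52e_an.Dens
import Pool.Agent.Lib.MP_10e52e_an.Ident
import Pool.Agent.Lib.MP_10e52e_an.Bz3
import Pool.Agent.Lib.MP_10e52e_an.Bker

/-! MP_10e52e_an row BW: L9.8 + W part of L9.10 -/

namespace Pool.Agent.AO

open MeasureTheory Set Real
open scoped ContDiff

private theorem BW_contD1 {f : ℝ × ℝ → ℝ} (hf : ContDiff ℝ ∞ f) : Continuous (D1 f) := by
  have h : Continuous (fderiv ℝ f) := hf.continuous_fderiv (by simp)
  exact h.clm_apply continuous_const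

private theorem BW_contD2 {f : ℝ × ℝ → ℝ} (hf : ContDiff ℝ ∞ f) : Continuous (D2 f) := by
  have h : Continuous (fderiv ℝ f) := hf.continuous_fderiv (by simp)
  exact h.clm_apply continuous_const

private theorem BW_nsq_cont : Continuous nsq := by
  unfold nsq
  fun_prop

private theorem BW_nrm_cont : Continuous nrm := by
  unfold nrm
  exact BW_nsq_cont.sqrt

private theorem BW_nsq_nn (x : ℝ × ℝ) : 0 ≤ nsq x := by
  unfold nsq
  positivity

private theorem BW_nrm_nn (x : ℝ × ℝ) : 0 ≤ nrm x := Real.sqrt_nonneg _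

private theorem BW_nrm_sq (x : ℝ × ℝ) : nrm x ^ 2 = nsq x := Real.sq_sqrt (BW_nsq_nn x)

private theorem BW_fst (x : ℝ × ℝ) : |x.1| ≤ nrm x :=
  Real.abs_le_sqrt (by unfold nsq; nlinarith [sq_nonneg x.2])

private theorem BW_snd (x : ℝ × ℝ) : |x.2| ≤ nrm x :=
  Real.abs_le_sqrt (by unfold nsq; nlinarith [sq_nonneg x.1])

private theorem BW_disc_meas (r : ℝ) : MeasurableSet (Disc r) :=
  (isOpen_lt BW_nrm_cont continuous_const).measurableSet

private theorem BW_disc_Q {r : ℝ} (hr : r ≤ 1 / 2) : Disc r ⊆ Q := by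
  intro x hx
  have h : nrm x < r := hx
  have h1 := abs_lt.1 (lt_of_le_of_lt (BW_fst x) (lt_of_lt_of_le h hr))
  have h2 := abs_lt.1 (lt_of_le_of_lt (BW_snd x) (lt_of_lt_of_le h hr))
  exact ⟨⟨by linarith [h1.1], h1.2.le⟩, ⟨by linarith [h2.1], h2.2.le⟩⟩

private theorem BW_Q_meas : MeasurableSet Q := measurableSet_Ioc.prod measurableSet_Ioc

private theorem BW_Q_nrm {x : ℝ × ℝ} (hx : x ∈ Q) : nrm x ≤ 1 := by
  obtain ⟨⟨h1, h2⟩, ⟨h3, h4⟩⟩ := hx
  have : nsq x ≤ 1 := by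
    unfold nsq
    nlinarith
  unfold nrm
  exact Real.sqrt_le_one.2 this

private theorem BW_Qvol : volume Q = 1 := by
  unfold Q
  rw [Measure.volume_eq_prod, Measure.prod_prod, Real.volume_Ioc]
  norm_num

private theorem BW_TIconst (c : ℝ) : TI (fun _ => c) = c := by
  unfold TI
  rw [setIntegral_const, Measure.real, BW_Qvol]
  simp

private theorem BW_intQ {g : ℝ × ℝ → ℝ} (hg : Continuous g) : IntegrableOn g Q := by
  have h1 : IntegrableOn g (Icc ((-1 / 2, -1 / 2) : ℝ × ℝ) (1 / 2, 1 / 2)) :=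
    hg.continuousOn.integrableOn_compact isCompact_Icc
  refine h1.mono_set ?_
  rintro x ⟨⟨h1, h2⟩, ⟨h3, h4⟩⟩
  exact ⟨⟨h1.le, h3.le⟩, ⟨h2, h4⟩⟩

private theorem BW_intD {g : ℝ × ℝ → ℝ} (hg : Continuous g) {r : ℝ} (hr : r ≤ 1 / 2) :
    IntegrableOn g (Disc r) := (BW_intQ hg).mono_set (BW_disc_Q hr)

/-- convolution with a kernel of mean 0 -/
private theorem BW_conv {F : ℝ × ℝ → ℝ} (hF : IntegrableOn F Q) (h0 : TI F = 0)
    {s W1 W2 : ℝ × ℝ → ℝ} {L M : ℝ} (hs : Continuous s) (h1 : Continuous W1)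
    (h2 : Continuous W2) (b0 : ∀ x, |s x| ≤ M) (b1 : ∀ x, |W1 x| ≤ M) (b2 : ∀ x, |W2 x| ≤ M)
    (hsum : ∀ x, W1 x + W2 x = L - s x) (x : ℝ × ℝ) :
    conv F W1 x + conv F W2 x = -conv F s x := by
  have key : ∀ g : ℝ × ℝ → ℝ, Continuous g → (∀ x, |g x| ≤ M) →
      IntegrableOn (fun y => F y * g (x - y)) Q := by
    intro g hg hb
    refine Integrable.mul_bdd (c := M) hF ?_ ?_
    · exact (hg.comp (continuous_const.sub continuous_id)).aestronglyMeasurable
    · exact Filter.Eventually.of_forall fun y => hb _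
  unfold conv TI
  rw [← integral_add (key W1 h1 b1) (key W2 h2 b2)]
  have e : ∀ y, F y * W1 (x - y) + F y * W2 (x - y) = L * F y - F y * s (x - y) := by
    intro y
    rw [← mul_add, hsum]
    ring
  simp only [e]
  rw [integral_sub (hF.const_mul L) (key s hs b0), integral_const_mul]
  unfold TI at h0
  rw [h0]
  ring

/-- the mean of the derivatives of the Green function is 0 -/
private theorem BW_mean {K R : ℝ × ℝ → ℝ} (hG : IsGreen K R) :
    TI (D1 (Gf K)) = 0 ∧ TI (D2 (Gf K)) = 0 := by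
  have hp : Per (fun _ : ℝ × ℝ => (1 : ℝ)) := fun x => ⟨rfl, rfl⟩
  obtain ⟨h1, h2, -, -⟩ := green_ibp hG (phi := fun _ => (1 : ℝ)) contDiff_const hp
  have e1 : ∀ x, D1 (fun _ : ℝ × ℝ => (1 : ℝ)) x = 0 := by
    intro x
    unfold D1
    simp
  have e2 : ∀ x, D2 (fun _ : ℝ × ℝ => (1 : ℝ)) x = 0 := by
    intro x
    unfold D2
    simp
  simp only [e1, mul_zero, mul_one] at h1
  simp only [e2, mul_zero, mul_one] at h2
  rw [BW_TIconst] at h1 h2
  constructor
  · have : TI (D1 (Gf K)) = TI (fun x => D1 (Gf K) x) := rfl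
    rw [this]
    linarith
  · have : TI (D2 (Gf K)) = TI (fun x => D2 (Gf K) x) := rfl
    rw [this]
    linarith

/-- integral over `Q` of a function cut to a disc -/
private theorem BW_ind {g : ℝ × ℝ → ℝ} {S : Set (ℝ × ℝ)} (hS : MeasurableSet S) (hSQ : S ⊆ Q) :
    ∫ x in Q, S.indicator g x = ∫ x in S, g x := by
  rw [setIntegral_indicator hS, inter_eq_self_of_subset_right hSQ]

/-- L9.8, first moment -/
private theorem BW_moment {mu : ℝ × ℝ → ℝ} (hmu : Continuous mu) (nn : ∀ x, 0 ≤ mu x)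
    (one : TI mu = 1) {r : ℝ} (hr : r ≤ 1 / 2) :
    0 ≤ TI (fun y => nrm y * mu y) ∧
    TI (fun y => nrm y * mu y) ≤ (∫ x in Disc r, nrm x * mu x) + (1 - ∫ x in Disc r, mu x) ∧
    ∫ x in Disc r, mu x ≤ 1 := by
  have hD := BW_disc_meas r
  have hDQ := BW_disc_Q hr
  have hc : Continuous fun y => nrm y * mu y := BW_nrm_cont.mul hmu
  refine ⟨integral_nonneg fun y => mul_nonneg (BW_nrm_nn y) (nn y), ?_, ?_⟩
  · have h1 : ∫ x in Q, nrm x * mu x ≤ ∫ x in Q, ((Disc r).indicator (fun y => nrm y * mu y) x +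
        (mu x - (Disc r).indicator mu x)) := by
      refine setIntegral_mono_on (BW_intQ hc) ?_ BW_Q_meas ?_
      · exact ((BW_intQ hc).indicator hD).add ((BW_intQ hmu).sub ((BW_intQ hmu).indicator hD))
      · intro x hx
        by_cases hxD : x ∈ Disc r
        · simp [hxD]
        · simp only [hxD, not_false_eq_true, indicator_of_notMem, zero_add, sub_zero]
          nlinarith [nn x, BW_Q_nrm hx]
    have j1 : IntegrableOn (fun x => mu x - (Disc r).indicator mu x) Q :=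
      (BW_intQ hmu).sub ((BW_intQ hmu).indicator hD)
    have j2 : IntegrableOn (fun x => (Disc r).indicator (fun y => nrm y * mu y) x) Q :=
      (BW_intQ hc).indicator hD
    rw [integral_add j2 j1,
      integral_sub (BW_intQ hmu) ((BW_intQ hmu).indicator hD), BW_ind hD hDQ, BW_ind hD hDQ] at h1
    have h2 : ∫ x in Q, mu x = 1 := one
    rw [h2] at h1
    exact h1
  · have h2 : ∫ x in Q, mu x = 1 := one
    rw [← h2]
    exact setIntegral_mono_set (BW_intQ hmu) (Filter.Eventually.of_forall nn)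
      (Filter.Eventually.of_forall hDQ)

/-- the ring part -/
private theorem BW_ring {mu : ℝ × ℝ → ℝ} (hmu : Continuous mu) (nn : ∀ x, 0 ≤ mu x)
    {F1 F2 : ℝ × ℝ → ℝ} (hF1 : Continuous F1) (hF2 : Continuous F2) {B : ℝ} (hB : 0 ≤ B)
    (b1 : ∀ x, |F1 x| ≤ B) (b2 : ∀ x, |F2 x| ≤ B) {r : ℝ} (hr : 0 < r) (hr' : r ≤ 1 / 8) :
    |TI (fun x => mu x * (Xr r (fun x => x.1) x * F1 x + Xr r (fun x => x.2) x * F2 x)) -
      ∫ x in Disc r, mu x * (x.1 * F1 x + x.2 * F2 x)| ≤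
      2 * B * ∫ x in Disc (2 * r) \ Disc r, mu x := by
  obtain ⟨sm1, -, q1, e1, -, -, z1, c01⟩ := Xr_basic hr hr' (f := fun x : ℝ × ℝ => x.1) contDiff_fst
  obtain ⟨sm2, -, q2, e2, -, -, z2, -⟩ := Xr_basic hr hr' (f := fun x : ℝ × ℝ => x.2) contDiff_snd
  set X1 := Xr r (fun x => x.1) with hX1
  set X2 := Xr r (fun x => x.2) with hX2
  have hD := BW_disc_meas r
  have hDQ := BW_disc_Q (r := r) (by linarith)
  have hR : MeasurableSet (Disc (2 * r) \ Disc r) := (BW_disc_meas _).diff hD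
  have hRQ : Disc (2 * r) \ Disc r ⊆ Q := sdiff_subset.trans (BW_disc_Q (by linarith))
  set h : ℝ × ℝ → ℝ := fun x => mu x * (X1 x * F1 x + X2 x * F2 x) with hh
  have hcont : Continuous h :=
    hmu.mul ((sm1.continuous.mul hF1).add (sm2.continuous.mul hF2))
  have e0 : ∫ x in Disc r, mu x * (x.1 * F1 x + x.2 * F2 x) = ∫ x in Disc r, h x := by
    refine setIntegral_congr_fun hD fun x hx => ?_
    have hx' : nrm x ≤ r := le_of_lt hx
    simp only [hh]
    rw [(e1 x hx').2, (e2 x hx').2]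
  rw [e0, ← BW_ind (g := h) hD hDQ]
  unfold TI
  rw [← integral_sub (BW_intQ hcont) ((BW_intQ hcont).indicator hD)]
  refine (abs_integral_le_integral_abs).trans ?_
  have h3 : ∫ x in Q, |h x - (Disc r).indicator h x| ≤
      ∫ x in Q, 2 * B * (Disc (2 * r) \ Disc r).indicator mu x := by
    refine setIntegral_mono_on ?_ ?_ BW_Q_meas ?_
    · exact ((BW_intQ hcont).sub ((BW_intQ hcont).indicator hD)).abs
    · exact ((BW_intQ hmu).indicator hR).const_mul _
    · intro x hx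
      by_cases hxD : x ∈ Disc r
      · have hxR : x ∉ Disc (2 * r) \ Disc r := fun hcon => hcon.2 hxD
        simp [hxD, hxR]
      · by_cases hx2 : x ∈ Disc (2 * r)
        · have hxR : x ∈ Disc (2 * r) \ Disc r := ⟨hx2, hxD⟩
          simp only [hxD, hxR, not_false_eq_true, indicator_of_notMem, sub_zero, indicator_of_mem]
          have hn1 : nrm x ≤ 1 := BW_Q_nrm hx
          have hX1b : |X1 x| ≤ 1 := by
            rw [q1 x hx, abs_mul, abs_of_nonneg (c01 x).1]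
            have := BW_fst x
            nlinarith [(c01 x).1, (c01 x).2, abs_nonneg x.1]
          have hX2b : |X2 x| ≤ 1 := by
            rw [q2 x hx, abs_mul, abs_of_nonneg (c01 x).1]
            have := BW_snd x
            nlinarith [(c01 x).1, (c01 x).2, abs_nonneg x.2]
          rw [hh]
          simp only
          rw [abs_mul, abs_of_nonneg (nn x)]
          have h4 : |X1 x * F1 x + X2 x * F2 x| ≤ 2 * B := by
            refine (abs_add_le _ _).trans ?_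
            rw [abs_mul, abs_mul]
            have h5 : |X1 x| * |F1 x| ≤ 1 * B :=
              mul_le_mul hX1b (b1 x) (abs_nonneg _) zero_le_one
            have h6 : |X2 x| * |F2 x| ≤ 1 * B :=
              mul_le_mul hX2b (b2 x) (abs_nonneg _) zero_le_one
            linarith
          rw [mul_comm]
          exact mul_le_mul_of_nonneg_right h4 (nn x)
        · have hxR : x ∉ Disc (2 * r) \ Disc r := fun hcon => hx2 hcon.1
          have hn : 2 * r ≤ nrm x := not_lt.1 hx2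
          have : h x = 0 := by
            simp only [hh]
            rw [(z1 x hx hn).1, (z2 x hx hn).1]
            ring
          simp [hxD, hxR, this]
  refine h3.trans (le_of_eq ?_)
  rw [integral_const_mul, BW_ind hR hRQ]

/-- the disc part -/
private theorem BW_disc {mu : ℝ × ℝ → ℝ} (hmu : Continuous mu) (nn : ∀ x, 0 ≤ mu x)
    {F1 F2 : ℝ × ℝ → ℝ} (hF1 : Continuous F1) (hF2 : Continuous F2) {r : ℝ} (hr' : r ≤ 1 / 2)
    {a1 a2 T b1 b2 c3 c1 : ℝ}
    (h : ∀ x, nrm x < r → |-(x.1 * F1 x + x.2 * F2 x) - (a1 * x.1 + a2 * x.2) -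
      (T / 2 * nsq x + b1 * (x.1 ^ 2 - x.2 ^ 2) + b2 * (2 * x.1 * x.2))| ≤
        c3 * nrm x ^ 3 + c1 * nrm x) :
    |-(∫ x in Disc r, mu x * (x.1 * F1 x + x.2 * F2 x)) -
      (a1 * (∫ x in Disc r, x.1 * mu x) + a2 * ∫ x in Disc r, x.2 * mu x) -
      (T / 2 * (∫ x in Disc r, nsq x * mu x) + b1 * (∫ x in Disc r, (x.1 ^ 2 - x.2 ^ 2) * mu x) +
        b2 * ∫ x in Disc r, 2 * x.1 * x.2 * mu x)| ≤
      c3 * (∫ x in Disc r, nrm x ^ 3 * mu x) + c1 * ∫ x in Disc r, nrm x * mu x := by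
  have hD := BW_disc_meas r
  have hq := BW_nsq_cont
  have hn := BW_nrm_cont
  have hint : ∀ g : ℝ × ℝ → ℝ, Continuous g → IntegrableOn g (Disc r) := fun g hg => BW_intD hg hr'
  have i0 := hint (fun x => mu x * (x.1 * F1 x + x.2 * F2 x)) (by fun_prop)
  have i1 := hint (fun x => a1 * (x.1 * mu x)) (by fun_prop)
  have i2 := hint (fun x => a2 * (x.2 * mu x)) (by fun_prop)
  have i3 := hint (fun x => T / 2 * (nsq x * mu x)) (by fun_prop)
  have i4 := hint (fun x => b1 * ((x.1 ^ 2 - x.2 ^ 2) * mu x)) (by fun_prop)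
  have i5 := hint (fun x => b2 * (2 * x.1 * x.2 * mu x)) (by fun_prop)
  have i6 := hint (fun x => c3 * (nrm x ^ 3 * mu x)) (by fun_prop)
  have i7 := hint (fun x => c1 * (nrm x * mu x)) (by fun_prop)
  have e : -(∫ x in Disc r, mu x * (x.1 * F1 x + x.2 * F2 x)) -
      (a1 * (∫ x in Disc r, x.1 * mu x) + a2 * ∫ x in Disc r, x.2 * mu x) -
      (T / 2 * (∫ x in Disc r, nsq x * mu x) + b1 * (∫ x in Disc r, (x.1 ^ 2 - x.2 ^ 2) * mu x) +
        b2 * ∫ x in Disc r, 2 * x.1 * x.2 * mu x) =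
      ∫ x in Disc r, (-(mu x * (x.1 * F1 x + x.2 * F2 x)) -
        (a1 * (x.1 * mu x) + a2 * (x.2 * mu x)) -
        (T / 2 * (nsq x * mu x) + b1 * ((x.1 ^ 2 - x.2 ^ 2) * mu x) +
          b2 * (2 * x.1 * x.2 * mu x))) := by
    have k0 := hint (fun x => -(mu x * (x.1 * F1 x + x.2 * F2 x))) (by fun_prop)
    have k1 := hint (fun x => a1 * (x.1 * mu x) + a2 * (x.2 * mu x)) (by fun_prop)
    have k2 := hint (fun x => T / 2 * (nsq x * mu x) + b1 * ((x.1 ^ 2 - x.2 ^ 2) * mu x))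
      (by fun_prop)
    have k3 := hint (fun x => T / 2 * (nsq x * mu x) + b1 * ((x.1 ^ 2 - x.2 ^ 2) * mu x) +
      b2 * (2 * x.1 * x.2 * mu x)) (by fun_prop)
    have k4 := hint (fun x => -(mu x * (x.1 * F1 x + x.2 * F2 x)) -
      (a1 * (x.1 * mu x) + a2 * (x.2 * mu x))) (by fun_prop)
    rw [integral_sub k4 k3, integral_sub k0 k1, integral_add k2 i5, integral_add i3 i4,
      integral_add i1 i2, integral_neg]
    simp only [integral_const_mul]
  rw [e]
  refine (abs_integral_le_integral_abs).trans ?_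
  have h2 : c3 * (∫ x in Disc r, nrm x ^ 3 * mu x) + c1 * (∫ x in Disc r, nrm x * mu x) =
      ∫ x in Disc r, (c3 * (nrm x ^ 3 * mu x) + c1 * (nrm x * mu x)) := by
    rw [integral_add i6 i7]
    simp only [integral_const_mul]
  rw [h2]
  refine setIntegral_mono_on ?_ (i6.add i7) hD ?_
  · exact ((i0.neg.sub (i1.add i2)).sub ((i3.add i4).add i5)).abs
  · intro x hx
    have h3 := h x hx
    have h4 : -(mu x * (x.1 * F1 x + x.2 * F2 x)) - (a1 * (x.1 * mu x) + a2 * (x.2 * mu x)) -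
        (T / 2 * (nsq x * mu x) + b1 * ((x.1 ^ 2 - x.2 ^ 2) * mu x) +
          b2 * (2 * x.1 * x.2 * mu x)) =
        mu x * (-(x.1 * F1 x + x.2 * F2 x) - (a1 * x.1 + a2 * x.2) -
      (T / 2 * nsq x + b1 * (x.1 ^ 2 - x.2 ^ 2) + b2 * (2 * x.1 * x.2))) := by ring
    rw [h4, abs_mul, abs_of_nonneg (nn x)]
    calc mu x * _ ≤ mu x * (c3 * nrm x ^ 3 + c1 * nrm x) := mul_le_mul_of_nonneg_left h3 (nn x)
      _ = _ := by ring

/-- the numerical end -/
private theorem BW_num {C1 Cf Ck Cz cA N L A S nu kap a' : ℝ} (hC1 : 0 < C1) (hCf : 0 < Cf)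
    (hCk : 0 < Ck) (hCz : 0 < Cz) (hN : 1 ≤ N) (hL0 : 0 ≤ L) (hL : L ≤ 13 * N)
    (hA0 : 0 ≤ A) (hA : A ≤ cA * N ^ 3) (hS0 : 0 ≤ S) (hS1 : S ≤ 1) (hS : S ^ 2 = kap)
    (hnu0 : 0 ≤ nu) (hnu1 : nu ≤ 1) (ha' : a' = A * (kap + nu ^ 2)) {X : ℝ}
    (hX : X ≤ 2 * (Cf * L) * (C1 * kap) + (Ck * A * (C1 * kap) + 2 * (Cf * a') * (C1 * S)) +
      (Ck * L * (C1 * kap) + Ck * L * (C1 * kap)) + a' / 2 * (C1 * S) +
      (Ck * A * (Cz * N * kap) + Ck * A * (Cz * N * kap))) :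
    X ≤ (26 * Cf * C1 + Ck * C1 * cA + 2 * Cf * C1 * cA + 26 * Ck * C1 + C1 * cA +
      2 * Ck * Cz * cA) * N ^ 4 * (kap + nu * S) := by
  have hk0 : 0 ≤ kap := by rw [← hS]; positivity
  have hcA : 0 ≤ cA := by
    by_contra hcon
    push Not at hcon
    have : cA * N ^ 3 < 0 := mul_neg_of_neg_of_pos hcon (by positivity)
    linarith
  set E := kap + nu * S with hE
  have hE0 : 0 ≤ E := by positivity
  have hkE : kap ≤ E := by
    rw [hE]
    have : 0 ≤ nu * S := by positivity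
    linarith
  -- `(kap + nu^2) S ≤ E`
  have h1 : (kap + nu ^ 2) * S ≤ E := by
    rw [hE]
    have h2 : kap * S ≤ kap := mul_le_of_le_one_right hk0 hS1
    have h3 : nu ^ 2 * S ≤ nu * S := by
      apply mul_le_mul_of_nonneg_right _ hS0
      nlinarith
    linarith
  have hN34 : N ^ 3 ≤ N ^ 4 := by
    have : (0 : ℝ) ≤ N ^ 3 := by positivity
    nlinarith
  have hN14 : N ≤ N ^ 4 := by
    have h5 : (1 : ℝ) ≤ N ^ 3 := one_le_pow₀ hN
    nlinarith
  have hAN : A * E ≤ cA * (N ^ 4 * E) := by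
    calc A * E ≤ (cA * N ^ 3) * E := mul_le_mul_of_nonneg_right hA hE0
      _ = cA * (N ^ 3 * E) := by ring
      _ ≤ cA * (N ^ 4 * E) :=
        mul_le_mul_of_nonneg_left (mul_le_mul_of_nonneg_right hN34 hE0) hcA
  have hANN : A * N * E ≤ cA * (N ^ 4 * E) := by
    calc A * N * E ≤ (cA * N ^ 3) * N * E := by gcongr
      _ = cA * (N ^ 4 * E) := by ring
  have hLN : L * E ≤ 13 * (N ^ 4 * E) := by
    calc L * E ≤ (13 * N) * E := mul_le_mul_of_nonneg_right hL hE0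
      _ = 13 * (N * E) := by ring
      _ ≤ 13 * (N ^ 4 * E) := by gcongr
  have ha'S : a' * S ≤ A * E := by
    rw [ha', mul_assoc]
    exact mul_le_mul_of_nonneg_left h1 hA0
  have hAk : A * kap ≤ A * E := mul_le_mul_of_nonneg_left hkE hA0
  have hLk : L * kap ≤ L * E := mul_le_mul_of_nonneg_left hkE hL0
  have hANk : A * N * kap ≤ A * N * E := mul_le_mul_of_nonneg_left hkE (by positivity)
  set P := N ^ 4 * E with hP
  have t1 : 2 * (Cf * L) * (C1 * kap) ≤ 26 * Cf * C1 * P := by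
    have : Cf * C1 * (L * kap) ≤ Cf * C1 * (13 * P) :=
      mul_le_mul_of_nonneg_left (hLk.trans hLN) (by positivity)
    linarith
  have t2 : Ck * A * (C1 * kap) ≤ Ck * C1 * cA * P := by
    have : Ck * C1 * (A * kap) ≤ Ck * C1 * (cA * P) :=
      mul_le_mul_of_nonneg_left (hAk.trans hAN) (by positivity)
    linarith
  have t3 : 2 * (Cf * a') * (C1 * S) ≤ 2 * Cf * C1 * cA * P := by
    have : Cf * C1 * (a' * S) ≤ Cf * C1 * (cA * P) :=
      mul_le_mul_of_nonneg_left (ha'S.trans hAN) (by positivity)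
    linarith
  have t4 : Ck * L * (C1 * kap) ≤ 13 * Ck * C1 * P := by
    have : Ck * C1 * (L * kap) ≤ Ck * C1 * (13 * P) :=
      mul_le_mul_of_nonneg_left (hLk.trans hLN) (by positivity)
    linarith
  have t5 : a' / 2 * (C1 * S) ≤ C1 * cA * P := by
    have h6 : C1 * (a' * S) ≤ C1 * (cA * P) :=
      mul_le_mul_of_nonneg_left (ha'S.trans hAN) hC1.le
    have h7 : 0 ≤ C1 * (a' * S) := by
      rw [ha']
      positivity
    linarith
  have t6 : Ck * A * (Cz * N * kap) ≤ Ck * Cz * cA * P := by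
    have : Ck * Cz * (A * N * kap) ≤ Ck * Cz * (cA * P) :=
      mul_le_mul_of_nonneg_left (hANk.trans hANN) (by positivity)
    linarith
  have : (26 * Cf * C1 + Ck * C1 * cA + 2 * Cf * C1 * cA + 26 * Ck * C1 + C1 * cA +
      2 * Ck * Cz * cA) * N ^ 4 * E =
      26 * Cf * C1 * P + Ck * C1 * cA * P + 2 * Cf * C1 * cA * P + 26 * Ck * C1 * P +
      C1 * cA * P + 2 * Ck * Cz * cA * P := by
    rw [hP]
    ring
  rw [this]
  linarith

/-- L9.10, the `W` part: `E X.grad(G*W)` with `W = lam - s`, `X = chi x` -/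
theorem c2_Wpart {K R : ℝ × ℝ → ℝ} (hG : IsGreen K R) {rp : ℝ} (hrp : GoodRp K rp) {r1 : ℝ}
    (hr : 0 < r1) (hr' : r1 ≤ 1 / 32) {r3 : ℝ} (hr3 : 0 < r3) (hr31 : 64 * r3 ≤ r1)
    (hr3p : 64 * r3 ≤ rp) {C1 : ℝ} (hC1 : 0 < C1) :
    ∃ C : ℝ, 0 < C ∧ ∀ (N : ℕ) (z : ℝ × ℝ) (k kap : ℝ) (mu s : ℝ × ℝ → ℝ), 3 ≤ N →
      Conc K N z k mu s rp r1 r3 kap C1 → 0 < kap → kap ≤ 1 →
      (∀ x, lam N - s x ≤ C1 * lam N ^ 3 * (nrm x + TI (fun y => nrm y * mu y)) ^ 2) →
      |-TI (fun x => mu x * (Xr r3 (fun x => x.1) x * conv (D1 (Gf K)) s x +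
          Xr r3 (fun x => x.2) x * conv (D2 (Gf K)) s x))
        - (lam N - 4 * π) / 2 * ∫ x in Disc r3, nsq x * mu x| ≤
      C * N ^ 4 * (kap + (1 - ∫ x in Disc r3, mu x) * Real.sqrt kap) := by
  obtain ⟨Cf, hCf, hforce⟩ := conv_force hG
  obtain ⟨Ck, hCk, hker⟩ := c2_ker hG
  obtain ⟨Cz, hCz, hz3⟩ := c2_z3 hG hrp hr hr' hr3 hr31 hr3p hC1
  obtain ⟨hLS, -⟩ := green_logsing hG
  obtain ⟨-, -, hI1, hI2⟩ := hLS.integrable
  obtain ⟨hm1, hm2⟩ := BW_mean hG
  set cB : ℝ := C1 * (4 * C1 ^ 2 + 4) + 1 with hcB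
  have hcB1 : 1 ≤ cB := by
    have : 0 ≤ C1 * (4 * C1 ^ 2 + 4) := by positivity
    linarith
  set cA : ℝ := cB * 13 ^ 3 with hcA
  have hcA0 : 0 < cA := by positivity
  refine ⟨26 * Cf * C1 + Ck * C1 * cA + 2 * Cf * C1 * cA + 26 * Ck * C1 + C1 * cA +
      2 * Ck * Cz * cA, by positivity, ?_⟩
  intro N z k kap mu s hN hc hk0 hk1 hWb
  have hNr : (3 : ℝ) ≤ N := by exact_mod_cast hN
  have hN1 : (1 : ℝ) ≤ N := by linarith
  set L := lam N with hL
  have hpi3 := Real.pi_gt_three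
  have hpi4 := Real.pi_lt_d2
  have hL1 : 1 ≤ L := by
    rw [hL]
    unfold lam
    nlinarith
  have hL13 : L ≤ 13 * N := by
    rw [hL]
    unfold lam
    nlinarith
  have hr32 : r3 ≤ 1 / 2048 := by linarith
  -- basic data
  have hmu : Continuous mu := hc.mf.smu.continuous
  have hs : Continuous s := hc.mf.ss.continuous
  have nn := hc.mf.nn
  obtain ⟨hmom0, hmom1, ht1⟩ := BW_moment hmu nn hc.mf.one (r := r3) (by linarith)
  set m := TI (fun y => nrm y * mu y) with hm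
  set t := ∫ x in Disc r3, mu x with ht
  set S := Real.sqrt kap with hSdef
  have hS0 : 0 ≤ S := Real.sqrt_nonneg _
  have hS1 : S ≤ 1 := Real.sqrt_le_one.2 hk1
  have hS2 : S ^ 2 = kap := Real.sq_sqrt hk0.le
  set nu := 1 - t with hnu
  have hnu0 : 0 ≤ nu := by linarith
  have hnu1 : nu ≤ 1 := by
    have := hc.t9
    linarith
  have hmle : m ≤ C1 * S + nu := by
    have := hc.m1
    linarith
  set a0 := kap + nu ^ 2 with ha0
  have ha00 : 0 ≤ a0 := by positivity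
  set A := cB * L ^ 3 with hA
  have hL31 : 1 ≤ L ^ 3 := one_le_pow₀ hL1
  have hA1 : 1 ≤ A := by
    rw [hA]
    nlinarith
  have hA0 : 0 ≤ A := by linarith
  have hAN : A ≤ cA * N ^ 3 := by
    rw [hA, hcA]
    have : L ^ 3 ≤ (13 * N) ^ 3 := pow_le_pow_left₀ (by linarith) hL13 3
    calc cB * L ^ 3 ≤ cB * (13 * N) ^ 3 := mul_le_mul_of_nonneg_left this (by linarith)
      _ = cB * 13 ^ 3 * N ^ 3 := by ring
  set a' := A * a0 with ha'
  have ha'0 : 0 ≤ a' := mul_nonneg hA0 ha00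
  -- `W ≤ A (|y|^2 + a0)`
  have hWA : ∀ y, L - s y ≤ A * nsq y + a' := by
    intro y
    refine (hWb y).trans ?_
    have h1 : (nrm y + m) ^ 2 ≤ 2 * nsq y + 2 * m ^ 2 := by
      rw [← BW_nrm_sq]
      nlinarith [sq_nonneg (nrm y - m)]
    have h2 : m ^ 2 ≤ (C1 * S + nu) ^ 2 := pow_le_pow_left₀ hmom0 hmle 2
    have h3 : (C1 * S + nu) ^ 2 ≤ 2 * C1 ^ 2 * kap + 2 * nu ^ 2 := by
      rw [← hS2]
      nlinarith [sq_nonneg (C1 * S - nu)]
    have h4 : (nrm y + m) ^ 2 ≤ (4 * C1 ^ 2 + 4) * (nsq y + a0) := by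
      have h5 := BW_nsq_nn y
      have h6 : 0 ≤ C1 ^ 2 := sq_nonneg _
      have h7 : 0 ≤ nu ^ 2 := sq_nonneg _
      rw [ha0]
      nlinarith [mul_nonneg h6 h5, mul_nonneg h6 hk0.le, mul_nonneg h6 h7]
    have h8 : 0 ≤ C1 * L ^ 3 := by positivity
    calc C1 * L ^ 3 * (nrm y + m) ^ 2 ≤ C1 * L ^ 3 * ((4 * C1 ^ 2 + 4) * (nsq y + a0)) :=
          mul_le_mul_of_nonneg_left h4 h8
      _ = (C1 * (4 * C1 ^ 2 + 4)) * (L ^ 3 * (nsq y + a0)) := by ring
      _ ≤ cB * (L ^ 3 * (nsq y + a0)) := by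
          apply mul_le_mul_of_nonneg_right
          · rw [hcB]
            linarith
          · have := BW_nsq_nn y
            positivity
      _ = A * nsq y + a' := by
          rw [ha', hA]
          ring
  -- splitting of `W`
  set W2 : ℝ × ℝ → ℝ := fun y => min (L - s y) a' with hW2
  set W1 : ℝ × ℝ → ℝ := fun y => (L - s y) - min (L - s y) a' with hW1
  have hW2c : Continuous W2 := (continuous_const.sub hs).min continuous_const
  have hW1c : Continuous W1 := (continuous_const.sub hs).sub hW2c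
  have hW0 : ∀ y, 0 ≤ L - s y := fun y => by
    have := hc.mf.s1 y
    linarith
  have hWL : ∀ y, L - s y ≤ L := fun y => by
    have := hc.mf.s0 y
    linarith
  have hW2n : ∀ y, 0 ≤ W2 y := fun y => le_min (hW0 y) ha'0
  have hW1n : ∀ y, 0 ≤ W1 y := fun y => sub_nonneg.2 (min_le_left _ _)
  have hW1L : ∀ y, W1 y ≤ L := fun y => by
    have h1 := hW2n y
    have h2 := hWL y
    simp only [hW1]
    simp only [hW2] at h1
    linarith
  have hW2L : ∀ y, W2 y ≤ L := fun y => (min_le_left _ _).trans (hWL y)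
  have hW1A : ∀ y ∈ Q, W1 y ≤ A * nsq y := by
    intro y _
    simp only [hW1]
    have h1 := hWA y
    have h2 := BW_nsq_nn y
    rcases min_choice (L - s y) a' with h | h
    · rw [h]
      have : 0 ≤ A * nsq y := mul_nonneg hA0 h2
      linarith
    · rw [h]
      linarith
  have hps := hc.mf.ps
  have hW2p : Per W2 := fun x => by
    obtain ⟨h1, h2⟩ := hps x
    simp only [hW2]
    rw [h1, h2]
    exact ⟨rfl, rfl⟩
  have hW1p : Per W1 := fun x => by
    obtain ⟨h1, h2⟩ := hps x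
    simp only [hW1]
    rw [h1, h2]
    exact ⟨rfl, rfl⟩
  obtain ⟨a1, a2, b1, b2, ha1, ha2, hb1, hb2, hexp⟩ :=
    hker W1 A L hW1c hW1p hW1n hA1 hW1L hW1A
  have hsL : ∀ x, |s x| ≤ L := fun x => by
    rw [abs_of_nonneg (hc.mf.s0 x)]
    exact hc.mf.s1 x
  have hW1ab : ∀ x, |W1 x| ≤ L := fun x => by
    rw [abs_of_nonneg (hW1n x)]
    exact hW1L x
  have hW2ab : ∀ x, |W2 x| ≤ L := fun x => by
    rw [abs_of_nonneg (hW2n x)]
    exact hW2L x
  have hsum : ∀ x, W1 x + W2 x = L - s x := fun x => by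
    simp only [hW1, hW2]
    ring
  have hcv1 := BW_conv hI1 hm1 hs hW1c hW2c hsL hW1ab hW2ab hsum
  have hcv2 := BW_conv hI2 hm2 hs hW1c hW2c hsL hW1ab hW2ab hsum
  have hf2 := hforce W2 a' hW2c hW2p (fun x => by
    rw [abs_of_nonneg (hW2n x)]
    exact min_le_right _ _)
  have hfs := hforce s L hs hps hsL
  -- continuity of the forces
  obtain ⟨hGs, -, hGd⟩ := conv_green hG hc.mf.ss hps
  have hF1 : Continuous (conv (D1 (Gf K)) s) := by
    have : conv (D1 (Gf K)) s = D1 (conv (Gf K) s) := funext fun x => ((hGd x).2.2.1).symm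
    rw [this]
    exact BW_contD1 hGs
  have hF2 : Continuous (conv (D2 (Gf K)) s) := by
    have : conv (D2 (Gf K)) s = D2 (conv (Gf K) s) := funext fun x => ((hGd x).2.2.2.1).symm
    rw [this]
    exact BW_contD2 hGs
  -- the ring
  have hring := BW_ring hmu nn hF1 hF2 (B := Cf * L) (by positivity) (fun x => (hfs x).1)
    (fun x => (hfs x).2) hr3 (by linarith)
  have hring2 : 2 * (Cf * L) * ∫ x in Disc (2 * r3) \ Disc r3, mu x ≤ 2 * (Cf * L) * (C1 * kap) :=
    mul_le_mul_of_nonneg_left hc.ring (by positivity)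
  -- the disc
  have hdisc := BW_disc hmu nn hF1 hF2 (r := r3) (by linarith) (a1 := a1) (a2 := a2) (T := TI W1)
    (b1 := b1) (b2 := b2) (c3 := Ck * A) (c1 := 2 * (Cf * a')) (by
      intro x hx
      have h1 := hexp x (by linarith)
      have h2 := hcv1 x
      have h3 := hcv2 x
      obtain ⟨h4, h5⟩ := hf2 x
      have h6 := BW_fst x
      have h7 := BW_snd x
      have h8 : |x.1 * conv (D1 (Gf K)) W2 x + x.2 * conv (D2 (Gf K)) W2 x| ≤
          2 * (Cf * a') * nrm x := by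
        refine (abs_add_le _ _).trans ?_
        rw [abs_mul, abs_mul]
        have h9 : |x.1| * |conv (D1 (Gf K)) W2 x| ≤ nrm x * (Cf * a') :=
          mul_le_mul h6 h4 (abs_nonneg _) (BW_nrm_nn x)
        have h10 : |x.2| * |conv (D2 (Gf K)) W2 x| ≤ nrm x * (Cf * a') :=
          mul_le_mul h7 h5 (abs_nonneg _) (BW_nrm_nn x)
        linarith
      have h11 : -(x.1 * conv (D1 (Gf K)) s x + x.2 * conv (D2 (Gf K)) s x) -
          (a1 * x.1 + a2 * x.2) -
          (TI W1 / 2 * nsq x + b1 * (x.1 ^ 2 - x.2 ^ 2) + b2 * (2 * x.1 * x.2)) =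
          (x.1 * conv (D1 (Gf K)) W1 x + x.2 * conv (D2 (Gf K)) W1 x - (a1 * x.1 + a2 * x.2) -
            (TI W1 / 2 * nsq x + b1 * (x.1 ^ 2 - x.2 ^ 2) + b2 * (2 * x.1 * x.2))) +
          (x.1 * conv (D1 (Gf K)) W2 x + x.2 * conv (D2 (Gf K)) W2 x) := by
        linear_combination (-x.1) * h2 + (-x.2) * h3
      rw [h11]
      refine (abs_add_le _ _).trans ?_
      linarith)
  -- masses
  have hTW : TI W1 + TI W2 = L - 4 * π := by
    have h1 : TI W1 + TI W2 = ∫ x in Q, (W1 x + W2 x) :=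
      (integral_add (BW_intQ hW1c) (BW_intQ hW2c)).symm
    rw [h1]
    simp only [hsum]
    rw [integral_sub (BW_intQ continuous_const) (BW_intQ hs)]
    have h2 : ∫ _ in Q, L = L := BW_TIconst L
    have h3 : ∫ x in Q, s x = 4 * π := hc.mf.Ts
    rw [h2, h3]
  have hTW2 : TI W2 ≤ a' := by
    have h1 : TI W2 ≤ TI (fun _ => a') :=
      integral_mono (BW_intQ hW2c) (BW_intQ continuous_const) (fun x => min_le_right _ _)
    rwa [BW_TIconst] at h1
  have hTW20 : 0 ≤ TI W2 := integral_nonneg hW2n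
  set I1 := ∫ x in Disc r3, x.1 * mu x with hI1d
  set I2 := ∫ x in Disc r3, x.2 * mu x with hI2d
  set Iq := ∫ x in Disc r3, nsq x * mu x with hIqd
  set Ia := ∫ x in Disc r3, (x.1 ^ 2 - x.2 ^ 2) * mu x with hIad
  set Ib := ∫ x in Disc r3, 2 * x.1 * x.2 * mu x with hIbd
  set I3 := ∫ x in Disc r3, nrm x ^ 3 * mu x with hI3d
  set In := ∫ x in Disc r3, nrm x * mu x with hInd
  have hIq0 : 0 ≤ Iq := integral_nonneg fun x => mul_nonneg (BW_nsq_nn x) (nn x)
  have hIqn : Iq ≤ In := by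
    refine setIntegral_mono_on (BW_intD (BW_nsq_cont.mul hmu) (by linarith))
      (BW_intD (BW_nrm_cont.mul hmu) (by linarith)) (BW_disc_meas r3) ?_
    intro x hx
    apply mul_le_mul_of_nonneg_right _ (nn x)
    have h1 : nrm x < r3 := hx
    have h2 := BW_nrm_nn x
    rw [← BW_nrm_sq]
    nlinarith
  have hIn : In ≤ C1 * S := hc.m1
  have hI3 : I3 ≤ C1 * kap := hc.m3
  obtain ⟨hza, hzb⟩ := hz3 N z k kap mu s hN hc hk0 hk1
  -- end
  apply BW_num (L := L) (A := A) (a' := a') hC1 hCf hCk hCz hN1 (by linarith) hL13 hA0 hAN hS0 hS1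
    hS2 hnu0 hnu1 ha'
  set T0 := TI (fun x => mu x * (Xr r3 (fun x => x.1) x * conv (D1 (Gf K)) s x +
          Xr r3 (fun x => x.2) x * conv (D2 (Gf K)) s x)) with hT0
  set Ih := ∫ x in Disc r3, mu x * (x.1 * conv (D1 (Gf K)) s x + x.2 * conv (D2 (Gf K)) s x)
    with hIh
  have e1 : -T0 - (L - 4 * π) / 2 * Iq = -(T0 - Ih) +
      (-Ih - (a1 * I1 + a2 * I2) - (TI W1 / 2 * Iq + b1 * Ia + b2 * Ib)) +
      (a1 * I1 + a2 * I2) + (-(TI W2 / 2 * Iq)) + (b1 * Ia + b2 * Ib) := by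
    linear_combination (Iq / 2) * hTW
  rw [e1]
  have u1 : |-(T0 - Ih)| ≤ 2 * (Cf * L) * (C1 * kap) := by
    rw [abs_neg]
    exact hring.trans hring2
  have u2 : |-Ih - (a1 * I1 + a2 * I2) - (TI W1 / 2 * Iq + b1 * Ia + b2 * Ib)| ≤
      Ck * A * (C1 * kap) + 2 * (Cf * a') * (C1 * S) := by
    refine hdisc.trans (add_le_add ?_ ?_)
    · exact mul_le_mul_of_nonneg_left hI3 (by positivity)
    · exact mul_le_mul_of_nonneg_left hIn (by positivity)
  have u3 : |a1 * I1 + a2 * I2| ≤ Ck * L * (C1 * kap) + Ck * L * (C1 * kap) := by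
    refine (abs_add_le _ _).trans (add_le_add ?_ ?_)
    · rw [abs_mul]
      exact mul_le_mul ha1 hc.c1 (abs_nonneg _) (by positivity)
    · rw [abs_mul]
      exact mul_le_mul ha2 hc.c2 (abs_nonneg _) (by positivity)
  have u4 : |-(TI W2 / 2 * Iq)| ≤ a' / 2 * (C1 * S) := by
    rw [abs_neg, abs_of_nonneg (by positivity)]
    exact mul_le_mul (by linarith) (hIqn.trans hIn) hIq0 (by positivity)
  have u5 : |b1 * Ia + b2 * Ib| ≤ Ck * A * (Cz * N * kap) + Ck * A * (Cz * N * kap) := by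
    refine (abs_add_le _ _).trans (add_le_add ?_ ?_)
    · rw [abs_mul]
      exact mul_le_mul hb1 hza (abs_nonneg _) (by positivity)
    · rw [abs_mul]
      exact mul_le_mul hb2 hzb (abs_nonneg _) (by positivity)
  refine (abs_add_le _ _).trans (add_le_add ?_ u5)
  refine (abs_add_le _ _).trans (add_le_add ?_ u4)
  refine (abs_add_le _ _).trans (add_le_add ?_ u3)
  exact (abs_add_le _ _).trans (add_le_add u1 u2)

end Pool.Agent.AO
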