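import Pool.Agent.Lib.MP_10e52e_an.Defs4
import Pool.Agent.Lib.MP_10e52e_an.Tools

/-! MP_10e52e_an row Bbm: ball masses -/

namespace Pool.Agent.AO

open MeasureTheory Set Real
open scoped ContDiff

private theorem Bbm_nrm (x : ℝ × ℝ) : nrm x = ‖(x.1 : ℂ) + x.2 * Complex.I‖ := by
  rw [Complex.norm_add_mul_I]
  rfl

private theorem Bbm_tri (x y : ℝ × ℝ) : nrm (x + y) ≤ nrm x + nrm y := by
  rw [Bbm_nrm, Bbm_nrm, Bbm_nrm]
  refine le_trans (le_of_eq ?_) (norm_add_le _ _)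
  congr 1
  simp only [Prod.fst_add, Prod.snd_add]
  push_cast
  ring

private theorem Bbm_neg (x : ℝ × ℝ) : nrm (-x) = nrm x := by
  simp [nrm, nsq]

private theorem Bbm_per {mu : ℝ × ℝ → ℝ} (hp : Per mu) (x : ℝ × ℝ) (m n : ℤ) :
    mu (x.1 + m, x.2 + n) = mu x := by
  have h1 : ∀ b, Function.Periodic (fun s => mu (s, b)) 1 := fun b s => (hp (s, b)).1
  have h2 : ∀ a, Function.Periodic (fun s => mu (a, s)) 1 := fun a s => (hp (a, s)).2
  have h3 := (h1 (x.2 + n)).int_mul m x.1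
  have h4 := (h2 x.1).int_mul n x.2
  simp only [mul_one] at h3 h4
  rw [h3, h4]

/-- ball masses: symmetric form, monotonicity, inclusion -/
theorem bm_eq {mu : ℝ × ℝ → ℝ} (hmu : Continuous mu) (x : ℝ × ℝ) (r : ℝ) :
    bm mu x r = ∫ y in Disc r, mu (y + x) := by
  have _ := hmu
  have h1 := (Measure.measurePreserving_neg (volume : Measure (ℝ × ℝ))).setIntegral_preimage_emb
    (MeasurableEquiv.neg (ℝ × ℝ)).measurableEmbedding (fun y => mu (y + x)) (Disc r)
  rw [← h1]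
  have h2 : (fun y : ℝ × ℝ => -y) ⁻¹' Disc r = Disc r := by
    ext y
    change nrm (-y) < r ↔ nrm y < r
    rw [Bbm_neg]
  have h3 : (Neg.neg : ℝ × ℝ → ℝ × ℝ) ⁻¹' Disc r = Disc r := h2
  rw [bm, h3]
  refine integral_congr_ae (Filter.Eventually.of_forall fun y => ?_)
  change mu (x - y) = mu (-y + x)
  rw [sub_eq_neg_add]

theorem bm_incl {mu : ℝ × ℝ → ℝ} (hmu : Continuous mu) (hp : Per mu) (nn : ∀ x, 0 ≤ mu x)
    {x z : ℝ × ℝ} {r t : ℝ} (hr : 0 < r) (ht : t ≤ 1 / 2) (h : tn (x - z) + r ≤ t) :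
    bm mu x r ≤ bm mu z t := by
  have _ := hr
  have _ := ht
  rw [bm_eq hmu, bm_eq hmu]
  set m : ℤ := round (x - z).1
  set n : ℤ := round (x - z).2
  set w : ℝ × ℝ := ((x - z).1 - m, (x - z).2 - n) with hw
  have hwn : nrm w = tn (x - z) := rfl
  have h1 : ∀ y : ℝ × ℝ, mu (y + x) = mu ((y + w) + z) := by
    intro y
    rw [← Bbm_per hp ((y + w) + z) m n]
    congr 1
    ext
    · simp only [hw, Prod.fst_add, Prod.fst_sub]
      ring
    · simp only [hw, Prod.snd_add, Prod.snd_sub]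
      ring
  simp only [h1]
  have h2 := (measurePreserving_add_right (volume : Measure (ℝ × ℝ)) w).setIntegral_preimage_emb
    (MeasurableEquiv.addRight w).measurableEmbedding (fun y => mu (y + z)) {y | y - w ∈ Disc r}
  have h3 : (fun y : ℝ × ℝ => y + w) ⁻¹' {y | y - w ∈ Disc r} = Disc r := by
    ext y
    simp
  rw [h3] at h2
  rw [h2]
  refine setIntegral_mono_set ?_ (Filter.Eventually.of_forall fun y => nn _)
    (LE.le.eventuallyLE ?_)
  · have hc : Continuous fun y : ℝ × ℝ => mu (y + z) := hmu.comp (continuous_id.add continuous_const)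
    refine (hc.continuousOn.integrableOn_compact (isCompact_closedBall (0 : ℝ × ℝ) t)).mono_set ?_
    intro y hy
    have hy' : Real.sqrt (y.1 ^ 2 + y.2 ^ 2) < t := hy
    have h4 : |y.1| ≤ Real.sqrt (y.1 ^ 2 + y.2 ^ 2) := by
      rw [← Real.sqrt_sq_eq_abs]
      exact Real.sqrt_le_sqrt (by linarith [sq_nonneg y.2])
    have h5 : |y.2| ≤ Real.sqrt (y.1 ^ 2 + y.2 ^ 2) := by
      rw [← Real.sqrt_sq_eq_abs]
      exact Real.sqrt_le_sqrt (by linarith [sq_nonneg y.1])
    rw [mem_closedBall_zero_iff, Prod.norm_def, Real.norm_eq_abs, Real.norm_eq_abs]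
    exact max_le (h4.trans hy'.le) (h5.trans hy'.le)
  · intro y hy
    have h4 : nrm (y - w) < r := hy
    change nrm y < t
    have h5 : nrm y ≤ nrm (y - w) + nrm w := by
      have := Bbm_tri (y - w) w
      rwa [sub_add_cancel] at this
    rw [hwn] at h5
    linarith

end Pool.Agent.AO
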