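import Pool.Agent.Lib.MP_10e52e_an.Defs4
import Pool.Agent.Lib.MP_10e52e_an.Tools
import Pool.Agent.Lib.MP_10e52e_an.Calc

/-! MP_10e52e_an row Bchl: log cut-off field (L9.3) -/

namespace Pool.Agent.AO

open MeasureTheory Set Real
open scoped ContDiff

private theorem Bchl_nsq_nonneg (x : ℝ × ℝ) : 0 ≤ nsq x := by unfold nsq; positivity

private theorem Bchl_nrm_nonneg (x : ℝ × ℝ) : 0 ≤ nrm x := Real.sqrt_nonneg _

private theorem Bchl_nrm_sq (x : ℝ × ℝ) : nrm x ^ 2 = nsq x := Real.sq_sqrt (Bchl_nsq_nonneg x)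

private theorem Bchl_nsq_pos {x : ℝ × ℝ} (hx : x ≠ 0) : 0 < nsq x := by
  rcases lt_or_eq_of_le (Bchl_nsq_nonneg x) with h | h
  · exact h
  · exfalso
    apply hx
    unfold nsq at h
    have h1 : x.1 ^ 2 = 0 := by nlinarith [sq_nonneg x.1, sq_nonneg x.2]
    have h2 : x.2 ^ 2 = 0 := by nlinarith [sq_nonneg x.1, sq_nonneg x.2]
    exact Prod.ext (pow_eq_zero_iff (two_ne_zero) |>.1 h1) (pow_eq_zero_iff (two_ne_zero) |>.1 h2)

private theorem Bchl_nrm_pos {x : ℝ × ℝ} (hx : x ≠ 0) : 0 < nrm x :=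
  Real.sqrt_pos.2 (Bchl_nsq_pos hx)

private theorem Bchl_fst_le (x : ℝ × ℝ) : |x.1| ≤ nrm x := by
  apply Real.abs_le_sqrt; unfold nsq; nlinarith [sq_nonneg x.2]

private theorem Bchl_snd_le (x : ℝ × ℝ) : |x.2| ≤ nrm x := by
  apply Real.abs_le_sqrt; unfold nsq; nlinarith [sq_nonneg x.1]

private theorem Bchl_cs (x y : ℝ × ℝ) : |x.1 * y.1 + x.2 * y.2| ≤ nrm x * nrm y := by
  unfold nrm
  rw [← Real.sqrt_mul (Bchl_nsq_nonneg x)]
  apply Real.abs_le_sqrt
  unfold nsq
  nlinarith [sq_nonneg (x.1 * y.2 - x.2 * y.1)]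

private theorem Bchl_tri (x y : ℝ × ℝ) : nrm y ≤ nrm x + nrm (x - y) := by
  have h := Bchl_cs x (x - y)
  have h1 := Bchl_nrm_sq x
  have h2 := Bchl_nrm_sq y
  have h3 := Bchl_nrm_sq (x - y)
  have n1 := Bchl_nrm_nonneg x
  have n2 := Bchl_nrm_nonneg y
  have n3 := Bchl_nrm_nonneg (x - y)
  have key : nsq y = nsq x + nsq (x - y) - 2 * (x.1 * (x - y).1 + x.2 * (x - y).2) := by
    unfold nsq; simp only [Prod.fst_sub, Prod.snd_sub]; ring
  have hle := (abs_le.1 h).1
  have : nrm y ^ 2 ≤ (nrm x + nrm (x - y)) ^ 2 := by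
    rw [h2, key]; nlinarith
  exact abs_le_of_sq_le_sq' this (by positivity) |>.2

private theorem Bchl_st : ∃ C : ℝ, 0 < C ∧ (∀ t, |deriv Real.smoothTransition t| ≤ C) ∧
    ∀ s t, |Real.smoothTransition s - Real.smoothTransition t| ≤ C * |s - t| := by
  have hc : Continuous (deriv Real.smoothTransition) :=
    (Real.smoothTransition.contDiff (n := 1)).continuous_deriv le_rfl
  obtain ⟨C, hC⟩ := isCompact_Icc.exists_bound_of_continuousOn (s := Icc (0 : ℝ) 1) hc.continuousOn
  have hb : ∀ t, |deriv Real.smoothTransition t| ≤ max C 1 := by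
    intro t
    by_cases h : t ∈ Icc (0 : ℝ) 1
    · exact (hC t h).trans (le_max_left _ _)
    · have h0 : deriv Real.smoothTransition t = 0 := by
        rcases lt_or_ge t 0 with h1 | h1
        · have : Real.smoothTransition =ᶠ[nhds t] fun _ => (0 : ℝ) := by
            filter_upwards [Iio_mem_nhds h1] with y hy
            exact Real.smoothTransition.zero_of_nonpos (le_of_lt hy)
          rw [this.deriv_eq]; simp
        · have h2 : 1 < t := by
            by_contra h2
            exact h ⟨h1, not_lt.1 h2⟩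
          have : Real.smoothTransition =ᶠ[nhds t] fun _ => (1 : ℝ) := by
            filter_upwards [Ioi_mem_nhds h2] with y hy
            exact Real.smoothTransition.one_of_one_le (le_of_lt hy)
          rw [this.deriv_eq]; simp
      rw [h0, abs_zero]
      exact le_trans zero_le_one (le_max_right _ _)
  refine ⟨max C 1, lt_of_lt_of_le one_pos (le_max_right _ _), hb, ?_⟩
  intro s t
  have hd : ∀ x ∈ (univ : Set ℝ), DifferentiableAt ℝ Real.smoothTransition x := fun x _ =>
    (Real.smoothTransition.contDiffAt (n := 1)).differentiableAt (by norm_num)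
  have := convex_univ.norm_image_sub_le_of_norm_deriv_le (𝕜 := ℝ) hd (fun x _ => hb x)
    (mem_univ t) (mem_univ s)
  simpa [Real.norm_eq_abs] using this

private theorem Bchl_one {L q : ℝ} (hL : 1 ≤ L) (hq : 0 < q) {x : ℝ × ℝ} (h : nrm x ≤ q) :
    chl L q x = 1 := by
  unfold chl
  apply Real.smoothTransition.one_of_one_le
  have h1 : Real.log (nrm x / q) ≤ 0 :=
    Real.log_nonpos (div_nonneg (Bchl_nrm_nonneg x) hq.le) ((div_le_one hq).2 h)
  have : Real.log (nrm x / q) / L ≤ 0 := div_nonpos_of_nonpos_of_nonneg h1 (by linarith)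
  linarith

private theorem Bchl_zero {L q : ℝ} (hL : 1 ≤ L) (hq : 0 < q) {x : ℝ × ℝ}
    (h : Real.exp L * q ≤ nrm x) : chl L q x = 0 := by
  unfold chl
  apply Real.smoothTransition.zero_of_nonpos
  have h1 : Real.exp L ≤ nrm x / q := by rwa [le_div_iff₀ hq]
  have h2 : L ≤ Real.log (nrm x / q) := by
    rw [← Real.log_exp L]; exact Real.log_le_log (Real.exp_pos _) h1
  have h3 : 1 ≤ Real.log (nrm x / q) / L := by rw [le_div_iff₀ (by linarith)]; linarith
  linarith

private theorem Bchl_ev {L q : ℝ} (hq : 0 < q) {x : ℝ × ℝ} (hx : x ≠ 0) :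
    chl L q =ᶠ[nhds x] fun y => (fun t => Real.smoothTransition
      (1 - (Real.log t / 2 - Real.log q) / L)) (nsq y) := by
  filter_upwards [isOpen_ne.mem_nhds hx] with y hy
  unfold chl
  have h1 : Real.log (nrm y / q) = Real.log (nsq y) / 2 - Real.log q := by
    rw [Real.log_div (Bchl_nrm_pos hy).ne' hq.ne']
    unfold nrm
    rw [Real.log_sqrt (Bchl_nsq_nonneg y)]
  rw [h1]

private theorem Bchl_cdnsq {n : ℕ∞} : ContDiff ℝ n nsq := by
  unfold nsq
  exact (contDiff_fst.pow 2).add (contDiff_snd.pow 2)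

private theorem Bchl_cd {L q : ℝ} (hL : 1 ≤ L) (hq : 0 < q) : ContDiff ℝ 1 (chl L q) := by
  rw [contDiff_iff_contDiffAt]
  intro x
  rcases lt_or_ge (nrm x) q with h | h
  · have hopen : IsOpen {y : ℝ × ℝ | nrm y < q} := by
      apply isOpen_lt _ continuous_const
      unfold nrm
      exact Real.continuous_sqrt.comp (Bchl_cdnsq (n := 0)).continuous
    have : chl L q =ᶠ[nhds x] fun _ => (1 : ℝ) := by
      filter_upwards [hopen.mem_nhds h] with y hy
      exact Bchl_one hL hq (le_of_lt hy)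
    exact contDiffAt_const.congr_of_eventuallyEq this
  · have hx : x ≠ 0 := by
      rintro rfl
      have : nrm (0 : ℝ × ℝ) = 0 := by simp [nrm, nsq]
      linarith
    refine ContDiffAt.congr_of_eventuallyEq ?_ (Bchl_ev hq hx)
    have h1 : ContDiffAt ℝ 1 (fun y : ℝ × ℝ => Real.log (nsq y)) x :=
      (Bchl_cdnsq (n := 1)).contDiffAt.log (Bchl_nsq_pos hx).ne'
    have h2 : ContDiffAt ℝ 1 (fun y : ℝ × ℝ => 1 - (Real.log (nsq y) / 2 - Real.log q) / L) x :=
      contDiffAt_const.sub (((h1.div_const 2).sub contDiffAt_const).div_const L)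
    exact (Real.smoothTransition.contDiffAt (n := 1)).comp x h2

private theorem Bchl_D {C : ℝ} (hC : ∀ t, |deriv Real.smoothTransition t| ≤ C)
    {L q : ℝ} (hL : 1 ≤ L) (hq : 0 < q) {x : ℝ × ℝ} (hx : x ≠ 0) :
    ∃ d : ℝ, |d| ≤ C / L ∧ D1 (chl L q) x = d * (x.1 / nsq x) ∧
      D2 (chl L q) x = d * (x.2 / nsq x) := by
  have hn := Bchl_nsq_pos hx
  have hL0 : (0 : ℝ) < L := by linarith
  set T : ℝ := 1 - (Real.log (nsq x) / 2 - Real.log q) / L with hT
  have hphi : HasDerivAt (fun t => Real.smoothTransition (1 - (Real.log t / 2 - Real.log q) / L))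
      (deriv Real.smoothTransition T * (-((nsq x)⁻¹ / 2 / L))) (nsq x) := by
    have h1 : HasDerivAt (fun t => 1 - (Real.log t / 2 - Real.log q) / L)
        (-((nsq x)⁻¹ / 2 / L)) (nsq x) := by
      have := ((((Real.hasDerivAt_log hn.ne').div_const 2).sub_const (Real.log q)).div_const L).const_sub 1
      simpa using this
    have h2 : HasDerivAt Real.smoothTransition (deriv Real.smoothTransition T) T :=
      ((Real.smoothTransition.contDiffAt (n := 1)).differentiableAt (by norm_num)).hasDerivAt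
    exact h2.comp (nsq x) h1
  have hdn : DifferentiableAt ℝ nsq x := (Bchl_cdnsq (n := 1)).differentiable (by norm_num) x
  have hD1n : D1 nsq x = 2 * x.1 := by
    have e : nsq = fun y : ℝ × ℝ => y.1 ^ 2 + y.2 ^ 2 := rfl
    rw [e, D1_add (by fun_prop) (by fun_prop),
      D1_comp_fst (φ := fun t => t ^ 2) (φ' := 2 * x.1) (by simpa using hasDerivAt_pow 2 x.1),
      D1_comp_snd (φ := fun t => t ^ 2) (φ' := 2 * x.2) (by simpa using hasDerivAt_pow 2 x.2),
      add_zero]
  have hD2n : D2 nsq x = 2 * x.2 := by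
    have e : nsq = fun y : ℝ × ℝ => y.1 ^ 2 + y.2 ^ 2 := rfl
    rw [e, D2_add (by fun_prop) (by fun_prop),
      D2_comp_fst (φ := fun t => t ^ 2) (φ' := 2 * x.1) (by simpa using hasDerivAt_pow 2 x.1),
      D2_comp_snd (φ := fun t => t ^ 2) (φ' := 2 * x.2) (by simpa using hasDerivAt_pow 2 x.2),
      zero_add]
  refine ⟨-(deriv Real.smoothTransition T / L), ?_, ?_, ?_⟩
  · rw [abs_neg, abs_div, abs_of_pos hL0]
    exact div_le_div_of_nonneg_right (hC T) hL0.le
  · rw [D1_congr (Bchl_ev hq hx), D1_comp hdn hphi, hD1n]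
    field_simp
  · rw [D2_congr (Bchl_ev hq hx), D2_comp hdn hphi, hD2n]
    field_simp

private theorem Bchl_lip {C : ℝ} (hC0 : 0 < C)
    (hC : ∀ s t, |Real.smoothTransition s - Real.smoothTransition t| ≤ C * |s - t|)
    {L q : ℝ} (hL : 1 ≤ L) (hq : 0 < q) {x y : ℝ × ℝ} (h : nrm x ≤ nrm y) :
    |chl L q x - chl L q y| * nrm x ≤ C / L * nrm (x - y) := by
  have hL0 : (0 : ℝ) < L := by linarith
  have hxy := Bchl_nrm_nonneg (x - y)
  by_cases hx : x = 0
  · subst hx
    have : nrm (0 : ℝ × ℝ) = 0 := by simp [nrm, nsq]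
    rw [this, mul_zero]; positivity
  have hx0 := Bchl_nrm_pos hx
  have hy0 : 0 < nrm y := lt_of_lt_of_le hx0 h
  have h1 : |chl L q x - chl L q y| ≤ C * (Real.log (nrm y / nrm x) / L) := by
    unfold chl
    refine (hC _ _).trans (le_of_eq ?_)
    congr 1
    rw [Real.log_div hx0.ne' hq.ne', Real.log_div hy0.ne' hq.ne', Real.log_div hy0.ne' hx0.ne']
    have h2 : 0 ≤ Real.log (nrm y) - Real.log (nrm x) := by
      have := Real.log_le_log hx0 h
      linarith
    have e : 1 - (Real.log (nrm x) - Real.log q) / L - (1 - (Real.log (nrm y) - Real.log q) / L)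
        = (Real.log (nrm y) - Real.log (nrm x)) / L := by
      field_simp
      ring
    rw [e, abs_of_nonneg (div_nonneg h2 hL0.le)]
  have h3 : Real.log (nrm y / nrm x) ≤ nrm (x - y) / nrm x := by
    have h4 := Real.log_le_sub_one_of_pos (div_pos hy0 hx0)
    have h5 := Bchl_tri x y
    refine h4.trans ?_
    rw [le_div_iff₀ hx0]
    have : (nrm y / nrm x - 1) * nrm x = nrm y - nrm x := by field_simp
    rw [this]; linarith
  calc |chl L q x - chl L q y| * nrm x ≤ C * (nrm (x - y) / nrm x / L) * nrm x := by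
        apply mul_le_mul_of_nonneg_right _ hx0.le
        refine h1.trans ?_
        apply mul_le_mul_of_nonneg_left _ hC0.le
        exact div_le_div_of_nonneg_right h3 hL0.le
    _ = C / L * nrm (x - y) := by field_simp

private theorem Bchl_pair {C : ℝ} (hC0 : 0 < C)
    (hC : ∀ s t, |Real.smoothTransition s - Real.smoothTransition t| ≤ C * |s - t|)
    {L q : ℝ} (hL : 1 ≤ L) (hq : 0 < q) {x y : ℝ × ℝ} (hne : x ≠ y) (h : nrm x ≤ nrm y) :
    |((chl L q x * x.1 - chl L q y * y.1) * (x.1 - y.1) +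
        (chl L q x * x.2 - chl L q y * y.2) * (x.2 - y.2)) / nsq (x - y)
        - min (chl L q x) (chl L q y)| ≤ C / L := by
  have hL0 : (0 : ℝ) < L := by linarith
  have hsub : x - y ≠ 0 := sub_ne_zero.2 hne
  have hn := Bchl_nsq_pos hsub
  have hn' := Bchl_nrm_pos hsub
  have hmono : chl L q y ≤ chl L q x := by
    by_cases hx : x = 0
    · have h0 : nrm x ≤ q := by
        subst hx
        have : nrm (0 : ℝ × ℝ) = 0 := by simp [nrm, nsq]
        rw [this]; exact hq.le
      rw [Bchl_one hL hq h0]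
      exact Real.smoothTransition.le_one _
    · unfold chl
      apply Real.smoothTransition.monotone
      have hx0 := Bchl_nrm_pos hx
      have h1 : Real.log (nrm x / q) ≤ Real.log (nrm y / q) :=
        Real.log_le_log (by positivity) (div_le_div_of_nonneg_right h hq.le)
      have h2 := div_le_div_of_nonneg_right h1 hL0.le
      linarith
  rw [min_eq_right hmono]
  have e : ((chl L q x * x.1 - chl L q y * y.1) * (x.1 - y.1) +
        (chl L q x * x.2 - chl L q y * y.2) * (x.2 - y.2)) / nsq (x - y) - chl L q y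
      = (chl L q x - chl L q y) * (x.1 * (x - y).1 + x.2 * (x - y).2) / nsq (x - y) := by
    rw [div_sub' hn.ne']
    congr 1
    simp only [nsq, Prod.fst_sub, Prod.snd_sub]
    ring
  rw [e, abs_div, abs_mul, abs_of_pos hn, div_le_iff₀ hn]
  have h1 := Bchl_lip hC0 hC hL hq h
  have h2 := Bchl_cs x (x - y)
  calc |chl L q x - chl L q y| * |x.1 * (x - y).1 + x.2 * (x - y).2|
      ≤ |chl L q x - chl L q y| * (nrm x * nrm (x - y)) :=
        mul_le_mul_of_nonneg_left h2 (abs_nonneg _)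
    _ = (|chl L q x - chl L q y| * nrm x) * nrm (x - y) := by ring
    _ ≤ (C / L * nrm (x - y)) * nrm (x - y) := mul_le_mul_of_nonneg_right h1 hn'.le
    _ = C / L * nsq (x - y) := by rw [← Bchl_nrm_sq]; ring

private theorem Bchl_supp {L q : ℝ} (hL : 1 ≤ L) (hq : 0 < q) (hs : Real.exp L * q ≤ 1 / 100)
    {x : ℝ × ℝ} (h : chl L q x ≠ 0) : |x.1| ≤ 1 / 100 ∧ |x.2| ≤ 1 / 100 := by
  have h1 : nrm x ≤ 1 / 100 := by
    by_contra h2
    exact h (Bchl_zero hL hq (hs.trans (le_of_lt (not_le.1 h2))))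
  exact ⟨(Bchl_fst_le x).trans h1, (Bchl_snd_le x).trans h1⟩

/-- periodisation near points of the cell -/
private theorem Bchl_perz {f : ℝ × ℝ → ℝ}
    (hs : ∀ x : ℝ × ℝ, f x ≠ 0 → |x.1| ≤ 1 / 100 ∧ |x.2| ≤ 1 / 100) {x : ℝ × ℝ} (hx : x ∈ Q) :
    perz f =ᶠ[nhds x] f := by
  have key : ∀ s t : ℝ, -1 / 2 < s → s ≤ 1 / 2 → |t - s| < 1 / 4 → round t ≠ 0 →
      1 / 100 < |t - round t| ∧ 1 / 100 < |t| := by
    intro s t h1 h2 h3 h4
    have h6 : ¬ t ∈ Ico (-(1 / 2) : ℝ) (1 / 2) := fun h => h4 (round_eq_zero_iff.2 h)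
    have h5 := abs_lt.1 h3
    rw [mem_Ico, not_and_or, not_le, not_lt] at h6
    constructor
    · rcases h6 with h6 | h6
      · have hr : round t ≤ -1 := by
          rw [round_eq]
          have : ⌊t + 1 / 2⌋ < 0 := by
            rw [Int.floor_lt]; push_cast; linarith
          omega
        have hr' : (round t : ℝ) ≤ -1 := by exact_mod_cast hr
        rw [lt_abs]; left; linarith
      · have hr : 1 ≤ round t := by
          rw [round_eq]
          rw [Int.le_floor]; push_cast; linarith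
        have hr' : (1 : ℝ) ≤ (round t : ℝ) := by exact_mod_cast hr
        rw [lt_abs]; right; linarith
    · rcases h6 with h6 | h6
      · rw [lt_abs]; right; linarith
      · rw [lt_abs]; left; linarith
  have hz : ∀ z : ℝ × ℝ, 1 / 100 < |z.1| ∨ 1 / 100 < |z.2| → f z = 0 := by
    intro z hz
    by_contra hne
    have := hs z hne
    rcases hz with h | h
    · exact absurd this.1 (not_le.2 h)
    · exact absurd this.2 (not_le.2 h)
  have hU : Metric.ball x (1 / 4) ∈ nhds x := Metric.ball_mem_nhds x (by norm_num)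
  filter_upwards [hU] with y hy
  rw [Metric.mem_ball, Prod.dist_eq, max_lt_iff, Real.dist_eq, Real.dist_eq] at hy
  have hx1 := hx.1
  have hx2 := hx.2
  rw [mem_Ioc] at hx1 hx2
  unfold perz
  by_cases e1 : round y.1 = 0
  · by_cases e2 : round y.2 = 0
    · rw [e1, e2]; simp
    · have := key x.2 y.2 hx2.1 hx2.2 hy.2 e2
      rw [hz _ (Or.inr this.1), hz _ (Or.inr this.2)]
  · have := key x.1 y.1 hx1.1 hx1.2 hy.1 e1
    rw [hz _ (Or.inl this.1), hz _ (Or.inl this.2)]

/-- logarithmic cut-off field -/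
theorem chl_field : ∃ C : ℝ, 0 < C ∧ ∀ L q : ℝ, 1 ≤ L → 0 < q → Real.exp L * q ≤ 1 / 100 →
    ContDiff ℝ 1 (perz (fun x => chl L q x * x.1)) ∧ ContDiff ℝ 1 (perz (fun x => chl L q x * x.2)) ∧
    (∀ x ∈ Q, |D1 (perz (fun x => chl L q x * x.1)) x + D2 (perz (fun x => chl L q x * x.2)) x
      - 2 * chl L q x| ≤ C / L) ∧
    (∀ x, 0 ≤ chl L q x ∧ chl L q x ≤ 1) ∧ (∀ x, nrm x ≤ q → chl L q x = 1) ∧
    (∀ x, Real.exp L * q ≤ nrm x → chl L q x = 0) ∧
    (∀ x y, x ≠ y → |((chl L q x * x.1 - chl L q y * y.1) * (x.1 - y.1) +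
        (chl L q x * x.2 - chl L q y * y.2) * (x.2 - y.2)) / nsq (x - y)
        - min (chl L q x) (chl L q y)| ≤ C / L) := by
  obtain ⟨C, hC0, hC1, hC2⟩ := Bchl_st
  refine ⟨C, hC0, ?_⟩
  intro L q hL hq hs
  have hL0 : (0 : ℝ) < L := by linarith
  have hcd := Bchl_cd hL hq
  have hcd1 : ContDiff ℝ 1 (fun x : ℝ × ℝ => chl L q x * x.1) := hcd.mul contDiff_fst
  have hcd2 : ContDiff ℝ 1 (fun x : ℝ × ℝ => chl L q x * x.2) := hcd.mul contDiff_snd
  have hs1 : ∀ x : ℝ × ℝ, chl L q x * x.1 ≠ 0 → |x.1| ≤ 1 / 100 ∧ |x.2| ≤ 1 / 100 :=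
    fun x hx => Bchl_supp hL hq hs (left_ne_zero_of_mul hx)
  have hs2 : ∀ x : ℝ × ℝ, chl L q x * x.2 ≠ 0 → |x.1| ≤ 1 / 100 ∧ |x.2| ≤ 1 / 100 :=
    fun x hx => Bchl_supp hL hq hs (left_ne_zero_of_mul hx)
  refine ⟨perz_smooth (a := 1 / 100) (n := 1) (by norm_num) hcd1 hs1,
    perz_smooth (a := 1 / 100) (n := 1) (by norm_num) hcd2 hs2, ?_, ?_, ?_, ?_, ?_⟩
  · intro x hx
    have hdc : DifferentiableAt ℝ (chl L q) x := hcd.differentiable (by norm_num) x
    rw [D1_congr (Bchl_perz hs1 hx), D2_congr (Bchl_perz hs2 hx),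
      D1_mul hdc differentiableAt_fst, D2_mul hdc differentiableAt_snd, D1_fst, D2_snd]
    by_cases hx0 : x = 0
    · subst hx0
      have : D1 (chl L q) 0 * (0 : ℝ × ℝ).1 + chl L q 0 * 1 +
          (D2 (chl L q) 0 * (0 : ℝ × ℝ).2 + chl L q 0 * 1) - 2 * chl L q 0 = 0 := by
        simp only [Prod.fst_zero, Prod.snd_zero]; ring
      rw [this, abs_zero]; positivity
    · obtain ⟨d, hd, e1, e2⟩ := Bchl_D hC1 hL hq hx0
      have hn := Bchl_nsq_pos hx0
      have : D1 (chl L q) x * x.1 + chl L q x * 1 +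
          (D2 (chl L q) x * x.2 + chl L q x * 1) - 2 * chl L q x = d := by
        rw [e1, e2]
        have h3 : d * (x.1 / nsq x) * x.1 + d * (x.2 / nsq x) * x.2
            = d * ((x.1 ^ 2 + x.2 ^ 2) / nsq x) := by ring
        have h4 : (x.1 ^ 2 + x.2 ^ 2) / nsq x = 1 := div_self hn.ne'
        rw [h4] at h3
        linarith
      rw [this]
      exact hd
  · intro x
    exact ⟨Real.smoothTransition.nonneg _, Real.smoothTransition.le_one _⟩
  · intro x hx
    exact Bchl_one hL hq hx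
  · intro x hx
    exact Bchl_zero hL hq hx
  · intro x y hne
    rcases le_total (nrm x) (nrm y) with h | h
    · exact Bchl_pair hC0 hC2 hL hq hne h
    · have := Bchl_pair hC0 hC2 hL hq hne.symm h
      rw [min_comm]
      have e : ((chl L q x * x.1 - chl L q y * y.1) * (x.1 - y.1) +
        (chl L q x * x.2 - chl L q y * y.2) * (x.2 - y.2)) / nsq (x - y)
          = ((chl L q y * y.1 - chl L q x * x.1) * (y.1 - x.1) +
        (chl L q y * y.2 - chl L q x * x.2) * (y.2 - x.2)) / nsq (y - x) := by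
        have e1 : nsq (x - y) = nsq (y - x) := by
          simp only [nsq, Prod.fst_sub, Prod.snd_sub]; ring
        rw [e1]
        congr 1
        ring
      rw [e]
      exact this

end Pool.Agent.AO
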