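import Pool.Agent.Lib.MP_10e52e_an.Dens
import Pool.Agent.Lib.MP_10e52e_an.Ident
import Pool.Agent.Lib.MP_10e52e_an.Bchl

/-! MP_10e52e_an row Blog: L9.3/L9.4 -/

namespace Pool.Agent.AO

open MeasureTheory Set Real
open scoped ContDiff

theorem blog_nsq_nonneg (x : ℝ × ℝ) : 0 ≤ nsq x := by unfold nsq; positivity

theorem blog_nrm_sq (x : ℝ × ℝ) : nrm x ^ 2 = nsq x := Real.sq_sqrt (blog_nsq_nonneg x)

theorem blog_nrm_nonneg (x : ℝ × ℝ) : 0 ≤ nrm x := Real.sqrt_nonneg _

theorem blog_dot (x y : ℝ × ℝ) : |x.1 * y.1 + x.2 * y.2| ≤ nrm x * nrm y := by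
  rw [← Real.sqrt_sq_eq_abs, nrm, nrm, ← Real.sqrt_mul (blog_nsq_nonneg x)]
  apply Real.sqrt_le_sqrt
  unfold nsq
  nlinarith [sq_nonneg (x.1 * y.2 - x.2 * y.1)]

theorem blog_tri (x y : ℝ × ℝ) : nrm (x - y) ≤ nrm x + nrm y := by
  have h1 := blog_nrm_nonneg x
  have h2 := blog_nrm_nonneg y
  refine Real.sqrt_le_iff.2 ⟨by linarith, ?_⟩
  have h3 := (abs_le.1 (blog_dot x y)).1
  have e1 := blog_nrm_sq x
  have e2 := blog_nrm_sq y
  unfold nsq at *
  simp only [Prod.fst_sub, Prod.snd_sub]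
  nlinarith

theorem blog_abs1 (x : ℝ × ℝ) : |x.1| ≤ nrm x := by
  rw [← Real.sqrt_sq_eq_abs]
  apply Real.sqrt_le_sqrt
  unfold nsq
  nlinarith [sq_nonneg x.2]

theorem blog_abs2 (x : ℝ × ℝ) : |x.2| ≤ nrm x := by
  rw [← Real.sqrt_sq_eq_abs]
  apply Real.sqrt_le_sqrt
  unfold nsq
  nlinarith [sq_nonneg x.1]

theorem blog_nrm_cont : Continuous nrm := by
  unfold nrm nsq
  fun_prop

theorem blog_measQ : MeasurableSet Q := measurableSet_Ioc.prod measurableSet_Ioc

theorem blog_measDisc (r : ℝ) : MeasurableSet (Disc r) :=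
  measurableSet_lt blog_nrm_cont.measurable measurable_const

theorem blog_Q_nrm {x : ℝ × ℝ} (hx : x ∈ Q) : nrm x ≤ 37 / 50 := by
  obtain ⟨h1, h2⟩ := hx
  simp only [mem_Ioc] at h1 h2
  refine Real.sqrt_le_iff.2 ⟨by norm_num, ?_⟩
  unfold nsq
  nlinarith

theorem blog_Disc_sub {r : ℝ} (hr : r ≤ 1 / 2) : Disc r ⊆ Q := by
  intro x hx
  have hx' : nrm x < r := hx
  have h1 := blog_abs1 x
  have h2 := blog_abs2 x
  have h3 := abs_lt.1 (lt_of_le_of_lt h1 (lt_of_lt_of_le hx' hr))
  have h4 := abs_lt.1 (lt_of_le_of_lt h2 (lt_of_lt_of_le hx' hr))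
  refine ⟨⟨by linarith [h3.1], by linarith [h3.2]⟩, ⟨by linarith [h4.1], by linarith [h4.2]⟩⟩

theorem blog_meas_D1 (f : ℝ × ℝ → ℝ) : Measurable (D1 f) :=
  measurable_fderiv_apply_const ℝ f (1, 0)

theorem blog_meas_D2 (f : ℝ × ℝ → ℝ) : Measurable (D2 f) :=
  measurable_fderiv_apply_const ℝ f (0, 1)

theorem blog_PX_meas {K X1 X2 : ℝ × ℝ → ℝ} (h1 : Measurable X1) (h2 : Measurable X2) :
    Measurable (fun p : (ℝ × ℝ) × (ℝ × ℝ) => PX K X1 X2 p.1 p.2) := by
  have hs : Measurable (fun p : (ℝ × ℝ) × (ℝ × ℝ) => p.1 - p.2) :=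
    measurable_fst.sub measurable_snd
  unfold PX
  exact (((h1.comp measurable_fst).sub (h1.comp measurable_snd)).mul
    ((blog_meas_D1 (Gf K)).comp hs)).add (((h2.comp measurable_fst).sub
      (h2.comp measurable_snd)).mul ((blog_meas_D2 (Gf K)).comp hs))

theorem blog_intQ {mu : ℝ × ℝ → ℝ} (hmu : Continuous mu) : IntegrableOn mu Q := by
  have hc : IsCompact (Icc (-1 / 2 : ℝ) (1 / 2) ×ˢ Icc (-1 / 2 : ℝ) (1 / 2)) :=
    isCompact_Icc.prod isCompact_Icc
  have h := hmu.continuousOn.integrableOn_compact (μ := volume) hc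
  exact h.mono_set (Set.prod_mono Ioc_subset_Icc_self Ioc_subset_Icc_self)

theorem blog_int {mu f : ℝ × ℝ → ℝ} (hmu : Continuous mu) (nn : ∀ x, 0 ≤ mu x)
    (hf : Measurable f) {B : ℝ} (hB : ∀ x ∈ Q, |f x| ≤ B) :
    IntegrableOn (fun x => mu x * f x) Q := by
  refine ((blog_intQ hmu).mul_const B).mono' ((hmu.measurable.mul hf).aestronglyMeasurable) ?_
  filter_upwards [ae_restrict_mem blog_measQ] with x hx
  rw [Real.norm_eq_abs, abs_mul, abs_of_nonneg (nn x)]
  exact mul_le_mul_of_nonneg_left (hB x hx) (nn x)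

/-- mean of a bounded function -/
theorem blog_mean {mu f : ℝ × ℝ → ℝ} (hmu : Continuous mu) (nn : ∀ x, 0 ≤ mu x)
    (one : TI mu = 1) {B : ℝ} (hB : ∀ᵐ x ∂(volume.restrict Q), |f x| ≤ B) :
    |TI (fun x => mu x * f x)| ≤ B := by
  have h := norm_integral_le_of_norm_le (μ := volume.restrict Q)
    (f := fun x => mu x * f x) (g := fun x => mu x * B) ((blog_intQ hmu).mul_const B) ?_
  · rw [integral_mul_const] at h
    have e : (∫ x in Q, mu x) = 1 := one
    rw [e, one_mul] at h
    exact h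
  · filter_upwards [hB] with x hx
    rw [Real.norm_eq_abs, abs_mul, abs_of_nonneg (nn x)]
    exact mul_le_mul_of_nonneg_left hx (nn x)

theorem blog_chl_meas (L q : ℝ) : Measurable (chl L q) := by
  unfold chl
  have h1 : Measurable (fun x : ℝ × ℝ => 1 - Real.log (nrm x / q) / L) :=
    measurable_const.sub ((Real.measurable_log.comp
      (blog_nrm_cont.measurable.div_const q)).div_const L)
  exact Real.smoothTransition.continuous.measurable.comp h1

/-- the pair function of the logarithmic cut-off field -/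
theorem blog_pair {K R : ℝ × ℝ → ℝ} (hG : IsGreen K R) {C4 : ℝ} (hC4 : 0 < C4)
    (hR : ∀ x, nrm x ≤ 3 / 4 → |D1 R x| ≤ C4 * nrm x ∧ |D2 R x| ≤ C4 * nrm x)
    {chi X1 X2 : ℝ × ℝ → ℝ} {E R' : ℝ} (hE : 0 ≤ E) (hR0 : 0 < R') (hR' : R' ≤ 1 / 100)
    (h01 : ∀ x, 0 ≤ chi x ∧ chi x ≤ 1) (hz : ∀ x, R' ≤ nrm x → chi x = 0)
    (hX : ∀ x ∈ Q, X1 x = chi x * x.1 ∧ X2 x = chi x * x.2)
    (hp : ∀ x y, x ≠ y → |((chi x * x.1 - chi y * y.1) * (x.1 - y.1) +
        (chi x * x.2 - chi y * y.2) * (x.2 - y.2)) / nsq (x - y) - min (chi x) (chi y)| ≤ E)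
    {x y : ℝ × ℝ} (hx : x ∈ Q) (hy : y ∈ Q) (hxy : x ≠ y) :
    |PX K X1 X2 x y + 1 / (2 * π) * min (chi x) (chi y)| ≤ E + 4 * C4 * R' := by
  have hpi := Real.pi_gt_three
  have hpos : 0 ≤ E + 4 * C4 * R' := by positivity
  by_cases hc : R' ≤ nrm x ∧ R' ≤ nrm y
  · have e1 := hz x hc.1
    have e2 := hz y hc.2
    unfold PX
    rw [(hX x hx).1, (hX x hx).2, (hX y hy).1, (hX y hy).2, e1, e2]
    simpa using hpos
  · have hn : nrm (x - y) ≤ 3 / 4 := by
      have h1 := blog_tri x y
      have h2 := blog_Q_nrm hx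
      have h3 := blog_Q_nrm hy
      rw [not_and_or, not_le, not_le] at hc
      rcases hc with hc | hc <;> linarith
    set w : ℝ × ℝ := x - y with hw
    have hw0 : w ≠ 0 := sub_ne_zero.2 hxy
    have hwB : w ∈ Box 1 := by
      have h1 := blog_abs1 w
      have h2 := blog_abs2 w
      exact ⟨by linarith, by linarith⟩
    obtain ⟨-, g1, g2⟩ := green_near hG w hwB hw0
    obtain ⟨r1, r2⟩ := hR w hn
    have b : ∀ u : ℝ × ℝ, |chi u * u.1| ≤ R' ∧ |chi u * u.2| ≤ R' := by
      intro u
      obtain ⟨c0, c1⟩ := h01 u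
      by_cases hu : R' ≤ nrm u
      · rw [hz u hu]; simp [hR0.le]
      · push Not at hu
        have h1 := blog_abs1 u
        have h2 := blog_abs2 u
        rw [abs_mul, abs_mul, abs_of_nonneg c0]
        constructor
        · calc chi u * |u.1| ≤ 1 * |u.1| := mul_le_mul_of_nonneg_right c1 (abs_nonneg _)
            _ ≤ R' := by linarith
        · calc chi u * |u.2| ≤ 1 * |u.2| := mul_le_mul_of_nonneg_right c1 (abs_nonneg _)
            _ ≤ R' := by linarith
    have d1 : |chi x * x.1 - chi y * y.1| ≤ 2 * R' := by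
      have := abs_sub (chi x * x.1) (chi y * y.1)
      linarith [(b x).1, (b y).1]
    have d2 : |chi x * x.2 - chi y * y.2| ≤ 2 * R' := by
      have := abs_sub (chi x * x.2) (chi y * y.2)
      linarith [(b x).2, (b y).2]
    have f1 : |(chi x * x.1 - chi y * y.1) * D1 R w| ≤ 2 * R' * C4 := by
      rw [abs_mul]
      apply mul_le_mul d1 _ (abs_nonneg _) (by positivity)
      calc |D1 R w| ≤ C4 * nrm w := r1
        _ ≤ C4 * 1 := mul_le_mul_of_nonneg_left (by linarith) hC4.le
        _ = C4 := mul_one _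
    have f2 : |(chi x * x.2 - chi y * y.2) * D2 R w| ≤ 2 * R' * C4 := by
      rw [abs_mul]
      apply mul_le_mul d2 _ (abs_nonneg _) (by positivity)
      calc |D2 R w| ≤ C4 * nrm w := r2
        _ ≤ C4 * 1 := mul_le_mul_of_nonneg_left (by linarith) hC4.le
        _ = C4 := mul_one _
    have hq := hp x y hxy
    rw [← hw] at hq
    set q : ℝ := ((chi x * x.1 - chi y * y.1) * (x.1 - y.1) +
        (chi x * x.2 - chi y * y.2) * (x.2 - y.2)) / nsq w with hqd
    have e : PX K X1 X2 x y + 1 / (2 * π) * min (chi x) (chi y) =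
        -(1 / (2 * π)) * (q - min (chi x) (chi y)) + (chi x * x.1 - chi y * y.1) * D1 R w +
          (chi x * x.2 - chi y * y.2) * D2 R w := by
      unfold PX
      rw [← hw, g1, g2, (hX x hx).1, (hX x hx).2, (hX y hy).1, (hX y hy).2, hqd]
      have : w.1 = x.1 - y.1 := rfl
      have : w.2 = x.2 - y.2 := rfl
      simp only [hw, Prod.fst_sub, Prod.snd_sub]
      ring
    rw [e]
    have g : |-(1 / (2 * π)) * (q - min (chi x) (chi y))| ≤ E := by
      rw [abs_mul, abs_neg, abs_of_pos (by positivity)]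
      have : 1 / (2 * π) ≤ 1 := by
        rw [div_le_one (by positivity)]; linarith
      calc 1 / (2 * π) * |q - min (chi x) (chi y)| ≤ 1 * |q - min (chi x) (chi y)| :=
            mul_le_mul_of_nonneg_right this (abs_nonneg _)
        _ ≤ E := by linarith
    have t1 := abs_add_le (-(1 / (2 * π)) * (q - min (chi x) (chi y)) +
      (chi x * x.1 - chi y * y.1) * D1 R w) ((chi x * x.2 - chi y * y.2) * D2 R w)
    have t2 := abs_add_le (-(1 / (2 * π)) * (q - min (chi x) (chi y)))
      ((chi x * x.1 - chi y * y.1) * D1 R w)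
    nlinarith

/-- the double integral of the pair function -/
theorem blog_double {mu chi : ℝ × ℝ → ℝ} (hmu : Continuous mu) (nn : ∀ x, 0 ≤ mu x)
    (one : TI mu = 1) (hchi : Measurable chi) (h01 : ∀ x, 0 ≤ chi x ∧ chi x ≤ 1)
    {P : ℝ × ℝ → ℝ × ℝ → ℝ}
    (hP : Measurable (fun p : (ℝ × ℝ) × (ℝ × ℝ) => P p.1 p.2)) {E : ℝ}
    (hE : ∀ x ∈ Q, ∀ y ∈ Q, x ≠ y → |P x y + 1 / (2 * π) * min (chi x) (chi y)| ≤ E) :
    |TI (fun x => TI (fun y => mu x * mu y * P x y)) +
      1 / (2 * π) * TI (fun x => mu x * TI (fun y => mu y * min (chi x) (chi y)))| ≤ E := by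
  have hpi := Real.pi_pos
  have hne : ∀ x : ℝ × ℝ, ∀ᵐ y ∂(volume.restrict Q), x ≠ y := by
    intro x
    have h1 : ∀ᵐ y ∂(volume : Measure (ℝ × ℝ)), x ≠ y := by
      have h2 : (volume : Measure (ℝ × ℝ)) {x} = 0 := measure_singleton x
      rw [ae_iff]
      convert h2 using 2
      ext y
      simp [eq_comm]
    exact ae_restrict_of_ae h1
  have hE0 : 0 ≤ E := by
    have h0 : (0 : ℝ × ℝ) ∈ Q := ⟨⟨by norm_num, by norm_num⟩, ⟨by norm_num, by norm_num⟩⟩
    have h1 : ((1 / 4, 0) : ℝ × ℝ) ∈ Q :=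
      ⟨⟨by norm_num, by norm_num⟩, ⟨by norm_num, by norm_num⟩⟩
    have h2 : (0 : ℝ × ℝ) ≠ (1 / 4, 0) := by
      intro h
      have := congrArg Prod.fst h
      norm_num at this
    exact le_trans (abs_nonneg _) (hE 0 h0 _ h1 h2)
  have hmin01 : ∀ x y, 0 ≤ min (chi x) (chi y) ∧ min (chi x) (chi y) ≤ 1 := fun x y =>
    ⟨le_min (h01 x).1 (h01 y).1, le_trans (min_le_left _ _) (h01 x).2⟩
  have hminm : Measurable (fun p : (ℝ × ℝ) × (ℝ × ℝ) => min (chi p.1) (chi p.2)) :=
    (hchi.comp measurable_fst).min (hchi.comp measurable_snd)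
  -- inner integrals
  have hin : ∀ x ∈ Q, |TI (fun y => mu y * P x y) +
      1 / (2 * π) * TI (fun y => mu y * min (chi x) (chi y))| ≤ E := by
    intro x hx
    have i1 : IntegrableOn (fun y => mu y * P x y) Q := by
      refine ((blog_intQ hmu).mul_const (E + 1 / (2 * π))).mono'
        ((hmu.measurable.mul (hP.comp (measurable_const.prodMk measurable_id))).aestronglyMeasurable)
        ?_
      filter_upwards [ae_restrict_mem blog_measQ, hne x] with y hy hxy
      rw [Real.norm_eq_abs, abs_mul, abs_of_nonneg (nn y)]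
      apply mul_le_mul_of_nonneg_left _ (nn y)
      have h1 := hE x hx y hy hxy
      have h2 := hmin01 x y
      have h3 : |1 / (2 * π) * min (chi x) (chi y)| ≤ 1 / (2 * π) := by
        rw [abs_mul, abs_of_pos (by positivity), abs_of_nonneg h2.1]
        calc 1 / (2 * π) * min (chi x) (chi y) ≤ 1 / (2 * π) * 1 :=
              mul_le_mul_of_nonneg_left h2.2 (by positivity)
          _ = 1 / (2 * π) := mul_one _
      have h4 := abs_sub (P x y + 1 / (2 * π) * min (chi x) (chi y))
        (1 / (2 * π) * min (chi x) (chi y))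
      rw [add_sub_cancel_right] at h4
      show |P x y| ≤ _
      linarith
    have i2 : IntegrableOn (fun y => mu y * min (chi x) (chi y)) Q :=
      blog_int hmu nn (measurable_const.min hchi) (B := 1)
        (fun y _ => by rw [abs_of_nonneg (hmin01 x y).1]; exact (hmin01 x y).2)
    have e : TI (fun y => mu y * P x y) + 1 / (2 * π) * TI (fun y => mu y * min (chi x) (chi y)) =
        TI (fun y => mu y * (P x y + 1 / (2 * π) * min (chi x) (chi y))) := by
      unfold TI
      rw [← integral_const_mul, ← integral_add i1 (i2.const_mul _)]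
      congr 1
      ext y
      ring
    rw [e]
    apply blog_mean hmu nn one
    filter_upwards [ae_restrict_mem blog_measQ, hne x] with y hy hxy
    exact hE x hx y hy hxy
  have hJm : Measurable (fun x => TI (fun y => mu y * P x y)) := by
    have h1 : StronglyMeasurable (fun p : (ℝ × ℝ) × (ℝ × ℝ) => mu p.2 * P p.1 p.2) :=
      ((hmu.measurable.comp measurable_snd).mul hP).stronglyMeasurable
    exact (h1.integral_prod_right' (ν := volume.restrict Q)).measurable
  have hmm : Measurable (fun x => TI (fun y => mu y * min (chi x) (chi y))) := by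
    have h1 : StronglyMeasurable (fun p : (ℝ × ℝ) × (ℝ × ℝ) => mu p.2 * min (chi p.1) (chi p.2)) :=
      ((hmu.measurable.comp measurable_snd).mul hminm).stronglyMeasurable
    exact (h1.integral_prod_right' (ν := volume.restrict Q)).measurable
  have hmb : ∀ x, |TI (fun y => mu y * min (chi x) (chi y))| ≤ 1 := fun x =>
    blog_mean hmu nn one (Filter.Eventually.of_forall
      (fun y => by rw [abs_of_nonneg (hmin01 x y).1]; exact (hmin01 x y).2))
  have hJb : ∀ x ∈ Q, |TI (fun y => mu y * P x y)| ≤ E + 1 / (2 * π) := by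
    intro x hx
    have h1 := hin x hx
    have h2 := hmb x
    have h3 : |1 / (2 * π) * TI (fun y => mu y * min (chi x) (chi y))| ≤ 1 / (2 * π) := by
      rw [abs_mul, abs_of_pos (by positivity)]
      calc 1 / (2 * π) * |TI (fun y => mu y * min (chi x) (chi y))| ≤ 1 / (2 * π) * 1 :=
            mul_le_mul_of_nonneg_left h2 (by positivity)
        _ = 1 / (2 * π) := mul_one _
    have h4 := abs_sub (TI (fun y => mu y * P x y) +
      1 / (2 * π) * TI (fun y => mu y * min (chi x) (chi y)))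
        (1 / (2 * π) * TI (fun y => mu y * min (chi x) (chi y)))
    rw [add_sub_cancel_right] at h4
    linarith
  have i1 : IntegrableOn (fun x => mu x * TI (fun y => mu y * P x y)) Q :=
    blog_int hmu nn hJm hJb
  have i2 : IntegrableOn (fun x => mu x * TI (fun y => mu y * min (chi x) (chi y))) Q :=
    blog_int hmu nn hmm (fun x _ => hmb x)
  have e : TI (fun x => TI (fun y => mu x * mu y * P x y)) +
      1 / (2 * π) * TI (fun x => mu x * TI (fun y => mu y * min (chi x) (chi y))) =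
      TI (fun x => mu x * (TI (fun y => mu y * P x y) +
        1 / (2 * π) * TI (fun y => mu y * min (chi x) (chi y)))) := by
    have e1 : (fun x => TI (fun y => mu x * mu y * P x y)) =
        fun x => mu x * TI (fun y => mu y * P x y) := by
      ext x
      unfold TI
      rw [← integral_const_mul]
      congr 1
      ext y
      ring
    rw [e1]
    unfold TI at *
    rw [← integral_const_mul, ← integral_add i1 (i2.const_mul _)]
    congr 1
    ext x
    ring
  rw [e]
  apply blog_mean hmu nn one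
  filter_upwards [ae_restrict_mem blog_measQ] with x hx
  exact hin x hx

/-- lower bound of `E chi - EE min (chi, chi')` -/
theorem blog_lower {mu chi : ℝ × ℝ → ℝ} (hmu : Continuous mu) (nn : ∀ x, 0 ≤ mu x)
    (one : TI mu = 1) (hchi : Measurable chi) (h01 : ∀ x, 0 ≤ chi x ∧ chi x ≤ 1)
    {q R' : ℝ} (hq : q ≤ 1 / 2) (h1 : ∀ x, nrm x ≤ q → chi x = 1)
    (hz : ∀ x, R' ≤ nrm x → chi x = 0) :
    (∫ x in Disc q, mu x) * (∫ x in Q \ Disc R', mu x) ≤
      TI (fun x => mu x * chi x) -
        TI (fun x => mu x * TI (fun y => mu y * min (chi x) (chi y))) := by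
  have hmin01 : ∀ x y, 0 ≤ min (chi x) (chi y) ∧ min (chi x) (chi y) ≤ 1 := fun x y =>
    ⟨le_min (h01 x).1 (h01 y).1, le_trans (min_le_left _ _) (h01 x).2⟩
  have hminm : Measurable (fun p : (ℝ × ℝ) × (ℝ × ℝ) => min (chi p.1) (chi p.2)) :=
    (hchi.comp measurable_fst).min (hchi.comp measurable_snd)
  have hmb : ∀ x, |TI (fun y => mu y * min (chi x) (chi y))| ≤ 1 := fun x =>
    blog_mean hmu nn one (Filter.Eventually.of_forall
      (fun y => by rw [abs_of_nonneg (hmin01 x y).1]; exact (hmin01 x y).2))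
  have hmm : Measurable (fun x => TI (fun y => mu y * min (chi x) (chi y))) := by
    have h1 : StronglyMeasurable (fun p : (ℝ × ℝ) × (ℝ × ℝ) => mu p.2 * min (chi p.1) (chi p.2)) :=
      ((hmu.measurable.comp measurable_snd).mul hminm).stronglyMeasurable
    exact (h1.integral_prod_right' (ν := volume.restrict Q)).measurable
  set M : ℝ := ∫ x in Q \ Disc R', mu x with hM
  have hMsum : (∫ x in Q ∩ Disc R', mu x) + M = 1 := by
    have := integral_inter_add_sdiff (μ := volume) (blog_measDisc R') (blog_intQ hmu)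
    rw [hM, this]
    exact one
  have hM0 : 0 ≤ M := integral_nonneg (fun x => nn x)
  have hin : ∀ x, TI (fun y => mu y * min (chi x) (chi y)) ≤ chi x * (1 - M) := by
    intro x
    have e : chi x * (1 - M) = TI (fun y => (Disc R').indicator (fun y => chi x * mu y) y) := by
      unfold TI
      rw [setIntegral_indicator (blog_measDisc R'), integral_const_mul]
      congr 1
      linarith
    rw [e]
    unfold TI
    apply integral_mono
    · exact blog_int hmu nn (measurable_const.min hchi) (B := 1)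
        (fun y _ => by rw [abs_of_nonneg (hmin01 x y).1]; exact (hmin01 x y).2)
    · exact ((blog_intQ hmu).const_mul (chi x)).indicator (blog_measDisc R')
    · intro y
      by_cases hy : y ∈ Disc R'
      · simp only [indicator_of_mem hy]
        rw [mul_comm (chi x)]
        exact mul_le_mul_of_nonneg_left (min_le_left _ _) (nn y)
      · simp only [indicator_of_notMem hy]
        have : R' ≤ nrm y := not_lt.1 hy
        rw [hz y this, min_eq_right (h01 x).1, mul_zero]
  have i1 : IntegrableOn (fun x => mu x * chi x) Q :=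
    blog_int hmu nn hchi (B := 1) (fun y _ => by rw [abs_of_nonneg (h01 y).1]; exact (h01 y).2)
  have i2 : IntegrableOn (fun x => mu x * TI (fun y => mu y * min (chi x) (chi y))) Q :=
    blog_int hmu nn hmm (fun x _ => hmb x)
  have h2 : TI (fun x => mu x * TI (fun y => mu y * min (chi x) (chi y))) ≤
      TI (fun x => mu x * chi x * (1 - M)) := by
    unfold TI at *
    apply integral_mono i2 (i1.mul_const _)
    intro x
    show mu x * _ ≤ mu x * chi x * (1 - M)
    rw [mul_assoc]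
    exact mul_le_mul_of_nonneg_left (hin x) (nn x)
  have e2 : TI (fun x => mu x * chi x * (1 - M)) = TI (fun x => mu x * chi x) * (1 - M) := by
    unfold TI
    rw [integral_mul_const]
  have h3 : (∫ x in Disc q, mu x) ≤ TI (fun x => mu x * chi x) := by
    have e3 : (∫ x in Disc q, mu x) = ∫ x in Disc q, mu x * chi x := by
      apply setIntegral_congr_fun (blog_measDisc q)
      intro x hx
      have : nrm x ≤ q := le_of_lt hx
      simp only [h1 x this, mul_one]
    rw [e3]
    unfold TI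
    apply setIntegral_mono_set i1
    · exact Filter.Eventually.of_forall (fun x => mul_nonneg (nn x) (h01 x).1)
    · exact (blog_Disc_sub hq).eventuallyLE
  rw [e2] at h2
  have h4 : (∫ x in Disc q, mu x) * M ≤ TI (fun x => mu x * chi x) * M :=
    mul_le_mul_of_nonneg_right h3 hM0
  linarith

/-- L9.3 + L9.4: logarithmic cut-off virial, in coordinates relative to `z` -/
theorem c2_log {K R : ℝ × ℝ → ℝ} (hG : IsGreen K R) {rp : ℝ} (hrp : GoodRp K rp) :
    ∃ C : ℝ, 0 < C ∧ ∀ (N : ℕ) (z : ℝ × ℝ) (k L q : ℝ) (mu s : ℝ × ℝ → ℝ), 3 ≤ N →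
      IsMF K N z k mu s → 3 / 4 * rp ≤ tn (z - pt) → 1 ≤ L → 0 < q →
      Real.exp L * q ≤ 1 / 100 → Real.exp L * q ≤ rp / 4 → 1 / 5 ≤ ∫ x in Disc q, mu x →
      ∫ x in Q \ Disc (Real.exp L * q), mu x ≤ C / L + C * N * (Real.exp L * q) := by
  obtain ⟨C1, hC1, hchl⟩ := chl_field
  obtain ⟨C2, hC2, hsig⟩ := sigma_bounds hG
  obtain ⟨C3, hC3, hU⟩ := U_taylor hG (r := 3 / 4 * rp) (by linarith [hrp.1])
  obtain ⟨C4, hC4, hR⟩ := green_R hG
  have hpi := Real.pi_gt_three
  have hpi4 := Real.pi_lt_four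
  refine ⟨5 / 2 * (C1 + 16 * C1 + 64 * C4 + 32 * C2 + 2 * C3), by positivity, ?_⟩
  intro N z k L q mu s hN h hz hL hq hR1 hR2 h5
  set R' : ℝ := Real.exp L * q with hR'
  have hR0 : 0 < R' := by positivity
  have hL0 : 0 < L := by linarith
  obtain ⟨cX1, cX2, hdiv, h01, hone, hzero, hpair⟩ := hchl L q hL hq hR1
  have hmu : Continuous mu := h.smu.continuous
  have hchi := blog_chl_meas L q
  set X1 : ℝ × ℝ → ℝ := perz (fun x => chl L q x * x.1) with hX1
  set X2 : ℝ × ℝ → ℝ := perz (fun x => chl L q x * x.2) with hX2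
  have hsup : ∀ x : ℝ × ℝ, chl L q x ≠ 0 → |x.1| ≤ 1 / 100 ∧ |x.2| ≤ 1 / 100 := by
    intro x hx
    have h1 : nrm x < R' := by
      by_contra hc
      exact hx (hzero x (not_lt.1 hc))
    have h2 := blog_abs1 x
    have h3 := blog_abs2 x
    exact ⟨by linarith, by linarith⟩
  have hXQ : ∀ x ∈ Q, X1 x = chl L q x * x.1 ∧ X2 x = chl L q x * x.2 := by
    intro x hx
    constructor
    · exact perz_eq (a := 1 / 100) (by norm_num)
        (fun y hy => hsup y (left_ne_zero_of_mul hy)) x hx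
    · exact perz_eq (a := 1 / 100) (by norm_num)
        (fun y hy => hsup y (left_ne_zero_of_mul hy)) x hx
  have hXb : ∀ x ∈ Q, |X1 x| ≤ R' ∧ |X2 x| ≤ R' := by
    intro x hx
    rw [(hXQ x hx).1, (hXQ x hx).2]
    obtain ⟨c0, c1⟩ := h01 x
    by_cases hu : R' ≤ nrm x
    · rw [hzero x hu]; simp [hR0.le]
    · push Not at hu
      have h1 := blog_abs1 x
      have h2 := blog_abs2 x
      rw [abs_mul, abs_mul, abs_of_nonneg c0]
      constructor
      · calc chl L q x * |x.1| ≤ 1 * |x.1| := mul_le_mul_of_nonneg_right c1 (abs_nonneg _)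
          _ ≤ R' := by linarith
      · calc chl L q x * |x.2| ≤ 1 * |x.2| := mul_le_mul_of_nonneg_right c1 (abs_nonneg _)
          _ ≤ R' := by linarith
  have hvv := vv hG (by omega : 1 ≤ N) h cX1 (perz_per _) cX2 (perz_per _)
  -- T1
  have t1 : |TI (fun x => mu x * (D1 X1 x + D2 X2 x)) - 2 * TI (fun x => mu x * chl L q x)|
      ≤ C1 / L := by
    have i1 : IntegrableOn (fun x => mu x * (D1 X1 x + D2 X2 x)) Q := by
      apply blog_int hmu h.nn ((blog_meas_D1 X1).add (blog_meas_D2 X2)) (B := C1 / L + 2)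
      intro x hx
      show |D1 X1 x + D2 X2 x| ≤ C1 / L + 2
      have a1 := hdiv x hx
      have a2 := h01 x
      have a3 := abs_le.1 a1
      rw [abs_le]
      constructor <;> linarith [a3.1, a3.2, a2.1, a2.2, (by positivity : 0 ≤ C1 / L)]
    have i2 : IntegrableOn (fun x => mu x * chl L q x) Q :=
      blog_int hmu h.nn hchi (B := 1)
        (fun y _ => by rw [abs_of_nonneg (h01 y).1]; exact (h01 y).2)
    have e : TI (fun x => mu x * (D1 X1 x + D2 X2 x)) - 2 * TI (fun x => mu x * chl L q x) =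
        TI (fun x => mu x * (D1 X1 x + D2 X2 x - 2 * chl L q x)) := by
      unfold TI
      rw [← integral_const_mul, ← integral_sub i1 (i2.const_mul _)]
      congr 1
      ext x
      ring
    rw [e]
    apply blog_mean hmu h.nn h.one
    filter_upwards [ae_restrict_mem blog_measQ] with x hx
    exact hdiv x hx
  -- T2
  have t2 : |TI (fun x => TI (fun y => mu x * mu y * PX K X1 X2 x y)) +
      1 / (2 * π) * TI (fun x => mu x * TI (fun y => mu y * min (chl L q x) (chl L q y)))|
      ≤ C1 / L + 4 * C4 * R' := by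
    apply blog_double hmu h.nn h.one hchi h01
      (blog_PX_meas cX1.continuous.measurable cX2.continuous.measurable)
    intro x hx y hy hxy
    exact blog_pair hG hC4 (fun w hw => (hR w hw).2) (by positivity) hR0 hR1 h01 hzero hXQ hpair
      hx hy hxy
  -- T3
  have hlam : 1 ≤ lam N ∧ lam N ≤ 4 * π * N := by
    have h3 : (3 : ℝ) ≤ N := by exact_mod_cast hN
    have h4 : 3 * 2 ≤ π * ((N : ℝ) - 1) :=
      mul_le_mul hpi.le (by linarith) (by norm_num) (by linarith)
    unfold lam
    constructor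
    · linarith
    · linarith
  have hsq : Real.sqrt (lam N) ≤ 16 * N := by
    have h1 : Real.sqrt (lam N) ≤ lam N := by
      rw [Real.sqrt_le_left (by linarith)]
      nlinarith [hlam.1]
    have h2 : 4 * π * (N : ℝ) ≤ 16 * N := by
      have : (0 : ℝ) ≤ N := Nat.cast_nonneg N
      nlinarith
    linarith [hlam.2]
  have t3 : |TI (fun x => mu x * (X1 x * conv (D1 (Gf K)) s x + X2 x * conv (D2 (Gf K)) s x))|
      ≤ R' * (C2 * (16 * N)) + R' * (C2 * (16 * N)) := by
    apply blog_mean hmu h.nn h.one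
    filter_upwards [ae_restrict_mem blog_measQ] with x hx
    obtain ⟨-, -, s1, s2⟩ := hsig N s hN h.ss.continuous h.ps h.s0 h.s1 h.Ts x
    have b1 : C2 * Real.sqrt (lam N) ≤ C2 * (16 * N) := mul_le_mul_of_nonneg_left hsq hC2.le
    refine le_trans (abs_add_le _ _) (add_le_add ?_ ?_)
    · rw [abs_mul]
      exact mul_le_mul (hXb x hx).1 (le_trans s1 b1) (abs_nonneg _) hR0.le
    · rw [abs_mul]
      exact mul_le_mul (hXb x hx).2 (le_trans s2 b1) (abs_nonneg _) hR0.le
  -- T4
  have t4 : |TI (fun x => mu x * (X1 x * D1 (Uz K z) x + X2 x * D2 (Uz K z) x))|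
      ≤ R' * C3 + R' * C3 := by
    apply blog_mean hmu h.nn h.one
    filter_upwards [ae_restrict_mem blog_measQ] with x hx
    by_cases hu : R' ≤ nrm x
    · rw [(hXQ x hx).1, (hXQ x hx).2, hzero x hu]
      simp only [zero_mul, add_zero, abs_zero]
      positivity
    · push Not at hu
      obtain ⟨u1, u2⟩ := (hU z hz).1 x (by linarith)
      refine le_trans (abs_add_le _ _) (add_le_add ?_ ?_)
      · rw [abs_mul]
        exact mul_le_mul (hXb x hx).1 u1 (abs_nonneg _) hR0.le
      · rw [abs_mul]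
        exact mul_le_mul (hXb x hx).2 u2 (abs_nonneg _) hR0.le
  have hqh : q ≤ 1 / 2 := by
    have : 1 ≤ Real.exp L := Real.one_le_exp hL0.le
    nlinarith
  have hlow := blog_lower hmu h.nn h.one hchi h01 hqh hone hzero
  set T1 := TI (fun x => mu x * (D1 X1 x + D2 X2 x))
  set T2 := TI (fun x => TI (fun y => mu x * mu y * PX K X1 X2 x y))
  set T3 := TI (fun x => mu x * (X1 x * conv (D1 (Gf K)) s x + X2 x * conv (D2 (Gf K)) s x))
  set T4 := TI (fun x => mu x * (X1 x * D1 (Uz K z) x + X2 x * D2 (Uz K z) x))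
  set A := TI (fun x => mu x * chl L q x)
  set B := TI (fun x => mu x * TI (fun y => mu y * min (chl L q x) (chl L q y)))
  set M : ℝ := ∫ x in Q \ Disc R', mu x with hM
  have hM0 : 0 ≤ M := integral_nonneg (fun x => h.nn x)
  have hM5 : 1 / 5 * M ≤ A - B := le_trans (mul_le_mul_of_nonneg_right h5 hM0) hlow
  have k1 := (abs_le.1 t1).1
  have k2 := (abs_le.1 t2).1
  have k3 := (abs_le.1 t3).2
  have k4 := (abs_le.1 t4).1
  have hN0 : (1 : ℝ) ≤ N := by exact_mod_cast (by omega : 1 ≤ N)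
  have k4' : -(N * (R' * C3 + R' * C3)) ≤ N * T4 := by nlinarith
  have k2' : -(4 * π * (C1 / L + 4 * C4 * R')) ≤ 4 * π * T2 + 2 * B := by
    have e : 4 * π * T2 + 2 * B = 4 * π * (T2 + 1 / (2 * π) * B) := by
      field_simp
      ring
    rw [e]
    have := mul_le_mul_of_nonneg_left k2 (by positivity : 0 ≤ 4 * π)
    linarith
  have k5 : 4 * π * (C1 / L + 4 * C4 * R') ≤ 16 * (C1 / L + 4 * C4 * R') :=
    mul_le_mul_of_nonneg_right (by linarith) (by positivity)
  have key : 2 * (A - B) ≤ C1 / L + 16 * (C1 / L + 4 * C4 * R') +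
      (R' * (C2 * (16 * N)) + R' * (C2 * (16 * N))) + N * (R' * C3 + R' * C3) := by
    linarith
  have k6 : 64 * C4 * R' ≤ 64 * C4 * (N * R') := by
    have : R' ≤ N * R' := by nlinarith
    exact mul_le_mul_of_nonneg_left this (by positivity)
  have e1 : 5 / 2 * (C1 + 16 * C1 + 64 * C4 + 32 * C2 + 2 * C3) / L +
      5 / 2 * (C1 + 16 * C1 + 64 * C4 + 32 * C2 + 2 * C3) * N * R' =
      5 / 2 * ((C1 / L + 16 * (C1 / L)) + 64 * C4 * (N * R') + 32 * C2 * (N * R') +
        2 * C3 * (N * R')) + 5 / 2 * ((64 * C4 + 32 * C2 + 2 * C3) / L +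
          (C1 + 16 * C1) * (N * R')) := by
    ring
  have e2 : 0 ≤ 5 / 2 * ((64 * C4 + 32 * C2 + 2 * C3) / L + (C1 + 16 * C1) * (N * R')) := by
    positivity
  rw [e1]
  nlinarith

end Pool.Agent.AO
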