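import Pool.Agent.Lib.MP_10e52e_an.Dens
import Pool.Agent.Lib.MP_10e52e_an.Ident
import Pool.Agent.Lib.MP_10e52e_an.Integral
import Pool.Agent.Lib.MP_10e52e_an.Bbm

/-! MP_10e52e_an row Bp: L9.1 -/

namespace Pool.Agent.AO

open MeasureTheory Set Real
open scoped ContDiff

private theorem Bp_TI_abs {f g : ℝ × ℝ → ℝ} (hg : IntegrableOn g Q) (h : ∀ x, |f x| ≤ g x) :
    |TI f| ≤ TI g := by
  show |∫ x in Q, f x| ≤ ∫ x in Q, g x
  rw [← Real.norm_eq_abs]
  exact norm_integral_le_of_norm_le hg (Filter.Eventually.of_forall fun x => h x)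

private theorem Bp_round {x : ℝ} (h1 : -1 / 2 < x) (h2 : x ≤ 1 / 2) : (x - round x) ^ 2 = x ^ 2 := by
  rw [← sq_abs, ← sq_abs x]
  congr 1
  rw [abs_sub_round_eq_min]
  rcases lt_or_ge x 0 with h | h
  · have hf : Int.fract x = x + 1 := by
      have h3 : ⌊x⌋ = -1 := by
        rw [Int.floor_eq_iff]
        push_cast
        constructor <;> linarith
      rw [Int.fract, h3]
      push_cast
      ring
    rw [hf, abs_of_neg h, min_eq_right (by linarith)]
    ring
  · have hf : Int.fract x = x := Int.fract_eq_self.2 ⟨h, by linarith⟩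
    rw [hf, abs_of_nonneg h, min_eq_left (by linarith)]

private theorem Bp_tn {x : ℝ × ℝ} (hx : x ∈ Q) : tn x = nrm x := by
  obtain ⟨⟨h1, h2⟩, h3, h4⟩ := hx
  unfold tn nrm nsq
  simp only
  rw [Bp_round h1 h2, Bp_round h3 h4]

private theorem Bp_tn_per (x : ℝ × ℝ) : tn (x.1 + 1, x.2) = tn x ∧ tn (x.1, x.2 + 1) = tn x := by
  have h : ∀ t : ℝ, (t + 1) - ((round (t + 1) : ℤ) : ℝ) = t - ((round t : ℤ) : ℝ) := by
    intro t
    rw [round_add_one]
    push_cast
    ring
  unfold tn nrm nsq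
  constructor
  · simp only [h]
  · simp only [h]

private theorem Bp_disc {r : ℝ} (hr : r ≤ 1 / 8) {x : ℝ × ℝ} (hx : x ∈ Disc r) : x ∈ Q := by
  have h0 : nrm x < r := hx
  have h1 : nsq x < (1 / 8) ^ 2 := by
    have h2 : nrm x ^ 2 = nsq x := Real.sq_sqrt (by unfold nsq; positivity)
    have h3 : 0 ≤ nrm x := Real.sqrt_nonneg _
    rw [← h2]
    exact pow_lt_pow_left₀ (by linarith) h3 (by norm_num)
  unfold nsq at h1
  have h4 : |x.1| < 1 / 8 := by
    rw [← abs_of_pos (show (0 : ℝ) < 1 / 8 by norm_num)]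
    exact sq_lt_sq.1 (by nlinarith [sq_nonneg x.2])
  have h5 : |x.2| < 1 / 8 := by
    rw [← abs_of_pos (show (0 : ℝ) < 1 / 8 by norm_num)]
    exact sq_lt_sq.1 (by nlinarith [sq_nonneg x.1])
  have h4' := abs_lt.1 h4
  have h5' := abs_lt.1 h5
  exact ⟨⟨by linarith, by linarith⟩, ⟨by linarith, by linarith⟩⟩

/-- the mass near `p` as a torus integral -/
private theorem Bp_mass {mu : ℝ × ℝ → ℝ} (hmu : Continuous mu) (hp : Per mu) {r : ℝ}
    (hr : r ≤ 1 / 8) :
    bm mu pt r = TI (fun x => indicator {x : ℝ × ℝ | tn (x - pt) < r} mu x) := by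
  rw [bm_eq hmu]
  have hper : Per (fun x => indicator {x : ℝ × ℝ | tn (x - pt) < r} mu x) := by
    intro x
    have e1 : ((x.1 + 1, x.2) : ℝ × ℝ) - pt = ((x - pt).1 + 1, (x - pt).2) := by
      ext <;> simp <;> ring
    have e2 : ((x.1, x.2 + 1) : ℝ × ℝ) - pt = ((x - pt).1, (x - pt).2 + 1) := by
      ext <;> simp <;> ring
    constructor
    · simp only [indicator_apply, mem_setOf_eq, e1, (Bp_tn_per _).1, (hp x).1]
    · simp only [indicator_apply, mem_setOf_eq, e2, (Bp_tn_per _).2, (hp x).2]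
  rw [← TI_translate hper pt]
  have hD : MeasurableSet (Disc r) := by
    have : IsOpen (Disc r) := by
      unfold Disc nrm nsq
      exact isOpen_lt (by fun_prop) continuous_const
    exact this.measurableSet
  rw [← integral_indicator hD, TI, ← integral_indicator measurableSet_Q]
  congr 1
  funext y
  by_cases hy : y ∈ Q
  · rw [indicator_of_mem hy]
    have e3 : y + pt - pt = y := by abel
    simp only [indicator_apply, mem_setOf_eq, e3, Bp_tn hy, Disc]
  · rw [indicator_of_notMem hy, indicator_of_notMem (fun h => hy (Bp_disc hr h))]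

/-- L9.1: little mass near `p` -/
theorem c2_p {K R : ℝ × ℝ → ℝ} (hG : IsGreen K R) {rp : ℝ} (hrp : GoodRp K rp) :
    ∃ N0 : ℕ, ∀ (N : ℕ) (k : ℝ) (mu s : ℝ × ℝ → ℝ), N0 ≤ N → IsMF K N 0 k mu s →
      bm mu pt rp < 1 / 5 := by
  obtain ⟨hrp0, hrp1, hgood⟩ := hrp
  have hπ := Real.pi_pos
  have hπ3 := Real.pi_gt_three
  have hπ4 := Real.pi_lt_four
  set X1 : ℝ × ℝ → ℝ := fun x => Real.sin (2 * π * x.1) with hX1
  set X2 : ℝ × ℝ → ℝ := fun x => Real.sin (2 * π * x.2) with hX2
  have c1 : ContDiff ℝ 1 X1 := by rw [hX1]; fun_prop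
  have c2 : ContDiff ℝ 1 X2 := by rw [hX2]; fun_prop
  have hsin : ∀ t : ℝ, Real.sin (2 * π * (t + 1)) = Real.sin (2 * π * t) := by
    intro t
    rw [mul_add, mul_one, Real.sin_add_two_pi]
  have p1 : Per X1 := fun x => ⟨hsin _, rfl⟩
  have p2 : Per X2 := fun x => ⟨rfl, hsin _⟩
  obtain ⟨C1, hC1, hP⟩ := pair_bdd hG c1 p1 c2 p2
  obtain ⟨C2, hC2, hS⟩ := sigma_bounds hG
  obtain ⟨-, hsign, -⟩ := U_sign hG
  -- derivatives of the field
  have d1 : ∀ x, D1 X1 x = 2 * π * Real.cos (2 * π * x.1) := by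
    intro x
    have h1 : HasDerivAt (fun t : ℝ => Real.sin (2 * π * t)) (2 * π * Real.cos (2 * π * x.1)) x.1 := by
      have := ((hasDerivAt_id x.1).const_mul (2 * π)).sin
      simpa [mul_comm] using this
    have h2 : HasFDerivAt X1 ((2 * π * Real.cos (2 * π * x.1)) • ContinuousLinearMap.fst ℝ ℝ ℝ) x :=
      h1.comp_hasFDerivAt x hasFDerivAt_fst
    unfold D1
    rw [h2.fderiv]
    simp
  have d2 : ∀ x, D2 X2 x = 2 * π * Real.cos (2 * π * x.2) := by
    intro x
    have h1 : HasDerivAt (fun t : ℝ => Real.sin (2 * π * t)) (2 * π * Real.cos (2 * π * x.2)) x.2 := by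
      have := ((hasDerivAt_id x.2).const_mul (2 * π)).sin
      simpa [mul_comm] using this
    have h2 : HasFDerivAt X2 ((2 * π * Real.cos (2 * π * x.2)) • ContinuousLinearMap.snd ℝ ℝ ℝ) x :=
      h1.comp_hasFDerivAt x hasFDerivAt_snd
    unfold D2
    rw [h2.fderiv]
    simp
  -- integrability of the derivatives of U
  have hU : ∀ x, x - pt ∉ Lat → D1 (Uz K 0) x = -(4 * π) * D1 (Gf K) (x - pt) ∧
      D2 (Uz K 0) x = -(4 * π) * D2 (Gf K) (x - pt) := by
    intro x hx
    have hK : K (x - pt) ≠ 0 := fun h => hx ((hG.zero_iff _).1 h)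
    have hdl : DifferentiableAt ℝ (fun y => Real.log (K y)) (x - pt) :=
      (hG.smoothK.differentiable (by norm_num) _).log hK
    have e0 : Uz K 0 = fun y => (fun w => Real.log (K w)) (y - pt) := by
      funext y
      show Real.log (K (y + 0 - pt)) = Real.log (K (y - pt))
      rw [add_zero]
    have e1 : D1 (Gf K) (x - pt) = -(1 / (4 * π)) * D1 (fun y => Real.log (K y)) (x - pt) :=
      D1_const_mul hdl _
    have e2 : D2 (Gf K) (x - pt) = -(1 / (4 * π)) * D2 (fun y => Real.log (K y)) (x - pt) :=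
      D2_const_mul hdl _
    have e3 : D1 (fun y => (fun w => Real.log (K w)) (y - pt)) x =
        D1 (fun w => Real.log (K w)) (x - pt) := D1_translate_sub (fun w => Real.log (K w)) pt x
    have e4 : D2 (fun y => (fun w => Real.log (K w)) (y - pt)) x =
        D2 (fun w => Real.log (K w)) (x - pt) := D2_translate_sub (fun w => Real.log (K w)) pt x
    rw [e0, e3, e4, e1, e2]
    constructor
    · field_simp
    · field_simp
  have hae : ∀ᵐ x : ℝ × ℝ, x - pt ∉ Lat := by
    have h1 : (volume : Measure (ℝ × ℝ)) ((fun x => x - pt) ⁻¹' Lat) = 0 := by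
      apply Set.Countable.measure_zero
      exact countable_Lat.preimage (sub_left_injective)
    exact measure_eq_zero_iff_ae_notMem.1 h1
  have hls := (green_logsing hG).1
  obtain ⟨-, -, i1, i2⟩ := hls.integrable
  have j1 : IntegrableOn (D1 (Uz K 0)) Q := by
    have h1 : IntegrableOn (fun x => -(4 * π) * D1 (Gf K) (x + -pt)) Q :=
      (integrableOn_translate hls.per.D1 i1 (-pt)).const_mul _
    refine h1.congr_fun_ae (ae_restrict_of_ae ?_)
    filter_upwards [hae] with x hx
    rw [(hU x hx).1, sub_eq_add_neg]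
  have j2 : IntegrableOn (D2 (Uz K 0)) Q := by
    have h1 : IntegrableOn (fun x => -(4 * π) * D2 (Gf K) (x + -pt)) Q :=
      (integrableOn_translate hls.per.D2 i2 (-pt)).const_mul _
    refine h1.congr_fun_ae (ae_restrict_of_ae ?_)
    filter_upwards [hae] with x hx
    rw [(hU x hx).2, sub_eq_add_neg]
  set C3 : ℝ := 2 * (1 + C1) + 2 * C2 with hC3
  have hC3p : 0 < C3 := by positivity
  refine ⟨max 3 (⌈(5 * C3 + 1) ^ 2⌉₊), ?_⟩
  intro N k mu s hN h
  have hN3 : 3 ≤ N := (le_max_left _ _).trans hN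
  have hNr : (3 : ℝ) ≤ N := by exact_mod_cast hN3
  have hmu : Continuous mu := h.smu.continuous
  have hs : Continuous s := h.ss.continuous
  have hS' := hS N s hN3 hs h.ps h.s0 h.s1 h.Ts
  have hmuI : IntegrableOn mu Q := integrableOn_Q_of_continuous hmu
  obtain ⟨Cm, hCm⟩ := Per.bounded h.pmu hmu
  have hvv := vv hG (by omega : 1 ≤ N) h c1 p1 c2 p2
  set T1 := TI (fun x => mu x * (D1 X1 x + D2 X2 x)) with hT1
  set T2 := TI (fun x => TI (fun y => mu x * mu y * PX K X1 X2 x y)) with hT2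
  set T3 := TI (fun x => mu x * (X1 x * conv (D1 (Gf K)) s x + X2 x * conv (D2 (Gf K)) s x))
    with hT3
  set T4 := TI (fun x => mu x * (X1 x * D1 (Uz K 0) x + X2 x * D2 (Uz K 0) x)) with hT4
  have t1 : |T1| ≤ 4 * π := by
    have h1 : |T1| ≤ TI (fun x => 4 * π * mu x) := by
      refine Bp_TI_abs (hmuI.const_mul _) fun x => ?_
      rw [abs_mul, abs_of_nonneg (h.nn x), d1, d2, mul_comm]
      refine mul_le_mul_of_nonneg_right ?_ (h.nn x)
      have a1 := Real.cos_le_one (2 * π * x.1)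
      have a2 := Real.neg_one_le_cos (2 * π * x.1)
      have a3 := Real.cos_le_one (2 * π * x.2)
      have a4 := Real.neg_one_le_cos (2 * π * x.2)
      rw [abs_le]
      constructor <;> nlinarith
    rwa [TI_const_mul, h.one, mul_one] at h1
  have t2 : |T2| ≤ C1 := by
    have h1 : |T2| ≤ TI (fun x => C1 * mu x) := by
      refine Bp_TI_abs (hmuI.const_mul _) fun x => ?_
      have h2 : |TI (fun y => mu x * mu y * PX K X1 X2 x y)| ≤ TI (fun y => C1 * mu x * mu y) := by
        refine Bp_TI_abs (hmuI.const_mul _) fun y => ?_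
        rw [abs_mul, abs_of_nonneg (mul_nonneg (h.nn x) (h.nn y))]
        have := mul_le_mul_of_nonneg_left (hP x y) (mul_nonneg (h.nn x) (h.nn y))
        linarith
      rwa [TI_const_mul, h.one, mul_one] at h2
    rwa [TI_const_mul, h.one, mul_one] at h1
  have t3 : |T3| ≤ 2 * C2 * Real.sqrt (lam N) := by
    have h1 : |T3| ≤ TI (fun x => 2 * C2 * Real.sqrt (lam N) * mu x) := by
      refine Bp_TI_abs (hmuI.const_mul _) fun x => ?_
      obtain ⟨-, -, q1, q2⟩ := hS' x
      rw [abs_mul, abs_of_nonneg (h.nn x), mul_comm]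
      refine mul_le_mul_of_nonneg_right ?_ (h.nn x)
      refine (abs_add_le _ _).trans ?_
      rw [abs_mul, abs_mul]
      have b1 : |X1 x| ≤ 1 := Real.abs_sin_le_one _
      have b2 : |X2 x| ≤ 1 := Real.abs_sin_le_one _
      have b3 : |X1 x| * |conv (D1 (Gf K)) s x| ≤ 1 * (C2 * Real.sqrt (lam N)) :=
        mul_le_mul b1 q1 (abs_nonneg _) (by norm_num)
      have b4 : |X2 x| * |conv (D2 (Gf K)) s x| ≤ 1 * (C2 * Real.sqrt (lam N)) :=
        mul_le_mul b2 q2 (abs_nonneg _) (by norm_num)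
      linarith
    rwa [TI_const_mul, h.one, mul_one] at h1
  -- the main term
  have hB : MeasurableSet {x : ℝ × ℝ | tn (x - pt) < rp} := by
    have hm : Measurable (fun x : ℝ × ℝ => tn (x - pt)) := by
      have hr : Measurable (fun t : ℝ => ((round t : ℤ) : ℝ)) := by
        have : (fun t : ℝ => ((round t : ℤ) : ℝ)) = fun t => ((⌊t + 1 / 2⌋ : ℤ) : ℝ) := by
          funext t
          rw [round_eq]
        rw [this]
        fun_prop
      unfold tn nrm nsq
      have g1 : Measurable (fun x : ℝ × ℝ => (x - pt).1 - ((round (x - pt).1 : ℤ) : ℝ)) :=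
        (by fun_prop : Measurable fun x : ℝ × ℝ => (x - pt).1).sub
          (hr.comp (by fun_prop : Measurable fun x : ℝ × ℝ => (x - pt).1))
      have g2 : Measurable (fun x : ℝ × ℝ => (x - pt).2 - ((round (x - pt).2 : ℤ) : ℝ)) :=
        (by fun_prop : Measurable fun x : ℝ × ℝ => (x - pt).2).sub
          (hr.comp (by fun_prop : Measurable fun x : ℝ × ℝ => (x - pt).2))
      exact ((g1.pow_const 2).add (g2.pow_const 2)).sqrt
    exact measurableSet_lt hm measurable_const
  have t4 : T4 ≤ -(2 * π) * bm mu pt rp := by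
    rw [Bp_mass hmu h.pmu hrp1, ← TI_const_mul]
    have I1 : IntegrableOn (fun x => mu x * (X1 x * D1 (Uz K 0) x + X2 x * D2 (Uz K 0) x)) Q := by
      have a1 : IntegrableOn (fun x => X1 x * D1 (Uz K 0) x) Q :=
        Integrable.bdd_mul (c := 1) j1 c1.continuous.aestronglyMeasurable
          (Filter.Eventually.of_forall fun x => Real.abs_sin_le_one _)
      have a2 : IntegrableOn (fun x => X2 x * D2 (Uz K 0) x) Q :=
        Integrable.bdd_mul (c := 1) j2 c2.continuous.aestronglyMeasurable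
          (Filter.Eventually.of_forall fun x => Real.abs_sin_le_one _)
      exact Integrable.bdd_mul (c := Cm) (a1.add a2) hmu.aestronglyMeasurable
        (Filter.Eventually.of_forall fun x => hCm x)
    have I2 : IntegrableOn (fun x => -(2 * π) *
        indicator {x : ℝ × ℝ | tn (x - pt) < rp} mu x) Q :=
      (hmuI.indicator hB).const_mul _
    refine integral_mono_ae I1 I2 (ae_restrict_of_ae ?_)
    filter_upwards [hae] with x hx
    show mu x * (X1 x * D1 (Uz K 0) x + X2 x * D2 (Uz K 0) x) ≤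
      -(2 * π) * indicator {x : ℝ × ℝ | tn (x - pt) < rp} mu x
    by_cases hxB : x ∈ {x : ℝ × ℝ | tn (x - pt) < rp}
    · rw [indicator_of_mem hxB]
      have g1 := hgood x hx (le_of_lt hxB)
      have g2 := mul_le_mul_of_nonneg_left g1 (h.nn x)
      show mu x * (Real.sin (2 * π * x.1) * D1 (Uz K 0) x +
        Real.sin (2 * π * x.2) * D2 (Uz K 0) x) ≤ _
      linarith
    · rw [indicator_of_notMem hxB, mul_zero]
      exact mul_nonpos_of_nonneg_of_nonpos (h.nn x) (hsign x hx)
  -- conclusion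
  have hlam : Real.sqrt (lam N) ≤ 4 * Real.sqrt N := by
    rw [show 4 * Real.sqrt (N : ℝ) = Real.sqrt (16 * N) by
      rw [Real.sqrt_mul (by norm_num), show (16 : ℝ) = 4 ^ 2 by norm_num,
        Real.sqrt_sq (by norm_num)]]
    apply Real.sqrt_le_sqrt
    unfold lam
    nlinarith
  set m := bm mu pt rp with hm
  have hsN : 0 < Real.sqrt (N : ℝ) := Real.sqrt_pos.2 (by linarith)
  have hsN2 : Real.sqrt (N : ℝ) * Real.sqrt N = N := Real.mul_self_sqrt (by linarith)
  have hsN1 : 1 ≤ Real.sqrt (N : ℝ) := by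
    rw [show (1 : ℝ) = Real.sqrt 1 by simp]
    exact Real.sqrt_le_sqrt (by linarith)
  have hbig : 5 * C3 < Real.sqrt N := by
    have h1 : (5 * C3 + 1) ^ 2 ≤ (N : ℝ) := by
      have h2 : ⌈(5 * C3 + 1) ^ 2⌉₊ ≤ N := (le_max_right _ _).trans hN
      exact (Nat.le_ceil _).trans (by exact_mod_cast h2)
    have h3 : 5 * C3 + 1 ≤ Real.sqrt N := Real.le_sqrt_of_sq_le h1
    linarith
  have q1 := (abs_le.1 t1).2
  have q2 := (abs_le.1 t2).2
  have q3 := (abs_le.1 t3).1
  have q4 : 2 * π * (N * m) ≤ 4 * π + 4 * π * C1 + 8 * C2 * Real.sqrt N := by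
    have g1 : (N : ℝ) * T4 ≤ N * (-(2 * π) * m) := mul_le_mul_of_nonneg_left t4 (by linarith)
    have g2 : 4 * π * T2 ≤ 4 * π * C1 := mul_le_mul_of_nonneg_left q2 (by positivity)
    have g3 : 2 * C2 * Real.sqrt (lam N) ≤ 2 * C2 * (4 * Real.sqrt N) :=
      mul_le_mul_of_nonneg_left hlam (by positivity)
    linarith
  have q5 : (N : ℝ) * m ≤ C3 * Real.sqrt N := by
    have g1 : 2 * π * (N * m) ≤ 2 * π * (C3 * Real.sqrt N) := by
      have g2 : 4 * π + 4 * π * C1 ≤ (4 * π + 4 * π * C1) * Real.sqrt N :=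
        le_mul_of_one_le_right (by positivity) hsN1
      have g3 : 8 * C2 * Real.sqrt N ≤ 4 * π * C2 * Real.sqrt N := by
        have : 8 * C2 ≤ 4 * π * C2 := by nlinarith
        exact mul_le_mul_of_nonneg_right this hsN.le
      have g4 : 2 * π * (C3 * Real.sqrt N) =
          (4 * π + 4 * π * C1) * Real.sqrt N + 4 * π * C2 * Real.sqrt N := by
        rw [hC3]; ring
      linarith
    exact le_of_mul_le_mul_left g1 (by positivity)
  have q6 : Real.sqrt N * m ≤ C3 := by
    have : Real.sqrt N * (Real.sqrt N * m) ≤ Real.sqrt N * C3 := by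
      rw [← mul_assoc, hsN2]
      linarith
    exact le_of_mul_le_mul_left this hsN
  by_contra hcon
  push Not at hcon
  nlinarith

end Pool.Agent.AO
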