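import Pool.Agent.Lib.MP_10e52e_an.Dens
import Pool.Agent.Lib.MP_10e52e_an.Bp
import Pool.Agent.Lib.MP_10e52e_an.Bbm

/-! MP_10e52e_an row Bstop: L9.2 -/

namespace Pool.Agent.AO

open MeasureTheory Set Real
open scoped ContDiff

/-! ### The norm and the distance to the lattice -/

private theorem bstop_nrm_eq (x : ℝ × ℝ) : nrm x = ‖(⟨x.1, x.2⟩ : ℂ)‖ := by
  rw [Complex.norm_eq_sqrt_sq_add_sq]
  rfl

private theorem bstop_nrm_add (x y : ℝ × ℝ) : nrm (x + y) ≤ nrm x + nrm y := by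
  rw [bstop_nrm_eq, bstop_nrm_eq, bstop_nrm_eq]
  exact norm_add_le (⟨x.1, x.2⟩ : ℂ) ⟨y.1, y.2⟩

private theorem bstop_nrm_neg (x : ℝ × ℝ) : nrm (-x) = nrm x := by
  simp [nrm, nsq]

private theorem bstop_nrm_mono {x y : ℝ × ℝ} (h1 : |x.1| ≤ |y.1|) (h2 : |x.2| ≤ |y.2|) :
    nrm x ≤ nrm y := by
  unfold nrm nsq
  exact Real.sqrt_le_sqrt (add_le_add (sq_le_sq.2 h1) (sq_le_sq.2 h2))

private theorem bstop_nrm_nonneg (x : ℝ × ℝ) : 0 ≤ nrm x := Real.sqrt_nonneg _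

private theorem bstop_fst_le (x : ℝ × ℝ) : |x.1| ≤ nrm x := by
  unfold nrm nsq
  exact Real.abs_le_sqrt (by nlinarith [sq_nonneg x.2])

private theorem bstop_snd_le (x : ℝ × ℝ) : |x.2| ≤ nrm x := by
  unfold nrm nsq
  exact Real.abs_le_sqrt (by nlinarith [sq_nonneg x.1])

private theorem bstop_nrm_cont : Continuous nrm := by
  unfold nrm nsq
  fun_prop

private theorem bstop_tn_le (x : ℝ × ℝ) (m n : ℤ) : tn x ≤ nrm (x.1 - m, x.2 - n) :=
  bstop_nrm_mono (round_le x.1 m) (round_le x.2 n)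

private theorem bstop_tn_nrm (x : ℝ × ℝ) : tn x ≤ nrm x := by
  have h := bstop_tn_le x 0 0
  simpa using h

private theorem bstop_tn_add (x y : ℝ × ℝ) : tn (x + y) ≤ tn x + tn y := by
  have h1 := bstop_tn_le (x + y) (round x.1 + round y.1) (round x.2 + round y.2)
  refine h1.trans ?_
  have h2 := bstop_nrm_add (x.1 - round x.1, x.2 - round x.2) (y.1 - round y.1, y.2 - round y.2)
  have e : (((x + y).1 - ((round x.1 + round y.1 : ℤ) : ℝ),
      (x + y).2 - ((round x.2 + round y.2 : ℤ) : ℝ)) : ℝ × ℝ) =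
      (x.1 - round x.1, x.2 - round x.2) + (y.1 - round y.1, y.2 - round y.2) := by
    ext <;> simp <;> ring
  rw [e]
  exact h2

private theorem bstop_tn_neg (x : ℝ × ℝ) : tn (-x) ≤ tn x := by
  have h1 := bstop_tn_le (-x) (-round x.1) (-round x.2)
  refine h1.trans (le_of_eq ?_)
  rw [tn, ← bstop_nrm_neg]
  congr 1
  ext <;> simp <;> ring

private theorem bstop_abs_le {t : ℝ} (h1 : -1 / 2 < t) (h2 : t ≤ 1 / 2) :
    |t| ≤ |t - round t| := by
  have hm : round t = 0 ∨ (1 : ℝ) ≤ |(round t : ℝ)| := by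
    rcases eq_or_ne (round t) 0 with h | h
    · exact Or.inl h
    · right
      exact_mod_cast Int.one_le_abs h
  rcases hm with h | h
  · rw [h]; simp
  · have h3 : |t| ≤ 1 / 2 := abs_le.2 ⟨by linarith, h2⟩
    have h4 := abs_sub_abs_le_abs_sub (round t : ℝ) t
    rw [abs_sub_comm] at h4
    linarith

private theorem bstop_nrm_tn {x : ℝ × ℝ} (hx : x ∈ Q) : nrm x ≤ tn x :=
  bstop_nrm_mono (bstop_abs_le hx.1.1 hx.1.2) (bstop_abs_le hx.2.1 hx.2.2)

/-! ### Discs -/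

private theorem bstop_disc_open (r : ℝ) : IsOpen (Disc r) :=
  isOpen_lt bstop_nrm_cont continuous_const

private theorem bstop_vol (z : ℝ × ℝ) {r : ℝ} (hr : 0 < r) :
    (volume {x : ℝ × ℝ | x - z ∈ Disc r}).toReal ≤ 4 * r ^ 2 := by
  have hsub : {x : ℝ × ℝ | x - z ∈ Disc r} ⊆
      Ioo (z.1 - r) (z.1 + r) ×ˢ Ioo (z.2 - r) (z.2 + r) := by
    intro x hx
    have hx' : nrm (x - z) < r := hx
    have h1 := abs_lt.1 ((bstop_fst_le (x - z)).trans_lt hx')
    have h2 := abs_lt.1 ((bstop_snd_le (x - z)).trans_lt hx')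
    simp only [Prod.fst_sub, Prod.snd_sub] at h1 h2
    exact ⟨⟨by linarith [h1.1], by linarith [h1.2]⟩, ⟨by linarith [h2.1], by linarith [h2.2]⟩⟩
  have hv : volume (Ioo (z.1 - r) (z.1 + r) ×ˢ Ioo (z.2 - r) (z.2 + r)) =
      ENNReal.ofReal (4 * r ^ 2) := by
    rw [Measure.volume_eq_prod, Measure.prod_prod, Real.volume_Ioo, Real.volume_Ioo,
      ← ENNReal.ofReal_mul (by linarith)]
    congr 1
    ring
  have h := ENNReal.toReal_mono (by rw [hv]; exact ENNReal.ofReal_ne_top) (measure_mono hsub)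
  rwa [hv, ENNReal.toReal_ofReal (by positivity)] at h

private theorem bstop_int (mu : ℝ × ℝ → ℝ) (z : ℝ × ℝ) (r : ℝ) :
    ∫ x in {x : ℝ × ℝ | x - z ∈ Disc r}, mu x = ∫ y in Disc r, mu (y + z) := by
  have h := (measurePreserving_add_right (volume : Measure (ℝ × ℝ)) z).setIntegral_preimage_emb
    (measurableEmbedding_addRight z) mu {x : ℝ × ℝ | x - z ∈ Disc r}
  have e : (fun x => x + z) ⁻¹' {x : ℝ × ℝ | x - z ∈ Disc r} = Disc r := by
    ext y
    simp
  rw [e] at h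
  exact h.symm

/-! ### Boundedness -/

private theorem bstop_per {F : ℝ × ℝ → ℝ} (h : Per F) (m n : ℤ) (x : ℝ × ℝ) :
    F (x.1 + m, x.2 + n) = F x := by
  have h1 : ∀ (k : ℕ) (y : ℝ × ℝ), F (y.1 + k, y.2) = F y := by
    intro k
    induction k with
    | zero => intro y; simp
    | succ k ih =>
      intro y
      have := (h (y.1 + k, y.2)).1
      simp only at this
      push_cast
      rw [← add_assoc, this]
      exact ih y
  have h2 : ∀ (k : ℕ) (y : ℝ × ℝ), F (y.1, y.2 + k) = F y := by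
    intro k
    induction k with
    | zero => intro y; simp
    | succ k ih =>
      intro y
      have := (h (y.1, y.2 + k)).2
      simp only at this
      push_cast
      rw [← add_assoc, this]
      exact ih y
  have h3 : ∀ (k : ℤ) (y : ℝ × ℝ), F (y.1 + k, y.2) = F y := by
    intro k y
    obtain ⟨l, rfl | rfl⟩ := k.eq_nat_or_neg
    · exact_mod_cast h1 l y
    · have := h1 l (y.1 - l, y.2)
      simp only [sub_add_cancel] at this
      push_cast
      rw [← sub_eq_add_neg, ← this]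
  have h4 : ∀ (k : ℤ) (y : ℝ × ℝ), F (y.1, y.2 + k) = F y := by
    intro k y
    obtain ⟨l, rfl | rfl⟩ := k.eq_nat_or_neg
    · exact_mod_cast h2 l y
    · have := h2 l (y.1, y.2 - l)
      simp only [sub_add_cancel] at this
      push_cast
      rw [← sub_eq_add_neg, ← this]
  have h5 := h4 n (x.1 + m, x.2)
  simp only at h5
  exact h5.trans (h3 m x)

private theorem bstop_bdd {mu : ℝ × ℝ → ℝ} (hc : Continuous mu) (hp : Per mu) :
    ∃ B : ℝ, 0 < B ∧ ∀ x, mu x ≤ B := by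
  obtain ⟨B, hB⟩ := ((isCompact_Icc (a := (-1 / 2 : ℝ)) (b := 1 / 2)).prod
    (isCompact_Icc (a := (-1 / 2 : ℝ)) (b := 1 / 2))).exists_bound_of_continuousOn
    (f := mu) hc.continuousOn
  refine ⟨max B 1, by positivity, fun x => ?_⟩
  have h1 := abs_le.1 (abs_sub_round x.1)
  have h2 := abs_le.1 (abs_sub_round x.2)
  have h3 := hB (x.1 - round x.1, x.2 - round x.2)
    ⟨⟨by linarith [h1.1], h1.2⟩, ⟨by linarith [h2.1], h2.2⟩⟩
  have h4 := bstop_per hp (-round x.1) (-round x.2) x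
  push_cast at h4
  rw [← sub_eq_add_neg, ← sub_eq_add_neg] at h4
  rw [h4] at h3
  exact (le_abs_self _).trans (h3.trans (le_max_left _ _))

private theorem bstop_bm_le {mu : ℝ × ℝ → ℝ} (hc : Continuous mu) {B : ℝ}
    (hB : ∀ x, mu x ≤ B) (hB0 : 0 < B) (h0 : ∀ x, 0 ≤ mu x) (z : ℝ × ℝ) {r : ℝ} (hr : 0 < r) :
    bm mu z r ≤ B * (4 * r ^ 2) := by
  have hv := bstop_vol (0 : ℝ × ℝ) hr
  have e : {x : ℝ × ℝ | x - 0 ∈ Disc r} = Disc r := by
    ext y
    simp
  rw [e] at hv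
  have hfin : volume (Disc r) < ⊤ := by
    have hsub : Disc r ⊆ Ioo (-r) r ×ˢ Ioo (-r) r := by
      intro x hx
      exact ⟨abs_lt.1 ((bstop_fst_le x).trans_lt hx), abs_lt.1 ((bstop_snd_le x).trans_lt hx)⟩
    refine (measure_mono hsub).trans_lt ?_
    rw [Measure.volume_eq_prod, Measure.prod_prod, Real.volume_Ioo]
    exact ENNReal.mul_lt_top ENNReal.ofReal_lt_top ENNReal.ofReal_lt_top
  have h1 : ‖∫ y in Disc r, mu (z - y)‖ ≤ B * (volume (Disc r)).toReal := by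
    refine norm_setIntegral_le_of_norm_le_const hfin fun x _ => ?_
    rw [Real.norm_of_nonneg (h0 _)]
    exact hB _
  have h2 : bm mu z r ≤ B * (volume (Disc r)).toReal := (le_abs_self _).trans h1
  exact h2.trans (mul_le_mul_of_nonneg_left hv hB0.le)

/-! ### The stopping time -/

private theorem bstop_iter {mu : ℝ × ℝ → ℝ} (hc : Continuous mu) (hp : Per mu)
    (h0 : ∀ x, 0 ≤ mu x) {r1 : ℝ} (hr : 0 < r1) {z0 : ℝ × ℝ}
    (hz0 : 1 / 5 < bm mu z0 (r1 / 8)) :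
    ∃ (z : ℝ × ℝ) (q : ℝ), 0 < q ∧ q ≤ r1 / 8 ∧ tn (z - z0) ≤ r1 / 4 ∧ 1 / 5 < bm mu z q ∧
      ∀ x, x - z ∈ Disc q → bm mu x (q / 2) ≤ 1 / 5 := by
  obtain ⟨B, hB0, hB⟩ := bstop_bdd hc hp
  let P : ℕ → Prop := fun j => ∃ z : ℝ × ℝ, tn (z - z0) ≤ r1 / 4 * (1 - (1 / 2) ^ j) ∧
    1 / 5 < bm mu z ((1 / 2) ^ j * (r1 / 8))
  have hP0 : P 0 := by
    refine ⟨z0, ?_, ?_⟩
    · have : tn (z0 - z0) ≤ nrm (z0 - z0) := bstop_tn_nrm _
      simpa [nrm, nsq] using this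
    · simpa using hz0
  have hex : ∃ j, ¬ P j := by
    have hlim : Filter.Tendsto (fun j : ℕ => B * (4 * ((1 / 2 : ℝ) ^ j * (r1 / 8)) ^ 2))
        Filter.atTop (nhds (B * (4 * (0 * (r1 / 8)) ^ 2))) := by
      have h1 : Filter.Tendsto (fun j : ℕ => (1 / 2 : ℝ) ^ j) Filter.atTop (nhds 0) :=
        tendsto_pow_atTop_nhds_zero_of_lt_one (by norm_num) (by norm_num)
      exact (((h1.mul_const _).pow 2).const_mul 4).const_mul B
    have h2 : ∀ᶠ j : ℕ in Filter.atTop, B * (4 * ((1 / 2 : ℝ) ^ j * (r1 / 8)) ^ 2) < 1 / 5 :=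
      hlim.eventually_lt_const (by norm_num)
    obtain ⟨j, hj⟩ := h2.exists
    refine ⟨j, ?_⟩
    rintro ⟨z, _, hz⟩
    have h3 := bstop_bm_le hc hB hB0 h0 z (r := (1 / 2) ^ j * (r1 / 8)) (by positivity)
    linarith
  classical
  obtain ⟨j, hj, hj1⟩ : ∃ j, P j ∧ ¬ P (j + 1) := by
    by_contra hcon
    push Not at hcon
    obtain ⟨j, hj⟩ := hex
    apply hj
    clear hj
    induction j with
    | zero => exact hP0
    | succ j ih => exact hcon j ih
  obtain ⟨z, hz1, hz2⟩ := hj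
  have hpow : (0 : ℝ) < (1 / 2) ^ j := by positivity
  have hpow1 : ((1 : ℝ) / 2) ^ j ≤ 1 := pow_le_one₀ (by norm_num) (by norm_num)
  refine ⟨z, (1 / 2) ^ j * (r1 / 8), by positivity, by nlinarith, by nlinarith, hz2, ?_⟩
  intro x hx
  by_contra hcon
  push Not at hcon
  apply hj1
  refine ⟨x, ?_, ?_⟩
  · have h1 : tn (x - z0) ≤ tn (x - z) + tn (z - z0) := by
      have := bstop_tn_add (x - z) (z - z0)
      rwa [sub_add_sub_cancel] at this
    have h2 : tn (x - z) < (1 / 2) ^ j * (r1 / 8) := (bstop_tn_nrm _).trans_lt hx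
    rw [pow_succ]
    nlinarith
  · have e : ((1 : ℝ) / 2) ^ (j + 1) * (r1 / 8) = (1 / 2) ^ j * (r1 / 8) / 2 := by
      rw [pow_succ]
      ring
    rw [e]
    exact hcon

/-- L9.2: stopping time -/
theorem c2_stop {K R : ℝ × ℝ → ℝ} (hG : IsGreen K R) {rp : ℝ} (hrp : GoodRp K rp) {r1 : ℝ}
    (hr : 0 < r1) (hr' : r1 ≤ 1 / 32) :
    ∃ C : ℝ, 0 < C ∧ ∃ e : ℝ, 0 < e ∧ ∃ N0 : ℕ,
      ∀ (N : ℕ) (k kap : ℝ) (mu s : ℝ × ℝ → ℝ), N0 ≤ N → IsMF K N 0 k mu s → ¬ NoFar mu r1 →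
      (∀ x, r1 / 2 ≤ tn x → k * K (x - pt) ^ N ≤ kap) → 0 < kap → kap ≤ e →
      ∃ (z : ℝ × ℝ) (q : ℝ), 0 < q ∧ q ^ 2 ≤ C * kap ∧ 3 / 4 * r1 ≤ tn z ∧
        3 / 4 * rp ≤ tn (z - pt) ∧ 1 / 5 < ∫ x in Disc q, mu (x + z) := by
  obtain ⟨C0, hC0, hmass⟩ := dens_mass hG
  obtain ⟨N1, hN1⟩ := c2_p hG hrp
  refine ⟨340 * C0, by positivity, (rp / 4) ^ 2 / (340 * C0), ?_, max N1 3, ?_⟩
  · have := hrp.1
    positivity
  intro N k kap mu s hN hmf hnf hkap hk0 hke
  have hN3 : 3 ≤ N := (le_max_right _ _).trans hN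
  have hNN : N1 ≤ N := (le_max_left _ _).trans hN
  have hc : Continuous mu := hmf.smu.continuous
  unfold NoFar at hnf
  push Not at hnf
  obtain ⟨z0, hz0Q, hz0r, hz0⟩ := hnf
  obtain ⟨z, q, hq, hq8, hzz, hbm, hstop⟩ := bstop_iter hc hmf.pmu hmf.nn hr hz0
  have htz : 3 / 4 * r1 ≤ tn z := by
    have h1 : tn z0 ≤ tn (z0 - z) + tn z := by
      have := bstop_tn_add (z0 - z) z
      rwa [sub_add_cancel] at this
    have h2 : tn (z0 - z) ≤ tn (z - z0) := by
      have := bstop_tn_neg (z - z0)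
      rwa [neg_sub] at this
    have h3 := bstop_nrm_tn hz0Q
    linarith
  have hq2 : q ^ 2 ≤ 340 * C0 * kap := by
    have h1 := hmass N 0 k mu s hN3 hmf {x : ℝ × ℝ | x - z ∈ Disc q} z (q / 2) kap
      ((bstop_disc_open q).preimage (by fun_prop : Continuous fun x : ℝ × ℝ => x - z)).measurableSet
      (by
        intro x hx
        have h1 := abs_lt.1 ((bstop_fst_le (x - z)).trans_lt hx)
        have h2 := abs_lt.1 ((bstop_snd_le (x - z)).trans_lt hx)
        exact ⟨⟨by linarith [h1.1], by linarith [h1.2]⟩, ⟨by linarith [h2.1], by linarith [h2.2]⟩⟩)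
      (by positivity) (by linarith) hk0.le hstop
      (by
        intro x hx
        rw [add_zero]
        apply hkap
        have h1 : tn z ≤ tn (z - x) + tn x := by
          have := bstop_tn_add (z - x) x
          rwa [sub_add_cancel] at this
        have h2 : tn (z - x) ≤ tn (x - z) := by
          have := bstop_tn_neg (x - z)
          rwa [neg_sub] at this
        have h3 : tn (x - z) < q := (bstop_tn_nrm _).trans_lt hx
        linarith)
    rw [bstop_int, ← bm_eq hc] at h1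
    have hv := bstop_vol z hq
    have h2 : C0 * kap * (q / 2)⁻¹ ^ 4 * ((volume {x : ℝ × ℝ | x - z ∈ Disc q}).toReal +
        (q / 2) ^ 2) ≤ C0 * kap * (q / 2)⁻¹ ^ 4 * (4 * q ^ 2 + (q / 2) ^ 2) :=
      mul_le_mul_of_nonneg_left (by linarith) (by positivity)
    have h3 : C0 * kap * (q / 2)⁻¹ ^ 4 * (4 * q ^ 2 + (q / 2) ^ 2) = 68 * C0 * kap / q ^ 2 := by
      field_simp
      ring
    have h4 : 1 / 5 < 68 * C0 * kap / q ^ 2 := by linarith
    rw [lt_div_iff₀ (by positivity)] at h4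
    linarith
  refine ⟨z, q, hq, hq2, htz, ?_, ?_⟩
  · by_contra hcon
    push Not at hcon
    have hrp0 := hrp.1
    have hq4 : q ≤ rp / 4 := by
      have h1 : q ^ 2 ≤ (rp / 4) ^ 2 := by
        refine hq2.trans ?_
        rw [le_div_iff₀ (by positivity)] at hke
        linarith
      exact (pow_le_pow_iff_left₀ hq.le (by positivity) (by norm_num)).1 h1
    have h2 := bm_incl hc hmf.pmu hmf.nn (x := z) (z := pt) (r := q) (t := rp) hq
      (by linarith [hrp.2.1]) (by linarith)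
    have h3 := hN1 N k mu s hNN hmf
    linarith
  · rw [← bm_eq hc]
    exact hbm

end Pool.Agent.AO
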