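import Pool.Agent.Lib.MP_10e52e_an.Dens
import Pool.Agent.Lib.MP_10e52e_an.Bstop
import Pool.Agent.Lib.MP_10e52e_an.Blog

/-! MP_10e52e_an row Bconc: L9.4 -/

namespace Pool.Agent.AO

open MeasureTheory Set Real
open scoped ContDiff

theorem bconc_nrm_cont : Continuous nrm := by
  unfold nrm nsq
  fun_prop

theorem bconc_disc_meas (r : ℝ) : MeasurableSet (Disc r) :=
  (isOpen_lt bconc_nrm_cont continuous_const).measurableSet

theorem bconc_abs_le (x : ℝ × ℝ) : |x.1| ≤ nrm x ∧ |x.2| ≤ nrm x := by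
  unfold nrm nsq
  constructor
  · apply Real.abs_le_sqrt; nlinarith [sq_nonneg x.2]
  · apply Real.abs_le_sqrt; nlinarith [sq_nonneg x.1]

theorem bconc_disc_int {f : ℝ × ℝ → ℝ} (hf : Continuous f) (r : ℝ) : IntegrableOn f (Disc r) := by
  have h1 : IntegrableOn f (Metric.closedBall (0 : ℝ × ℝ) r) :=
    hf.continuousOn.integrableOn_compact (isCompact_closedBall _ _)
  refine h1.mono_set fun x hx => ?_
  have hx' : nrm x < r := hx
  obtain ⟨h2, h3⟩ := bconc_abs_le x
  rw [mem_closedBall_zero_iff, Prod.norm_def]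
  exact max_le (by rw [Real.norm_eq_abs]; linarith) (by rw [Real.norm_eq_abs]; linarith)

theorem bconc_Q_meas : MeasurableSet Q := measurableSet_Ioc.prod measurableSet_Ioc

theorem bconc_Q_int {f : ℝ × ℝ → ℝ} (hf : Continuous f) : IntegrableOn f Q := by
  have h1 : IntegrableOn f (Icc (-1 / 2 : ℝ) (1 / 2) ×ˢ Icc (-1 / 2 : ℝ) (1 / 2)) :=
    hf.continuousOn.integrableOn_compact (isCompact_Icc.prod isCompact_Icc)
  exact h1.mono_set (Set.prod_mono Ioc_subset_Icc_self Ioc_subset_Icc_self)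

theorem bconc_disc_sub_Q {r : ℝ} (hr : r ≤ 1 / 100) : Disc r ⊆ Q := by
  intro x hx
  have hx' : nrm x < r := hx
  obtain ⟨h2, h3⟩ := bconc_abs_le x
  rw [abs_le] at h2 h3
  refine ⟨⟨by linarith [h2.1], by linarith [h2.2]⟩, ⟨by linarith [h3.1], by linarith [h3.2]⟩⟩

/-- L9.4 -/
theorem c2_conc {K R : ℝ × ℝ → ℝ} (hG : IsGreen K R) {rp : ℝ} (hrp : GoodRp K rp) {r1 : ℝ}
    (hr : 0 < r1) (hr' : r1 ≤ 1 / 32) :
    ∃ C : ℝ, 1 ≤ C ∧ ∃ e : ℝ, 0 < e ∧ ∃ N0 : ℕ,
      ∀ (N : ℕ) (k kap : ℝ) (mu s : ℝ × ℝ → ℝ), N0 ≤ N → IsMF K N 0 k mu s → ¬ NoFar mu r1 →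
      (∀ x, r1 / 2 ≤ tn x → k * K (x - pt) ^ N ≤ kap) → 0 < kap → kap * N ^ 2 ≤ e →
      ∃ z : ℝ × ℝ, 3 / 4 * r1 ≤ tn z ∧ 3 / 4 * rp ≤ tn (z - pt) ∧
        9 / 10 ≤ ∫ x in Disc (C * Real.sqrt kap), mu (x + z) := by
  obtain ⟨C1, hC1, e1, he1, N1, h1⟩ := c2_stop hG hrp hr hr'
  obtain ⟨C2, hC2, h2⟩ := c2_log hG hrp
  have hrp0 : 0 < rp := hrp.1
  set L : ℝ := max 1 (20 * C2) with hL
  have hL1 : 1 ≤ L := le_max_left _ _
  have hL2 : 20 * C2 ≤ L := le_max_right _ _
  have hL0 : 0 < L := by linarith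
  have hCL : C2 / L ≤ 1 / 20 := by
    rw [div_le_div_iff₀ hL0 (by norm_num)]; linarith
  have hE : 0 < Real.exp L := Real.exp_pos L
  set D : ℝ := Real.exp L * Real.sqrt C1 with hD
  have hD0 : 0 < D := mul_pos hE (Real.sqrt_pos.2 hC1)
  set m : ℝ := min (min (1 / 100) (rp / 4)) (1 / (20 * C2)) with hm
  have hm0 : 0 < m := by
    rw [hm]; refine lt_min (lt_min (by norm_num) (by linarith)) (by positivity)
  have hm1 : m ≤ 1 / 100 := (min_le_left _ _).trans (min_le_left _ _)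
  have hm2 : m ≤ rp / 4 := (min_le_left _ _).trans (min_le_right _ _)
  have hm3 : m ≤ 1 / (20 * C2) := min_le_right _ _
  refine ⟨max 1 D, le_max_left _ _, min e1 ((m / D) ^ 2), lt_min he1 (by positivity), max N1 3, ?_⟩
  intro N k kap mu s hN hMF hfar hkap hkap0 hkN
  have hN1 : N1 ≤ N := (le_max_left _ _).trans hN
  have hN3 : 3 ≤ N := (le_max_right _ _).trans hN
  have hNr : (1 : ℝ) ≤ N := by
    have : 1 ≤ N := by omega
    exact_mod_cast this
  have hkN1 : kap * N ^ 2 ≤ e1 := hkN.trans (min_le_left _ _)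
  have hkN2 : kap * N ^ 2 ≤ (m / D) ^ 2 := hkN.trans (min_le_right _ _)
  have hke : kap ≤ e1 := by
    have : kap * 1 ≤ kap * N ^ 2 := mul_le_mul_of_nonneg_left (one_le_pow₀ hNr) hkap0.le
    linarith
  obtain ⟨z, q, hq0, hqk, hz1, hz2, hmass⟩ := h1 N k kap mu s hN1 hMF hfar hkap hkap0 hke
  -- the size of `q`
  have hsk : 0 < Real.sqrt kap := Real.sqrt_pos.2 hkap0
  have hq : q ≤ Real.sqrt C1 * Real.sqrt kap := by
    rw [← Real.sqrt_mul hC1.le]
    exact Real.le_sqrt_of_sq_le hqk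
  have hEq : Real.exp L * q ≤ D * Real.sqrt kap := by
    rw [hD, mul_assoc]; exact mul_le_mul_of_nonneg_left hq hE.le
  have hDN : D * Real.sqrt kap * N ≤ m := by
    have h3 : Real.sqrt kap * N ≤ m / D := by
      apply le_of_sq_le_sq _ (by positivity)
      rw [mul_pow, Real.sq_sqrt hkap0.le]
      exact hkN2
    rw [le_div_iff₀ hD0] at h3
    linarith
  have hDk : D * Real.sqrt kap ≤ m := by
    have : D * Real.sqrt kap * 1 ≤ D * Real.sqrt kap * N :=
      mul_le_mul_of_nonneg_left hNr (by positivity)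
    linarith
  have hMF' : IsMF K N z k (fun x => mu (x + z)) (fun x => s (x + z)) := by
    have := MF_shift hG hMF z
    rwa [zero_add] at this
  have hmass' := h2 N z k L q (fun x => mu (x + z)) (fun x => s (x + z)) hN3 hMF' hz2 hL1 hq0
    (by linarith) (by linarith) hmass.le
  have hbound : C2 / L + C2 * N * (Real.exp L * q) ≤ 1 / 10 := by
    have h4 : C2 * N * (Real.exp L * q) ≤ C2 * m := by
      have h5 : N * (Real.exp L * q) ≤ m := by
        have : (N : ℝ) * (Real.exp L * q) ≤ N * (D * Real.sqrt kap) :=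
          mul_le_mul_of_nonneg_left hEq (by linarith)
        linarith
      rw [mul_assoc]
      exact mul_le_mul_of_nonneg_left h5 hC2.le
    have h6 : C2 * m ≤ 1 / 20 := by
      calc C2 * m ≤ C2 * (1 / (20 * C2)) := mul_le_mul_of_nonneg_left hm3 hC2.le
        _ = 1 / 20 := by field_simp
    linarith
  refine ⟨z, hz1, hz2, ?_⟩
  have hcont : Continuous (fun x => mu (x + z)) := hMF'.smu.continuous
  have hTI : ∫ x in Q, mu (x + z) = 1 := hMF'.one
  have hsplit : (∫ x in Disc (Real.exp L * q), mu (x + z))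
      + (∫ x in Q \ Disc (Real.exp L * q), mu (x + z)) = 1 := by
    have hU : Disc (Real.exp L * q) ∪ (Q \ Disc (Real.exp L * q)) = Q :=
      Set.union_sdiff_cancel (bconc_disc_sub_Q (by linarith))
    have hun := setIntegral_union (μ := (volume : Measure (ℝ × ℝ))) (f := fun x => mu (x + z))
      (s := Disc (Real.exp L * q)) (t := Q \ Disc (Real.exp L * q)) disjoint_sdiff_right
      (bconc_Q_meas.diff (bconc_disc_meas _)) (bconc_disc_int hcont _)
      ((bconc_Q_int hcont).mono_set sdiff_subset)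
    rw [hU] at hun
    rw [← hun, hTI]
  have hmono : ∫ x in Disc (Real.exp L * q), mu (x + z)
      ≤ ∫ x in Disc (max 1 D * Real.sqrt kap), mu (x + z) := by
    refine setIntegral_mono_set (bconc_disc_int hcont _) ?_ ?_
    · exact Filter.Eventually.of_forall fun x => hMF'.nn x
    · refine LE.le.eventuallyLE fun x hx => ?_
      have hx' : nrm x < Real.exp L * q := hx
      show nrm x < max 1 D * Real.sqrt kap
      have : D * Real.sqrt kap ≤ max 1 D * Real.sqrt kap :=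
        mul_le_mul_of_nonneg_right (le_max_right _ _) hsk.le
      linarith
  linarith

end Pool.Agent.AO
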