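import Pool.Agent.Lib.MP_10e52e_an.Tools

/-! MP_10e52e_an row Bmom: dyadic sums -/

namespace Pool.Agent.AO

open MeasureTheory Set Real
open scoped ContDiff

theorem Bmom_nrm_cont : Continuous nrm := by
  unfold nrm nsq
  fun_prop

theorem Bmom_disc_meas (r : ℝ) : MeasurableSet (Disc r) :=
  (isOpen_lt Bmom_nrm_cont continuous_const).measurableSet

theorem Bmom_disc_sub (r : ℝ) : Disc r ⊆ Icc ((-r, -r) : ℝ × ℝ) (r, r) := by
  rintro ⟨x, y⟩ hx
  have hx' : Real.sqrt (x ^ 2 + y ^ 2) < r := hx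
  have h1 : |x| ≤ r := (Real.abs_le_sqrt (by nlinarith [sq_nonneg y])).trans hx'.le
  have h2 : |y| ≤ r := (Real.abs_le_sqrt (by nlinarith [sq_nonneg x])).trans hx'.le
  exact ⟨⟨(abs_le.1 h1).1, (abs_le.1 h2).1⟩, ⟨(abs_le.1 h1).2, (abs_le.1 h2).2⟩⟩

theorem Bmom_int {g : ℝ × ℝ → ℝ} (hg : Continuous g) (r : ℝ) : IntegrableOn g (Disc r) :=
  (hg.continuousOn.integrableOn_compact isCompact_Icc).mono_set (Bmom_disc_sub r)

/-- one step: `Disc (2 r) = Disc r ∪ ring` -/
theorem Bmom_step {g f : ℝ × ℝ → ℝ} (hg : Continuous g) (hf : Continuous f)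
    {r c m : ℝ} (hr : 0 ≤ r) (hc : 0 ≤ c)
    (hgf : ∀ x, nrm x < 2 * r → g x ≤ c * f x) (hm : ∫ x in Disc (2 * r) \ Disc r, f x ≤ m) :
    ∫ x in Disc (2 * r), g x ≤ (∫ x in Disc r, g x) + c * m := by
  have hsub : Disc r ⊆ Disc (2 * r) := fun x hx => by
    have : nrm x < r := hx
    show nrm x < 2 * r
    linarith
  have e : ∫ x in Disc (2 * r), g x = (∫ x in Disc r, g x) + ∫ x in Disc (2 * r) \ Disc r, g x := by
    rw [← setIntegral_union disjoint_sdiff_right ((Bmom_disc_meas _).diff (Bmom_disc_meas _))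
      (Bmom_int hg r) ((Bmom_int hg (2 * r)).mono_set sdiff_subset), union_sdiff_cancel hsub]
  rw [e]
  have : ∫ x in Disc (2 * r) \ Disc r, g x ≤ ∫ x in Disc (2 * r) \ Disc r, c * f x := by
    refine setIntegral_mono_on ((Bmom_int hg (2 * r)).mono_set sdiff_subset)
      ((Bmom_int (continuous_const.mul hf) (2 * r)).mono_set sdiff_subset)
      ((Bmom_disc_meas _).diff (Bmom_disc_meas _)) fun x hx => hgf x hx.1
  rw [integral_const_mul] at this
  nlinarith [mul_le_mul_of_nonneg_left hm hc]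

theorem Bmom_base {g f : ℝ × ℝ → ℝ} (hg : Continuous g) (hf : Continuous f)
    {r c : ℝ} (hc : 0 ≤ c)
    (hgf : ∀ x, nrm x < r → g x ≤ c * f x) (hm : ∫ x in Disc r, f x ≤ 1) :
    ∫ x in Disc r, g x ≤ c := by
  have : ∫ x in Disc r, g x ≤ ∫ x in Disc r, c * f x :=
    setIntegral_mono_on (Bmom_int hg r) (Bmom_int (continuous_const.mul hf) r)
      (Bmom_disc_meas _) fun x hx => hgf x hx
  rw [integral_const_mul] at this
  nlinarith [mul_le_mul_of_nonneg_left hm hc]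

/-- dyadic summation of ring bounds -/
theorem ring_moments {f : ℝ × ℝ → ℝ} (hf : Continuous f) (nn : ∀ x, 0 ≤ f x) {a b M : ℝ}
    (ha : 0 < a) (hab : 2 * a ≤ b) (hM : 0 ≤ M) (h1 : ∫ x in Disc (2 * a), f x ≤ 1)
    (h : ∀ r, 2 * a ≤ r → r ≤ b → ∫ x in Disc (2 * r) \ Disc r, f x ≤ M * r⁻¹ ^ 2) :
    ∫ x in Disc b, nrm x * f x ≤ 2 * a + 4 * M / a ∧
    ∫ x in Disc b, nrm x ^ 3 * f x ≤ 8 * a ^ 3 + 32 * M * b := by
  have hn0 : ∀ x, 0 ≤ nrm x := fun x => Real.sqrt_nonneg _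
  have c1 : Continuous fun x => nrm x * f x := Bmom_nrm_cont.mul hf
  have c3 : Continuous fun x => nrm x ^ 3 * f x := (Bmom_nrm_cont.pow 3).mul hf
  have key : ∀ j : ℕ, 2 ^ j * a ≤ b →
      ∫ x in Disc (2 ^ j * (2 * a)), nrm x * f x ≤ 2 * a + M / a * (2 - 2 / 2 ^ j) ∧
      ∫ x in Disc (2 ^ j * (2 * a)), nrm x ^ 3 * f x ≤ 8 * a ^ 3 + 16 * M * a * (2 ^ j - 1) := by
    intro j
    induction j with
    | zero =>
      intro _
      simp only [pow_zero, one_mul, div_one, sub_self, mul_zero, add_zero]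
      refine ⟨Bmom_base c1 hf (by positivity) (fun x hx => ?_) h1, ?_⟩
      · exact mul_le_mul_of_nonneg_right hx.le (nn x)
      · refine Bmom_base c3 hf (by positivity) (fun x hx => ?_) h1
        refine mul_le_mul_of_nonneg_right ?_ (nn x)
        calc nrm x ^ 3 ≤ (2 * a) ^ 3 := pow_le_pow_left₀ (hn0 x) hx.le 3
          _ = 8 * a ^ 3 := by ring
    | succ j ih =>
      intro hj
      have h2 : (0 : ℝ) < 2 ^ j := by positivity
      have h21 : (1 : ℝ) ≤ 2 ^ j := one_le_pow₀ (by norm_num)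
      have hj' : 2 ^ j * (2 * a) ≤ b := by
        calc (2 : ℝ) ^ j * (2 * a) = 2 ^ (j + 1) * a := by ring
          _ ≤ b := hj
      obtain ⟨i1, i3⟩ := ih (by nlinarith)
      set r := (2 : ℝ) ^ j * (2 * a) with hr
      have hr0 : 0 < r := by positivity
      have e : (2 : ℝ) ^ (j + 1) * (2 * a) = 2 * r := by rw [hr]; ring
      have hm := h r (by rw [hr]; nlinarith) hj'
      rw [e]
      constructor
      · refine (Bmom_step (c := 2 * r) c1 hf hr0.le (by positivity) (fun x hx => ?_) hm).trans ?_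
        · exact mul_le_mul_of_nonneg_right hx.le (nn x)
        · have e1 : 2 * r * (M * r⁻¹ ^ 2) = M / a * (1 / 2 ^ j) := by
            rw [hr]; field_simp
          have e2 : M / a * (2 - 2 / 2 ^ (j + 1)) = M / a * (2 - 2 / 2 ^ j) + M / a * (1 / 2 ^ j) := by
            field_simp; ring
          rw [e1, e2]
          linarith
      · refine (Bmom_step (c := (2 * r) ^ 3) c3 hf hr0.le (by positivity) (fun x hx => ?_) hm).trans ?_
        · exact mul_le_mul_of_nonneg_right (pow_le_pow_left₀ (hn0 x) hx.le 3) (nn x)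
        · have e1 : (2 * r) ^ 3 * (M * r⁻¹ ^ 2) = 16 * M * a * 2 ^ j := by
            field_simp
            rw [hr]; ring
          rw [e1]
          have e2 : (2 : ℝ) ^ (j + 1) = 2 * 2 ^ j := by ring
          rw [e2]
          nlinarith [mul_nonneg hM ha.le]
  obtain ⟨j, hj1, hj2⟩ := exists_nat_pow_near (x := b / a) (y := (2 : ℝ))
    (by rw [le_div_iff₀ ha]; linarith) (by norm_num)
  rw [le_div_iff₀ ha] at hj1
  rw [div_lt_iff₀ ha] at hj2
  obtain ⟨k1, k3⟩ := key j hj1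
  have hsub : Disc b ⊆ Disc (2 ^ j * (2 * a)) := fun x hx => by
    have h0 : nrm x < b := hx
    show nrm x < 2 ^ j * (2 * a)
    have : (2 : ℝ) ^ (j + 1) * a = 2 ^ j * (2 * a) := by ring
    linarith
  have m1 : ∫ x in Disc b, nrm x * f x ≤ ∫ x in Disc (2 ^ j * (2 * a)), nrm x * f x :=
    setIntegral_mono_set (Bmom_int c1 _) (ae_of_all _ fun x => mul_nonneg (hn0 x) (nn x))
      (ae_of_all _ hsub)
  have m3 : ∫ x in Disc b, nrm x ^ 3 * f x ≤ ∫ x in Disc (2 ^ j * (2 * a)), nrm x ^ 3 * f x :=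
    setIntegral_mono_set (Bmom_int c3 _)
      (ae_of_all _ fun x => mul_nonneg (pow_nonneg (hn0 x) 3) (nn x)) (ae_of_all _ hsub)
  have hMa : 0 ≤ M / a := by positivity
  have h2 : (0 : ℝ) < 2 / 2 ^ j := by positivity
  constructor
  · have e4 : 4 * M / a = 4 * (M / a) := by ring
    rw [e4]
    nlinarith [mul_nonneg hMa h2.le]
  · have : 16 * M * a * (2 ^ j - 1) ≤ 16 * M * b := by
      nlinarith [mul_le_mul_of_nonneg_left hj1 hM, mul_nonneg hM ha.le]
    have : 0 ≤ M * b := mul_nonneg hM (by linarith)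
    linarith

end Pool.Agent.AO
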