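import Pool.Agent.Lib.MP_10e52e_an.Dens
import Pool.Agent.Lib.MP_10e52e_an.Bbm

/-! MP_10e52e_an row Bring: L9.5 -/

namespace Pool.Agent.AO

open MeasureTheory Set Real
open scoped ContDiff

private theorem bring_cont : Continuous nrm := by
  unfold nrm nsq
  fun_prop

private theorem bring_meas (r : ℝ) : MeasurableSet (Disc r) :=
  (isOpen_lt bring_cont continuous_const).measurableSet

private theorem bring_nn (x : ℝ × ℝ) : 0 ≤ nrm x := Real.sqrt_nonneg _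

private theorem bring_tri (x y : ℝ × ℝ) : nrm x ≤ nrm (x - y) + nrm y := by
  have h1 := bring_nn (x - y)
  have h2 := bring_nn y
  have e1 : nrm (x - y) ^ 2 = (x.1 - y.1) ^ 2 + (x.2 - y.2) ^ 2 := by
    unfold nrm nsq
    rw [Real.sq_sqrt (by positivity)]
    simp
  have e2 : nrm y ^ 2 = y.1 ^ 2 + y.2 ^ 2 := by
    unfold nrm nsq
    rw [Real.sq_sqrt (by positivity)]
  have h3 : (x.1 - y.1) * y.1 + (x.2 - y.2) * y.2 ≤ nrm (x - y) * nrm y := by
    refine le_of_sq_le_sq ?_ (by positivity)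
    rw [mul_pow, e1, e2]
    nlinarith [sq_nonneg ((x.1 - y.1) * y.2 - (x.2 - y.2) * y.1)]
  conv_lhs => unfold nrm nsq
  refine Real.sqrt_le_iff.mpr ⟨by positivity, ?_⟩
  nlinarith

private theorem bring_abs (x : ℝ × ℝ) : |x.1| ≤ nrm x ∧ |x.2| ≤ nrm x := by
  unfold nrm nsq
  constructor
  · refine Real.abs_le_sqrt (by nlinarith [sq_nonneg x.2])
  · refine Real.abs_le_sqrt (by nlinarith [sq_nonneg x.1])

private theorem bring_Q {x : ℝ × ℝ} (h : nrm x < 1 / 2) : x ∈ Q := by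
  obtain ⟨h1, h2⟩ := bring_abs x
  have h3 := abs_lt.mp (h1.trans_lt h)
  have h4 := abs_lt.mp (h2.trans_lt h)
  refine ⟨⟨?_, ?_⟩, ⟨?_, ?_⟩⟩ <;> linarith

private theorem bring_int {mu : ℝ × ℝ → ℝ} (h : Continuous mu) {S : Set (ℝ × ℝ)}
    (hS : S ⊆ Icc (-1 : ℝ) 1 ×ˢ Icc (-1 : ℝ) 1) : IntegrableOn mu S := by
  have hc : IsCompact (Icc (-1 : ℝ) 1 ×ˢ Icc (-1 : ℝ) 1) := isCompact_Icc.prod isCompact_Icc
  exact (h.continuousOn.integrableOn_compact hc).mono_set hS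

private theorem bring_Qsub : Q ⊆ Icc (-1 : ℝ) 1 ×ˢ Icc (-1 : ℝ) 1 := by
  rintro x ⟨⟨h1, h2⟩, ⟨h3, h4⟩⟩
  refine ⟨⟨?_, ?_⟩, ⟨?_, ?_⟩⟩ <;> linarith

private theorem bring_vol {t : ℝ} (ht : 0 < t) :
    (volume (Disc t)).toReal ≤ 4 * t ^ 2 ∧ volume (Disc t) ≠ ⊤ := by
  have hsub : Disc t ⊆ Ioo (-t) t ×ˢ Ioo (-t) t := by
    intro x hx
    obtain ⟨h1, h2⟩ := bring_abs x
    have hx' : nrm x < t := hx
    exact ⟨abs_lt.mp (h1.trans_lt hx'), abs_lt.mp (h2.trans_lt hx')⟩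
  have hv : volume (Ioo (-t) t ×ˢ Ioo (-t) t) = ENNReal.ofReal (4 * t ^ 2) := by
    rw [Measure.volume_eq_prod, Measure.prod_prod, Real.volume_Ioo,
      ← ENNReal.ofReal_mul (by linarith)]
    congr 1
    ring
  have hle := measure_mono (μ := volume) hsub
  rw [hv] at hle
  have hfin : volume (Disc t) ≠ ⊤ := ne_top_of_le_ne_top ENNReal.ofReal_ne_top hle
  refine ⟨?_, hfin⟩
  have := ENNReal.toReal_mono ENNReal.ofReal_ne_top hle
  rwa [ENNReal.toReal_ofReal (by positivity)] at this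

private theorem bring_bm {mu : ℝ × ℝ → ℝ} (hc : Continuous mu) (nn : ∀ x, 0 ≤ mu x)
    (one : TI mu = 1) {a r : ℝ} (ha : 0 < a) (har : 2 * a ≤ r) (hr : r ≤ 1 / 8)
    (h9 : 9 / 10 ≤ ∫ x in Disc a, mu x) {x : ℝ × ℝ} (hx : r ≤ nrm x) (hx2 : nrm x < 2 * r) :
    bm mu x (r / 2) ≤ 1 / 5 := by
  have hchg : bm mu x (r / 2) = ∫ w in (fun w => x - w) ⁻¹' (Disc (r / 2)), mu w := by
    unfold bm
    rw [← integral_indicator (bring_meas _),
      ← integral_indicator ((bring_meas _).preimage (by fun_prop)),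
      ← integral_sub_left_eq_self _ (μ := volume) x]
    refine integral_congr_ae (Filter.Eventually.of_forall fun y => ?_)
    simp only [Set.indicator, mem_preimage, sub_sub_cancel]
    rfl
  rw [hchg]
  have hsubQ : Disc a ⊆ Q := fun y hy => bring_Q (by
    have : nrm y < a := hy
    linarith)
  have hsub : (fun w => x - w) ⁻¹' (Disc (r / 2)) ⊆ Q \ Disc a := by
    intro w hw
    have hw' : nrm (x - w) < r / 2 := hw
    have ht := bring_tri x w
    have ht2 := bring_tri w x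
    have hsymm : nrm (w - x) = nrm (x - w) := by
      unfold nrm nsq
      congr 1
      simp only [Prod.fst_sub, Prod.snd_sub]
      ring
    rw [hsymm] at ht2
    refine ⟨bring_Q (by linarith), fun hwa => ?_⟩
    have hwa' : nrm w < a := hwa
    linarith
  have hQ : IntegrableOn mu Q := bring_int hc bring_Qsub
  have h1 : ∫ w in (fun w => x - w) ⁻¹' (Disc (r / 2)), mu w ≤ ∫ w in Q \ Disc a, mu w :=
    setIntegral_mono_set (hQ.mono_set sdiff_subset)
      (Filter.Eventually.of_forall fun y => nn y) hsub.eventuallyLE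
  have h2 : ∫ w in Q \ Disc a, mu w = (∫ w in Q, mu w) - ∫ w in Disc a, mu w :=
    setIntegral_sdiff (bring_meas _) hQ hsubQ
  have h3 : ∫ w in Q, mu w = 1 := one
  linarith

/-- L9.5: rings, in coordinates relative to `z` -/
theorem c2_ring {K R : ℝ × ℝ → ℝ} (hG : IsGreen K R) : ∃ C : ℝ, 0 < C ∧
    ∀ (N : ℕ) (z : ℝ × ℝ) (k kap a r : ℝ) (mu s : ℝ × ℝ → ℝ), 3 ≤ N → IsMF K N z k mu s →
      0 < a → 2 * a ≤ r → r ≤ 1 / 8 → 9 / 10 ≤ ∫ x in Disc a, mu x →
      (∀ x, nrm x ≤ 2 * r → k * K (x + z - pt) ^ N ≤ kap) →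
      ∫ x in Disc (2 * r) \ Disc r, mu x ≤ C * kap * r⁻¹ ^ 2 := by
  obtain ⟨C, hC, h⟩ := dens_mass hG
  refine ⟨260 * C, by positivity, ?_⟩
  intro N z k kap a r mu s hN hmf ha har hr h9 hkap
  have hr0 : 0 < r := by linarith
  have hkap0 : 0 ≤ kap := by
    refine le_trans ?_ (hkap 0 ?_)
    · exact mul_nonneg hmf.kpos.le (pow_nonneg (hG.nonneg _) _)
    · have : nrm (0 : ℝ × ℝ) = 0 := by
        unfold nrm nsq
        simp
      rw [this]
      linarith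
  have hmem : ∀ x ∈ Disc (2 * r) \ Disc r, r ≤ nrm x ∧ nrm x < 2 * r := by
    rintro x ⟨h1, h2⟩
    exact ⟨not_lt.mp h2, h1⟩
  have hmain := h N z k mu s hN hmf (Disc (2 * r) \ Disc r) 0 (r / 2) kap
    ((bring_meas _).diff (bring_meas _))
    (fun x hx => by
      rw [sub_zero]
      exact bring_Q (by linarith [(hmem x hx).2]))
    (by linarith) (by linarith) hkap0
    (fun x hx => bring_bm hmf.smu.continuous hmf.nn hmf.one ha har hr h9 (hmem x hx).1
      (hmem x hx).2)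
    (fun x hx => hkap x (hmem x hx).2.le)
  refine hmain.trans ?_
  obtain ⟨hv, hvfin⟩ := bring_vol (t := 2 * r) (by linarith)
  have hvS : (volume (Disc (2 * r) \ Disc r)).toReal ≤ 4 * (2 * r) ^ 2 :=
    (ENNReal.toReal_mono hvfin (measure_mono sdiff_subset)).trans hv
  have hCk : 0 ≤ C * kap * (r / 2)⁻¹ ^ 4 := by positivity
  calc C * kap * (r / 2)⁻¹ ^ 4 * ((volume (Disc (2 * r) \ Disc r)).toReal + (r / 2) ^ 2)
      ≤ C * kap * (r / 2)⁻¹ ^ 4 * (4 * (2 * r) ^ 2 + (r / 2) ^ 2) := by gcongr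
    _ = 260 * C * kap * r⁻¹ ^ 2 := by
        field_simp
        ring

end Pool.Agent.AO
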