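import Pool.Agent.Lib.MP_10e52e_an.Dens
import Pool.Agent.Lib.MP_10e52e_an.Bconc
import Pool.Agent.Lib.MP_10e52e_an.Bring
import Pool.Agent.Lib.MP_10e52e_an.Bmom

/-! MP_10e52e_an row Bcen: L9.6 -/

namespace Pool.Agent.AO

open MeasureTheory Set Real
open scoped ContDiff

lemma bcen_nrm_eq (x : ℝ × ℝ) : nrm x = ‖(⟨x.1, x.2⟩ : ℂ)‖ := by
  rw [Complex.norm_eq_sqrt_sq_add_sq]
  rfl

lemma bcen_nrm_nonneg (x : ℝ × ℝ) : 0 ≤ nrm x := Real.sqrt_nonneg _

lemma bcen_nrm_sub_le (x y : ℝ × ℝ) : nrm (x - y) ≤ nrm x + nrm y := by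
  rw [bcen_nrm_eq, bcen_nrm_eq, bcen_nrm_eq]
  have : (⟨(x - y).1, (x - y).2⟩ : ℂ) = ⟨x.1, x.2⟩ - ⟨y.1, y.2⟩ := by
    apply Complex.ext <;> simp
  rw [this]
  exact norm_sub_le _ _

lemma bcen_nrm_neg (x : ℝ × ℝ) : nrm (-x) = nrm x := by
  unfold nrm nsq
  simp

lemma bcen_nrm_add_le (x y : ℝ × ℝ) : nrm (x + y) ≤ nrm x + nrm y := by
  have := bcen_nrm_sub_le x (-y)
  rwa [sub_neg_eq_add, bcen_nrm_neg] at this

lemma bcen_fst_le (x : ℝ × ℝ) : |x.1| ≤ nrm x :=
  Real.abs_le_sqrt (by unfold nsq; nlinarith [sq_nonneg x.2])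

lemma bcen_snd_le (x : ℝ × ℝ) : |x.2| ≤ nrm x :=
  Real.abs_le_sqrt (by unfold nsq; nlinarith [sq_nonneg x.1])

lemma bcen_nrm_le (x : ℝ × ℝ) : nrm x ≤ |x.1| + |x.2| := by
  unfold nrm
  rw [← Real.sqrt_sq (by positivity : 0 ≤ |x.1| + |x.2|)]
  apply Real.sqrt_le_sqrt
  unfold nsq
  rw [← sq_abs x.1, ← sq_abs x.2]
  nlinarith [mul_nonneg (abs_nonneg x.1) (abs_nonneg x.2)]

lemma bcen_nrm_cont : Continuous nrm := by
  unfold nrm nsq
  fun_prop

lemma bcen_tn_le (x : ℝ × ℝ) (m n : ℤ) : tn x ≤ nrm (x.1 - m, x.2 - n) := by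
  unfold tn nrm nsq
  apply Real.sqrt_le_sqrt
  have h1 := round_le x.1 m
  have h2 := round_le x.2 n
  have e1 : (x.1 - round x.1) ^ 2 ≤ (x.1 - m) ^ 2 := sq_le_sq.2 h1
  have e2 : (x.2 - round x.2) ^ 2 ≤ (x.2 - n) ^ 2 := sq_le_sq.2 h2
  exact add_le_add e1 e2

lemma bcen_tn_add (x y : ℝ × ℝ) : tn x ≤ tn (x + y) + nrm y := by
  have h := bcen_tn_le x (round (x + y).1) (round (x + y).2)
  have e : ((x.1 - (round (x + y).1 : ℤ), x.2 - (round (x + y).2 : ℤ)) : ℝ × ℝ) =
      ((x + y).1 - round (x + y).1, (x + y).2 - round (x + y).2) - y := by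
    ext <;> simp <;> ring
  rw [e] at h
  exact h.trans (bcen_nrm_sub_le _ _)

lemma bcen_disc_meas (r : ℝ) : MeasurableSet (Disc r) :=
  (isOpen_lt bcen_nrm_cont continuous_const).measurableSet

lemma bcen_disc_sub (r : ℝ) : Disc r ⊆ Metric.closedBall (0 : ℝ × ℝ) r := by
  intro x hx
  have hx' : nrm x < r := hx
  rw [mem_closedBall_zero_iff, Prod.norm_def, Real.norm_eq_abs, Real.norm_eq_abs]
  exact max_le ((bcen_fst_le x).trans hx'.le) ((bcen_snd_le x).trans hx'.le)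

lemma bcen_int {f : ℝ × ℝ → ℝ} (hf : Continuous f) {S : Set (ℝ × ℝ)} {r : ℝ}
    (hS : S ⊆ Metric.closedBall (0 : ℝ × ℝ) r) : IntegrableOn f S :=
  (hf.continuousOn.integrableOn_compact (isCompact_closedBall _ _)).mono_set hS

/-- the disc about `w` -/
def bcenS (w : ℝ × ℝ) (r : ℝ) : Set (ℝ × ℝ) := {y | nrm (y - w) < r}

lemma bcenS_meas (w : ℝ × ℝ) (r : ℝ) : MeasurableSet (bcenS w r) :=
  (isOpen_lt (bcen_nrm_cont.comp (continuous_id.sub continuous_const))
    continuous_const).measurableSet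

lemma bcen_change (F : ℝ × ℝ → ℝ) (w : ℝ × ℝ) (r : ℝ) :
    ∫ x in Disc r, F (x + w) = ∫ y in bcenS w r, F y := by
  have h := (measurePreserving_add_right (volume : Measure (ℝ × ℝ)) w).setIntegral_preimage_emb
    (measurableEmbedding_addRight w) F (bcenS w r)
  rw [← h]
  congr 1
  congr 1
  ext x
  simp [bcenS, Disc]

lemma bcen_change' (F : ℝ × ℝ → ℝ) (w : ℝ × ℝ) (r r' : ℝ) :
    ∫ x in Disc r' \ Disc r, F (x + w) = ∫ y in bcenS w r' \ bcenS w r, F y := by
  have h := (measurePreserving_add_right (volume : Measure (ℝ × ℝ)) w).setIntegral_preimage_emb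
    (measurableEmbedding_addRight w) F (bcenS w r' \ bcenS w r)
  rw [← h]
  congr 1
  congr 1
  ext x
  simp [bcenS, Disc]

lemma bcenS_sub {w : ℝ × ℝ} {r b : ℝ} (h : r + nrm w ≤ b) : bcenS w r ⊆ Disc b := by
  intro y hy
  have hy' : nrm (y - w) < r := hy
  have := bcen_nrm_add_le (y - w) w
  rw [sub_add_cancel] at this
  exact (show nrm y < b by linarith)

lemma bcen_sub_S {w : ℝ × ℝ} {r a : ℝ} (h : a + nrm w ≤ r) : Disc a ⊆ bcenS w r := by
  intro y hy
  have hy' : nrm y < a := hy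
  have := bcen_nrm_sub_le y w
  exact (show nrm (y - w) < r by linarith)

lemma bcen_rings {nu : ℝ × ℝ → ℝ} (hc : Continuous nu) {c M : ℝ} (hcp : 0 < c)
    (h : ∀ r, c ≤ r → r ≤ 8 * c → ∫ x in Disc (2 * r) \ Disc r, nu x ≤ M * r⁻¹ ^ 2) (hM : 0 ≤ M) :
    ∫ x in Disc (8 * c) \ Disc c, nu x ≤ 3 * M * c⁻¹ ^ 2 := by
  have mono : ∀ {r r' : ℝ}, r ≤ r' → Disc r ⊆ Disc r' := fun h x hx => lt_of_lt_of_le hx h
  have split : ∀ r : ℝ, c ≤ r → ∫ x in Disc (2 * r) \ Disc c, nu x =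
      (∫ x in Disc (2 * r) \ Disc r, nu x) + ∫ x in Disc r \ Disc c, nu x := by
    intro r hr
    rw [← setIntegral_union]
    · congr 2
      ext x
      constructor
      · rintro ⟨h1, h2⟩
        by_cases h3 : x ∈ Disc r
        · exact Or.inr ⟨h3, h2⟩
        · exact Or.inl ⟨h1, h3⟩
      · rintro (⟨h1, h2⟩ | ⟨h1, h2⟩)
        · exact ⟨h1, fun h3 => h2 (mono hr h3)⟩
        · exact ⟨mono (by linarith) h1, h2⟩
    · rw [Set.disjoint_left]
      rintro x ⟨_, h2⟩ ⟨h3, _⟩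
      exact h2 h3
    · exact (bcen_disc_meas _).diff (bcen_disc_meas _)
    · exact bcen_int hc (sdiff_subset.trans (bcen_disc_sub _))
    · exact bcen_int hc (sdiff_subset.trans (bcen_disc_sub _))
  have inv : ∀ r : ℝ, c ≤ r → M * r⁻¹ ^ 2 ≤ M * c⁻¹ ^ 2 := by
    intro r hr
    have : r⁻¹ ≤ c⁻¹ := inv_anti₀ hcp hr
    have h0 : 0 ≤ r⁻¹ := inv_nonneg.2 (hcp.le.trans hr)
    exact mul_le_mul_of_nonneg_left (pow_le_pow_left₀ h0 this 2) hM
  have s1 := split (4 * c) (by linarith)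
  have s2 := split (2 * c) (by linarith)
  have s3 := split c le_rfl
  have h1 := (h (4 * c) (by linarith) (by linarith)).trans (inv _ (by linarith))
  have h2 := (h (2 * c) (by linarith) (by linarith)).trans (inv _ (by linarith))
  have h3 := h c le_rfl (by linarith)
  have e4 : 2 * (4 * c) = 8 * c := by ring
  have e2 : 2 * (2 * c) = 4 * c := by ring
  rw [e4] at s1 h1
  rw [e2] at s2 h2
  have z : ∫ x in Disc c \ Disc c, nu x = 0 := by simp
  rw [z] at s3
  rw [s1, s2, s3]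
  linarith

/-- the recentring step, in coordinates relative to the concentration point -/
lemma bcen_core {nu : ℝ × ℝ → ℝ} (hc : Continuous nu) (nn : ∀ x, 0 ≤ nu x) {r3 D M kap a : ℝ}
    (hr3 : 0 < r3) (hr3' : r3 ≤ 1 / 64) (hD : 0 < D) (hM : 0 < M) (hk : 0 < kap) (hk1 : kap ≤ 1)
    (ha : a ≤ r3 / 4) (h9 : 9 / 10 ≤ ∫ x in Disc a, nu x)
    (hb1 : ∫ x in Disc (4 * r3), nu x ≤ 1)
    (hm1 : ∫ x in Disc (4 * r3), nrm x * nu x ≤ D * Real.sqrt kap)
    (hm3 : ∫ x in Disc (4 * r3), nrm x ^ 3 * nu x ≤ D * kap)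
    (hrg : ∫ x in Disc (4 * r3) \ Disc (r3 / 2), nu x ≤ M * kap)
    (hsm : 3 * D * Real.sqrt kap ≤ r3 / 2) :
    ∃ w : ℝ × ℝ, nrm w ≤ r3 / 2 ∧
      9 / 10 ≤ (∫ x in Disc r3, nu (x + w)) ∧
      (∫ x in Disc r3, nrm x * nu (x + w) ≤ 4 * D * Real.sqrt kap) ∧
      (∫ x in Disc r3, nrm x ^ 3 * nu (x + w) ≤ 4 * (D + (3 * D) ^ 3) * kap) ∧
      |∫ x in Disc r3, x.1 * nu (x + w)| ≤ M * kap ∧
      |∫ x in Disc r3, x.2 * nu (x + w)| ≤ M * kap ∧
      ∫ x in Disc (2 * r3) \ Disc r3, nu (x + w) ≤ M * kap := by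
  have mono : ∀ {r r' : ℝ}, r ≤ r' → Disc r ⊆ Disc r' := fun h x hx => lt_of_lt_of_le hx h
  set b : ℝ := 4 * r3 with hb
  have hbp : 0 < b := by positivity
  have iB : ∀ {F : ℝ × ℝ → ℝ}, Continuous F → ∀ {S : Set (ℝ × ℝ)}, S ⊆ Disc b →
      IntegrableOn F S := fun hF S hS => bcen_int hF (hS.trans (bcen_disc_sub _))
  set m : ℝ := ∫ x in Disc b, nu x with hm
  have hm9 : 9 / 10 ≤ m := by
    refine h9.trans (setIntegral_mono_set (iB hc subset_rfl)
      (Filter.Eventually.of_forall fun x => nn x) ?_)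
    exact (mono (by linarith)).eventuallyLE
  have hmpos : 0 < m := by linarith
  have c1 : Continuous fun x : ℝ × ℝ => x.1 * nu x := continuous_fst.mul hc
  have c2 : Continuous fun x : ℝ × ℝ => x.2 * nu x := continuous_snd.mul hc
  have cn : Continuous fun x : ℝ × ℝ => nrm x * nu x := bcen_nrm_cont.mul hc
  have cn3 : Continuous fun x : ℝ × ℝ => nrm x ^ 3 * nu x := (bcen_nrm_cont.pow 3).mul hc
  set w1 : ℝ := (∫ x in Disc b, x.1 * nu x) / m with hw1
  set w2 : ℝ := (∫ x in Disc b, x.2 * nu x) / m with hw2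
  set sq : ℝ := Real.sqrt kap with hsq
  have hsq0 : 0 < sq := Real.sqrt_pos.2 hk
  have hsqsq : sq ^ 2 = kap := Real.sq_sqrt hk.le
  have hsq1 : sq ≤ 1 := Real.sqrt_le_iff.2 ⟨zero_le_one, by rw [one_pow]; exact hk1⟩
  have comp : ∀ g : ℝ × ℝ → ℝ, Continuous g → (∀ x, |g x| ≤ nrm x) →
      |∫ x in Disc b, g x * nu x| ≤ D * sq := by
    intro g hg hgn
    refine (norm_integral_le_integral_norm (μ := volume.restrict (Disc b))
      (fun x => g x * nu x)).trans (le_trans ?_ hm1)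
    refine setIntegral_mono_on (iB (hg.mul hc).norm subset_rfl) (iB cn subset_rfl)
      (bcen_disc_meas _) ?_
    intro x _
    rw [norm_mul, Real.norm_eq_abs, Real.norm_eq_abs, abs_of_nonneg (nn x)]
    exact mul_le_mul_of_nonneg_right (hgn x) (nn x)
  have hw1b : |w1| ≤ 3 / 2 * (D * sq) := by
    rw [hw1, abs_div, abs_of_pos hmpos, div_le_iff₀ hmpos]
    have := comp (fun x => x.1) continuous_fst bcen_fst_le
    have hp : 0 < D * sq := by positivity
    nlinarith
  have hw2b : |w2| ≤ 3 / 2 * (D * sq) := by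
    rw [hw2, abs_div, abs_of_pos hmpos, div_le_iff₀ hmpos]
    have := comp (fun x => x.2) continuous_snd bcen_snd_le
    have hp : 0 < D * sq := by positivity
    nlinarith
  set w : ℝ × ℝ := (w1, w2) with hw
  have hwn : nrm w ≤ 3 * D * sq := by
    have := bcen_nrm_le w
    have e1 : |w.1| = |w1| := rfl
    have e2 : |w.2| = |w2| := rfl
    rw [e1, e2] at this
    linarith
  have hwr : nrm w ≤ r3 / 2 := hwn.trans hsm
  have hwn0 := bcen_nrm_nonneg w
  have hS : bcenS w r3 ⊆ Disc b := bcenS_sub (by rw [hb]; linarith)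
  have hS2 : bcenS w (2 * r3) ⊆ Disc b := bcenS_sub (by rw [hb]; linarith)
  have hin : Disc (r3 / 2) ⊆ bcenS w r3 := bcen_sub_S (by linarith)
  have hring : Disc b \ bcenS w r3 ⊆ Disc b \ Disc (r3 / 2) := sdiff_subset_sdiff_right hin
  have small : ∀ S : Set (ℝ × ℝ), S ⊆ Disc b \ Disc (r3 / 2) → ∫ x in S, nu x ≤ M * kap := by
    intro S hSS
    refine le_trans (setIntegral_mono_set (iB hc sdiff_subset)
      (Filter.Eventually.of_forall fun x => nn x) hSS.eventuallyLE) hrg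
  have first : ∀ (g : ℝ × ℝ → ℝ) (v : ℝ), Continuous g → (∀ x, |g x - v| ≤ nrm (x - w)) →
      v * m = ∫ x in Disc b, g x * nu x →
      |∫ y in bcenS w r3, (g y - v) * nu y| ≤ M * kap := by
    intro g v hg hgn hv
    have cg : Continuous fun y => (g y - v) * nu y := (hg.sub continuous_const).mul hc
    have z : ∫ y in Disc b, (g y - v) * nu y = 0 := by
      have : (fun y => (g y - v) * nu y) = fun y => g y * nu y - v * nu y := by
        funext y; ring
      have cgn : Continuous fun y => g y * nu y := hg.mul hc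
      rw [this, integral_sub (iB cgn subset_rfl)
        ((iB hc subset_rfl).const_mul v), integral_const_mul, ← hm, hv, sub_self]
    have e : ∫ y in Disc b, (g y - v) * nu y = (∫ y in bcenS w r3, (g y - v) * nu y) +
        ∫ y in Disc b \ bcenS w r3, (g y - v) * nu y := by
      rw [← setIntegral_union disjoint_sdiff_self_right
        ((bcen_disc_meas _).diff (bcenS_meas _ _)) (iB cg hS) (iB cg sdiff_subset),
        union_sdiff_cancel hS]
    rw [z] at e
    have e' : ∫ y in bcenS w r3, (g y - v) * nu y =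
        -∫ y in Disc b \ bcenS w r3, (g y - v) * nu y := by linarith
    rw [e', abs_neg]
    refine (norm_integral_le_integral_norm (μ := volume.restrict (Disc b \ bcenS w r3))
      (fun y => (g y - v) * nu y)).trans (le_trans ?_ (small _ hring))
    refine setIntegral_mono_on (iB cg.norm sdiff_subset) (iB hc sdiff_subset)
      ((bcen_disc_meas _).diff (bcenS_meas _ _)) ?_
    intro x hx
    have hxb : nrm x < b := hx.1
    rw [norm_mul, Real.norm_eq_abs, Real.norm_eq_abs, abs_of_nonneg (nn x)]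
    have h1 : |g x - v| ≤ 1 := by
      refine (hgn x).trans ((bcen_nrm_sub_le x w).trans ?_)
      rw [hb] at hxb
      linarith
    calc |g x - v| * nu x ≤ 1 * nu x := mul_le_mul_of_nonneg_right h1 (nn x)
      _ = nu x := one_mul _
  refine ⟨w, hwr, ?_, ?_, ?_, ?_, ?_, ?_⟩
  · rw [bcen_change nu w r3]
    refine h9.trans (setIntegral_mono_set (iB hc hS)
      (Filter.Eventually.of_forall fun x => nn x) ?_)
    exact ((mono (by linarith)).trans hin).eventuallyLE
  · have e := bcen_change (fun y => nrm (y - w) * nu y) w r3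
    simp only [add_sub_cancel_right] at e
    rw [e]
    have cF : Continuous fun y => nrm (y - w) * nu y :=
      (bcen_nrm_cont.comp (continuous_id.sub continuous_const)).mul hc
    calc ∫ y in bcenS w r3, nrm (y - w) * nu y ≤ ∫ y in Disc b, nrm (y - w) * nu y :=
          setIntegral_mono_set (iB cF subset_rfl) (Filter.Eventually.of_forall fun x =>
            mul_nonneg (bcen_nrm_nonneg _) (nn x)) hS.eventuallyLE
      _ ≤ ∫ y in Disc b, (nrm y * nu y + nrm w * nu y) := by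
          refine setIntegral_mono_on (iB cF subset_rfl)
            ((iB cn subset_rfl).add ((iB hc subset_rfl).const_mul _)) (bcen_disc_meas _) ?_
          intro y _
          rw [← add_mul]
          exact mul_le_mul_of_nonneg_right (bcen_nrm_sub_le y w) (nn y)
      _ = (∫ y in Disc b, nrm y * nu y) + nrm w * m := by
          rw [integral_add (iB cn subset_rfl) ((iB hc subset_rfl).const_mul _),
            integral_const_mul]
      _ ≤ 4 * D * sq := by nlinarith
  · have e := bcen_change (fun y => nrm (y - w) ^ 3 * nu y) w r3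
    simp only [add_sub_cancel_right] at e
    rw [e]
    have cF : Continuous fun y => nrm (y - w) ^ 3 * nu y :=
      ((bcen_nrm_cont.comp (continuous_id.sub continuous_const)).pow 3).mul hc
    have hw3 : nrm w ^ 3 ≤ (3 * D) ^ 3 * kap := by
      calc nrm w ^ 3 ≤ (3 * D * sq) ^ 3 := pow_le_pow_left₀ hwn0 hwn 3
        _ = (3 * D) ^ 3 * (sq ^ 2 * sq) := by ring
        _ ≤ (3 * D) ^ 3 * (sq ^ 2 * 1) := by gcongr
        _ = (3 * D) ^ 3 * kap := by rw [hsqsq, mul_one]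
    have cube : ∀ s t : ℝ, 0 ≤ s → 0 ≤ t → (s + t) ^ 3 ≤ 4 * (s ^ 3 + t ^ 3) := by
      intro s t hs ht
      nlinarith [mul_nonneg (add_nonneg hs ht) (sq_nonneg (s - t))]
    calc ∫ y in bcenS w r3, nrm (y - w) ^ 3 * nu y ≤ ∫ y in Disc b, nrm (y - w) ^ 3 * nu y :=
          setIntegral_mono_set (iB cF subset_rfl) (Filter.Eventually.of_forall fun x =>
            mul_nonneg (pow_nonneg (bcen_nrm_nonneg _) 3) (nn x)) hS.eventuallyLE
      _ ≤ ∫ y in Disc b, (4 * (nrm y ^ 3 * nu y) + 4 * nrm w ^ 3 * nu y) := by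
          refine setIntegral_mono_on (iB cF subset_rfl)
            (((iB cn3 subset_rfl).const_mul 4).add ((iB hc subset_rfl).const_mul _))
            (bcen_disc_meas _) ?_
          intro y _
          have h1 : nrm (y - w) ^ 3 ≤ (nrm y + nrm w) ^ 3 :=
            pow_le_pow_left₀ (bcen_nrm_nonneg _) (bcen_nrm_sub_le y w) 3
          have h2 := cube (nrm y) (nrm w) (bcen_nrm_nonneg y) hwn0
          have h3 : 4 * (nrm y ^ 3 * nu y) + 4 * nrm w ^ 3 * nu y =
              4 * (nrm y ^ 3 + nrm w ^ 3) * nu y := by ring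
          rw [h3]
          exact mul_le_mul_of_nonneg_right (h1.trans h2) (nn y)
      _ = 4 * (∫ y in Disc b, nrm y ^ 3 * nu y) + 4 * nrm w ^ 3 * m := by
          rw [integral_add ((iB cn3 subset_rfl).const_mul 4) ((iB hc subset_rfl).const_mul _),
            integral_const_mul, integral_const_mul]
      _ ≤ 4 * (D * kap) + 4 * ((3 * D) ^ 3 * kap) := by
          have h0 : 0 ≤ nrm w ^ 3 := pow_nonneg hwn0 3
          have : nrm w ^ 3 * m ≤ (3 * D) ^ 3 * kap := by
            calc nrm w ^ 3 * m ≤ nrm w ^ 3 * 1 := mul_le_mul_of_nonneg_left hb1 h0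
              _ = nrm w ^ 3 := mul_one _
              _ ≤ _ := hw3
          nlinarith
      _ = 4 * (D + (3 * D) ^ 3) * kap := by ring
  · have e := bcen_change (fun y => (y.1 - w1) * nu y) w r3
    have e' : ∀ x : ℝ × ℝ, (x + w).1 - w1 = x.1 := fun x => by simp [hw]
    simp only [e'] at e
    rw [e]
    refine first (fun y => y.1) w1 continuous_fst (fun x => ?_) ?_
    · exact bcen_fst_le (x - w)
    · rw [hw1]
      field_simp
  · have e := bcen_change (fun y => (y.2 - w2) * nu y) w r3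
    have e' : ∀ x : ℝ × ℝ, (x + w).2 - w2 = x.2 := fun x => by simp [hw]
    simp only [e'] at e
    rw [e]
    refine first (fun y => y.2) w2 continuous_snd (fun x => ?_) ?_
    · exact bcen_snd_le (x - w)
    · rw [hw2]
      field_simp
  · rw [bcen_change' nu w r3 (2 * r3)]
    exact small _ (sdiff_subset_sdiff hS2 hin)

/-- L9.6: recentring at the mean -/
theorem c2_center {K R : ℝ × ℝ → ℝ} (hG : IsGreen K R) {rp : ℝ} (hrp : GoodRp K rp) {r1 : ℝ}
    (hr : 0 < r1) (hr' : r1 ≤ 1 / 32) {r3 : ℝ} (hr3 : 0 < r3) (hr31 : 64 * r3 ≤ r1)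
    (hr3p : 64 * r3 ≤ rp) :
    ∃ C : ℝ, 0 < C ∧ ∃ e : ℝ, 0 < e ∧ ∃ N0 : ℕ,
      ∀ (N : ℕ) (k kap : ℝ) (mu s : ℝ × ℝ → ℝ), N0 ≤ N → IsMF K N 0 k mu s → ¬ NoFar mu r1 →
      (∀ x, r1 / 2 ≤ tn x → k * K (x - pt) ^ N ≤ kap) → 0 < kap → kap * N ^ 2 ≤ e →
      ∃ z : ℝ × ℝ, Conc K N z k (fun x => mu (x + z)) (fun x => s (x + z)) rp r1 r3 kap C := by
  obtain ⟨C1, hC1, e1, he1, N1, h1⟩ := c2_conc hG hrp hr hr'
  obtain ⟨C2, hC2, h2⟩ := c2_ring hG
  set D : ℝ := 2 * C1 + 4 * (C2 / C1) + 8 * C1 ^ 3 + 32 * C2 * (4 * r3) with hD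
  have hC1p : 0 < C1 := by linarith
  have hDp : 0 < D := by positivity
  set M : ℝ := 3 * C2 * (r3 / 2)⁻¹ ^ 2 with hM
  have hMp : 0 < M := by positivity
  set e : ℝ := min e1 (min 1 (min ((r3 / (4 * C1)) ^ 2) ((r3 / (6 * D)) ^ 2))) with he
  have hep : 0 < e := by
    rw [he]
    refine lt_min he1 (lt_min one_pos (lt_min ?_ ?_)) <;> positivity
  refine ⟨4 * D + 4 * (D + (3 * D) ^ 3) + M, by positivity, e, hep, max N1 3, ?_⟩
  intro N k kap mu s hN hmf hfar hkap hkp hke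
  have hN1 : N1 ≤ N := le_trans (le_max_left _ _) hN
  have hN3 : 3 ≤ N := le_trans (le_max_right _ _) hN
  have hNR : (1 : ℝ) ≤ (N : ℝ) ^ 2 := by
    have : (3 : ℝ) ≤ N := by exact_mod_cast hN3
    nlinarith
  have hkape : kap ≤ e := by nlinarith
  have hk1 : kap ≤ 1 := hkape.trans ((min_le_right _ _).trans (min_le_left _ _))
  have hkC1 : kap ≤ (r3 / (4 * C1)) ^ 2 :=
    hkape.trans ((min_le_right _ _).trans ((min_le_right _ _).trans (min_le_left _ _)))
  have hkD : kap ≤ (r3 / (6 * D)) ^ 2 :=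
    hkape.trans ((min_le_right _ _).trans ((min_le_right _ _).trans (min_le_right _ _)))
  obtain ⟨z0, hz1, hzp, h9⟩ := h1 N k kap mu s hN1 hmf hfar hkap hkp (hke.trans (min_le_left _ _))
  set nu : ℝ × ℝ → ℝ := fun x => mu (x + z0) with hnu
  have hmf0 : IsMF K N z0 k nu (fun x => s (x + z0)) := by
    have := MF_shift hG hmf z0
    rwa [zero_add] at this
  have hnc : Continuous nu := hmf0.smu.continuous
  have nn : ∀ x, 0 ≤ nu x := hmf0.nn
  set sq : ℝ := Real.sqrt kap with hsq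
  have hsq0 : 0 < sq := Real.sqrt_pos.2 hkp
  have hsqsq : sq ^ 2 = kap := Real.sq_sqrt hkp.le
  have hsq1 : sq ≤ 1 := Real.sqrt_le_iff.2 ⟨zero_le_one, by rw [one_pow]; exact hk1⟩
  have hsC1 : C1 * sq ≤ r3 / 4 := by
    have : sq ≤ r3 / (4 * C1) := by
      rw [hsq]
      exact Real.sqrt_le_iff.2 ⟨by positivity, hkC1⟩
    calc C1 * sq ≤ C1 * (r3 / (4 * C1)) := mul_le_mul_of_nonneg_left this hC1p.le
      _ = r3 / 4 := by field_simp
  have hsD : 3 * D * sq ≤ r3 / 2 := by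
    have : sq ≤ r3 / (6 * D) := by
      rw [hsq]
      exact Real.sqrt_le_iff.2 ⟨by positivity, hkD⟩
    calc 3 * D * sq ≤ 3 * D * (r3 / (6 * D)) := mul_le_mul_of_nonneg_left this (by positivity)
      _ = r3 / 2 := by field_simp; ring
  have hr3s : r3 ≤ 1 / 2048 := by linarith
  set a : ℝ := C1 * sq with ha
  have hap : 0 < a := by positivity
  have mass : ∀ r : ℝ, r ≤ 1 / 2 → ∫ x in Disc r, nu x ≤ 1 := by
    intro r hr2
    have hsub : Disc r ⊆ Q := by
      intro x hx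
      have hx' : nrm x < r := hx
      have a1 := abs_lt.1 (lt_of_le_of_lt (bcen_fst_le x) (lt_of_lt_of_le hx' hr2))
      have a2 := abs_lt.1 (lt_of_le_of_lt (bcen_snd_le x) (lt_of_lt_of_le hx' hr2))
      exact ⟨⟨by linarith [a1.1], a1.2.le⟩, ⟨by linarith [a2.1], a2.2.le⟩⟩
    have hQ : IntegrableOn nu Q := by
      refine bcen_int (r := 1 / 2) hnc ?_
      intro x hx
      rw [mem_closedBall_zero_iff, Prod.norm_def, Real.norm_eq_abs, Real.norm_eq_abs]
      exact max_le (abs_le.2 ⟨by linarith [hx.1.1], hx.1.2⟩)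
        (abs_le.2 ⟨by linarith [hx.2.1], hx.2.2⟩)
    have := hmf0.one
    unfold TI at this
    rw [← this]
    exact setIntegral_mono_set hQ (Filter.Eventually.of_forall fun x => nn x) hsub.eventuallyLE
  have rings : ∀ r : ℝ, 2 * a ≤ r → r ≤ 4 * r3 →
      ∫ x in Disc (2 * r) \ Disc r, nu x ≤ C2 * kap * r⁻¹ ^ 2 := by
    intro r hr1 hr2
    refine h2 N z0 k kap a r nu _ hN3 hmf0 hap hr1 (by linarith) h9 ?_
    intro x hx
    refine hkap (x + z0) ?_
    have := bcen_tn_add z0 x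
    rw [add_comm z0 x] at this
    linarith
  have hmom := ring_moments hnc nn hap (b := 4 * r3) (M := C2 * kap) (by linarith)
    (by positivity) (mass _ (by linarith)) rings
  have hm1 : ∫ x in Disc (4 * r3), nrm x * nu x ≤ D * sq := by
    refine hmom.1.trans ?_
    have e1 : 4 * (C2 * kap) / a = 4 * (C2 / C1) * sq := by
      rw [ha, ← hsqsq]
      field_simp
    rw [e1, ha, hD]
    have : 0 ≤ (8 * C1 ^ 3 + 32 * C2 * (4 * r3)) * sq := by positivity
    nlinarith
  have hm3 : ∫ x in Disc (4 * r3), nrm x ^ 3 * nu x ≤ D * kap := by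
    refine hmom.2.trans ?_
    have e1 : 8 * a ^ 3 ≤ 8 * C1 ^ 3 * kap := by
      rw [ha, ← hsqsq]
      have : 8 * (C1 * sq) ^ 3 = 8 * C1 ^ 3 * (sq ^ 2 * sq) := by ring
      rw [this]
      have : sq ^ 2 * sq ≤ sq ^ 2 * 1 := mul_le_mul_of_nonneg_left hsq1 (by positivity)
      rw [mul_one] at this
      exact mul_le_mul_of_nonneg_left this (by positivity)
    have e2 : 0 ≤ (2 * C1 + 4 * (C2 / C1)) * kap := by positivity
    rw [hD]
    nlinarith
  have hrg : ∫ x in Disc (4 * r3) \ Disc (r3 / 2), nu x ≤ M * kap := by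
    have := bcen_rings hnc (c := r3 / 2) (M := C2 * kap) (by positivity)
      (fun r hr1 hr2 => rings r (by linarith) (by linarith)) (by positivity)
    have e8 : 8 * (r3 / 2) = 4 * r3 := by ring
    rw [e8] at this
    refine this.trans (le_of_eq ?_)
    rw [hM]
    ring
  obtain ⟨w, hw, g9, g1, g3, gc1, gc2, gr⟩ := bcen_core hnc nn hr3 (by linarith) hDp hMp hkp hk1
    hsC1 h9 (mass _ (by linarith)) hm1 hm3 hrg hsD
  have hsh : ∀ x : ℝ × ℝ, nu (x + w) = mu (x + (z0 + w)) := by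
    intro x
    rw [hnu]
    simp only
    congr 1
    abel
  simp only [hsh] at g9 g1 g3 gc1 gc2 gr
  have hbig : 0 ≤ 4 * (D + (3 * D) ^ 3) := by positivity
  refine ⟨z0 + w, ?_⟩
  refine ⟨?_, g9, g1.trans ?_, g3.trans ?_, gc1.trans ?_, gc2.trans ?_, gr.trans ?_, ?_, ?_⟩
  · have := MF_shift hG hmf (z0 + w)
    rwa [zero_add] at this
  · exact mul_le_mul_of_nonneg_right (by linarith) hsq0.le
  · exact mul_le_mul_of_nonneg_right (by linarith) hkp.le
  · exact mul_le_mul_of_nonneg_right (by linarith) hkp.le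
  · exact mul_le_mul_of_nonneg_right (by linarith) hkp.le
  · exact mul_le_mul_of_nonneg_right (by linarith) hkp.le
  · have := bcen_tn_add (z0 - pt) w
    have e : z0 - pt + w = z0 + w - pt := by abel
    rw [e] at this
    have := hrp.1
    linarith
  · have := bcen_tn_add z0 w
    linarith

end Pool.Agent.AO
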