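import Pool.Agent.Lib.MP_10e52e_an.Dens
import Pool.Agent.Lib.MP_10e52e_an.Ident

/-! MP_10e52e_an row Bpair: pair part of L9.10 -/

namespace Pool.Agent.AO

open MeasureTheory Set Real
open scoped ContDiff

theorem bpair_nsq_nonneg (x : ℝ × ℝ) : 0 ≤ nsq x := by unfold nsq; positivity

theorem bpair_nrm_nonneg (x : ℝ × ℝ) : 0 ≤ nrm x := Real.sqrt_nonneg _

theorem bpair_nrm_sq (x : ℝ × ℝ) : nrm x ^ 2 = nsq x := Real.sq_sqrt (bpair_nsq_nonneg x)

theorem bpair_fst (x : ℝ × ℝ) : |x.1| ≤ nrm x := by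
  apply Real.abs_le_sqrt
  unfold nsq
  nlinarith [sq_nonneg x.2]

theorem bpair_snd (x : ℝ × ℝ) : |x.2| ≤ nrm x := by
  apply Real.abs_le_sqrt
  unfold nsq
  nlinarith [sq_nonneg x.1]

theorem bpair_nsq_cont : Continuous nsq := by
  unfold nsq
  fun_prop

theorem bpair_nrm_cont : Continuous nrm := Real.continuous_sqrt.comp bpair_nsq_cont

theorem bpair_disc_meas (r : ℝ) : MeasurableSet (Disc r) :=
  (isOpen_lt bpair_nrm_cont continuous_const).measurableSet

theorem bpair_Q_meas : MeasurableSet Q := measurableSet_Ioc.prod measurableSet_Ioc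

theorem bpair_Q_vol : volume Q < ⊤ := by
  unfold Q
  rw [Measure.volume_eq_prod, Measure.prod_prod, Real.volume_Ioc]
  exact ENNReal.mul_lt_top ENNReal.ofReal_lt_top ENNReal.ofReal_lt_top

theorem bpair_disc_sub {r : ℝ} (hr : r ≤ 1 / 2) : Disc r ⊆ Q := by
  intro x hx
  have hx' : nrm x < r := hx
  have h1 := abs_lt.1 ((bpair_fst x).trans_lt hx')
  have h2 := abs_lt.1 ((bpair_snd x).trans_lt hx')
  exact ⟨⟨by linarith [h1.1], by linarith [h1.2]⟩, ⟨by linarith [h2.1], by linarith [h2.2]⟩⟩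

theorem bpair_inton {S : Set (ℝ × ℝ)} (hS : MeasurableSet S) (hSQ : S ⊆ Q) {f : ℝ × ℝ → ℝ}
    (hf : Measurable f) {M : ℝ} (hM : ∀ x ∈ S, |f x| ≤ M) : IntegrableOn f S := by
  refine Measure.integrableOn_of_bounded (M := M)
    ((measure_mono hSQ).trans_lt bpair_Q_vol).ne hf.aestronglyMeasurable ?_
  exact (ae_restrict_mem hS).mono fun x hx => hM x hx

theorem bpair_key {S T : Set (ℝ × ℝ)} (hS : MeasurableSet S) (hT : MeasurableSet T)
    (hSQ : S ⊆ Q) (hTQ : T ⊆ Q) {E : ℝ × ℝ → ℝ × ℝ → ℝ} (hE : Measurable (Function.uncurry E))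
    {M : ℝ} (hEM : ∀ x ∈ S, ∀ y ∈ T, |E x y| ≤ M) :
    (∀ x ∈ S, IntegrableOn (E x) T) ∧ IntegrableOn (fun x => ∫ y in T, E x y) S := by
  have hTf : volume T < ⊤ := (measure_mono hTQ).trans_lt bpair_Q_vol
  have h1 : ∀ x ∈ S, IntegrableOn (E x) T := fun x hx =>
    bpair_inton hT hTQ (hE.of_uncurry_left) (hEM x hx)
  refine ⟨h1, ?_⟩
  have h2 : Measurable (fun x => ∫ y in T, E x y) :=
    (hE.stronglyMeasurable.integral_prod_right (ν := volume.restrict T)).measurable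
  refine bpair_inton hS hSQ h2 (M := M * volume.real T) fun x hx => ?_
  exact norm_setIntegral_le_of_norm_le_const (μ := volume) (s := T) (f := E x) (C := M) hTf
    (fun y hy => hEM x hx y hy)

theorem bpair_cmp {S T : Set (ℝ × ℝ)} (hS : MeasurableSet S) (hT : MeasurableSet T)
    (hSQ : S ⊆ Q) (hTQ : T ⊆ Q) {F G H : ℝ × ℝ → ℝ × ℝ → ℝ}
    (hF : Measurable (Function.uncurry F)) (hG : Measurable (Function.uncurry G))
    (hH : Measurable (Function.uncurry H)) {M : ℝ} (hFM : ∀ x ∈ S, ∀ y ∈ T, |F x y| ≤ M)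
    (hGM : ∀ x ∈ S, ∀ y ∈ T, |G x y| ≤ M) (hHM : ∀ x ∈ S, ∀ y ∈ T, |H x y| ≤ M)
    (hle : ∀ x ∈ S, ∀ y ∈ T, x ≠ y → |F x y - G x y| ≤ H x y) :
    |(∫ x in S, ∫ y in T, F x y) - ∫ x in S, ∫ y in T, G x y| ≤
      ∫ x in S, ∫ y in T, H x y := by
  obtain ⟨f1, f2⟩ := bpair_key hS hT hSQ hTQ hF hFM
  obtain ⟨g1, g2⟩ := bpair_key hS hT hSQ hTQ hG hGM
  obtain ⟨h1, h2⟩ := bpair_key hS hT hSQ hTQ hH hHM
  rw [← integral_sub f2 g2, ← Real.norm_eq_abs]
  refine norm_integral_le_of_norm_le h2 ?_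
  refine (ae_restrict_mem hS).mono fun x hx => ?_
  rw [← integral_sub (f1 x hx) (g1 x hx)]
  refine norm_integral_le_of_norm_le (h1 x hx) ?_
  have hne : ∀ᵐ y ∂(volume.restrict T), y ≠ x := by
    refine ae_restrict_of_ae ?_
    rw [ae_iff]
    simp
  filter_upwards [hne, ae_restrict_mem hT] with y hy hyT
  exact hle x hx y hyT (Ne.symm hy)

/-- `D1 G`, `D2 G` are Lipschitz away from the lattice -/
theorem bpair_lip {K R : ℝ × ℝ → ℝ} (hG : IsGreen K R) {r : ℝ} (hr : 0 < r) (hr' : r ≤ 1 / 8) :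
    ∃ C : ℝ, 0 < C ∧ ∀ x y, nrm x ≤ r → y ∈ Q → 2 * r ≤ nrm y →
      |D1 (Gf K) (x - y) - D1 (Gf K) (-y)| ≤ C * nrm x ∧
      |D2 (Gf K) (x - y) - D2 (Gf K) (-y)| ≤ C * nrm x ∧
      |D1 (Gf K) (-y)| ≤ C ∧ |D2 (Gf K) (-y)| ≤ C := by
  -- the compact set
  set S : Set (ℝ × ℝ) := (Icc (-3 / 4 : ℝ) (3 / 4) ×ˢ Icc (-3 / 4 : ℝ) (3 / 4)) ∩
    {w | r ^ 2 ≤ nsq w} with hSd
  have hScomp : IsCompact S :=
    (isCompact_Icc.prod isCompact_Icc).inter_right (isClosed_le continuous_const bpair_nsq_cont)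
  set O : Set (ℝ × ℝ) := Box 1 \ {0} with hOd
  have hBox : IsOpen (Box 1) := by
    unfold Box
    exact (isOpen_lt (continuous_abs.comp continuous_fst) continuous_const).inter
      (isOpen_lt (continuous_abs.comp continuous_snd) continuous_const)
  have hO : IsOpen O := hBox.sdiff isClosed_singleton
  have hSO : S ⊆ O := by
    rintro w ⟨⟨⟨h1, h2⟩, ⟨h3, h4⟩⟩, h5⟩
    refine ⟨⟨abs_lt.2 ⟨by linarith, by linarith⟩, abs_lt.2 ⟨by linarith, by linarith⟩⟩, ?_⟩
    intro h0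
    have : w = 0 := h0
    rw [Set.mem_ofPred_eq, this] at h5
    have : nsq 0 = 0 := by simp [nsq]
    rw [this] at h5
    have := pow_pos hr 2
    linarith
  have hsmooth : ContDiffOn ℝ ∞ (Gf K) O := by
    have h1 : ContDiffOn ℝ ∞ (fun x : ℝ × ℝ => -(1 / (4 * π)) * Real.log (nsq x) + R x) O := by
      refine ContDiffOn.add (contDiffOn_const.mul ?_) (hG.smoothR.mono Set.sdiff_subset)
      refine ContDiffOn.log ?_ ?_
      · unfold nsq
        fun_prop
      · intro x hx h0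
        apply hx.2
        unfold nsq at h0
        have h1 : x.1 = 0 := by nlinarith [sq_nonneg x.1, sq_nonneg x.2]
        have h2 : x.2 = 0 := by nlinarith [sq_nonneg x.1, sq_nonneg x.2]
        exact Prod.ext h1 h2
    exact h1.congr fun x hx => (green_near hG x hx.1 hx.2).1
  have hcf : ContDiffOn ℝ ∞ (fderiv ℝ (Gf K)) O :=
    hsmooth.fderiv_of_isOpen hO (by norm_cast)
  -- one direction
  have hdir : ∀ v : ℝ × ℝ, ∃ C : ℝ, 0 < C ∧ ∀ x y, nrm x ≤ r → y ∈ Q → 2 * r ≤ nrm y →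
      |fderiv ℝ (Gf K) (x - y) v - fderiv ℝ (Gf K) (-y) v| ≤ C * nrm x ∧
      |fderiv ℝ (Gf K) (-y) v| ≤ C := by
    intro v
    set g : ℝ × ℝ → ℝ := fun w => fderiv ℝ (Gf K) w v with hg
    have hgs : ContDiffOn ℝ ∞ g O := hcf.clm_apply contDiffOn_const
    have hgc : ContinuousOn g S := hgs.continuousOn.mono hSO
    have hgd : ContinuousOn (fderiv ℝ g) S :=
      (hgs.continuousOn_fderiv_of_isOpen hO (by norm_cast)).mono hSO
    obtain ⟨B1, hB1⟩ := hScomp.exists_bound_of_continuousOn hgc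
    obtain ⟨B2, hB2⟩ := hScomp.exists_bound_of_continuousOn hgd
    refine ⟨|B1| + |B2| + 1, by positivity, fun x y hx hy hy2 => ?_⟩
    have hQ1 : -1 / 2 < y.1 ∧ y.1 ≤ 1 / 2 := hy.1
    have hQ2 : -1 / 2 < y.2 ∧ y.2 ≤ 1 / 2 := hy.2
    have hseg : ∀ s : ℝ, 0 ≤ s → s ≤ 1 → s • x - y ∈ S := by
      intro s hs0 hs1
      have hx1 := abs_le.1 ((bpair_fst x).trans hx)
      have hx2 := abs_le.1 ((bpair_snd x).trans hx)
      have e1 : (s • x - y).1 = s * x.1 - y.1 := rfl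
      have e2 : (s • x - y).2 = s * x.2 - y.2 := rfl
      have b1 : |s * x.1| ≤ 1 / 8 := by
        rw [abs_mul, abs_of_nonneg hs0]
        have := (bpair_fst x).trans (hx.trans hr')
        nlinarith [abs_nonneg x.1]
      have b2 : |s * x.2| ≤ 1 / 8 := by
        rw [abs_mul, abs_of_nonneg hs0]
        have := (bpair_snd x).trans (hx.trans hr')
        nlinarith [abs_nonneg x.2]
      have b1' := abs_le.1 b1
      have b2' := abs_le.1 b2
      refine ⟨⟨⟨?_, ?_⟩, ⟨?_, ?_⟩⟩, ?_⟩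
      · rw [e1]; linarith [b1'.1]
      · rw [e1]; linarith [b1'.2]
      · rw [e2]; linarith [b2'.1]
      · rw [e2]; linarith [b2'.2]
      · rw [Set.mem_ofPred_eq]
        have hn : nsq (s • x - y) = s ^ 2 * nsq x - 2 * s * (x.1 * y.1 + x.2 * y.2) + nsq y := by
          unfold nsq
          rw [e1, e2]
          ring
        have hcs : x.1 * y.1 + x.2 * y.2 ≤ nrm x * nrm y := by
          have h1 : (x.1 * y.1 + x.2 * y.2) ^ 2 ≤ (nrm x * nrm y) ^ 2 := by
            rw [mul_pow, bpair_nrm_sq, bpair_nrm_sq]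
            unfold nsq
            nlinarith [sq_nonneg (x.1 * y.2 - x.2 * y.1)]
          exact le_of_abs_le (abs_le_of_sq_le_sq h1
            (mul_nonneg (bpair_nrm_nonneg x) (bpair_nrm_nonneg y)))
        rw [hn, ← bpair_nrm_sq x, ← bpair_nrm_sq y]
        have hxn := bpair_nrm_nonneg x
        have hyn := bpair_nrm_nonneg y
        have h1 : s * nrm x ≤ r := by nlinarith
        have h2 : r ≤ nrm y - s * nrm x := by linarith
        have h3 : r ^ 2 ≤ (nrm y - s * nrm x) ^ 2 := pow_le_pow_left₀ hr.le h2 2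
        have h4 : s * (x.1 * y.1 + x.2 * y.2) ≤ s * (nrm x * nrm y) :=
          mul_le_mul_of_nonneg_left hcs hs0
        nlinarith
    have hy0 : -y ∈ S := by
      have := hseg 0 le_rfl zero_le_one
      rwa [zero_smul, zero_sub] at this
    have hB1' : |g (-y)| ≤ B1 := hB1 _ hy0
    refine ⟨?_, ?_⟩
    · have hconv : Convex ℝ (segment ℝ (-y) (x - y)) := convex_segment _ _
      have hsub : segment ℝ (-y) (x - y) ⊆ S := by
        intro w hw
        obtain ⟨a, b, ha, hb, hab, rfl⟩ := hw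
        have : a • -y + b • (x - y) = b • x - y := by
          have ha' : a = 1 - b := by linarith
          rw [ha']
          ext <;> simp <;> ring
        rw [this]
        exact hseg b hb (by linarith)
      have hmv := hconv.norm_image_sub_le_of_norm_fderiv_le (f := g) (C := |B2|)
        (fun w hw => ((hgs.contDiffAt (hO.mem_nhds (hSO (hsub hw)))).differentiableAt
          (by norm_num)))
        (fun w hw => (hB2 w (hsub hw)).trans (le_abs_self _))
        (left_mem_segment ℝ _ _) (right_mem_segment ℝ _ _)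
      have e : x - y - -y = x := by abel
      rw [e] at hmv
      have hnx : ‖x‖ ≤ nrm x := by
        rw [Prod.norm_def]
        exact max_le (bpair_fst x) (bpair_snd x)
      have hxn := bpair_nrm_nonneg x
      calc |g (x - y) - g (-y)| ≤ |B2| * ‖x‖ := hmv
        _ ≤ |B2| * nrm x := mul_le_mul_of_nonneg_left hnx (abs_nonneg _)
        _ ≤ (|B1| + |B2| + 1) * nrm x := by
          refine mul_le_mul_of_nonneg_right ?_ hxn
          linarith [abs_nonneg B1]
    · calc |g (-y)| ≤ B1 := hB1'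
        _ ≤ |B1| + |B2| + 1 := by linarith [le_abs_self B1, abs_nonneg B2]
  obtain ⟨C1, hC1, h1⟩ := hdir (1, 0)
  obtain ⟨C2, hC2, h2⟩ := hdir (0, 1)
  refine ⟨C1 + C2, by positivity, fun x y hx hy hy2 => ?_⟩
  have hxn := bpair_nrm_nonneg x
  obtain ⟨a1, a2⟩ := h1 x y hx hy hy2
  obtain ⟨b1, b2⟩ := h2 x y hx hy hy2
  refine ⟨a1.trans ?_, b1.trans ?_, a2.trans ?_, b2.trans ?_⟩
  · nlinarith
  · nlinarith
  · linarith
  · linarith

theorem bpair_even {K R : ℝ × ℝ → ℝ} (hG : IsGreen K R) (w : ℝ × ℝ) : Gf K (-w) = Gf K w := by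
  unfold Gf
  have h1 := hG.refl1 w
  have h2 := hG.refl2 (-w.1, w.2)
  have e : -w = (-w.1, -w.2) := rfl
  rw [e]
  simp only at h2
  rw [h2, h1]

theorem bpair_odd {K R : ℝ × ℝ → ℝ} (hG : IsGreen K R) (w v : ℝ × ℝ) :
    fderiv ℝ (Gf K) (-w) v = -fderiv ℝ (Gf K) w v := by
  have h : (fun x => Gf K (-x)) = Gf K := funext (bpair_even hG)
  have h2 : fderiv ℝ (fun x => Gf K (-x)) w = -fderiv ℝ (Gf K) (-w) := by
    have h3 : (fun x => Gf K (-x)) = Gf K ∘ (ContinuousLinearEquiv.neg ℝ (M := ℝ × ℝ)) := rfl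
    rw [h3, ContinuousLinearEquiv.comp_right_fderiv]
    refine ContinuousLinearMap.ext fun v => ?_
    simp
  rw [h] at h2
  rw [h2]
  simp

theorem bpair_PX_symm {K R : ℝ × ℝ → ℝ} (hG : IsGreen K R) (X1 X2 : ℝ × ℝ → ℝ) (x y : ℝ × ℝ) :
    PX K X1 X2 x y = PX K X1 X2 y x := by
  unfold PX D1 D2
  have e : y - x = -(x - y) := by abel
  rw [e, bpair_odd hG, bpair_odd hG]
  ring

theorem bpair_PX_meas {K : ℝ × ℝ → ℝ} {X1 X2 : ℝ × ℝ → ℝ} (h1 : Measurable X1)
    (h2 : Measurable X2) : Measurable (Function.uncurry (PX K X1 X2)) := by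
  have d1 : Measurable (D1 (Gf K)) := measurable_fderiv_apply_const ℝ (Gf K) (1, 0)
  have d2 : Measurable (D2 (Gf K)) := measurable_fderiv_apply_const ℝ (Gf K) (0, 1)
  have e : Function.uncurry (PX K X1 X2) = fun p : (ℝ × ℝ) × (ℝ × ℝ) =>
      (X1 p.1 - X1 p.2) * D1 (Gf K) (p.1 - p.2) + (X2 p.1 - X2 p.2) * D2 (Gf K) (p.1 - p.2) := rfl
  rw [e]
  have hs : Measurable (fun p : (ℝ × ℝ) × (ℝ × ℝ) => p.1 - p.2) := measurable_fst.sub measurable_snd
  exact (((h1.comp measurable_fst).sub (h1.comp measurable_snd)).mul (d1.comp hs)).add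
    (((h2.comp measurable_fst).sub (h2.comp measurable_snd)).mul (d2.comp hs))

theorem bpair_ci {f : ℝ × ℝ → ℝ} (hf : Continuous f) {S : Set (ℝ × ℝ)} (hS : S ⊆ Q) :
    IntegrableOn f S := by
  have h1 : IsCompact (Icc (-1 / 2 : ℝ) (1 / 2) ×ˢ Icc (-1 / 2 : ℝ) (1 / 2)) :=
    isCompact_Icc.prod isCompact_Icc
  exact (hf.continuousOn.integrableOn_compact h1).mono_set
    (hS.trans (prod_mono Ioc_subset_Icc_self Ioc_subset_Icc_self))

theorem bpair_bdQ {f : ℝ × ℝ → ℝ} (hf : Continuous f) : ∃ M : ℝ, 0 < M ∧ ∀ x ∈ Q, |f x| ≤ M := by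
  have h1 : IsCompact (Icc (-1 / 2 : ℝ) (1 / 2) ×ˢ Icc (-1 / 2 : ℝ) (1 / 2)) :=
    isCompact_Icc.prod isCompact_Icc
  obtain ⟨M, hM⟩ := h1.exists_bound_of_continuousOn hf.continuousOn
  refine ⟨|M| + 1, by positivity, fun x hx => ?_⟩
  have := hM x (prod_mono Ioc_subset_Icc_self Ioc_subset_Icc_self hx)
  rw [Real.norm_eq_abs] at this
  linarith [le_abs_self M]

theorem bpair_sep (S T : Set (ℝ × ℝ)) (a b : ℝ × ℝ → ℝ) :
    (∫ x in S, ∫ y in T, a x * b y) = (∫ x in S, a x) * ∫ y in T, b y := by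
  simp_rw [integral_const_mul]
  rw [integral_mul_const]

theorem bpair_sep2 {S T : Set (ℝ × ℝ)} {a b c d : ℝ × ℝ → ℝ}
    (ha : IntegrableOn a S) (hb : IntegrableOn b T) (hc : IntegrableOn c S)
    (hd : IntegrableOn d T) :
    (∫ x in S, ∫ y in T, (a x * b y + c x * d y)) =
      (∫ x in S, a x) * (∫ y in T, b y) + (∫ x in S, c x) * ∫ y in T, d y := by
  have h1 : ∀ x, ∫ y in T, (a x * b y + c x * d y) =
      a x * (∫ y in T, b y) + c x * ∫ y in T, d y := by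
    intro x
    rw [integral_add (hb.const_mul _) (hd.const_mul _), integral_const_mul, integral_const_mul]
  simp_rw [h1]
  rw [integral_add (ha.mul_const _) (hc.mul_const _), integral_mul_const, integral_mul_const]

theorem bpair_n1 {M C n p : ℝ} (hM : 0 < M) (hC : 0 < C) (h0 : 0 ≤ n) (h1 : n ≤ 4) (hp : 0 < p)
    (hp1 : p ≤ 1) : |-p + n / 2| ≤ M + 3 + 16 * C := by
  rw [abs_le]
  constructor <;> linarith

theorem bpair_n4 {a b c : ℝ} (h0 : 0 ≤ c) (h : c ≤ 2 * (a + b)) : c ^ 2 ≤ 8 * (a ^ 2 + b ^ 2) := by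
  have h5 : c ^ 2 ≤ (2 * (a + b)) ^ 2 := pow_le_pow_left₀ h0 h 2
  nlinarith [sq_nonneg (a - b)]

theorem bpair_nxy (x y : ℝ × ℝ) : nsq (x - y) ≤ 2 * (nsq x + nsq y) := by
  unfold nsq
  simp only [Prod.fst_sub, Prod.snd_sub]
  nlinarith [sq_nonneg (x.1 + y.1), sq_nonneg (x.2 + y.2)]

/-- L9.10, the pair part -/
theorem c2_pair {K R : ℝ × ℝ → ℝ} (hG : IsGreen K R) {rp : ℝ} (hrp : GoodRp K rp) {r1 : ℝ}
    (hr : 0 < r1) (hr' : r1 ≤ 1 / 32) {r3 : ℝ} (hr3 : 0 < r3) (hr31 : 64 * r3 ≤ r1)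
    (hr3p : 64 * r3 ≤ rp) {C1 : ℝ} (hC1 : 0 < C1) :
    ∃ C : ℝ, 0 < C ∧ ∀ (N : ℕ) (z : ℝ × ℝ) (k kap : ℝ) (mu s : ℝ × ℝ → ℝ), 3 ≤ N →
      Conc K N z k mu s rp r1 r3 kap C1 → 0 < kap → kap ≤ 1 →
      |4 * π * TI (fun x => TI (fun y => mu x * mu y *
          PX K (Xr r3 (fun x => x.1)) (Xr r3 (fun x => x.2)) x y))
        + 2 * (∫ x in Disc r3, mu x) ^ 2
        - 4 * π * (∫ x in Disc r3, mu x) * ∫ x in Disc r3, nsq x * mu x| ≤
      C * (kap + (1 - ∫ x in Disc r3, mu x) * Real.sqrt kap) := by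
  have hr38 : r3 ≤ 1 / 8 := by linarith
  have hr31' : r3 ≤ 1 := by linarith
  set X1 : ℝ × ℝ → ℝ := Xr r3 (fun x => x.1) with hX1
  set X2 : ℝ × ℝ → ℝ := Xr r3 (fun x => x.2) with hX2
  obtain ⟨s1, p1, -, v1, -, -, o1, -⟩ := Xr_basic hr3 hr38 (f := fun x => x.1) contDiff_fst
  obtain ⟨s2, p2, -, v2, -, -, o2, -⟩ := Xr_basic hr3 hr38 (f := fun x => x.2) contDiff_snd
  obtain ⟨M, hM0, hM⟩ := pair_bdd hG (X1 := X1) (X2 := X2) (s1.of_le (by norm_cast)) p1
    (s2.of_le (by norm_cast)) p2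
  obtain ⟨C0, hC0, hnear⟩ := pair_near hG
  obtain ⟨CL, hCL, hlip⟩ := bpair_lip hG hr3 hr38
  set P := PX K X1 X2 with hP
  have hPmeas : Measurable (Function.uncurry P) :=
    bpair_PX_meas s1.continuous.measurable s2.continuous.measurable
  refine ⟨16 * π * M * C1 + 64 * π * C0 * C1 + 8 * π * C1 ^ 2 + 32 * π * CL * C1, by positivity,
    ?_⟩
  intro N z k kap mu s hN hc hkap hkap1
  have hmc : Continuous mu := hc.mf.smu.continuous
  have nn := hc.mf.nn
  have one := hc.mf.one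
  obtain ⟨Mu, hMu0, hMu⟩ := bpair_bdQ hmc
  set I := Disc r3 with hI
  set J := Disc (2 * r3) with hJ
  have hIm : MeasurableSet I := bpair_disc_meas _
  have hJm : MeasurableSet J := bpair_disc_meas _
  have hIJ : I ⊆ J := fun x hx => by
    have h : nrm x < r3 := hx
    change nrm x < 2 * r3
    linarith
  have hJQ : J ⊆ Q := bpair_disc_sub (by linarith)
  have hIQ : I ⊆ Q := hIJ.trans hJQ
  have hTm : MeasurableSet (Q \ J) := bpair_Q_meas.diff hJm
  have hTQ : Q \ J ⊆ Q := Set.sdiff_subset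
  have hsk : 0 < Real.sqrt kap := Real.sqrt_pos.2 hkap
  have hpi := Real.pi_pos
  -- masses
  set t := ∫ x in I, mu x with ht
  set T := ∫ x in Q \ J, mu x with hT
  set m2 := ∫ x in I, nsq x * mu x with hm2
  set m4 := ∫ x in I, nsq x ^ 2 * mu x with hm4
  set c1 := ∫ x in I, x.1 * mu x with hc1
  set c2 := ∫ x in I, x.2 * mu x with hc2
  have ht0 : 0 ≤ t := setIntegral_nonneg hIm fun x _ => nn x
  have hT0 : 0 ≤ T := setIntegral_nonneg hTm fun x _ => nn x
  have hsum : (∫ x in J, mu x) + T = 1 := by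
    have h1 : (∫ x in J, mu x) + T = ∫ x in J ∪ (Q \ J), mu x :=
      (setIntegral_union disjoint_sdiff_right hTm (bpair_ci hmc hJQ) (bpair_ci hmc hTQ)).symm
    rw [h1, union_sdiff_cancel hJQ]
    exact one
  have htJ : t ≤ ∫ x in J, mu x :=
    setIntegral_mono_set (bpair_ci hmc hJQ) (Filter.Eventually.of_forall fun x => nn x)
      hIJ.eventuallyLE
  have hT1 : T ≤ 1 - t := by linarith
  have ht1 : t ≤ 1 := by linarith
  have hnx : ∀ x ∈ I, nrm x ≤ r3 := fun x hx => le_of_lt hx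
  have hm2b : m2 ≤ C1 * Real.sqrt kap := by
    have h1 : m2 ≤ ∫ x in I, nrm x * mu x := by
      refine setIntegral_mono_on (bpair_ci (bpair_nsq_cont.mul hmc) hIQ)
        (bpair_ci (bpair_nrm_cont.mul hmc) hIQ) hIm fun x hx => ?_
      refine mul_le_mul_of_nonneg_right ?_ (nn x)
      rw [← bpair_nrm_sq, sq]
      exact mul_le_of_le_one_right (bpair_nrm_nonneg x) ((hnx x hx).trans hr31')
    exact h1.trans hc.m1
  have hm20 : 0 ≤ m2 := setIntegral_nonneg hIm fun x _ => mul_nonneg (bpair_nsq_nonneg x) (nn x)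
  have hm4b : m4 ≤ C1 * kap := by
    have h1 : m4 ≤ ∫ x in I, nrm x ^ 3 * mu x := by
      refine setIntegral_mono_on (bpair_ci ((bpair_nsq_cont.pow 2).mul hmc) hIQ)
        (bpair_ci ((bpair_nrm_cont.pow 3).mul hmc) hIQ) hIm fun x hx => ?_
      refine mul_le_mul_of_nonneg_right ?_ (nn x)
      rw [← bpair_nrm_sq]
      have h2 := hnx x hx
      have h3 := bpair_nrm_nonneg x
      have h4 : nrm x ≤ 1 := by linarith
      calc (nrm x ^ 2) ^ 2 = nrm x ^ 3 * nrm x := by ring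
        _ ≤ nrm x ^ 3 * 1 := mul_le_mul_of_nonneg_left h4 (by positivity)
        _ = nrm x ^ 3 := mul_one _
    exact h1.trans hc.m3
  have hm40 : 0 ≤ m4 := setIntegral_nonneg hIm fun x _ => mul_nonneg (sq_nonneg _) (nn x)
  -- values of P
  have hFar : ∀ y ∈ Q \ J, X1 y = 0 ∧ X2 y = 0 ∧ 2 * r3 ≤ nrm y := by
    intro y hy
    have h2 : 2 * r3 ≤ nrm y := not_lt.1 hy.2
    exact ⟨(o1 y hy.1 h2).1, (o2 y hy.1 h2).1, h2⟩
  have hNear : ∀ x ∈ I, X1 x = x.1 ∧ X2 x = x.2 := fun x hx =>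
    ⟨(v1 x (hnx x hx)).2, (v2 x (hnx x hx)).2⟩
  -- step 1
  have hstep1 := pair_split hmc nn one (P := P) hPmeas hM (bpair_PX_symm hG X1 X2) hIm hJm hIJ hJQ
    (by
      intro x hx y hy
      obtain ⟨a1, a2, -⟩ := hFar x hx
      obtain ⟨b1, b2, -⟩ := hFar y hy
      change (X1 x - X1 y) * _ + (X2 x - X2 y) * _ = 0
      rw [a1, a2, b1, b2]
      ring)
  set TT := TI (fun x => TI (fun y => mu x * mu y * P x y)) with hTT
  set A := ∫ x in I, ∫ y in I, mu x * mu y * P x y with hA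
  set B := ∫ x in I, ∫ y in Q \ J, mu x * mu y * P x y with hB
  have hring : ∫ x in J \ I, mu x ≤ C1 * kap := hc.ring
  have hstep1' : |TT - A - 2 * B| ≤ 4 * M * (C1 * kap) :=
    hstep1.trans (mul_le_mul_of_nonneg_left hring (by positivity))
  -- measurability
  have mm : Measurable (fun p : (ℝ × ℝ) × (ℝ × ℝ) => mu p.1 * mu p.2) :=
    (hmc.measurable.comp measurable_fst).mul (hmc.measurable.comp measurable_snd)
  have hmm : ∀ x ∈ Q, ∀ y ∈ Q, |mu x * mu y| ≤ Mu * Mu := fun x hx y hy => by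
    rw [abs_mul]
    exact mul_le_mul (hMu x hx) (hMu y hy) (abs_nonneg _) hMu0.le
  have hmeas : ∀ {E : (ℝ × ℝ) × (ℝ × ℝ) → ℝ}, Measurable E →
      Measurable (Function.uncurry fun x y => mu x * mu y * E (x, y)) := fun {E} hE => mm.mul hE
  have hbd : ∀ {E : ℝ × ℝ → ℝ × ℝ → ℝ} {L : ℝ} {x y : ℝ × ℝ}, x ∈ Q → y ∈ Q → |E x y| ≤ L →
      |mu x * mu y * E x y| ≤ Mu * Mu * L := fun {E L x y} hx hy h => by
    rw [abs_mul]
    exact mul_le_mul (hmm x hx y hy) h (abs_nonneg _) (by positivity)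
  have hns : Continuous (fun p : (ℝ × ℝ) × (ℝ × ℝ) => nsq (p.1 - p.2)) :=
    bpair_nsq_cont.comp (continuous_fst.sub continuous_snd)
  have hnI : ∀ x ∈ I, nsq x ≤ 1 := fun x hx => by
    rw [← bpair_nrm_sq]
    exact pow_le_one₀ (bpair_nrm_nonneg x) ((hnx x hx).trans hr31')
  have hnxy : ∀ x y : ℝ × ℝ, nsq (x - y) ≤ 2 * (nsq x + nsq y) := bpair_nxy
  -- step 2
  have hstep2a : |A - ∫ x in I, ∫ y in I, mu x * mu y * (-(1 / (2 * π)) + nsq (x - y) / 2)| ≤
      ∫ x in I, ∫ y in I, mu x * mu y * (8 * C0 * (nsq x ^ 2 + nsq y ^ 2)) := by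
    refine bpair_cmp (M := Mu * Mu * (M + 3 + 16 * C0)) hIm hIm hIQ hIQ (hmeas hPmeas)
      (hmeas (E := fun p => -(1 / (2 * π)) + nsq (p.1 - p.2) / 2)
        (continuous_const.add (hns.div_const 2)).measurable)
      (hmeas (E := fun p => 8 * C0 * (nsq p.1 ^ 2 + nsq p.2 ^ 2))
        (continuous_const.mul (((bpair_nsq_cont.comp continuous_fst).pow 2).add
          ((bpair_nsq_cont.comp continuous_snd).pow 2))).measurable) ?_ ?_ ?_ ?_
    · intro x hx y hy
      exact hbd (hIQ hx) (hIQ hy) ((hM x y).trans (by linarith))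
    · intro x hx y hy
      refine hbd (E := fun x y => -(1 / (2 * π)) + nsq (x - y) / 2) (hIQ hx) (hIQ hy) ?_
      have h1 := hnxy x y
      have h2 := hnI x hx
      have h3 := hnI y hy
      have h4 := bpair_nsq_nonneg (x - y)
      have h5 : 1 / (2 * π) ≤ 1 := by
        rw [div_le_one (by positivity)]
        linarith [Real.pi_gt_three]
      have h6 : 0 < 1 / (2 * π) := by positivity
      exact bpair_n1 hM0 hC0 h4 (by linarith) h6 h5
    · intro x hx y hy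
      refine hbd (E := fun x y => 8 * C0 * (nsq x ^ 2 + nsq y ^ 2)) (hIQ hx) (hIQ hy) ?_
      have h2 := hnI x hx
      have h3 := hnI y hy
      have h4 := bpair_nsq_nonneg x
      have h5 := bpair_nsq_nonneg y
      have h6 : nsq x ^ 2 ≤ 1 := pow_le_one₀ h4 h2
      have h7 : nsq y ^ 2 ≤ 1 := pow_le_one₀ h5 h3
      rw [abs_of_nonneg (by positivity)]
      exact (mul_le_mul_of_nonneg_left (add_le_add h6 h7) (by positivity)).trans (by linarith)
    · intro x hx y hy hxy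
      rw [← mul_sub, abs_mul, abs_of_nonneg (mul_nonneg (nn x) (nn y))]
      refine mul_le_mul_of_nonneg_left ?_ (mul_nonneg (nn x) (nn y))
      have hw0 : x - y ≠ 0 := sub_ne_zero.2 hxy
      have h1 := hnxy x y
      have h2 := bpair_nsq_nonneg (x - y)
      have hw1 : nrm (x - y) ≤ 3 / 4 := by
        have h3 := hnx x hx
        have h4 := hnx y hy
        have h5 := bpair_nrm_nonneg x
        have h6 := bpair_nrm_nonneg y
        have h7 : nsq x ≤ (1 / 8) ^ 2 := by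
          rw [← bpair_nrm_sq]
          exact pow_le_pow_left₀ h5 (h3.trans hr38) 2
        have h8 : nsq y ≤ (1 / 8) ^ 2 := by
          rw [← bpair_nrm_sq]
          exact pow_le_pow_left₀ h6 (h4.trans hr38) 2
        unfold nrm
        rw [Real.sqrt_le_left (by norm_num)]
        linarith
      have h3 := hnear (x - y) hw0 hw1
      have hPv : P x y = (x - y).1 * D1 (Gf K) (x - y) + (x - y).2 * D2 (Gf K) (x - y) := by
        change (X1 x - X1 y) * _ + (X2 x - X2 y) * _ = _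
        rw [(hNear x hx).1, (hNear x hx).2, (hNear y hy).1, (hNear y hy).2]
        rfl
      rw [hPv]
      have h4 : nsq (x - y) ^ 2 ≤ 8 * (nsq x ^ 2 + nsq y ^ 2) := bpair_n4 h2 h1
      calc |(x - y).1 * D1 (Gf K) (x - y) + (x - y).2 * D2 (Gf K) (x - y) -
            (-(1 / (2 * π)) + nsq (x - y) / 2)|
          = |(x - y).1 * D1 (Gf K) (x - y) + (x - y).2 * D2 (Gf K) (x - y) + 1 / (2 * π) -
            nsq (x - y) / 2| := by
            congr 1
            ring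
        _ ≤ C0 * nsq (x - y) ^ 2 := h3
        _ ≤ C0 * (8 * (nsq x ^ 2 + nsq y ^ 2)) := mul_le_mul_of_nonneg_left h4 hC0.le
        _ = 8 * C0 * (nsq x ^ 2 + nsq y ^ 2) := by ring
  have hH1 : (∫ x in I, ∫ y in I, mu x * mu y * (8 * C0 * (nsq x ^ 2 + nsq y ^ 2))) =
      16 * C0 * (m4 * t) := by
    have e : ∀ x y : ℝ × ℝ, mu x * mu y * (8 * C0 * (nsq x ^ 2 + nsq y ^ 2)) =
        (nsq x ^ 2 * mu x) * (8 * C0 * mu y) + (8 * C0 * mu x) * (nsq y ^ 2 * mu y) := by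
      intro x y
      ring
    simp_rw [e]
    have i1 : Continuous (fun x => nsq x ^ 2 * mu x) := (bpair_nsq_cont.pow 2).mul hmc
    have i2 : Continuous (fun x => 8 * C0 * mu x) := continuous_const.mul hmc
    rw [bpair_sep2 (bpair_ci i1 hIQ) (bpair_ci i2 hIQ) (bpair_ci i2 hIQ)
      (bpair_ci i1 hIQ), integral_const_mul]
    ring
  have hG1 : (∫ x in I, ∫ y in I, mu x * mu y * (-(1 / (2 * π)) + nsq (x - y) / 2)) =
      -(1 / (2 * π)) * t ^ 2 + (t * m2 - c1 ^ 2 - c2 ^ 2) := by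
    have hq := pair_quad hmc hr3
    have hk1 := bpair_key (M := Mu * Mu * 4) hIm hIm hIQ hIQ
      (hmeas (E := fun p => nsq (p.1 - p.2)) hns.measurable)
      (fun x hx y hy => hbd (E := fun x y => nsq (x - y)) (hIQ hx) (hIQ hy) (by
        rw [abs_of_nonneg (bpair_nsq_nonneg _)]
        linarith [hnxy x y, hnI x hx, hnI y hy]))
    have e : ∀ x, x ∈ I → (∫ y in I, mu x * mu y * (-(1 / (2 * π)) + nsq (x - y) / 2)) =
        -(1 / (2 * π)) * (mu x * t) + 1 / 2 * ∫ y in I, mu x * mu y * nsq (x - y) := by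
      intro x hx
      have e2 : ∀ y, mu x * mu y * (-(1 / (2 * π)) + nsq (x - y) / 2) =
          (-(1 / (2 * π)) * mu x) * mu y + 1 / 2 * (mu x * mu y * nsq (x - y)) := by
        intro y
        ring
      simp_rw [e2]
      rw [integral_add ((bpair_ci hmc hIQ).const_mul _) ((hk1.1 x hx).const_mul _),
        integral_const_mul, integral_const_mul]
      ring
    rw [setIntegral_congr_fun hIm (fun x hx => e x hx),
      integral_add (((bpair_ci hmc hIQ).mul_const _).const_mul _) (hk1.2.const_mul _),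
      integral_const_mul, integral_const_mul, integral_mul_const, hq]
    ring
  have hstep2 : |A - (-(1 / (2 * π)) * t ^ 2 + (t * m2 - c1 ^ 2 - c2 ^ 2))| ≤
      16 * C0 * (C1 * kap) := by
    rw [hG1, hH1] at hstep2a
    refine hstep2a.trans ?_
    refine mul_le_mul_of_nonneg_left ?_ (by positivity)
    exact (mul_le_of_le_one_right hm40 ht1).trans hm4b
  -- step 3
  have hlipI : ∀ x ∈ I, ∀ y ∈ Q \ J, |D1 (Gf K) (x - y) - D1 (Gf K) (-y)| ≤ CL * nrm x ∧
      |D2 (Gf K) (x - y) - D2 (Gf K) (-y)| ≤ CL * nrm x ∧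
      |D1 (Gf K) (-y)| ≤ CL ∧ |D2 (Gf K) (-y)| ≤ CL := fun x hx y hy =>
    hlip x y (hnx x hx) hy.1 (hFar y hy).2.2
  have d1 : Measurable (D1 (Gf K)) := measurable_fderiv_apply_const ℝ (Gf K) (1, 0)
  have d2 : Measurable (D2 (Gf K)) := measurable_fderiv_apply_const ℝ (Gf K) (0, 1)
  have h0I : (0 : ℝ × ℝ) ∈ I := by
    change nrm 0 < r3
    have : nrm 0 = 0 := by simp [nrm, nsq]
    rw [this]
    exact hr3
  have hstep3a : |B - ∫ x in I, ∫ y in Q \ J, mu x * mu y *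
      (x.1 * D1 (Gf K) (-y) + x.2 * D2 (Gf K) (-y))| ≤
      ∫ x in I, ∫ y in Q \ J, mu x * mu y * (2 * CL * nsq x) := by
    refine bpair_cmp (M := Mu * Mu * (M + 2 * CL)) hIm hTm hIQ hTQ (hmeas hPmeas)
      (hmeas (E := fun p => p.1.1 * D1 (Gf K) (-p.2) + p.1.2 * D2 (Gf K) (-p.2))
        ((measurable_fst.fst.mul (d1.comp measurable_snd.neg)).add
          (measurable_fst.snd.mul (d2.comp measurable_snd.neg))))
      (hmeas (E := fun p => 2 * CL * nsq p.1)
        (continuous_const.mul (bpair_nsq_cont.comp continuous_fst)).measurable) ?_ ?_ ?_ ?_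
    · intro x hx y hy
      exact hbd (hIQ hx) hy.1 ((hM x y).trans (by linarith))
    · intro x hx y hy
      refine hbd (E := fun x y => x.1 * D1 (Gf K) (-y) + x.2 * D2 (Gf K) (-y)) (hIQ hx) hy.1 ?_
      obtain ⟨-, -, b1, b2⟩ := hlipI x hx y hy
      have hx1 : |x.1| ≤ 1 := (bpair_fst x).trans ((hnx x hx).trans hr31')
      have hx2 : |x.2| ≤ 1 := (bpair_snd x).trans ((hnx x hx).trans hr31')
      refine (abs_add_le _ _).trans ?_
      rw [abs_mul, abs_mul]
      have e1 : |x.1| * |D1 (Gf K) (-y)| ≤ 1 * CL := mul_le_mul hx1 b1 (abs_nonneg _) zero_le_one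
      have e2 : |x.2| * |D2 (Gf K) (-y)| ≤ 1 * CL := mul_le_mul hx2 b2 (abs_nonneg _) zero_le_one
      linarith
    · intro x hx y hy
      refine hbd (E := fun x y => 2 * CL * nsq x) (hIQ hx) hy.1 ?_
      have h2 := hnI x hx
      have h4 := bpair_nsq_nonneg x
      rw [abs_of_nonneg (by positivity)]
      exact (mul_le_mul_of_nonneg_left h2 (by positivity)).trans (by linarith)
    · intro x hx y hy _
      rw [← mul_sub, abs_mul, abs_of_nonneg (mul_nonneg (nn x) (nn y))]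
      refine mul_le_mul_of_nonneg_left ?_ (mul_nonneg (nn x) (nn y))
      obtain ⟨a1, a2, -, -⟩ := hlipI x hx y hy
      have hPv : P x y = x.1 * D1 (Gf K) (x - y) + x.2 * D2 (Gf K) (x - y) := by
        change (X1 x - X1 y) * _ + (X2 x - X2 y) * _ = _
        rw [(hNear x hx).1, (hNear x hx).2, (hFar y hy).1, (hFar y hy).2.1]
        ring
      rw [hPv]
      have e : x.1 * D1 (Gf K) (x - y) + x.2 * D2 (Gf K) (x - y) -
          (x.1 * D1 (Gf K) (-y) + x.2 * D2 (Gf K) (-y)) =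
          x.1 * (D1 (Gf K) (x - y) - D1 (Gf K) (-y)) +
          x.2 * (D2 (Gf K) (x - y) - D2 (Gf K) (-y)) := by ring
      rw [e]
      refine (abs_add_le _ _).trans ?_
      rw [abs_mul, abs_mul]
      have hn := bpair_nrm_nonneg x
      have e1 : |x.1| * |D1 (Gf K) (x - y) - D1 (Gf K) (-y)| ≤ nrm x * (CL * nrm x) :=
        mul_le_mul (bpair_fst x) a1 (abs_nonneg _) hn
      have e2 : |x.2| * |D2 (Gf K) (x - y) - D2 (Gf K) (-y)| ≤ nrm x * (CL * nrm x) :=
        mul_le_mul (bpair_snd x) a2 (abs_nonneg _) hn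
      rw [← bpair_nrm_sq]
      exact (add_le_add e1 e2).trans (le_of_eq (by ring))
  set g1 := ∫ y in Q \ J, mu y * D1 (Gf K) (-y) with hg1
  set g2 := ∫ y in Q \ J, mu y * D2 (Gf K) (-y) with hg2
  have hgb : ∀ {D : ℝ × ℝ → ℝ}, Measurable D → (∀ y ∈ Q \ J, |D (-y)| ≤ CL) →
      IntegrableOn (fun y => mu y * D (-y)) (Q \ J) ∧ |∫ y in Q \ J, mu y * D (-y)| ≤ CL * T := by
    intro D hD hDb
    have i1 : IntegrableOn (fun y => mu y * D (-y)) (Q \ J) := by
      refine bpair_inton hTm hTQ (hmc.measurable.mul (hD.comp measurable_neg)) (M := Mu * CL)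
        fun y hy => ?_
      rw [abs_mul]
      exact mul_le_mul (hMu y hy.1) (hDb y hy) (abs_nonneg _) hMu0.le
    refine ⟨i1, ?_⟩
    have h1 : ‖∫ y in Q \ J, mu y * D (-y)‖ ≤ ∫ y in Q \ J, CL * mu y := by
      refine norm_integral_le_of_norm_le ((bpair_ci hmc hTQ).const_mul _) ?_
      refine (ae_restrict_mem hTm).mono fun y hy => ?_
      rw [Real.norm_eq_abs, abs_mul, abs_of_nonneg (nn y), mul_comm]
      exact mul_le_mul_of_nonneg_right (hDb y hy) (nn y)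
    rw [integral_const_mul] at h1
    exact h1
  obtain ⟨j1, hg1b⟩ := hgb d1 (fun y hy => (hlipI 0 h0I y hy).2.2.1)
  obtain ⟨j2, hg2b⟩ := hgb d2 (fun y hy => (hlipI 0 h0I y hy).2.2.2)
  have hG3 : (∫ x in I, ∫ y in Q \ J, mu x * mu y *
      (x.1 * D1 (Gf K) (-y) + x.2 * D2 (Gf K) (-y))) = c1 * g1 + c2 * g2 := by
    have e : ∀ x y : ℝ × ℝ, mu x * mu y * (x.1 * D1 (Gf K) (-y) + x.2 * D2 (Gf K) (-y)) =
        (x.1 * mu x) * (mu y * D1 (Gf K) (-y)) + (x.2 * mu x) * (mu y * D2 (Gf K) (-y)) := by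
      intro x y
      ring
    simp_rw [e]
    exact bpair_sep2 (bpair_ci (continuous_fst.mul hmc) hIQ) j1
      (bpair_ci (continuous_snd.mul hmc) hIQ) j2
  have hH3 : (∫ x in I, ∫ y in Q \ J, mu x * mu y * (2 * CL * nsq x)) = 2 * CL * (m2 * T) := by
    have e : ∀ x y : ℝ × ℝ, mu x * mu y * (2 * CL * nsq x) = (2 * CL * (nsq x * mu x)) * mu y := by
      intro x y
      ring
    simp_rw [e]
    rw [bpair_sep, integral_const_mul]
    ring
  have hstep3 : |B| ≤ (1 - t) * (2 * CL * C1 * kap + 2 * CL * C1 * Real.sqrt kap) := by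
    rw [hG3, hH3] at hstep3a
    have h1 : |c1 * g1 + c2 * g2| ≤ (C1 * kap) * (CL * T) + (C1 * kap) * (CL * T) := by
      refine (abs_add_le _ _).trans ?_
      rw [abs_mul, abs_mul]
      exact add_le_add (mul_le_mul hc.c1 hg1b (abs_nonneg _) (by positivity))
        (mul_le_mul hc.c2 hg2b (abs_nonneg _) (by positivity))
    have h2 : 2 * CL * (m2 * T) ≤ 2 * CL * (C1 * Real.sqrt kap * T) :=
      mul_le_mul_of_nonneg_left (mul_le_mul_of_nonneg_right hm2b hT0) (by positivity)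
    have h3 : |B| ≤ 2 * CL * (m2 * T) + |c1 * g1 + c2 * g2| := by
      have := abs_sub_abs_le_abs_sub B (c1 * g1 + c2 * g2)
      linarith
    have h4 : |B| ≤ T * (2 * CL * C1 * kap + 2 * CL * C1 * Real.sqrt kap) := by
      calc |B| ≤ 2 * CL * (C1 * Real.sqrt kap * T) +
            ((C1 * kap) * (CL * T) + (C1 * kap) * (CL * T)) := by linarith
        _ = T * (2 * CL * C1 * kap + 2 * CL * C1 * Real.sqrt kap) := by ring
    exact h4.trans (mul_le_mul_of_nonneg_right hT1 (by positivity))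
  -- conclusion
  have hcc : c1 ^ 2 + c2 ^ 2 ≤ 2 * C1 ^ 2 * kap := by
    have h1 : c1 ^ 2 ≤ (C1 * kap) ^ 2 := sq_le_sq' (by linarith [(abs_le.1 hc.c1).1])
      (abs_le.1 hc.c1).2
    have h2 : c2 ^ 2 ≤ (C1 * kap) ^ 2 := sq_le_sq' (by linarith [(abs_le.1 hc.c2).1])
      (abs_le.1 hc.c2).2
    have h3 : (C1 * kap) ^ 2 ≤ C1 ^ 2 * kap := by
      have : kap ^ 2 ≤ kap := by
        rw [sq]
        exact mul_le_of_le_one_right hkap.le hkap1
      calc (C1 * kap) ^ 2 = C1 ^ 2 * kap ^ 2 := by ring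
        _ ≤ C1 ^ 2 * kap := mul_le_mul_of_nonneg_left this (by positivity)
    linarith
  have hcc0 : 0 ≤ c1 ^ 2 + c2 ^ 2 := by positivity
  have hid : 4 * π * TT + 2 * t ^ 2 - 4 * π * t * m2 =
      4 * π * (TT - A - 2 * B) + 8 * π * B +
      4 * π * (A - (-(1 / (2 * π)) * t ^ 2 + (t * m2 - c1 ^ 2 - c2 ^ 2))) -
      4 * π * (c1 ^ 2 + c2 ^ 2) := by
    field_simp
    ring
  rw [hid]
  have b1 : |4 * π * (TT - A - 2 * B)| ≤ 4 * π * (4 * M * (C1 * kap)) := by
    rw [abs_mul, abs_of_pos (by positivity : 0 < 4 * π)]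
    exact mul_le_mul_of_nonneg_left hstep1' (by positivity)
  have b2 : |8 * π * B| ≤
      8 * π * ((1 - t) * (2 * CL * C1 * kap + 2 * CL * C1 * Real.sqrt kap)) := by
    rw [abs_mul, abs_of_pos (by positivity : 0 < 8 * π)]
    exact mul_le_mul_of_nonneg_left hstep3 (by positivity)
  have b3 : |4 * π * (A - (-(1 / (2 * π)) * t ^ 2 + (t * m2 - c1 ^ 2 - c2 ^ 2)))| ≤
      4 * π * (16 * C0 * (C1 * kap)) := by
    rw [abs_mul, abs_of_pos (by positivity : 0 < 4 * π)]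
    exact mul_le_mul_of_nonneg_left hstep2 (by positivity)
  have b4 : |4 * π * (c1 ^ 2 + c2 ^ 2)| ≤ 4 * π * (2 * C1 ^ 2 * kap) := by
    rw [abs_of_nonneg (by positivity)]
    exact mul_le_mul_of_nonneg_left hcc (by positivity)
  have b5 : (1 - t) * kap ≤ kap := mul_le_of_le_one_left hkap.le (by linarith)
  have b6 : 8 * π * ((1 - t) * (2 * CL * C1 * kap + 2 * CL * C1 * Real.sqrt kap)) ≤
      16 * π * CL * C1 * kap + 16 * π * CL * C1 * ((1 - t) * Real.sqrt kap) := by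
    have : 16 * π * CL * C1 * ((1 - t) * kap) ≤ 16 * π * CL * C1 * kap :=
      mul_le_mul_of_nonneg_left b5 (by positivity)
    have e : 8 * π * ((1 - t) * (2 * CL * C1 * kap + 2 * CL * C1 * Real.sqrt kap)) =
        16 * π * CL * C1 * ((1 - t) * kap) + 16 * π * CL * C1 * ((1 - t) * Real.sqrt kap) := by
      ring
    linarith
  have h1t : 0 ≤ (1 - t) * Real.sqrt kap := mul_nonneg (by linarith) hsk.le
  have hfin : |4 * π * (TT - A - 2 * B) + 8 * π * B +
      4 * π * (A - (-(1 / (2 * π)) * t ^ 2 + (t * m2 - c1 ^ 2 - c2 ^ 2))) -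
      4 * π * (c1 ^ 2 + c2 ^ 2)| ≤
      4 * π * (4 * M * (C1 * kap)) + (16 * π * CL * C1 * kap +
        16 * π * CL * C1 * ((1 - t) * Real.sqrt kap)) +
      4 * π * (16 * C0 * (C1 * kap)) + 4 * π * (2 * C1 ^ 2 * kap) := by
    refine (abs_sub _ _).trans ?_
    refine add_le_add ((abs_add_le _ _).trans (add_le_add ((abs_add_le _ _).trans
      (add_le_add b1 (b2.trans b6))) b3)) b4
  refine hfin.trans ?_
  have hexp : (16 * π * M * C1 + 64 * π * C0 * C1 + 8 * π * C1 ^ 2 + 32 * π * CL * C1) *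
      (kap + (1 - t) * Real.sqrt kap) =
      (4 * π * (4 * M * (C1 * kap)) + (16 * π * CL * C1 * kap +
        16 * π * CL * C1 * ((1 - t) * Real.sqrt kap)) +
      4 * π * (16 * C0 * (C1 * kap)) + 4 * π * (2 * C1 ^ 2 * kap)) +
      (16 * π * CL * C1 * kap + (16 * π * M * C1 + 64 * π * C0 * C1 + 8 * π * C1 ^ 2 +
        16 * π * CL * C1) * ((1 - t) * Real.sqrt kap)) := by ring
  rw [hexp]
  have : 0 ≤ 16 * π * CL * C1 * kap + (16 * π * M * C1 + 64 * π * C0 * C1 + 8 * π * C1 ^ 2 +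
      16 * π * CL * C1) * ((1 - t) * Real.sqrt kap) := by positivity
  linarith

end Pool.Agent.AO
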