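import Pool.Agent.Lib.MP_10e52e_an.Dens
import Pool.Agent.Lib.MP_10e52e_an.Ident
import Pool.Agent.Lib.MP_10e52e_an.BW
import Pool.Agent.Lib.MP_10e52e_an.Bpair
import Pool.Agent.Lib.MP_10e52e_an.BU

/-! MP_10e52e_an row Bfin: L9.10 -/

namespace Pool.Agent.AO

open MeasureTheory Set Real
open scoped ContDiff

theorem bfin_nrm_cont : Continuous nrm := by
  unfold nrm nsq
  fun_prop

theorem bfin_disc_meas (r : ℝ) : MeasurableSet (Disc r) :=
  (isOpen_lt bfin_nrm_cont continuous_const).measurableSet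

theorem bfin_disc_sub {r : ℝ} (hr : 0 < r) (hr' : r ≤ 1 / 4) : Disc r ⊆ Q := by
  intro x hx
  have h : nrm x < r := hx
  unfold nrm at h
  have h2 : nsq x < r ^ 2 := (Real.sqrt_lt' hr).1 h
  unfold nsq at h2
  have h3 : r ^ 2 ≤ (1 / 4) ^ 2 := pow_le_pow_left₀ hr.le hr' 2
  have a1 : |x.1| < 1 / 2 := by
    apply abs_lt_of_sq_lt_sq _ (by norm_num)
    nlinarith [sq_nonneg x.2]
  have a2 : |x.2| < 1 / 2 := by
    apply abs_lt_of_sq_lt_sq _ (by norm_num)
    nlinarith [sq_nonneg x.1]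
  rw [abs_lt] at a1 a2
  unfold Q
  refine ⟨⟨?_, ?_⟩, ⟨?_, ?_⟩⟩ <;> linarith [a1.1, a1.2, a2.1, a2.2]

theorem bfin_int {f : ℝ × ℝ → ℝ} (hf : Continuous f) : IntegrableOn f Q := by
  have h : Q ⊆ Icc (-1 / 2 : ℝ) (1 / 2) ×ˢ Icc (-1 / 2 : ℝ) (1 / 2) :=
    prod_mono Ioc_subset_Icc_self Ioc_subset_Icc_self
  exact (hf.continuousOn.integrableOn_compact (isCompact_Icc.prod isCompact_Icc)).mono_set h

/-- L9.10 -/
theorem c2_final {K R : ℝ × ℝ → ℝ} (hG : IsGreen K R) {rp : ℝ} (hrp : GoodRp K rp) {r1 : ℝ}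
    (hr : 0 < r1) (hr' : r1 ≤ 1 / 32) {r3 : ℝ} (hr3 : 0 < r3) (hr31 : 64 * r3 ≤ r1)
    (hr3p : 64 * r3 ≤ rp) {C1 : ℝ} (hC1 : 0 < C1) :
    ∃ C : ℝ, 0 < C ∧ ∀ (N : ℕ) (z : ℝ × ℝ) (k kap : ℝ) (mu s : ℝ × ℝ → ℝ), 3 ≤ N →
      Conc K N z k mu s rp r1 r3 kap C1 → 0 < kap → kap ≤ 1 →
      (∀ x, lam N - s x ≤ C1 * lam N ^ 3 * (nrm x + TI (fun y => nrm y * mu y)) ^ 2) →
      (1 - ∫ x in Disc r3, mu x) ≤
        C * N ^ 4 * (kap + (1 - ∫ x in Disc r3, mu x) * Real.sqrt kap) := by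
  obtain ⟨CW, hCW, hW⟩ := c2_Wpart hG hrp hr hr' hr3 hr31 hr3p hC1
  obtain ⟨CP, hCP, hP⟩ := c2_pair hG hrp hr hr' hr3 hr31 hr3p hC1
  obtain ⟨CU, hCU, hU⟩ := c2_Upart hG hrp hr hr' hr3 hr31 hr3p hC1
  refine ⟨2 * (CW + CP + 2 * CU), by positivity, ?_⟩
  intro N z k kap mu s hN hc hk hk1 hs
  have hW' := hW N z k kap mu s hN hc hk hk1 hs
  have hP' := hP N z k kap mu s hN hc hk hk1
  obtain ⟨hU1, hU2⟩ := hU N z k kap mu s hN hc hk hk1
  have hr38 : r3 ≤ 1 / 8 := by linarith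
  obtain ⟨s1, p1, -⟩ := Xr_basic hr3 hr38 (f := fun x : ℝ × ℝ => x.1) contDiff_fst
  obtain ⟨s2, p2, -⟩ := Xr_basic hr3 hr38 (f := fun x : ℝ × ℝ => x.2) contDiff_snd
  have hvv := vv hG (by omega : 1 ≤ N) hc.mf (s1.of_le (by exact_mod_cast le_top)) p1
    (s2.of_le (by exact_mod_cast le_top)) p2
  have hmc : Continuous mu := hc.mf.smu.continuous
  have hsub : Disc r3 ⊆ Q := bfin_disc_sub hr3 (by linarith)
  have hmI : IntegrableOn mu Q := bfin_int hmc
  have ht1 : ∫ x in Disc r3, mu x ≤ 1 := by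
    have := hc.mf.one
    unfold TI at this
    rw [← this]
    exact setIntegral_mono_set hmI (Filter.Eventually.of_forall fun x => hc.mf.nn x)
      hsub.eventuallyLE
  have hnc : Continuous nsq := by unfold nsq; fun_prop
  have hq : ∫ x in Disc r3, nsq x * mu x ≤ r3 ^ 2 * ∫ x in Disc r3, mu x := by
    rw [← integral_const_mul]
    refine setIntegral_mono_on ?_ ?_ (bfin_disc_meas r3) ?_
    · exact (bfin_int (hnc.mul hmc)).mono_set hsub
    · exact (hmI.mono_set hsub).const_mul _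
    · intro x hx
      have h : nrm x < r3 := hx
      have h2 : nsq x < r3 ^ 2 := (Real.sqrt_lt' hr3).1 h
      exact mul_le_mul_of_nonneg_right h2.le (hc.mf.nn x)
  have hq0 : 0 ≤ ∫ x in Disc r3, nsq x * mu x := by
    apply setIntegral_nonneg (bfin_disc_meas r3)
    intro x _
    exact mul_nonneg (by unfold nsq; positivity) (hc.mf.nn x)
  have ht9 := hc.t9
  unfold lam at hW'
  set t := ∫ x in Disc r3, mu x with ht
  set q := ∫ x in Disc r3, nsq x * mu x with hqd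
  set TA := TI (fun x => mu x * (D1 (Xr r3 (fun x => x.1)) x + D2 (Xr r3 (fun x => x.2)) x))
    with hTA
  set TP := TI (fun x => TI (fun y => mu x * mu y *
          PX K (Xr r3 (fun x => x.1)) (Xr r3 (fun x => x.2)) x y)) with hTP
  set TW := TI (fun x => mu x * (Xr r3 (fun x => x.1) x * conv (D1 (Gf K)) s x +
          Xr r3 (fun x => x.2) x * conv (D2 (Gf K)) s x)) with hTW
  set TU := TI (fun x => mu x * (Xr r3 (fun x => x.1) x * D1 (Uz K z) x +
          Xr r3 (fun x => x.2) x * D2 (Uz K z) x)) with hTU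
  clear_value t q TA TP TW TU
  have hN1 : (3 : ℝ) ≤ N := by exact_mod_cast hN
  have hN4 : (1 : ℝ) ≤ (N : ℝ) ^ 4 := one_le_pow₀ (by linarith)
  have hN2 : (N : ℝ) * N ≤ (N : ℝ) ^ 4 := by
    have h1 : (1 : ℝ) ≤ (N : ℝ) * N :=
      one_le_mul_of_one_le_of_one_le (by linarith) (by linarith)
    have h2 : (N : ℝ) ^ 4 = (N * N) * (N * N) := by ring
    rw [h2]
    exact le_mul_of_one_le_left (by positivity) h1
  have hE0 : 0 ≤ kap + (1 - t) * √kap := by
    have := Real.sqrt_nonneg kap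
    have : 0 ≤ (1 - t) * √kap := mul_nonneg (by linarith) this
    linarith
  have hkE : kap ≤ kap + (1 - t) * √kap := by
    have := Real.sqrt_nonneg kap
    have : 0 ≤ (1 - t) * √kap := mul_nonneg (by linarith) this
    linarith
  set E := kap + (1 - t) * √kap with hE
  clear_value E
  have e1 := (abs_le.1 hW').1
  have e1' := (abs_le.1 hW').2
  have e2 := (abs_le.1 hP').1
  have e2' := (abs_le.1 hP').2
  have e3 := (abs_le.1 hU1).1
  have e3' := (abs_le.1 hU1).2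
  have e4 := (abs_le.1 hU2).1
  have e4' := (abs_le.1 hU2).2
  -- the main identity
  have key : 2 * t * (1 - t) - 4 * π * (1 - t) * q ≤
      CW * N ^ 4 * E + CP * E + CU * kap + N * (CU * N * kap) := by
    have hNU : N * (TU + 2 * π * q) ≥ -(N * (CU * N * kap)) := by
      have := mul_le_mul_of_nonneg_left e3 (by linarith : (0 : ℝ) ≤ N)
      linarith
    linarith [hvv, e1, e2, e4, hNU]
  have hb1 : CP * E ≤ CP * N ^ 4 * E := by
    have := mul_le_mul_of_nonneg_right hN4 (mul_nonneg hCP.le hE0)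
    linarith
  have hb2 : CU * kap ≤ CU * N ^ 4 * E := by
    have h1 : CU * kap ≤ CU * E := mul_le_mul_of_nonneg_left hkE hCU.le
    have h2 := mul_le_mul_of_nonneg_right hN4 (mul_nonneg hCU.le hE0)
    linarith
  have hb3 : N * (CU * N * kap) ≤ CU * N ^ 4 * E := by
    have h1 : N * (CU * N * kap) = CU * (N * N) * kap := by ring
    rw [h1]
    have h2 : CU * (N * N) * kap ≤ CU * (N : ℝ) ^ 4 * kap :=
      mul_le_mul_of_nonneg_right (mul_le_mul_of_nonneg_left hN2 hCU.le) hk.le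
    exact h2.trans (mul_le_mul_of_nonneg_left hkE (by positivity))
  have hpi : π ≤ 4 := Real.pi_le_four
  have hq2 : 4 * π * q ≤ 1 / 2 := by
    have h1 : q ≤ r3 ^ 2 * 1 := hq.trans (mul_le_mul_of_nonneg_left ht1 (by positivity))
    have h2 : r3 ^ 2 ≤ (1 / 64) ^ 2 := pow_le_pow_left₀ hr3.le (by linarith) 2
    have h3 : q ≤ 1 / 4096 := by
      refine h1.trans ?_
      norm_num at h2 ⊢
      exact h2
    have h4 : 4 * π * q ≤ 4 * 4 * q := by
      have : 4 * π ≤ 4 * 4 := by linarith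
      exact mul_le_mul_of_nonneg_right this hq0
    linarith
  have hfin : (1 - t) / 2 ≤ 2 * t * (1 - t) - 4 * π * (1 - t) * q := by
    have h0 : 0 ≤ 1 - t := by linarith
    have h1 : 1 / 2 ≤ 2 * t - 4 * π * q := by linarith
    have := mul_le_mul_of_nonneg_left h1 h0
    linarith
  have hall : (1 - t) / 2 ≤ (CW + CP + 2 * CU) * N ^ 4 * E := by
    refine hfin.trans (key.trans ?_)
    have : (CW + CP + 2 * CU) * N ^ 4 * E =
        CW * N ^ 4 * E + CP * N ^ 4 * E + CU * N ^ 4 * E + CU * N ^ 4 * E := by ring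
    rw [this]
    linarith
  have : 2 * (CW + CP + 2 * CU) * N ^ 4 * E = 2 * ((CW + CP + 2 * CU) * N ^ 4 * E) := by ring
  rw [this]
  linarith

end Pool.Agent.AO
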