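import Pool.Agent.Lib.MP_10e52e_an.Dens
import Pool.Agent.Lib.MP_10e52e_an.Bcen
import Pool.Agent.Lib.MP_10e52e_an.Bfin

/-! MP_10e52e_an row Bmain: L9.11 -/

namespace Pool.Agent.AO

open MeasureTheory Set Real
open scoped ContDiff

theorem bmain_nrm_tri (x y : ℝ × ℝ) : nrm (x + y) ≤ nrm x + nrm y := by
  have h : ∀ x : ℝ × ℝ, nrm x = ‖(⟨x.1, x.2⟩ : ℂ)‖ := by
    intro x
    rw [Complex.norm_def, Complex.normSq_mk, nrm, nsq]
    congr 1
    ring
  rw [h, h, h]
  have : (⟨(x + y).1, (x + y).2⟩ : ℂ) = ⟨x.1, x.2⟩ + ⟨y.1, y.2⟩ := by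
    apply Complex.ext <;> simp
  rw [this]
  exact norm_add_le _ _

theorem bmain_nrm_mono {x y : ℝ × ℝ} (h1 : |x.1| ≤ |y.1|) (h2 : |x.2| ≤ |y.2|) :
    nrm x ≤ nrm y := by
  apply Real.sqrt_le_sqrt
  exact add_le_add (sq_le_sq.2 h1) (sq_le_sq.2 h2)

theorem bmain_nrm_neg (x : ℝ × ℝ) : nrm (-x) = nrm x := by
  simp [nrm, nsq]

theorem bmain_nrm_nonneg (x : ℝ × ℝ) : 0 ≤ nrm x := Real.sqrt_nonneg _

theorem bmain_tn_le (x : ℝ × ℝ) (m n : ℤ) : tn x ≤ nrm (x.1 - m, x.2 - n) :=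
  bmain_nrm_mono (round_le x.1 m) (round_le x.2 n)

theorem bmain_tn_tri (x z : ℝ × ℝ) : tn z ≤ tn (x + z) + nrm x := by
  have h1 := bmain_tn_le z (round (x.1 + z.1)) (round (x.2 + z.2))
  have h2 : ((z.1 - (round (x.1 + z.1) : ℝ), z.2 - (round (x.2 + z.2) : ℝ)) : ℝ × ℝ) =
      ((x + z).1 - (round (x + z).1 : ℝ), (x + z).2 - (round (x + z).2 : ℝ)) + (-x) := by
    ext
    · simp only [Prod.fst_add, Prod.snd_add, Prod.fst_neg]
      ring
    · simp only [Prod.fst_add, Prod.snd_add, Prod.snd_neg]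
      ring
  rw [h2] at h1
  refine h1.trans ((bmain_nrm_tri _ _).trans ?_)
  rw [bmain_nrm_neg]
  exact le_refl _

theorem bmain_tn_per : Per tn := by
  intro x
  constructor
  · simp [tn, round_add_one]
  · simp [tn, round_add_one]

theorem bmain_tn_disc {x : ℝ × ℝ} (h : nrm x < 1 / 2) : tn x = nrm x := by
  have h1 : |x.1| < 1 / 2 := by
    refine lt_of_le_of_lt ?_ h
    rw [← Real.sqrt_sq_eq_abs]
    apply Real.sqrt_le_sqrt
    simp only [nsq]
    nlinarith [sq_nonneg x.2]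
  have h2 : |x.2| < 1 / 2 := by
    refine lt_of_le_of_lt ?_ h
    rw [← Real.sqrt_sq_eq_abs]
    apply Real.sqrt_le_sqrt
    simp only [nsq]
    nlinarith [sq_nonneg x.1]
  have r1 : round x.1 = 0 := by
    rw [round_eq_zero_iff, mem_Ico]
    constructor <;> linarith [(abs_lt.1 h1).1, (abs_lt.1 h1).2]
  have r2 : round x.2 = 0 := by
    rw [round_eq_zero_iff, mem_Ico]
    constructor <;> linarith [(abs_lt.1 h2).1, (abs_lt.1 h2).2]
  simp [tn, r1, r2]

theorem bmain_disc_Q {a : ℝ} (ha : a ≤ 1 / 2) : Disc a ⊆ Q := by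
  intro x hx
  have h : nrm x < 1 / 2 := lt_of_lt_of_le hx ha
  have h1 : |x.1| < 1 / 2 := by
    refine lt_of_le_of_lt ?_ h
    rw [← Real.sqrt_sq_eq_abs]
    apply Real.sqrt_le_sqrt
    simp only [nsq]
    nlinarith [sq_nonneg x.2]
  have h2 : |x.2| < 1 / 2 := by
    refine lt_of_le_of_lt ?_ h
    rw [← Real.sqrt_sq_eq_abs]
    apply Real.sqrt_le_sqrt
    simp only [nsq]
    nlinarith [sq_nonneg x.1]
  have a1 := abs_lt.1 h1
  have a2 := abs_lt.1 h2
  exact ⟨⟨by linarith [a1.1], by linarith [a1.2]⟩, ⟨by linarith [a2.1], by linarith [a2.2]⟩⟩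

theorem bmain_rep1 (t : ℝ) : ∃ m : ℤ, t + m ∈ Ioc (-1 / 2 : ℝ) (1 / 2) ∧
    (t + m) ^ 2 = (t - round t) ^ 2 := by
  have h := abs_le.1 (abs_sub_round t)
  by_cases h1 : t - round t = -1 / 2
  · refine ⟨-round t + 1, ?_, ?_⟩
    · push_cast
      constructor <;> linarith
    · push_cast
      have : t + (-(round t : ℝ) + 1) = 1 / 2 := by linarith
      rw [this, h1]
      norm_num
  · refine ⟨-round t, ?_, ?_⟩
    · push_cast
      refine ⟨?_, by linarith [h.2]⟩
      rcases lt_or_eq_of_le h.1 with h2 | h2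
      · linarith
      · exact absurd (by linarith) h1
    · push_cast
      ring

theorem bmain_per_int {f : ℝ × ℝ → ℝ} (hp : Per f) (x : ℝ × ℝ) (m n : ℤ) :
    f (x.1 + m, x.2 + n) = f x := by
  have h1 : ∀ b : ℝ, Function.Periodic (fun t => f (t, b)) 1 := fun b t => (hp (t, b)).1
  have h2 : ∀ a : ℝ, Function.Periodic (fun t => f (a, t)) 1 := fun a t => (hp (a, t)).2
  have e1 := (h1 (x.2 + n)).int_mul m x.1
  have e2 := (h2 x.1).int_mul n x.2
  simp only [mul_one] at e1 e2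
  rw [e1, e2]

/-- (U1) away from the lattice -/
theorem bmain_far {K R : ℝ × ℝ → ℝ} (hG : IsGreen K R) {r1 : ℝ} (hr : 0 < r1) :
    ∃ q : ℝ, 0 < q ∧ q < 1 ∧ ∀ x, r1 / 2 ≤ tn x → K (x - pt) ≤ q * K pt := by
  obtain ⟨c, hc, h⟩ := U_upper hG
  refine ⟨Real.exp (-(c * (r1 / 2) ^ 2)), Real.exp_pos _, ?_, ?_⟩
  · rw [Real.exp_lt_one_iff]
    have : 0 < c * (r1 / 2) ^ 2 := by positivity
    linarith
  · intro x hx
    obtain ⟨m, hm, hm'⟩ := bmain_rep1 x.1
    obtain ⟨n, hn, hn'⟩ := bmain_rep1 x.2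
    have hp : Per (fun x => K (x - pt)) := by
      intro y
      have := hG.per (y - pt)
      constructor
      · have e : ((y.1 + 1, y.2) : ℝ × ℝ) - pt = ((y - pt).1 + 1, (y - pt).2) := by
          ext
          · simp; ring
          · simp
        show K ((y.1 + 1, y.2) - pt) = K (y - pt)
        rw [e]
        exact this.1
      · have e : ((y.1, y.2 + 1) : ℝ × ℝ) - pt = ((y - pt).1, (y - pt).2 + 1) := by
          ext
          · simp
          · simp; ring
        show K ((y.1, y.2 + 1) - pt) = K (y - pt)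
        rw [e]
        exact this.2
    have h1 := bmain_per_int hp x m n
    have h2 := h (x.1 + m, x.2 + n) ⟨hm, hn⟩
    rw [← h1]
    refine h2.trans ?_
    rw [mul_comm (Real.exp _)]
    apply mul_le_mul_of_nonneg_left _ (hG.nonneg pt)
    apply Real.exp_le_exp.2
    have h3 : nsq (x.1 + m, x.2 + n) = tn x ^ 2 := by
      rw [tn, nrm, Real.sq_sqrt]
      · simp only [nsq]
        rw [hm', hn']
      · simp only [nsq]; positivity
    rw [h3]
    have h4 : (r1 / 2) ^ 2 ≤ tn x ^ 2 := by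
      apply pow_le_pow_left₀ (by positivity) hx
    nlinarith

/-- masses of a small disc about 0 and of a disc about `z` -/
theorem bmain_sep {mu : ℝ × ℝ → ℝ} (hmu : Continuous mu) (hp : Per mu) (nn : ∀ x, 0 ≤ mu x)
    (one : TI mu = 1) {z : ℝ × ℝ} {r a : ℝ} (hr : r ≤ 1 / 2) (ha : a ≤ 1 / 2)
    (hz : r + a ≤ tn z) :
    (∫ x in Disc r, mu (x + z)) + ∫ x in Disc a, mu x ≤ 1 := by
  classical
  have hQm : MeasurableSet Q := measurableSet_Ioc.prod measurableSet_Ioc
  have hnrm : Measurable nrm := by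
    unfold nrm nsq
    fun_prop
  have hDm : ∀ r, MeasurableSet (Disc r) := fun r => measurableSet_lt hnrm measurable_const
  have htn : Measurable tn := by
    have h1 : Measurable fun x : ℝ × ℝ => (x.1 - (round x.1 : ℝ), x.2 - (round x.2 : ℝ)) := by
      apply Measurable.prodMk
      · apply measurable_fst.sub
        have : Measurable (fun t : ℝ => (round t : ℤ)) := by
          simp only [round_eq]
          fun_prop
        exact (measurable_of_countable (fun n : ℤ => (n : ℝ))).comp (this.comp measurable_fst)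
      · apply measurable_snd.sub
        have : Measurable (fun t : ℝ => (round t : ℤ)) := by
          simp only [round_eq]
          fun_prop
        exact (measurable_of_countable (fun n : ℤ => (n : ℝ))).comp (this.comp measurable_snd)
    exact hnrm.comp h1
  have hSm : MeasurableSet {x | tn x < a} := measurableSet_lt htn measurable_const
  have hint : ∀ f : ℝ × ℝ → ℝ, Continuous f → IntegrableOn f Q := by
    intro f hf
    have hc : IsCompact (Icc (-1 / 2 : ℝ) (1 / 2) ×ˢ Icc (-1 / 2 : ℝ) (1 / 2)) :=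
      isCompact_Icc.prod isCompact_Icc
    exact (hf.continuousOn.integrableOn_compact hc).mono_set
      (prod_mono Ioc_subset_Icc_self Ioc_subset_Icc_self)
  have hI := hint mu hmu
  have hmuz : Continuous (fun x => mu (x + z)) := hmu.comp (continuous_id.add continuous_const)
  have hIz := hint _ hmuz
  set f : ℝ × ℝ → ℝ := {x | tn x < a}.indicator mu with hf
  have hfp : Per f := by
    intro x
    have h1 := bmain_tn_per x
    have h2 := hp x
    constructor
    · simp only [hf, indicator, mem_ofPred_eq, h1.1, h2.1]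
    · simp only [hf, indicator, mem_ofPred_eq, h1.2, h2.2]
  have hfi : IntegrableOn f Q := hI.indicator hSm
  have e1 : TI (fun x => f (x + z)) = TI f := TI_shift hfp hfi z
  have e2 : ∫ x in Disc a, mu x ≤ TI f := by
    have h1 : ∫ x in Disc a, mu x = ∫ x in Disc a, f x := by
      apply setIntegral_congr_fun (hDm a)
      intro x hx
      have hx' : nrm x < a := hx
      have : tn x < a := by
        rw [bmain_tn_disc (lt_of_lt_of_le hx' ha)]
        exact hx'
      simp only [hf]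
      rw [indicator_of_mem (show x ∈ {x | tn x < a} from this)]
    rw [h1]
    apply setIntegral_mono_set hfi
    · exact Filter.Eventually.of_forall fun x => indicator_nonneg (fun y _ => nn y) x
    · exact (bmain_disc_Q ha).eventuallyLE
  have e3 : TI (fun x => f (x + z)) ≤ ∫ x in Q \ Disc r, mu (x + z) := by
    have hfz : ∀ x, f (x + z) ≤ mu (x + z) := fun x => indicator_le_self' (fun y _ => nn y) _
    have h1 : TI (fun x => f (x + z)) = ∫ x in Q, (Q \ Disc r).indicator (fun x => f (x + z)) x := by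
      apply setIntegral_congr_fun hQm
      intro x hx
      simp only
      by_cases hx' : x ∈ Disc r
      · rw [indicator_of_notMem (by simp [hx'])]
        have h3 := bmain_tn_tri x z
        have h4 : nrm x < r := hx'
        simp only [hf]
        rw [indicator_of_notMem]
        intro h5
        have h6 : tn (x + z) < a := h5
        linarith
      · rw [indicator_of_mem (show x ∈ Q \ Disc r from ⟨hx, hx'⟩)]
    rw [h1]
    have hS : MeasurableSet (Q \ Disc r) := hQm.diff (hDm r)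
    rw [setIntegral_indicator hS, inter_eq_self_of_subset_right sdiff_subset]
    have hfm : Measurable f := hmu.measurable.indicator hSm
    have hb : IntegrableOn (fun x => mu (x + z)) (Q \ Disc r) := hIz.mono_set sdiff_subset
    apply setIntegral_mono _ hb hfz
    apply Integrable.mono' hb
    · exact (hfm.comp (measurable_id.add_const z)).aestronglyMeasurable
    · apply Filter.Eventually.of_forall
      intro x
      rw [Real.norm_of_nonneg (indicator_nonneg (fun y _ => nn y) _)]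
      exact hfz x
  have e4 : TI (fun x => mu (x + z)) = 1 := by rw [TI_shift hp hI z, one]
  have e5 : (∫ x in Disc r, mu (x + z)) + ∫ x in Q \ Disc r, mu (x + z) = 1 := by
    rw [← e4]
    have h7 := setIntegral_union (f := fun x => mu (x + z)) (μ := volume)
      (disjoint_sdiff_right (s := Disc r) (t := Q)) (hQm.diff (hDm r))
      (hIz.mono_set (bmain_disc_Q hr)) (hIz.mono_set sdiff_subset)
    rw [union_sdiff_cancel (bmain_disc_Q hr)] at h7
    rw [TI, h7]
  linarith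

theorem bmain_conc {K : ℝ × ℝ → ℝ} {N : ℕ} {z : ℝ × ℝ} {k : ℝ} {mu s : ℝ × ℝ → ℝ}
    {rp r1 r3 kap C C' : ℝ} (h : Conc K N z k mu s rp r1 r3 kap C) (hC : C ≤ C')
    (hk : 0 ≤ kap) : Conc K N z k mu s rp r1 r3 kap C' where
  mf := h.mf
  t9 := h.t9
  m1 := h.m1.trans (mul_le_mul_of_nonneg_right hC (Real.sqrt_nonneg _))
  m3 := h.m3.trans (mul_le_mul_of_nonneg_right hC hk)
  c1 := h.c1.trans (mul_le_mul_of_nonneg_right hC hk)
  c2 := h.c2.trans (mul_le_mul_of_nonneg_right hC hk)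
  ring := h.ring.trans (mul_le_mul_of_nonneg_right hC hk)
  far := h.far
  zfar := h.zfar

theorem bmain_pow {q : ℝ} (h0 : 0 < q) (h1 : q < 1) (A e : ℝ) (j : ℕ) (he : 0 < e) :
    ∃ N0 : ℕ, ∀ N : ℕ, N0 ≤ N → A * ((N : ℝ) ^ j * q ^ N) < e := by
  have h := tendsto_pow_const_mul_const_pow_of_abs_lt_one j
    (show |q| < 1 by rw [abs_of_pos h0]; exact h1)
  have h2 := h.const_mul A
  rw [mul_zero] at h2
  have h3 := h2.eventually (gt_mem_nhds he)
  obtain ⟨N0, hN0⟩ := Filter.eventually_atTop.1 h3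
  exact ⟨N0, hN0⟩

/-- Case 2 is impossible (L9.11) -/
theorem case2 {K R : ℝ × ℝ → ℝ} (hG : IsGreen K R) {r1 : ℝ} (hr : 0 < r1) (hr' : r1 ≤ 1 / 32) :
    ∃ N0 : ℕ, ∀ (N : ℕ) (mu om : ℝ × ℝ → ℝ), N0 ≤ N → IsSol K N mu om → NoFar mu r1 := by
  obtain ⟨rp, hrp0, hrp1, hrp2⟩ := (U_sign hG).2.2
  have hrp : GoodRp K rp := ⟨hrp0, hrp1, hrp2⟩
  set r3 : ℝ := min r1 rp / 64 with hr3d
  have hmin : 0 < min r1 rp := lt_min hr hrp0
  have hr3 : 0 < r3 := by positivity
  have hr31 : 64 * r3 ≤ r1 := by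
    have := min_le_left r1 rp
    rw [hr3d]; linarith
  have hr3p : 64 * r3 ≤ rp := by
    have := min_le_right r1 rp
    rw [hr3d]; linarith
  obtain ⟨C, hC, e, he, N1, hcen⟩ := c2_center hG hrp hr hr' hr3 hr31 hr3p
  obtain ⟨Cw, hCw, hW⟩ := W_bound hG
  obtain ⟨C0, hC0, N2, hmass⟩ := mass_center hG
  obtain ⟨q, hq0, hq1, hq⟩ := bmain_far hG hr
  set C1 : ℝ := max C Cw with hC1d
  have hC1 : 0 < C1 := lt_of_lt_of_le hC (le_max_left _ _)
  obtain ⟨C2, hC2, hfin⟩ := c2_final hG hrp hr hr' hr3 hr31 hr3p hC1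
  obtain ⟨N3, hN3⟩ := bmain_pow hq0 hq1 C0 (min e 1) 5 (lt_min he one_pos)
  obtain ⟨N4, hN4⟩ := bmain_pow hq0 hq1 (4 * C2 ^ 2 * C0) 1 11 one_pos
  obtain ⟨N5, hN5⟩ := bmain_pow hq0 hq1 (2 * C2 * C0) 1 7 one_pos
  obtain ⟨N6, hN6⟩ := exists_nat_gt ((4 / r1) ^ 2)
  refine ⟨max (max (max N1 N2) (max N3 N4)) (max (max N5 N6) 3), ?_⟩
  intro N mu om hN hs
  have g1 : N1 ≤ N := le_trans (by simp) hN
  have g2 : N2 ≤ N := le_trans (by simp) hN
  have g3 : N3 ≤ N := le_trans (by simp) hN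
  have g4 : N4 ≤ N := le_trans (by simp) hN
  have g5 : N5 ≤ N := le_trans (by simp) hN
  have g6 : N6 ≤ N := le_trans (by simp) hN
  have g7 : 3 ≤ N := le_trans (by simp) hN
  have hNr : (3 : ℝ) ≤ N := by exact_mod_cast g7
  have hNpos : (0 : ℝ) < N := by linarith
  by_contra hno
  obtain ⟨k, hMF⟩ := sol_MF hG (le_trans (by norm_num) g7) hs
  have hk := hMF.kpos
  have hKpt : 0 < K pt := by
    refine lt_of_le_of_ne (hG.nonneg pt) fun h => ?_
    obtain ⟨m, n, hmn⟩ := (hG.zero_iff pt).1 h.symm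
    have h1 : (1 / 2 : ℝ) = m := congrArg Prod.fst hmn
    have h2 : (1 : ℝ) = ((2 * m : ℤ) : ℝ) := by push_cast; linarith
    have h3 : (1 : ℤ) = 2 * m := by exact_mod_cast h2
    omega
  set kap0 : ℝ := k * K pt ^ N with hkap0
  have hkap0pos : 0 < kap0 := by positivity
  obtain ⟨m1, m2, -⟩ := hmass N k mu (sg N om) g2 hMF
  set kap : ℝ := q ^ N * kap0 with hkapd
  have hkap : 0 < kap := by positivity
  have hkapb : ∀ x, r1 / 2 ≤ tn x → k * K (x - pt) ^ N ≤ kap := by
    intro x hx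
    have h1 : K (x - pt) ^ N ≤ (q * K pt) ^ N := pow_le_pow_left₀ (hG.nonneg _) (hq x hx) N
    calc k * K (x - pt) ^ N ≤ k * (q * K pt) ^ N := mul_le_mul_of_nonneg_left h1 hk.le
      _ = kap := by rw [hkapd, hkap0, mul_pow]; ring
  have hqN : 0 < q ^ N := by positivity
  have hkle : kap ≤ C0 * ((N : ℝ) ^ 3 * q ^ N) := by
    calc kap = q ^ N * kap0 := rfl
      _ ≤ q ^ N * (C0 * N ^ 3) := mul_le_mul_of_nonneg_left m2 hqN.le
      _ = _ := by ring
  have hN3' := hN3 N g3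
  have h35 : C0 * ((N : ℝ) ^ 3 * q ^ N) * N ^ 2 = C0 * ((N : ℝ) ^ 5 * q ^ N) := by ring
  have hke : kap * (N : ℝ) ^ 2 ≤ min e 1 := by
    have : kap * (N : ℝ) ^ 2 ≤ C0 * ((N : ℝ) ^ 3 * q ^ N) * N ^ 2 :=
      mul_le_mul_of_nonneg_right hkle (by positivity)
    linarith
  have hke1 : kap * (N : ℝ) ^ 2 ≤ e := hke.trans (min_le_left _ _)
  have hk1 : kap ≤ 1 := by
    have h1 : kap * (N : ℝ) ^ 2 ≤ 1 := hke.trans (min_le_right _ _)
    have h2 : (1 : ℝ) ≤ (N : ℝ) ^ 2 := by nlinarith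
    nlinarith
  obtain ⟨z, hz⟩ := hcen N k kap mu (sg N om) g1 hMF hno hkapb hkap hke1
  have hz1 := bmain_conc hz (le_max_left C Cw) hkap.le
  have hlam : 0 ≤ lam N := by
    rw [lam]
    have : (0 : ℝ) ≤ (N : ℝ) - 1 := by linarith
    positivity
  have hWb : ∀ x, lam N - sg N om (x + z) ≤
      C1 * lam N ^ 3 * (nrm x + TI (fun y => nrm y * mu (y + z))) ^ 2 := by
    intro x
    refine (hW N mu om g7 hs z x).trans ?_
    apply mul_le_mul_of_nonneg_right _ (sq_nonneg _)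
    exact mul_le_mul_of_nonneg_right (le_max_right _ _) (by positivity)
  have hF := hfin N z k kap (fun x => mu (x + z)) (fun x => sg N om (x + z)) g7 hz1 hkap hk1 hWb
  set t : ℝ := ∫ x in Disc r3, mu (x + z) with ht
  have hsq : C2 * (N : ℝ) ^ 4 * Real.sqrt kap ≤ 1 / 2 := by
    apply le_of_sq_le_sq _ (by norm_num)
    rw [mul_pow, Real.sq_sqrt hkap.le]
    have h1 : (C2 * (N : ℝ) ^ 4) ^ 2 * kap ≤ (C2 * (N : ℝ) ^ 4) ^ 2 * (C0 * ((N : ℝ) ^ 3 * q ^ N)) :=
      mul_le_mul_of_nonneg_left hkle (sq_nonneg _)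
    have h2 : (C2 * (N : ℝ) ^ 4) ^ 2 * (C0 * ((N : ℝ) ^ 3 * q ^ N)) =
        (4 * C2 ^ 2 * C0 * ((N : ℝ) ^ 11 * q ^ N)) / 4 := by ring
    have h3 := hN4 N g4
    rw [h2] at h1
    linarith
  have hsep : t + ∫ x in Disc (1 / Real.sqrt N), mu x ≤ 1 := by
    have hsN : 4 / r1 < Real.sqrt N := by
      rw [Real.lt_sqrt (by positivity)]
      have : (N6 : ℝ) ≤ N := by exact_mod_cast g6
      linarith
    have hsN' : 1 / Real.sqrt N ≤ r1 / 4 := by
      rw [div_le_iff₀ (by positivity)]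
      rw [div_lt_iff₀ hr] at hsN
      linarith
    apply bmain_sep hMF.smu.continuous hMF.pmu hMF.nn hMF.one
    · linarith
    · linarith
    · have := hz.zfar
      linarith
  have ht1 : 0 ≤ 1 - t := by
    have : 0 ≤ ∫ x in Disc (1 / Real.sqrt N), mu x := integral_nonneg fun x => hMF.nn x
    linarith
  have hF2 : 1 - t ≤ 2 * C2 * N ^ 4 * kap := by
    have h1 : C2 * (N : ℝ) ^ 4 * (kap + (1 - t) * Real.sqrt kap) =
      C2 * N ^ 4 * kap + (1 - t) * (C2 * N ^ 4 * Real.sqrt kap) := by ring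
    rw [h1] at hF
    have h2 : (1 - t) * (C2 * N ^ 4 * Real.sqrt kap) ≤ (1 - t) * (1 / 2) :=
      mul_le_mul_of_nonneg_left hsq ht1
    linarith
  have hF3 : kap0 ≤ C0 * N ^ 3 * (2 * C2 * N ^ 4 * kap) := by
    refine m1.trans (mul_le_mul_of_nonneg_left ?_ (by positivity))
    linarith
  have hF4 : C0 * (N : ℝ) ^ 3 * (2 * C2 * N ^ 4 * kap) =
      (2 * C2 * C0 * ((N : ℝ) ^ 7 * q ^ N)) * kap0 := by
    rw [hkapd]; ring
  rw [hF4] at hF3
  have h5 := hN5 N g5
  nlinarith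

end Pool.Agent.AO
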