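import Pool.Agent.Lib.MP_10e52e_an.Ident
import Pool.Agent.Lib.MP_10e52e_an.Dens
import Pool.Agent.Lib.MP_10e52e_an.AL2
import Pool.Agent.Lib.MP_10e52e_an.Aom
import Pool.Agent.Lib.MP_10e52e_an.Acac
import Pool.Agent.Lib.MP_10e52e_an.Agood
import Pool.Agent.Lib.MP_10e52e_an.Amain
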