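import Pool.Agent.Lib.MP_10e52e_an.Ident
import Pool.Agent.Lib.MP_10e52e_an.Dens
import Pool.Agent.Lib.MP_10e52e_an.Bp
import Pool.Agent.Lib.MP_10e52e_an.Bbm
import Pool.Agent.Lib.MP_10e52e_an.Bstop
import Pool.Agent.Lib.MP_10e52e_an.Bchl
import Pool.Agent.Lib.MP_10e52e_an.Blog
import Pool.Agent.Lib.MP_10e52e_an.Bconc
import Pool.Agent.Lib.MP_10e52e_an.Bring
import Pool.Agent.Lib.MP_10e52e_an.Bmom
import Pool.Agent.Lib.MP_10e52e_an.Bcen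
import Pool.Agent.Lib.MP_10e52e_an.Bz3
import Pool.Agent.Lib.MP_10e52e_an.Bker
import Pool.Agent.Lib.MP_10e52e_an.BW
import Pool.Agent.Lib.MP_10e52e_an.Bpair
import Pool.Agent.Lib.MP_10e52e_an.BU
import Pool.Agent.Lib.MP_10e52e_an.Bfin
import Pool.Agent.Lib.MP_10e52e_an.Bmain
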