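import Mathlib

/-!
MP_10e52e_an (Ambjorn-Olesen, R = 1): common definitions.
The plane is `ℝ × ℝ`, all functions are `ℝ × ℝ → ℝ`; partial derivatives through `fderiv`.
-/

namespace Pool.Agent.AO

open MeasureTheory Set

/-- first partial derivative -/
noncomputable def D1 (f : ℝ × ℝ → ℝ) (x : ℝ × ℝ) : ℝ := fderiv ℝ f x (1, 0)

/-- second partial derivative -/
noncomputable def D2 (f : ℝ × ℝ → ℝ) (x : ℝ × ℝ) : ℝ := fderiv ℝ f x (0, 1)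

/-- Laplacian -/
noncomputable def Lap (f : ℝ × ℝ → ℝ) (x : ℝ × ℝ) : ℝ := D1 (D1 f) x + D2 (D2 f) x

/-- squared Euclidean norm -/
def nsq (x : ℝ × ℝ) : ℝ := x.1 ^ 2 + x.2 ^ 2

/-- Euclidean norm -/
noncomputable def nrm (x : ℝ × ℝ) : ℝ := Real.sqrt (nsq x)

/-- `Z^2`-periodic -/
def Per (f : ℝ × ℝ → ℝ) : Prop := ∀ x : ℝ × ℝ, f (x.1 + 1, x.2) = f x ∧ f (x.1, x.2 + 1) = f x

/-- the unit cell -/
def Q : Set (ℝ × ℝ) := Ioc (-1 / 2 : ℝ) (1 / 2) ×ˢ Ioc (-1 / 2 : ℝ) (1 / 2)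

/-- integral over the torus -/
noncomputable def TI (f : ℝ × ℝ → ℝ) : ℝ := ∫ x in Q, f x

/-- the lattice points -/
def Lat : Set (ℝ × ℝ) := {x | ∃ m n : ℤ, x = ((m : ℝ), (n : ℝ))}

end Pool.Agent.AO
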