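import Pool.Agent.Lib.MP_10e52e_an.Defs

/-!
MP_10e52e_an: structures used by all the rows (paper: 10e52e_paper1..3.md).
-/

namespace Pool.Agent.AO

open MeasureTheory Set Real
open scoped ContDiff

/-- open square of half side `a` about 0 -/
def Box (a : ℝ) : Set (ℝ × ℝ) := {x | |x.1| < a ∧ |x.2| < a}

/-- open Euclidean disc of radius `r` about 0 -/
def Disc (r : ℝ) : Set (ℝ × ℝ) := {x | nrm x < r}

/-- distance to the lattice `Z^2` -/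
noncomputable def tn (x : ℝ × ℝ) : ℝ := nrm (x.1 - round x.1, x.2 - round x.2)

/-- the vortex point -/
noncomputable def pt : ℝ × ℝ := (1 / 2, 1 / 2)

/-- the coupling `lam = 4 pi (N - 1)` -/
noncomputable def lam (N : ℕ) : ℝ := 4 * π * ((N : ℝ) - 1)

/-- The Green data: `K = exp (-4 pi G)`, `R` the regular part of `G` near 0. -/
structure IsGreen (K R : ℝ × ℝ → ℝ) : Prop where
  smoothK : ContDiff ℝ ∞ K
  per : Per K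
  nonneg : ∀ x, 0 ≤ K x
  zero_iff : ∀ x, K x = 0 ↔ x ∈ Lat
  refl1 : ∀ x : ℝ × ℝ, K (-x.1, x.2) = K x
  refl2 : ∀ x : ℝ × ℝ, K (x.1, -x.2) = K x
  swap : ∀ x : ℝ × ℝ, K (x.2, x.1) = K x
  smoothR : ContDiffOn ℝ ∞ R (Box 1)
  fac : ∀ x ∈ Box 1, K x = nsq x * Real.exp (-(4 * π) * R x)
  lapR : ∀ x ∈ Box 1, Lap R x = 1
  mono : ∀ x : ℝ × ℝ, x ∉ Lat → 0 ≤ x.1 → x.1 ≤ 1 / 2 →
    π * Real.sin (2 * π * x.1) / Real.cosh (π / 2) ^ 2 ≤ D1 (fun y => Real.log (K y)) x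

/-- The Green function. -/
noncomputable def Gf (K : ℝ × ℝ → ℝ) (x : ℝ × ℝ) : ℝ := -(1 / (4 * π)) * Real.log (K x)

/-- convolution on the torus -/
noncomputable def conv (f g : ℝ × ℝ → ℝ) (x : ℝ × ℝ) : ℝ := TI (fun y => f y * g (x - y))

/-- The comparator: `om_0 = log K + v`. -/
structure IsComp (K : ℝ × ℝ → ℝ) (Cb : ℝ) (N : ℕ) (v : ℝ × ℝ → ℝ) : Prop where
  smooth : ContDiff ℝ ∞ v
  per : Per v
  eq : ∀ x, Lap v x = lam N * (K x * Real.exp (v x) - 1) + 4 * π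
  lower : ∀ x, -Real.log (K x + Cb / lam N) ≤ v x
  refl1 : ∀ x : ℝ × ℝ, v (-x.1, x.2) = v x
  refl2 : ∀ x : ℝ × ℝ, v (x.1, -x.2) = v x
  swap : ∀ x : ℝ × ℝ, v (x.2, x.1) = v x

/-- `om_0` -/
noncomputable def om0 (K v : ℝ × ℝ → ℝ) (x : ℝ × ℝ) : ℝ := Real.log (K x) + v x

/-- `H = v - 4 pi R + (lam/4)|x|^2` -/
noncomputable def Hf (R : ℝ × ℝ → ℝ) (N : ℕ) (v : ℝ × ℝ → ℝ) (x : ℝ × ℝ) : ℝ :=
  v x - 4 * π * R x + lam N / 4 * nsq x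

/-- `psi = x . grad H` -/
noncomputable def psif (R : ℝ × ℝ → ℝ) (N : ℕ) (v : ℝ × ℝ → ℝ) (x : ℝ × ℝ) : ℝ :=
  x.1 * D1 (Hf R N v) x + x.2 * D2 (Hf R N v) x

/-- `g = x_1 D_2 H - x_2 D_1 H` -/
noncomputable def gf (R : ℝ × ℝ → ℝ) (N : ℕ) (v : ℝ × ℝ → ℝ) (x : ℝ × ℝ) : ℝ :=
  x.1 * D2 (Hf R N v) x - x.2 * D1 (Hf R N v) x

/-- The reduced system (theta = pi/4, g = 1, one vortex at `pt` of multiplicity `N`, R = 1). -/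
structure IsSol (K : ℝ × ℝ → ℝ) (N : ℕ) (mu om : ℝ × ℝ → ℝ) : Prop where
  smu : ContDiff ℝ ∞ mu
  som : ContDiff ℝ ∞ om
  pmu : Per mu
  pom : Per om
  nn : ∀ x, 0 ≤ mu x
  one : TI mu = 1
  eq : ∀ x, Lap om x = lam N * (Real.exp (om x) - 1) + 4 * π * mu x
  dens : ∃ k : ℝ, 0 < k ∧
    ∀ x, mu x = k * K (x - pt) ^ N * Real.exp (4 * π * conv (Gf K) mu x - om x)

/-- `sigma = lam (1 - e^om)` -/
noncomputable def sg (N : ℕ) (om : ℝ × ℝ → ℝ) (x : ℝ × ℝ) : ℝ := lam N * (1 - Real.exp (om x))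

/-- `W = lam e^om` -/
noncomputable def Wf (N : ℕ) (om : ℝ × ℝ → ℝ) (x : ℝ × ℝ) : ℝ := lam N * Real.exp (om x)

/-- Mean field data in coordinates relative to `z`:
`mu = k K(. + z - p)^N exp (8 pi G*mu - G*s)`, `0 <= s <= lam`, `TI s = 4 pi`. -/
structure IsMF (K : ℝ × ℝ → ℝ) (N : ℕ) (z : ℝ × ℝ) (k : ℝ) (mu s : ℝ × ℝ → ℝ) : Prop where
  kpos : 0 < k
  smu : ContDiff ℝ ∞ mu
  ss : ContDiff ℝ ∞ s
  pmu : Per mu
  ps : Per s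
  nn : ∀ x, 0 ≤ mu x
  one : TI mu = 1
  s0 : ∀ x, 0 ≤ s x
  s1 : ∀ x, s x ≤ lam N
  Ts : TI s = 4 * π
  dens : ∀ x, mu x = k * K (x + z - pt) ^ N *
    Real.exp (8 * π * conv (Gf K) mu x - conv (Gf K) s x)

/-- `U` in coordinates relative to `z`: `log K(. + z - p)` -/
noncomputable def Uz (K : ℝ × ℝ → ℝ) (z x : ℝ × ℝ) : ℝ := Real.log (K (x + z - pt))

/-- `l(y) = max 0 (log (1/|y|))` -/
noncomputable def ell (y : ℝ × ℝ) : ℝ := max 0 (-Real.log (nrm y))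

/-- `rem = e^om - e^om0 - e^om0 (om - om0)` -/
noncomputable def rem (K v om : ℝ × ℝ → ℝ) (x : ℝ × ℝ) : ℝ :=
  Real.exp (om x) - Real.exp (om0 K v x) - Real.exp (om0 K v x) * (om x - om0 K v x)

/-- `h = om - om0` -/
noncomputable def hf (K v om : ℝ × ℝ → ℝ) (x : ℝ × ℝ) : ℝ := om x - om0 K v x

/-- mass of the ball `B(x,r)`, `r <= 1/2` -/
noncomputable def bm (mu : ℝ × ℝ → ℝ) (x : ℝ × ℝ) (r : ℝ) : ℝ := ∫ y in Disc r, mu (x - y)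

/-- pair function `(X(x)-X(y)) . grad G(x-y)` -/
noncomputable def PX (K X1 X2 : ℝ × ℝ → ℝ) (x y : ℝ × ℝ) : ℝ :=
  (X1 x - X1 y) * D1 (Gf K) (x - y) + (X2 x - X2 y) * D2 (Gf K) (x - y)

/-- `S_X(a,a)` for a gradient `(a1,a2)` -/
noncomputable def SX (X1 X2 : ℝ × ℝ → ℝ) (a1 a2 : ℝ) (x : ℝ × ℝ) : ℝ :=
  D1 X1 x * a1 ^ 2 + (D2 X1 x + D1 X2 x) * (a1 * a2) + D2 X2 x * a2 ^ 2
    - (D1 X1 x + D2 X2 x) / 2 * (a1 ^ 2 + a2 ^ 2)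

end Pool.Agent.AO
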