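import Pool.Agent.Lib.MP_10e52e_an.Defs2

/-! MP_10e52e_an: auxiliary definitions (periodisation, cut-off, log singularities, resolvent). -/

namespace Pool.Agent.AO

open MeasureTheory Set Real ProbabilityTheory
open scoped ContDiff

/-- T6: periodisation -/
noncomputable def perz (f : ℝ × ℝ → ℝ) (x : ℝ × ℝ) : ℝ := f (x.1 - round x.1, x.2 - round x.2)

/-- T7: cut-off near 0 (0 for `|x| <= e`, 1 for `|x|^2 >= 2 e^2`) -/
noncomputable def eta (e : ℝ) (x : ℝ × ℝ) : ℝ := Real.smoothTransition (nsq x / e ^ 2 - 1)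

/-- a periodic function with a logarithmic singularity `a log |x|^2` at the lattice points -/
structure LogSing (F S : ℝ × ℝ → ℝ) (a : ℝ) : Prop where
  per : Per F
  off : ContDiffOn ℝ ∞ F Latᶜ
  sm : ContDiffOn ℝ ∞ S (Box 1)
  eq : ∀ x ∈ Box 1, x ≠ 0 → F x = a * Real.log (nsq x) + S x

/-- standard Gaussian on the plane -/
noncomputable def gs : Measure (ℝ × ℝ) := (gaussianReal 0 1).prod (gaussianReal 0 1)

/-- the resolvent `(-Lap + L)^{-1}` on bounded continuous functions -/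
noncomputable def Rs (L : ℝ) (f : ℝ × ℝ → ℝ) (x : ℝ × ℝ) : ℝ :=
  ∫ s in Ioi (0 : ℝ), s * Real.exp (-(L * s ^ 2 / 2)) * ∫ y, f (x + s • y) ∂gs

end Pool.Agent.AO
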