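import Pool.Agent.Lib.MP_10e52e_an.Red

/-! # MP_10e52e_an row Final: the final statement from the nonexistence theorem for `IsSol` -/

namespace Pool.Agent.AO

open MeasureTheory Set Real
open scoped ContDiff

/-- For all large `N`: unit square torus, `g = 1`, `θ = π/4`, `φ₀² = 4π(N-1)`, one vortex point of multiplicity `N`
(anywhere): condition (A) holds, `R = 1`, and the Ambjorn-Olesen system has no solution. -/
theorem final_of_noSol {K R : ℝ × ℝ → ℝ} (hK : IsGreen K R)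
    (hno : ∃ N₀ : ℕ, ∀ N : ℕ, N₀ ≤ N → ∀ mu om, ¬ IsSol K N mu om) :
    ∃ N₀ : ℕ, ∀ N : ℕ, N₀ ≤ N → ∀ φ₀ : ℝ, φ₀ = √(4 * π * (N - 1)) →
      ((1 : ℝ) ^ 2 * φ₀ ^ 2 < 4 * π * N ∧ 4 * π * N < 1 ^ 2 * φ₀ ^ 2 / Real.cos (π / 4) ^ 2) ∧
      (4 * π * N - 1 ^ 2 * φ₀ ^ 2) / (8 * π * Real.sin (π / 4) ^ 2) = 1 ∧
      ∀ p : Fin 1 → ℝ × ℝ, ¬ ∃ u w, IsSolution 1 φ₀ (π / 4) p (fun _ => N) u w := by
  obtain ⟨N₀, hno⟩ := hno
  refine ⟨max N₀ 3, fun N hN φ₀ hφ => ?_⟩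
  have h3 : 3 ≤ N := (le_max_right _ _).trans hN
  have h3' : (3 : ℝ) ≤ N := by exact_mod_cast h3
  have hpi := Real.pi_pos
  have hsq : φ₀ ^ 2 = 4 * π * (N - 1) := by
    rw [hφ, Real.sq_sqrt]; apply mul_nonneg <;> linarith
  have hcos : Real.cos (π / 4) ^ 2 = 1 / 2 := by
    rw [Real.cos_pi_div_four, div_pow, Real.sq_sqrt (by norm_num)]; norm_num
  have hsin : Real.sin (π / 4) ^ 2 = 1 / 2 := by
    rw [Real.sin_pi_div_four, div_pow, Real.sq_sqrt (by norm_num)]; norm_num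
  refine ⟨⟨?_, ?_⟩, ?_, ?_⟩
  · rw [hsq]; nlinarith
  · rw [hsq, hcos]
    have : 4 * π * 3 ≤ 4 * π * (N : ℝ) := by gcongr
    rw [lt_div_iff₀ (by norm_num)]; nlinarith
  · rw [hsq, hsin]; field_simp; ring
  · rintro p ⟨u, w, h⟩
    obtain ⟨mu, om, h1⟩ := exists_isSol hK h3 hsq rfl h
    exact hno N ((le_max_left _ _).trans hN) mu om h1

end Pool.Agent.AO
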