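import Pool.Agent.Lib.MP_10e52e_an.Defs2

/-! MP_10e52e_an row GreenExists: existence of the Green data (theta product, helper66) -/

namespace Pool.Agent.AO.GreenX

open Complex Filter Topology Set
open scoped ContDiff

/-- `q = e^{-2π}` -/
noncomputable def qr : ℝ := Real.exp (-(2 * Real.pi))

lemma qr_pos : 0 < qr := Real.exp_pos _

lemma qr_lt_one : qr < 1 := by
  rw [qr, Real.exp_lt_one_iff]
  linarith [Real.pi_pos]

/-- `E w = ∏_{n ≥ 0} (1 - q^n w)` -/
noncomputable def E (w : ℂ) : ℂ := ∏' n : ℕ, (1 + -(((qr : ℂ) ^ n) * w))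

lemma E_summable (w : ℂ) : Summable fun n : ℕ => ‖-(((qr : ℂ) ^ n) * w)‖ := by
  have h : (fun n : ℕ => ‖-(((qr : ℂ) ^ n) * w)‖) = fun n : ℕ => qr ^ n * ‖w‖ := by
    funext n
    rw [norm_neg, norm_mul, norm_pow, Complex.norm_real, Real.norm_of_nonneg qr_pos.le]
  rw [h]
  exact (summable_geometric_of_lt_one qr_pos.le qr_lt_one).mul_right _

lemma E_multipliable (w : ℂ) : Multipliable fun n : ℕ => (1 + -(((qr : ℂ) ^ n) * w)) :=
  multipliable_one_add_of_summable (E_summable w)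

lemma E_rec (w : ℂ) : E w = (1 - w) * E (qr * w) := by
  have h1 : (fun n : ℕ => (1 + -(((qr : ℂ) ^ (n + 1)) * w)))
      = fun n : ℕ => (1 + -(((qr : ℂ) ^ n) * (qr * w))) := by
    funext n
    rw [pow_succ, mul_assoc]
  have h2 : Multipliable fun n : ℕ => (1 + -(((qr : ℂ) ^ (n + 1)) * w)) := by
    rw [h1]
    exact E_multipliable _
  have h3 := tprod_eq_zero_mul' (f := fun n : ℕ => (1 + -(((qr : ℂ) ^ n) * w))) h2
  have h4 : (∏' b : ℕ, (1 + -(((qr : ℂ) ^ (b + 1)) * w))) = E (qr * w) := by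
    rw [h1]
    rfl
  unfold E at h4 ⊢
  rw [h3, h4]
  simp [sub_eq_add_neg]

lemma E_zero_of_pow (n : ℕ) : ∀ w : ℂ, (qr : ℂ) ^ n * w = 1 → E w = 0 := by
  induction n with
  | zero =>
    intro w hw
    rw [pow_zero, one_mul] at hw
    rw [E_rec, hw, sub_self, zero_mul]
  | succ n ih =>
    intro w hw
    rw [E_rec, ih (qr * w) (by rw [← mul_assoc, ← pow_succ]; exact hw), mul_zero]

lemma E_eq_zero_iff (w : ℂ) : E w = 0 ↔ ∃ n : ℕ, (qr : ℂ) ^ n * w = 1 := by
  constructor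
  · intro h
    by_contra hcon
    have hcon' : ∀ n : ℕ, (qr : ℂ) ^ n * w ≠ 1 := fun n hn => hcon ⟨n, hn⟩
    refine tprod_one_add_ne_zero_of_summable (f := fun n : ℕ => -(((qr : ℂ) ^ n) * w)) ?_
      (E_summable w) h
    intro n hn
    exact hcon' n (by linear_combination -hn)
  · rintro ⟨n, hn⟩
    exact E_zero_of_pow n w hn

lemma E_conj (w : ℂ) : E (starRingEnd ℂ w) = starRingEnd ℂ (E w) := by
  unfold E
  rw [(E_multipliable w).map_tprod (starRingEnd ℂ) Complex.continuous_conj]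
  congr 1
  funext n
  simp [map_neg, map_mul, map_pow]

lemma E_differentiable : Differentiable ℂ E := by
  have h1 : HasProdLocallyUniformlyOn (fun (n : ℕ) (w : ℂ) => 1 + -(((qr : ℂ) ^ n) * w)) E univ := by
    apply hasProdLocallyUniformlyOn_of_forall_compact isOpen_univ
    intro K _ hK
    obtain ⟨C, hC⟩ := hK.isBounded.exists_norm_le
    have hu : Summable fun n : ℕ => qr ^ n * (max C 0) :=
      (summable_geometric_of_lt_one qr_pos.le qr_lt_one).mul_right _
    refine hu.hasProdUniformlyOn_nat_one_add hK (Eventually.of_forall fun n x hx => ?_)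
      (fun n => by fun_prop)
    rw [norm_neg, norm_mul, norm_pow, Complex.norm_real, Real.norm_of_nonneg qr_pos.le]
    exact mul_le_mul_of_nonneg_left ((hC x hx).trans (le_max_left _ _)) (by positivity [qr_pos])
  have h2 := h1.differentiableOn (Eventually.of_forall fun s => by
    simpa [Finset.prod_fn] using DifferentiableOn.finsetProd (fun _ _ ↦ by fun_prop)) isOpen_univ
  exact differentiableOn_univ.mp h2


/-! ### the functions `P` and `S` -/

/-- `w = e^{2πiz}` -/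
noncomputable def ww (z : ℂ) : ℂ := cexp (2 * Real.pi * I * z)

/-- `P z = ∏_{n ≥ 1} (1 - q^n w)(1 - q^n / w)` -/
noncomputable def P (z : ℂ) : ℂ := E (qr * ww z) * E (qr * ww (-z))

/-- `S z = sin (π z) P z` -/
noncomputable def S (z : ℂ) : ℂ := Complex.sin (Real.pi * z) * P z

lemma ww_differentiable : Differentiable ℂ ww := by
  unfold ww
  fun_prop

lemma P_differentiable : Differentiable ℂ P := by
  unfold P
  have h1 : Differentiable ℂ fun z => E (qr * ww z) :=
    E_differentiable.comp ((differentiable_const _).mul ww_differentiable)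
  have h2 : Differentiable ℂ fun z => E (qr * ww (-z)) :=
    E_differentiable.comp ((differentiable_const _).mul (ww_differentiable.comp differentiable_neg))
  exact h1.mul h2

lemma S_differentiable : Differentiable ℂ S := by
  unfold S
  exact (Complex.differentiable_sin.comp ((differentiable_const _).mul differentiable_id)).mul
    P_differentiable

lemma P_neg (z : ℂ) : P (-z) = P z := by
  unfold P
  rw [neg_neg, mul_comm]

lemma S_neg (z : ℂ) : S (-z) = -S z := by
  unfold S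
  rw [P_neg, mul_neg, Complex.sin_neg, neg_mul]

lemma ww_conj (z : ℂ) : ww (starRingEnd ℂ z) = starRingEnd ℂ (ww (-z)) := by
  unfold ww
  rw [← Complex.exp_conj]
  congr 1
  have h2 : (starRingEnd ℂ) (2 : ℂ) = 2 := Complex.conj_ofNat 2
  rw [map_mul, map_mul, map_mul, map_neg, h2, Complex.conj_ofReal, Complex.conj_I]
  ring

lemma P_conj (z : ℂ) : P (starRingEnd ℂ z) = starRingEnd ℂ (P z) := by
  unfold P
  have h1 : ww (-(starRingEnd ℂ z)) = starRingEnd ℂ (ww z) := by
    rw [← map_neg, ww_conj, neg_neg]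
  have h2 : (qr : ℂ) = starRingEnd ℂ (qr : ℂ) := (Complex.conj_ofReal _).symm
  rw [ww_conj, h1, h2, ← map_mul, ← map_mul, E_conj, E_conj, ← map_mul, mul_comm]
  simp

lemma S_conj (z : ℂ) : S (starRingEnd ℂ z) = starRingEnd ℂ (S z) := by
  unfold S
  rw [P_conj, map_mul, ← Complex.sin_conj, map_mul, Complex.conj_ofReal]

lemma ww_add_one (z : ℂ) : ww (z + 1) = ww z := by
  unfold ww
  rw [mul_add, Complex.exp_add, mul_one, Complex.exp_two_pi_mul_I, mul_one]

lemma ww_neg_add_one (z : ℂ) : ww (-(z + 1)) = ww (-z) := by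
  have h := ww_add_one (-(z + 1))
  rw [← h]
  congr 1
  ring

lemma P_add_one (z : ℂ) : P (z + 1) = P z := by
  unfold P
  rw [ww_add_one, ww_neg_add_one]

lemma S_add_one (z : ℂ) : S (z + 1) = -S z := by
  unfold S
  rw [P_add_one, mul_add, mul_one, Complex.sin_add_pi, neg_mul]

lemma ww_add_I (z : ℂ) : ww (z + I) = qr * ww z := by
  unfold ww qr
  rw [mul_add, Complex.exp_add, mul_comm (cexp _) (cexp _), Complex.ofReal_exp]
  congr 2
  push_cast
  linear_combination (2 * (Real.pi : ℂ)) * Complex.I_mul_I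

lemma ww_neg_add_I (z : ℂ) : qr * ww (-(z + I)) = ww (-z) := by
  rw [← ww_add_I]
  congr 1
  ring

lemma ww_mul_neg (z : ℂ) : ww z * ww (-z) = 1 := by
  unfold ww
  rw [← Complex.exp_add]
  ring_nf
  exact Complex.exp_zero

/-- the multiplier -/
noncomputable def mu (z : ℂ) : ℂ := -cexp (Real.pi - 2 * Real.pi * I * z)

lemma S_add_I (z : ℂ) : S (z + I) = mu z * S z := by
  have hE1 : E (ww (-z)) = (1 - ww (-z)) * E (qr * ww (-z)) := E_rec _
  have hE2 : E (qr * ww z) = (1 - qr * ww z) * E (qr * (qr * ww z)) := E_rec _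
  unfold S P
  rw [ww_add_I, ww_neg_add_I, hE1, hE2]
  have key : Complex.sin (Real.pi * (z + I)) * (1 - ww (-z))
      = mu z * (Complex.sin (Real.pi * z) * (1 - qr * ww z)) := by
    have hqr : (qr : ℂ) = cexp (-Real.pi) * cexp (-Real.pi) := by
      rw [← Complex.exp_add, qr, Complex.ofReal_exp]
      congr 1
      push_cast
      ring
    set t : ℂ := cexp (Real.pi * z * I) with ht
    set s : ℂ := cexp (-(Real.pi * z) * I) with hs
    set e : ℂ := cexp (-Real.pi) with he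
    set f : ℂ := cexp Real.pi with hf
    have hts : t * s = 1 := by
      rw [ht, hs, ← Complex.exp_add]
      ring_nf
      exact Complex.exp_zero
    have hef : e * f = 1 := by
      rw [he, hf, ← Complex.exp_add]
      ring_nf
      exact Complex.exp_zero
    have hw : ww z = t * t := by
      rw [ht, ← Complex.exp_add, ww]
      congr 1
      ring
    have hw' : ww (-z) = s * s := by
      rw [hs, ← Complex.exp_add, ww]
      congr 1
      ring
    have hmu : mu z = -(f * (s * s)) := by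
      rw [mu, hf, hs, ← Complex.exp_add, ← Complex.exp_add]
      congr 2
      ring
    have hsin : Complex.sin (Real.pi * z) = (s - t) * I / 2 := by
      rw [Complex.sin]
    have hsin' : Complex.sin (Real.pi * (z + I)) = (s * f - t * e) * I / 2 := by
      rw [Complex.sin]
      congr 3
      · rw [hs, hf, ← Complex.exp_add]
        congr 1
        linear_combination (-(Real.pi : ℂ)) * Complex.I_mul_I
      · rw [ht, he, ← Complex.exp_add]
        congr 1
        linear_combination ((Real.pi : ℂ)) * Complex.I_mul_I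
    rw [hsin, hsin', hw, hw', hmu, hqr]
    linear_combination (I / 2 * (-(f * s) - e * s * (t * s) * (e * f) + t * e * (t * s + 1))) * hts
      + (I / 2 * (-(e * s * (t * s)) + t * e * (t * s) ^ 2)) * hef
  calc _ = (Complex.sin (Real.pi * (z + I)) * (1 - ww (-z))) * (E (qr * (qr * ww z)) * E (qr * ww (-z))) := by ring
    _ = _ := by rw [key]; ring


/-! ### zeros -/

lemma E_qw_zero_iff (z : ℂ) : E (qr * ww z) = 0 ↔ ∃ n : ℕ, ∃ k : ℤ, z = k - (n + 1) * I := by
  rw [E_eq_zero_iff]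
  refine exists_congr fun n => ?_
  have h1 : (qr : ℂ) ^ n * (qr * ww z) = cexp (-(2 * Real.pi) * (n + 1) + 2 * Real.pi * I * z) := by
    rw [← mul_assoc, ← pow_succ, Complex.exp_add, ww, qr, Complex.ofReal_exp, ← Complex.exp_nat_mul]
    congr 2
    push_cast
    ring
  rw [h1, Complex.exp_eq_one_iff]
  refine exists_congr fun k => ?_
  have hpi : (Real.pi : ℂ) ≠ 0 := by exact_mod_cast Real.pi_ne_zero
  constructor
  · intro h
    have h2 : (2 * Real.pi * I) * z = (2 * Real.pi * I) * (k - (n + 1) * I) := by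
      linear_combination h + (2 * Real.pi * (n + 1)) * Complex.I_mul_I
    exact mul_left_cancel₀ (by simp [hpi]) h2
  · intro h
    rw [h]
    linear_combination (-(2 * Real.pi * (n + 1))) * Complex.I_mul_I

lemma P_ne_zero {z : ℂ} (h1 : -1 < z.im) (h2 : z.im < 1) : P z ≠ 0 := by
  unfold P
  refine mul_ne_zero ?_ ?_
  · rw [Ne, E_qw_zero_iff]
    rintro ⟨n, k, h⟩
    rw [h] at h1
    simp at h1
    have : (0 : ℝ) ≤ n := Nat.cast_nonneg n
    linarith
  · rw [Ne, E_qw_zero_iff]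
    rintro ⟨n, k, h⟩
    have h3 : z = -(k - (n + 1) * I) := by rw [← h, neg_neg]
    rw [h3] at h2
    simp at h2
    have : (0 : ℝ) ≤ n := Nat.cast_nonneg n
    linarith

lemma S_eq_zero_iff (z : ℂ) : S z = 0 ↔ ∃ m n : ℤ, z = m + n * I := by
  unfold S P
  rw [mul_eq_zero, mul_eq_zero, E_qw_zero_iff, E_qw_zero_iff, Complex.sin_eq_zero_iff]
  have hpi : (Real.pi : ℂ) ≠ 0 := by exact_mod_cast Real.pi_ne_zero
  constructor
  · rintro (⟨k, hk⟩ | ⟨n, k, h⟩ | ⟨n, k, h⟩)
    · refine ⟨k, 0, ?_⟩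
      have : (Real.pi : ℂ) * z = Real.pi * k := by rw [hk]; ring
      rw [mul_left_cancel₀ hpi this]
      simp
    · refine ⟨k, -(n + 1), ?_⟩
      rw [h]
      push_cast
      ring
    · refine ⟨-k, n + 1, ?_⟩
      rw [← neg_neg z, h]
      push_cast
      ring
  · rintro ⟨m, n, h⟩
    rcases lt_trichotomy n 0 with hn | hn | hn
    · right; left
      obtain ⟨j, hj⟩ := Int.eq_ofNat_of_zero_le (a := -n - 1) (by omega)
      refine ⟨j, m, ?_⟩
      have hn' : n = -(j + 1) := by omega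
      rw [h, hn']
      push_cast
      ring
    · left
      refine ⟨m, ?_⟩
      rw [h, hn]
      push_cast
      ring
    · right; right
      obtain ⟨j, hj⟩ := Int.eq_ofNat_of_zero_le (a := n - 1) (by omega)
      refine ⟨j, -m, ?_⟩
      have hn' : n = j + 1 := by omega
      rw [h, hn']
      push_cast
      ring

/-! ### the transformation `z ↦ iz` -/

/-- the transformed function -/
noncomputable def GG (z : ℂ) : ℂ := S (I * z) * cexp (-(Real.pi * z ^ 2))

lemma GG_differentiable : Differentiable ℂ GG := by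
  unfold GG
  have h1 : Differentiable ℂ fun z : ℂ => S (I * z) :=
    S_differentiable.comp ((differentiable_const _).mul differentiable_id)
  have h2 : Differentiable ℂ fun z : ℂ => cexp (-(Real.pi * z ^ 2)) := by fun_prop
  exact h1.mul h2

lemma GG_add_one (z : ℂ) : GG (z + 1) = -GG z := by
  unfold GG
  rw [mul_add, mul_one, S_add_I, mu]
  have h : cexp (Real.pi - 2 * Real.pi * I * (I * z)) * cexp (-(Real.pi * (z + 1) ^ 2))
      = cexp (-(Real.pi * z ^ 2)) := by
    rw [← Complex.exp_add]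
    congr 1
    linear_combination (-(2 * Real.pi * z)) * Complex.I_mul_I
  linear_combination (-S (I * z)) * h

lemma S_sub_one (z : ℂ) : S (z - 1) = -S z := by
  have h := S_add_one (z - 1)
  rw [sub_add_cancel] at h
  rw [h, neg_neg]

lemma GG_add_I (z : ℂ) : GG (z + I) = mu z * GG z := by
  unfold GG
  have h0 : I * (z + I) = I * z - 1 := by
    rw [mul_add, Complex.I_mul_I]
    ring
  rw [h0, S_sub_one, mu]
  have h : cexp (-(Real.pi * (z + I) ^ 2))
      = cexp (Real.pi - 2 * Real.pi * I * z) * cexp (-(Real.pi * z ^ 2)) := by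
    rw [← Complex.exp_add]
    congr 1
    linear_combination (-(Real.pi : ℂ)) * Complex.I_mul_I
  rw [h]
  ring

lemma mu_ne_zero (z : ℂ) : mu z ≠ 0 := by
  unfold mu
  exact neg_ne_zero.mpr (Complex.exp_ne_zero _)

lemma S_zero : S 0 = 0 := by
  rw [S_eq_zero_iff]
  exact ⟨0, 0, by simp⟩

lemma GG_zero : GG 0 = 0 := by
  unfold GG
  rw [mul_zero, S_zero, zero_mul]

lemma deriv_S_zero : deriv S 0 ≠ 0 := by
  have h1 : HasDerivAt (fun z : ℂ => Complex.sin (Real.pi * z)) (Complex.cos (Real.pi * 0) * (Real.pi * 1)) 0 :=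
    ((hasDerivAt_id (0 : ℂ)).const_mul (Real.pi : ℂ)).csin
  have h2 : HasDerivAt S (Complex.cos (Real.pi * 0) * (Real.pi * 1) * P 0 + Complex.sin (Real.pi * 0) * deriv P 0) 0 :=
    h1.mul (P_differentiable 0).hasDerivAt
  rw [h2.deriv]
  have h3 : P 0 ≠ 0 := P_ne_zero (by simp) (by simp)
  simp [h3, Real.pi_ne_zero]

/-- the quotient `GG / S` -/
noncomputable def hh (z : ℂ) : ℂ :=
  open Classical in if S z = 0 then deriv GG 0 / deriv S 0 else GG z / S z

lemma hh_add_one : Function.Periodic hh 1 := by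
  intro z
  unfold hh
  by_cases h : S z = 0
  · have h' : S (z + 1) = 0 := by rw [S_add_one, h, neg_zero]
    rw [if_pos h, if_pos h']
  · have h' : S (z + 1) ≠ 0 := by rw [S_add_one]; exact neg_ne_zero.mpr h
    rw [if_neg h, if_neg h', GG_add_one, S_add_one, neg_div_neg_eq]

lemma hh_add_I : Function.Periodic hh I := by
  intro z
  unfold hh
  by_cases h : S z = 0
  · have h' : S (z + I) = 0 := by rw [S_add_I, h, mul_zero]
    rw [if_pos h, if_pos h']
  · have h' : S (z + I) ≠ 0 := by rw [S_add_I]; exact mul_ne_zero (mu_ne_zero z) h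
    rw [if_neg h, if_neg h', GG_add_I, S_add_I, mul_div_mul_left _ _ (mu_ne_zero z)]

lemma hh_differentiableAt_zero : DifferentiableAt ℂ hh 0 := by
  have hS : Differentiable ℂ (dslope S 0) := by
    rw [← differentiableOn_univ]
    exact (Complex.differentiableOn_dslope univ_mem).mpr S_differentiable.differentiableOn
  have hG : Differentiable ℂ (dslope GG 0) := by
    rw [← differentiableOn_univ]
    exact (Complex.differentiableOn_dslope univ_mem).mpr GG_differentiable.differentiableOn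
  have h0 : dslope S 0 0 ≠ 0 := by rw [dslope_same]; exact deriv_S_zero
  have hev : ∀ᶠ z in 𝓝 (0 : ℂ), dslope S 0 z ≠ 0 := hS.continuous.continuousAt.eventually_ne h0
  have heq : hh =ᶠ[𝓝 0] fun z => dslope GG 0 z / dslope S 0 z := by
    filter_upwards [hev] with z hz
    by_cases hz0 : z = 0
    · rw [hz0]
      unfold hh
      rw [if_pos S_zero, dslope_same, dslope_same]
    · have e1 : S z = z * dslope S 0 z := by
        have := sub_smul_dslope S 0 z
        rw [sub_zero, S_zero, sub_zero, smul_eq_mul] at this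
        exact this.symm
      have e2 : GG z = z * dslope GG 0 z := by
        have := sub_smul_dslope GG 0 z
        rw [sub_zero, GG_zero, sub_zero, smul_eq_mul] at this
        exact this.symm
      have hS0 : S z ≠ 0 := by rw [e1]; exact mul_ne_zero hz0 hz
      unfold hh
      rw [if_neg hS0, e1, e2, mul_div_mul_left _ _ hz0]
  exact DifferentiableAt.congr_of_eventuallyEq ((hG 0).div (hS 0) h0) heq

lemma hh_lattice (m n : ℤ) (z : ℂ) : hh (z + (m + n * I)) = hh z := by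
  have h1 := hh_add_one.int_mul m
  have h2 := hh_add_I.int_mul n
  rw [← add_assoc, h2, ← mul_one (m : ℂ), h1]

lemma hh_differentiable : Differentiable ℂ hh := by
  intro z
  by_cases hz : S z = 0
  · obtain ⟨m, n, h⟩ := (S_eq_zero_iff z).mp hz
    have heq : hh = hh ∘ fun u => u - (m + n * I) := by
      funext u
      have h3 := hh_lattice m n (u - (m + n * I))
      rw [sub_add_cancel] at h3
      exact h3
    rw [heq]
    refine DifferentiableAt.comp z ?_ (by fun_prop)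
    rw [h, sub_self]
    exact hh_differentiableAt_zero
  · have hev : ∀ᶠ u in 𝓝 z, S u ≠ 0 := S_differentiable.continuous.continuousAt.eventually_ne hz
    have heq : hh =ᶠ[𝓝 z] fun u => GG u / S u := by
      filter_upwards [hev] with u hu
      unfold hh
      rw [if_neg hu]
    exact DifferentiableAt.congr_of_eventuallyEq ((GG_differentiable z).div (S_differentiable z) hz) heq

lemma hh_const (z w : ℂ) : hh z = hh w := by
  refine hh_differentiable.apply_eq_apply_of_bounded ?_ z w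
  have hK : IsCompact (Icc (0 : ℝ) 1 ×ℂ Icc (0 : ℝ) 1) := isCompact_Icc.reProdIm isCompact_Icc
  have hb := (hK.image hh_differentiable.continuous).isBounded
  refine hb.subset ?_
  rintro _ ⟨u, rfl⟩
  refine ⟨u - (⌊u.re⌋ + ⌊u.im⌋ * I), ?_, ?_⟩
  · rw [Complex.mem_reProdIm]
    constructor
    · have : (u - (⌊u.re⌋ + ⌊u.im⌋ * I)).re = Int.fract u.re := by simp
      rw [this]
      exact ⟨Int.fract_nonneg _, (Int.fract_lt_one _).le⟩
    · have : (u - (⌊u.re⌋ + ⌊u.im⌋ * I)).im = Int.fract u.im := by simp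
      rw [this]
      exact ⟨Int.fract_nonneg _, (Int.fract_lt_one _).le⟩
  · rw [← hh_lattice ⌊u.re⌋ ⌊u.im⌋, sub_add_cancel]

lemma norm_S_I (z : ℂ) : ‖S (I * z)‖ * Real.exp (-(Real.pi * (z.re ^ 2 - z.im ^ 2))) = ‖S z‖ := by
  set z0 : ℂ := (1 + I) / 2 with hz0
  have hS0 : S z0 ≠ 0 := by
    rw [Ne, S_eq_zero_iff]
    rintro ⟨m, n, h⟩
    have h1 := congrArg Complex.re h
    simp [hz0] at h1
    have h2 : (1 : ℤ) = 2 * m := by
      have : (1 : ℝ) = 2 * m := by linarith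
      exact_mod_cast this
    omega
  have hnorm : ∀ u : ℂ, ‖GG u‖ = ‖S (I * u)‖ * Real.exp (-(Real.pi * (u.re ^ 2 - u.im ^ 2))) := by
    intro u
    unfold GG
    rw [norm_mul, Complex.norm_exp]
    congr 2
    simp [pow_two]
  have hc : ‖hh z0‖ = 1 := by
    have h1 : hh z0 = GG z0 / S z0 := by unfold hh; rw [if_neg hS0]
    have h2 : I * z0 = z0 - 1 := by
      rw [hz0]
      linear_combination (1 / 2) * Complex.I_mul_I
    have h3 : z0.re ^ 2 - z0.im ^ 2 = 0 := by simp [hz0]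
    rw [h1, norm_div, hnorm, h2, S_sub_one, norm_neg, h3]
    simp [norm_ne_zero_iff.mpr hS0]
  rw [← hnorm]
  by_cases hz : S z = 0
  · obtain ⟨m, n, h⟩ := (S_eq_zero_iff z).mp hz
    have h1 : S (I * z) = 0 := by
      rw [S_eq_zero_iff]
      refine ⟨-n, m, ?_⟩
      rw [h]
      push_cast
      linear_combination (n : ℂ) * Complex.I_mul_I
    unfold GG
    rw [h1, hz, zero_mul]
  · have h1 : hh z = GG z / S z := by unfold hh; rw [if_neg hz]
    have h2 : ‖GG z‖ / ‖S z‖ = 1 := by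
      rw [← norm_div, ← h1, hh_const z z0, hc]
    rwa [div_eq_one_iff_eq (norm_ne_zero_iff.mpr hz)] at h2


/-! ### the function `K` -/

/-- the point as a complex number -/
noncomputable def toC (x : ℝ × ℝ) : ℂ := (x.1 : ℂ) + x.2 * I

lemma toC_re (x : ℝ × ℝ) : (toC x).re = x.1 := by simp [toC]

lemma toC_im (x : ℝ × ℝ) : (toC x).im = x.2 := by simp [toC]

lemma toC_contDiff : ContDiff ℝ ∞ toC := by
  unfold toC
  have h : ContDiff ℝ ∞ (Complex.ofRealCLM : ℝ → ℂ) := Complex.ofRealCLM.contDiff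
  exact (h.comp contDiff_fst).add ((h.comp contDiff_snd).mul contDiff_const)

lemma hol_contDiff {f : ℂ → ℂ} (hf : Differentiable ℂ f) : ContDiff ℝ ∞ fun x : ℝ × ℝ => f (toC x) := by
  have h1 : ContDiff ℂ ∞ f := hf.contDiff
  exact (h1.restrict_scalars ℝ).comp toC_contDiff

lemma toC_neg (x : ℝ × ℝ) : toC (-x.1, x.2) = -(starRingEnd ℂ (toC x)) := by
  apply Complex.ext
  · simp [toC]
  · simp [toC]

lemma toC_neg' (x : ℝ × ℝ) : toC (x.1, -x.2) = starRingEnd ℂ (toC x) := by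
  apply Complex.ext
  · simp [toC]
  · simp [toC]

lemma toC_swap (x : ℝ × ℝ) : toC (x.2, x.1) = starRingEnd ℂ (-(I * toC x)) := by
  apply Complex.ext
  · simp [toC]
  · simp [toC]

/-- `K = e^{-4πG}`, `G` the Green function of the square torus -/
noncomputable def K (x : ℝ × ℝ) : ℝ := ‖S (toC x)‖ ^ 2 * Real.exp (-(2 * Real.pi * x.2 ^ 2))

theorem K_contDiff : ContDiff ℝ ∞ K := by
  unfold K
  have h1 : ContDiff ℝ ∞ fun x : ℝ × ℝ => S (toC x) := hol_contDiff S_differentiable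
  have h2 : ContDiff ℝ ∞ fun x : ℝ × ℝ => Real.exp (-(2 * Real.pi * x.2 ^ 2)) :=
    Real.contDiff_exp.comp ((contDiff_const.mul (contDiff_snd.pow 2)).neg)
  exact (h1.norm_sq ℝ).mul h2

theorem K_nonneg (x : ℝ × ℝ) : 0 ≤ K x := by
  unfold K
  positivity

theorem K_eq_zero_iff (x : ℝ × ℝ) : K x = 0 ↔ x ∈ Lat := by
  unfold K
  have he : Real.exp (-(2 * Real.pi * x.2 ^ 2)) ≠ 0 := (Real.exp_pos _).ne'
  rw [mul_eq_zero, or_iff_left he, pow_eq_zero_iff (two_ne_zero), norm_eq_zero, S_eq_zero_iff]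
  constructor
  · rintro ⟨m, n, h⟩
    refine ⟨m, n, Prod.ext ?_ ?_⟩
    · have := congrArg Complex.re h
      rw [toC_re] at this
      simpa using this
    · have := congrArg Complex.im h
      rw [toC_im] at this
      simpa using this
  · rintro ⟨m, n, h⟩
    refine ⟨m, n, ?_⟩
    rw [h]
    simp [toC]

lemma K_pos {x : ℝ × ℝ} (hx : x ∉ Lat) : 0 < K x :=
  lt_of_le_of_ne (K_nonneg x) fun h => hx ((K_eq_zero_iff x).mp h.symm)

theorem K_per : Per K := by
  intro x
  constructor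
  · unfold K
    have h : toC (x.1 + 1, x.2) = toC x + 1 := by
      simp only [toC]; push_cast; ring
    rw [h, S_add_one, norm_neg]
  · unfold K
    have h : toC (x.1, x.2 + 1) = toC x + I := by
      simp only [toC]; push_cast; ring
    rw [h, S_add_I, norm_mul, mul_pow]
    have h2 : ‖mu (toC x)‖ = Real.exp (Real.pi + 2 * Real.pi * x.2) := by
      rw [mu, norm_neg, Complex.norm_exp]
      congr 1
      simp [toC]
    rw [h2, ← Real.exp_nat_mul, mul_right_comm, ← Real.exp_add, mul_comm]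
    congr 2
    push_cast
    ring

theorem K_neg1 (x : ℝ × ℝ) : K (-x.1, x.2) = K x := by
  unfold K
  rw [toC_neg, S_neg, S_conj, norm_neg, RCLike.norm_conj]

theorem K_neg2 (x : ℝ × ℝ) : K (x.1, -x.2) = K x := by
  unfold K
  rw [toC_neg', S_conj, RCLike.norm_conj, neg_sq]

theorem K_swap (x : ℝ × ℝ) : K (x.2, x.1) = K x := by
  have h := norm_S_I (toC x)
  rw [toC_re, toC_im] at h
  have h1 : Real.exp (-(2 * Real.pi * x.1 ^ 2))
      = Real.exp (-(Real.pi * (x.1 ^ 2 - x.2 ^ 2))) ^ 2 * Real.exp (-(2 * Real.pi * x.2 ^ 2)) := by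
    rw [← Real.exp_nat_mul, ← Real.exp_add]
    congr 1
    push_cast
    ring
  show ‖S (toC (x.2, x.1))‖ ^ 2 * Real.exp (-(2 * Real.pi * x.1 ^ 2))
    = ‖S (toC x)‖ ^ 2 * Real.exp (-(2 * Real.pi * x.2 ^ 2))
  rw [toC_swap, S_conj, RCLike.norm_conj, S_neg, norm_neg, ← h, h1]
  ring

/-! ### derivatives -/

lemma toC_hasFDerivAt (x : ℝ × ℝ) :
    HasFDerivAt toC (Complex.ofRealCLM.comp (ContinuousLinearMap.fst ℝ ℝ ℝ)
      + (I : ℂ) • Complex.ofRealCLM.comp (ContinuousLinearMap.snd ℝ ℝ ℝ)) x := by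
  have h1 : HasFDerivAt (fun y : ℝ × ℝ => (y.1 : ℂ)) (Complex.ofRealCLM.comp (ContinuousLinearMap.fst ℝ ℝ ℝ)) x :=
    (Complex.ofRealCLM.comp (ContinuousLinearMap.fst ℝ ℝ ℝ)).hasFDerivAt
  have h2 : HasFDerivAt (fun y : ℝ × ℝ => (y.2 : ℂ)) (Complex.ofRealCLM.comp (ContinuousLinearMap.snd ℝ ℝ ℝ)) x :=
    (Complex.ofRealCLM.comp (ContinuousLinearMap.snd ℝ ℝ ℝ)).hasFDerivAt
  have h3 := h1.add (h2.const_smul I)
  refine h3.congr_of_eventuallyEq (Eventually.of_forall fun y => ?_)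
  simp [toC, mul_comm]

lemma hol_hasFDerivAt {f : ℂ → ℂ} {x : ℝ × ℝ} (hf : DifferentiableAt ℂ f (toC x)) :
    ∃ L : ℝ × ℝ →L[ℝ] ℝ, HasFDerivAt (fun y => (f (toC y)).re) L x ∧ L (1, 0) = (deriv f (toC x)).re ∧
      L (0, 1) = -(deriv f (toC x)).im := by
  have h1 := (hf.hasDerivAt.hasFDerivAt.restrictScalars ℝ).comp x (toC_hasFDerivAt x)
  have h2 := (Complex.reCLM.hasFDerivAt (x := f (toC x))).comp x h1
  refine ⟨_, h2, ?_, ?_⟩
  · simp
  · simp

lemma D1_re {f : ℂ → ℂ} {x : ℝ × ℝ} (hf : DifferentiableAt ℂ f (toC x)) :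
    D1 (fun y => (f (toC y)).re) x = (deriv f (toC x)).re := by
  obtain ⟨L, hL, h1, _⟩ := hol_hasFDerivAt hf
  rw [D1, hL.fderiv, h1]

lemma D2_re {f : ℂ → ℂ} {x : ℝ × ℝ} (hf : DifferentiableAt ℂ f (toC x)) :
    D2 (fun y => (f (toC y)).re) x = -(deriv f (toC x)).im := by
  obtain ⟨L, hL, _, h1⟩ := hol_hasFDerivAt hf
  rw [D2, hL.fderiv, h1]

lemma D1_congr {f g : ℝ × ℝ → ℝ} {x : ℝ × ℝ} (h : f =ᶠ[𝓝 x] g) : D1 f x = D1 g x := by
  rw [D1, D1, h.fderiv_eq]

lemma D2_congr {f g : ℝ × ℝ → ℝ} {x : ℝ × ℝ} (h : f =ᶠ[𝓝 x] g) : D2 f x = D2 g x := by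
  rw [D2, D2, h.fderiv_eq]

lemma D1_eventually {f g : ℝ × ℝ → ℝ} {x : ℝ × ℝ} (h : f =ᶠ[𝓝 x] g) : D1 f =ᶠ[𝓝 x] D1 g := by
  filter_upwards [eventually_eventually_nhds.mpr h] with y hy
  exact D1_congr hy

lemma D2_eventually {f g : ℝ × ℝ → ℝ} {x : ℝ × ℝ} (h : f =ᶠ[𝓝 x] g) : D2 f =ᶠ[𝓝 x] D2 g := by
  filter_upwards [eventually_eventually_nhds.mpr h] with y hy
  exact D2_congr hy

lemma Lap_congr {f g : ℝ × ℝ → ℝ} {x : ℝ × ℝ} (h : f =ᶠ[𝓝 x] g) : Lap f x = Lap g x := by
  rw [Lap, Lap, D1_congr (D1_eventually h), D2_congr (D2_eventually h)]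

lemma toC_continuous : Continuous toC := toC_contDiff.continuous

/-- real parts of holomorphic functions are harmonic -/
lemma Lap_re {f : ℂ → ℂ} {x : ℝ × ℝ} (hf : ∀ᶠ z in 𝓝 (toC x), DifferentiableAt ℂ f z) :
    Lap (fun y => (f (toC y)).re) x = 0 := by
  have han : AnalyticAt ℂ f (toC x) := Complex.analyticAt_iff_eventually_differentiableAt.mpr hf
  have hd : DifferentiableAt ℂ (deriv f) (toC x) := han.deriv.differentiableAt
  have hev : ∀ᶠ y in 𝓝 x, DifferentiableAt ℂ f (toC y) := toC_continuous.continuousAt.eventually hf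
  have h1 : D1 (fun y => (f (toC y)).re) =ᶠ[𝓝 x] fun y => (deriv f (toC y)).re := by
    filter_upwards [hev] with y hy using D1_re hy
  have h2 : D2 (fun y => (f (toC y)).re) =ᶠ[𝓝 x] fun y => ((fun z => I * deriv f z) (toC y)).re := by
    filter_upwards [hev] with y hy
    rw [D2_re hy]
    simp
  have hd2 : DifferentiableAt ℂ (fun z => I * deriv f z) (toC x) := hd.const_mul I
  rw [Lap, D1_congr h1, D2_congr h2, D1_re hd, D2_re hd2, deriv_const_mul_field]
  simp

/-- `log |f|` is the real part of a holomorphic function where `f ≠ 0` -/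
lemma log_norm_local {f : ℂ → ℂ} (hf : Differentiable ℂ f) {z : ℂ} (hz : f z ≠ 0) :
    ∃ g : ℂ → ℂ, (∀ᶠ u in 𝓝 z, DifferentiableAt ℂ g u) ∧ ∀ᶠ u in 𝓝 z, Real.log ‖f u‖ = (g u).re := by
  have hev : ∀ᶠ u in 𝓝 z, f u / f z ∈ Complex.slitPlane := by
    have hc : ContinuousAt (fun u => f u / f z) z := (hf z).continuousAt.div_const _
    have h1 : f z / f z ∈ Complex.slitPlane := by rw [div_self hz]; exact Complex.one_mem_slitPlane
    exact hc.eventually (Complex.isOpen_slitPlane.mem_nhds h1)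
  refine ⟨fun u => Complex.log (f u / f z) + (Real.log ‖f z‖ : ℝ), ?_, ?_⟩
  · filter_upwards [hev] with u hu
    exact ((((hf u).div_const _).clog hu)).add_const _
  · filter_upwards [hev] with u hu
    have hu0 : f u ≠ 0 := by
      intro h0
      rw [h0, zero_div] at hu
      exact Complex.zero_notMem_slitPlane hu
    rw [Complex.add_re, Complex.log_re, Complex.ofReal_re, norm_div,
      Real.log_div (norm_ne_zero_iff.mpr hu0) (norm_ne_zero_iff.mpr hz)]
    ring


lemma toC_surj_im (x : ℝ × ℝ) : S (toC x) = 0 ↔ x ∈ Lat := by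
  rw [← K_eq_zero_iff, K, mul_eq_zero, or_iff_left (Real.exp_pos _).ne', pow_eq_zero_iff two_ne_zero,
    norm_eq_zero]

/-- the quadratic part -/
lemma Lap_quad (x : ℝ × ℝ) (c : ℝ) : Lap (fun y => c * y.2 ^ 2) x = 2 * c := by
  have h1 : ∀ y : ℝ × ℝ, HasFDerivAt (fun y : ℝ × ℝ => c * y.2 ^ 2)
      ((c * (2 * y.2)) • ContinuousLinearMap.snd ℝ ℝ ℝ) y := by
    intro y
    have h := ((hasFDerivAt_snd (𝕜 := ℝ) (p := y)).pow 2).const_mul c
    refine h.congr_fderiv ?_
    ext <;> simp [mul_comm]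
  have hD1 : D1 (fun y : ℝ × ℝ => c * y.2 ^ 2) = fun _ => 0 := by
    funext y
    rw [D1, (h1 y).fderiv]
    simp
  have hD2 : D2 (fun y : ℝ × ℝ => c * y.2 ^ 2) = fun y => (2 * c) * y.2 := by
    funext y
    rw [D2, (h1 y).fderiv]
    simp
    ring
  have h3 : HasFDerivAt (fun y : ℝ × ℝ => (2 * c) * y.2) ((2 * c) • ContinuousLinearMap.snd ℝ ℝ ℝ) x :=
    (hasFDerivAt_snd (𝕜 := ℝ) (p := x)).const_mul (2 * c)
  rw [Lap, hD1, hD2, D1, D2, h3.fderiv]
  simp

lemma fderiv_apply_differentiableAt {u : ℝ × ℝ → ℝ} {x : ℝ × ℝ} (hu : ContDiffAt ℝ 2 u x) (v : ℝ × ℝ) :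
    DifferentiableAt ℝ (fun y => fderiv ℝ u y v) x := by
  have h1 : ContDiffAt ℝ 1 (fderiv ℝ u) x := hu.fderiv_right (by norm_num)
  have h2 : DifferentiableAt ℝ (fderiv ℝ u) x := h1.differentiableAt (by norm_num)
  exact h2.clm_apply (differentiableAt_const v)

lemma eventually_differentiableAt {u : ℝ × ℝ → ℝ} {x : ℝ × ℝ} (hu : ContDiffAt ℝ 2 u x) :
    ∀ᶠ y in 𝓝 x, DifferentiableAt ℝ u y := by
  filter_upwards [hu.eventually (by norm_num)] with y hy
  exact hy.differentiableAt (by norm_num)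

lemma Lap_add' {u v : ℝ × ℝ → ℝ} {x : ℝ × ℝ} (hu : ContDiffAt ℝ 2 u x) (hv : ContDiffAt ℝ 2 v x) :
    Lap (fun y => u y + v y) x = Lap u x + Lap v x := by
  have h1 : D1 (fun y => u y + v y) =ᶠ[𝓝 x] fun y => D1 u y + D1 v y := by
    filter_upwards [eventually_differentiableAt hu, eventually_differentiableAt hv] with y h1 h2
    rw [D1, D1, D1, fderiv_fun_add h1 h2]
    rfl
  have h2 : D2 (fun y => u y + v y) =ᶠ[𝓝 x] fun y => D2 u y + D2 v y := by
    filter_upwards [eventually_differentiableAt hu, eventually_differentiableAt hv] with y h1 h2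
    rw [D2, D2, D2, fderiv_fun_add h1 h2]
    rfl
  have a1 : DifferentiableAt ℝ (D1 u) x := fderiv_apply_differentiableAt hu (1, 0)
  have a2 : DifferentiableAt ℝ (D1 v) x := fderiv_apply_differentiableAt hv (1, 0)
  have a3 : DifferentiableAt ℝ (D2 u) x := fderiv_apply_differentiableAt hu (0, 1)
  have a4 : DifferentiableAt ℝ (D2 v) x := fderiv_apply_differentiableAt hv (0, 1)
  have e1 : D1 (fun y => D1 u y + D1 v y) x = D1 (D1 u) x + D1 (D1 v) x := by
    rw [D1, fderiv_fun_add a1 a2]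
    rfl
  have e2 : D2 (fun y => D2 u y + D2 v y) x = D2 (D2 u) x + D2 (D2 v) x := by
    rw [D2, fderiv_fun_add a3 a4]
    rfl
  rw [Lap, D1_congr h1, D2_congr h2, e1, e2, Lap, Lap]
  ring

lemma log_contDiffAt {f : ℂ → ℂ} (hf : Differentiable ℂ f) {x : ℝ × ℝ} (hx : f (toC x) ≠ 0) :
    ContDiffAt ℝ ∞ (fun y => Real.log ‖f (toC y)‖) x := by
  have h1 : ContDiffAt ℝ ∞ (fun y => f (toC y)) x := (hol_contDiff hf).contDiffAt
  have h2 : ContDiffAt ℝ ∞ (fun y => ‖f (toC y)‖) x := h1.norm ℝ hx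
  exact h2.log (norm_ne_zero_iff.mpr hx)

/-- `Lap (c y² + d log |f|) = 2c` where `f ≠ 0` -/
lemma Lap_log {f : ℂ → ℂ} (hf : Differentiable ℂ f) {x : ℝ × ℝ} (hx : f (toC x) ≠ 0) (c d : ℝ) :
    Lap (fun y => c * y.2 ^ 2 + d * Real.log ‖f (toC y)‖) x = 2 * c := by
  obtain ⟨g, hg, hfg⟩ := log_norm_local hf hx
  have h1 : ContDiffAt ℝ 2 (fun y : ℝ × ℝ => c * y.2 ^ 2) x :=
    (contDiff_const.mul (contDiff_snd.pow 2)).contDiffAt
  have h2 : ContDiffAt ℝ 2 (fun y : ℝ × ℝ => d * Real.log ‖f (toC y)‖) x :=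
    contDiffAt_const.mul ((log_contDiffAt hf hx).of_le (by norm_cast))
  rw [Lap_add' h1 h2, Lap_quad]
  have hev : (fun y : ℝ × ℝ => d * Real.log ‖f (toC y)‖)
      =ᶠ[𝓝 x] fun y => ((fun z : ℂ => (d : ℂ) * g z) (toC y)).re := by
    filter_upwards [toC_continuous.continuousAt.eventually hfg] with y hy
    rw [hy]
    simp
  have h3 : Lap (fun y => ((fun z : ℂ => (d : ℂ) * g z) (toC y)).re) x = 0 := by
    refine Lap_re (f := fun z : ℂ => (d : ℂ) * g z) ?_
    filter_upwards [hg] with u hu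
    exact hu.const_mul _
  rw [Lap_congr hev, h3]
  ring

theorem Lap_log_K {x : ℝ × ℝ} (hx : x ∉ Lat) : Lap (fun y => Real.log (K y)) x = -(4 * Real.pi) := by
  have hS : S (toC x) ≠ 0 := fun h => hx ((toC_surj_im x).mp h)
  have hev : (fun y => Real.log (K y))
      =ᶠ[𝓝 x] fun y => (-(2 * Real.pi)) * y.2 ^ 2 + 2 * Real.log ‖S (toC y)‖ := by
    have h1 : ∀ᶠ y in 𝓝 x, S (toC y) ≠ 0 :=
      (S_differentiable.continuous.comp toC_continuous).continuousAt.eventually_ne hS
    filter_upwards [h1] with y hy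
    have h2 : ‖S (toC y)‖ ≠ 0 := norm_ne_zero_iff.mpr hy
    rw [K, Real.log_mul (pow_ne_zero 2 h2) (Real.exp_pos _).ne', Real.log_pow, Real.log_exp]
    push_cast
    ring
  rw [Lap_congr hev, Lap_log S_differentiable hS]
  ring

/-! ### the regular part -/

/-- `sin (πz) / z` -/
noncomputable def sn : ℂ → ℂ := dslope (fun z => Complex.sin (Real.pi * z)) 0

lemma sn_differentiable : Differentiable ℂ sn := by
  rw [← differentiableOn_univ]
  refine (Complex.differentiableOn_dslope univ_mem).mpr ?_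
  exact (Complex.differentiable_sin.comp ((differentiable_const _).mul differentiable_id)).differentiableOn

lemma sn_mul (z : ℂ) : z * sn z = Complex.sin (Real.pi * z) := by
  have := sub_smul_dslope (fun z => Complex.sin (Real.pi * z)) 0 z
  rw [sn]
  simpa [smul_eq_mul] using this

lemma sn_zero : sn 0 = Real.pi := by
  have h1 : HasDerivAt (fun z : ℂ => Complex.sin (Real.pi * z)) (Complex.cos (Real.pi * 0) * (Real.pi * 1)) 0 :=
    ((hasDerivAt_id (0 : ℂ)).const_mul (Real.pi : ℂ)).csin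
  rw [sn, dslope_same, h1.deriv]
  simp


lemma sn_ne_zero {x : ℝ × ℝ} (hx : x ∈ Box 1) : sn (toC x) ≠ 0 := by
  intro h
  have h1 : Complex.sin (Real.pi * toC x) = 0 := by rw [← sn_mul, h, mul_zero]
  rw [Complex.sin_eq_zero_iff] at h1
  obtain ⟨k, hk⟩ := h1
  have hpi : (Real.pi : ℂ) ≠ 0 := by exact_mod_cast Real.pi_ne_zero
  have h2 : toC x = k := by
    have : (Real.pi : ℂ) * toC x = Real.pi * k := by rw [hk]; ring
    exact mul_left_cancel₀ hpi this
  have h3 : x.1 = k := by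
    have := congrArg Complex.re h2
    rw [toC_re] at this
    simpa using this
  have h4 : k = 0 := by
    have := hx.1
    rw [h3] at this
    rw [← Int.cast_abs] at this
    have h5 : |k| < 1 := by exact_mod_cast this
    exact Int.abs_lt_one_iff.mp h5
  rw [h2, h4, Int.cast_zero, sn_zero] at h
  exact hpi h

/-- `S z / z` -/
noncomputable def S1 (z : ℂ) : ℂ := sn z * P z

lemma S1_differentiable : Differentiable ℂ S1 := sn_differentiable.mul P_differentiable

lemma S1_ne_zero {x : ℝ × ℝ} (hx : x ∈ Box 1) : S1 (toC x) ≠ 0 := by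
  refine mul_ne_zero (sn_ne_zero hx) (P_ne_zero ?_ ?_)
  · rw [toC_im]; exact (abs_lt.mp hx.2).1
  · rw [toC_im]; exact (abs_lt.mp hx.2).2

lemma S_eq (z : ℂ) : S z = z * S1 z := by
  rw [S, S1, ← mul_assoc, sn_mul]

/-- the regular part of the Green function near `0` -/
noncomputable def R (x : ℝ × ℝ) : ℝ :=
  (1 / 2) * x.2 ^ 2 + (-(1 / (2 * Real.pi))) * Real.log ‖S1 (toC x)‖

lemma norm_toC_sq (x : ℝ × ℝ) : ‖toC x‖ ^ 2 = nsq x := by
  rw [← Complex.normSq_eq_norm_sq, Complex.normSq_apply, toC_re, toC_im, nsq]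
  ring

theorem K_eq_R {x : ℝ × ℝ} (hx : x ∈ Box 1) : K x = nsq x * Real.exp (-(4 * Real.pi * R x)) := by
  have h1 : S1 (toC x) ≠ 0 := S1_ne_zero hx
  have h2 : 0 < ‖S1 (toC x)‖ := norm_pos_iff.mpr h1
  have h3 : Real.exp (-(4 * Real.pi * R x))
      = ‖S1 (toC x)‖ ^ 2 * Real.exp (-(2 * Real.pi * x.2 ^ 2)) := by
    have hpi := Real.pi_ne_zero
    have : -(4 * Real.pi * R x) = 2 * Real.log ‖S1 (toC x)‖ + -(2 * Real.pi * x.2 ^ 2) := by
      rw [R]
      field_simp
      ring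
    rw [this, Real.exp_add]
    congr 1
    rw [mul_comm, Real.exp_mul, Real.exp_log h2]
    norm_num
  rw [h3, K, S_eq, norm_mul, mul_pow, norm_toC_sq]
  ring

theorem R_contDiffOn : ContDiffOn ℝ ∞ R (Box 1) := by
  intro x hx
  have h1 : ContDiffAt ℝ ∞ (fun y => Real.log ‖S1 (toC y)‖) x := log_contDiffAt S1_differentiable (S1_ne_zero hx)
  have h2 : ContDiffAt ℝ ∞ (fun y : ℝ × ℝ => (1 / 2 : ℝ) * y.2 ^ 2) x :=
    (contDiff_const.mul (contDiff_snd.pow 2)).contDiffAt
  exact (h2.add (contDiffAt_const.mul h1)).contDiffWithinAt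

theorem Lap_R {x : ℝ × ℝ} (hx : x ∈ Box 1) : Lap R x = 1 := by
  have h := Lap_log S1_differentiable (S1_ne_zero hx) (1 / 2) (-(1 / (2 * Real.pi)))
  have h2 : R = fun y => (1 / 2) * y.2 ^ 2 + (-(1 / (2 * Real.pi))) * Real.log ‖S1 (toC y)‖ := rfl
  rw [h2, h]
  norm_num


/-! ### monotonicity -/

lemma norm_one_sub_le {v v' : ℂ} (h1 : ‖v‖ = ‖v'‖) (h2 : v'.re ≤ v.re) {s : ℝ} (hs : 0 ≤ s) :
    ‖1 + -((s : ℂ) * v)‖ ≤ ‖1 + -((s : ℂ) * v')‖ := by
  have key : ∀ u : ℂ, ‖1 + -((s : ℂ) * u)‖ ^ 2 = 1 - 2 * s * u.re + s ^ 2 * ‖u‖ ^ 2 := by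
    intro u
    rw [← Complex.normSq_eq_norm_sq, ← Complex.normSq_eq_norm_sq, Complex.normSq_apply, Complex.normSq_apply]
    simp
    ring
  refine (sq_le_sq₀ (norm_nonneg _) (norm_nonneg _)).mp ?_
  rw [key, key, h1]
  have : s * v'.re ≤ s * v.re := mul_le_mul_of_nonneg_left h2 hs
  linarith

lemma E_norm_mono {v v' : ℂ} (h1 : ‖v‖ = ‖v'‖) (h2 : v'.re ≤ v.re) : ‖E v‖ ≤ ‖E v'‖ := by
  have t1 := ((E_multipliable v).hasProd.tendsto_prod_nat).norm
  have t2 := ((E_multipliable v').hasProd.tendsto_prod_nat).norm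
  refine le_of_tendsto_of_tendsto' t1 t2 fun N => ?_
  rw [norm_prod, norm_prod]
  refine Finset.prod_le_prod (fun _ _ => norm_nonneg _) fun n _ => ?_
  have := norm_one_sub_le h1 h2 (s := qr ^ n) (pow_nonneg qr_pos.le n)
  simpa using this

lemma ww_norm (z : ℂ) : ‖ww z‖ = Real.exp (-(2 * Real.pi * z.im)) := by
  rw [ww, Complex.norm_exp]
  congr 1
  simp

lemma ww_re (z : ℂ) : (ww z).re = Real.exp (-(2 * Real.pi * z.im)) * Real.cos (2 * Real.pi * z.re) := by
  rw [ww, Complex.exp_re]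
  simp

lemma P_norm_mono {t t' y : ℝ} (h0 : 0 ≤ t) (h1 : t ≤ t') (h2 : t' ≤ 1 / 2) :
    ‖P (toC (t, y))‖ ≤ ‖P (toC (t', y))‖ := by
  have hpi := Real.pi_pos
  have hcos : Real.cos (2 * Real.pi * t') ≤ Real.cos (2 * Real.pi * t) := by
    refine Real.cos_le_cos_of_nonneg_of_le_pi (by positivity) ?_ ?_
    · nlinarith
    · exact mul_le_mul_of_nonneg_left h1 (by positivity)
  unfold P
  rw [norm_mul, norm_mul]
  refine mul_le_mul ?_ ?_ (norm_nonneg _) (norm_nonneg _)
  · refine E_norm_mono ?_ ?_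
    · rw [norm_mul, norm_mul, ww_norm, ww_norm, toC_im, toC_im]
    · rw [Complex.re_ofReal_mul, Complex.re_ofReal_mul, ww_re, ww_re, toC_im, toC_im, toC_re, toC_re]
      exact mul_le_mul_of_nonneg_left (mul_le_mul_of_nonneg_left hcos (Real.exp_pos _).le) qr_pos.le
  · refine E_norm_mono ?_ ?_
    · rw [norm_mul, norm_mul, ww_norm, ww_norm, Complex.neg_im, Complex.neg_im, toC_im, toC_im]
    · rw [Complex.re_ofReal_mul, Complex.re_ofReal_mul, ww_re, ww_re, Complex.neg_im, Complex.neg_im,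
        Complex.neg_re, Complex.neg_re, toC_im, toC_im, toC_re, toC_re, mul_neg (2 * Real.pi) (t', y).1,
        mul_neg (2 * Real.pi) (t, y).1, Real.cos_neg, Real.cos_neg]
      exact mul_le_mul_of_nonneg_left (mul_le_mul_of_nonneg_left hcos (Real.exp_pos _).le) qr_pos.le

lemma aux_re (a b c d : ℝ) : ((a : ℂ) * (b : ℂ) + (c : ℂ) * (d : ℂ) * I).re = a * b := by simp

lemma aux_im (a b c d : ℝ) : ((a : ℂ) * (b : ℂ) + (c : ℂ) * (d : ℂ) * I).im = c * d := by simp

lemma norm_sin_sq (t y : ℝ) : ‖Complex.sin (Real.pi * toC (t, y))‖ ^ 2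
    = Real.sin (Real.pi * t) ^ 2 + Real.sinh (Real.pi * y) ^ 2 := by
  have h1 : (Real.pi : ℂ) * toC (t, y) = ((Real.pi * t : ℝ) : ℂ) + ((Real.pi * y : ℝ) : ℂ) * I := by
    simp only [toC]
    push_cast
    ring
  rw [h1, Complex.sin_add_mul_I, ← Complex.ofReal_sin, ← Complex.ofReal_cos, ← Complex.ofReal_sinh,
    ← Complex.ofReal_cosh, ← Complex.normSq_eq_norm_sq, Complex.normSq_apply]
  have h2 : ((Real.sin (Real.pi * t) : ℂ) * (Real.cosh (Real.pi * y) : ℂ)
      + (Real.cos (Real.pi * t) : ℂ) * (Real.sinh (Real.pi * y) : ℂ) * I).re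
      = Real.sin (Real.pi * t) * Real.cosh (Real.pi * y) := aux_re _ _ _ _
  have h3 : ((Real.sin (Real.pi * t) : ℂ) * (Real.cosh (Real.pi * y) : ℂ)
      + (Real.cos (Real.pi * t) : ℂ) * (Real.sinh (Real.pi * y) : ℂ) * I).im
      = Real.cos (Real.pi * t) * Real.sinh (Real.pi * y) := aux_im _ _ _ _
  rw [h2, h3]
  have h4 := Real.cosh_sq (Real.pi * y)
  have h5 := Real.sin_sq_add_cos_sq (Real.pi * t)
  linear_combination (Real.sin (Real.pi * t) ^ 2) * h4 + Real.sinh (Real.pi * y) ^ 2 * h5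

lemma D1_hasDerivAt {f : ℝ × ℝ → ℝ} {x : ℝ × ℝ} (hf : DifferentiableAt ℝ f x) :
    HasDerivAt (fun t => f (t, x.2)) (D1 f x) x.1 := by
  have h1 : HasFDerivAt f (fderiv ℝ f x) (x.1, x.2) := hf.hasFDerivAt
  have h2 : HasDerivAt (fun t : ℝ => ((t, x.2) : ℝ × ℝ)) (1, 0) x.1 :=
    (hasDerivAt_id x.1).prodMk (hasDerivAt_const x.1 x.2)
  exact h1.comp_hasDerivAt x.1 h2

lemma log_K_contDiffAt {x : ℝ × ℝ} (hx : x ∉ Lat) : ContDiffAt ℝ ∞ (fun y => Real.log (K y)) x :=
  K_contDiff.contDiffAt.log (K_pos hx).ne'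

lemma D1_log_K_strip {x : ℝ × ℝ} (hx : x ∉ Lat) (h0 : 0 ≤ x.1) (h1 : x.1 ≤ 1 / 2) (h2 : |x.2| ≤ 1 / 2) :
    Real.pi * Real.sin (2 * Real.pi * x.1) / Real.cosh (Real.pi / 2) ^ 2
      ≤ D1 (fun y => Real.log (K y)) x := by
  obtain ⟨t0, y⟩ := x
  simp only at h0 h1 h2
  have hpi := Real.pi_pos
  have hd : HasDerivAt (fun t => Real.log (K (t, y))) (D1 (fun y => Real.log (K y)) (t0, y)) t0 :=
    D1_hasDerivAt ((log_K_contDiffAt hx).differentiableAt (by simp))
  have hP : ∀ t : ℝ, P (toC (t, y)) ≠ 0 := by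
    intro t
    have := abs_le.mp h2
    refine P_ne_zero ?_ ?_
    · rw [toC_im]; simp only; linarith
    · rw [toC_im]; simp only; linarith
  -- the two parts
  set A : ℝ → ℝ := fun t => Real.log (Real.sin (Real.pi * t) ^ 2 + Real.sinh (Real.pi * y) ^ 2) with hA
  set B : ℝ → ℝ := fun t => 2 * Real.log ‖P (toC (t, y))‖ with hB
  have hs0 : Real.sin (Real.pi * t0) ^ 2 + Real.sinh (Real.pi * y) ^ 2 ≠ 0 := by
    intro h
    rw [← norm_sin_sq, pow_eq_zero_iff two_ne_zero, norm_eq_zero] at h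
    apply hx
    rw [← toC_surj_im, S, h, zero_mul]
  have hsum : ∀ᶠ t in 𝓝 t0, Real.log (K (t, y)) = A t + B t + (-(2 * Real.pi * y ^ 2)) := by
    have hc : ContinuousAt (fun t => Real.sin (Real.pi * t) ^ 2 + Real.sinh (Real.pi * y) ^ 2) t0 := by
      fun_prop
    filter_upwards [hc.eventually_ne hs0] with t ht
    have hP2 : ‖P (toC (t, y))‖ ≠ 0 := norm_ne_zero_iff.mpr (hP t)
    rw [hA, hB, K, S, norm_mul, mul_pow, norm_sin_sq, Real.log_mul (mul_ne_zero ht (pow_ne_zero 2 hP2))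
      (Real.exp_pos _).ne', Real.log_mul ht (pow_ne_zero 2 hP2), Real.log_pow, Real.log_exp]
    push_cast
    ring
  have hAd : HasDerivAt A (Real.pi * Real.sin (2 * Real.pi * t0)
      / (Real.sin (Real.pi * t0) ^ 2 + Real.sinh (Real.pi * y) ^ 2)) t0 := by
    have e1 : HasDerivAt (fun t : ℝ => Real.sin (Real.pi * t)) (Real.cos (Real.pi * t0) * (Real.pi * 1)) t0 :=
      ((hasDerivAt_id t0).const_mul Real.pi).sin
    have e2 := (e1.pow 2).add_const (Real.sinh (Real.pi * y) ^ 2)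
    have e3 := e2.log hs0
    refine e3.congr_deriv ?_
    congr 1
    have : 2 * Real.pi * t0 = 2 * (Real.pi * t0) := by ring
    rw [this, Real.sin_two_mul]
    simp
    ring
  have hBc : ContDiff ℝ ∞ fun u : ℝ × ℝ => P (toC u) := hol_contDiff P_differentiable
  have hBd : DifferentiableAt ℝ B t0 := by
    have e1 : DifferentiableAt ℝ (fun u : ℝ × ℝ => Real.log ‖P (toC u)‖) (t0, y) :=
      (log_contDiffAt P_differentiable (hP t0)).differentiableAt (by simp)
    exact (D1_hasDerivAt e1).differentiableAt.const_mul 2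
  have hBm : MonotoneOn B (Icc 0 (1 / 2)) := by
    intro t ht t' ht' htt
    have := P_norm_mono (y := y) ht.1 htt ht'.2
    exact mul_le_mul_of_nonneg_left (Real.log_le_log (norm_pos_iff.mpr (hP t)) this) (by norm_num)
  have hB0 : 0 ≤ deriv B t0 := by
    have e1 : derivWithin B (Icc 0 (1 / 2)) t0 = deriv B t0 :=
      hBd.derivWithin ((uniqueDiffOn_Icc (by norm_num)) t0 ⟨h0, h1⟩)
    rw [← e1]
    exact hBm.derivWithin_nonneg
  have hd2 : HasDerivAt (fun t => Real.log (K (t, y)))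
      (Real.pi * Real.sin (2 * Real.pi * t0)
      / (Real.sin (Real.pi * t0) ^ 2 + Real.sinh (Real.pi * y) ^ 2) + deriv B t0) t0 :=
    ((hAd.add hBd.hasDerivAt).add_const _).congr_of_eventuallyEq hsum
  rw [hd.unique hd2]
  have hden : Real.sin (Real.pi * t0) ^ 2 + Real.sinh (Real.pi * y) ^ 2 ≤ Real.cosh (Real.pi / 2) ^ 2 := by
    have e1 : Real.sin (Real.pi * t0) ^ 2 ≤ 1 := Real.sin_sq_le_one _
    have e2 : Real.sinh (Real.pi * y) ^ 2 + 1 ≤ Real.cosh (Real.pi / 2) ^ 2 := by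
      rw [← Real.cosh_sq]
      refine pow_le_pow_left₀ (Real.cosh_pos _).le ?_ 2
      rw [Real.cosh_le_cosh, abs_mul, abs_of_pos hpi, abs_of_pos (by positivity : 0 < Real.pi / 2)]
      nlinarith
    linarith
  have hnum : 0 ≤ Real.pi * Real.sin (2 * Real.pi * t0) := by
    refine mul_nonneg hpi.le (Real.sin_nonneg_of_nonneg_of_le_pi (by positivity) ?_)
    nlinarith
  have hden0 : 0 < Real.sin (Real.pi * t0) ^ 2 + Real.sinh (Real.pi * y) ^ 2 :=
    lt_of_le_of_ne (by positivity) (Ne.symm hs0)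
  have := div_le_div_of_nonneg_left hnum hden0 hden
  linarith


lemma K_sub_int (n : ℤ) (u : ℝ × ℝ) : K (u + (0, -(n : ℝ))) = K u := by
  have h1 : Function.Periodic (fun b => K (u.1, b)) 1 := fun b => (K_per (u.1, b)).2
  have h2 := h1.sub_int_mul_eq (x := u.2) n
  have h3 : u + (0, -(n : ℝ)) = (u.1, u.2 - n * 1) := by
    ext <;> simp [sub_eq_add_neg]
  rw [h3]
  exact h2

lemma Lat_sub_int (n : ℤ) (u : ℝ × ℝ) : u + (0, -(n : ℝ)) ∈ Lat ↔ u ∈ Lat := by
  rw [← K_eq_zero_iff, ← K_eq_zero_iff, K_sub_int]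

lemma D1_log_K_Lat {x : ℝ × ℝ} (hx : x ∈ Lat) : D1 (fun y => Real.log (K y)) x = 0 := by
  have hnd : ¬ DifferentiableAt ℝ (fun y => Real.log (K y)) x := by
    intro hd
    have hc := hd.continuousAt
    obtain ⟨m, n, rfl⟩ := hx
    have hx' : (((m : ℝ), (n : ℝ)) : ℝ × ℝ) ∈ Lat := ⟨m, n, rfl⟩
    -- a sequence outside the lattice
    have hseq : Tendsto (fun k : ℕ => (((m : ℝ) + 1 / ((k : ℝ) + 2), (n : ℝ)) : ℝ × ℝ)) atTop
        (𝓝 (((m : ℝ), (n : ℝ)) : ℝ × ℝ)) := by
      have e1 : Tendsto (fun k : ℕ => (1 : ℝ) / ((k : ℝ) + 2)) atTop (𝓝 0) := by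
        have := tendsto_one_div_add_atTop_nhds_zero_nat (𝕜 := ℝ)
        have e2 := (tendsto_add_atTop_iff_nat 1).mpr this
        refine e2.congr fun k => ?_
        push_cast
        ring_nf
      have e3 := (tendsto_const_nhds (x := (m : ℝ))).add e1
      rw [add_zero] at e3
      exact e3.prodMk_nhds tendsto_const_nhds
    have hnot : ∀ k : ℕ, (((m : ℝ) + 1 / ((k : ℝ) + 2), (n : ℝ)) : ℝ × ℝ) ∉ Lat := by
      rintro k ⟨m', n', h⟩
      have h1 : (m : ℝ) + 1 / ((k : ℝ) + 2) = m' := congrArg Prod.fst h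
      have hk : (0 : ℝ) < (k : ℝ) + 2 := by positivity
      have hk2 : (1 : ℝ) / ((k : ℝ) + 2) < 1 := by
        rw [div_lt_one hk]
        have : (0 : ℝ) ≤ k := Nat.cast_nonneg k
        linarith
      have hk3 : (0 : ℝ) < 1 / ((k : ℝ) + 2) := by positivity
      have h2 : (m : ℝ) < m' := by linarith
      have h3 : (m' : ℝ) < m + 1 := by linarith
      have h4 : m < m' := by exact_mod_cast h2
      have h5 : m' < m + 1 := by exact_mod_cast h3
      omega
    have hK0 : K (((m : ℝ), (n : ℝ)) : ℝ × ℝ) = 0 := (K_eq_zero_iff _).mpr hx'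
    have t1 : Tendsto (fun k : ℕ => K ((m : ℝ) + 1 / ((k : ℝ) + 2), (n : ℝ))) atTop (𝓝[>] 0) := by
      refine tendsto_nhdsWithin_iff.mpr ⟨?_, Eventually.of_forall fun k => K_pos (hnot k)⟩
      have := (K_contDiff.continuous.tendsto (((m : ℝ), (n : ℝ)) : ℝ × ℝ)).comp hseq
      rw [hK0] at this
      exact this
    have t2 := Real.tendsto_log_nhdsGT_zero.comp t1
    have t3 : Tendsto (fun k : ℕ => Real.log (K ((m : ℝ) + 1 / ((k : ℝ) + 2), (n : ℝ)))) atTop
        (𝓝 (Real.log (K (((m : ℝ), (n : ℝ)) : ℝ × ℝ)))) := Tendsto.comp hc hseq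
    exact not_tendsto_nhds_of_tendsto_atBot t2 _ t3
  rw [D1, fderiv_zero_of_not_differentiableAt hnd]
  rfl

/-- `K` increases in the first variable on `[0,1/2]` -/
theorem D1_log_K {x : ℝ × ℝ} (h0 : 0 ≤ x.1) (h1 : x.1 ≤ 1 / 2) :
    Real.pi * Real.sin (2 * Real.pi * x.1) / Real.cosh (Real.pi / 2) ^ 2
      ≤ D1 (fun y => Real.log (K y)) x := by
  by_cases hx : x ∈ Lat
  · rw [D1_log_K_Lat hx]
    obtain ⟨m, n, rfl⟩ := hx
    have h2 : m = 0 := by
      have e1 : (0 : ℝ) ≤ m := h0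
      have e2 : (m : ℝ) ≤ 1 / 2 := h1
      have e3 : (m : ℝ) < 1 := by linarith
      have e4 : 0 ≤ m := by exact_mod_cast e1
      have e5 : m < 1 := by exact_mod_cast e3
      omega
    rw [h2]
    simp
  · set n : ℤ := round x.2 with hn
    have hy : |(x + (0, -(n : ℝ))).2| ≤ 1 / 2 := by
      have := abs_sub_round x.2
      simpa [sub_eq_add_neg] using this
    have e1 : (x + (0, -(n : ℝ))).1 = x.1 := by simp
    have h2 := D1_log_K_strip (x := x + (0, -(n : ℝ))) (by rwa [Lat_sub_int]) (by rwa [e1]) (by rwa [e1]) hy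
    have h3 : D1 (fun y => Real.log (K y)) x = D1 (fun y => Real.log (K y)) (x + (0, -(n : ℝ))) := by
      have h4 : (fun y => Real.log (K y)) = fun u => (fun y => Real.log (K y)) (u + (0, -(n : ℝ))) := by
        funext u
        simp only [K_sub_int]
      have h5 : fderiv ℝ (fun u => (fun y => Real.log (K y)) (u + (0, -(n : ℝ)))) x
          = fderiv ℝ (fun y => Real.log (K y)) (x + (0, -(n : ℝ))) :=
        fderiv_comp_add_right (𝕜 := ℝ) (f := fun y => Real.log (K y)) (x := x) ((0 : ℝ), -(n : ℝ))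
      rw [← h4] at h5
      rw [D1, D1, h5]
    rw [h3]
    rwa [e1] at h2

end Pool.Agent.AO.GreenX

namespace Pool.Agent.AO

open MeasureTheory Set Real
open scoped ContDiff

theorem exists_green : ∃ K R : ℝ × ℝ → ℝ, IsGreen K R := by
  refine ⟨GreenX.K, GreenX.R, ?_⟩
  exact
    { smoothK := GreenX.K_contDiff
      per := GreenX.K_per
      nonneg := GreenX.K_nonneg
      zero_iff := GreenX.K_eq_zero_iff
      refl1 := GreenX.K_neg1
      refl2 := GreenX.K_neg2
      swap := GreenX.K_swap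
      smoothR := GreenX.R_contDiffOn
      fac := fun x hx => by rw [GreenX.K_eq_R hx, neg_mul]
      lapR := fun x hx => GreenX.Lap_R hx
      mono := fun x _ h0 h1 => GreenX.D1_log_K h0 h1 }

end Pool.Agent.AO
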