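import Pool.Agent.Lib.MP_10e52e_an.Case1
import Pool.Agent.Lib.MP_10e52e_an.Case2
import Pool.Agent.Lib.MP_10e52e_an.GreenExists

namespace Pool.Agent.AO

open MeasureTheory Set Real
open scoped ContDiff

/-- For large `N` the reduced system has no solution. -/
theorem no_sol : ∃ K R : ℝ × ℝ → ℝ, IsGreen K R ∧ ∃ N0 : ℕ, ∀ (N : ℕ) (mu om : ℝ × ℝ → ℝ),
    N0 ≤ N → ¬ IsSol K N mu om := by
  obtain ⟨K, R, hG⟩ := exists_green
  obtain ⟨r1, h0, h1, N1, hc1⟩ := case1 hG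
  obtain ⟨N2, hc2⟩ := case2 hG h0 h1
  refine ⟨K, R, hG, max N1 N2, ?_⟩
  intro N mu om hN hs
  exact hc1 N mu om (le_trans (le_max_left _ _) hN) hs
    (hc2 N mu om (le_trans (le_max_right _ _) hN) hs)

end Pool.Agent.AO
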