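import Pool.Agent.Lib.MP_10e52e_an.Stmt
import Pool.Agent.Lib.MP_10e52e_an.Gconv

/-! # MP_10e52e_an row Red: reduction of the Ambjorn-Olesen system to `IsSol` (section 3) -/

namespace Pool.Agent.AO

open MeasureTheory Set Real Filter Topology
open scoped ContDiff

theorem red_le1 : (1 : WithTop ℕ∞) ≤ ∞ := by exact_mod_cast le_top

theorem red_le2 : (2 : WithTop ℕ∞) ≤ ∞ :=
  WithTop.coe_le_coe.2 (le_top : (2 : ℕ∞) ≤ ⊤)

section Red

variable {K R f g h : ℝ × ℝ → ℝ}

/-! ### smooth functions on the torus -/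

theorem Sm.const (c : ℝ) : Sm (fun _ : ℝ × ℝ => c) := ⟨contDiff_const, fun _ => ⟨rfl, rfl⟩⟩

theorem Sm.add (hf : Sm f) (hg : Sm g) : Sm fun x => f x + g x :=
  ⟨hf.smooth.add hg.smooth, fun x => ⟨by simp only [(hf.per x).1, (hg.per x).1], by
    simp only [(hf.per x).2, (hg.per x).2]⟩⟩

theorem Sm.sub (hf : Sm f) (hg : Sm g) : Sm fun x => f x - g x :=
  ⟨hf.smooth.sub hg.smooth, fun x => ⟨by simp only [(hf.per x).1, (hg.per x).1], by
    simp only [(hf.per x).2, (hg.per x).2]⟩⟩

theorem Sm.mul (hf : Sm f) (hg : Sm g) : Sm fun x => f x * g x :=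
  ⟨hf.smooth.mul hg.smooth, fun x => ⟨by simp only [(hf.per x).1, (hg.per x).1], by
    simp only [(hf.per x).2, (hg.per x).2]⟩⟩

theorem Sm.exp (hf : Sm f) : Sm fun x => Real.exp (f x) :=
  ⟨hf.smooth.exp, fun x => ⟨by simp only [(hf.per x).1], by simp only [(hf.per x).2]⟩⟩

theorem Sm.pow (hf : Sm f) (n : ℕ) : Sm fun x => f x ^ n :=
  ⟨hf.smooth.pow n, fun x => ⟨by simp only [(hf.per x).1], by simp only [(hf.per x).2]⟩⟩

theorem Sm.cmul (hf : Sm f) (c : ℝ) : Sm fun x => c * f x := (Sm.const c).mul hf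

theorem red_per_add (hf : Per f) (a : ℝ × ℝ) : Per fun x => f (x + a) := by
  intro x
  constructor
  · show f ((x.1 + 1, x.2) + a) = f (x + a)
    rw [← (hf (x + a)).1]; congr 1; ext <;> simp; ring
  · show f ((x.1, x.2 + 1) + a) = f (x + a)
    rw [← (hf (x + a)).2]; congr 1; ext <;> simp; ring

theorem Sm.comp_add (hf : Sm f) (a : ℝ × ℝ) : Sm fun x => f (x + a) :=
  ⟨hf.smooth.comp (contDiff_id.add contDiff_const), red_per_add hf.per a⟩

theorem red_Lap_comp_add (f : ℝ × ℝ → ℝ) (a : ℝ × ℝ) (x : ℝ × ℝ) :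
    Lap (fun x => f (x + a)) x = Lap f (x + a) := by
  have h1 : ∀ g : ℝ × ℝ → ℝ, D1 (fun x => g (x + a)) = fun x => D1 g (x + a) := by
    intro g; ext x; simp only [D1, fderiv_comp_add_right]
  have h2 : ∀ g : ℝ × ℝ → ℝ, D2 (fun x => g (x + a)) = fun x => D2 g (x + a) := by
    intro g; ext x; simp only [D2, fderiv_comp_add_right]
  simp only [Lap, h1, h2]

theorem Sm.D1 (hf : Sm f) : Sm (D1 f) := by
  refine ⟨(hf.smooth.fderiv_right (m := ∞) (by simp)).clm_apply contDiff_const, fun x => ?_⟩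
  have h1 : ∀ a : ℝ × ℝ, (∀ x, f (x + a) = f x) → AO.D1 f (x + a) = AO.D1 f x := by
    intro a ha
    have : (fun x => f (x + a)) = f := funext ha
    simp only [AO.D1]
    rw [← fderiv_comp_add_right, this]
  constructor
  · have := h1 (1, 0) (fun x => by rw [← (hf.per x).1]; congr 1; ext <;> simp)
    rw [← this]; congr 1; ext <;> simp
  · have := h1 (0, 1) (fun x => by rw [← (hf.per x).2]; congr 1; ext <;> simp)
    rw [← this]; congr 1; ext <;> simp

theorem Sm.D2 (hf : Sm f) : Sm (D2 f) := by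
  refine ⟨(hf.smooth.fderiv_right (m := ∞) (by simp)).clm_apply contDiff_const, fun x => ?_⟩
  have h1 : ∀ a : ℝ × ℝ, (∀ x, f (x + a) = f x) → AO.D2 f (x + a) = AO.D2 f x := by
    intro a ha
    have : (fun x => f (x + a)) = f := funext ha
    simp only [AO.D2]
    rw [← fderiv_comp_add_right, this]
  constructor
  · have := h1 (1, 0) (fun x => by rw [← (hf.per x).1]; congr 1; ext <;> simp)
    rw [← this]; congr 1; ext <;> simp
  · have := h1 (0, 1) (fun x => by rw [← (hf.per x).2]; congr 1; ext <;> simp)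
    rw [← this]; congr 1; ext <;> simp

theorem Sm.lap (hf : Sm f) : Sm (Lap f) := hf.D1.D1.add hf.D2.D2

theorem Sm.diff (hf : Sm f) (x : ℝ × ℝ) : DifferentiableAt ℝ f x :=
  (hf.smooth.differentiable (by simp)).differentiableAt

theorem Sm.D1_add (hf : Sm f) (hg : Sm g) :
    AO.D1 (fun x => f x + g x) = fun x => AO.D1 f x + AO.D1 g x := by
  ext x
  simp only [AO.D1]
  rw [fderiv_fun_add (hf.diff x) (hg.diff x)]; rfl

theorem Sm.D2_add (hf : Sm f) (hg : Sm g) :
    AO.D2 (fun x => f x + g x) = fun x => AO.D2 f x + AO.D2 g x := by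
  ext x
  simp only [AO.D2]
  rw [fderiv_fun_add (hf.diff x) (hg.diff x)]; rfl

theorem Sm.D1_cmul (hf : Sm f) (c : ℝ) : AO.D1 (fun x => c * f x) = fun x => c * AO.D1 f x := by
  ext x
  simp only [AO.D1]
  rw [fderiv_const_mul (hf.diff x)]; rfl

theorem Sm.D2_cmul (hf : Sm f) (c : ℝ) : AO.D2 (fun x => c * f x) = fun x => c * AO.D2 f x := by
  ext x
  simp only [AO.D2]
  rw [fderiv_const_mul (hf.diff x)]; rfl

theorem Sm.Lap_add (hf : Sm f) (hg : Sm g) (x : ℝ × ℝ) :
    Lap (fun x => f x + g x) x = Lap f x + Lap g x := by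
  simp only [Lap, hf.D1_add hg, hf.D2_add hg, hf.D1.D1_add hg.D1, hf.D2.D2_add hg.D2]
  ring

theorem Sm.Lap_cmul (hf : Sm f) (c : ℝ) (x : ℝ × ℝ) :
    Lap (fun x => c * f x) x = c * Lap f x := by
  simp only [Lap, hf.D1_cmul, hf.D2_cmul, hf.D1.D1_cmul, hf.D2.D2_cmul]
  ring

theorem red_Lap_const (c : ℝ) (x : ℝ × ℝ) : Lap (fun _ => c) x = 0 := by
  have h1 : AO.D1 (fun _ : ℝ × ℝ => c) = fun _ => 0 := by ext x; simp [AO.D1]
  have h2 : AO.D2 (fun _ : ℝ × ℝ => c) = fun _ => 0 := by ext x; simp [AO.D2]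
  have h3 : AO.D1 (fun _ : ℝ × ℝ => (0 : ℝ)) = fun _ => 0 := by ext x; simp [AO.D1]
  have h4 : AO.D2 (fun _ : ℝ × ℝ => (0 : ℝ)) = fun _ => 0 := by ext x; simp [AO.D2]
  simp only [Lap, h1, h2, h3, h4]; simp

/-! ### integrals -/

theorem red_measurableSet_Q : MeasurableSet Q := measurableSet_Ioc.prod measurableSet_Ioc

/-- the open cell -/
def red_Qo : Set (ℝ × ℝ) := Ioo (-1 / 2 : ℝ) (1 / 2) ×ˢ Ioo (-1 / 2 : ℝ) (1 / 2)

theorem red_isOpen_Qo : IsOpen red_Qo := isOpen_Ioo.prod isOpen_Ioo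

theorem red_Qo_subset : red_Qo ⊆ Q := prod_mono Ioo_subset_Ioc_self Ioo_subset_Ioc_self

theorem red_Qo_ae : (red_Qo : Set (ℝ × ℝ)) =ᵐ[volume] Q := by
  have h1 : (Ioo (-1 / 2 : ℝ) (1 / 2)) =ᵐ[volume] Ioc (-1 / 2 : ℝ) (1 / 2) := Ioo_ae_eq_Ioc
  exact Measure.set_prod_ae_eq h1 h1

theorem red_Q_subset : Q ⊆ Icc (-1 / 2 : ℝ) (1 / 2) ×ˢ Icc (-1 / 2 : ℝ) (1 / 2) :=
  prod_mono Ioc_subset_Icc_self Ioc_subset_Icc_self

theorem red_isCompact_cl : IsCompact (Icc (-1 / 2 : ℝ) (1 / 2) ×ˢ Icc (-1 / 2 : ℝ) (1 / 2)) :=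
  isCompact_Icc.prod isCompact_Icc

theorem Sm.integrable (hf : Sm f) : IntegrableOn f Q :=
  (hf.smooth.continuous.continuousOn.integrableOn_compact red_isCompact_cl).mono_set red_Q_subset

theorem Sm.integrable_mul (hf : Sm f) (hg : IntegrableOn g Q) :
    IntegrableOn (fun x => g x * f x) Q := by
  obtain ⟨C, hC⟩ := red_isCompact_cl.exists_bound_of_continuousOn hf.smooth.continuous.continuousOn
  refine Integrable.mul_bdd (c := C) hg hf.smooth.continuous.aestronglyMeasurable ?_
  exact (ae_restrict_iff' red_measurableSet_Q).2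
    (Eventually.of_forall fun x hx => hC x (red_Q_subset hx))

theorem red_Q_volume : (volume : Measure (ℝ × ℝ)) Q = 1 := by
  rw [Q, Measure.volume_eq_prod, Measure.prod_prod, Real.volume_Ioc]
  norm_num

theorem red_TI_const (c : ℝ) : TI (fun _ => c) = c := by
  rw [TI, setIntegral_const, Measure.real, red_Q_volume]; simp

theorem red_TI_congr (h : ∀ᵐ x ∂(volume.restrict Q), f x = g x) : TI f = TI g :=
  integral_congr_ae h

theorem red_TI_add (hf : IntegrableOn f Q) (hg : IntegrableOn g Q) :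
    TI (fun x => f x + g x) = TI f + TI g := integral_add hf hg

theorem red_TI_sub (hf : IntegrableOn f Q) (hg : IntegrableOn g Q) :
    TI (fun x => f x - g x) = TI f - TI g := integral_sub hf hg

theorem red_TI_cmul (c : ℝ) (f : ℝ × ℝ → ℝ) : TI (fun x => c * f x) = c * TI f :=
  integral_const_mul c f

theorem Sm.TI_add_right (hf : Sm f) (a : ℝ × ℝ) : TI (fun x => f (x + a)) = TI f :=
  TI_shift hf.per hf.integrable a

theorem Sm.TI_Lap (hf : Sm f) : TI (Lap f) = 0 := by
  have h1 := TI_D1 (hf.D1.smooth.of_le red_le1) hf.D1.per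
  have h2 := TI_D2 (hf.D2.smooth.of_le red_le1) hf.D2.per
  have h3 := red_TI_add hf.D1.D1.integrable hf.D2.D2.integrable
  rw [h1, h2, add_zero] at h3
  exact h3

theorem Sm.TI_mul_Lap (hf : Sm f) (hg : Sm g) :
    TI (fun x => f x * Lap g x) = TI (fun x => Lap f x * g x) := by
  have h1 := TI_green (hf.smooth.of_le red_le1) hf.per (hg.smooth.of_le red_le2) hg.per
  have h2 := TI_green (hg.smooth.of_le red_le1) hg.per (hf.smooth.of_le red_le2) hf.per
  have e1 : TI (fun x => Lap f x * g x) = TI (fun x => g x * Lap f x) :=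
    congrArg TI (funext fun x => mul_comm _ _)
  have e2 : TI (fun x => AO.D1 g x * AO.D1 f x + AO.D2 g x * AO.D2 f x) =
      TI (fun x => AO.D1 f x * AO.D1 g x + AO.D2 f x * AO.D2 g x) :=
    congrArg TI (funext fun x => by ring)
  rw [h1, e1, h2, e2]

theorem red_round_mem (x : ℝ × ℝ) :
    (x.1 - round x.1, x.2 - round x.2) ∈ Icc (-1 / 2 : ℝ) (1 / 2) ×ˢ Icc (-1 / 2 : ℝ) (1 / 2) := by
  have h1 := abs_le.1 (abs_sub_round x.1)
  have h2 := abs_le.1 (abs_sub_round x.2)
  exact ⟨⟨by linarith [h1.1], h1.2⟩, ⟨by linarith [h2.1], h2.2⟩⟩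

theorem red_apply_round (hf : Per f) (x : ℝ × ℝ) :
    f (x.1 - round x.1, x.2 - round x.2) = f x := by
  have hp : Function.Periodic (fun t : ℝ => f (t, x.2 - round x.2)) 1 :=
    fun t => (hf (t, x.2 - round x.2)).1
  have hq : Function.Periodic (fun t : ℝ => f (x.1, t)) 1 := fun t => (hf (x.1, t)).2
  have h1 := hp.sub_int_mul_eq (round x.1) (x := x.1)
  have h2 := hq.sub_int_mul_eq (round x.2) (x := x.2)
  simp only [mul_one] at h1 h2
  rw [h1, h2]

theorem Sm.exists_max (hf : Sm f) : ∃ x, (∀ y, f y ≤ f x) ∧ Lap f x ≤ 0 := by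
  obtain ⟨x, -, hx⟩ := red_isCompact_cl.exists_isMaxOn ⟨_, red_round_mem 0⟩
    hf.smooth.continuous.continuousOn
  have hx' : ∀ y, f y ≤ f x := by
    intro y
    rw [← red_apply_round hf.per y]
    exact hx (red_round_mem y)
  refine ⟨x, hx', ?_⟩
  have h1 := tool_min (f := fun y => (-1) * f y) (x := x)
    ((hf.cmul (-1)).smooth.of_le red_le2).contDiffAt
    (Eventually.of_forall fun y => by have := hx' y; simp only []; linarith)
  rw [hf.Lap_cmul] at h1
  linarith

/-- a smooth function orthogonal to all smooth functions vanishes -/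
theorem Sm.eq_zero_of_TI (hf : Sm f) (h : ∀ ψ, Sm ψ → TI (fun x => f x * ψ x) = 0) (a : ℝ × ℝ) :
    f a = 0 := by
  by_contra hne
  have h1 : TI (fun x => f (x + a) * f (x + a)) = 0 := by
    rw [← h f hf]; exact (hf.mul hf).TI_add_right a
  have hF : Sm fun x => f (x + a) * f (x + a) := (hf.comp_add a).mul (hf.comp_add a)
  have h2 : 0 < TI (fun x => f (x + a) * f (x + a)) := by
    rw [TI, setIntegral_pos_iff_support_of_nonneg_ae
      (Eventually.of_forall fun x => mul_self_nonneg _) hF.integrable]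
    have ho : IsOpen (Function.support (fun x : ℝ × ℝ => f (x + a) * f (x + a)) ∩ red_Qo) :=
      hF.smooth.continuous.isOpen_support.inter red_isOpen_Qo
    refine lt_of_lt_of_le (ho.measure_pos volume ⟨0, ?_, ?_⟩)
      (measure_mono (inter_subset_inter_right _ red_Qo_subset))
    · simp [hne]
    · constructor <;> constructor <;> norm_num
  linarith

/-- an integrable function on the torus orthogonal to all smooth functions vanishes almost everywhere -/
theorem red_ae_eq_zero (hh : IntegrableOn h Q)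
    (H : ∀ ψ, Sm ψ → TI (fun x => h x * ψ x) = 0) :
    ∀ᵐ x ∂(volume.restrict Q), h x = 0 := by
  have h1 : ∀ᵐ x : ℝ × ℝ, x ∈ red_Qo → h x = 0 := by
    refine red_isOpen_Qo.ae_eq_zero_of_integral_contDiff_smul_eq_zero
      ((hh.mono_set red_Qo_subset).locallyIntegrableOn) ?_
    intro g hg hgc hgs
    -- the support is in a smaller square
    obtain ⟨a, ha, hs⟩ : ∃ a < (1 / 2 : ℝ), ∀ x, g x ≠ 0 → |x.1| ≤ a ∧ |x.2| ≤ a := by
      rcases (tsupport g).eq_empty_or_nonempty with he | hne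
      · refine ⟨0, by norm_num, fun x hx => ?_⟩
        have := subset_tsupport g hx
        rw [he] at this; exact absurd this (notMem_empty x)
      · obtain ⟨y, hy, hmax⟩ := hgc.exists_isMaxOn hne
          (f := fun x : ℝ × ℝ => max |x.1| |x.2|) (by fun_prop)
        refine ⟨max |y.1| |y.2|, ?_, fun x hx => ?_⟩
        · obtain ⟨⟨h1, h1'⟩, h2, h2'⟩ := hgs hy
          refine max_lt (abs_lt.2 ⟨?_, ?_⟩) (abs_lt.2 ⟨?_, ?_⟩) <;> linarith
        · have : max |x.1| |x.2| ≤ max |y.1| |y.2| := hmax (subset_tsupport g hx)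
          exact ⟨(le_max_left _ _).trans this, (le_max_right _ _).trans this⟩
    have h2 : ∫ x, g x • h x = ∫ x in Q, g x • h x := by
      refine (setIntegral_eq_integral_of_forall_compl_eq_zero fun x hx => ?_).symm
      have : g x = 0 := by
        by_contra hne
        exact hx (red_Qo_subset (hgs (subset_tsupport g hne)))
      rw [this, zero_smul]
    rw [h2, ← H (perz g) ⟨perz_smooth ha hg hs, perz_per g⟩]
    refine setIntegral_congr_fun red_measurableSet_Q fun x hx => ?_
    show g x • h x = h x * perz g x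
    rw [perz_eq ha hs x hx, smul_eq_mul, mul_comm]
  rw [← Measure.restrict_congr_set red_Qo_ae]
  exact (ae_restrict_iff' red_isOpen_Qo.measurableSet).2 h1

/-- an integrable function on the torus orthogonal to all smooth functions of mean zero is constant
almost everywhere -/
theorem red_ae_const (hh : IntegrableOn h Q)
    (H : ∀ ψ, Sm ψ → TI ψ = 0 → TI (fun x => h x * ψ x) = 0) :
    ∃ c, ∀ᵐ x ∂(volume.restrict Q), h x = c := by
  refine ⟨TI h, ?_⟩
  have h1 : ∀ᵐ x ∂(volume.restrict Q), h x - TI h = 0 := by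
    refine red_ae_eq_zero (hh.sub (Sm.const _).integrable) fun ψ hψ => ?_
    have h2 := H (fun x => ψ x - TI ψ) (hψ.sub (Sm.const _)) (by
      rw [red_TI_sub hψ.integrable (Sm.const _).integrable, red_TI_const, sub_self])
    have h3 : TI (fun x => h x * (ψ x - TI ψ)) = TI (fun x => h x * ψ x) - TI ψ * TI h := by
      rw [← red_TI_cmul, ← red_TI_sub (hψ.integrable_mul hh) (hh.const_mul _)]
      exact congrArg TI (funext fun x => by ring)
    have h4 : TI (fun x => (h x - TI h) * ψ x) = TI (fun x => h x * ψ x) - TI h * TI ψ := by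
      rw [← red_TI_cmul, ← red_TI_sub (hψ.integrable_mul hh) (hψ.cmul _).integrable]
      exact congrArg TI (funext fun x => by ring)
    rw [h4]; linarith
  filter_upwards [h1] with x hx using by linarith

/-! ### the background -/

theorem red_per_Gf (hK : Per K) : Per (Gf K) := fun x => ⟨by simp only [Gf, (hK x).1], by
  simp only [Gf, (hK x).2]⟩

theorem red_per_mul (hf : Per f) (hg : Per g) : Per fun x => f x * g x := fun x => ⟨by
  simp only [(hf x).1, (hg x).1], by simp only [(hf x).2, (hg x).2]⟩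

theorem IsGreen.smK (hK : IsGreen K R) : Sm K := ⟨hK.smoothK, hK.per⟩

theorem IsGreen.red_integrable (hK : IsGreen K R) : IntegrableOn (Gf K) Q :=
  (green_logsing hK).1.integrable.1

/-- the lattice as a subgroup -/
def red_LatG : AddSubgroup (ℝ × ℝ) := ((Int.castAddHom ℝ).prodMap (Int.castAddHom ℝ)).range

instance : Countable red_LatG := by
  have : (Set.range ((Int.castAddHom ℝ).prodMap (Int.castAddHom ℝ))).Countable :=
    Set.countable_range _
  exact this.to_subtype

theorem red_cell (a : ℝ × ℝ) :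
    IsAddFundamentalDomain red_LatG ((fun x => x - a) ⁻¹' Q) (volume : Measure (ℝ × ℝ)) := by
  refine IsAddFundamentalDomain.mk'
    ((red_measurableSet_Q.preimage (measurable_id.sub_const a)).nullMeasurableSet) ?_
  intro x
  obtain ⟨m, hm, hm'⟩ := existsUnique_add_zsmul_mem_Ioc (zero_lt_one' ℝ) (x.1 - a.1) (-1 / 2)
  obtain ⟨n, hn, hn'⟩ := existsUnique_add_zsmul_mem_Ioc (zero_lt_one' ℝ) (x.2 - a.2) (-1 / 2)
  refine ⟨⟨((m : ℝ), (n : ℝ)), ⟨(m, n), rfl⟩⟩, ?_, ?_⟩
  · show ((m : ℝ), (n : ℝ)) + x - a ∈ Q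
    constructor
    · have := hm
      simp only [zsmul_eq_mul, mul_one] at this
      constructor <;> simp only [Prod.fst_sub, Prod.fst_add] <;> [linarith [this.1]; linarith [this.2]]
    · have := hn
      simp only [zsmul_eq_mul, mul_one] at this
      constructor <;> simp only [Prod.snd_sub, Prod.snd_add] <;> [linarith [this.1]; linarith [this.2]]
  · rintro ⟨y, ⟨⟨k, l⟩, rfl⟩⟩ hy
    have hy' : ((k : ℝ), (l : ℝ)) + x - a ∈ Q := hy
    obtain ⟨h1, h2⟩ := hy'
    have e1 : k = m := by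
      apply hm'
      simp only [zsmul_eq_mul, mul_one]
      constructor <;> have := h1.1 <;> have := h1.2 <;>
        simp only [Prod.fst_sub, Prod.fst_add] at * <;> linarith
    have e2 : l = n := by
      apply hn'
      simp only [zsmul_eq_mul, mul_one]
      constructor <;> have := h2.1 <;> have := h2.2 <;>
        simp only [Prod.snd_sub, Prod.snd_add] at * <;> linarith
    subst e1; subst e2; rfl

theorem red_integrable_trans (hp : Per f) (hi : IntegrableOn f Q) (a : ℝ × ℝ) :
    IntegrableOn (fun x => f (x + a)) Q := by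
  have hv : ∀ (g : red_LatG) (x : ℝ × ℝ), f (g +ᵥ x) = f x := by
    rintro ⟨y, ⟨⟨m, n⟩, rfl⟩⟩ x
    show f (((m : ℝ), (n : ℝ)) + x) = f x
    have hp1 : Function.Periodic (fun t : ℝ => f (t, n + x.2)) 1 := fun t => (hp (t, n + x.2)).1
    have hq1 : Function.Periodic (fun t : ℝ => f (x.1, t)) 1 := fun t => (hp (x.1, t)).2
    have e1 := hp1.int_mul m x.1
    have e2 := hq1.int_mul n x.2
    simp only [mul_one] at e1 e2
    have e3 : ((m : ℝ), (n : ℝ)) + x = (x.1 + m, n + x.2) := by ext <;> simp; ring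
    rw [e3, e1, add_comm, e2]
  have h0 := red_cell 0
  have h1 := red_cell a
  have h2 : (fun x : ℝ × ℝ => x - 0) ⁻¹' Q = Q := by simp
  rw [h2] at h0
  have h3 := (h0.integrableOn_iff h1 (f := f) hv).1 hi
  have h4 := (measurePreserving_add_right (volume : Measure (ℝ × ℝ)) a).integrableOn_comp_preimage
    (measurableEmbedding_addRight a) (f := f) (s := (fun x => x - a) ⁻¹' Q)
  have h5 : (fun x : ℝ × ℝ => x + a) ⁻¹' ((fun x => x - a) ⁻¹' Q) = Q := by ext x; simp
  rw [h5] at h4
  exact h4.2 h3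

theorem IsGreen.red_trans_integrable (hK : IsGreen K R) (a : ℝ × ℝ) :
    IntegrableOn (fun x => Gf K (x + a)) Q :=
  red_integrable_trans (red_per_Gf hK.per) hK.red_integrable a

theorem IsGreen.red_TI_trans (hK : IsGreen K R) (q : ℝ × ℝ) {ψ : ℝ × ℝ → ℝ} (hψ : Sm ψ) :
    TI (fun x => Gf K (x + -q) * Lap ψ x) = TI ψ - ψ q := by
  have h1 := (green_ibp hK ((hψ.comp_add q).smooth.of_le red_le2) (hψ.comp_add q).per).2.2.2
  have h2 : TI (fun x => ψ (x + q)) = TI ψ := hψ.TI_add_right q
  rw [h2] at h1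
  simp only [zero_add] at h1
  rw [← h1]
  have h3 := TI_shift (f := fun x => Gf K x * Lap (fun x => ψ (x + q)) x)
    (red_per_mul (red_per_Gf hK.per) (hψ.comp_add q).lap.per)
    ((hψ.comp_add q).lap.integrable_mul hK.red_integrable) (-q)
  rw [← h3]
  refine congrArg TI (funext fun x => ?_)
  simp only [red_Lap_comp_add, neg_add_cancel_right]

theorem IsGreen.red_ae_pos (hK : IsGreen K R) (a : ℝ × ℝ) :
    ∀ᵐ x ∂(volume.restrict Q), 0 < K (x + a) := by
  have h1 : Lat.Countable := by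
    refine ((Set.countable_range (fun z : ℤ × ℤ => (((z.1 : ℝ), (z.2 : ℝ)) : ℝ × ℝ)))).mono ?_
    rintro x ⟨m, n, rfl⟩
    exact ⟨(m, n), rfl⟩
  have h2 : ((fun x => x + a) ⁻¹' Lat).Countable :=
    h1.preimage_of_injOn (add_left_injective a).injOn
  refine ae_restrict_of_ae ?_
  filter_upwards [h2.ae_notMem volume] with x hx
  exact lt_of_le_of_ne (hK.nonneg _) fun h => hx ((hK.zero_iff _).1 h.symm)

theorem red_background (hK : IsGreen K R) {N : ℕ} {p : Fin 1 → ℝ × ℝ} {n : Fin 1 → ℕ}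
    (hn : n 0 = N) {u₀ : ℝ × ℝ → ℝ} (h : IsBackground p n u₀) :
    ∃ c, ∀ᵐ x ∂(volume.restrict Q), u₀ x = -(4 * π * N) * Gf K (x + -(p 0)) + c := by
  obtain ⟨hper, hint, hw⟩ := h
  have hG := hK.red_trans_integrable (-(p 0))
  obtain ⟨c, hc⟩ := red_ae_const (h := fun x => u₀ x + 4 * π * N * Gf K (x + -(p 0)))
    (hint.add (hG.const_mul _)) (by
    intro ψ hψ h0
    have hc := conv_green hK hψ.smooth hψ.per
    have hcS : Sm (conv (Gf K) ψ) := ⟨hc.1, hc.2.1⟩
    have hΦ : Sm fun x => (-1) * conv (Gf K) ψ x := hcS.cmul _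
    have hL : ∀ x, Lap (fun x => (-1) * conv (Gf K) ψ x) x = ψ x := by
      intro x
      rw [hcS.Lap_cmul, (hc.2.2 x).2.2.2.2, h0]; ring
    have h1 := hw _ hΦ
    have h2 := hK.red_TI_trans (p 0) hΦ
    simp only [hL] at h1 h2
    simp only [Finset.univ_unique, Fin.default_eq_zero, Finset.sum_singleton, hn] at h1
    have h3 : TI (fun x => (u₀ x + 4 * π * N * Gf K (x + -(p 0))) * ψ x) =
        TI (fun x => u₀ x * ψ x) + 4 * π * N * TI (fun x => Gf K (x + -(p 0)) * ψ x) := by
      rw [← red_TI_cmul, ← red_TI_add (hψ.integrable_mul hint) ((hψ.integrable_mul hG).const_mul _)]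
      exact congrArg TI (funext fun x => by ring)
    rw [h3, h1, h2]
    ring)
  refine ⟨c, ?_⟩
  filter_upwards [hc] with x hx
  linarith

/-! ### the reduction -/

theorem exists_isSol (hK : IsGreen K R) {N : ℕ} (hN : 3 ≤ N) {φ₀ : ℝ} (hφ : φ₀ ^ 2 = lam N)
    {p : Fin 1 → ℝ × ℝ} {n : Fin 1 → ℕ} (hn : n 0 = N) {u w : ℝ × ℝ → ℝ}
    (h : IsSolution 1 φ₀ (π / 4) p n u w) : ∃ mu om, IsSol K N mu om := by
  obtain ⟨u₀, hu₀, hv⟩ := h.background
  have hw := h.smooth
  obtain ⟨c, hc⟩ := red_background hK hn hu₀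
  set q := p 0 with hq
  have hlam : lam N = 4 * π * (N - 1) := rfl
  have hlam0 : 0 < lam N := by
    have : (3 : ℝ) ≤ N := by exact_mod_cast hN
    have := Real.pi_pos
    rw [hlam]; apply mul_pos <;> linarith
  -- the smooth part of `u`
  set v : ℝ × ℝ → ℝ := fun x => (u x - u₀ x) + c with hvdef
  have hvS : Sm v := hv.add (Sm.const c)
  have hG := hK.red_trans_integrable (-q)
  have hKS : Sm fun x => K (x + -q) := Sm.comp_add hK.smK _
  -- `mu`
  set mu : ℝ × ℝ → ℝ := fun x => 1 / (2 * π) * (Real.exp (v x) * K (x + -q) ^ N) with hmudef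
  have hmuS : Sm mu := (hvS.exp.mul (hKS.pow N)).cmul _
  have hu : ∀ᵐ x ∂(volume.restrict Q), u x = v x - 4 * π * N * Gf K (x + -q) := by
    filter_upwards [hc] with x hx
    simp only [hvdef]; linarith
  have hexp : ∀ᵐ x ∂(volume.restrict Q), Real.exp (u x) = 2 * π * mu x := by
    filter_upwards [hu, hK.red_ae_pos (-q)] with x hx hpos
    have hpi := Real.pi_pos
    rw [hx, hmudef]
    simp only [Gf]
    have : v x - 4 * π * N * (-(1 / (4 * π)) * Real.log (K (x + -q))) =
        v x + N * Real.log (K (x + -q)) := by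
      field_simp; ring
    rw [this, Real.exp_add, Real.exp_nat_mul, Real.exp_log hpos]
    field_simp
  -- the second equation, pointwise
  have hcos : Real.cos (π / 4) ^ 2 = 1 / 2 := by
    rw [Real.cos_pi_div_four, div_pow, Real.sq_sqrt (by norm_num)]; norm_num
  have eqw : ∀ x, Lap w x - (Real.exp (w x) - lam N) - 4 * π * mu x = 0 := by
    have hS : Sm fun x => Lap w x - (Real.exp (w x) - lam N) - 4 * π * mu x :=
      (hw.lap.sub (hw.exp.sub (Sm.const _))).sub (hmuS.cmul _)
    refine hS.eq_zero_of_TI fun ψ hψ => ?_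
    have h1 := h.eq_w ψ hψ
    rw [hw.TI_mul_Lap hψ] at h1
    have h2 : TI (fun x => (1 ^ 2 / (2 * Real.cos (π / 4) ^ 2) * (Real.exp (w x) - φ₀ ^ 2) +
        2 * 1 ^ 2 * Real.exp (u x)) * ψ x) =
        TI (fun x => ((Real.exp (w x) - lam N) + 4 * π * mu x) * ψ x) := by
      refine red_TI_congr ?_
      filter_upwards [hexp] with x hx
      rw [hx, hcos, hφ]; ring
    rw [h2] at h1
    have h3 : TI (fun x => (Lap w x - (Real.exp (w x) - lam N) - 4 * π * mu x) * ψ x) =
        TI (fun x => Lap w x * ψ x) -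
          TI (fun x => ((Real.exp (w x) - lam N) + 4 * π * mu x) * ψ x) := by
      rw [← red_TI_sub (hw.lap.mul hψ).integrable
        (((hw.exp.sub (Sm.const _)).add (hmuS.cmul _)).mul hψ).integrable]
      exact congrArg TI (funext fun x => by ring)
    rw [h3, h1, sub_self]
  -- the first equation, pointwise
  have equ : ∀ x, Lap v x - 4 * π * N + Real.exp (w x) + 8 * π * mu x = 0 := by
    have hS : Sm fun x => Lap v x - 4 * π * N + Real.exp (w x) + 8 * π * mu x :=
      ((hvS.lap.sub (Sm.const _)).add hw.exp).add (hmuS.cmul _)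
    refine hS.eq_zero_of_TI fun ψ hψ => ?_
    have h1 := h.eq_u ψ hψ
    simp only [Finset.univ_unique, Fin.default_eq_zero, Finset.sum_singleton, hn] at h1
    have h2 : TI (fun x => (1 ^ 2 * Real.exp (w x) + 4 * 1 ^ 2 * Real.exp (u x)) * ψ x) =
        TI (fun x => (Real.exp (w x) + 8 * π * mu x) * ψ x) := by
      refine red_TI_congr ?_
      filter_upwards [hexp] with x hx
      rw [hx]; ring
    have h3 : TI (fun x => u x * Lap ψ x) = TI (fun x => Lap v x * ψ x) -
        4 * π * N * (TI ψ - ψ q) := by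
      rw [← hK.red_TI_trans q hψ, ← hvS.TI_mul_Lap hψ, ← red_TI_cmul,
        ← red_TI_sub (hvS.mul hψ.lap).integrable ((hψ.lap.integrable_mul hG).const_mul _)]
      refine red_TI_congr ?_
      filter_upwards [hu] with x hx
      rw [hx]; ring
    rw [h2, h3] at h1
    have h4 : TI (fun x => (Lap v x - 4 * π * N + Real.exp (w x) + 8 * π * mu x) * ψ x) =
        TI (fun x => Lap v x * ψ x) - 4 * π * N * TI ψ +
          TI (fun x => (Real.exp (w x) + 8 * π * mu x) * ψ x) := by
      rw [← red_TI_cmul, ← red_TI_sub (hvS.lap.mul hψ).integrable (hψ.cmul _).integrable,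
        ← red_TI_add ((hvS.lap.mul hψ).sub (hψ.cmul _)).integrable
          ((hw.exp.add (hmuS.cmul _)).mul hψ).integrable]
      exact congrArg TI (funext fun x => by ring)
    rw [h4]; linarith
  -- `om`
  set om : ℝ × ℝ → ℝ := fun x => w x + -Real.log (lam N) with homdef
  have homS : Sm om := hw.add (Sm.const _)
  have hexpom : ∀ x, lam N * Real.exp (om x) = Real.exp (w x) := by
    intro x
    rw [homdef]; simp only []
    rw [Real.exp_add, Real.exp_neg, Real.exp_log hlam0]; field_simp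
  have eqom : ∀ x, Lap om x = lam N * (Real.exp (om x) - 1) + 4 * π * mu x := by
    intro x
    have h1 := hw.Lap_add (Sm.const (-Real.log (lam N))) x
    rw [red_Lap_const, add_zero] at h1
    have h2 : Lap om x = Lap w x := h1
    have h3 := eqw x
    have h4 := hexpom x
    rw [h2]; linarith
  -- integrals
  have hpi := Real.pi_pos
  have one : TI mu = 1 := by
    have h1 := homS.TI_Lap
    have h2 := hvS.TI_Lap
    have e1 : TI (Lap om) = TI (fun x => Real.exp (w x)) - lam N + 4 * π * TI mu := by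
      rw [← red_TI_const (lam N), ← red_TI_sub hw.exp.integrable (Sm.const _).integrable,
        ← red_TI_cmul, ← red_TI_add (hw.exp.sub (Sm.const _)).integrable (hmuS.cmul _).integrable]
      refine congrArg TI (funext fun x => ?_)
      rw [eqom x, ← hexpom x]; ring
    have e2 : TI (Lap v) = 4 * π * N - TI (fun x => Real.exp (w x)) - 8 * π * TI mu := by
      rw [← red_TI_const (4 * π * N), ← red_TI_sub (Sm.const _).integrable hw.exp.integrable,
        ← red_TI_cmul, ← red_TI_sub ((Sm.const _).sub hw.exp).integrable (hmuS.cmul _).integrable]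
      refine congrArg TI (funext fun x => ?_)
      have := equ x
      linarith
    have e3 : 4 * π * (TI mu - 1) = 0 := by
      rw [e1] at h1; rw [e2] at h2; rw [hlam] at h1; linarith
    have := (mul_eq_zero.1 e3).resolve_left (by positivity)
    linarith
  have hmu0 : ∀ x, 0 ≤ mu x := fun x => mul_nonneg (by positivity)
    (mul_nonneg (Real.exp_pos _).le (pow_nonneg (hK.nonneg _) _))
  -- the formula for `mu`
  have hc := conv_green hK hmuS.smooth hmuS.per
  have hcS : Sm (conv (Gf K) mu) := ⟨hc.1, hc.2.1⟩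
  have hfS : Sm fun x => v x + (-(4 * π)) * conv (Gf K) mu x + om x :=
    (hvS.add (hcS.cmul _)).add homS
  have hLf : ∀ x, Lap (fun x => v x + (-(4 * π)) * conv (Gf K) mu x + om x) x = 0 := by
    intro x
    rw [(hvS.add (hcS.cmul _)).Lap_add homS, hvS.Lap_add (hcS.cmul _),
      hcS.Lap_cmul, (hc.2.2 x).2.2.2.2, one, eqom x]
    have h1 := equ x
    have h2 := hexpom x
    have h4 : Lap v x = 4 * π * N - lam N * Real.exp (om x) - 8 * π * mu x := by rw [h2]; linarith
    rw [h4]; linear_combination -hlam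
  have hconst := const_of_harmonic (hfS.smooth.of_le red_le2) hfS.per hLf
  set c' := v 0 + (-(4 * π)) * conv (Gf K) mu 0 + om 0 with hc'
  have form : ∀ x, mu x = (1 / (2 * π) * Real.exp c') * K (x + -q) ^ N *
      Real.exp (4 * π * conv (Gf K) mu x - om x) := by
    intro x
    have h1 : v x = c' + (4 * π * conv (Gf K) mu x - om x) := by
      have := hconst x
      linarith
    have h2 : mu x = 1 / (2 * π) * (Real.exp (v x) * K (x + -q) ^ N) := rfl
    rw [h2, h1, Real.exp_add]; ring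
  -- translation
  set a : ℝ × ℝ := q - pt with ha
  refine ⟨fun x => mu (x + a), fun x => om (x + a), (hmuS.comp_add a).smooth,
    (homS.comp_add a).smooth, (hmuS.comp_add a).per, (homS.comp_add a).per,
    fun x => hmu0 _, ?_, ?_, 1 / (2 * π) * Real.exp c', by positivity, ?_⟩
  · rw [hmuS.TI_add_right a, one]
  · intro x; rw [red_Lap_comp_add]; exact eqom _
  · intro x
    have h1 : conv (Gf K) (fun x => mu (x + a)) x = conv (Gf K) mu (x + a) := by
      refine congrArg TI (funext fun y => ?_)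
      show Gf K y * mu (x - y + a) = Gf K y * mu (x + a - y)
      rw [sub_add_eq_add_sub]
    have h2 : x - pt = x + a + -q := by
      rw [ha]; abel
    show mu (x + a) = _
    rw [h1, form (x + a), h2]

end Red

end Pool.Agent.AO
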