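import Pool.Agent.Lib.MP_10e52e_an.Green

/-! MP_10e52e_an row Snp: L3.1 -/

namespace Pool.Agent.AO

open MeasureTheory Set Real
open scoped ContDiff

theorem snp_shift1 (x : ℝ × ℝ) : ((x.1 + 1, x.2) : ℝ × ℝ) = x + (1, 0) := by
  ext <;> simp

theorem snp_shift2 (x : ℝ × ℝ) : ((x.1, x.2 + 1) : ℝ × ℝ) = x + (0, 1) := by
  ext <;> simp

theorem snp_per_fderiv {f : ℝ × ℝ → ℝ} (h : Per f) (v : ℝ × ℝ) : Per (fun x => fderiv ℝ f x v) := by
  intro x
  constructor
  · show fderiv ℝ f (x.1 + 1, x.2) v = fderiv ℝ f x v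
    rw [snp_shift1, ← fderiv_comp_add_right]
    congr 2
    funext y
    rw [← snp_shift1]
    exact (h y).1
  · show fderiv ℝ f (x.1, x.2 + 1) v = fderiv ℝ f x v
    rw [snp_shift2, ← fderiv_comp_add_right]
    congr 2
    funext y
    rw [← snp_shift2]
    exact (h y).2

theorem snp_int1 {g : ℝ × ℝ → ℝ} (h : Per g) (x : ℝ × ℝ) (m : ℤ) : g (x.1 + m, x.2) = g x := by
  induction m using Int.induction_on generalizing x with
  | zero => simp
  | succ i ih =>
    have h1 := (h (x.1 + i, x.2)).1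
    have e : ((x.1 + (i : ℝ) + 1, x.2) : ℝ × ℝ) = (x.1 + ((i : ℤ) + 1 : ℤ), x.2) := by
      push_cast; rw [add_assoc]
    simp only at h1
    rw [e] at h1
    rw [h1]
    exact_mod_cast ih x
  | pred i ih =>
    have h1 := (h (x.1 + ((-(i : ℤ) - 1 : ℤ) : ℝ), x.2)).1
    have e : ((x.1 + ((-(i : ℤ) - 1 : ℤ) : ℝ) + 1, x.2) : ℝ × ℝ) = (x.1 + ((-(i : ℤ) : ℤ) : ℝ), x.2) := by
      push_cast; congr 1; ring
    simp only at h1
    rw [e] at h1
    rw [← h1]
    exact ih x

theorem snp_int2 {g : ℝ × ℝ → ℝ} (h : Per g) (x : ℝ × ℝ) (m : ℤ) : g (x.1, x.2 + m) = g x := by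
  induction m using Int.induction_on generalizing x with
  | zero => simp
  | succ i ih =>
    have h1 := (h (x.1, x.2 + i)).2
    have e : ((x.1, x.2 + (i : ℝ) + 1) : ℝ × ℝ) = (x.1, x.2 + ((i : ℤ) + 1 : ℤ)) := by
      push_cast; rw [add_assoc]
    simp only at h1
    rw [e] at h1
    rw [h1]
    exact_mod_cast ih x
  | pred i ih =>
    have h1 := (h (x.1, x.2 + ((-(i : ℤ) - 1 : ℤ) : ℝ))).2
    have e : ((x.1, x.2 + ((-(i : ℤ) - 1 : ℤ) : ℝ) + 1) : ℝ × ℝ) = (x.1, x.2 + ((-(i : ℤ) : ℤ) : ℝ)) := by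
      push_cast; congr 1; ring
    simp only at h1
    rw [e] at h1
    rw [← h1]
    exact ih x

/-- a continuous periodic function has a maximum -/
theorem snp_max {g : ℝ × ℝ → ℝ} (h : Per g) (hc : Continuous g) : ∃ x, ∀ y, g y ≤ g x := by
  have hcomp : IsCompact (Icc (-1 / 2 : ℝ) (1 / 2) ×ˢ Icc (-1 / 2 : ℝ) (1 / 2)) :=
    isCompact_Icc.prod isCompact_Icc
  obtain ⟨x, -, hx⟩ := hcomp.exists_isMaxOn ⟨((0 : ℝ), (0 : ℝ)), by
    constructor <;> constructor <;> norm_num⟩ hc.continuousOn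
  refine ⟨x, fun y => ?_⟩
  have h1 : g (y.1 - round y.1, y.2 - round y.2) = g y := by
    have a1 := snp_int1 h (y.1, y.2 - round y.2) (-round y.1)
    have a2 := snp_int2 h y (-round y.2)
    push_cast at a1 a2
    rw [← sub_eq_add_neg] at a1 a2
    rw [a1, a2]
  rw [← h1]
  apply hx
  have b1 := abs_le.1 (abs_sub_round y.1)
  have b2 := abs_le.1 (abs_sub_round y.2)
  constructor
  · constructor <;> simp only <;> linarith [b1.1, b1.2]
  · constructor <;> simp only <;> linarith [b2.1, b2.2]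

theorem snp_lam_pos {N : ℕ} (hN : 2 ≤ N) : 0 < lam N := by
  unfold lam
  have h1 : (2 : ℝ) ≤ N := by exact_mod_cast hN
  have h2 := Real.pi_pos
  have h3 : 0 < (N : ℝ) - 1 := by linarith
  positivity

theorem snp_lap_neg (f : ℝ × ℝ → ℝ) (x : ℝ × ℝ) : Lap (fun y => -f y) x = -Lap f x := by
  have h1 : D1 (fun y => -f y) = fun y => -D1 f y := by
    funext y
    unfold D1
    rw [fderiv_fun_neg]
    rfl
  have h2 : D2 (fun y => -f y) = fun y => -D2 f y := by
    funext y
    unfold D2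
    rw [fderiv_fun_neg]
    rfl
  unfold Lap
  rw [h1, h2]
  unfold D1 D2
  rw [fderiv_fun_neg, fderiv_fun_neg]
  simp only [ContinuousLinearMap.neg_apply]
  ring

/-- om <= 0 -/
theorem sol_nonpos {K : ℝ × ℝ → ℝ} {N : ℕ} {mu om : ℝ × ℝ → ℝ} (hN : 2 ≤ N)
    (h : IsSol K N mu om) : ∀ x, om x ≤ 0 := by
  obtain ⟨x0, hx0⟩ := snp_max h.pom h.som.continuous
  have h1 : IsLocalMin (fun y => -om y) x0 := Filter.Eventually.of_forall fun y => neg_le_neg (hx0 y)
  have h2 : 0 ≤ Lap (fun y => -om y) x0 :=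
    tool_min ((h.som.neg.contDiffAt).of_le (by norm_cast)) h1
  rw [snp_lap_neg, h.eq x0] at h2
  have h3 := h.nn x0
  have h4 := snp_lam_pos hN
  have h5 := Real.pi_pos
  have h6 : Real.exp (om x0) ≤ 1 := by
    by_contra hcon
    push Not at hcon
    have h7 : 0 < lam N * (Real.exp (om x0) - 1) := mul_pos h4 (by linarith)
    have h8 : 0 ≤ 4 * π * mu x0 := by positivity
    linarith
  have h7 : om x0 ≤ 0 := by
    rw [← Real.exp_zero] at h6
    exact Real.exp_le_exp.1 h6
  intro x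
  exact (hx0 x).trans h7

theorem snp_integrable {f : ℝ × ℝ → ℝ} (hf : Continuous f) : IntegrableOn f Q := by
  have hcomp : IsCompact (Icc (-1 / 2 : ℝ) (1 / 2) ×ˢ Icc (-1 / 2 : ℝ) (1 / 2)) :=
    isCompact_Icc.prod isCompact_Icc
  exact (hf.continuousOn.integrableOn_compact hcomp).mono_set
    (Set.prod_mono Ioc_subset_Icc_self Ioc_subset_Icc_self)

/-- TI sigma = 4 pi, 0 <= sigma <= lam, smooth, periodic -/
theorem sol_sigma {K : ℝ × ℝ → ℝ} {N : ℕ} {mu om : ℝ × ℝ → ℝ} (hN : 2 ≤ N)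
    (h : IsSol K N mu om) : ContDiff ℝ ∞ (sg N om) ∧ Per (sg N om) ∧ (∀ x, 0 ≤ sg N om x) ∧
      (∀ x, sg N om x ≤ lam N) ∧ TI (sg N om) = 4 * π := by
  have hl := snp_lam_pos hN
  have hs : ContDiff ℝ ∞ (sg N om) := contDiff_const.mul (contDiff_const.sub h.som.exp)
  refine ⟨hs, ?_, ?_, ?_, ?_⟩
  · intro x
    unfold sg
    rw [(h.pom x).1, (h.pom x).2]
    exact ⟨rfl, rfl⟩
  · intro x
    unfold sg
    have h1 := sol_nonpos hN h x
    have h2 : Real.exp (om x) ≤ 1 := Real.exp_le_one_iff.2 h1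
    exact mul_nonneg hl.le (by linarith)
  · intro x
    unfold sg
    have h2 := Real.exp_pos (om x)
    nlinarith
  · have hD1 : ContDiff ℝ 1 (D1 om) := by
      unfold D1
      exact ((h.som.fderiv_right (m := 1) (by norm_cast)).clm_apply contDiff_const)
    have hD2 : ContDiff ℝ 1 (D2 om) := by
      unfold D2
      exact ((h.som.fderiv_right (m := 1) (by norm_cast)).clm_apply contDiff_const)
    have h1 : TI (D1 (D1 om)) = 0 := TI_D1 hD1 (snp_per_fderiv h.pom (1, 0))
    have h2 : TI (D2 (D2 om)) = 0 := TI_D2 hD2 (snp_per_fderiv h.pom (0, 1))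
    have hc1 : Continuous (D1 (D1 om)) := by
      unfold D1
      exact ((hD1.continuous_fderiv (by norm_num)).clm_apply continuous_const)
    have hc2 : Continuous (D2 (D2 om)) := by
      unfold D2
      exact ((hD2.continuous_fderiv (by norm_num)).clm_apply continuous_const)
    have h3 : TI (fun x => D1 (D1 om) x + D2 (D2 om) x) = 0 := by
      unfold TI at h1 h2 ⊢
      rw [integral_add (snp_integrable hc1) (snp_integrable hc2), h1, h2, add_zero]
    have h4 : (fun x => D1 (D1 om) x + D2 (D2 om) x) = fun x => 4 * π * mu x - sg N om x := by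
      funext x
      have := h.eq x
      unfold Lap at this
      rw [this]
      unfold sg
      ring
    rw [h4] at h3
    unfold TI at h3 ⊢
    have hmu : IntegrableOn (fun x => 4 * π * mu x) Q :=
      snp_integrable (continuous_const.mul h.smu.continuous)
    rw [integral_sub hmu (snp_integrable hs.continuous), integral_const_mul] at h3
    have h5 := h.one
    unfold TI at h5
    rw [h5] at h3
    linarith

end Pool.Agent.AO
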