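import Pool.Agent.Lib.MP_10e52e_an.Green
import Pool.Agent.Lib.MP_10e52e_an.Snp
import Pool.Agent.Lib.MP_10e52e_an.Calc
import Pool.Agent.Lib.MP_10e52e_an.Integral

/-! MP_10e52e_an row Srep: L3.2, L3.3 -/

namespace Pool.Agent.AO

open MeasureTheory Set Real
open scoped ContDiff

theorem srep_int {k f : ℝ × ℝ → ℝ} (hk : IntegrableOn k Q) (hf : Continuous f) (hp : Per f)
    (x : ℝ × ℝ) : IntegrableOn (fun y => k y * f (x - y)) Q := by
  obtain ⟨C, hC⟩ := hp.bounded hf
  have hc : Continuous fun y => f (x - y) := hf.comp (continuous_const.sub continuous_id)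
  refine Integrable.mul_bdd (c := C) hk hc.aestronglyMeasurable ?_
  refine Filter.Eventually.of_forall fun y => ?_
  rw [Real.norm_eq_abs]
  exact hC _

theorem srep_lin {k f g : ℝ × ℝ → ℝ} (hk : IntegrableOn k Q) (hf : Continuous f) (hpf : Per f)
    (hg : Continuous g) (hpg : Per g) (c : ℝ) (x : ℝ × ℝ) :
    conv k (fun y => c * f y - g y) x = c * conv k f x - conv k g x := by
  unfold conv
  have e : (fun y => k y * (c * f (x - y) - g (x - y))) =
      fun y => c * (k y * f (x - y)) - k y * g (x - y) := by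
    funext y; ring
  rw [e, TI_sub ((srep_int hk hf hpf x).const_mul c) (srep_int hk hg hpg x), TI_const_mul]

/-- L3.2 and its gradient -/
theorem sol_rep {K R : ℝ × ℝ → ℝ} (hG : IsGreen K R) {N : ℕ} {mu om : ℝ × ℝ → ℝ} (hN : 2 ≤ N)
    (h : IsSol K N mu om) : ∀ x,
      -om x = -TI om + 4 * π * conv (Gf K) mu x - conv (Gf K) (sg N om) x ∧
      D1 om x = -(4 * π) * conv (D1 (Gf K)) mu x + conv (D1 (Gf K)) (sg N om) x ∧
      D2 om x = -(4 * π) * conv (D2 (Gf K)) mu x + conv (D2 (Gf K)) (sg N om) x := by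
  obtain ⟨ssg, psg, _, _, _⟩ := sol_sigma hN h
  obtain ⟨hls, _⟩ := green_logsing hG
  obtain ⟨i0, _, i1, i2⟩ := hls.integrable
  have hL : Lap om = fun y => 4 * π * mu y - sg N om y := by
    funext y
    rw [h.eq y]
    unfold sg
    ring
  have hcL : ContDiff ℝ ∞ (Lap om) := by
    rw [hL]
    exact (contDiff_const.mul h.smu).sub ssg
  have hpL : Per (Lap om) := by
    rw [hL]
    intro y
    refine ⟨?_, ?_⟩
    · simp only
      rw [(h.pmu y).1, (psg y).1]
    · simp only
      rw [(h.pmu y).2, (psg y).2]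
  have hrep := green_rep hG h.som h.pom
  obtain ⟨cs, _, hder⟩ := conv_green hG hcL hpL
  have hom : om = fun y => TI om - conv (Gf K) (Lap om) y := funext hrep
  have cmu := h.smu.continuous
  have csg := ssg.continuous
  intro x
  have hdiff : DifferentiableAt ℝ (conv (Gf K) (Lap om)) x :=
    (cs.differentiable (by simp)).differentiableAt
  refine ⟨?_, ?_, ?_⟩
  · have e := hrep x
    rw [hL, srep_lin i0 cmu h.pmu csg psg (4 * π) x] at e
    linarith
  · have e : D1 om x = -D1 (conv (Gf K) (Lap om)) x := by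
      have e1 := D1_sub (f := fun _ : ℝ × ℝ => TI om) (differentiableAt_const _) hdiff
      rw [D1_const] at e1
      rw [← hom] at e1
      rw [e1]
      ring
    rw [e, (hder x).2.2.1, hL, srep_lin i1 cmu h.pmu csg psg (4 * π) x]
    ring
  · have e : D2 om x = -D2 (conv (Gf K) (Lap om)) x := by
      have e1 := D2_sub (f := fun _ : ℝ × ℝ => TI om) (differentiableAt_const _) hdiff
      rw [D2_const] at e1
      rw [← hom] at e1
      rw [e1]
      ring
    rw [e, (hder x).2.2.2.1, hL, srep_lin i2 cmu h.pmu csg psg (4 * π) x]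
    ring

/-- L3.3 -/
theorem sol_MF {K R : ℝ × ℝ → ℝ} (hG : IsGreen K R) {N : ℕ} {mu om : ℝ × ℝ → ℝ} (hN : 2 ≤ N)
    (h : IsSol K N mu om) : ∃ k : ℝ, IsMF K N 0 k mu (sg N om) := by
  obtain ⟨ssg, psg, s0, s1, Ts⟩ := sol_sigma hN h
  obtain ⟨k, hk, hdens⟩ := h.dens
  refine ⟨k * Real.exp (-TI om), ?_⟩
  refine ⟨by positivity, h.smu, ssg, h.pmu, psg, h.nn, h.one, s0, s1, Ts, ?_⟩
  intro x
  rw [hdens x, add_zero]
  have hr := (sol_rep hG hN h x).1
  have e : 4 * π * conv (Gf K) mu x - om x =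
      -TI om + (8 * π * conv (Gf K) mu x - conv (Gf K) (sg N om) x) := by
    linarith
  rw [e, Real.exp_add]
  ring

end Pool.Agent.AO
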