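import Pool.Agent.Lib.MP_10e52e_an.Green

/-! MP_10e52e_an row Sshift: translation of mean field data -/

namespace Pool.Agent.AO

open MeasureTheory Set Real
open scoped ContDiff

theorem sshift_per {f : ℝ × ℝ → ℝ} (hp : Per f) (w : ℝ × ℝ) : Per (fun x => f (x + w)) := by
  intro x
  have h := hp (x + w)
  have e1 : ((x.1 + 1, x.2) : ℝ × ℝ) + w = ((x + w).1 + 1, (x + w).2) := by
    ext
    · simp only [Prod.fst_add]; ring
    · simp only [Prod.snd_add]
  have e2 : ((x.1, x.2 + 1) : ℝ × ℝ) + w = ((x + w).1, (x + w).2 + 1) := by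
    ext
    · simp only [Prod.fst_add]
    · simp only [Prod.snd_add]; ring
  exact ⟨by simp only; rw [e1]; exact h.1, by simp only; rw [e2]; exact h.2⟩

theorem sshift_integrable {f : ℝ × ℝ → ℝ} (hf : Continuous f) : IntegrableOn f Q := by
  have hK : IsCompact (Icc (-1 / 2 : ℝ) (1 / 2) ×ˢ Icc (-1 / 2 : ℝ) (1 / 2)) :=
    isCompact_Icc.prod isCompact_Icc
  exact (hf.continuousOn.integrableOn_compact hK).mono_set
    (prod_mono Ioc_subset_Icc_self Ioc_subset_Icc_self)

theorem sshift_conv (f g : ℝ × ℝ → ℝ) (w x : ℝ × ℝ) :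
    conv f (fun y => g (y + w)) x = conv f g (x + w) := by
  have h : ∀ y : ℝ × ℝ, x - y + w = x + w - y := fun y => by abel
  simp only [conv, h]

/-- translation of mean field data -/
theorem MF_shift {K R : ℝ × ℝ → ℝ} (hG : IsGreen K R) {N : ℕ} {z : ℝ × ℝ} {k : ℝ}
    {mu s : ℝ × ℝ → ℝ} (h : IsMF K N z k mu s) (w : ℝ × ℝ) :
    IsMF K N (z + w) k (fun x => mu (x + w)) (fun x => s (x + w)) where
  kpos := h.kpos
  smu := h.smu.comp (contDiff_id.add contDiff_const)
  ss := h.ss.comp (contDiff_id.add contDiff_const)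
  pmu := sshift_per h.pmu w
  ps := sshift_per h.ps w
  nn := fun x => h.nn _
  one := by
    rw [TI_shift h.pmu (sshift_integrable h.smu.continuous)]
    exact h.one
  s0 := fun x => h.s0 _
  s1 := fun x => h.s1 _
  Ts := by
    rw [TI_shift h.ps (sshift_integrable h.ss.continuous)]
    exact h.Ts
  dens := by
    intro x
    have h1 := h.dens (x + w)
    have h2 : x + (z + w) - pt = x + w + z - pt := by abel
    rw [sshift_conv, sshift_conv, h2]
    exact h1

end Pool.Agent.AO
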