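import Pool.Agent.Lib.MP_10e52e_an.Defs

/-!
# The Ambjorn-Olesen system on the unit square torus

The torus is `ℝ² / ℤ²` (area one); functions on it are the `ℤ²`-periodic functions on `ℝ × ℝ` (`Per`), `TI f` is the
integral of `f` over the torus and `Lap` the Laplacian.
-/

namespace Pool.Agent.AO

open MeasureTheory Set Real
open scoped ContDiff

/-- smooth functions on the torus -/
structure Sm (f : ℝ × ℝ → ℝ) : Prop where
  smooth : ContDiff ℝ ∞ f
  per : Per f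

/-- `u₀` is an integrable periodic function with `Δu₀ = -4πN + 4π ∑ n_l δ_{p_l}` in the sense of distributions
(`N = ∑ n_l`; the torus has area one) -/
def IsBackground {m : ℕ} (p : Fin m → ℝ × ℝ) (n : Fin m → ℕ) (u₀ : ℝ × ℝ → ℝ) : Prop :=
  Per u₀ ∧ IntegrableOn u₀ Q ∧ ∀ ψ, Sm ψ → TI (fun x => u₀ x * Lap ψ x) =
    -(4 * π * ∑ l, (n l : ℝ)) * TI ψ + 4 * π * ∑ l, (n l : ℝ) * ψ (p l)

/-- `(u, w)` is a solution of the Ambjorn-Olesen system on the unit square torus with vortex points `p_l` of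
multiplicity `n_l`: `u - u₀` and `w` are smooth on the torus, and
`-Δu = g² e^w + 4 g² e^u - 4π ∑ n_l δ_{p_l}`, `Δw = g² / (2 cos² θ) (e^w - φ₀²) + 2 g² e^u`
in the sense of distributions -/
structure IsSolution (g φ₀ θ : ℝ) {m : ℕ} (p : Fin m → ℝ × ℝ) (n : Fin m → ℕ) (u w : ℝ × ℝ → ℝ) :
    Prop where
  background : ∃ u₀, IsBackground p n u₀ ∧ Sm fun x => u x - u₀ x
  smooth : Sm w
  eq_u : ∀ ψ, Sm ψ → -TI (fun x => u x * Lap ψ x) =
    TI (fun x => (g ^ 2 * Real.exp (w x) + 4 * g ^ 2 * Real.exp (u x)) * ψ x) -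
      4 * π * ∑ l, (n l : ℝ) * ψ (p l)
  eq_w : ∀ ψ, Sm ψ → TI (fun x => w x * Lap ψ x) =
    TI (fun x => (g ^ 2 / (2 * Real.cos θ ^ 2) * (Real.exp (w x) - φ₀ ^ 2) +
      2 * g ^ 2 * Real.exp (u x)) * ψ x)

end Pool.Agent.AO
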